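import Pool.Agent.Lib.LogCh.ADefs

/-!
# Group A, module AAlg: algebra of determinants and scalar products
-/

set_option autoImplicit false

namespace Pool.Agent.LogCh

open Real
open Pool.Agent.NSqP
open Pool.Agent.MP484c84Par (ballG mem_ballG crossG dotG)

private theorem nN_int (z : GaussianInt) : ((nN z : ℕ) : ℤ) = z.re * z.re + z.im * z.im := by
  rw [nN_cast_int, Zsqrtd.norm_def]
  ring

theorem mem_VV {N : ℕ} {z : GaussianInt} : z ∈ VV N ↔ nN z ≤ N ∧ Prim z := by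
  unfold VV
  rw [mem_pann (Nat.cast_nonneg N)]
  constructor
  · rintro ⟨⟨_, h2⟩, h3⟩
    exact ⟨by exact_mod_cast h2, h3⟩
  · rintro ⟨h2, h3⟩
    refine ⟨⟨?_, by exact_mod_cast h2⟩, h3⟩
    exact_mod_cast nN_pos (prim_ne_zero h3)

theorem prim_of_cross2 {z w : GaussianInt} (h : crossG z w = 1) : Prim z ∧ Prim w := by
  have h' : z.re * w.im - z.im * w.re = 1 := h
  constructor
  · show Int.gcd z.re z.im = 1
    rw [← Int.isCoprime_iff_gcd_eq_one]
    exact ⟨w.im, -w.re, by linarith⟩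
  · show Int.gcd w.re w.im = 1
    rw [← Int.isCoprime_iff_gcd_eq_one]
    exact ⟨-z.im, z.re, by linarith⟩

theorem mem_CP {N : ℕ} {z w : GaussianInt} :
    (z, w) ∈ CP N ↔ nN z ≤ N ∧ nN w ≤ N ∧ crossG z w = 1 ∧ N < nN (z + w) := by
  unfold CP
  rw [Finset.mem_filter, Finset.mem_product]
  simp only [mem_VV]
  constructor
  · rintro ⟨⟨⟨h1, _⟩, h2, _⟩, h3, h4⟩
    exact ⟨h1, h2, h3, h4⟩
  · rintro ⟨h1, h2, h3, h4⟩
    have := prim_of_cross2 h3
    exact ⟨⟨⟨h1, this.1⟩, h2, this.2⟩, h3, h4⟩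

theorem mem_dpairs {m : ℤ} {N : ℕ} {p : GaussianInt × GaussianInt} :
    p ∈ dpairs m N ↔ (nN p.1 ≤ N ∧ Prim p.1) ∧ (nN p.2 ≤ N ∧ Prim p.2) ∧
      crossG p.1 p.2 = m ∧ 0 < dotG p.1 p.2 := by
  unfold dpairs
  rw [Finset.mem_filter, Finset.mem_product]
  simp only [mem_VV, and_assoc]

theorem dot_sq (z w : GaussianInt) :
    dotG z w ^ 2 + crossG z w ^ 2 = (nN z : ℤ) * (nN w : ℤ) := by
  rw [nN_int, nN_int]; unfold crossG dotG; ring

theorem nN_add (z w : GaussianInt) :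
    ((nN (z + w) : ℕ) : ℤ) = (nN z : ℤ) + (nN w : ℤ) + 2 * dotG z w := by
  rw [nN_int, nN_int, nN_int]; unfold dotG
  simp only [Zsqrtd.re_add, Zsqrtd.im_add]; ring

theorem CP_dot {N : ℕ} {z w : GaussianInt} (h : (z, w) ∈ CP N) : 0 ≤ dotG z w := by
  obtain ⟨h1, h2, h3, h4⟩ := mem_CP.1 h
  have e1 := dot_sq z w
  rw [h3] at e1
  have e2 := nN_add z w
  have e3 : (N : ℤ) < (nN (z + w) : ℕ) := by exact_mod_cast h4
  rw [e2] at e3
  have h1' : (nN z : ℤ) ≤ N := by exact_mod_cast h1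
  have h2' : (nN w : ℤ) ≤ N := by exact_mod_cast h2
  by_contra hneg
  push Not at hneg
  set s := dotG z w with hs
  have hz : 0 < -2 * s := by linarith
  have a1 : -2 * s < nN z := by linarith
  have a2 : -2 * s < nN w := by linarith
  have a3 : (-2 * s) * (-2 * s) < (nN z : ℤ) * nN w := by nlinarith
  rw [← e1] at a3
  have : 3 * s ^ 2 < 1 := by nlinarith
  nlinarith

theorem cross_swap (z w : GaussianInt) : crossG w z = - crossG z w := by
  unfold crossG; ring

theorem dot_swap (z w : GaussianInt) : dotG w z = dotG z w := by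
  unfold dotG; ring

theorem cross_self (z : GaussianInt) : crossG z z = 0 := by
  unfold crossG; ring

theorem par_prim {z w : GaussianInt} (hz : Prim z) (hw : Prim w) (h : crossG z w = 0) :
    w = z ∨ w = -z := by
  have h' : z.re * w.im = z.im * w.re := by unfold crossG at h; linarith
  have hz' : IsCoprime z.re z.im := Int.isCoprime_iff_gcd_eq_one.2 hz
  have hw' : IsCoprime w.re w.im := Int.isCoprime_iff_gcd_eq_one.2 hw
  have d1 : z.re ∣ w.re := hz'.dvd_of_dvd_mul_left ⟨w.im, by linarith⟩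
  have d2 : w.re ∣ z.re := by
    refine hw'.dvd_of_dvd_mul_right ⟨z.im, by linarith⟩
  have d3 : z.im ∣ w.im := hz'.symm.dvd_of_dvd_mul_left ⟨w.re, by linarith⟩
  have d4 : w.im ∣ z.im := hw'.symm.dvd_of_dvd_mul_left ⟨z.re, by linarith⟩
  have e1 : w.re.natAbs = z.re.natAbs :=
    Nat.dvd_antisymm (Int.natAbs_dvd_natAbs.2 d2) (Int.natAbs_dvd_natAbs.2 d1)
  have e2 : w.im.natAbs = z.im.natAbs :=
    Nat.dvd_antisymm (Int.natAbs_dvd_natAbs.2 d4) (Int.natAbs_dvd_natAbs.2 d3)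
  rcases Int.natAbs_eq_natAbs_iff.1 e1 with f1 | f1 <;>
    rcases Int.natAbs_eq_natAbs_iff.1 e2 with f2 | f2
  · exact Or.inl (Zsqrtd.ext f1 f2)
  · rw [f1, f2] at h'
    have h0 : z.re * z.im = 0 := by linarith
    rcases mul_eq_zero.1 h0 with h0 | h0
    · exact Or.inr (Zsqrtd.ext (by rw [Zsqrtd.re_neg, f1, h0, neg_zero]) (by rw [Zsqrtd.im_neg, f2]))
    · exact Or.inl (Zsqrtd.ext f1 (by rw [f2, h0, neg_zero]))
  · rw [f1, f2] at h'
    have h0 : z.re * z.im = 0 := by linarith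
    rcases mul_eq_zero.1 h0 with h0 | h0
    · exact Or.inl (Zsqrtd.ext (by rw [f1, h0, neg_zero]) f2)
    · exact Or.inr (Zsqrtd.ext (by rw [Zsqrtd.re_neg, f1]) (by rw [Zsqrtd.im_neg, f2, h0, neg_zero]))
  · exact Or.inr (Zsqrtd.ext (by rw [Zsqrtd.re_neg, f1]) (by rw [Zsqrtd.im_neg, f2]))

theorem comb {z w : GaussianInt} (h : crossG z w = 1) (v : GaussianInt) :
    v = ((crossG v w : ℤ) : GaussianInt) * z + ((crossG z v : ℤ) : GaussianInt) * w := by
  have h' : z.re * w.im - z.im * w.re = 1 := h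
  apply Zsqrtd.ext
  · simp only [Zsqrtd.re_add, Zsqrtd.re_mul, Zsqrtd.re_intCast, Zsqrtd.im_intCast]
    unfold crossG
    linear_combination (-v.re) * h'
  · simp only [Zsqrtd.im_add, Zsqrtd.im_mul, Zsqrtd.re_intCast, Zsqrtd.im_intCast]
    unfold crossG
    linear_combination (-v.im) * h'

theorem cross_smul (a b c d : ℤ) (z w : GaussianInt) :
    crossG ((a : GaussianInt) * z + (b : GaussianInt) * w)
      ((c : GaussianInt) * z + (d : GaussianInt) * w) = (a * d - b * c) * crossG z w := by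
  unfold crossG
  simp only [Zsqrtd.re_add, Zsqrtd.re_mul, Zsqrtd.im_add, Zsqrtd.im_mul, Zsqrtd.re_intCast,
    Zsqrtd.im_intCast]
  ring

theorem cross_add_mul (u z w : GaussianInt) (a b : ℤ) :
    crossG u ((a : GaussianInt) * z + (b : GaussianInt) * w) = a * crossG u z + b * crossG u w := by
  unfold crossG
  simp only [Zsqrtd.re_add, Zsqrtd.re_mul, Zsqrtd.im_add, Zsqrtd.im_mul, Zsqrtd.re_intCast,
    Zsqrtd.im_intCast]
  ring

theorem dot_add_mul (u z w : GaussianInt) (a b : ℤ) :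
    dotG u ((a : GaussianInt) * z + (b : GaussianInt) * w) = a * dotG u z + b * dotG u w := by
  unfold dotG
  simp only [Zsqrtd.re_add, Zsqrtd.re_mul, Zsqrtd.im_add, Zsqrtd.im_mul, Zsqrtd.re_intCast,
    Zsqrtd.im_intCast]
  ring

theorem dot_self (z : GaussianInt) : dotG z z = (nN z : ℤ) := by
  rw [nN_int]; rfl

theorem plucker (a b c d : GaussianInt) :
    crossG a b * crossG c d = crossG a c * crossG b d - crossG a d * crossG b c := by
  unfold crossG; ring

theorem cross_dot (a b v : GaussianInt) :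
    crossG a v * dotG b v - crossG b v * dotG a v = crossG a b * (nN v : ℤ) := by
  rw [nN_int]; unfold crossG dotG; ring

theorem cross_dot' (u a b : GaussianInt) :
    crossG u b * dotG u a - crossG u a * dotG u b = crossG a b * (nN u : ℤ) := by
  rw [nN_int]; unfold crossG dotG; ring

theorem nN_comb (a b : ℤ) (z w : GaussianInt) :
    ((nN ((a : GaussianInt) * z + (b : GaussianInt) * w) : ℕ) : ℤ) =
      a ^ 2 * (nN z : ℤ) + b ^ 2 * (nN w : ℤ) + 2 * a * b * dotG z w := by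
  rw [nN_int, nN_int, nN_int]; unfold dotG
  simp only [Zsqrtd.re_add, Zsqrtd.re_mul, Zsqrtd.im_add, Zsqrtd.im_mul, Zsqrtd.re_intCast,
    Zsqrtd.im_intCast]
  ring

end Pool.Agent.LogCh
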