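import Pool.Agent.Lib.LogCh.ASucc

/-!
# Group A, module AAng: angles along an orbit

Let `z_j = sgi N j z`, all in `VV N`, so nonzero; `ζ_j = conj z_j * z_{j+1} = d_j + i`
(`d_j = dotG z_j z_{j+1} ≥ 0` by `CP_dot`, imaginary part `crossG = 1`, `sgi_cross`), `φ_j = arg ζ_j ∈ (0, π/2]`,
`sin φ_j = 1/|ζ_j| = 1/(|z_j||z_{j+1}|)`. Put `θ 0 = 0`, `θ (j+1) = θ j + φ_j`. Then
`z_j = |z_j| u e^{i θ_j}`, `u = z_0/|z_0|`, by induction (`z_{j+1} = z_j ζ_j/|z_j|^2`,
`ζ_j = |ζ_j| e^{i φ_j}`: `Complex.norm_mul_exp_arg_mul_I`). Hence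
`conj z_i z_j = |z_i||z_j| e^{i(θ_j - θ_i)}`, whose real part is `dotG z_i z_j` and imaginary part
`crossG z_i z_j`. `|z| = √(nN z)` (`NSqP.norm_toC_sq`). Step: `(2/π) φ ≤ sin φ` on `[0, π/2]`
(`Real.mul_le_sin`), so `φ_j ≤ (π/2)/(|z_j||z_{j+1}|) ≤ 2/(..)`.
-/

set_option autoImplicit false

namespace Pool.Agent.LogCh

open Real
open Pool.Agent.NSqP
open Pool.Agent.MP484c84Par (ballG mem_ballG crossG dotG)

open scoped ComplexConjugate

private lemma aang_norm (z : GaussianInt) : ‖(z : ℂ)‖ = √(nN z) := by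
  rw [← norm_toC_sq, Real.sqrt_sq (norm_nonneg _)]

private lemma aang_re (z w : GaussianInt) : (conj (z : ℂ) * (w : ℂ)).re = (dotG z w : ℝ) := by
  unfold dotG
  rw [Complex.mul_re, Complex.conj_re, Complex.conj_im]
  simp only [← GaussianInt.intCast_re, ← GaussianInt.intCast_im]
  push_cast
  ring

private lemma aang_im (z w : GaussianInt) : (conj (z : ℂ) * (w : ℂ)).im = (crossG z w : ℝ) := by
  unfold crossG
  rw [Complex.mul_im, Complex.conj_re, Complex.conj_im]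
  simp only [← GaussianInt.intCast_re, ← GaussianInt.intCast_im]
  push_cast
  ring

theorem exists_ang {N : ℕ} {z : GaussianInt} (hz : z ∈ VV N) : ∃ θ : ℕ → ℝ, IsAng N z θ := by
  set a : ℕ → ℂ := fun j => ((sgi N j z : GaussianInt) : ℂ) with ha
  have hne : ∀ j, sgi N j z ≠ 0 := fun j => prim_ne_zero (mem_VV.1 (sgi_mem hz j)).2
  have ha0 : ∀ j, a j ≠ 0 := fun j => toC_ne_zero (hne j)
  have han : ∀ j, ‖a j‖ = √(nN (sgi N j z)) := fun j => aang_norm _
  have hpos : ∀ j, 0 < ‖a j‖ := fun j => norm_pos_iff.2 (ha0 j)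
  set ζ : ℕ → ℂ := fun j => conj (a j) * a (j + 1) with hζ
  have hζre : ∀ j, 0 ≤ (ζ j).re := by
    intro j
    have h1 : (ζ j).re = (dotG (sgi N j z) (sgi N (j + 1) z) : ℝ) := aang_re _ _
    rw [h1]
    have h2 : (sgi N j z, sgi N (j + 1) z) ∈ CP N := by
      rw [sgi_succ]
      exact sg_CP (sgi_mem hz j)
    exact_mod_cast CP_dot h2
  have hζim : ∀ j, (ζ j).im = 1 := by
    intro j
    have h1 : (ζ j).im = (crossG (sgi N j z) (sgi N (j + 1) z) : ℝ) := aang_im _ _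
    rw [h1, sgi_cross hz j]
    norm_num
  have hζn : ∀ j, ‖ζ j‖ = ‖a j‖ * ‖a (j + 1)‖ := by
    intro j
    simp only [hζ]
    rw [norm_mul, Complex.norm_conj]
  have hζ0 : ∀ j, ζ j ≠ 0 := by
    intro j h
    have := hζim j
    rw [h] at this
    simp at this
  set φ : ℕ → ℝ := fun j => Complex.arg (ζ j) with hφ
  have hsin : ∀ j, Real.sin (φ j) = 1 / (‖a j‖ * ‖a (j + 1)‖) := by
    intro j
    simp only [hφ]
    rw [Complex.sin_arg, hζim, hζn]
  have hle : ∀ j, |φ j| ≤ π / 2 := fun j => Complex.abs_arg_le_pi_div_two_iff.2 (hζre j)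
  have hφpos : ∀ j, 0 < φ j := by
    intro j
    by_contra hc
    push Not at hc
    have h1 : 0 < Real.sin (φ j) := by
      rw [hsin j]
      have := hpos j
      have := hpos (j + 1)
      positivity
    have h2 := (abs_le.1 (hle j)).1
    have h3 : Real.sin (φ j) ≤ 0 :=
      Real.sin_nonpos_of_nonpos_of_neg_pi_le hc (by linarith [Real.pi_pos])
    linarith
  set θ : ℕ → ℝ := fun j => ∑ i ∈ Finset.range j, φ i with hθ
  have hθs : ∀ j, θ (j + 1) = θ j + φ j := fun j => Finset.sum_range_succ _ _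
  have hpolar : ∀ j, a j = (‖a j‖ : ℂ) * (a 0 / (‖a 0‖ : ℂ)) *
      Complex.exp ((θ j : ℂ) * Complex.I) := by
    intro j
    induction j with
    | zero =>
      have h1 : θ 0 = 0 := by simp [hθ]
      rw [h1, Complex.ofReal_zero, zero_mul, Complex.exp_zero, mul_one]
      have h2 : (‖a 0‖ : ℂ) ≠ 0 := by exact_mod_cast (hpos 0).ne'
      field_simp
    | succ j ih =>
      have h1 : (‖a j‖ : ℂ) ≠ 0 := by exact_mod_cast (hpos j).ne'
      have h2 : a j * ζ j = (‖a j‖ : ℂ) ^ 2 * a (j + 1) := by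
        simp only [hζ]
        rw [← mul_assoc, Complex.mul_conj, Complex.normSq_eq_norm_sq]
        push_cast
        ring
      have h3 : ζ j = ((‖a j‖ * ‖a (j + 1)‖ : ℝ) : ℂ) * Complex.exp ((φ j : ℂ) * Complex.I) := by
        rw [← hζn j]
        exact (Complex.norm_mul_exp_arg_mul_I (ζ j)).symm
      have h4 : (‖a j‖ : ℂ) ^ 2 * a (j + 1) = (‖a j‖ : ℂ) ^ 2 * ((‖a (j + 1)‖ : ℂ) *
          (a 0 / (‖a 0‖ : ℂ)) * Complex.exp ((θ (j + 1) : ℂ) * Complex.I)) := by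
        rw [← h2, hθs, Complex.ofReal_add, add_mul, Complex.exp_add]
        calc a j * ζ j = ((‖a j‖ : ℂ) * (a 0 / (‖a 0‖ : ℂ)) *
              Complex.exp ((θ j : ℂ) * Complex.I)) *
              (((‖a j‖ * ‖a (j + 1)‖ : ℝ) : ℂ) * Complex.exp ((φ j : ℂ) * Complex.I)) := by
              rw [← ih, ← h3]
          _ = _ := by
              push_cast
              ring
      exact mul_left_cancel₀ (pow_ne_zero 2 h1) h4
  have hu : conj (a 0 / (‖a 0‖ : ℂ)) * (a 0 / (‖a 0‖ : ℂ)) = 1 := by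
    rw [mul_comm, Complex.mul_conj, Complex.normSq_eq_norm_sq, norm_div, Complex.norm_real,
      norm_norm, div_self (hpos 0).ne']
    norm_num
  have hprod : ∀ i j, conj (a i) * a j = ((‖a i‖ * ‖a j‖ : ℝ) : ℂ) *
      Complex.exp (((θ j - θ i : ℝ) : ℂ) * Complex.I) := by
    intro i j
    conv_lhs => rw [hpolar i, hpolar j]
    rw [map_mul, map_mul, ← Complex.exp_conj, map_mul, Complex.conj_I, Complex.conj_ofReal,
      Complex.conj_ofReal]
    have e1 : Complex.exp (((θ j - θ i : ℝ) : ℂ) * Complex.I) =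
        Complex.exp ((θ i : ℂ) * -Complex.I) * Complex.exp ((θ j : ℂ) * Complex.I) := by
      rw [← Complex.exp_add]
      congr 1
      push_cast
      ring
    rw [e1]
    push_cast
    linear_combination ((‖a i‖ : ℂ) * (‖a j‖ : ℂ) * Complex.exp ((θ i : ℂ) * -Complex.I) *
      Complex.exp ((θ j : ℂ) * Complex.I)) * hu
  refine ⟨θ, ⟨by simp [hθ], fun j => by rw [hθs]; linarith [hφpos j], fun j => ?_, fun i j => ?_,
    fun i j => ?_⟩⟩
  · rw [hθs, add_sub_cancel_left, ← han, ← han]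
    have h1 := Real.mul_le_sin (hφpos j).le ((le_abs_self _).trans (hle j))
    rw [hsin j] at h1
    have h2 : 0 < ‖a j‖ * ‖a (j + 1)‖ := mul_pos (hpos j) (hpos (j + 1))
    rw [le_div_iff₀ h2] at h1 ⊢
    have hpi := Real.pi_pos
    have hpi4 := Real.pi_le_four
    have h3 : 1 / 2 ≤ 2 / π := by
      rw [div_le_div_iff₀ (by norm_num) hpi]
      linarith
    have h4 : 1 / 2 * (φ j * (‖a j‖ * ‖a (j + 1)‖)) ≤ 2 / π * (φ j * (‖a j‖ * ‖a (j + 1)‖)) :=
      mul_le_mul_of_nonneg_right h3 (mul_nonneg (hφpos j).le h2.le)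
    linarith
  · rw [← aang_im, ← han, ← han]
    have h1 := congrArg Complex.im (hprod i j)
    rw [Complex.im_ofReal_mul, Complex.exp_ofReal_mul_I_im] at h1
    exact h1
  · rw [← aang_re, ← han, ← han]
    have h1 := congrArg Complex.re (hprod i j)
    rw [Complex.re_ofReal_mul, Complex.exp_ofReal_mul_I_re] at h1
    exact h1

theorem IsAng.le {N : ℕ} {z : GaussianInt} {θ : ℕ → ℝ} (h : IsAng N z θ) {i j : ℕ} (hij : i ≤ j) :
    θ i ≤ θ j :=
  monotone_nat_of_le_succ (fun n => (h.mono n).le) hij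

/-- two points whose determinant is at least `m` are separated by an angle `m / N` -/
theorem IsAng.sep {N : ℕ} {z : GaussianInt} {θ : ℕ → ℝ} (h : IsAng N z θ) (hz : z ∈ VV N)
    {i j : ℕ} (hij : i ≤ j) (m r : ℝ) (hm : 0 ≤ m) (hr : 0 < r)
    (hc : m ≤ (crossG (sgi N i z) (sgi N j z) : ℝ))
    (hi : (nN (sgi N i z) : ℝ) ≤ r) (hj : (nN (sgi N j z) : ℝ) ≤ r) : m / r ≤ θ j - θ i := by
  have h0 : 0 ≤ θ j - θ i := sub_nonneg.2 (h.le hij)
  rw [h.cross] at hc
  have h1 : √(nN (sgi N i z)) * √(nN (sgi N j z)) ≤ r := by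
    calc √(nN (sgi N i z)) * √(nN (sgi N j z)) ≤ √r * √r :=
          mul_le_mul (Real.sqrt_le_sqrt hi) (Real.sqrt_le_sqrt hj) (Real.sqrt_nonneg _)
            (Real.sqrt_nonneg _)
      _ = r := Real.mul_self_sqrt hr.le
  have h2 : 0 ≤ √(nN (sgi N i z)) * √(nN (sgi N j z)) := by positivity
  rw [div_le_iff₀ hr]
  calc m ≤ √(nN (sgi N i z)) * √(nN (sgi N j z)) * sin (θ j - θ i) := hc
    _ ≤ √(nN (sgi N i z)) * √(nN (sgi N j z)) * (θ j - θ i) :=
        mul_le_mul_of_nonneg_left (Real.sin_le h0) h2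
    _ ≤ r * (θ j - θ i) := mul_le_mul_of_nonneg_right h1 h0
    _ = (θ j - θ i) * r := mul_comm _ _

end Pool.Agent.LogCh
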