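import Pool.Agent.Lib.LogCh.ASub

/-!
# Group A, module ABdd: size of the test function

`psi0_crude`: always `|psi0| ≤ q L0` (`|fc| ≤ 1`, `|wgt| ≤ q`, inner sum `≤ L0`).
`psi0_triv` (actual window, `N` large): `|inr L0 q x j| ≤ 2/√b...`: note that the inner sum at `j` counts
`k` with `crossG z_j z_{j+k} = q`, and the factor `fcZ a a'` at `j` vanishes unless `nN z_j > a N`; then
`inner_bound` at the point `z_j = sgi N j z` gives at most `C_a = 2/√a + 1` values `k`, each term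
bounded by `1`. So `|psi0| ≤ C_a (q + 1)`; here `y` is arbitrary (`|wgt| ≤ q + 1`).
`psi0_good`: `|psi0| ≤ (C_a/L0) Σ_{j<L0} |wgt q y (cf j)| ≤ (C_a/L0)(L0 + q #{j : lnr = 0})
≤ C_a (1 + (q/L0)(1 + θ_{L0} N/q)) ≤ C_a (2 + θ_{L0} N/L0)` when `q ≤ L0` (`sub_count`), for every `y`.
-/

set_option autoImplicit false

namespace Pool.Agent.LogCh

open Real
open Pool.Agent.NSqP
open Pool.Agent.MP484c84Par (ballG mem_ballG crossG dotG)

private lemma abdd_fcZ (a a' : ℝ) (N : ℕ) (z : GaussianInt) : |((fcZ a a' N z : ℤ) : ℝ)| ≤ 1 := by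
  unfold fcZ
  split_ifs
  · have h : |ArithmeticFunction.liouville (nN z)| ≤ 1 := by
      by_cases h0 : nN z = 0
      · rw [h0]; simp
      · rw [ArithmeticFunction.liouville_apply h0, abs_pow]
        simp
    exact_mod_cast h
  · simp

open Classical in
private lemma abdd_wgt (q : ℕ) (y : YY q) (c : ℤ × ℤ) :
    |wgt q y c| ≤ (q : ℝ) * (if lnr q y c = 0 then 1 else 0) + 1 := by
  unfold wgt
  have h1 : (q : ℝ) / (q + 1) ≤ 1 := by
    rw [div_le_one (by positivity)]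
    linarith
  have h2 : (0 : ℝ) ≤ (q : ℝ) / (q + 1) := by positivity
  have h3 : (0 : ℝ) ≤ (q : ℝ) * (if lnr q y c = 0 then 1 else 0) := by positivity
  rw [abs_le]
  constructor
  · linarith
  · linarith

private lemma abdd_wgt' (q : ℕ) (y : YY q) (c : ℤ × ℤ) : |wgt q y c| ≤ (q : ℝ) + 1 := by
  classical
  refine (abdd_wgt q y c).trans ?_
  have : (q : ℝ) * (if lnr q y c = 0 then 1 else 0) ≤ q := by
    split_ifs
    · simp
    · simp
  linarith

private lemma abdd_inr (L0 q : ℕ) (a a' b b' : ℝ) (N : ℕ) (z : GaussianInt) (j : ℕ) :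
    |inr L0 q (xo a a' b b' N z) j| ≤ (((Finset.Icc 1 L0).filter (fun k =>
      cfx (fun i => (xo a a' b b' N z i).1) j (j + k) = (q : ℤ))).card : ℝ) := by
  unfold inr
  refine (Finset.abs_sum_le_sum_abs _ _).trans ?_
  rw [Finset.card_filter]
  push_cast
  refine Finset.sum_le_sum (fun k _ => ?_)
  split_ifs
  · exact abdd_fcZ b b' N _
  · simp

theorem psi0_crude (L0 q : ℕ) (a a' b b' : ℝ) (N : ℕ) (z : GaussianInt) (y : YY q) :
    |psi0 L0 q (xo a a' b b' N z) y| ≤ ((q : ℝ) + 1) * L0 := by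
  unfold psi0
  rw [abs_div, abs_of_nonneg (Nat.cast_nonneg L0 : (0 : ℝ) ≤ (L0 : ℝ))]
  by_cases h0 : L0 = 0
  · subst h0
    simp
  have hL : (0 : ℝ) < L0 := by exact_mod_cast Nat.pos_of_ne_zero h0
  rw [div_le_iff₀ hL]
  refine (Finset.abs_sum_le_sum_abs _ _).trans ?_
  refine (Finset.sum_le_card_nsmul _ _ (((q : ℝ) + 1) * L0) (fun j _ => ?_)).trans ?_
  · rw [abs_mul, abs_mul]
    have h1 : |(((xo a a' b b' N z j).2.1 : ℤ) : ℝ)| ≤ 1 := abdd_fcZ a a' N _
    have h2 := abdd_wgt' q y (cf (fun i => (xo a a' b b' N z i).1) j)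
    have h3 : |inr L0 q (xo a a' b b' N z) j| ≤ L0 := by
      refine (abdd_inr L0 q a a' b b' N z j).trans ?_
      have := Finset.card_filter_le (Finset.Icc 1 L0)
        (fun k => cfx (fun i => (xo a a' b b' N z i).1) j (j + k) = (q : ℤ))
      rw [Nat.card_Icc] at this
      exact_mod_cast (by omega : _ ≤ L0)
    have h4 : |(((xo a a' b b' N z j).2.1 : ℤ) : ℝ)| * |wgt q y
        (cf (fun i => (xo a a' b b' N z i).1) j)| ≤ 1 * ((q : ℝ) + 1) :=
      mul_le_mul h1 h2 (abs_nonneg _) zero_le_one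
    rw [one_mul] at h4
    exact mul_le_mul h4 h3 (abs_nonneg _) (by positivity)
  · rw [Finset.card_range, nsmul_eq_mul]
    linarith

/-- the product of the first factor and the inner sum -/
private lemma abdd_prod (L0 q : ℕ) (a a' b b' : ℝ) (ha : 0 < a) (N : ℕ)
    (hN : 4 * L0 + 4 < (VV N).card) {z : GaussianInt} (hz : z ∈ VV N) (j : ℕ) :
    |(((xo a a' b b' N z j).2.1 : ℤ) : ℝ)| * |inr L0 q (xo a a' b b' N z) j| ≤ 2 / √a + 1 := by
  by_cases hza : a * N < nN (sgi N j z)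
  · have h1 : |(((xo a a' b b' N z j).2.1 : ℤ) : ℝ)| ≤ 1 := abdd_fcZ a a' N _
    have h2 := abdd_inr L0 q a a' b b' N z j
    have h3 : (Finset.Icc 1 L0).filter (fun k =>
        cfx (fun i => (xo a a' b b' N z i).1) j (j + k) = (q : ℤ)) =
        (Finset.Icc 1 L0).filter (fun k => crossG (sgi N j z) (sgi N k (sgi N j z)) = (q : ℤ)) := by
      refine Finset.filter_congr (fun k _ => ?_)
      rw [cfx_orbit hz (fun i => (xo a a' b b' N z i).1) (fun i => rfl) j (j + k), sgi_add]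
    rw [h3] at h2
    have h4 := inner_bound a ha q L0 N hN (sgi_mem hz j) hza
    calc _ ≤ 1 * (2 / √a + 1) := mul_le_mul h1 (h2.trans h4) (abs_nonneg _) zero_le_one
      _ = _ := one_mul _
  · have h1 : (xo a a' b b' N z j).2.1 = 0 := by
      show fcZ a a' N (sgi N j z) = 0
      unfold fcZ
      rw [if_neg (fun h => hza h.1)]
    rw [h1]
    simp only [Int.cast_zero, abs_zero, zero_mul]
    positivity

private lemma abdd_main (L0 q : ℕ) (a a' b b' : ℝ) (ha : 0 < a) (N : ℕ)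
    (hN : 4 * L0 + 4 < (VV N).card) {z : GaussianInt} (hz : z ∈ VV N) (y : YY q) :
    |psi0 L0 q (xo a a' b b' N z) y| ≤ (2 / √a + 1) *
      ((∑ j ∈ Finset.range L0, |wgt q y (cf (fun i => aq N (sgi N i z)) j)|) / L0) := by
  unfold psi0
  rw [abs_div, abs_of_nonneg (Nat.cast_nonneg L0 : (0 : ℝ) ≤ (L0 : ℝ)), ← mul_div_assoc]
  refine div_le_div_of_nonneg_right ?_ (Nat.cast_nonneg L0)
  refine (Finset.abs_sum_le_sum_abs _ _).trans ?_
  rw [Finset.mul_sum]
  refine Finset.sum_le_sum (fun j _ => ?_)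
  rw [abs_mul, abs_mul]
  have h1 := abdd_prod L0 q a a' b b' ha N hN hz j
  have h2 := abs_nonneg (wgt q y (cf (fun i => aq N (sgi N i z)) j))
  have h3 : cf (fun i => (xo a a' b b' N z i).1) j = cf (fun i => aq N (sgi N i z)) j := rfl
  rw [h3]
  calc _ = (|(((xo a a' b b' N z j).2.1 : ℤ) : ℝ)| * |inr L0 q (xo a a' b b' N z) j|) *
      |wgt q y (cf (fun i => aq N (sgi N i z)) j)| := by ring
    _ ≤ _ := mul_le_mul_of_nonneg_right h1 h2

theorem psi0_triv (L0 q : ℕ) (hL0 : 1 ≤ L0) (a a' b b' : ℝ) (ha : 0 < a) (N : ℕ)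
    (hN : 4 * L0 + 4 < (VV N).card) {z : GaussianInt} (hz : z ∈ VV N) (y : YY q) :
    |psi0 L0 q (xo a a' b b' N z) y| ≤ (2 / √a + 1) * (q + 1) := by
  refine (abdd_main L0 q a a' b b' ha N hN hz y).trans ?_
  have hL : (0 : ℝ) < L0 := by exact_mod_cast hL0
  refine mul_le_mul_of_nonneg_left ?_ (by positivity)
  rw [div_le_iff₀ hL]
  refine (Finset.sum_le_card_nsmul _ _ ((q : ℝ) + 1) (fun j _ => abdd_wgt' q y _)).trans ?_
  rw [Finset.card_range, nsmul_eq_mul]
  linarith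

theorem psi0_good {q : ℕ} (hq : q.Prime) (h4 : q % 4 = 1) (L0 : ℕ) (hqL : q ≤ L0)
    (a a' b b' : ℝ) (ha : 0 < a) (N : ℕ) (hN1 : 1 ≤ N) (hN : 4 * L0 + 4 < (VV N).card)
    {z : GaussianInt} (hz : z ∈ VV N) {θ : ℕ → ℝ} (hθ : IsAng N z θ) (y : YY q) :
    |psi0 L0 q (xo a a' b b' N z) y| ≤ (2 / √a + 1) * (2 + θ L0 * N / L0) := by
  classical
  refine (abdd_main L0 q a a' b b' ha N hN hz y).trans ?_
  have hq0 : (0 : ℝ) < q := by exact_mod_cast hq.pos
  have hL : (0 : ℝ) < L0 := lt_of_lt_of_le hq0 (by exact_mod_cast hqL)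
  have hqL' : (q : ℝ) ≤ L0 := by exact_mod_cast hqL
  refine mul_le_mul_of_nonneg_left ?_ (by positivity)
  rw [div_le_iff₀ hL]
  have h1 := sub_count hq h4 L0 N hN1 hN hz hθ y
  have h2 : ∑ j ∈ Finset.range L0, |wgt q y (cf (fun i => aq N (sgi N i z)) j)| ≤
      (q : ℝ) * (((Finset.range L0).filter (fun j =>
        lnr q y (cf (fun i => aq N (sgi N i z)) j) = 0)).card : ℝ) + L0 := by
    refine (Finset.sum_le_sum (fun j _ => abdd_wgt q y _)).trans ?_
    rw [Finset.sum_add_distrib, ← Finset.mul_sum, Finset.sum_const, Finset.card_range,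
      nsmul_eq_mul, mul_one, Finset.card_filter]
    push_cast
    exact le_rfl
  have h3 : (q : ℝ) * (((Finset.range L0).filter (fun j =>
        lnr q y (cf (fun i => aq N (sgi N i z)) j) = 0)).card : ℝ) ≤ q + θ L0 * N := by
    refine (mul_le_mul_of_nonneg_left h1 hq0.le).trans (le_of_eq ?_)
    field_simp
  have h4 : (2 + θ L0 * N / L0) * L0 = 2 * L0 + θ L0 * N := by
    field_simp
  rw [h4]
  linarith

end Pool.Agent.LogCh
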