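import Pool.Agent.Lib.LogCh.AAlg
import Pool.Agent.Lib.NSqP.LC
import Pool.Agent.Lib.NSqP.PC

/-!
# Group A, module ACard: counting points

`card_VV_lower`: `NSqP.card_pann` with `a = 0`, `b = N` gives `0.52 π N - C N^(3/4)`, which is `≥ N`
for `N ≥ N1`; for `1 ≤ N < N1` use `1 ∈ VV N`, so the cardinality is `≥ 1 ≥ N / N1`.
`card_VV_upper`, `VV_card_small`: `VV N ⊆ ann 0 N`, and the filtered set is contained in
`ann 0 (ρ N)`; `NSqP.card_ann_le`.
`VV_large`: from `card_VV_lower`.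
`sum_inv_sqrt`: with `n = nN z`, `M = ⌊t⌋`: for `1 ≤ n ≤ M`,
`1/√n = 1/√(M+1) + Σ_{m=n}^{M} (1/√m - 1/√(m+1))`, `1/√m - 1/√(m+1) ≤ m^(-3/2)`; exchanging the sums,
`Σ_z 1/√(nN z) ≤ card (ann 0 t)/√(M+1) + Σ_{m=1}^{M} m^(-3/2) card (ann 0 m) ≤ C √t + C Σ_{m ≤ M} m^(-1/2)
≤ C' √t` (`Σ_{m≤M} 1/√m ≤ 2 √M`).
-/

set_option autoImplicit false

namespace Pool.Agent.LogCh

open Real
open Pool.Agent.NSqP
open Pool.Agent.MP484c84Par (ballG mem_ballG crossG dotG)

private theorem acard_VV_sub (N : ℕ) : VV N ⊆ ann 0 (N : ℝ) := pann_subset _ _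

theorem card_VV_lower : ∃ c : ℝ, 0 < c ∧ ∀ N : ℕ, c * N ≤ ((VV N).card : ℝ) := by
  obtain ⟨C, hC, h⟩ := card_pann
  set N1 : ℕ := ⌈C ^ 4⌉₊ + 1 with hN1
  have hN1pos : (0 : ℝ) < N1 := by rw [hN1]; positivity
  refine ⟨min (1 / 2) (1 / (N1 : ℝ)), lt_min (by norm_num) (by positivity), fun N => ?_⟩
  rcases Nat.eq_zero_or_pos N with rfl | hN
  · simp
  have hNr : (1 : ℝ) ≤ N := by exact_mod_cast hN
  rcases le_or_gt N1 N with hle | hlt
  · have h1 := h 0 N le_rfl (by linarith) hNr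
    have h2 : C ^ 4 ≤ (N : ℝ) := by
      have a1 : C ^ 4 ≤ (⌈C ^ 4⌉₊ : ℝ) := Nat.le_ceil _
      have a2 : ((⌈C ^ 4⌉₊ : ℕ) : ℝ) + 1 ≤ (N : ℝ) := by
        have : ⌈C ^ 4⌉₊ + 1 ≤ N := hle
        exact_mod_cast this
      linarith
    have h3 : C ≤ (N : ℝ) ^ ((1 : ℝ) / 4) := by
      have b1 : (C ^ 4) ^ ((1 : ℝ) / 4) ≤ (N : ℝ) ^ ((1 : ℝ) / 4) :=
        rpow_le_rpow (by positivity) h2 (by norm_num)
      have b2 : (C ^ 4) ^ ((1 : ℝ) / 4) = C := by
        rw [← rpow_natCast, ← rpow_mul hC.le]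
        norm_num
      linarith
    have h4 : C * (N : ℝ) ^ ((3 : ℝ) / 4) ≤ N := by
      calc C * (N : ℝ) ^ ((3 : ℝ) / 4) ≤ (N : ℝ) ^ ((1 : ℝ) / 4) * (N : ℝ) ^ ((3 : ℝ) / 4) :=
            mul_le_mul_of_nonneg_right h3 (by positivity)
        _ = N := by
            rw [← rpow_add (by linarith)]
            norm_num
    have h5 : min (1 / 2) (1 / (N1 : ℝ)) * N ≤ 1 / 2 * N :=
      mul_le_mul_of_nonneg_right (min_le_left _ _) (by linarith)
    have hpi := Real.pi_gt_three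
    have h6 : (pann 0 (N : ℝ)).card = (VV N).card := rfl
    rw [h6] at h1
    nlinarith
  · have h1 : (1 : GaussianInt) ∈ VV N := by
      unfold VV
      rw [mem_pann (by linarith), nN_one]
      refine ⟨⟨by norm_num, by simpa using hNr⟩, ?_⟩
      unfold Prim cont
      simp
    have h2 : (1 : ℝ) ≤ ((VV N).card : ℝ) := by
      have : 0 < (VV N).card := Finset.card_pos.2 ⟨1, h1⟩
      exact_mod_cast this
    have h3 : (N : ℝ) ≤ N1 := by exact_mod_cast hlt.le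
    calc min (1 / 2) (1 / (N1 : ℝ)) * N ≤ 1 / (N1 : ℝ) * N :=
          mul_le_mul_of_nonneg_right (min_le_right _ _) (by linarith)
      _ ≤ 1 := by
          rw [one_div_mul_eq_div, div_le_one hN1pos]
          exact h3
      _ ≤ _ := h2

theorem card_VV_upper : ∃ C : ℝ, 0 < C ∧ ∀ N : ℕ, ((VV N).card : ℝ) ≤ C * N := by
  obtain ⟨C, hC, h⟩ := card_ann_le
  refine ⟨C, hC, fun N => ?_⟩
  have h1 : ((VV N).card : ℝ) ≤ ((ann 0 (N : ℝ)).card : ℝ) := by
    exact_mod_cast Finset.card_le_card (acard_VV_sub N)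
  exact h1.trans (h N (Nat.cast_nonneg N))

theorem VV_card_small : ∃ C : ℝ, 0 < C ∧ ∀ (N : ℕ) (ρ : ℝ), 0 ≤ ρ →
    (((VV N).filter (fun z => (nN z : ℝ) ≤ ρ * N)).card : ℝ) ≤ C * ρ * N := by
  obtain ⟨C, hC, h⟩ := card_ann_le
  refine ⟨C, hC, fun N ρ hρ => ?_⟩
  have hN : (0 : ℝ) ≤ N := Nat.cast_nonneg N
  have hsub : (VV N).filter (fun z => (nN z : ℝ) ≤ ρ * N) ⊆ ann 0 (ρ * N) := by
    intro z hz
    rw [Finset.mem_filter] at hz
    have h1 := (mem_ann hN).1 (acard_VV_sub N hz.1)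
    rw [mem_ann (by positivity)]
    exact ⟨h1.1, hz.2⟩
  have h1 : (((VV N).filter (fun z => (nN z : ℝ) ≤ ρ * N)).card : ℝ) ≤
      ((ann 0 (ρ * (N : ℝ))).card : ℝ) := by
    exact_mod_cast Finset.card_le_card hsub
  refine h1.trans ((h (ρ * N) (by positivity)).trans (le_of_eq ?_))
  ring

theorem VV_large (L : ℕ) : ∃ N0 : ℕ, ∀ N : ℕ, N0 ≤ N → L < (VV N).card := by
  obtain ⟨c, hc, h⟩ := card_VV_lower
  obtain ⟨N0, hN0⟩ := exists_nat_gt ((L : ℝ) / c)
  refine ⟨N0, fun N hN => ?_⟩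
  have h1 : (L : ℝ) / c < N := hN0.trans_le (by exact_mod_cast hN)
  rw [div_lt_iff₀ hc, mul_comm] at h1
  exact_mod_cast h1.trans_le (h N)

theorem sum_inv_sqrt : ∃ C : ℝ, 0 < C ∧ ∀ t : ℝ, 0 ≤ t →
    ∑ z ∈ ann 0 t, 1 / √(nN z : ℝ) ≤ C * √t := by
  classical
  obtain ⟨C, hC, h⟩ := card_ann_le
  have hempty : ∀ t : ℝ, 0 ≤ t → t < 1 → ann 0 t = ∅ := by
    intro t ht h1
    rw [Finset.eq_empty_iff_forall_notMem]
    intro z hz
    rw [mem_ann ht] at hz
    have h2 : (nN z : ℝ) < 1 := hz.2.trans_lt h1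
    have h3 : nN z < 1 := by exact_mod_cast h2
    have h4 : nN z = 0 := by omega
    rw [h4] at hz
    simp at hz
  have key : ∀ n : ℕ, ∀ t : ℝ, 0 ≤ t → t < 4 ^ n →
      ∑ z ∈ ann 0 t, 1 / √(nN z : ℝ) ≤ 4 * C * √t := by
    intro n
    induction n with
    | zero =>
      intro t ht h1
      rw [hempty t ht (by simpa using h1)]
      simp only [Finset.sum_empty]
      positivity
    | succ n ih =>
      intro t ht h1
      rcases lt_or_ge t 1 with h2 | h2
      · rw [hempty t ht h2]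
        simp only [Finset.sum_empty]
        positivity
      have ht4 : 0 ≤ t / 4 := by linarith
      have ih' := ih (t / 4) ht4 (by rw [pow_succ] at h1; linarith)
      have hs : √(t / 4) = √t / 2 := by
        rw [Real.sqrt_div ht]
        congr 1
        rw [show (4 : ℝ) = 2 ^ 2 by norm_num]
        exact Real.sqrt_sq (by norm_num)
      rw [hs] at ih'
      have hst : 0 < √t := Real.sqrt_pos.2 (by linarith)
      rw [← Finset.sum_filter_add_sum_filter_not (ann 0 t) (fun z => (nN z : ℝ) ≤ t / 4)]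
      have e1 : (ann 0 t).filter (fun z => (nN z : ℝ) ≤ t / 4) = ann 0 (t / 4) := by
        ext z
        rw [Finset.mem_filter, mem_ann ht, mem_ann ht4]
        constructor
        · rintro ⟨⟨a1, a2⟩, a3⟩
          exact ⟨a1, a3⟩
        · rintro ⟨a1, a2⟩
          exact ⟨⟨a1, by linarith⟩, a2⟩
      rw [e1]
      have e2 : ∑ z ∈ (ann 0 t).filter (fun z => ¬ (nN z : ℝ) ≤ t / 4), 1 / √(nN z : ℝ) ≤
          ((ann 0 t).filter (fun z => ¬ (nN z : ℝ) ≤ t / 4)).card • (2 / √t) := by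
        refine Finset.sum_le_card_nsmul _ _ _ fun z hz => ?_
        rw [Finset.mem_filter] at hz
        have a1 : t / 4 ≤ (nN z : ℝ) := (not_le.1 hz.2).le
        have a2 : √t / 2 ≤ √(nN z : ℝ) := by
          rw [← hs]
          exact Real.sqrt_le_sqrt a1
        calc 1 / √(nN z : ℝ) ≤ 1 / (√t / 2) := one_div_le_one_div_of_le (by positivity) a2
          _ = 2 / √t := by field_simp
      have e3 : (((ann 0 t).filter (fun z => ¬ (nN z : ℝ) ≤ t / 4)).card : ℝ) ≤ C * t := by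
        have a1 : (((ann 0 t).filter (fun z => ¬ (nN z : ℝ) ≤ t / 4)).card : ℝ) ≤
            ((ann 0 t).card : ℝ) := by
          exact_mod_cast Finset.card_le_card (Finset.filter_subset _ _)
        exact a1.trans (h t ht)
      rw [nsmul_eq_mul] at e2
      have e4 : (((ann 0 t).filter (fun z => ¬ (nN z : ℝ) ≤ t / 4)).card : ℝ) * (2 / √t) ≤
          C * t * (2 / √t) := mul_le_mul_of_nonneg_right e3 (by positivity)
      have e5 : C * t * (2 / √t) = 2 * C * √t := by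
        have a1 : √t * √t = t := Real.mul_self_sqrt ht
        calc C * t * (2 / √t) = C * (√t * √t) * (2 / √t) := by rw [a1]
          _ = 2 * C * √t := by field_simp
      linarith
  refine ⟨4 * C, by positivity, fun t ht => ?_⟩
  obtain ⟨n, hn⟩ := pow_unbounded_of_one_lt t (by norm_num : (1 : ℝ) < 4)
  exact key n t ht hn

end Pool.Agent.LogCh
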