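import Pool.Agent.Lib.LogCh.AAlg

/-!
# Group A, module APi: divisibility by a Gaussian prime of prime norm

`dvd_iff_cross`: `κ = a + b i`, `a^2 + b^2 = q` prime. `κ ∣ z` iff `q ∣ z * star κ`
(`κ * star κ = q`, cancel), whose coordinates are `z.re a + z.im b` and `z.im a - z.re b =
crossG κ z`. If `q ∣ crossG κ z` then `a (z.re a + z.im b) = q z.re + b (z.im a - z.re b)` is
divisible by `q`, and `q ∤ a` (`0 < a^2 < q`, or `a = 0` impossible as `q` is not a square), so `q` divides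
the first coordinate too.
`dvd_second`: by coordinates, `dvd_iff_cross` and the identity `plucker`.
`prim_mul`: `κ z` is primitive iff `z` is primitive and `star κ ∤ z`.
`pq_spec`: `Nat.Prime.sq_add_sq`.
-/

set_option autoImplicit false

namespace Pool.Agent.LogCh

open Real
open Pool.Agent.NSqP
open Pool.Agent.MP484c84Par (ballG mem_ballG crossG dotG)

private theorem api_nN_int (z : GaussianInt) : ((nN z : ℕ) : ℤ) = z.re * z.re + z.im * z.im := by
  rw [nN_cast_int, Zsqrtd.norm_def]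
  ring

private theorem api_mul_star (κ : GaussianInt) : κ * star κ = (((nN κ : ℕ) : ℤ) : GaussianInt) := by
  apply Zsqrtd.ext
  · simp only [Zsqrtd.re_mul, Zsqrtd.re_star, Zsqrtd.im_star, Zsqrtd.re_intCast]
    rw [api_nN_int]; ring
  · simp only [Zsqrtd.im_mul, Zsqrtd.re_star, Zsqrtd.im_star, Zsqrtd.im_intCast]
    ring

private theorem api_not_dvd_re {κ : GaussianInt} (hκ : (nN κ).Prime) : ¬ ((nN κ : ℤ) ∣ κ.re) := by
  intro h
  have hp : Prime ((nN κ : ℕ) : ℤ) := Nat.prime_iff_prime_int.1 hκ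
  have e := api_nN_int κ
  have h1 : ((nN κ : ℕ) : ℤ) ∣ κ.im * κ.im := by
    have : κ.im * κ.im = (nN κ : ℤ) - κ.re * κ.re := by rw [e]; ring
    rw [this]
    exact dvd_sub (dvd_refl _) (dvd_mul_of_dvd_left h _)
  have h2 : ((nN κ : ℕ) : ℤ) ∣ κ.im := by
    rcases hp.dvd_or_dvd h1 with h | h <;> exact h
  obtain ⟨s, hs⟩ := h
  obtain ⟨t, ht⟩ := h2
  have hpos : (0 : ℤ) < (nN κ : ℕ) := by exact_mod_cast hκ.pos
  have h3 : ((nN κ : ℕ) : ℤ) * 1 = (nN κ : ℤ) * ((nN κ : ℤ) * (s * s + t * t)) := by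
    have e2 : ((nN κ : ℕ) : ℤ) = (nN κ : ℤ) * ((nN κ : ℤ) * (s * s + t * t)) := by
      have e3 : κ.re * κ.re + κ.im * κ.im = ((nN κ : ℤ) * s) * ((nN κ : ℤ) * s) +
          ((nN κ : ℤ) * t) * ((nN κ : ℤ) * t) := by rw [← hs, ← ht]
      rw [← e] at e3
      linarith
    linarith
  have h4 := mul_left_cancel₀ hpos.ne' h3
  have h5 : ((nN κ : ℕ) : ℤ) ∣ 1 := ⟨_, h4⟩
  exact hp.not_unit (isUnit_of_dvd_one h5)

theorem dvd_iff_cross {κ : GaussianInt} (hκ : (nN κ).Prime) (z : GaussianInt) :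
    κ ∣ z ↔ (nN κ : ℤ) ∣ crossG κ z := by
  have hp : Prime ((nN κ : ℕ) : ℤ) := Nat.prime_iff_prime_int.1 hκ
  constructor
  · rintro ⟨t, rfl⟩
    refine ⟨t.im, ?_⟩
    rw [api_nN_int]; unfold crossG
    simp only [Zsqrtd.re_mul, Zsqrtd.im_mul]
    ring
  · intro h
    have h' : ((nN κ : ℕ) : ℤ) ∣ κ.re * z.im - κ.im * z.re := h
    have h1 : ((nN κ : ℕ) : ℤ) ∣ κ.re * (κ.re * z.re + κ.im * z.im) := by
      have : κ.re * (κ.re * z.re + κ.im * z.im) =
          (nN κ : ℤ) * z.re + κ.im * (κ.re * z.im - κ.im * z.re) := by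
        rw [api_nN_int]; ring
      rw [this]
      exact dvd_add (dvd_mul_right _ _) (dvd_mul_of_dvd_right h' _)
    have h2 : ((nN κ : ℕ) : ℤ) ∣ (κ.re * z.re + κ.im * z.im) := by
      rcases hp.dvd_or_dvd h1 with h | h
      · exact absurd h (api_not_dvd_re hκ)
      · exact h
    obtain ⟨s, hs⟩ := h2
    obtain ⟨t, ht⟩ := h'
    have hκ0 : κ ≠ 0 := by
      rintro rfl
      rw [nN_zero] at hκ; exact Nat.not_prime_zero hκ
    have hs0 : star κ ≠ 0 := fun h0 => hκ0 (star_eq_zero.1 h0)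
    refine ⟨⟨s, t⟩, ?_⟩
    apply mul_left_cancel₀ hs0
    have e : star κ * (κ * (⟨s, t⟩ : GaussianInt)) = (((nN κ : ℕ) : ℤ) : GaussianInt) * ⟨s, t⟩ := by
      rw [← mul_assoc, mul_comm (star κ) κ, api_mul_star]
    rw [e]
    apply Zsqrtd.ext
    · simp only [Zsqrtd.re_mul, Zsqrtd.re_star, Zsqrtd.im_star, Zsqrtd.re_intCast,
        Zsqrtd.im_intCast]
      linarith
    · simp only [Zsqrtd.im_mul, Zsqrtd.re_star, Zsqrtd.im_star, Zsqrtd.re_intCast,
        Zsqrtd.im_intCast]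
      linarith

theorem dvd_second {κ u v : GaussianInt} (hκ : (nN κ).Prime) (h4 : nN κ % 4 = 1)
    (hu : Prim u) (h : κ ∣ u) (hc : crossG u v = (nN κ : ℤ)) : κ ∣ v := by
  rw [dvd_iff_cross hκ] at h ⊢
  have hu' : IsCoprime u.re u.im := Int.isCoprime_iff_gcd_eq_one.2 hu
  obtain ⟨a, b, hab⟩ := hu'
  have hd : crossG u (⟨-b, a⟩ : GaussianInt) = 1 := by
    unfold crossG
    simp only
    linarith
  have h1 := plucker κ v u ⟨-b, a⟩
  rw [hd, mul_one] at h1
  have h2 : crossG v u = -(nN κ : ℤ) := by rw [cross_swap, hc]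
  rw [h1, h2]
  refine dvd_sub (dvd_mul_of_dvd_left h _) ?_
  rw [mul_neg]
  exact (dvd_mul_left _ _).neg_right

theorem cross_mul (κ z w : GaussianInt) :
    crossG (κ * z) (κ * w) = (nN κ : ℤ) * crossG z w := by
  rw [api_nN_int]; unfold crossG
  simp only [Zsqrtd.re_mul, Zsqrtd.im_mul]
  ring

theorem dot_mul (κ z w : GaussianInt) :
    dotG (κ * z) (κ * w) = (nN κ : ℤ) * dotG z w := by
  rw [api_nN_int]; unfold dotG
  simp only [Zsqrtd.re_mul, Zsqrtd.im_mul]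
  ring

theorem prim_mul_iff {κ z : GaussianInt} (hκ : (nN κ).Prime) (h4 : nN κ % 4 = 1) :
    Prim (κ * z) ↔ Prim z ∧ ¬ star κ ∣ z := by
  have hκ' : (nN (star κ)).Prime := by rw [nN_star]; exact hκ
  have him : crossG (star κ) z = (κ * z).im := by
    unfold crossG
    simp only [Zsqrtd.re_star, Zsqrtd.im_star, Zsqrtd.im_mul]
    ring
  constructor
  · intro h
    have h0 : IsCoprime (κ * z).re (κ * z).im := Int.isCoprime_iff_gcd_eq_one.2 h
    constructor
    · obtain ⟨a, b, hab⟩ := h0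
      show Int.gcd z.re z.im = 1
      rw [← Int.isCoprime_iff_gcd_eq_one]
      refine ⟨a * κ.re + b * κ.im, b * κ.re - a * κ.im, ?_⟩
      simp only [Zsqrtd.re_mul, Zsqrtd.im_mul] at hab
      linarith
    · rintro ⟨t, rfl⟩
      rw [← mul_assoc, api_mul_star] at h0
      simp only [Zsqrtd.re_mul, Zsqrtd.im_mul, Zsqrtd.re_intCast, Zsqrtd.im_intCast, mul_zero,
        zero_mul, add_zero] at h0
      have h1 : IsUnit ((nN κ : ℕ) : ℤ) := h0.isUnit_of_dvd' (dvd_mul_right _ _) (dvd_mul_right _ _)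
      exact (Nat.prime_iff_prime_int.1 hκ).not_unit h1
  · rintro ⟨h1, h2⟩
    have h1' : IsCoprime z.re z.im := Int.isCoprime_iff_gcd_eq_one.2 h1
    show Int.gcd (κ * z).re (κ * z).im = 1
    by_contra hne
    obtain ⟨p, hp, hpd⟩ := Nat.exists_prime_and_dvd hne
    have hp1 : ((p : ℕ) : ℤ) ∣ (κ * z).re := by
      have : ((p : ℕ) : ℤ) ∣ ((Int.gcd (κ * z).re (κ * z).im : ℕ) : ℤ) := by exact_mod_cast hpd
      exact this.trans (Int.gcd_dvd_left _ _)
    have hp2 : ((p : ℕ) : ℤ) ∣ (κ * z).im := by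
      have : ((p : ℕ) : ℤ) ∣ ((Int.gcd (κ * z).re (κ * z).im : ℕ) : ℤ) := by exact_mod_cast hpd
      exact this.trans (Int.gcd_dvd_right _ _)
    have hq : ((p : ℕ) : ℤ) ∣ (nN κ : ℤ) := by
      obtain ⟨a, b, hab⟩ := h1'
      have e : ((nN κ : ℕ) : ℤ) = (a * κ.re - b * κ.im) * (κ * z).re +
          (a * κ.im + b * κ.re) * (κ * z).im := by
        rw [api_nN_int]
        simp only [Zsqrtd.re_mul, Zsqrtd.im_mul]
        linear_combination (-(κ.re * κ.re + κ.im * κ.im)) * hab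
      rw [e]
      exact dvd_add (dvd_mul_of_dvd_right hp1 _) (dvd_mul_of_dvd_right hp2 _)
    have hpq : p = nN κ := by
      have : p ∣ nN κ := by exact_mod_cast hq
      exact (Nat.prime_dvd_prime_iff_eq hp hκ).1 this
    apply h2
    rw [dvd_iff_cross hκ', nN_star, him, ← hpq]
    exact hp2

theorem lamA_mul {z w : GaussianInt} (hz : z ≠ 0) (hw : w ≠ 0) : lam (z * w) = lam z * lam w := by
  unfold lam
  rw [nN_mul, ArithmeticFunction.liouville_apply_mul]
  push_cast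
  rfl

theorem lam_prime {κ : GaussianInt} (hκ : (nN κ).Prime) : lam κ = -1 := by
  unfold lam
  rw [ArithmeticFunction.liouville_apply hκ.ne_zero,
    ArithmeticFunction.cardFactors_apply_prime hκ]
  norm_num

theorem absA_lam_le (z : GaussianInt) : |lam z| ≤ 1 := by
  unfold lam
  by_cases h : nN z = 0
  · rw [h]; simp
  · rw [ArithmeticFunction.liouville_apply h]
    push_cast
    rw [abs_pow, abs_neg, abs_one, one_pow]

theorem abs_fc_le (a a' : ℝ) (N : ℕ) (z : GaussianInt) : |fc a a' N z| ≤ 1 := by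
  unfold fc
  split_ifs
  · exact absA_lam_le z
  · simp

theorem fcZ_cast (a a' : ℝ) (N : ℕ) (z : GaussianInt) : ((fcZ a a' N z : ℤ) : ℝ) = fc a a' N z := by
  unfold fcZ fc lam
  split_ifs
  · rfl
  · simp

theorem abs_fcZ_le (a a' : ℝ) (N : ℕ) (z : GaussianInt) : |fcZ a a' N z| ≤ 1 := by
  have h := abs_fc_le a a' N z
  rw [← fcZ_cast] at h
  exact_mod_cast h

theorem pq_spec {q : ℕ} (hq : q.Prime) (h4 : q % 4 = 1) : nN (pq q) = q := by
  have h : ∃ w : GaussianInt, nN w = q := by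
    haveI : Fact q.Prime := ⟨hq⟩
    obtain ⟨a, b, hab⟩ := Nat.Prime.sq_add_sq (p := q) (by omega)
    refine ⟨⟨(a : ℤ), (b : ℤ)⟩, ?_⟩
    have h1 := api_nN_int ⟨(a : ℤ), (b : ℤ)⟩
    simp only at h1
    have h2 : ((nN (⟨(a : ℤ), (b : ℤ)⟩ : GaussianInt) : ℕ) : ℤ) = (q : ℤ) := by
      rw [h1, ← hab]
      push_cast
      ring
    exact_mod_cast h2
  unfold pq
  rw [dif_pos h]
  exact h.choose_spec

theorem md_eq {q : ℕ} (hq : q ≠ 0) : md q = q := by
  unfold md
  rw [if_neg hq]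

end Pool.Agent.LogCh
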