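import Pool.Agent.Lib.LogCh.AQuo
import Pool.Agent.Lib.LogCh.APi

/-!
# Group A, module ACf: coordinates of the orbit, evolution of the residues

`cf_orbit`: two-step induction with `aq_rec` applied to `sgi N j z`.
`cfx_orbit`: from `cf_orbit`, `cross_smul`, `sgi_cross`.
`cf_coprime`: `cfx s j (j+1) = 1` by induction, so `cf s j` is coprime.
`cf_congr`: `cf s j` depends only on `s i`, `i + 2 ≤ j`.
`YO_step`: columns `(z, w) ↦ (w, a w - z)`; compare entries (`Matrix.SpecialLinearGroup.ext`,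
`aq_rec` in coordinates, cast to `ZMod`).
`lnr_orbit`: with `κ = pq q`, `nN κ = q`: `lnr q (ym q z w) c` is the residue of
`c.1 crossG κ z + c.2 crossG κ w = crossG κ (c.1 z + c.2 w)` (`cross_add_mul`), which vanishes iff
`q ∣ crossG κ z_j` iff `κ ∣ z_j` (`dvd_iff_cross`); `ZMod.intCast_zmod_eq_zero_iff_dvd`-type lemma with
`md q = q`.
-/

set_option autoImplicit false

namespace Pool.Agent.LogCh

open Real
open Pool.Agent.NSqP
open Pool.Agent.MP484c84Par (ballG mem_ballG crossG dotG)

theorem cf_orbit {N : ℕ} {z : GaussianInt} (hz : z ∈ VV N) (s : ℕ → ℤ)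
    (hs : ∀ i, s i = aq N (sgi N i z)) (j : ℕ) :
    sgi N j z = (((cf s j).1 : ℤ) : GaussianInt) * z + (((cf s j).2 : ℤ) : GaussianInt) * sg N z := by
  have key : ∀ j : ℕ,
      (sgi N j z = (((cf s j).1 : ℤ) : GaussianInt) * z +
        (((cf s j).2 : ℤ) : GaussianInt) * sg N z) ∧
      (sgi N (j + 1) z = (((cf s (j + 1)).1 : ℤ) : GaussianInt) * z +
        (((cf s (j + 1)).2 : ℤ) : GaussianInt) * sg N z) := by
    intro j
    induction j with
    | zero =>
      constructor
      · rw [sgi_zero]; simp [cf]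
      · rw [zero_add, sgi_one]; simp [cf]
    | succ j ih =>
      refine ⟨ih.2, ?_⟩
      have h1 : sgi N (j + 1 + 1) z = ((aq N (sgi N j z) : ℤ) : GaussianInt) * sgi N (j + 1) z -
          sgi N j z := by
        have h2 : sgi N (j + 1 + 1) z = sgi N 2 (sgi N j z) := by
          rw [← sgi_add]
        rw [h2, aq_rec (sgi_mem hz j), sgi_succ N j z]
      rw [← hs j] at h1
      rw [h1, ih.1, ih.2]
      simp only [cf]
      push_cast
      ring
  exact (key j).1

theorem cfx_orbit {N : ℕ} {z : GaussianInt} (hz : z ∈ VV N) (s : ℕ → ℤ)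
    (hs : ∀ i, s i = aq N (sgi N i z)) (i j : ℕ) :
    cfx s i j = crossG (sgi N i z) (sgi N j z) := by
  rw [cf_orbit hz s hs i, cf_orbit hz s hs j, cross_smul]
  have h := sgi_cross hz 0
  rw [sgi_zero, zero_add, sgi_one] at h
  rw [h]
  unfold cfx
  ring

private theorem acf_det (s : ℕ → ℤ) (j : ℕ) :
    (cf s j).1 * (cf s (j + 1)).2 - (cf s j).2 * (cf s (j + 1)).1 = 1 := by
  induction j with
  | zero => simp [cf]
  | succ j ih =>
    simp only [cf]
    linear_combination ih

theorem cf_coprime (s : ℕ → ℤ) (j : ℕ) : IsCoprime (cf s j).1 (cf s j).2 := by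
  refine ⟨(cf s (j + 1)).2, -(cf s (j + 1)).1, ?_⟩
  linear_combination acf_det s j

theorem cf_congr (s t : ℕ → ℤ) (j : ℕ) (h : ∀ i, i + 2 ≤ j → s i = t i) : cf s j = cf t j := by
  have key : ∀ j : ℕ, (∀ i, i + 2 ≤ j + 1 → s i = t i) → cf s j = cf t j ∧
      cf s (j + 1) = cf t (j + 1) := by
    intro j
    induction j with
    | zero => intro _; exact ⟨rfl, rfl⟩
    | succ j ih =>
      intro h
      have h1 := ih (fun i hi => h i (by omega))
      refine ⟨h1.2, ?_⟩
      simp only [cf]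
      rw [h j (by omega), h1.1, h1.2]
  rcases j with _ | j
  · rfl
  · exact (key j h).2

private theorem acf_ym (q : ℕ) {z w : GaussianInt} (h : crossG z w = 1) :
    (ym q z w).1 = !![(z.re : ZMod (md q)), (w.re : ZMod (md q));
      (z.im : ZMod (md q)), (w.im : ZMod (md q))] := by
  have h1 : ym q z w = ⟨!![(z.re : ZMod (md q)), (w.re : ZMod (md q));
      (z.im : ZMod (md q)), (w.im : ZMod (md q))], by
      rw [Matrix.det_fin_two_of]
      have h0 : z.re * w.im - w.re * z.im = 1 := by unfold crossG at h; linarith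
      have h1 := congrArg (fun t : ℤ => (t : ZMod (md q))) h0
      push_cast at h1
      exact h1⟩ := dif_pos h
  rw [h1]

theorem YO_step (q : ℕ) {N : ℕ} {z : GaussianInt} (hz : z ∈ VV N) (x : XX) (hx : x.1 = aq N z) :
    ym q (sg N z) (sg N (sg N z)) = phi q x (ym q z (sg N z)) := by
  have h0 : crossG z (sg N z) = 1 := by
    have h := sgi_cross hz 0
    rwa [sgi_zero, zero_add, sgi_one] at h
  have h1 : crossG (sg N z) (sg N (sg N z)) = 1 := by
    have h := sgi_cross (sg_mem hz) 0
    rwa [sgi_zero, zero_add, sgi_one] at h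
  have h2 : sg N (sg N z) = ((aq N z : ℤ) : GaussianInt) * sg N z - z := by
    have h3 : sgi N 2 z = sg N (sg N z) := by
      rw [sgi_succ N 1 z, sgi_one]
    rw [← h3, aq_rec hz]
  have hre : (sg N (sg N z)).re = aq N z * (sg N z).re - z.re := by
    rw [h2]; simp
  have him : (sg N (sg N z)).im = aq N z * (sg N z).im - z.im := by
    rw [h2]; simp
  apply Subtype.ext
  have h4 : (phi q x (ym q z (sg N z))).1 = (ym q z (sg N z)).1 * (stp q x.1).1 := by
    simp [phi]
  rw [h4, acf_ym q h0, acf_ym q h1, hre, him, hx]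
  ext i j
  fin_cases i <;> fin_cases j <;>
    simp [stp, Matrix.mul_apply, Fin.sum_univ_two] <;> ring

theorem lnr_orbit {q : ℕ} (hq : q.Prime) (h4 : q % 4 = 1) {N : ℕ} {z : GaussianInt}
    (hz : z ∈ VV N) (s : ℕ → ℤ) (hs : ∀ i, s i = aq N (sgi N i z)) (j : ℕ) :
    lnr q (ym q z (sg N z)) (cf s j) = 0 ↔ pq q ∣ sgi N j z := by
  have h0 : crossG z (sg N z) = 1 := by
    have h := sgi_cross hz 0
    rwa [sgi_zero, zero_add, sgi_one] at h
  have hn : nN (pq q) = q := pq_spec hq h4
  have hp : (nN (pq q)).Prime := by rw [hn]; exact hq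
  rw [dvd_iff_cross hp, hn, cf_orbit hz s hs j, cross_add_mul]
  have h1 : lnr q (ym q z (sg N z)) (cf s j) =
      (((cf s j).1 * crossG (pq q) z + (cf s j).2 * crossG (pq q) (sg N z) : ℤ) :
        ZMod (md q)) := by
    unfold lnr
    rw [acf_ym q h0]
    unfold crossG
    simp
    ring
  rw [h1, ZMod.intCast_zmod_eq_zero_iff_dvd, md_eq hq.ne_zero]

end Pool.Agent.LogCh
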