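import Pool.Agent.Lib.LogCh.Defs

/-!
# Group A (entropy decrement for the Farey process): definitions

The successor map on the primitive Gaussian integers of norm at most `N`, the partial quotients,
the sample space of pairs (order, point) with the logarithmic measure, the observables, the
residues in `SL₂`, the recursion for the coordinates, the test functions.
-/

set_option autoImplicit false

namespace Pool.Agent.LogCh

open Real
open Pool.Agent.NSqP
open Pool.Agent.MP484c84Par (ballG mem_ballG crossG dotG)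

/-- the successor of `z`: the unique `w` with `(z, w) ∈ CP N` -/
noncomputable def sg (N : ℕ) (z : GaussianInt) : GaussianInt :=
  open Classical in if h : ∃ w, (z, w) ∈ CP N then h.choose else z

/-- the `k`-fold successor -/
noncomputable def sgi (N k : ℕ) (z : GaussianInt) : GaussianInt := (sg N)^[k] z

/-- the partial quotient: `z + sg (sg z) = aq • sg z` -/
noncomputable def aq (N : ℕ) (z : GaussianInt) : ℤ := crossG z (sgi N 2 z)

/-- normalisation of the logarithmic measure -/
noncomputable def zx (X : ℕ) : ℝ := ∑ N ∈ Finset.Icc 1 X, ((VV N).card : ℝ) / (N : ℝ) ^ 2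

/-- the sample space: an order `N ≤ X` and a point of `VV N` -/
abbrev Om (X : ℕ) : Type := (N : Fin X) × {z : GaussianInt // z ∈ VV ((N : ℕ) + 1)}

/-- the order -/
def nO {X : ℕ} (ω : Om X) : ℕ := (ω.1 : ℕ) + 1

/-- the point -/
def pO {X : ℕ} (ω : Om X) : GaussianInt := ω.2.1

/-- the logarithmic probability measure -/
noncomputable def mu (X : ℕ) (ω : Om X) : ℝ := 1 / ((nO ω : ℝ) ^ 2 * zx X)

/-- `fc` as an integer -/
noncomputable def fcZ (a a' : ℝ) (N : ℕ) (z : GaussianInt) : ℤ :=
  open Classical in if a * N < nN z ∧ (nN z : ℝ) ≤ a' * N then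
    ArithmeticFunction.liouville (nN z) else 0

/-- alphabet of the observable -/
abbrev XX : Type := ℤ × ℤ × ℤ

/-- the observable -/
noncomputable def XO (a a' b b' : ℝ) {X : ℕ} (ω : Om X) : XX :=
  (aq (nO ω) (pO ω), fcZ a a' (nO ω) (pO ω), fcZ b b' (nO ω) (pO ω))

/-- the modulus (never zero) -/
def md (q : ℕ) : ℕ := if q = 0 then 1 else q

instance (q : ℕ) : NeZero (md q) := by
  constructor
  unfold md
  split_ifs with h
  · exact one_ne_zero
  · exact h

/-- values of the residues -/
abbrev YY (q : ℕ) : Type := Matrix.SpecialLinearGroup (Fin 2) (ZMod (md q))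

/-- the matrix with columns `z, w` modulo `q` -/
noncomputable def ym (q : ℕ) (z w : GaussianInt) : YY q :=
  open Classical in
  if h : crossG z w = 1 then
    ⟨!![(z.re : ZMod (md q)), (w.re : ZMod (md q)); (z.im : ZMod (md q)), (w.im : ZMod (md q))], by
      rw [Matrix.det_fin_two_of]
      have h0 : z.re * w.im - w.re * z.im = 1 := by unfold crossG at h; linarith
      have h1 := congrArg (fun t : ℤ => (t : ZMod (md q))) h0
      push_cast at h1
      exact h1⟩
  else 1

/-- the residue -/
noncomputable def YO (q : ℕ) {X : ℕ} (ω : Om X) : YY q := ym q (pO ω) (sg (nO ω) (pO ω))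

/-- the step matrix -/
def stp (q : ℕ) (a : ℤ) : YY q :=
  ⟨!![0, -1; 1, (a : ZMod (md q))], by rw [Matrix.det_fin_two_of]; ring⟩

/-- the evolution of the residue -/
def phi (q : ℕ) (x : XX) : Equiv.Perm (YY q) := Equiv.mulRight (stp q x.1)

/-- coordinates of the `j`-th point with respect to the first two, from the partial quotients -/
def cf (s : ℕ → ℤ) : ℕ → ℤ × ℤ
  | 0 => (1, 0)
  | 1 => (0, 1)
  | (j + 2) => (s j * (cf s (j + 1)).1 - (cf s j).1, s j * (cf s (j + 1)).2 - (cf s j).2)

/-- the determinant of the `i`-th and the `j`-th point -/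
def cfx (s : ℕ → ℤ) (i j : ℕ) : ℤ := (cf s i).1 * (cf s j).2 - (cf s i).2 * (cf s j).1

/-- a Gaussian integer of norm `q` -/
noncomputable def pq (q : ℕ) : GaussianInt :=
  open Classical in if h : ∃ w : GaussianInt, nN w = q then h.choose else 1

/-- `pq q × (c.1 z + c.2 w)` modulo `q`, where `z, w` are the columns of `y` -/
noncomputable def lnr (q : ℕ) (y : YY q) (c : ℤ × ℤ) : ZMod (md q) :=
  (((pq q).re : ZMod (md q)) * y.1 1 0 - ((pq q).im : ZMod (md q)) * y.1 0 0) * (c.1 : ZMod (md q)) +
  (((pq q).re : ZMod (md q)) * y.1 1 1 - ((pq q).im : ZMod (md q)) * y.1 0 1) * (c.2 : ZMod (md q))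

/-- the weight `q 1[π ∣ z_j] - q / (q + 1)` -/
noncomputable def wgt (q : ℕ) (y : YY q) (c : ℤ × ℤ) : ℝ :=
  open Classical in (q : ℝ) * (if lnr q y c = 0 then 1 else 0) - (q : ℝ) / (q + 1)

/-- the inner sum -/
noncomputable def inr (L0 q : ℕ) (x : ℕ → XX) (j : ℕ) : ℝ :=
  ∑ k ∈ Finset.Icc 1 L0,
    if cfx (fun i => (x i).1) j (j + k) = (q : ℤ) then (((x (j + k)).2.2 : ℤ) : ℝ) else 0

/-- the test function of a window, before truncation -/
noncomputable def psi0 (L0 q : ℕ) (x : ℕ → XX) (y : YY q) : ℝ :=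
  (∑ j ∈ Finset.range L0, (((x j).2.1 : ℤ) : ℝ) * wgt q y (cf (fun i => (x i).1) j) *
    inr L0 q x j) / L0

/-- the truncated test function -/
noncomputable def psiB (B : ℝ) (L0 q : ℕ) (x : ℕ → XX) (y : YY q) : ℝ :=
  open Classical in
  if q.Prime ∧ q % 4 = 1 ∧ ∀ y' : YY q, |psi0 L0 q x y'| ≤ B then psi0 L0 q x y else 0

/-- extension of a finite window by zero -/
def exw {L : ℕ} (x : Fin L → XX) : ℕ → XX := fun i => if h : i < L then x ⟨i, h⟩ else (0, 0, 0)

/-- the observables along an orbit -/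
noncomputable def xo (a a' b b' : ℝ) (N : ℕ) (z : GaussianInt) : ℕ → XX :=
  fun i => (aq N (sgi N i z), fcZ a a' N (sgi N i z), fcZ b b' N (sgi N i z))

/-- the correlation over the pairs of determinant `N κ` whose first member is divisible by `κ` -/
noncomputable def pairSumPi (κ : GaussianInt) (a a' b b' : ℝ) (N : ℕ) : ℝ :=
  open Classical in
  ∑ p ∈ (dpairs (nN κ : ℤ) N).filter (fun p => κ ∣ p.1), fc a a' N p.1 * fc b b' N p.2

/-- `θ` is an angle function along the orbit of `z` -/
structure IsAng (N : ℕ) (z : GaussianInt) (θ : ℕ → ℝ) : Prop where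
  zero : θ 0 = 0
  mono : ∀ j, θ j < θ (j + 1)
  step : ∀ j, θ (j + 1) - θ j ≤ 2 / (√(nN (sgi N j z)) * √(nN (sgi N (j + 1) z)))
  cross : ∀ i j, (crossG (sgi N i z) (sgi N j z) : ℝ) =
    √(nN (sgi N i z)) * √(nN (sgi N j z)) * sin (θ j - θ i)
  dot : ∀ i j, (dotG (sgi N i z) (sgi N j z) : ℝ) =
    √(nN (sgi N i z)) * √(nN (sgi N j z)) * cos (θ j - θ i)

end Pool.Agent.LogCh
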