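import Pool.Agent.Lib.LogCh.Shared
import Pool.Agent.Lib.LogCh.ACard

/-!
# Group A, module ADiv: pairs of given determinant with a divisibility condition

`dpairs_div`: for fixed `z` the number of `w` of norm `≤ N` with `crossG z w = m` is at most
`2 √(N / N z) + 1 ≤ 3 √(N / N z)` (`line_count` of `Iface.lean`). Sum over the
`z ∈ ann 0 N` divisible by `κ`: `NSqP.sum_dvd` turns it into
`Σ_{z' ∈ ann 0 (N / N κ)} 3 √(N/(N κ N z')) ≤ 3 √(N/Nκ) C √(N/Nκ)` (`sum_inv_sqrt`). For the second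
coordinate use the symmetric count (`crossG z w = m ↔ crossG w z = - m`).
-/

set_option autoImplicit false

namespace Pool.Agent.LogCh

open Real
open Pool.Agent.NSqP
open Pool.Agent.MP484c84Par (ballG mem_ballG crossG dotG)

private theorem adiv_mem {m : ℤ} {N : ℕ} {p : GaussianInt × GaussianInt} :
    p ∈ dpairs m N ↔ (p.1 ∈ VV N ∧ p.2 ∈ VV N) ∧ crossG p.1 p.2 = m ∧ 0 < dotG p.1 p.2 := by
  unfold dpairs
  rw [Finset.mem_filter, Finset.mem_product]

private theorem adiv_ball {N : ℕ} {z : GaussianInt} (hz : z ∈ VV N) : z ∈ ballG N := by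
  unfold VV at hz
  rw [mem_pann (Nat.cast_nonneg N)] at hz
  rw [mem_ballG, ← nN_cast_int]
  have := hz.1.2
  exact_mod_cast this

open Classical in
private theorem adiv_fiber (m : ℤ) (N : ℕ) (κ z : GaussianInt) (hz : z ∈ VV N) :
    ((((dpairs m N).filter (fun p : GaussianInt × GaussianInt => κ ∣ p.1)).filter
      (fun p => p.1 = z)).card : ℝ) ≤ 3 * √(N : ℝ) * (1 / √(nN z : ℝ)) := by
  have hz' := hz
  unfold VV at hz'
  rw [mem_pann (Nat.cast_nonneg N)] at hz'
  obtain ⟨⟨h0, h1⟩, hp⟩ := hz'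
  have h2 : (((dpairs m N).filter (fun p : GaussianInt × GaussianInt => κ ∣ p.1)).filter
      (fun p => p.1 = z)).card ≤ ((ballG N).filter (fun v => crossG z v = m)).card := by
    apply Finset.card_le_card_of_injOn Prod.snd
    · intro p hp
      rw [Finset.mem_coe, Finset.mem_filter, Finset.mem_filter, adiv_mem] at hp
      obtain ⟨⟨⟨⟨h3, h4⟩, h5, h6⟩, h7⟩, h8⟩ := hp
      rw [Finset.mem_coe, Finset.mem_filter]
      refine ⟨adiv_ball h4, ?_⟩
      rw [← h8]
      exact h5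
    · intro p hp q hq hpq
      rw [Finset.mem_coe, Finset.mem_filter] at hp hq
      exact Prod.ext (hp.2.trans hq.2.symm) hpq
  have h3 := line_count z hp m N
  have h4 : (1 : ℝ) ≤ √((N : ℝ) / nN z) := by
    rw [Real.one_le_sqrt, one_le_div h0]
    exact h1
  calc _ ≤ (((ballG N).filter (fun v => crossG z v = m)).card : ℝ) := by exact_mod_cast h2
    _ ≤ 2 * √((N : ℝ) / nN z) + 1 := h3
    _ ≤ 3 * √((N : ℝ) / nN z) := by linarith
    _ = 3 * √(N : ℝ) * (1 / √(nN z : ℝ)) := by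
      rw [Real.sqrt_div (Nat.cast_nonneg N)]
      ring

open Classical in
private theorem adiv_first : ∃ C : ℝ, 0 < C ∧ ∀ (m : ℤ) (N : ℕ) (κ : GaussianInt), κ ≠ 0 →
    (((dpairs m N).filter (fun p : GaussianInt × GaussianInt => κ ∣ p.1)).card : ℝ) ≤
      C * N / nN κ := by
  obtain ⟨C, hC, hsum⟩ := sum_inv_sqrt
  refine ⟨3 * C, by positivity, ?_⟩
  intro m N κ hκ
  have hκp : (0 : ℝ) < nN κ := by exact_mod_cast nN_pos hκ
  have h1 : ((dpairs m N).filter (fun p : GaussianInt × GaussianInt => κ ∣ p.1)).card =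
      ∑ z ∈ (VV N).filter (fun z => κ ∣ z),
        (((dpairs m N).filter (fun p : GaussianInt × GaussianInt => κ ∣ p.1)).filter
          (fun p => p.1 = z)).card := by
    apply Finset.card_eq_sum_card_fiberwise
    intro p hp
    rw [Finset.mem_coe, Finset.mem_filter, adiv_mem] at hp
    rw [Finset.mem_coe, Finset.mem_filter]
    exact ⟨hp.1.1.1, hp.2⟩
  rw [h1]
  push_cast
  have h2 : (VV N).filter (fun z => κ ∣ z) ⊆ (ann 0 N).filter (fun z => κ ∣ z) :=
    Finset.filter_subset_filter _ (pann_subset _ _)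
  calc ∑ z ∈ (VV N).filter (fun z => κ ∣ z),
        ((((dpairs m N).filter (fun p : GaussianInt × GaussianInt => κ ∣ p.1)).filter
          (fun p => p.1 = z)).card : ℝ)
      ≤ ∑ z ∈ (VV N).filter (fun z => κ ∣ z), 3 * √(N : ℝ) * (1 / √(nN z : ℝ)) := by
        apply Finset.sum_le_sum
        intro z hz
        rw [Finset.mem_filter] at hz
        exact adiv_fiber m N κ z hz.1
    _ ≤ ∑ z ∈ (ann 0 N).filter (fun z => κ ∣ z), 3 * √(N : ℝ) * (1 / √(nN z : ℝ)) := by
        apply Finset.sum_le_sum_of_subset_of_nonneg h2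
        intro z _ _
        positivity
    _ = ∑ w ∈ ann (0 / nN κ) (N / nN κ), 3 * √(N : ℝ) * (1 / √(nN (κ * w) : ℝ)) :=
        sum_dvd (fun z => 3 * √(N : ℝ) * (1 / √(nN z : ℝ))) hκ le_rfl (Nat.cast_nonneg N)
    _ = 3 * √(N : ℝ) * (1 / √(nN κ : ℝ)) * ∑ w ∈ ann 0 (N / nN κ), 1 / √(nN w : ℝ) := by
        rw [zero_div, Finset.mul_sum]
        apply Finset.sum_congr rfl
        intro w _
        rw [nN_mul, Nat.cast_mul, Real.sqrt_mul (Nat.cast_nonneg _)]
        ring
    _ ≤ 3 * √(N : ℝ) * (1 / √(nN κ : ℝ)) * (C * √((N : ℝ) / nN κ)) := by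
        apply mul_le_mul_of_nonneg_left (hsum _ (by positivity)) (by positivity)
    _ = 3 * C * (√((N : ℝ) / nN κ) * √((N : ℝ) / nN κ)) := by
        rw [Real.sqrt_div (Nat.cast_nonneg N)]
        ring
    _ = 3 * C * N / nN κ := by
        rw [Real.mul_self_sqrt (by positivity)]
        ring

open Classical in
theorem dpairs_div : ∃ C : ℝ, 0 < C ∧ ∀ (m : ℤ) (N : ℕ) (κ : GaussianInt), κ ≠ 0 →
    (((dpairs m N).filter (fun p : GaussianInt × GaussianInt => κ ∣ p.1)).card : ℝ) ≤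
      C * N / nN κ ∧
    (((dpairs m N).filter (fun p : GaussianInt × GaussianInt => κ ∣ p.2)).card : ℝ) ≤
      C * N / nN κ := by
  obtain ⟨C, hC, h⟩ := adiv_first
  refine ⟨C, hC, fun m N κ hκ => ⟨h m N κ hκ, ?_⟩⟩
  refine le_trans ?_ (h (-m) N κ hκ)
  have h1 : ((dpairs m N).filter (fun p : GaussianInt × GaussianInt => κ ∣ p.2)).card ≤
      ((dpairs (-m) N).filter (fun p : GaussianInt × GaussianInt => κ ∣ p.1)).card := by
    apply Finset.card_le_card_of_injOn Prod.swap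
    · intro p hp
      rw [Finset.mem_coe, Finset.mem_filter, adiv_mem] at hp ⊢
      obtain ⟨⟨⟨h3, h4⟩, h5, h6⟩, h7⟩ := hp
      refine ⟨⟨⟨h4, h3⟩, ?_, ?_⟩, h7⟩
      · rw [← h5]
        unfold crossG
        simp only [Prod.fst_swap, Prod.snd_swap]
        ring
      · have : dotG p.2 p.1 = dotG p.1 p.2 := by
          unfold dotG
          ring
        simpa [this] using h6
    · exact Prod.swap_injective.injOn
  exact_mod_cast h1

theorem card_dpairs : ∃ C : ℝ, 0 < C ∧ ∀ (m : ℤ) (N : ℕ), ((dpairs m N).card : ℝ) ≤ C * N := by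
  classical
  obtain ⟨C, hC, h⟩ := dpairs_div
  refine ⟨C, hC, fun m N => ?_⟩
  have h1 := (h m N 1 one_ne_zero).1
  rw [Finset.filter_true_of_mem (fun p _ => one_dvd p.1), nN_one] at h1
  simpa using h1

end Pool.Agent.LogCh
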