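import Pool.Agent.Lib.LogCh.ACard

/-!
# Group A, module AZx: the normalisation and harmonic sums
-/

set_option autoImplicit false

namespace Pool.Agent.LogCh

open Real
open Pool.Agent.NSqP
open Pool.Agent.MP484c84Par (ballG mem_ballG crossG dotG)

private theorem harm_eq (X : ℕ) : ∑ N ∈ Finset.Icc 1 X, 1 / (N : ℝ) = ((harmonic X : ℚ) : ℝ) := by
  rw [harmonic_eq_sum_Icc]
  push_cast
  exact Finset.sum_congr rfl fun i _ => one_div _

theorem harm_upper (X : ℕ) (hX : 1 ≤ X) : ∑ N ∈ Finset.Icc 1 X, 1 / (N : ℝ) ≤ 1 + log X := by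
  rw [harm_eq]
  exact harmonic_le_one_add_log X

theorem harm_lower (X : ℕ) (hX : 1 ≤ X) :
    (1 + log X) / 2 ≤ ∑ N ∈ Finset.Icc 1 X, 1 / (N : ℝ) := by
  have h1 : log (X : ℝ) ≤ ∑ N ∈ Finset.Icc 1 X, 1 / (N : ℝ) := by
    rw [harm_eq]
    refine le_trans ?_ (log_add_one_le_harmonic X)
    exact Real.log_le_log (by exact_mod_cast hX) (by push_cast; linarith)
  have h2 : 1 ≤ ∑ N ∈ Finset.Icc 1 X, 1 / (N : ℝ) := by
    have := Finset.single_le_sum (f := fun N : ℕ => 1 / (N : ℝ))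
      (fun i _ => by positivity) (Finset.mem_Icc.2 ⟨le_rfl, hX⟩)
    simpa using this
  linarith

private theorem term_eq {x : ℝ} (C : ℝ) (N : ℕ) (hN : 1 ≤ N) (hx : x = C * N) :
    x / (N : ℝ) ^ 2 = C * (1 / (N : ℝ)) := by
  have : (N : ℝ) ≠ 0 := by exact_mod_cast (by omega : N ≠ 0)
  rw [hx]
  field_simp

theorem zx_lower : ∃ c : ℝ, 0 < c ∧ ∀ X : ℕ, 1 ≤ X → c * (1 + log X) ≤ zx X := by
  obtain ⟨c, hc, h⟩ := card_VV_lower
  refine ⟨c / 2, by positivity, fun X hX => ?_⟩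
  have h1 : c * ∑ N ∈ Finset.Icc 1 X, 1 / (N : ℝ) ≤ zx X := by
    unfold zx
    rw [Finset.mul_sum]
    refine Finset.sum_le_sum fun N hN => ?_
    have hN1 : 1 ≤ N := (Finset.mem_Icc.1 hN).1
    rw [← term_eq (x := c * N) c N hN1 rfl]
    exact div_le_div_of_nonneg_right (h N) (by positivity)
  have h2 := mul_le_mul_of_nonneg_left (harm_lower X hX) hc.le
  calc c / 2 * (1 + log X) = c * ((1 + log X) / 2) := by ring
    _ ≤ _ := h2.trans h1

theorem zx_upper : ∃ C : ℝ, 0 < C ∧ ∀ X : ℕ, 1 ≤ X → zx X ≤ C * (1 + log X) := by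
  obtain ⟨C, hC, h⟩ := card_VV_upper
  refine ⟨C, hC, fun X hX => ?_⟩
  have h1 : zx X ≤ C * ∑ N ∈ Finset.Icc 1 X, 1 / (N : ℝ) := by
    unfold zx
    rw [Finset.mul_sum]
    refine Finset.sum_le_sum fun N hN => ?_
    have hN1 : 1 ≤ N := (Finset.mem_Icc.1 hN).1
    rw [← term_eq (x := C * N) C N hN1 rfl]
    exact div_le_div_of_nonneg_right (h N) (by positivity)
  exact h1.trans (mul_le_mul_of_nonneg_left (harm_upper X hX) hC.le)

theorem zx_pos {X : ℕ} (hX : 1 ≤ X) : 0 < zx X := by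
  obtain ⟨c, hc, h⟩ := zx_lower
  have hl : 0 ≤ log (X : ℝ) := Real.log_nonneg (by exact_mod_cast hX)
  exact lt_of_lt_of_le (by positivity) (h X hX)

/-- a sum bounded by `C N` at every `N` -/
theorem log_avg (F : ℕ → ℝ) (C : ℝ) (hF : ∀ N, 1 ≤ N → |F N| ≤ C * N) (X : ℕ) (hX : 1 ≤ X) :
    ∑ N ∈ Finset.Icc 1 X, |F N| / (N : ℝ) ^ 2 ≤ C * (1 + log X) := by
  have hC : 0 ≤ C := by
    have := (abs_nonneg _).trans (hF 1 le_rfl)
    simpa using this
  have h1 : ∑ N ∈ Finset.Icc 1 X, |F N| / (N : ℝ) ^ 2 ≤ C * ∑ N ∈ Finset.Icc 1 X, 1 / (N : ℝ) := by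
    rw [Finset.mul_sum]
    refine Finset.sum_le_sum fun N hN => ?_
    have hN1 : 1 ≤ N := (Finset.mem_Icc.1 hN).1
    rw [← term_eq (x := C * N) C N hN1 rfl]
    exact div_le_div_of_nonneg_right (hF N hN1) (by positivity)
  exact h1.trans (mul_le_mul_of_nonneg_left (harm_upper X hX) hC)

end Pool.Agent.LogCh
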