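import Pool.Agent.Lib.LogCh.ASucc
import Pool.Agent.Lib.LogCh.AZx

/-!
# Group A, module AOm: the sample space

`sum_Om`: `Fintype.sum_sigma`, `Finset.sum_coe_sort` (subtype sum), and the reindexing
`Fin X → Icc 1 X`, `i ↦ i + 1` (`Finset.sum_range`, `Finset.sum_Ico_eq_sum_range`, ...).
`TT`: a permutation of `Om X` acting by `sg` on the second component; construct it as
`Equiv.sigmaCongrRight` of `Equiv.ofBijective` of the restriction of `sg` to `{z // z ∈ VV N}`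
(`sg_mem`, `sg_inj`, `sg_surj`), or show that `ω ↦ ⟨ω.1, sg .., _⟩` is bijective
(`Finite.injective_iff_bijective`). The theorem gives its existence together with all the
properties which are needed.
-/

set_option autoImplicit false

namespace Pool.Agent.LogCh

open Real
open Pool.Agent.NSqP
open Pool.Agent.MP484c84Par (ballG mem_ballG crossG dotG)

theorem sum_Om (X : ℕ) (F : ℕ → GaussianInt → ℝ) :
    ∑ ω : Om X, F (nO ω) (pO ω) = ∑ N ∈ Finset.Icc 1 X, ∑ z ∈ VV N, F N z := by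
  rw [Fintype.sum_sigma]
  have h1 : ∀ i : Fin X, ∑ y : {z : GaussianInt // z ∈ VV ((i : ℕ) + 1)},
      F (nO (⟨i, y⟩ : Om X)) (pO (⟨i, y⟩ : Om X)) =
      ∑ z ∈ VV ((i : ℕ) + 1), F ((i : ℕ) + 1) z := by
    intro i
    exact Finset.sum_coe_sort (VV ((i : ℕ) + 1)) (fun z => F ((i : ℕ) + 1) z)
  rw [Finset.sum_congr rfl (fun i _ => h1 i),
    Fin.sum_univ_eq_sum_range (fun i => ∑ z ∈ VV (i + 1), F (i + 1) z) X]
  refine Finset.sum_bij (fun i _ => i + 1) ?_ ?_ ?_ ?_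
  · intro i hi
    rw [Finset.mem_range] at hi
    rw [Finset.mem_Icc]
    omega
  · intro i _ j _ h
    exact Nat.succ_injective h
  · intro N hN
    rw [Finset.mem_Icc] at hN
    exact ⟨N - 1, by rw [Finset.mem_range]; omega, by omega⟩
  · intro i _
    rfl

theorem pO_mem {X : ℕ} (ω : Om X) : pO ω ∈ VV (nO ω) := ω.2.2

theorem nO_pos {X : ℕ} (ω : Om X) : 1 ≤ nO ω := Nat.succ_le_succ (Nat.zero_le _)

private lemma zx_nonneg_aux (X : ℕ) : 0 ≤ zx X := by
  unfold zx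
  exact Finset.sum_nonneg fun N _ => by positivity

theorem mu_nonneg {X : ℕ} (ω : Om X) : 0 ≤ mu X ω := by
  unfold mu
  have := zx_nonneg_aux X
  positivity

theorem sum_mu (X : ℕ) (F : ℕ → GaussianInt → ℝ) :
    ∑ ω : Om X, mu X ω * F (nO ω) (pO ω) =
      (∑ N ∈ Finset.Icc 1 X, (∑ z ∈ VV N, F N z) / (N : ℝ) ^ 2) / zx X := by
  have h1 := sum_Om X (fun N z => 1 / ((N : ℝ) ^ 2 * zx X) * F N z)
  have h2 : ∀ ω : Om X, mu X ω * F (nO ω) (pO ω) =
      1 / ((nO ω : ℝ) ^ 2 * zx X) * F (nO ω) (pO ω) := fun ω => rfl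
  rw [Finset.sum_congr rfl (fun ω _ => h2 ω), h1, Finset.sum_div]
  refine Finset.sum_congr rfl fun N _ => ?_
  rw [← Finset.mul_sum, div_div, one_div, inv_mul_eq_div]

theorem mu_sum {X : ℕ} (hX : 1 ≤ X) : ∑ ω : Om X, mu X ω = 1 := by
  have h1 := sum_mu X (fun _ _ => 1)
  simp only [mul_one, Finset.sum_const, nsmul_eq_mul] at h1
  rw [h1]
  exact div_self (zx_pos hX).ne'

theorem exists_TT (X : ℕ) : ∃ T : Equiv.Perm (Om X), ∀ ω : Om X, (∀ i : ℕ,
    nO ((T ^ i) ω) = nO ω ∧ pO ((T ^ i) ω) = sgi (nO ω) i (pO ω)) ∧ mu X (T ω) = mu X ω := by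
  classical
  let e : ∀ i : Fin X, {z : GaussianInt // z ∈ VV ((i : ℕ) + 1)} ≃
      {z : GaussianInt // z ∈ VV ((i : ℕ) + 1)} := fun i =>
    Equiv.ofBijective (fun y => ⟨sg ((i : ℕ) + 1) y.1, sg_mem y.2⟩) (by
      constructor
      · intro y y' h
        have h1 : sg ((i : ℕ) + 1) y.1 = sg ((i : ℕ) + 1) y'.1 := congrArg Subtype.val h
        exact Subtype.ext (sg_inj y.2 y'.2 h1)
      · intro w
        obtain ⟨z, hz, hzw⟩ := sg_surj w.2
        exact ⟨⟨z, hz⟩, Subtype.ext hzw⟩)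
  let T : Equiv.Perm (Om X) := Equiv.sigmaCongrRight e
  have hn : ∀ ω : Om X, nO (T ω) = nO ω := fun ω => rfl
  have hp : ∀ ω : Om X, pO (T ω) = sg (nO ω) (pO ω) := fun ω => rfl
  refine ⟨T, fun ω => ⟨fun i => ?_, ?_⟩⟩
  · induction i with
    | zero => exact ⟨rfl, rfl⟩
    | succ i ih =>
      have h1 : (T ^ (i + 1)) ω = T ((T ^ i) ω) := by
        rw [pow_succ']
        rfl
      rw [h1, hn, hp, ih.1, ih.2, sgi_succ]
      exact ⟨rfl, rfl⟩
  · unfold mu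
    rw [hn]

end Pool.Agent.LogCh
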