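import Pool.Agent.Lib.LogCh.ASucc
import Pool.Agent.Lib.LogCh.ACard

/-!
# Group A, module AQuo: partial quotients
-/

set_option autoImplicit false

namespace Pool.Agent.LogCh

open Real
open Pool.Agent.NSqP
open Pool.Agent.MP484c84Par (ballG mem_ballG crossG dotG)

private theorem sgi_two (N : ℕ) (z : GaussianInt) : sgi N 2 z = sg N (sg N z) := rfl

theorem aq_rec {N : ℕ} {z : GaussianInt} (hz : z ∈ VV N) :
    sgi N 2 z = ((aq N z : ℤ) : GaussianInt) * sg N z - z := by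
  have hw := sg_mem hz
  have h1 := (mem_CP.1 (sg_CP hz)).2.2.1
  have h2 := (mem_CP.1 (sg_CP hw)).2.2.1
  have h3 := comb h1 (sgi N 2 z)
  have h4 : crossG (sgi N 2 z) (sg N z) = -1 := by
    rw [sgi_two, cross_swap, h2]
  rw [h4] at h3
  have h5 : crossG z (sgi N 2 z) = aq N z := rfl
  rw [h5] at h3
  calc sgi N 2 z = (((-1 : ℤ) : GaussianInt)) * z + ((aq N z : ℤ) : GaussianInt) * sg N z := h3
    _ = ((aq N z : ℤ) : GaussianInt) * sg N z - z := by push_cast; ring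

private theorem aq_mul {N : ℕ} {z : GaussianInt} (hz : z ∈ VV N) :
    aq N z * (nN (sg N z) : ℤ) = dotG z (sg N z) + dotG (sg N z) (sgi N 2 z) := by
  have h1 := aq_rec hz
  have h2 : sgi N 2 z = ((aq N z : ℤ) : GaussianInt) * sg N z + ((-1 : ℤ) : GaussianInt) * z := by
    rw [h1]; push_cast; ring
  have h3 := dot_add_mul (sg N z) (sg N z) z (aq N z) (-1)
  rw [← h2, dot_self, dot_swap z (sg N z)] at h3
  rw [h3]; ring

theorem aq_nonneg {N : ℕ} {z : GaussianInt} (hz : z ∈ VV N) : 0 ≤ aq N z := by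
  have hw := sg_mem hz
  have h1 := CP_dot (sg_CP hz)
  have h2 := CP_dot (sg_CP hw)
  have h3 := aq_mul hz
  have h4 : (0 : ℤ) < (nN (sg N z) : ℤ) := by
    exact_mod_cast nN_pos (prim_ne_zero (mem_VV.1 hw).2)
  rw [sgi_two] at h3
  by_contra hneg
  push Not at hneg
  have : aq N z * (nN (sg N z) : ℤ) < 0 := mul_neg_of_neg_of_pos hneg h4
  linarith

theorem aq_sq {N : ℕ} {z : GaussianInt} (hz : z ∈ VV N) :
    (aq N z) ^ 2 * (nN (sg N z) : ℤ) ≤ 4 * N := by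
  have hw := sg_mem hz
  have hv := sg_mem hw
  have h1 := aq_rec hz
  have h2 : z + sgi N 2 z = ((aq N z : ℤ) : GaussianInt) * sg N z + ((0 : ℤ) : GaussianInt) * z := by
    rw [h1]; push_cast; ring
  have h3 := nN_comb (aq N z) 0 (sg N z) z
  rw [← h2, nN_add] at h3
  have h4 : (nN z : ℤ) ≤ N := by exact_mod_cast (mem_VV.1 hz).1
  have h5 : (nN (sgi N 2 z) : ℤ) ≤ N := by
    rw [sgi_two]; exact_mod_cast (mem_VV.1 hv).1
  have h6 := dot_sq z (sgi N 2 z)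
  have h7 : 2 * dotG z (sgi N 2 z) ≤ (nN z : ℤ) + nN (sgi N 2 z) := by
    by_contra hcon
    push Not at hcon
    have h8 : (0 : ℤ) ≤ (nN z : ℤ) := Nat.cast_nonneg _
    have h9 : (0 : ℤ) ≤ (nN (sgi N 2 z) : ℤ) := Nat.cast_nonneg _
    nlinarith [sq_nonneg ((nN z : ℤ) - nN (sgi N 2 z)), sq_nonneg (crossG z (sgi N 2 z))]
  nlinarith

theorem sum_aq : ∃ C : ℝ, 0 < C ∧ ∀ N : ℕ, ∑ z ∈ VV N, |((aq N z : ℤ) : ℝ)| ≤ C * N := by
  obtain ⟨C, hC, h⟩ := sum_inv_sqrt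
  refine ⟨2 * C, by positivity, fun N => ?_⟩
  have h1 : ∀ z ∈ VV N, |((aq N z : ℤ) : ℝ)| ≤ 2 * √N * (1 / √(nN (sgi N 1 z) : ℝ)) := by
    intro z hz
    have hw := sg_mem hz
    rw [sgi_one]
    have hpos : (0 : ℝ) < nN (sg N z) := by exact_mod_cast nN_pos (prim_ne_zero (mem_VV.1 hw).2)
    have h2 : ((aq N z : ℤ) : ℝ) ^ 2 * (nN (sg N z) : ℝ) ≤ 4 * N := by exact_mod_cast aq_sq hz
    rw [mul_one_div, le_div_iff₀ (Real.sqrt_pos.2 hpos)]
    refine abs_le_of_sq_le_sq' ?_ (by positivity) |>.2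
    rw [mul_pow, sq_abs, Real.sq_sqrt hpos.le, mul_pow, Real.sq_sqrt (Nat.cast_nonneg N)]
    linarith
  refine (Finset.sum_le_sum h1).trans ?_
  rw [← Finset.mul_sum, sum_sgi N 1 (fun z => 1 / √(nN z : ℝ))]
  have h3 : ∑ z ∈ VV N, 1 / √(nN z : ℝ) ≤ C * √N := by
    refine le_trans ?_ (h N (Nat.cast_nonneg N))
    exact Finset.sum_le_sum_of_subset_of_nonneg (pann_subset _ _) fun _ _ _ => by positivity
  calc 2 * √N * ∑ z ∈ VV N, 1 / √(nN z : ℝ) ≤ 2 * √N * (C * √N) :=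
        mul_le_mul_of_nonneg_left h3 (by positivity)
    _ = 2 * C * (√N * √N) := by ring
    _ = 2 * C * N := by rw [Real.mul_self_sqrt (Nat.cast_nonneg N)]

end Pool.Agent.LogCh
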