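import Pool.Agent.Lib.LogCh.AGibbs
import Pool.Agent.Lib.LogCh.AOm
import Pool.Agent.Lib.LogCh.AQuo
import Pool.Agent.Lib.LogCh.APi

/-!
# Group A, module AEnt: the entropy of the observable is bounded

`ent_le_of_weight` with `wt`: `- log wt (XO ω) ≤ (|aq| + 8) log 2` (`abs_fcZ_le`), and
`Σ_ω μ |aq| = (Σ_N Σ_z |aq| / N^2)/zx ≤ C (1 + log X)/(c (1 + log X))` (`sum_mu`, `sum_aq`, `log_avg`,
`zx_lower`).
-/

set_option autoImplicit false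

namespace Pool.Agent.LogCh

open Real
open Pool.Agent.NSqP
open Pool.Agent.MP484c84Par (ballG mem_ballG crossG dotG)

private theorem aent_wt_pos (x : XX) : 0 < wt x := by
  unfold wt
  positivity

private theorem aent_natAbs (n : ℤ) : ((n.natAbs : ℕ) : ℝ) = |((n : ℤ) : ℝ)| := by
  rw [Nat.cast_natAbs, Int.cast_abs]

private theorem aent_fcZ (a a' : ℝ) (N : ℕ) (z : GaussianInt) :
    (((fcZ a a' N z).natAbs : ℕ) : ℝ) ≤ 1 := by
  have h := abs_fcZ_le a a' N z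
  rw [aent_natAbs]
  have h1 : ((|fcZ a a' N z| : ℤ) : ℝ) ≤ ((1 : ℤ) : ℝ) := by exact_mod_cast h
  rwa [Int.cast_abs, Int.cast_one] at h1

theorem ent_XO : ∃ h0 : ℝ, ∀ X : ℕ, 1 ≤ X → ∀ a a' b b' : ℝ,
    ent (mu X) (fun ω : Om X => XO a a' b b' ω) ≤ h0 := by
  obtain ⟨C, hC, hCa⟩ := sum_aq
  obtain ⟨c, hc, hcz⟩ := zx_lower
  refine ⟨(C / c + 8) * log 2, ?_⟩
  intro X hX a a' b b'
  have hlog2 : 0 ≤ log 2 := Real.log_nonneg (by norm_num)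
  have h1 := ent_le_of_weight (mu X) mu_nonneg (mu_sum hX)
    (fun ω : Om X => XO a a' b b' ω) wt aent_wt_pos wt_sum
  refine h1.trans ?_
  have h2 : ∀ ω : Om X, mu X ω * (- log (wt (XO a a' b b' ω))) ≤
      (mu X ω * |((aq (nO ω) (pO ω) : ℤ) : ℝ)| + mu X ω * 8) * log 2 := by
    intro ω
    rw [wt_log]
    have h3 : (((XO a a' b b' ω).1.natAbs + (XO a a' b b' ω).2.1.natAbs +
        (XO a a' b b' ω).2.2.natAbs + 6 : ℕ) : ℝ) ≤ |((aq (nO ω) (pO ω) : ℤ) : ℝ)| + 8 := by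
      push_cast
      have e1 : ((XO a a' b b' ω).1 : ℝ) = ((aq (nO ω) (pO ω) : ℤ) : ℝ) := rfl
      have h4 : (((XO a a' b b' ω).2.1.natAbs : ℕ) : ℝ) ≤ 1 := aent_fcZ a a' (nO ω) (pO ω)
      have h5 : (((XO a a' b b' ω).2.2.natAbs : ℕ) : ℝ) ≤ 1 := aent_fcZ b b' (nO ω) (pO ω)
      have h6 : (((XO a a' b b' ω).1.natAbs : ℕ) : ℝ) = |((aq (nO ω) (pO ω) : ℤ) : ℝ)| :=
        aent_natAbs _
      linarith
    have h7 : mu X ω * ((((XO a a' b b' ω).1.natAbs + (XO a a' b b' ω).2.1.natAbs +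
        (XO a a' b b' ω).2.2.natAbs + 6 : ℕ) : ℝ) * log 2) ≤
        mu X ω * ((|((aq (nO ω) (pO ω) : ℤ) : ℝ)| + 8) * log 2) :=
      mul_le_mul_of_nonneg_left (mul_le_mul_of_nonneg_right h3 hlog2) (mu_nonneg ω)
    refine h7.trans (le_of_eq ?_)
    ring
  refine (Finset.sum_le_sum (fun ω _ => h2 ω)).trans ?_
  rw [← Finset.sum_mul, Finset.sum_add_distrib, ← Finset.sum_mul, mu_sum hX, one_mul]
  refine mul_le_mul_of_nonneg_right ?_ hlog2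
  have h8 : ∑ ω : Om X, mu X ω * |((aq (nO ω) (pO ω) : ℤ) : ℝ)| =
      (∑ N ∈ Finset.Icc 1 X, (∑ z ∈ VV N, |((aq N z : ℤ) : ℝ)|) / (N : ℝ) ^ 2) / zx X :=
    sum_mu X (fun N z => |((aq N z : ℤ) : ℝ)|)
  have h9 : ∑ N ∈ Finset.Icc 1 X, (∑ z ∈ VV N, |((aq N z : ℤ) : ℝ)|) / (N : ℝ) ^ 2 ≤
      C * (1 + log X) := by
    have h10 := log_avg (fun N => ∑ z ∈ VV N, |((aq N z : ℤ) : ℝ)|) C
      (fun N _ => by
        show abs (∑ z ∈ VV N, |((aq N z : ℤ) : ℝ)|) ≤ C * N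
        rw [abs_of_nonneg (Finset.sum_nonneg (fun z _ => abs_nonneg _))]
        exact hCa N) X hX
    refine le_trans (le_of_eq ?_) h10
    refine Finset.sum_congr rfl (fun N _ => ?_)
    rw [abs_of_nonneg (Finset.sum_nonneg (fun z _ => abs_nonneg _))]
  have hlogX : 0 ≤ log (X : ℝ) := Real.log_nonneg (by exact_mod_cast hX)
  have h11 : (∑ N ∈ Finset.Icc 1 X, (∑ z ∈ VV N, |((aq N z : ℤ) : ℝ)|) / (N : ℝ) ^ 2) / zx X ≤
      C / c := by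
    rw [div_le_div_iff₀ (zx_pos hX) hc]
    calc (∑ N ∈ Finset.Icc 1 X, (∑ z ∈ VV N, |((aq N z : ℤ) : ℝ)|) / (N : ℝ) ^ 2) * c
        ≤ (C * (1 + log X)) * c := mul_le_mul_of_nonneg_right h9 hc.le
      _ = C * (c * (1 + log X)) := by ring
      _ ≤ C * zx X := mul_le_mul_of_nonneg_left (hcz X hX) hC.le
  rw [h8]
  linarith

end Pool.Agent.LogCh
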