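import Pool.Agent.Lib.LogCh.APi

/-!
# Group A, module AMBij: the map `(z, w) ↦ (κ z, κ w)`

`pairSum_one`: the members of `dpairs 1 N` are members of `dpairs 1 X`, and a pair of `dpairs 1 X`
with `nN p.1 ≤ a' N ≤ N`, `nN p.2 ≤ b' N ≤ N` belongs to `dpairs 1 N`.
`pairSumPi_eq`: `Finset.sum_bij` with `(z, w) ↦ (κ z, κ w)`: for `(u, v) ∈ dpairs q N'`, `κ ∣ u`, also
`κ ∣ v` (`dvd_second`), `u = κ z`, `v = κ w`, `z × w = 1` (`cross_mul`), `<z,w> > 0` (`dot_mul`), `z, w`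
primitive and not divisible by `star κ` (`prim_mul_iff`), `nN u = q nN z`, and
`lam u * lam v = (-1)^2 lam z lam w` (`lamA_mul`, `lam_prime`). Conversely a pair with
`q nN z ≤ a' N' ≤ N'` etc. gives a pair of `dpairs q N'`. (`N' ≤ X` ensures `nN z ≤ X`.)
-/

set_option autoImplicit false

namespace Pool.Agent.LogCh

open Real
open Pool.Agent.NSqP
open Pool.Agent.MP484c84Par (ballG mem_ballG crossG dotG)

open Classical in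
private theorem fc_mul_fc (a a' b b' : ℝ) (N : ℕ) (u v : GaussianInt) :
    fc a a' N u * fc b b' N v =
      if (a * N < nN u ∧ (nN u : ℝ) ≤ a' * N) ∧ (b * N < nN v ∧ (nN v : ℝ) ≤ b' * N)
      then lam u * lam v else 0 := by
  unfold fc
  by_cases h1 : a * N < nN u ∧ (nN u : ℝ) ≤ a' * N
  · by_cases h2 : b * N < nN v ∧ (nN v : ℝ) ≤ b' * N
    · rw [if_pos h1, if_pos h2, if_pos ⟨h1, h2⟩]
    · rw [if_pos h1, if_neg h2, if_neg (fun h => h2 h.2), mul_zero]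
  · rw [if_neg h1, zero_mul, if_neg (fun h => h1 h.1)]

private theorem cell_le {a' : ℝ} (ha1 : a' ≤ 1) {N n : ℕ} (h : (n : ℝ) ≤ a' * N) : n ≤ N := by
  have h0 : (0 : ℝ) ≤ (N : ℝ) := Nat.cast_nonneg N
  have h1 : a' * (N : ℝ) ≤ 1 * N := mul_le_mul_of_nonneg_right ha1 h0
  have h2 : (n : ℝ) ≤ (N : ℝ) := by linarith
  exact_mod_cast h2

open Classical in
theorem pairSum_one (a a' b b' : ℝ) (ha1 : a' ≤ 1) (hb1 : b' ≤ 1) {N X : ℕ} (hN : N ≤ X) :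
    pairSum 1 a a' b b' N = ∑ p ∈ dpairs 1 X,
      if (a * N < nN p.1 ∧ (nN p.1 : ℝ) ≤ a' * N) ∧ (b * N < nN p.2 ∧ (nN p.2 : ℝ) ≤ b' * N)
      then lam p.1 * lam p.2 else 0 := by
  unfold pairSum
  have hsub : dpairs 1 N ⊆ dpairs 1 X := by
    intro p hp
    rw [mem_dpairs] at hp ⊢
    obtain ⟨⟨h1, h2⟩, ⟨h3, h4⟩, h5, h6⟩ := hp
    exact ⟨⟨h1.trans hN, h2⟩, ⟨h3.trans hN, h4⟩, h5, h6⟩
  rw [Finset.sum_congr rfl (fun p _ => fc_mul_fc a a' b b' N p.1 p.2)]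
  refine Finset.sum_subset hsub (fun p hp hp' => ?_)
  rw [if_neg]
  rintro ⟨⟨_, h2⟩, ⟨_, h4⟩⟩
  apply hp'
  rw [mem_dpairs] at hp ⊢
  obtain ⟨⟨_, g2⟩, ⟨_, g4⟩, g5, g6⟩ := hp
  exact ⟨⟨cell_le ha1 h2, g2⟩, ⟨cell_le hb1 h4, g4⟩, g5, g6⟩

open Classical in
theorem pairSumPi_eq (a a' b b' : ℝ) (ha1 : a' ≤ 1) (hb1 : b' ≤ 1) {κ : GaussianInt}
    (hκ : (nN κ).Prime) (h4 : nN κ % 4 = 1) {N X : ℕ} (hN : N ≤ X) :
    pairSumPi κ a a' b b' N = ∑ p ∈ (dpairs 1 X).filter (fun p => ¬ star κ ∣ p.1 ∧ ¬ star κ ∣ p.2),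
      if (a * N < (nN κ : ℝ) * nN p.1 ∧ (nN κ : ℝ) * nN p.1 ≤ a' * N) ∧
        (b * N < (nN κ : ℝ) * nN p.2 ∧ (nN κ : ℝ) * nN p.2 ≤ b' * N)
      then lam p.1 * lam p.2 else 0 := by
  have hκ0 : κ ≠ 0 := by
    rintro rfl
    have h0 : nN (0 : GaussianInt) = 0 := by simp [nN]
    rw [h0] at hκ
    exact Nat.not_prime_zero hκ
  have hq1 : 1 ≤ nN κ := hκ.one_lt.le
  have hqpos : (0 : ℤ) < (nN κ : ℤ) := by exact_mod_cast hκ.pos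
  have hnorm : ∀ z : GaussianInt, ((nN (κ * z) : ℕ) : ℝ) = (nN κ : ℝ) * nN z := by
    intro z
    rw [nN_mul]
    push_cast
    ring
  unfold pairSumPi
  rw [Finset.sum_congr rfl (fun p _ => fc_mul_fc a a' b b' N p.1 p.2)]
  rw [← Finset.sum_filter, ← Finset.sum_filter]
  symm
  refine Finset.sum_bij (fun p _ => (κ * p.1, κ * p.2)) ?_ ?_ ?_ ?_
  · intro p hp
    rw [Finset.mem_filter, Finset.mem_filter, mem_dpairs] at hp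
    obtain ⟨⟨⟨⟨g1, g2⟩, ⟨g3, g4⟩, g5, g6⟩, g7, g8⟩, ⟨c1, c2⟩, ⟨c3, c4⟩⟩ := hp
    rw [Finset.mem_filter, Finset.mem_filter, mem_dpairs]
    simp only [hnorm]
    refine ⟨⟨⟨⟨?_, ?_⟩, ⟨?_, ?_⟩, ?_, ?_⟩, ?_⟩, ⟨c1, c2⟩, ⟨c3, c4⟩⟩
    · apply cell_le ha1
      rw [hnorm]
      exact c2
    · exact (prim_mul_iff hκ h4).2 ⟨g2, g7⟩
    · apply cell_le hb1
      rw [hnorm]
      exact c4
    · exact (prim_mul_iff hκ h4).2 ⟨g4, g8⟩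
    · rw [cross_mul, g5, mul_one]
    · rw [dot_mul]
      exact mul_pos hqpos g6
    · exact Dvd.intro _ rfl
  · rintro ⟨z1, w1⟩ _ ⟨z2, w2⟩ _ h
    simp only [Prod.mk.injEq] at h
    rw [mul_right_inj' hκ0, mul_right_inj' hκ0] at h
    exact Prod.ext h.1 h.2
  · rintro ⟨u, v⟩ hp
    rw [Finset.mem_filter, Finset.mem_filter, mem_dpairs] at hp
    obtain ⟨⟨⟨⟨g1, g2⟩, ⟨g3, g4⟩, g5, g6⟩, g7⟩, ⟨c1, c2⟩, ⟨c3, c4⟩⟩ := hp
    simp only at g1 g2 g3 g4 g5 g6 g7 c1 c2 c3 c4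
    have hv : κ ∣ v := dvd_second hκ h4 g2 g7 g5
    obtain ⟨z, rfl⟩ := g7
    obtain ⟨w, rfl⟩ := hv
    rw [cross_mul] at g5
    rw [dot_mul] at g6
    rw [hnorm] at c1 c2 c3 c4
    obtain ⟨pz, sz⟩ := (prim_mul_iff hκ h4).1 g2
    obtain ⟨pw, sw⟩ := (prim_mul_iff hκ h4).1 g4
    have hle : ∀ t : GaussianInt, nN (κ * t) ≤ N → nN t ≤ X := by
      intro t ht
      rw [nN_mul] at ht
      have : nN t ≤ nN κ * nN t := Nat.le_mul_of_pos_left _ hκ.pos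
      omega
    refine ⟨(z, w), ?_, rfl⟩
    rw [Finset.mem_filter, Finset.mem_filter, mem_dpairs]
    refine ⟨⟨⟨⟨hle z g1, pz⟩, ⟨hle w g3, pw⟩, ?_, ?_⟩, sz, sw⟩, ⟨c1, c2⟩, ⟨c3, c4⟩⟩
    · show crossG z w = 1
      have : (nN κ : ℤ) * crossG z w = (nN κ : ℤ) * 1 := by rw [g5, mul_one]
      exact mul_left_cancel₀ (ne_of_gt hqpos) this
    · show 0 < dotG z w
      exact (mul_pos_iff_of_pos_left hqpos).1 g6
  · rintro ⟨z, w⟩ hp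
    rw [Finset.mem_filter, Finset.mem_filter, mem_dpairs] at hp
    obtain ⟨⟨⟨⟨g1, g2⟩, ⟨g3, g4⟩, g5, g6⟩, g7, g8⟩, _⟩ := hp
    show lam z * lam w = lam (κ * z) * lam (κ * w)
    rw [lamA_mul hκ0 (prim_ne_zero g2), lamA_mul hκ0 (prim_ne_zero g4), lam_prime hκ]
    ring

end Pool.Agent.LogCh
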