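import Pool.Agent.Lib.LogCh.ADiv
import Pool.Agent.Lib.LogCh.AZx

/-!
# Group A, module AMax: sums over determinant one pairs weighted by the larger norm

`mx p = max (nN p.1) (nN p.2) ≥ 1`. The number of `p ∈ dpairs 1 X` with `mx p ≤ m` is
`card (dpairs 1 (min m X)) ≤ C m` (`card_dpairs`). Partial summation:
`1/M^2 = 1/(X+1)^2 + Σ_{m=M}^{X} (1/m^2 - 1/(m+1)^2)` and `1/m^2 - 1/(m+1)^2 ≤ 2/m^3`, exchanging
the sums: `Σ_p 1/M^2 ≤ C X/(X+1)^2 + Σ_m 2 C m/m^3 ≤ C'`.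
`1/M = 1/(X+1) + Σ_{m=M}^X (1/m - 1/(m+1))`, `1/m - 1/(m+1) ≤ 1/m^2`:
`Σ_{p, M > Y} 1/M ≤ C + Σ_{m ≤ X, m > Y} C/m`, and `Σ_{Y < m ≤ X} 1/m ≤ log (X/Y) + 1` if `Y ≥ 1`
(compare with the integral, or `harm` bounds), `≤ 1 + log X` always.
-/

set_option autoImplicit false

namespace Pool.Agent.LogCh

open Real
open Pool.Agent.NSqP
open Pool.Agent.MP484c84Par (ballG mem_ballG crossG dotG)

/-- the larger norm -/
def mx (p : GaussianInt × GaussianInt) : ℕ := max (nN p.1) (nN p.2)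

private lemma amax_tele (g : ℕ → ℝ) {M X : ℕ} (h1 : 1 ≤ M) (h2 : M ≤ X) :
    g M = g (X + 1) + ∑ m ∈ Finset.Icc 1 X, (if M ≤ m then g m - g (m + 1) else 0) := by
  have h3 : (Finset.Icc 1 X).filter (fun m => M ≤ m) = Finset.Ico M (X + 1) := by
    ext m
    rw [Finset.mem_filter, Finset.mem_Icc, Finset.mem_Ico]
    omega
  rw [← Finset.sum_filter, h3]
  have h4 : ∑ m ∈ Finset.Ico M (X + 1), (g m - g (m + 1)) = g M - g (X + 1) := by
    have h5 := Finset.sum_Ico_sub (fun m => - g m) (show M ≤ X + 1 by omega)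
    have h6 : ∑ m ∈ Finset.Ico M (X + 1), (g m - g (m + 1)) =
        ∑ m ∈ Finset.Ico M (X + 1), (- g (m + 1) - - g m) := by
      refine Finset.sum_congr rfl fun m _ => ?_
      ring
    rw [h6, h5]
    ring
  rw [h4]
  ring

private lemma amax_abel {ι : Type} (S : Finset ι) (M : ι → ℕ) (X : ℕ)
    (hM : ∀ p ∈ S, 1 ≤ M p ∧ M p ≤ X) (g c : ℕ → ℝ) (hg : ∀ m, 1 ≤ m → g (m + 1) ≤ g m)
    (hg0 : 0 ≤ g (X + 1))
    (hc : ∀ m ≤ X, ((S.filter (fun p => M p ≤ m)).card : ℝ) ≤ c m) :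
    ∑ p ∈ S, g (M p) ≤ c X * g (X + 1) + ∑ m ∈ Finset.Icc 1 X, c m * (g m - g (m + 1)) := by
  have h1 : ∑ p ∈ S, g (M p) = ∑ p ∈ S, (g (X + 1) +
      ∑ m ∈ Finset.Icc 1 X, (if M p ≤ m then g m - g (m + 1) else 0)) :=
    Finset.sum_congr rfl fun p hp => amax_tele g (hM p hp).1 (hM p hp).2
  rw [h1, Finset.sum_add_distrib, Finset.sum_const, nsmul_eq_mul, Finset.sum_comm]
  refine add_le_add ?_ ?_
  · refine mul_le_mul_of_nonneg_right ?_ hg0
    have h2 : S.filter (fun p => M p ≤ X) = S :=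
      Finset.filter_true_of_mem fun p hp => (hM p hp).2
    have h3 := hc X le_rfl
    rwa [h2] at h3
  · refine Finset.sum_le_sum fun m hm => ?_
    rw [Finset.mem_Icc] at hm
    rw [← Finset.sum_filter, Finset.sum_const, nsmul_eq_mul]
    exact mul_le_mul_of_nonneg_right (hc m hm.2) (sub_nonneg.2 (hg m hm.1))

private lemma amax_mem {X : ℕ} {p : GaussianInt × GaussianInt} (hp : p ∈ dpairs 1 X) :
    1 ≤ mx p ∧ mx p ≤ X := by
  rw [mem_dpairs] at hp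
  obtain ⟨⟨h1, h2⟩, ⟨h3, _⟩, _, _⟩ := hp
  have h4 : 0 < nN p.1 := nN_pos (prim_ne_zero h2)
  unfold mx
  exact ⟨le_trans h4 (le_max_left _ _), max_le h1 h3⟩

private lemma amax_count {C : ℝ} (hC : ∀ (m : ℤ) (N : ℕ), ((dpairs m N).card : ℝ) ≤ C * N)
    (X m : ℕ) : (((dpairs 1 X).filter (fun p => mx p ≤ m)).card : ℝ) ≤ C * m := by
  refine le_trans (Nat.cast_le.2 (Finset.card_le_card ?_)) (hC 1 m)
  intro p hp
  rw [Finset.mem_filter] at hp
  obtain ⟨hp, hm⟩ := hp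
  unfold mx at hm
  rw [mem_dpairs] at hp ⊢
  obtain ⟨⟨_, h2⟩, ⟨_, h3⟩, h4, h5⟩ := hp
  exact ⟨⟨(le_max_left _ _).trans hm, h2⟩, ⟨(le_max_right _ _).trans hm, h3⟩, h4, h5⟩

theorem sum_mx_sq : ∃ C : ℝ, 0 < C ∧ ∀ X : ℕ, ∑ p ∈ dpairs 1 X, 1 / (mx p : ℝ) ^ 2 ≤ C := by
  obtain ⟨C, hC, hcard⟩ := card_dpairs
  refine ⟨3 * C, by positivity, fun X => ?_⟩
  have h1 := amax_abel (dpairs 1 X) mx X (fun p hp => amax_mem hp)
    (fun m => 1 / (m : ℝ) ^ 2) (fun m => C * m)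
    (fun m hm => by
      have hm0 : (0 : ℝ) < m := by exact_mod_cast hm
      apply one_div_le_one_div_of_le (by positivity)
      push_cast
      exact pow_le_pow_left₀ hm0.le (by linarith) 2)
    (by positivity) (fun m _ => amax_count hcard X m)
  refine h1.trans ?_
  have h2 : C * (X : ℝ) * (1 / ((X + 1 : ℕ) : ℝ) ^ 2) ≤ C := by
    have h3 : (X : ℝ) * (1 / ((X + 1 : ℕ) : ℝ) ^ 2) ≤ 1 := by
      rw [mul_one_div, div_le_one (by positivity)]
      push_cast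
      nlinarith [(Nat.cast_nonneg X : (0 : ℝ) ≤ X)]
    calc C * (X : ℝ) * (1 / ((X + 1 : ℕ) : ℝ) ^ 2) =
        C * ((X : ℝ) * (1 / ((X + 1 : ℕ) : ℝ) ^ 2)) := by ring
      _ ≤ C * 1 := mul_le_mul_of_nonneg_left h3 hC.le
      _ = C := mul_one C
  have h4 : ∀ m ∈ Finset.Icc 1 X, C * (m : ℝ) * (1 / (m : ℝ) ^ 2 - 1 / ((m + 1 : ℕ) : ℝ) ^ 2) ≤
      2 * C * (1 / (m : ℝ) - 1 / ((m + 1 : ℕ) : ℝ)) := by
    intro m hm
    have hm0 : (0 : ℝ) < m := by exact_mod_cast (Finset.mem_Icc.1 hm).1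
    push_cast
    have h5 : (m : ℝ) * (1 / (m : ℝ) ^ 2 - 1 / ((m : ℝ) + 1) ^ 2) ≤
        2 * (1 / (m : ℝ) - 1 / ((m : ℝ) + 1)) := by
      have h6 : (m : ℝ) * (1 / (m : ℝ) ^ 2 - 1 / ((m : ℝ) + 1) ^ 2) =
          (2 * m + 1) / (m * (m + 1) ^ 2) := by
        field_simp
        ring
      have h7 : 2 * (1 / (m : ℝ) - 1 / ((m : ℝ) + 1)) = (2 * (m + 1)) / (m * (m + 1) ^ 2) := by
        field_simp
        ring
      rw [h6, h7]
      apply div_le_div_of_nonneg_right _ (by positivity)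
      linarith
    calc C * (m : ℝ) * (1 / (m : ℝ) ^ 2 - 1 / ((m : ℝ) + 1) ^ 2) =
        C * ((m : ℝ) * (1 / (m : ℝ) ^ 2 - 1 / ((m : ℝ) + 1) ^ 2)) := by ring
      _ ≤ C * (2 * (1 / (m : ℝ) - 1 / ((m : ℝ) + 1))) := mul_le_mul_of_nonneg_left h5 hC.le
      _ = 2 * C * (1 / (m : ℝ) - 1 / ((m : ℝ) + 1)) := by ring
  have h5 := Finset.sum_le_sum h4
  rw [← Finset.mul_sum] at h5
  have h6 : ∑ m ∈ Finset.Icc 1 X, (1 / (m : ℝ) - 1 / ((m + 1 : ℕ) : ℝ)) ≤ 1 := by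
    have h7 := amax_tele (fun m => 1 / (m : ℝ)) (M := 1) (X := X) le_rfl
    rcases Nat.eq_zero_or_pos X with h0 | h0
    · subst h0
      simp
    · have h8 := h7 h0
      have h9 : ∑ m ∈ Finset.Icc 1 X, (if 1 ≤ m then 1 / (m : ℝ) - 1 / ((m + 1 : ℕ) : ℝ) else 0) =
          ∑ m ∈ Finset.Icc 1 X, (1 / (m : ℝ) - 1 / ((m + 1 : ℕ) : ℝ)) :=
        Finset.sum_congr rfl fun m hm => if_pos (Finset.mem_Icc.1 hm).1
      rw [h9] at h8
      have h10 : (0 : ℝ) ≤ 1 / ((X + 1 : ℕ) : ℝ) := by positivity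
      have h11 : (1 : ℝ) / ((1 : ℕ) : ℝ) = 1 := by norm_num
      rw [h11] at h8
      linarith
  have h7 := mul_le_mul_of_nonneg_left h6 (by positivity : 0 ≤ 2 * C)
  linarith

open Classical in
theorem sum_mx_tail : ∃ C : ℝ, 0 < C ∧ ∀ (X : ℕ) (T : ℝ), 1 ≤ X → 1 ≤ T →
    ∑ p ∈ (dpairs 1 X).filter (fun p => (X : ℝ) / T < (mx p : ℝ)), 1 / (mx p : ℝ) ≤
      C * (1 + log T) := by
  obtain ⟨C, hC, hcard⟩ := card_dpairs
  refine ⟨2 * C, by positivity, fun X T hX hT => ?_⟩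
  have hX0 : (0 : ℝ) < X := by exact_mod_cast hX
  have hT0 : 0 < T := by linarith
  have hlT : 0 ≤ log T := Real.log_nonneg hT
  have h1 := amax_abel ((dpairs 1 X).filter (fun p => (X : ℝ) / T < (mx p : ℝ))) mx X
    (fun p hp => amax_mem (Finset.mem_filter.1 hp).1)
    (fun m => 1 / (m : ℝ)) (fun m => if (X : ℝ) / T < (m : ℝ) then C * m else 0)
    (fun m hm => by
      have hm0 : (0 : ℝ) < m := by exact_mod_cast hm
      apply one_div_le_one_div_of_le hm0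
      push_cast
      linarith)
    (by positivity) (fun m _ => by
      by_cases h : (X : ℝ) / T < (m : ℝ)
      · rw [if_pos h]
        refine le_trans (Nat.cast_le.2 (Finset.card_le_card ?_)) (amax_count hcard X m)
        intro p hp
        rw [Finset.mem_filter, Finset.mem_filter] at hp
        rw [Finset.mem_filter]
        exact ⟨hp.1.1, hp.2⟩
      · rw [if_neg h, Finset.filter_false_of_mem]
        · simp
        · intro p hp h2
          rw [Finset.mem_filter] at hp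
          have h3 : (mx p : ℝ) ≤ m := by exact_mod_cast h2
          exact h (lt_of_lt_of_le hp.2 h3))
  refine h1.trans ?_
  have h2 : (if (X : ℝ) / T < (X : ℝ) then C * (X : ℝ) else 0) * (1 / ((X + 1 : ℕ) : ℝ)) ≤ C := by
    have h3 : (if (X : ℝ) / T < (X : ℝ) then C * (X : ℝ) else 0) ≤ C * X := by
      split_ifs
      · exact le_rfl
      · positivity
    calc (if (X : ℝ) / T < (X : ℝ) then C * (X : ℝ) else 0) * (1 / ((X + 1 : ℕ) : ℝ)) ≤
        C * X * (1 / ((X + 1 : ℕ) : ℝ)) := mul_le_mul_of_nonneg_right h3 (by positivity)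
      _ ≤ C := by
        rw [mul_one_div, div_le_iff₀ (by positivity)]
        push_cast
        nlinarith
  -- the main sum
  have h4 : ∀ m ∈ Finset.Icc 1 X, (if (X : ℝ) / T < (m : ℝ) then C * (m : ℝ) else 0) *
      (1 / (m : ℝ) - 1 / ((m + 1 : ℕ) : ℝ)) ≤
      C * (if ⌊(X : ℝ) / T⌋₊ + 1 ≤ m then (fun k : ℕ => - log (k : ℝ)) m -
        (fun k : ℕ => - log (k : ℝ)) (m + 1) else 0) := by
    intro m hm
    have hm0 : (0 : ℝ) < m := by exact_mod_cast (Finset.mem_Icc.1 hm).1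
    by_cases h : (X : ℝ) / T < (m : ℝ)
    · have h5 : ⌊(X : ℝ) / T⌋₊ + 1 ≤ m := by
        have := (Nat.floor_lt (by positivity)).2 h
        omega
      rw [if_pos h, if_pos h5]
      push_cast
      have h6 : C * (m : ℝ) * (1 / (m : ℝ) - 1 / ((m : ℝ) + 1)) = C * (1 / ((m : ℝ) + 1)) := by
        field_simp
        ring
      rw [h6]
      apply mul_le_mul_of_nonneg_left _ hC.le
      have h7 : log ((m : ℝ) / (m + 1)) ≤ (m : ℝ) / (m + 1) - 1 :=
        Real.log_le_sub_one_of_pos (by positivity)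
      rw [Real.log_div hm0.ne' (by positivity)] at h7
      have h8 : (m : ℝ) / (m + 1) - 1 = - (1 / ((m : ℝ) + 1)) := by
        field_simp
        ring
      rw [h8] at h7
      linarith
    · have h5 : ¬ ⌊(X : ℝ) / T⌋₊ + 1 ≤ m := by
        intro h6
        exact h ((Nat.floor_lt (by positivity)).1 (by omega))
      rw [if_neg h, if_neg h5, zero_mul, mul_zero]
  have h5 := Finset.sum_le_sum h4
  rw [← Finset.mul_sum] at h5
  have h6 : ∑ m ∈ Finset.Icc 1 X, (if ⌊(X : ℝ) / T⌋₊ + 1 ≤ m then (fun k : ℕ => - log (k : ℝ)) m -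
        (fun k : ℕ => - log (k : ℝ)) (m + 1) else 0) ≤ 1 + log T := by
    rcases Nat.lt_or_ge X (⌊(X : ℝ) / T⌋₊ + 1) with h7 | h7
    · rw [Finset.sum_eq_zero]
      · linarith
      · intro m hm
        rw [Finset.mem_Icc] at hm
        exact if_neg (by omega)
    · have h8 := amax_tele (fun k : ℕ => - log (k : ℝ)) (M := ⌊(X : ℝ) / T⌋₊ + 1) (X := X)
        (by omega) h7
      have h9 : ∑ m ∈ Finset.Icc 1 X, (if ⌊(X : ℝ) / T⌋₊ + 1 ≤ m then
          (fun k : ℕ => - log (k : ℝ)) m - (fun k : ℕ => - log (k : ℝ)) (m + 1) else 0) =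
          log ((X + 1 : ℕ) : ℝ) - log ((⌊(X : ℝ) / T⌋₊ + 1 : ℕ) : ℝ) := by
        have h10 : - log ((⌊(X : ℝ) / T⌋₊ + 1 : ℕ) : ℝ) = - log ((X + 1 : ℕ) : ℝ) +
          ∑ m ∈ Finset.Icc 1 X, (if ⌊(X : ℝ) / T⌋₊ + 1 ≤ m then
          (fun k : ℕ => - log (k : ℝ)) m - (fun k : ℕ => - log (k : ℝ)) (m + 1) else 0) := h8
        linarith
      rw [h9]
      have h10 : (X : ℝ) / T < ((⌊(X : ℝ) / T⌋₊ + 1 : ℕ) : ℝ) := by
        push_cast
        exact Nat.lt_floor_add_one _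
      have h11 : log ((X : ℝ) / T) ≤ log ((⌊(X : ℝ) / T⌋₊ + 1 : ℕ) : ℝ) :=
        Real.log_le_log (by positivity) h10.le
      rw [Real.log_div hX0.ne' hT0.ne'] at h11
      have h12 : log ((X + 1 : ℕ) : ℝ) ≤ log 2 + log X := by
        rw [← Real.log_mul two_ne_zero hX0.ne']
        apply Real.log_le_log (by positivity)
        push_cast
        have : (1 : ℝ) ≤ X := by exact_mod_cast hX
        linarith
      have h13 : log 2 ≤ 1 := by
        have := Real.log_two_lt_d9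
        linarith
      linarith
  have h7 := mul_le_mul_of_nonneg_left h6 hC.le
  have h8 : 0 ≤ C * log T := mul_nonneg hC.le hlT
  linarith

end Pool.Agent.LogCh
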