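import Pool.Agent.Lib.LogCh.AMReal
import Pool.Agent.Lib.LogCh.AMBij
import Pool.Agent.Lib.LogCh.AMax

/-!
# Group A, module AMult: the multiplicativity step

`q = nN κ`, `δ = min a b`. Insert `pairSum_one`, `pairSumPi_eq` (all `N ≤ X`) and exchange the sums:
`Σ_N pairSum 1 N / N^2 = Σ_{p ∈ dpairs 1 X} lam lam iOne(nN p.1, nN p.2, X)`,
`Σ_N q pairSumPi N / N^2 = Σ_{p, not lost} lam lam iTwo(q, nN p.1, nN p.2, X)`, where `p` is lost
if `star κ ∣ p.1 ∨ star κ ∣ p.2`. The difference is at most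
`Σ_{p lost} iOne(p) + Σ_{p} |iOne - iTwo|`. First sum: exchange back, it is
`≤ Σ_{N ≤ X} (1/N^2) #{p ∈ dpairs 1 N lost} ≤ Σ_N 2 C N/(q N^2) ≤ 2 C (1 + log X)/q`
(`dpairs_div` with `star κ`, `nN (star κ) = q`; if `p` contributes to `iOne` at `N` then
`p ∈ dpairs 1 N`). Second sum: pairs with `q mx p / δ ≤ X`: `main_cmp` and `sum_mx_sq`: `≤ 2 C`; the other
pairs have `mx p > X δ / q = X / T`, `T = q / δ ≥ 1`: `triv_one`, `triv_two` and `sum_mx_tail`:
`≤ (1/δ) C (1 + log (q/δ))`.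
-/

set_option autoImplicit false

namespace Pool.Agent.LogCh

open Real
open Pool.Agent.NSqP
open Pool.Agent.MP484c84Par (ballG mem_ballG crossG dotG)

private lemma amult_one {a a' b b' : ℝ} (ha1 : a' ≤ 1) (hb1 : b' ≤ 1) (X : ℕ) :
    ∑ N ∈ Finset.Icc 1 X, pairSum 1 a a' b b' N / (N : ℝ) ^ 2 =
      ∑ p ∈ dpairs 1 X, lam p.1 * lam p.2 * iOne a a' b b' (nN p.1) (nN p.2) X := by
  classical
  have h1 : ∀ N ∈ Finset.Icc 1 X, pairSum 1 a a' b b' N / (N : ℝ) ^ 2 =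
      ∑ p ∈ dpairs 1 X, lam p.1 * lam p.2 *
        (if (a * N < nN p.1 ∧ (nN p.1 : ℝ) ≤ a' * N) ∧ (b * N < nN p.2 ∧ (nN p.2 : ℝ) ≤ b' * N)
        then 1 / (N : ℝ) ^ 2 else 0) := by
    intro N hN
    rw [pairSum_one a a' b b' ha1 hb1 (Finset.mem_Icc.1 hN).2, Finset.sum_div]
    refine Finset.sum_congr rfl fun p _ => ?_
    by_cases h : (a * N < nN p.1 ∧ (nN p.1 : ℝ) ≤ a' * N) ∧
        (b * N < nN p.2 ∧ (nN p.2 : ℝ) ≤ b' * N)
    · rw [if_pos h, if_pos h]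
      ring
    · rw [if_neg h, if_neg h]
      ring
  rw [Finset.sum_congr rfl h1, Finset.sum_comm]
  refine Finset.sum_congr rfl fun p _ => ?_
  unfold iOne
  rw [← Finset.mul_sum]

private lemma amult_two {a a' b b' : ℝ} (ha1 : a' ≤ 1) (hb1 : b' ≤ 1) {κ : GaussianInt}
    (hκ : (nN κ).Prime) (h4 : nN κ % 4 = 1) (X : ℕ)
    (D : Finset (GaussianInt × GaussianInt))
    (hD : ∀ p, p ∈ D ↔ p ∈ dpairs 1 X ∧ (¬ star κ ∣ p.1 ∧ ¬ star κ ∣ p.2)) :
    ∑ N ∈ Finset.Icc 1 X, (nN κ : ℝ) * pairSumPi κ a a' b b' N / (N : ℝ) ^ 2 =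
      ∑ p ∈ D, lam p.1 * lam p.2 * iTwo a a' b b' (nN κ) (nN p.1) (nN p.2) X := by
  classical
  have hD' : D = (dpairs 1 X).filter (fun p => ¬ star κ ∣ p.1 ∧ ¬ star κ ∣ p.2) := by
    ext p
    rw [hD, Finset.mem_filter]
  have h1 : ∀ N ∈ Finset.Icc 1 X, (nN κ : ℝ) * pairSumPi κ a a' b b' N / (N : ℝ) ^ 2 =
      ∑ p ∈ D, lam p.1 * lam p.2 *
        (if (a * N < (nN κ : ℝ) * nN p.1 ∧ (nN κ : ℝ) * nN p.1 ≤ a' * N) ∧
          (b * N < (nN κ : ℝ) * nN p.2 ∧ (nN κ : ℝ) * nN p.2 ≤ b' * N)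
        then (nN κ : ℝ) / (N : ℝ) ^ 2 else 0) := by
    intro N hN
    rw [pairSumPi_eq a a' b b' ha1 hb1 hκ h4 (Finset.mem_Icc.1 hN).2, Finset.mul_sum,
      Finset.sum_div, hD']
    refine Finset.sum_congr ?_ fun p _ => ?_
    · ext p
      simp only [Finset.mem_filter]
    by_cases h : (a * N < (nN κ : ℝ) * nN p.1 ∧ (nN κ : ℝ) * nN p.1 ≤ a' * N) ∧
          (b * N < (nN κ : ℝ) * nN p.2 ∧ (nN κ : ℝ) * nN p.2 ≤ b' * N)
    · rw [if_pos h, if_pos h]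
      ring
    · rw [if_neg h, if_neg h]
      ring
  rw [Finset.sum_congr rfl h1, Finset.sum_comm]
  refine Finset.sum_congr rfl fun p _ => ?_
  unfold iTwo
  rw [← Finset.mul_sum]

private lemma amult_lost {C0 : ℝ} {a a' b b' : ℝ} (ha1 : a' ≤ 1) (hb1 : b' ≤ 1)
    {τ : GaussianInt} (hτ : 0 < nN τ) (X : ℕ) (hX : 1 ≤ X) (hC0 : 0 < C0)
    (E1 E2 : ℕ → Finset (GaussianInt × GaussianInt))
    (hE1 : ∀ N p, p ∈ E1 N ↔ p ∈ dpairs 1 N ∧ τ ∣ p.1)
    (hE2 : ∀ N p, p ∈ E2 N ↔ p ∈ dpairs 1 N ∧ τ ∣ p.2)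
    (h1 : ∀ N, ((E1 N).card : ℝ) ≤ C0 * N / nN τ) (h2 : ∀ N, ((E2 N).card : ℝ) ≤ C0 * N / nN τ)
    (D : Finset (GaussianInt × GaussianInt))
    (hD : ∀ p ∈ D, p ∈ dpairs 1 X ∧ (τ ∣ p.1 ∨ τ ∣ p.2)) :
    ∑ p ∈ D, iOne a a' b b' (nN p.1) (nN p.2) X ≤ 2 * C0 * ((1 + log X) / nN τ) := by
  classical
  have hτ0 : (0 : ℝ) < nN τ := by exact_mod_cast hτ
  unfold iOne
  rw [Finset.sum_comm]
  have h3 : ∀ N ∈ Finset.Icc 1 X, ∑ p ∈ D,
      (if (a * N < ((nN p.1 : ℕ) : ℝ) ∧ ((nN p.1 : ℕ) : ℝ) ≤ a' * N) ∧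
        (b * N < ((nN p.2 : ℕ) : ℝ) ∧ ((nN p.2 : ℕ) : ℝ) ≤ b' * N)
      then 1 / (N : ℝ) ^ 2 else 0) ≤ (2 * C0 / nN τ) * (1 / (N : ℝ)) := by
    intro N hN
    have hN0 : (0 : ℝ) < N := by exact_mod_cast (Finset.mem_Icc.1 hN).1
    rw [← Finset.sum_filter, Finset.sum_const, nsmul_eq_mul]
    have h4 : ((D.filter (fun p => (a * N < ((nN p.1 : ℕ) : ℝ) ∧
        ((nN p.1 : ℕ) : ℝ) ≤ a' * N) ∧ (b * N < ((nN p.2 : ℕ) : ℝ) ∧
        ((nN p.2 : ℕ) : ℝ) ≤ b' * N))).card : ℝ) ≤ 2 * C0 * N / nN τ := by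
      have h5 : D.filter (fun p => (a * N < ((nN p.1 : ℕ) : ℝ) ∧
          ((nN p.1 : ℕ) : ℝ) ≤ a' * N) ∧ (b * N < ((nN p.2 : ℕ) : ℝ) ∧
          ((nN p.2 : ℕ) : ℝ) ≤ b' * N)) ⊆ E1 N ∪ E2 N := by
        intro p hp
        rw [Finset.mem_filter] at hp
        obtain ⟨hp1, ⟨_, hp2⟩, ⟨_, hp3⟩⟩ := hp
        obtain ⟨hp4, hp5⟩ := hD p hp1
        have hp6 : nN p.1 ≤ N := by
          have : ((nN p.1 : ℕ) : ℝ) ≤ N := hp2.trans (by nlinarith)
          exact_mod_cast this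
        have hp7 : nN p.2 ≤ N := by
          have : ((nN p.2 : ℕ) : ℝ) ≤ N := hp3.trans (by nlinarith)
          exact_mod_cast this
        have hp8 : p ∈ dpairs 1 N := by
          rw [mem_dpairs] at hp4 ⊢
          obtain ⟨⟨_, g2⟩, ⟨_, g3⟩, g4, g5⟩ := hp4
          exact ⟨⟨hp6, g2⟩, ⟨hp7, g3⟩, g4, g5⟩
        rw [Finset.mem_union, hE1, hE2]
        rcases hp5 with h | h
        · exact Or.inl ⟨hp8, h⟩
        · exact Or.inr ⟨hp8, h⟩
      have h6 := (Finset.card_le_card h5).trans (Finset.card_union_le _ _)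
      have h7 : ((D.filter (fun p => (a * N < ((nN p.1 : ℕ) : ℝ) ∧
        ((nN p.1 : ℕ) : ℝ) ≤ a' * N) ∧ (b * N < ((nN p.2 : ℕ) : ℝ) ∧
        ((nN p.2 : ℕ) : ℝ) ≤ b' * N))).card : ℝ) ≤ (E1 N).card + (E2 N).card := by
        exact_mod_cast h6
      have h8 := h1 N
      have h9 := h2 N
      have h10 : 2 * C0 * N / nN τ = C0 * N / nN τ + C0 * N / nN τ := by ring
      rw [h10]
      linarith
    calc _ ≤ 2 * C0 * N / nN τ * (1 / (N : ℝ) ^ 2) :=
          mul_le_mul_of_nonneg_right h4 (by positivity)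
      _ = (2 * C0 / nN τ) * (1 / (N : ℝ)) := by
        field_simp
  refine (Finset.sum_le_sum h3).trans ?_
  rw [← Finset.mul_sum]
  calc (2 * C0 / nN τ) * ∑ N ∈ Finset.Icc 1 X, 1 / (N : ℝ) ≤
      (2 * C0 / nN τ) * (1 + log X) := mul_le_mul_of_nonneg_left (harm_upper X hX) (by positivity)
    _ = 2 * C0 * ((1 + log X) / nN τ) := by ring

private lemma amult_term {a a' b b' : ℝ} (ha : 0 < a) (haa : a < a') (ha1 : a' ≤ 1) (hb : 0 < b)
    (hbb : b < b') (hb1 : b' ≤ 1) {q X : ℕ} (hq : 1 ≤ q) {p : GaussianInt × GaussianInt}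
    (hp : p ∈ dpairs 1 X) :
    |iOne a a' b b' (nN p.1) (nN p.2) X - iTwo a a' b b' q (nN p.1) (nN p.2) X| ≤
      2 * (1 / (mx p : ℝ) ^ 2) + (open Classical in
        if (X : ℝ) / (q / min a b) < (mx p : ℝ) then 1 / min a b * (1 / (mx p : ℝ)) else 0) := by
  have hδ : 0 < min a b := lt_min ha hb
  have hq0 : (0 : ℝ) < q := by exact_mod_cast hq
  rw [mem_dpairs] at hp
  obtain ⟨⟨_, h1⟩, ⟨_, h2⟩, _, _⟩ := hp
  have hx : 1 ≤ nN p.1 := nN_pos (prim_ne_zero h1)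
  have hy : 1 ≤ nN p.2 := nN_pos (prim_ne_zero h2)
  have hm : 1 ≤ mx p := le_trans hx (le_max_left _ _)
  have hm0 : (0 : ℝ) < mx p := by exact_mod_cast hm
  by_cases h : (X : ℝ) / (q / min a b) < (mx p : ℝ)
  · rw [if_pos h]
    obtain ⟨t1, t2⟩ := triv_one a a' b b' ha haa ha1 hb hbb hb1 _ _ X hx hy
    obtain ⟨t3, t4⟩ := triv_two a a' b b' ha haa ha1 hb hbb hb1 q _ _ X hq hx hy
    have e : 1 / min a b * (1 / (mx p : ℝ)) =
        1 / (min a b * ((max (nN p.1) (nN p.2) : ℕ) : ℝ)) := by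
      unfold mx
      rw [one_div_mul_one_div]
    have h3 : 0 ≤ 2 * (1 / (mx p : ℝ) ^ 2) := by positivity
    rw [e, abs_le]
    constructor <;> linarith
  · rw [if_neg h, add_zero]
    have h3 : (q : ℝ) * ((max (nN p.1) (nN p.2) : ℕ) : ℝ) / min a b ≤ X := by
      rw [not_lt] at h
      have h4 : (0 : ℝ) < q / min a b := by positivity
      rw [le_div_iff₀ h4] at h
      unfold mx at h
      calc (q : ℝ) * ((max (nN p.1) (nN p.2) : ℕ) : ℝ) / min a b =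
          ((max (nN p.1) (nN p.2) : ℕ) : ℝ) * (q / min a b) := by ring
        _ ≤ X := h
    have h4 := main_cmp a a' b b' ha haa ha1 hb hbb hb1 q _ _ X hq hx hy h3
    refine h4.trans (le_of_eq ?_)
    unfold mx
    ring

theorem MULT (a a' b b' : ℝ) (ha : 0 < a) (haa : a < a') (ha1 : a' ≤ 1) (hb : 0 < b)
    (hbb : b < b') (hb1 : b' ≤ 1) : ∃ C : ℝ, 0 < C ∧ ∀ κ : GaussianInt, (nN κ).Prime →
    nN κ % 4 = 1 → ∀ X : ℕ, 1 ≤ X →
    |∑ N ∈ Finset.Icc 1 X, pairSum 1 a a' b b' N / (N : ℝ) ^ 2 -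
      ∑ N ∈ Finset.Icc 1 X, (nN κ : ℝ) * pairSumPi κ a a' b b' N / (N : ℝ) ^ 2| ≤
      C * ((1 + log X) / nN κ + 1 + log (nN κ)) := by
  classical
  obtain ⟨C0, hC0, hdiv⟩ := dpairs_div
  obtain ⟨C1, hC1, hsq⟩ := sum_mx_sq
  obtain ⟨C2, hC2, htail⟩ := sum_mx_tail
  have hδ : 0 < min a b := lt_min ha hb
  have hδ1 : min a b ≤ 1 := (min_le_left _ _).trans (haa.le.trans ha1)
  have hL : 0 ≤ log (1 / min a b) := by
    apply Real.log_nonneg
    rw [le_div_iff₀ hδ]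
    linarith
  refine ⟨2 * C0 + 2 * C1 + C2 / min a b * (1 + log (1 / min a b)), by positivity, ?_⟩
  intro κ hκ h4 X hX
  have hq1 : 1 ≤ nN κ := hκ.one_le
  have hq0 : (0 : ℝ) < nN κ := by exact_mod_cast hq1
  have hq1' : (1 : ℝ) ≤ nN κ := by exact_mod_cast hq1
  have hlq : 0 ≤ log (nN κ : ℝ) := Real.log_nonneg hq1'
  have hlX : 0 ≤ log (X : ℝ) := Real.log_natCast_nonneg X
  have hsκ : nN (star κ) = nN κ := nN_star κ
  set D := (dpairs 1 X).filter (fun p => ¬ star κ ∣ p.1 ∧ ¬ star κ ∣ p.2) with hDdef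
  set D' := (dpairs 1 X).filter (fun p => ¬ (¬ star κ ∣ p.1 ∧ ¬ star κ ∣ p.2)) with hD'def
  rw [amult_one ha1 hb1 X, amult_two ha1 hb1 hκ h4 X D (fun p => by
    rw [hDdef, Finset.mem_filter])]
  rw [← Finset.sum_filter_add_sum_filter_not (dpairs 1 X)
    (fun p => ¬ star κ ∣ p.1 ∧ ¬ star κ ∣ p.2)]
  rw [← hDdef, ← hD'def]
  have e1 : ∀ u v w : ℝ, u + v - w = (u - w) + v := fun u v w => by ring
  rw [e1, ← Finset.sum_sub_distrib]
  have habs : ∀ p : GaussianInt × GaussianInt, |lam p.1 * lam p.2| ≤ 1 := by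
    intro p
    rw [abs_mul]
    exact mul_le_one₀ (absA_lam_le _) (abs_nonneg _) (absA_lam_le _)
  -- the two sums
  have hA : |∑ p ∈ D, (lam p.1 * lam p.2 * iOne a a' b b' (nN p.1) (nN p.2) X -
      lam p.1 * lam p.2 * iTwo a a' b b' (nN κ) (nN p.1) (nN p.2) X)| ≤
      2 * C1 + 1 / min a b * (C2 * (1 + log (nN κ / min a b))) := by
    refine (Finset.abs_sum_le_sum_abs _ _).trans ?_
    have h5 : ∀ p ∈ D, |lam p.1 * lam p.2 * iOne a a' b b' (nN p.1) (nN p.2) X -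
        lam p.1 * lam p.2 * iTwo a a' b b' (nN κ) (nN p.1) (nN p.2) X| ≤
        2 * (1 / (mx p : ℝ) ^ 2) + (if (X : ℝ) / (nN κ / min a b) < (mx p : ℝ)
          then 1 / min a b * (1 / (mx p : ℝ)) else 0) := by
      intro p hp
      rw [← mul_sub, abs_mul]
      have h6 := amult_term ha haa ha1 hb hbb hb1 hq1 (Finset.mem_filter.1 hp).1
      have h7 : |lam p.1 * lam p.2| * |iOne a a' b b' (nN p.1) (nN p.2) X -
          iTwo a a' b b' (nN κ) (nN p.1) (nN p.2) X| ≤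
          |iOne a a' b b' (nN p.1) (nN p.2) X - iTwo a a' b b' (nN κ) (nN p.1) (nN p.2) X| := by
        calc _ ≤ 1 * |iOne a a' b b' (nN p.1) (nN p.2) X -
              iTwo a a' b b' (nN κ) (nN p.1) (nN p.2) X| :=
              mul_le_mul_of_nonneg_right (habs p) (abs_nonneg _)
          _ = _ := one_mul _
      refine h7.trans (h6.trans (le_of_eq ?_))
      congr 1
    have h6 : ∑ p ∈ D, |lam p.1 * lam p.2 * iOne a a' b b' (nN p.1) (nN p.2) X -
        lam p.1 * lam p.2 * iTwo a a' b b' (nN κ) (nN p.1) (nN p.2) X| ≤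
        ∑ p ∈ dpairs 1 X, (2 * (1 / (mx p : ℝ) ^ 2) +
          (if (X : ℝ) / (nN κ / min a b) < (mx p : ℝ)
          then 1 / min a b * (1 / (mx p : ℝ)) else 0)) := by
      refine (Finset.sum_le_sum h5).trans ?_
      refine Finset.sum_le_sum_of_subset_of_nonneg (Finset.filter_subset _ _) fun p _ _ => ?_
      refine add_nonneg (by positivity) ?_
      split_ifs
      · positivity
      · exact le_rfl
    refine h6.trans ?_
    rw [Finset.sum_add_distrib, ← Finset.mul_sum, ← Finset.sum_filter, ← Finset.mul_sum]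
    have h7 := hsq X
    have hT : 1 ≤ (nN κ : ℝ) / min a b := by
      rw [le_div_iff₀ hδ]
      linarith
    have h8 := htail X (nN κ / min a b) hX hT
    have h9 : ∑ p ∈ (dpairs 1 X).filter (fun p => (X : ℝ) / (nN κ / min a b) < (mx p : ℝ)),
        1 / (mx p : ℝ) ≤ C2 * (1 + log (nN κ / min a b)) := by
      refine le_trans (le_of_eq ?_) h8
      refine Finset.sum_congr ?_ fun _ _ => rfl
      ext p
      simp only [Finset.mem_filter]
    have h10 := mul_le_mul_of_nonneg_left h9 (by positivity : 0 ≤ 1 / min a b)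
    linarith
  have hB : |∑ p ∈ D', lam p.1 * lam p.2 * iOne a a' b b' (nN p.1) (nN p.2) X| ≤
      2 * C0 * ((1 + log X) / nN κ) := by
    refine (Finset.abs_sum_le_sum_abs _ _).trans ?_
    have h5 : ∀ p ∈ D', |lam p.1 * lam p.2 * iOne a a' b b' (nN p.1) (nN p.2) X| ≤
        iOne a a' b b' (nN p.1) (nN p.2) X := by
      intro p hp
      have hp1 := (Finset.mem_filter.1 hp).1
      rw [mem_dpairs] at hp1
      obtain ⟨⟨_, g1⟩, ⟨_, g2⟩, _, _⟩ := hp1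
      have t1 := (triv_one a a' b b' ha haa ha1 hb hbb hb1 (nN p.1) (nN p.2) X
        (nN_pos (prim_ne_zero g1)) (nN_pos (prim_ne_zero g2))).1
      rw [abs_mul, abs_of_nonneg t1]
      calc _ ≤ 1 * iOne a a' b b' (nN p.1) (nN p.2) X :=
            mul_le_mul_of_nonneg_right (habs p) t1
        _ = _ := one_mul _
    refine (Finset.sum_le_sum h5).trans ?_
    have hs0 : star κ ≠ 0 := by
      intro h
      have : nN (star κ) = 0 := by rw [h, nN_zero]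
      omega
    have h6 := amult_lost (C0 := C0) ha1 hb1 (τ := star κ) (by omega) X hX hC0
      (fun N => (dpairs 1 N).filter (fun p => star κ ∣ p.1))
      (fun N => (dpairs 1 N).filter (fun p => star κ ∣ p.2))
      (fun N p => Finset.mem_filter) (fun N p => Finset.mem_filter)
      (fun N => by
        refine le_trans (Nat.cast_le.2 (Finset.card_le_card ?_)) (hdiv 1 N (star κ) hs0).1
        intro p hp
        rw [Finset.mem_filter] at hp ⊢
        exact hp)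
      (fun N => by
        refine le_trans (Nat.cast_le.2 (Finset.card_le_card ?_)) (hdiv 1 N (star κ) hs0).2
        intro p hp
        rw [Finset.mem_filter] at hp ⊢
        exact hp)
      D' (fun p hp => by
        rw [hD'def, Finset.mem_filter] at hp
        refine ⟨hp.1, ?_⟩
        by_contra h
        rw [not_or] at h
        exact hp.2 h) (a := a) (b := b)
    rw [hsκ] at h6
    exact h6
  refine (abs_add_le _ _).trans ((add_le_add hA hB).trans ?_)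
  have hlog : log ((nN κ : ℝ) / min a b) = log (nN κ) + log (1 / min a b) := by
    rw [Real.log_div hq0.ne' hδ.ne', Real.log_div one_ne_zero hδ.ne', Real.log_one]
    ring
  rw [hlog]
  set u := (1 + log (X : ℝ)) / nN κ with hu
  set v := log (nN κ : ℝ) with hv
  set w := log (1 / min a b) with hw
  have hu0 : 0 ≤ u := by positivity
  have k1 : 1 / min a b * (C2 * (1 + (v + w))) ≤ C2 / min a b * (1 + w) * (1 + v) := by
    have : 1 / min a b * (C2 * (1 + (v + w))) = C2 / min a b * (1 + (v + w)) := by ring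
    rw [this, mul_assoc]
    apply mul_le_mul_of_nonneg_left _ (by positivity)
    nlinarith [mul_nonneg hlq hL]
  have k2 : 0 ≤ C2 / min a b * (1 + w) := by positivity
  have k3 : 0 ≤ C2 / min a b * (1 + w) * u := mul_nonneg k2 hu0
  have k4 : 0 ≤ C0 * v := mul_nonneg hC0.le hlq
  have k5 : 0 ≤ C1 * v := mul_nonneg hC1.le hlq
  have k6 : 0 ≤ C1 * u := mul_nonneg hC1.le hu0
  nlinarith

end Pool.Agent.LogCh
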