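import Pool.Agent.Lib.LogCh.DDefs
import Pool.Agent.Lib.NSqP.All

/-!
# CLS: primitive elements are equidistributed in the unimodular classes modulo `q`

PROOF. (1) All elements: for `0 ≤ a ≤ b` and any `c, c'` the numbers of `z ∈ ann a b` with
`z ≡ c`, resp. `z ≡ c' mod q`, differ by at most `C_q (√b + 1)`: translation by a vector `v ≡ c' - c`
with `0 ≤ v.re, v.im < q` changes `|z|` by at most `2 q`, so it maps the first set into the second one
up to elements with `| |z| - √a | ≤ 2q` or `| |z| - √b | ≤ 2q`, which are at most `C_q (√b + 1)`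
(`NSqP.card_ann`).
(2) Moebius: with `μ` = Moebius function, for a class `z0` with `gcd(z0.re, z0.im, q) = 1`:
`#{z ∈ pann a b : z ≡ z0} = ∑_{d ≤ √b, (d,q)=1} μ(d) #{z' ∈ ann (a/d²) (b/d²) : d z' ≡ z0 mod q}`
(`∑_{d ∣ cont z} μ(d) = 1` iff `cont z = 1`; see `NSqP.pann_moebius` in `WTwo.lean`; a `d` with a
common factor with `q` does not occur because `d ∣ z`, `z ≡ z0 mod q`). `d z' ≡ z0` is a single class
modulo `q` (`d` is invertible), so by (1) the difference between two classes `z0`, `z0'` is at most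
`∑_{d ≤ √b} C_q (√b/d + 1) ≤ C_q' √b (log b + 2)`, which is `≤ ε Y` for `Y ≥ Y0`.
-/

set_option autoImplicit false

namespace Pool.Agent.LogCh

open Real
open Pool.Agent.NSqP
open Pool.Agent.MP484c84Par (ballG mem_ballG crossG dotG norm_def' norm_pos')

/-- number of elements of the annulus in a class -/
private noncomputable def clsN (q : ℕ) (c : GaussianInt) (a b : ℝ) : ℕ :=
  open Classical in ((ann a b).filter (fun z => (q : GaussianInt) ∣ z - c)).card

private lemma dc_shift_vec (q : ℕ) (hq : 1 ≤ q) (c c' : GaussianInt) :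
    ∃ v : GaussianInt, (q : GaussianInt) ∣ v - (c' - c) ∧ ‖(v : ℂ)‖ ≤ 2 * q := by
  refine ⟨⟨(c' - c).re % q, (c' - c).im % q⟩, ?_, ?_⟩
  · rw [dvdGn]
    simp only [Zsqrtd.re_sub, Zsqrtd.im_sub]
    constructor
    · exact (Int.mod_modEq _ _).symm.dvd
    · exact (Int.mod_modEq _ _).symm.dvd
  · set v : GaussianInt := ⟨(c' - c).re % q, (c' - c).im % q⟩ with hv
    have hq' : (0 : ℤ) < q := by exact_mod_cast hq
    have h1 : 0 ≤ v.re := Int.emod_nonneg _ hq'.ne'
    have h2 : v.re < q := Int.emod_lt_of_pos _ hq'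
    have h3 : 0 ≤ v.im := Int.emod_nonneg _ hq'.ne'
    have h4 : v.im < q := Int.emod_lt_of_pos _ hq'
    have h5 : ‖(v : ℂ)‖ ^ 2 ≤ (2 * q : ℝ) ^ 2 := by
      rw [norm_toC_sq, nN_real]
      have e1 : (0 : ℝ) ≤ v.re := by exact_mod_cast h1
      have e2 : (v.re : ℝ) ≤ q := by exact_mod_cast h2.le
      have e3 : (0 : ℝ) ≤ v.im := by exact_mod_cast h3
      have e4 : (v.im : ℝ) ≤ q := by exact_mod_cast h4.le
      nlinarith
    exact le_of_sq_le_sq h5 (by positivity)

private lemma dc_shift (q : ℕ) (hq : 1 ≤ q) : ∃ C : ℝ, 0 < C ∧ ∀ a b : ℝ, 0 ≤ a → a ≤ b →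
    ∀ c c' : GaussianInt, (clsN q c a b : ℝ) ≤ clsN q c' a b + C * (√b + 1) := by
  classical
  obtain ⟨C0, hC0, hC⟩ := card_ann
  have hq1 : (1 : ℝ) ≤ q := by exact_mod_cast hq
  refine ⟨π * (8 * q + 4 * q ^ 2) + C0 * (2 + 2 * q), by positivity, fun a b ha hab c c' => ?_⟩
  have hb : 0 ≤ b := ha.trans hab
  obtain ⟨v, hv1, hv2⟩ := dc_shift_vec q hq c c'
  set m : ℝ := max 0 (√b - 2 * q) with hm
  have hm0 : 0 ≤ m := le_max_left _ _
  have hm1 : √b - 2 * q ≤ m := le_max_right _ _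
  have hsb : 0 ≤ √b := sqrt_nonneg b
  have hsa : 0 ≤ √a := sqrt_nonneg a
  have hsab : √a ≤ √b := sqrt_le_sqrt hab
  have hbb : √b ^ 2 = b := sq_sqrt hb
  have haa : √a ^ 2 = a := sq_sqrt ha
  have hmb : m ≤ √b := max_le hsb (by linarith)
  have hcov : (ann a b).filter (fun z => (q : GaussianInt) ∣ z - c) ⊆
      (ann (m ^ 2) b ∪ ann a ((√a + 2 * q) ^ 2)) ∪
      ((ann a b).filter (fun z => (q : GaussianInt) ∣ z - c')).image (fun z => z - v) := by
    intro z hz
    rw [Finset.mem_filter, mem_ann hb] at hz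
    obtain ⟨⟨hz1, hz2⟩, hz3⟩ := hz
    by_cases hin : z + v ∈ ann a b
    · apply Finset.mem_union_right
      rw [Finset.mem_image]
      refine ⟨z + v, Finset.mem_filter.2 ⟨hin, ?_⟩, by ring⟩
      have : z + v - c' = (z - c) + (v - (c' - c)) := by ring
      rw [this]
      exact dvd_add hz3 hv1
    · apply Finset.mem_union_left
      rw [mem_ann hb, not_and_or, not_lt, not_le] at hin
      have t1 : ‖(z : ℂ)‖ ≤ ‖((z + v : GaussianInt) : ℂ)‖ + ‖(v : ℂ)‖ := by
        have : (z : ℂ) = ((z + v : GaussianInt) : ℂ) - (v : ℂ) := by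
          rw [GaussianInt.toComplex_add]; ring
        calc ‖(z : ℂ)‖ = ‖((z + v : GaussianInt) : ℂ) - (v : ℂ)‖ := by rw [← this]
          _ ≤ _ := norm_sub_le _ _
      have t2 : ‖((z + v : GaussianInt) : ℂ)‖ ≤ ‖(z : ℂ)‖ + ‖(v : ℂ)‖ := by
        rw [GaussianInt.toComplex_add]; exact norm_add_le _ _
      have n0 : 0 ≤ ‖(z : ℂ)‖ := norm_nonneg _
      have n1 : 0 ≤ ‖((z + v : GaussianInt) : ℂ)‖ := norm_nonneg _
      have nz := norm_toC_sq z
      have nzv := norm_toC_sq (z + v)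
      rcases hin with h | h
      · apply Finset.mem_union_right
        rw [mem_ann (by positivity)]
        refine ⟨hz1, ?_⟩
        have h3 : ‖((z + v : GaussianInt) : ℂ)‖ ≤ √a := by
          apply le_sqrt_of_sq_le
          rw [nzv]; exact h
        rw [← nz]
        apply pow_le_pow_left₀ n0
        linarith
      · apply Finset.mem_union_left
        rw [mem_ann hb]
        refine ⟨?_, hz2⟩
        have h3 : √b < ‖((z + v : GaussianInt) : ℂ)‖ := by
          rw [sqrt_lt' (by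
            rcases n1.lt_or_eq with h4 | h4
            · exact h4
            · rw [← h4] at nzv; rw [← nzv] at h; norm_num at h; linarith)]
          rw [nzv]; exact h
        have h5 : 0 < ‖(z : ℂ)‖ := by
          rcases n0.lt_or_eq with h4 | h4
          · exact h4
          · rw [← h4] at nz; rw [← nz] at hz1; norm_num at hz1; linarith
        have h6 : m < ‖(z : ℂ)‖ := max_lt h5 (by linarith)
        rw [← nz]
        exact pow_lt_pow_left₀ h6 hm0 (by norm_num)
  have hcard := (Finset.card_le_card hcov).trans ((Finset.card_union_le _ _).trans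
    (Nat.add_le_add (Finset.card_union_le _ _) Finset.card_image_le))
  have hcard' : (clsN q c a b : ℝ) ≤ (ann (m ^ 2) b).card + (ann a ((√a + 2 * q) ^ 2)).card +
      clsN q c' a b := by
    unfold clsN
    exact_mod_cast hcard
  have hB1 := (abs_le.1 (hC (m ^ 2) b (by positivity) (by
    rw [← hbb]; exact pow_le_pow_left₀ hm0 hmb 2))).2
  have hB2 := (abs_le.1 (hC a ((√a + 2 * q) ^ 2) ha (by
    nlinarith [mul_nonneg hsa (by positivity : (0 : ℝ) ≤ q)]))).2
  have e1 : b - m ^ 2 ≤ 4 * q * √b := by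
    rcases le_total (2 * (q : ℝ)) √b with h | h
    · have : m = √b - 2 * q := max_eq_right (by linarith)
      rw [this]
      nlinarith
    · nlinarith
  have e2 : √((√a + 2 * q) ^ 2) = √a + 2 * q := sqrt_sq (by positivity)
  rw [e2] at hB2
  have hpi := Real.pi_pos
  have e3 : π * (b - m ^ 2) ≤ π * (4 * q * √b) := mul_le_mul_of_nonneg_left e1 hpi.le
  have e4 : (√a + 2 * q) ^ 2 - a ≤ 4 * q * √b + 4 * q ^ 2 := by
    have : (q : ℝ) * √a ≤ q * √b := mul_le_mul_of_nonneg_left hsab (by positivity)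
    nlinarith
  have e5 : π * ((√a + 2 * q) ^ 2 - a) ≤ π * (4 * q * √b + 4 * q ^ 2) :=
    mul_le_mul_of_nonneg_left e4 hpi.le
  have e6 : C0 * (√a + 2 * q + 1) ≤ C0 * (√b + 2 * q + 1) := by gcongr
  have e7 : π * (8 * q * √b + 4 * q ^ 2) ≤ π * ((8 * q + 4 * q ^ 2) * (√b + 1)) := by
    apply mul_le_mul_of_nonneg_left _ hpi.le
    have : (0 : ℝ) ≤ 4 * q ^ 2 * √b := by positivity
    nlinarith
  have e8 : C0 * (√b + 1) + C0 * (√b + 2 * q + 1) ≤ C0 * ((2 + 2 * q) * (√b + 1)) := by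
    have : (0 : ℝ) ≤ q * √b := by positivity
    nlinarith
  nlinarith

private lemma dc_moebius_sum (n : ℕ) :
    ∑ r ∈ n.divisors, (ArithmeticFunction.moebius r : ℤ) = if n = 1 then 1 else 0 := by
  have h := ArithmeticFunction.coe_mul_zeta_apply (f := (ArithmeticFunction.moebius)) (x := n)
  rw [ArithmeticFunction.moebius_mul_coe_zeta, ArithmeticFunction.one_apply] at h
  exact h.symm

private lemma dc_dvd (r : ℕ) (z : GaussianInt) : ((r : GaussianInt) ∣ z) ↔ r ∣ cont z := by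
  rw [dvdGn]
  unfold cont
  constructor
  · rintro ⟨h2, h3⟩
    exact Int.natCast_dvd_natCast.1 (Int.dvd_coe_gcd h2 h3)
  · intro h
    have h2 : (r : ℤ) ∣ ((Int.gcd z.re z.im : ℕ) : ℤ) := Int.natCast_dvd_natCast.2 h
    exact ⟨h2.trans (Int.gcd_dvd_left ..), h2.trans (Int.gcd_dvd_right ..)⟩

private lemma dc_nN_int (z : GaussianInt) : ((nN z : ℕ) : ℤ) = z.re ^ 2 + z.im ^ 2 := by
  rw [nN_cast_int, Zsqrtd.norm_def]; ring

private lemma dc_cont_sq (z : GaussianInt) (hz : z ≠ 0) : (cont z) ^ 2 ≤ nN z := by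
  apply Nat.le_of_dvd (nN_pos hz)
  apply Int.natCast_dvd_natCast.1
  rw [dc_nN_int]
  push_cast
  apply dvd_add
  · exact pow_dvd_pow_of_dvd (Int.gcd_dvd_left ..) 2
  · exact pow_dvd_pow_of_dvd (Int.gcd_dvd_right ..) 2

private lemma dc_nN_nat (r : ℕ) : nN (r : GaussianInt) = r ^ 2 := by
  have h := dc_nN_int (r : GaussianInt)
  have h2 : ((r : GaussianInt)).re = (r : ℤ) := by simp
  have h3 : ((r : GaussianInt)).im = 0 := by simp
  rw [h2, h3] at h
  have h4 : ((nN (r : GaussianInt) : ℕ) : ℤ) = ((r ^ 2 : ℕ) : ℤ) := by rw [h]; push_cast; ring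
  exact_mod_cast h4

private lemma dc_ind (b : ℝ) (R : ℕ) (hR : b ≤ (R : ℝ) ^ 2) (z : GaussianInt) (hz : z ≠ 0)
    (hzb : (nN z : ℝ) ≤ b) :
    ∑ r ∈ (Finset.Icc 1 R).filter (fun r => r ∣ cont z), (ArithmeticFunction.moebius r : ℤ) =
      if Prim z then 1 else 0 := by
  have hc : cont z ≠ 0 := by
    unfold cont
    intro h
    rw [Int.gcd_eq_zero_iff] at h
    exact hz (Zsqrtd.ext h.1 h.2)
  have hcR : cont z ≤ R := by
    have h1 : ((cont z : ℕ) : ℝ) ^ 2 ≤ (R : ℝ) ^ 2 := by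
      refine le_trans ?_ (hzb.trans hR)
      exact_mod_cast dc_cont_sq z hz
    have h2 := abs_le_of_sq_le_sq h1 (by positivity)
    have h3 := (abs_le.1 h2).2
    exact_mod_cast h3
  have e : (Finset.Icc 1 R).filter (fun r => r ∣ cont z) = (cont z).divisors := by
    ext r
    rw [Finset.mem_filter, Finset.mem_Icc, Nat.mem_divisors]
    constructor
    · rintro ⟨_, h⟩; exact ⟨h, hc⟩
    · rintro ⟨h, _⟩
      refine ⟨⟨Nat.pos_of_dvd_of_pos h (Nat.pos_of_ne_zero hc), ?_⟩, h⟩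
      exact (Nat.le_of_dvd (Nat.pos_of_ne_zero hc) h).trans hcR
  rw [e, dc_moebius_sum]
  rfl

/-- number of `w` in the annulus with `r w ≡ c` -/
private noncomputable def mulN (q r : ℕ) (c : GaussianInt) (a b : ℝ) : ℕ :=
  open Classical in
  ((ann a b).filter (fun w => (q : GaussianInt) ∣ (r : GaussianInt) * w - c)).card

open Classical in
private lemma dc_pann (q : ℕ) (c : GaussianInt) (a b : ℝ) (ha : 0 ≤ a) (hb : 0 ≤ b) (R : ℕ)
    (hR : b ≤ (R : ℝ) ^ 2) :
    (((pann a b).filter (fun z => (q : GaussianInt) ∣ z - c)).card : ℤ) =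
      ∑ r ∈ Finset.Icc 1 R, (ArithmeticFunction.moebius r : ℤ) *
        (mulN q r c (a / (r : ℝ) ^ 2) (b / (r : ℝ) ^ 2) : ℤ) := by
  have hr : ∀ r ∈ Finset.Icc 1 R, (ArithmeticFunction.moebius r : ℤ) *
        (mulN q r c (a / (r : ℝ) ^ 2) (b / (r : ℝ) ^ 2) : ℤ) =
      ∑ z ∈ ann a b, if (r : GaussianInt) ∣ z then
        (ArithmeticFunction.moebius r : ℤ) * (if (q : GaussianInt) ∣ z - c then 1 else 0)
        else 0 := by
    intro r hr
    have hr1 : 1 ≤ r := (Finset.mem_Icc.1 hr).1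
    have hr0 : (r : GaussianInt) ≠ 0 := by
      intro h
      have h2 : ((r : GaussianInt)).re = (r : ℤ) := by simp
      rw [h] at h2
      simp at h2
      omega
    have h1 := sum_dvd (fun z => if (q : GaussianInt) ∣ z - c then (1 : ℤ) else 0) hr0
      (b := b) ha hb
    rw [← Finset.sum_filter, ← Finset.mul_sum, h1, dc_nN_nat]
    unfold mulN
    push_cast
    rw [Finset.card_filter]
    push_cast
    rfl
  rw [Finset.sum_congr rfl hr, Finset.sum_comm]
  have hp : (((pann a b).filter (fun z => (q : GaussianInt) ∣ z - c)).card : ℤ) =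
      ∑ z ∈ ann a b, if Prim z then (if (q : GaussianInt) ∣ z - c then (1 : ℤ) else 0) else 0 := by
    rw [Finset.card_filter]
    unfold pann
    rw [Finset.sum_filter]
    push_cast
    rfl
  rw [hp]
  refine Finset.sum_congr rfl fun z hz => ?_
  have hz0 := ne_zero_of_mem_ann ha hz
  have hzb : (nN z : ℝ) ≤ b := ((mem_ann hb).1 hz).2
  have h1 := dc_ind b R hR z hz0 hzb
  have h2 : ∑ r ∈ Finset.Icc 1 R, (if (r : GaussianInt) ∣ z then
        (ArithmeticFunction.moebius r : ℤ) * (if (q : GaussianInt) ∣ z - c then 1 else 0)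
        else 0) = (∑ r ∈ (Finset.Icc 1 R).filter (fun r => r ∣ cont z),
          (ArithmeticFunction.moebius r : ℤ)) * (if (q : GaussianInt) ∣ z - c then 1 else 0) := by
    rw [Finset.sum_mul, Finset.sum_filter]
    refine Finset.sum_congr rfl fun r _ => ?_
    by_cases h : r ∣ cont z
    · rw [if_pos h, if_pos ((dc_dvd r z).2 h)]
    · rw [if_neg h, if_neg (fun h' => h ((dc_dvd r z).1 h'))]
  rw [h2, h1]
  by_cases h : Prim z
  · rw [if_pos h, if_pos h, one_mul]
  · rw [if_neg h, if_neg h, zero_mul]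

private lemma dc_mulN_coprime (q r : ℕ) (h : Nat.Coprime r q) (c : GaussianInt) :
    ∃ d : GaussianInt, ∀ a b : ℝ, mulN q r c a b = clsN q d a b := by
  classical
  obtain ⟨s, t, hst⟩ := (Int.isCoprime_iff_gcd_eq_one.2 (by
    rw [Int.gcd_natCast_natCast]; exact h) : IsCoprime (r : ℤ) (q : ℤ))
  have hst' : ((s : ℤ) : GaussianInt) * (r : GaussianInt) + ((t : ℤ) : GaussianInt) *
      (q : GaussianInt) = 1 := by
    have := congrArg (fun x : ℤ => (x : GaussianInt)) hst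
    push_cast at this
    exact this
  refine ⟨(s : GaussianInt) * c, fun a b => ?_⟩
  unfold mulN clsN
  congr 1
  apply Finset.filter_congr
  intro w _
  constructor
  · intro h1
    have : w - (s : GaussianInt) * c = (s : GaussianInt) * ((r : GaussianInt) * w - c) +
        (q : GaussianInt) * ((t : GaussianInt) * w) := by
      linear_combination (-w) * hst'
    rw [this]
    exact dvd_add (Dvd.dvd.mul_left h1 _) (dvd_mul_right _ _)
  · intro h1
    have : (r : GaussianInt) * w - c = (r : GaussianInt) * (w - (s : GaussianInt) * c) +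
        (q : GaussianInt) * (-(t : GaussianInt) * c) := by
      linear_combination c * hst'
    rw [this]
    exact dvd_add (Dvd.dvd.mul_left h1 _) (dvd_mul_right _ _)

private lemma dc_mulN_not (q r : ℕ) (h : ¬ Nat.Coprime r q) (c w0 : GaussianInt)
    (hc : (q : ℤ) ∣ crossG c w0 - 1) (a b : ℝ) : mulN q r c a b = 0 := by
  classical
  obtain ⟨p, hp, hpr, hpq⟩ := Nat.Prime.not_coprime_iff_dvd.1 h
  unfold mulN
  rw [Finset.card_eq_zero, Finset.filter_eq_empty_iff]
  intro w _ h1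
  rw [dvdGn] at h1
  have hq : (p : ℤ) ∣ (q : ℤ) := Int.natCast_dvd_natCast.2 hpq
  have hr : (p : ℤ) ∣ (r : ℤ) := Int.natCast_dvd_natCast.2 hpr
  have e1 : ((r : GaussianInt) * w - c).re = r * w.re - c.re := by simp
  have e2 : ((r : GaussianInt) * w - c).im = r * w.im - c.im := by simp
  rw [e1, e2] at h1
  have h2 : (p : ℤ) ∣ c.re := by
    have := hq.trans h1.1
    have h3 := dvd_sub (Dvd.dvd.mul_right hr w.re) this
    rwa [sub_sub_cancel] at h3
  have h3 : (p : ℤ) ∣ c.im := by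
    have := hq.trans h1.2
    have h3 := dvd_sub (Dvd.dvd.mul_right hr w.im) this
    rwa [sub_sub_cancel] at h3
  have h4 : (p : ℤ) ∣ crossG c w0 := by
    unfold crossG
    exact dvd_sub (Dvd.dvd.mul_right h2 _) (Dvd.dvd.mul_right h3 _)
  have h5 : (p : ℤ) ∣ 1 := by
    have := dvd_sub h4 (hq.trans hc)
    rwa [sub_sub_cancel] at this
  have h6 : p ∣ 1 := by exact_mod_cast h5
  exact hp.one_lt.ne' (Nat.dvd_one.1 h6)

open Classical in
theorem CLS (q : ℕ) (hq : 1 ≤ q) (ε : ℝ) (hε : 0 < ε) : ∃ Y0 : ℝ, ∀ Y : ℝ, Y0 ≤ Y →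
    ∀ z0 w0 z0' w0' : GaussianInt, (q : ℤ) ∣ crossG z0 w0 - 1 → (q : ℤ) ∣ crossG z0' w0' - 1 →
    ∀ a b : ℝ, 0 ≤ a → a ≤ b → b ≤ Y →
    |(((pann a b).filter (fun z => (q : GaussianInt) ∣ z - z0)).card : ℝ) -
      ((pann a b).filter (fun z => (q : GaussianInt) ∣ z - z0')).card| ≤ ε * Y := by
  obtain ⟨C, hC, hsh⟩ := dc_shift q hq
  refine ⟨max 1 ((9 * C / ε) ^ 4), fun Y hY z0 w0 z0' w0' h0 h0' a b ha hab hbY => ?_⟩
  have hY1 : 1 ≤ Y := (le_max_left _ _).trans hY
  have hb : 0 ≤ b := ha.trans hab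
  set t : ℝ := √(√Y) with ht
  have hsY : 0 ≤ √Y := sqrt_nonneg Y
  have ht2 : t ^ 2 = √Y := sq_sqrt hsY
  have ht4 : t ^ 4 = Y := by
    rw [show t ^ 4 = (t ^ 2) ^ 2 by ring, ht2, sq_sqrt (by linarith)]
  have ht1 : 1 ≤ t := by
    rw [ht, Real.one_le_sqrt, Real.one_le_sqrt]; exact hY1
  have htε : 9 * C / ε ≤ t := by
    have h1 : (9 * C / ε) ^ 4 ≤ t ^ 4 := by rw [ht4]; exact (le_max_right _ _).trans hY
    exact le_of_pow_le_pow_left₀ (by norm_num) (by linarith) h1
  set R : ℕ := ⌈√Y⌉₊ with hRdef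
  have hR1 : √Y ≤ R := Nat.le_ceil _
  have hR2 : (R : ℝ) < √Y + 1 := Nat.ceil_lt_add_one hsY
  have hRpos : 1 ≤ R := by
    have : (1 : ℝ) ≤ R := by nlinarith
    exact_mod_cast this
  have hR : b ≤ (R : ℝ) ^ 2 := by
    have h1 : Y = √Y ^ 2 := (sq_sqrt (by linarith)).symm
    calc b ≤ Y := hbY
      _ = √Y ^ 2 := h1
      _ ≤ (R : ℝ) ^ 2 := pow_le_pow_left₀ hsY hR1 2
  have hz := dc_pann q z0 a b ha hb R hR
  have hz' := dc_pann q z0' a b ha hb R hR
  -- termwise
  have hterm : ∀ r ∈ Finset.Icc 1 R,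
      |((mulN q r z0 (a / (r : ℝ) ^ 2) (b / (r : ℝ) ^ 2) : ℝ) -
        mulN q r z0' (a / (r : ℝ) ^ 2) (b / (r : ℝ) ^ 2))| ≤ C * (√Y / r + 1) := by
    intro r hr
    have hr1 : 1 ≤ r := (Finset.mem_Icc.1 hr).1
    have hr0 : (0 : ℝ) < r := by exact_mod_cast hr1
    have hsq : √(b / (r : ℝ) ^ 2) ≤ √Y / r := by
      rw [sqrt_div hb, sqrt_sq hr0.le]
      gcongr
    by_cases hco : Nat.Coprime r q
    · obtain ⟨d, hd⟩ := dc_mulN_coprime q r hco z0
      obtain ⟨d', hd'⟩ := dc_mulN_coprime q r hco z0'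
      rw [hd, hd']
      have ha2 : 0 ≤ a / (r : ℝ) ^ 2 := by positivity
      have hab2 : a / (r : ℝ) ^ 2 ≤ b / (r : ℝ) ^ 2 := by gcongr
      have h1 := hsh _ _ ha2 hab2 d d'
      have h2 := hsh _ _ ha2 hab2 d' d
      have h3 : C * (√(b / (r : ℝ) ^ 2) + 1) ≤ C * (√Y / r + 1) := by gcongr
      rw [abs_le]
      constructor <;> linarith
    · rw [dc_mulN_not q r hco z0 w0 h0, dc_mulN_not q r hco z0' w0' h0']
      simp only [Nat.cast_zero, sub_zero, abs_zero]
      positivity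
  have hdiff : (((pann a b).filter (fun z => (q : GaussianInt) ∣ z - z0)).card : ℝ) -
      ((pann a b).filter (fun z => (q : GaussianInt) ∣ z - z0')).card =
      ∑ r ∈ Finset.Icc 1 R, ((ArithmeticFunction.moebius r : ℤ) : ℝ) *
        ((mulN q r z0 (a / (r : ℝ) ^ 2) (b / (r : ℝ) ^ 2) : ℝ) -
        mulN q r z0' (a / (r : ℝ) ^ 2) (b / (r : ℝ) ^ 2)) := by
    have e1 := congrArg (fun x : ℤ => (x : ℝ)) hz
    have e2 := congrArg (fun x : ℤ => (x : ℝ)) hz'
    simp only [Int.cast_natCast, Int.cast_sum, Int.cast_mul] at e1 e2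
    rw [e1, e2, ← Finset.sum_sub_distrib]
    refine Finset.sum_congr rfl fun r _ => ?_
    ring
  rw [hdiff]
  refine (Finset.abs_sum_le_sum_abs _ _).trans ?_
  have hb2 : ∀ r ∈ Finset.Icc 1 R, |((ArithmeticFunction.moebius r : ℤ) : ℝ) *
        ((mulN q r z0 (a / (r : ℝ) ^ 2) (b / (r : ℝ) ^ 2) : ℝ) -
        mulN q r z0' (a / (r : ℝ) ^ 2) (b / (r : ℝ) ^ 2))| ≤ C * (√Y / r + 1) := by
    intro r hr
    rw [abs_mul]
    have h1 : |((ArithmeticFunction.moebius r : ℤ) : ℝ)| ≤ 1 := by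
      rw [← Int.cast_abs]
      exact_mod_cast ArithmeticFunction.abs_moebius_le_one
    calc _ ≤ 1 * |((mulN q r z0 (a / (r : ℝ) ^ 2) (b / (r : ℝ) ^ 2) : ℝ) -
        mulN q r z0' (a / (r : ℝ) ^ 2) (b / (r : ℝ) ^ 2))| := by gcongr
      _ ≤ _ := by rw [one_mul]; exact hterm r hr
  refine (Finset.sum_le_sum hb2).trans ?_
  have hsum : ∑ r ∈ Finset.Icc 1 R, C * (√Y / r + 1) =
      C * (√Y * (harmonic R : ℝ) + R) := by
    rw [← Finset.mul_sum, Finset.sum_add_distrib, Finset.sum_const, Nat.card_Icc,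
      add_tsub_cancel_right, nsmul_eq_mul, mul_one]
    congr 2
    rw [harmonic_eq_sum_Icc]
    push_cast
    rw [Finset.mul_sum]
    refine Finset.sum_congr rfl fun r _ => ?_
    rw [div_eq_mul_inv]
  rw [hsum]
  have hharm : (harmonic R : ℝ) ≤ 1 + log R := harmonic_le_one_add_log R
  have hR3 : (R : ℝ) ≤ 2 * t ^ 2 := by
    rw [ht2]
    have : 1 ≤ √Y := by rw [← ht2]; nlinarith
    linarith
  have hlog : log R ≤ 3 * t := by
    have hRp : (0 : ℝ) < R := by exact_mod_cast hRpos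
    have h1 : log R ≤ log ((2 * t) ^ 2) := by
      apply Real.log_le_log hRp
      nlinarith
    rw [Real.log_pow] at h1
    have h2 : log (2 * t) = log 2 + log t := Real.log_mul (by norm_num) (by linarith)
    have h3 : log t ≤ t - 1 := Real.log_le_sub_one_of_pos (by linarith)
    have h4 : log 2 < 1 := by
      have := Real.log_two_lt_d9
      linarith
    rw [h2] at h1
    push_cast at h1
    linarith
  have h1 : √Y * (harmonic R : ℝ) + R ≤ 6 * t ^ 3 := by
    have h2 : √Y * (harmonic R : ℝ) ≤ t ^ 2 * (1 + 3 * t) := by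
      rw [ht2]
      apply mul_le_mul_of_nonneg_left _ hsY
      linarith
    have h3 : t ^ 2 ≤ t ^ 3 := pow_le_pow_right₀ ht1 (by norm_num)
    nlinarith
  have h5 : C * (√Y * (harmonic R : ℝ) + R) ≤ C * (6 * t ^ 3) := by gcongr
  refine h5.trans ?_
  have h6 : 9 * C ≤ ε * t := by
    rw [div_le_iff₀ hε] at htε
    linarith
  rw [← ht4]
  have h7 : 0 ≤ t ^ 3 := by positivity
  nlinarith [mul_le_mul_of_nonneg_right h6 h7]

end Pool.Agent.LogCh
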