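import Pool.Agent.Lib.LogCh.DPC
import Pool.Agent.Lib.LogCh.DClass
import Pool.Agent.Lib.NSqP.LC

/-!
# EQ1: consecutive pairs are equidistributed in the classes of determinant one

PROOF. `q = 1`: the two sets are equal. `q ≥ 2`. For `z ∈ VV N`, `n = N z`, `w` with `z × w = 1` and
`s = <z,w>`: `N w = (s² + 1)/n`, `N (z + w) = ((s + n)² + 1)/n` (`dot_sq_add_one`), so `(z, w) ∈ CP N`
iff `√(nN - 1) - n < s ≤ √(nN - 1)` (for `N ≥ 2`; `s + n < - √(nN-1)` is impossible since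
`s ≥ - √(nN - 1)`). The projection `(z, w) ↦ z` is injective on `CP N` with a fixed class of `w`
(the window has length `n`), so the first number is the number of `z ∈ VV N`, `z ≡ z0 mod q`, for which
there is `w` with `IsW q w0 z w` in the window. Cells: `n ∈ (ν N, ν' N]`, `ν = δ + (1-δ) i/K`,
`ν' = δ + (1-δ)(i+1)/K`: there `√(nN-1)/n ∈ [1/√ν - ρ, 1/√ν]` with
`ρ = 1/√ν - √(1/ν' - 1/(ν N)²)` small (for `K` large in terms of `δ`, `N ≥ N0`). So the set lies
between `Win q w0 ((1/√ν - 1)/q) ((1/√ν - ρ)/q)` and `Win q w0 ((1/√ν - ρ - 1)/q) ((1/√ν)/q)`, of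
lengths `(1 ∓ ρ)/q ≤ 1`. By `PCC`: the count of the cell is `(1/q) #{z ∈ cell, z ≡ z0}` up to
`(ρ/q) #cell + ε' N`. Sum over the `K` cells; `z` with `N z ≤ δ N` are at most `C δ N`
(`card_ann_le`). By `CLS` the main term does not depend on the class.
-/

set_option autoImplicit false

namespace Pool.Agent.LogCh

open Real
open Pool.Agent.NSqP
open Pool.Agent.MP484c84Par (ballG mem_ballG crossG dotG norm_def' norm_pos')

lemma eq1_sqrt_sub_le {X Y : ℝ} (hX : 1 ≤ X) (hYX : Y ≤ X) : √X - √Y ≤ X - Y := by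
  have h1 : 1 ≤ √X := Real.one_le_sqrt.2 hX
  have h0 := Real.sqrt_nonneg X
  have h3 := Real.sq_sqrt (zero_le_one.trans hX)
  rcases le_or_gt 0 Y with hY | hY
  · have h2 := Real.sq_sqrt hY
    have h4 : √Y ≤ √X := Real.sqrt_le_sqrt hYX
    have h5 := Real.sqrt_nonneg Y
    have h6 := mul_nonneg (sub_nonneg.2 h4) (sub_nonneg.2 h1)
    have h7 := mul_nonneg (sub_nonneg.2 h4) h5
    nlinarith
  · have h2 : √Y = 0 := Real.sqrt_eq_zero'.2 hY.le
    rw [h2]
    have h6 := mul_nonneg h0 (sub_nonneg.2 h1)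
    nlinarith

/-- consecutive pairs in terms of the scalar product -/
lemma eq1_cp_iff {N : ℕ} (hN : 2 ≤ N) {u v : GaussianInt} (hc : crossG u v = 1) (hu : nN u ≤ N) :
    (u, v) ∈ CP N ↔ √((nN u : ℝ) * N - 1) - nN u < dotG u v ∧
      (dotG u v : ℝ) ≤ √((nN u : ℝ) * N - 1) := by
  have hN' : (2 : ℝ) ≤ N := by exact_mod_cast hN
  have hu' : (nN u : ℝ) ≤ N := by exact_mod_cast hu
  have hpu : Prim u := prim_of_cross hc
  have hn0 : 0 < nN u := nN_pos (prim_ne_zero hpu)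
  have hn : (1 : ℝ) ≤ nN u := by exact_mod_cast hn0
  have hcv : crossG v (-u) = 1 := by
    refine Eq.trans ?_ hc
    unfold crossG
    simp
    ring
  have hpv : Prim v := prim_of_cross hcv
  have hv0 : (0 : ℝ) < nN v := by exact_mod_cast nN_pos (prim_ne_zero hpv)
  have hE1 := dot_sq_add_one hc
  have hcuv : crossG u (u + v) = 1 := by
    refine Eq.trans ?_ hc
    unfold crossG
    simp
    ring
  have hduv : (dotG u (u + v) : ℝ) = dotG u v + nN u := by
    have h1 : dotG u (u + v) = dotG u v + (nN u : ℤ) := by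
      rw [nN_cast_int, norm_def']
      unfold dotG
      simp
      ring
    rw [h1]
    push_cast
    ring
  have hE2 := dot_sq_add_one hcuv
  rw [hduv] at hE2
  have hr0 : 0 ≤ (nN u : ℝ) * N - 1 := by nlinarith
  have hr2 := Real.sq_sqrt hr0
  have hr := Real.sqrt_nonneg ((nN u : ℝ) * N - 1)
  have hmem : (u, v) ∈ CP N ↔ (nN v : ℝ) ≤ N ∧ (N : ℝ) < nN (u + v) := by
    unfold CP VV
    rw [Finset.mem_filter, Finset.mem_product, mem_pann (Nat.cast_nonneg N),
      mem_pann (Nat.cast_nonneg N)]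
    constructor
    · rintro ⟨⟨_, ⟨_, h1⟩, _⟩, _, h2⟩
      exact ⟨h1, by exact_mod_cast h2⟩
    · rintro ⟨h1, h2⟩
      exact ⟨⟨⟨⟨by exact_mod_cast hn0, hu'⟩, hpu⟩, ⟨hv0, h1⟩, hpv⟩, hc, by exact_mod_cast h2⟩
  rw [hmem]
  constructor
  · rintro ⟨h1, h2⟩
    have h3 : (dotG u v : ℝ) ^ 2 ≤ (nN u : ℝ) * N - 1 := by
      have := mul_le_mul_of_nonneg_left h1 (by linarith : (0 : ℝ) ≤ nN u)
      linarith
    have h4 := abs_le.1 (Real.abs_le_sqrt h3)
    refine ⟨?_, h4.2⟩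
    by_contra h5
    rw [not_lt] at h5
    have h6 : |(dotG u v : ℝ) + nN u| ≤ √((nN u : ℝ) * N - 1) := by
      rw [abs_le]
      constructor <;> linarith [h4.1]
    have h7 := sq_le_sq' (abs_le.1 h6).1 (abs_le.1 h6).2
    rw [hr2] at h7
    have := mul_lt_mul_of_pos_left h2 (by linarith : (0 : ℝ) < nN u)
    linarith
  · rintro ⟨h1, h2⟩
    have h3 : (nN u : ℝ) / 2 ≤ √((nN u : ℝ) * N - 1) := by
      refine Real.le_sqrt_of_sq_le ?_
      have h4 := mul_le_mul_of_nonneg_left hu' (by linarith : (0 : ℝ) ≤ nN u)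
      have h5 := mul_le_mul_of_nonneg_left hN' (by linarith : (0 : ℝ) ≤ nN u)
      nlinarith
    have h4 : (dotG u v : ℝ) ^ 2 ≤ (nN u : ℝ) * N - 1 := by
      have := sq_le_sq' (by linarith : -√((nN u : ℝ) * N - 1) ≤ (dotG u v : ℝ)) h2
      rwa [hr2] at this
    have h5 : (nN u : ℝ) * N - 1 < ((dotG u v : ℝ) + nN u) ^ 2 := by
      rw [← hr2]
      exact pow_lt_pow_left₀ (by linarith) hr two_ne_zero
    constructor
    · refine le_of_mul_le_mul_left ?_ (by linarith : (0 : ℝ) < nN u)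
      linarith
    · refine lt_of_mul_lt_mul_left ?_ (by linarith : (0 : ℝ) ≤ nN u)
      linarith

/-- bounds for the end point of the window -/
lemma eq1_window {a b n N : ℝ} (ha : 0 < a) (hn : a < n) (hnb : n ≤ b) (hN : 0 < N) :
    √(N / b - 1 / a ^ 2) * n ≤ √(n * N - 1) ∧ √(n * N - 1) ≤ √(N / a) * n := by
  have hn0 : 0 < n := ha.trans hn
  have hb0 : 0 < b := hn0.trans_le hnb
  constructor
  · rcases le_or_gt (N / b - 1 / a ^ 2) 0 with hL | hL
    · rw [Real.sqrt_eq_zero'.2 hL, zero_mul]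
      exact Real.sqrt_nonneg _
    · refine Real.le_sqrt_of_sq_le ?_
      rw [mul_pow, Real.sq_sqrt hL.le, sub_mul]
      have h1 : N / b * n ^ 2 ≤ n * N := by
        rw [div_mul_eq_mul_div, div_le_iff₀ hb0]
        have := mul_le_mul_of_nonneg_left hnb (by positivity : 0 ≤ n * N)
        nlinarith
      have h2 : 1 ≤ 1 / a ^ 2 * n ^ 2 := by
        rw [div_mul_eq_mul_div, one_mul, le_div_iff₀ (by positivity), one_mul]
        exact pow_le_pow_left₀ ha.le hn.le 2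
      linarith
  · rw [Real.sqrt_le_left (by positivity), mul_pow, Real.sq_sqrt (by positivity)]
    have h1 : n * N ≤ N / a * n ^ 2 := by
      rw [div_mul_eq_mul_div, le_div_iff₀ ha]
      have := mul_le_mul_of_nonneg_left hn.le (by positivity : 0 ≤ n * N)
      nlinarith
    linarith

/-- the pairs in a cell -/
noncomputable def eq1S (q N : ℕ) (z w : GaussianInt) (a b : ℝ) :
    Finset (GaussianInt × GaussianInt) :=
  open Classical in (CP N).filter (fun p => ((q : GaussianInt) ∣ p.1 - z ∧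
    (q : GaussianInt) ∣ p.2 - w) ∧ a < nN p.1 ∧ (nN p.1 : ℝ) ≤ b)

/-- the elements of an annulus in a class -/
noncomputable def eq1C (q : ℕ) (z : GaussianInt) (a b : ℝ) : Finset GaussianInt :=
  open Classical in (pann a b).filter (fun u => (q : GaussianInt) ∣ u - z)

/-- the elements of an annulus in a class with a condition on the window -/
noncomputable def eq1W (q : ℕ) (z w : GaussianInt) (a b α β : ℝ) : Finset GaussianInt :=
  open Classical in (pann a b).filter (fun u => (q : GaussianInt) ∣ u - z ∧ Win q w α β u)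

lemma mem_eq1S {q N : ℕ} {z w : GaussianInt} {a b : ℝ} {p : GaussianInt × GaussianInt} :
    p ∈ eq1S q N z w a b ↔ p ∈ CP N ∧ ((q : GaussianInt) ∣ p.1 - z ∧
    (q : GaussianInt) ∣ p.2 - w) ∧ a < nN p.1 ∧ (nN p.1 : ℝ) ≤ b := by
  unfold eq1S
  simp only [Finset.mem_filter]

lemma mem_eq1C {q : ℕ} {z : GaussianInt} {a b : ℝ} {u : GaussianInt} :
    u ∈ eq1C q z a b ↔ u ∈ pann a b ∧ (q : GaussianInt) ∣ u - z := by
  unfold eq1C
  simp only [Finset.mem_filter]

lemma mem_eq1W {q : ℕ} {z w : GaussianInt} {a b α β : ℝ} {u : GaussianInt} :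
    u ∈ eq1W q z w a b α β ↔ u ∈ pann a b ∧ (q : GaussianInt) ∣ u - z ∧ Win q w α β u := by
  unfold eq1W
  simp only [Finset.mem_filter]

lemma eq1_cp {N : ℕ} {u v : GaussianInt} (h : (u, v) ∈ CP N) : crossG u v = 1 ∧ nN u ≤ N := by
  unfold CP VV at h
  rw [Finset.mem_filter, Finset.mem_product, mem_pann (Nat.cast_nonneg N)] at h
  exact ⟨h.2.1, by exact_mod_cast h.1.1.1.2⟩

lemma eq1_inj {q N : ℕ} (hN : 2 ≤ N) {z w : GaussianInt} {a b : ℝ} :
    Set.InjOn Prod.fst (eq1S q N z w a b : Set (GaussianInt × GaussianInt)) := by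
  rintro ⟨u, v⟩ hp ⟨u', v'⟩ hp' huu
  change u = u' at huu
  subst huu
  rw [Finset.mem_coe, mem_eq1S] at hp hp'
  obtain ⟨h1, ⟨_, h2⟩, _, _⟩ := hp
  obtain ⟨h1', ⟨_, h2'⟩, _, _⟩ := hp'
  change (q : GaussianInt) ∣ v - w at h2
  change (q : GaussianInt) ∣ v' - w at h2'
  obtain ⟨hc, hu⟩ := eq1_cp h1
  obtain ⟨hc', _⟩ := eq1_cp h1'
  rw [eq1_cp_iff hN hc hu] at h1
  rw [eq1_cp_iff hN hc' hu] at h1'
  obtain ⟨k, hk⟩ := W_unique (q := q) (w0 := w) ⟨hc, h2⟩ ⟨hc', h2'⟩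
  have hd := dot_shift u v (q * k)
  rw [← hk] at hd
  have hd' : (dotG u v' : ℝ) = dotG u v + ((q * k : ℤ) : ℝ) * nN u := by
    rw [hd]; push_cast; ring
  have hn : (0 : ℝ) < nN u := by exact_mod_cast nN_pos (prim_ne_zero (prim_of_cross hc))
  have hk1 : ((q * k : ℤ) : ℝ) < 1 := by
    refine lt_of_mul_lt_mul_right ?_ hn.le
    linarith [h1'.2, h1.1]
  have hk2 : (-1 : ℝ) < ((q * k : ℤ) : ℝ) := by
    refine lt_of_mul_lt_mul_right ?_ hn.le
    linarith [h1'.1, h1.2]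
  have hk3 : (q * k : ℤ) = 0 := by
    have h8 : (q * k : ℤ) < 1 := by exact_mod_cast hk1
    have h9 : -1 < (q * k : ℤ) := by exact_mod_cast hk2
    omega
  rw [hk3] at hk
  have : v' = v := by rw [hk]; simp
  rw [this]

lemma eq1_mulq {q : ℕ} (hq : 1 ≤ q) (x n : ℝ) : x / q * (q * n) = x * n := by
  have : (q : ℝ) ≠ 0 := by exact_mod_cast (by omega : q ≠ 0)
  field_simp

lemma eq1_upper {q N : ℕ} (hq : 1 ≤ q) (hN : 2 ≤ N) (z w : GaussianInt) {a b : ℝ} (ha : 0 < a)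
    (hab : a ≤ b) : (eq1S q N z w a b).card ≤
      (eq1W q z w a b ((√(N / b - 1 / a ^ 2) - 1) / q) (√(N / a) / q)).card := by
  have hN0 : (0 : ℝ) < N := by exact_mod_cast (by omega : 0 < N)
  refine Finset.card_le_card_of_injOn Prod.fst ?_ (eq1_inj hN)
  rintro ⟨u, v⟩ hp
  rw [Finset.mem_coe, mem_eq1S] at hp
  obtain ⟨h1, ⟨h2, h3⟩, h4, h5⟩ := hp
  change (q : GaussianInt) ∣ u - z at h2
  change (q : GaussianInt) ∣ v - w at h3
  change a < nN u at h4
  change (nN u : ℝ) ≤ b at h5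
  obtain ⟨hc, hu⟩ := eq1_cp h1
  rw [eq1_cp_iff hN hc hu] at h1
  obtain ⟨h6, h7⟩ := eq1_window ha h4 h5 hN0
  rw [Finset.mem_coe, mem_eq1W, mem_pann (ha.le.trans hab)]
  refine ⟨⟨⟨h4, h5⟩, prim_of_cross hc⟩, h2, v, ⟨hc, h3⟩, ?_, ?_⟩
  · rw [eq1_mulq hq]
    linarith [h1.1]
  · rw [eq1_mulq hq]
    linarith [h1.2]

lemma eq1_lower {q N : ℕ} (hq : 1 ≤ q) (hN : 2 ≤ N) (z w : GaussianInt) {a b : ℝ} (ha : 0 < a)
    (hab : a ≤ b) (hb : b ≤ N) :
    (eq1W q z w a b ((√(N / a) - 1) / q) (√(N / b - 1 / a ^ 2) / q)).card ≤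
      (eq1S q N z w a b).card := by
  classical
  have hN0 : (0 : ℝ) < N := by exact_mod_cast (by omega : 0 < N)
  refine le_trans (Finset.card_le_card ?_) (Finset.card_image_le (s := eq1S q N z w a b)
    (f := Prod.fst))
  intro u hu
  rw [mem_eq1W, mem_pann (ha.le.trans hab)] at hu
  obtain ⟨⟨⟨h4, h5⟩, hpu⟩, h2, v, ⟨hc, h3⟩, h8, h9⟩ := hu
  rw [eq1_mulq hq] at h8 h9
  obtain ⟨h6, h7⟩ := eq1_window ha h4 h5 hN0
  rw [Finset.mem_image]
  refine ⟨(u, v), ?_, rfl⟩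
  rw [mem_eq1S]
  refine ⟨?_, ⟨h2, h3⟩, h4, h5⟩
  have hu : nN u ≤ N := by exact_mod_cast h5.trans hb
  rw [eq1_cp_iff hN hc hu]
  constructor
  · linarith
  · linarith

lemma eq1_cell {q N : ℕ} (hq : 2 ≤ q) (hN : 2 ≤ N) (z w z' w' : GaussianInt) {a b ρ E : ℝ}
    (ha : 0 < a) (hab : a ≤ b) (hb : b ≤ N) (hE : 0 ≤ E) (hρ : ρ ≤ 1)
    (hρ' : √(N / a) - √(N / b - 1 / a ^ 2) ≤ ρ)
    (hP : ∀ α β : ℝ, α ≤ β → β ≤ α + 1 →
      |((eq1W q z w a b α β).card : ℝ) - (β - α) * (eq1C q z a b).card| ≤ E)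
    (hP' : ∀ α β : ℝ, α ≤ β → β ≤ α + 1 →
      |((eq1W q z' w' a b α β).card : ℝ) - (β - α) * (eq1C q z' a b).card| ≤ E)
    (hC : |((eq1C q z a b).card : ℝ) - (eq1C q z' a b).card| ≤ E) :
    |((eq1S q N z w a b).card : ℝ) - (eq1S q N z' w' a b).card| ≤
      3 * E + 2 * ρ * (ann a b).card := by
  have hN0 : (0 : ℝ) < N := by exact_mod_cast (by omega : 0 < N)
  have hq0 : (0 : ℝ) < q := by exact_mod_cast (by omega : 0 < q)
  have hq2 : (2 : ℝ) ≤ q := by exact_mod_cast hq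
  have hb0 : 0 < b := ha.trans_le hab
  set A := √(N / b - 1 / a ^ 2) with hA
  set B := √((N : ℝ) / a) with hB
  have hAB : A ≤ B := by
    refine Real.sqrt_le_sqrt ?_
    have h1 : (N : ℝ) / b ≤ N / a := div_le_div_of_nonneg_left hN0.le ha hab
    have h2 : 0 ≤ 1 / a ^ 2 := by positivity
    linarith
  have hρ0 : 0 ≤ ρ := by linarith
  have u1 : ((eq1S q N z w a b).card : ℝ) ≤ (eq1W q z w a b ((A - 1) / q) (B / q)).card := by
    exact_mod_cast eq1_upper (by omega) hN z w ha hab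
  have u2 : ((eq1S q N z' w' a b).card : ℝ) ≤
      (eq1W q z' w' a b ((A - 1) / q) (B / q)).card := by
    exact_mod_cast eq1_upper (by omega) hN z' w' ha hab
  have l1 : ((eq1W q z w a b ((B - 1) / q) (A / q)).card : ℝ) ≤ (eq1S q N z w a b).card := by
    exact_mod_cast eq1_lower (by omega) hN z w ha hab hb
  have l2 : ((eq1W q z' w' a b ((B - 1) / q) (A / q)).card : ℝ) ≤
      (eq1S q N z' w' a b).card := by
    exact_mod_cast eq1_lower (by omega) hN z' w' ha hab hb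
  have c1 : (A - 1) / (q : ℝ) ≤ B / q := div_le_div_of_nonneg_right (by linarith) hq0.le
  have c2 : B / (q : ℝ) ≤ (A - 1) / q + 1 := by
    have e : (A - 1) / (q : ℝ) + 1 = (A - 1 + q) / q := by field_simp
    rw [e]
    exact div_le_div_of_nonneg_right (by linarith) hq0.le
  have c3 : (B - 1) / (q : ℝ) ≤ A / q := div_le_div_of_nonneg_right (by linarith) hq0.le
  have c4 : A / (q : ℝ) ≤ (B - 1) / q + 1 := by
    have e : (B - 1) / (q : ℝ) + 1 = (B - 1 + q) / q := by field_simp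
    rw [e]
    exact div_le_div_of_nonneg_right (by linarith) hq0.le
  have p1 := (abs_le.1 (hP _ _ c1 c2)).2
  have p2 := (abs_le.1 (hP' _ _ c1 c2)).2
  have p3 := (abs_le.1 (hP _ _ c3 c4)).1
  have p4 := (abs_le.1 (hP' _ _ c3 c4)).1
  have e1 : B / (q : ℝ) - (A - 1) / q = (1 + (B - A)) / q := by ring
  have e2 : A / (q : ℝ) - (B - 1) / q = (1 - (B - A)) / q := by ring
  rw [e1] at p1 p2
  rw [e2] at p3 p4
  have hsub : ∀ z, ((eq1C q z a b).card : ℝ) ≤ (ann a b).card := by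
    intro z
    refine Nat.cast_le.2 (Finset.card_le_card ?_)
    intro u hu
    rw [mem_eq1C] at hu
    exact pann_subset _ _ hu.1
  have m1 := hsub z
  have m2 := hsub z'
  have n1 : (0 : ℝ) ≤ (eq1C q z a b).card := Nat.cast_nonneg _
  have n2 : (0 : ℝ) ≤ (eq1C q z' a b).card := Nat.cast_nonneg _
  obtain ⟨d1, d2⟩ := abs_le.1 hC
  have key : ∀ c c' m D : ℝ, 0 ≤ c → 0 ≤ c' → c ≤ m → c' ≤ m → c - c' ≤ E → 0 ≤ D → D ≤ ρ →
      (1 + D) / q * c - (1 - D) / q * c' ≤ E + 2 * ρ * m := by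
    intro c c' m D h1 h2 h3 h4 h5 h6 h7
    have f1 : (1 + D) / q * c - (1 - D) / q * c' = ((c - c') + D * (c + c')) / q := by
      field_simp
      ring
    rw [f1, div_le_iff₀ hq0]
    have f2 : D * (c + c') ≤ ρ * (m + m) := mul_le_mul h7 (by linarith) (by linarith) hρ0
    have f3 : (0 : ℝ) ≤ E + 2 * ρ * m := by
      have : 0 ≤ ρ * m := mul_nonneg hρ0 (h1.trans h3)
      linarith
    nlinarith
  have k1 := key _ _ _ (B - A) n1 n2 m1 m2 (by linarith) (by linarith) hρ'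
  have k2 := key _ _ _ (B - A) n2 n1 m2 m1 (by linarith) (by linarith) hρ'
  rw [abs_le]
  constructor
  · linarith
  · linarith

lemma eq1S_split (q N : ℕ) (z w : GaussianInt) {a b c : ℝ} (hab : a ≤ b) (hbc : b ≤ c) :
    (eq1S q N z w a c).card = (eq1S q N z w a b).card + (eq1S q N z w b c).card := by
  classical
  rw [← Finset.card_union_of_disjoint]
  · congr 1
    ext p
    rw [Finset.mem_union, mem_eq1S, mem_eq1S, mem_eq1S]
    constructor
    · rintro ⟨h1, h2, h3, h4⟩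
      rcases le_or_gt (nN p.1 : ℝ) b with h5 | h5
      · exact Or.inl ⟨h1, h2, h3, h5⟩
      · exact Or.inr ⟨h1, h2, h5, h4⟩
    · rintro (⟨h1, h2, h3, h4⟩ | ⟨h1, h2, h3, h4⟩)
      · exact ⟨h1, h2, h3, h4.trans hbc⟩
      · exact ⟨h1, h2, lt_of_le_of_lt hab h3, h4⟩
  · rw [Finset.disjoint_left]
    intro p hp hp'
    rw [mem_eq1S] at hp hp'
    linarith [hp.2.2.2, hp'.2.2.1]

lemma eq1_ann_split {a b c : ℝ} (ha : 0 ≤ a) (hab : a ≤ b) (hbc : b ≤ c) :
    (ann a c).card = (ann a b).card + (ann b c).card := by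
  classical
  have hb : 0 ≤ b := ha.trans hab
  have hc : 0 ≤ c := hb.trans hbc
  rw [← Finset.card_union_of_disjoint]
  · congr 1
    ext p
    rw [Finset.mem_union, mem_ann hc, mem_ann hb, mem_ann hc]
    constructor
    · rintro ⟨h3, h4⟩
      rcases le_or_gt (nN p : ℝ) b with h5 | h5
      · exact Or.inl ⟨h3, h5⟩
      · exact Or.inr ⟨h5, h4⟩
    · rintro (⟨h3, h4⟩ | ⟨h3, h4⟩)
      · exact ⟨h3, h4.trans hbc⟩
      · exact ⟨lt_of_le_of_lt hab h3, h4⟩
  · rw [Finset.disjoint_left]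
    intro p hp hp'
    rw [mem_ann hb] at hp
    rw [mem_ann hc] at hp'
    linarith [hp.2, hp'.1]

lemma eq1S_le_ann {q N : ℕ} (hN : 2 ≤ N) (z w : GaussianInt) {a b : ℝ} (hb : 0 ≤ b) :
    ((eq1S q N z w a b).card : ℝ) ≤ (ann a b).card := by
  refine Nat.cast_le.2 (Finset.card_le_card_of_injOn Prod.fst ?_ (eq1_inj hN))
  intro p hp
  rw [Finset.mem_coe, mem_eq1S] at hp
  rw [Finset.mem_coe, mem_ann hb]
  exact hp.2.2

/-- error in the window for a short cell -/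
lemma eq1_rho {δ a b N K ρ : ℝ} (hδ : 0 < δ) (hN : 0 < N) (hK : 0 < K) (ha : δ * N ≤ a)
    (hab : a ≤ b) (hb : b ≤ N) (hba : b - a ≤ N / K) (h1 : 1 / (K * δ ^ 2) ≤ ρ / 2)
    (h2 : 1 / (δ * N) ^ 2 ≤ ρ / 2) :
    √(N / a) - √(N / b - 1 / a ^ 2) ≤ ρ := by
  have ha0 : 0 < a := lt_of_lt_of_le (by positivity) ha
  have hb0 : 0 < b := ha0.trans_le hab
  have e1 : 1 ≤ N / a := by
    rw [le_div_iff₀ ha0]
    linarith
  have e2 : N / b - 1 / a ^ 2 ≤ N / a := by
    have g1 : N / b ≤ N / a := div_le_div_of_nonneg_left hN.le ha0 hab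
    have g2 : 0 ≤ 1 / a ^ 2 := by positivity
    linarith
  refine (eq1_sqrt_sub_le e1 e2).trans ?_
  have e3 : N / a - N / b ≤ 1 / (K * δ ^ 2) := by
    rw [div_sub_div _ _ ha0.ne' hb0.ne', div_le_div_iff₀ (by positivity) (by positivity)]
    have g1 : N * b - a * N ≤ N * (N / K) := by
      have := mul_le_mul_of_nonneg_left hba hN.le
      linarith
    have g2 : δ * N * (δ * N) ≤ a * b :=
      mul_le_mul ha (ha.trans hab) (by positivity) ha0.le
    have g3 : N * (N / K) * (K * δ ^ 2) = δ * N * (δ * N) := by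
      field_simp
    calc (N * b - a * N) * (K * δ ^ 2) ≤ N * (N / K) * (K * δ ^ 2) :=
          mul_le_mul_of_nonneg_right g1 (by positivity)
      _ = δ * N * (δ * N) := g3
      _ ≤ 1 * (a * b) := by rw [one_mul]; exact g2
  have e4 : 1 / a ^ 2 ≤ 1 / (δ * N) ^ 2 :=
    one_div_le_one_div_of_le (by positivity) (pow_le_pow_left₀ (by positivity) ha 2)
  linarith

open Classical in
theorem EQ1' (q : ℕ) (hq : 1 ≤ q) (ε : ℝ) (hε : 0 < ε) : ∃ N0 : ℕ, ∀ N : ℕ, N0 ≤ N →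
    ∀ z w z' w' : GaussianInt, (q : ℤ) ∣ crossG z w - 1 → (q : ℤ) ∣ crossG z' w' - 1 →
    |(((CP N).filter (fun p : GaussianInt × GaussianInt => (q : GaussianInt) ∣ p.1 - z ∧ (q : GaussianInt) ∣ p.2 - w)).card : ℝ)
      - ((CP N).filter (fun p : GaussianInt × GaussianInt => (q : GaussianInt) ∣ p.1 - z' ∧
          (q : GaussianInt) ∣ p.2 - w')).card| ≤ ε * N := by
  rcases Nat.lt_or_ge q 2 with hq2 | hq2
  · have hq1 : q = 1 := by omega
    subst hq1
    refine ⟨0, fun N _ z w z' w' _ _ => ?_⟩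
    have h1 : (CP N).filter (fun p : GaussianInt × GaussianInt =>
        ((1 : ℕ) : GaussianInt) ∣ p.1 - z ∧ ((1 : ℕ) : GaussianInt) ∣ p.2 - w) =
        (CP N).filter (fun p : GaussianInt × GaussianInt =>
        ((1 : ℕ) : GaussianInt) ∣ p.1 - z' ∧ ((1 : ℕ) : GaussianInt) ∣ p.2 - w') := by
      ext p
      simp
    rw [h1, sub_self, abs_zero]
    positivity
  obtain ⟨C, hC, hann⟩ := card_ann_le
  -- parameters
  obtain ⟨δ, hδ0, hδ1, hδ2⟩ : ∃ δ : ℝ, 0 < δ ∧ δ ≤ 1 / 2 ∧ C * δ ≤ ε / 3 := by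
    refine ⟨min (1 / 2) (ε / (3 * C)), by positivity, min_le_left _ _, ?_⟩
    calc C * min (1 / 2) (ε / (3 * C)) ≤ C * (ε / (3 * C)) :=
          mul_le_mul_of_nonneg_left (min_le_right _ _) hC.le
      _ = ε / 3 := by field_simp
  obtain ⟨ρ, hρ0, hρ1, hρ2⟩ : ∃ ρ : ℝ, 0 < ρ ∧ ρ ≤ 1 ∧ 2 * ρ * C ≤ ε / 3 := by
    refine ⟨min 1 (ε / (6 * C)), by positivity, min_le_left _ _, ?_⟩
    calc 2 * min 1 (ε / (6 * C)) * C = (2 * C) * min 1 (ε / (6 * C)) := by ring
      _ ≤ (2 * C) * (ε / (6 * C)) :=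
          mul_le_mul_of_nonneg_left (min_le_right _ _) (by positivity)
      _ = ε / 3 := by field_simp; norm_num
  obtain ⟨K, hKdef⟩ : ∃ K : ℕ, K = ⌈2 / (δ ^ 2 * ρ)⌉₊ := ⟨_, rfl⟩
  have hK1 : 1 ≤ K := by rw [hKdef]; exact Nat.ceil_pos.2 (by positivity)
  have hK0 : (0 : ℝ) < K := by exact_mod_cast hK1
  have hKr : 2 / (δ ^ 2 * ρ) ≤ K := by rw [hKdef]; exact Nat.le_ceil _
  have hKρ : 1 / (K * δ ^ 2) ≤ ρ / 2 := by
    rw [div_le_iff₀ (by positivity)] at hKr
    rw [div_le_div_iff₀ (by positivity) (by norm_num)]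
    nlinarith
  obtain ⟨Y0, hY0⟩ := PCC q hq (ε / (9 * K)) (by positivity)
  obtain ⟨Y1, hY1⟩ := CLS q hq (ε / (9 * K)) (by positivity)
  refine ⟨max (max ⌈Y0⌉₊ ⌈Y1⌉₊) (max 2 K), ?_⟩
  intro N hN z w z' w' hzw hzw'
  have hN1 : ⌈Y0⌉₊ ≤ N := (le_max_left _ _).trans ((le_max_left _ _).trans hN)
  have hN2 : ⌈Y1⌉₊ ≤ N := (le_max_right _ _).trans ((le_max_left _ _).trans hN)
  have hN3 : 2 ≤ N := (le_max_left _ _).trans ((le_max_right _ _).trans hN)
  have hN4 : K ≤ N := (le_max_right _ _).trans ((le_max_right _ _).trans hN)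
  have hN1' : Y0 ≤ N := (Nat.le_ceil _).trans (by exact_mod_cast hN1)
  have hN2' : Y1 ≤ N := (Nat.le_ceil _).trans (by exact_mod_cast hN2)
  have hN3' : (2 : ℝ) ≤ N := by exact_mod_cast hN3
  have hN4' : (K : ℝ) ≤ N := by exact_mod_cast hN4
  have hN0 : (0 : ℝ) < N := by linarith
  have hNρ : 1 / (δ * (N : ℝ)) ^ 2 ≤ ρ / 2 := by
    refine le_trans ?_ hKρ
    apply one_div_le_one_div_of_le (by positivity)
    rw [mul_pow, mul_comm (K : ℝ)]
    apply mul_le_mul_of_nonneg_left _ (by positivity)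
    nlinarith
  -- facts for the cells
  have hP : ∀ z w : GaussianInt, (q : ℤ) ∣ crossG z w - 1 → ∀ a b : ℝ, 0 ≤ a → a ≤ b → b ≤ N →
      ∀ α β : ℝ, α ≤ β → β ≤ α + 1 →
      |((eq1W q z w a b α β).card : ℝ) - (β - α) * (eq1C q z a b).card| ≤
        ε / (9 * K) * N := fun z w h a b h1 h2 h3 α β h4 h5 =>
    hY0 N hN1' z w h a b h1 h2 h3 α β h4 h5
  have hCl : ∀ a b : ℝ, 0 ≤ a → a ≤ b → b ≤ N →
      |((eq1C q z a b).card : ℝ) - (eq1C q z' a b).card| ≤ ε / (9 * K) * N :=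
    fun a b h1 h2 h3 => hY1 N hN2' z w z' w' hzw hzw' a b h1 h2 h3
  -- the points of division
  have hcell : ∀ j : ℕ, j ≤ K →
      |((eq1S q N z w 0 (N * (δ + (1 - δ) * (j / K)))).card : ℝ) -
        (eq1S q N z' w' 0 (N * (δ + (1 - δ) * (j / K)))).card| ≤
        C * δ * N + 3 * (ε / (9 * K) * N) * j +
          2 * ρ * (ann 0 (N * (δ + (1 - δ) * (j / K)))).card := by
    intro j
    induction j with
    | zero =>
      intro _
      have e0 : (N : ℝ) * (δ + (1 - δ) * ((0 : ℕ) / K)) = δ * N := by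
        push_cast; ring
      rw [e0]
      have hδN : 0 ≤ δ * (N : ℝ) := by positivity
      have h1 := eq1S_le_ann (q := q) hN3 z w (a := 0) hδN
      have h2 := eq1S_le_ann (q := q) hN3 z' w' (a := 0) hδN
      have h3 := hann (δ * N) hδN
      have h4 : (0 : ℝ) ≤ (eq1S q N z w 0 (δ * N)).card := Nat.cast_nonneg _
      have h5 : (0 : ℝ) ≤ (eq1S q N z' w' 0 (δ * N)).card := Nat.cast_nonneg _
      have h6 : (0 : ℝ) ≤ 2 * ρ * (ann 0 (δ * N)).card := by positivity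
      rw [Nat.cast_zero, mul_zero, add_zero, abs_le]
      constructor <;> linarith
    | succ j ih =>
      intro hj
      have ih' := ih (by omega)
      have hjK : ((j : ℝ) + 1) / K ≤ 1 := by
        rw [div_le_one hK0]
        exact_mod_cast hj
      have hj0 : (0 : ℝ) ≤ j / K := by positivity
      set a : ℝ := N * (δ + (1 - δ) * (j / K)) with ha
      set b : ℝ := N * (δ + (1 - δ) * ((j + 1 : ℕ) / K)) with hb
      have hba : b - a = (1 - δ) * (N / K) := by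
        rw [ha, hb]
        push_cast
        field_simp
        ring
      have hδa : δ * N ≤ a := by
        rw [ha, mul_comm δ]
        apply mul_le_mul_of_nonneg_left _ hN0.le
        have : 0 ≤ (1 - δ) * ((j : ℝ) / K) := mul_nonneg (by linarith) hj0
        linarith
      have ha0 : 0 < a := lt_of_lt_of_le (by positivity) hδa
      have hNK : 0 ≤ (N : ℝ) / K := by positivity
      have hab : a ≤ b := by
        have : 0 ≤ (1 - δ) * ((N : ℝ) / K) := mul_nonneg (by linarith) hNK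
        linarith
      have hbN : b ≤ N := by
        rw [hb]
        push_cast
        have h1 : (1 - δ) * (((j : ℝ) + 1) / K) ≤ (1 - δ) * 1 :=
          mul_le_mul_of_nonneg_left hjK (by linarith)
        have h2 : δ + (1 - δ) * (((j : ℝ) + 1) / K) ≤ 1 := by linarith
        calc (N : ℝ) * (δ + (1 - δ) * (((j : ℝ) + 1) / K)) ≤ N * 1 :=
              mul_le_mul_of_nonneg_left h2 hN0.le
          _ = N := mul_one _
      have hba' : b - a ≤ N / K := by
        rw [hba]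
        calc (1 - δ) * ((N : ℝ) / K) ≤ 1 * (N / K) :=
              mul_le_mul_of_nonneg_right (by linarith) hNK
          _ = N / K := one_mul _
      have hrho := eq1_rho hδ0 hN0 hK0 hδa hab hbN hba' hKρ hNρ
      have hc := eq1_cell hq2 hN3 z w z' w' ha0 hab hbN (by positivity) hρ1 hrho
        (hP z w hzw a b ha0.le hab hbN) (hP z' w' hzw' a b ha0.le hab hbN)
        (hCl a b ha0.le hab hbN)
      have s1 := eq1S_split q N z w ha0.le hab
      have s2 := eq1S_split q N z' w' ha0.le hab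
      have s3 := eq1_ann_split le_rfl ha0.le hab
      rw [s1, s2, s3]
      push_cast
      rw [abs_le] at ih' hc ⊢
      obtain ⟨i1, i2⟩ := ih'
      obtain ⟨c1, c2⟩ := hc
      constructor <;> linarith
  have hfin := hcell K le_rfl
  have eK : (N : ℝ) * (δ + (1 - δ) * (K / K)) = N := by
    rw [div_self hK0.ne']; ring
  rw [eK] at hfin
  have hset : ∀ z w : GaussianInt, (CP N).filter (fun p : GaussianInt × GaussianInt =>
      (q : GaussianInt) ∣ p.1 - z ∧ (q : GaussianInt) ∣ p.2 - w) = eq1S q N z w 0 N := by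
    intro z w
    ext ⟨u, v⟩
    rw [mem_eq1S, Finset.mem_filter]
    constructor
    · rintro ⟨h1, h2⟩
      obtain ⟨hc, hu⟩ := eq1_cp h1
      refine ⟨h1, h2, ?_, by exact_mod_cast hu⟩
      exact_mod_cast nN_pos (prim_ne_zero (prim_of_cross hc))
    · rintro ⟨h1, h2, _, _⟩
      exact ⟨h1, h2⟩
  rw [hset, hset]
  refine hfin.trans ?_
  have h1 := hann N hN0.le
  have h2 : 2 * ρ * ((ann 0 N).card : ℝ) ≤ ε / 3 * N := by
    calc 2 * ρ * ((ann 0 N).card : ℝ) ≤ 2 * ρ * (C * N) :=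
          mul_le_mul_of_nonneg_left h1 (by positivity)
      _ = (2 * ρ * C) * N := by ring
      _ ≤ ε / 3 * N := mul_le_mul_of_nonneg_right hρ2 hN0.le
  have h3 : C * δ * N ≤ ε / 3 * N := mul_le_mul_of_nonneg_right hδ2 hN0.le
  have h4 : 3 * (ε / (9 * K) * N) * K = ε / 3 * N := by
    field_simp
    norm_num
  rw [h4]
  linarith

end Pool.Agent.LogCh
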