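import Pool.Agent.Lib.LogCh.APi
import Pool.Agent.Lib.LogCh.AOm
import Pool.Agent.Lib.LogCh.DEQ1

/-!
# Group A, module AUnif: near uniformity of the residues

`Q = Π_{q ∈ I} q`. For a family `y` let `P(y)` be the left sum. For each `y` choose by the Chinese remainder
theorem (`Nat.chineseRemainderOfFinset` or `Ideal`-free: `ZMod` CRT on the entries) integers giving
Gaussian integers `z_y, w_y` with `ym`-entries congruent to the entries of `y q` modulo each `q ∈ I`; then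
`q ∣ crossG z_y w_y - 1` for all `q ∈ I`, so `Q ∣ ..` (pairwise coprime primes,
`Finset.prod_dvd_of_coprime`). For `(N, z)` with `w = sg N z`: `YO q = y q` for all `q ∈ I` iff
`Q ∣ z - z_y`, `Q ∣ w - w_y` (as Gaussian integers, coordinatewise; `md q = q`). So
`P(y) = (1/zx) Σ_N (1/N^2) n_N(y)`, `n_N(y) = #{p ∈ CP N : Q ∣ p.1 - z_y, Q ∣ p.2 - w_y}` (`sum_mu`, `sum_CP`).
By `EQ1` with `q := Q` and `ε'`: `|n_N(y) - n_N(y')| ≤ ε' N` for `N ≥ N0`, and `≤ card (VV N) ≤ C N` always.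
Hence `P(y) ≤ P(y') + (ε' (1 + log X) + C (1 + log N0))/zx ≤ P(y') + ε'/c + C'/(1 + log X)`; sum over
all `y' ∈ Π_{q ∈ I} YY q` (they differ only on `I`: use `Finset.pi` or functions on the subtype; the
events are disjoint and cover, so `Σ_{y'} P(y') = 1`, and their number is `K = Π card (YY q)`):
`K P(y) ≤ 1 + K (ε'/c + C'/(1 + log X)) ≤ 1 + ϑ` for `ε' = c ϑ/(2K)` and `X` large.
-/

set_option autoImplicit false

namespace Pool.Agent.LogCh

open Real
open Pool.Agent.NSqP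
open Pool.Agent.MP484c84Par (ballG mem_ballG crossG dotG)

/-- Chinese remainder theorem for a family of residues -/
private lemma crt (I : Finset ℕ) (hI : ∀ q ∈ I, q.Prime) (v : ∀ q : {q // q ∈ I}, ZMod (md q)) :
    ∃ x : ℤ, ∀ q : {q // q ∈ I}, (x : ZMod (md q)) = v q := by
  classical
  obtain ⟨k, hk⟩ := Nat.chineseRemainderOfFinset
    (fun q : ℕ => if h : q ∈ I then (v ⟨q, h⟩).val else 0) md I
    (fun q hq => by rw [md_eq (hI q hq).ne_zero]; exact (hI q hq).ne_zero)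
    (by
      intro q hq q' hq' hne
      rw [Function.onFun, md_eq (hI q hq).ne_zero, md_eq (hI q' hq').ne_zero]
      exact (Nat.coprime_primes (hI q hq) (hI q' hq')).2 hne)
  refine ⟨k, fun q => ?_⟩
  have h1 := hk q.1 q.2
  rw [dif_pos q.2] at h1
  have h2 := (ZMod.natCast_eq_natCast_iff _ _ _).2 h1
  rw [Int.cast_natCast, h2, ZMod.natCast_val, ZMod.cast_id]

private lemma prod_dvd_iff (I : Finset ℕ) (hI : ∀ q ∈ I, q.Prime) (a : ℤ) :
    ((∏ q ∈ I, q : ℕ) : ℤ) ∣ a ↔ ∀ q : {q // q ∈ I}, ((md q : ℕ) : ℤ) ∣ a := by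
  constructor
  · intro h q
    rw [md_eq (hI q q.2).ne_zero]
    refine dvd_trans ?_ h
    exact_mod_cast Finset.dvd_prod_of_mem (fun q => q) q.2
  · intro h
    push_cast
    refine Finset.prod_dvd_of_coprime ?_ ?_
    · intro q hq q' hq' hne
      rw [Function.onFun, Nat.isCoprime_iff_coprime]
      exact (Nat.coprime_primes (hI q hq) (hI q' hq')).2 hne
    · intro q hq
      have h1 := h ⟨q, hq⟩
      rw [md_eq (hI q hq).ne_zero] at h1
      exact h1

private lemma ym_eq_iff {q : ℕ} {z w : GaussianInt} (h : crossG z w = 1) (y : YY q) :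
    ym q z w = y ↔ (z.re : ZMod (md q)) = y.1 0 0 ∧ (w.re : ZMod (md q)) = y.1 0 1 ∧
      (z.im : ZMod (md q)) = y.1 1 0 ∧ (w.im : ZMod (md q)) = y.1 1 1 := by
  have h0 : (ym q z w).1 = !![(z.re : ZMod (md q)), (w.re : ZMod (md q));
      (z.im : ZMod (md q)), (w.im : ZMod (md q))] := congrArg Subtype.val (dif_pos h)
  have e00 : (ym q z w).1 0 0 = (z.re : ZMod (md q)) := congrFun (congrFun h0 0) 0
  have e01 : (ym q z w).1 0 1 = (w.re : ZMod (md q)) := congrFun (congrFun h0 0) 1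
  have e10 : (ym q z w).1 1 0 = (z.im : ZMod (md q)) := congrFun (congrFun h0 1) 0
  have e11 : (ym q z w).1 1 1 = (w.im : ZMod (md q)) := congrFun (congrFun h0 1) 1
  constructor
  · intro h1
    rw [← h1, e00, e01, e10, e11]
    exact ⟨rfl, rfl, rfl, rfl⟩
  · rintro ⟨h1, h2, h3, h4⟩
    apply Subtype.ext
    ext i j
    fin_cases i <;> fin_cases j
    · exact e00.trans h1
    · exact e01.trans h2
    · exact e10.trans h3
    · exact e11.trans h4

/-- residues by congruences modulo the product -/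
private lemma exists_rep (I : Finset ℕ) (hI : ∀ q ∈ I, q.Prime) (y : ∀ q : {q // q ∈ I}, YY q) :
    ∃ z w : GaussianInt, ((∏ q ∈ I, q : ℕ) : ℤ) ∣ crossG z w - 1 ∧ ∀ z' w' : GaussianInt,
      crossG z' w' = 1 → ((∀ q : {q // q ∈ I}, ym q z' w' = y q) ↔
        (((∏ q ∈ I, q : ℕ) : GaussianInt) ∣ z' - z ∧
          ((∏ q ∈ I, q : ℕ) : GaussianInt) ∣ w' - w)) := by
  obtain ⟨a, ha⟩ := crt I hI (fun q => (y q).1 0 0)
  obtain ⟨b, hb⟩ := crt I hI (fun q => (y q).1 0 1)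
  obtain ⟨c, hc⟩ := crt I hI (fun q => (y q).1 1 0)
  obtain ⟨d, hd⟩ := crt I hI (fun q => (y q).1 1 1)
  refine ⟨⟨a, c⟩, ⟨b, d⟩, ?_, ?_⟩
  · rw [prod_dvd_iff I hI]
    intro q
    rw [← ZMod.intCast_zmod_eq_zero_iff_dvd _ (md q)]
    have hdet := (y q).2
    rw [Matrix.det_fin_two] at hdet
    unfold crossG
    push_cast
    rw [ha q, hb q, hc q, hd q]
    linear_combination hdet
  · intro z' w' hzw
    have hQ : ∀ u : GaussianInt, ((∏ q ∈ I, q : ℕ) : GaussianInt) ∣ u ↔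
        ((∏ q ∈ I, q : ℕ) : ℤ) ∣ u.re ∧ ((∏ q ∈ I, q : ℕ) : ℤ) ∣ u.im := by
      intro u
      rw [← Zsqrtd.intCast_dvd, Int.cast_natCast]
    rw [hQ, hQ]
    have hstep : ∀ (x x0 : ℤ) (v : ∀ q : {q // q ∈ I}, ZMod (md q)),
        (∀ q : {q // q ∈ I}, (x0 : ZMod (md q)) = v q) →
        (((∏ q ∈ I, q : ℕ) : ℤ) ∣ x - x0 ↔ ∀ q : {q // q ∈ I}, (x : ZMod (md q)) = v q) := by
      intro x x0 v hv
      rw [prod_dvd_iff I hI]
      refine forall_congr' (fun q => ?_)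
      rw [← hv q, eq_comm, ZMod.intCast_eq_intCast_iff_dvd_sub]
    rw [Zsqrtd.re_sub, Zsqrtd.im_sub, Zsqrtd.re_sub, Zsqrtd.im_sub, hstep _ _ _ ha, hstep _ _ _ hb,
      hstep _ _ _ hc, hstep _ _ _ hd]
    constructor
    · intro h
      refine ⟨⟨fun q => ?_, fun q => ?_⟩, ⟨fun q => ?_, fun q => ?_⟩⟩
      · exact ((ym_eq_iff hzw _).1 (h q)).1
      · exact ((ym_eq_iff hzw _).1 (h q)).2.2.1
      · exact ((ym_eq_iff hzw _).1 (h q)).2.1
      · exact ((ym_eq_iff hzw _).1 (h q)).2.2.2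
    · rintro ⟨⟨h1, h2⟩, ⟨h3, h4⟩⟩ q
      exact (ym_eq_iff hzw _).2 ⟨h1 q, h3 q, h2 q, h4 q⟩

/-- number of consecutive pairs with given residues -/
private noncomputable def nN' (I : Finset ℕ) (N : ℕ) (y : ∀ q : {q // q ∈ I}, YY q) : ℝ :=
  open Classical in
  (((CP N).filter (fun p : GaussianInt × GaussianInt =>
    ∀ q : {q // q ∈ I}, ym q p.1 p.2 = y q)).card : ℝ)

private lemma cross_CP {N : ℕ} {p : GaussianInt × GaussianInt} (hp : p ∈ CP N) :
    crossG p.1 p.2 = 1 := by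
  unfold CP at hp
  rw [Finset.mem_filter] at hp
  exact hp.2.1

private lemma sum_nN' (I : Finset ℕ) (N : ℕ) :
    ∑ y : (∀ q : {q // q ∈ I}, YY q), nN' I N y = ((CP N).card : ℝ) := by
  classical
  unfold nN'
  rw [Finset.card_eq_sum_card_fiberwise (s := CP N)
    (f := fun p => (fun q : {q // q ∈ I} => ym q p.1 p.2))
    (t := (Finset.univ : Finset (∀ q : {q // q ∈ I}, YY q))) (fun p _ => by simp)]
  push_cast
  refine Finset.sum_congr rfl (fun y _ => ?_)
  congr 1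
  refine Finset.card_bij (fun p _ => p) ?_ (fun _ _ _ _ h => h) ?_
  · intro p hp
    rw [Finset.mem_filter] at hp ⊢
    exact ⟨hp.1, funext hp.2⟩
  · intro p hp
    rw [Finset.mem_filter] at hp
    refine ⟨p, ?_, rfl⟩
    rw [Finset.mem_filter]
    exact ⟨hp.1, fun q => congrFun hp.2 q⟩

private lemma nN'_le (I : Finset ℕ) (N : ℕ) (y : ∀ q : {q // q ∈ I}, YY q) :
    nN' I N y ≤ ((CP N).card : ℝ) := by
  classical
  unfold nN'
  exact_mod_cast Finset.card_filter_le _ _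

private lemma nN'_nonneg (I : Finset ℕ) (N : ℕ) (y : ∀ q : {q // q ∈ I}, YY q) :
    0 ≤ nN' I N y := by
  unfold nN'
  positivity

private lemma card_CP (N : ℕ) : ((CP N).card : ℝ) = ((VV N).card : ℝ) := by
  have h := sum_CP N (fun _ => (1 : ℝ))
  simpa using h

private lemma nN'_close (I : Finset ℕ) (hI : ∀ q ∈ I, q.Prime) (ε : ℝ) (hε : 0 < ε) :
    ∃ N0 : ℕ, ∀ N : ℕ, N0 ≤ N → ∀ y y' : (∀ q : {q // q ∈ I}, YY q),
      nN' I N y ≤ nN' I N y' + ε * N := by
  classical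
  have hQ : 1 ≤ ∏ q ∈ I, q := Finset.prod_pos (fun q hq => (hI q hq).pos)
  obtain ⟨N0, hN0⟩ := EQ1' (∏ q ∈ I, q) hQ ε hε
  refine ⟨N0, fun N hN y y' => ?_⟩
  obtain ⟨z, w, hzw, h1⟩ := exists_rep I hI y
  obtain ⟨z', w', hzw', h1'⟩ := exists_rep I hI y'
  have h2 := hN0 N hN z w z' w' hzw hzw'
  have e : ∀ (y : ∀ q : {q // q ∈ I}, YY q) (z w : GaussianInt), (∀ z' w' : GaussianInt,
      crossG z' w' = 1 → ((∀ q : {q // q ∈ I}, ym q z' w' = y q) ↔
        (((∏ q ∈ I, q : ℕ) : GaussianInt) ∣ z' - z ∧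
          ((∏ q ∈ I, q : ℕ) : GaussianInt) ∣ w' - w))) → nN' I N y =
      (((CP N).filter (fun p : GaussianInt × GaussianInt =>
        ((∏ q ∈ I, q : ℕ) : GaussianInt) ∣ p.1 - z ∧
          ((∏ q ∈ I, q : ℕ) : GaussianInt) ∣ p.2 - w)).card : ℝ) := by
    intro y z w h
    unfold nN'
    congr 1
    refine Finset.card_bij (fun p _ => p) ?_ (fun _ _ _ _ h => h) ?_
    · intro p hp
      rw [Finset.mem_filter] at hp ⊢
      exact ⟨hp.1, (h p.1 p.2 (cross_CP hp.1)).1 hp.2⟩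
    · intro p hp
      rw [Finset.mem_filter] at hp
      refine ⟨p, ?_, rfl⟩
      rw [Finset.mem_filter]
      exact ⟨hp.1, (h p.1 p.2 (cross_CP hp.1)).2 hp.2⟩
  rw [e y z w h1, e y' z' w' h1']
  have h3 := (abs_le.1 h2).2
  linarith

/-- the average over all residues -/
private lemma avg (I : Finset ℕ) (hI : ∀ q ∈ I, q.Prime) (ε : ℝ) (hε : 0 < ε) :
    ∃ N0 : ℕ, ∀ N : ℕ, N0 ≤ N → ∀ y : (∀ q : {q // q ∈ I}, YY q),
      (∏ q ∈ I, (Fintype.card (YY q) : ℝ)) * nN' I N y ≤ ((VV N).card : ℝ) +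
        (∏ q ∈ I, (Fintype.card (YY q) : ℝ)) * (ε * N) := by
  classical
  obtain ⟨N0, hN0⟩ := nN'_close I hI ε hε
  refine ⟨N0, fun N hN y => ?_⟩
  have hK : (∏ q ∈ I, (Fintype.card (YY q) : ℝ)) =
      (Fintype.card (∀ q : {q // q ∈ I}, YY q) : ℝ) := by
    rw [Fintype.card_pi]
    push_cast
    exact (Finset.prod_coe_sort I (fun q => (Fintype.card (YY q) : ℝ))).symm
  have h1 : (Fintype.card (∀ q : {q // q ∈ I}, YY q) : ℝ) * nN' I N y ≤
      ∑ y' : (∀ q : {q // q ∈ I}, YY q), (nN' I N y' + ε * N) := by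
    rw [← Finset.card_univ, ← nsmul_eq_mul, ← Finset.sum_const]
    exact Finset.sum_le_sum (fun y' _ => hN0 N hN y y')
  rw [Finset.sum_add_distrib, sum_nN', Finset.sum_const, Finset.card_univ, nsmul_eq_mul,
    card_CP] at h1
  rw [hK]
  exact h1

theorem UNIF (I : Finset ℕ) (hI : ∀ q ∈ I, q.Prime) (ϑ : ℝ) (hϑ : 0 < ϑ) : ∃ X0 : ℕ,
    ∀ X : ℕ, X0 ≤ X → ∀ y : (∀ q, YY q),
      (∑ ω : Om X, if ∀ q ∈ I, YO q ω = y q then mu X ω else 0) *
        ∏ q ∈ I, (Fintype.card (YY q) : ℝ) ≤ 1 + ϑ := by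
  classical
  set K : ℝ := ∏ q ∈ I, (Fintype.card (YY q) : ℝ) with hK
  have hK1 : 1 ≤ K := by
    rw [hK]
    have h : 0 < ∏ q ∈ I, Fintype.card (YY q) := Finset.prod_pos fun q _ => Fintype.card_pos
    exact_mod_cast h
  have hK0 : 0 < K := by linarith
  obtain ⟨c, hc, hzx⟩ := zx_lower
  obtain ⟨C, hC, hVV⟩ := card_VV_upper
  obtain ⟨N0, hN0⟩ := avg I hI (c * ϑ / (2 * K)) (by positivity)
  -- the bound for every `N`
  have hall : ∀ N : ℕ, 1 ≤ N → ∀ y : (∀ q : {q // q ∈ I}, YY q),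
      K * nN' I N y ≤ ((VV N).card : ℝ) + c * ϑ / 2 * N + (if N < N0 then K * (C * N) else 0) := by
    intro N hN y
    split_ifs with h
    · have h1 := nN'_le I N y
      rw [card_CP] at h1
      have h2 : K * nN' I N y ≤ K * (C * N) :=
        mul_le_mul_of_nonneg_left (h1.trans (hVV N)) hK0.le
      have h3 : 0 ≤ ((VV N).card : ℝ) := Nat.cast_nonneg _
      have h4 : 0 ≤ c * ϑ / 2 * N := by positivity
      linarith
    · have h1 := hN0 N (not_lt.1 h) y
      rw [← hK] at h1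
      have h2 : K * (c * ϑ / (2 * K) * N) = c * ϑ / 2 * N := by field_simp
      rw [h2] at h1
      linarith
  -- large `X`
  have hlim : ∃ X0 : ℕ, ∀ X : ℕ, X0 ≤ X → 2 * K * C * N0 / (c * ϑ) ≤ 1 + log X := by
    have h1 : Filter.Tendsto (fun X : ℕ => 1 + log (X : ℝ)) Filter.atTop Filter.atTop :=
      Filter.tendsto_atTop_add_const_left _ _
        (Real.tendsto_log_atTop.comp tendsto_natCast_atTop_atTop)
    exact Filter.eventually_atTop.1 (h1.eventually_ge_atTop _)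
  obtain ⟨X0, hX0⟩ := hlim
  refine ⟨max 1 X0, fun X hX y => ?_⟩
  have hX1 : 1 ≤ X := (le_max_left _ _).trans hX
  have hX2 := hX0 X ((le_max_right _ _).trans hX)
  have hz := hzx X hX1
  have hlog : 0 ≤ log (X : ℝ) := Real.log_nonneg (by exact_mod_cast hX1)
  have hz0 : 0 < zx X := lt_of_lt_of_le (by positivity) hz
  set y' : ∀ q : {q // q ∈ I}, YY q := fun q => y q with hy'
  have hP : (∑ ω : Om X, if ∀ q ∈ I, YO q ω = y q then mu X ω else 0) =
      (∑ N ∈ Finset.Icc 1 X, nN' I N y' / (N : ℝ) ^ 2) / zx X := by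
    have h1 := sum_mu X (fun N z => if ∀ q ∈ I, ym q z (sg N z) = y q then (1 : ℝ) else 0)
    have h2 : (∑ ω : Om X, if ∀ q ∈ I, YO q ω = y q then mu X ω else 0) =
        ∑ ω : Om X, mu X ω *
          (if ∀ q ∈ I, ym q (pO ω) (sg (nO ω) (pO ω)) = y q then (1 : ℝ) else 0) := by
      refine Finset.sum_congr rfl (fun ω _ => ?_)
      unfold YO
      split_ifs <;> simp
    rw [h2, h1]
    congr 1
    refine Finset.sum_congr rfl (fun N _ => ?_)
    congr 1
    have h3 := sum_CP N (fun p => if ∀ q ∈ I, ym q p.1 p.2 = y q then (1 : ℝ) else 0)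
    rw [← h3, Finset.sum_boole]
    unfold nN'
    congr 1
    refine Finset.card_bij (fun p _ => p) ?_ (fun _ _ _ _ h => h) ?_
    · intro p hp
      rw [Finset.mem_filter] at hp ⊢
      exact ⟨hp.1, fun q => hp.2 q q.2⟩
    · intro p hp
      rw [Finset.mem_filter] at hp
      refine ⟨p, ?_, rfl⟩
      rw [Finset.mem_filter]
      exact ⟨hp.1, fun q hq => hp.2 ⟨q, hq⟩⟩
  rw [hP, div_mul_eq_mul_div, div_le_iff₀ hz0, Finset.sum_mul]
  -- sum the bounds
  have h1 : ∑ N ∈ Finset.Icc 1 X, nN' I N y' / (N : ℝ) ^ 2 * K ≤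
      ∑ N ∈ Finset.Icc 1 X, (((VV N).card : ℝ) / (N : ℝ) ^ 2 + c * ϑ / 2 * (1 / (N : ℝ)) +
        (if N < N0 then K * C else 0)) := by
    refine Finset.sum_le_sum (fun N hN => ?_)
    rw [Finset.mem_Icc] at hN
    have hNpos : (0 : ℝ) < N := by exact_mod_cast hN.1
    have hN1 : (1 : ℝ) ≤ N := by exact_mod_cast hN.1
    have h2 := hall N hN.1 y'
    rw [div_mul_eq_mul_div, div_le_iff₀ (by positivity)]
    have h3 : (((VV N).card : ℝ) / (N : ℝ) ^ 2 + c * ϑ / 2 * (1 / (N : ℝ)) +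
        (if N < N0 then K * C else 0)) * (N : ℝ) ^ 2 = ((VV N).card : ℝ) + c * ϑ / 2 * N +
        (if N < N0 then K * C else 0) * (N : ℝ) ^ 2 := by
      field_simp
    rw [h3, mul_comm]
    refine h2.trans ?_
    have h4 : (if N < N0 then K * (C * N) else 0) ≤ (if N < N0 then K * C else 0) * (N : ℝ) ^ 2 := by
      split_ifs
      · have : (N : ℝ) ≤ (N : ℝ) ^ 2 := by nlinarith
        calc K * (C * N) = K * C * N := by ring
          _ ≤ K * C * (N : ℝ) ^ 2 := by gcongr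
      · simp
    linarith
  have h2 : ∑ N ∈ Finset.Icc 1 X, (((VV N).card : ℝ) / (N : ℝ) ^ 2 + c * ϑ / 2 * (1 / (N : ℝ)) +
        (if N < N0 then K * C else 0)) ≤ zx X + c * ϑ / 2 * (1 + log X) + K * C * N0 := by
    rw [Finset.sum_add_distrib, Finset.sum_add_distrib, ← Finset.mul_sum]
    have h3 := harm_upper X hX1
    have h4 : ∑ N ∈ Finset.Icc 1 X, (if N < N0 then K * C else 0) ≤ K * C * N0 := by
      rw [← Finset.sum_filter, Finset.sum_const, nsmul_eq_mul, mul_comm]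
      refine mul_le_mul_of_nonneg_left ?_ (by positivity)
      have h5 : (Finset.Icc 1 X).filter (fun N => N < N0) ⊆ Finset.range N0 := by
        intro N hN
        rw [Finset.mem_filter] at hN
        exact Finset.mem_range.2 hN.2
      have h6 := Finset.card_le_card h5
      rw [Finset.card_range] at h6
      exact_mod_cast h6
    have h5 : c * ϑ / 2 * ∑ N ∈ Finset.Icc 1 X, 1 / (N : ℝ) ≤ c * ϑ / 2 * (1 + log X) :=
      mul_le_mul_of_nonneg_left h3 (by positivity)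
    unfold zx
    linarith
  refine (h1.trans h2).trans ?_
  have h3 : K * C * N0 ≤ c * ϑ / 2 * (1 + log X) := by
    rw [div_le_iff₀ (by positivity)] at hX2
    nlinarith
  nlinarith

end Pool.Agent.LogCh
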