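import Pool.Agent.Lib.LogCh.ANext

/-!
# Group A, module AQuad: the first `L` successors lie in the open quadrant

`card_quadrant`: `I := ⟨0, 1⟩`; for `w ∈ VV N` put `s = <z,w>`, `t = z × w`. If `t = 0` then
`w = ± z`; if `s = 0` then `crossG (I * z) w = - s = 0` (check sign), so `w = ± I z`; otherwise
exactly one of `w, -I w, -w, I w` has `s, t > 0` (multiplication by `I` sends `(s, t)` to
`(-t, s)`). So `VV N` is covered by the four images of the quadrant set `Q` under the units and by
4 points.

`quad`: suppose `4 * L + 4 < card (VV N)`, so `Q` has more than `L` elements. Let `1 ≤ k ≤ L`. The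
elements `z_1, .., z_k` are at most `L`, so there is `v ∈ Q` different from all of them; now
`between` with `u = z`, `J = k` gives `crossG z z_k > 0` and `dotG z z_k > 0`.

`quad_inj`: if `sgi N i z = sgi N j z`, `i < j`, `j - i ≤ L`, then with `z' = sgi N i z`,
`sgi N (j-i) z' = z'`, but `crossG z' (sgi N (j-i) z') > 0`, contradiction with `cross_self`.
-/

set_option autoImplicit false

namespace Pool.Agent.LogCh

open Real
open Pool.Agent.NSqP
open Pool.Agent.MP484c84Par (ballG mem_ballG crossG dotG)

private def aqI : GaussianInt := ⟨0, 1⟩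

private lemma aq_re (w : GaussianInt) : (aqI * w).re = - w.im := by
  simp [aqI]

private lemma aq_im (w : GaussianInt) : (aqI * w).im = w.re := by
  simp [aqI]

private lemma aq_cross (z w : GaussianInt) : crossG z (aqI * w) = dotG z w := by
  unfold crossG dotG
  rw [aq_re, aq_im]
  ring

private lemma aq_dot (z w : GaussianInt) : dotG z (aqI * w) = - crossG z w := by
  unfold crossG dotG
  rw [aq_re, aq_im]
  ring

private lemma aq_cross_neg (z w : GaussianInt) : crossG z (-w) = - crossG z w := by
  unfold crossG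
  simp only [Zsqrtd.re_neg, Zsqrtd.im_neg]
  ring

private lemma aq_dot_neg (z w : GaussianInt) : dotG z (-w) = - dotG z w := by
  unfold dotG
  simp only [Zsqrtd.re_neg, Zsqrtd.im_neg]
  ring

private lemma aq_II (w : GaussianInt) : aqI * (aqI * w) = -w := by
  apply Zsqrtd.ext
  · rw [aq_re, aq_im, Zsqrtd.re_neg]
  · rw [aq_im, aq_re, Zsqrtd.im_neg]

private lemma aq_mem_neg {N : ℕ} {w : GaussianInt} (h : w ∈ VV N) : -w ∈ VV N := by
  rw [mem_VV] at h ⊢
  obtain ⟨h1, h2⟩ := h
  constructor
  · have : nN (-w) = nN w := by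
      unfold nN
      simp [Zsqrtd.norm_def]
    rw [this]
    exact h1
  · unfold Prim cont at h2 ⊢
    simpa using h2

private lemma aq_mem_I {N : ℕ} {w : GaussianInt} (h : w ∈ VV N) : aqI * w ∈ VV N := by
  rw [mem_VV] at h ⊢
  obtain ⟨h1, h2⟩ := h
  constructor
  · have : nN (aqI * w) = nN w := by
      rw [nN_mul]
      have : nN aqI = 1 := by
        unfold nN aqI
        simp [Zsqrtd.norm_def]
      rw [this, one_mul]
    rw [this]
    exact h1
  · unfold Prim cont at h2 ⊢
    rw [aq_re, aq_im, Int.gcd_comm]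
    simpa using h2

theorem card_quadrant {N : ℕ} {z : GaussianInt} (hz : z ∈ VV N) :
    (VV N).card ≤ 4 * ((VV N).filter (fun w => 0 < crossG z w ∧ 0 < dotG z w)).card + 4 := by
  classical
  set Q : Finset GaussianInt := (VV N).filter (fun w => 0 < crossG z w ∧ 0 < dotG z w) with hQ
  have hsub : VV N ⊆ (Q ∪ Q.image (fun w => aqI * w)) ∪
      ((Q.image fun w => -w) ∪ (Q.image fun w => -(aqI * w))) ∪
      {z, -z, aqI * z, -(aqI * z)} := by
    intro w hw
    have hpz := (mem_VV.1 hz).2
    have hpw := (mem_VV.1 hw).2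
    simp only [Finset.mem_union, Finset.mem_image, Finset.mem_insert, Finset.mem_singleton]
    have hII : aqI * -(aqI * w) = w := by
      rw [mul_neg, aq_II, neg_neg]
    rcases lt_trichotomy (crossG z w) 0 with hc | hc | hc
    · rcases lt_trichotomy (dotG z w) 0 with hd | hd | hd
      · -- `-w`
        refine Or.inl (Or.inr (Or.inl ⟨-w, ?_, neg_neg w⟩))
        rw [hQ, Finset.mem_filter, aq_cross_neg, aq_dot_neg]
        exact ⟨aq_mem_neg hw, by linarith, by linarith⟩
      · -- `w = ± I z`
        have h1 : crossG z (aqI * w) = 0 := by rw [aq_cross, hd]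
        have h2 := par_prim hpz (mem_VV.1 (aq_mem_I hw)).2 h1
        rcases h2 with h2 | h2
        · right; right; right; right
          rw [← h2, aq_II, neg_neg]
        · right; right; right; left
          have h3 : z = -(aqI * w) := by rw [h2, neg_neg]
          rw [h3, hII]
      · -- `I w`
        refine Or.inl (Or.inr (Or.inr ⟨aqI * w, ?_, ?_⟩))
        · rw [hQ, Finset.mem_filter, aq_cross, aq_dot]
          exact ⟨aq_mem_I hw, hd, by linarith⟩
        · rw [aq_II, neg_neg]
    · rcases par_prim hpz hpw hc with h2 | h2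
      · right; left; exact h2
      · right; right; left; exact h2
    · rcases lt_trichotomy (dotG z w) 0 with hd | hd | hd
      · -- `- I w`
        refine Or.inl (Or.inl (Or.inr ⟨-(aqI * w), ?_, hII⟩))
        rw [hQ, Finset.mem_filter, aq_cross_neg, aq_dot_neg, aq_cross, aq_dot]
        exact ⟨aq_mem_neg (aq_mem_I hw), by linarith, by linarith⟩
      · have h1 : crossG z (aqI * w) = 0 := by rw [aq_cross, hd]
        have h2 := par_prim hpz (mem_VV.1 (aq_mem_I hw)).2 h1
        rcases h2 with h2 | h2
        · right; right; right; right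
          rw [← h2, aq_II, neg_neg]
        · right; right; right; left
          have h3 : z = -(aqI * w) := by rw [h2, neg_neg]
          rw [h3, hII]
      · refine Or.inl (Or.inl (Or.inl ?_))
        rw [hQ, Finset.mem_filter]
        exact ⟨hw, hc, hd⟩
  refine (Finset.card_le_card hsub).trans ?_
  have h1 := Finset.card_union_le ((Q ∪ Q.image (fun w => aqI * w)) ∪
      ((Q.image fun w => -w) ∪ (Q.image fun w => -(aqI * w)))) {z, -z, aqI * z, -(aqI * z)}
  have h2 := Finset.card_union_le (Q ∪ Q.image (fun w => aqI * w))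
      ((Q.image fun w => -w) ∪ (Q.image fun w => -(aqI * w)))
  have h3 := Finset.card_union_le Q (Q.image (fun w => aqI * w))
  have h4 := Finset.card_union_le (Q.image fun w => -w) (Q.image fun w => -(aqI * w))
  have h5 : (Q.image (fun w => aqI * w)).card ≤ Q.card := Finset.card_image_le
  have h6 : (Q.image (fun w => -w)).card ≤ Q.card := Finset.card_image_le
  have h7 : (Q.image (fun w => -(aqI * w))).card ≤ Q.card := Finset.card_image_le
  have h8 : ({z, -z, aqI * z, -(aqI * z)} : Finset GaussianInt).card ≤ 4 := Finset.card_le_four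
  omega

theorem quad {N L : ℕ} (hN : 4 * L + 4 < (VV N).card) {z : GaussianInt} (hz : z ∈ VV N) {k : ℕ}
    (hk : 1 ≤ k) (hkL : k ≤ L) : 0 < crossG z (sgi N k z) ∧ 0 < dotG z (sgi N k z) := by
  classical
  have h1 := card_quadrant hz
  set Q : Finset GaussianInt := (VV N).filter (fun w => 0 < crossG z w ∧ 0 < dotG z w) with hQ
  have h2 : L < Q.card := by omega
  have h3 : ((Finset.Icc 1 k).image (fun j => sgi N j z)).card ≤ L := by
    refine Finset.card_image_le.trans ?_
    rw [Nat.card_Icc]
    omega
  obtain ⟨v, hv, hv2⟩ := Finset.exists_mem_notMem_of_card_lt_card (lt_of_le_of_lt h3 h2)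
  rw [hQ, Finset.mem_filter] at hv
  have h4 := between hz hv.1 hv.2.1 hv.2.2 k (fun j hj1 hj2 h => hv2
    (Finset.mem_image.2 ⟨j, Finset.mem_Icc.2 ⟨hj1, hj2⟩, h⟩)) k le_rfl
  exact ⟨h4.2.2 hk, h4.2.1⟩

theorem quad' {N L : ℕ} (hN : 4 * L + 4 < (VV N).card) {z : GaussianInt} (hz : z ∈ VV N) {i j : ℕ}
    (hij : i < j) (hjL : j ≤ i + L) :
    0 < crossG (sgi N i z) (sgi N j z) ∧ 0 < dotG (sgi N i z) (sgi N j z) := by
  have h1 := quad hN (sgi_mem hz i) (k := j - i) (by omega) (by omega)
  rw [← sgi_add, show i + (j - i) = j by omega] at h1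
  exact h1

theorem quad_inj {N L : ℕ} (hN : 4 * L + 4 < (VV N).card) {z : GaussianInt} (hz : z ∈ VV N)
    {i j : ℕ} (hiL : i ≤ L) (hjL : j ≤ L) (h : sgi N i z = sgi N j z) : i = j := by
  rcases lt_trichotomy i j with h1 | h1 | h1
  · have h2 := (quad' hN hz h1 (by omega)).1
    rw [h, cross_self] at h2
    exact absurd h2 (lt_irrefl 0)
  · exact h1
  · have h2 := (quad' hN hz h1 (by omega)).1
    rw [h, cross_self] at h2
    exact absurd h2 (lt_irrefl 0)

end Pool.Agent.LogCh
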