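import Pool.Agent.Lib.LogCh.APsi
import Pool.Agent.Lib.LogCh.AQuad
import Pool.Agent.Lib.LogCh.AOm
import Pool.Agent.Lib.LogCh.ADiv

/-!
# Group A, module AWin: the windows compute the correlations

`win_pairs` (`N ≥ N0`): the map `(z, k) ↦ (z, sgi N k z)` from
`{(z, k) : z ∈ VV N, 1 ≤ k ≤ L0, crossG z (sgi N k z) = q}` to `dpairs q N` is well defined (`quad`) and
injective (`quad_inj`), and it hits every `(u, v) ∈ dpairs q N` with `nN u > a N`, `nN v > b N`: `reach` gives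
`k` with `(k - 1) <u,v> ≤ q N`, and `<u,v>^2 = nN u nN v - q^2 ≥ a b N^2 - q^2 ≥ a b N^2/4` for large `N`
(`dot_sq`), so `k - 1 ≤ 2 q/√(ab)` and `k ≤ L0`. As `F` vanishes unless both norms are large, the
sums agree.

`psi0_avg`: `Σ_ω μ psi0(ω) = (1/zx) Σ_N (1/N^2) Σ_z psi0(N, z)` (`sum_mu`), `psi0_orbit`, and by `sum_sgi`
each `j` gives the same: `Σ_z psi0 = Σ_z Σ_k [..]` (`L0 ≥ 1`). For `N ≥ N0` this is
`q pairSumPi (pq q) N - q/(q+1) pairSum q N` by `win_pairs` with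
`F p = fc p.1 fc p.2 (q [κ ∣ p.1] - q/(q+1))`; for `N < N0` all terms are bounded (number of pairs `≤ C N`,
`card (VV N) L0` respectively), giving `D`.
-/

set_option autoImplicit false

namespace Pool.Agent.LogCh

open Real
open Pool.Agent.NSqP
open Pool.Agent.MP484c84Par (ballG mem_ballG crossG dotG)

private theorem win_large (a b : ℝ) (ha : 0 < a) (hb : 0 < b) (q : ℕ) : ∃ N1 : ℕ, ∀ N : ℕ,
    N1 ≤ N → (q : ℝ) ^ 2 ≤ 3 / 4 * (a * b * (N : ℝ) ^ 2) := by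
  obtain ⟨N1, hN1⟩ := exists_nat_ge (4 / 3 * (q : ℝ) ^ 2 / (a * b) + 1)
  refine ⟨N1, fun N hN => ?_⟩
  have hab : 0 < a * b := mul_pos ha hb
  have h1 : (N1 : ℝ) ≤ N := by exact_mod_cast hN
  have h0 : 0 ≤ 4 / 3 * (q : ℝ) ^ 2 / (a * b) := by positivity
  have h2 : 4 / 3 * (q : ℝ) ^ 2 / (a * b) ≤ N := by linarith
  have h3 : (1 : ℝ) ≤ N := by linarith
  rw [div_le_iff₀ hab] at h2
  have h4 : (N : ℝ) * (a * b) ≤ (N : ℝ) ^ 2 * (a * b) := by
    refine mul_le_mul_of_nonneg_right ?_ hab.le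
    nlinarith
  nlinarith

theorem win_pairs (a b : ℝ) (ha : 0 < a) (hb : 0 < b) (q L0 : ℕ) (hq : 1 ≤ q)
    (hL : 2 * (q : ℝ) / √(a * b) + 1 ≤ L0) : ∃ N0 : ℕ, ∀ N : ℕ, N0 ≤ N →
    ∀ F : GaussianInt × GaussianInt → ℝ,
      (∀ p, ¬ (a * N < nN p.1 ∧ b * N < nN p.2) → F p = 0) →
      ∑ p ∈ dpairs q N, F p = ∑ z ∈ VV N, ∑ k ∈ Finset.Icc 1 L0,
        if crossG z (sgi N k z) = (q : ℤ) then F (z, sgi N k z) else 0 := by
  classical
  obtain ⟨N1, hN1⟩ := VV_large (4 * L0 + 4)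
  obtain ⟨N2, hN2⟩ := win_large a b ha hb q
  refine ⟨max (max N1 N2) 1, fun N hN F hF => ?_⟩
  have hNa : N1 ≤ N := (le_max_left _ _).trans ((le_max_left _ _).trans hN)
  have hNb : N2 ≤ N := (le_max_right _ _).trans ((le_max_left _ _).trans hN)
  have hNc : 1 ≤ N := (le_max_right _ _).trans hN
  have hcard := hN1 N hNa
  have hbig := hN2 N hNb
  have hN0 : (0 : ℝ) < N := by exact_mod_cast hNc
  have hab : 0 < a * b := mul_pos ha hb
  have hs : 0 < √(a * b) := Real.sqrt_pos.2 hab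
  have hs2 : √(a * b) ^ 2 = a * b := Real.sq_sqrt hab.le
  set S : Finset (GaussianInt × ℕ) := (VV N ×ˢ Finset.Icc 1 L0).filter
    (fun p => crossG p.1 (sgi N p.2 p.1) = (q : ℤ)) with hS
  have hmemS : ∀ p : GaussianInt × ℕ, p ∈ S ↔ p.1 ∈ VV N ∧ (1 ≤ p.2 ∧ p.2 ≤ L0) ∧
      crossG p.1 (sgi N p.2 p.1) = (q : ℤ) := by
    intro p
    rw [hS, Finset.mem_filter, Finset.mem_product, Finset.mem_Icc, and_assoc]
  have hR : (∑ z ∈ VV N, ∑ k ∈ Finset.Icc 1 L0,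
      if crossG z (sgi N k z) = (q : ℤ) then F (z, sgi N k z) else 0) =
      ∑ p ∈ S, F (p.1, sgi N p.2 p.1) := by
    rw [hS, Finset.sum_filter, Finset.sum_product]
  have hinj : ∀ p ∈ S, ∀ p' ∈ S, (p.1, sgi N p.2 p.1) = (p'.1, sgi N p'.2 p'.1) → p = p' := by
    intro p hp p' hp' h
    rw [Prod.mk.injEq] at h
    obtain ⟨h1, h2⟩ := h
    rw [hmemS] at hp hp'
    rw [← h1] at h2
    exact Prod.ext h1 (quad_inj hcard hp.1 hp.2.1.2 hp'.2.1.2 h2)
  rw [hR, ← Finset.sum_image (f := F) (g := fun p : GaussianInt × ℕ => (p.1, sgi N p.2 p.1))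
    (s := S) (fun p hp p' hp' h => hinj p hp p' hp' h)]
  symm
  refine Finset.sum_subset ?_ ?_
  · intro p hp
    obtain ⟨x, hx, rfl⟩ := Finset.mem_image.1 hp
    rw [hmemS] at hx
    have h1 := mem_VV.1 hx.1
    have h2 := mem_VV.1 (sgi_mem hx.1 x.2)
    exact mem_dpairs.2 ⟨h1, h2, hx.2.2, (quad hcard hx.1 hx.2.1.1 hx.2.1.2).2⟩
  · intro p hp hpS
    by_contra hne
    apply hpS
    have hlarge : a * N < nN p.1 ∧ b * N < nN p.2 := by
      by_contra hcon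
      exact hne (hF p hcon)
    obtain ⟨hu, hv, hc, hd⟩ := mem_dpairs.1 hp
    have hqZ : (0 : ℤ) < (q : ℤ) := by exact_mod_cast hq
    obtain ⟨k, hk1, hkv, hkb⟩ := reach (mem_VV.2 hu) (mem_VV.2 hv) (by rw [hc]; exact hqZ) hd
    rw [hc] at hkb
    have hsq : (dotG p.1 p.2 : ℝ) ^ 2 + (q : ℝ) ^ 2 = (nN p.1 : ℝ) * (nN p.2 : ℝ) := by
      have h1 := dot_sq p.1 p.2
      rw [hc] at h1
      exact_mod_cast h1
    have hd0 : (0 : ℝ) < (dotG p.1 p.2 : ℝ) := by exact_mod_cast hd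
    have hprod : a * b * (N : ℝ) ^ 2 ≤ (nN p.1 : ℝ) * (nN p.2 : ℝ) := by
      have h1 := mul_le_mul hlarge.1.le hlarge.2.le (by positivity) (Nat.cast_nonneg _)
      refine le_trans (le_of_eq ?_) h1
      ring
    have hlow : (√(a * b) * N / 2) ^ 2 ≤ (dotG p.1 p.2 : ℝ) ^ 2 := by
      have h1 : (√(a * b) * N / 2) ^ 2 = a * b * (N : ℝ) ^ 2 / 4 := by
        rw [div_pow, mul_pow, hs2]; norm_num
      rw [h1]
      linarith
    have hlow' : √(a * b) * N / 2 ≤ (dotG p.1 p.2 : ℝ) :=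
      (le_abs_self _).trans (abs_le_of_sq_le_sq hlow hd0.le)
    have hkR : ((k : ℝ) - 1) * (dotG p.1 p.2 : ℝ) ≤ q * N := by exact_mod_cast hkb
    have hk0 : (0 : ℝ) ≤ (k : ℝ) - 1 := by
      have : (1 : ℝ) ≤ k := by exact_mod_cast hk1
      linarith
    have hkle : ((k : ℝ) - 1) * (√(a * b) * N / 2) ≤ q * N :=
      (mul_le_mul_of_nonneg_left hlow' hk0).trans hkR
    have hkfin : (k : ℝ) - 1 ≤ 2 * (q : ℝ) / √(a * b) := by
      rw [le_div_iff₀ hs]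
      have h1 : ((k : ℝ) - 1) * √(a * b) * N ≤ 2 * q * N := by linarith
      exact le_of_mul_le_mul_right h1 hN0
    have hkL : k ≤ L0 := by
      have : (k : ℝ) ≤ L0 := by linarith
      exact_mod_cast this
    refine Finset.mem_image.2 ⟨(p.1, k), (hmemS _).2 ⟨mem_VV.2 hu, ⟨hk1, hkL⟩, ?_⟩, ?_⟩
    · change crossG p.1 (sgi N k p.1) = (q : ℤ)
      rw [hkv, hc]
    · change (p.1, sgi N k p.1) = p
      rw [hkv]

private theorem fc_zero {a a' : ℝ} {N : ℕ} {z : GaussianInt} (h : ¬ a * N < nN z) :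
    fc a a' N z = 0 := by
  unfold fc
  rw [if_neg]
  rintro ⟨h1, _⟩
  exact h h1

theorem psi0_avg (a a' b b' : ℝ) (ha : 0 < a) (hb : 0 < b) {q : ℕ} (hq : q.Prime)
    (h4 : q % 4 = 1) (L0 : ℕ) (hL : 2 * (q : ℝ) / √(a * b) + 1 ≤ L0) : ∃ D : ℝ, 0 ≤ D ∧
    ∀ X : ℕ, 1 ≤ X →
    |zx X * (∑ ω : Om X, mu X ω * psi0 L0 q (xo a a' b b' (nO ω) (pO ω)) (YO q ω)) -
      ∑ N ∈ Finset.Icc 1 X, ((q : ℝ) * pairSumPi (pq q) a a' b b' N -
        (q : ℝ) / (q + 1) * pairSum q a a' b b' N) / (N : ℝ) ^ 2| ≤ D := by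
  classical
  obtain ⟨N0, hN0⟩ := win_pairs a b ha hb q L0 hq.one_lt.le hL
  have hab : 0 < a * b := mul_pos ha hb
  have hL0 : (0 : ℝ) < L0 := by
    have h1 : 0 ≤ 2 * (q : ℝ) / √(a * b) := by positivity
    linarith
  set A : ℕ → ℝ := fun N => ∑ z ∈ VV N, psi0 L0 q (xo a a' b b' N z) (ym q z (sg N z)) with hA
  set B : ℕ → ℝ := fun N => (q : ℝ) * pairSumPi (pq q) a a' b b' N -
        (q : ℝ) / (q + 1) * pairSum q a a' b b' N with hB
  have hAB : ∀ N, N0 ≤ N → A N = B N := by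
    intro N hN
    set H : GaussianInt → ℝ := fun w => ∑ k ∈ Finset.Icc 1 L0,
        if crossG w (sgi N k w) = (q : ℤ) then
          fc a a' N w * fc b b' N (sgi N k w) *
            ((q : ℝ) * (if pq q ∣ w then 1 else 0) - (q : ℝ) / (q + 1))
        else 0 with hH
    have h1 : A N = ∑ z ∈ VV N, (∑ j ∈ Finset.range L0, H (sgi N j z)) / L0 := by
      refine Finset.sum_congr rfl fun z hz => ?_
      exact psi0_orbit hq h4 L0 a a' b b' hz
    have h2 : A N = ∑ z ∈ VV N, H z := by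
      rw [h1, ← Finset.sum_div, Finset.sum_comm]
      rw [Finset.sum_congr rfl fun j _ => sum_sgi N j H, Finset.sum_const, Finset.card_range,
        nsmul_eq_mul]
      field_simp
    set F : GaussianInt × GaussianInt → ℝ := fun p => fc a a' N p.1 * fc b b' N p.2 *
      ((q : ℝ) * (if pq q ∣ p.1 then 1 else 0) - (q : ℝ) / (q + 1)) with hF
    have h3 := hN0 N hN F (by
      intro p hp
      rw [hF]
      change fc a a' N p.1 * fc b b' N p.2 * _ = 0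
      rw [not_and_or] at hp
      rcases hp with hp | hp
      · rw [fc_zero hp, zero_mul, zero_mul]
      · rw [fc_zero hp, mul_zero, zero_mul])
    rw [h2]
    refine h3.symm.trans ?_
    have h5 : (nN (pq q) : ℤ) = (q : ℤ) := by rw [pq_spec hq h4]
    rw [hB]
    change _ = (q : ℝ) * pairSumPi (pq q) a a' b b' N - (q : ℝ) / (q + 1) * pairSum q a a' b b' N
    unfold pairSumPi pairSum
    rw [h5, Finset.sum_filter, Finset.mul_sum, Finset.mul_sum, ← Finset.sum_sub_distrib]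
    refine Finset.sum_congr rfl fun p _ => ?_
    rw [hF]
    change fc a a' N p.1 * fc b b' N p.2 *
      ((q : ℝ) * (if pq q ∣ p.1 then 1 else 0) - (q : ℝ) / (q + 1)) = _
    split_ifs <;> ring
  refine ⟨∑ N ∈ Finset.range N0, |A N - B N| / (N : ℝ) ^ 2, ?_, fun X hX => ?_⟩
  · exact Finset.sum_nonneg fun N _ => by positivity
  have hmain : zx X * (∑ ω : Om X, mu X ω * psi0 L0 q (xo a a' b b' (nO ω) (pO ω)) (YO q ω)) =
      ∑ N ∈ Finset.Icc 1 X, A N / (N : ℝ) ^ 2 := by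
    have h1 := sum_mu X (fun N z => psi0 L0 q (xo a a' b b' N z) (ym q z (sg N z)))
    have h2 : (∑ ω : Om X, mu X ω * psi0 L0 q (xo a a' b b' (nO ω) (pO ω)) (YO q ω)) =
        (∑ N ∈ Finset.Icc 1 X, A N / (N : ℝ) ^ 2) / zx X := h1
    rw [h2, mul_div_cancel₀ _ (zx_pos hX).ne']
  rw [hmain, ← Finset.sum_sub_distrib]
  refine (Finset.abs_sum_le_sum_abs _ _).trans ?_
  have h6 : ∀ N ∈ Finset.Icc 1 X, |A N / (N : ℝ) ^ 2 - B N / (N : ℝ) ^ 2| =
      if N < N0 then |A N - B N| / (N : ℝ) ^ 2 else 0 := by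
    intro N _
    rw [← sub_div, abs_div, abs_of_nonneg (by positivity : (0 : ℝ) ≤ (N : ℝ) ^ 2)]
    split_ifs with h
    · rfl
    · rw [hAB N (not_lt.1 h), sub_self, abs_zero, zero_div]
  rw [Finset.sum_congr rfl h6, ← Finset.sum_filter]
  refine Finset.sum_le_sum_of_subset_of_nonneg ?_ fun N _ _ => by positivity
  intro N hN
  exact Finset.mem_range.2 (Finset.mem_filter.1 hN).2

end Pool.Agent.LogCh
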