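import Pool.Agent.Lib.LogCh.Defs

/-!
# Entropy decrement for a measure preserving map with a random walk on finite sets

Group B of the project: the abstract entropy decrement `ENT`.
-/

set_option autoImplicit false

namespace Pool.Agent.LogCh

open Real

section basic

variable {Ω : Type} [Fintype Ω] (μ : Ω → ℝ)

theorem prb_nonneg (hμ0 : ∀ ω, 0 ≤ μ ω) {α : Type} [DecidableEq α] (f : Ω → α) (a : α) :
    0 ≤ prb μ f a := by
  unfold prb
  refine Finset.sum_nonneg (fun ω _ => ?_)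
  split_ifs
  · exact hμ0 ω
  · exact le_refl _

theorem prb_pos (hμ0 : ∀ ω, 0 ≤ μ ω) {α : Type} [DecidableEq α] (f : Ω → α) (ω : Ω)
    (h : 0 < μ ω) : 0 < prb μ f (f ω) := by
  have h1 : (if f ω = f ω then μ ω else 0) ≤ prb μ f (f ω) := by
    unfold prb
    refine Finset.single_le_sum (f := fun ω' => if f ω' = f ω then μ ω' else 0)
      (fun ω' _ => ?_) (Finset.mem_univ ω)
    split_ifs
    · exact hμ0 ω'
    · exact le_refl _
  rw [if_pos rfl] at h1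
  exact lt_of_lt_of_le h h1

theorem sum_prb_mul {α : Type} [DecidableEq α] (f : Ω → α) (S : Finset α)
    (hS : Finset.univ.image f ⊆ S) (G : α → ℝ) :
    ∑ a ∈ S, prb μ f a * G a = ∑ ω, μ ω * G (f ω) := by
  unfold prb
  simp_rw [Finset.sum_mul]
  rw [Finset.sum_comm]
  refine Finset.sum_congr rfl (fun ω _ => ?_)
  have h1 : ∀ a ∈ S, (if f ω = a then μ ω else 0) * G a = if f ω = a then μ ω * G a else 0 := by
    intro a _
    split_ifs <;> simp
  rw [Finset.sum_congr rfl h1, Finset.sum_ite_eq,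
    if_pos (hS (Finset.mem_image_of_mem f (Finset.mem_univ ω)))]

theorem ent_eq {α : Type} [DecidableEq α] (f : Ω → α) :
    ent μ f = ∑ ω, μ ω * (-log (prb μ f (f ω))) := by
  rw [← sum_prb_mul μ f _ (le_refl _) (fun a => -log (prb μ f a))]
  unfold ent
  refine Finset.sum_congr rfl (fun a _ => ?_)
  rw [negMulLog]
  ring

theorem ent_le_cross (hμ0 : ∀ ω, 0 ≤ μ ω) (hμ1 : ∑ ω, μ ω = 1) {α : Type} [DecidableEq α]
    (f : Ω → α) (Q : α → ℝ) (hQ : ∀ a ∈ Finset.univ.image f, 0 ≤ Q a)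
    (hQp : ∀ ω, 0 < μ ω → 0 < Q (f ω)) (hQs : ∑ a ∈ Finset.univ.image f, Q a ≤ 1) :
    ent μ f ≤ ∑ ω, μ ω * (-log (Q (f ω))) := by
  have h1 : ∑ ω, μ ω * (Q (f ω) / prb μ f (f ω)) ≤ 1 := by
    rw [← sum_prb_mul μ f _ (le_refl _) (fun a => Q a / prb μ f a)]
    refine le_trans (Finset.sum_le_sum (fun a ha => ?_)) hQs
    by_cases h : prb μ f a = 0
    · rw [h, zero_mul]
      exact hQ a ha
    · rw [mul_div_cancel₀ _ h]
  have h2 : ∀ ω, μ ω * (-log (prb μ f (f ω))) - μ ω * (-log (Q (f ω)))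
      ≤ μ ω * (Q (f ω) / prb μ f (f ω)) - μ ω := by
    intro ω
    rcases (hμ0 ω).lt_or_eq with h | h
    · have hp := prb_pos μ hμ0 f ω h
      have hq := hQp ω h
      have h3 := log_le_sub_one_of_pos (div_pos hq hp)
      rw [log_div hq.ne' hp.ne'] at h3
      nlinarith
    · rw [← h]
      simp
  have h3 := Finset.sum_le_sum (fun ω (_ : ω ∈ Finset.univ) => h2 ω)
  rw [Finset.sum_sub_distrib, Finset.sum_sub_distrib, hμ1, ← ent_eq] at h3
  linarith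

theorem ent_congr {α β : Type} [DecidableEq α] [DecidableEq β] (f : Ω → α) (g : Ω → β)
    (h : ∀ ω ω', f ω = f ω' ↔ g ω = g ω') : ent μ f = ent μ g := by
  rw [ent_eq, ent_eq]
  refine Finset.sum_congr rfl (fun ω _ => ?_)
  have h1 : prb μ f (f ω) = prb μ g (g ω) := by
    unfold prb
    refine Finset.sum_congr rfl (fun ω' _ => ?_)
    by_cases h2 : f ω' = f ω
    · rw [if_pos h2, if_pos ((h ω' ω).1 h2)]
    · rw [if_neg h2, if_neg (fun h3 => h2 ((h ω' ω).2 h3))]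
  rw [h1]

theorem ent_mono (hμ0 : ∀ ω, 0 ≤ μ ω) {α β : Type} [DecidableEq α] [DecidableEq β] (f : Ω → α)
    (g : Ω → β) (h : ∀ ω ω', g ω = g ω' → f ω = f ω') : ent μ f ≤ ent μ g := by
  rw [ent_eq, ent_eq]
  refine Finset.sum_le_sum (fun ω _ => ?_)
  rcases (hμ0 ω).lt_or_eq with h0 | h0
  · refine mul_le_mul_of_nonneg_left ?_ h0.le
    refine neg_le_neg (log_le_log (prb_pos μ hμ0 g ω h0) ?_)
    unfold prb
    refine Finset.sum_le_sum (fun ω' _ => ?_)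
    by_cases h2 : g ω' = g ω
    · rw [if_pos h2, if_pos (h ω' ω h2)]
    · rw [if_neg h2]
      split_ifs
      · exact hμ0 ω'
      · exact le_refl _
  · rw [← h0]
    simp

theorem ent_perm (T : Equiv.Perm Ω) (hT : ∀ ω, μ (T ω) = μ ω) {α : Type} [DecidableEq α]
    (f : Ω → α) : ent μ (fun ω => f (T ω)) = ent μ f := by
  rw [ent_eq, ent_eq, ← Equiv.sum_comp T (fun ω => μ ω * (-log (prb μ f (f ω))))]
  refine Finset.sum_congr rfl (fun ω _ => ?_)
  have h1 : prb μ (fun ω => f (T ω)) (f (T ω)) = prb μ f (f (T ω)) := by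
    unfold prb
    rw [← Equiv.sum_comp T (fun ω' => if f ω' = f (T ω) then μ ω' else 0)]
    refine Finset.sum_congr rfl (fun ω' _ => ?_)
    rw [hT]
  rw [h1, hT]

theorem prb_marg {α β : Type} [DecidableEq α] [DecidableEq β] (f : Ω → α) (h : Ω → β) (c : β) :
    ∑ a ∈ Finset.univ.image f, prb μ (fun ω => (f ω, h ω)) (a, c) = prb μ h c := by
  unfold prb
  rw [Finset.sum_comm]
  refine Finset.sum_congr rfl (fun ω _ => ?_)
  have h1 : ∀ a ∈ Finset.univ.image f, (if (f ω, h ω) = (a, c) then μ ω else 0)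
      = if f ω = a then (if h ω = c then μ ω else 0) else 0 := by
    intro a _
    by_cases h2 : f ω = a
    · by_cases h3 : h ω = c
      · rw [if_pos h2, if_pos h3, if_pos (by rw [h2, h3])]
      · rw [if_pos h2, if_neg h3, if_neg (fun h4 => h3 (Prod.ext_iff.1 h4).2)]
    · rw [if_neg h2, if_neg (fun h4 => h2 (Prod.ext_iff.1 h4).1)]
  rw [Finset.sum_congr rfl h1, Finset.sum_ite_eq,
    if_pos (Finset.mem_image_of_mem f (Finset.mem_univ ω))]

theorem sum_prb (hμ1 : ∑ ω, μ ω = 1) {α : Type} [DecidableEq α] (f : Ω → α) :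
    ∑ a ∈ Finset.univ.image f, prb μ f a = 1 := by
  have h := sum_prb_mul μ f _ (le_refl _) (fun _ => 1)
  simpa [hμ1] using h

theorem ent_submod (hμ0 : ∀ ω, 0 ≤ μ ω) (hμ1 : ∑ ω, μ ω = 1) {α β γ : Type} [DecidableEq α]
    [DecidableEq β] [DecidableEq γ] (f : Ω → α) (g : Ω → β) (h : Ω → γ) :
    ent μ (fun ω => (f ω, g ω, h ω)) + ent μ h ≤
      ent μ (fun ω => (f ω, h ω)) + ent μ (fun ω => (g ω, h ω)) := by
  set Q : α × β × γ → ℝ := fun t => prb μ (fun ω => (f ω, h ω)) (t.1, t.2.2) *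
    prb μ (fun ω => (g ω, h ω)) (t.2.1, t.2.2) / prb μ h t.2.2 with hQ
  have hQ0 : ∀ t, 0 ≤ Q t := fun t => div_nonneg
    (mul_nonneg (prb_nonneg μ hμ0 _ _) (prb_nonneg μ hμ0 _ _)) (prb_nonneg μ hμ0 _ _)
  have h1 := ent_le_cross μ hμ0 hμ1 (fun ω => (f ω, g ω, h ω)) Q (fun t _ => hQ0 t)
    (fun ω hω => div_pos (mul_pos (prb_pos μ hμ0 (fun ω => (f ω, h ω)) ω hω)
      (prb_pos μ hμ0 (fun ω => (g ω, h ω)) ω hω)) (prb_pos μ hμ0 h ω hω)) ?_
  · have h2 : ∀ ω, μ ω * (-log (Q (f ω, g ω, h ω)))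
        = μ ω * (-log (prb μ (fun ω => (f ω, h ω)) (f ω, h ω)))
          + μ ω * (-log (prb μ (fun ω => (g ω, h ω)) (g ω, h ω)))
          - μ ω * (-log (prb μ h (h ω))) := by
      intro ω
      rcases (hμ0 ω).lt_or_eq with h0 | h0
      · have a1 := prb_pos μ hμ0 (fun ω => (f ω, h ω)) ω h0
        have a2 := prb_pos μ hμ0 (fun ω => (g ω, h ω)) ω h0
        have a3 := prb_pos μ hμ0 h ω h0
        rw [hQ]
        dsimp only
        rw [log_div (mul_pos a1 a2).ne' a3.ne', log_mul a1.ne' a2.ne']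
        ring
      · rw [← h0]
        simp
    rw [Finset.sum_congr rfl (fun ω _ => h2 ω), Finset.sum_sub_distrib, Finset.sum_add_distrib,
      ← ent_eq, ← ent_eq μ (fun ω => (g ω, h ω)), ← ent_eq μ h] at h1
    linarith
  · have h3 : Finset.univ.image (fun ω => (f ω, g ω, h ω)) ⊆
        (Finset.univ.image f) ×ˢ ((Finset.univ.image g) ×ˢ (Finset.univ.image h)) := by
      intro t ht
      obtain ⟨ω, _, rfl⟩ := Finset.mem_image.1 ht
      exact Finset.mem_product.2 ⟨Finset.mem_image_of_mem _ (Finset.mem_univ _),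
        Finset.mem_product.2 ⟨Finset.mem_image_of_mem _ (Finset.mem_univ _),
          Finset.mem_image_of_mem _ (Finset.mem_univ _)⟩⟩
    refine le_trans (Finset.sum_le_sum_of_subset_of_nonneg h3 (fun t _ _ => hQ0 t)) ?_
    rw [Finset.sum_product]
    have h4 : ∀ a ∈ Finset.univ.image f,
        ∑ y ∈ (Finset.univ.image g) ×ˢ (Finset.univ.image h), Q (a, y)
          = ∑ c ∈ Finset.univ.image h, prb μ (fun ω => (f ω, h ω)) (a, c) *
              (prb μ h c / prb μ h c) := by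
      intro a _
      rw [Finset.sum_product_right]
      refine Finset.sum_congr rfl (fun c _ => ?_)
      rw [hQ]
      dsimp only
      rw [← Finset.sum_div, ← Finset.mul_sum, prb_marg, mul_div_assoc]
    rw [Finset.sum_congr rfl h4, Finset.sum_comm]
    have h5 : ∀ c ∈ Finset.univ.image h, ∑ a ∈ Finset.univ.image f,
        prb μ (fun ω => (f ω, h ω)) (a, c) * (prb μ h c / prb μ h c) ≤ prb μ h c := by
      intro c _
      rw [← Finset.sum_mul, prb_marg]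
      by_cases h6 : prb μ h c = 0
      · rw [h6, zero_mul]
      · rw [div_self h6, mul_one]
    exact le_trans (Finset.sum_le_sum h5) (le_of_eq (sum_prb μ hμ1 h))

end basic

section process

variable {Ω : Type} [Fintype Ω] (μ : Ω → ℝ)

/-- the window of length `L` -/
def win {Ω 𝒳 : Type} (T : Equiv.Perm Ω) (X : Ω → 𝒳) (L : ℕ) (ω : Ω) : Fin L → 𝒳 :=
  fun i => X ((T ^ (i : ℕ)) ω)

theorem win_eq_iff {Ω 𝒳 : Type} (T : Equiv.Perm Ω) (X : Ω → 𝒳) (L : ℕ) (ω ω' : Ω) :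
    win T X L ω = win T X L ω' ↔ ∀ i < L, X ((T ^ i) ω) = X ((T ^ i) ω') := by
  constructor
  · intro h i hi
    exact congrFun h ⟨i, hi⟩
  · intro h
    funext i
    exact h i i.2

theorem win_add {Ω 𝒳 : Type} (T : Equiv.Perm Ω) (X : Ω → 𝒳) (M L : ℕ) (ω ω' : Ω) :
    win T X (M + L) ω = win T X (M + L) ω' ↔ win T X M ω = win T X M ω' ∧
      win T X L ((T ^ M) ω) = win T X L ((T ^ M) ω') := by
  rw [win_eq_iff, win_eq_iff, win_eq_iff]
  constructor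
  · intro h
    refine ⟨fun i hi => h i (by omega), fun i hi => ?_⟩
    have h1 := h (i + M) (by omega)
    rw [pow_add, Equiv.Perm.mul_apply, Equiv.Perm.mul_apply] at h1
    exact h1
  · rintro ⟨h1, h2⟩ i hi
    by_cases h3 : i < M
    · exact h1 i h3
    · have h4 := h2 (i - M) (by omega)
      rw [← Equiv.Perm.mul_apply, ← Equiv.Perm.mul_apply, ← pow_add] at h4
      rwa [show i - M + M = i by omega] at h4

omit [Fintype Ω] in
theorem pow_pres (T : Equiv.Perm Ω) (hT : ∀ ω, μ (T ω) = μ ω) (n : ℕ) (ω : Ω) :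
    μ ((T ^ n) ω) = μ ω := by
  induction n with
  | zero => simp
  | succ n ih => rw [pow_succ', Equiv.Perm.mul_apply, hT, ih]

theorem det_Y {Ω 𝒳 : Type} (T : Equiv.Perm Ω) (X : Ω → 𝒳) (𝒴 : ℕ → Type)
    (Y : ∀ q, Ω → 𝒴 q) (φ : ∀ q, 𝒳 → Equiv.Perm (𝒴 q))
    (hY : ∀ q ω, Y q (T ω) = φ q (X ω) (Y q ω)) (n : ℕ) (ω ω' : Ω)
    (h : ∀ i < n, X ((T ^ i) ω) = X ((T ^ i) ω')) (q : ℕ) :
    Y q ((T ^ n) ω) = Y q ((T ^ n) ω') ↔ Y q ω = Y q ω' := by
  induction n with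
  | zero => simp
  | succ n ih =>
    rw [pow_succ', Equiv.Perm.mul_apply, Equiv.Perm.mul_apply, hY, hY, h n (by omega),
      Equiv.apply_eq_iff_eq]
    exact ih (fun i hi => h i (by omega))

theorem block_step (hμ0 : ∀ ω, 0 ≤ μ ω) (hμ1 : ∑ ω, μ ω = 1)
    (T : Equiv.Perm Ω) (hT : ∀ ω, μ (T ω) = μ ω)
    {𝒳 : Type} [DecidableEq 𝒳] (X : Ω → 𝒳)
    {κ : Type} [DecidableEq κ] (Z : Ω → κ)
    (hZ : ∀ (n : ℕ) (ω ω' : Ω), (∀ i < n, X ((T ^ i) ω) = X ((T ^ i) ω')) →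
      (Z ((T ^ n) ω) = Z ((T ^ n) ω') ↔ Z ω = Z ω')) (L m : ℕ) :
    ent μ (fun ω => (win T X (m * L) ω, Z ω)) ≤
      ent μ Z + m * (ent μ (fun ω => (win T X L ω, Z ω)) - ent μ Z) := by
  induction m with
  | zero =>
    rw [Nat.cast_zero, zero_mul (ent μ (fun ω => (win T X L ω, Z ω)) - ent μ Z), add_zero]
    refine le_of_eq (ent_congr μ _ _ (fun ω ω' => ?_))
    rw [Prod.ext_iff]
    simp only
    rw [win_eq_iff]
    simp
  | succ m ih =>
    have hS := ent_submod μ hμ0 hμ1 (fun ω => win T X (m * L) ω)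
      (fun ω => win T X L ((T ^ (m * L)) ω)) (fun ω => Z ((T ^ (m * L)) ω))
    have hP : ∀ ω, μ ((T ^ (m * L)) ω) = μ ω := pow_pres μ T hT (m * L)
    have e1 : ent μ (fun ω => (win T X (m * L) ω, win T X L ((T ^ (m * L)) ω),
        Z ((T ^ (m * L)) ω))) = ent μ (fun ω => (win T X ((m + 1) * L) ω, Z ω)) := by
      refine ent_congr μ _ _ (fun ω ω' => ?_)
      have a1 := win_add T X (m * L) L ω ω'
      rw [show m * L + L = (m + 1) * L by ring] at a1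
      constructor
      · intro h
        rw [Prod.ext_iff, Prod.ext_iff] at h
        obtain ⟨b1, b2, b3⟩ := h
        have c1 := (win_eq_iff T X (m * L) ω ω').1 b1
        exact Prod.ext (a1.2 ⟨b1, b2⟩) ((hZ _ _ _ c1).1 b3)
      · intro h
        obtain ⟨b1, b2⟩ := Prod.ext_iff.1 h
        obtain ⟨b3, b4⟩ := a1.1 b1
        have c1 := (win_eq_iff T X (m * L) ω ω').1 b3
        exact Prod.ext b3 (Prod.ext b4 ((hZ _ _ _ c1).2 b2))
    have e2 : ent μ (fun ω => Z ((T ^ (m * L)) ω)) = ent μ Z :=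
      ent_perm μ (T ^ (m * L)) hP Z
    have e3 : ent μ (fun ω => (win T X (m * L) ω, Z ((T ^ (m * L)) ω))) =
        ent μ (fun ω => (win T X (m * L) ω, Z ω)) := by
      refine ent_congr μ _ _ (fun ω ω' => ?_)
      constructor
      · intro h
        obtain ⟨b1, b2⟩ := Prod.ext_iff.1 h
        exact Prod.ext b1 ((hZ _ _ _ ((win_eq_iff T X (m * L) ω ω').1 b1)).1 b2)
      · intro h
        obtain ⟨b1, b2⟩ := Prod.ext_iff.1 h
        exact Prod.ext b1 ((hZ _ _ _ ((win_eq_iff T X (m * L) ω ω').1 b1)).2 b2)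
    have e4 : ent μ (fun ω => (win T X L ((T ^ (m * L)) ω), Z ((T ^ (m * L)) ω))) =
        ent μ (fun ω => (win T X L ω, Z ω)) :=
      ent_perm μ (T ^ (m * L)) hP (fun ω => (win T X L ω, Z ω))
    rw [e1, e2, e3, e4] at hS
    push_cast
    linarith

theorem ent_nonneg (hμ0 : ∀ ω, 0 ≤ μ ω) (hμ1 : ∑ ω, μ ω = 1) {α : Type} [DecidableEq α]
    (f : Ω → α) : 0 ≤ ent μ f := by
  rw [ent_eq]
  refine Finset.sum_nonneg (fun ω _ => mul_nonneg (hμ0 ω) ?_)
  have h1 : prb μ f (f ω) ≤ 1 := by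
    rw [← sum_prb μ hμ1 f]
    exact Finset.single_le_sum (fun a _ => prb_nonneg μ hμ0 f a)
      (Finset.mem_image_of_mem f (Finset.mem_univ ω))
  have h2 := log_nonpos (prb_nonneg μ hμ0 f (f ω)) h1
  linarith

/-- the upper bound for the entropy of a window -/
theorem ent_win_le (hμ0 : ∀ ω, 0 ≤ μ ω) (hμ1 : ∑ ω, μ ω = 1)
    (T : Equiv.Perm Ω) (hT : ∀ ω, μ (T ω) = μ ω)
    {𝒳 : Type} [DecidableEq 𝒳] (X : Ω → 𝒳) (L : ℕ) :
    ent μ (win T X L) ≤ L * ent μ X := by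
  have h1 := block_step μ hμ0 hμ1 T hT X (fun _ : Ω => ()) (fun n ω ω' _ => by simp) 1 L
  have e0 : ent μ (fun _ : Ω => ()) = 0 := by
    rw [ent_eq]
    refine Finset.sum_eq_zero (fun ω _ => ?_)
    have : prb μ (fun _ : Ω => ()) () = 1 := by
      unfold prb
      simpa using hμ1
    rw [this]
    simp
  have e1 : ent μ (fun ω => (win T X (L * 1) ω, ())) = ent μ (win T X L) := by
    refine ent_congr μ _ _ (fun ω ω' => ?_)
    rw [mul_one, Prod.ext_iff]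
    simp
  have e2 : ent μ (fun ω => (win T X 1 ω, ())) = ent μ X := by
    refine ent_congr μ _ _ (fun ω ω' => ?_)
    rw [Prod.ext_iff]
    simp only [and_true]
    rw [win_eq_iff]
    constructor
    · intro h
      simpa using h 0 (by omega)
    · intro h i hi
      have : i = 0 := by omega
      subst this
      simpa using h
  rw [e0, e1, e2] at h1
  simpa using h1

end process

section joint

variable {Ω : Type} [Fintype Ω] (μ : Ω → ℝ)

/-- the joint variable -/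
def joint {Ω : Type} (𝒴 : ℕ → Type) (Y : ∀ q, Ω → 𝒴 q) (S : Finset ℕ) (ω : Ω) :
    ∀ q : {q // q ∈ S}, 𝒴 q := fun q => Y q ω

theorem joint_eq_iff {Ω : Type} (𝒴 : ℕ → Type) (Y : ∀ q, Ω → 𝒴 q) (S : Finset ℕ) (ω ω' : Ω) :
    joint 𝒴 Y S ω = joint 𝒴 Y S ω' ↔ ∀ q ∈ S, Y q ω = Y q ω' := by
  constructor
  · intro h q hq
    exact congrFun h ⟨q, hq⟩
  · intro h
    funext q
    exact h q q.2

theorem sum_exp_le {β : Type} [Fintype β] [Nonempty β] (B t : ℝ) (ht : 0 < t) (htB : t * B ≤ 1)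
    (g : β → ℝ) (hB : ∀ y, |g y| ≤ B) (h0 : ∑ y, g y = 0) :
    ∑ y, exp (t * g y) / (Fintype.card β * exp ((t * B) ^ 2)) ≤ 1 := by
  have hc : (0 : ℝ) < Fintype.card β := by exact_mod_cast Fintype.card_pos
  rw [← Finset.sum_div, div_le_one (mul_pos hc (exp_pos _))]
  have h1 : ∀ y, exp (t * g y) ≤ 1 + t * g y + (t * B) ^ 2 := by
    intro y
    have a1 : |t * g y| ≤ t * B := by
      rw [abs_mul, abs_of_pos ht]
      exact mul_le_mul_of_nonneg_left (hB y) ht.le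
    have a2 := Real.abs_exp_sub_one_sub_id_le (x := t * g y) (le_trans a1 htB)
    have a3 : (t * g y) ^ 2 ≤ (t * B) ^ 2 := by
      rw [← sq_abs (t * g y)]
      exact pow_le_pow_left₀ (abs_nonneg _) a1 2
    have a4 := (abs_le.1 a2).2
    linarith
  refine le_trans (Finset.sum_le_sum (fun y _ => h1 y)) ?_
  rw [Finset.sum_add_distrib, Finset.sum_add_distrib, ← Finset.mul_sum, h0, mul_zero, add_zero,
    Finset.sum_const, Finset.sum_const, Finset.card_univ, nsmul_eq_mul, nsmul_eq_mul, mul_one,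
    ← mul_one_add]
  refine mul_le_mul_of_nonneg_left ?_ hc.le
  have := add_one_le_exp ((t * B) ^ 2)
  linarith

theorem dv (hμ0 : ∀ ω, 0 ≤ μ ω) (hμ1 : ∑ ω, μ ω = 1) {α : Type} [DecidableEq α] (W : Ω → α)
    (𝒴 : ℕ → Type) [∀ q, Fintype (𝒴 q)] [∀ q, DecidableEq (𝒴 q)] [∀ q, Nonempty (𝒴 q)]
    (Y : ∀ q, Ω → 𝒴 q) (S : Finset ℕ) (B t : ℝ) (ht : 0 < t) (htB : t * B ≤ 1)
    (ψ : ∀ q : ℕ, α → 𝒴 q → ℝ) (hB : ∀ q x y, |ψ q x y| ≤ B) (h0 : ∀ q x, ∑ y, ψ q x y = 0) :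
    ent μ (fun ω => (W ω, joint 𝒴 Y S ω)) + t * ∑ q ∈ S, ∑ ω, μ ω * ψ q (W ω) (Y q ω) ≤
      ent μ W + (∑ q ∈ S, log (Fintype.card (𝒴 q))) + S.card * (t * B) ^ 2 := by
  have hc : ∀ q, (0 : ℝ) < Fintype.card (𝒴 q) := fun q => by exact_mod_cast Fintype.card_pos
  set E : (q : {q // q ∈ S}) → α → 𝒴 q → ℝ := fun q x y =>
    exp (t * ψ q x y) / (Fintype.card (𝒴 q) * exp ((t * B) ^ 2)) with hE
  have hE0 : ∀ q x y, 0 < E q x y := fun q x y =>
    div_pos (exp_pos _) (mul_pos (hc q) (exp_pos _))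
  set Q : α × (∀ q : {q // q ∈ S}, 𝒴 q) → ℝ := fun p =>
    prb μ W p.1 * ∏ q, E q p.1 (p.2 q) with hQ
  have hQ0 : ∀ p, 0 ≤ Q p := fun p => mul_nonneg (prb_nonneg μ hμ0 _ _)
    (Finset.prod_nonneg (fun q _ => (hE0 q _ _).le))
  have h2 := ent_le_cross μ hμ0 hμ1 (fun ω => (W ω, joint 𝒴 Y S ω)) Q (fun p _ => hQ0 p)
    (fun ω hω => mul_pos (prb_pos μ hμ0 W ω hω) (Finset.prod_pos (fun q _ => hE0 q _ _))) ?_
  · have h3 : ∀ ω, μ ω * (-log (Q (W ω, joint 𝒴 Y S ω))) = μ ω * (-log (prb μ W (W ω)))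
        + μ ω * (∑ q ∈ S, log (Fintype.card (𝒴 q)) + S.card * (t * B) ^ 2)
        - t * ∑ q ∈ S, μ ω * ψ q (W ω) (Y q ω) := by
      intro ω
      rcases (hμ0 ω).lt_or_eq with h4 | h4
      · have a1 := prb_pos μ hμ0 W ω h4
        rw [hQ]
        dsimp only
        rw [log_mul a1.ne' (Finset.prod_pos (fun q _ => hE0 q _ _)).ne',
          Real.log_prod (fun q _ => (hE0 q _ _).ne')]
        have a2 : ∀ q : {q // q ∈ S}, log (E q (W ω) (joint 𝒴 Y S ω q)) =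
            t * ψ q (W ω) (Y q ω) - log (Fintype.card (𝒴 q)) - (t * B) ^ 2 := by
          intro q
          rw [hE]
          dsimp only
          rw [log_div (exp_pos _).ne' (mul_pos (hc q) (exp_pos _)).ne', log_exp,
            log_mul (hc q).ne' (exp_pos _).ne', log_exp]
          unfold joint
          ring
        rw [Finset.sum_congr rfl (fun q _ => a2 q),
          Finset.sum_coe_sort S (fun q => t * ψ q (W ω) (Y q ω) - log (Fintype.card (𝒴 q)) -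
            (t * B) ^ 2), Finset.sum_sub_distrib, Finset.sum_sub_distrib, ← Finset.mul_sum,
          ← Finset.mul_sum, Finset.sum_const, nsmul_eq_mul]
        ring
      · rw [← h4]
        simp
    rw [Finset.sum_congr rfl (fun ω _ => h3 ω), Finset.sum_sub_distrib, Finset.sum_add_distrib,
      ← ent_eq, ← Finset.sum_mul, hμ1, one_mul, ← Finset.mul_sum, Finset.sum_comm] at h2
    linarith
  · have h3 : Finset.univ.image (fun ω => (W ω, joint 𝒴 Y S ω)) ⊆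
        (Finset.univ.image W) ×ˢ Finset.univ := by
      intro p hp
      obtain ⟨ω, _, rfl⟩ := Finset.mem_image.1 hp
      exact Finset.mem_product.2 ⟨Finset.mem_image_of_mem _ (Finset.mem_univ _),
        Finset.mem_univ _⟩
    refine le_trans (Finset.sum_le_sum_of_subset_of_nonneg h3 (fun p _ _ => hQ0 p)) ?_
    rw [Finset.sum_product, ← sum_prb μ hμ1 W]
    refine Finset.sum_le_sum (fun x _ => ?_)
    rw [hQ]
    dsimp only
    rw [← Finset.mul_sum]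
    have h4 : ∑ y : (∀ q : {q // q ∈ S}, 𝒴 q), ∏ q, E q x (y q) = ∏ q, ∑ y, E q x y := by
      rw [Finset.prod_univ_sum, Fintype.piFinset_univ]
    rw [h4]
    have h5 : ∏ q : {q // q ∈ S}, ∑ y, E q x y ≤ 1 := by
      refine Finset.prod_le_one (fun q _ => Finset.sum_nonneg (fun y _ => (hE0 q x y).le))
        (fun q _ => ?_)
      exact sum_exp_le B t ht htB (fun y => ψ q x y) (hB q x) (h0 q x)
    calc prb μ W x * ∏ q : {q // q ∈ S}, ∑ y, E q x y ≤ prb μ W x * 1 :=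
          mul_le_mul_of_nonneg_left h5 (prb_nonneg μ hμ0 _ _)
      _ = prb μ W x := mul_one _

theorem ent_joint_le (hμ0 : ∀ ω, 0 ≤ μ ω) (hμ1 : ∑ ω, μ ω = 1)
    (𝒴 : ℕ → Type) [∀ q, Fintype (𝒴 q)] [∀ q, DecidableEq (𝒴 q)] [∀ q, Nonempty (𝒴 q)]
    (Y : ∀ q, Ω → 𝒴 q) (S : Finset ℕ) :
    ent μ (joint 𝒴 Y S) ≤ ∑ q ∈ S, log (Fintype.card (𝒴 q)) := by
  have hc : ∀ q, (0 : ℝ) < Fintype.card (𝒴 q) := fun q => by exact_mod_cast Fintype.card_pos
  have hP : (0 : ℝ) < ∏ q ∈ S, (Fintype.card (𝒴 q) : ℝ) := Finset.prod_pos (fun q _ => hc q)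
  have h1 := ent_le_cross μ hμ0 hμ1 (joint 𝒴 Y S) (fun _ => 1 / ∏ q ∈ S, (Fintype.card (𝒴 q) : ℝ))
    (fun _ _ => by positivity) (fun _ _ => by positivity) ?_
  · rw [← Finset.sum_mul, hμ1, one_mul, one_div, log_inv, neg_neg,
      Real.log_prod (fun q _ => (hc q).ne')] at h1
    exact h1
  · refine le_trans (Finset.sum_le_sum_of_subset_of_nonneg (Finset.subset_univ _)
      (fun _ _ _ => by positivity)) (le_of_eq ?_)
    rw [Finset.sum_const, Finset.card_univ, Fintype.card_pi, nsmul_eq_mul,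
      Finset.prod_coe_sort S (fun q => Fintype.card (𝒴 q)), Nat.cast_prod]
    field_simp

theorem le_ent_joint (hμ0 : ∀ ω, 0 ≤ μ ω) (hμ1 : ∑ ω, μ ω = 1)
    (𝒴 : ℕ → Type) [∀ q, Fintype (𝒴 q)] [∀ q, DecidableEq (𝒴 q)] [∀ q, Nonempty (𝒴 q)]
    (Y : ∀ q, Ω → 𝒴 q) (S : Finset ℕ) (ϑ : ℝ) (hϑ : 0 ≤ ϑ)
    (hU : ∀ y : (∀ q, 𝒴 q),
      (∑ ω, if ∀ q ∈ S, Y q ω = y q then μ ω else 0) * ∏ q ∈ S, (Fintype.card (𝒴 q) : ℝ) ≤
        1 + ϑ) :
    ∑ q ∈ S, log (Fintype.card (𝒴 q)) - ϑ ≤ ent μ (joint 𝒴 Y S) := by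
  have hc : ∀ q, (0 : ℝ) < Fintype.card (𝒴 q) := fun q => by exact_mod_cast Fintype.card_pos
  have hP : (0 : ℝ) < ∏ q ∈ S, (Fintype.card (𝒴 q) : ℝ) := Finset.prod_pos (fun q _ => hc q)
  rw [ent_eq]
  have h1 : ∀ ω, μ ω * (∑ q ∈ S, log (Fintype.card (𝒴 q)) - ϑ) ≤
      μ ω * (-log (prb μ (joint 𝒴 Y S) (joint 𝒴 Y S ω))) := by
    intro ω
    rcases (hμ0 ω).lt_or_eq with h4 | h4
    · refine mul_le_mul_of_nonneg_left ?_ h4.le
      have a1 := prb_pos μ hμ0 (joint 𝒴 Y S) ω h4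
      have a2 : prb μ (joint 𝒴 Y S) (joint 𝒴 Y S ω) * ∏ q ∈ S, (Fintype.card (𝒴 q) : ℝ) ≤
          1 + ϑ := by
        refine le_trans (le_of_eq ?_) (hU (fun q => Y q ω))
        congr 1
        unfold prb
        refine Finset.sum_congr rfl (fun ω' _ => ?_)
        by_cases h5 : joint 𝒴 Y S ω' = joint 𝒴 Y S ω
        · rw [if_pos h5, if_pos ((joint_eq_iff 𝒴 Y S ω' ω).1 h5)]
        · rw [if_neg h5, if_neg (fun h6 => h5 ((joint_eq_iff 𝒴 Y S ω' ω).2 h6))]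
      have a3 := log_le_log (mul_pos a1 hP) a2
      rw [log_mul a1.ne' hP.ne', Real.log_prod (fun q _ => (hc q).ne')] at a3
      have a4 : log (1 + ϑ) ≤ ϑ := by
        have := log_le_sub_one_of_pos (show (0 : ℝ) < 1 + ϑ by linarith)
        linarith
      linarith
    · rw [← h4]
      simp
  have h2 := Finset.sum_le_sum (fun ω (_ : ω ∈ Finset.univ) => h1 ω)
  rwa [← Finset.sum_mul, hμ1, one_mul] at h2

theorem static_bound (hμ0 : ∀ ω, 0 ≤ μ ω) (hμ1 : ∑ ω, μ ω = 1) {α : Type} [DecidableEq α]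
    (W : Ω → α)
    (𝒴 : ℕ → Type) [∀ q, Fintype (𝒴 q)] [∀ q, DecidableEq (𝒴 q)] [∀ q, Nonempty (𝒴 q)]
    (Y : ∀ q, Ω → 𝒴 q) (S : Finset ℕ) (hS : S.Nonempty) (ε ϑ : ℝ) (hε : 0 < ε) (hϑ : 0 ≤ ϑ)
    (h1 : ε + ϑ ≤ 1)
    (hU : ∀ y : (∀ q, 𝒴 q),
      (∑ ω, if ∀ q ∈ S, Y q ω = y q then μ ω else 0) * ∏ q ∈ S, (Fintype.card (𝒴 q) : ℝ) ≤
        1 + ϑ)
    (hI : ent μ W + ent μ (joint 𝒴 Y S) - ent μ (fun ω => (W ω, joint 𝒴 Y S ω)) ≤ ε * S.card)
    (B : ℝ) (hB1 : 1 ≤ B)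
    (ψ : ∀ q : ℕ, α → 𝒴 q → ℝ) (hB : ∀ q x y, |ψ q x y| ≤ B) (h0 : ∀ q x, ∑ y, ψ q x y = 0) :
    ∑ q ∈ S, ∑ ω, μ ω * ψ q (W ω) (Y q ω) ≤ 3 * B * √(ε + ϑ) * S.card := by
  have hs : 0 < √(ε + ϑ) := Real.sqrt_pos.2 (by linarith)
  have hs1 : √(ε + ϑ) ≤ 1 := by
    rw [← Real.sqrt_one]
    exact Real.sqrt_le_sqrt h1
  have hss : √(ε + ϑ) * √(ε + ϑ) = ε + ϑ := Real.mul_self_sqrt (by linarith)
  have hB0 : 0 < B := by linarith
  have ht : 0 < √(ε + ϑ) / B := div_pos hs hB0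
  have htB : √(ε + ϑ) / B * B = √(ε + ϑ) := div_mul_cancel₀ _ hB0.ne'
  have h2 := dv μ hμ0 hμ1 W 𝒴 Y S B (√(ε + ϑ) / B) ht (by rw [htB]; exact hs1) ψ hB h0
  have h3 := le_ent_joint μ hμ0 hμ1 𝒴 Y S ϑ hϑ hU
  have hc : (1 : ℝ) ≤ S.card := by exact_mod_cast Finset.card_pos.2 hS
  rw [htB] at h2
  set G := ∑ q ∈ S, ∑ ω, μ ω * ψ q (W ω) (Y q ω) with hG
  set s := √(ε + ϑ) with hsdef
  have h4 : s / B * G ≤ 2 * (s * s) * S.card := by
    have : ϑ ≤ ϑ * S.card := le_mul_of_one_le_right hϑ hc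
    have h5 : s ^ 2 = s * s := by ring
    rw [h5] at h2
    rw [hss] at h2 ⊢
    nlinarith
  have h5 : G ≤ 2 * B * s * S.card := by
    have h6 : G = (s / B * G) * (B / s) := by
      field_simp
    rw [h6]
    have h7 : 2 * B * s * S.card = (2 * (s * s) * S.card) * (B / s) := by
      field_simp
    rw [h7]
    exact mul_le_mul_of_nonneg_right h4 (div_pos hB0 hs).le
  have h6 : 0 ≤ B * s * S.card := by positivity
  linarith

end joint

theorem ENT {Ω : Type} [Fintype Ω] (μ : Ω → ℝ) (hμ0 : ∀ ω, 0 ≤ μ ω) (hμ1 : ∑ ω, μ ω = 1)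
    (T : Equiv.Perm Ω) (hT : ∀ ω, μ (T ω) = μ ω)
    {𝒳 : Type} [DecidableEq 𝒳] (X : Ω → 𝒳) (h0 : ℝ) (hX : ent μ X ≤ h0)
    (𝒴 : ℕ → Type) [∀ q, Fintype (𝒴 q)] [∀ q, DecidableEq (𝒴 q)] [∀ q, Nonempty (𝒴 q)]
    (Y : ∀ q, Ω → 𝒴 q) (φ : ∀ q, 𝒳 → Equiv.Perm (𝒴 q))
    (hY : ∀ q ω, Y q (T ω) = φ q (X ω) (Y q ω))
    (J : ℕ) (L m : ℕ → ℕ) (hL0 : 1 ≤ L 0) (hm : ∀ j, 1 ≤ m j) (hL : ∀ j, L (j + 1) = m j * L j)
    (I : ℕ → Finset ℕ) (ε ϑ : ℝ) (hε : 0 < ε) (hϑ : 0 ≤ ϑ) (h1 : ε + ϑ ≤ 1)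
    (hU : ∀ j < J, ∀ y : (∀ q, 𝒴 q),
      (∑ ω, if ∀ q ∈ I j, Y q ω = y q then μ ω else 0) * ∏ q ∈ I j, (Fintype.card (𝒴 q) : ℝ) ≤
        1 + ϑ)
    (hnum : h0 < ∑ j ∈ Finset.range J, (ε * (I j).card / L j -
      (∑ q ∈ I j, log (Fintype.card (𝒴 q))) / L (j + 1))) :
    ∃ j < J, ∀ B : ℝ, 1 ≤ B → ∀ ψ : ∀ q : ℕ, (Fin (L j) → 𝒳) → 𝒴 q → ℝ,
      (∀ q x y, |ψ q x y| ≤ B) → (∀ q x, ∑ y, ψ q x y = 0) →
      |∑ q ∈ I j, ∑ ω, μ ω * ψ q (fun i => X ((T ^ (i : ℕ)) ω)) (Y q ω)| ≤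
        3 * B * √(ε + ϑ) * (I j).card := by
  have hLpos : ∀ j, 0 < L j := by
    intro j
    induction j with
    | zero => exact hL0
    | succ j ih =>
      rw [hL]
      exact Nat.mul_pos (hm j) ih
  -- a scale with small mutual information
  have key : ∃ j < J, ent μ (win T X (L j)) + ent μ (joint 𝒴 Y (I j)) -
      ent μ (fun ω => (win T X (L j) ω, joint 𝒴 Y (I j) ω)) ≤ ε * (I j).card := by
    by_contra hcon
    push Not at hcon
    have hstep : ∀ j < J, ent μ (win T X (L (j + 1))) / L (j + 1) ≤ ent μ (win T X (L j)) / L j -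
        (ε * (I j).card / L j - (∑ q ∈ I j, log (Fintype.card (𝒴 q))) / L (j + 1)) := by
      intro j hj
      have b1 := block_step μ hμ0 hμ1 T hT X (joint 𝒴 Y (I j)) (fun n ω ω' h => by
        rw [joint_eq_iff, joint_eq_iff]
        exact forall₂_congr (fun q _ => det_Y T X 𝒴 Y φ hY n ω ω' h q)) (L j) (m j)
      rw [← hL] at b1
      have b2 : ent μ (win T X (L (j + 1))) ≤
          ent μ (fun ω => (win T X (L (j + 1)) ω, joint 𝒴 Y (I j) ω)) :=
        ent_mono μ hμ0 _ _ (fun ω ω' h => (Prod.ext_iff.1 h).1)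
      have b3 := ent_joint_le μ hμ0 hμ1 𝒴 Y (I j)
      have b4 := (hcon j hj).le
      have c1 : (0 : ℝ) < L j := by exact_mod_cast hLpos j
      have c2 : (0 : ℝ) < L (j + 1) := by exact_mod_cast hLpos (j + 1)
      have c3 : (L (j + 1) : ℝ) = m j * L j := by
        rw [hL]
        push_cast
        ring
      have c4 : (0 : ℝ) < m j := by exact_mod_cast (hm j)
      have d1 : ent μ (win T X (L (j + 1))) ≤ ∑ q ∈ I j, log (Fintype.card (𝒴 q)) +
          m j * (ent μ (win T X (L j)) - ε * (I j).card) := by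
        refine le_trans b2 (le_trans b1 (add_le_add b3 (mul_le_mul_of_nonneg_left ?_ c4.le)))
        linarith
      have d2 : ent μ (win T X (L (j + 1))) / L (j + 1) ≤ (∑ q ∈ I j, log (Fintype.card (𝒴 q)) +
          m j * (ent μ (win T X (L j)) - ε * (I j).card)) / L (j + 1) :=
        div_le_div_of_nonneg_right d1 c2.le
      refine le_trans d2 (le_of_eq ?_)
      rw [add_div, c3]
      field_simp
      ring
    have htot : ∀ n ≤ J, ent μ (win T X (L n)) / L n ≤ h0 - ∑ j ∈ Finset.range n,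
        (ε * (I j).card / L j - (∑ q ∈ I j, log (Fintype.card (𝒴 q))) / L (j + 1)) := by
      intro n
      induction n with
      | zero =>
        intro _
        rw [Finset.sum_range_zero, sub_zero]
        have c1 : (0 : ℝ) < L 0 := by exact_mod_cast hLpos 0
        rw [div_le_iff₀ c1]
        have := ent_win_le μ hμ0 hμ1 T hT X (L 0)
        nlinarith
      | succ n ih =>
        intro hn
        rw [Finset.sum_range_succ]
        have e1 := ih (by omega)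
        have e2 := hstep n (by omega)
        linarith
    have h5 := htot J le_rfl
    have h6 : 0 ≤ ent μ (win T X (L J)) / L J :=
      div_nonneg (ent_nonneg μ hμ0 hμ1 _) (Nat.cast_nonneg _)
    linarith
  obtain ⟨j, hj, hI⟩ := key
  refine ⟨j, hj, fun B hB1 ψ hB hz => ?_⟩
  rcases (I j).eq_empty_or_nonempty with hS | hS
  · rw [hS]
    simp
  · rw [abs_le]
    constructor
    · have := static_bound μ hμ0 hμ1 (win T X (L j)) 𝒴 Y (I j) hS ε ϑ hε hϑ h1 (hU j hj) hI B hB1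
        (fun q x y => -ψ q x y) (fun q x y => by rw [abs_neg]; exact hB q x y)
        (fun q x => by rw [Finset.sum_neg_distrib, hz, neg_zero])
      simp only [mul_neg, Finset.sum_neg_distrib] at this
      have h7 : ∀ q ∈ I j, ∑ ω, μ ω * ψ q (fun i => X ((T ^ (i : ℕ)) ω)) (Y q ω) =
          ∑ ω, μ ω * ψ q (win T X (L j) ω) (Y q ω) := fun q _ => rfl
      rw [Finset.sum_congr rfl h7]
      linarith
    · exact static_bound μ hμ0 hμ1 (win T X (L j)) 𝒴 Y (I j) hS ε ϑ hε hϑ h1 (hU j hj) hI B hB1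
        ψ hB hz

end Pool.Agent.LogCh
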