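import Pool.Agent.Lib.LogCh.Defs

/-!
# The scales of the entropy decrement

Group B of the project: existence of scales `P_{j+1} = m_j P_j` with a divergent sum of gains.
-/

set_option autoImplicit false

namespace Pool.Agent.LogCh

open Real

/-- the scales -/
def scP (p M : ℕ) (j : ℕ) : ℕ := p * M ^ j * (Nat.factorial j) ^ 2

theorem scP_succ (p M j : ℕ) : scP p M (j + 1) = (M * (j + 1) ^ 2) * scP p M j := by
  unfold scP
  rw [Nat.factorial_succ]
  ring

theorem scP_ge (p M j : ℕ) (hM : 1 ≤ M) : p ≤ scP p M j := by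
  induction j with
  | zero => simp [scP]
  | succ j ih =>
    rw [scP_succ]
    have h1 : 1 ≤ M * (j + 1) ^ 2 := Nat.mul_pos hM (by positivity)
    exact le_trans ih (Nat.le_mul_of_pos_left _ h1)

theorem log_scP_le (p M j : ℕ) (hp : 1 ≤ p) (hM : 1 ≤ M) :
    log (scP p M j : ℕ) ≤ log p + j * log M + 2 * j * log (j + 1) := by
  induction j with
  | zero => simp [scP]
  | succ j ih =>
    have h1 : (0 : ℝ) < M := by exact_mod_cast hM
    have h2 : (0 : ℝ) < (j : ℝ) + 1 := by positivity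
    have h3 : (0 : ℝ) < (scP p M j : ℕ) := by
      exact_mod_cast lt_of_lt_of_le hp (scP_ge p M j hM)
    have h4 : log (scP p M (j + 1) : ℕ) = log M + 2 * log ((j : ℝ) + 1) + log (scP p M j : ℕ) := by
      rw [scP_succ]
      push_cast
      rw [log_mul (by positivity) h3.ne', log_mul h1.ne' (by positivity), log_pow]
      push_cast
      ring
    rw [h4]
    push_cast
    have h5 : log ((j : ℝ) + 1) ≤ log ((j : ℝ) + 1 + 1) := log_le_log h2 (by linarith)
    have h6 : 2 * ((j : ℝ) + 1) * log ((j : ℝ) + 1) ≤ 2 * ((j : ℝ) + 1) * log ((j : ℝ) + 1 + 1) :=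
      mul_le_mul_of_nonneg_left h5 (by positivity)
    nlinarith

theorem exists_M (a ε : ℝ) (ha : 0 ≤ a) (hε : 0 < ε) : ∃ M : ℕ, 1 ≤ M ∧
    8 * (a + log M + 2) ≤ ε * M := by
  obtain ⟨N, hN⟩ := exists_nat_ge (8 * (a + 4) / ε + 1)
  have h0 : 0 ≤ 8 * (a + 4) / ε := by positivity
  have h1 : (1 : ℝ) ≤ N := by linarith
  have h2 : 1 ≤ N := by exact_mod_cast h1
  refine ⟨N ^ 2, Nat.one_le_pow _ _ h2, ?_⟩
  push_cast
  rw [log_pow]
  push_cast
  have h3 : log (N : ℝ) ≤ N := le_trans (log_le_sub_one_of_pos (by linarith)) (by linarith)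
  have h4 : 8 * (a + 4) ≤ ε * N := by
    have h5 : 8 * (a + 4) / ε ≤ N := by linarith
    rw [div_le_iff₀ hε] at h5
    linarith
  have h5 : 8 * (a + 4) * N ≤ ε * N * N := mul_le_mul_of_nonneg_right h4 (by linarith)
  nlinarith

theorem loglog_step (j : ℕ) : log (log ((j : ℝ) + 3)) - log (log ((j : ℝ) + 2)) ≤
    1 / (((j : ℝ) + 2) * log ((j : ℝ) + 2)) := by
  have h1 : 0 < log ((j : ℝ) + 2) := log_pos (by
    have : (0 : ℝ) ≤ j := Nat.cast_nonneg j
    linarith)
  have h2 : 0 < log ((j : ℝ) + 3) := log_pos (by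
    have : (0 : ℝ) ≤ j := Nat.cast_nonneg j
    linarith)
  rw [← log_div h2.ne' h1.ne']
  have h3 := log_le_sub_one_of_pos (div_pos h2 h1)
  have h4 : log ((j : ℝ) + 3) - log ((j : ℝ) + 2) ≤ 1 / ((j : ℝ) + 2) := by
    rw [← log_div (by positivity) (by positivity)]
    refine le_trans (log_le_sub_one_of_pos (by positivity)) (le_of_eq ?_)
    field_simp
    ring
  have h5 : log ((j : ℝ) + 3) / log ((j : ℝ) + 2) - 1 =
      (log ((j : ℝ) + 3) - log ((j : ℝ) + 2)) / log ((j : ℝ) + 2) := by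
    field_simp
  rw [h5] at h3
  refine le_trans h3 ?_
  rw [div_le_iff₀ h1]
  refine le_trans h4 (le_of_eq ?_)
  field_simp

theorem SCALES (C1 : ℕ) (c : ℝ) (hC1 : 2 ≤ C1) (hc : 0 < c)
    (hQ : ∀ P : ℕ, 2 ≤ P → c * P / log P ≤ ((QQ C1 P).card : ℝ)) (K : ℕ) (hK : 1 ≤ K)
    (ε h0 : ℝ) (hε : 0 < ε) (P0 : ℕ) :
    ∃ (J : ℕ) (P m : ℕ → ℕ), P0 ≤ P 0 ∧ 2 ≤ P 0 ∧ (∀ j, 1 ≤ m j) ∧
      (∀ j, P (j + 1) = m j * P j) ∧
      h0 < ∑ j ∈ Finset.range J, (ε * ((QQ C1 (P j)).card : ℝ) / ((K * P j : ℕ) : ℝ) -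
        (∑ q ∈ QQ C1 (P j), 4 * log q) / ((K * P (j + 1) : ℕ) : ℝ)) := by
  set p := max P0 2 with hp
  have hp2 : 2 ≤ p := le_max_right _ _
  have hp0 : P0 ≤ p := le_max_left _ _
  have hC : (1 : ℝ) ≤ C1 := by exact_mod_cast (by omega : 1 ≤ C1)
  have hpR : (2 : ℝ) ≤ p := by exact_mod_cast hp2
  have hlC : 0 ≤ log C1 := log_nonneg hC
  have hlp : 0 ≤ log p := log_nonneg (by linarith)
  obtain ⟨M, hM1, hM⟩ := exists_M (log C1 + log p) ε (by positivity) hε
  have hlM : 0 ≤ log M := log_nonneg (by exact_mod_cast hM1)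
  set A : ℝ := log p + 2 * log M + 2 with hA
  have hA0 : 0 < A := by positivity
  have hKR : (0 : ℝ) < K := by exact_mod_cast hK
  set κ : ℝ := ε * c / (2 * K) / A with hκ
  have hκ0 : 0 < κ := by positivity
  -- lower bound for the terms
  have hterm : ∀ j : ℕ, κ * (log (log ((j : ℝ) + 3)) - log (log ((j : ℝ) + 2))) ≤
      ε * ((QQ C1 (scP p M j)).card : ℝ) / ((K * scP p M j : ℕ) : ℝ) -
        (∑ q ∈ QQ C1 (scP p M j), 4 * log q) / ((K * scP p M (j + 1) : ℕ) : ℝ) := by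
    intro j
    have hP2 : 2 ≤ scP p M j := le_trans hp2 (scP_ge p M j hM1)
    have hPR : (2 : ℝ) ≤ (scP p M j : ℕ) := by exact_mod_cast hP2
    have hlP : 0 < log (scP p M j : ℕ) := log_pos (by linarith)
    have hj0 : (0 : ℝ) ≤ j := Nat.cast_nonneg j
    have b1 := log_scP_le p M j (by omega) hM1
    have b2 : log ((j : ℝ) + 1) ≤ j := le_trans (log_le_sub_one_of_pos (by positivity)) (by linarith)
    -- the loss
    set n : ℝ := ((QQ C1 (scP p M j)).card : ℝ) with hn
    have hn0 : 0 ≤ n := Nat.cast_nonneg _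
    set S : ℝ := ∑ q ∈ QQ C1 (scP p M j), 4 * log q with hS
    have c1 : S ≤ n * (4 * (log C1 + log (scP p M j : ℕ))) := by
      rw [hS, hn, ← nsmul_eq_mul]
      refine Finset.sum_le_card_nsmul _ _ _ (fun q hq => ?_)
      have hq1 := (Finset.mem_Ioc.1 (Finset.mem_filter.1 hq).1)
      have hq2 : (q : ℝ) ≤ C1 * (scP p M j : ℕ) := by exact_mod_cast hq1.2
      have hq3 : (0 : ℝ) < q := by
        have : 0 < q := by omega
        exact_mod_cast this
      have := log_le_log hq3 hq2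
      rw [log_mul (by positivity) (by positivity)] at this
      linarith
    have c2 : 8 * (log C1 + log (scP p M j : ℕ)) ≤ ε * (M * (j + 1) ^ 2) := by
      have d1 : log C1 + log (scP p M j : ℕ) ≤ (log C1 + log p + log M + 2) * ((j : ℝ) + 1) ^ 2 := by
        have e1 : 2 * (j : ℝ) * log ((j : ℝ) + 1) ≤ 2 * j * j :=
          mul_le_mul_of_nonneg_left b2 (by positivity)
        have e2 : (1 : ℝ) ≤ ((j : ℝ) + 1) ^ 2 := by nlinarith
        have e3 : (j : ℝ) ≤ ((j : ℝ) + 1) ^ 2 := by nlinarith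
        have e4 : (j : ℝ) * j ≤ ((j : ℝ) + 1) ^ 2 := by nlinarith
        have e5 : (log C1 + log p) * 1 ≤ (log C1 + log p) * ((j : ℝ) + 1) ^ 2 :=
          mul_le_mul_of_nonneg_left e2 (by positivity)
        have e6 : (j : ℝ) * log M ≤ ((j : ℝ) + 1) ^ 2 * log M :=
          mul_le_mul_of_nonneg_right e3 hlM
        have e7 : (log C1 + log p + log M + 2) * ((j : ℝ) + 1) ^ 2 =
          (log C1 + log p) * ((j : ℝ) + 1) ^ 2 + ((j : ℝ) + 1) ^ 2 * log M +
            2 * ((j : ℝ) + 1) ^ 2 := by ring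
        rw [e7]
        linarith
      have d2 : 8 * (log C1 + log p + log M + 2) * ((j : ℝ) + 1) ^ 2 ≤ ε * M * ((j : ℝ) + 1) ^ 2 :=
        mul_le_mul_of_nonneg_right hM (by positivity)
      linarith
    have hm0 : (0 : ℝ) < M * (j + 1) ^ 2 := by
      have : (0 : ℝ) < M := by exact_mod_cast hM1
      positivity
    have c3 : S ≤ (ε / 2) * n * (M * (j + 1) ^ 2) := by
      refine le_trans c1 ?_
      have := mul_le_mul_of_nonneg_left c2 hn0
      linarith
    have hP0 : (0 : ℝ) < (scP p M j : ℕ) := by linarith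
    have c4 : S / ((K * scP p M (j + 1) : ℕ) : ℝ) ≤ (ε / 2) * n / (K * (scP p M j : ℕ)) := by
      rw [scP_succ]
      push_cast
      rw [div_le_div_iff₀ (by positivity) (by positivity)]
      have := mul_le_mul_of_nonneg_right c3 (show 0 ≤ (K : ℝ) * (scP p M j : ℕ) by positivity)
      linarith
    have c5 : (ε / 2) * n / (K * (scP p M j : ℕ)) ≤ ε * n / ((K * scP p M j : ℕ) : ℝ) -
        S / ((K * scP p M (j + 1) : ℕ) : ℝ) := by
      have : ε * n / ((K * scP p M j : ℕ) : ℝ) = 2 * ((ε / 2) * n / (K * (scP p M j : ℕ))) := by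
        push_cast
        field_simp
      rw [this]
      linarith
    refine le_trans ?_ c5
    -- the gain
    have c6 : ε * c / (2 * K) / log (scP p M j : ℕ) ≤ (ε / 2) * n / (K * (scP p M j : ℕ)) := by
      have d1 := hQ _ hP2
      have d2 : (ε / 2) * (c * (scP p M j : ℕ) / log (scP p M j : ℕ)) / (K * (scP p M j : ℕ)) ≤
          (ε / 2) * n / (K * (scP p M j : ℕ)) :=
        div_le_div_of_nonneg_right (mul_le_mul_of_nonneg_left d1 (by positivity)) (by positivity)
      refine le_trans (le_of_eq ?_) d2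
      field_simp
    refine le_trans ?_ c6
    have hl2 : (1 : ℝ) / 2 ≤ log 2 := by
      have := log_two_gt_d9
      linarith
    have hl2' : log 2 ≤ log ((j : ℝ) + 2) := log_le_log (by norm_num) (by linarith)
    have hlj : 0 < log ((j : ℝ) + 2) := by linarith
    have c7 : log (scP p M j : ℕ) ≤ A * (((j : ℝ) + 2) * log ((j : ℝ) + 2)) := by
      have e1 : (1 : ℝ) ≤ ((j : ℝ) + 2) * log ((j : ℝ) + 2) := by nlinarith
      have e2 : (j : ℝ) ≤ 2 * (((j : ℝ) + 2) * log ((j : ℝ) + 2)) := by nlinarith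
      have e3 : (j : ℝ) * log ((j : ℝ) + 1) ≤ ((j : ℝ) + 2) * log ((j : ℝ) + 2) := by
        have : log ((j : ℝ) + 1) ≤ log ((j : ℝ) + 2) := log_le_log (by positivity) (by linarith)
        have h6 : (j : ℝ) * log ((j : ℝ) + 1) ≤ j * log ((j : ℝ) + 2) :=
          mul_le_mul_of_nonneg_left this hj0
        linarith
      have e4 : log p * 1 ≤ log p * (((j : ℝ) + 2) * log ((j : ℝ) + 2)) :=
        mul_le_mul_of_nonneg_left e1 hlp
      have e5 : (j : ℝ) * log M ≤ 2 * (((j : ℝ) + 2) * log ((j : ℝ) + 2)) * log M :=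
        mul_le_mul_of_nonneg_right e2 hlM
      have e6 : A * (((j : ℝ) + 2) * log ((j : ℝ) + 2)) =
          log p * (((j : ℝ) + 2) * log ((j : ℝ) + 2)) +
          2 * (((j : ℝ) + 2) * log ((j : ℝ) + 2)) * log M +
          2 * (((j : ℝ) + 2) * log ((j : ℝ) + 2)) := by
        rw [hA]
        ring
      rw [e6]
      linarith
    have c8 : ε * c / (2 * K) / (A * (((j : ℝ) + 2) * log ((j : ℝ) + 2))) ≤
        ε * c / (2 * K) / log (scP p M j : ℕ) :=
      div_le_div_of_nonneg_left (by positivity) hlP c7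
    refine le_trans ?_ c8
    have c9 := mul_le_mul_of_nonneg_left (loglog_step j) hκ0.le
    refine le_trans c9 (le_of_eq ?_)
    rw [hκ]
    field_simp
  -- the total
  have htot : ∀ J : ℕ, κ * (log (log ((J : ℝ) + 2)) - log (log 2)) ≤
      ∑ j ∈ Finset.range J, (ε * ((QQ C1 (scP p M j)).card : ℝ) / ((K * scP p M j : ℕ) : ℝ) -
        (∑ q ∈ QQ C1 (scP p M j), 4 * log q) / ((K * scP p M (j + 1) : ℕ) : ℝ)) := by
    intro J
    induction J with
    | zero => simp
    | succ J ih =>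
      rw [Finset.sum_range_succ]
      have h1 := hterm J
      push_cast at h1 ih ⊢
      have h2 : (J : ℝ) + 1 + 2 = J + 3 := by ring
      rw [h2]
      linarith
  have hlim : Filter.Tendsto (fun J : ℕ => log (log ((J : ℝ) + 2))) Filter.atTop Filter.atTop :=
    tendsto_log_atTop.comp (tendsto_log_atTop.comp
      (Filter.tendsto_atTop_add_const_right _ _ tendsto_natCast_atTop_atTop))
  obtain ⟨J, hJ⟩ := (hlim.eventually (Filter.eventually_gt_atTop
    (h0 / κ + log (log 2)))).exists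
  refine ⟨J, scP p M, fun j => M * (j + 1) ^ 2, ?_, ?_, ?_, ?_, ?_⟩
  · exact le_trans hp0 (scP_ge p M 0 hM1)
  · exact le_trans hp2 (scP_ge p M 0 hM1)
  · intro j
    exact Nat.mul_pos hM1 (by positivity)
  · intro j
    exact scP_succ p M j
  · refine lt_of_lt_of_le ?_ (htot J)
    have h1 : h0 / κ < log (log ((J : ℝ) + 2)) - log (log 2) := by linarith
    rw [div_lt_iff₀ hκ0] at h1
    linarith

end Pool.Agent.LogCh
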