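import Pool.Agent.Lib.LogCh.ATrunc
import Pool.Agent.Lib.LogCh.AWin
import Pool.Agent.Lib.LogCh.AUnif
import Pool.Agent.Lib.LogCh.AEnt
import Pool.Agent.Lib.LogCh.AMult
import Pool.Agent.Lib.LogCh.BScales
import Pool.Agent.Lib.LogCh.BEnt

/-!
# Group A, module AFin: the decrement theorem (assembly, helper20)
-/

set_option autoImplicit false

namespace Pool.Agent.LogCh

open Real
open Pool.Agent.NSqP
open Pool.Agent.MP484c84Par (ballG mem_ballG crossG dotG)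

private theorem QQ_mem {C P q : ℕ} (h : q ∈ QQ C P) : P < q ∧ q ≤ C * P ∧ q.Prime ∧ q % 4 = 1 := by
  unfold QQ at h
  rw [Finset.mem_filter, Finset.mem_Ioc] at h
  exact ⟨h.1.1, h.1.2, h.2.1, h.2.2⟩

/-- the entropy decrement theorem applied to the Farey process -/
theorem ENTF (a a' b b' : ℝ) (h0 : ℝ) (hh0 : ∀ X : ℕ, 1 ≤ X →
      ent (mu X) (fun ω : Om X => XO a a' b b' ω) ≤ h0)
    (C1 K0 : ℕ) (hK0 : 1 ≤ K0) (J : ℕ) (P m : ℕ → ℕ) (hP0 : 1 ≤ P 0) (hm : ∀ j, 1 ≤ m j)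
    (hP : ∀ j, P (j + 1) = m j * P j) (η : ℝ) (hη : 0 < η) (hη1 : η ≤ 1 / 2)
    (hnum : h0 < ∑ j ∈ Finset.range J,
      (η * ((QQ C1 (P j)).card : ℝ) / ((2 * K0 * P j : ℕ) : ℝ) -
        (∑ q ∈ QQ C1 (P j), 4 * log q) / ((2 * K0 * P (j + 1) : ℕ) : ℝ)))
    (B : ℝ) (hB : 1 ≤ B) : ∃ X0 : ℕ, ∀ X : ℕ, X0 ≤ X → ∃ j < J,
      |∑ q ∈ QQ C1 (P j), ∑ ω : Om X, mu X ω *
        psiB B (K0 * P j) q (xo a a' b b' (nO ω) (pO ω)) (YO q ω)| ≤
          3 * B * √(η + η) * ((QQ C1 (P j)).card : ℝ) := by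
  have hU : ∀ j : ℕ, ∃ X0 : ℕ, ∀ X : ℕ, X0 ≤ X → ∀ y : (∀ q, YY q),
      (∑ ω : Om X, if ∀ q ∈ QQ C1 (P j), YO q ω = y q then mu X ω else 0) *
        ∏ q ∈ QQ C1 (P j), (Fintype.card (YY q) : ℝ) ≤ 1 + η :=
    fun j => UNIF (QQ C1 (P j)) (fun q hq => (QQ_mem hq).2.2.1) η hη
  choose X0 hX0 using hU
  refine ⟨(∑ j ∈ Finset.range J, X0 j) + 1, fun X hX => ?_⟩
  have hX1 : 1 ≤ X := by omega
  obtain ⟨T, hT⟩ := exists_TT X
  have key := ENT (mu X) (fun ω => mu_nonneg ω) (mu_sum hX1) T (fun ω => (hT ω).2)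
    (fun ω : Om X => XO a a' b b' ω) h0 (hh0 X hX1) YY (fun q ω => YO q ω) phi
    (fun q ω => by
      have h1 := (hT ω).1 1
      rw [pow_one] at h1
      unfold YO
      rw [h1.1, h1.2, sgi_one]
      exact YO_step q (pO_mem ω) _ rfl)
    J (fun j => 2 * K0 * P j) m (by
      show 1 ≤ 2 * K0 * P 0
      have := Nat.mul_le_mul hK0 hP0
      nlinarith) hm
    (fun j => by simp only [hP j]; ring)
    (fun j => QQ C1 (P j)) η η hη hη.le (by linarith)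
    (fun j hj y => hX0 j X (by
      have : X0 j ≤ ∑ j ∈ Finset.range J, X0 j :=
        Finset.single_le_sum (f := X0) (fun i _ => Nat.zero_le _) (Finset.mem_range.2 hj)
      omega) y)
    (by
      refine lt_of_lt_of_le hnum (Finset.sum_le_sum fun j _ => ?_)
      have h1 : ∑ q ∈ QQ C1 (P j), log (Fintype.card (YY q)) ≤ ∑ q ∈ QQ C1 (P j), 4 * log q := by
        refine Finset.sum_le_sum fun q hq => ?_
        have hq0 : q ≠ 0 := (QQ_mem hq).2.2.1.ne_zero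
        have h2 : (Fintype.card (YY q) : ℝ) ≤ (q : ℝ) ^ 4 := by exact_mod_cast card_YY_le hq0
        have h3 : (0 : ℝ) < Fintype.card (YY q) := by exact_mod_cast Fintype.card_pos
        have h4 := Real.log_le_log h3 h2
        rwa [Real.log_pow] at h4
      have h5 : (∑ q ∈ QQ C1 (P j), log (Fintype.card (YY q))) / ((2 * K0 * P (j + 1) : ℕ) : ℝ) ≤
          (∑ q ∈ QQ C1 (P j), 4 * log q) / ((2 * K0 * P (j + 1) : ℕ) : ℝ) :=
        div_le_div_of_nonneg_right h1 (Nat.cast_nonneg _)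
      linarith)
  obtain ⟨j, hj, hj2⟩ := key
  refine ⟨j, hj, ?_⟩
  have h6 := hj2 B hB (fun q x y => psiB B (K0 * P j) q (exw x) y)
    (fun q x y => psiB_bound B (by linarith) _ _ _ _) (fun q x => psiB_mean B _ _ _)
  refine le_trans (le_of_eq ?_) h6
  congr 1
  refine Finset.sum_congr rfl fun q _ => Finset.sum_congr rfl fun ω _ => ?_
  congr 1
  refine psiB_congr B _ _ _ _ _ fun i hi => ?_
  have hi' : i < 2 * K0 * P j := by rw [mul_assoc]; exact hi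
  unfold exw xo
  rw [dif_pos hi']
  simp only [XO]
  rw [((hT ω).1 i).1, ((hT ω).1 i).2]

private theorem bad_max (f : ℕ → ℕ) (J j : ℕ) (hj : j < J) : f j ≤ ∑ i ∈ Finset.range J, f i :=
  Finset.single_le_sum (f := f) (fun i _ => Nat.zero_le _) (Finset.mem_range.2 hj)

/-- linear combination of the estimates at one prime -/
private theorem comb_q (S1 aq' bq Eq Eb z ε1 ε2 ε3 q : ℝ) (hq : 0 < q) (hz : 0 ≤ z)
    (h1 : |S1 - aq'| ≤ ε1) (h2 : |z * Eq - (aq' - q / (q + 1) * bq)| ≤ ε2)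
    (h3 : |Eq - Eb| ≤ ε3) : |S1 - (z * Eb + bq)| ≤ ε1 + ε2 + z * ε3 + |bq| / q := by
  have e1 : S1 - (z * Eb + bq) = (S1 - aq') + -(z * Eq - (aq' - q / (q + 1) * bq)) +
      z * (Eq - Eb) + -(bq / (q + 1)) := by
    field_simp
    ring
  rw [e1]
  have h4 : |z * (Eq - Eb)| ≤ z * ε3 := by
    rw [abs_mul, abs_of_nonneg hz]
    exact mul_le_mul_of_nonneg_left h3 hz
  have h5 : |-(bq / (q + 1))| ≤ |bq| / q := by
    rw [abs_neg, abs_div, abs_of_pos (by linarith : (0 : ℝ) < q + 1)]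
    exact div_le_div_of_nonneg_left (abs_nonneg _) hq (by linarith)
  refine (abs_add_le _ _).trans (add_le_add ((abs_add_le _ _).trans (add_le_add
    ((abs_add_le _ _).trans (add_le_add h1 ?_)) h4)) h5)
  rwa [abs_neg]

private theorem fin_step (n S1 T U e1 e2 e3 e w R : ℝ) (hn : 0 < n)
    (g1 : |n * S1 - (T + U)| ≤ n * e1 + w) (g3 : |T| ≤ n * e2) (g4 : |U| ≤ n * R)
    (g5 : w ≤ n * e3) (h : e1 + e2 + e3 ≤ e) : |S1| ≤ e + R := by
  have h1 : |n * S1| = n * |S1| := by rw [abs_mul, abs_of_pos hn]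
  have h2 := abs_sub_abs_le_abs_sub (n * S1) (T + U)
  have h3 := abs_add_le T U
  have h4 : n * (e1 + e2 + e3) ≤ n * e := mul_le_mul_of_nonneg_left h hn.le
  have h5 : n * |S1| ≤ n * (e + R) := by
    rw [← h1]
    calc |n * S1| ≤ (n * e1 + w) + (n * e2 + n * R) := by linarith
      _ ≤ n * (e + R) := by
        have : n * (e1 + e2 + e3) = n * e1 + n * e2 + n * e3 := by ring
        have h6 : n * (e + R) = n * e + n * R := by ring
        linarith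
  exact le_of_mul_le_mul_left h5 hn

private theorem sum_step {ι : Type} (I : Finset ι) (S1 z : ℝ) (E : ι → ℝ) (b : ι → ℕ → ℝ)
    (M : Finset ℕ) :
    ∑ q ∈ I, (S1 - (z * E q + ∑ N ∈ M, b q N / (N : ℝ) ^ 2)) =
      I.card * S1 - (z * ∑ q ∈ I, E q + ∑ N ∈ M, (∑ q ∈ I, b q N) / (N : ℝ) ^ 2) := by
  have h1 : ∑ q ∈ I, ∑ N ∈ M, b q N / (N : ℝ) ^ 2 =
      ∑ N ∈ M, (∑ q ∈ I, b q N) / (N : ℝ) ^ 2 := by
    rw [Finset.sum_comm]
    refine Finset.sum_congr rfl fun N _ => ?_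
    rw [Finset.sum_div]
  rw [Finset.sum_sub_distrib, Finset.sum_const, nsmul_eq_mul, Finset.sum_add_distrib,
    ← Finset.mul_sum, h1]

theorem DECR_A (C1 : ℕ) (c : ℝ) (hC1 : 2 ≤ C1) (hc : 0 < c)
    (hQ : ∀ P : ℕ, 2 ≤ P → c * P / log P ≤ ((QQ C1 P).card : ℝ))
    (a a' b b' : ℝ) (ha : 0 < a) (haa : a < a') (ha1 : a' ≤ 1) (hb : 0 < b) (hbb : b < b')
    (hb1 : b' ≤ 1) (ε : ℝ) (hε : 0 < ε) (P0 : ℕ) :
    ∃ P1 X0 : ℕ, ∀ X : ℕ, X0 ≤ X → ∃ P : ℕ, P0 ≤ P ∧ P ≤ P1 ∧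
      |∑ N ∈ Finset.Icc 1 X, pairSum 1 a a' b b' N / (N : ℝ) ^ 2| ≤ ε * log X +
        ∑ N ∈ Finset.Icc 1 X, |∑ q ∈ QQ C1 P, pairSum q a a' b b' N| /
          ((N : ℝ) ^ 2 * (QQ C1 P).card) := by
  obtain ⟨Cm, hCm, hMult⟩ := MULT a a' b b' ha haa ha1 hb hbb hb1
  obtain ⟨CT, hCT, hTr⟩ := TRUNC a a' b b' ha
  obtain ⟨h0, hh0⟩ := ent_XO
  obtain ⟨Cz, hCz, hzu⟩ := zx_upper
  obtain ⟨Cd, hCd, hdp⟩ := card_dpairs
  -- the constants
  obtain ⟨B', hB'1, hB'⟩ : ∃ B' : ℝ, 1 ≤ B' ∧ Cz * (CT / B' ^ 2) ≤ ε / 10 := by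
    refine ⟨max 1 (10 * Cz * CT / ε), le_max_left _ _, ?_⟩
    set t := max 1 (10 * Cz * CT / ε) with ht
    have h1 : 1 ≤ t := le_max_left _ _
    have h2 : 10 * Cz * CT / ε ≤ t := le_max_right _ _
    rw [div_le_iff₀ hε] at h2
    rw [← mul_div_assoc, div_le_iff₀ (by positivity)]
    nlinarith [mul_le_mul_of_nonneg_left h1 (by positivity : 0 ≤ t * ε)]
  obtain ⟨B, hB1, hTrB⟩ := hTr B' hB'1
  obtain ⟨η, hη, hη1, hηB⟩ : ∃ η : ℝ, 0 < η ∧ η ≤ 1 / 2 ∧ Cz * (3 * B * √(η + η)) ≤ ε / 10 := by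
    set r := ε / (30 * Cz * B) with hr
    have hr0 : 0 < r := by positivity
    refine ⟨min (1 / 2) (r ^ 2 / 2), by positivity, min_le_left _ _, ?_⟩
    have h1 : √(min (1 / 2) (r ^ 2 / 2) + min (1 / 2) (r ^ 2 / 2)) ≤ r := by
      rw [show r = √(r ^ 2) by rw [Real.sqrt_sq hr0.le]]
      refine Real.sqrt_le_sqrt ?_
      have := min_le_right (1 / 2 : ℝ) (r ^ 2 / 2)
      rw [Real.sqrt_sq hr0.le]
      linarith
    calc Cz * (3 * B * √(min (1 / 2) (r ^ 2 / 2) + min (1 / 2) (r ^ 2 / 2)))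
        ≤ Cz * (3 * B * r) := by gcongr
      _ = ε / 10 := by rw [hr]; field_simp; norm_num
  obtain ⟨K0, hK01, hK0C, hK0⟩ : ∃ K0 : ℕ, 1 ≤ K0 ∧ C1 ≤ K0 ∧
      (C1 : ℝ) * (2 / √(a * b)) + 1 ≤ K0 := by
    refine ⟨max C1 ⌈(C1 : ℝ) * (2 / √(a * b)) + 1⌉₊, ?_, le_max_left _ _, ?_⟩
    · exact le_trans (by omega) (le_max_left _ _)
    · exact (Nat.le_ceil _).trans (by exact_mod_cast le_max_right _ _)
  obtain ⟨P0', hP0'0, hP0'1, hP0'm⟩ : ∃ P0' : ℕ, P0 ≤ P0' ∧ 1 ≤ P0' ∧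
      (Cm + Cd) / (P0' : ℝ) ≤ ε / 10 := by
    refine ⟨max (max P0 1) ⌈10 * (Cm + Cd) / ε⌉₊, (le_max_left _ _).trans (le_max_left _ _),
      (le_max_right _ _).trans (le_max_left _ _), ?_⟩
    set t := max (max P0 1) ⌈10 * (Cm + Cd) / ε⌉₊ with ht
    have h1 : 10 * (Cm + Cd) / ε ≤ t :=
      (Nat.le_ceil _).trans (by exact_mod_cast le_max_right _ _)
    have h2 : (0 : ℝ) < t := by
      have : 1 ≤ t := (le_max_right _ _).trans (le_max_left _ _)
      exact_mod_cast this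
    rw [div_le_iff₀ hε] at h1
    rw [div_le_iff₀ h2]
    linarith
  obtain ⟨J, P, m, hPP0, hP2, hm, hP, hnum⟩ := SCALES C1 c hC1 hc hQ (2 * K0) (by omega) η h0 hη P0'
  have hPmono : ∀ j, P 0 ≤ P j := by
    intro j
    induction j with
    | zero => exact le_rfl
    | succ j ih =>
      rw [hP j]
      exact ih.trans (Nat.le_mul_of_pos_left _ (hm j))
  obtain ⟨X1, hX1⟩ := ENTF a a' b b' h0 (fun X hX => hh0 X hX a a' b b') C1 K0 hK01 J P m
    (by omega) hm hP η hη hη1 hnum B hB1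
  -- per-prime constants
  have hW : ∀ j q : ℕ, ∃ W : ℝ, 0 ≤ W ∧ (q ∈ QQ C1 (P j) → ∀ X : ℕ, 1 ≤ X →
      |∑ N ∈ Finset.Icc 1 X, pairSum 1 a a' b b' N / (N : ℝ) ^ 2 -
        (zx X * (∑ ω : Om X, mu X ω *
          psiB B (K0 * P j) q (xo a a' b b' (nO ω) (pO ω)) (YO q ω)) +
          ∑ N ∈ Finset.Icc 1 X, pairSum q a a' b b' N / (N : ℝ) ^ 2)| ≤
        3 * (ε / 10) * (1 + log X) + W) := by
    intro j q
    by_cases hq : q ∈ QQ C1 (P j)
    swap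
    · exact ⟨0, le_rfl, fun h => absurd h hq⟩
    obtain ⟨hPq, hqC, hqp, hq4⟩ := QQ_mem hq
    have hPj : P0' ≤ P j := hPP0.trans (hPmono j)
    have hq0 : (0 : ℝ) < q := by exact_mod_cast hqp.pos
    have hqP0 : (P0' : ℝ) ≤ q := by exact_mod_cast (hPj.trans hPq.le)
    have hP0pos : (0 : ℝ) < P0' := by exact_mod_cast hP0'1
    have hqL : q ≤ K0 * P j := hqC.trans (Nat.mul_le_mul_right _ hK0C)
    have hL : 2 * (q : ℝ) / √(a * b) + 1 ≤ ((K0 * P j : ℕ) : ℝ) := by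
      have h1 : (q : ℝ) ≤ C1 * P j := by exact_mod_cast hqC
      have h2 : (1 : ℝ) ≤ P j := by
        have : 1 ≤ P j := by omega
        exact_mod_cast this
      have h3 : 0 < √(a * b) := Real.sqrt_pos.2 (by positivity)
      have h4 : 2 * (q : ℝ) / √(a * b) ≤ 2 * (C1 * P j) / √(a * b) := by gcongr
      have h5 : 2 * ((C1 : ℝ) * P j) / √(a * b) = (C1 : ℝ) * (2 / √(a * b)) * P j := by
        field_simp
      push_cast
      nlinarith [mul_le_mul_of_nonneg_right hK0 (by linarith : (0 : ℝ) ≤ P j)]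
    obtain ⟨D1, hD1, hTD⟩ := hTrB (K0 * P j) q hqp hq4 hqL
    obtain ⟨D2, hD2, hAv⟩ := psi0_avg a a' b b' ha hb hqp hq4 (K0 * P j) hL
    have hlq : 0 ≤ log q := Real.log_nonneg (by exact_mod_cast hqp.one_lt.le)
    refine ⟨Cm * (1 + log q) + D2 + Cz * D1, by positivity, fun _ X hX => ?_⟩
    have hlX : 0 ≤ log (X : ℝ) := Real.log_nonneg (by exact_mod_cast hX)
    have hκ : nN (pq q) = q := pq_spec hqp hq4
    have e1 := hMult (pq q) (by rw [hκ]; exact hqp) (by rw [hκ]; exact hq4) X hX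
    rw [hκ] at e1
    have e2 := hAv X hX
    have e3 : |∑ ω : Om X, mu X ω * psi0 (K0 * P j) q (xo a a' b b' (nO ω) (pO ω)) (YO q ω) -
        ∑ ω : Om X, mu X ω * psiB B (K0 * P j) q (xo a a' b b' (nO ω) (pO ω)) (YO q ω)| ≤
        CT / B' ^ 2 + D1 / (1 + log X) := by
      refine le_trans ?_ (hTD X hX)
      rw [← Finset.sum_sub_distrib]
      refine (Finset.abs_sum_le_sum_abs _ _).trans (Finset.sum_le_sum fun ω _ => ?_)
      rw [← mul_sub, abs_mul, abs_of_nonneg (mu_nonneg ω)]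
    have e2' : |zx X * (∑ ω : Om X, mu X ω *
        psi0 (K0 * P j) q (xo a a' b b' (nO ω) (pO ω)) (YO q ω)) -
        (∑ N ∈ Finset.Icc 1 X, (q : ℝ) * pairSumPi (pq q) a a' b b' N / (N : ℝ) ^ 2 -
          (q : ℝ) / (q + 1) * ∑ N ∈ Finset.Icc 1 X, pairSum q a a' b b' N / (N : ℝ) ^ 2)| ≤ D2 := by
      refine le_trans (le_of_eq ?_) e2
      congr 2
      rw [Finset.mul_sum, ← Finset.sum_sub_distrib]
      refine Finset.sum_congr rfl fun N _ => ?_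
      rw [sub_div, mul_div_assoc ((q : ℝ) / (q + 1))]
    have e4 := comb_q _ _ _ _ _ _ _ _ _ _ hq0 (zx_pos hX).le e1 e2' e3
    refine e4.trans ?_
    have hbq : |∑ N ∈ Finset.Icc 1 X, pairSum q a a' b b' N / (N : ℝ) ^ 2| ≤ Cd * (1 + log X) := by
      refine le_trans (Finset.abs_sum_le_sum_abs _ _) (le_trans (le_of_eq ?_)
        (log_avg (fun N => pairSum q a a' b b' N) Cd (fun N hN => ?_) X hX))
      · refine Finset.sum_congr rfl fun N _ => ?_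
        rw [abs_div, abs_of_nonneg (by positivity : (0 : ℝ) ≤ (N : ℝ) ^ 2)]
      · refine le_trans ?_ (hdp q N)
        unfold pairSum
        refine (Finset.abs_sum_le_sum_abs _ _).trans ?_
        rw [Finset.card_eq_sum_ones, Nat.cast_sum]
        refine Finset.sum_le_sum fun p _ => ?_
        rw [abs_mul, Nat.cast_one]
        exact mul_le_one₀ (abs_fc_le _ _ _ _) (abs_nonneg _) (abs_fc_le _ _ _ _)
    have f1 : Cm * ((1 + log X) / q + 1 + log q) ≤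
        Cm / P0' * (1 + log X) + Cm * (1 + log q) := by
      have : (1 + log X) / (q : ℝ) ≤ (1 + log X) / P0' :=
        div_le_div_of_nonneg_left (by positivity) hP0pos hqP0
      have h2 : Cm * ((1 + log X) / (q : ℝ)) ≤ Cm * ((1 + log X) / P0') :=
        mul_le_mul_of_nonneg_left this hCm.le
      have h3 : Cm * ((1 + log X) / (P0' : ℝ)) = Cm / P0' * (1 + log X) := by ring
      nlinarith
    have f2 : zx X * (CT / B' ^ 2 + D1 / (1 + log X)) ≤ ε / 10 * (1 + log X) + Cz * D1 := by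
      have h1 : 0 ≤ CT / B' ^ 2 + D1 / (1 + log X) := by positivity
      have h2 := mul_le_mul_of_nonneg_right (hzu X hX) h1
      have h3 : Cz * (1 + log X) * (CT / B' ^ 2 + D1 / (1 + log X)) =
          (Cz * (CT / B' ^ 2)) * (1 + log X) + Cz * D1 := by
        have : (1 + log (X : ℝ)) ≠ 0 := by positivity
        field_simp
      have h4 := mul_le_mul_of_nonneg_right hB' (by positivity : 0 ≤ 1 + log (X : ℝ))
      linarith
    have f3 : |∑ N ∈ Finset.Icc 1 X, pairSum q a a' b b' N / (N : ℝ) ^ 2| / q ≤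
        Cd / P0' * (1 + log X) := by
      calc |∑ N ∈ Finset.Icc 1 X, pairSum q a a' b b' N / (N : ℝ) ^ 2| / q
          ≤ (Cd * (1 + log X)) / P0' := div_le_div₀ (by positivity) hbq hP0pos hqP0
        _ = Cd / P0' * (1 + log X) := by ring
    have f4 : Cm / P0' * (1 + log X) + Cd / P0' * (1 + log X) ≤ ε / 10 * (1 + log X) := by
      rw [← add_mul, ← add_div]
      exact mul_le_mul_of_nonneg_right hP0'm (by positivity)
    have f5 : 0 ≤ ε / 10 * (1 + log (X : ℝ)) := by positivity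
    linarith
  choose W hW0 hWq using hW
  obtain ⟨X2, hX2⟩ : ∃ X2 : ℕ, ∀ X : ℕ, X2 ≤ X →
      1 ≤ log (X : ℝ) ∧ (∑ j ∈ Finset.range J, ∑ q ∈ QQ C1 (P j), W j q) ≤ ε / 10 * log X := by
    have ht : Filter.Tendsto (fun X : ℕ => log (X : ℝ)) Filter.atTop Filter.atTop :=
      Real.tendsto_log_atTop.comp tendsto_natCast_atTop_atTop
    obtain ⟨X2, hX2⟩ := Filter.eventually_atTop.1 (ht.eventually_ge_atTop
      (max 1 ((∑ j ∈ Finset.range J, ∑ q ∈ QQ C1 (P j), W j q) / (ε / 10))))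
    refine ⟨X2, fun X hX => ⟨(le_max_left _ _).trans (hX2 X hX), ?_⟩⟩
    have h1 := (le_max_right _ _).trans (hX2 X hX)
    rw [div_le_iff₀ (by positivity)] at h1
    linarith
  refine ⟨∑ i ∈ Finset.range J, P i, X1 + X2 + 1, fun X hX => ?_⟩
  obtain ⟨j, hj, hjE⟩ := hX1 X (by omega)
  obtain ⟨hl1, hlW⟩ := hX2 X (by omega)
  have hX1' : 1 ≤ X := by omega
  refine ⟨P j, by have := hPmono j; omega, bad_max P J j hj, ?_⟩
  set I := QQ C1 (P j) with hI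
  have hIpos : (0 : ℝ) < (I.card : ℝ) := by
    have h2 : 2 ≤ P j := hP2.trans (hPmono j)
    refine lt_of_lt_of_le ?_ (hQ (P j) h2)
    have h3 : (2 : ℝ) ≤ P j := by exact_mod_cast h2
    have h4 : 0 < log (P j : ℝ) := Real.log_pos (by linarith)
    positivity
  set S1 := ∑ N ∈ Finset.Icc 1 X, pairSum 1 a a' b b' N / (N : ℝ) ^ 2 with hS1
  -- sum over the primes
  have g1 : |∑ q ∈ I, (S1 - (zx X * (∑ ω : Om X, mu X ω *
          psiB B (K0 * P j) q (xo a a' b b' (nO ω) (pO ω)) (YO q ω)) +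
          ∑ N ∈ Finset.Icc 1 X, pairSum q a a' b b' N / (N : ℝ) ^ 2))| ≤
      I.card * (3 * (ε / 10) * (1 + log X)) + ∑ q ∈ I, W j q := by
    refine (Finset.abs_sum_le_sum_abs _ _).trans ?_
    refine (Finset.sum_le_sum fun q hq => hWq j q hq X hX1').trans ?_
    rw [Finset.sum_add_distrib, Finset.sum_const, nsmul_eq_mul]
  rw [sum_step I S1 (zx X) (fun q => ∑ ω : Om X, mu X ω *
          psiB B (K0 * P j) q (xo a a' b b' (nO ω) (pO ω)) (YO q ω))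
          (fun q N => pairSum q a a' b b' N) (Finset.Icc 1 X)] at g1
  have g3 : |zx X * (∑ q ∈ I, ∑ ω : Om X, mu X ω *
      psiB B (K0 * P j) q (xo a a' b b' (nO ω) (pO ω)) (YO q ω))| ≤
      I.card * (ε / 10 * (1 + log X)) := by
    rw [abs_mul, abs_of_pos (zx_pos hX1')]
    have hlX : 0 ≤ log (X : ℝ) := by linarith
    calc zx X * |∑ q ∈ I, ∑ ω : Om X, mu X ω *
          psiB B (K0 * P j) q (xo a a' b b' (nO ω) (pO ω)) (YO q ω)|
        ≤ (Cz * (1 + log X)) * (3 * B * √(η + η) * (I.card : ℝ)) :=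
          mul_le_mul (hzu X hX1') hjE (abs_nonneg _) (by positivity)
      _ = (Cz * (3 * B * √(η + η))) * ((1 + log X) * I.card) := by ring
      _ ≤ (ε / 10) * ((1 + log X) * I.card) :=
          mul_le_mul_of_nonneg_right hηB (by positivity)
      _ = I.card * (ε / 10 * (1 + log X)) := by ring
  have g4 : |∑ N ∈ Finset.Icc 1 X, (∑ q ∈ I, pairSum q a a' b b' N) / (N : ℝ) ^ 2| ≤
      I.card * ∑ N ∈ Finset.Icc 1 X, |∑ q ∈ I, pairSum q a a' b b' N| /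
        ((N : ℝ) ^ 2 * I.card) := by
    refine (Finset.abs_sum_le_sum_abs _ _).trans (le_of_eq ?_)
    rw [Finset.mul_sum]
    refine Finset.sum_congr rfl fun N _ => ?_
    rw [abs_div, abs_of_nonneg (by positivity : (0 : ℝ) ≤ (N : ℝ) ^ 2)]
    field_simp
  have g5 : ∑ q ∈ I, W j q ≤ I.card * (ε / 10 * log X) := by
    have h1 : ∑ q ∈ I, W j q ≤ ∑ j ∈ Finset.range J, ∑ q ∈ QQ C1 (P j), W j q :=
      Finset.single_le_sum (f := fun j => ∑ q ∈ QQ C1 (P j), W j q)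
        (fun i _ => Finset.sum_nonneg fun q _ => hW0 i q) (Finset.mem_range.2 hj)
    have h2 : (1 : ℝ) ≤ I.card := by
      have : 0 < I.card := by exact_mod_cast hIpos
      exact_mod_cast this
    have h3 : 0 ≤ ε / 10 * log (X : ℝ) := by positivity
    nlinarith
  refine fin_step (I.card : ℝ) S1 _ _ (3 * (ε / 10) * (1 + log X)) (ε / 10 * (1 + log X))
    (ε / 10 * log X) (ε * log X) _ _ hIpos g1 g3 g4 g5 ?_
  have h7 : 0 ≤ ε * (log (X : ℝ) - 1) := mul_nonneg hε.le (by linarith)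
  linarith

end Pool.Agent.LogCh
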