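import Pool.Agent.Lib.LogCh.ADefs

/-!
# Group A, module AGibbs: the Gibbs inequality

Let `S` be the image of `X` and `p x = prb μ X x`, so `Σ_{x ∈ S} p x = 1` and
`Σ_ω μ ω g(X ω) = Σ_{x ∈ S} p x g x` (`Finset.sum_fiberwise_of_maps_to` or sum exchange).
`negMulLog p ≤ p (- log r) + (r - p)` for `p ≥ 0`, `r > 0` (if `p = 0` clear; else
`log (r/p) ≤ r/p - 1`). Sum over `S`, using `Σ r ≤ 1 = Σ p`.
`wt`: `Σ_{n ∈ ℤ} 2^(-|n|-2) = 3/4`; for a finite set `S ⊆ [-M, M]` bound the sum by the geometric sums.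
For triples: `S ⊆ S1 × S2 × S3` (images) and the product of the sums.
-/

set_option autoImplicit false

namespace Pool.Agent.LogCh

open Real

private theorem gibbs_sum {Ω : Type} [Fintype Ω] (μ : Ω → ℝ) {𝒳 : Type} [DecidableEq 𝒳]
    (X : Ω → 𝒳) (g : 𝒳 → ℝ) :
    ∑ ω, μ ω * g (X ω) = ∑ a ∈ Finset.univ.image X, prb μ X a * g a := by
  have h1 : ∀ a, prb μ X a * g a = ∑ ω, if X ω = a then μ ω * g (X ω) else 0 := by
    intro a
    unfold prb
    rw [Finset.sum_mul]
    refine Finset.sum_congr rfl fun ω _ => ?_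
    by_cases h : X ω = a
    · rw [if_pos h, if_pos h, h]
    · rw [if_neg h, if_neg h, zero_mul]
  rw [Finset.sum_congr rfl fun a _ => h1 a, Finset.sum_comm]
  refine Finset.sum_congr rfl fun ω _ => ?_
  rw [Finset.sum_ite_eq, if_pos (Finset.mem_image_of_mem X (Finset.mem_univ ω))]

private theorem gibbs_point {p r : ℝ} (hp : 0 ≤ p) (hr : 0 < r) :
    Real.negMulLog p ≤ p * (- log r) + (r - p) := by
  rcases hp.eq_or_lt with h | h
  · rw [← h]; simp only [Real.negMulLog_zero, zero_mul, sub_zero, zero_add]; exact hr.le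
  · have h1 : log (r / p) ≤ r / p - 1 := Real.log_le_sub_one_of_pos (div_pos hr h)
    rw [Real.log_div hr.ne' h.ne'] at h1
    have h2 : p * (log r - log p) ≤ p * (r / p - 1) := mul_le_mul_of_nonneg_left h1 h.le
    have h3 : p * (r / p - 1) = r - p := by field_simp
    rw [h3] at h2
    unfold Real.negMulLog
    linarith

theorem ent_le_of_weight {Ω : Type} [Fintype Ω] (μ : Ω → ℝ) (h0 : ∀ ω, 0 ≤ μ ω)
    (h1 : ∑ ω, μ ω = 1) {𝒳 : Type} [DecidableEq 𝒳] (X : Ω → 𝒳) (r : 𝒳 → ℝ) (hr : ∀ x, 0 < r x)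
    (hs : ∀ S : Finset 𝒳, ∑ x ∈ S, r x ≤ 1) :
    ent μ X ≤ ∑ ω, μ ω * (- log (r (X ω))) := by
  rw [gibbs_sum μ X (fun a => - log (r a))]
  have hp0 : ∀ a, 0 ≤ prb μ X a := by
    intro a
    unfold prb
    refine Finset.sum_nonneg fun ω _ => ?_
    split_ifs
    · exact h0 ω
    · exact le_rfl
  have hp1 : ∑ a ∈ Finset.univ.image X, prb μ X a = 1 := by
    have h := gibbs_sum μ X (fun _ => (1 : ℝ))
    simp only [mul_one] at h
    rw [← h, h1]
  have h2 : ent μ X ≤ ∑ a ∈ Finset.univ.image X,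
      (prb μ X a * (- log (r a)) + (r a - prb μ X a)) := by
    unfold ent
    exact Finset.sum_le_sum fun a _ => gibbs_point (hp0 a) (hr a)
  rw [Finset.sum_add_distrib, Finset.sum_sub_distrib, hp1] at h2
  have h3 := hs (Finset.univ.image X)
  linarith

/-- a weight on the alphabet -/
noncomputable def wt (x : XX) : ℝ := (1 / 2 : ℝ) ^ (x.1.natAbs + x.2.1.natAbs + x.2.2.natAbs + 6)

private theorem geom_int (T : Finset ℤ) : ∑ n ∈ T, (1 / 2 : ℝ) ^ n.natAbs ≤ 4 := by
  classical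
  rw [← Finset.sum_fiberwise_of_maps_to (s := T) (t := T.image Int.natAbs) (g := Int.natAbs)
    (fun x hx => Finset.mem_image_of_mem _ hx)]
  have h1 : ∀ k ∈ T.image Int.natAbs, ∑ n ∈ T.filter (fun n => n.natAbs = k),
      (1 / 2 : ℝ) ^ n.natAbs ≤ 2 * (1 / 2 : ℝ) ^ k := by
    intro k _
    have h2 : ∑ n ∈ T.filter (fun n => n.natAbs = k), (1 / 2 : ℝ) ^ n.natAbs =
        ∑ n ∈ T.filter (fun n => n.natAbs = k), (1 / 2 : ℝ) ^ k := by
      refine Finset.sum_congr rfl fun n hn => ?_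
      rw [(Finset.mem_filter.1 hn).2]
    rw [h2, Finset.sum_const, nsmul_eq_mul]
    have h3 : (T.filter (fun n => n.natAbs = k)).card ≤ 2 := by
      have h4 : T.filter (fun n => n.natAbs = k) ⊆ {(k : ℤ), -(k : ℤ)} := by
        intro n hn
        have h5 := (Finset.mem_filter.1 hn).2
        rw [Finset.mem_insert, Finset.mem_singleton]
        omega
      exact (Finset.card_le_card h4).trans Finset.card_le_two
    have h6 : ((T.filter (fun n => n.natAbs = k)).card : ℝ) ≤ 2 := by exact_mod_cast h3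
    exact mul_le_mul_of_nonneg_right h6 (by positivity)
  refine (Finset.sum_le_sum h1).trans ?_
  rw [← Finset.mul_sum]
  have h7 : ∑ k ∈ T.image Int.natAbs, (1 / 2 : ℝ) ^ k ≤ 2 := by
    have h8 := Summable.sum_le_tsum (T.image Int.natAbs) (fun i _ => by positivity)
      summable_geometric_two
    rw [tsum_geometric_two] at h8
    exact h8
  linarith

theorem wt_sum (S : Finset XX) : ∑ x ∈ S, wt x ≤ 1 := by
  classical
  have h1 : S ⊆ (S.image fun x => x.1) ×ˢ (S.image fun x => x.2.1) ×ˢ (S.image fun x => x.2.2) := by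
    intro x hx
    simp only [Finset.mem_product]
    exact ⟨Finset.mem_image_of_mem _ hx, Finset.mem_image_of_mem _ hx,
      Finset.mem_image_of_mem _ hx⟩
  have h0 : ∀ x, 0 ≤ wt x := fun x => by unfold wt; positivity
  refine (Finset.sum_le_sum_of_subset_of_nonneg h1 fun x _ _ => h0 x).trans ?_
  have h2 : ∀ x : XX, wt x = (1 / 64) * ((1 / 2 : ℝ) ^ x.1.natAbs * ((1 / 2 : ℝ) ^ x.2.1.natAbs *
      (1 / 2 : ℝ) ^ x.2.2.natAbs)) := by
    intro x
    unfold wt
    rw [pow_add, pow_add, pow_add]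
    norm_num
    ring
  rw [Finset.sum_congr rfl fun x _ => h2 x, ← Finset.mul_sum, Finset.sum_product]
  have h3 : ∀ a ∈ S.image (fun x => x.1), ∑ y ∈ (S.image fun x => x.2.1) ×ˢ
      (S.image fun x => x.2.2), ((1 / 2 : ℝ) ^ (a : ℤ).natAbs * ((1 / 2 : ℝ) ^ y.1.natAbs *
      (1 / 2 : ℝ) ^ y.2.natAbs)) ≤ (1 / 2 : ℝ) ^ (a : ℤ).natAbs * (4 * 4) := by
    intro a _
    rw [← Finset.mul_sum, Finset.sum_product]
    refine mul_le_mul_of_nonneg_left ?_ (by positivity)
    have h8 := Finset.sum_mul_sum (S.image fun x => x.2.1) (S.image fun x => x.2.2)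
      (fun i : ℤ => (1 / 2 : ℝ) ^ i.natAbs) (fun j : ℤ => (1 / 2 : ℝ) ^ j.natAbs)
    refine (le_of_eq h8.symm).trans ?_
    exact mul_le_mul (geom_int _) (geom_int _) (Finset.sum_nonneg fun _ _ => by positivity)
      (by norm_num)
  have h4 := Finset.sum_le_sum h3
  rw [← Finset.sum_mul] at h4
  have h5 := geom_int (S.image fun x => x.1)
  have h6 : (∑ a ∈ S.image (fun x => x.1), (1 / 2 : ℝ) ^ (a : ℤ).natAbs) * (4 * 4) ≤ 4 * (4 * 4) :=
    mul_le_mul_of_nonneg_right h5 (by norm_num)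
  have h7 := h4.trans h6
  calc (1 / 64 : ℝ) * _ ≤ (1 / 64) * (4 * (4 * 4)) :=
        mul_le_mul_of_nonneg_left h7 (by norm_num)
    _ = 1 := by norm_num

theorem wt_log (x : XX) : - log (wt x) =
    ((x.1.natAbs + x.2.1.natAbs + x.2.2.natAbs + 6 : ℕ) : ℝ) * log 2 := by
  unfold wt
  rw [Real.log_pow, one_div, Real.log_inv]
  ring

end Pool.Agent.LogCh
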