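import Pool.Agent.Lib.LogCh.AAng
import Pool.Agent.Lib.LogCh.AQuad

/-!
# Group A, module AGood: a window without very short vectors has a small angle

`sep_count`: let `J ⊆ {0..L}` be such that consecutive elements are separated by at least `s > 0`
(`i < j` in `J` implies `s ≤ θ j - θ i`); then `(|J| - 1) s ≤ θ L`: induction on the cardinality, remove
the maximum (`θ (max J) ≥ (|J| - 1) s + θ (min J)`).

`good_angle`: put `n = √N`, `x_j = |z_j| / n ∈ (0, 1]`, `Θ = θ L`, `W = B' L ≥ 1`, all `x_j ≥ 1/W`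
(`j ≤ L`).
(1) `step` and `|z_j| + |z_{j+1}| ≥ |z_j + z_{j+1}| > n`: the larger one is `≥ n/2`, so
`1/(|z_j||z_{j+1}|) ≤ (2/n)(1/|z_j| + 1/|z_{j+1}|)`; sum: `Θ ≤ (8/n) Σ_{j ≤ L} 1/|z_j| = (8/N) Σ 1/x_j`.
(2) `#{j ≤ L : x_j ≤ r} ≤ Θ r^2 N + 1` for `r > 0`: for two such indices `i < j`, `crossG z_i z_j ≥ 1`
(`quad'`), norms `≤ r^2 N`, so by `IsAng.sep` the angle is `≥ 1/(r^2 N)`; `sep_count`.
(3) with `r0 = 1/64`, `r_i = r0 2^(-i)`: `Σ_j 1/x_j ≤ (L+1)/r0 + Σ_{i : r_i ≥ 1/W} #{x_j ≤ r_i} 2/r_i`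
(a term with `x_j ≤ r0` lies in a shell `r_i/2 < x_j ≤ r_i`, and `r_i ≥ x_j ≥ 1/W`)
`≤ 64 (L+1) + Σ_i (Θ r_i^2 N + 1) 2/r_i ≤ 64 (L+1) + 4 Θ r0 N + 4 W` (`Σ 2/r_i ≤ 4/r_last ≤ 4 W`).
(4) `Θ ≤ (8/N)(64 (L+1) + 4 W) + 32 r0 Θ = ... + Θ/2`, so `Θ ≤ (16/N)(64 (L+1) + 4 W) ≤ (2048 + 64 B') L/N`.
An alternative to (3) without shells: `1/x_j ≤ 64 + Σ_{i : r_i ≥ 1/W} (2/r_i) 1[x_j ≤ r_i]`.
-/

set_option autoImplicit false

namespace Pool.Agent.LogCh

open Real
open Pool.Agent.NSqP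
open Pool.Agent.MP484c84Par (ballG mem_ballG crossG dotG)

private theorem abs_le_of_sq_le' {x y : ℝ} (h : x ^ 2 ≤ y ^ 2) (hy : 0 ≤ y) : x ≤ y := by
  have h1 := abs_le_of_sq_le_sq h hy
  exact (le_abs_self x).trans h1

theorem sep_count {θ : ℕ → ℝ} (h0 : 0 ≤ θ 0) (hmono : ∀ i j, i ≤ j → θ i ≤ θ j) (L : ℕ) (s : ℝ)
    (hs : 0 ≤ s) (J : Finset ℕ) (hJ : ∀ j ∈ J, j ≤ L)
    (hsep : ∀ i ∈ J, ∀ j ∈ J, i < j → s ≤ θ j - θ i) : ((J.card : ℝ) - 1) * s ≤ θ L := by
  induction J using Finset.induction_on_max generalizing L with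
  | empty =>
    have h1 : 0 ≤ θ L := h0.trans (hmono 0 L (Nat.zero_le _))
    rw [Finset.card_empty]
    push_cast
    linarith
  | insert a J ha ih =>
    have hna : a ∉ J := fun h => lt_irrefl _ (ha a h)
    rw [Finset.card_insert_of_notMem hna]
    push_cast
    have haL : a ≤ L := hJ a (Finset.mem_insert_self a J)
    rcases J.eq_empty_or_nonempty with hE | hN
    · rw [hE, Finset.card_empty]
      have h1 : 0 ≤ θ L := h0.trans (hmono 0 L (Nat.zero_le _))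
      push_cast
      linarith
    · have hb := J.max'_mem hN
      have h2 := ih (J.max' hN) (fun j hj => J.le_max' j hj) (fun i hi j hj hij =>
        hsep i (Finset.mem_insert_of_mem hi) j (Finset.mem_insert_of_mem hj) hij)
      have h3 := hsep (J.max' hN) (Finset.mem_insert_of_mem hb) a (Finset.mem_insert_self a J)
        (ha _ hb)
      have h4 := hmono a L haL
      linarith

private theorem shells (W : ℝ) (hW : 0 < W) : ∃ K : ℕ,
    (∑ i ∈ Finset.range K, (2 : ℝ) ^ i ≤ W / 32) ∧ ∀ x : ℝ, 0 < x → 1 / W ≤ x →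
      1 / x ≤ 64 + ∑ i ∈ Finset.range K, if x ≤ 1 / (64 * 2 ^ i) then 128 * (2 : ℝ) ^ i else 0 := by
  by_cases h64 : 1 ≤ W / 64
  · obtain ⟨m, hm1, hm2⟩ := exists_nat_pow_near h64 (one_lt_two)
    refine ⟨m + 1, ?_, fun x hx hxW => ?_⟩
    · rw [geom_sum_eq (by norm_num)]
      have h1 : (2 : ℝ) ^ (m + 1) = 2 * 2 ^ m := by ring
      rw [h1]
      have h2 : (2 * (2 : ℝ) ^ m - 1) / (2 - 1) = 2 * 2 ^ m - 1 := by norm_num
      rw [h2]
      linarith
    · have hnn : ∀ i ∈ Finset.range (m + 1),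
          (0 : ℝ) ≤ if x ≤ 1 / (64 * 2 ^ i) then 128 * (2 : ℝ) ^ i else 0 := by
        intro i _
        split_ifs
        · positivity
        · exact le_rfl
      by_cases hx64 : 1 ≤ 1 / (64 * x)
      · obtain ⟨k, hk1, hk2⟩ := exists_nat_pow_near hx64 (one_lt_two)
        have hWx : 1 / (64 * x) ≤ W / 64 := by
          rw [div_le_div_iff₀ (by positivity) (by norm_num)]
          rw [div_le_iff₀ hW] at hxW
          nlinarith
        have hkm : k < m + 1 := by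
          have h3 : (2 : ℝ) ^ k < 2 ^ (m + 1) := (hk1.trans hWx).trans_lt hm2
          exact (pow_lt_pow_iff_right₀ one_lt_two).1 h3
        have hcond : x ≤ 1 / (64 * 2 ^ k) := by
          rw [le_div_iff₀ (by positivity)]
          rw [le_div_iff₀ (by positivity)] at hk1
          nlinarith
        have h5 := Finset.single_le_sum hnn (Finset.mem_range.2 hkm)
        rw [if_pos hcond] at h5
        have h6 : 1 / x ≤ 128 * (2 : ℝ) ^ k := by
          have h7 : 1 / x = 64 * (1 / (64 * x)) := by field_simp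
          rw [h7]
          have h8 : (2 : ℝ) ^ (k + 1) = 2 * 2 ^ k := by ring
          rw [h8] at hk2
          linarith
        linarith
      · have h9 : 1 / x ≤ 64 := by
          rw [not_le, div_lt_one (by positivity)] at hx64
          rw [div_le_iff₀ hx]
          linarith
        have h10 := Finset.sum_nonneg hnn
        linarith
  · refine ⟨0, ?_, fun x hx hxW => ?_⟩
    · rw [Finset.range_zero, Finset.sum_empty]; positivity
    · rw [Finset.range_zero, Finset.sum_empty, add_zero]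
      rw [not_le, div_lt_one (by norm_num)] at h64
      rw [div_le_iff₀ hW] at hxW
      rw [div_le_iff₀ hx]
      nlinarith

private theorem sum_halves (K : ℕ) : ∑ i ∈ Finset.range K, 1 / (2 : ℝ) ^ i ≤ 2 := by
  have h8 := Summable.sum_le_tsum (Finset.range K) (fun i _ => by positivity)
    summable_geometric_two
  rw [tsum_geometric_two] at h8
  refine le_trans (le_of_eq ?_) h8
  refine Finset.sum_congr rfl fun i _ => ?_
  rw [div_pow, one_pow]

private theorem step_bound {N : ℕ} (hN1 : 1 ≤ N) {z w : GaussianInt} (h : (z, w) ∈ CP N)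
    (hz : 0 < (nN z : ℝ)) (hw : 0 < (nN w : ℝ)) :
    2 / (√(nN z) * √(nN w)) ≤ (4 / √N) * (1 / √(nN z) + 1 / √(nN w)) := by
  have hn : 0 < √(N : ℝ) := Real.sqrt_pos.2 (by exact_mod_cast hN1)
  set a := √(nN z : ℝ) with ha
  set b := √(nN w : ℝ) with hb
  have ha0 : 0 < a := Real.sqrt_pos.2 hz
  have hb0 : 0 < b := Real.sqrt_pos.2 hw
  have ha2 : a ^ 2 = (nN z : ℝ) := Real.sq_sqrt hz.le
  have hb2 : b ^ 2 = (nN w : ℝ) := Real.sq_sqrt hw.le
  have hn2 : √(N : ℝ) ^ 2 = (N : ℝ) := Real.sq_sqrt (Nat.cast_nonneg _)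
  obtain ⟨_, _, _, h4⟩ := mem_CP.1 h
  have h5 : (N : ℝ) < (nN (z + w) : ℝ) := by exact_mod_cast h4
  have h6 : ((nN (z + w) : ℕ) : ℝ) = (nN z : ℝ) + (nN w : ℝ) + 2 * (dotG z w : ℝ) := by
    have := nN_add z w
    exact_mod_cast this
  have h7 : (dotG z w : ℝ) ^ 2 + (crossG z w : ℝ) ^ 2 = (nN z : ℝ) * (nN w : ℝ) := by
    have := dot_sq z w
    exact_mod_cast this
  have h8 : (dotG z w : ℝ) ≤ a * b := by
    refine abs_le_of_sq_le' ?_ (by positivity)
    rw [mul_pow, ha2, hb2, ← h7]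
    nlinarith [sq_nonneg (crossG z w : ℝ)]
  have h9 : √(N : ℝ) ^ 2 < (a + b) ^ 2 := by
    rw [hn2]
    nlinarith
  have h10 : √(N : ℝ) < a + b := lt_of_pow_lt_pow_left₀ 2 (by positivity) h9
  have h11 : 1 / a + 1 / b = (a + b) / (a * b) := by field_simp; ring
  rw [h11, div_mul_div_comm, div_le_div_iff₀ (by positivity) (by positivity)]
  have h12 : 0 < a * b := by positivity
  nlinarith [mul_pos h12 hn]

theorem good_angle (B' : ℝ) (hB : 1 ≤ B') (L N : ℕ) (hL : 1 ≤ L) (hN1 : 1 ≤ N)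
    (hN : 4 * L + 4 < (VV N).card) {z : GaussianInt} (hz : z ∈ VV N) {θ : ℕ → ℝ}
    (hθ : IsAng N z θ)
    (hgood : ∀ j ≤ L, (N : ℝ) / (B' * L) ^ 2 ≤ (nN (sgi N j z) : ℝ)) :
    θ L ≤ (2048 + 64 * B') * L / N := by
  have hL' : (1 : ℝ) ≤ L := by exact_mod_cast hL
  have hN' : (1 : ℝ) ≤ N := by exact_mod_cast hN1
  have hN0 : (0 : ℝ) < N := by linarith
  have hn : 0 < √(N : ℝ) := Real.sqrt_pos.2 hN0
  have hn2 : √(N : ℝ) ^ 2 = (N : ℝ) := Real.sq_sqrt hN0.le
  have hW : 0 < B' * L := by positivity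
  have hpos : ∀ j ≤ L, 0 < (nN (sgi N j z) : ℝ) := fun j hj =>
    lt_of_lt_of_le (by positivity) (hgood j hj)
  have hmono : ∀ i j, i ≤ j → θ i ≤ θ j := fun i j hij => hθ.le hij
  have hΘ0 : 0 ≤ θ L := by
    have h1 := hmono 0 L (Nat.zero_le _)
    rw [hθ.zero] at h1
    exact h1
  -- the first step
  have hstep : ∀ j ∈ Finset.range L, θ (j + 1) - θ j ≤
      (4 / √N) * (1 / √(nN (sgi N j z)) + 1 / √(nN (sgi N (j + 1) z))) := by
    intro j hj
    have hj' := Finset.mem_range.1 hj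
    refine (hθ.step j).trans ?_
    refine step_bound hN1 ?_ (hpos j hj'.le) (hpos (j + 1) hj')
    rw [sgi_succ]
    exact sg_CP (sgi_mem hz j)
  have hsum1 : θ L ≤ (8 / √N) * ∑ j ∈ Finset.range (L + 1), 1 / √(nN (sgi N j z)) := by
    have h1 := Finset.sum_le_sum hstep
    rw [Finset.sum_range_sub, hθ.zero, sub_zero, ← Finset.mul_sum, Finset.sum_add_distrib] at h1
    have hnn : ∀ j, 0 ≤ 1 / √(nN (sgi N j z) : ℝ) := fun j => by positivity
    have h2 : ∑ j ∈ Finset.range L, 1 / √(nN (sgi N j z) : ℝ) ≤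
        ∑ j ∈ Finset.range (L + 1), 1 / √(nN (sgi N j z) : ℝ) := by
      rw [Finset.sum_range_succ]
      have := hnn L
      linarith
    have h3 : ∑ j ∈ Finset.range L, 1 / √(nN (sgi N (j + 1) z) : ℝ) ≤
        ∑ j ∈ Finset.range (L + 1), 1 / √(nN (sgi N j z) : ℝ) := by
      rw [Finset.sum_range_succ']
      have := hnn 0
      linarith
    have h4 : (4 / √(N : ℝ)) * (∑ j ∈ Finset.range L, 1 / √(nN (sgi N j z) : ℝ) +
        ∑ j ∈ Finset.range L, 1 / √(nN (sgi N (j + 1) z) : ℝ)) ≤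
        (4 / √(N : ℝ)) * (2 * ∑ j ∈ Finset.range (L + 1), 1 / √(nN (sgi N j z) : ℝ)) :=
      mul_le_mul_of_nonneg_left (by linarith) (by positivity)
    refine h1.trans (h4.trans (le_of_eq ?_))
    ring
  -- the counts
  have hcount : ∀ r : ℝ, 0 < r → (((Finset.range (L + 1)).filter
      (fun j => √(nN (sgi N j z) : ℝ) / √N ≤ r)).card : ℝ) ≤ θ L * (r ^ 2 * N) + 1 := by
    intro r hr
    have hrN : 0 < r ^ 2 * N := by positivity
    have hle : ∀ j ∈ (Finset.range (L + 1)).filter (fun j => √(nN (sgi N j z) : ℝ) / √N ≤ r),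
        (nN (sgi N j z) : ℝ) ≤ r ^ 2 * N := by
      intro j hj
      have h1 := (Finset.mem_filter.1 hj).2
      rw [div_le_iff₀ hn] at h1
      have h2 : √(nN (sgi N j z) : ℝ) ^ 2 ≤ (r * √N) ^ 2 :=
        pow_le_pow_left₀ (Real.sqrt_nonneg _) h1 2
      rw [Real.sq_sqrt (Nat.cast_nonneg _), mul_pow, hn2] at h2
      exact h2
    have h3 := sep_count (θ := θ) (by rw [hθ.zero]) hmono L (1 / (r ^ 2 * N)) (by positivity)
      ((Finset.range (L + 1)).filter (fun j => √(nN (sgi N j z) : ℝ) / √N ≤ r))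
      (fun j hj => Nat.lt_succ_iff.1 (Finset.mem_range.1 (Finset.mem_filter.1 hj).1))
      (fun i hi j hj hij => by
        have hjL : j ≤ L := Nat.lt_succ_iff.1 (Finset.mem_range.1 (Finset.mem_filter.1 hj).1)
        refine hθ.sep hz hij.le 1 _ zero_le_one hrN ?_ (hle i hi) (hle j hj)
        have h4 := (quad' hN hz hij (by omega)).1
        have h5 : (1 : ℤ) ≤ crossG (sgi N i z) (sgi N j z) := h4
        exact_mod_cast h5)
    rw [mul_one_div, div_le_iff₀ hrN] at h3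
    linarith
  obtain ⟨K, hK1, hK2⟩ := shells (B' * L) hW
  have hx : ∀ j ∈ Finset.range (L + 1), 1 / (√(nN (sgi N j z) : ℝ) / √N) ≤
      64 + ∑ i ∈ Finset.range K, if √(nN (sgi N j z) : ℝ) / √N ≤ 1 / (64 * 2 ^ i) then
        128 * (2 : ℝ) ^ i else 0 := by
    intro j hj
    have hjL : j ≤ L := Nat.lt_succ_iff.1 (Finset.mem_range.1 hj)
    have h1 : 0 < √(nN (sgi N j z) : ℝ) := Real.sqrt_pos.2 (hpos j hjL)
    refine hK2 _ (by positivity) ?_
    rw [div_le_div_iff₀ hW hn, one_mul]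
    have h2 : √(N : ℝ) ^ 2 ≤ (√(nN (sgi N j z) : ℝ) * (B' * L)) ^ 2 := by
      rw [hn2, mul_pow, Real.sq_sqrt (Nat.cast_nonneg _)]
      have h3 := hgood j hjL
      rw [div_le_iff₀ (by positivity)] at h3
      exact h3
    exact abs_le_of_sq_le' h2 (by positivity)
  have hsum2 := Finset.sum_le_sum hx
  rw [Finset.sum_add_distrib, Finset.sum_const, Finset.card_range, Finset.sum_comm] at hsum2
  have hinner : ∀ i ∈ Finset.range K, (∑ j ∈ Finset.range (L + 1),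
      if √(nN (sgi N j z) : ℝ) / √N ≤ 1 / (64 * 2 ^ i) then 128 * (2 : ℝ) ^ i else 0) ≤
      θ L * N / 32 * (1 / (2 : ℝ) ^ i) + 128 * (2 : ℝ) ^ i := by
    intro i _
    rw [← Finset.sum_filter, Finset.sum_const, nsmul_eq_mul]
    have h1 := hcount (1 / (64 * 2 ^ i)) (by positivity)
    have h2 := mul_le_mul_of_nonneg_right h1 (show (0 : ℝ) ≤ 128 * 2 ^ i by positivity)
    refine h2.trans (le_of_eq ?_)
    have h3 : (2 : ℝ) ^ i ≠ 0 := by positivity
    field_simp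
    ring
  have hsum3 := Finset.sum_le_sum hinner
  rw [Finset.sum_add_distrib, ← Finset.mul_sum, ← Finset.mul_sum] at hsum3
  have h5 := sum_halves K
  have h6 : θ L * N / 32 * ∑ i ∈ Finset.range K, 1 / (2 : ℝ) ^ i ≤ θ L * N / 32 * 2 :=
    mul_le_mul_of_nonneg_left h5 (by positivity)
  have h7 : ∑ j ∈ Finset.range (L + 1), 1 / (√(nN (sgi N j z) : ℝ) / √N) ≤
      64 * (L + 1) + θ L * N / 16 + 4 * (B' * L) := by
    rw [nsmul_eq_mul] at hsum2
    push_cast at hsum2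
    linarith
  have h8 : ∑ j ∈ Finset.range (L + 1), 1 / (√(nN (sgi N j z) : ℝ) / √N) =
      √N * ∑ j ∈ Finset.range (L + 1), 1 / √(nN (sgi N j z) : ℝ) := by
    rw [Finset.mul_sum]
    refine Finset.sum_congr rfl fun j _ => ?_
    rw [one_div_div, mul_one_div]
  rw [h8] at h7
  have h9 : (8 / √(N : ℝ)) * ∑ j ∈ Finset.range (L + 1), 1 / √(nN (sgi N j z) : ℝ) =
      (8 / N) * (√N * ∑ j ∈ Finset.range (L + 1), 1 / √(nN (sgi N j z) : ℝ)) := by
    rw [← mul_assoc]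
    congr 1
    rw [div_mul_eq_mul_div, div_eq_div_iff hn.ne' hN0.ne', mul_assoc, ← sq, hn2]
  rw [h9] at hsum1
  have h10 : (8 / (N : ℝ)) * (√N * ∑ j ∈ Finset.range (L + 1), 1 / √(nN (sgi N j z) : ℝ)) ≤
      (8 / N) * (64 * (L + 1) + θ L * N / 16 + 4 * (B' * L)) :=
    mul_le_mul_of_nonneg_left h7 (by positivity)
  have h11 := hsum1.trans h10
  have h12 : (8 / (N : ℝ)) * (64 * (L + 1) + θ L * N / 16 + 4 * (B' * L)) =
      (8 / N) * (64 * (L + 1) + 4 * (B' * L)) + θ L / 2 := by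
    field_simp
    ring
  rw [h12] at h11
  have h13 : θ L ≤ (16 / N) * (64 * (L + 1) + 4 * (B' * L)) := by
    have h14 : (16 / (N : ℝ)) = 2 * (8 / N) := by ring
    rw [h14]
    linarith
  refine h13.trans ?_
  rw [div_mul_eq_mul_div]
  refine div_le_div_of_nonneg_right ?_ hN0.le
  nlinarith

end Pool.Agent.LogCh
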