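import Mathlib

/-!
# Group A, module AMReal: sums of `1 / N ^ 2` over intervals

`tail_sum`: for real `1 ≤ A ≤ B` and a natural number `X ≥ B`,
`|Σ_{N ∈ [A, B)} 1/N^2 - (1/A - 1/B)| ≤ 1/A^2`: with `n0 = ⌈A⌉`, `n1 = ⌈B⌉` the sum runs over
`n0 ≤ N < n1`. Upper bound: `1/N^2 ≤ 1/(N-1) - 1/N` for `N > n0` and the first term is `≤ 1/A^2`; the
telescoping sum is `1/n0 - 1/(n1 - 1) ≤ 1/A - 1/B` (`n1 - 1 < B`, `n0 ≥ A`) [if `n1 ≤ n0` the sum is empty
and `1/A - 1/B ≤ (B - A)/A^2 ≤ 1/A^2`]. Lower bound: `1/N^2 ≥ 1/N - 1/(N+1)`, sum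
`= 1/n0 - 1/n1 ≥ 1/n0 - 1/B`, and `1/A - 1/n0 ≤ (n0 - A)/A^2 ≤ 1/A^2`.

`main_cmp`: the conditions on `N` are `A ≤ N < B` with `A = max (x/a') (y/b')`, `B = min (x/a) (y/b)`,
and in the second sum `q A ≤ N < q B`. `A ≥ M := max x y ≥ 1`, `B ≤ M/δ`. If `B ≤ A` both sums are
empty. Otherwise two applications of `tail_sum` (with `A, B` and with `q A, q B`; `q B ≤ q M/δ ≤ X`), the
main terms agree: `q (1/(qA) - 1/(qB)) = 1/A - 1/B`.

`triv_one/two`: all `N` in the first sum satisfy `M ≤ N < M/δ`, so there are at most `M/δ` of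
them, each term `≤ 1/M^2`; in the second `q M ≤ N < q M/δ`.
-/

set_option autoImplicit false

namespace Pool.Agent.LogCh

private theorem amr_upper (n0 : ℕ) (h0 : 1 ≤ n0) (k : ℕ) :
    ∑ N ∈ Finset.Ico n0 (n0 + (k + 1)), 1 / (N : ℝ) ^ 2 ≤
      1 / (n0 : ℝ) ^ 2 + (1 / (n0 : ℝ) - 1 / ((n0 : ℝ) + k)) := by
  have hn0 : (1 : ℝ) ≤ n0 := by exact_mod_cast h0
  induction k with
  | zero => simp
  | succ k ih =>
    rw [← add_assoc n0 (k + 1) 1, Finset.sum_Ico_succ_top (by omega)]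
    have hk : (0 : ℝ) ≤ k := Nat.cast_nonneg k
    have e : 1 / ((n0 + (k + 1) : ℕ) : ℝ) ^ 2 ≤ 1 / ((n0 : ℝ) + k) - 1 / ((n0 : ℝ) + (k + 1 : ℕ)) := by
      push_cast
      have h1 : (0 : ℝ) < (n0 : ℝ) + k := by linarith
      have h2 : (0 : ℝ) < (n0 : ℝ) + (k + 1) := by linarith
      rw [div_sub_div _ _ h1.ne' h2.ne', div_le_div_iff₀ (by positivity) (by positivity)]
      nlinarith
    linarith

private theorem amr_lower (n0 : ℕ) (h0 : 1 ≤ n0) (k : ℕ) :
    1 / (n0 : ℝ) - 1 / ((n0 : ℝ) + k) ≤ ∑ N ∈ Finset.Ico n0 (n0 + k), 1 / (N : ℝ) ^ 2 := by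
  have hn0 : (1 : ℝ) ≤ n0 := by exact_mod_cast h0
  induction k with
  | zero => simp
  | succ k ih =>
    rw [← add_assoc n0 k 1, Finset.sum_Ico_succ_top (by omega)]
    have hk : (0 : ℝ) ≤ k := Nat.cast_nonneg k
    have e : 1 / ((n0 : ℝ) + k) - 1 / ((n0 : ℝ) + (k + 1 : ℕ)) ≤ 1 / ((n0 + k : ℕ) : ℝ) ^ 2 := by
      push_cast
      have h1 : (0 : ℝ) < (n0 : ℝ) + k := by linarith
      have h2 : (0 : ℝ) < (n0 : ℝ) + (k + 1) := by linarith
      rw [div_sub_div _ _ h1.ne' h2.ne', div_le_div_iff₀ (by positivity) (by positivity)]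
      nlinarith
    linarith

open Classical in
private theorem amr_filter (A B : ℝ) (hA : 1 ≤ A) (X : ℕ) (hX : B ≤ X) :
    (∑ N ∈ Finset.Icc 1 X, if A ≤ (N : ℝ) ∧ (N : ℝ) < B then 1 / (N : ℝ) ^ 2 else 0) =
      ∑ N ∈ Finset.Ico ⌈A⌉₊ ⌈B⌉₊, 1 / (N : ℝ) ^ 2 := by
  rw [← Finset.sum_filter]
  refine Finset.sum_congr ?_ fun _ _ => rfl
  ext N
  simp only [Finset.mem_filter, Finset.mem_Icc, Finset.mem_Ico]
  constructor
  · rintro ⟨⟨h1, h2⟩, h3, h4⟩
    exact ⟨Nat.ceil_le.2 h3, Nat.lt_ceil.2 h4⟩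
  · rintro ⟨h1, h2⟩
    have h3 := Nat.ceil_le.1 h1
    have h4 := Nat.lt_ceil.1 h2
    refine ⟨⟨?_, ?_⟩, h3, h4⟩
    · have : (1 : ℝ) ≤ (N : ℝ) := hA.trans h3
      exact_mod_cast this
    · have : (N : ℝ) ≤ (X : ℝ) := (h4.trans_le hX).le
      exact_mod_cast this

open Classical in
theorem tail_sum (A B : ℝ) (hA : 1 ≤ A) (hAB : A ≤ B) (X : ℕ) (hX : B ≤ X) :
    |(∑ N ∈ Finset.Icc 1 X, if A ≤ (N : ℝ) ∧ (N : ℝ) < B then 1 / (N : ℝ) ^ 2 else 0) -
      (1 / A - 1 / B)| ≤ 1 / A ^ 2 := by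
  rw [amr_filter A B hA X hX]
  have hA0 : 0 < A := by linarith
  have hB0 : 0 < B := by linarith
  set n0 := ⌈A⌉₊ with hn0
  set n1 := ⌈B⌉₊ with hn1
  have h01 : n0 ≤ n1 := Nat.ceil_mono hAB
  have hn0A : A ≤ (n0 : ℝ) := Nat.le_ceil A
  have hn1B : B ≤ (n1 : ℝ) := Nat.le_ceil B
  have hn0A' : (n0 : ℝ) < A + 1 := Nat.ceil_lt_add_one hA0.le
  have hn1B' : (n1 : ℝ) < B + 1 := Nat.ceil_lt_add_one hB0.le
  have hn0pos : 1 ≤ n0 := by
    have : (1 : ℝ) ≤ (n0 : ℝ) := hA.trans hn0A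
    exact_mod_cast this
  have hn0r : (0 : ℝ) < (n0 : ℝ) := by exact_mod_cast hn0pos
  obtain ⟨k, hk⟩ := Nat.exists_eq_add_of_le h01
  have hkr : (n1 : ℝ) = n0 + k := by rw [hk]; push_cast; ring
  rw [abs_le]
  constructor
  · -- lower bound
    have h1 := amr_lower n0 hn0pos k
    rw [← hk, ← hkr] at h1
    have h2 : 1 / (n1 : ℝ) ≤ 1 / B := one_div_le_one_div_of_le hB0 hn1B
    have h3 : 1 / A - 1 / (n0 : ℝ) ≤ 1 / A ^ 2 := by
      rw [div_sub_div _ _ hA0.ne' hn0r.ne', div_le_div_iff₀ (by positivity) (by positivity)]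
      nlinarith [mul_pos hA0 hn0r, mul_pos hA0 hA0]
    linarith
  · rcases Nat.eq_zero_or_pos k with hk0 | hkp
    · subst hk0
      rw [hk]
      simp only [add_zero, Finset.Ico_self, Finset.sum_empty]
      have h2 : 1 / B ≤ 1 / A := one_div_le_one_div_of_le hA0 hAB
      have h3 : (0 : ℝ) ≤ 1 / A ^ 2 := by positivity
      linarith
    · obtain ⟨j, rfl⟩ : ∃ j, k = j + 1 := ⟨k - 1, by omega⟩
      have h1 := amr_upper n0 hn0pos j
      rw [← hk] at h1
      have h2 : 1 / (n0 : ℝ) ^ 2 ≤ 1 / A ^ 2 := by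
        apply one_div_le_one_div_of_le (by positivity)
        gcongr
      have h3 : 1 / (n0 : ℝ) ≤ 1 / A := one_div_le_one_div_of_le hA0 hn0A
      have h4 : 1 / B ≤ 1 / ((n0 : ℝ) + j) := by
        apply one_div_le_one_div_of_le (by positivity)
        push_cast at hkr
        linarith
      linarith

open Classical in
/-- the first interval sum -/
noncomputable def iOne (a a' b b' : ℝ) (x y X : ℕ) : ℝ :=
  ∑ N ∈ Finset.Icc 1 X,
    if (a * N < (x : ℝ) ∧ (x : ℝ) ≤ a' * N) ∧ (b * N < (y : ℝ) ∧ (y : ℝ) ≤ b' * N)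
    then 1 / (N : ℝ) ^ 2 else 0

open Classical in
/-- the second interval sum -/
noncomputable def iTwo (a a' b b' : ℝ) (q x y X : ℕ) : ℝ :=
  ∑ N ∈ Finset.Icc 1 X,
    if (a * N < (q : ℝ) * x ∧ (q : ℝ) * x ≤ a' * N) ∧ (b * N < (q : ℝ) * y ∧ (q : ℝ) * y ≤ b' * N)
    then (q : ℝ) / (N : ℝ) ^ 2 else 0

private theorem amr_cond (a a' b b' : ℝ) (ha : 0 < a) (haa : a < a') (hb : 0 < b)
    (hbb : b < b') (q x y N : ℝ) (hq : 0 < q) :
    ((a * N < q * x ∧ q * x ≤ a' * N) ∧ (b * N < q * y ∧ q * y ≤ b' * N)) ↔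
      (q * max (x / a') (y / b') ≤ N ∧ N < q * min (x / a) (y / b)) := by
  have ha' : 0 < a' := ha.trans haa
  have hb' : 0 < b' := hb.trans hbb
  rw [mul_max_of_nonneg _ _ hq.le, mul_min_of_nonneg _ _ hq.le, max_le_iff, lt_min_iff,
    ← mul_div_assoc, ← mul_div_assoc, ← mul_div_assoc, ← mul_div_assoc, div_le_iff₀ ha',
    div_le_iff₀ hb', lt_div_iff₀ ha, lt_div_iff₀ hb, mul_comm N a', mul_comm N b', mul_comm N a,
    mul_comm N b]
  tauto

theorem main_cmp (a a' b b' : ℝ) (ha : 0 < a) (haa : a < a') (ha1 : a' ≤ 1) (hb : 0 < b)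
    (hbb : b < b') (hb1 : b' ≤ 1) (q x y X : ℕ) (hq : 1 ≤ q) (hx : 1 ≤ x) (hy : 1 ≤ y)
    (hX : (q : ℝ) * (max x y : ℕ) / min a b ≤ X) :
    |iOne a a' b b' x y X - iTwo a a' b b' q x y X| ≤ 2 / ((max x y : ℕ) : ℝ) ^ 2 := by
  classical
  have ha' : 0 < a' := ha.trans haa
  have hb' : 0 < b' := hb.trans hbb
  have hδ : 0 < min a b := lt_min ha hb
  have hqr : (1 : ℝ) ≤ q := by exact_mod_cast hq
  have hxr : (1 : ℝ) ≤ x := by exact_mod_cast hx
  have hyr : (1 : ℝ) ≤ y := by exact_mod_cast hy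
  set M : ℝ := ((max x y : ℕ) : ℝ) with hM
  have hxM : (x : ℝ) ≤ M := by
    rw [hM]; exact_mod_cast le_max_left x y
  have hyM : (y : ℝ) ≤ M := by
    rw [hM]; exact_mod_cast le_max_right x y
  have hM1 : 1 ≤ M := hxr.trans hxM
  set A : ℝ := max ((x : ℝ) / a') ((y : ℝ) / b') with hA
  set B : ℝ := min ((x : ℝ) / a) ((y : ℝ) / b) with hB
  have hxA : (x : ℝ) ≤ A := by
    refine le_trans ?_ (le_max_left _ _)
    rw [le_div_iff₀ ha']
    nlinarith
  have hyA : (y : ℝ) ≤ A := by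
    refine le_trans ?_ (le_max_right _ _)
    rw [le_div_iff₀ hb']
    nlinarith
  have hMA : M ≤ A := by
    rcases le_total x y with h | h
    · rw [hM, max_eq_right h]; exact hyA
    · rw [hM, max_eq_left h]; exact hxA
  have hA1 : 1 ≤ A := hM1.trans hMA
  have hqB : (q : ℝ) * B ≤ X := by
    refine le_trans ?_ hX
    rw [mul_div_assoc]
    refine mul_le_mul_of_nonneg_left ?_ (by linarith)
    rcases le_total a b with h | h
    · rw [min_eq_left h]
      refine (min_le_left _ _).trans ?_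
      exact div_le_div_of_nonneg_right hxM ha.le
    · rw [min_eq_right h]
      refine (min_le_right _ _).trans ?_
      exact div_le_div_of_nonneg_right hyM hb.le
  have e1 : iOne a a' b b' x y X =
      ∑ N ∈ Finset.Icc 1 X, if A ≤ (N : ℝ) ∧ (N : ℝ) < B then 1 / (N : ℝ) ^ 2 else 0 := by
    unfold iOne
    refine Finset.sum_congr rfl fun N _ => ?_
    have h := amr_cond a a' b b' ha haa hb hbb 1 x y N one_pos
    simp only [one_mul] at h
    exact if_congr h rfl rfl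
  have e2 : iTwo a a' b b' q x y X =
      q * ∑ N ∈ Finset.Icc 1 X, if q * A ≤ (N : ℝ) ∧ (N : ℝ) < q * B then 1 / (N : ℝ) ^ 2 else 0 := by
    unfold iTwo
    rw [Finset.mul_sum]
    refine Finset.sum_congr rfl fun N _ => ?_
    have h := amr_cond a a' b b' ha haa hb hbb q x y N (by linarith)
    rw [mul_ite, mul_zero, ← mul_div_assoc, mul_one]
    exact if_congr h rfl rfl
  have hM2 : 1 / A ^ 2 ≤ 1 / M ^ 2 := by
    apply one_div_le_one_div_of_le (by positivity)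
    gcongr
  rcases lt_or_ge B A with hBA | hAB
  · have z1 : iOne a a' b b' x y X = 0 := by
      rw [e1]
      refine Finset.sum_eq_zero fun N _ => if_neg ?_
      rintro ⟨h1, h2⟩
      linarith
    have z2 : iTwo a a' b b' q x y X = 0 := by
      rw [e2]
      refine mul_eq_zero_of_right _ (Finset.sum_eq_zero fun N _ => if_neg ?_)
      rintro ⟨h1, h2⟩
      have : (q : ℝ) * B < q * A := mul_lt_mul_of_pos_left hBA (by linarith)
      linarith
    rw [z1, z2, sub_zero, abs_zero]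
    positivity
  · have hB1 : 1 ≤ B := hA1.trans hAB
    have hBX : B ≤ X := by
      refine le_trans ?_ hqB
      nlinarith
    have t1 := tail_sum A B hA1 hAB X hBX
    have hqA : 1 ≤ (q : ℝ) * A := by nlinarith
    have hqAB : (q : ℝ) * A ≤ q * B := mul_le_mul_of_nonneg_left hAB (by linarith)
    have t2 := tail_sum (q * A) (q * B) hqA hqAB X hqB
    rw [← e1] at t1
    set S := ∑ N ∈ Finset.Icc 1 X, if q * A ≤ (N : ℝ) ∧ (N : ℝ) < q * B then 1 / (N : ℝ) ^ 2 else 0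
      with hS
    have e3 : iTwo a a' b b' q x y X - (1 / A - 1 / B) = q * (S - (1 / (q * A) - 1 / (q * B))) := by
      rw [e2]
      have : (q : ℝ) ≠ 0 := by positivity
      have hA0 : A ≠ 0 := by positivity
      have hB0 : B ≠ 0 := by positivity
      field_simp
    have t3 : |iTwo a a' b b' q x y X - (1 / A - 1 / B)| ≤ 1 / A ^ 2 := by
      rw [e3, abs_mul, abs_of_nonneg (by linarith : (0 : ℝ) ≤ q)]
      calc (q : ℝ) * |S - (1 / (q * A) - 1 / (q * B))| ≤ q * (1 / (q * A) ^ 2) :=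
            mul_le_mul_of_nonneg_left t2 (by linarith)
        _ = 1 / (q * A ^ 2) := by
            have : (q : ℝ) ≠ 0 := by positivity
            field_simp
        _ ≤ 1 / A ^ 2 := by
            apply one_div_le_one_div_of_le (by positivity)
            nlinarith [sq_nonneg A]
    calc |iOne a a' b b' x y X - iTwo a a' b b' q x y X|
        = |(iOne a a' b b' x y X - (1 / A - 1 / B)) -
            (iTwo a a' b b' q x y X - (1 / A - 1 / B))| := by ring_nf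
      _ ≤ |iOne a a' b b' x y X - (1 / A - 1 / B)| +
            |iTwo a a' b b' q x y X - (1 / A - 1 / B)| := abs_sub _ _
      _ ≤ 1 / A ^ 2 + 1 / A ^ 2 := add_le_add t1 t3
      _ ≤ 1 / M ^ 2 + 1 / M ^ 2 := add_le_add hM2 hM2
      _ = 2 / M ^ 2 := by ring

private theorem amr_triv (X : ℕ) (P : ℕ → Prop) [DecidablePred P] (g : ℕ → ℝ) (c T : ℝ) (hT : 0 ≤ T) (hc : 0 ≤ c)
    (hg : ∀ N ∈ Finset.Icc 1 X, P N → (N : ℝ) < T ∧ g N ≤ c) :
    (∑ N ∈ Finset.Icc 1 X, if P N then g N else 0) ≤ T * c := by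
  rw [← Finset.sum_filter]
  have h1 : ∑ N ∈ (Finset.Icc 1 X).filter P, g N ≤
      ((Finset.Icc 1 X).filter P).card • c := by
    refine Finset.sum_le_card_nsmul _ _ _ fun N hN => ?_
    rw [Finset.mem_filter] at hN
    exact (hg N hN.1 hN.2).2
  refine h1.trans ?_
  rw [nsmul_eq_mul]
  refine mul_le_mul_of_nonneg_right ?_ hc
  have h2 : (Finset.Icc 1 X).filter P ⊆ Finset.Icc 1 ⌊T⌋₊ := by
    intro N hN
    rw [Finset.mem_filter] at hN
    rw [Finset.mem_Icc]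
    exact ⟨(Finset.mem_Icc.1 hN.1).1, Nat.le_floor (hg N hN.1 hN.2).1.le⟩
  have h3 := Finset.card_le_card h2
  rw [Nat.card_Icc, Nat.add_sub_cancel] at h3
  calc (((Finset.Icc 1 X).filter P).card : ℝ) ≤ (⌊T⌋₊ : ℝ) := by exact_mod_cast h3
    _ ≤ T := Nat.floor_le hT

private theorem amr_max_le (a' b' : ℝ) (ha1 : a' ≤ 1) (hb1 : b' ≤ 1) (x y N q : ℝ) (hN : 0 ≤ N)
    (h1 : q * x ≤ a' * N) (h2 : q * y ≤ b' * N) : q * x ≤ N ∧ q * y ≤ N := by
  constructor <;> nlinarith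

theorem triv_two (a a' b b' : ℝ) (ha : 0 < a) (haa : a < a') (ha1 : a' ≤ 1) (hb : 0 < b)
    (hbb : b < b') (hb1 : b' ≤ 1) (q x y X : ℕ) (hq : 1 ≤ q) (hx : 1 ≤ x) (hy : 1 ≤ y) :
    0 ≤ iTwo a a' b b' q x y X ∧ iTwo a a' b b' q x y X ≤ 1 / (min a b * (max x y : ℕ)) := by
  classical
  have hδ : 0 < min a b := lt_min ha hb
  have hqr : (1 : ℝ) ≤ q := by exact_mod_cast hq
  have hxr : (1 : ℝ) ≤ x := by exact_mod_cast hx
  have hyr : (1 : ℝ) ≤ y := by exact_mod_cast hy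
  set M : ℝ := ((max x y : ℕ) : ℝ) with hM
  have hxM : (x : ℝ) ≤ M := by
    rw [hM]; exact_mod_cast le_max_left x y
  have hyM : (y : ℝ) ≤ M := by
    rw [hM]; exact_mod_cast le_max_right x y
  have hM1 : 1 ≤ M := hxr.trans hxM
  constructor
  · unfold iTwo
    refine Finset.sum_nonneg fun N _ => ?_
    split_ifs
    · positivity
    · exact le_rfl
  · unfold iTwo
    have key := amr_triv X
      (fun N : ℕ => (a * N < (q : ℝ) * x ∧ (q : ℝ) * x ≤ a' * N) ∧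
        (b * N < (q : ℝ) * y ∧ (q : ℝ) * y ≤ b' * N))
      (fun N : ℕ => (q : ℝ) / (N : ℝ) ^ 2) (q / (q * M) ^ 2) (q * M / min a b)
      (by positivity) (by positivity) (by
        rintro N hN ⟨⟨h1, h2⟩, h3, h4⟩
        have hN0 : (0 : ℝ) ≤ N := Nat.cast_nonneg N
        obtain ⟨h5, h6⟩ := amr_max_le a' b' ha1 hb1 x y N q hN0 h2 h4
        have h7 : (q : ℝ) * M ≤ N := by
          rcases le_total x y with h | h
          · rw [hM, max_eq_right h]; exact h6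
          · rw [hM, max_eq_left h]; exact h5
        constructor
        · rw [lt_div_iff₀ hδ]
          rcases le_total a b with h | h
          · rw [min_eq_left h]
            nlinarith
          · rw [min_eq_right h]
            nlinarith
        · gcongr)
    refine key.trans (le_of_eq ?_)
    have : (q : ℝ) ≠ 0 := by positivity
    have : M ≠ 0 := by positivity
    field_simp

theorem triv_one (a a' b b' : ℝ) (ha : 0 < a) (haa : a < a') (ha1 : a' ≤ 1) (hb : 0 < b)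
    (hbb : b < b') (hb1 : b' ≤ 1) (x y X : ℕ) (hx : 1 ≤ x) (hy : 1 ≤ y) :
    0 ≤ iOne a a' b b' x y X ∧ iOne a a' b b' x y X ≤ 1 / (min a b * (max x y : ℕ)) := by
  classical
  have h := triv_two a a' b b' ha haa ha1 hb hbb hb1 1 x y X le_rfl hx hy
  have e : iTwo a a' b b' 1 x y X = iOne a a' b b' x y X := by
    unfold iTwo iOne
    refine Finset.sum_congr rfl fun N _ => ?_
    simp
  rwa [e] at h

end Pool.Agent.LogCh
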