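import Pool.Agent.Lib.LogCh.ASucc

/-!
# Group A, module ANext: consecutive points and reachability

`next_step`: `v = x z + y w` with `x = crossG v w`, `y = crossG z v > 0` (`comb`). If `w × v ≤ 0`,
i.e. `x ≥ 0`: if `x = 0` then `v = y w` is primitive, so `y = 1` (`y > 0` divides the content) and
`v = w`; if `x ≥ 1`, `y ≥ 1` then by `nN_comb` and `CP_dot`, `N v ≥ N z + N w + 2 <z,w> = N(z+w) > N`,
contradiction.

`between`: let `u, v ∈ VV N`, `u × v > 0`, `<u,v> > 0`, and suppose `z_1, .., z_J ≠ v`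
(`z_j = sgi N j u`). By induction on `j ≤ J`: `z_j × v > 0`, and (`j ≥ 1`) `u × z_j > 0`, and
`<u, z_j> > 0`. Step: `z_{j+1} × v > 0` by `next_step`; by `plucker` with `a = u, b = v, c = z_j,
d = z_{j+1}`: `u × v = (u × z_j)(v × z_{j+1}) - (u × z_{j+1})(v × z_j)`, so
`(u × z_{j+1}) (z_j × v) = (u × v) + (u × z_j)(z_{j+1} × v) > 0`. For the scalar product: with
`m = u × v`, `m z_j = (z_j × v) u + (u × z_j) v` (check coordinates), so
`m <u,z_j> = (z_j × v) N u + (u × z_j) <u,v> > 0`.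

`reach`: real numbers `t_j = (u × z_j)/<u,z_j>`: by `cross_dot'` (`a = z_j`, `b = z_{j+1}`),
`t_{j+1} - t_j = N u/(<u,z_j><u,z_{j+1}>) ≥ 1/N` because `<u,z>^2 ≤ N u N z ≤ N u N` (`dot_sq`);
similarly `t_J < (u × v)/<u,v>` by `cross_dot'` with `a = z_J`, `b = v`. Hence if
`z_1, .., z_J ≠ v` then `J <u,v> ≤ J <u,v> ... < (u × v) N`, i.e. `J * <u,v> ≤ (u × v) N`. Take `k`
minimal with `z_k = v` (it exists since `<u,v> ≥ 1` bounds `J`), and `J = k - 1`.
-/

set_option autoImplicit false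

namespace Pool.Agent.LogCh

open Real
open Pool.Agent.NSqP
open Pool.Agent.MP484c84Par (ballG mem_ballG crossG dotG)

theorem next_step {N : ℕ} {z w v : GaussianInt} (h : (z, w) ∈ CP N) (hv : v ∈ VV N)
    (hc : 0 < crossG z v) : v = w ∨ 0 < crossG w v := by
  have hd := CP_dot h
  obtain ⟨a1, a2, a3, a4⟩ := mem_CP.1 h
  obtain ⟨hvN, hvp⟩ := mem_VV.1 hv
  have e1 := comb a3 v
  rcases lt_trichotomy (crossG v w) 0 with hx | hx | hx
  · right
    rw [cross_swap]; omega
  · left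
    rw [hx] at e1
    have e2 : v = ((crossG z v : ℤ) : GaussianInt) * w := by
      conv_lhs => rw [e1]
      push_cast; ring
    have hre : v.re = crossG z v * w.re := by
      conv_lhs => rw [e2]
      simp
    have him : v.im = crossG z v * w.im := by
      conv_lhs => rw [e2]
      simp
    have hdvd : crossG z v ∣ ((Int.gcd v.re v.im : ℕ) : ℤ) :=
      Int.dvd_coe_gcd ⟨_, hre⟩ ⟨_, him⟩
    have hg : Int.gcd v.re v.im = 1 := hvp
    rw [hg] at hdvd
    have h1 : crossG z v = 1 := by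
      have h2 := Int.le_of_dvd (by norm_num) hdvd
      push_cast at h2
      omega
    rw [e2, h1]; push_cast; ring
  · exfalso
    have e2 := nN_comb (crossG v w) (crossG z v) z w
    rw [← e1] at e2
    have e3 := nN_add z w
    have h5 : (N : ℤ) < ((nN (z + w) : ℕ) : ℤ) := by exact_mod_cast a4
    have h6 : ((nN v : ℕ) : ℤ) ≤ (N : ℤ) := by exact_mod_cast hvN
    rw [e3] at h5
    rw [e2] at h6
    have hx1 : 1 ≤ crossG v w := hx
    have hy1 : 1 ≤ crossG z v := hc
    have hn1 : (0 : ℤ) ≤ (nN z : ℤ) := Nat.cast_nonneg _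
    have hn2 : (0 : ℤ) ≤ (nN w : ℤ) := Nat.cast_nonneg _
    have g1 : (0 : ℤ) ≤ crossG v w ^ 2 - 1 := by nlinarith
    have g2 : (0 : ℤ) ≤ crossG z v ^ 2 - 1 := by nlinarith
    have g3 : (0 : ℤ) ≤ crossG v w * crossG z v - 1 := by nlinarith
    nlinarith [mul_nonneg g1 hn1, mul_nonneg g2 hn2, mul_nonneg g3 hd]

theorem between {N : ℕ} {u v : GaussianInt} (hu : u ∈ VV N) (hv : v ∈ VV N)
    (hc : 0 < crossG u v) (hd : 0 < dotG u v) (J : ℕ) (hJ : ∀ j, 1 ≤ j → j ≤ J → sgi N j u ≠ v)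
    (j : ℕ) (hj : j ≤ J) :
    0 < crossG (sgi N j u) v ∧ 0 < dotG u (sgi N j u) ∧ (1 ≤ j → 0 < crossG u (sgi N j u)) := by
  have hnu : (0 : ℤ) < (nN u : ℤ) := by
    exact_mod_cast nN_pos (prim_ne_zero (mem_VV.1 hu).2)
  induction j with
  | zero =>
    rw [sgi_zero]
    refine ⟨hc, ?_, fun h => absurd h (by norm_num)⟩
    rw [dot_self]; exact hnu
  | succ j ih =>
    obtain ⟨h1, h2, h3⟩ := ih (by omega)
    have hcp := sg_CP (sgi_mem hu j)
    have hcr : crossG (sgi N j u) (sgi N (j + 1) u) = 1 := sgi_cross hu j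
    have h4 : 0 < crossG (sgi N (j + 1) u) v := by
      rw [sgi_succ]
      rcases next_step hcp hv h1 with h | h
      · exfalso
        apply hJ (j + 1) (by omega) hj
        rw [sgi_succ]; exact h.symm
      · exact h
    have h5 : 0 ≤ crossG u (sgi N j u) := by
      rcases Nat.eq_zero_or_pos j with h | h
      · subst h; rw [sgi_zero, cross_self]
      · exact (h3 h).le
    have h6 := plucker u v (sgi N j u) (sgi N (j + 1) u)
    rw [hcr, cross_swap (sgi N (j + 1) u) v, cross_swap (sgi N j u) v] at h6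
    have h7 : 0 < crossG u (sgi N (j + 1) u) * crossG (sgi N j u) v := by
      nlinarith [mul_nonneg h5 h4.le]
    have h8 : 0 < crossG u (sgi N (j + 1) u) := by
      by_contra hcon
      have := mul_nonpos_of_nonpos_of_nonneg (not_lt.1 hcon) h1.le
      linarith
    have h9 := cross_dot' u (sgi N (j + 1) u) v
    have h10 : 0 < crossG u v * dotG u (sgi N (j + 1) u) := by
      nlinarith [mul_pos h4 hnu, mul_pos h8 hd]
    refine ⟨h4, ?_, fun _ => h8⟩
    by_contra hcon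
    have := mul_nonpos_of_nonneg_of_nonpos hc.le (not_lt.1 hcon)
    linarith

private lemma dot_sq_le {N : ℕ} {u z : GaussianInt} (hz : nN z ≤ N) :
    dotG u z ^ 2 ≤ (nN u : ℤ) * N := by
  have h1 := dot_sq u z
  have h2 : (nN u : ℤ) * (nN z : ℤ) ≤ (nN u : ℤ) * N := by
    apply mul_le_mul_of_nonneg_left _ (Nat.cast_nonneg _)
    exact_mod_cast hz
  nlinarith [sq_nonneg (crossG u z)]

private lemma reach_aux {N : ℕ} {u v : GaussianInt} (hu : u ∈ VV N) (hv : v ∈ VV N)
    (hc : 0 < crossG u v) (hd : 0 < dotG u v) (J : ℕ)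
    (hJ : ∀ j, 1 ≤ j → j ≤ J → sgi N j u ≠ v) (j : ℕ) (hj : j ≤ J) :
    (j : ℤ) * dotG u (sgi N j u) ≤ crossG u (sgi N j u) * N := by
  induction j with
  | zero => rw [sgi_zero, cross_self]; simp
  | succ j ih =>
    have h0 := ih (by omega)
    obtain ⟨_, h2, _⟩ := between hu hv hc hd J hJ j (by omega)
    obtain ⟨_, h5, _⟩ := between hu hv hc hd J hJ (j + 1) hj
    have hcr : crossG (sgi N j u) (sgi N (j + 1) u) = 1 := sgi_cross hu j
    have h7 := cross_dot' u (sgi N j u) (sgi N (j + 1) u)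
    rw [hcr, one_mul] at h7
    have h8 := dot_sq_le (u := u) (mem_VV.1 (sgi_mem hu j)).1
    have h9 := dot_sq_le (u := u) (mem_VV.1 (sgi_mem hu (j + 1))).1
    have h10 : dotG u (sgi N j u) * dotG u (sgi N (j + 1) u) ≤ (nN u : ℤ) * N := by
      nlinarith [sq_nonneg (dotG u (sgi N j u) - dotG u (sgi N (j + 1) u))]
    have h11 : dotG u (sgi N j u) * ((((j + 1 : ℕ) : ℤ)) * dotG u (sgi N (j + 1) u)) ≤
        dotG u (sgi N j u) * (crossG u (sgi N (j + 1) u) * N) := by
      have h12 := mul_le_mul_of_nonneg_right h0 h5.le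
      have h13 : dotG u (sgi N j u) * (crossG u (sgi N (j + 1) u) * N) =
          (nN u : ℤ) * N + crossG u (sgi N j u) * N * dotG u (sgi N (j + 1) u) := by
        linear_combination (N : ℤ) * h7
      rw [h13]
      push_cast
      nlinarith
    exact le_of_mul_le_mul_left h11 h2

private lemma reach_bound {N : ℕ} {u v : GaussianInt} (hu : u ∈ VV N) (hv : v ∈ VV N)
    (hc : 0 < crossG u v) (hd : 0 < dotG u v) (J : ℕ)
    (hJ : ∀ j, 1 ≤ j → j ≤ J → sgi N j u ≠ v) :
    (J : ℤ) * dotG u v ≤ crossG u v * N := by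
  have h0 := reach_aux hu hv hc hd J hJ J le_rfl
  obtain ⟨h1, h2, _⟩ := between hu hv hc hd J hJ J le_rfl
  have h7 := cross_dot' u (sgi N J u) v
  have hnu : (0 : ℤ) ≤ (nN u : ℤ) := Nat.cast_nonneg _
  have h8 : crossG u (sgi N J u) * dotG u v ≤ crossG u v * dotG u (sgi N J u) := by
    nlinarith [mul_nonneg h1.le hnu]
  have hN : (0 : ℤ) ≤ (N : ℤ) := Nat.cast_nonneg _
  have h11 : dotG u (sgi N J u) * ((J : ℤ) * dotG u v) ≤
      dotG u (sgi N J u) * (crossG u v * N) := by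
    have h12 := mul_le_mul_of_nonneg_right h0 hd.le
    have h13 := mul_le_mul_of_nonneg_right h8 hN
    nlinarith
  exact le_of_mul_le_mul_left h11 h2

theorem reach {N : ℕ} {u v : GaussianInt} (hu : u ∈ VV N) (hv : v ∈ VV N)
    (hc : 0 < crossG u v) (hd : 0 < dotG u v) :
    ∃ k : ℕ, 1 ≤ k ∧ sgi N k u = v ∧ ((k : ℤ) - 1) * dotG u v ≤ crossG u v * N := by
  classical
  have hex : ∃ k : ℕ, 1 ≤ k ∧ sgi N k u = v := by
    by_contra hcon
    have hne : ∀ k : ℕ, 1 ≤ k → sgi N k u ≠ v := fun k hk h => hcon ⟨k, hk, h⟩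
    have h1 := reach_bound hu hv hc hd ((crossG u v * N).toNat + 1) (fun j hj _ => hne j hj)
    have h2 : 0 ≤ crossG u v * (N : ℤ) := mul_nonneg hc.le (Nat.cast_nonneg _)
    push_cast at h1
    rw [Int.toNat_of_nonneg h2] at h1
    nlinarith
  refine ⟨Nat.find hex, (Nat.find_spec hex).1, (Nat.find_spec hex).2, ?_⟩
  have h1 : 1 ≤ Nat.find hex := (Nat.find_spec hex).1
  have h2 := reach_bound hu hv hc hd (Nat.find hex - 1) (fun j hj hj' h =>
    Nat.find_min hex (show j < Nat.find hex by omega) ⟨hj, h⟩)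
  have h3 : (((Nat.find hex - 1 : ℕ) : ℕ) : ℤ) = (Nat.find hex : ℤ) - 1 := by
    push_cast [Nat.cast_sub h1]; ring
  rw [h3] at h2
  exact h2

end Pool.Agent.LogCh
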