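import Pool.Agent.Lib.LogCh.ADefs

/-!
# Group A, module ASLT: counting in `SL₂(F_q)`

`card_YY_le`: `YY q` embeds in the 4-tuples of `ZMod q` (`md q = q`).
`sl_count`: for a prime `q`, a nonzero row `(r0, r1)` and a nonzero column `(c0, c1)`:
`(q + 1) #{y : (r0,r1) y (c0,c1)^T = 0} = #SL₂(F_q)`. Proof: choose `g ∈ SL₂` with first column
`(c0, c1)` (`c0 ≠ 0`: `(c0, 0; c1, c0⁻¹)`, else `(0, -c1⁻¹; c1, 0)`); `y ↦ y g` is a bijection, so one
may take `(c0, c1) = (1, 0)`. Now every nonzero vector `v` is the first column of exactly `q` elements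
of `SL₂(F_q)` (fibres of `y ↦ first column` are translates of the stabiliser
`{(1, t; 0, 1)}`: `y ↦ y (1, t; 0, 1)`; or parametrise directly), there are `q^2 - 1` nonzero vectors
and `q - 1` nonzero vectors `v` with `r0 v0 + r1 v1 = 0`; `(q+1) (q-1) q = (q^2-1) q`.
(Alternative: the number `n(r)` of `y` whose first column is orthogonal to `r` does not depend on
`r ≠ 0`; `Σ_{r ≠ 0} n(r) = (q - 1) #SL₂`, so `(q^2 - 1) n = (q-1) #SL₂`.)
`wgt_sum`: apply this with `r = (-im (pq q), re (pq q))` (nonzero mod `q` since `re^2 + im^2 = q` and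
`0 < re^2, im^2 < q`), `c` with `gcd = 1`.
-/

set_option autoImplicit false

namespace Pool.Agent.LogCh

open Real
open Pool.Agent.NSqP
open Pool.Agent.MP484c84Par (ballG mem_ballG crossG dotG)

private lemma md_eq {q : ℕ} (hq : q ≠ 0) : md q = q := by
  unfold md
  rw [if_neg hq]

theorem card_YY_le {q : ℕ} (hq : q ≠ 0) : Fintype.card (YY q) ≤ q ^ 4 := by
  have h1 : Fintype.card (YY q) ≤ Fintype.card (Fin 2 → Fin 2 → ZMod (md q)) :=
    Fintype.card_le_of_injective (fun y : YY q => fun i j => y.1 i j) (by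
      intro y y' h
      apply Subtype.ext
      ext i j
      exact congrFun (congrFun h i) j)
  refine h1.trans (le_of_eq ?_)
  rw [Fintype.card_fun, Fintype.card_fun, ZMod.card, Fintype.card_fin, md_eq hq, ← pow_mul]

section count

variable (q : ℕ) [Fact q.Prime]

private def vm (c : ZMod q × ZMod q) (y : Matrix.SpecialLinearGroup (Fin 2) (ZMod q)) :
    ZMod q × ZMod q :=
  (y.1 0 0 * c.1 + y.1 0 1 * c.2, y.1 1 0 * c.1 + y.1 1 1 * c.2)

private lemma det_eq (y : Matrix.SpecialLinearGroup (Fin 2) (ZMod q)) :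
    y.1 0 0 * y.1 1 1 - y.1 0 1 * y.1 1 0 = 1 := by
  have h := y.2
  rw [Matrix.det_fin_two] at h
  exact h

private lemma vm_ne {c : ZMod q × ZMod q} (hc : c ≠ 0)
    (y : Matrix.SpecialLinearGroup (Fin 2) (ZMod q)) : vm q c y ≠ 0 := by
  intro h
  apply hc
  have h1 : y.1 0 0 * c.1 + y.1 0 1 * c.2 = 0 := congrArg Prod.fst h
  have h2 : y.1 1 0 * c.1 + y.1 1 1 * c.2 = 0 := congrArg Prod.snd h
  have hd := det_eq q y
  have h3 : c.1 = 0 := by linear_combination y.1 1 1 * h1 - y.1 0 1 * h2 - c.1 * hd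
  have h4 : c.2 = 0 := by linear_combination y.1 0 0 * h2 - y.1 1 0 * h1 - c.2 * hd
  exact Prod.ext h3 h4

private lemma vm_mul (c : ZMod q × ZMod q) (g y : Matrix.SpecialLinearGroup (Fin 2) (ZMod q)) :
    vm q c (g * y) = vm q (vm q c y) g := by
  unfold vm
  have h : (g * y).1 = g.1 * y.1 := rfl
  rw [h]
  simp only [Matrix.mul_apply, Fin.sum_univ_two]
  refine Prod.ext ?_ ?_ <;> simp only <;> ring

private lemma exists_vm {v : ZMod q × ZMod q} (hv : v ≠ 0) :
    ∃ g : Matrix.SpecialLinearGroup (Fin 2) (ZMod q), vm q (1, 0) g = v := by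
  by_cases h : v.1 = 0
  · have h2 : v.2 ≠ 0 := by
      intro h2
      exact hv (Prod.ext h h2)
    refine ⟨⟨!![0, -(v.2)⁻¹; v.2, 0], ?_⟩, ?_⟩
    · rw [Matrix.det_fin_two_of]
      field_simp
      ring
    · unfold vm
      refine Prod.ext ?_ ?_
      · simp [h]
      · simp
  · refine ⟨⟨!![v.1, 0; v.2, (v.1)⁻¹], ?_⟩, ?_⟩
    · rw [Matrix.det_fin_two_of]
      field_simp
      ring
    · unfold vm
      refine Prod.ext ?_ ?_ <;> simp

private lemma fiber_card (c : ZMod q × ZMod q) {v : ZMod q × ZMod q} (hv : v ≠ 0) :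
    (Finset.univ.filter fun y => vm q c y = v).card =
      (Finset.univ.filter fun y => vm q c y = (1, 0)).card := by
  obtain ⟨g, hg⟩ := exists_vm q hv
  symm
  refine Finset.card_bij (fun y _ => g * y) ?_ ?_ ?_
  · intro y hy
    rw [Finset.mem_filter] at hy ⊢
    exact ⟨Finset.mem_univ _, by rw [vm_mul, hy.2, hg]⟩
  · intro y _ y' _ h
    exact mul_left_cancel h
  · intro y hy
    rw [Finset.mem_filter] at hy
    refine ⟨g⁻¹ * y, ?_, mul_inv_cancel_left g y⟩
    rw [Finset.mem_filter]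
    refine ⟨Finset.mem_univ _, ?_⟩
    have h1 : vm q c (g * (g⁻¹ * y)) = v := by rw [mul_inv_cancel_left]; exact hy.2
    rw [vm_mul, ← hg] at h1
    -- injectivity of the action of `g`
    set a := vm q c (g⁻¹ * y) with ha
    have h3 : vm q (a - (1, 0)) g = 0 := by
      have e1 := congrArg Prod.fst h1
      have e2 := congrArg Prod.snd h1
      unfold vm at e1 e2 ⊢
      simp only at e1 e2
      refine Prod.ext ?_ ?_
      · simp only [Prod.fst_sub, Prod.snd_sub, Prod.fst_zero]
        linear_combination e1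
      · simp only [Prod.fst_sub, Prod.snd_sub, Prod.snd_zero]
        linear_combination e2
    by_contra h4
    exact vm_ne q (sub_ne_zero.2 h4) g h3

private lemma ker_card {r : ZMod q × ZMod q} (hr : r ≠ 0) :
    (Finset.univ.filter fun v : ZMod q × ZMod q => v ≠ 0 ∧ r.1 * v.1 + r.2 * v.2 = 0).card =
      q - 1 := by
  have h1 : (Finset.univ.filter fun t : ZMod q => t ≠ 0).card = q - 1 := by
    rw [Finset.filter_ne' , Finset.card_erase_of_mem (Finset.mem_univ _), Finset.card_univ,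
      ZMod.card]
  rw [← h1]
  symm
  refine Finset.card_bij (fun t _ => (t * r.2, -(t * r.1))) ?_ ?_ ?_
  · intro t ht
    rw [Finset.mem_filter] at ht ⊢
    refine ⟨Finset.mem_univ _, ?_, by ring⟩
    intro h
    have e1 : t * r.2 = 0 := congrArg Prod.fst h
    have e2 : -(t * r.1) = 0 := congrArg Prod.snd h
    apply hr
    refine Prod.ext ?_ ?_
    · have := neg_eq_zero.1 e2
      exact (mul_eq_zero.1 this).resolve_left ht.2
    · exact (mul_eq_zero.1 e1).resolve_left ht.2
  · intro t _ t' _ h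
    have e1 : t * r.2 = t' * r.2 := congrArg Prod.fst h
    have e2 : -(t * r.1) = -(t' * r.1) := congrArg Prod.snd h
    have e3 := neg_injective e2
    by_cases h2 : r.2 = 0
    · have h3 : r.1 ≠ 0 := fun h3 => hr (Prod.ext h3 h2)
      exact mul_right_cancel₀ h3 e3
    · exact mul_right_cancel₀ h2 e1
  · intro v hv
    rw [Finset.mem_filter] at hv
    obtain ⟨-, hv0, hv1⟩ := hv
    by_cases h2 : r.2 = 0
    · have h3 : r.1 ≠ 0 := fun h3 => hr (Prod.ext h3 h2)
      have h4 : v.1 = 0 := by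
        rw [h2, zero_mul, add_zero] at hv1
        exact (mul_eq_zero.1 hv1).resolve_left h3
      refine ⟨-(v.2 / r.1), ?_, ?_⟩
      · rw [Finset.mem_filter]
        refine ⟨Finset.mem_univ _, ?_⟩
        intro h5
        have h6 := (div_eq_zero_iff.1 (neg_eq_zero.1 h5)).resolve_right h3
        exact hv0 (Prod.ext h4 h6)
      · refine Prod.ext ?_ ?_
        · simp only; rw [h2, h4]; ring
        · simp only; field_simp
    · refine ⟨v.1 / r.2, ?_, ?_⟩
      · rw [Finset.mem_filter]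
        refine ⟨Finset.mem_univ _, ?_⟩
        intro h5
        have h6 := (div_eq_zero_iff.1 h5).resolve_right h2
        apply hv0
        refine Prod.ext h6 ?_
        rw [h6, mul_zero, zero_add] at hv1
        exact (mul_eq_zero.1 hv1).resolve_left h2
      · refine Prod.ext ?_ ?_
        · simp only; field_simp
        · simp only
          field_simp
          linear_combination (-1 : ZMod q) * hv1

private lemma nz_card : (Finset.univ.filter fun v : ZMod q × ZMod q => v ≠ 0).card = q ^ 2 - 1 := by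
  rw [Finset.filter_ne', Finset.card_erase_of_mem (Finset.mem_univ _), Finset.card_univ,
    Fintype.card_prod, ZMod.card, sq]

end count

theorem sl_count (q : ℕ) [Fact q.Prime] (r0 r1 c0 c1 : ZMod q) (hr : r0 ≠ 0 ∨ r1 ≠ 0)
    (hc : c0 ≠ 0 ∨ c1 ≠ 0) :
    (q + 1) * (Finset.univ.filter (fun y : Matrix.SpecialLinearGroup (Fin 2) (ZMod q) =>
      r0 * (y.1 0 0 * c0 + y.1 0 1 * c1) + r1 * (y.1 1 0 * c0 + y.1 1 1 * c1) = 0)).card =
      Fintype.card (Matrix.SpecialLinearGroup (Fin 2) (ZMod q)) := by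
  have hr' : ((r0, r1) : ZMod q × ZMod q) ≠ 0 := by
    intro h
    have e1 : r0 = 0 := congrArg Prod.fst h
    have e2 : r1 = 0 := congrArg Prod.snd h
    rcases hr with h | h
    · exact h e1
    · exact h e2
  have hc' : ((c0, c1) : ZMod q × ZMod q) ≠ 0 := by
    intro h
    have e1 : c0 = 0 := congrArg Prod.fst h
    have e2 : c1 = 0 := congrArg Prod.snd h
    rcases hc with h | h
    · exact h e1
    · exact h e2
  set f := (Finset.univ.filter fun y => vm q (c0, c1) y = (1, 0)).card with hf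
  have h1 : Fintype.card (Matrix.SpecialLinearGroup (Fin 2) (ZMod q)) = (q ^ 2 - 1) * f := by
    rw [← Finset.card_univ, Finset.card_eq_sum_card_fiberwise (f := vm q (c0, c1))
      (t := Finset.univ.filter fun v : ZMod q × ZMod q => v ≠ 0)
      (fun y _ => by
        rw [Finset.coe_filter]
        exact ⟨Finset.mem_univ _, vm_ne q hc' y⟩)]
    rw [Finset.sum_congr rfl (fun v hv => fiber_card q (c0, c1) (Finset.mem_filter.1 hv).2),
      Finset.sum_const, nz_card, smul_eq_mul]
  have h2 : (Finset.univ.filter (fun y : Matrix.SpecialLinearGroup (Fin 2) (ZMod q) =>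
      r0 * (y.1 0 0 * c0 + y.1 0 1 * c1) + r1 * (y.1 1 0 * c0 + y.1 1 1 * c1) = 0)).card =
      (q - 1) * f := by
    rw [Finset.card_eq_sum_card_fiberwise (f := vm q (c0, c1))
      (t := Finset.univ.filter fun v : ZMod q × ZMod q =>
        v ≠ 0 ∧ (r0, r1).1 * v.1 + (r0, r1).2 * v.2 = 0)
      (fun y hy => by
        rw [Finset.coe_filter]
        rw [Finset.coe_filter] at hy
        exact ⟨Finset.mem_univ _, vm_ne q hc' y, hy.2⟩)]
    rw [Finset.sum_congr rfl (fun v hv => ?_), Finset.sum_const, ker_card q hr', smul_eq_mul]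
    rw [Finset.mem_filter] at hv
    rw [hf, ← fiber_card q (c0, c1) hv.2.1, Finset.filter_filter]
    congr 1
    ext y
    simp only [Finset.mem_filter, Finset.mem_univ, true_and]
    constructor
    · exact fun h => h.2
    · intro h
      refine ⟨?_, h⟩
      have h3 := hv.2.2
      rw [← h] at h3
      exact h3
  rw [h2, h1, ← mul_assoc]
  congr 1
  have hq : 1 ≤ q := (Fact.out : q.Prime).one_le
  obtain ⟨m, rfl⟩ := Nat.exists_eq_add_of_le hq
  have : (1 + m) ^ 2 - 1 = m * (m + 2) := by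
    have : (1 + m) ^ 2 = m * (m + 2) + 1 := by ring
    omega
  rw [this, Nat.add_sub_cancel_left]
  ring

private lemma pq_spec {q : ℕ} (hq : q.Prime) (h4 : q % 4 = 1) :
    (pq q).re ^ 2 + (pq q).im ^ 2 = (q : ℤ) := by
  have hex : ∃ w : GaussianInt, nN w = q := by
    have : Fact q.Prime := ⟨hq⟩
    obtain ⟨a, b, hab⟩ := Nat.Prime.sq_add_sq (p := q) (by omega)
    refine ⟨⟨a, b⟩, ?_⟩
    unfold nN
    rw [Zsqrtd.norm_def]
    zify
    rw [abs_of_nonneg (by nlinarith [sq_nonneg (a : ℤ), sq_nonneg (b : ℤ)]), ← hab]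
    push_cast
    ring
  have h : nN (pq q) = q := by
    unfold pq
    rw [dif_pos hex]
    exact hex.choose_spec
  have h2 : ((nN (pq q) : ℕ) : ℤ) = (pq q).re ^ 2 + (pq q).im ^ 2 := by
    unfold nN
    rw [Zsqrtd.norm_def, Int.natAbs_of_nonneg (by nlinarith [sq_nonneg (pq q).re, sq_nonneg (pq q).im])]
    ring
  rw [← h2, h]

private lemma pq_ne {q : ℕ} (hq : q.Prime) (h4 : q % 4 = 1) :
    -((pq q).im : ZMod (md q)) ≠ 0 ∨ ((pq q).re : ZMod (md q)) ≠ 0 := by
  by_contra hcon
  push Not at hcon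
  obtain ⟨h1, h2⟩ := hcon
  rw [neg_eq_zero] at h1
  have h1' := (ZMod.intCast_zmod_eq_zero_iff_dvd _ _).1 h1
  have h2' := (ZMod.intCast_zmod_eq_zero_iff_dvd _ _).1 h2
  rw [md_eq hq.ne_zero] at h1' h2'
  have h3 := pq_spec hq h4
  have h4' : ((q : ℤ)) ^ 2 ∣ (pq q).re ^ 2 + (pq q).im ^ 2 :=
    dvd_add (pow_dvd_pow_of_dvd h2' 2) (pow_dvd_pow_of_dvd h1' 2)
  rw [h3] at h4'
  have h5 : q ^ 2 ∣ q := by exact_mod_cast h4'
  have h6 := Nat.le_of_dvd hq.pos h5
  have h7 := hq.two_le
  nlinarith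

theorem wgt_sum {q : ℕ} (hq : q.Prime) (h4 : q % 4 = 1) (c : ℤ × ℤ) (hc : IsCoprime c.1 c.2) :
    ∑ y : YY q, wgt q y c = 0 := by
  classical
  have : Fact (md q).Prime := ⟨by rw [md_eq hq.ne_zero]; exact hq⟩
  have hc' : (c.1 : ZMod (md q)) ≠ 0 ∨ (c.2 : ZMod (md q)) ≠ 0 := by
    by_contra hcon
    push Not at hcon
    obtain ⟨h1, h2⟩ := hcon
    have h1' := (ZMod.intCast_zmod_eq_zero_iff_dvd _ _).1 h1
    have h2' := (ZMod.intCast_zmod_eq_zero_iff_dvd _ _).1 h2
    rw [md_eq hq.ne_zero] at h1' h2'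
    have h3 := hc.isUnit_of_dvd' h1' h2'
    have h5 := Int.isUnit_iff_natAbs_eq.1 h3
    rw [Int.natAbs_natCast] at h5
    exact hq.one_lt.ne' h5
  have h := sl_count (md q) (-((pq q).im : ZMod (md q))) ((pq q).re : ZMod (md q))
    (c.1 : ZMod (md q)) (c.2 : ZMod (md q)) (pq_ne hq h4) hc'
  have hmd : ((md q : ℕ) : ℝ) = q := by rw [md_eq hq.ne_zero]
  have key : (md q + 1) * (Finset.univ.filter (fun y : YY q => lnr q y c = 0)).card =
      Fintype.card (YY q) := by
    refine Eq.trans ?_ h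
    refine congrArg (fun t => (md q + 1) * t) ?_
    refine Finset.card_bij (fun y _ => y) ?_ (fun _ _ _ _ h => h) ?_
    · intro y hy
      rw [Finset.mem_filter] at hy ⊢
      refine ⟨Finset.mem_univ _, ?_⟩
      have h1 := hy.2
      unfold lnr at h1
      linear_combination h1
    · intro y hy
      rw [Finset.mem_filter] at hy
      refine ⟨y, ?_, rfl⟩
      rw [Finset.mem_filter]
      refine ⟨Finset.mem_univ _, ?_⟩
      have h1 := hy.2
      unfold lnr
      linear_combination h1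
  have h' := congrArg (fun t : ℕ => (t : ℝ)) key
  push_cast at h'
  rw [hmd] at h'
  have hsum : ∑ y : YY q, wgt q y c =
      (q : ℝ) * ((Finset.univ.filter (fun y : YY q => lnr q y c = 0)).card : ℝ) -
        (Fintype.card (YY q) : ℝ) * ((q : ℝ) / (q + 1)) := by
    unfold wgt
    rw [Finset.sum_sub_distrib, ← Finset.mul_sum, Finset.sum_boole, Finset.sum_const,
      Finset.card_univ, nsmul_eq_mul]
  rw [hsum, ← h']
  have hq0 : (0 : ℝ) < q + 1 := by positivity
  field_simp
  ring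

/-- two vectors killed by the same nonzero functional are proportional -/
theorem lnr_pair {q : ℕ} (hq : q.Prime) (h4 : q % 4 = 1) (y : YY q) (c d : ℤ × ℤ)
    (hc : lnr q y c = 0) (hd : lnr q y d = 0) : (q : ℤ) ∣ c.1 * d.2 - c.2 * d.1 := by
  have : Fact (md q).Prime := ⟨by rw [md_eq hq.ne_zero]; exact hq⟩
  unfold lnr at hc hd
  set a := ((pq q).re : ZMod (md q)) * y.1 1 0 - ((pq q).im : ZMod (md q)) * y.1 0 0 with ha
  set b := ((pq q).re : ZMod (md q)) * y.1 1 1 - ((pq q).im : ZMod (md q)) * y.1 0 1 with hb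
  have hdet := det_eq (md q) y
  have hab : a ≠ 0 ∨ b ≠ 0 := by
    by_contra hcon
    push Not at hcon
    obtain ⟨h1, h2⟩ := hcon
    have hre : ((pq q).re : ZMod (md q)) = 0 := by
      linear_combination y.1 0 0 * h2 - y.1 0 1 * h1 + y.1 0 1 * ha - y.1 0 0 * hb -
        ((pq q).re : ZMod (md q)) * hdet
    have him : ((pq q).im : ZMod (md q)) = 0 := by
      linear_combination y.1 1 0 * h2 - y.1 1 1 * h1 + y.1 1 1 * ha - y.1 1 0 * hb -
        ((pq q).im : ZMod (md q)) * hdet
    rcases pq_ne hq h4 with h | h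
    · exact h (by rw [him, neg_zero])
    · exact h hre
  have hz : ((c.1 * d.2 - c.2 * d.1 : ℤ) : ZMod (md q)) = 0 := by
    push_cast
    rcases hab with h | h
    · have : a * ((c.1 : ZMod (md q)) * d.2 - (c.2 : ZMod (md q)) * d.1) = 0 := by
        linear_combination (d.2 : ZMod (md q)) * hc - (c.2 : ZMod (md q)) * hd
      exact (mul_eq_zero.1 this).resolve_left h
    · have : b * ((c.1 : ZMod (md q)) * d.2 - (c.2 : ZMod (md q)) * d.1) = 0 := by
        linear_combination (c.1 : ZMod (md q)) * hd - (d.1 : ZMod (md q)) * hc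
      exact (mul_eq_zero.1 this).resolve_left h
  have h5 := (ZMod.intCast_zmod_eq_zero_iff_dvd _ _).1 hz
  rw [md_eq hq.ne_zero] at h5
  exact h5

end Pool.Agent.LogCh
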