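import Pool.Agent.Lib.LogCh.ACf
import Pool.Agent.Lib.LogCh.ASLT

/-!
# Group A, module APsi: the test functions

`psi0_mean`: exchange the sums, `wgt_sum` with `cf_coprime`.
`psiB_*`: from the definition.
`psi0_congr`: `psi0 L0 q x y` depends only on `x i` for `i < 2 L0` (`j < L0`, `k ≤ L0`, `j + k < 2 L0`, and
`cf_congr`).
`psi0_orbit`: at an actual point: `cfx_orbit`, `lnr_orbit`, `fcZ_cast`, and `sgi_add`.
-/

set_option autoImplicit false

namespace Pool.Agent.LogCh

open Real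
open Pool.Agent.NSqP
open Pool.Agent.MP484c84Par (ballG mem_ballG crossG dotG)

theorem psi0_mean {q : ℕ} (hq : q.Prime) (h4 : q % 4 = 1) (L0 : ℕ) (x : ℕ → XX) :
    ∑ y : YY q, psi0 L0 q x y = 0 := by
  unfold psi0
  rw [← Finset.sum_div, Finset.sum_comm]
  have h0 : ∑ j ∈ Finset.range L0, ∑ y : YY q, (((x j).2.1 : ℤ) : ℝ) *
      wgt q y (cf (fun i => (x i).1) j) * inr L0 q x j = 0 := by
    refine Finset.sum_eq_zero (fun j _ => ?_)
    have h1 : ∀ y : YY q, (((x j).2.1 : ℤ) : ℝ) * wgt q y (cf (fun i => (x i).1) j) *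
        inr L0 q x j = ((((x j).2.1 : ℤ) : ℝ) * inr L0 q x j) *
          wgt q y (cf (fun i => (x i).1) j) := by
      intro y
      ring
    rw [Finset.sum_congr rfl (fun y _ => h1 y), ← Finset.mul_sum,
      wgt_sum hq h4 _ (cf_coprime _ j), mul_zero]
  rw [h0, zero_div]

theorem psiB_mean (B : ℝ) (L0 q : ℕ) (x : ℕ → XX) : ∑ y : YY q, psiB B L0 q x y = 0 := by
  classical
  by_cases h : q.Prime ∧ q % 4 = 1 ∧ ∀ y' : YY q, |psi0 L0 q x y'| ≤ B
  · have h1 : ∀ y : YY q, psiB B L0 q x y = psi0 L0 q x y := by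
      intro y
      unfold psiB
      rw [if_pos h]
    rw [Finset.sum_congr rfl (fun y _ => h1 y)]
    exact psi0_mean h.1 h.2.1 L0 x
  · refine Finset.sum_eq_zero (fun y _ => ?_)
    unfold psiB
    rw [if_neg h]

theorem psiB_bound (B : ℝ) (hB : 0 ≤ B) (L0 q : ℕ) (x : ℕ → XX) (y : YY q) :
    |psiB B L0 q x y| ≤ B := by
  classical
  unfold psiB
  split_ifs with h
  · exact h.2.2 y
  · rw [abs_zero]
    exact hB

theorem psi0_congr (L0 q : ℕ) (x x' : ℕ → XX) (y : YY q) (h : ∀ i, i < 2 * L0 → x i = x' i) :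
    psi0 L0 q x y = psi0 L0 q x' y := by
  have hcf : ∀ j, j < 2 * L0 → cf (fun i => (x i).1) j = cf (fun i => (x' i).1) j := by
    intro j hj
    refine cf_congr _ _ j (fun i hi => ?_)
    show (x i).1 = (x' i).1
    rw [h i (by omega)]
  unfold psi0
  congr 1
  refine Finset.sum_congr rfl (fun j hj => ?_)
  rw [Finset.mem_range] at hj
  have hin : inr L0 q x j = inr L0 q x' j := by
    unfold inr
    refine Finset.sum_congr rfl (fun k hk => ?_)
    rw [Finset.mem_Icc] at hk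
    have hx : cfx (fun i => (x i).1) j (j + k) = cfx (fun i => (x' i).1) j (j + k) := by
      unfold cfx
      rw [hcf j (by omega), hcf (j + k) (by omega)]
    rw [hx, h (j + k) (by omega)]
  rw [hin, hcf j (by omega), h j (by omega)]

theorem psiB_congr (B : ℝ) (L0 q : ℕ) (x x' : ℕ → XX) (y : YY q)
    (h : ∀ i, i < 2 * L0 → x i = x' i) : psiB B L0 q x y = psiB B L0 q x' y := by
  classical
  have h1 : ∀ y' : YY q, psi0 L0 q x y' = psi0 L0 q x' y' := fun y' =>
    psi0_congr L0 q x x' y' h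
  unfold psiB
  simp only [h1]

open Classical in
theorem psi0_orbit {q : ℕ} (hq : q.Prime) (h4 : q % 4 = 1) (L0 : ℕ) (a a' b b' : ℝ) {N : ℕ}
    {z : GaussianInt} (hz : z ∈ VV N) :
    psi0 L0 q (xo a a' b b' N z) (ym q z (sg N z)) =
      (∑ j ∈ Finset.range L0, ∑ k ∈ Finset.Icc 1 L0,
        if crossG (sgi N j z) (sgi N k (sgi N j z)) = (q : ℤ) then
          fc a a' N (sgi N j z) * fc b b' N (sgi N k (sgi N j z)) *
            ((q : ℝ) * (if pq q ∣ sgi N j z then 1 else 0) - (q : ℝ) / (q + 1))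
        else 0) / L0 := by
  have hs : ∀ i, (fun i => ((xo a a' b b' N z) i).1) i = aq N (sgi N i z) := fun i => rfl
  unfold psi0
  congr 1
  refine Finset.sum_congr rfl (fun j _ => ?_)
  have hw : wgt q (ym q z (sg N z)) (cf (fun i => ((xo a a' b b' N z) i).1) j) =
      (q : ℝ) * (if pq q ∣ sgi N j z then 1 else 0) - (q : ℝ) / (q + 1) := by
    unfold wgt
    have h1 := lnr_orbit hq h4 hz (fun i => ((xo a a' b b' N z) i).1) hs j
    by_cases hd : pq q ∣ sgi N j z
    · rw [if_pos (h1.2 hd), if_pos hd]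
    · rw [if_neg (fun h => hd (h1.1 h)), if_neg hd]
  have hf : ((((xo a a' b b' N z) j).2.1 : ℤ) : ℝ) = fc a a' N (sgi N j z) :=
    fcZ_cast a a' N (sgi N j z)
  have hi : inr L0 q (xo a a' b b' N z) j = ∑ k ∈ Finset.Icc 1 L0,
      if crossG (sgi N j z) (sgi N k (sgi N j z)) = (q : ℤ) then
        fc b b' N (sgi N k (sgi N j z)) else 0 := by
    unfold inr
    refine Finset.sum_congr rfl (fun k _ => ?_)
    rw [cfx_orbit hz (fun i => ((xo a a' b b' N z) i).1) hs j (j + k), sgi_add]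
    have hg : ((((xo a a' b b' N z) (j + k)).2.2 : ℤ) : ℝ) =
        fc b b' N (sgi N k (sgi N j z)) := by
      rw [← sgi_add]
      exact fcZ_cast b b' N (sgi N (j + k) z)
    rw [hg]
  rw [hw, hf, hi, Finset.mul_sum]
  refine Finset.sum_congr rfl (fun k _ => ?_)
  by_cases hc : crossG (sgi N j z) (sgi N k (sgi N j z)) = (q : ℤ)
  · rw [if_pos hc, if_pos hc]
    ring
  · rw [if_neg hc, if_neg hc, mul_zero]

end Pool.Agent.LogCh
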