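import Pool.Agent.Lib.LogCh.Shared
import Pool.Agent.Lib.LogCh.AGood
import Pool.Agent.Lib.LogCh.APsi

/-!
# Group A, module ASub: points of a window in a sublattice, and the inner sum

`sub_count`: `J = {j < L0 : lnr q y (cf s j) = 0}`. For `i < j` in `J`, `q ∣ cfx s i j` (`lnr_pair`) and
`cfx s i j = crossG z_i z_j > 0` (`cfx_orbit`, `quad'`), so it is `≥ q`; all norms are `≤ N`, so
`IsAng.sep` with `r = N` separates by `q/N`, and `sep_count` gives `(|J| - 1) q/N ≤ θ L0`.

`inner_bound`: if `nN z > a N`: `k ↦ sgi N k z` is injective on `1..L0` (`quad_inj`) and maps the `k` with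
`crossG z (sgi N k z) = q` into `{v ∈ ballG N : crossG z v = q}`, which has at most
`2 √(N/nN z) + 1 ≤ 2/√a + 1` elements (`line_count`).
-/

set_option autoImplicit false

namespace Pool.Agent.LogCh

open Real
open Pool.Agent.NSqP
open Pool.Agent.MP484c84Par (ballG mem_ballG crossG dotG)

open Classical in
theorem sub_count {q : ℕ} (hq : q.Prime) (h4 : q % 4 = 1) (L0 N : ℕ) (hN1 : 1 ≤ N)
    (hN : 4 * L0 + 4 < (VV N).card) {z : GaussianInt} (hz : z ∈ VV N) {θ : ℕ → ℝ}
    (hθ : IsAng N z θ) (y : YY q) :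
    (((Finset.range L0).filter (fun j => lnr q y (cf (fun i => aq N (sgi N i z)) j) = 0)).card : ℝ)
      ≤ 1 + θ L0 * N / q := by
  have hqp : (0 : ℝ) < q := by exact_mod_cast hq.pos
  have hNp : (0 : ℝ) < N := by exact_mod_cast hN1
  have key := sep_count (θ := θ) (by rw [hθ.zero]) (fun i j hij => hθ.le hij) L0 ((q : ℝ) / N)
    (by positivity)
    ((Finset.range L0).filter (fun j => lnr q y (cf (fun i => aq N (sgi N i z)) j) = 0))
    (fun j hj => by
      rw [Finset.mem_filter, Finset.mem_range] at hj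
      exact hj.1.le)
    (fun i hi j hj hij => by
      rw [Finset.mem_filter, Finset.mem_range] at hi hj
      have h1 := lnr_pair hq h4 y _ _ hi.2 hj.2
      have h2 := cfx_orbit hz (fun i => aq N (sgi N i z)) (fun _ => rfl) i j
      unfold cfx at h2
      rw [h2] at h1
      have h3 := (quad' hN hz hij (by omega)).1
      have h4 : (q : ℤ) ≤ crossG (sgi N i z) (sgi N j z) := Int.le_of_dvd h3 h1
      apply hθ.sep hz hij.le (q : ℝ) (N : ℝ) hqp.le hNp
      · exact_mod_cast h4
      · exact_mod_cast (mem_VV.1 (sgi_mem hz i)).1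
      · exact_mod_cast (mem_VV.1 (sgi_mem hz j)).1)
  rw [← sub_le_iff_le_add', le_div_iff₀ hqp]
  rw [mul_div_assoc', div_le_iff₀ hNp] at key
  exact key

theorem inner_bound (a : ℝ) (ha : 0 < a) (q L0 N : ℕ) (hN : 4 * L0 + 4 < (VV N).card)
    {z : GaussianInt} (hz : z ∈ VV N) (hza : a * N < nN z) :
    (((Finset.Icc 1 L0).filter (fun k => crossG z (sgi N k z) = (q : ℤ))).card : ℝ) ≤
      2 / √a + 1 := by
  have hzp : (0 : ℝ) < nN z := lt_of_le_of_lt (by positivity) hza
  have h1 : ((Finset.Icc 1 L0).filter (fun k => crossG z (sgi N k z) = (q : ℤ))).card ≤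
      ((ballG N).filter (fun v => crossG z v = (q : ℤ))).card := by
    apply Finset.card_le_card_of_injOn (fun k => sgi N k z)
    · intro k hk
      rw [Finset.mem_coe, Finset.mem_filter] at hk ⊢
      refine ⟨?_, hk.2⟩
      rw [mem_ballG, ← nN_cast_int]
      exact_mod_cast (mem_VV.1 (sgi_mem hz k)).1
    · intro i hi j hj hij
      rw [Finset.mem_coe, Finset.mem_filter, Finset.mem_Icc] at hi hj
      exact quad_inj hN hz hi.1.2 hj.1.2 hij
  have h2 := line_count z (mem_VV.1 hz).2 (q : ℤ) N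
  have h3 : √((N : ℝ) / nN z) ≤ 1 / √a := by
    rw [← Real.sqrt_one, ← Real.sqrt_div zero_le_one]
    apply Real.sqrt_le_sqrt
    rw [div_le_div_iff₀ hzp ha]
    linarith
  calc _ ≤ (((ballG N).filter (fun v => crossG z v = (q : ℤ))).card : ℝ) := by exact_mod_cast h1
    _ ≤ 2 * √((N : ℝ) / nN z) + 1 := h2
    _ ≤ 2 * (1 / √a) + 1 := by linarith
    _ = 2 / √a + 1 := by ring

end Pool.Agent.LogCh
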