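import Pool.Agent.Lib.LogCh.AAlg
import Pool.Agent.Lib.MP484c84Par.Tri

/-!
# Group A, module ASucc: the successor map

`CP_exists`: for `z ∈ VV N` the vectors `w` with `crossG z w = 1` are `w0 + t z`; one of them has
norm `≤ N` (`MP484c84Par.exists_partner` in `Tri.lean`: norm `≤` the norm of `z`), and there are
finitely many (they lie in `ballG N` and are injective in `t`), so take `t` maximal with norm
`≤ N`; then `w + z` has norm `> N`.
`CP_unique`: if `(z,w), (z,w') ∈ CP N` then `w' = w + k z` (`comb`: `w' = (w' × w) z + w`), say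
`k ≥ 1` (else exchange): if `k = 1`, `N(z+w) > N ≥ N w'` is a contradiction; if `k ≥ 2`, by `nN_comb`
`N(w + k z) = N w + k^2 N z + 2 k s`, `s = dotG z w ≥ 0` (`CP_dot`), is `≥ N(w + z)`.
(`CP_dot` makes this even shorter: all terms are nonnegative.)
`CP_unique_left`: the same with the roles exchanged (`z' = z + k w`, `k ≥ 1`:
`N z' ≥ N(z + w) > N`).
`sgi_injOn` etc.: `sg N` is injective from `VV N` to `VV N`, hence bijective
(`Finset.injOn_iff_surjOn_of_card_le`-style or `Finset.eq_of_subset_of_card_le` for the image).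
`sum_sgi`: `Finset.sum_bij` / induction on `j`.
-/

set_option autoImplicit false

namespace Pool.Agent.LogCh

open Real
open Pool.Agent.NSqP
open Pool.Agent.MP484c84Par (ballG mem_ballG crossG dotG)

private lemma cast_le {a b : ℕ} (h : a ≤ b) : (a : ℤ) ≤ b := by exact_mod_cast h

private lemma aux_big {N : ℕ} {z w : GaussianInt} (h : (z, w) ∈ CP N) (k : ℤ) (hk : 1 ≤ k) :
    N < nN ((k : GaussianInt) * z + ((1 : ℤ) : GaussianInt) * w) := by
  have hd := CP_dot h
  rw [mem_CP] at h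
  obtain ⟨h1, h2, h3, h4⟩ := h
  have e1 := nN_comb k 1 z w
  have e2 := nN_add z w
  have h5 : (N : ℤ) < ((nN (z + w) : ℕ) : ℤ) := by exact_mod_cast h4
  have h6 : (N : ℤ) < ((nN ((k : GaussianInt) * z + ((1 : ℤ) : GaussianInt) * w) : ℕ) : ℤ) := by
    rw [e1]
    rw [e2] at h5
    have h7 : (0 : ℤ) ≤ (nN z : ℤ) := Nat.cast_nonneg _
    nlinarith [mul_nonneg (by linarith : (0 : ℤ) ≤ k - 1) hd,
      mul_nonneg (by nlinarith : (0 : ℤ) ≤ k ^ 2 - 1) h7]
  exact_mod_cast h6

private lemma aux_big' {N : ℕ} {z w : GaussianInt} (h : (z, w) ∈ CP N) (k : ℤ) (hk : 1 ≤ k) :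
    N < nN (((1 : ℤ) : GaussianInt) * z + (k : GaussianInt) * w) := by
  have hd := CP_dot h
  rw [mem_CP] at h
  obtain ⟨h1, h2, h3, h4⟩ := h
  have e1 := nN_comb 1 k z w
  have e2 := nN_add z w
  have h5 : (N : ℤ) < ((nN (z + w) : ℕ) : ℤ) := by exact_mod_cast h4
  have h6 : (N : ℤ) < ((nN (((1 : ℤ) : GaussianInt) * z + (k : GaussianInt) * w) : ℕ) : ℤ) := by
    rw [e1]
    rw [e2] at h5
    have h7 : (0 : ℤ) ≤ (nN w : ℤ) := Nat.cast_nonneg _
    nlinarith [mul_nonneg (by linarith : (0 : ℤ) ≤ k - 1) hd,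
      mul_nonneg (by nlinarith : (0 : ℤ) ≤ k ^ 2 - 1) h7]
  exact_mod_cast h6

theorem CP_exists {N : ℕ} {z : GaussianInt} (hz : z ∈ VV N) : ∃ w, (z, w) ∈ CP N := by
  classical
  obtain ⟨hzN, hzp⟩ := mem_VV.1 hz
  have hz0 : z ≠ 0 := prim_ne_zero hzp
  have hnz : 0 < nN z := nN_pos hz0
  have hcop : IsCoprime z.re z.im := by
    rw [Int.isCoprime_iff_gcd_eq_one]; exact hzp
  have hpos : 0 < z.re * z.re + z.im * z.im := by
    have h1 : (0 : ℤ) < ((nN z : ℕ) : ℤ) := by exact_mod_cast hnz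
    rw [nN_cast_int, Zsqrtd.norm_def] at h1
    linarith
  obtain ⟨w0, hw1, hw2⟩ := MP484c84Par.exists_partner hcop hpos
  have hzeta : (⟨z.re, z.im⟩ : GaussianInt) = z := rfl
  rw [hzeta] at hw1
  have hw3 : nN w0 ≤ N := by
    have h1 : ((nN w0 : ℕ) : ℤ) ≤ ((nN z : ℕ) : ℤ) := by
      rw [nN_cast_int, nN_cast_int]
      have h2 : z.norm = z.re * z.re + z.im * z.im := by rw [Zsqrtd.norm_def]; ring
      rw [h2]; exact hw2
    have h3 : nN w0 ≤ nN z := by exact_mod_cast h1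
    exact h3.trans hzN
  have hball : ∀ {w : GaussianInt}, nN w ≤ N → w ∈ ballG N := by
    intro w hw
    rw [mem_ballG, ← nN_cast_int]
    exact_mod_cast hw
  have hball' : ∀ {w : GaussianInt}, w ∈ ballG N → nN w ≤ N := by
    intro w hw
    rw [mem_ballG, ← nN_cast_int] at hw
    exact_mod_cast hw
  have hne : ((ballG N).filter (fun w => crossG z w = 1)).Nonempty :=
    ⟨w0, Finset.mem_filter.2 ⟨hball hw3, hw1⟩⟩
  obtain ⟨w, hw, hmax⟩ := Finset.exists_max_image _ (fun w => dotG z w) hne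
  rw [Finset.mem_filter] at hw
  refine ⟨w, mem_CP.2 ⟨hzN, hball' hw.1, hw.2, ?_⟩⟩
  by_contra hcon
  have hle : nN (z + w) ≤ N := not_lt.1 hcon
  have hcr : crossG z (z + w) = 1 := by
    have h1 := cross_add_mul z z w 1 1
    rw [cross_self] at h1
    have e : ((1 : ℤ) : GaussianInt) * z + ((1 : ℤ) : GaussianInt) * w = z + w := by
      push_cast; ring
    rw [e] at h1
    rw [h1, hw.2]; ring
  have hdt : dotG z (z + w) = (nN z : ℤ) + dotG z w := by
    have h1 := dot_add_mul z z w 1 1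
    rw [dot_self] at h1
    have e : ((1 : ℤ) : GaussianInt) * z + ((1 : ℤ) : GaussianInt) * w = z + w := by
      push_cast; ring
    rw [e] at h1
    rw [h1]; ring
  have h2 := hmax (z + w) (Finset.mem_filter.2 ⟨hball hle, hcr⟩)
  have h3 : (0 : ℤ) < (nN z : ℤ) := by exact_mod_cast hnz
  rw [hdt] at h2
  linarith

theorem CP_unique {N : ℕ} {z w w' : GaussianInt} (h : (z, w) ∈ CP N) (h' : (z, w') ∈ CP N) :
    w = w' := by
  obtain ⟨a1, a2, a3, a4⟩ := mem_CP.1 h
  obtain ⟨b1, b2, b3, b4⟩ := mem_CP.1 h'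
  have e1 := comb a3 w'
  have e2 := comb b3 w
  rw [b3] at e1
  rw [a3] at e2
  rw [cross_swap] at e2
  rcases lt_trichotomy (crossG w' w) 0 with hk | hk | hk
  · exfalso
    have h1 := aux_big h' (-(crossG w' w)) (by omega)
    rw [← e2] at h1
    omega
  · rw [hk] at e1
    rw [e1]; push_cast; ring
  · exfalso
    have h1 := aux_big h (crossG w' w) (by omega)
    rw [← e1] at h1
    omega

theorem CP_unique_left {N : ℕ} {z z' w : GaussianInt} (h : (z, w) ∈ CP N) (h' : (z', w) ∈ CP N) :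
    z = z' := by
  obtain ⟨a1, a2, a3, a4⟩ := mem_CP.1 h
  obtain ⟨b1, b2, b3, b4⟩ := mem_CP.1 h'
  have e1 := comb a3 z'
  have e2 := comb b3 z
  rw [b3] at e1
  rw [a3] at e2
  rw [cross_swap z z'] at e2
  rcases lt_trichotomy (crossG z z') 0 with hk | hk | hk
  · exfalso
    have h1 := aux_big' h' (-(crossG z z')) (by omega)
    rw [← e2] at h1
    omega
  · rw [hk] at e1
    rw [e1]; push_cast; ring
  · exfalso
    have h1 := aux_big' h (crossG z z') (by omega)
    rw [← e1] at h1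
    omega

theorem sg_CP {N : ℕ} {z : GaussianInt} (hz : z ∈ VV N) : (z, sg N z) ∈ CP N := by
  classical
  have h := CP_exists hz
  unfold sg
  rw [dif_pos h]
  exact h.choose_spec

theorem sg_eq {N : ℕ} {z w : GaussianInt} (h : (z, w) ∈ CP N) : sg N z = w := by
  have h1 := mem_CP.1 h
  have hz : z ∈ VV N := mem_VV.2 ⟨h1.1, (prim_of_cross2 h1.2.2.1).1⟩
  exact CP_unique (sg_CP hz) h

theorem sg_mem {N : ℕ} {z : GaussianInt} (hz : z ∈ VV N) : sg N z ∈ VV N := by
  have h1 := mem_CP.1 (sg_CP hz)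
  exact mem_VV.2 ⟨h1.2.1, (prim_of_cross2 h1.2.2.1).2⟩

theorem sg_inj {N : ℕ} {z z' : GaussianInt} (hz : z ∈ VV N) (hz' : z' ∈ VV N)
    (h : sg N z = sg N z') : z = z' := by
  have h1 := sg_CP hz
  have h2 := sg_CP hz'
  rw [← h] at h2
  exact CP_unique_left h1 h2

private lemma image_sg (N : ℕ) [DecidableEq GaussianInt] : (VV N).image (sg N) = VV N := by
  apply Finset.eq_of_subset_of_card_le
  · intro w hw
    rw [Finset.mem_image] at hw
    obtain ⟨z, hz, rfl⟩ := hw
    exact sg_mem hz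
  · rw [Finset.card_image_of_injOn]
    intro z hz z' hz' h
    exact sg_inj hz hz' h

theorem sg_surj {N : ℕ} {w : GaussianInt} (hw : w ∈ VV N) : ∃ z ∈ VV N, sg N z = w := by
  classical
  rw [← image_sg N, Finset.mem_image] at hw
  exact hw

theorem sgi_zero (N : ℕ) (z : GaussianInt) : sgi N 0 z = z := rfl

theorem sgi_one (N : ℕ) (z : GaussianInt) : sgi N 1 z = sg N z := rfl

theorem sgi_succ (N k : ℕ) (z : GaussianInt) : sgi N (k + 1) z = sg N (sgi N k z) := by
  unfold sgi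
  rw [Function.iterate_succ_apply']

theorem sgi_succ' (N k : ℕ) (z : GaussianInt) : sgi N (k + 1) z = sgi N k (sg N z) := by
  unfold sgi
  rw [Function.iterate_succ_apply]

theorem sgi_add (N j k : ℕ) (z : GaussianInt) : sgi N (j + k) z = sgi N k (sgi N j z) := by
  unfold sgi
  rw [add_comm, Function.iterate_add_apply]

theorem sgi_mem {N : ℕ} {z : GaussianInt} (hz : z ∈ VV N) (k : ℕ) : sgi N k z ∈ VV N := by
  induction k with
  | zero => exact hz
  | succ k ih => rw [sgi_succ]; exact sg_mem ih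

private lemma sum_sg (N : ℕ) (F : GaussianInt → ℝ) :
    ∑ z ∈ VV N, F (sg N z) = ∑ z ∈ VV N, F z := by
  classical
  conv_rhs => rw [← image_sg N]
  rw [Finset.sum_image]
  intro z hz z' hz' h
  exact sg_inj hz hz' h

/-- the `k`-th iterate permutes `VV N` -/
theorem sum_sgi (N k : ℕ) (F : GaussianInt → ℝ) :
    ∑ z ∈ VV N, F (sgi N k z) = ∑ z ∈ VV N, F z := by
  induction k with
  | zero => rfl
  | succ k ih =>
    rw [← ih, ← sum_sg N (fun z => F (sgi N k z))]
    exact Finset.sum_congr rfl (fun z _ => by rw [sgi_succ'])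

theorem sgi_cross {N : ℕ} {z : GaussianInt} (hz : z ∈ VV N) (k : ℕ) :
    crossG (sgi N k z) (sgi N (k + 1) z) = 1 := by
  rw [sgi_succ]
  exact (mem_CP.1 (sg_CP (sgi_mem hz k))).2.2.1

/-- the projection of `CP N` to the first member is a bijection to `VV N` -/
theorem sum_CP (N : ℕ) (F : GaussianInt × GaussianInt → ℝ) :
    ∑ p ∈ CP N, F p = ∑ z ∈ VV N, F (z, sg N z) := by
  symm
  refine Finset.sum_nbij (fun z => (z, sg N z)) ?_ ?_ ?_ (fun _ _ => rfl)
  · intro z hz
    exact sg_CP hz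
  · intro z _ z' _ h
    exact congrArg Prod.fst h
  · rintro ⟨z, w⟩ hp
    rw [Finset.mem_coe] at hp
    have h1 := mem_CP.1 hp
    have hz : z ∈ VV N := mem_VV.2 ⟨h1.1, (prim_of_cross2 h1.2.2.1).1⟩
    refine ⟨z, hz, ?_⟩
    change (z, sg N z) = (z, w)
    rw [sg_eq hp]

end Pool.Agent.LogCh
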