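import Pool.Agent.Lib.LogCh.ABdd
import Pool.Agent.Lib.LogCh.AOm

/-!
# Group A, module ATrunc: the truncation error

Let `L = L0` and choose `B := (2/√a + 1)(2 + 2048 + 64 B')`. Let `N0` be such that `4 L0 + 4 < card (VV N)` for
`N ≥ N0` (`VV_large`). For a point `(N, z)` with `N ≥ N0` and all `nN z_j ≥ N/(B' L0)^2` (`j ≤ L0`):
`good_angle` gives `θ L0 ≤ (2048 + 64 B') L0/N`, `psi0_good` gives `|psi0 (..) y'| ≤ B` for all `y'`, so
`psiB = psi0`. For the other points with `N ≥ N0`: `|psi0 - psiB| ≤ |psi0| ≤ C_a (q + 1)` (`psiB` is `psi0` or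
`0`), and the measure of this set is at most
`(L0 + 1) max_j μ(nN z_j < N/(B' L0)^2) ≤ (L0+1) C/(B' L0)^2 (1 + log X)/zx ≤ C'/(B'^2 L0)` (`sum_sgi`,
`VV_card_small`, `log_avg`, `zx_lower`), so the contribution is `≤ C_a (q+1) C'/(B'^2 L0) ≤ 2 C_a C'/B'^2` as
`q ≤ L0`. The points with `N < N0` contribute `≤ (q+1) L0 Σ_{N < N0} card (VV N)/N^2 / zx ≤ D/(1 + log X)`.
-/

set_option autoImplicit false

namespace Pool.Agent.LogCh

open Real
open Pool.Agent.NSqP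
open Pool.Agent.MP484c84Par (ballG mem_ballG crossG dotG)

/-- the truncation changes the test function by at most its absolute value -/
private lemma trunc_sub_le (B : ℝ) (L0 q : ℕ) (x : ℕ → XX) (y : YY q) :
    |psi0 L0 q x y - psiB B L0 q x y| ≤ |psi0 L0 q x y| := by
  classical
  unfold psiB
  split_ifs
  · rw [sub_self, abs_zero]; exact abs_nonneg _
  · rw [sub_zero]

private lemma trunc_eq {B : ℝ} {L0 q : ℕ} {x : ℕ → XX} {y : YY q} (hq : q.Prime) (h4 : q % 4 = 1)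
    (h : ∀ y' : YY q, |psi0 L0 q x y'| ≤ B) : |psi0 L0 q x y - psiB B L0 q x y| = 0 := by
  classical
  unfold psiB
  rw [if_pos ⟨hq, h4, h⟩, sub_self, abs_zero]

open Classical in
/-- the number of points whose window contains a very short vector -/
private lemma trunc_bad {Cs : ℝ} (hCs : ∀ (N : ℕ) (ρ : ℝ), 0 ≤ ρ →
    (((VV N).filter (fun z => (nN z : ℝ) ≤ ρ * N)).card : ℝ) ≤ Cs * ρ * N) (L N : ℕ) (ρ : ℝ)
    (hρ : 0 ≤ ρ) :
    (((VV N).filter (fun z => ¬ ∀ j ≤ L, ρ * N ≤ (nN (sgi N j z) : ℝ))).card : ℝ) ≤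
      ((L : ℝ) + 1) * (Cs * ρ * N) := by
  have h1 : (((VV N).filter (fun z => ¬ ∀ j ≤ L, ρ * N ≤ (nN (sgi N j z) : ℝ))).card : ℝ) ≤
      ∑ j ∈ Finset.range (L + 1),
        (((VV N).filter (fun z => (nN (sgi N j z) : ℝ) ≤ ρ * N)).card : ℝ) := by
    have h2 : (VV N).filter (fun z => ¬ ∀ j ≤ L, ρ * N ≤ (nN (sgi N j z) : ℝ)) ⊆
        (Finset.range (L + 1)).biUnion
          (fun j => (VV N).filter (fun z => (nN (sgi N j z) : ℝ) ≤ ρ * N)) := by
      intro z hz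
      rw [Finset.mem_filter] at hz
      obtain ⟨hz1, hz2⟩ := hz
      push Not at hz2
      obtain ⟨j, hj, hlt⟩ := hz2
      rw [Finset.mem_biUnion]
      exact ⟨j, Finset.mem_range.2 (Nat.lt_succ_of_le hj), Finset.mem_filter.2 ⟨hz1, hlt.le⟩⟩
    have h3 := (Finset.card_le_card h2).trans Finset.card_biUnion_le
    exact_mod_cast h3
  have h2 : ∀ j ∈ Finset.range (L + 1),
      (((VV N).filter (fun z => (nN (sgi N j z) : ℝ) ≤ ρ * N)).card : ℝ) ≤ Cs * ρ * N := by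
    intro j _
    have h3 := sum_sgi N j (fun z => if (nN z : ℝ) ≤ ρ * N then (1 : ℝ) else 0)
    rw [Finset.sum_boole, Finset.sum_boole] at h3
    rw [h3]
    exact hCs N ρ hρ
  refine h1.trans ((Finset.sum_le_sum h2).trans (le_of_eq ?_))
  rw [Finset.sum_const, Finset.card_range, nsmul_eq_mul]
  push_cast
  ring

theorem TRUNC (a a' b b' : ℝ) (ha : 0 < a) : ∃ CT : ℝ, 0 < CT ∧ ∀ B' : ℝ, 1 ≤ B' →
    ∃ B : ℝ, 1 ≤ B ∧ ∀ L0 : ℕ, ∀ q : ℕ, q.Prime → q % 4 = 1 → q ≤ L0 → ∃ D : ℝ, 0 ≤ D ∧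
      ∀ X : ℕ, 1 ≤ X →
      ∑ ω : Om X, mu X ω * |psi0 L0 q (xo a a' b b' (nO ω) (pO ω)) (YO q ω) -
        psiB B L0 q (xo a a' b b' (nO ω) (pO ω)) (YO q ω)| ≤ CT / B' ^ 2 + D / (1 + log X) := by
  classical
  obtain ⟨Cs, hCs0, hCs⟩ := VV_card_small
  obtain ⟨c, hc0, hc⟩ := zx_lower
  set Ca : ℝ := 2 / √a + 1 with hCa
  have hCa1 : 1 ≤ Ca := by
    have : 0 ≤ 2 / √a := by positivity
    linarith
  have hCa0 : 0 < Ca := by linarith
  refine ⟨4 * Ca * Cs / c, by positivity, fun B' hB' => ?_⟩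
  set B : ℝ := Ca * (2 + (2048 + 64 * B')) with hB
  have hB1 : 1 ≤ B := by
    rw [hB]; nlinarith
  refine ⟨B, hB1, fun L0 q hq h4 hqL => ?_⟩
  have hq1 : 1 ≤ q := hq.one_lt.le
  have hL1 : 1 ≤ L0 := hq1.trans hqL
  have hL1r : (1 : ℝ) ≤ L0 := by exact_mod_cast hL1
  have hqr : (q : ℝ) ≤ L0 := by exact_mod_cast hqL
  obtain ⟨N0, hN0⟩ := VV_large (4 * L0 + 4)
  obtain ⟨T, hT⟩ : ∃ T : ℕ → ℝ, T = fun N =>
    ((q : ℝ) + 1) * L0 * ((VV N).card : ℝ) / (N : ℝ) ^ 2 := ⟨_, rfl⟩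
  have hT0 : ∀ N, 0 ≤ T N := fun N => by rw [hT]; positivity
  obtain ⟨S0, hS0e⟩ : ∃ x : ℝ, x = ∑ N ∈ Finset.Icc 1 N0, T N := ⟨_, rfl⟩
  have hS0n : 0 ≤ S0 := by rw [hS0e]; exact Finset.sum_nonneg fun N _ => hT0 N
  refine ⟨S0 / c, div_nonneg hS0n hc0.le, fun X hX => ?_⟩
  set F : ℕ → GaussianInt → ℝ := fun N z =>
    |psi0 L0 q (xo a a' b b' N z) (ym q z (sg N z)) -
      psiB B L0 q (xo a a' b b' N z) (ym q z (sg N z))| with hF
  have hsum : ∑ ω : Om X, mu X ω * |psi0 L0 q (xo a a' b b' (nO ω) (pO ω)) (YO q ω) -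
        psiB B L0 q (xo a a' b b' (nO ω) (pO ω)) (YO q ω)| =
      (∑ N ∈ Finset.Icc 1 X, (∑ z ∈ VV N, F N z) / (N : ℝ) ^ 2) / zx X := sum_mu X F
  rw [hsum]
  have hlog : 0 ≤ log (X : ℝ) := Real.log_nonneg (by exact_mod_cast hX)
  have hlog1 : 0 < 1 + log (X : ℝ) := by linarith
  have hzx := hc X hX
  have hzx0 : 0 < zx X := (by positivity : 0 < c * (1 + log (X : ℝ))).trans_le hzx
  -- the two bounds for one `N`
  have hsmall : ∀ N, (∑ z ∈ VV N, F N z) / (N : ℝ) ^ 2 ≤ T N := by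
    intro N
    rw [hT]
    apply div_le_div_of_nonneg_right _ (by positivity)
    calc ∑ z ∈ VV N, F N z ≤ ∑ z ∈ VV N, ((q : ℝ) + 1) * L0 := by
          apply Finset.sum_le_sum
          intro z _
          exact (trunc_sub_le _ _ _ _ _).trans (psi0_crude L0 q a a' b b' N z _)
      _ = ((q : ℝ) + 1) * L0 * ((VV N).card : ℝ) := by
          rw [Finset.sum_const, nsmul_eq_mul]; ring
  have hlarge : ∀ N, 1 ≤ N → N0 ≤ N → (∑ z ∈ VV N, F N z) / (N : ℝ) ^ 2 ≤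
      4 * Ca * Cs / B' ^ 2 * (1 / N) := by
    intro N hN1 hN
    have hN1r : (1 : ℝ) ≤ N := by exact_mod_cast hN1
    have hNpos : (0 : ℝ) < N := by linarith
    have hcard := hN0 N hN
    set ρ : ℝ := 1 / (B' * L0) ^ 2 with hρ
    have hBL : 0 < B' * L0 := by nlinarith
    have hρ0 : 0 ≤ ρ := by positivity
    have hρN : ρ * N = (N : ℝ) / (B' * L0) ^ 2 := by
      rw [hρ]; ring
    have hle : ∀ z ∈ VV N, F N z ≤
        if ¬ ∀ j ≤ L0, ρ * N ≤ (nN (sgi N j z) : ℝ) then Ca * (q + 1) else 0 := by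
      intro z hz
      by_cases hgood : ∀ j ≤ L0, ρ * N ≤ (nN (sgi N j z) : ℝ)
      · rw [if_neg (not_not.2 hgood)]
        obtain ⟨θ, hθ⟩ := exists_ang hz
        rw [hρN] at hgood
        have hang := good_angle B' hB' L0 N hL1 hN1 hcard hz hθ hgood
        refine le_of_eq (trunc_eq hq h4 fun y' => ?_)
        refine (psi0_good hq h4 L0 hqL a a' b b' ha N hN1 hcard hz hθ y').trans ?_
        rw [hB]
        apply mul_le_mul_of_nonneg_left _ hCa0.le
        have h1 : θ L0 * N / L0 ≤ 2048 + 64 * B' := by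
          rw [div_le_iff₀ (by linarith)]
          rw [le_div_iff₀ hNpos] at hang
          exact hang
        linarith
      · rw [if_pos hgood]
        exact (trunc_sub_le _ _ _ _ _).trans (psi0_triv L0 q hL1 a a' b b' ha N hcard hz _)
    have h1 : ∑ z ∈ VV N, F N z ≤ (((L0 : ℝ) + 1) * (Cs * ρ * N)) * (Ca * (q + 1)) := by
      refine (Finset.sum_le_sum hle).trans ?_
      rw [← Finset.sum_filter, Finset.sum_const, nsmul_eq_mul]
      exact mul_le_mul_of_nonneg_right (trunc_bad hCs L0 N ρ hρ0) (by positivity)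
    have h2 : (((L0 : ℝ) + 1) * (Cs * ρ * N)) * (Ca * (q + 1)) ≤
        4 * Ca * Cs / B' ^ 2 * N := by
      have h3 : ((L0 : ℝ) + 1) * (q + 1) ≤ 4 * (L0 : ℝ) ^ 2 := by nlinarith
      have h4' : (((L0 : ℝ) + 1) * (Cs * ρ * N)) * (Ca * (q + 1)) =
          (((L0 : ℝ) + 1) * (q + 1)) * (Cs * Ca * N / (B' * L0) ^ 2) := by
        rw [hρ]; ring
      rw [h4']
      calc (((L0 : ℝ) + 1) * (q + 1)) * (Cs * Ca * N / (B' * L0) ^ 2)
          ≤ (4 * (L0 : ℝ) ^ 2) * (Cs * Ca * N / (B' * L0) ^ 2) :=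
            mul_le_mul_of_nonneg_right h3 (by positivity)
        _ = 4 * Ca * Cs / B' ^ 2 * N := by
            have : (L0 : ℝ) ≠ 0 := by positivity
            have : B' ≠ 0 := by positivity
            field_simp
    rw [div_le_iff₀ (by positivity)]
    refine (h1.trans h2).trans (le_of_eq ?_)
    field_simp
  have hterm : ∀ N ∈ Finset.Icc 1 X, (∑ z ∈ VV N, F N z) / (N : ℝ) ^ 2 ≤
      (if N < N0 then T N else 0) + 4 * Ca * Cs / B' ^ 2 * (1 / N) := by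
    intro N hN
    have hN1 := (Finset.mem_Icc.1 hN).1
    have h0 : 0 ≤ 4 * Ca * Cs / B' ^ 2 * (1 / (N : ℝ)) := by positivity
    by_cases h : N < N0
    · rw [if_pos h]
      have := hsmall N
      linarith
    · rw [if_neg h, zero_add]
      exact hlarge N hN1 (not_lt.1 h)
  have hfin : ∑ N ∈ Finset.Icc 1 X, (∑ z ∈ VV N, F N z) / (N : ℝ) ^ 2 ≤
      S0 + 4 * Ca * Cs / B' ^ 2 * (1 + log X) := by
    refine (Finset.sum_le_sum hterm).trans ?_
    rw [Finset.sum_add_distrib, ← Finset.mul_sum]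
    apply add_le_add
    · rw [← Finset.sum_filter, hS0e]
      apply Finset.sum_le_sum_of_subset_of_nonneg
      · intro N hN
        rw [Finset.mem_filter, Finset.mem_Icc] at hN
        exact Finset.mem_Icc.2 ⟨hN.1.1, hN.2.le⟩
      · intro N _ _
        exact hT0 N
    · exact mul_le_mul_of_nonneg_left (harm_upper X hX) (by positivity)
  calc (∑ N ∈ Finset.Icc 1 X, (∑ z ∈ VV N, F N z) / (N : ℝ) ^ 2) / zx X
      ≤ (S0 + 4 * Ca * Cs / B' ^ 2 * (1 + log X)) / zx X :=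
        div_le_div_of_nonneg_right hfin hzx0.le
    _ ≤ (S0 + 4 * Ca * Cs / B' ^ 2 * (1 + log X)) / (c * (1 + log X)) := by
        apply div_le_div_of_nonneg_left _ (by positivity) hzx
        positivity
    _ = 4 * Ca * Cs / c / B' ^ 2 + S0 / c / (1 + log X) := by
        have : B' ≠ 0 := by positivity
        field_simp
        ring

end Pool.Agent.LogCh
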