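import Pool.Agent.Lib.LogCh.BEnt

/-!
# Entropy decrement: the set of the bad scales

Group B of the project, for the version at almost all scales: the gains of the bad scales sum to at
most the entropy of the observable.
-/

set_option autoImplicit false

namespace Pool.Agent.LogCh

open Real

theorem ENTB {Ω : Type} [Fintype Ω] (μ : Ω → ℝ) (hμ0 : ∀ ω, 0 ≤ μ ω) (hμ1 : ∑ ω, μ ω = 1)
    (T : Equiv.Perm Ω) (hT : ∀ ω, μ (T ω) = μ ω)
    {𝒳 : Type} [DecidableEq 𝒳] (X : Ω → 𝒳) (h0 : ℝ) (hX : ent μ X ≤ h0)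
    (𝒴 : ℕ → Type) [∀ q, Fintype (𝒴 q)] [∀ q, DecidableEq (𝒴 q)] [∀ q, Nonempty (𝒴 q)]
    (Y : ∀ q, Ω → 𝒴 q) (φ : ∀ q, 𝒳 → Equiv.Perm (𝒴 q))
    (hY : ∀ q ω, Y q (T ω) = φ q (X ω) (Y q ω))
    (J : ℕ) (L m : ℕ → ℕ) (hL0 : 1 ≤ L 0) (hm : ∀ j, 1 ≤ m j) (hL : ∀ j, L (j + 1) = m j * L j)
    (I : ℕ → Finset ℕ) (ε ϑ : ℝ) (hε : 0 < ε) (hϑ : 0 ≤ ϑ) (h1 : ε + ϑ ≤ 1)
    (hU : ∀ j < J, ∀ y : (∀ q, 𝒴 q),
      (∑ ω, if ∀ q ∈ I j, Y q ω = y q then μ ω else 0) * ∏ q ∈ I j, (Fintype.card (𝒴 q) : ℝ) ≤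
        1 + ϑ) :
    ∃ Bad ⊆ Finset.range J, (∑ j ∈ Bad, (ε * (I j).card / L j -
        (∑ q ∈ I j, log (Fintype.card (𝒴 q))) / L (j + 1))) ≤ h0 ∧
      ∀ j ∈ Finset.range J, j ∉ Bad → ∀ B : ℝ, 1 ≤ B →
        ∀ ψ : ∀ q : ℕ, (Fin (L j) → 𝒳) → 𝒴 q → ℝ,
        (∀ q x y, |ψ q x y| ≤ B) → (∀ q x, ∑ y, ψ q x y = 0) →
        |∑ q ∈ I j, ∑ ω, μ ω * ψ q (fun i => X ((T ^ (i : ℕ)) ω)) (Y q ω)| ≤
          3 * B * √(ε + ϑ) * (I j).card := by
  classical
  have hLpos : ∀ j, 0 < L j := by
    intro j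
    induction j with
    | zero => exact hL0
    | succ j ih =>
      rw [hL]
      exact Nat.mul_pos (hm j) ih
  set Bad : Finset ℕ := (Finset.range J).filter (fun j => ε * (I j).card <
    ent μ (win T X (L j)) + ent μ (joint 𝒴 Y (I j)) -
      ent μ (fun ω => (win T X (L j) ω, joint 𝒴 Y (I j) ω))) with hBad
  refine ⟨Bad, Finset.filter_subset _ _, ?_, ?_⟩
  · -- the decrement at a bad scale
    have hstep : ∀ j ∈ Bad, ent μ (win T X (L (j + 1))) / L (j + 1) ≤
        ent μ (win T X (L j)) / L j -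
        (ε * (I j).card / L j - (∑ q ∈ I j, log (Fintype.card (𝒴 q))) / L (j + 1)) := by
      intro j hj
      have b1 := block_step μ hμ0 hμ1 T hT X (joint 𝒴 Y (I j)) (fun n ω ω' h => by
        rw [joint_eq_iff, joint_eq_iff]
        exact forall₂_congr (fun q _ => det_Y T X 𝒴 Y φ hY n ω ω' h q)) (L j) (m j)
      rw [← hL] at b1
      have b2 : ent μ (win T X (L (j + 1))) ≤
          ent μ (fun ω => (win T X (L (j + 1)) ω, joint 𝒴 Y (I j) ω)) :=
        ent_mono μ hμ0 _ _ (fun ω ω' h => (Prod.ext_iff.1 h).1)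
      have b3 := ent_joint_le μ hμ0 hμ1 𝒴 Y (I j)
      have b4 := (Finset.mem_filter.1 hj).2.le
      have c1 : (0 : ℝ) < L j := by exact_mod_cast hLpos j
      have c2 : (0 : ℝ) < L (j + 1) := by exact_mod_cast hLpos (j + 1)
      have c3 : (L (j + 1) : ℝ) = m j * L j := by
        rw [hL]
        push_cast
        ring
      have c4 : (0 : ℝ) < m j := by exact_mod_cast (hm j)
      have d1 : ent μ (win T X (L (j + 1))) ≤ ∑ q ∈ I j, log (Fintype.card (𝒴 q)) +
          m j * (ent μ (win T X (L j)) - ε * (I j).card) := by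
        refine le_trans b2 (le_trans b1 (add_le_add b3 (mul_le_mul_of_nonneg_left ?_ c4.le)))
        linarith
      have d2 : ent μ (win T X (L (j + 1))) / L (j + 1) ≤ (∑ q ∈ I j, log (Fintype.card (𝒴 q)) +
          m j * (ent μ (win T X (L j)) - ε * (I j).card)) / L (j + 1) :=
        div_le_div_of_nonneg_right d1 c2.le
      refine le_trans d2 (le_of_eq ?_)
      rw [add_div, c3]
      field_simp
      ring
    -- monotonicity at every scale
    have hmono : ∀ j, ent μ (win T X (L (j + 1))) / L (j + 1) ≤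
        ent μ (win T X (L j)) / L j := by
      intro j
      have c1 : (0 : ℝ) < L j := by exact_mod_cast hLpos j
      have c2 : (0 : ℝ) < L (j + 1) := by exact_mod_cast hLpos (j + 1)
      have c3 : (L (j + 1) : ℝ) = m j * L j := by
        rw [hL]
        push_cast
        ring
      have c4 : (0 : ℝ) < m j := by exact_mod_cast (hm j)
      have b1 := block_step μ hμ0 hμ1 T hT X (fun _ : Ω => ()) (fun n ω ω' _ => by simp) (L j)
        (m j)
      rw [← hL] at b1
      have e0 : ent μ (fun _ : Ω => ()) = 0 := by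
        rw [ent_eq]
        refine Finset.sum_eq_zero (fun ω _ => ?_)
        have : prb μ (fun _ : Ω => ()) () = 1 := by
          unfold prb
          simpa using hμ1
        rw [this]
        simp
      have e1 : ∀ k, ent μ (fun ω => (win T X k ω, ())) = ent μ (win T X k) := by
        intro k
        refine ent_congr μ _ _ (fun ω ω' => ?_)
        rw [Prod.ext_iff]
        simp
      rw [e0, e1, e1, zero_add, sub_zero] at b1
      rw [div_le_div_iff₀ c2 c1, c3]
      calc ent μ (win T X (L (j + 1))) * L j ≤ (m j * ent μ (win T X (L j))) * L j :=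
            mul_le_mul_of_nonneg_right b1 c1.le
        _ = ent μ (win T X (L j)) * (m j * L j) := by ring
    have htot : ∀ n ≤ J, ent μ (win T X (L n)) / L n ≤ h0 -
        ∑ j ∈ (Finset.range n).filter (fun j => j ∈ Bad),
        (ε * (I j).card / L j - (∑ q ∈ I j, log (Fintype.card (𝒴 q))) / L (j + 1)) := by
      intro n
      induction n with
      | zero =>
        intro _
        have c1 : (0 : ℝ) < L 0 := by exact_mod_cast hLpos 0
        rw [Finset.range_zero, Finset.filter_empty, Finset.sum_empty, sub_zero, div_le_iff₀ c1]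
        have := ent_win_le μ hμ0 hμ1 T hT X (L 0)
        calc ent μ (win T X (L 0)) ≤ L 0 * ent μ X := this
          _ ≤ L 0 * h0 := mul_le_mul_of_nonneg_left hX c1.le
          _ = h0 * L 0 := mul_comm _ _
      | succ n ih =>
        intro hn
        have e1 := ih (by omega)
        rw [Finset.range_add_one, Finset.filter_insert]
        by_cases hb : n ∈ Bad
        · rw [if_pos hb, Finset.sum_insert (fun h => by
            have := (Finset.mem_filter.1 h).1
            simp at this)]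
          have e2 := hstep n hb
          linarith
        · rw [if_neg hb]
          exact le_trans (hmono n) e1
    have h5 := htot J le_rfl
    have h6 : 0 ≤ ent μ (win T X (L J)) / L J :=
      div_nonneg (ent_nonneg μ hμ0 hμ1 _) (Nat.cast_nonneg _)
    have h7 : (Finset.range J).filter (fun j => j ∈ Bad) = Bad := by
      ext j
      rw [Finset.mem_filter]
      exact ⟨fun h => h.2, fun h => ⟨(Finset.mem_filter.1 h).1, h⟩⟩
    rw [h7] at h5
    linarith
  · intro j hj hn B hB1 ψ hB hz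
    have hjJ : j < J := Finset.mem_range.1 hj
    have hI : ent μ (win T X (L j)) + ent μ (joint 𝒴 Y (I j)) -
        ent μ (fun ω => (win T X (L j) ω, joint 𝒴 Y (I j) ω)) ≤ ε * (I j).card := by
      by_contra hcon
      push Not at hcon
      exact hn (Finset.mem_filter.2 ⟨hj, hcon⟩)
    rcases (I j).eq_empty_or_nonempty with hS | hS
    · rw [hS]
      simp
    · rw [abs_le]
      constructor
      · have := static_bound μ hμ0 hμ1 (win T X (L j)) 𝒴 Y (I j) hS ε ϑ hε hϑ h1 (hU j hjJ) hI B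
          hB1 (fun q x y => -ψ q x y) (fun q x y => by rw [abs_neg]; exact hB q x y)
          (fun q x => by rw [Finset.sum_neg_distrib, hz, neg_zero])
        simp only [mul_neg, Finset.sum_neg_distrib] at this
        have h7 : ∀ q ∈ I j, ∑ ω, μ ω * ψ q (fun i => X ((T ^ (i : ℕ)) ω)) (Y q ω) =
            ∑ ω, μ ω * ψ q (win T X (L j) ω) (Y q ω) := fun q _ => rfl
        rw [Finset.sum_congr rfl h7]
        linarith
      · exact static_bound μ hμ0 hμ1 (win T X (L j)) 𝒴 Y (I j) hS ε ϑ hε hϑ h1 (hU j hjJ) hI B hB1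
          ψ hB hz

end Pool.Agent.LogCh
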