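import Pool.Agent.Lib.LogCh.Defs

/-!
# Group D: definitions

`ee x = e^{2 π i x}`, the relation `IsW q w0 z w` (determinant one, `w` in the class of `w0`),
Kloosterman sums for a general additive character.
-/

set_option autoImplicit false

namespace Pool.Agent.LogCh

open Real
open Pool.Agent.NSqP
open Pool.Agent.MP484c84Par (ballG mem_ballG crossG dotG norm_def' norm_pos')

/-- `e^{2 π i x}` -/
noncomputable def ee (x : ℝ) : ℂ := Complex.exp (2 * π * Complex.I * x)

lemma ee_eq (x : ℝ) : ee x = Complex.exp (((2 * π * x : ℝ) : ℂ) * Complex.I) := by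
  unfold ee; congr 1; push_cast; ring

lemma norm_ee (x : ℝ) : ‖ee x‖ = 1 := by
  rw [ee_eq, Complex.norm_exp_ofReal_mul_I]

lemma ee_add (x y : ℝ) : ee (x + y) = ee x * ee y := by
  unfold ee; rw [← Complex.exp_add]; congr 1; push_cast; ring

lemma ee_neg (x : ℝ) : ee (-x) = (ee x)⁻¹ := by
  unfold ee; rw [← Complex.exp_neg]; congr 1; push_cast; ring

lemma ee_zero : ee 0 = 1 := by simp [ee]

lemma ee_int (k : ℤ) : ee k = 1 := by
  unfold ee
  have : (2 * π * Complex.I * ((k : ℝ) : ℂ) : ℂ) = k * (2 * π * Complex.I) := by push_cast; ring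
  rw [this, Complex.exp_int_mul_two_pi_mul_I]

lemma ee_add_int (x : ℝ) (k : ℤ) : ee (x + k) = ee x := by
  rw [ee_add, ee_int, mul_one]

lemma norm_ee_sub_le (x y : ℝ) : ‖ee x - ee y‖ ≤ 2 * π * |x - y| := by
  have h : ee x - ee y = ee y * (ee (x - y) - 1) := by
    rw [mul_sub, ← ee_add, mul_one]; congr 2; ring
  rw [h, norm_mul, norm_ee, one_mul, ee_eq]
  have := Real.norm_exp_I_mul_ofReal_sub_one_le (x := 2 * π * (x - y))
  have h2 : ((2 * π * (x - y) : ℝ) : ℂ) * Complex.I = Complex.I * ((2 * π * (x - y) : ℝ) : ℂ) := by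
    ring
  rw [h2]
  refine this.trans (le_of_eq ?_)
  rw [Real.norm_eq_abs, abs_mul, abs_of_pos (by positivity : 0 < 2 * π)]

/-- the additive character of `ZMod x` in terms of `ee` -/
lemma std_eq (x : ℕ) [NeZero x] (j : ℤ) :
    ZMod.stdAddChar (j : ZMod x) = ee ((j : ℝ) / x) := by
  rw [ZMod.stdAddChar_coe]
  unfold ee
  congr 1
  push_cast
  ring

/-- Kloosterman sum -/
noncomputable def kl (x : ℕ) [NeZero x] (ψ : AddChar (ZMod x) ℂ) (a b : ZMod x) : ℂ :=
  ∑ y : (ZMod x)ˣ, ψ (a * ((y⁻¹ : (ZMod x)ˣ) : ZMod x) + b * (y : ZMod x))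

/-- `w` has determinant one with `z` and lies in the class of `w0` modulo `q` -/
def IsW (q : ℕ) (w0 z w : GaussianInt) : Prop := crossG z w = 1 ∧ (q : GaussianInt) ∣ w - w0

/-- there is a `w` with `z × w = 1`, `w ≡ w0 mod q` and `<z,w> / (q N z)` in `(α, β]` -/
def Win (q : ℕ) (w0 : GaussianInt) (α β : ℝ) (z : GaussianInt) : Prop :=
  ∃ w, IsW q w0 z w ∧ α * (q * nN z) < (dotG z w : ℝ) ∧ (dotG z w : ℝ) ≤ β * (q * nN z)

lemma dvdG {q : ℤ} {z : GaussianInt} : (q : GaussianInt) ∣ z ↔ q ∣ z.re ∧ q ∣ z.im :=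
  Zsqrtd.intCast_dvd q z

lemma dvdGn {q : ℕ} {z : GaussianInt} : (q : GaussianInt) ∣ z ↔ (q : ℤ) ∣ z.re ∧ (q : ℤ) ∣ z.im := by
  have := @Zsqrtd.intCast_dvd (-1) (q : ℤ) z
  simpa using this

lemma prim_of_cross {z w : GaussianInt} (h : crossG z w = 1) : Prim z := by
  unfold Prim cont
  rw [← Int.isCoprime_iff_gcd_eq_one]
  exact ⟨w.im, -w.re, by unfold crossG at h; linarith⟩

/-- expansion of `v` in the basis `z, w` -/
lemma basis_expand {z w : GaussianInt} (h : crossG z w = 1) (v : GaussianInt) :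
    v = ((crossG v w : ℤ) : GaussianInt) * z + ((crossG z v : ℤ) : GaussianInt) * w := by
  unfold crossG at *
  rw [Zsqrtd.ext_iff]
  constructor
  · simp
    linear_combination (-v.re) * h
  · simp
    linear_combination (-v.im) * h

lemma dot_sq_add_one {z w : GaussianInt} (h : crossG z w = 1) :
    (dotG z w : ℝ) ^ 2 + 1 = nN z * nN w := by
  have h1 := Pool.Agent.MP484c84Par.dot_cross z w
  rw [h] at h1
  rw [← nN_cast_int, ← nN_cast_int] at h1
  exact_mod_cast h1

end Pool.Agent.LogCh
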