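import Pool.Agent.Lib.LogCh.DPC
import Pool.Agent.Lib.NSqP.LC

/-!
# EQ2: upper bound for the pairs of determinant `D` in small cells

PROOF. Let `(u, u') ` be in the set, `n = N u`, `n' = N u'`. Then `u' = D w + c u` with
`u × w = 1`, and `<u,u'> = D <u,w> + c n`, `<u,u'>² + D² = n n'`, `<u,u'> > 0`; so with `s = <u,w>`:
`s / n = (√(n n' - D²)/n - c)/D` lies in `(α, β]`, where, using `s N < n ≤ (s+h) N`, `t N < n' ≤ (t+h)N`:
`α = (√(t/(s+h) - D²/(sN)²) - c)/D`, `β = (√((t+h)/s) - c)/D`, `β - α ≤ C_δ h / D` for `N ≥ N0`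
(`n'/n` lies in `(t/(s+h), (t+h)/s)`, and `D²/(sN)² ≤ h/…`).
Divide `(α, β]` into `K = ⌈C_δ⌉` equal intervals (length `≤ 1`): the number of pairs is at
most the sum over these intervals of `#{u ∈ pann (sN) ((s+h)N) : Win 1 0 α_i β_i u}` (for a fixed `u`
the pair is determined by `w`, and `w` by the interval: `W_unique`, `dot_shift`), and `PCC` with `q = 1`
bounds this by `(β - α) #pann(sN, (s+h)N) + K ε' N` with `ε' = h²/(K D)`;
`#pann ≤ C h N + C √N + C ≤ 2 C h N` for `N ≥ N0(h)` (`card_ann`).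
-/

set_option autoImplicit false

namespace Pool.Agent.LogCh

open Real
open Pool.Agent.NSqP
open Pool.Agent.MP484c84Par (ballG mem_ballG crossG dotG norm_def' norm_pos')

lemma eq_sqrt_sub_le {X Y m : ℝ} (hm : 0 < m) (hX : m ^ 2 ≤ X) (hYX : Y ≤ X) :
    √X - √Y ≤ (X - Y) / m := by
  have h1 : m ≤ √X := Real.le_sqrt_of_sq_le hX
  rw [le_div_iff₀ hm]
  have h0 := Real.sqrt_nonneg X
  have h3 := Real.sq_sqrt (le_trans (sq_nonneg m) hX)
  rcases le_or_gt 0 Y with hY | hY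
  · have h2 := Real.sq_sqrt hY
    have h4 : √Y ≤ √X := Real.sqrt_le_sqrt hYX
    have h5 := Real.sqrt_nonneg Y
    have h6 := mul_nonneg (sub_nonneg.2 h4) (sub_nonneg.2 h1)
    have h7 := mul_nonneg (sub_nonneg.2 h4) h5
    nlinarith
  · have h2 : √Y = 0 := Real.sqrt_eq_zero'.2 hY.le
    rw [h2]
    have h6 := mul_nonneg h0 (sub_nonneg.2 h1)
    nlinarith

/-- the phase of a pair of determinant `D` -/
noncomputable def eq2sg (D : ℕ) (c : ℤ) (p : GaussianInt × GaussianInt) : ℝ :=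
  ((dotG p.1 p.2 : ℝ) / nN p.1 - c) / D

lemma eq2_dot_self (u : GaussianInt) : dotG u u = (nN u : ℤ) := by
  rw [nN_cast_int, norm_def']
  unfold dotG
  ring

lemma eq2_W {D : ℕ} (hD : 1 ≤ D) {c : ℤ} {u u' : GaussianInt} (hu : 0 < nN u)
    (h1 : crossG u u' = D) (h3 : (D : GaussianInt) ∣ u' - (c : GaussianInt) * u) :
    ∃ w, crossG u w = 1 ∧ u' = (D : GaussianInt) * w + (c : GaussianInt) * u ∧
      (dotG u w : ℝ) = eq2sg D c (u, u') * nN u := by
  obtain ⟨w, hw⟩ := h3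
  have hu' : u' = (D : GaussianInt) * w + (c : GaussianInt) * u := by
    rw [← hw]; ring
  have hDz : (D : ℤ) ≠ 0 := by exact_mod_cast (by omega : D ≠ 0)
  have hre : u'.re = D * w.re + c * u.re := by
    rw [hu']; simp
  have him : u'.im = D * w.im + c * u.im := by
    rw [hu']; simp
  have hc : crossG u w = 1 := by
    have h2 : (D : ℤ) * crossG u w = crossG u u' := by
      unfold crossG
      rw [hre, him]
      ring
    exact mul_left_cancel₀ hDz (by rw [h2, h1, mul_one])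
  refine ⟨w, hc, hu', ?_⟩
  have hd : dotG u u' = D * dotG u w + c * (nN u : ℤ) := by
    rw [← eq2_dot_self]
    unfold dotG
    rw [hre, him]
    ring
  have hn : ((nN u : ℕ) : ℝ) ≠ 0 := by exact_mod_cast hu.ne'
  have hDr : (D : ℝ) ≠ 0 := by exact_mod_cast (by omega : D ≠ 0)
  unfold eq2sg
  rw [hd]
  push_cast
  field_simp
  ring

lemma eq2_phase {D : ℕ} (hD : 1 ≤ D) {c : ℤ} {h s t : ℝ} {N : ℕ} (hN : 1 ≤ N) (hs : 0 < s)
    (hh : 0 < h) (ht : 0 < t) {u u' : GaussianInt} (h1 : crossG u u' = D) (h2 : 0 < dotG u u')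
    (h4 : s * N < nN u) (h5 : (nN u : ℝ) ≤ (s + h) * N)
    (h6 : t * N < nN u') (h7 : (nN u' : ℝ) ≤ (t + h) * N) :
    (√(t / (s + h) - D ^ 2 / (s * N) ^ 2) - c) / D < eq2sg D c (u, u') ∧
      eq2sg D c (u, u') ≤ (√((t + h) / s) - c) / D := by
  have hN' : (0 : ℝ) < N := by exact_mod_cast hN
  have hDr : (0 : ℝ) < D := by exact_mod_cast hD
  have hsN : 0 < s * N := mul_pos hs hN'
  have hn : (0 : ℝ) < nN u := hsN.trans h4
  have hd0 : (0 : ℝ) < dotG u u' := by exact_mod_cast h2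
  have hd : (dotG u u' : ℝ) ^ 2 + D ^ 2 = nN u * nN u' := by
    have h := Pool.Agent.MP484c84Par.dot_cross u u'
    rw [h1, ← nN_cast_int, ← nN_cast_int] at h
    exact_mod_cast h
  have hn' : (0 : ℝ) < nN u' := (mul_pos ht hN').trans h6
  unfold eq2sg
  constructor
  · apply div_lt_div_of_pos_right _ hDr
    apply sub_lt_sub_right
    change _ < (dotG u u' : ℝ) / nN u
    rw [lt_div_iff₀ hn]
    rcases le_or_gt (t / (s + h) - D ^ 2 / (s * N) ^ 2) 0 with hL | hL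
    · rw [Real.sqrt_eq_zero'.2 hL, zero_mul]
      exact hd0
    · refine lt_of_pow_lt_pow_left₀ 2 hd0.le ?_
      rw [mul_pow, Real.sq_sqrt hL.le]
      have e1 : t / (s + h) * (nN u : ℝ) ^ 2 < nN u * nN u' := by
        have e2 : t / (s + h) * (nN u : ℝ) ≤ t * N := by
          rw [div_mul_eq_mul_div, div_le_iff₀ (by linarith)]
          nlinarith [mul_le_mul_of_nonneg_left h5 ht.le]
        have e3 : t / (s + h) * (nN u : ℝ) < nN u' := lt_of_le_of_lt e2 h6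
        nlinarith [mul_lt_mul_of_pos_left e3 hn]
      have e4 : (D : ℝ) ^ 2 ≤ D ^ 2 / (s * N) ^ 2 * (nN u : ℝ) ^ 2 := by
        rw [div_mul_eq_mul_div, le_div_iff₀ (by positivity)]
        apply mul_le_mul_of_nonneg_left _ (by positivity)
        exact pow_le_pow_left₀ hsN.le h4.le 2
      nlinarith
  · apply div_le_div_of_nonneg_right _ hDr.le
    apply sub_le_sub_right
    change (dotG u u' : ℝ) / nN u ≤ _
    rw [div_le_iff₀ hn]
    refine le_of_sq_le_sq ?_ (by positivity)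
    rw [mul_pow, Real.sq_sqrt (by positivity)]
    have e1 : (nN u' : ℝ) ≤ (t + h) / s * nN u := by
      refine h7.trans ?_
      rw [div_mul_eq_mul_div, le_div_iff₀ hs]
      nlinarith [mul_le_mul_of_nonneg_left h4.le (by linarith : (0 : ℝ) ≤ t + h)]
    nlinarith [mul_le_mul_of_nonneg_left e1 hn.le, sq_nonneg (D : ℝ)]

/-- the pairs whose phase lies in an interval of length at most one -/
lemma eq2_interval (D : ℕ) (hD : 1 ≤ D) (c : ℤ) (S : Finset (GaussianInt × GaussianInt))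
    (a b α β : ℝ) (ha : 0 ≤ a) (hb : 0 ≤ b) (hαβ : β ≤ α + 1) (T : Finset GaussianInt)
    (hT : ∀ z, z ∈ T ↔ z ∈ pann a b ∧ ((1 : ℕ) : GaussianInt) ∣ z - 1 ∧ Win 1 1 α β z)
    (hS : ∀ p ∈ S, crossG p.1 p.2 = D ∧ (D : GaussianInt) ∣ p.2 - (c : GaussianInt) * p.1 ∧
      a < nN p.1 ∧ (nN p.1 : ℝ) ≤ b ∧ α < eq2sg D c p ∧ eq2sg D c p ≤ β) :
    (S.card : ℝ) ≤ T.card := by
  have h1G : ∀ z : GaussianInt, ((1 : ℕ) : GaussianInt) ∣ z := by
    intro z; simp
  rw [Nat.cast_le]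
  refine Finset.card_le_card_of_injOn Prod.fst ?_ ?_
  · intro p hp
    obtain ⟨h1, h2, h3, h4, h5, h6⟩ := hS p hp
    have hn0 : 0 < nN p.1 := by
      have : (0 : ℝ) < nN p.1 := lt_of_le_of_lt ha h3
      exact_mod_cast this
    have hn : (0 : ℝ) < nN p.1 := by exact_mod_cast hn0
    obtain ⟨w, hw1, hw2, hw3⟩ := eq2_W hD hn0 h1 h2
    rw [Finset.mem_coe, hT, mem_pann hb]
    refine ⟨⟨⟨h3, h4⟩, prim_of_cross hw1⟩, h1G _, w, ⟨hw1, h1G _⟩, ?_, ?_⟩
    · rw [hw3, Nat.cast_one, one_mul]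
      exact mul_lt_mul_of_pos_right h5 hn
    · rw [hw3, Nat.cast_one, one_mul]
      exact mul_le_mul_of_nonneg_right h6 hn.le
  · rintro ⟨u, v⟩ hp ⟨u', v'⟩ hp' huu
    change u = u' at huu
    subst huu
    obtain ⟨h1, h2, h3, h4, h5, h6⟩ := hS _ hp
    obtain ⟨h1', h2', h3', h4', h5', h6'⟩ := hS _ hp'
    change crossG u v = D at h1
    change crossG u v' = D at h1'
    change (D : GaussianInt) ∣ v - (c : GaussianInt) * u at h2
    change (D : GaussianInt) ∣ v' - (c : GaussianInt) * u at h2'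
    change a < nN u at h3
    have hn0 : 0 < nN u := by
      have : (0 : ℝ) < nN u := lt_of_le_of_lt ha h3
      exact_mod_cast this
    have hn : (0 : ℝ) < nN u := by exact_mod_cast hn0
    obtain ⟨w, hw1, hw2, hw3⟩ := eq2_W hD hn0 h1 h2
    obtain ⟨w', hw1', hw2', hw3'⟩ := eq2_W hD hn0 h1' h2'
    obtain ⟨k, hk⟩ := W_unique (q := 1) (w0 := 1) ⟨hw1, h1G _⟩ ⟨hw1', h1G _⟩
    have hd := dot_shift u w ((1 : ℕ) * k)
    rw [← hk] at hd
    have hd' : (dotG u w' : ℝ) = dotG u w + k * nN u := by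
      rw [hd]; push_cast; ring
    rw [hw3, hw3'] at hd'
    have hk0 : eq2sg D c (u, v') = eq2sg D c (u, v) + k := by
      have : eq2sg D c (u, v') * (nN u : ℝ) = (eq2sg D c (u, v) + k) * nN u := by
        rw [hd']; ring
      exact mul_right_cancel₀ hn.ne' this
    have hk1 : (k : ℝ) < 1 := by linarith
    have hk2 : (-1 : ℝ) < k := by linarith
    have hk3 : k = 0 := by
      have h8 : k < 1 := by exact_mod_cast hk1
      have h9 : -1 < k := by exact_mod_cast hk2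
      omega
    rw [hk3] at hk
    have : w' = w := by rw [hk]; simp
    rw [hw2, hw2', this]

/-- covering of `(α, β]` by `K` intervals -/
lemma eq2_cover {α β x : ℝ} {K : ℕ} (hK : 1 ≤ K) (h1 : α < x) (h2 : x ≤ β) :
    ∃ i ∈ Finset.range K, α + i * ((β - α) / K) < x ∧ x ≤ α + (i + 1 : ℕ) * ((β - α) / K) := by
  have hK' : (0 : ℝ) < K := by exact_mod_cast hK
  have hL : 0 < (β - α) / K := div_pos (by linarith) hK'
  have hy : 0 < (x - α) / ((β - α) / K) := div_pos (by linarith) hL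
  have hc : 0 < ⌈(x - α) / ((β - α) / K)⌉₊ := Nat.ceil_pos.2 hy
  obtain ⟨i, hi⟩ : ∃ i, ⌈(x - α) / ((β - α) / K)⌉₊ = i + 1 := ⟨_, (Nat.succ_pred_eq_of_pos hc).symm⟩
  have h3 : (x - α) / ((β - α) / K) ≤ (i + 1 : ℕ) := by
    rw [← hi]; exact Nat.le_ceil _
  have h4 : (i : ℝ) < (x - α) / ((β - α) / K) := by
    rw [← Nat.lt_ceil, hi]; omega
  rw [div_le_iff₀ hL] at h3
  rw [lt_div_iff₀ hL] at h4
  refine ⟨i, ?_, by linarith, by linarith⟩
  rw [Finset.mem_range]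
  have h5 : (i : ℝ) * ((β - α) / K) < K * ((β - α) / K) := by
    rw [mul_div_cancel₀ _ hK'.ne']
    linarith
  exact_mod_cast lt_of_mul_lt_mul_right h5 hL.le

/-- length of the window -/
lemma eq2_len {δ h s t N D : ℝ} (hδ : 0 < δ) (hh : 0 < h) (hh1 : h ≤ 1) (hs : δ ≤ s)
    (hs1 : s ≤ 1) (ht : δ ≤ t) (ht1 : t ≤ 1) (hN : 1 ≤ N) (hD : 0 < D) (hN3 : D ^ 2 / h ≤ N) :
    √((t + h) / s) - √(t / (s + h) - D ^ 2 / (s * N) ^ 2) ≤ 4 / δ ^ 3 * h := by
  have hδ1 : δ ≤ 1 := hs.trans hs1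
  have hs0 : 0 < s := hδ.trans_le hs
  have ht0 : 0 < t := hδ.trans_le ht
  have hN0 : 0 < N := by linarith
  have hsh := mul_pos hs0 hh
  have hth := mul_pos ht0 hh
  have e2 : δ ^ 2 ≤ (t + h) / s := by
    rw [le_div_iff₀ hs0]
    have : δ ^ 2 * s ≤ δ * 1 := by
      have h1 : δ ^ 2 ≤ δ := by nlinarith
      exact mul_le_mul h1 hs1 hs0.le hδ.le
    linarith
  have f1 : (t + h) / s - t / (s + h) ≤ 3 * h / δ ^ 2 := by
    rw [div_sub_div _ _ hs0.ne' (by positivity), div_le_div_iff₀ (by positivity) (by positivity)]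
    have g0 : (t + h) * (s + h) - s * t = t * h + s * h + h * h := by ring
    have g1 : t * h + s * h + h * h ≤ 3 * h := by
      have := mul_le_mul_of_nonneg_right ht1 hh.le
      have := mul_le_mul_of_nonneg_right hs1 hh.le
      have := mul_le_mul_of_nonneg_right hh1 hh.le
      linarith
    have g2 : δ ^ 2 ≤ s * (s + h) := by
      have : δ ^ 2 ≤ s ^ 2 := pow_le_pow_left₀ hδ.le hs 2
      linarith
    rw [g0]
    exact mul_le_mul g1 g2 (by positivity) (by positivity)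
  have f2 : D ^ 2 / (s * N) ^ 2 ≤ h / δ ^ 2 := by
    rw [div_le_div_iff₀ (by positivity) (by positivity)]
    have g1 : D ^ 2 ≤ h * N ^ 2 := by
      rw [div_le_iff₀ hh] at hN3
      have g3 : N * h ≤ N ^ 2 * h := mul_le_mul_of_nonneg_right (by nlinarith) hh.le
      linarith
    have g2 : δ ^ 2 ≤ s ^ 2 := pow_le_pow_left₀ hδ.le hs 2
    calc D ^ 2 * δ ^ 2 ≤ (h * N ^ 2) * s ^ 2 :=
          mul_le_mul g1 g2 (by positivity) (by positivity)
      _ = h * (s * N) ^ 2 := by ring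
  have e3 : (t + h) / s - (t / (s + h) - D ^ 2 / (s * N) ^ 2) ≤ 4 * h / δ ^ 2 := by
    have f3 : 4 * h / δ ^ 2 = 3 * h / δ ^ 2 + h / δ ^ 2 := by ring
    rw [f3]
    linarith
  have e4 : t / (s + h) - D ^ 2 / (s * N) ^ 2 ≤ (t + h) / s := by
    have g1 : t / (s + h) ≤ (t + h) / s := by
      rw [div_le_div_iff₀ (by positivity) hs0]
      have : 0 ≤ h * h := by positivity
      nlinarith
    have g2 : 0 ≤ D ^ 2 / (s * N) ^ 2 := by positivity
    linarith
  have e5 := eq_sqrt_sub_le hδ e2 e4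
  refine e5.trans ?_
  rw [div_le_iff₀ hδ]
  refine e3.trans (le_of_eq ?_)
  field_simp

/-- the count of the annulus -/
lemma eq2_count {C2 h s : ℝ} {N : ℕ} (hC2 : 0 < C2)
    (hann : ∀ a b : ℝ, 0 ≤ a → a ≤ b → |((ann a b).card : ℝ) - π * (b - a)| ≤ C2 * (√b + 1))
    (hh : 0 < h) (hh1 : h ≤ 1) (hs : 0 < s) (hs1 : s ≤ 1) (hN : (1 : ℝ) ≤ N)
    (hN4 : (3 * C2 / h) ^ 2 ≤ N) :
    ((pann (s * N) ((s + h) * N)).card : ℝ) ≤ (π + 1) * h * N := by
  have hN0 : (0 : ℝ) < N := by linarith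
  have e1 : ((pann (s * N) ((s + h) * N)).card : ℝ) ≤ (ann (s * N) ((s + h) * N)).card := by
    exact_mod_cast Finset.card_le_card (pann_subset _ _)
  have e2 := (abs_le.1 (hann (s * N) ((s + h) * N) (by positivity)
    (mul_le_mul_of_nonneg_right (by linarith) hN0.le))).2
  have e3 : √((s + h) * N) + 1 ≤ 3 * √N := by
    have f1 : √((s + h) * N) ≤ 2 * √N := by
      rw [Real.sqrt_le_left (by positivity), mul_pow, Real.sq_sqrt hN0.le]
      exact mul_le_mul_of_nonneg_right (by linarith) hN0.le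
    have f2 : 1 ≤ √(N : ℝ) := Real.one_le_sqrt.2 hN
    linarith
  have e4 : 3 * C2 / h ≤ √N := Real.le_sqrt_of_sq_le hN4
  have e5 : C2 * (√((s + h) * N) + 1) ≤ h * N := by
    rw [div_le_iff₀ hh] at e4
    have f3 : √(N : ℝ) * √N = N := Real.mul_self_sqrt hN0.le
    have f4 := Real.sqrt_nonneg (N : ℝ)
    calc C2 * (√((s + h) * N) + 1) ≤ C2 * (3 * √N) := mul_le_mul_of_nonneg_left e3 hC2.le
      _ = (3 * C2) * √N := by ring
      _ ≤ (√N * h) * √N := mul_le_mul_of_nonneg_right e4 f4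
      _ = h * N := by rw [mul_right_comm, f3]; ring
  have e6 : π * ((s + h) * N - s * N) = π * h * N := by ring
  rw [e6] at e2
  linarith

open Classical in
theorem EQ2' (δ : ℝ) (hδ : 0 < δ) : ∃ C : ℝ, 0 < C ∧ ∀ (D : ℕ) (c : ℤ) (h : ℝ), 1 ≤ D → 0 < h →
    h ≤ 1 → ∃ N0 : ℕ, ∀ N : ℕ, N0 ≤ N → ∀ s t : ℝ, δ ≤ s → s ≤ 1 → δ ≤ t → t ≤ 1 →
      (((dpairs D N).filter (fun p : GaussianInt × GaussianInt => (D : GaussianInt) ∣ p.2 - (c : GaussianInt) * p.1 ∧
        s * N < nN p.1 ∧ (nN p.1 : ℝ) ≤ (s + h) * N ∧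
        t * N < nN p.2 ∧ (nN p.2 : ℝ) ≤ (t + h) * N)).card : ℝ) ≤ C * h ^ 2 * N / D := by
  obtain ⟨C2, hC2, hann⟩ := card_ann
  have hC1 : 0 < 4 / δ ^ 3 := by positivity
  refine ⟨4 / δ ^ 3 * (π + 1) + 2, by positivity, ?_⟩
  intro D c h hD hh hh1
  have hDr : (1 : ℝ) ≤ D := by exact_mod_cast hD
  have hD0 : (0 : ℝ) < D := by linarith
  set K : ℕ := ⌈4 / δ ^ 3⌉₊ with hKdef
  have hK1 : 1 ≤ K := Nat.ceil_pos.2 hC1
  have hKr : 4 / δ ^ 3 ≤ K := Nat.le_ceil _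
  have hK0 : (0 : ℝ) < K := by exact_mod_cast hK1
  obtain ⟨Y0, hY0⟩ := PCC 1 le_rfl (h ^ 2 / (K * D)) (by positivity)
  refine ⟨max (max ⌈Y0⌉₊ 1) (max ⌈(D : ℝ) ^ 2 / h⌉₊ ⌈(3 * C2 / h) ^ 2⌉₊), ?_⟩
  intro N hN s t hs hs1 ht ht1
  have hN1 : ⌈Y0⌉₊ ≤ N := (le_max_left _ _).trans ((le_max_left _ _).trans hN)
  have hN2 : 1 ≤ N := (le_max_right _ _).trans ((le_max_left _ _).trans hN)
  have hN3 : ⌈(D : ℝ) ^ 2 / h⌉₊ ≤ N := (le_max_left _ _).trans ((le_max_right _ _).trans hN)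
  have hN4 : ⌈(3 * C2 / h) ^ 2⌉₊ ≤ N := (le_max_right _ _).trans ((le_max_right _ _).trans hN)
  have hN1' : Y0 ≤ N := (Nat.le_ceil _).trans (by exact_mod_cast hN1)
  have hN2' : (1 : ℝ) ≤ N := by exact_mod_cast hN2
  have hN3' : (D : ℝ) ^ 2 / h ≤ N := (Nat.le_ceil _).trans (by exact_mod_cast hN3)
  have hN4' : (3 * C2 / h) ^ 2 ≤ N := (Nat.le_ceil _).trans (by exact_mod_cast hN4)
  have hN0 : (0 : ℝ) < N := by linarith
  have hδ1 : δ ≤ 1 := hs.trans hs1
  have hs0 : 0 < s := hδ.trans_le hs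
  have ht0 : 0 < t := hδ.trans_le ht
  set S := (dpairs D N).filter (fun p : GaussianInt × GaussianInt =>
    (D : GaussianInt) ∣ p.2 - (c : GaussianInt) * p.1 ∧
        s * N < nN p.1 ∧ (nN p.1 : ℝ) ≤ (s + h) * N ∧
        t * N < nN p.2 ∧ (nN p.2 : ℝ) ≤ (t + h) * N) with hSdef
  set α : ℝ := (√(t / (s + h) - D ^ 2 / (s * N) ^ 2) - c) / D with hα
  set β : ℝ := (√((t + h) / s) - c) / D with hβ
  -- length of the window
  have hlen : β - α ≤ 4 / δ ^ 3 * h / D := by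
    have e1 : β - α = (√((t + h) / s) - √(t / (s + h) - D ^ 2 / (s * N) ^ 2)) / D := by
      rw [hα, hβ]; ring
    rw [e1]
    exact div_le_div_of_nonneg_right (eq2_len hδ hh hh1 hs hs1 ht ht1 hN2' hD0 hN3') hD0.le
  have hcount := eq2_count hC2 hann hh hh1 hs0 hs1 hN2' hN4'
  -- facts on the elements of the set
  have hSf : ∀ p ∈ S, crossG p.1 p.2 = D ∧ (D : GaussianInt) ∣ p.2 - (c : GaussianInt) * p.1 ∧
      s * N < nN p.1 ∧ (nN p.1 : ℝ) ≤ (s + h) * N ∧ α < eq2sg D c p ∧ eq2sg D c p ≤ β := by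
    intro p hp
    rw [hSdef, Finset.mem_filter] at hp
    obtain ⟨hp0, hp1, hp2, hp3, hp4, hp5⟩ := hp
    unfold dpairs at hp0
    rw [Finset.mem_filter] at hp0
    obtain ⟨_, hp6, hp7⟩ := hp0
    have hph := eq2_phase hD (c := c) hN2 hs0 hh ht0 hp6 hp7 hp2 hp3 hp4 hp5
    exact ⟨hp6, hp1, hp2, hp3, hph.1, hph.2⟩
  rcases S.eq_empty_or_nonempty with hSe | ⟨p0, hp0⟩
  · rw [hSe, Finset.card_empty, Nat.cast_zero]
    positivity
  have hαβ : α < β := by
    obtain ⟨_, _, _, _, h5, h6⟩ := hSf p0 hp0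
    linarith
  set L : ℝ := (β - α) / K with hL
  have hLpos : 0 < L := div_pos (by linarith) hK0
  have hL1 : L ≤ 1 := by
    rw [hL, div_le_one hK0]
    refine hlen.trans ?_
    rw [div_le_iff₀ hD0]
    calc 4 / δ ^ 3 * h ≤ K * 1 := mul_le_mul hKr hh1 hh.le hK0.le
      _ ≤ K * D := mul_le_mul_of_nonneg_left hDr hK0.le
  have hcov : S ⊆ (Finset.range K).biUnion (fun i => S.filter (fun p =>
      α + i * L < eq2sg D c p ∧ eq2sg D c p ≤ α + (i + 1 : ℕ) * L)) := by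
    intro p hp
    obtain ⟨_, _, _, _, h5, h6⟩ := hSf p hp
    obtain ⟨i, hi, h7, h8⟩ := eq2_cover hK1 h5 h6
    rw [Finset.mem_biUnion]
    exact ⟨i, hi, Finset.mem_filter.2 ⟨hp, h7, h8⟩⟩
  have hsum : (S.card : ℝ) ≤ ∑ i ∈ Finset.range K, ((S.filter (fun p =>
      α + i * L < eq2sg D c p ∧ eq2sg D c p ≤ α + (i + 1 : ℕ) * L)).card : ℝ) := by
    have h1 := (Finset.card_le_card hcov).trans Finset.card_biUnion_le
    exact_mod_cast h1
  have hb0 : 0 ≤ (s + h) * N := by positivity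
  have hterm : ∀ i ∈ Finset.range K, ((S.filter (fun p =>
      α + i * L < eq2sg D c p ∧ eq2sg D c p ≤ α + (i + 1 : ℕ) * L)).card : ℝ) ≤
      L * ((π + 1) * h * N) + h ^ 2 / (K * D) * (2 * N) := by
    intro i _
    have h2 := hY0 (2 * N) (by linarith) 1 1 (by simp) (s * N) ((s + h) * N) (by positivity)
      (mul_le_mul_of_nonneg_right (by linarith) hN0.le)
      (mul_le_mul_of_nonneg_right (by linarith) hN0.le) (α + i * L) (α + (i + 1 : ℕ) * L)
      (by push_cast; linarith) (by push_cast; linarith)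
    have h3 := (abs_le.1 h2).2
    have h4 : α + (i + 1 : ℕ) * L - (α + i * L) = L := by push_cast; ring
    rw [h4] at h3
    refine (eq2_interval D hD c (S.filter (fun p =>
      α + i * L < eq2sg D c p ∧ eq2sg D c p ≤ α + (i + 1 : ℕ) * L)) (s * N) ((s + h) * N)
      (α + i * L) (α + (i + 1 : ℕ) * L) (by positivity) hb0 (by push_cast; linarith) _
      ?_ ?_).trans ((sub_le_iff_le_add.1 h3).trans ?_)
    · intro z
      rw [Finset.mem_filter]
    · intro p hp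
      rw [Finset.mem_filter] at hp
      obtain ⟨h5, h6, h7, h8, _, _⟩ := hSf p hp.1
      exact ⟨h5, h6, h7, h8, hp.2.1, hp.2.2⟩
    · rw [add_comm]
      refine add_le_add_left (mul_le_mul_of_nonneg_left ?_ hLpos.le) _
      refine le_trans ?_ hcount
      exact_mod_cast Finset.card_filter_le _ _
  refine hsum.trans ((Finset.sum_le_sum hterm).trans ?_)
  rw [Finset.sum_const, Finset.card_range, nsmul_eq_mul]
  have h7 : (K : ℝ) * L = β - α := by rw [hL, mul_div_cancel₀ _ hK0.ne']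
  have h8 : (K : ℝ) * (L * ((π + 1) * h * N) + h ^ 2 / (K * D) * (2 * N)) =
      (β - α) * ((π + 1) * h * N) + 2 * h ^ 2 * N / D := by
    rw [mul_add, ← mul_assoc, h7]
    congr 1
    field_simp
  rw [h8]
  have h9 : (β - α) * ((π + 1) * h * N) ≤ (4 / δ ^ 3 * h / D) * ((π + 1) * h * N) :=
    mul_le_mul_of_nonneg_right hlen (by positivity)
  refine (add_le_add_left h9 _).trans (le_of_eq ?_)
  ring

end Pool.Agent.LogCh
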