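import Pool.Agent.Lib.LogCh.DDefs

/-!
# FEW: almost all `x` have a prime factor `p > l0` with `p ∥ x`

PROOF. Let `l0 ≥ 1`. Choose a finite set `S` of primes in `(l0, ∞)` with `σ = ∑_{p ∈ S} 1/p` as large
as we like (`Nat.Primes.not_summable_one_div`). For `x ≤ X` let `f x = #{p ∈ S : p ∣ x}`. Variance:
`∑_{x ≤ X} (f x - σ)^2 ≤ X σ + C_S` (`#{x ≤ X : p ∣ x} = X/p + O(1)`,
`#{x ≤ X : p p' ∣ x} = X/(p p') + O(1)` for `p ≠ p'`), so `#{x ≤ X : f x = 0} ≤ X/σ + C_S/σ^2`.
If `f x ≠ 0`, but no `p ∈ S` exactly divides `x`, then `p^2 ∣ x` for some prime `p > l0`: at most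
`∑_{n > l0} X / n^2 ≤ X / l0` such `x`. This proves the statement for large `l0` (apply it with
`max l0 ⌈2/ε⌉`: the statement for a larger `l0` is stronger).
-/

set_option autoImplicit false

namespace Pool.Agent.LogCh

open Real

/-- a finite set of primes beyond `L` with a large sum of reciprocals -/
lemma few_exists_S (L : ℕ) (C : ℝ) : ∃ n : ℕ,
    C ≤ ∑ p ∈ (Finset.Ioc L n).filter Nat.Prime, (1 : ℝ) / p := by
  have h1 := not_summable_one_div_on_primes
  have hnn : ∀ n : ℕ, 0 ≤ Set.indicator {p : ℕ | p.Prime} (fun n : ℕ => (1 : ℝ) / n) n := by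
    intro n
    apply Set.indicator_nonneg
    intro x _
    positivity
  rw [not_summable_iff_tendsto_nat_atTop_of_nonneg hnn] at h1
  obtain ⟨n, hn⟩ := (h1.eventually_ge_atTop (C + ∑ i ∈ Finset.range (L + 1),
    Set.indicator {p : ℕ | p.Prime} (fun n : ℕ => (1 : ℝ) / n) i)).exists
  refine ⟨n, ?_⟩
  have h2 : ∑ i ∈ Finset.range n, Set.indicator {p : ℕ | p.Prime} (fun n : ℕ => (1 : ℝ) / n) i ≤
      ∑ i ∈ Finset.range (L + 1), Set.indicator {p : ℕ | p.Prime} (fun n : ℕ => (1 : ℝ) / n) i +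
      ∑ i ∈ Finset.Ioc L n, Set.indicator {p : ℕ | p.Prime} (fun n : ℕ => (1 : ℝ) / n) i := by
    rw [← Finset.sum_union]
    · apply Finset.sum_le_sum_of_subset_of_nonneg
      · intro i hi
        simp only [Finset.mem_union, Finset.mem_range, Finset.mem_Ioc] at hi ⊢
        omega
      · intro i _ _
        exact hnn i
    · rw [Finset.disjoint_left]
      intro i hi hi'
      simp only [Finset.mem_range, Finset.mem_Ioc] at hi hi'
      omega
  have h3 : ∑ i ∈ Finset.Ioc L n, Set.indicator {p : ℕ | p.Prime} (fun n : ℕ => (1 : ℝ) / n) i =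
      ∑ p ∈ (Finset.Ioc L n).filter Nat.Prime, (1 : ℝ) / p := by
    rw [Finset.sum_filter]
    apply Finset.sum_congr rfl
    intro i _
    rw [Set.indicator_apply]
    rfl
  rw [h3] at h2
  linarith

lemma few_card_dvd (X m : ℕ) :
    ((Finset.Icc 1 X).filter (fun x => m ∣ x)).card = X / m := by
  have := Nat.Ioc_filter_dvd_card_eq_div X m
  rw [← this]
  congr 1

lemma few_card_dvd_le (X m : ℕ) :
    (((Finset.Icc 1 X).filter (fun x => m ∣ x)).card : ℝ) ≤ X / m := by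
  rw [few_card_dvd]
  exact Nat.cast_div_le

lemma few_card_dvd_ge (X m : ℕ) :
    (X : ℝ) / m - 1 ≤ ((Finset.Icc 1 X).filter (fun x => m ∣ x)).card := by
  rw [few_card_dvd]
  have := Nat.lt_floor_add_one ((X : ℝ) / m)
  rw [Nat.floor_div_natCast, Nat.floor_natCast] at this
  linarith

open Classical in
/-- the variance bound -/
lemma few_variance (S : Finset ℕ) (hS : ∀ p ∈ S, p.Prime) (X : ℕ) :
    ∑ x ∈ Finset.Icc 1 X, ((∑ p ∈ S, if p ∣ x then (1 : ℝ) else 0) - ∑ p ∈ S, (1 : ℝ) / p) ^ 2 ≤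
      (∑ p ∈ S, (1 : ℝ) / p) * X + 2 * (∑ p ∈ S, (1 : ℝ) / p) * S.card := by
  set σ : ℝ := ∑ p ∈ S, (1 : ℝ) / p with hσ
  have hσ0 : 0 ≤ σ := Finset.sum_nonneg fun p _ => by positivity
  have h1 : ∑ x ∈ Finset.Icc 1 X, (∑ p ∈ S, if p ∣ x then (1 : ℝ) else 0) ≥
      σ * X - S.card := by
    rw [Finset.sum_comm]
    have : ∀ p ∈ S, (1 : ℝ) / p * X - 1 ≤ ∑ x ∈ Finset.Icc 1 X, if p ∣ x then (1 : ℝ) else 0 := by
      intro p _
      rw [Finset.sum_boole]
      have := few_card_dvd_ge X p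
      have h2 : (1 : ℝ) / p * X = X / p := by ring
      rw [h2]
      exact this
    have h2 := Finset.sum_le_sum this
    rw [Finset.sum_sub_distrib, ← Finset.sum_mul, ← hσ, Finset.sum_const, nsmul_eq_mul,
      mul_one] at h2
    exact h2
  have h2 : ∑ x ∈ Finset.Icc 1 X, (∑ p ∈ S, if p ∣ x then (1 : ℝ) else 0) ^ 2 ≤
      σ * X + σ ^ 2 * X := by
    have h3 : ∀ x ∈ Finset.Icc 1 X, (∑ p ∈ S, if p ∣ x then (1 : ℝ) else 0) ^ 2 =
        ∑ p ∈ S, ∑ r ∈ S, if p ∣ x ∧ r ∣ x then (1 : ℝ) else 0 := by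
      intro x _
      rw [sq, Finset.sum_mul_sum]
      apply Finset.sum_congr rfl
      intro p _
      apply Finset.sum_congr rfl
      intro r _
      by_cases h : p ∣ x <;> by_cases h' : r ∣ x <;> simp [h, h']
    rw [Finset.sum_congr rfl h3, Finset.sum_comm]
    have h4 : ∀ p ∈ S, ∑ x ∈ Finset.Icc 1 X, ∑ r ∈ S, (if p ∣ x ∧ r ∣ x then (1 : ℝ) else 0) ≤
        (1 : ℝ) / p * X + (1 : ℝ) / p * σ * X := by
      intro p hp
      rw [Finset.sum_comm]
      have h5 : ∀ r ∈ S, ∑ x ∈ Finset.Icc 1 X, (if p ∣ x ∧ r ∣ x then (1 : ℝ) else 0) ≤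
          (if r = p then (1 : ℝ) / p * X else 0) + (1 : ℝ) / p * (1 / r) * X := by
        intro r hr
        rw [Finset.sum_boole]
        by_cases h : r = p
        · rw [if_pos h, h]
          have h6 : (Finset.Icc 1 X).filter (fun x => p ∣ x ∧ p ∣ x) =
              (Finset.Icc 1 X).filter (fun x => p ∣ x) := by
            apply Finset.filter_congr
            intro x _
            simp
          rw [h6]
          have h7 := few_card_dvd_le X p
          have h8 : (1 : ℝ) / p * X = X / p := by ring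
          rw [h8]
          have : (0 : ℝ) ≤ (1 : ℝ) / p * (1 / p) * X := by positivity
          linarith
        · rw [if_neg h]
          have h6 : (Finset.Icc 1 X).filter (fun x => p ∣ x ∧ r ∣ x) =
              (Finset.Icc 1 X).filter (fun x => p * r ∣ x) := by
            apply Finset.filter_congr
            intro x _
            have hc : Nat.Coprime p r := (Nat.coprime_primes (hS p hp) (hS r hr)).2 (Ne.symm h)
            constructor
            · rintro ⟨h1, h2⟩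
              exact Nat.Coprime.mul_dvd_of_dvd_of_dvd hc h1 h2
            · intro h1
              exact ⟨(Dvd.intro _ rfl).trans h1, (Dvd.intro_left _ rfl).trans h1⟩
          rw [h6]
          have h7 := few_card_dvd_le X (p * r)
          have h8 : (1 : ℝ) / p * (1 / r) * X = X / ((p * r : ℕ) : ℝ) := by
            push_cast
            rw [div_mul_div_comm, one_mul, div_mul_eq_mul_div, one_mul]
          rw [h8]
          linarith
      refine (Finset.sum_le_sum h5).trans (le_of_eq ?_)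
      rw [Finset.sum_add_distrib, Finset.sum_ite_eq' S p, if_pos hp]
      congr 1
      rw [hσ, ← Finset.sum_mul, ← Finset.mul_sum]
    refine (Finset.sum_le_sum h4).trans (le_of_eq ?_)
    rw [Finset.sum_add_distrib, ← Finset.sum_mul, ← Finset.sum_mul, ← Finset.sum_mul, ← hσ]
    ring
  have h3 : ∑ x ∈ Finset.Icc 1 X, ((∑ p ∈ S, if p ∣ x then (1 : ℝ) else 0) - σ) ^ 2 =
      ∑ x ∈ Finset.Icc 1 X, (∑ p ∈ S, if p ∣ x then (1 : ℝ) else 0) ^ 2 -
      2 * σ * ∑ x ∈ Finset.Icc 1 X, (∑ p ∈ S, if p ∣ x then (1 : ℝ) else 0) + σ ^ 2 * X := by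
    have h4 : ∀ x ∈ Finset.Icc 1 X, ((∑ p ∈ S, if p ∣ x then (1 : ℝ) else 0) - σ) ^ 2 =
        (∑ p ∈ S, if p ∣ x then (1 : ℝ) else 0) ^ 2 -
        2 * σ * (∑ p ∈ S, if p ∣ x then (1 : ℝ) else 0) + σ ^ 2 := by
      intro x _
      ring
    rw [Finset.sum_congr rfl h4, Finset.sum_add_distrib, Finset.sum_sub_distrib, ← Finset.mul_sum,
      Finset.sum_const, nsmul_eq_mul, Nat.card_Icc, Nat.add_sub_cancel, mul_comm (X : ℝ)]
  rw [h3]
  nlinarith [mul_le_mul_of_nonneg_left h1 (by positivity : 0 ≤ 2 * σ)]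

open Classical in
theorem FEW (l0 : ℕ) (ε : ℝ) (hε : 0 < ε) : ∃ X0 : ℕ, ∀ X : ℕ, X0 ≤ X →
    (((Finset.Icc 1 X).filter (fun x => ∀ p : ℕ, p.Prime → l0 < p → p ∣ x →
      ¬ p.Coprime (x / p))).card : ℝ) ≤ ε * X := by
  obtain ⟨L1, hL1⟩ := exists_nat_gt (3 / ε)
  set L : ℕ := max (max L1 l0) 1 with hLdef
  have hL1' : L1 ≤ L := (le_max_left _ _).trans (le_max_left _ _)
  have hLl : l0 ≤ L := (le_max_right _ _).trans (le_max_left _ _)
  have hL0 : 1 ≤ L := le_max_right _ _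
  have hL3 : 3 / ε < L := hL1.trans_le (by exact_mod_cast hL1')
  obtain ⟨n, hn⟩ := few_exists_S L (3 / ε)
  set S : Finset ℕ := (Finset.Ioc L n).filter Nat.Prime with hSdef
  have hSp : ∀ p ∈ S, p.Prime := fun p hp => (Finset.mem_filter.1 hp).2
  have hSL : ∀ p ∈ S, L < p := fun p hp => (Finset.mem_Ioc.1 (Finset.mem_filter.1 hp).1).1
  set σ : ℝ := ∑ p ∈ S, (1 : ℝ) / p with hσ
  have hσ0 : 0 < σ := (by positivity : 0 < 3 / ε).trans_le hn
  obtain ⟨X0, hX0⟩ := exists_nat_gt (6 * S.card / (σ * ε))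
  refine ⟨X0, fun X hX => ?_⟩
  have hXr : 6 * (S.card : ℝ) / (σ * ε) ≤ X := hX0.le.trans (by exact_mod_cast hX)
  set A := (Finset.Icc 1 X).filter (fun x => ∀ p : ℕ, p.Prime → l0 < p → p ∣ x →
      ¬ p.Coprime (x / p)) with hA
  set B := (Finset.Icc 1 X).filter (fun x => ∀ p ∈ S, ¬ p ∣ x) with hB
  have hsub : A ⊆ B ∪ S.biUnion (fun p => (Finset.Icc 1 X).filter (fun x => p ^ 2 ∣ x)) := by
    intro x hx
    rw [hA, Finset.mem_filter] at hx
    rw [Finset.mem_union, hB, Finset.mem_filter, Finset.mem_biUnion]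
    by_cases h : ∀ p ∈ S, ¬ p ∣ x
    · exact Or.inl ⟨hx.1, h⟩
    · right
      push Not at h
      obtain ⟨p, hp, hpx⟩ := h
      refine ⟨p, hp, Finset.mem_filter.2 ⟨hx.1, ?_⟩⟩
      have h1 := hx.2 p (hSp p hp) (hLl.trans_lt (hSL p hp)) hpx
      rw [(hSp p hp).coprime_iff_not_dvd, not_not] at h1
      obtain ⟨k, hk⟩ := h1
      refine ⟨k, ?_⟩
      have h2 := Nat.div_mul_cancel hpx
      rw [hk] at h2
      rw [← h2]
      ring
  have hcard : (A.card : ℝ) ≤ B.card + ∑ p ∈ S, (X : ℝ) * ((p : ℝ) ^ 2)⁻¹ := by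
    have h1 : A.card ≤ B.card + ∑ p ∈ S, ((Finset.Icc 1 X).filter (fun x => p ^ 2 ∣ x)).card :=
      (Finset.card_le_card hsub).trans ((Finset.card_union_le _ _).trans
        (Nat.add_le_add_left Finset.card_biUnion_le _))
    have h2 : (A.card : ℝ) ≤ B.card +
        ∑ p ∈ S, (((Finset.Icc 1 X).filter (fun x => p ^ 2 ∣ x)).card : ℝ) := by
      exact_mod_cast h1
    refine h2.trans (add_le_add le_rfl (Finset.sum_le_sum fun p _ => ?_))
    have h3 := few_card_dvd_le X (p ^ 2)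
    push_cast at h3
    rw [div_eq_mul_inv] at h3
    exact h3
  have hsq : ∑ p ∈ S, (X : ℝ) * ((p : ℝ) ^ 2)⁻¹ ≤ X * (ε / 3) := by
    rw [← Finset.mul_sum]
    apply mul_le_mul_of_nonneg_left _ (Nat.cast_nonneg X)
    have h1 : ∑ p ∈ S, ((p : ℝ) ^ 2)⁻¹ ≤ ∑ p ∈ Finset.Ioc L (max n L), ((p : ℝ) ^ 2)⁻¹ := by
      apply Finset.sum_le_sum_of_subset_of_nonneg
      · intro p hp
        have h2 := Finset.mem_Ioc.1 (Finset.mem_filter.1 hp).1
        exact Finset.mem_Ioc.2 ⟨h2.1, h2.2.trans (le_max_left _ _)⟩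
      · intro p _ _
        positivity
    have h2 := sum_Ioc_inv_sq_le_sub (α := ℝ) (by omega : L ≠ 0) (le_max_right n L)
    have h3 : ((max n L : ℕ) : ℝ)⁻¹ ≥ 0 := by positivity
    have h4 : (L : ℝ)⁻¹ ≤ ε / 3 := by
      rw [inv_le_comm₀ (by positivity) (by positivity)]
      rw [inv_div]
      exact hL3.le
    linarith
  have hBc : (B.card : ℝ) ≤ X * (ε / 3) + X * (ε / 3) := by
    have h1 := few_variance S hSp X
    rw [← hσ] at h1
    have h2 : (B.card : ℝ) * σ ^ 2 ≤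
        ∑ x ∈ Finset.Icc 1 X, ((∑ p ∈ S, if p ∣ x then (1 : ℝ) else 0) - σ) ^ 2 := by
      have h3 : (B.card : ℝ) * σ ^ 2 =
          ∑ x ∈ B, ((∑ p ∈ S, if p ∣ x then (1 : ℝ) else 0) - σ) ^ 2 := by
        rw [← nsmul_eq_mul, ← Finset.sum_const]
        apply Finset.sum_congr rfl
        intro x hx
        rw [hB, Finset.mem_filter] at hx
        have h4 : (∑ p ∈ S, if p ∣ x then (1 : ℝ) else 0) = 0 := by
          apply Finset.sum_eq_zero
          intro p hp
          rw [if_neg (hx.2 p hp)]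
        rw [h4]
        ring
      rw [h3]
      apply Finset.sum_le_sum_of_subset_of_nonneg (Finset.filter_subset _ _)
      intro x _ _
      positivity
    have h3 : (B.card : ℝ) * σ ^ 2 ≤ (X + 2 * S.card) * σ := by
      refine (h2.trans h1).trans (le_of_eq ?_)
      ring
    have h4 : (B.card : ℝ) * σ ≤ X + 2 * S.card := by
      have h5 : ((B.card : ℝ) * σ) * σ ≤ (X + 2 * S.card) * σ := by
        refine le_trans (le_of_eq ?_) h3
        ring
      exact le_of_mul_le_mul_right h5 hσ0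
    have h5 : (3 : ℝ) ≤ σ * ε := by
      rw [div_le_iff₀ hε] at hn
      exact hn
    have h6 : 6 * (S.card : ℝ) ≤ X * (σ * ε) := by
      rw [div_le_iff₀ (by positivity)] at hXr
      exact hXr
    have h7 : (B.card : ℝ) * σ ≤ (X * (ε / 3) + X * (ε / 3)) * σ := by
      have h8 : (X : ℝ) * 3 ≤ X * (σ * ε) := mul_le_mul_of_nonneg_left h5 (Nat.cast_nonneg X)
      nlinarith
    exact le_of_mul_le_mul_right h7 hσ0
  calc (A.card : ℝ) ≤ B.card + ∑ p ∈ S, (X : ℝ) * ((p : ℝ) ^ 2)⁻¹ := hcard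
    _ ≤ (X * (ε / 3) + X * (ε / 3)) + X * (ε / 3) := add_le_add hBc hsq
    _ = ε * X := by ring

end Pool.Agent.LogCh
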