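import Pool.Agent.Lib.LogCh.DDefs

/-!
# GEO: the vectors `w` with `z × w = 1` in a class, and the phase `<z,w> / (q N z)` in coordinates

The coordinates of `z` are `x = z.re - t z.im`, `y = z.im` (`z = x e1 + y e2`, `e1 = 1`,
`e2 = t + i`), those of `w` are `c = w.re - t w.im`, `d = w.im`; `x d - y c = 1`.
-/

set_option autoImplicit false

namespace Pool.Agent.LogCh

open Real
open Pool.Agent.NSqP
open Pool.Agent.MP484c84Par (ballG mem_ballG crossG dotG norm_def' norm_pos')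

theorem exists_W {q : ℕ} {z w0 : GaussianInt} (hz : Prim z) (h : (q : ℤ) ∣ crossG z w0 - 1) :
    ∃ w, IsW q w0 z w := by
  unfold Prim cont at hz
  rw [← Int.isCoprime_iff_gcd_eq_one] at hz
  obtain ⟨u, v, huv⟩ := hz
  have h1 : crossG z ⟨-v, u⟩ = 1 := by
    simp only [crossG]; linarith
  set w1 : GaussianInt := ⟨-v, u⟩ with hw1
  obtain ⟨k, hk⟩ := h
  have hexp := basis_expand h1 (w0 - w1)
  have hb : crossG z (w0 - w1) = q * k := by
    have : crossG z (w0 - w1) = crossG z w0 - crossG z w1 := by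
      simp only [crossG, Zsqrtd.re_sub, Zsqrtd.im_sub]; ring
    rw [this, h1]; exact hk
  refine ⟨w1 + ((crossG (w0 - w1) w1 : ℤ) : GaussianInt) * z, ?_, ?_⟩
  · have : crossG z (w1 + ((crossG (w0 - w1) w1 : ℤ) : GaussianInt) * z) = crossG z w1 := by
      generalize crossG (w0 - w1) w1 = a
      simp only [crossG, Zsqrtd.re_add, Zsqrtd.im_add, Zsqrtd.re_mul, Zsqrtd.im_mul,
        Zsqrtd.re_intCast, Zsqrtd.im_intCast]
      ring
    rw [this, h1]
  · refine ⟨-((k : ℤ) : GaussianInt) * w1, ?_⟩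
    rw [hb] at hexp
    have h2 : ((crossG (w0 - w1) w1 : ℤ) : GaussianInt) * z =
        w0 - w1 - (((q : ℤ) * k : ℤ) : GaussianInt) * w1 := by
      rw [eq_sub_iff_add_eq]; exact hexp.symm
    rw [h2]
    push_cast
    ring

theorem W_unique {q : ℕ} {z w0 w w' : GaussianInt} (h : IsW q w0 z w) (h' : IsW q w0 z w') :
    ∃ k : ℤ, w' = w + ((q * k : ℤ) : GaussianInt) * z := by
  have hexp := basis_expand h.1 (w' - w)
  have h0 : crossG z (w' - w) = 0 := by
    have : crossG z (w' - w) = crossG z w' - crossG z w := by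
      simp only [crossG, Zsqrtd.re_sub, Zsqrtd.im_sub]; ring
    rw [this, h.1, h'.1]; ring
  rw [h0] at hexp
  have hd : (q : GaussianInt) ∣ w' - w := by
    have := dvd_sub h'.2 h.2
    simpa using this
  rw [dvdGn] at hd
  obtain ⟨⟨a, ha⟩, ⟨b, hb⟩⟩ := hd
  have hk : crossG (w' - w) w = q * (a * w.im - b * w.re) := by
    simp only [crossG]
    rw [ha, hb]; ring
  refine ⟨a * w.im - b * w.re, ?_⟩
  rw [hk] at hexp
  have : w' = w + (w' - w) := by ring
  rw [this, hexp]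
  push_cast
  ring

theorem dot_shift (z w : GaussianInt) (k : ℤ) :
    dotG z (w + (k : GaussianInt) * z) = dotG z w + k * nN z := by
  rw [nN_cast_int, norm_def']
  simp only [dotG, Zsqrtd.re_add, Zsqrtd.im_add, Zsqrtd.re_mul, Zsqrtd.im_mul,
    Zsqrtd.re_intCast, Zsqrtd.im_intCast]
  ring

theorem IsW_shift {q : ℕ} {z w0 w : GaussianInt} (h : IsW q w0 z w) (k : ℤ) :
    IsW q w0 z (w + ((q * k : ℤ) : GaussianInt) * z) := by
  refine ⟨?_, ?_⟩
  · have h1 := h.1
    have h3 : crossG z (w + ((q * k : ℤ) : GaussianInt) * z) = crossG z w := by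
      generalize (q * k : ℤ) = a
      simp only [crossG, Zsqrtd.re_add, Zsqrtd.im_add, Zsqrtd.re_mul, Zsqrtd.im_mul,
        Zsqrtd.re_intCast, Zsqrtd.im_intCast]
      ring
    exact h3.trans h1
  · have : w + ((q * k : ℤ) : GaussianInt) * z - w0 =
        (w - w0) + (q : GaussianInt) * ((k : GaussianInt) * z) := by push_cast; ring
    rw [this]
    exact dvd_add h.2 (Dvd.intro _ rfl)

theorem exists_t {q : ℕ} (hq : 1 ≤ q) {z0 w0 : GaussianInt} (h : (q : ℤ) ∣ crossG z0 w0 - 1) :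
    ∃ t : ℕ, t ≤ q ∧ IsCoprime (z0.re - t * z0.im) (q : ℤ) := by
  set t : ℕ := ∏ p ∈ q.primeFactors.filter (fun p : ℕ => ¬ (p : ℤ) ∣ z0.re), p with ht
  refine ⟨t, ?_, ?_⟩
  · have h1 : t ≤ ∏ p ∈ q.primeFactors, p := by
      rw [ht]
      apply Finset.prod_le_prod_of_subset_of_one_le' (Finset.filter_subset _ _)
      intro p hp _
      exact (Nat.prime_of_mem_primeFactors hp).one_lt.le
    exact h1.trans (Nat.le_of_dvd hq (Nat.prod_primeFactors_dvd q))
  · rw [Int.isCoprime_iff_gcd_eq_one]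
    by_contra hne
    obtain ⟨p, hp, hpd⟩ := Nat.exists_prime_and_dvd hne
    rw [Int.gcd_eq_natAbs, Nat.dvd_gcd_iff, Int.natAbs_natCast] at hpd
    obtain ⟨h1, h2⟩ := hpd
    have h1' : (p : ℤ) ∣ z0.re - t * z0.im := Int.natCast_dvd.2 h1
    have hpp : Prime (p : ℤ) := Nat.prime_iff_prime_int.1 hp
    by_cases hre : (p : ℤ) ∣ z0.re
    · have h3 : (p : ℤ) ∣ t * z0.im := by
        have := dvd_sub hre h1'
        simpa using this
      rcases hpp.dvd_or_dvd h3 with h4 | h4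
      · have h5 : p ∣ t := by exact_mod_cast h4
        rw [ht, hp.prime.dvd_finsetProd_iff] at h5
        obtain ⟨r, hr, hpr⟩ := h5
        rw [Finset.mem_filter] at hr
        have hr' := Nat.prime_of_mem_primeFactors hr.1
        have : p = r := (Nat.prime_dvd_prime_iff_eq hp hr').1 hpr
        rw [← this] at hr
        exact hr.2 hre
      · have h5 : (p : ℤ) ∣ crossG z0 w0 := by
          simp only [crossG]
          exact dvd_sub (hre.mul_right _) (h4.mul_right _)
        have h6 : (p : ℤ) ∣ crossG z0 w0 - 1 := (Int.natCast_dvd_natCast.2 h2).trans h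
        have h7 : (p : ℤ) ∣ 1 := by
          have := dvd_sub h5 h6
          simpa using this
        exact hpp.not_isUnit (isUnit_of_dvd_one h7)
    · have h3 : p ∈ q.primeFactors.filter (fun p : ℕ => ¬ (p : ℤ) ∣ z0.re) := by
        rw [Finset.mem_filter]
        exact ⟨Nat.mem_primeFactors.2 ⟨hp, h2, by omega⟩, hre⟩
      have h4 : p ∣ t := Finset.dvd_prod_of_mem _ h3
      have h5 : (p : ℤ) ∣ t * z0.im := (Int.natCast_dvd_natCast.2 h4).mul_right _
      have h6 : (p : ℤ) ∣ z0.re := by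
        have := dvd_add h1' h5
        simpa using this
      exact hre h6

/-- the coordinate `c` of `w` satisfies `y c ≡ -1 mod x` and `c ≡ c0 mod q` -/
theorem coord_c {q : ℕ} {z w0 w : GaussianInt} (h : IsW q w0 z w) (t : ℕ) :
    (z.re - t * z.im) ∣ z.im * (w.re - t * w.im) + 1 ∧
      (q : ℤ) ∣ (w.re - t * w.im) - (w0.re - t * w0.im) := by
  obtain ⟨h1, h2⟩ := h
  rw [dvdGn] at h2
  refine ⟨⟨w.im, ?_⟩, ?_⟩
  · simp only [crossG] at h1; linear_combination -h1
  · obtain ⟨⟨a, ha⟩, ⟨b, hb⟩⟩ := h2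
    refine ⟨a - t * b, ?_⟩
    simp only [Zsqrtd.re_sub, Zsqrtd.im_sub] at ha hb
    linear_combination ha - (t : ℤ) * hb

theorem phase_close {z w : GaussianInt} (h : crossG z w = 1) (t : ℕ)
    (hx : z.re - t * z.im ≠ 0) :
    |(dotG z w : ℝ) / nN z - ((w.re - t * w.im : ℤ) : ℝ) / ((z.re - t * z.im : ℤ) : ℝ)| ≤
      (t + 1) / (|((z.re - t * z.im : ℤ) : ℝ)| * √(nN z)) := by
  have hz : z ≠ 0 := prim_ne_zero (prim_of_cross h)
  have hn : (0 : ℝ) < nN z := by exact_mod_cast nN_pos hz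
  set x : ℝ := ((z.re - t * z.im : ℤ) : ℝ) with hxdef
  have hx0 : x ≠ 0 := by rw [hxdef]; exact_mod_cast hx
  have hr : ((crossG z w : ℤ) : ℝ) = 1 := by rw [h]; norm_num
  have hkey : (dotG z w : ℝ) * x - ((w.re - t * w.im : ℤ) : ℝ) * nN z =
      t * z.re + z.im := by
    rw [nN_real, hxdef]
    simp only [crossG] at hr
    simp only [dotG]
    push_cast at hr ⊢
    linear_combination ((t : ℝ) * z.re + z.im) * hr
  have hs : 0 < √(nN z : ℝ) := Real.sqrt_pos.2 hn
  have hss : √(nN z : ℝ) * √(nN z : ℝ) = nN z := Real.mul_self_sqrt hn.le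
  have h1 : (dotG z w : ℝ) / nN z - ((w.re - t * w.im : ℤ) : ℝ) / x =
      (t * z.re + z.im) / (x * nN z) := by
    rw [← hkey]; field_simp
  have hre : |(z.re : ℝ)| ≤ √(nN z : ℝ) := by
    apply Real.abs_le_sqrt; rw [nN_real]; nlinarith [sq_nonneg (z.im : ℝ)]
  have him : |(z.im : ℝ)| ≤ √(nN z : ℝ) := by
    apply Real.abs_le_sqrt; rw [nN_real]; nlinarith [sq_nonneg (z.re : ℝ)]
  have h2 : |(t : ℝ) * z.re + z.im| ≤ (t + 1) * √(nN z : ℝ) := by
    refine (abs_add_le _ _).trans ?_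
    rw [abs_mul, abs_of_nonneg (Nat.cast_nonneg t : (0 : ℝ) ≤ t), add_mul, one_mul]
    exact add_le_add (mul_le_mul_of_nonneg_left hre (Nat.cast_nonneg t)) him
  rw [h1, abs_div, abs_mul, abs_of_pos hn, div_le_div_iff₀ (by positivity) (by positivity)]
  calc |(t : ℝ) * z.re + z.im| * (|x| * √(nN z : ℝ))
      ≤ ((t + 1) * √(nN z : ℝ)) * (|x| * √(nN z : ℝ)) :=
        mul_le_mul_of_nonneg_right h2 (by positivity)
    _ = (t + 1) * (|x| * (√(nN z : ℝ) * √(nN z : ℝ))) := by ring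
    _ = (t + 1) * (|x| * nN z) := by rw [hss]

end Pool.Agent.LogCh
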