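import Pool.Agent.Lib.LogCh.DSlice
import Pool.Agent.Lib.LogCh.DFew
import Pool.Agent.Lib.LogCh.DGeo
import Pool.Agent.Lib.NSqP.LC

/-!
# ESUM: cancellation in the exponential sum of the phases `<z,w> / (q N z)`

PROOF. `t` from `exists_t`, `x = z.re - t z.im`, `y = z.im`, `c = w.re - t w.im`. Let `η` be small,
then `l0` large, then `Y` large. (1) The `z` with `|x| ≤ η √Y` are at most
`(2 η √Y + 1)(2 √Y + 1)`. (2) For the others `phase_close` replaces `m <z,w>/(q N z)` by `m c/(q x)`, the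
error is at most `2 π |m| (t+1)^2 / (η^2 Y)` for each of at most `C Y` elements (`|x| ≤ (t+1) |z|`).
(3) `|x| ≤ (t+1) √Y`. For the `x` with a prime `p > l0`, `p ∥ x`: `SLICE` with `H = ⌈η |x|⌉`, for `b` and
for `a` (the annulus is a difference). (4) The other `x` are at most `2 ε' (t+1) √Y + 2 X0` by `FEW`, and
each contributes at most `2 √Y + 1`.
-/

set_option autoImplicit false

namespace Pool.Agent.LogCh

open Real
open Pool.Agent.NSqP
open Pool.Agent.MP484c84Par (ballG mem_ballG crossG dotG norm_def' norm_pos')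

/-- the first coordinate -/
def cx (t : ℕ) (z : GaussianInt) : ℤ := z.re - t * z.im

lemma cx_mk (t : ℕ) (x y : ℤ) : cx t ⟨x + t * y, y⟩ = x := by simp [cx]

lemma mk_cx (t : ℕ) (z : GaussianInt) : (⟨cx t z + t * z.im, z.im⟩ : GaussianInt) = z := by
  rw [Zsqrtd.ext_iff]; simp [cx]

lemma prim_mk (t : ℕ) (x y : ℤ) : Prim ⟨x + t * y, y⟩ ↔ IsCoprime y x := by
  unfold Prim cont
  rw [← Int.isCoprime_iff_gcd_eq_one]
  show IsCoprime (x + t * y) y ↔ IsCoprime y x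
  rw [isCoprime_comm, mul_comm]
  exact IsCoprime.add_mul_left_right_iff

lemma nN_mk (t : ℕ) (x y : ℤ) :
    (nN ⟨x + t * y, y⟩ : ℝ) = ((x : ℝ) + t * y) ^ 2 + (y : ℝ) ^ 2 := by
  rw [nN_real]; push_cast; ring

lemma abs_cx_le (t : ℕ) (z : GaussianInt) : |((cx t z : ℤ) : ℝ)| ≤ (t + 1) * √(nN z : ℝ) := by
  have hre : |(z.re : ℝ)| ≤ √(nN z : ℝ) := by
    apply Real.abs_le_sqrt; rw [nN_real]; nlinarith [sq_nonneg (z.im : ℝ)]
  have him : |(z.im : ℝ)| ≤ √(nN z : ℝ) := by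
    apply Real.abs_le_sqrt; rw [nN_real]; nlinarith [sq_nonneg (z.re : ℝ)]
  unfold cx
  push_cast
  refine (abs_sub _ _).trans ?_
  rw [abs_mul, abs_of_nonneg (Nat.cast_nonneg t : (0 : ℝ) ≤ t)]
  nlinarith [mul_le_mul_of_nonneg_left him (Nat.cast_nonneg t : (0 : ℝ) ≤ t)]

lemma mem_Ys {t : ℕ} {x : ℤ} {b : ℝ} {y : ℤ} :
    y ∈ Ys t x b ↔ ((x : ℝ) + t * y) ^ 2 + (y : ℝ) ^ 2 ≤ b := by
  classical
  unfold Ys
  rw [Finset.mem_filter, Finset.mem_Icc]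
  constructor
  · exact fun h => h.2
  · intro h
    refine ⟨?_, h⟩
    have h1 : (y : ℝ) ^ 2 ≤ b := by nlinarith [sq_nonneg ((x : ℝ) + t * y)]
    have h2 : |(y : ℝ)| ≤ √b := Real.abs_le_sqrt h1
    rw [abs_le] at h2
    constructor
    · have : -y ≤ ⌊√b⌋ := Int.le_floor.2 (by push_cast; linarith [h2.1])
      omega
    · exact Int.le_floor.2 h2.2

open Classical in
/-- one fiber -/
theorem fiber_bound (q t : ℕ) (hq : 1 ≤ q) (z0 w0 : GaussianInt) (m : ℤ)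
    (ht : IsCoprime (cx t z0) (q : ℤ)) (a b : ℝ) (ha : 0 ≤ a) (hab : a ≤ b)
    (τ : GaussianInt → GaussianInt)
    (hτ : ∀ z, Prim z → (q : GaussianInt) ∣ z - z0 → IsW q w0 z (τ z))
    (x : ℤ) (hx : x ≠ 0) (p : ℕ) (hp : p.Prime) (hpx : p ∣ x.natAbs)
    (hc : p.Coprime (x.natAbs / p)) (hpm : ¬ (p : ℤ) ∣ m) (H : ℕ) (hH : 1 ≤ H)
    (hHx : H ≤ x.natAbs) :
    ‖∑ z ∈ ((pann a b).filter (fun z => (q : GaussianInt) ∣ z - z0)).filter (fun z => cx t z = x),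
      ee (m * ((cx t (τ z) : ℤ) : ℝ) / (q * ((cx t z : ℤ) : ℝ)))‖ ≤
      2 * (((2 * √b + 1) / q + 1) * (2 * |(x : ℝ)| * (p : ℝ) ^ (-(1 / 4) : ℝ)) / H + 2 * H) := by
  have hb : 0 ≤ b := ha.trans hab
  have hB0 : 0 ≤ ((2 * √b + 1) / q + 1) * (2 * |(x : ℝ)| * (p : ℝ) ^ (-(1 / 4) : ℝ)) / H + 2 * H := by
    positivity
  by_cases hxq : (q : ℤ) ∣ x - cx t z0
  swap
  · -- empty fiber
    have : ((pann a b).filter (fun z => (q : GaussianInt) ∣ z - z0)).filter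
        (fun z => cx t z = x) = ∅ := by
      rw [Finset.filter_eq_empty_iff]
      intro z hz hzx
      rw [Finset.mem_filter] at hz
      apply hxq
      obtain ⟨⟨u, hu⟩, ⟨v, hv⟩⟩ := dvdGn.1 hz.2
      refine ⟨u - t * v, ?_⟩
      rw [← hzx]
      simp only [Zsqrtd.re_sub, Zsqrtd.im_sub] at hu hv
      unfold cx
      linear_combination hu - (t : ℤ) * hv
    rw [this]
    simp only [Finset.sum_empty, norm_zero]
    linarith
  have hqx : IsCoprime x (q : ℤ) := by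
    obtain ⟨u, hu⟩ := hxq
    have : x = cx t z0 + u * q := by linarith
    rw [this]
    exact IsCoprime.add_mul_right_left ht u
  set cc : ℤ → ℤ := fun y => cx t (τ ⟨x + t * y, y⟩) with hcc
  have hcl : ∀ y : ℤ, (q : ℤ) ∣ y - z0.im → (q : GaussianInt) ∣ (⟨x + t * y, y⟩ : GaussianInt) - z0 := by
    intro y hy
    obtain ⟨u, hu⟩ := hxq
    obtain ⟨v, hv⟩ := hy
    rw [dvdGn]
    refine ⟨⟨u + t * v, ?_⟩, ⟨v, ?_⟩⟩
    · simp only [Zsqrtd.re_sub]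
      unfold cx at hu
      linear_combination hu + (t : ℤ) * hv
    · simp only [Zsqrtd.im_sub]; exact hv
  have hccp : ∀ y : ℤ, IsCoprime y x → (q : ℤ) ∣ y - z0.im →
      x ∣ y * cc y + 1 ∧ (q : ℤ) ∣ cc y - cx t w0 := by
    intro y hy1 hy2
    have h1 := hτ ⟨x + t * y, y⟩ ((prim_mk t x y).2 hy1) (hcl y hy2)
    have h2 := coord_c h1 t
    have h3 : (⟨x + t * y, y⟩ : GaussianInt).re - t * (⟨x + t * y, y⟩ : GaussianInt).im = x := by
      simp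
    rw [h3] at h2
    exact h2
  have hS := fun β hβ => SLICE q t hq x hx hqx m p hp hpx hc hpm z0.im (cx t w0) cc hccp H hH hHx β hβ
  -- the fiber sum as a difference
  have hsub : Ys t x a ⊆ Ys t x b := by
    intro y hy
    rw [mem_Ys] at hy ⊢
    linarith
  have hsum : ∑ z ∈ ((pann a b).filter (fun z => (q : GaussianInt) ∣ z - z0)).filter
      (fun z => cx t z = x), ee (m * ((cx t (τ z) : ℤ) : ℝ) / (q * ((cx t z : ℤ) : ℝ))) =
      ∑ y ∈ (Ys t x b \ Ys t x a).filter (fun y => (q : ℤ) ∣ y - z0.im ∧ IsCoprime y x),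
        ee (m * cc y / (q * x)) := by
    refine Finset.sum_nbij' (fun z => z.im) (fun y => ⟨x + t * y, y⟩) ?_ ?_ ?_ ?_ ?_
    · intro z hz
      rw [Finset.mem_filter, Finset.mem_filter, mem_pann hb] at hz
      obtain ⟨⟨⟨⟨h1, h2⟩, h3⟩, h4⟩, h5⟩ := hz
      have hz' : z = ⟨x + t * z.im, z.im⟩ := by rw [← h5, mk_cx]
      have hn : (nN z : ℝ) = ((x : ℝ) + t * z.im) ^ 2 + (z.im : ℝ) ^ 2 := by
        conv_lhs => rw [hz']
        exact nN_mk t x z.im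
      rw [Finset.mem_filter, Finset.mem_sdiff, mem_Ys, mem_Ys, ← hn]
      refine ⟨⟨h2, by linarith⟩, ?_, ?_⟩
      · have := (dvdGn.1 h4).2
        simpa using this
      · rw [hz'] at h3
        exact (prim_mk t x z.im).1 h3
    · intro y hy
      rw [Finset.mem_filter, Finset.mem_sdiff, mem_Ys, mem_Ys] at hy
      obtain ⟨⟨h1, h2⟩, h3, h4⟩ := hy
      rw [Finset.mem_filter, Finset.mem_filter, mem_pann hb, nN_mk]
      exact ⟨⟨⟨⟨by linarith, h1⟩, (prim_mk t x y).2 h4⟩, hcl y h3⟩, cx_mk t x y⟩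
    · intro z hz
      rw [Finset.mem_filter] at hz
      show (⟨x + t * z.im, z.im⟩ : GaussianInt) = z
      rw [← hz.2, mk_cx]
    · intro y _
      rfl
    · intro z hz
      rw [Finset.mem_filter] at hz
      have hz' : (⟨x + t * z.im, z.im⟩ : GaussianInt) = z := by rw [← hz.2, mk_cx]
      rw [hcc]
      simp only
      rw [hz', hz.2]
  have hdiff : ∑ y ∈ (Ys t x b \ Ys t x a).filter (fun y => (q : ℤ) ∣ y - z0.im ∧ IsCoprime y x),
        ee (m * cc y / (q * x)) =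
      ∑ y ∈ (Ys t x b).filter (fun y => (q : ℤ) ∣ y - z0.im ∧ IsCoprime y x),
        ee (m * cc y / (q * x)) -
      ∑ y ∈ (Ys t x a).filter (fun y => (q : ℤ) ∣ y - z0.im ∧ IsCoprime y x),
        ee (m * cc y / (q * x)) := by
    rw [eq_sub_iff_add_eq, Finset.sum_filter, Finset.sum_filter, Finset.sum_filter,
      Finset.sum_sdiff hsub]
  rw [hsum, hdiff]
  refine (norm_sub_le _ _).trans ?_
  have h1 := hS b hb
  have h2 := hS a ha
  have hle : ((2 * √a + 1) / q + 1) * (2 * |(x : ℝ)| * (p : ℝ) ^ (-(1 / 4) : ℝ)) / H + 2 * H ≤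
      ((2 * √b + 1) / q + 1) * (2 * |(x : ℝ)| * (p : ℝ) ^ (-(1 / 4) : ℝ)) / H + 2 * H := by
    have : √a ≤ √b := Real.sqrt_le_sqrt hab
    gcongr
  linarith

lemma abs_im_le (z : GaussianInt) : |(z.im : ℝ)| ≤ √(nN z : ℝ) := by
  apply Real.abs_le_sqrt; rw [nN_real]; nlinarith [sq_nonneg (z.re : ℝ)]

lemma card_Icc_le (R : ℝ) (hR : 0 ≤ R) :
    ((Finset.Icc (-⌊R⌋) ⌊R⌋).card : ℝ) ≤ 2 * R + 1 := by
  have h0 : 0 ≤ ⌊R⌋ := Int.floor_nonneg.2 hR
  rw [Int.card_Icc]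
  have h1 : ((⌊R⌋ + 1 - -⌊R⌋).toNat : ℤ) = 2 * ⌊R⌋ + 1 := by
    rw [Int.toNat_of_nonneg (by omega)]; ring
  have h2 : (((⌊R⌋ + 1 - -⌊R⌋).toNat : ℕ) : ℝ) = 2 * (⌊R⌋ : ℝ) + 1 := by exact_mod_cast h1
  rw [h2]
  have := Int.floor_le R
  linarith

/-- elements with a bounded first coordinate -/
lemma card_small (t : ℕ) (Y R : ℝ) (hR : 0 ≤ R) (S : Finset GaussianInt)
    (hS : ∀ z ∈ S, (nN z : ℝ) ≤ Y ∧ |((cx t z : ℤ) : ℝ)| ≤ R) :
    (S.card : ℝ) ≤ (2 * R + 1) * (2 * √Y + 1) := by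
  have h1 : S.card ≤ ((Finset.Icc (-⌊R⌋) ⌊R⌋) ×ˢ (Finset.Icc (-⌊√Y⌋) ⌊√Y⌋)).card := by
    apply Finset.card_le_card_of_injOn (fun z => (cx t z, z.im))
    · intro z hz
      obtain ⟨h2, h3⟩ := hS z hz
      have h4 : |(z.im : ℝ)| ≤ √Y := (abs_im_le z).trans (Real.sqrt_le_sqrt h2)
      rw [abs_le] at h3 h4
      simp only [Finset.coe_product, Set.mem_prod, Finset.coe_Icc, Set.mem_Icc]
      refine ⟨⟨?_, Int.le_floor.2 h3.2⟩, ?_, Int.le_floor.2 h4.2⟩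
      · have : -(cx t z) ≤ ⌊R⌋ := Int.le_floor.2 (by push_cast; linarith [h3.1])
        omega
      · have : -z.im ≤ ⌊√Y⌋ := Int.le_floor.2 (by push_cast; linarith [h4.1])
        omega
    · intro z _ z' _ h
      simp only [Prod.mk.injEq] at h
      rw [← mk_cx t z, ← mk_cx t z', h.1, h.2]
  rw [Finset.card_product] at h1
  have h2 : (S.card : ℝ) ≤ ((Finset.Icc (-⌊R⌋) ⌊R⌋).card : ℝ) *
      ((Finset.Icc (-⌊√Y⌋) ⌊√Y⌋).card : ℝ) := by exact_mod_cast h1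
  refine h2.trans ?_
  exact mul_le_mul (card_Icc_le R hR) (card_Icc_le _ (Real.sqrt_nonneg Y)) (Nat.cast_nonneg _)
    (by positivity)

lemma card_fiber (t : ℕ) (Y : ℝ) (x : ℤ) (S : Finset GaussianInt)
    (hS : ∀ z ∈ S, (nN z : ℝ) ≤ Y ∧ cx t z = x) :
    (S.card : ℝ) ≤ 2 * √Y + 1 := by
  have h1 : S.card ≤ (Finset.Icc (-⌊√Y⌋) ⌊√Y⌋).card := by
    apply Finset.card_le_card_of_injOn (fun z => z.im)
    · intro z hz
      obtain ⟨h2, h3⟩ := hS z hz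
      have h4 : |(z.im : ℝ)| ≤ √Y := (abs_im_le z).trans (Real.sqrt_le_sqrt h2)
      rw [abs_le] at h4
      simp only [Finset.coe_Icc, Set.mem_Icc]
      refine ⟨?_, Int.le_floor.2 h4.2⟩
      have : -z.im ≤ ⌊√Y⌋ := Int.le_floor.2 (by push_cast; linarith [h4.1])
      omega
    · intro z hz z' hz' h
      rw [← mk_cx t z, ← mk_cx t z', (hS z hz).2, (hS z' hz').2]
      simp only at h
      rw [h]
  have h2 : (S.card : ℝ) ≤ ((Finset.Icc (-⌊√Y⌋) ⌊√Y⌋).card : ℝ) := by exact_mod_cast h1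
  exact h2.trans (card_Icc_le _ (Real.sqrt_nonneg Y))

open Classical in
/-- the bad `x` in a symmetric interval -/
lemma card_bad (l0 : ℕ) (ε' : ℝ) (X0 : ℕ) (h : ∀ X : ℕ, X0 ≤ X →
    (((Finset.Icc 1 X).filter (fun x => ∀ p : ℕ, p.Prime → l0 < p → p ∣ x →
      ¬ p.Coprime (x / p))).card : ℝ) ≤ ε' * X) (K : ℕ) (hK : X0 ≤ K) (S : Finset ℤ)
    (hS : ∀ x ∈ S, x ≠ 0 ∧ x.natAbs ≤ K ∧ ∀ p : ℕ, p.Prime → l0 < p → p ∣ x.natAbs →
      ¬ p.Coprime (x.natAbs / p)) : (S.card : ℝ) ≤ 2 * (ε' * K) := by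
  have h1 := h K hK
  set T := (Finset.Icc 1 K).filter (fun x => ∀ p : ℕ, p.Prime → l0 < p → p ∣ x →
      ¬ p.Coprime (x / p)) with hT
  have h2 : S.card ≤ 2 * T.card := by
    have h3 : ∀ y ∈ T, (S.filter (fun x => x.natAbs = y)).card ≤ 2 := by
      intro y _
      have : S.filter (fun x => x.natAbs = y) ⊆ {(y : ℤ), -(y : ℤ)} := by
        intro x hx
        rw [Finset.mem_filter] at hx
        simp only [Finset.mem_insert, Finset.mem_singleton]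
        omega
      exact (Finset.card_le_card this).trans Finset.card_le_two
    have h4 : ∀ x ∈ S, x.natAbs ∈ T := by
      intro x hx
      obtain ⟨h5, h6, h7⟩ := hS x hx
      rw [hT, Finset.mem_filter, Finset.mem_Icc]
      exact ⟨⟨by omega, h6⟩, h7⟩
    have := Finset.card_le_mul_card_image_of_maps_to h4 2 h3
    exact this
  have h5 : (S.card : ℝ) ≤ 2 * (T.card : ℝ) := by exact_mod_cast h2
  linarith

open Classical in
/-- the error of the replacement of the phase -/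
lemma phase_err (q t : ℕ) (hq : 1 ≤ q) (m : ℤ) (z w : GaussianInt) (h : crossG z w = 1)
    (r : ℝ) (hr : 0 < r) (hx : r < |((cx t z : ℤ) : ℝ)|) :
    ‖ee (m * dotG z w / (q * nN z)) - ee (m * ((cx t w : ℤ) : ℝ) / (q * ((cx t z : ℤ) : ℝ)))‖ ≤
      2 * π * |(m : ℝ)| * ((t + 1) ^ 2 / r ^ 2) := by
  have hx0 : cx t z ≠ 0 := by
    intro h0
    rw [h0] at hx
    simp at hx
    linarith
  have h1 := phase_close h t hx0
  refine (norm_ee_sub_le _ _).trans ?_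
  have hq' : (1 : ℝ) ≤ q := by exact_mod_cast hq
  have hxa : 0 < |((cx t z : ℤ) : ℝ)| := hr.trans hx
  have hxne : ((cx t z : ℤ) : ℝ) ≠ 0 := abs_pos.1 hxa
  have hz : z ≠ 0 := prim_ne_zero (prim_of_cross h)
  have hn : (0 : ℝ) < nN z := by exact_mod_cast nN_pos hz
  have h2 : (m : ℝ) * dotG z w / (q * nN z) - m * ((cx t w : ℤ) : ℝ) / (q * ((cx t z : ℤ) : ℝ)) =
      m / q * ((dotG z w : ℝ) / nN z - ((cx t w : ℤ) : ℝ) / ((cx t z : ℤ) : ℝ)) := by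
    field_simp
  rw [h2, abs_mul]
  have h3 : |(m : ℝ) / q| ≤ |(m : ℝ)| := by
    rw [abs_div, abs_of_pos (by linarith : (0 : ℝ) < q)]
    exact div_le_self (abs_nonneg _) hq'
  have h4 : |(dotG z w : ℝ) / nN z - ((cx t w : ℤ) : ℝ) / ((cx t z : ℤ) : ℝ)| ≤
      (t + 1) ^ 2 / r ^ 2 := by
    refine h1.trans ?_
    have h5 := abs_cx_le t z
    have hs : 0 < √(nN z : ℝ) := Real.sqrt_pos.2 hn
    show (t + 1) / (|((cx t z : ℤ) : ℝ)| * √(nN z : ℝ)) ≤ _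
    rw [div_le_div_iff₀ (by positivity) (by positivity)]
    have h6 : r ^ 2 ≤ |((cx t z : ℤ) : ℝ)| * |((cx t z : ℤ) : ℝ)| := by nlinarith
    calc ((t : ℝ) + 1) * r ^ 2 ≤ (t + 1) * (|((cx t z : ℤ) : ℝ)| * |((cx t z : ℤ) : ℝ)|) :=
          mul_le_mul_of_nonneg_left h6 (by positivity)
      _ ≤ (t + 1) * (|((cx t z : ℤ) : ℝ)| * ((t + 1) * √(nN z : ℝ))) := by gcongr
      _ = (t + 1) ^ 2 * (|((cx t z : ℤ) : ℝ)| * √(nN z : ℝ)) := by ring
  calc 2 * π * (|(m : ℝ) / q| * |(dotG z w : ℝ) / nN z - ((cx t w : ℤ) : ℝ) / ((cx t z : ℤ) : ℝ)|)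
      ≤ 2 * π * (|(m : ℝ)| * ((t + 1) ^ 2 / r ^ 2)) := by gcongr
    _ = _ := by ring

open Classical in
theorem ESUM (q : ℕ) (hq : 1 ≤ q) (m : ℤ) (hm : m ≠ 0) (ε : ℝ) (hε : 0 < ε) : ∃ Y0 : ℝ,
    ∀ Y : ℝ, Y0 ≤ Y → ∀ z0 w0 : GaussianInt, (q : ℤ) ∣ crossG z0 w0 - 1 →
    ∀ a b : ℝ, 0 ≤ a → a ≤ b → b ≤ Y → ∀ τ : GaussianInt → GaussianInt,
    (∀ z, Prim z → (q : GaussianInt) ∣ z - z0 → IsW q w0 z (τ z)) →
    ‖∑ z ∈ (pann a b).filter (fun z => (q : GaussianInt) ∣ z - z0),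
      ee (m * dotG z (τ z) / (q * nN z))‖ ≤ ε * Y := by
  obtain ⟨CA, hCA, hcard⟩ := card_ann_le
  set Q : ℝ := (q : ℝ) + 1 with hQ
  have hq' : (1 : ℝ) ≤ q := by exact_mod_cast hq
  have hQ1 : 1 ≤ Q := by rw [hQ]; linarith
  set η : ℝ := min 1 (ε / (5 * (6 + 12 * Q ^ 2))) with hη
  have hη0 : 0 < η := lt_min one_pos (by positivity)
  have hη1 : η ≤ 1 := min_le_left _ _
  have hη2 : η * (6 + 12 * Q ^ 2) ≤ ε / 5 := by
    have := min_le_right 1 (ε / (5 * (6 + 12 * Q ^ 2)))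
    rw [← hη, le_div_iff₀ (by positivity)] at this
    linarith
  set ε' : ℝ := ε / (30 * Q) with hε'
  have hε'0 : 0 < ε' := by positivity
  set δ1 : ℝ := ε * η / (240 * Q) with hδ1
  have hδ10 : 0 < δ1 := by positivity
  obtain ⟨l1, hl1⟩ : ∃ l1 : ℝ, ∀ y : ℝ, l1 ≤ y → y ^ (-(1 / 4) : ℝ) ≤ δ1 := by
    have := (tendsto_rpow_neg_atTop (by norm_num : (0 : ℝ) < 1 / 4)).eventually
      (ge_mem_nhds hδ10)
    obtain ⟨l1, hl1⟩ := Filter.eventually_atTop.1 this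
    exact ⟨l1, fun y hy => hl1 y hy⟩
  set l0 : ℕ := max ⌈l1⌉₊ m.natAbs with hl0
  obtain ⟨X0, hX0⟩ := FEW l0 ε' hε'0
  set Cp : ℝ := 2 * π * |(m : ℝ)| * Q ^ 2 * CA / η ^ 2 with hCp
  have hCp0 : 0 ≤ Cp := by positivity
  set R0 : ℝ := 1 + X0 + 5 * (3 + 12 * Q) / ε + 5 * Cp / ε with hR0
  refine ⟨R0 ^ 2, fun Y hY z0 w0 h0 a b ha hab hbY τ hτ => ?_⟩
  have hR0p : 1 ≤ R0 := by
    rw [hR0]
    have h1 : 0 ≤ 5 * (3 + 12 * Q) / ε := by positivity
    have h2 : 0 ≤ 5 * Cp / ε := by positivity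
    have h3 : (0 : ℝ) ≤ X0 := Nat.cast_nonneg _
    linarith
  have hY0 : 0 ≤ Y := (by positivity : (0 : ℝ) ≤ R0 ^ 2).trans hY
  set R : ℝ := √Y with hR
  have hRR : R ^ 2 = Y := Real.sq_sqrt hY0
  have hRR0 : R0 ≤ R := Real.le_sqrt_of_sq_le hY
  have hR1 : 1 ≤ R := hR0p.trans hRR0
  have hRX : (X0 : ℝ) ≤ R := by
    have h1 : 0 ≤ 5 * (3 + 12 * Q) / ε := by positivity
    have h2 : 0 ≤ 5 * Cp / ε := by positivity
    rw [hR0] at hRR0; linarith
  have hRa : (3 + 12 * Q) ≤ ε / 5 * R := by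
    have h2 : 0 ≤ 5 * Cp / ε := by positivity
    have h3 : (0 : ℝ) ≤ X0 := Nat.cast_nonneg _
    have h4 : 5 * (3 + 12 * Q) / ε ≤ R := by rw [hR0] at hRR0; linarith
    rw [div_le_iff₀ hε] at h4
    linarith
  have hRb : Cp ≤ ε / 5 * R := by
    have h1 : 0 ≤ 5 * (3 + 12 * Q) / ε := by positivity
    have h3 : (0 : ℝ) ≤ X0 := Nat.cast_nonneg _
    have h4 : 5 * Cp / ε ≤ R := by rw [hR0] at hRR0; linarith
    rw [div_le_iff₀ hε] at h4
    linarith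
  have hb : 0 ≤ b := ha.trans hab
  obtain ⟨t, htq, ht⟩ := exists_t hq h0
  have ht' : IsCoprime (cx t z0) (q : ℤ) := ht
  have htQ : (t : ℝ) + 1 ≤ Q := by
    rw [hQ]
    have : (t : ℝ) ≤ q := by exact_mod_cast htq
    linarith
  set Z := (pann a b).filter (fun z => (q : GaussianInt) ∣ z - z0) with hZ
  have hZn : ∀ z ∈ Z, (nN z : ℝ) ≤ Y := by
    intro z hz
    rw [hZ, Finset.mem_filter, mem_pann hb] at hz
    exact hz.1.1.2.trans hbY
  have hZc : ∀ z ∈ Z, IsW q w0 z (τ z) := by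
    intro z hz
    rw [hZ, Finset.mem_filter, mem_pann hb] at hz
    exact hτ z hz.1.2 hz.2
  have hsZ : ∀ z ∈ Z, √(nN z : ℝ) ≤ R := fun z hz => Real.sqrt_le_sqrt (hZn z hz)
  have hcxZ : ∀ z ∈ Z, |((cx t z : ℤ) : ℝ)| ≤ Q * R := by
    intro z hz
    refine (abs_cx_le t z).trans ?_
    exact mul_le_mul htQ (hsZ z hz) (Real.sqrt_nonneg _) (by linarith)
  have hZcard : (Z.card : ℝ) ≤ CA * Y := by
    have h1 : Z ⊆ ann 0 Y := by
      intro z hz
      have h2 := hZn z hz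
      rw [hZ, Finset.mem_filter, mem_pann hb] at hz
      rw [mem_ann hY0]
      exact ⟨lt_of_le_of_lt ha hz.1.1.1, h2⟩
    calc (Z.card : ℝ) ≤ (ann 0 Y).card := by exact_mod_cast Finset.card_le_card h1
      _ ≤ CA * Y := hcard Y hY0
  set Fz : GaussianInt → ℂ := fun z => ee (m * dotG z (τ z) / (q * nN z)) with hFz
  set f : GaussianInt → ℂ := fun z => ee (m * ((cx t (τ z) : ℤ) : ℝ) / (q * ((cx t z : ℤ) : ℝ)))
    with hf
  have hηR : 0 < η * R := by positivity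
  -- splitting
  have hsplit := Finset.sum_filter_add_sum_filter_not Z
    (fun z => |((cx t z : ℤ) : ℝ)| ≤ η * R) Fz
  rw [← hsplit]
  have hZ1 : ‖∑ z ∈ Z.filter (fun z => |((cx t z : ℤ) : ℝ)| ≤ η * R), Fz z‖ ≤
      6 * η * R ^ 2 + 3 * R := by
    refine (norm_sum_le _ _).trans ?_
    have h1 : ∑ z ∈ Z.filter (fun z => |((cx t z : ℤ) : ℝ)| ≤ η * R), ‖Fz z‖ =
        ((Z.filter (fun z => |((cx t z : ℤ) : ℝ)| ≤ η * R)).card : ℝ) := by
      rw [Finset.sum_congr rfl (fun z _ => norm_ee _), Finset.sum_const, nsmul_eq_mul, mul_one]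
    rw [h1]
    have h2 := card_small t Y (η * R) hηR.le
      (Z.filter (fun z => |((cx t z : ℤ) : ℝ)| ≤ η * R)) (by
        intro z hz
        rw [Finset.mem_filter] at hz
        exact ⟨hZn z hz.1, hz.2⟩)
    refine h2.trans ?_
    rw [← hR]
    nlinarith
  set Z2 := Z.filter (fun z => ¬ |((cx t z : ℤ) : ℝ)| ≤ η * R) with hZ2
  have hphase : ‖∑ z ∈ Z2, Fz z‖ ≤ ‖∑ z ∈ Z2, f z‖ + Cp := by
    have h1 : ∑ z ∈ Z2, Fz z = ∑ z ∈ Z2, f z + ∑ z ∈ Z2, (Fz z - f z) := by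
      rw [← Finset.sum_add_distrib]
      exact Finset.sum_congr rfl fun z _ => by ring
    rw [h1]
    refine (norm_add_le _ _).trans (add_le_add_right ?_ _)
    have h2 : ∀ z ∈ Z2, ‖Fz z - f z‖ ≤ 2 * π * |(m : ℝ)| * (Q ^ 2 / (η * R) ^ 2) := by
      intro z hz
      rw [hZ2, Finset.mem_filter, not_le] at hz
      refine (phase_err q t hq m z (τ z) (hZc z hz.1).1 (η * R) hηR hz.2).trans ?_
      gcongr
    have h3 : ‖∑ z ∈ Z2, (Fz z - f z)‖ ≤ Z2.card * (2 * π * |(m : ℝ)| * (Q ^ 2 / (η * R) ^ 2)) := by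
      refine (norm_sum_le _ _).trans ((Finset.sum_le_sum h2).trans ?_)
      rw [Finset.sum_const, nsmul_eq_mul]
    have h4 : (Z2.card : ℝ) ≤ CA * Y := by
      refine le_trans ?_ hZcard
      exact_mod_cast Finset.card_le_card (Finset.filter_subset _ _)
    refine h3.trans ((mul_le_mul_of_nonneg_right h4 (by positivity)).trans (le_of_eq ?_))
    rw [← hRR, hCp]
    field_simp
  -- the sum over x
  set K : ℕ := ⌊Q * R⌋₊ with hK
  have hQR1 : 1 ≤ Q * R := by nlinarith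
  have hKle : (K : ℝ) ≤ Q * R := Nat.floor_le (by linarith)
  have hKX : X0 ≤ K := Nat.le_floor (by nlinarith)
  set X2 := (Finset.Icc (-(K : ℤ)) K).filter (fun x : ℤ => η * R < |(x : ℝ)|) with hX2
  have hmaps : ∀ z ∈ Z2, cx t z ∈ X2 := by
    intro z hz
    rw [hZ2, Finset.mem_filter, not_le] at hz
    rw [hX2, Finset.mem_filter, Finset.mem_Icc]
    refine ⟨?_, hz.2⟩
    have h1 := hcxZ z hz.1
    have h2 : ((cx t z).natAbs : ℝ) ≤ Q * R := by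
      have h4 : ((cx t z).natAbs : ℝ) = |((cx t z : ℤ) : ℝ)| := by
        rw [Nat.cast_natAbs]; push_cast; rfl
      rw [h4]; exact h1
    have h3 : (cx t z).natAbs ≤ K := Nat.le_floor h2
    omega
  have hfib : ∑ z ∈ Z2, f z = ∑ x ∈ X2, ∑ z ∈ Z.filter (fun z => cx t z = x), f z := by
    rw [← Finset.sum_fiberwise_of_maps_to hmaps]
    refine Finset.sum_congr rfl fun x hx => ?_
    refine Finset.sum_congr ?_ fun _ _ => rfl
    rw [hX2, Finset.mem_filter] at hx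
    ext z
    rw [hZ2, Finset.mem_filter, Finset.mem_filter, Finset.mem_filter (s := Z)]
    constructor
    · rintro ⟨⟨h1, _⟩, h3⟩; exact ⟨h1, h3⟩
    · rintro ⟨h1, h3⟩
      refine ⟨⟨h1, ?_⟩, h3⟩
      rw [h3, not_le]; exact hx.2
  set Gd : ℤ → Prop := fun x => ∃ p : ℕ, p.Prime ∧ l0 < p ∧ p ∣ x.natAbs ∧ p.Coprime (x.natAbs / p)
    with hGd
  have hgood : ∀ x ∈ X2.filter Gd, ‖∑ z ∈ Z.filter (fun z => cx t z = x), f z‖ ≤
      2 * ((4 * R) * (2 * δ1 / η) + 2 * (η * (Q * R) + 1)) := by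
    intro x hx
    rw [Finset.mem_filter, hX2, Finset.mem_filter, Finset.mem_Icc] at hx
    obtain ⟨⟨⟨hx1, hx2⟩, hx3⟩, p, hp, hp0, hpx, hc⟩ := hx
    have hxne : x ≠ 0 := by
      rintro rfl
      simp at hx3
      linarith
    have hxabs : (0 : ℝ) < |(x : ℝ)| := hηR.trans hx3
    have hxnat : |(x : ℝ)| = (x.natAbs : ℝ) := by rw [Nat.cast_natAbs]; push_cast; rfl
    have hxK : |(x : ℝ)| ≤ Q * R := by
      rw [hxnat]
      have : x.natAbs ≤ K := by omega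
      exact (by exact_mod_cast this : (x.natAbs : ℝ) ≤ K).trans hKle
    have hpm : ¬ (p : ℤ) ∣ m := by
      intro hd
      have h1 : p ∣ m.natAbs := Int.natCast_dvd.1 hd
      have h2 := Nat.le_of_dvd (Int.natAbs_pos.2 hm) h1
      have h3 : m.natAbs ≤ l0 := le_max_right _ _
      omega
    set H : ℕ := ⌈η * |(x : ℝ)|⌉₊ with hH
    have hH1 : 1 ≤ H := Nat.one_le_iff_ne_zero.2 (by
      rw [hH]; exact (Nat.ceil_pos.2 (by positivity)).ne')
    have hHx : H ≤ x.natAbs := by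
      rw [hH]
      apply Nat.ceil_le.2
      rw [hxnat]
      nlinarith [(Nat.cast_nonneg x.natAbs : (0 : ℝ) ≤ x.natAbs)]
    have hH2 : η * |(x : ℝ)| ≤ H := Nat.le_ceil _
    have hH3 : (H : ℝ) ≤ η * |(x : ℝ)| + 1 := (Nat.ceil_lt_add_one (by positivity)).le
    have h1 := fiber_bound q t hq z0 w0 m ht' a b ha hab τ hτ x hxne p hp hpx hc hpm H hH1 hHx
    refine h1.trans ?_
    have hHpos : (0 : ℝ) < H := by exact_mod_cast hH1
    have h2 : (2 * √b + 1) / q + 1 ≤ 4 * R := by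
      have h3 : √b ≤ R := Real.sqrt_le_sqrt hbY
      have h4 : (2 * √b + 1) / q ≤ 2 * √b + 1 := div_le_self (by positivity) hq'
      linarith
    have h5 : (p : ℝ) ^ (-(1 / 4) : ℝ) ≤ δ1 := by
      apply hl1
      have h6 : l1 ≤ (⌈l1⌉₊ : ℝ) := Nat.le_ceil _
      have h7 : ⌈l1⌉₊ ≤ l0 := le_max_left _ _
      have h8 : ((⌈l1⌉₊ : ℕ) : ℝ) ≤ p := by exact_mod_cast (h7.trans hp0.le)
      exact h6.trans h8
    have h6 : |(x : ℝ)| / H ≤ 1 / η := by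
      rw [div_le_div_iff₀ hHpos hη0]; linarith
    have h7 : ((2 * √b + 1) / q + 1) * (2 * |(x : ℝ)| * (p : ℝ) ^ (-(1 / 4) : ℝ)) / H ≤
        (4 * R) * (2 * δ1 / η) := by
      have h8 : ((2 * √b + 1) / q + 1) * (2 * |(x : ℝ)| * (p : ℝ) ^ (-(1 / 4) : ℝ)) / H =
          ((2 * √b + 1) / q + 1) * (2 * (p : ℝ) ^ (-(1 / 4) : ℝ) * (|(x : ℝ)| / H)) := by
        field_simp
      rw [h8]
      have h9 : 2 * (p : ℝ) ^ (-(1 / 4) : ℝ) * (|(x : ℝ)| / H) ≤ 2 * δ1 * (1 / η) := by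
        gcongr
      have h10 : 2 * δ1 * (1 / η) = 2 * δ1 / η := by ring
      rw [h10] at h9
      exact mul_le_mul h2 h9 (by positivity) (by positivity)
    have h8 : (H : ℝ) ≤ η * (Q * R) + 1 := by
      refine hH3.trans ?_
      gcongr
    linarith
  have hbad : ∀ x ∈ X2.filter (fun x => ¬ Gd x), ‖∑ z ∈ Z.filter (fun z => cx t z = x), f z‖ ≤
      3 * R := by
    intro x _
    refine (norm_sum_le _ _).trans ?_
    rw [Finset.sum_congr rfl (fun z _ => norm_ee _), Finset.sum_const, nsmul_eq_mul, mul_one]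
    have h1 := card_fiber t Y x (Z.filter (fun z => cx t z = x)) (by
      intro z hz
      rw [Finset.mem_filter] at hz
      exact ⟨hZn z hz.1, hz.2⟩)
    rw [← hR] at h1
    linarith
  have hX2card : ((X2.filter Gd).card : ℝ) ≤ 3 * (Q * R) := by
    have h1 : (X2.filter Gd).card ≤ (Finset.Icc (-(K : ℤ)) K).card :=
      Finset.card_le_card ((Finset.filter_subset _ _).trans (Finset.filter_subset _ _))
    have h2 : (Finset.Icc (-(K : ℤ)) K).card = 2 * K + 1 := by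
      rw [Int.card_Icc]; omega
    rw [h2] at h1
    have h3 : ((X2.filter Gd).card : ℝ) ≤ 2 * K + 1 := by exact_mod_cast h1
    linarith
  have hbadcard : ((X2.filter (fun x => ¬ Gd x)).card : ℝ) ≤ 2 * (ε' * K) := by
    apply card_bad l0 ε' X0 hX0 K hKX
    intro x hx
    rw [Finset.mem_filter, hX2, Finset.mem_filter, Finset.mem_Icc] at hx
    obtain ⟨⟨⟨hx1, hx2⟩, hx3⟩, hx4⟩ := hx
    refine ⟨?_, by omega, ?_⟩
    · rintro rfl
      simp at hx3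
      linarith
    · intro p hp h1 h2 h3
      exact hx4 ⟨p, hp, h1, h2, h3⟩
  have hX2sum : ‖∑ z ∈ Z2, f z‖ ≤
      3 * (Q * R) * (2 * ((4 * R) * (2 * δ1 / η) + 2 * (η * (Q * R) + 1))) +
        2 * (ε' * K) * (3 * R) := by
    rw [hfib, ← Finset.sum_filter_add_sum_filter_not X2 Gd]
    refine (norm_add_le _ _).trans (add_le_add ?_ ?_)
    · refine (norm_sum_le _ _).trans ((Finset.sum_le_sum hgood).trans ?_)
      rw [Finset.sum_const, nsmul_eq_mul]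
      exact mul_le_mul_of_nonneg_right hX2card (by positivity)
    · refine (norm_sum_le _ _).trans ((Finset.sum_le_sum hbad).trans ?_)
      rw [Finset.sum_const, nsmul_eq_mul]
      exact mul_le_mul_of_nonneg_right hbadcard (by positivity)
  refine (norm_add_le _ _).trans ((add_le_add hZ1 (hphase.trans (add_le_add_left hX2sum _))).trans ?_)
  -- numerical conclusion
  have e1 : 2 * (ε' * K) * (3 * R) ≤ 6 * (ε' * Q) * R ^ 2 := by
    have : ε' * K ≤ ε' * (Q * R) := by gcongr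
    nlinarith
  have e2 : ε' * Q = ε / 30 := by rw [hε']; field_simp
  have e3 : Q * (δ1 / η) = ε / 240 := by rw [hδ1]; field_simp
  have e4 : 3 * (Q * R) * (2 * ((4 * R) * (2 * δ1 / η) + 2 * (η * (Q * R) + 1))) =
      48 * (Q * (δ1 / η)) * R ^ 2 + 12 * η * Q ^ 2 * R ^ 2 + 12 * Q * R := by ring
  rw [e3] at e4
  rw [e2] at e1
  rw [e4, ← hRR]
  have e5 : η * (6 + 12 * Q ^ 2) * R ^ 2 ≤ ε / 5 * R ^ 2 := by gcongr
  have e6 : (3 + 12 * Q) * R ≤ ε / 5 * R * R := by gcongr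
  have e7 : Cp ≤ ε / 5 * R ^ 2 := by
    refine hRb.trans ?_
    have : R ≤ R ^ 2 := by nlinarith
    gcongr
  nlinarith

end Pool.Agent.LogCh
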