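import Pool.Agent.Lib.LogCh.DDefs

/-!
# INTV: sums over intervals of a function with small Fourier coefficients, without logarithm

PROOF. Let `S = ∑ j ∈ Ico a b, G j`. For integers `r, s ∈ [0, H)`, the sum
`∑ j ∈ Ico a b, G (j + r - s)` differs from `S` by at most `2 |r - s| ≤ 2 H` (shift of the interval).
So `‖S - T‖ ≤ 2 H` for the average `T = ∑ j ∈ Ico a b, (1/H^2) ∑_{r,s<H} G (j + r - s)`.
Fourier inversion on `ZMod x`, with `Ĝ k = ∑_c G c * ψ (k c)`: `G c = (1/x) ∑_k Ĝ k * ψ (- k c)`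
(orthogonality `∑_k ψ (k c) = if c = 0 then x else 0`), hence
`(1/H^2) ∑_{r,s} G (j + r - s) = (1/x) ∑_k Ĝ k ψ (-k j) (1/H^2) |∑_{r<H} ψ (-k r)|^2`,
of norm at most `(B / (x H^2)) ∑_k |∑_{r<H} ψ (k r)|^2 = (B / H^2) #{(r,s) : r = s in ZMod x} = B / H`
since `H ≤ x`. So `‖T‖ ≤ (b - a) B / H`.
-/

set_option autoImplicit false

namespace Pool.Agent.LogCh

open Real

/-- shifting an interval by a natural number -/
private theorem shift_nat (f : ℤ → ℂ) (hf : ∀ j, ‖f j‖ ≤ 1) (a b : ℤ) (hab : a ≤ b) (k : ℕ) :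
    ‖∑ j ∈ Finset.Ico a b, f (j + k) - ∑ j ∈ Finset.Ico a b, f j‖ ≤ 2 * k := by
  induction k with
  | zero => simp
  | succ k ih =>
    have h1 : ∑ j ∈ Finset.Ico a b, f (j + (k + 1 : ℕ)) - ∑ j ∈ Finset.Ico a b, f (j + k) =
        f (b + k) - f (a + k) := by
      clear ih
      obtain ⟨n, rfl⟩ : ∃ n : ℕ, b = a + n := ⟨(b - a).toNat, by omega⟩
      clear hab
      induction n with
      | zero => simp
      | succ n ih =>
        have e1 : Finset.Ico a (a + ((n + 1 : ℕ) : ℤ)) = insert (a + (n : ℤ)) (Finset.Ico a (a + n)) := by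
          ext j
          simp only [Finset.mem_Ico, Finset.mem_insert]
          omega
        have e2 : (a + (n : ℤ)) ∉ Finset.Ico a (a + n) := by simp
        rw [e1, Finset.sum_insert e2, Finset.sum_insert e2]
        have e3 : a + (n : ℤ) + ((k + 1 : ℕ) : ℤ) = a + ((n + 1 : ℕ) : ℤ) + k := by
          push_cast; ring
        rw [e3]
        linear_combination ih
    have h2 : ‖f (b + k) - f (a + k)‖ ≤ 2 :=
      (norm_sub_le _ _).trans (by linarith [hf (b + k), hf (a + k)])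
    calc ‖∑ j ∈ Finset.Ico a b, f (j + (k + 1 : ℕ)) - ∑ j ∈ Finset.Ico a b, f j‖
        = ‖(∑ j ∈ Finset.Ico a b, f (j + (k + 1 : ℕ)) - ∑ j ∈ Finset.Ico a b, f (j + k)) +
          (∑ j ∈ Finset.Ico a b, f (j + k) - ∑ j ∈ Finset.Ico a b, f j)‖ := by
          congr 1; ring
      _ ≤ 2 + 2 * k := by
          rw [h1]
          exact (norm_add_le _ _).trans (add_le_add h2 ih)
      _ = 2 * ((k + 1 : ℕ) : ℝ) := by push_cast; ring

/-- shifting an interval by an integer -/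
private theorem shift_int (f : ℤ → ℂ) (hf : ∀ j, ‖f j‖ ≤ 1) (a b : ℤ) (hab : a ≤ b) (k : ℤ)
    (H : ℕ) (hk : |k| ≤ H) :
    ‖∑ j ∈ Finset.Ico a b, f j - ∑ j ∈ Finset.Ico a b, f (j + k)‖ ≤ 2 * H := by
  have hkH := abs_le.1 hk
  rcases le_total 0 k with h0 | h0
  · obtain ⟨n, rfl⟩ : ∃ n : ℕ, k = n := ⟨k.toNat, by omega⟩
    have h := shift_nat f hf a b hab n
    rw [norm_sub_rev]
    refine h.trans ?_
    have : (n : ℝ) ≤ H := by exact_mod_cast hkH.2
    linarith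
  · obtain ⟨n, hn⟩ : ∃ n : ℕ, k = -(n : ℤ) := ⟨(-k).toNat, by omega⟩
    subst hn
    have h := shift_nat (fun j => f (j + -(n : ℤ))) (fun j => hf _) a b hab n
    have e : ∀ j : ℤ, f (j + (n : ℤ) + -(n : ℤ)) = f j := fun j => by
      rw [add_neg_cancel_right]
    simp only [e] at h
    refine h.trans ?_
    have : (n : ℝ) ≤ H := by
      have : (n : ℤ) ≤ H := by omega
      exact_mod_cast this
    linarith

/-- orthogonality -/
private theorem orth (x : ℕ) [NeZero x] (b : ZMod x) :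
    ∑ k : ZMod x, ZMod.stdAddChar (k * b) = if b = 0 then (x : ℂ) else 0 := by
  classical
  rw [AddChar.sum_mulShift b (ZMod.isPrimitive_stdAddChar x), ZMod.card]
  split_ifs <;> simp

/-- Fourier inversion -/
private theorem finv (x : ℕ) [NeZero x] (G : ZMod x → ℂ) (c : ZMod x) :
    (x : ℂ) * G c = ∑ k : ZMod x, (∑ d, G d * ZMod.stdAddChar (k * d)) *
      ZMod.stdAddChar (-(k * c)) := by
  classical
  have h1 : ∀ k : ZMod x, (∑ d, G d * ZMod.stdAddChar (k * d)) * ZMod.stdAddChar (-(k * c)) =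
      ∑ d, G d * ZMod.stdAddChar (k * (d - c)) := by
    intro k
    rw [Finset.sum_mul]
    refine Finset.sum_congr rfl fun d _ => ?_
    rw [mul_assoc, ← AddChar.map_add_eq_mul]
    congr 2
    ring
  rw [Finset.sum_congr rfl fun k _ => h1 k, Finset.sum_comm]
  have h2 : ∀ d : ZMod x, ∑ k : ZMod x, G d * ZMod.stdAddChar (k * (d - c)) =
      if d = c then (x : ℂ) * G c else 0 := by
    intro d
    rw [← Finset.mul_sum, orth]
    by_cases hd : d = c
    · subst hd; simp [mul_comm]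
    · have : d - c ≠ 0 := sub_ne_zero.2 hd
      simp [hd, this]
  rw [Finset.sum_congr rfl fun d _ => h2 d]
  simp

/-- the second moment of the Dirichlet kernel -/
private theorem dir_sq (x : ℕ) [NeZero x] (H : ℕ) (hHx : H ≤ x) :
    ∑ k : ZMod x, ‖∑ r ∈ Finset.range H, ZMod.stdAddChar (k * ((r : ℕ) : ZMod x))‖ ^ 2 =
      (x : ℝ) * H := by
  classical
  have h1 : ∀ k : ZMod x, ((‖∑ r ∈ Finset.range H,
      ZMod.stdAddChar (k * ((r : ℕ) : ZMod x))‖ ^ 2 : ℝ) : ℂ) =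
      ∑ r ∈ Finset.range H, ∑ s ∈ Finset.range H,
        ZMod.stdAddChar (k * (((r : ℕ) : ZMod x) - ((s : ℕ) : ZMod x))) := by
    intro k
    push_cast
    rw [← Complex.mul_conj', map_sum, Finset.sum_mul_sum]
    refine Finset.sum_congr rfl fun r _ => Finset.sum_congr rfl fun s _ => ?_
    rw [← AddChar.map_neg_eq_conj, ← AddChar.map_add_eq_mul]
    congr 1
    ring
  have h2 : ((∑ k : ZMod x, ‖∑ r ∈ Finset.range H,
      ZMod.stdAddChar (k * ((r : ℕ) : ZMod x))‖ ^ 2 : ℝ) : ℂ) = ((x : ℝ) * H : ℝ) := by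
    push_cast
    have h3 : ∀ k : ZMod x, ((‖∑ r ∈ Finset.range H,
      ZMod.stdAddChar (k * ((r : ℕ) : ZMod x))‖ : ℝ) : ℂ) ^ 2 =
      ∑ r ∈ Finset.range H, ∑ s ∈ Finset.range H,
        ZMod.stdAddChar (k * (((r : ℕ) : ZMod x) - ((s : ℕ) : ZMod x))) := by
      intro k
      rw [← h1 k]
      push_cast
      rfl
    rw [Finset.sum_congr rfl fun k _ => h3 k, Finset.sum_comm]
    have h4 : ∀ r ∈ Finset.range H, ∑ k : ZMod x, ∑ s ∈ Finset.range H,
        (ZMod.stdAddChar (k * (((r : ℕ) : ZMod x) - ((s : ℕ) : ZMod x))) : ℂ) = x := by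
      intro r hr
      rw [Finset.sum_comm]
      have h5 : ∀ s ∈ Finset.range H, ∑ k : ZMod x,
          (ZMod.stdAddChar (k * (((r : ℕ) : ZMod x) - ((s : ℕ) : ZMod x))) : ℂ) =
            if s = r then (x : ℂ) else 0 := by
        intro s hs
        rw [orth]
        by_cases hsr : s = r
        · subst hsr; simp
        · rw [if_neg hsr, if_neg]
          rw [sub_eq_zero]
          intro h
          rw [ZMod.natCast_eq_natCast_iff'] at h
          rw [Finset.mem_range] at hr hs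
          rw [Nat.mod_eq_of_lt (by omega), Nat.mod_eq_of_lt (by omega)] at h
          exact hsr h.symm
      rw [Finset.sum_congr rfl h5, Finset.sum_ite_eq', if_pos hr]
    rw [Finset.sum_congr rfl h4, Finset.sum_const, Finset.card_range, nsmul_eq_mul, mul_comm]
  exact_mod_cast h2

/-- the average over the shifts -/
private theorem avg (x : ℕ) [NeZero x] (G : ZMod x → ℂ) (B : ℝ)
    (hB : ∀ k : ZMod x, ‖∑ c, G c * ZMod.stdAddChar (k * c)‖ ≤ B) (H : ℕ) (hHx : H ≤ x)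
    (j : ZMod x) :
    ‖∑ r ∈ Finset.range H, ∑ s ∈ Finset.range H, G (j + (r : ZMod x) - (s : ZMod x))‖ ≤ B * H := by
  have hx : (0 : ℝ) < x := by exact_mod_cast Nat.pos_of_ne_zero (NeZero.ne x)
  have h1 : (x : ℂ) * ∑ r ∈ Finset.range H, ∑ s ∈ Finset.range H,
      G (j + (r : ZMod x) - (s : ZMod x)) =
      ∑ k : ZMod x, (∑ d, G d * ZMod.stdAddChar (k * d)) * ZMod.stdAddChar (-(k * j)) *
        ((∑ s ∈ Finset.range H, ZMod.stdAddChar (k * ((s : ℕ) : ZMod x))) *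
          (starRingEnd ℂ) (∑ r ∈ Finset.range H, ZMod.stdAddChar (k * ((r : ℕ) : ZMod x)))) := by
    rw [Finset.mul_sum]
    have h2 : ∀ r ∈ Finset.range H, (x : ℂ) * ∑ s ∈ Finset.range H,
        G (j + (r : ZMod x) - (s : ZMod x)) = ∑ s ∈ Finset.range H, ∑ k : ZMod x,
        (∑ d, G d * ZMod.stdAddChar (k * d)) *
          ZMod.stdAddChar (-(k * (j + (r : ZMod x) - (s : ZMod x)))) := by
      intro r _
      rw [Finset.mul_sum]
      exact Finset.sum_congr rfl fun s _ => finv x G _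
    rw [Finset.sum_congr rfl h2]
    have h3 : ∀ r ∈ Finset.range H, ∑ s ∈ Finset.range H, ∑ k : ZMod x,
        (∑ d, G d * ZMod.stdAddChar (k * d)) *
          (ZMod.stdAddChar (-(k * (j + (r : ZMod x) - (s : ZMod x)))) : ℂ) =
        ∑ k : ZMod x, ∑ s ∈ Finset.range H, (∑ d, G d * ZMod.stdAddChar (k * d)) *
          (ZMod.stdAddChar (-(k * (j + (r : ZMod x) - (s : ZMod x)))) : ℂ) :=
      fun r _ => Finset.sum_comm
    rw [Finset.sum_congr rfl h3, Finset.sum_comm]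
    refine Finset.sum_congr rfl fun k _ => ?_
    rw [map_sum, Finset.sum_mul_sum, Finset.sum_comm, Finset.mul_sum]
    refine Finset.sum_congr rfl fun s _ => ?_
    rw [Finset.mul_sum]
    refine Finset.sum_congr rfl fun r _ => ?_
    rw [← AddChar.map_neg_eq_conj, ← AddChar.map_add_eq_mul, mul_assoc, ← AddChar.map_add_eq_mul]
    congr 2
    ring
  have h2 : ‖(x : ℂ) * ∑ r ∈ Finset.range H, ∑ s ∈ Finset.range H,
      G (j + (r : ZMod x) - (s : ZMod x))‖ ≤ B * (x * H) := by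
    rw [h1, ← dir_sq x H hHx, Finset.mul_sum]
    refine (norm_sum_le _ _).trans (Finset.sum_le_sum fun k _ => ?_)
    rw [norm_mul, norm_mul, norm_mul, RCLike.norm_conj, AddChar.norm_apply, mul_one, ← sq]
    exact mul_le_mul_of_nonneg_right (hB k) (sq_nonneg _)
  rw [norm_mul, Complex.norm_natCast] at h2
  have h3 : (x : ℝ) * ‖∑ r ∈ Finset.range H, ∑ s ∈ Finset.range H,
      G (j + (r : ZMod x) - (s : ZMod x))‖ ≤ x * (B * H) := by linarith
  exact le_of_mul_le_mul_left h3 hx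

theorem INTV (x : ℕ) [NeZero x] (G : ZMod x → ℂ) (hG : ∀ c, ‖G c‖ ≤ 1) (B : ℝ)
    (hB : ∀ k : ZMod x, ‖∑ c, G c * ZMod.stdAddChar (k * c)‖ ≤ B) (H : ℕ) (hH : 1 ≤ H) (hHx : H ≤ x)
    (a b : ℤ) (hab : a ≤ b) :
    ‖∑ j ∈ Finset.Ico a b, G (j : ZMod x)‖ ≤ (b - a) * B / H + 2 * H := by
  have hH0 : (0 : ℝ) < H := by exact_mod_cast hH
  set S := ∑ j ∈ Finset.Ico a b, G (j : ZMod x) with hS
  set T := ∑ r ∈ Finset.range H, ∑ s ∈ Finset.range H, ∑ j ∈ Finset.Ico a b,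
    G (((j + ((r : ℤ) - (s : ℤ)) : ℤ)) : ZMod x) with hT
  have h1 : ‖(H : ℂ) ^ 2 * S - T‖ ≤ (H : ℝ) ^ 2 * (2 * H) := by
    have e1 : (H : ℂ) ^ 2 * S = ∑ r ∈ Finset.range H, ∑ s ∈ Finset.range H, S := by
      rw [Finset.sum_const, Finset.sum_const, Finset.card_range, nsmul_eq_mul, nsmul_eq_mul]
      ring
    rw [e1, hT, ← Finset.sum_sub_distrib]
    have e2 : ((H : ℝ) ^ 2 * (2 * H)) = ∑ r ∈ Finset.range H, ∑ s ∈ Finset.range H, (2 * H : ℝ) := by
      rw [Finset.sum_const, Finset.sum_const, Finset.card_range, nsmul_eq_mul, nsmul_eq_mul]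
      ring
    rw [e2]
    refine (norm_sum_le _ _).trans (Finset.sum_le_sum fun r hr => ?_)
    rw [← Finset.sum_sub_distrib]
    refine (norm_sum_le _ _).trans (Finset.sum_le_sum fun s hs => ?_)
    rw [Finset.mem_range] at hr hs
    refine shift_int (fun j : ℤ => G (j : ZMod x)) (fun j => hG _) a b hab ((r : ℤ) - s) H ?_
    rw [abs_le]
    constructor <;> omega
  have h2 : ‖T‖ ≤ (b - a) * (B * H) := by
    have e1 : T = ∑ j ∈ Finset.Ico a b, ∑ r ∈ Finset.range H, ∑ s ∈ Finset.range H,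
        G ((j : ZMod x) + (r : ZMod x) - (s : ZMod x)) := by
      rw [hT]
      have e2 : ∀ r ∈ Finset.range H, ∑ s ∈ Finset.range H, ∑ j ∈ Finset.Ico a b,
          G (((j + ((r : ℤ) - (s : ℤ)) : ℤ)) : ZMod x) = ∑ j ∈ Finset.Ico a b,
            ∑ s ∈ Finset.range H, G (((j + ((r : ℤ) - (s : ℤ)) : ℤ)) : ZMod x) :=
        fun r _ => Finset.sum_comm
      rw [Finset.sum_congr rfl e2, Finset.sum_comm]
      refine Finset.sum_congr rfl fun j _ => Finset.sum_congr rfl fun r _ =>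
        Finset.sum_congr rfl fun s _ => ?_
      congr 1
      push_cast
      ring
    rw [e1]
    refine (norm_sum_le _ _).trans ?_
    refine (Finset.sum_le_sum (g := fun _ : ℤ => B * H)
      fun (j : ℤ) _ => avg x G B hB H hHx (j : ZMod x)).trans ?_
    rw [Finset.sum_const, Int.card_Ico, nsmul_eq_mul]
    have e3 : (((b - a).toNat : ℕ) : ℝ) = (b : ℝ) - a := by
      have : (((b - a).toNat : ℕ) : ℤ) = b - a := Int.toNat_of_nonneg (by omega)
      have h5 : ((((b - a).toNat : ℕ) : ℤ) : ℝ) = ((b - a : ℤ) : ℝ) := by rw [this]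
      push_cast at h5
      exact h5
    rw [e3]
  have h3 : ‖(H : ℂ) ^ 2 * S‖ ≤ (H : ℝ) ^ 2 * (2 * H) + (b - a) * (B * H) := by
    calc ‖(H : ℂ) ^ 2 * S‖ = ‖((H : ℂ) ^ 2 * S - T) + T‖ := by rw [sub_add_cancel]
      _ ≤ _ := (norm_add_le _ _).trans (add_le_add h1 h2)
  rw [norm_mul, norm_pow, Complex.norm_natCast] at h3
  have hH2 : (0 : ℝ) < (H : ℝ) ^ 2 := by positivity
  have h4 : (H : ℝ) ^ 2 * ‖S‖ ≤ (H : ℝ) ^ 2 * ((b - a) * B / H + 2 * H) := by
    refine h3.trans (le_of_eq ?_)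
    field_simp
    ring
  exact le_of_mul_le_mul_left h4 hH2

end Pool.Agent.LogCh
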