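import Pool.Agent.Lib.LogCh.DKlMod
import Pool.Agent.Lib.LogCh.DInterval

/-!
# INNER: the sum over `y` for a fixed `x` with a good prime factor

PROOF. Choose integers `A, A'` with `A q + A' x = 1`. For `y` coprime to `x`:
`m cc(y) / (q x) = m cc(y) A / x + m cc(y) A' / q`, and `cc(y) ≡ c0 mod q` gives
`ee (m cc(y) / (q x)) = ee (m c0 A' / q) * stdAddChar ((-(m A)) * y⁻¹)` in `ZMod x`
(`cc(y) = - y⁻¹` in `ZMod x`). Write the `y` of the sum as `y0 + q j`, `j` in an interval `Ico a' b'`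
of integers of length `b' - a' ≤ (b - a) / q + 1`. Apply `INTV` to
`G j = if IsUnit (y0 + q j : ZMod x) then stdAddChar (-(m A) (y0 + q j)⁻¹) else 0`; its Fourier
coefficient at `k`, after the substitution `j = A (y - y0)` (a bijection of `ZMod x`), is
`stdAddChar (-(k A y0)) * kl x stdAddChar (-(m A)) (k A)`, bounded by `KLM`; `p` does not divide `m A`
because `A q + A' x = 1` and `p ∣ x`.
-/

set_option autoImplicit false

namespace Pool.Agent.LogCh

open Real

private lemma norm_std (x : ℕ) [NeZero x] (t : ZMod x) : ‖ZMod.stdAddChar t‖ = 1 := by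
  have h : ((t.val : ℤ) : ZMod x) = t := by
    push_cast
    exact ZMod.natCast_zmod_val t
  rw [← h, std_eq, norm_ee]

open Classical in
private lemma sum_unit (x : ℕ) [NeZero x] (f : ZMod x → ℂ) :
    ∑ t : ZMod x, (if IsUnit t then f t else 0) = ∑ u : (ZMod x)ˣ, f (u : ZMod x) := by
  rw [← Finset.sum_filter]
  symm
  refine Finset.sum_bij (fun u _ => (u : ZMod x)) ?_ ?_ ?_ ?_
  · intro u _
    simp
  · intro u _ v _ h
    exact Units.ext h
  · intro t ht
    rw [Finset.mem_filter] at ht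
    exact ⟨ht.2.unit, Finset.mem_univ _, rfl⟩
  · intro u _
    rfl

open Classical in
private lemma coeff (x : ℕ) [NeZero x] (p : ℕ) (hp : p.Prime) (hpx : p ∣ x)
    (hc : p.Coprime (x / p)) (q A m y0 : ℤ) (hA : (A : ZMod x) * (q : ZMod x) = 1)
    (hpm : ¬ (p : ℤ) ∣ m * A) (k : ZMod x) :
    ‖∑ c : ZMod x, (if IsUnit ((y0 : ZMod x) + (q : ZMod x) * c) then
      ZMod.stdAddChar (-((m : ZMod x) * (A : ZMod x)) * ((y0 : ZMod x) + (q : ZMod x) * c)⁻¹)
        else 0) * ZMod.stdAddChar (k * c)‖ ≤ 2 * x * (p : ℝ) ^ (-(1 / 4) : ℝ) := by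
  have hcA : ∀ c : ZMod x, (A : ZMod x) * (((y0 : ZMod x) + (q : ZMod x) * c) - (y0 : ZMod x)) = c := by
    intro c
    have : (A : ZMod x) * (((y0 : ZMod x) + (q : ZMod x) * c) - (y0 : ZMod x)) =
      ((A : ZMod x) * (q : ZMod x)) * c := by ring
    rw [this, hA, one_mul]
  have hbij : Function.Bijective (fun c : ZMod x => (y0 : ZMod x) + (q : ZMod x) * c) := by
    rw [Function.bijective_iff_has_inverse]
    refine ⟨fun t => (A : ZMod x) * (t - (y0 : ZMod x)), fun c => hcA c, fun t => ?_⟩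
    show (y0 : ZMod x) + (q : ZMod x) * ((A : ZMod x) * (t - (y0 : ZMod x))) = t
    have : (y0 : ZMod x) + (q : ZMod x) * ((A : ZMod x) * (t - (y0 : ZMod x))) =
      (y0 : ZMod x) + ((A : ZMod x) * (q : ZMod x)) * (t - (y0 : ZMod x)) := by ring
    rw [this, hA]
    ring
  have h1 : ∑ c : ZMod x, (if IsUnit ((y0 : ZMod x) + (q : ZMod x) * c) then
      ZMod.stdAddChar (-((m : ZMod x) * (A : ZMod x)) * ((y0 : ZMod x) + (q : ZMod x) * c)⁻¹)
        else 0) * ZMod.stdAddChar (k * c) =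
      ∑ t : ZMod x, (if IsUnit t then ZMod.stdAddChar (-((m : ZMod x) * (A : ZMod x)) * t⁻¹) *
        ZMod.stdAddChar (k * ((A : ZMod x) * (t - (y0 : ZMod x)))) else 0) := by
    refine Fintype.sum_bijective _ hbij _ _ (fun c => ?_)
    rw [hcA c, ite_mul, zero_mul]
  rw [h1, sum_unit x (fun t => ZMod.stdAddChar (-((m : ZMod x) * (A : ZMod x)) * t⁻¹) *
        ZMod.stdAddChar (k * ((A : ZMod x) * (t - (y0 : ZMod x)))))]
  have h3 : ∑ u : (ZMod x)ˣ, ZMod.stdAddChar (-((m : ZMod x) * (A : ZMod x)) * (u : ZMod x)⁻¹) *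
        ZMod.stdAddChar (k * ((A : ZMod x) * ((u : ZMod x) - (y0 : ZMod x)))) =
      ZMod.stdAddChar (-(k * (A : ZMod x) * (y0 : ZMod x))) *
        kl x ZMod.stdAddChar ((-(m * A) : ℤ) : ZMod x) (((k.val : ℤ) * A : ℤ) : ZMod x) := by
    unfold kl
    rw [Finset.mul_sum]
    refine Finset.sum_congr rfl (fun u _ => ?_)
    have hk : ((k.val : ℤ) : ZMod x) = k := by
      push_cast
      exact ZMod.natCast_zmod_val k
    have hu : ((u : ZMod x))⁻¹ = ((u⁻¹ : (ZMod x)ˣ) : ZMod x) := ZMod.inv_coe_unit u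
    have hcast : (((k.val : ℤ) * A : ℤ) : ZMod x) = k * (A : ZMod x) := by
      rw [Int.cast_mul, hk]
    have hcast2 : ((-(m * A) : ℤ) : ZMod x) = -((m : ZMod x) * (A : ZMod x)) := by
      push_cast; ring
    rw [← AddChar.map_add_eq_mul, ← AddChar.map_add_eq_mul, hu, hcast, hcast2]
    congr 1
    ring
  rw [h3, norm_mul, norm_std, one_mul]
  refine KLM x p hp hpx hc _ _ ?_
  rwa [dvd_neg]

open Classical in
theorem INNER (q x : ℕ) (hq : 1 ≤ q) (hx : 1 ≤ x) (hqx : q.Coprime x) (m : ℤ) (p : ℕ)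
    (hp : p.Prime) (hpx : p ∣ x) (hc : p.Coprime (x / p)) (hpm : ¬ (p : ℤ) ∣ m) (y0 c0 : ℤ)
    (cc : ℤ → ℤ) (hcc : ∀ y : ℤ, IsCoprime y (x : ℤ) → (q : ℤ) ∣ y - y0 →
      (x : ℤ) ∣ y * cc y + 1 ∧ (q : ℤ) ∣ cc y - c0)
    (H : ℕ) (hH : 1 ≤ H) (hHx : H ≤ x) (a b : ℤ) (hab : a ≤ b) :
    ‖∑ y ∈ (Finset.Ico a b).filter (fun y => (q : ℤ) ∣ y - y0 ∧ IsCoprime y (x : ℤ)),
      ee (m * cc y / (q * x))‖ ≤
      (((b : ℝ) - a) / q + 1) * (2 * x * (p : ℝ) ^ (-(1 / 4) : ℝ)) / H + 2 * H := by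
  have : NeZero x := ⟨by omega⟩
  obtain ⟨A, A', hAA⟩ : ∃ A A' : ℤ, A * q + A' * x = 1 := Nat.isCoprime_iff_coprime.2 hqx
  have hqr : (0 : ℝ) < q := by exact_mod_cast hq
  have hxr : (0 : ℝ) < x := by exact_mod_cast hx
  have hqz : (0 : ℤ) < q := by exact_mod_cast hq
  have hAq : (A : ZMod x) * ((q : ℤ) : ZMod x) = 1 := by
    have h1 : ((A * q + A' * x : ℤ) : ZMod x) = ((1 : ℤ) : ZMod x) := by rw [hAA]
    push_cast at h1 ⊢
    rw [ZMod.natCast_self, mul_zero, add_zero] at h1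
    exact h1
  have hpmA : ¬ (p : ℤ) ∣ m * A := by
    intro h
    have hp' : Prime (p : ℤ) := Nat.prime_iff_prime_int.1 hp
    rcases hp'.dvd_or_dvd h with h | h
    · exact hpm h
    · have h2 : (p : ℤ) ∣ 1 := by
        rw [← hAA]
        exact dvd_add (h.mul_right _) ((Int.natCast_dvd_natCast.2 hpx).mul_left _)
      exact hp'.not_isUnit (isUnit_of_dvd_one h2)
  -- the function
  set G : ZMod x → ℂ := fun c => if IsUnit ((y0 : ZMod x) + ((q : ℤ) : ZMod x) * c) then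
      ZMod.stdAddChar (-((m : ZMod x) * (A : ZMod x)) * ((y0 : ZMod x) + ((q : ℤ) : ZMod x) * c)⁻¹) else 0
    with hG
  have hG1 : ∀ c, ‖G c‖ ≤ 1 := by
    intro c
    rw [hG]
    dsimp only
    split_ifs
    · rw [norm_std]
    · simp
  set a' : ℤ := -((y0 - a) / q) with ha'
  set b' : ℤ := -((y0 - b) / q) with hb'
  have hja : ∀ j : ℤ, a' ≤ j ↔ a ≤ y0 + q * j := by
    intro j
    rw [ha', neg_le, Int.le_ediv_iff_mul_le hqz]
    constructor <;> intro h <;> nlinarith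
  have hjb : ∀ j : ℤ, b' ≤ j ↔ b ≤ y0 + q * j := by
    intro j
    rw [hb', neg_le, Int.le_ediv_iff_mul_le hqz]
    constructor <;> intro h <;> nlinarith
  have hab' : a' ≤ b' := by
    rw [hja]
    exact hab.trans ((hjb b').1 le_rfl)
  have hlen : ((b' : ℝ) - a') ≤ ((b : ℝ) - a) / q + 1 := by
    have h1 : ¬ b' ≤ b' - 1 := by omega
    rw [hjb, not_le] at h1
    have h2 : a ≤ y0 + q * a' := (hja a').1 le_rfl
    have h3 : (y0 : ℝ) + q * (b' - 1) < b := by exact_mod_cast h1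
    have h4 : (a : ℝ) ≤ y0 + q * a' := by exact_mod_cast h2
    rw [← sub_le_iff_le_add, le_div_iff₀ hqr]
    nlinarith
  -- the sum
  have hsum : ∑ y ∈ (Finset.Ico a b).filter (fun y => (q : ℤ) ∣ y - y0 ∧ IsCoprime y (x : ℤ)),
      ee (m * cc y / (q * x)) =
      ee (m * c0 * A' / q) * ∑ j ∈ Finset.Ico a' b', G (j : ZMod x) := by
    have h1 : ∑ j ∈ Finset.Ico a' b', G (j : ZMod x) =
        ∑ j ∈ (Finset.Ico a' b').filter (fun j => IsUnit (((y0 + q * j : ℤ)) : ZMod x)),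
          ZMod.stdAddChar (-((m : ZMod x) * (A : ZMod x)) * (((y0 + q * j : ℤ)) : ZMod x)⁻¹) := by
      rw [Finset.sum_filter]
      refine Finset.sum_congr rfl (fun j _ => ?_)
      rw [hG]
      push_cast
      rfl
    rw [h1, Finset.mul_sum]
    symm
    refine Finset.sum_bij (fun j _ => y0 + q * j) ?_ ?_ ?_ ?_
    · intro j hj
      rw [Finset.mem_filter, Finset.mem_Ico] at hj
      rw [Finset.mem_filter, Finset.mem_Ico]
      refine ⟨⟨(hja j).1 hj.1.1, ?_⟩, ⟨j, by ring⟩, ?_⟩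
      · by_contra hcon
        rw [not_lt] at hcon
        exact absurd ((hjb j).2 hcon) (not_le.2 hj.1.2)
      · exact ((ZMod.coe_int_isUnit_iff_isCoprime _ _).1 hj.2).symm
    · intro j _ j' _ h
      have : (q : ℤ) * j = q * j' := by linarith
      exact mul_left_cancel₀ hqz.ne' this
    · intro y hy
      rw [Finset.mem_filter, Finset.mem_Ico] at hy
      obtain ⟨⟨h1, h2⟩, ⟨j, hj⟩, h3⟩ := hy
      have hyj : y = y0 + q * j := by linarith
      refine ⟨j, ?_, hyj.symm⟩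
      rw [Finset.mem_filter, Finset.mem_Ico]
      refine ⟨⟨(hja j).2 (by rw [← hyj]; exact h1), ?_⟩, ?_⟩
      · by_contra hcon
        rw [not_lt] at hcon
        have := (hjb j).1 hcon
        rw [← hyj] at this
        omega
      · rw [ZMod.coe_int_isUnit_iff_isCoprime, ← hyj]
        exact h3.symm
    · intro j hj
      rw [Finset.mem_filter] at hj
      set y : ℤ := y0 + q * j with hy
      have hcop : IsCoprime y (x : ℤ) := ((ZMod.coe_int_isUnit_iff_isCoprime _ _).1 hj.2).symm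
      obtain ⟨hc1, k, hk⟩ := hcc y hcop ⟨j, by rw [hy]; ring⟩
      have hinv : ((cc y : ℤ) : ZMod x) = -((y : ZMod x))⁻¹ := by
        have h5 : ((y * cc y + 1 : ℤ) : ZMod x) = 0 := (ZMod.intCast_zmod_eq_zero_iff_dvd _ _).2 hc1
        push_cast at h5
        have h6 : ((y : ZMod x))⁻¹ * (y : ZMod x) = 1 := ZMod.inv_mul_of_unit _ hj.2
        have h7 : ((y : ZMod x))⁻¹ * ((y : ZMod x) * (cc y : ZMod x) + 1) = 0 := by
          rw [h5, mul_zero]
        rw [mul_add, ← mul_assoc, h6, one_mul, mul_one] at h7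
        exact eq_neg_of_add_eq_zero_left h7
      have h8 : -((m : ZMod x) * (A : ZMod x)) * ((y : ZMod x))⁻¹ = ((m * A * cc y : ℤ) : ZMod x) := by
        push_cast
        rw [hinv]
        ring
      rw [h8, std_eq, ← ee_add]
      have h9 : (m : ℝ) * cc y / (q * x) =
          (m * c0 * A' / q + ((m * A * cc y : ℤ) : ℝ) / x) + ((m * k * A' : ℤ) : ℝ) := by
        have hAr : (A : ℝ) * q + A' * x = 1 := by exact_mod_cast hAA
        have hkr : (cc y : ℝ) = c0 + q * k := by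
          have : cc y = c0 + q * k := by linarith
          exact_mod_cast this
        have : (m : ℝ) * cc y / (q * x) = m * cc y * (A * q + A' * x) / (q * x) := by
          rw [hAr, mul_one]
        rw [this]
        push_cast
        field_simp
        rw [hkr]
        ring
      rw [h9, ee_add_int]
  rw [hsum, norm_mul, norm_ee, one_mul]
  have h10 := INTV x G hG1 (2 * x * (p : ℝ) ^ (-(1 / 4) : ℝ))
    (fun k => coeff x p hp hpx hc q A m y0 hAq hpmA k) H hH hHx a' b' hab'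
  refine h10.trans ?_
  have hH0 : (0 : ℝ) < H := by exact_mod_cast hH
  have hB : 0 ≤ 2 * (x : ℝ) * (p : ℝ) ^ (-(1 / 4) : ℝ) := by positivity
  gcongr

end Pool.Agent.LogCh
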