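import Pool.Agent.Lib.LogCh.DKlPrime

/-!
# KLM: Kloosterman sums for a modulus with an exact prime factor

PROOF. `x = p * m` with `p` prime, coprime to `m`. With the ring isomorphism
`e : ZMod (p * m) ≃+* ZMod p × ZMod m` (`ZMod.chineseRemainder`) put
`ψ1 t = stdAddChar (e.symm (t, 0))`, `ψ2 t = stdAddChar (e.symm (0, t))`: additive characters of
`ZMod p`, `ZMod m` with `stdAddChar c = ψ1 (e c).1 * ψ2 (e c).2`, and `ψ1` is nontrivial since
`stdAddChar` is injective (`ZMod.injective_stdAddChar`). The units of the product ring are the pairs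
of units (`Units.mapEquiv`, `MulEquiv.prodUnits`), so
`kl x stdAddChar a b = kl p ψ1 a.1 b.1 * kl m ψ2 a.2 b.2`; the second factor is at most `m`
(trivially, `φ(m) ≤ m`), the first one is bounded by `KLP` because `a.1 ≠ 0`: the hypothesis says
that `p` does not divide the integer `a`. Note `p * m * p^(-1/4) = p^(3/4) * m`.
-/

set_option autoImplicit false

namespace Pool.Agent.LogCh

open Real

/-- the trivial bound -/
private theorem kl_trivial (m : ℕ) [NeZero m] (ψ : AddChar (ZMod m) ℂ) (a b : ZMod m) :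
    ‖kl m ψ a b‖ ≤ m := by
  unfold kl
  refine (norm_sum_le _ _).trans ?_
  have h1 : ∀ y : (ZMod m)ˣ, ‖ψ (a * ((y⁻¹ : (ZMod m)ˣ) : ZMod m) + b * (y : ZMod m))‖ = 1 :=
    fun y => AddChar.norm_apply ψ _
  rw [Finset.sum_congr rfl fun y _ => h1 y]
  rw [Finset.sum_const, Finset.card_univ, ZMod.card_units_eq_totient, nsmul_eq_mul, mul_one]
  exact_mod_cast Nat.totient_le m

theorem KLM (x p : ℕ) [NeZero x] (hp : p.Prime) (hpx : p ∣ x) (hc : p.Coprime (x / p)) (a b : ℤ)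
    (ha : ¬ (p : ℤ) ∣ a) :
    ‖kl x ZMod.stdAddChar (a : ZMod x) (b : ZMod x)‖ ≤ 2 * x * (p : ℝ) ^ (-(1 / 4) : ℝ) := by
  obtain ⟨m, rfl⟩ := hpx
  rw [Nat.mul_div_cancel_left m hp.pos] at hc
  haveI : Fact p.Prime := ⟨hp⟩
  haveI : NeZero m := ⟨fun h => NeZero.ne (p * m) (by rw [h, mul_zero])⟩
  set e := ZMod.chineseRemainder hc with he
  set ψ1 : AddChar (ZMod p) ℂ := (ZMod.stdAddChar (N := p * m)).compAddMonoidHom
    ((e.symm : ZMod p × ZMod m →+ ZMod (p * m)).comp (AddMonoidHom.inl _ _)) with hψ1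
  set ψ2 : AddChar (ZMod m) ℂ := (ZMod.stdAddChar (N := p * m)).compAddMonoidHom
    ((e.symm : ZMod p × ZMod m →+ ZMod (p * m)).comp (AddMonoidHom.inr _ _)) with hψ2
  have h1 : ∀ t, ψ1 t = ZMod.stdAddChar (e.symm (t, 0)) := fun t => rfl
  have h2 : ∀ t, ψ2 t = ZMod.stdAddChar (e.symm (0, t)) := fun t => rfl
  have h12 : ∀ c : ZMod (p * m), ZMod.stdAddChar c = ψ1 (e c).1 * ψ2 (e c).2 := by
    intro c
    rw [h1, h2, ← AddChar.map_add_eq_mul, ← map_add]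
    have : (((e c).1, 0) + (0, (e c).2) : ZMod p × ZMod m) = e c := by
      ext <;> simp
    rw [this, RingEquiv.symm_apply_apply]
  set u : (ZMod (p * m))ˣ ≃* (ZMod p)ˣ × (ZMod m)ˣ :=
    (Units.mapEquiv (e : ZMod (p * m) ≃* ZMod p × ZMod m)).trans MulEquiv.prodUnits with hu
  have hu1 : ∀ y : (ZMod (p * m))ˣ, ((u y).1 : ZMod p) = (e (y : ZMod (p * m))).1 := fun y => rfl
  have hu2 : ∀ y : (ZMod (p * m))ˣ, ((u y).2 : ZMod m) = (e (y : ZMod (p * m))).2 := fun y => rfl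
  have hkl : kl (p * m) ZMod.stdAddChar (a : ZMod (p * m)) (b : ZMod (p * m)) =
      kl p ψ1 (a : ZMod p) (b : ZMod p) * kl m ψ2 (a : ZMod m) (b : ZMod m) := by
    unfold kl
    rw [Finset.sum_mul_sum, ← Fintype.sum_prod_type'
      (fun (y1 : (ZMod p)ˣ) (y2 : (ZMod m)ˣ) =>
        ψ1 ((a : ZMod p) * ((y1⁻¹ : (ZMod p)ˣ) : ZMod p) + (b : ZMod p) * (y1 : ZMod p)) *
        ψ2 ((a : ZMod m) * ((y2⁻¹ : (ZMod m)ˣ) : ZMod m) + (b : ZMod m) * (y2 : ZMod m))),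
      ← Equiv.sum_comp u.toEquiv]
    refine Finset.sum_congr rfl fun y _ => ?_
    rw [h12]
    have e1 : (e ((a : ZMod (p * m)) * ((y⁻¹ : (ZMod (p * m))ˣ) : ZMod (p * m)) +
        (b : ZMod (p * m)) * (y : ZMod (p * m)))).1 =
        (a : ZMod p) * (((u y).1⁻¹ : (ZMod p)ˣ) : ZMod p) + (b : ZMod p) * ((u y).1 : ZMod p) := by
      have : ((u y).1⁻¹ : (ZMod p)ˣ) = (u y⁻¹).1 := by rw [map_inv]; rfl
      rw [this, hu1, hu1, map_add, map_mul, map_mul, map_intCast, map_intCast]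
      simp
    have e2 : (e ((a : ZMod (p * m)) * ((y⁻¹ : (ZMod (p * m))ˣ) : ZMod (p * m)) +
        (b : ZMod (p * m)) * (y : ZMod (p * m)))).2 =
        (a : ZMod m) * (((u y).2⁻¹ : (ZMod m)ˣ) : ZMod m) + (b : ZMod m) * ((u y).2 : ZMod m) := by
      have : ((u y).2⁻¹ : (ZMod m)ˣ) = (u y⁻¹).2 := by rw [map_inv]; rfl
      rw [this, hu2, hu2, map_add, map_mul, map_mul, map_intCast, map_intCast]
      simp
    rw [e1, e2]
    rfl
  have hne : ∃ t, ψ1 t ≠ 1 := by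
    refine ⟨1, fun h => ?_⟩
    rw [h1, ← AddChar.map_zero_eq_one (ZMod.stdAddChar (N := p * m))] at h
    have h3 := ZMod.injective_stdAddChar h
    have h4 : ((1 : ZMod p), (0 : ZMod m)) = 0 := by
      apply e.symm.injective
      rw [h3, map_zero]
    exact one_ne_zero (congrArg Prod.fst h4)
  have ha' : (a : ZMod p) ≠ 0 := fun h => ha ((ZMod.intCast_zmod_eq_zero_iff_dvd a p).1 h)
  have hA := KLP p ψ1 hne (a : ZMod p) (b : ZMod p) ha'
  have hB := kl_trivial m ψ2 (a : ZMod m) (b : ZMod m)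
  have hp0 : (0 : ℝ) < p := by exact_mod_cast hp.pos
  have hpow : (p : ℝ) ^ (3 / 4 : ℝ) = p * (p : ℝ) ^ (-(1 / 4) : ℝ) := by
    have h5 : (3 / 4 : ℝ) = 1 + (-(1 / 4)) := by norm_num
    rw [h5, Real.rpow_add hp0, Real.rpow_one]
  rw [hkl, norm_mul]
  calc ‖kl p ψ1 (a : ZMod p) (b : ZMod p)‖ * ‖kl m ψ2 (a : ZMod m) (b : ZMod m)‖
      ≤ (2 * (p : ℝ) ^ (3 / 4 : ℝ)) * m :=
        mul_le_mul hA hB (norm_nonneg _) (by positivity)
    _ = 2 * ((p * m : ℕ) : ℝ) * (p : ℝ) ^ (-(1 / 4) : ℝ) := by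
        rw [hpow]; push_cast; ring

end Pool.Agent.LogCh
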