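import Pool.Agent.Lib.LogCh.DDefs

/-!
# KLP: Kloosterman's bound with exponent 3/4 for a prime modulus

PROOF. Write `K a b = kl p ψ a b`, `U = (ZMod p)ˣ`.
(1) For a unit `t`: `K (a * t) (b * t⁻¹) = K a b` (substitute `y = t * y'`... i.e. the bijection
`y ↦ y * t` of `U`; choose the direction that works).
(2) `∑_{a b : ZMod p} ‖K a b‖^4 = p^2 * #S`, where
`S = {(x1,x2,x3,x4) ∈ U^4 : x1 + x2 = x3 + x4 and x1⁻¹ + x2⁻¹ = x3⁻¹ + x4⁻¹}`:
`‖K‖^4 = K * K * conj K * conj K`, `conj (ψ t) = ψ (-t)`, and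
`∑_a ψ (a * c) = if c = 0 then p else 0` for a nontrivial `ψ` (over the field `ZMod p` every nontrivial
`ψ` is primitive; Mathlib `AddChar.sum_mulShift` / `AddChar.sum_eq_zero_of_ne_one`).
(3) `#S ≤ 3 (p-1)^2`: if `x1 + x2 = 0` then `x3 + x4 = 0`: at most `(p-1)^2` quadruples
(determined by `x1, x3`). If `s = x1 + x2 ≠ 0` then `s / (x1 x2) = s / (x3 x4)`, so `x1 x2 = x3 x4`
and `(x3 - x1)(x3 - x2) = 0`: at most two quadruples for every `(x1, x2)`.
(4) By (1) the `p - 1` pairs `(a t, b t⁻¹)` are different (`a ≠ 0`) and have the same `‖K‖`: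
`(p-1) ‖K a b‖^4 ≤ 3 p^2 (p-1)^2`, so `‖K a b‖^4 ≤ 3 p^3 ≤ (2 p^(3/4))^4`.
-/

set_option autoImplicit false

namespace Pool.Agent.LogCh

open Real
open scoped ComplexConjugate

section KLPaux

variable (p : ℕ) [Fact p.Prime]

/-- scaling -/
lemma klp_scale (ψ : AddChar (ZMod p) ℂ) (a b : ZMod p) (t : (ZMod p)ˣ) :
    kl p ψ (a * t) (b * ((t⁻¹ : (ZMod p)ˣ) : ZMod p)) = kl p ψ a b := by
  unfold kl
  symm
  refine Fintype.sum_equiv (Equiv.mulLeft t) _ _ (fun y => ?_)
  congr 1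
  have h1 : ((t : ZMod p)) * ((t⁻¹ : (ZMod p)ˣ) : ZMod p) = 1 := by
    rw [← Units.val_mul, mul_inv_cancel, Units.val_one]
  simp only [Equiv.coe_mulLeft, mul_inv, Units.val_mul]
  linear_combination (-(a * ((y⁻¹ : (ZMod p)ˣ) : ZMod p)) - b * (y : ZMod p)) * h1

/-- the first coordinate function -/
noncomputable def klF (x : (ZMod p)ˣ × (ZMod p)ˣ) : ZMod p :=
  ((x.1⁻¹ : (ZMod p)ˣ) : ZMod p) + ((x.2⁻¹ : (ZMod p)ˣ) : ZMod p)

/-- the second coordinate function -/
noncomputable def klG (x : (ZMod p)ˣ × (ZMod p)ˣ) : ZMod p := (x.1 : ZMod p) + (x.2 : ZMod p)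

lemma klp_sq (ψ : AddChar (ZMod p) ℂ) (a b : ZMod p) :
    kl p ψ a b * kl p ψ a b = ∑ x : (ZMod p)ˣ × (ZMod p)ˣ, ψ (a * klF p x + b * klG p x) := by
  unfold kl
  rw [Finset.sum_mul_sum, Fintype.sum_prod_type]
  refine Finset.sum_congr rfl fun x _ => Finset.sum_congr rfl fun y _ => ?_
  rw [← AddChar.map_add_eq_mul]
  congr 1
  unfold klF klG
  ring

lemma klp_parseval (ψ : AddChar (ZMod p) ℂ) (hψ : ψ.IsPrimitive) {X : Type} [Fintype X]
    (f g : X → ZMod p) :
    ∑ a : ZMod p, ∑ b : ZMod p, ‖∑ x : X, ψ (a * f x + b * g x)‖ ^ 2 =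
      (p : ℝ) ^ 2 * ∑ x : X, ∑ y : X, (if f x = f y ∧ g x = g y then (1 : ℝ) else 0) := by
  have h1 : ∀ a b : ZMod p, ((‖∑ x : X, ψ (a * f x + b * g x)‖ ^ 2 : ℝ) : ℂ) =
      ∑ x : X, ∑ y : X, ψ (a * (f x - f y)) * ψ (b * (g x - g y)) := by
    intro a b
    rw [Complex.ofReal_pow, ← Complex.mul_conj', map_sum, Finset.sum_mul_sum]
    refine Finset.sum_congr rfl fun x _ => Finset.sum_congr rfl fun y _ => ?_
    rw [← AddChar.map_neg_eq_conj, ← AddChar.map_add_eq_mul, ← AddChar.map_add_eq_mul]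
    congr 1
    ring
  have h2 : ((∑ a : ZMod p, ∑ b : ZMod p, ‖∑ x : X, ψ (a * f x + b * g x)‖ ^ 2 : ℝ) : ℂ) =
      (((p : ℝ) ^ 2 * ∑ x : X, ∑ y : X, (if f x = f y ∧ g x = g y then (1 : ℝ) else 0) : ℝ) : ℂ)
      := by
    rw [Complex.ofReal_sum]
    simp_rw [Complex.ofReal_sum, h1]
    calc ∑ a : ZMod p, ∑ b : ZMod p, ∑ x : X, ∑ y : X,
          ψ (a * (f x - f y)) * ψ (b * (g x - g y))
        = ∑ x : X, ∑ y : X, (∑ a : ZMod p, ψ (a * (f x - f y))) *
            (∑ b : ZMod p, ψ (b * (g x - g y))) := by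
          simp_rw [Finset.sum_mul_sum]
          rw [show (∑ a : ZMod p, ∑ b : ZMod p, ∑ x : X, ∑ y : X,
            ψ (a * (f x - f y)) * ψ (b * (g x - g y))) =
            ∑ a : ZMod p, ∑ x : X, ∑ b : ZMod p, ∑ y : X,
            ψ (a * (f x - f y)) * ψ (b * (g x - g y)) from
              Finset.sum_congr rfl fun a _ => Finset.sum_comm]
          rw [Finset.sum_comm]
          refine Finset.sum_congr rfl fun x _ => ?_
          rw [show (∑ a : ZMod p, ∑ b : ZMod p, ∑ y : X,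
            ψ (a * (f x - f y)) * ψ (b * (g x - g y))) =
            ∑ a : ZMod p, ∑ y : X, ∑ b : ZMod p,
            ψ (a * (f x - f y)) * ψ (b * (g x - g y)) from
              Finset.sum_congr rfl fun a _ => Finset.sum_comm]
          rw [Finset.sum_comm]
      _ = _ := by
          simp_rw [AddChar.sum_mulShift _ hψ, ZMod.card, sub_eq_zero]
          push_cast
          rw [Finset.mul_sum]
          refine Finset.sum_congr rfl fun x _ => ?_
          rw [Finset.mul_sum]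
          refine Finset.sum_congr rfl fun y _ => ?_
          by_cases h3 : f x = f y
          · by_cases h4 : g x = g y
            · simp [h3, h4]; ring
            · simp [h3, h4]
          · simp [h3]
  exact_mod_cast h2

lemma klp_count : ∑ x : (ZMod p)ˣ × (ZMod p)ˣ, ∑ y : (ZMod p)ˣ × (ZMod p)ˣ,
    (if klF p x = klF p y ∧ klG p x = klG p y then (1 : ℝ) else 0) ≤ 3 * ((p : ℝ) - 1) ^ 2 := by
  have hp1 : 1 ≤ p := (Fact.out : p.Prime).one_lt.le
  have hcard : Fintype.card (ZMod p)ˣ = p - 1 := ZMod.card_units p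
  have hcardR : ((Fintype.card (ZMod p)ˣ : ℕ) : ℝ) = (p : ℝ) - 1 := by
    rw [hcard, Nat.cast_sub hp1, Nat.cast_one]
  have key : ∀ x : (ZMod p)ˣ × (ZMod p)ˣ, ∑ y : (ZMod p)ˣ × (ZMod p)ˣ,
      (if klF p x = klF p y ∧ klG p x = klG p y then (1 : ℝ) else 0) ≤
      2 + (if x.2 = -x.1 then ((p : ℝ) - 1) else 0) := by
    intro x
    rw [← Finset.sum_filter, Finset.sum_const, nsmul_eq_mul, mul_one]
    by_cases hx : x.2 = -x.1
    · rw [if_pos hx]
      have hsub : (Finset.univ.filter fun y : (ZMod p)ˣ × (ZMod p)ˣ =>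
          klF p x = klF p y ∧ klG p x = klG p y) ⊆
          Finset.univ.image (fun t : (ZMod p)ˣ => (t, -t)) := by
        intro y hy
        rw [Finset.mem_filter] at hy
        rw [Finset.mem_image]
        refine ⟨y.1, Finset.mem_univ _, Prod.ext rfl ?_⟩
        have h := hy.2.2
        unfold klG at h
        rw [hx] at h
        apply Units.ext
        push_cast at h ⊢
        linear_combination h
      have h1 := (Finset.card_le_card hsub).trans Finset.card_image_le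
      rw [Finset.card_univ] at h1
      have h2 : (((Finset.univ.filter fun y : (ZMod p)ˣ × (ZMod p)ˣ =>
          klF p x = klF p y ∧ klG p x = klG p y).card : ℕ) : ℝ) ≤ (p : ℝ) - 1 := by
        rw [← hcardR]; exact_mod_cast h1
      linarith
    · rw [if_neg hx, add_zero]
      have hsub : (Finset.univ.filter fun y : (ZMod p)ˣ × (ZMod p)ˣ =>
          klF p x = klF p y ∧ klG p x = klG p y) ⊆ {(x.1, x.2), (x.2, x.1)} := by
        intro y hy
        rw [Finset.mem_filter] at hy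
        obtain ⟨-, hF, hG⟩ := hy
        rw [Finset.mem_insert, Finset.mem_singleton]
        unfold klF at hF
        unfold klG at hG
        set a := (x.1 : ZMod p) with ha
        set b := (x.2 : ZMod p) with hb
        set c := (y.1 : ZMod p) with hc
        set d := (y.2 : ZMod p) with hd
        have ha0 : a ≠ 0 := x.1.ne_zero
        have hb0 : b ≠ 0 := x.2.ne_zero
        have hc0 : c ≠ 0 := y.1.ne_zero
        have hd0 : d ≠ 0 := y.2.ne_zero
        have hs : a + b ≠ 0 := by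
          intro h
          apply hx
          apply Units.ext
          push_cast
          linear_combination h
        rw [Units.val_inv_eq_inv_val, Units.val_inv_eq_inv_val, Units.val_inv_eq_inv_val,
          Units.val_inv_eq_inv_val, ← ha, ← hb, ← hc, ← hd] at hF
        have h1 : (a + b) * (c * d) = (c + d) * (a * b) := by
          field_simp at hF
          linear_combination hF
        have h2 : (a + b) * (c * d - a * b) = 0 := by
          rw [mul_sub, h1, hG]; ring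
        have h3 : c * d - a * b = 0 := (mul_eq_zero.1 h2).resolve_left hs
        have h4 : (c - a) * (c - b) = 0 := by
          linear_combination (-1 : ZMod p) * h3 - c * hG
        rcases mul_eq_zero.1 h4 with h5 | h5
        · left
          apply Prod.ext
          · apply Units.ext; exact sub_eq_zero.1 h5
          · apply Units.ext
            show d = b
            linear_combination (-1 : ZMod p) * hG - h5
        · right
          apply Prod.ext
          · apply Units.ext; exact sub_eq_zero.1 h5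
          · apply Units.ext
            show d = a
            linear_combination (-1 : ZMod p) * hG - h5
      have h1 := (Finset.card_le_card hsub).trans Finset.card_le_two
      exact_mod_cast h1
  refine (Finset.sum_le_sum fun x _ => key x).trans ?_
  rw [Finset.sum_add_distrib, Finset.sum_const, Finset.card_univ, Fintype.card_prod, nsmul_eq_mul,
    Nat.cast_mul, hcardR, Fintype.sum_prod_type]
  have h1 : ∀ t : (ZMod p)ˣ, ∑ u : (ZMod p)ˣ, (if u = -t then ((p : ℝ) - 1) else 0) = (p : ℝ) - 1 := by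
    intro t
    rw [Finset.sum_ite_eq' Finset.univ (-t)]
    simp
  simp_rw [h1]
  rw [Finset.sum_const, Finset.card_univ, nsmul_eq_mul, hcardR]
  apply le_of_eq
  ring

end KLPaux

theorem KLP (p : ℕ) [Fact p.Prime] (ψ : AddChar (ZMod p) ℂ) (hψ : ∃ t, ψ t ≠ 1) (a b : ZMod p)
    (ha : a ≠ 0) : ‖kl p ψ a b‖ ≤ 2 * (p : ℝ) ^ (3 / 4 : ℝ) := by
  have hp1 : 1 < p := (Fact.out : p.Prime).one_lt
  have hprim : ψ.IsPrimitive := by
    apply AddChar.IsPrimitive.of_ne_one
    intro h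
    obtain ⟨t, ht⟩ := hψ
    apply ht
    rw [h]
    rfl
  have hcardR : ((Fintype.card (ZMod p)ˣ : ℕ) : ℝ) = (p : ℝ) - 1 := by
    rw [ZMod.card_units p, Nat.cast_sub hp1.le, Nat.cast_one]
  have h4 : ∀ a' b' : ZMod p, ‖kl p ψ a' b'‖ ^ 4 =
      ‖∑ x : (ZMod p)ˣ × (ZMod p)ˣ, ψ (a' * klF p x + b' * klG p x)‖ ^ 2 := by
    intro a' b'
    rw [← klp_sq, norm_mul]
    ring
  have htot : ∑ a' : ZMod p, ∑ b' : ZMod p, ‖kl p ψ a' b'‖ ^ 4 ≤
      (p : ℝ) ^ 2 * (3 * ((p : ℝ) - 1) ^ 2) := by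
    simp_rw [h4]
    rw [klp_parseval p ψ hprim]
    exact mul_le_mul_of_nonneg_left (klp_count p) (by positivity)
  have hlow : ((p : ℝ) - 1) * ‖kl p ψ a b‖ ^ 4 ≤
      ∑ a' : ZMod p, ∑ b' : ZMod p, ‖kl p ψ a' b'‖ ^ 4 := by
    rw [← Fintype.sum_prod_type' (f := fun a' b' : ZMod p => ‖kl p ψ a' b'‖ ^ 4)]
    let e : (ZMod p)ˣ → ZMod p × ZMod p := fun t => (a * t, b * ((t⁻¹ : (ZMod p)ˣ) : ZMod p))
    have he : Function.Injective e := by
      intro s t hst
      have h := congrArg Prod.fst hst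
      apply Units.ext
      exact mul_left_cancel₀ ha h
    have h5 : ((p : ℝ) - 1) * ‖kl p ψ a b‖ ^ 4 =
        ∑ x ∈ Finset.univ.image e, ‖kl p ψ x.1 x.2‖ ^ 4 := by
      rw [Finset.sum_image (fun s _ t _ h => he h)]
      have h6 : ∀ t : (ZMod p)ˣ, ‖kl p ψ (e t).1 (e t).2‖ ^ 4 = ‖kl p ψ a b‖ ^ 4 := by
        intro t
        show ‖kl p ψ (a * t) (b * ((t⁻¹ : (ZMod p)ˣ) : ZMod p))‖ ^ 4 = _
        rw [klp_scale]
      simp_rw [h6]
      rw [Finset.sum_const, Finset.card_univ, nsmul_eq_mul, hcardR]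
    rw [h5]
    exact Finset.sum_le_sum_of_subset_of_nonneg (Finset.subset_univ _)
      (fun _ _ _ => by positivity)
  have hp1R : (0 : ℝ) < (p : ℝ) - 1 := by
    have : (1 : ℝ) < p := by exact_mod_cast hp1
    linarith
  have h7 : ‖kl p ψ a b‖ ^ 4 ≤ 3 * (p : ℝ) ^ 2 * ((p : ℝ) - 1) := by
    have h8 : ((p : ℝ) - 1) * ‖kl p ψ a b‖ ^ 4 ≤
        ((p : ℝ) - 1) * (3 * (p : ℝ) ^ 2 * ((p : ℝ) - 1)) :=
      (hlow.trans htot).trans (le_of_eq (by ring))
    exact le_of_mul_le_mul_left h8 hp1R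
  have h9 : (2 * (p : ℝ) ^ (3 / 4 : ℝ)) ^ 4 = 16 * (p : ℝ) ^ 3 := by
    rw [mul_pow, ← Real.rpow_natCast ((p : ℝ) ^ (3 / 4 : ℝ)) 4, ← Real.rpow_mul (by positivity)]
    norm_num
  have h10 : ‖kl p ψ a b‖ ^ 4 ≤ (2 * (p : ℝ) ^ (3 / 4 : ℝ)) ^ 4 := by
    rw [h9]
    have h11 : (0 : ℝ) ≤ (p : ℝ) ^ 2 := by positivity
    have h12 : (0 : ℝ) ≤ (p : ℝ) ^ 3 := by positivity
    nlinarith
  exact le_of_pow_le_pow_left₀ (n := 4) (by norm_num) (by positivity) h10

end Pool.Agent.LogCh
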