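import Pool.Agent.Lib.LogCh.DDefs
import Pool.Agent.Lib.NSqP.Fej

/-!
# WEYL: finite Weyl criterion (upper bound) with the Fejer kernel

PROOF. `K = fejK M` of `NSqP/Fej`. For a point `φ_j = j / M`, `j ∈ Finset.range M`, put
`F j = ∑_{i ∈ Z} K (ee (θ i - j/M)) = ∑_{|m| < M} (1 - |m|/M) ee (- m j / M) ∑_i ee (m θ i)`
(`fejK_eq`, `ee x ^ m = ee (m x)`), so `F j ≤ #Z + 2 M Δ`.
Let `J` be the set of `j < M` for which there is an integer `k` with
`α - η < j/M + k ≤ β + η`; the integers `j + k M` are different elements of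
`(M (α - η), M (β + η)]`, so `#J ≤ M (β - α + 2 η) + 1`. For every real `θ`:
`∑_{j < M} K (ee (θ - j/M)) = M` (only `m = 0` survives, `∑_{j<M} ee (m j/M) = 0` for `0 < |m| < M`),
and if `α < θ + k ≤ β` and `j ∉ J` then the distance of `θ - j/M` to the integers is at least `η`, so
`‖ee (θ - j/M) - 1‖ ≥ 4 η` and `K ≤ 1/(4 M η^2)` (`fejK_le_far`); hence
`∑_{j ∈ J} K (ee (θ - j/M)) ≥ M - M / (4 M η^2)`. Sum over the `i` in the set and divide by `M`.
(`|sin (π s)| ≥ 2 |s|` for `|s| ≤ 1/2`.)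
-/

set_option autoImplicit false

namespace Pool.Agent.LogCh

open Real
open Pool.Agent.NSqP

private lemma dw_ee_nat (x : ℝ) (n : ℕ) : ee x ^ n = ee (n * x) := by
  unfold ee
  rw [← Complex.exp_nat_mul]
  congr 1
  push_cast
  ring

private lemma dw_ee_zpow (x : ℝ) (m : ℤ) : ee x ^ m = ee (m * x) := by
  unfold ee
  rw [← Complex.exp_int_mul]
  congr 1
  push_cast
  ring

private lemma dw_far (x η : ℝ) (h : ∀ n : ℤ, η ≤ |x - n|) : 4 * η ≤ ‖ee x - 1‖ := by
  have h1 : ee x = ee (x - round x) := by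
    have := ee_add_int (x - round x) (round x)
    rw [sub_add_cancel] at this
    exact this
  have h2 : |x - round x| ≤ 1 / 2 := abs_sub_round x
  have h3 := h (round x)
  set s := x - round x with hs
  have h4 : ‖ee s - 1‖ = ‖2 * Real.sin (2 * π * s / 2)‖ := by
    rw [ee_eq, mul_comm]
    exact Complex.norm_exp_I_mul_ofReal_sub_one (2 * π * s)
  rw [h1, h4, Real.norm_eq_abs, abs_mul, abs_two]
  have h5 : |Real.sin (2 * π * s / 2)| = Real.sin (π * |s|) := by
    rw [show 2 * π * s / 2 = π * s by ring]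
    rcases abs_cases s with ⟨ha, hb⟩ | ⟨ha, hb⟩
    · rw [ha, abs_of_nonneg]
      apply Real.sin_nonneg_of_nonneg_of_le_pi
      · positivity
      · rw [ha] at h2
        nlinarith [Real.pi_pos]
    · rw [ha, mul_neg, Real.sin_neg, abs_of_nonpos]
      have : 0 ≤ Real.sin (π * (-s)) := by
        apply Real.sin_nonneg_of_nonneg_of_le_pi
        · have : 0 ≤ -s := by linarith
          positivity
        · rw [ha] at h2
          nlinarith [Real.pi_pos]
      rw [mul_neg, Real.sin_neg] at this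
      linarith
  have h6 : 2 * |s| ≤ Real.sin (π * |s|) := by
    have := Real.mul_le_sin (x := π * |s|) (by positivity) (by nlinarith [Real.pi_pos])
    refine le_trans (le_of_eq ?_) this
    field_simp
  rw [h5]
  linarith

private lemma dw_orth (M : ℕ) (hM : 1 ≤ M) (m : ℤ) (hm0 : m ≠ 0) (hm : |m| < M) :
    ∑ j ∈ Finset.range M, ee (-(m * (j / M : ℝ))) = 0 := by
  have hM' : (M : ℝ) ≠ 0 := by exact_mod_cast (by omega : M ≠ 0)
  have h1 : ∀ j ∈ Finset.range M, ee (-(m * (j / M : ℝ))) = (ee (-(m / M : ℝ))) ^ j := by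
    intro j _
    rw [dw_ee_nat]
    congr 1
    ring
  rw [Finset.sum_congr rfl h1]
  have hne : ee (-(m / M : ℝ)) ≠ 1 := by
    have := dw_far (-(m / M : ℝ)) (1 / M) (by
      intro n
      have h2 : -(m / M : ℝ) - n = -(((m + n * M : ℤ) : ℝ) / M) := by
        push_cast
        field_simp
        ring
      rw [h2, abs_neg, abs_div, Nat.abs_cast]
      have h3 : (1 : ℝ) ≤ |((m + n * M : ℤ) : ℝ)| := by
        rw [← Int.cast_abs]
        have h4 : 1 ≤ |m + n * M| := by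
          refine Int.one_le_abs ?_
          intro h0
          rcases eq_or_ne n 0 with rfl | hn
          · simp at h0; exact hm0 h0
          · have h5 : |m| = |n| * M := by
              rw [show m = -(n * M) by linarith, abs_neg, abs_mul, Nat.abs_cast]
            have h6 : 1 ≤ |n| := Int.one_le_abs hn
            nlinarith [abs_nonneg m]
        exact_mod_cast h4
      gcongr)
    intro h0
    rw [h0, sub_self, norm_zero] at this
    have : (0 : ℝ) < 1 / M := by positivity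
    linarith
  rw [geom_sum_eq hne, dw_ee_nat]
  have h7 : ee ((M : ℕ) * (-(m / M : ℝ))) = 1 := by
    rw [show ((M : ℕ) * (-(m / M : ℝ)) : ℝ) = ((-m : ℤ) : ℝ) by push_cast; field_simp]
    exact ee_int _
  rw [h7]
  simp

private lemma dw_total (M : ℕ) (hM : 1 ≤ M) (θ : ℝ) :
    ∑ j ∈ Finset.range M, fejK M (ee (θ - j / M)) = M := by
  have h1 : ((∑ j ∈ Finset.range M, fejK M (ee (θ - j / M)) : ℝ) : ℂ) = M := by
    rw [Complex.ofReal_sum]
    have h2 : ∀ j ∈ Finset.range M, ((fejK M (ee (θ - j / M)) : ℝ) : ℂ) =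
        ∑ m ∈ fr M, ((1 - |(m : ℝ)| / M : ℝ) : ℂ) * ee (m * θ) * ee (-(m * (j / M : ℝ))) := by
      intro j _
      rw [← fejK_eq M hM (norm_ee _)]
      refine Finset.sum_congr rfl fun m _ => ?_
      rw [mul_assoc, ← ee_add, dw_ee_zpow]
      congr 2
      ring
    rw [Finset.sum_congr rfl h2, Finset.sum_comm]
    have h3 : ∀ m ∈ fr M, ∑ j ∈ Finset.range M,
        ((1 - |(m : ℝ)| / M : ℝ) : ℂ) * ee (m * θ) * ee (-(m * (j / M : ℝ))) =
        if m = 0 then (M : ℂ) else 0 := by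
      intro m hm
      rw [← Finset.mul_sum]
      split_ifs with h0
      · subst h0
        simp [ee_zero]
      · rw [dw_orth M hM m h0 (mem_fr.1 hm), mul_zero]
    rw [Finset.sum_congr rfl h3, Finset.sum_ite_eq' (fr M) 0, if_pos]
    rw [mem_fr, abs_zero]
    exact_mod_cast hM
  exact_mod_cast h1

private lemma dw_fr_card (M : ℕ) : (fr M).card ≤ 2 * M := by
  have h : fr M ⊆ Finset.Ioo (-(M : ℤ)) M := by
    intro m hm
    rw [mem_fr, abs_lt] at hm
    exact Finset.mem_Ioo.2 hm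
  refine (Finset.card_le_card h).trans ?_
  rw [Int.card_Ioo]
  omega

private lemma dw_upper {ι : Type} (Z : Finset ι) (θ : ι → ℝ) (M : ℕ) (hM : 1 ≤ M)
    (Δ : ℝ) (hΔ0 : 0 ≤ Δ)
    (hΔ : ∀ m : ℤ, m ≠ 0 → |m| < M → ‖∑ i ∈ Z, ee (m * θ i)‖ ≤ Δ) (y : ℝ) :
    ∑ i ∈ Z, fejK M (ee (θ i - y)) ≤ Z.card + 2 * M * Δ := by
  have h1 : ((∑ i ∈ Z, fejK M (ee (θ i - y)) : ℝ) : ℂ) =
      ∑ m ∈ fr M, ((1 - |(m : ℝ)| / M : ℝ) : ℂ) * ee (-(m * y)) * ∑ i ∈ Z, ee (m * θ i) := by
    rw [Complex.ofReal_sum]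
    have h2 : ∀ i ∈ Z, ((fejK M (ee (θ i - y)) : ℝ) : ℂ) =
        ∑ m ∈ fr M, ((1 - |(m : ℝ)| / M : ℝ) : ℂ) * ee (-(m * y)) * ee (m * θ i) := by
      intro i _
      rw [← fejK_eq M hM (norm_ee _)]
      refine Finset.sum_congr rfl fun m _ => ?_
      rw [mul_assoc, ← ee_add, dw_ee_zpow]
      congr 2
      ring
    rw [Finset.sum_congr rfl h2, Finset.sum_comm]
    refine Finset.sum_congr rfl fun m _ => ?_
    rw [Finset.mul_sum]
  have h0 : 0 ≤ ∑ i ∈ Z, fejK M (ee (θ i - y)) := Finset.sum_nonneg fun i _ => fejK_nonneg _ _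
  have h3 : ∑ i ∈ Z, fejK M (ee (θ i - y)) = ‖((∑ i ∈ Z, fejK M (ee (θ i - y)) : ℝ) : ℂ)‖ := by
    rw [Complex.norm_real, Real.norm_eq_abs, abs_of_nonneg h0]
  rw [h3, h1]
  refine (norm_sum_le _ _).trans ?_
  have hM' : (0 : ℝ) < M := by exact_mod_cast hM
  have h4 : ∀ m ∈ fr M, ‖((1 - |(m : ℝ)| / M : ℝ) : ℂ) * ee (-(m * y)) * ∑ i ∈ Z, ee (m * θ i)‖ ≤
      (if m = 0 then (Z.card : ℝ) else 0) + Δ := by
    intro m hm
    rw [mem_fr] at hm
    rw [norm_mul, norm_mul, norm_ee, mul_one, Complex.norm_real, Real.norm_eq_abs]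
    split_ifs with h0
    · subst h0
      have e1 : |(1 - |((0 : ℤ) : ℝ)| / M)| = 1 := by simp
      have e2 : ∑ i ∈ Z, ee (((0 : ℤ) : ℝ) * θ i) = Z.card := by
        rw [Finset.sum_congr rfl (g := fun _ => (1 : ℂ))]
        · simp
        · intro i _
          rw [Int.cast_zero, zero_mul, ee_zero]
      rw [e1, e2, one_mul]
      have e3 : ‖((Z.card : ℕ) : ℂ)‖ = (Z.card : ℝ) := Complex.norm_natCast _
      rw [e3]
      linarith
    · rw [zero_add]
      have h5 : |(1 - |(m : ℝ)| / M)| ≤ 1 := by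
        have h6 : |(m : ℝ)| / M ≤ 1 := by
          rw [div_le_one hM', ← Int.cast_abs]
          exact_mod_cast hm.le
        have h7 : 0 ≤ |(m : ℝ)| / M := by positivity
        rw [abs_le]
        constructor <;> linarith
      calc |(1 - |(m : ℝ)| / M)| * ‖∑ i ∈ Z, ee (m * θ i)‖ ≤ 1 * Δ := by
            gcongr
            exact hΔ m h0 hm
        _ = Δ := one_mul _
  refine (Finset.sum_le_sum h4).trans ?_
  rw [Finset.sum_add_distrib, Finset.sum_ite_eq' (fr M) 0, Finset.sum_const, nsmul_eq_mul]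
  have h8 : ((fr M).card : ℝ) ≤ 2 * M := by exact_mod_cast dw_fr_card M
  have h9 : ((fr M).card : ℝ) * Δ ≤ 2 * M * Δ := mul_le_mul_of_nonneg_right h8 hΔ0
  have h10 : (0 : ℝ) ≤ (Z.card : ℝ) := Nat.cast_nonneg _
  by_cases h0 : (0 : ℤ) ∈ fr M
  · rw [if_pos h0]
    linarith
  · rw [if_neg h0]
    linarith

open Classical in
theorem WEYL {ι : Type} (Z : Finset ι) (θ : ι → ℝ) (M : ℕ) (hM : 1 ≤ M) (η : ℝ) (hη : 0 < η)
    (Δ : ℝ) (hΔ0 : 0 ≤ Δ) (hΔ : ∀ m : ℤ, m ≠ 0 → |m| < M → ‖∑ i ∈ Z, ee (m * θ i)‖ ≤ Δ) (α β : ℝ) (hαβ : α ≤ β) :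
    ((Z.filter (fun i => ∃ k : ℤ, α < θ i + k ∧ θ i + k ≤ β)).card : ℝ) *
      (1 - 1 / (4 * M * η ^ 2)) ≤ (β - α + 2 * η + 1 / M) * (Z.card + 2 * M * Δ) := by
  have hM' : (0 : ℝ) < M := by exact_mod_cast hM
  set A := Z.filter (fun i => ∃ k : ℤ, α < θ i + k ∧ θ i + k ≤ β) with hA
  set J := (Finset.range M).filter
    (fun j : ℕ => ∃ k : ℤ, α - η < (j : ℝ) / M + k ∧ (j : ℝ) / M + k ≤ β + η) with hJ
  -- the size of `J`
  have hJc : (J.card : ℝ) ≤ M * (β - α + 2 * η) + 1 := by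
    have hch : ∀ j ∈ J, ∃ k : ℤ, α - η < (j : ℝ) / M + k ∧ (j : ℝ) / M + k ≤ β + η :=
      fun j hj => (Finset.mem_filter.1 hj).2
    choose! k hk using hch
    have h1 : J.card ≤ (Finset.Ioc ⌊M * (α - η)⌋ ⌊M * (β + η)⌋).card := by
      refine Finset.card_le_card_of_injOn (fun j => (j : ℤ) + k j * M) ?_ ?_
      · intro j hj
        obtain ⟨h2, h3⟩ := hk j hj
        simp only [Finset.coe_Ioc, Set.mem_Ioc]
        have e : (M : ℝ) * ((j : ℝ) / M + k j) = (((j : ℤ) + k j * M : ℤ) : ℝ) := by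
          push_cast
          field_simp
        constructor
        · rw [Int.floor_lt, ← e]
          gcongr
        · rw [Int.le_floor, ← e]
          gcongr
      · intro i hi j hj hij
        have hi' : i < M := Finset.mem_range.1 (Finset.mem_filter.1 hi).1
        have hj' : j < M := Finset.mem_range.1 (Finset.mem_filter.1 hj).1
        simp only at hij
        have h4 : ((i : ℤ) + k i * M) % M = ((j : ℤ) + k j * M) % M := by rw [hij]
        rw [Int.add_mul_emod_self_right, Int.add_mul_emod_self_right,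
          Int.emod_eq_of_lt (by omega) (by omega), Int.emod_eq_of_lt (by omega) (by omega)] at h4
        exact_mod_cast h4
    have h5 : ((Finset.Ioc ⌊M * (α - η)⌋ ⌊M * (β + η)⌋).card : ℝ) ≤ M * (β - α + 2 * η) + 1 := by
      rw [Int.card_Ioc]
      have h6 : ⌊M * (α - η)⌋ ≤ ⌊M * (β + η)⌋ := by
        apply Int.floor_le_floor
        have : α - η ≤ β + η := by linarith
        gcongr
      have h7 : (((⌊M * (β + η)⌋ - ⌊M * (α - η)⌋).toNat : ℕ) : ℝ) =
          (⌊M * (β + η)⌋ : ℝ) - ⌊M * (α - η)⌋ := by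
        have : (((⌊M * (β + η)⌋ - ⌊M * (α - η)⌋).toNat : ℕ) : ℤ) =
          ⌊M * (β + η)⌋ - ⌊M * (α - η)⌋ := Int.toNat_of_nonneg (by linarith)
        exact_mod_cast this
      rw [h7]
      have h8 := Int.floor_le ((M : ℝ) * (β + η))
      have h9 := Int.lt_floor_add_one ((M : ℝ) * (α - η))
      linarith
    exact (by exact_mod_cast h1 : (J.card : ℝ) ≤ ((Finset.Ioc ⌊M * (α - η)⌋
      ⌊M * (β + η)⌋).card : ℝ)).trans h5
  -- lower bound for every point of `A`
  have hlow : ∀ i ∈ A, M * (1 - 1 / (4 * M * η ^ 2)) ≤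
      ∑ j ∈ J, fejK M (ee (θ i - j / M)) := by
    intro i hi
    obtain ⟨-, k, hk1, hk2⟩ := Finset.mem_filter.1 hi
    have htot := dw_total M hM (θ i)
    rw [← Finset.sum_filter_add_sum_filter_not (Finset.range M)
      (fun j : ℕ => ∃ k : ℤ, α - η < (j : ℝ) / M + k ∧ (j : ℝ) / M + k ≤ β + η), ← hJ] at htot
    have hfar : ∀ j ∈ (Finset.range M).filter (fun j : ℕ => ¬ ∃ k : ℤ, α - η < (j : ℝ) / M + k ∧
        (j : ℝ) / M + k ≤ β + η), fejK M (ee (θ i - j / M)) ≤ 1 / (4 * M * η ^ 2) := by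
      intro j hj
      obtain ⟨-, hj2⟩ := Finset.mem_filter.1 hj
      have h1 : 4 * η ≤ ‖ee (θ i - j / M) - 1‖ := by
        apply dw_far
        intro n
        by_contra hcon
        push Not at hcon
        rw [abs_lt] at hcon
        apply hj2
        refine ⟨n + k, ?_, ?_⟩
        · push_cast
          linarith [hcon.1, hcon.2]
        · push_cast
          linarith [hcon.1, hcon.2]
      have hne : ee (θ i - j / M) ≠ 1 := by
        intro h0
        rw [h0, sub_self, norm_zero] at h1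
        linarith
      refine (fejK_le_far M (norm_ee _) hne).trans ?_
      have h2 : (4 * η) ^ 2 ≤ ‖ee (θ i - j / M) - 1‖ ^ 2 :=
        pow_le_pow_left₀ (by positivity) h1 2
      calc 4 / (M * ‖ee (θ i - j / M) - 1‖ ^ 2) ≤ 4 / (M * (4 * η) ^ 2) := by gcongr
        _ = 1 / (4 * M * η ^ 2) := by field_simp
    have hsum := Finset.sum_le_sum hfar
    rw [Finset.sum_const, nsmul_eq_mul] at hsum
    have hc : (((Finset.range M).filter (fun j : ℕ => ¬ ∃ k : ℤ, α - η < (j : ℝ) / M + k ∧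
        (j : ℝ) / M + k ≤ β + η)).card : ℝ) ≤ M := by
      have := Finset.card_filter_le (Finset.range M) (fun j : ℕ => ¬ ∃ k : ℤ, α - η < (j : ℝ) / M + k ∧
        (j : ℝ) / M + k ≤ β + η)
      rw [Finset.card_range] at this
      exact_mod_cast this
    have hpos : 0 ≤ 1 / (4 * M * η ^ 2) := by positivity
    nlinarith [mul_le_mul_of_nonneg_right hc hpos]
  have h1 : A.card * (M * (1 - 1 / (4 * M * η ^ 2))) ≤
      ∑ i ∈ A, ∑ j ∈ J, fejK M (ee (θ i - j / M)) := by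
    have := Finset.sum_le_sum hlow
    rw [Finset.sum_const, nsmul_eq_mul] at this
    exact this
  have h2 : ∑ i ∈ A, ∑ j ∈ J, fejK M (ee (θ i - j / M)) ≤
      J.card * (Z.card + 2 * M * Δ) := by
    rw [Finset.sum_comm]
    have h3 : ∀ j ∈ J, ∑ i ∈ A, fejK M (ee (θ i - j / M)) ≤ Z.card + 2 * M * Δ := by
      intro j _
      refine le_trans ?_ (dw_upper Z θ M hM Δ hΔ0 hΔ (j / M))
      exact Finset.sum_le_sum_of_subset_of_nonneg (Finset.filter_subset _ _)
        fun i _ _ => fejK_nonneg _ _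
    have := Finset.sum_le_sum h3
    rw [Finset.sum_const, nsmul_eq_mul] at this
    exact this
  have h4 : (J.card : ℝ) * (Z.card + 2 * M * Δ) ≤
      (M * (β - α + 2 * η) + 1) * (Z.card + 2 * M * Δ) := by
    have : 0 ≤ (Z.card : ℝ) + 2 * M * Δ := by positivity
    gcongr
  have h5 := (h1.trans h2).trans h4
  have h6 : (M * (β - α + 2 * η) + 1) * (Z.card + 2 * M * Δ) =
      M * ((β - α + 2 * η + 1 / M) * (Z.card + 2 * M * Δ)) := by
    field_simp
  rw [h6, show (A.card : ℝ) * (M * (1 - 1 / (4 * M * η ^ 2))) =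
    M * (A.card * (1 - 1 / (4 * M * η ^ 2))) by ring] at h5
  exact le_of_mul_le_mul_left h5 hM'

end Pool.Agent.LogCh
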