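import Pool.Agent.Lib.LogCh.DES
import Pool.Agent.Lib.LogCh.DWeyl
import Pool.Agent.Lib.NSqP.LC

/-!
# PCC: the pairs of determinant one in a class are equidistributed

PROOF. `τ z` = a choice of `w` (`exists_W`), `θ z = <z, τ z> / (q N z)`. By `W_unique`, `IsW_shift` and
`dot_shift`: `Win q w0 α β z` iff there is an integer `k` with `α < θ z + k ≤ β`.
Upper bound: `WEYL` with `η` and `M` fixed in terms of `ε`, and `Δ = δ Y` from `ESUM` (finitely many
`m`, `0 < |m| < M`, a common `Y0`), `#Z ≤ C Y` (`NSqP.card_ann_le`).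
Lower bound: for `β ≤ α + 1` exactly one of the two intervals `(α, β]`, `(β, α + 1]` contains
a translate `θ z + k`, so the count is `#Z` minus the count for `(β, α + 1]`, to which the upper bound
applies.
-/

set_option autoImplicit false

namespace Pool.Agent.LogCh

open Real
open Pool.Agent.NSqP
open Pool.Agent.MP484c84Par (ballG mem_ballG crossG dotG norm_def' norm_pos')

lemma pcc_cross {q : ℕ} {z z0 w0 : GaussianInt} (h : (q : ℤ) ∣ crossG z0 w0 - 1)
    (hz : (q : GaussianInt) ∣ z - z0) : (q : ℤ) ∣ crossG z w0 - 1 := by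
  rw [dvdGn] at hz
  obtain ⟨⟨a, ha⟩, ⟨b, hb⟩⟩ := hz
  obtain ⟨c, hc⟩ := h
  refine ⟨c + a * w0.im - b * w0.re, ?_⟩
  simp only [crossG, Zsqrtd.re_sub, Zsqrtd.im_sub] at ha hb hc ⊢
  linear_combination hc + w0.im * ha - w0.re * hb

/-- `Win` in terms of the phase of one representative -/
lemma pcc_win {q : ℕ} (hq : 1 ≤ q) {z w0 w : GaussianInt} (h : IsW q w0 z w) (α β : ℝ) :
    Win q w0 α β z ↔ ∃ k : ℤ, α < (dotG z w : ℝ) / (q * nN z) + k ∧
      (dotG z w : ℝ) / (q * nN z) + k ≤ β := by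
  have hz : z ≠ 0 := prim_ne_zero (prim_of_cross h.1)
  have hn : (0 : ℝ) < nN z := by exact_mod_cast nN_pos hz
  have hq0 : (0 : ℝ) < q := by exact_mod_cast hq
  have hD : (0 : ℝ) < q * nN z := mul_pos hq0 hn
  have hsh : ∀ k : ℤ, (dotG z (w + ((q * k : ℤ) : GaussianInt) * z) : ℝ) =
      ((dotG z w : ℝ) / (q * nN z) + k) * (q * nN z) := by
    intro k
    rw [dot_shift]
    push_cast
    rw [add_mul, div_mul_cancel₀ _ hD.ne']
    ring
  constructor
  · rintro ⟨w', hw', h1, h2⟩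
    obtain ⟨k, hk⟩ := W_unique h hw'
    refine ⟨k, ?_, ?_⟩
    · rw [hk, hsh k] at h1
      exact lt_of_mul_lt_mul_right h1 hD.le
    · rw [hk, hsh k] at h2
      exact le_of_mul_le_mul_right h2 hD
  · rintro ⟨k, h1, h2⟩
    refine ⟨w + ((q * k : ℤ) : GaussianInt) * z, IsW_shift h k, ?_, ?_⟩
    · rw [hsh k]
      exact mul_lt_mul_of_pos_right h1 hD
    · rw [hsh k]
      exact mul_le_mul_of_nonneg_right h2 hD.le

open Classical in
/-- the upper bound -/
lemma pcc_upper (q : ℕ) (hq : 1 ≤ q) (ε : ℝ) (hε : 0 < ε) : ∃ Y0 : ℝ, 0 ≤ Y0 ∧ ∀ Y : ℝ, Y0 ≤ Y →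
    ∀ z0 w0 : GaussianInt, (q : ℤ) ∣ crossG z0 w0 - 1 → ∀ a b : ℝ, 0 ≤ a → a ≤ b → b ≤ Y →
    ∀ α β : ℝ, α ≤ β → β ≤ α + 1 →
    (((pann a b).filter (fun z => (q : GaussianInt) ∣ z - z0 ∧ Win q w0 α β z)).card : ℝ) ≤
      (β - α) * ((pann a b).filter (fun z => (q : GaussianInt) ∣ z - z0)).card + ε * Y := by
  obtain ⟨C, hC, hcard⟩ := card_ann_le
  -- parameters
  set η : ℝ := min 1 (ε / (8 * C)) with hη
  have hη0 : 0 < η := lt_min one_pos (by positivity)
  have hη1 : η ≤ 1 := min_le_left _ _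
  have hηC : 2 * η * C ≤ ε / 4 := by
    have : η ≤ ε / (8 * C) := min_le_right _ _
    rw [le_div_iff₀ (by positivity)] at this
    nlinarith
  obtain ⟨M0, hM0⟩ := exists_nat_gt (max (4 * C / ε) (C / (η ^ 2 * ε)))
  set M : ℕ := max M0 1 with hM
  have hM1 : 1 ≤ M := le_max_right _ _
  have hMr : (1 : ℝ) ≤ M := by exact_mod_cast hM1
  have hMpos : (0 : ℝ) < M := by linarith
  have hM0' : (M0 : ℝ) ≤ M := by exact_mod_cast le_max_left M0 1
  have hMa : C / M ≤ ε / 4 := by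
    have h1 : 4 * C / ε ≤ M := (le_max_left _ _).trans (hM0.le.trans hM0')
    rw [div_le_iff₀ hε] at h1
    rw [div_le_iff₀ hMpos]
    nlinarith
  have hMb : C / (4 * M * η ^ 2) ≤ ε / 4 := by
    have h1 : C / (η ^ 2 * ε) ≤ M := (le_max_right _ _).trans (hM0.le.trans hM0')
    rw [div_le_iff₀ (by positivity)] at h1
    rw [div_le_iff₀ (by positivity)]
    nlinarith
  set δ : ℝ := ε / (32 * M) with hδ
  have hδ0 : 0 < δ := by positivity
  choose! Y1 hY1 using fun m (hm : m ≠ 0) => ESUM q hq m hm δ hδ0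
  set Y0 : ℝ := ∑ m ∈ Finset.Ioo (-(M : ℤ)) M, |Y1 m| with hY0
  have hY00 : 0 ≤ Y0 := Finset.sum_nonneg fun m _ => abs_nonneg _
  have hY0m : ∀ m : ℤ, |m| < M → Y1 m ≤ Y0 := by
    intro m hm
    have h1 : m ∈ Finset.Ioo (-(M : ℤ)) M := by
      rw [Finset.mem_Ioo]; exact abs_lt.1 hm
    exact (le_abs_self _).trans (Finset.single_le_sum (f := fun m => |Y1 m|)
      (fun m _ => abs_nonneg _) h1)
  refine ⟨Y0, hY00, fun Y hY z0 w0 hcr a b ha hab hbY α β hαβ hβα => ?_⟩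
  have hYnn : 0 ≤ Y := hY00.trans hY
  set Z := (pann a b).filter (fun z => (q : GaussianInt) ∣ z - z0) with hZ
  -- representatives
  set τ : GaussianInt → GaussianInt := fun z =>
    if h : ∃ w, IsW q w0 z w then h.choose else 0 with hτ
  have hτW : ∀ z, Prim z → (q : GaussianInt) ∣ z - z0 → IsW q w0 z (τ z) := by
    intro z hz hzz
    have h := exists_W hz (pcc_cross hcr hzz)
    simp only [hτ]
    rw [dif_pos h]
    exact h.choose_spec
  have hprim : ∀ z ∈ pann a b, Prim z := by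
    intro z hz
    exact ((mem_pann (ha.trans hab)).1 hz).2
  set θ : GaussianInt → ℝ := fun z => (dotG z (τ z) : ℝ) / (q * nN z) with hθ
  have hcnt : ((pann a b).filter (fun z => (q : GaussianInt) ∣ z - z0 ∧ Win q w0 α β z)) =
      Z.filter (fun z => ∃ k : ℤ, α < θ z + k ∧ θ z + k ≤ β) := by
    rw [hZ, Finset.filter_filter]
    apply Finset.filter_congr
    intro z hz
    constructor
    · rintro ⟨h1, h2⟩
      exact ⟨h1, (pcc_win hq (hτW z (hprim z hz) h1) α β).1 h2⟩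
    · rintro ⟨h1, h2⟩
      exact ⟨h1, (pcc_win hq (hτW z (hprim z hz) h1) α β).2 h2⟩
  rw [hcnt]
  have hsum : ∀ m : ℤ, m ≠ 0 → |m| < M → ‖∑ z ∈ Z, ee (m * θ z)‖ ≤ δ * Y := by
    intro m hm hmM
    have h1 := hY1 m hm Y ((hY0m m hmM).trans hY) z0 w0 hcr a b ha hab hbY τ hτW
    have h2 : ∀ z ∈ Z, ee (m * θ z) = ee (m * dotG z (τ z) / (q * nN z)) := by
      intro z _
      rw [hθ]
      congr 1
      ring
    rw [Finset.sum_congr rfl h2]
    exact h1
  have hW := WEYL Z θ M hM1 η hη0 (δ * Y) (by positivity) hsum α β hαβ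
  set N : ℝ := ((Z.filter (fun z => ∃ k : ℤ, α < θ z + k ∧ θ z + k ≤ β)).card : ℝ) with hN
  have hNZ : N ≤ Z.card := by
    rw [hN]
    exact_mod_cast Finset.card_filter_le _ _
  have hN0 : 0 ≤ N := Nat.cast_nonneg _
  have hZC : (Z.card : ℝ) ≤ C * Y := by
    have h1 : Z ⊆ ann 0 b := by
      intro z hz
      have h2 := (Finset.mem_filter.1 hz).1
      have h3 := (mem_pann (ha.trans hab)).1 h2
      rw [mem_ann (ha.trans hab)]
      exact ⟨ha.trans_lt h3.1.1, h3.1.2⟩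
    have h2 : (Z.card : ℝ) ≤ (ann 0 b).card := by exact_mod_cast Finset.card_le_card h1
    exact h2.trans ((hcard b (ha.trans hab)).trans (mul_le_mul_of_nonneg_left hbY hC.le))
  have hZ0 : (0 : ℝ) ≤ Z.card := Nat.cast_nonneg _
  -- the four error terms
  have e1 : N * (1 / (4 * M * η ^ 2)) ≤ ε / 4 * Y := by
    calc N * (1 / (4 * M * η ^ 2)) ≤ (C * Y) * (1 / (4 * M * η ^ 2)) :=
          mul_le_mul_of_nonneg_right (hNZ.trans hZC) (by positivity)
      _ = C / (4 * M * η ^ 2) * Y := by ring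
      _ ≤ ε / 4 * Y := mul_le_mul_of_nonneg_right hMb hYnn
  have e2 : 2 * η * (Z.card : ℝ) ≤ ε / 4 * Y := by
    calc 2 * η * (Z.card : ℝ) ≤ 2 * η * (C * Y) := mul_le_mul_of_nonneg_left hZC (by positivity)
      _ = 2 * η * C * Y := by ring
      _ ≤ ε / 4 * Y := mul_le_mul_of_nonneg_right hηC hYnn
  have e3 : 1 / M * (Z.card : ℝ) ≤ ε / 4 * Y := by
    calc 1 / M * (Z.card : ℝ) ≤ 1 / M * (C * Y) := mul_le_mul_of_nonneg_left hZC (by positivity)
      _ = C / M * Y := by ring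
      _ ≤ ε / 4 * Y := mul_le_mul_of_nonneg_right hMa hYnn
  have e4 : (β - α + 2 * η + 1 / M) * (2 * M * (δ * Y)) ≤ ε / 4 * Y := by
    have h1 : β - α + 2 * η + 1 / M ≤ 4 := by
      have : (1 : ℝ) / M ≤ 1 := by
        rw [div_le_one hMpos]; exact hMr
      linarith
    have h2 : 2 * M * (δ * Y) = ε / 16 * Y := by
      rw [hδ]; field_simp; ring
    rw [h2]
    have h3 : 0 ≤ ε / 16 * Y := by positivity
    nlinarith
  nlinarith [hW, e1, e2, e3, e4]

open Classical in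
theorem PCC (q : ℕ) (hq : 1 ≤ q) (ε : ℝ) (hε : 0 < ε) : ∃ Y0 : ℝ, ∀ Y : ℝ, Y0 ≤ Y →
    ∀ z0 w0 : GaussianInt, (q : ℤ) ∣ crossG z0 w0 - 1 → ∀ a b : ℝ, 0 ≤ a → a ≤ b → b ≤ Y →
    ∀ α β : ℝ, α ≤ β → β ≤ α + 1 →
    |(((pann a b).filter (fun z => (q : GaussianInt) ∣ z - z0 ∧ Win q w0 α β z)).card : ℝ) -
      (β - α) * ((pann a b).filter (fun z => (q : GaussianInt) ∣ z - z0)).card| ≤ ε * Y := by
  obtain ⟨Y0, hY0, hup⟩ := pcc_upper q hq ε hε
  refine ⟨Y0, fun Y hY z0 w0 hcr a b ha hab hbY α β hαβ hβα => ?_⟩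
  have h1 := hup Y hY z0 w0 hcr a b ha hab hbY α β hαβ hβα
  have h2 := hup Y hY z0 w0 hcr a b ha hab hbY β (α + 1) hβα (by linarith)
  have h3 : ((pann a b).filter (fun z => (q : GaussianInt) ∣ z - z0)).card ≤
      ((pann a b).filter (fun z => (q : GaussianInt) ∣ z - z0 ∧ Win q w0 α β z)).card +
      ((pann a b).filter (fun z => (q : GaussianInt) ∣ z - z0 ∧ Win q w0 β (α + 1) z)).card := by
    refine (Finset.card_le_card ?_).trans (Finset.card_union_le _ _)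
    intro z hz
    rw [Finset.mem_filter] at hz
    obtain ⟨hz1, hz2⟩ := hz
    have hzp : Prim z := ((mem_pann (ha.trans hab)).1 hz1).2
    obtain ⟨w, hw⟩ := exists_W hzp (pcc_cross hcr hz2)
    rw [Finset.mem_union, Finset.mem_filter, Finset.mem_filter, pcc_win hq hw, pcc_win hq hw]
    set θ : ℝ := (dotG z w : ℝ) / (q * nN z) with hθ
    have h4 := Int.lt_floor_add_one (α - θ)
    have h5 := Int.floor_le (α - θ)
    by_cases h6 : θ + ((⌊α - θ⌋ + 1 : ℤ) : ℝ) ≤ β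
    · left
      refine ⟨hz1, hz2, ⌊α - θ⌋ + 1, ?_, h6⟩
      push_cast
      linarith
    · right
      refine ⟨hz1, hz2, ⌊α - θ⌋ + 1, not_le.1 h6, ?_⟩
      push_cast
      linarith
  have h4 : (((pann a b).filter (fun z => (q : GaussianInt) ∣ z - z0)).card : ℝ) ≤
      ((pann a b).filter (fun z => (q : GaussianInt) ∣ z - z0 ∧ Win q w0 α β z)).card +
      ((pann a b).filter (fun z => (q : GaussianInt) ∣ z - z0 ∧ Win q w0 β (α + 1) z)).card := by
    exact_mod_cast h3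
  rw [abs_le]
  constructor
  · nlinarith
  · linarith

end Pool.Agent.LogCh
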