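import Pool.Agent.Lib.LogCh.DInner

/-!
# SLICE: the sum over the `z` with a fixed first coordinate `x`

PROOF. The set of integers `y` with `(x + t y)^2 + y^2 ≤ b` is an interval `Ico u v` of integers (the
quadratic polynomial is convex), contained in `[-√b, √b]`, so `v - u ≤ 2 √b + 1` (or it is empty).
For `x > 0` the claim is `INNER` with `x.natAbs`; for `x < 0` use `INNER` with `x.natAbs` and `- m`
(`m c / (q x) = (-m) c / (q |x|)`; divisibility by `x` and by `|x|` is the same).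
-/

set_option autoImplicit false

namespace Pool.Agent.LogCh

open Real

/-- the `y` with `N (x e1 + y e2) ≤ b` -/
noncomputable def Ys (t : ℕ) (x : ℤ) (b : ℝ) : Finset ℤ :=
  open Classical in (Finset.Icc (-⌊√b⌋) ⌊√b⌋).filter
    (fun y : ℤ => ((x : ℝ) + t * y) ^ 2 + (y : ℝ) ^ 2 ≤ b)

private lemma Ys_interval (t : ℕ) (x : ℤ) (b : ℝ) (hne : (Ys t x b).Nonempty) :
    ∃ u w : ℤ, u ≤ w ∧ ((w : ℝ) - u) ≤ 2 * √b ∧ Ys t x b = Finset.Ico u (w + 1) := by
  classical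
  have hmem : ∀ y : ℤ, y ∈ Ys t x b ↔ (-⌊√b⌋ ≤ y ∧ y ≤ ⌊√b⌋) ∧
      ((x : ℝ) + t * y) ^ 2 + (y : ℝ) ^ 2 ≤ b := by
    intro y
    unfold Ys
    rw [Finset.mem_filter, Finset.mem_Icc]
  set u := (Ys t x b).min' hne with hu
  set w := (Ys t x b).max' hne with hw
  have hu1 := (hmem u).1 (Finset.min'_mem _ hne)
  have hw1 := (hmem w).1 (Finset.max'_mem _ hne)
  have huw : u ≤ w := Finset.min'_le _ _ (Finset.max'_mem _ hne)
  refine ⟨u, w, huw, ?_, ?_⟩
  · have h1 : (w : ℝ) ≤ ⌊√b⌋ := by exact_mod_cast hw1.1.2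
    have h2 : -(⌊√b⌋ : ℝ) ≤ u := by exact_mod_cast hu1.1.1
    have h3 : (⌊√b⌋ : ℝ) ≤ √b := Int.floor_le _
    linarith
  · ext y
    rw [Finset.mem_Ico]
    constructor
    · intro hy
      exact ⟨Finset.min'_le _ _ hy, Int.lt_add_one_iff.2 (Finset.le_max' _ _ hy)⟩
    · rintro ⟨h1, h2⟩
      have h2' : y ≤ w := Int.lt_add_one_iff.1 h2
      rw [hmem]
      refine ⟨⟨hu1.1.1.trans h1, h2'.trans hw1.1.2⟩, ?_⟩
      rcases huw.eq_or_lt with he | hlt
      · have : y = u := le_antisymm (h2'.trans he.symm.le) h1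
        rw [this]
        exact hu1.2
      · have g1 : (u : ℝ) ≤ y := by exact_mod_cast h1
        have g2 : (y : ℝ) ≤ w := by exact_mod_cast h2'
        have g3 : (u : ℝ) < w := by exact_mod_cast hlt
        have g4 := hu1.2
        have g5 := hw1.2
        have key : ((w : ℝ) - u) * (((x : ℝ) + t * y) ^ 2 + (y : ℝ) ^ 2) ≤ ((w : ℝ) - u) * b := by
          have e1 : ((w : ℝ) - y) * (((x : ℝ) + t * u) ^ 2 + (u : ℝ) ^ 2) +
              ((y : ℝ) - u) * (((x : ℝ) + t * w) ^ 2 + (w : ℝ) ^ 2) -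
              ((w : ℝ) - u) * (((x : ℝ) + t * y) ^ 2 + (y : ℝ) ^ 2) =
              ((t : ℝ) ^ 2 + 1) * (((w : ℝ) - u) * (((w : ℝ) - y) * ((y : ℝ) - u))) := by ring
          have e2 : 0 ≤ ((t : ℝ) ^ 2 + 1) * (((w : ℝ) - u) * (((w : ℝ) - y) * ((y : ℝ) - u))) :=
            mul_nonneg (by positivity) (mul_nonneg (by linarith)
              (mul_nonneg (by linarith) (by linarith)))
          have e3 := mul_le_mul_of_nonneg_left g4 (by linarith : 0 ≤ (w : ℝ) - y)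
          have e4 := mul_le_mul_of_nonneg_left g5 (by linarith : 0 ≤ (y : ℝ) - u)
          linarith
        exact le_of_mul_le_mul_left key (by linarith)

open Classical in
theorem SLICE (q t : ℕ) (hq : 1 ≤ q) (x : ℤ) (hx : x ≠ 0) (hqx : IsCoprime x (q : ℤ)) (m : ℤ)
    (p : ℕ) (hp : p.Prime) (hpx : p ∣ x.natAbs) (hc : p.Coprime (x.natAbs / p))
    (hpm : ¬ (p : ℤ) ∣ m) (y0 c0 : ℤ)
    (cc : ℤ → ℤ) (hcc : ∀ y : ℤ, IsCoprime y x → (q : ℤ) ∣ y - y0 →
      x ∣ y * cc y + 1 ∧ (q : ℤ) ∣ cc y - c0)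
    (H : ℕ) (hH : 1 ≤ H) (hHx : H ≤ x.natAbs) (b : ℝ) (hb : 0 ≤ b) :
    ‖∑ y ∈ (Ys t x b).filter (fun y => (q : ℤ) ∣ y - y0 ∧ IsCoprime y x),
      ee (m * cc y / (q * x))‖ ≤
      ((2 * √b + 1) / q + 1) * (2 * |(x : ℝ)| * (p : ℝ) ^ (-(1 / 4) : ℝ)) / H + 2 * H := by
  have hn0 : 1 ≤ x.natAbs := Int.natAbs_pos.2 hx
  have hqr : (0 : ℝ) < q := by exact_mod_cast hq
  have hHr : (0 : ℝ) < H := by exact_mod_cast hH
  have hs0 : 0 ≤ √b := sqrt_nonneg b
  have hxabs : |(x : ℝ)| = (x.natAbs : ℝ) := by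
    rw [Nat.cast_natAbs, Int.cast_abs]
  obtain ⟨s, hs1, hs2⟩ : ∃ s : ℤ, (s = 1 ∨ s = -1) ∧ x = s * (x.natAbs : ℤ) := by
    rcases Int.natAbs_eq x with h | h
    · exact ⟨1, Or.inl rfl, by rw [one_mul]; exact h⟩
    · exact ⟨-1, Or.inr rfl, by rw [neg_one_mul]; exact h⟩
  have hss : s * s = 1 := by rcases hs1 with h | h <;> rw [h] <;> norm_num
  have hcop : ∀ y : ℤ, IsCoprime y (x.natAbs : ℤ) ↔ IsCoprime y x := by
    intro y
    rcases Int.natAbs_eq x with h | h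
    · rw [← h]
    · constructor
      · intro h2
        rw [h]
        exact h2.neg_right
      · intro h2
        rw [h] at h2
        have h3 := h2.neg_right
        rwa [neg_neg] at h3
  have hterm : ∀ y : ℤ, ee (m * cc y / (q * x)) =
      ee (((s * m : ℤ) : ℝ) * cc y / (q * (x.natAbs : ℝ))) := by
    intro y
    congr 1
    have h1 : (x : ℝ) = s * (x.natAbs : ℝ) := by
      have h : ((x : ℤ) : ℝ) = ((s * (x.natAbs : ℤ) : ℤ) : ℝ) := congrArg _ hs2
      rw [h, Int.cast_mul, Int.cast_natCast]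
    have h2 : (s : ℝ) * s = 1 := by exact_mod_cast hss
    have h3 : (x.natAbs : ℝ) ≠ 0 := by
      have : (0 : ℝ) < (x.natAbs : ℝ) := by exact_mod_cast hn0
      exact this.ne'
    have h4 : (s : ℝ) ≠ 0 := fun h => by rw [h] at h2; norm_num at h2
    conv_lhs => rw [h1]
    push_cast
    rw [div_eq_div_iff (by positivity) (by positivity)]
    linear_combination (-(m * cc y * (q * (x.natAbs : ℝ)))) * h2
  by_cases hne : (Ys t x b).Nonempty
  · obtain ⟨u, w, huw, hlen, hY⟩ := Ys_interval t x b hne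
    have h1 : ∑ y ∈ (Ys t x b).filter (fun y => (q : ℤ) ∣ y - y0 ∧ IsCoprime y x),
        ee (m * cc y / (q * x)) =
        ∑ y ∈ (Finset.Ico u (w + 1)).filter
          (fun y => (q : ℤ) ∣ y - y0 ∧ IsCoprime y (x.natAbs : ℤ)),
          ee (((s * m : ℤ) : ℝ) * cc y / (q * (x.natAbs : ℝ))) := by
      rw [hY]
      refine Finset.sum_congr ?_ (fun y _ => hterm y)
      refine Finset.filter_congr (fun y _ => ?_)
      rw [hcop]
    rw [h1]
    have hqx' : q.Coprime x.natAbs := by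
      have := (hcop q).2 hqx.symm
      exact Nat.isCoprime_iff_coprime.1 this
    have hpm' : ¬ (p : ℤ) ∣ s * m := by
      intro h
      apply hpm
      have h2 : (p : ℤ) ∣ s * (s * m) := h.mul_left s
      rwa [← mul_assoc, hss, one_mul] at h2
    have h2 := INNER q x.natAbs hq hn0 hqx' (s * m) p hp hpx hc hpm' y0 c0 cc
      (fun y hy hy2 => by
        obtain ⟨h3, h4⟩ := hcc y ((hcop y).1 hy) hy2
        exact ⟨Int.natAbs_dvd.2 h3, h4⟩) H hH hHx u (w + 1) (by omega)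
    refine h2.trans ?_
    rw [hxabs]
    have h5 : (((w + 1 : ℤ) : ℝ) - u) ≤ 2 * √b + 1 := by push_cast; linarith
    have h6 : 0 ≤ 2 * (x.natAbs : ℝ) * (p : ℝ) ^ (-(1 / 4) : ℝ) := by positivity
    gcongr
  · rw [Finset.not_nonempty_iff_eq_empty] at hne
    rw [hne]
    simp only [Finset.filter_empty, Finset.sum_empty, norm_zero]
    positivity

end Pool.Agent.LogCh
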