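import Pool.Agent.Lib.NSqP.Basic
import Pool.Agent.Lib.MP484c84Par.Edges

/-!
# Log-averaged cancellation of the Liouville function at `n ^ 2 + 1`: definitions

Pairs of primitive Gaussian integers of determinant `m`, the Farey pairs of order `N`, entropy of
functions on a finite probability space, characters modulo a natural number, arcs.
-/

set_option autoImplicit false

namespace Pool.Agent.LogCh

open Real
open Pool.Agent.NSqP
open Pool.Agent.MP484c84Par (ballG mem_ballG crossG dotG)

/-- `λ (N z)` -/
noncomputable def lam (z : GaussianInt) : ℝ := ((ArithmeticFunction.liouville (nN z) : ℤ) : ℝ)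

/-- primitive Gaussian integers of norm at most `N` -/
noncomputable def VV (N : ℕ) : Finset GaussianInt := pann 0 N

/-- consecutive pairs of primitive Gaussian integers of norm at most `N` (Farey pairs) -/
noncomputable def CP (N : ℕ) : Finset (GaussianInt × GaussianInt) :=
  (VV N ×ˢ VV N).filter (fun p => crossG p.1 p.2 = 1 ∧ N < nN (p.1 + p.2))

/-- `λ (N z)` restricted to the `z` with `a * N < N z ≤ a' * N` -/
noncomputable def fc (a a' : ℝ) (N : ℕ) (z : GaussianInt) : ℝ :=
  open Classical in if a * N < nN z ∧ (nN z : ℝ) ≤ a' * N then lam z else 0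

/-- pairs `(u, v)` of primitive elements of norm at most `N`, determinant `m`, angle less than a
right angle -/
noncomputable def dpairs (m : ℤ) (N : ℕ) : Finset (GaussianInt × GaussianInt) :=
  (VV N ×ˢ VV N).filter (fun p => crossG p.1 p.2 = m ∧ 0 < dotG p.1 p.2)

/-- the correlation over the pairs of determinant `m`, with norms in two cells -/
noncomputable def pairSum (m : ℤ) (a a' b b' : ℝ) (N : ℕ) : ℝ :=
  ∑ p ∈ dpairs m N, fc a a' N p.1 * fc b b' N p.2

/-- primes `1` modulo `4` in `(P, C P]` -/
def QQ (C P : ℕ) : Finset ℕ := (Finset.Ioc P (C * P)).filter (fun p => p.Prime ∧ p % 4 = 1)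

/-- probability that `f = a` -/
noncomputable def prb {Ω : Type} [Fintype Ω] (μ : Ω → ℝ) {α : Type} [DecidableEq α] (f : Ω → α)
    (a : α) : ℝ := ∑ ω, if f ω = a then μ ω else 0

/-- entropy of `f` -/
noncomputable def ent {Ω : Type} [Fintype Ω] (μ : Ω → ℝ) {α : Type} [DecidableEq α] (f : Ω → α) :
    ℝ := ∑ a ∈ Finset.univ.image f, Real.negMulLog (prb μ f a)

/-- characters modulo `r`, as functions on the Gaussian integers -/
structure ChiMod (r : ℕ) (χ : GaussianInt → ℂ) : Prop where
  mul : ∀ z w, χ (z * w) = χ z * χ w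
  per : ∀ z w, χ (z + (r : GaussianInt) * w) = χ z
  zero : ∀ z, ¬ IsCoprime z (r : GaussianInt) → χ z = 0
  norm : ∀ z, IsCoprime z (r : GaussianInt) → ‖χ z‖ = 1

/-- the argument as a number in `[0, 1)` -/
noncomputable def ang (z : GaussianInt) : ℝ := Int.fract (Complex.arg (z : ℂ) / (2 * π))

/-- the number of the arc of `z`, for the partition of the circle into `K` equal arcs -/
noncomputable def arcI (K : ℕ) (z : GaussianInt) : ℕ := ⌊(K : ℝ) * ang z⌋₊

end Pool.Agent.LogCh
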