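import Mathlib
import Pool.Agent.Lib.LogCh.Defs

/-!
# Group E (the kernel): definitions and the statements of the modules

Every statement `XStmt` of this file is the goal of one module, which proves `theorem X : XStmt`
(from the hypotheses `YStmt` named in its docstring).
-/

set_option autoImplicit false

namespace Pool.Agent.LogCh

open Real
open Pool.Agent.NSqP
open Pool.Agent.MP484c84Par (ballG mem_ballG crossG dotG)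

/-! ## definitions -/

/-- the pairs of `dpairs D N` with both norms larger than `a N` -/
noncomputable def lpairs (a : ℝ) (D : ℤ) (N : ℕ) : Finset (GaussianInt × GaussianInt) :=
  open Classical in (dpairs D N).filter (fun p => a * N < nN p.1 ∧ a * N < nN p.2)

/-- number of the `v` with `b N < N v ≤ b' N`, with positive scalar products with `u`, `u'` and with
both determinants in `A` -/
noncomputable def TT (A : Finset ℕ) (b b' : ℝ) (N : ℕ) (u u' : GaussianInt) : ℕ :=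
  open Classical in ((ballG N).filter (fun v => b * N < nN v ∧ (nN v : ℝ) ≤ b' * N ∧
    0 < dotG u v ∧ 0 < dotG u' v ∧ (∃ q ∈ A, crossG u v = (q : ℕ)) ∧
    (∃ q ∈ A, crossG u' v = (q : ℕ)))).card

/-- a multiplier `c` of the pair `(u, u')`: `u' ≡ c u` modulo `D` -/
noncomputable def cof (D : ℕ) (p : GaussianInt × GaussianInt) : ℤ :=
  open Classical in if h : ∃ c : ℤ, (D : GaussianInt) ∣ p.2 - (c : GaussianInt) * p.1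
    then h.choose else 0

/-- the number of `(α, β) ∈ A × A` with `c α ≡ β` modulo `D` -/
def tc (A : Finset ℕ) (D : ℕ) (c : ℤ) : ℕ :=
  ((A ×ˢ A).filter (fun x : ℕ × ℕ => (D : ℤ) ∣ c * x.1 - x.2)).card

/-- the linear form `X √(N u' / N) - Y √(N u / N)` -/
noncomputable def lf (N : ℕ) (p : GaussianInt × GaussianInt) (X Y : ℝ) : ℝ :=
  X * √((nN p.2 : ℝ) / N) - Y * √((nN p.1 : ℝ) / N)

/-- trapezoid: `0` outside `(s, t)`, `1` on `[s + w, t - w]` -/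
noncomputable def trap (s t w x : ℝ) : ℝ := max 0 (min 1 (min ((x - s) / w) ((t - x) / w)))

/-- cut-off: `0` for `x ≤ κ`, `1` for `x ≥ 2 κ` -/
noncomputable def cut (κ x : ℝ) : ℝ := max 0 (min 1 (x / κ - 1))

/-- the weight of the structured part, `l0 = X / P`, `x = D / P` -/
noncomputable def Phi (b b' κ h l0 ν ν' x : ℝ) : ℝ :=
  if x ≤ 0 then 0 else cut κ x * trap (√b) (√b') h (l0 * (√ν' - √ν) / x) / x

/-- character sum over `A` -/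
noncomputable def SA {r : ℕ} (A : Finset ℕ) (ψ : DirichletCharacter ℂ r) : ℂ :=
  ∑ α ∈ A, ψ ((α : ℕ) : ZMod r)

/-- second moment over the primitive characters modulo `r` -/
noncomputable def S2 (A : Finset ℕ) (r : ℕ) : ℝ :=
  open Classical in ∑ ψ : DirichletCharacter ℂ r, if ψ.IsPrimitive then ‖SA A ψ‖ ^ 2 else 0

/-- fourth moment over the primitive characters modulo `r` -/
noncomputable def S4 (A : Finset ℕ) (r : ℕ) : ℝ :=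
  open Classical in ∑ ψ : DirichletCharacter ℂ r, if ψ.IsPrimitive then ‖SA A ψ‖ ^ 4 else 0

/-- contribution of the primitive characters modulo `r` to the number of solutions of
`c α ≡ β` -/
noncomputable def mr (A : Finset ℕ) (r : ℕ) (c : ℤ) : ℂ :=
  open Classical in ∑ ψ : DirichletCharacter ℂ r,
    if ψ.IsPrimitive then ψ ((c : ℤ) : ZMod r) * ((‖SA A ψ‖ ^ 2 : ℝ) : ℂ) else 0

/-- the part of the conductors `≤ R0` -/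
noncomputable def MM (A : Finset ℕ) (R0 D : ℕ) (c : ℤ) : ℂ :=
  (∑ r ∈ (Finset.Icc 1 R0).filter (fun r => r ∣ D), mr A r c) / (Nat.totient D : ℂ)

/-- truncation of `D / φ(D)` -/
noncomputable def tph (R1 D : ℕ) : ℝ :=
  ∑ d ∈ (Finset.Icc 1 R1).filter (fun d => d ∣ D ∧ Squarefree d), 1 / (Nat.totient d : ℝ)

/-- `MM` with `1 / φ(D)` truncated -/
noncomputable def MT (A : Finset ℕ) (R0 R1 D : ℕ) (c : ℤ) : ℂ :=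
  ((tph R1 D / D : ℝ) : ℂ) * ∑ r ∈ (Finset.Icc 1 R0).filter (fun r => r ∣ D), mr A r c

/-- difference of the arc numbers modulo `K` -/
noncomputable def jj (K : ℕ) (p : GaussianInt × GaussianInt) : ℕ :=
  (arcI K p.2 + K - arcI K p.1) % K

/-- Lipschitz weights supported on `κ ≤ x ≤ C2` -/
structure LipW (a κ C2 L : ℝ) (Φ : ℝ → ℝ → ℝ → ℝ) : Prop where
  bd : ∀ ν ν' x, |Φ ν ν' x| ≤ L
  lo : ∀ ν ν' x, x ≤ κ → Φ ν ν' x = 0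
  hi : ∀ ν ν' x, 0 ≤ ν → 0 ≤ ν' → ν ≤ 1 → ν' ≤ 1 → C2 ≤ x → Φ ν ν' x = 0
  lip : ∀ ν ν' x ν₁ ν₁' x₁, a ≤ ν → ν ≤ 1 → a ≤ ν' → ν' ≤ 1 → a ≤ ν₁ → ν₁ ≤ 1 → a ≤ ν₁' →
    ν₁' ≤ 1 → |Φ ν ν' x - Φ ν₁ ν₁' x₁| ≤ L * (|ν - ν₁| + |ν' - ν₁'| + |x - x₁|)

/-! ## interface statements used as hypotheses -/

/-- equidistribution (upper bound), group D -/
def EQ2Stmt : Prop := ∀ δ : ℝ, 0 < δ → ∃ C : ℝ, 0 < C ∧ ∀ (D : ℕ) (c : ℤ) (h : ℝ), 1 ≤ D →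
  0 < h → h ≤ 1 → ∃ N0 : ℕ, ∀ N : ℕ, N0 ≤ N → ∀ s t : ℝ, δ ≤ s → s ≤ 1 → δ ≤ t → t ≤ 1 →
    open Classical in
    (((dpairs D N).filter (fun p : GaussianInt × GaussianInt =>
      (D : GaussianInt) ∣ p.2 - (c : GaussianInt) * p.1 ∧
      s * N < nN p.1 ∧ (nN p.1 : ℝ) ≤ (s + h) * N ∧
      t * N < nN p.2 ∧ (nN p.2 : ℝ) ≤ (t + h) * N)).card : ℝ) ≤ C * h ^ 2 * N / D

/-- Matomaki-Radziwill in arcs and classes, group F -/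
def MRCStmt : Prop := ∀ (r : ℕ), 1 ≤ r → ∀ (b : GaussianInt) (ρ ρ' : ℝ), 0 ≤ ρ → ρ ≤ ρ' →
  ρ' ≤ 1 → ∀ ε : ℝ, 0 < ε → ∃ H0 N0 : ℕ, ∀ N : ℕ, N0 ≤ N → ∀ K : ℕ, 1 ≤ K → K * H0 ≤ N →
    open Classical in
    ∑ i ∈ Finset.range K, |∑ z ∈ (pann (ρ * N) (ρ' * N)).filter
      (fun z => (r : GaussianInt) ∣ z - b ∧ arcI K z = i), lam z| ≤ ε * N

/-! ## elementary reductions -/

/-- **CNT**: the number of the pairs of determinant `D`.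
Proof: for each `u` with `N u > a N` the line `u × u' = D` has at most `2 / √a + 1` points
(`line_count`), and `#(ballG N) ≤ C N` (`N ≥ 1`; `N = 0`: no pair because `VV 0` is empty). -/
def CNTStmt : Prop := ∀ a : ℝ, 0 < a → ∃ C : ℝ, 0 < C ∧ ∀ (D : ℤ) (N : ℕ),
  ((lpairs a D N).card : ℝ) ≤ C * N

/-- **E0**: Cauchy-Schwarz over `v`. Proof: `∑_q pairSum q = ∑_v g(v) ∑_u f(u) 1[u × v ∈ A, <u,v> > 0]`,
`v` over the `v ∈ ballG N` with `b N < N v ≤ b' N`, `g = fc b b' N` on primitive `v` and `0`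
elsewhere, `|g| ≤ 1`; for `(u, v)` at most one `q ∈ A` has `u × v = q`. Square, bound `g^2 ≤ 1`,
expand; `#(ballG N) ≤ C N` for `N ≥ 1`. -/
def E0Stmt : Prop := ∃ C : ℝ, 0 < C ∧ ∀ (A : Finset ℕ) (a a' b b' : ℝ) (N : ℕ), 1 ≤ N →
  (∑ q ∈ A, pairSum q a a' b b' N) ^ 2 ≤
    C * N * ∑ u ∈ VV N, ∑ u' ∈ VV N, fc a a' N u * fc a a' N u' * (TT A b b' N u u' : ℝ)

/-- **E1**: reduction to `D = u × u' > 0`. Proof: `TT` is symmetric in `u, u'`. If `TT ≠ 0`, some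
`v` has `<u,v>, <u',v> > 0`, `u × v = α > 0`, `u' × v = β > 0` and
`<u,u'> N v = <u,v><u',v> + αβ > 0`, so `<u,u'> > 0`; and `(u × u') v = α u' - β u`, so
`|u × u'| √(b N) ≤ 2 C1 P √N`, hence `|u × u'| ≤ C2 P`. For `u × u' = 0`: `u' = u` (primitive,
`<u,u'> > 0`) and `TT u u ≤ |A| (2 / √a + 1)` by `line_count` for `N u > a N` (`fc u = 0`
otherwise). -/
def E1Stmt : Prop := ∀ (C1 : ℕ) (a a' b b' : ℝ), 0 < a → 0 < b → b' ≤ 1 →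
  ∃ C : ℝ, 0 < C ∧ ∀ P : ℕ, 1 ≤ P → ∀ A ⊆ QQ C1 P, ∀ N : ℕ, 1 ≤ N →
    ∀ C2 : ℕ, 2 * C1 / √b ≤ C2 →
    |∑ u ∈ VV N, ∑ u' ∈ VV N, fc a a' N u * fc a a' N u' * (TT A b b' N u u' : ℝ)| ≤
      C * N * A.card + 2 * |∑ D ∈ Finset.Icc 1 (C2 * P), ∑ p ∈ lpairs a D N,
        fc a a' N p.1 * fc a a' N p.2 * (TT A b b' N p.1 p.2 : ℝ)|

/-- **COF**: the multiplier. For `u = x + i y` primitive, `s x + t y = 1`, `c = s x' + t y'` where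
`u' = x' + i y'`; `c` is coprime to `D` because `u'` is primitive; `D ∣ α u' - β u` iff
`D ∣ (α c - β) u` iff `D ∣ α c - β`. -/
def COFStmt : Prop := ∀ (D N : ℕ), 1 ≤ D → ∀ p ∈ dpairs D N,
  (D : GaussianInt) ∣ p.2 - (cof D p : GaussianInt) * p.1 ∧ IsCoprime (cof D p) (D : ℤ) ∧
  (∀ c : ℤ, (D : GaussianInt) ∣ p.2 - (c : GaussianInt) * p.1 ↔ (D : ℤ) ∣ cof D p - c) ∧
  (∀ α β : ℤ, (D : GaussianInt) ∣ (α : GaussianInt) * p.2 - (β : GaussianInt) * p.1 ↔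
    (D : ℤ) ∣ cof D p * α - β)

/-- **E3a**: upper bound for `TT`. Proof: `v ↦ (u × v, u' × v) = (α, β)` is injective on the set
counted by `TT` and `D v = α u' - β u`, so `D ∣ c α - β` (`COF`);
`D² N v = (α|u'| - β|u|)² + 2 α β (|u||u'| - <u,u'>)` and
`0 ≤ |u||u'| - <u,u'> = D² / (|u||u'| + <u,u'>) ≤ D² / (a N)`; moreover
`D <u,v> = α <u,u'> - β |u|² > 0` gives `α|u'| - β|u| > 0`. -/
def E3aStmt : Prop := ∀ (C1 C2 P : ℕ) (a b b' ι : ℝ), 1 ≤ P → 0 < a → 0 < b → b' ≤ 1 → 0 < ι →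
  ∃ N0 : ℕ, ∀ N : ℕ, N0 ≤ N → ∀ A ⊆ QQ C1 P, ∀ D ∈ Finset.Icc 1 (C2 * P), ∀ p ∈ lpairs a D N,
    open Classical in
    TT A b b' N p.1 p.2 ≤ ((A ×ˢ A).filter (fun x : ℕ × ℕ => (D : ℤ) ∣ cof D p * x.1 - x.2 ∧
      (√b - ι) * D ≤ lf N p x.1 x.2 ∧ lf N p x.1 x.2 ≤ (√b' + ι) * D)).card

/-- **E3b**: lower bound for `TT`. Proof: for `(α, β)` of the set on the left put
`v = (α u' - β u) / D`; then `u × v = α`, `u' × v = β`, and the identities of `E3a` show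
`b N < N v ≤ b' N`, `<u,v> > 0`, `<u',v> > 0` for large `N`. -/
def E3bStmt : Prop := ∀ (C1 C2 P : ℕ) (a b b' ι : ℝ), 1 ≤ P → 0 < a → 0 < b → b' ≤ 1 → 0 < ι →
  ∃ N0 : ℕ, ∀ N : ℕ, N0 ≤ N → ∀ A ⊆ QQ C1 P, ∀ D ∈ Finset.Icc 1 (C2 * P), ∀ p ∈ lpairs a D N,
    open Classical in
    ((A ×ˢ A).filter (fun x : ℕ × ℕ => (D : ℤ) ∣ cof D p * x.1 - x.2 ∧
      (√b + ι) * D ≤ lf N p x.1 x.2 ∧ lf N p x.1 x.2 ≤ (√b' - ι) * D)).card ≤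
      TT A b b' N p.1 p.2

/-- **STRIP** (from `EQ2Stmt`): put `h = min 1 (w D / P)` and cover the strip by cells
`(a + i h, a + (i + 1) h] × (a + j h, a + (j + 1) h]`; at most `2 / h` values of `i`; for each `i`
the `j` whose cell contains a point of the strip form a set of at most `C'` consecutive values,
because `√ν' = (Y √ν + s ± w D) / X`, `√ν` ranges over an interval of length `h / (2 √a)`. Each
cell has at most `C h² N / D` pairs. -/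
def STRIPStmt : Prop := ∀ (a W : ℝ) (C1 C2 : ℕ), 0 < a → a ≤ 1 → 0 < W → 1 ≤ C1 → 1 ≤ C2 →
  ∃ C : ℝ, 0 < C ∧ ∀ (P D : ℕ) (c : ℤ) (w : ℝ), 1 ≤ P → 1 ≤ D → D ≤ C2 * P → 0 < w → w ≤ W →
    ∃ N0 : ℕ, ∀ N : ℕ, N0 ≤ N → ∀ X Y s : ℝ, P ≤ X → X ≤ C1 * P → P ≤ Y → Y ≤ C1 * P →
      open Classical in
      (((lpairs a D N).filter (fun p : GaussianInt × GaussianInt =>
        (D : GaussianInt) ∣ p.2 - (c : GaussianInt) * p.1 ∧ |lf N p X Y - s| ≤ w * D)).card : ℝ) ≤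
        C * w * N / P

/-- **TTSUM** (from `STRIPStmt`, `E3aStmt`, `CNTStmt`, `COFStmt`): by `E3a` (`ι = 1`) the sum is at
most the number of `(p, α, β)` with `D ∣ α u' - β u` and `|lf α β - s D| ≤ 2 D`,
`s = (√b + √b') / 2`. If `α` (a prime) does not divide `D`, then `u' ≡ c0 u` with
`c0 α ≡ β (mod D)`: `STRIP` with `c = c0`. If `α ∣ D`, then `α ∣ β u`, so `β = α`: at most
`#(lpairs a D N)` pairs for each such `α`. -/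
def TTSUMStmt : Prop := ∀ (C1 C2 : ℕ) (a b b' : ℝ), 0 < a → a ≤ 1 → 0 < b → b ≤ b' → b' ≤ 1 →
  1 ≤ C1 → 1 ≤ C2 → ∃ C : ℝ, 0 < C ∧ ∀ P : ℕ, 1 ≤ P → ∀ A ⊆ QQ C1 P, ∀ D ∈ Finset.Icc 1 (C2 * P),
    ∃ N0 : ℕ, ∀ N : ℕ, N0 ≤ N → ∑ p ∈ lpairs a D N, (TT A b b' N p.1 p.2 : ℝ) ≤
      C * (N / P * A.card ^ 2 + N * ((A.filter (fun q => q ∣ D)).card : ℝ))

/-- **TTAPP** (from `E3aStmt`, `E3bStmt` with `ι = h`): for `(α, β) ∈ A × A`,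
`|lf α β - lf X X| ≤ 2 h X ≤ (2 h C1 / κ) D`. With `w1 = h (1 + 2 C1 / κ)` and `g = lf X X / D`:
if `g < √b - w1` or `g > √b' + w1` then `TT = 0 = trap`; if `√b + w1 ≤ g ≤ √b' - w1` then
`TT = tc`, `trap = 1`; otherwise `0 ≤ TT ≤ tc`, `0 ≤ trap ≤ 1`. -/
def TTAPPStmt : Prop := ∀ (C1 C2 P : ℕ) (a b b' κ h : ℝ), 1 ≤ P → 1 ≤ C1 → 0 < a → 0 < b →
  b' ≤ 1 → 0 < κ → 0 < h → ∃ N0 : ℕ, ∀ N : ℕ, N0 ≤ N → ∀ A ⊆ QQ C1 P, ∀ X : ℝ, P ≤ X →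
    X ≤ C1 * P → (∀ q ∈ A, X < (q : ℕ) ∧ ((q : ℕ) : ℝ) ≤ (1 + h) * X) →
    ∀ D ∈ Finset.Icc 1 (C2 * P), κ * P ≤ (D : ℕ) → ∀ p ∈ lpairs a D N,
      open Classical in
      |(TT A b b' N p.1 p.2 : ℝ) - trap (√b) (√b') h (lf N p X X / D) * tc A D (cof D p)| ≤
        if |lf N p X X - √b * D| ≤ h * (1 + 2 * C1 / κ) * D ∨
          |lf N p X X - √b' * D| ≤ h * (1 + 2 * C1 / κ) * D then (tc A D (cof D p) : ℝ) else 0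

/-- **TSTRIP** (from `STRIPStmt`, `COFStmt`): the sum is the number of `(p, α, β)` with
`D ∣ c α - β` and `p` in the strip; `α` is invertible modulo `D`, so `c` is determined. -/
def TSTRIPStmt : Prop := ∀ (a W : ℝ) (C1 C2 : ℕ), 0 < a → a ≤ 1 → 0 < W → 1 ≤ C1 → 1 ≤ C2 →
  ∃ C : ℝ, 0 < C ∧ ∀ P D : ℕ, 1 ≤ P → D ∈ Finset.Icc 1 (C2 * P) → ∀ A ⊆ QQ C1 P,
    (∀ q ∈ A, ¬ q ∣ D) → ∀ w : ℝ, 0 < w → w ≤ W → ∃ N0 : ℕ, ∀ N : ℕ, N0 ≤ N → ∀ X s : ℝ,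
      P ≤ X → X ≤ C1 * P → open Classical in
      ∑ p ∈ (lpairs a D N).filter (fun p => |lf N p X X - s * D| ≤ w * D),
        (tc A D (cof D p) : ℝ) ≤ C * w * (N / P) * A.card ^ 2

/-! ## characters -/

/-- **ORTH**: orthogonality (`DirichletCharacter.sum_char_inv_mul_char_eq`):
`1[c α ≡ β] = (1/φ(D)) ∑_χ χ(c α) conj χ(β)` for `α`, `β`, `c` coprime to `D`. -/
def ORTHStmt : Prop := ∀ (A : Finset ℕ) (D : ℕ), 1 ≤ D → (∀ q ∈ A, Nat.Coprime q D) →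
  ∀ c : ℤ, IsCoprime c (D : ℤ) → ((tc A D c : ℝ) : ℂ) =
    (∑ χ : DirichletCharacter ℂ D, χ ((c : ℤ) : ZMod D) * ((‖SA A χ‖ ^ 2 : ℝ) : ℂ)) /
      (Nat.totient D : ℂ)

/-- **CONDS**: the characters modulo `D` of conductor `r` correspond to the primitive characters
modulo `r` (`changeLevel`, `conductor_changeLevel`, `changeLevel_injective`,
`factorsThrough_conductor`), with the same values at integers coprime to `D`. -/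
def CONDSStmt : Prop := ∀ (A : Finset ℕ) (D r : ℕ), 1 ≤ D → r ∣ D →
  (∀ q ∈ A, Nat.Coprime q D) → open Classical in
  (∀ c : ℤ, IsCoprime c (D : ℤ) → (∑ χ : DirichletCharacter ℂ D, if χ.conductor = r then
    χ ((c : ℤ) : ZMod D) * ((‖SA A χ‖ ^ 2 : ℝ) : ℂ) else 0) = mr A r c) ∧
  (∑ χ : DirichletCharacter ℂ D, if χ.conductor = r then ‖SA A χ‖ ^ 4 else 0) = S4 A r

/-- **PARS** (from `ORTHStmt`, `CONDSStmt`): `tc - MM = (1/φ(D)) ∑_{cond χ > R0} χ(c) |S_A(χ)|²` for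
`c` coprime to `D`, and Parseval: `∑_c |(1/φ(D)) ∑_χ a_χ χ(c)|² = (1/φ(D)) ∑ |a_χ|²`. -/
def PARSStmt : Prop := ∀ (A : Finset ℕ) (D R0 : ℕ), 1 ≤ D → (∀ q ∈ A, Nat.Coprime q D) →
  ∑ c ∈ (Finset.range D).filter (fun c => Nat.Coprime c D),
    ‖((tc A D (c : ℕ) : ℝ) : ℂ) - MM A R0 D (c : ℕ)‖ ^ 2 ≤
      (∑ r ∈ D.divisors.filter (fun r => R0 < r), S4 A r) / (Nat.totient D : ℝ)

/-- **EERR** (from `EQ2Stmt`, `PARSStmt`, `COFStmt`): `#{p ∈ lpairs a D N : cof D p ≡ c} ≤ C N / D`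
(`EQ2` with `h = 1`, `s = t = a`); `tc` and `MM` depend on `c` modulo `D` only; Cauchy over the `c`
coprime to `D`: the sum over `p` is `≤ (C N / D) √φ(D) (∑_c ‖.‖²)^{1/2} ≤ (C N / D)
(∑_{r ∣ D, r > R0} S4 A r)^{1/2}`; Cauchy over `D ∈ (κ P, C2 P]`, `∑ 1/D ≤ C2/κ`,
`∑_{D, r ∣ D} 1/D ≤ (C2/κ)/r`. -/
def EERRStmt : Prop := ∀ (a κ : ℝ) (C1 C2 : ℕ), 0 < a → a ≤ 1 → 0 < κ → 1 ≤ C1 → 1 ≤ C2 →
  ∃ C : ℝ, 0 < C ∧ ∀ P : ℕ, 1 ≤ P → ∀ A ⊆ QQ C1 P, ∀ R0 : ℕ, ∃ N0 : ℕ, ∀ N : ℕ, N0 ≤ N →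
    open Classical in
    ∑ D ∈ (Finset.Icc 1 (C2 * P)).filter (fun D : ℕ => κ * P < (D : ℝ) ∧ ∀ q ∈ A, ¬ q ∣ D),
      ∑ p ∈ lpairs a D N, ‖((tc A D (cof D p) : ℝ) : ℂ) - MM A R0 D (cof D p)‖ ≤
      C * N * √(∑ r ∈ Finset.Ioc R0 (C2 * P), S4 A r / r)

/-- **GSUM**: for `ψ` primitive modulo `r`, `‖τ(ψ)‖² = r` (`gaussSum_mulShift_of_isPrimitive` and
Parseval over `ZMod r`), so `r ‖∑ x_n ψ(n)‖² = ‖∑_b ψ̄(b) S(b/r)‖²` with `S(b/r) = ∑ x_n e(b n/r)`; the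
sum over all characters of the right side is `φ(r) ∑_{b coprime to r} ‖S(b/r)‖²`, and
`φ(r) ≤ r`. -/
def GSUMStmt : Prop := ∀ (r M : ℕ) (x : ℕ → ℂ), 1 ≤ r → open Classical in
  ∑ ψ : DirichletCharacter ℂ r,
    (if ψ.IsPrimitive then ‖∑ n ∈ Finset.Icc 1 M, x n * ψ ((n : ℕ) : ZMod r)‖ ^ 2 else 0) ≤
  ∑ b ∈ (Finset.range r).filter (fun b => Nat.Coprime b r),
    ‖∑ n ∈ Finset.Icc 1 M, x n * Complex.exp (2 * π * Complex.I * (b / r)) ^ n‖ ^ 2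

/-- **MLS** (from `GSUMStmt`), the multiplicative large sieve. The points `e(b/r)`, `r ≤ R`,
`b < r` coprime to `r`, are at mutual distance `≥ 1 / R²` on the circle; `LS0` of `NSqP` is the dual
form of the additive large sieve: for `T = ∑_i |∑_n x_n u_i^n|²`,
`T ≤ ‖x‖ (∑_n |∑_i b_i u_i^n|²)^{1/2} ≤ ‖x‖ (C (M + 1 + R²) T)^{1/2}`, `b_i` the conjugate of
`∑_n x_n u_i^n`. -/
def MLSStmt : Prop := ∃ C : ℝ, 0 < C ∧ ∀ (R M : ℕ) (x : ℕ → ℂ), 1 ≤ R →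
  open Classical in
  ∑ r ∈ Finset.Icc 1 R, ∑ ψ : DirichletCharacter ℂ r,
    (if ψ.IsPrimitive then ‖∑ n ∈ Finset.Icc 1 M, x n * ψ ((n : ℕ) : ZMod r)‖ ^ 2 else 0) ≤
    C * (M + R ^ 2) * ∑ n ∈ Finset.Icc 1 M, ‖x n‖ ^ 2

/-- **NPC**: incomplete sums over the product of two distinct primitive characters. Proof:
`n ↦ ψ(n) conj ψ'(n)` is the character `χ = changeLevel ψ * (changeLevel ψ')⁻¹` modulo `r r'` (both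
sides vanish when `n` is not coprime to `r r'`), and `χ ≠ 1`: otherwise
`changeLevel ψ = changeLevel ψ'`, the conductors `r = r'` agree (`conductor_changeLevel`) and
`ψ = ψ'` (`changeLevel_injective`); complete periods sum to `0`. -/
def NPCStmt : Prop := ∀ (r r' : ℕ) (ψ : DirichletCharacter ℂ r) (ψ' : DirichletCharacter ℂ r'),
  1 ≤ r → 1 ≤ r' → ψ.IsPrimitive → ψ'.IsPrimitive →
  (⟨r, ψ⟩ : Σ s : ℕ, DirichletCharacter ℂ s) ≠ ⟨r', ψ'⟩ → ∀ Y : ℕ,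
    ‖∑ n ∈ Finset.Icc 1 Y, ψ ((n : ℕ) : ZMod r) * (starRingEnd ℂ) (ψ' ((n : ℕ) : ZMod r'))‖ ≤
      r * r'

/-- **LF** (from `NPCStmt`), log-free large sieve for primes and small moduli. Proof:
`Hoh.fundLemma` (`Lib/MP_0bb3d8_nt/HohFund`) with `y = D = P^{1/10}` gives `ν(n) = ∑_{d ∣ n} lp d`,
`ν ≥ 0`, `ν ≥ 1` on primes `> y`, `|lp| ≤ 1`, and with `VUpper`
`∑_{n ≤ C1 P} ν(n) ≤ C P / log P`. Duality: with `V = ∑ |S(ψ)|²` one gets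
`V ≤ |A| max_x ∑_{x'} |∑_{n ≤ C1 P} ν(n) ψ_x(n) conj ψ_{x'}(n)|`; for `x ≠ x'` expand `ν`, write
`n = d m` and use `NPC`: `≤ P^{1/10} R²` for each of the at most `R²` characters `x'`. -/
def LFStmt : Prop := ∀ C1 : ℕ, 1 ≤ C1 → ∃ C : ℝ, 0 < C ∧ ∃ P0 : ℕ, ∀ P : ℕ, P0 ≤ P →
  ∀ A ⊆ QQ C1 P, ∀ R : ℕ, R ^ 20 ≤ P →
    ∑ r ∈ Finset.Icc 1 R, S2 A r ≤ C * (P / log P) * A.card

/-- **QUP**: `#QQ ≤ C P / log P` (`Hoh.brunTitchmarsh` with `fundLemma`). -/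
def QUPStmt : Prop := ∀ C1 : ℕ, 1 ≤ C1 → ∃ C : ℝ, 0 < C ∧ ∀ P : ℕ, 2 ≤ P →
  ((QQ C1 P).card : ℝ) ≤ C * (P / log P)

/-- **ECH** (from `MLSStmt`, `LFStmt`, `QUPStmt`): for `r^20 ≤ P` bound `S4 A r ≤ |A|² S2 A r`, so
this part is `≤ (1/R0) |A|² C (P/log P) |A|`; for `r^20 > P`, `1/r ≤ P^{-1/20}` and
`S(ψ)² = ∑_n x_n ψ(n)` with `x_n = #{(α, β) ∈ A² : α β = n} ≤ 2`, `n ≤ (C1 P)²`,
`∑ x_n² ≤ 2 |A|²`: `MLS` gives `≤ P^{-1/20} C P² |A|²`. -/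
def ECHStmt : Prop := ∀ C1 C2 : ℕ, 1 ≤ C1 → 1 ≤ C2 → ∃ C : ℝ, 0 < C ∧ ∀ δ : ℝ, 0 < δ →
  ∃ P0 : ℕ, ∀ P : ℕ, P0 ≤ P → ∀ A ⊆ QQ C1 P, ∀ R0 : ℕ, 1 ≤ R0 →
    ∑ r ∈ Finset.Ioc R0 (C2 * P), S4 A r / r ≤ (C / R0 + δ) * (P / log P) ^ 4

/-- **ETRUNC** (from `CNTStmt`): `D/φ(D) = ∑_{d ∣ D} μ²(d)/φ(d)`, so
`‖MM - MT‖ ≤ (1/D) (∑_{d ∣ D, d > R1, squarefree} 1/φ(d)) R0² |A|²` (`‖mr A r c‖ ≤ r |A|²`), and
`∑_{D ≤ C2 P} ∑_{d ∣ D, d > R1} 1/φ(d) ≤ C2 P ∑_{d > R1} 1/(d φ(d))`, a convergent series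
(`φ(d)² ≥ d/2`). -/
def ETRUNCStmt : Prop := ∀ (a κ : ℝ) (C2 R0 : ℕ), 0 < a → 0 < κ → ∀ δ : ℝ, 0 < δ →
  ∃ R1 : ℕ, 1 ≤ R1 ∧ ∀ P : ℕ, 1 ≤ P → ∀ (A : Finset ℕ) (N : ℕ), open Classical in
    ∑ D ∈ (Finset.Icc 1 (C2 * P)).filter (fun D : ℕ => κ * P < (D : ℝ)),
      ∑ p ∈ lpairs a D N, ‖MM A R0 D (cof D p) - MT A R0 R1 D (cof D p)‖ ≤ δ * N * A.card ^ 2

/-- **BADM** (from `CNTStmt`): `‖MT‖ ≤ (R1 / D) R0² |A|²`, `D > κ P`, and at most `C2 |A|` values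
of `D` are divisible by an element of `A` (all elements of `A` are `> P`). -/
def BADMStmt : Prop := ∀ (a κ : ℝ) (C1 C2 R0 R1 : ℕ), 0 < a → 0 < κ → ∃ C : ℝ, 0 < C ∧
  ∀ P : ℕ, 1 ≤ P → ∀ A ⊆ QQ C1 P, ∀ N : ℕ, open Classical in
    ∑ D ∈ (Finset.Icc 1 (C2 * P)).filter (fun D : ℕ => κ * P < (D : ℝ) ∧ ∃ q ∈ A, q ∣ D),
      ∑ p ∈ lpairs a D N, ‖MT A R0 R1 D (cof D p)‖ ≤ C * N * A.card ^ 2 * (A.card / P)

/-! ## structured part -/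

/-- **STGEO**: geometry of arcs. `u × u' = |u||u'| sin 2πθ`, `<u,u'> = |u||u'| cos 2πθ`,
`θ = ang u' - ang u` modulo `1`. If `jj = j ≤ J` then `θ` may be taken in
`((j - 1)/K, (j + 1)/K)`; `N/(P K) → η`. If `<u,u'> > 0`, `u × u' > 0` then `θ ∈ (0, 1/4)`,
`jj ∈ {⌊Kθ⌋, ⌊Kθ⌋ + 1}` and `u × u' ≥ a N 4 θ`. -/
def STGEOStmt : Prop := ∀ (a C2 η : ℝ) (J P : ℕ), 0 < a → a ≤ 1 → 0 < η → η ≤ 1 → 0 < C2 →
  C2 / (a * η) + 2 ≤ J → 1 ≤ P → ∃ N0 : ℕ, ∀ N : ℕ, N0 ≤ N → ∀ u ∈ VV N, ∀ u' ∈ VV N,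
    a * N < nN u → a * N < nN u' → ∀ K : ℕ, K = ⌊(N : ℝ) / (η * P)⌋₊ →
    (jj K (u, u') ≤ J → 0 < dotG u u' ∧
      |(crossG u u' : ℝ) / P - 2 * π * η * jj K (u, u') * √((nN u : ℝ) / N * (nN u' / N))| ≤
        8 * η) ∧
    (J < jj K (u, u') → 0 < dotG u u' → 0 < crossG u u' → C2 * P < crossG u u')

/-- **STCNT**: few primitive points in an arc: `‖ξ z - ξ w‖ ≥ 1/N` for distinct `z, w ∈ VV N`, and
`near_count`. -/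
def STCNTStmt : Prop := ∃ C : ℝ, 0 < C ∧ ∀ N K i : ℕ, 1 ≤ N → 1 ≤ K → open Classical in
  (((VV N).filter (fun z => arcI K z = i)).card : ℝ) ≤ C * (1 + N / K)

/-- **STPAIR**: for pairs in arcs at distance `j`. Proof: group by `i = arcI K p.1`; then
`arcI K p.2 = (i + j) % K` (`arcI < K`), and `i ↦ (i + j) % K` is a bijection of `range K`. -/
def STPAIRStmt : Prop := ∀ (N K j r : ℕ) (B : ℝ) (z z' : GaussianInt) (ρ₁ ρ₁' ρ₂ ρ₂' : ℝ),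
  1 ≤ K → open Classical in
  (∀ i : ℕ, (((pann (ρ₁ * N) (ρ₁' * N)).filter (fun z => arcI K z = i)).card : ℝ) ≤ B) →
  |∑ p ∈ (pann (ρ₁ * N) (ρ₁' * N) ×ˢ pann (ρ₂ * N) (ρ₂' * N)).filter
      (fun p : GaussianInt × GaussianInt => jj K p = j ∧
        (r : GaussianInt) ∣ p.1 - z ∧ (r : GaussianInt) ∣ p.2 - z'), lam p.1 * lam p.2| ≤
    B * ∑ i ∈ Finset.range K, |∑ w ∈ (pann (ρ₂ * N) (ρ₂' * N)).filter
      (fun w => (r : GaussianInt) ∣ w - z' ∧ arcI K w = i), lam w|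

/-- **STRUCT** (from `STGEOStmt`, `STCNTStmt`, `STPAIRStmt`, `MRCStmt`). Choose `η`, `n` with
`L C (1/n + η)` small, `J = ⌈C2/(a η)⌉ + 2`, then the accuracy of `MRC`, `P0` (`η P0 ≥ H0`, `≥ 1`),
`N0`; `K = ⌊N/(η P)⌋`. For `jj p = j > J` the weight is `0` (`LipW.hi`, `LipW.lo`); for `j ≤ J` split
the norms into `n` cells `(ρ_k N, ρ_{k+1} N]`, `ρ_k = a + (a' - a) k/n`, and replace the weight by its
value at `(ρ_k, ρ_k', 2 π η j √(ρ_k ρ_k'))`, with error `≤ L C (1/n + η)` for each of the at most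
`(J + 1) #(VV N) C (1 + N/K) ≤ C N P` pairs. Main part: `STPAIR` with `B = C (1 + N/K)` for each
`j, k, k'`, and `MRC`. -/
def STRUCTStmt : Prop := ∀ (a a' κ C2 L ε : ℝ) (r : ℕ), 0 < a → a < a' → a' ≤ 1 → 0 < κ →
  0 < C2 → 0 < L → 0 < ε → 1 ≤ r → ∃ P0 : ℕ, ∀ P : ℕ, P0 ≤ P → ∃ N0 : ℕ, ∀ N : ℕ, N0 ≤ N →
    ∀ Φ : ℝ → ℝ → ℝ → ℝ, LipW a κ C2 L Φ → ∀ z z' : GaussianInt, open Classical in
      |∑ p ∈ (VV N ×ˢ VV N).filter (fun p : GaussianInt × GaussianInt => 0 < dotG p.1 p.2 ∧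
          (r : GaussianInt) ∣ p.1 - z ∧ (r : GaussianInt) ∣ p.2 - z'),
        fc a a' N p.1 * fc a a' N p.2 *
          Φ ((nN p.1 : ℝ) / N) ((nN p.2 : ℝ) / N) ((crossG p.1 p.2 : ℝ) / P)| ≤ ε * N * P

/-- **LIPPHI**: the weight `Phi` is a Lipschitz weight, uniformly in `l0`. (`trap` has Lipschitz
constant `1/h`, `cut` has `1/κ`, `1/x ≤ 1/κ`; `√` is Lipschitz on `[a, 1]`; for `x ≥ C2` the
argument of `trap` is at most `C1/C2 ≤ √b`.) Negative `h` or `κ` do not occur. -/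
def LIPPHIStmt : Prop := ∀ (a b b' κ h : ℝ) (C1 C2 : ℕ), 0 < a → a ≤ 1 → 0 < b → b' ≤ 1 →
  0 < κ → κ ≤ 1 → 0 < h → h ≤ 1 → 1 ≤ C1 → 2 * C1 / √b ≤ C2 → ∃ L : ℝ, 0 < L ∧ ∀ l0 : ℝ, 1 ≤ l0 →
    l0 ≤ C1 → LipW a κ C2 L (Phi b b' κ h l0)

/-- **ESTR** (from `STRUCTStmt`, `COFStmt`): `(D/P) MT = (1/P) ∑_{d ≤ R1, d ∣ D} μ²(d)/φ(d)
∑_{r ≤ R0, r ∣ D} mr A r c`; `1[d ∣ D] 1[r ∣ D] mr A r (cof D p)` depends only on `p.1`, `p.2`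
modulo `d r` (for `D = u × u'`; a multiplier modulo `D` is one modulo `r`, unique modulo `r`) and is
`≤ r |A|²`: split into the `(d r)^4` pairs of classes and use `STRUCT` for each. -/
def ESTRStmt : Prop := ∀ (a a' κ L ε : ℝ) (C2 R0 R1 : ℕ), 0 < a → a < a' → a' ≤ 1 → 0 < κ →
  0 < L → 0 < ε → 1 ≤ C2 → ∃ P0 : ℕ, ∀ P : ℕ, P0 ≤ P → ∃ N0 : ℕ, ∀ N : ℕ, N0 ≤ N →
    ∀ Φ : ℝ → ℝ → ℝ → ℝ, LipW a κ C2 L Φ → ∀ A : Finset ℕ,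
      ‖∑ D ∈ Finset.Icc 1 (C2 * P), ∑ p ∈ lpairs a D N, ((fc a a' N p.1 * fc a a' N p.2 *
        Φ ((nN p.1 : ℝ) / N) ((nN p.2 : ℝ) / N) ((D : ℝ) / P) * (D / P) : ℝ) : ℂ) *
          MT A R0 R1 D (cof D p)‖ ≤ ε * N * A.card ^ 2

/-! ## assembly -/

/-- **BLOCK**: the estimate for a short block `A ⊆ (X, (1 + h) X]`. With `Z = ∑_{u,u'} f f' TT`:
`(∑_q)² ≤ C N Z` (`E0`), `|Z| ≤ C N |A| + 2 |Z1|` (`E1`), `Z1 = ∑_{D ≤ C2 P} ∑_{lpairs} f f' TT`,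
`C2 = ⌈2 C1 / √b⌉`. Split `D`: `D ≤ 2 κ P` (`TTSUM`: `≤ C κ N |A|²`; here no element of `A` divides
`D`); `D` divisible by an element of `A` (`TTSUM`, at most `C2 |A|` values of `D`, and
`∑_D #{q ∈ A : q ∣ D} ≤ C2 |A|`); the others: `TTAPP` (with `2 κ` in place of `κ`) and `TSTRIP` for
the exceptional strips (`w = h (1 + C1/κ) ≤ 1`): `≤ C (h/κ) N |A|²` (`h ≤ h/κ`). Replace `trap * tc`
by `cut κ (D/P) * trap * tc` (equal for `D > 2 κ P`) and let `D` run over `κ P < D` (the new terms: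
`TSTRIP`, `w = 1`, `≤ C κ N |A|²`). Then `tc → MM` (`EERR`, `ECH`), `MM → MT` (`ETRUNC`), add the
`D` divisible by elements of `A` (`BADM`), `ESTR` with `Phi b b' κ h (X/P)` (`LIPPHI`;
`Phi * (D/P) = cut * trap`). `|A| ≤ C P/log P` (`QUP`). Order: `R0`, `R1`, `P0`, `N0`. -/
def BLOCKStmt : Prop := ∀ (C1 : ℕ) (a a' b b' : ℝ), 1 ≤ C1 → 0 < a → a < a' → a' ≤ 1 → 0 < b →
  b < b' → b' ≤ 1 → ∃ C : ℝ, 0 < C ∧ ∀ κ h δ : ℝ, 0 < κ → κ < 1 / 4 → 0 < h →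
    h * (1 + 2 * C1 / κ) ≤ 1 → 0 < δ → ∃ P0 : ℕ, ∀ P : ℕ, P0 ≤ P → ∀ A ⊆ QQ C1 P, ∀ X : ℝ, P ≤ X → X ≤ C1 * P →
      (∀ q ∈ A, X < (q : ℕ) ∧ ((q : ℕ) : ℝ) ≤ (1 + h) * X) → ∃ N0 : ℕ, ∀ N : ℕ, N0 ≤ N →
        (∑ q ∈ A, pairSum q a a' b b' N) ^ 2 ≤
          N ^ 2 * (C * (κ + h / κ) * A.card ^ 2 + δ * (P / log P) ^ 2)

/-- **MAINB** (from `BLOCKStmt`): `κ` small, `h = κ² / (1 + 2 C1)`, blocks
`A_k = {q ∈ QQ : P (1 + h)^k < q ≤ P (1 + h)^(k+1)}`, `k < K(h, C1)`, `δ` small against `K`, `c`;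
`√(x + y) ≤ √x + √y`, `P / log P ≤ #QQ / c`. -/
def MAINBStmt : Prop := ∀ (C1 : ℕ) (c : ℝ), 2 ≤ C1 → 0 < c →
  (∀ P : ℕ, 2 ≤ P → c * P / log P ≤ ((QQ C1 P).card : ℝ)) →
  ∀ a a' b b' : ℝ, 0 < a → a < a' → a' ≤ 1 → 0 < b → b < b' → b' ≤ 1 → ∀ ε : ℝ, 0 < ε →
    ∃ P0 : ℕ, ∀ P : ℕ, P0 ≤ P → ∃ N0 : ℕ, ∀ N : ℕ, N0 ≤ N →
      |∑ q ∈ QQ C1 P, pairSum q a a' b b' N| ≤ ε * N * (QQ C1 P).card

end Pool.Agent.LogCh
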