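import Mathlib
import Pool.Agent.Lib.LogCh.EDefs

/-!
# Log-averaged cancellation at `n ^ 2 + 1`: module E.BADM
-/

set_option autoImplicit false

namespace Pool.Agent.LogCh

open Real
open Pool.Agent.NSqP
open Pool.Agent.MP484c84Par (ballG mem_ballG crossG dotG)

private lemma badm_SA_le {r : ℕ} (A : Finset ℕ) (ψ : DirichletCharacter ℂ r) :
    ‖SA A ψ‖ ≤ A.card := by
  unfold SA
  refine (norm_sum_le _ _).trans ?_
  refine (Finset.sum_le_sum fun α _ => ψ.norm_le_one ((α : ℕ) : ZMod r)).trans ?_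
  simp

private lemma badm_mr_le (A : Finset ℕ) {r : ℕ} (hr : 1 ≤ r) (c : ℤ) :
    ‖mr A r c‖ ≤ r * (A.card : ℝ) ^ 2 := by
  classical
  have hr0 : NeZero r := ⟨by omega⟩
  unfold mr
  refine (norm_sum_le _ _).trans ?_
  have h1 : ∀ ψ ∈ (Finset.univ : Finset (DirichletCharacter ℂ r)),
      ‖(if ψ.IsPrimitive then ψ ((c : ℤ) : ZMod r) * ((‖SA A ψ‖ ^ 2 : ℝ) : ℂ) else 0)‖ ≤
        (A.card : ℝ) ^ 2 := by
    intro ψ _
    split_ifs with h
    · rw [norm_mul, Complex.norm_real, Real.norm_of_nonneg (by positivity)]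
      calc ‖ψ ((c : ℤ) : ZMod r)‖ * ‖SA A ψ‖ ^ 2 ≤ 1 * (A.card : ℝ) ^ 2 := by
            apply mul_le_mul (ψ.norm_le_one _) _ (by positivity) (by norm_num)
            exact pow_le_pow_left₀ (norm_nonneg _) (badm_SA_le A ψ) 2
        _ = (A.card : ℝ) ^ 2 := one_mul _
    · rw [norm_zero]; positivity
  refine (Finset.sum_le_card_nsmul _ _ _ h1).trans ?_
  rw [nsmul_eq_mul]
  have h2 : (Finset.univ : Finset (DirichletCharacter ℂ r)).card = r.totient := by
    rw [Finset.card_univ, ← Nat.card_eq_fintype_card]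
    exact DirichletCharacter.card_eq_totient_of_hasEnoughRootsOfUnity ℂ r
  rw [h2]
  apply mul_le_mul_of_nonneg_right _ (by positivity)
  exact_mod_cast Nat.totient_le r

private lemma badm_tph_le (R1 D : ℕ) : 0 ≤ tph R1 D ∧ tph R1 D ≤ R1 := by
  unfold tph
  refine ⟨Finset.sum_nonneg fun d _ => by positivity, ?_⟩
  have h1 : ∀ d ∈ (Finset.Icc 1 R1).filter (fun d => d ∣ D ∧ Squarefree d),
      1 / (Nat.totient d : ℝ) ≤ 1 := by
    intro d hd
    rw [Finset.mem_filter, Finset.mem_Icc] at hd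
    have h2 : 0 < Nat.totient d := Nat.totient_pos.2 (by omega)
    rw [div_le_one (by exact_mod_cast h2)]
    exact_mod_cast h2
  refine (Finset.sum_le_card_nsmul _ _ _ h1).trans ?_
  rw [nsmul_eq_mul, mul_one]
  have h3 : ((Finset.Icc 1 R1).filter (fun d => d ∣ D ∧ Squarefree d)).card ≤ R1 := by
    refine (Finset.card_filter_le _ _).trans ?_
    simp
  exact_mod_cast h3

private lemma badm_MT_le (A : Finset ℕ) (R0 R1 : ℕ) {D : ℕ} (hD : 1 ≤ D) (c : ℤ) :
    ‖MT A R0 R1 D c‖ ≤ R1 / D * (R0 ^ 2 * (A.card : ℝ) ^ 2) := by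
  classical
  have hD0 : (0 : ℝ) < D := by exact_mod_cast hD
  unfold MT
  rw [norm_mul, Complex.norm_real, Real.norm_of_nonneg
    (div_nonneg (badm_tph_le R1 D).1 hD0.le)]
  apply mul_le_mul
  · exact div_le_div_of_nonneg_right (badm_tph_le R1 D).2 hD0.le
  · refine (norm_sum_le _ _).trans ?_
    have h1 : ∀ r ∈ (Finset.Icc 1 R0).filter (fun r => r ∣ D), ‖mr A r c‖ ≤
        R0 * (A.card : ℝ) ^ 2 := by
      intro r hr
      rw [Finset.mem_filter, Finset.mem_Icc] at hr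
      refine (badm_mr_le A hr.1.1 c).trans ?_
      apply mul_le_mul_of_nonneg_right _ (by positivity)
      exact_mod_cast hr.1.2
    refine (Finset.sum_le_card_nsmul _ _ _ h1).trans ?_
    rw [nsmul_eq_mul]
    have h3 : (((Finset.Icc 1 R0).filter (fun r => r ∣ D)).card : ℝ) ≤ R0 := by
      have : ((Finset.Icc 1 R0).filter (fun r => r ∣ D)).card ≤ R0 := by
        refine (Finset.card_filter_le _ _).trans ?_
        simp
      exact_mod_cast this
    calc _ ≤ (R0 : ℝ) * (R0 * (A.card : ℝ) ^ 2) :=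
          mul_le_mul_of_nonneg_right h3 (by positivity)
      _ = R0 ^ 2 * (A.card : ℝ) ^ 2 := by ring
  · exact norm_nonneg _
  · positivity

/-- at most `C2 |A|` values of `D` are divisible by an element of `A` -/
private lemma badm_count (C1 C2 P : ℕ) (A : Finset ℕ) (hA : A ⊆ QQ C1 P) :
    open Classical in
    ((Finset.Icc 1 (C2 * P)).filter (fun D : ℕ => ∃ q ∈ A, q ∣ D)).card ≤ C2 * A.card := by
  classical
  have h1 : (Finset.Icc 1 (C2 * P)).filter (fun D : ℕ => ∃ q ∈ A, q ∣ D) ⊆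
      A.biUnion fun q => (Finset.Icc 1 (C2 * P)).filter (fun D => q ∣ D) := by
    intro D hD
    rw [Finset.mem_filter] at hD
    obtain ⟨hD1, q, hq, hqD⟩ := hD
    rw [Finset.mem_biUnion]
    exact ⟨q, hq, Finset.mem_filter.2 ⟨hD1, hqD⟩⟩
  refine (Finset.card_le_card h1).trans ?_
  refine (Finset.card_biUnion_le).trans ?_
  have h2 : ∀ q ∈ A, ((Finset.Icc 1 (C2 * P)).filter (fun D => q ∣ D)).card ≤ C2 := by
    intro q hq
    have hq' := hA hq
    unfold QQ at hq'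
    rw [Finset.mem_filter, Finset.mem_Ioc] at hq'
    have h3 : (Finset.Icc 1 (C2 * P)).filter (fun D => q ∣ D) =
        (Finset.Ioc 0 (C2 * P)).filter (fun D => q ∣ D) := rfl
    rw [h3, Nat.Ioc_filter_dvd_card_eq_div]
    have hq0 : 0 < q := hq'.2.1.pos
    calc C2 * P / q ≤ C2 * q / q := Nat.div_le_div_right (Nat.mul_le_mul_left _ hq'.1.1.le)
      _ = C2 := Nat.mul_div_cancel _ hq0
  calc ∑ q ∈ A, ((Finset.Icc 1 (C2 * P)).filter (fun D => q ∣ D)).card ≤ ∑ _q ∈ A, C2 :=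
        Finset.sum_le_sum h2
    _ = C2 * A.card := by rw [Finset.sum_const, smul_eq_mul, mul_comm]

/-- **BADM** (from `CNTStmt`): `‖MT‖ ≤ (R1 / D) R0² |A|²`, `D > κ P`, and at most `C2 |A|` values
of `D` are divisible by an element of `A` (all elements of `A` are `> P`). -/
theorem BADMp (hN : CNTStmt) : BADMStmt := by
  classical
  intro a κ C1 C2 R0 R1 ha hκ
  obtain ⟨C, hC, hcnt⟩ := hN a ha
  refine ⟨C * C2 * R1 * R0 ^ 2 / κ + 1, by positivity, ?_⟩
  intro P hP A hA N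
  have hP0 : (0 : ℝ) < P := by exact_mod_cast hP
  have hterm : ∀ D ∈ (Finset.Icc 1 (C2 * P)).filter
      (fun D : ℕ => κ * P < (D : ℝ) ∧ ∃ q ∈ A, q ∣ D),
      ∑ p ∈ lpairs a D N, ‖MT A R0 R1 D (cof D p)‖ ≤
        C * N * (R1 / (κ * P) * (R0 ^ 2 * (A.card : ℝ) ^ 2)) := by
    intro D hD
    rw [Finset.mem_filter, Finset.mem_Icc] at hD
    obtain ⟨⟨hD1, hD2⟩, hD3, -⟩ := hD
    have hD0 : (0 : ℝ) < D := by exact_mod_cast hD1
    have h1 : ∀ p ∈ lpairs a D N, ‖MT A R0 R1 D (cof D p)‖ ≤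
        R1 / (κ * P) * (R0 ^ 2 * (A.card : ℝ) ^ 2) := by
      intro p _
      refine (badm_MT_le A R0 R1 hD1 _).trans ?_
      apply mul_le_mul_of_nonneg_right _ (by positivity)
      exact div_le_div_of_nonneg_left (by positivity) (by positivity) hD3.le
    refine (Finset.sum_le_card_nsmul _ _ _ h1).trans ?_
    rw [nsmul_eq_mul]
    apply mul_le_mul_of_nonneg_right _ (by positivity)
    exact hcnt D N
  refine (Finset.sum_le_card_nsmul _ _ _ hterm).trans ?_
  rw [nsmul_eq_mul]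
  have h2 : (((Finset.Icc 1 (C2 * P)).filter
      (fun D : ℕ => κ * P < (D : ℝ) ∧ ∃ q ∈ A, q ∣ D)).card : ℝ) ≤ C2 * A.card := by
    have h3 := badm_count C1 C2 P A hA
    have h4 : ((Finset.Icc 1 (C2 * P)).filter
      (fun D : ℕ => κ * P < (D : ℝ) ∧ ∃ q ∈ A, q ∣ D)).card ≤
        ((Finset.Icc 1 (C2 * P)).filter (fun D : ℕ => ∃ q ∈ A, q ∣ D)).card := by
      apply Finset.card_le_card
      intro D hD
      rw [Finset.mem_filter] at hD ⊢
      exact ⟨hD.1, hD.2.2⟩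
    exact_mod_cast h4.trans h3
  calc _ ≤ (C2 * A.card : ℝ) * (C * N * (R1 / (κ * P) * (R0 ^ 2 * (A.card : ℝ) ^ 2))) :=
        mul_le_mul_of_nonneg_right h2 (by positivity)
    _ = (C * C2 * R1 * R0 ^ 2 / κ) * N * A.card ^ 2 * (A.card / P) := by
        field_simp
    _ ≤ (C * C2 * R1 * R0 ^ 2 / κ + 1) * N * A.card ^ 2 * (A.card / P) := by
        gcongr
        linarith

end Pool.Agent.LogCh
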