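import Pool.Agent.Lib.LogCh.Defs
import Pool.Agent.Lib.MP484c84AP.Mertens

/-!
# Shared facts: primes `1` modulo `4` in short multiplicative intervals, vectors on a line
-/

set_option autoImplicit false

namespace Pool.Agent.LogCh

open Real
open Pool.Agent.NSqP
open Pool.Agent.MP484c84Par (ballG mem_ballG crossG dotG)

lemma QQ_mono {C C' P P' : ℕ} (h1 : P' ≤ P) (h2 : C * P ≤ C' * P') : QQ C P ⊆ QQ C' P' := by
  intro p hp
  unfold QQ at hp ⊢
  rw [Finset.mem_filter, Finset.mem_Ioc] at hp ⊢
  exact ⟨⟨lt_of_le_of_lt h1 hp.1.1, hp.1.2.trans h2⟩, hp.2⟩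

theorem QQ_lower : ∃ C : ℕ, 2 ≤ C ∧ ∃ c : ℝ, 0 < c ∧ ∀ P : ℕ, 2 ≤ P →
    c * P / log P ≤ ((QQ C P).card : ℝ) := by
  obtain ⟨K0, hK0, hK⟩ := Pool.Agent.MP484c84AP.sum_two_div
  obtain ⟨D, hD⟩ : ∃ D : ℕ, exp (2 * K0 + 2) ≤ D := exists_nat_ge _
  have hDlog : 2 * K0 + 2 ≤ log D := by
    rw [← log_exp (2 * K0 + 2)]
    exact log_le_log (exp_pos _) hD
  have hD3 : (3 : ℝ) ≤ D := by
    have := Real.add_one_le_exp (2 * K0 + 2)
    linarith
  have hD2 : 2 ≤ D := by
    have : (2 : ℝ) ≤ D := by linarith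
    exact_mod_cast this
  have key : ∀ P : ℕ, D ≤ P → (P : ℝ) / (2 * log P) ≤ ((QQ D P).card : ℝ) := by
    intro P hP
    have hP2 : 2 ≤ P := hD2.trans hP
    have hPD : (D : ℝ) ≤ P := by exact_mod_cast hP
    have hP0 : (0 : ℝ) < P := by linarith
    have hlP : 0 < log P := log_pos (by linarith)
    have hlD : 0 < log D := log_pos (by linarith)
    have hlDP : log D ≤ log P := log_le_log (by linarith) hPD
    have h1 := hK P (D * P) hP2 (Nat.le_mul_of_pos_left P (by omega))
    have h2 : log (log ((D * P : ℕ) : ℝ)) - log (log P) = log (1 + log D / log P) := by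
      rw [Nat.cast_mul, log_mul (by linarith) (by linarith), ← log_div (by positivity)
        (by positivity)]
      congr 1
      field_simp
      ring
    rw [h2] at h1
    have h3 : log D / log P / 2 ≤ log (1 + log D / log P) := by
      have hx0 : 0 < log D / log P := by positivity
      have hx1 : log D / log P ≤ 1 := by rw [div_le_one hlP]; exact hlDP
      have h4 := Real.one_sub_inv_le_log_of_pos (show 0 < 1 + log D / log P by linarith)
      refine le_trans ?_ h4
      rw [show 1 - (1 + log D / log P)⁻¹ = (log D / log P) / (1 + log D / log P) by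
        field_simp; ring]
      exact div_le_div_of_nonneg_left hx0.le (by linarith) (by linarith)
    have h5 : 1 / log P ≤ ∑ p ∈ Finset.Ioc P (D * P) with p.Prime ∧ p % 4 = 1, 2 / (p : ℝ) := by
      have h6 := (abs_le.1 h1).1
      have h7 : 1 / log P ≤ log D / log P / 2 - K0 / log P := by
        rw [div_div, mul_comm (log (P : ℝ)) 2, ← div_div, ← sub_div]
        apply div_le_div_of_nonneg_right _ hlP.le
        linarith
      linarith
    have h8 : ∑ p ∈ Finset.Ioc P (D * P) with p.Prime ∧ p % 4 = 1, 2 / (p : ℝ) ≤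
        ((QQ D P).card : ℝ) * (2 / P) := by
      have h9 : ∀ p ∈ (Finset.Ioc P (D * P)).filter (fun p => p.Prime ∧ p % 4 = 1),
          2 / (p : ℝ) ≤ 2 / P := by
        intro p hp
        rw [Finset.mem_filter, Finset.mem_Ioc] at hp
        have : (P : ℝ) ≤ p := by exact_mod_cast hp.1.1.le
        exact div_le_div_of_nonneg_left (by norm_num) hP0 this
      have h10 := Finset.sum_le_card_nsmul _ _ _ h9
      rw [nsmul_eq_mul] at h10
      exact h10
    have h11 : 1 / log P ≤ ((QQ D P).card : ℝ) * (2 / P) := h5.trans h8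
    rw [div_le_iff₀ (by positivity)]
    rw [div_le_iff₀ hlP] at h11
    have h12 : ((QQ D P).card : ℝ) * (2 / P) * log P * P = ((QQ D P).card : ℝ) * (2 * log P) := by
      field_simp
    rw [← h12]
    nlinarith
  have hlD : 0 < log D := log_pos (by linarith)
  have hl2 : 0 < log 2 := log_pos (by norm_num)
  refine ⟨D ^ 2, by nlinarith, min (1 / 2) (log 2 / (2 * log D)), by positivity, ?_⟩
  intro P hP
  have hP' : (2 : ℝ) ≤ P := by exact_mod_cast hP
  have hlP : 0 < log P := log_pos (by linarith)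
  rcases le_or_gt D P with h | h
  · have h1 := key P h
    have h2 : ((QQ D P).card : ℝ) ≤ ((QQ (D ^ 2) P).card : ℝ) := by
      exact_mod_cast Finset.card_le_card (QQ_mono le_rfl (Nat.mul_le_mul_right P (by nlinarith)))
    refine le_trans ?_ (h1.trans h2)
    rw [show (P : ℝ) / (2 * log P) = 1 / 2 * P / log P by field_simp]
    apply div_le_div_of_nonneg_right _ hlP.le
    exact mul_le_mul_of_nonneg_right (min_le_left _ _) (by linarith)
  · have h1 := key D le_rfl
    have h2 : ((QQ D D).card : ℝ) ≤ ((QQ (D ^ 2) P).card : ℝ) := by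
      exact_mod_cast Finset.card_le_card (QQ_mono h.le (by nlinarith))
    refine le_trans ?_ (h1.trans h2)
    have hPD : (P : ℝ) ≤ D := by exact_mod_cast h.le
    calc min (1 / 2) (log 2 / (2 * log D)) * P / log P
        ≤ (log 2 / (2 * log D)) * D / log 2 := by
          apply div_le_div₀ (by positivity) _ hl2 (log_le_log (by norm_num) hP')
          exact mul_le_mul (min_le_right _ _) hPD (by linarith) (by positivity)
      _ = D / (2 * log D) := by field_simp

/-- vectors on a line: at most `2 √(N / N u) + 1` vectors `v` of norm `≤ N` with determinant `m` -/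
theorem line_count (u : GaussianInt) (hu : Prim u) (m : ℤ) (N : ℕ) :
    (((ballG N).filter (fun v => crossG u v = m)).card : ℝ) ≤ 2 * √((N : ℝ) / nN u) + 1 := by
  classical
  set S := (ballG N).filter (fun v => crossG u v = m) with hS
  rcases S.eq_empty_or_nonempty with he | ⟨v0, hv0⟩
  · rw [he, Finset.card_empty, Nat.cast_zero]
    positivity
  have hu0 : 0 < nN u := nN_pos (prim_ne_zero hu)
  have hu0' : (0 : ℝ) < nN u := by exact_mod_cast hu0
  obtain ⟨a, b, hab⟩ : ∃ a b : ℤ, a * u.re + b * u.im = 1 := by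
    have h1 : Int.gcd u.re u.im = 1 := hu
    exact Int.isCoprime_iff_gcd_eq_one.2 h1
  let t : GaussianInt → ℤ := fun v => a * (v.re - v0.re) + b * (v.im - v0.im)
  rw [hS, Finset.mem_filter] at hv0
  have ht : ∀ v ∈ S, v.re = v0.re + t v * u.re ∧ v.im = v0.im + t v * u.im := by
    intro v hv
    rw [hS, Finset.mem_filter] at hv
    have h1 : u.re * (v.im - v0.im) = u.im * (v.re - v0.re) := by
      have h2 := hv.2
      have h3 := hv0.2
      unfold crossG at h2 h3
      linear_combination h2 - h3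
    refine ⟨?_, ?_⟩
    · simp only [t]
      linear_combination (-(v.re - v0.re)) * hab + (-b) * h1
    · simp only [t]
      linear_combination (-(v.im - v0.im)) * hab + a * h1
  have hinj : Set.InjOn t S := by
    intro v hv w hw hvw
    obtain ⟨h1, h2⟩ := ht v hv
    obtain ⟨h3, h4⟩ := ht w hw
    rw [hvw] at h1 h2
    exact Zsqrtd.ext (h1.trans h3.symm) (h2.trans h4.symm)
  set g0 : ℝ := (dotG u v0 : ℝ) / nN u with hg0
  set r : ℝ := √((N : ℝ) / nN u) with hr
  have hsub : S.image t ⊆ Finset.Icc ⌈-r - g0⌉ ⌊r - g0⌋ := by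
    intro k hk
    rw [Finset.mem_image] at hk
    obtain ⟨v, hv, rfl⟩ := hk
    obtain ⟨h1, h2⟩ := ht v hv
    have hdot : (dotG u v : ℝ) = (dotG u v0 : ℝ) + t v * nN u := by
      have h3 : dotG u v = dotG u v0 + t v * (u.re * u.re + u.im * u.im) := by
        unfold dotG
        rw [h1, h2]
        ring
      rw [h3, nN_real]
      push_cast
      ring
    have hvN : (nN v : ℝ) ≤ N := by
      rw [hS, Finset.mem_filter, mem_ballG, ← nN_cast_int] at hv
      exact_mod_cast hv.1
    have hsq : ((dotG u v : ℝ) / nN u) ^ 2 ≤ r ^ 2 := by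
      rw [hr, sq_sqrt (by positivity), div_pow, div_le_div_iff₀ (by positivity) hu0']
      have h4 : (dotG u v : ℝ) ^ 2 ≤ nN u * nN v := by
        have h5 := Pool.Agent.MP484c84Par.dot_cross u v
        rw [← nN_cast_int, ← nN_cast_int] at h5
        have h6 : (dotG u v : ℝ) ^ 2 + (crossG u v : ℝ) ^ 2 = nN u * nN v := by exact_mod_cast h5
        nlinarith [sq_nonneg (crossG u v : ℝ)]
      calc (dotG u v : ℝ) ^ 2 * nN u ≤ nN u * nN v * nN u := by
            exact mul_le_mul_of_nonneg_right h4 hu0'.le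
        _ ≤ nN u * N * nN u := by
            apply mul_le_mul_of_nonneg_right _ hu0'.le
            exact mul_le_mul_of_nonneg_left hvN hu0'.le
        _ = N * (nN u : ℝ) ^ 2 := by ring
    have habs := abs_le_of_sq_le_sq' hsq (sqrt_nonneg _)
    have heq : (dotG u v : ℝ) / nN u = g0 + t v := by
      rw [hdot, hg0]
      field_simp
    rw [heq] at habs
    rw [Finset.mem_Icc, Int.ceil_le, Int.le_floor]
    constructor <;> linarith [habs.1, habs.2]
  have hcard : S.card ≤ (⌊r - g0⌋ + 1 - ⌈-r - g0⌉).toNat := by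
    rw [← Finset.card_image_of_injOn hinj, ← Int.card_Icc]
    exact Finset.card_le_card hsub
  have hr0 : 0 ≤ r := sqrt_nonneg _
  have h1 : (((⌊r - g0⌋ + 1 - ⌈-r - g0⌉).toNat : ℤ) : ℝ) ≤ 2 * r + 1 := by
    rw [Int.toNat_eq_max]
    push_cast
    apply max_le _ (by linarith)
    have h2 := Int.floor_le (r - g0)
    have h3 := Int.le_ceil (-r - g0)
    linarith
  have h4 : (S.card : ℝ) ≤ ((⌊r - g0⌋ + 1 - ⌈-r - g0⌉).toNat : ℝ) := by exact_mod_cast hcard
  refine h4.trans (le_trans (le_of_eq ?_) h1)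
  push_cast
  rfl

end Pool.Agent.LogCh
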