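import Mathlib
import Pool.Agent.Lib.LogCh.EDefs
import Pool.Agent.Lib.LogCh.Shared

/-!
# Log-averaged cancellation at `n ^ 2 + 1`: module E.CNT
-/

set_option autoImplicit false

namespace Pool.Agent.LogCh

open Real
open Pool.Agent.NSqP
open Pool.Agent.MP484c84Par (ballG mem_ballG crossG dotG)

private lemma ecnt_card_ballG {n : ℕ} (hn : 1 ≤ n) : (ballG n).card ≤ 9 * n := by
  classical
  set s := Nat.sqrt n with hs
  have h1 : s * s ≤ n := Nat.sqrt_le n
  have h2 : n < (s + 1) * (s + 1) := Nat.lt_succ_sqrt n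
  have hs1 : 1 ≤ s := Nat.one_le_iff_ne_zero.2 (by
    rw [hs, Ne, Nat.sqrt_eq_zero]; omega)
  have h3 : (ballG n).card ≤
      (Finset.Icc (-(s : ℤ)) s ×ˢ Finset.Icc (-(s : ℤ)) s).card := by
    apply Finset.card_le_card_of_injOn (fun z : GaussianInt => (z.re, z.im))
    · intro z hz
      have hz' : z ∈ ballG n := hz
      rw [mem_ballG] at hz'
      rw [Zsqrtd.norm_def] at hz'
      have h4 : z.re * z.re + z.im * z.im ≤ n := by linarith
      have h5 : ((n : ℕ) : ℤ) < ((s : ℤ) + 1) * ((s : ℤ) + 1) := by exact_mod_cast h2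
      have h6 : z.re * z.re < ((s : ℤ) + 1) * ((s : ℤ) + 1) := by
        nlinarith [mul_self_nonneg z.im]
      have h7 : z.im * z.im < ((s : ℤ) + 1) * ((s : ℤ) + 1) := by
        nlinarith [mul_self_nonneg z.re]
      have h8 : |z.re| < (s : ℤ) + 1 := abs_lt_of_sq_lt_sq (by nlinarith) (by positivity)
      have h9 : |z.im| < (s : ℤ) + 1 := abs_lt_of_sq_lt_sq (by nlinarith) (by positivity)
      rw [abs_lt] at h8 h9
      simp only [Finset.coe_product, Finset.coe_Icc, Set.mem_prod, Set.mem_Icc]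
      refine ⟨⟨?_, ?_⟩, ?_, ?_⟩ <;> linarith [h8.1, h8.2, h9.1, h9.2]
    · intro z _ w _ h
      simp only [Prod.mk.injEq] at h
      exact Zsqrtd.ext h.1 h.2
  rw [Finset.card_product, Int.card_Icc] at h3
  have h10 : ((s : ℤ) + 1 - -(s : ℤ)).toNat = 2 * s + 1 := by omega
  rw [h10] at h3
  nlinarith

private lemma ecnt_mem_VV {N : ℕ} {z : GaussianInt} (h : z ∈ VV N) :
    Prim z ∧ 0 < nN z ∧ nN z ≤ N ∧ z ∈ ballG N := by
  unfold VV at h
  rw [mem_pann (Nat.cast_nonneg N)] at h
  have h1 : nN z ≤ N := by exact_mod_cast h.1.2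
  refine ⟨h.2, by exact_mod_cast h.1.1, h1, ?_⟩
  rw [mem_ballG, ← nN_cast_int]
  exact_mod_cast h1

/-- **CNT**: the number of the pairs of determinant `D`.
Proof: for each `u` with `N u > a N` the line `u × u' = D` has at most `2 / √a + 1` points
(`line_count`), and `#(ballG N) ≤ C N` (`N ≥ 1`; `N = 0`: no pair because `VV 0` is empty). -/
theorem CNTp : CNTStmt := by
  classical
  intro a ha
  have hsa : 0 < √a := sqrt_pos.2 ha
  refine ⟨9 * (2 / √a + 1), by positivity, ?_⟩
  intro D N
  rcases Nat.eq_zero_or_pos N with h0 | hN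
  · subst h0
    have h1 : lpairs a D 0 = ∅ := by
      rw [Finset.eq_empty_iff_forall_notMem]
      intro p hp
      unfold lpairs dpairs at hp
      rw [Finset.mem_filter, Finset.mem_filter, Finset.mem_product] at hp
      have h2 := ecnt_mem_VV hp.1.1.1
      omega
    rw [h1]
    simp
  have hN' : (0 : ℝ) < N := by exact_mod_cast hN
  have hmaps : ∀ p ∈ lpairs a D N, p.1 ∈ (ballG N).filter (fun u => Prim u ∧ a * N < nN u) := by
    intro p hp
    unfold lpairs dpairs at hp
    rw [Finset.mem_filter, Finset.mem_filter, Finset.mem_product] at hp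
    have h2 := ecnt_mem_VV hp.1.1.1
    rw [Finset.mem_filter]
    exact ⟨h2.2.2.2, h2.1, hp.2.1⟩
  have hcard := Finset.card_eq_sum_card_fiberwise hmaps
  rw [hcard, Nat.cast_sum]
  have hfib : ∀ u ∈ (ballG N).filter (fun u => Prim u ∧ a * N < nN u),
      (((lpairs a D N).filter (fun p => p.1 = u)).card : ℝ) ≤ 2 / √a + 1 := by
    intro u hu
    rw [Finset.mem_filter] at hu
    obtain ⟨_, hup, hua⟩ := hu
    have h1 : ((lpairs a D N).filter (fun p => p.1 = u)).card ≤
        ((ballG N).filter (fun v => crossG u v = D)).card := by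
      apply Finset.card_le_card_of_injOn (fun p : GaussianInt × GaussianInt => p.2)
      · intro p hp
        rw [Finset.mem_coe, Finset.mem_filter] at hp
        obtain ⟨hp1, hp2⟩ := hp
        unfold lpairs dpairs at hp1
        rw [Finset.mem_filter, Finset.mem_filter, Finset.mem_product] at hp1
        rw [Finset.mem_coe, Finset.mem_filter]
        refine ⟨(ecnt_mem_VV hp1.1.1.2).2.2.2, ?_⟩
        rw [← hp2]
        exact hp1.1.2.1
      · intro p hp q hq hpq
        rw [Finset.mem_coe, Finset.mem_filter] at hp hq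
        exact Prod.ext (hp.2.trans hq.2.symm) hpq
    have h2 := line_count u hup D N
    have h3 : (((lpairs a D N).filter (fun p => p.1 = u)).card : ℝ) ≤
        (((ballG N).filter (fun v => crossG u v = D)).card : ℝ) := by exact_mod_cast h1
    have hu0 : (0 : ℝ) < nN u := lt_of_le_of_lt (by positivity) hua
    have h4 : √((N : ℝ) / nN u) ≤ 1 / √a := by
      rw [← sqrt_one, ← sqrt_div (by norm_num : (0 : ℝ) ≤ 1)]
      apply sqrt_le_sqrt
      rw [div_le_div_iff₀ hu0 ha]
      linarith
    calc (((lpairs a D N).filter (fun p => p.1 = u)).card : ℝ) ≤ 2 * √((N : ℝ) / nN u) + 1 :=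
          h3.trans h2
      _ ≤ 2 * (1 / √a) + 1 := by linarith
      _ = 2 / √a + 1 := by ring
  have h5 := Finset.sum_le_card_nsmul _ _ _ hfib
  refine h5.trans ?_
  rw [nsmul_eq_mul]
  have h6 : (((ballG N).filter (fun u => Prim u ∧ a * N < nN u)).card : ℝ) ≤ 9 * N := by
    have h7 : ((ballG N).filter (fun u => Prim u ∧ a * N < nN u)).card ≤ 9 * N :=
      (Finset.card_le_card (Finset.filter_subset _ _)).trans (ecnt_card_ballG hN)
    exact_mod_cast h7
  have h8 : 0 < 2 / √a + 1 := by positivity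
  calc (((ballG N).filter (fun u => Prim u ∧ a * N < nN u)).card : ℝ) * (2 / √a + 1)
      ≤ 9 * N * (2 / √a + 1) := mul_le_mul_of_nonneg_right h6 h8.le
    _ = 9 * (2 / √a + 1) * N := by ring

end Pool.Agent.LogCh
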