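import Mathlib
import Pool.Agent.Lib.LogCh.EDefs

/-!
# Log-averaged cancellation at `n ^ 2 + 1`: module E.COF
-/

set_option autoImplicit false

namespace Pool.Agent.LogCh

open Real
open Pool.Agent.NSqP
open Pool.Agent.MP484c84Par (ballG mem_ballG crossG dotG)

private lemma ecof_dvd (D : ℕ) (a : GaussianInt) :
    (D : GaussianInt) ∣ a ↔ (D : ℤ) ∣ a.re ∧ (D : ℤ) ∣ a.im := by
  have h := Zsqrtd.intCast_dvd (d := -1) (D : ℤ) a
  rwa [Int.cast_natCast] at h

private lemma ecof_bezout {z : GaussianInt} (hz : Prim z) : ∃ s t : ℤ, s * z.re + t * z.im = 1 := by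
  have h : IsCoprime z.re z.im := Int.isCoprime_iff_gcd_eq_one.2 hz
  obtain ⟨s, t, hst⟩ := h
  exact ⟨s, t, hst⟩

private lemma ecof_mul (D : ℕ) {u : GaussianInt} (hu : Prim u) (k : ℤ) :
    (D : GaussianInt) ∣ (k : GaussianInt) * u ↔ (D : ℤ) ∣ k := by
  rw [ecof_dvd]
  obtain ⟨s, t, hst⟩ := ecof_bezout hu
  simp only [Zsqrtd.re_mul, Zsqrtd.im_mul, Zsqrtd.re_intCast, Zsqrtd.im_intCast]
  constructor
  · rintro ⟨h1, h2⟩
    have e : k = s * (k * u.re + -1 * 0 * u.im) + t * (k * u.im + 0 * u.re) := by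
      linear_combination (-k) * hst
    rw [e]
    exact dvd_add (Dvd.dvd.mul_left h1 _) (Dvd.dvd.mul_left h2 _)
  · intro h
    constructor
    · have e : k * u.re + -1 * 0 * u.im = k * u.re := by ring
      rw [e]
      exact Dvd.dvd.mul_right h _
    · have e : k * u.im + 0 * u.re = k * u.im := by ring
      rw [e]
      exact Dvd.dvd.mul_right h _

/-- **COF**: the multiplier. For `u = x + i y` primitive, `s x + t y = 1`, `c = s x' + t y'` where
`u' = x' + i y'`; `c` is coprime to `D` because `u'` is primitive; `D ∣ α u' - β u` iff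
`D ∣ (α c - β) u` iff `D ∣ α c - β`. -/
theorem COFp : COFStmt := by
  intro D N _ p hp
  unfold dpairs at hp
  rw [Finset.mem_filter, Finset.mem_product] at hp
  obtain ⟨⟨hp1, hp2⟩, hcr, -⟩ := hp
  unfold VV at hp1 hp2
  rw [mem_pann (Nat.cast_nonneg N)] at hp1 hp2
  have h1 : Prim p.1 := hp1.2
  have h2 : Prim p.2 := hp2.2
  have hex : ∃ c : ℤ, (D : GaussianInt) ∣ p.2 - (c : GaussianInt) * p.1 := by
    obtain ⟨s, t, hst⟩ := ecof_bezout h1
    refine ⟨s * p.2.re + t * p.2.im, ?_⟩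
    rw [ecof_dvd]
    unfold crossG at hcr
    simp only [Zsqrtd.re_sub, Zsqrtd.im_sub, Zsqrtd.re_mul, Zsqrtd.im_mul, Zsqrtd.re_intCast,
      Zsqrtd.im_intCast]
    constructor
    · exact ⟨-t, by linear_combination (-t) * hcr - p.2.re * hst⟩
    · exact ⟨s, by linear_combination s * hcr - p.2.im * hst⟩
  have hc : (D : GaussianInt) ∣ p.2 - (cof D p : GaussianInt) * p.1 := by
    unfold cof
    rw [dif_pos hex]
    exact hex.choose_spec
  refine ⟨hc, ?_, fun c => ?_, fun α β => ?_⟩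
  · obtain ⟨s, t, hst⟩ := ecof_bezout h2
    have h3 := (ecof_dvd _ _).1 hc
    simp only [Zsqrtd.re_sub, Zsqrtd.im_sub, Zsqrtd.re_mul, Zsqrtd.im_mul, Zsqrtd.re_intCast,
      Zsqrtd.im_intCast] at h3
    obtain ⟨⟨a, ha⟩, ⟨b, hb⟩⟩ := h3
    refine ⟨s * p.1.re + t * p.1.im, s * a + t * b, ?_⟩
    linear_combination hst - s * ha - t * hb
  · have e : p.2 - (c : GaussianInt) * p.1 = (p.2 - (cof D p : GaussianInt) * p.1) +
        ((cof D p - c : ℤ) : GaussianInt) * p.1 := by push_cast; ring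
    rw [e, dvd_add_right hc, ecof_mul D h1]
  · have e : (α : GaussianInt) * p.2 - (β : GaussianInt) * p.1 =
        (α : GaussianInt) * (p.2 - (cof D p : GaussianInt) * p.1) +
        ((cof D p * α - β : ℤ) : GaussianInt) * p.1 := by push_cast; ring
    rw [e, dvd_add_right (Dvd.dvd.mul_left hc _), ecof_mul D h1]

end Pool.Agent.LogCh
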