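import Mathlib
import Pool.Agent.Lib.LogCh.EDefs

/-!
# Log-averaged cancellation at `n ^ 2 + 1`: module E.CONDS
-/

set_option autoImplicit false

namespace Pool.Agent.LogCh

open Real
open Pool.Agent.NSqP
open Pool.Agent.MP484c84Par (ballG mem_ballG crossG dotG)

open Classical in
private theorem conds_bij {D r : ℕ} (hD : 1 ≤ D) (hrD : r ∣ D) {M : Type} [AddCommMonoid M]
    (f : DirichletCharacter ℂ D → M) (g : DirichletCharacter ℂ r → M)
    (hfg : ∀ ψ : DirichletCharacter ℂ r, f (DirichletCharacter.changeLevel hrD ψ) = g ψ) :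
    (∑ χ : DirichletCharacter ℂ D, if χ.conductor = r then f χ else 0) =
      ∑ ψ : DirichletCharacter ℂ r, if ψ.IsPrimitive then g ψ else 0 := by
  have : NeZero D := ⟨by omega⟩
  rw [← Finset.sum_filter, ← Finset.sum_filter]
  symm
  apply Finset.sum_nbij (fun ψ => DirichletCharacter.changeLevel hrD ψ)
  · intro ψ hψ
    rw [Finset.mem_filter] at hψ ⊢
    refine ⟨Finset.mem_univ _, ?_⟩
    rw [DirichletCharacter.conductor_changeLevel]
    exact hψ.2
  · exact (DirichletCharacter.changeLevel_injective hrD).injOn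
  · intro χ hχ
    rw [Finset.mem_coe, Finset.mem_filter] at hχ
    obtain ⟨-, hχ⟩ := hχ
    subst hχ
    refine ⟨χ.primitiveCharacter, ?_, ?_⟩
    · rw [Finset.mem_coe, Finset.mem_filter]
      exact ⟨Finset.mem_univ _, χ.primitiveCharacter_isPrimitive⟩
    · exact χ.changeLevel_primitiveCharacter
  · intro ψ _
    exact (hfg ψ).symm

private theorem conds_SA {D r : ℕ} (hrD : r ∣ D) (A : Finset ℕ)
    (hA : ∀ q ∈ A, Nat.Coprime q D) (ψ : DirichletCharacter ℂ r) :
    SA A (DirichletCharacter.changeLevel hrD ψ) = SA A ψ := by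
  unfold SA
  apply Finset.sum_congr rfl
  intro α hα
  have h := DirichletCharacter.changeLevel_eq_cast_of_dvd' ψ hrD (a := (α : ℤ))
    (Nat.isCoprime_iff_coprime.2 (hA α hα))
  rw [Int.cast_natCast, Int.cast_natCast] at h
  exact h

/-- **CONDS**: the characters modulo `D` of conductor `r` correspond to the primitive characters
modulo `r` (`changeLevel`, `conductor_changeLevel`, `changeLevel_injective`,
`factorsThrough_conductor`), with the same values at integers coprime to `D`. -/
theorem CONDSp : CONDSStmt := by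
  intro A D r hD hrD hA
  constructor
  · intro c hc
    unfold mr
    apply conds_bij hD hrD
    intro ψ
    rw [conds_SA hrD A hA, DirichletCharacter.changeLevel_eq_cast_of_dvd' ψ hrD hc]
  · unfold S4
    apply conds_bij hD hrD
    intro ψ
    rw [conds_SA hrD A hA]

end Pool.Agent.LogCh
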