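import Mathlib
import Pool.Agent.Lib.LogCh.EDefs

/-!
# Log-averaged cancellation at `n ^ 2 + 1`: module E.ECH
-/

set_option autoImplicit false

namespace Pool.Agent.LogCh

open Real
open Pool.Agent.NSqP
open Pool.Agent.MP484c84Par (ballG mem_ballG crossG dotG)

namespace ECHaux

lemma SA_norm_le {r : ℕ} (A : Finset ℕ) (ψ : DirichletCharacter ℂ r) : ‖SA A ψ‖ ≤ A.card := by
  unfold SA
  refine (norm_sum_le _ _).trans ?_
  refine (Finset.sum_le_card_nsmul _ _ 1 fun a _ => DirichletCharacter.norm_le_one ψ _).trans ?_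
  simp

lemma S2_nonneg (A : Finset ℕ) (r : ℕ) : 0 ≤ S2 A r := by
  unfold S2
  refine Finset.sum_nonneg fun ψ _ => ?_
  split_ifs
  · positivity
  · exact le_rfl

lemma S4_nonneg (A : Finset ℕ) (r : ℕ) : 0 ≤ S4 A r := by
  unfold S4
  refine Finset.sum_nonneg fun ψ _ => ?_
  split_ifs
  · positivity
  · exact le_rfl

lemma S4_le (A : Finset ℕ) (r : ℕ) : S4 A r ≤ (A.card : ℝ) ^ 2 * S2 A r := by
  unfold S4 S2
  rw [Finset.mul_sum]
  refine Finset.sum_le_sum fun ψ _ => ?_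
  split_ifs
  · have h1 := SA_norm_le A ψ
    have h0 := norm_nonneg (SA A ψ)
    have h2 : ‖SA A ψ‖ ^ 2 ≤ (A.card : ℝ) ^ 2 := pow_le_pow_left₀ h0 h1 2
    have h3 : 0 ≤ ‖SA A ψ‖ ^ 2 := by positivity
    calc ‖SA A ψ‖ ^ 4 = ‖SA A ψ‖ ^ 2 * ‖SA A ψ‖ ^ 2 := by ring
      _ ≤ (A.card : ℝ) ^ 2 * ‖SA A ψ‖ ^ 2 := mul_le_mul_of_nonneg_right h2 h3
  · simp

/-- number of the representations of `n` as a product of two elements of `A` -/
noncomputable def xx (A : Finset ℕ) (n : ℕ) : ℂ :=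
  (((A ×ˢ A).filter (fun p : ℕ × ℕ => p.1 * p.2 = n)).card : ℂ)

lemma xx_card_le {C1 P : ℕ} {A : Finset ℕ} (hA : A ⊆ QQ C1 P) (n : ℕ) :
    ((A ×ˢ A).filter (fun p : ℕ × ℕ => p.1 * p.2 = n)).card ≤ 2 := by
  classical
  have hpr : ∀ q ∈ A, q.Prime := by
    intro q hq
    have := hA hq
    unfold QQ at this
    exact (Finset.mem_filter.1 this).2.1
  rcases ((A ×ˢ A).filter (fun p : ℕ × ℕ => p.1 * p.2 = n)).eq_empty_or_nonempty with he | ⟨p0, hp0⟩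
  · rw [he]; simp
  · rw [Finset.mem_filter, Finset.mem_product] at hp0
    have hsub : ((A ×ˢ A).filter (fun p : ℕ × ℕ => p.1 * p.2 = n)) ⊆
        {(p0.1, p0.2), (p0.2, p0.1)} := by
      intro p hp
      rw [Finset.mem_filter, Finset.mem_product] at hp
      have h1 := hpr _ hp.1.1
      have h2 := hpr _ hp.1.2
      have h3 := hpr _ hp0.1.1
      have h4 := hpr _ hp0.1.2
      have he : p.1 * p.2 = p0.1 * p0.2 := hp.2.trans hp0.2.symm
      have hd : p.1 ∣ p0.1 * p0.2 := he ▸ Dvd.intro _ rfl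
      rw [Finset.mem_insert, Finset.mem_singleton]
      rcases (Nat.Prime.dvd_mul h1).1 hd with h5 | h5
      · left
        have h6 : p.1 = p0.1 := (Nat.prime_dvd_prime_iff_eq h1 h3).1 h5
        rw [h6] at he
        have h7 : p.2 = p0.2 := Nat.eq_of_mul_eq_mul_left h3.pos he
        exact Prod.ext h6 h7
      · right
        have h6 : p.1 = p0.2 := (Nat.prime_dvd_prime_iff_eq h1 h4).1 h5
        rw [h6, mul_comm p0.1] at he
        have h7 : p.2 = p0.1 := Nat.eq_of_mul_eq_mul_left h4.pos he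
        exact Prod.ext h6 h7
    exact (Finset.card_le_card hsub).trans Finset.card_le_two

lemma mapsto {C1 P : ℕ} {A : Finset ℕ} (hA : A ⊆ QQ C1 P) :
    ∀ p ∈ A ×ˢ A, p.1 * p.2 ∈ Finset.Icc 1 ((C1 * P) ^ 2) := by
  intro p hp
  rw [Finset.mem_product] at hp
  have h1 := hA hp.1
  have h2 := hA hp.2
  unfold QQ at h1 h2
  rw [Finset.mem_filter, Finset.mem_Ioc] at h1 h2
  rw [Finset.mem_Icc]
  refine ⟨Nat.mul_pos (by omega) (by omega), ?_⟩
  rw [sq]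
  exact Nat.mul_le_mul h1.1.2 h2.1.2

lemma xx_sq_sum {C1 P : ℕ} {A : Finset ℕ} (hA : A ⊆ QQ C1 P) :
    ∑ n ∈ Finset.Icc 1 ((C1 * P) ^ 2), ‖xx A n‖ ^ 2 ≤ 2 * (A.card : ℝ) ^ 2 := by
  classical
  have h1 : ∀ n ∈ Finset.Icc 1 ((C1 * P) ^ 2), ‖xx A n‖ ^ 2 ≤
      2 * ((((A ×ˢ A).filter (fun p : ℕ × ℕ => p.1 * p.2 = n)).card : ℕ) : ℝ) := by
    intro n _
    unfold xx
    rw [Complex.norm_natCast]
    have h2 : ((((A ×ˢ A).filter (fun p : ℕ × ℕ => p.1 * p.2 = n)).card : ℕ) : ℝ) ≤ 2 := by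
      exact_mod_cast xx_card_le hA n
    have h3 : (0 : ℝ) ≤ ((((A ×ˢ A).filter (fun p : ℕ × ℕ => p.1 * p.2 = n)).card : ℕ) : ℝ) := by
      positivity
    nlinarith
  refine (Finset.sum_le_sum h1).trans ?_
  rw [← Finset.mul_sum, ← Nat.cast_sum, ← Finset.card_eq_sum_card_fiberwise (mapsto hA),
    Finset.card_product]
  push_cast
  rw [sq]

lemma SA_sq {C1 P r : ℕ} {A : Finset ℕ} (hA : A ⊆ QQ C1 P) (ψ : DirichletCharacter ℂ r) :
    (SA A ψ) ^ 2 = ∑ n ∈ Finset.Icc 1 ((C1 * P) ^ 2), xx A n * ψ ((n : ℕ) : ZMod r) := by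
  classical
  have h1 : (SA A ψ) ^ 2 = ∑ p ∈ A ×ˢ A, ψ (((p.1 * p.2 : ℕ)) : ZMod r) := by
    unfold SA
    rw [sq, Finset.sum_mul_sum, ← Finset.sum_product']
    refine Finset.sum_congr rfl fun p _ => ?_
    rw [Nat.cast_mul, map_mul]
  rw [h1, ← Finset.sum_fiberwise_of_maps_to (mapsto hA)]
  refine Finset.sum_congr rfl fun n _ => ?_
  rw [Finset.sum_congr rfl (g := fun _ => ψ ((n : ℕ) : ZMod r))]
  · rw [Finset.sum_const, nsmul_eq_mul]
    rfl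
  · intro p hp
    rw [(Finset.mem_filter.1 hp).2]

lemma S4_sum_le {CM : ℝ} {C1 P R : ℕ} (hR : 1 ≤ R)
    (hM : ∀ (R M : ℕ) (x : ℕ → ℂ), 1 ≤ R → open Classical in
      ∑ r ∈ Finset.Icc 1 R, ∑ ψ : DirichletCharacter ℂ r,
      (if ψ.IsPrimitive then ‖∑ n ∈ Finset.Icc 1 M, x n * ψ ((n : ℕ) : ZMod r)‖ ^ 2 else 0) ≤
      CM * (M + R ^ 2) * ∑ n ∈ Finset.Icc 1 M, ‖x n‖ ^ 2) {A : Finset ℕ} (hA : A ⊆ QQ C1 P)
    (hCM : 0 < CM) :
    ∑ r ∈ Finset.Icc 1 R, S4 A r ≤ CM * ((C1 * P) ^ 2 + R ^ 2) * (2 * (A.card : ℝ) ^ 2) := by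
  classical
  have h1 := hM R ((C1 * P) ^ 2) (xx A) hR
  have h2 : ∑ r ∈ Finset.Icc 1 R, S4 A r = ∑ r ∈ Finset.Icc 1 R, ∑ ψ : DirichletCharacter ℂ r,
      (if ψ.IsPrimitive then ‖∑ n ∈ Finset.Icc 1 ((C1 * P) ^ 2),
        xx A n * ψ ((n : ℕ) : ZMod r)‖ ^ 2 else 0) := by
    refine Finset.sum_congr rfl fun r _ => ?_
    unfold S4
    refine Finset.sum_congr rfl fun ψ _ => ?_
    split_ifs
    · rw [← SA_sq hA ψ, norm_pow]
      ring
    · rfl
  rw [h2]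
  refine h1.trans ?_
  push_cast
  exact mul_le_mul_of_nonneg_left (xx_sq_sum hA) (by positivity)

end ECHaux

open ECHaux in
/-- **ECH** (from `MLSStmt`, `LFStmt`, `QUPStmt`): for `r^20 ≤ P` bound `S4 A r ≤ |A|² S2 A r`, so
this part is `≤ (1/R0) |A|² C (P/log P) |A|`; for `r^20 > P`, `1/r ≤ P^{-1/20}` and
`S(ψ)² = ∑_n x_n ψ(n)` with `x_n = #{(α, β) ∈ A² : α β = n} ≤ 2`, `n ≤ (C1 P)²`,
`∑ x_n² ≤ 2 |A|²`: `MLS` gives `≤ P^{-1/20} C P² |A|²`. -/
theorem ECHp (hM : MLSStmt) (hL : LFStmt) (hQ : QUPStmt) : ECHStmt := by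
  classical
  intro C1 C2 hC1 hC2
  obtain ⟨CM, hCM, hM⟩ := hM
  obtain ⟨CL, hCL, P0, hL⟩ := hL C1 hC1
  obtain ⟨CQ, hCQ, hQ⟩ := hQ C1 hC1
  refine ⟨CL * CQ ^ 3, by positivity, ?_⟩
  intro δ hδ
  set K : ℝ := CM * ((C1 : ℝ) ^ 2 + C2 ^ 2) * 2 * CQ ^ 2 with hK
  have hC1' : (1 : ℝ) ≤ C1 := by exact_mod_cast hC1
  have hK0 : 0 < K := by positivity
  have hlo : ∀ᶠ x : ℝ in Filter.atTop, ‖log x ^ (2 : ℝ)‖ ≤ (δ / K) * ‖x ^ (1 / 20 : ℝ)‖ :=
    (isLittleO_log_rpow_rpow_atTop 2 (by norm_num : (0 : ℝ) < 1 / 20)).bound (by positivity)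
  have hlo' := (tendsto_natCast_atTop_atTop (R := ℝ)).eventually hlo
  obtain ⟨P1, hP1⟩ := Filter.eventually_atTop.1 hlo'
  refine ⟨max (max P0 P1) 3, ?_⟩
  intro P hP A hA R0 hR0
  have hPP0 : P0 ≤ P := (le_max_left _ _).trans ((le_max_left _ _).trans hP)
  have hPP1 : P1 ≤ P := (le_max_right _ _).trans ((le_max_left _ _).trans hP)
  have hP3 : 3 ≤ P := (le_max_right _ _).trans hP
  have hP3' : (3 : ℝ) ≤ P := by exact_mod_cast hP3
  have hP0' : (0 : ℝ) < P := by linarith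
  have hlP : 0 < log P := log_pos (by linarith)
  have hR0' : (0 : ℝ) < R0 := by exact_mod_cast hR0
  have hAc : (A.card : ℝ) ≤ CQ * (P / log P) :=
    (by exact_mod_cast Finset.card_le_card hA : (A.card : ℝ) ≤ (QQ C1 P).card).trans
      (hQ P (by omega))
  have hA0 : (0 : ℝ) ≤ A.card := Nat.cast_nonneg _
  have hPl : 0 < (P : ℝ) / log P := by positivity
  -- splitting
  rw [← Finset.sum_filter_add_sum_filter_not (Finset.Ioc R0 (C2 * P)) (fun r => r ^ 20 ≤ P)]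
  -- first part
  have hfirst : ∑ r ∈ (Finset.Ioc R0 (C2 * P)).filter (fun r => r ^ 20 ≤ P), S4 A r / r ≤
      CL * CQ ^ 3 / R0 * (P / log P) ^ 4 := by
    set R := Nat.findGreatest (fun r => r ^ 20 ≤ P) P with hRdef
    have hR : R ^ 20 ≤ P := Nat.findGreatest_spec (P := fun r => r ^ 20 ≤ P) (m := 0)
      (Nat.zero_le _) (by norm_num)
    have hsub : (Finset.Ioc R0 (C2 * P)).filter (fun r => r ^ 20 ≤ P) ⊆ Finset.Icc 1 R := by
      intro r hr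
      rw [Finset.mem_filter, Finset.mem_Ioc] at hr
      rw [Finset.mem_Icc]
      refine ⟨by omega, Nat.le_findGreatest ((Nat.le_self_pow (by norm_num) r).trans hr.2) hr.2⟩
    calc ∑ r ∈ (Finset.Ioc R0 (C2 * P)).filter (fun r => r ^ 20 ≤ P), S4 A r / r
        ≤ ∑ r ∈ (Finset.Ioc R0 (C2 * P)).filter (fun r => r ^ 20 ≤ P),
          ((A.card : ℝ) ^ 2 / R0) * S2 A r := by
          refine Finset.sum_le_sum fun r hr => ?_
          rw [Finset.mem_filter, Finset.mem_Ioc] at hr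
          have hr0 : (R0 : ℝ) ≤ r := by exact_mod_cast hr.1.1.le
          calc S4 A r / r ≤ S4 A r / R0 := div_le_div_of_nonneg_left (S4_nonneg A r) hR0' hr0
            _ ≤ ((A.card : ℝ) ^ 2 * S2 A r) / R0 :=
              div_le_div_of_nonneg_right (S4_le A r) hR0'.le
            _ = _ := by ring
      _ ≤ ∑ r ∈ Finset.Icc 1 R, ((A.card : ℝ) ^ 2 / R0) * S2 A r :=
          Finset.sum_le_sum_of_subset_of_nonneg hsub
            (fun r _ _ => mul_nonneg (by positivity) (S2_nonneg A r))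
      _ = ((A.card : ℝ) ^ 2 / R0) * ∑ r ∈ Finset.Icc 1 R, S2 A r := by rw [Finset.mul_sum]
      _ ≤ ((A.card : ℝ) ^ 2 / R0) * (CL * (P / log P) * A.card) :=
          mul_le_mul_of_nonneg_left (hL P hPP0 A hA R hR) (by positivity)
      _ = (CL / R0 * (P / log P)) * (A.card : ℝ) ^ 3 := by ring
      _ ≤ (CL / R0 * (P / log P)) * (CQ * (P / log P)) ^ 3 :=
          mul_le_mul_of_nonneg_left (pow_le_pow_left₀ hA0 hAc 3) (by positivity)
      _ = _ := by ring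
  have hsecond : ∑ r ∈ (Finset.Ioc R0 (C2 * P)).filter (fun r => ¬ r ^ 20 ≤ P), S4 A r / r ≤
      δ * (P / log P) ^ 4 := by
    have hsub : (Finset.Ioc R0 (C2 * P)).filter (fun r => ¬ r ^ 20 ≤ P) ⊆
        Finset.Icc 1 (C2 * P) := by
      intro r hr
      rw [Finset.mem_filter, Finset.mem_Ioc] at hr
      rw [Finset.mem_Icc]
      exact ⟨by omega, hr.1.2⟩
    have hpw : 0 < (P : ℝ) ^ (1 / 20 : ℝ) := rpow_pos_of_pos hP0' _
    have hlog2 := hP1 P hPP1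
    rw [norm_of_nonneg (by positivity), norm_of_nonneg hpw.le,
      show (2 : ℝ) = ((2 : ℕ) : ℝ) by norm_num, rpow_natCast] at hlog2
    calc ∑ r ∈ (Finset.Ioc R0 (C2 * P)).filter (fun r => ¬ r ^ 20 ≤ P), S4 A r / r
        ≤ ∑ r ∈ (Finset.Ioc R0 (C2 * P)).filter (fun r => ¬ r ^ 20 ≤ P),
          S4 A r / (P : ℝ) ^ (1 / 20 : ℝ) := by
          refine Finset.sum_le_sum fun r hr => ?_
          rw [Finset.mem_filter, Finset.mem_Ioc] at hr
          have h1 : (P : ℝ) ≤ (r : ℝ) ^ 20 := by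
            have := hr.2
            push Not at this
            exact_mod_cast this.le
          have h2 : (P : ℝ) ^ (1 / 20 : ℝ) ≤ r := by
            have h3 := rpow_le_rpow hP0'.le h1 (by norm_num : (0 : ℝ) ≤ 1 / 20)
            rw [← rpow_natCast, ← rpow_mul (by positivity)] at h3
            norm_num at h3
            convert h3 using 2
          exact div_le_div_of_nonneg_left (S4_nonneg A r) hpw h2
      _ ≤ ∑ r ∈ Finset.Icc 1 (C2 * P), S4 A r / (P : ℝ) ^ (1 / 20 : ℝ) :=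
          Finset.sum_le_sum_of_subset_of_nonneg hsub
            (fun r _ _ => div_nonneg (S4_nonneg A r) hpw.le)
      _ = (∑ r ∈ Finset.Icc 1 (C2 * P), S4 A r) / (P : ℝ) ^ (1 / 20 : ℝ) := by
          rw [Finset.sum_div]
      _ ≤ (CM * ((C1 * P) ^ 2 + ((C2 * P : ℕ) : ℝ) ^ 2) * (2 * (A.card : ℝ) ^ 2)) /
          (P : ℝ) ^ (1 / 20 : ℝ) :=
          div_le_div_of_nonneg_right (S4_sum_le (Nat.mul_pos (by omega) (by omega)) hM hA hCM)
            hpw.le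
      _ = CM * ((C1 : ℝ) ^ 2 + C2 ^ 2) * 2 * P ^ 2 * (A.card : ℝ) ^ 2 /
          (P : ℝ) ^ (1 / 20 : ℝ) := by
          push_cast; ring
      _ ≤ CM * ((C1 : ℝ) ^ 2 + C2 ^ 2) * 2 * P ^ 2 * (CQ * (P / log P)) ^ 2 /
          (P : ℝ) ^ (1 / 20 : ℝ) := by
          apply div_le_div_of_nonneg_right _ hpw.le
          exact mul_le_mul_of_nonneg_left (pow_le_pow_left₀ hA0 hAc 2) (by positivity)
      _ = (K * log P ^ 2 / (P : ℝ) ^ (1 / 20 : ℝ)) * (P / log P) ^ 4 := by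
          rw [hK]
          field_simp
      _ ≤ δ * (P / log P) ^ 4 := by
          apply mul_le_mul_of_nonneg_right _ (by positivity)
          rw [div_le_iff₀ hpw]
          calc K * log P ^ 2 ≤ K * (δ / K * (P : ℝ) ^ (1 / 20 : ℝ)) :=
                mul_le_mul_of_nonneg_left hlog2 hK0.le
            _ = δ * (P : ℝ) ^ (1 / 20 : ℝ) := by field_simp
  calc _ ≤ CL * CQ ^ 3 / R0 * (P / log P) ^ 4 + δ * (P / log P) ^ 4 := add_le_add hfirst hsecond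
    _ = _ := by ring

end Pool.Agent.LogCh
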