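import Mathlib
import Pool.Agent.Lib.LogCh.EDefs

/-!
# Log-averaged cancellation at `n ^ 2 + 1`: module E.EERR
-/

set_option autoImplicit false

namespace Pool.Agent.LogCh

open Real
open Pool.Agent.NSqP
open Pool.Agent.MP484c84Par (ballG mem_ballG crossG dotG)

private lemma eerr_S4 (A : Finset ℕ) (r : ℕ) : 0 ≤ S4 A r := by
  classical
  unfold S4
  refine Finset.sum_nonneg fun ψ _ => ?_
  split_ifs
  · positivity
  · exact le_rfl

private lemma eerr_tc {A : Finset ℕ} {D : ℕ} {c c' : ℤ} (h : (D : ℤ) ∣ c - c') :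
    tc A D c = tc A D c' := by
  unfold tc
  congr 1
  refine Finset.filter_congr fun x _ => ?_
  have h1 : c * (x.1 : ℤ) - x.2 = (c - c') * x.1 + (c' * x.1 - x.2) := by ring
  rw [h1]
  exact dvd_add_right (h.mul_right _)

private lemma eerr_MM {A : Finset ℕ} {R0 D : ℕ} {c c' : ℤ} (h : (D : ℤ) ∣ c - c') :
    MM A R0 D c = MM A R0 D c' := by
  unfold MM
  congr 1
  refine Finset.sum_congr rfl fun r hr => ?_
  have hr' : r ∣ D := (Finset.mem_filter.1 hr).2
  have h1 : ((c : ℤ) : ZMod r) = ((c' : ℤ) : ZMod r) := by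
    rw [ZMod.intCast_eq_intCast_iff_dvd_sub, ← dvd_neg, neg_sub]
    exact (Int.natCast_dvd_natCast.2 hr').trans h
  unfold mr
  rw [h1]

/-- the pairs with a given multiplier -/
private lemma eerr_count {a C : ℝ} (ha : 0 < a) (ha1 : a ≤ 1)
    (hC : ∀ (D : ℕ) (c : ℤ) (h : ℝ), 1 ≤ D →
      0 < h → h ≤ 1 → ∃ N0 : ℕ, ∀ N : ℕ, N0 ≤ N → ∀ s t : ℝ, a ≤ s → s ≤ 1 → a ≤ t → t ≤ 1 →
        open Classical in
        (((dpairs D N).filter (fun p : GaussianInt × GaussianInt =>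
          (D : GaussianInt) ∣ p.2 - (c : GaussianInt) * p.1 ∧
          s * N < nN p.1 ∧ (nN p.1 : ℝ) ≤ (s + h) * N ∧
          t * N < nN p.2 ∧ (nN p.2 : ℝ) ≤ (t + h) * N)).card : ℝ) ≤ C * h ^ 2 * N / D)
    (D : ℕ) (c : ℤ) : ∃ N0 : ℕ, 1 ≤ D → ∀ N : ℕ, N0 ≤ N → open Classical in
      (((lpairs a D N).filter (fun p : GaussianInt × GaussianInt =>
        (D : GaussianInt) ∣ p.2 - (c : GaussianInt) * p.1)).card : ℝ) ≤ C * N / D := by
  classical
  by_cases hD : 1 ≤ D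
  swap
  · exact ⟨0, fun h => absurd h hD⟩
  obtain ⟨N0, hN0⟩ := hC D c 1 hD one_pos le_rfl
  refine ⟨N0, fun _ N hN => ?_⟩
  have h1 := hN0 N hN a a le_rfl ha1 le_rfl ha1
  rw [one_pow, mul_one] at h1
  refine le_trans ?_ h1
  have h2 : (lpairs a D N).filter (fun p : GaussianInt × GaussianInt =>
      (D : GaussianInt) ∣ p.2 - (c : GaussianInt) * p.1) ⊆
      (dpairs D N).filter (fun p : GaussianInt × GaussianInt =>
        (D : GaussianInt) ∣ p.2 - (c : GaussianInt) * p.1 ∧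
        a * N < nN p.1 ∧ (nN p.1 : ℝ) ≤ (a + 1) * N ∧
        a * N < nN p.2 ∧ (nN p.2 : ℝ) ≤ (a + 1) * N) := by
    intro p hp
    rw [Finset.mem_filter] at hp ⊢
    unfold lpairs at hp
    rw [Finset.mem_filter] at hp
    obtain ⟨⟨hpd, hp1, hp2⟩, hdv⟩ := hp
    have hpd' := hpd
    unfold dpairs at hpd'
    rw [Finset.mem_filter, Finset.mem_product] at hpd'
    have hN0 : (0 : ℝ) ≤ N := Nat.cast_nonneg N
    have m1 := ((mem_pann hN0).1 hpd'.1.1).1.2
    have m2 := ((mem_pann hN0).1 hpd'.1.2).1.2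
    have m3 : (N : ℝ) ≤ (a + 1) * N := by nlinarith
    exact ⟨hpd, hdv, hp1, m1.trans m3, hp2, m2.trans m3⟩
  exact_mod_cast Finset.card_le_card h2

/-- one value of `D` -/
private lemma eerr_one (hP : PARSStmt) (hC : COFStmt) {a B : ℝ} (hB : 0 ≤ B) {A : Finset ℕ}
    {R0 D N : ℕ} (hD : 1 ≤ D) (hA : ∀ q ∈ A, Nat.Coprime q D)
    (hcnt : ∀ c ∈ Finset.range D, open Classical in
      (((lpairs a D N).filter (fun p : GaussianInt × GaussianInt =>
        (D : GaussianInt) ∣ p.2 - (((c : ℕ) : ℤ) : GaussianInt) * p.1)).card : ℝ) ≤ B) :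
    ∑ p ∈ lpairs a D N, ‖((tc A D (cof D p) : ℝ) : ℂ) - MM A R0 D (cof D p)‖ ≤
      B * √(∑ r ∈ D.divisors.filter (fun r => R0 < r), S4 A r) := by
  classical
  let F : ℤ → ℝ := fun c => ‖((tc A D c : ℝ) : ℂ) - MM A R0 D c‖
  have hF0 : ∀ c, 0 ≤ F c := fun c => norm_nonneg _
  have hFc : ∀ c c' : ℤ, (D : ℤ) ∣ c - c' → F c = F c' := by
    intro c c' h
    simp only [F]
    rw [eerr_tc h, eerr_MM h]
  have hD0 : (0 : ℤ) < D := by exact_mod_cast hD
  let g : GaussianInt × GaussianInt → ℕ := fun p => (cof D p % (D : ℤ)).toNat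
  have hg : ∀ p, ((g p : ℕ) : ℤ) = cof D p % (D : ℤ) := fun p =>
    Int.toNat_of_nonneg (Int.emod_nonneg _ hD0.ne')
  have hgd : ∀ p, (D : ℤ) ∣ cof D p - (g p : ℕ) := by
    intro p
    rw [hg]
    exact Int.dvd_self_sub_emod
  have hdp : ∀ p ∈ lpairs a D N, p ∈ dpairs D N := by
    intro p hp
    unfold lpairs at hp
    exact (Finset.mem_filter.1 hp).1
  set R := (Finset.range D).filter (fun c => Nat.Coprime c D) with hR
  have hmaps : ∀ p ∈ lpairs a D N, g p ∈ R := by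
    intro p hp
    rw [hR, Finset.mem_filter, Finset.mem_range]
    constructor
    · have h1 : ((g p : ℕ) : ℤ) < D := by rw [hg]; exact Int.emod_lt_of_pos _ hD0
      exact_mod_cast h1
    · have h2 := (hC D N hD p (hdp p hp)).2.1
      rw [← Nat.isCoprime_iff_coprime]
      have h3 : cof D p = ((g p : ℕ) : ℤ) + (D : ℤ) * (cof D p / D) := by
        rw [hg]
        exact (Int.emod_add_mul_ediv _ _).symm
      rw [h3] at h2
      exact h2.of_add_mul_left_left
  have hstep : ∑ p ∈ lpairs a D N, F (cof D p) ≤ B * ∑ c ∈ R, F ((c : ℕ) : ℤ) := by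
    rw [← Finset.sum_fiberwise_of_maps_to hmaps, Finset.mul_sum]
    refine Finset.sum_le_sum fun c hc => ?_
    have h1 : ∀ p ∈ (lpairs a D N).filter (fun p => g p = c), F (cof D p) = F ((c : ℕ) : ℤ) := by
      intro p hp
      rw [Finset.mem_filter] at hp
      exact hFc _ _ (hp.2 ▸ hgd p)
    rw [Finset.sum_congr rfl h1, Finset.sum_const, nsmul_eq_mul]
    apply mul_le_mul_of_nonneg_right _ (hF0 _)
    refine le_trans ?_ (hcnt c (Finset.mem_filter.1 hc).1)
    have h2 : (lpairs a D N).filter (fun p => g p = c) ⊆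
        (lpairs a D N).filter (fun p : GaussianInt × GaussianInt =>
          (D : GaussianInt) ∣ p.2 - (((c : ℕ) : ℤ) : GaussianInt) * p.1) := by
      intro p hp
      rw [Finset.mem_filter] at hp ⊢
      refine ⟨hp.1, ?_⟩
      exact ((hC D N hD p (hdp p hp.1)).2.2.1 _).2 (hp.2 ▸ hgd p)
    exact_mod_cast Finset.card_le_card h2
  have hφ : (0 : ℝ) < D.totient := by exact_mod_cast Nat.totient_pos.2 hD
  have hRcard : (R.card : ℝ) = D.totient := by
    have h1 : R.card = D.totient := by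
      rw [Nat.totient_eq_card_coprime, hR]
      congr 1
      refine Finset.filter_congr fun c _ => ?_
      exact Nat.coprime_comm
    rw [h1]
  have hcs : ∑ c ∈ R, F ((c : ℕ) : ℤ) ≤
      √(∑ r ∈ D.divisors.filter (fun r => R0 < r), S4 A r) := by
    have h1 := hP A D R0 hD hA
    have h2 : (∑ c ∈ R, F ((c : ℕ) : ℤ)) ^ 2 ≤ R.card * ∑ c ∈ R, F ((c : ℕ) : ℤ) ^ 2 :=
      sq_sum_le_card_mul_sum_sq
    have h3 : (∑ c ∈ R, F ((c : ℕ) : ℤ)) ^ 2 ≤
        ∑ r ∈ D.divisors.filter (fun r => R0 < r), S4 A r := by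
      refine h2.trans ?_
      rw [hRcard]
      calc (D.totient : ℝ) * ∑ c ∈ R, F ((c : ℕ) : ℤ) ^ 2 ≤
            (D.totient : ℝ) * ((∑ r ∈ D.divisors.filter (fun r => R0 < r), S4 A r) /
              (D.totient : ℝ)) := mul_le_mul_of_nonneg_left h1 hφ.le
        _ = _ := by field_simp
    exact Real.le_sqrt_of_sq_le h3
  exact hstep.trans (mul_le_mul_of_nonneg_left hcs hB)

/-- the sum over `D` -/
private lemma eerr_D {κ : ℝ} (hκ : 0 < κ) {C2 P : ℕ} (hP : 1 ≤ P) (R0 : ℕ)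
    (S : ℕ → ℝ) (hS : ∀ r, 0 ≤ S r) (T : Finset ℕ) (hT : ∀ D ∈ T, 1 ≤ D ∧ D ≤ C2 * P ∧
      κ * P < (D : ℝ)) :
    ∑ D ∈ T, (1 / (D : ℝ)) * √(∑ r ∈ D.divisors.filter (fun r => R0 < r), S r) ≤
      C2 / κ * √(∑ r ∈ Finset.Ioc R0 (C2 * P), S r / r) := by
  classical
  have hPr : (0 : ℝ) < P := by exact_mod_cast hP
  set G : ℕ → ℝ := fun D => ∑ r ∈ D.divisors.filter (fun r => R0 < r), S r with hG
  have hG0 : ∀ D, 0 ≤ G D := fun D => Finset.sum_nonneg fun r _ => hS r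
  have hDpos : ∀ D ∈ T, (0 : ℝ) < D := fun D hD => by exact_mod_cast (hT D hD).1
  have hTcard : (T.card : ℝ) ≤ C2 * P := by
    have h1 : T ⊆ Finset.Icc 1 (C2 * P) := fun D hD =>
      Finset.mem_Icc.2 ⟨(hT D hD).1, (hT D hD).2.1⟩
    have h2 := Finset.card_le_card h1
    rw [Nat.card_Icc] at h2
    have h3 : T.card ≤ C2 * P := by omega
    exact_mod_cast h3
  have hinv : ∀ D ∈ T, 1 / (D : ℝ) ≤ 1 / (κ * P) := fun D hD =>
    one_div_le_one_div_of_le (by positivity) (hT D hD).2.2.le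
  -- Cauchy
  have hcs := Real.sum_mul_le_sqrt_mul_sqrt T (fun D : ℕ => √(1 / (D : ℝ)))
    (fun D : ℕ => √(G D / D))
  have e1 : ∀ D ∈ T, √(1 / (D : ℝ)) * √(G D / D) = (1 / (D : ℝ)) * √(G D) := by
    intro D hD
    have h0 := hDpos D hD
    rw [← Real.sqrt_mul (by positivity)]
    have h1 : 1 / (D : ℝ) * (G D / D) = (1 / (D : ℝ)) ^ 2 * G D := by
      field_simp
    rw [h1, Real.sqrt_mul (by positivity), Real.sqrt_sq (by positivity)]
  rw [Finset.sum_congr rfl e1] at hcs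
  refine hcs.trans ?_
  have s1 : ∑ D ∈ T, √(1 / (D : ℝ)) ^ 2 ≤ C2 / κ := by
    calc ∑ D ∈ T, √(1 / (D : ℝ)) ^ 2 = ∑ D ∈ T, 1 / (D : ℝ) :=
          Finset.sum_congr rfl fun D hD => Real.sq_sqrt (by have := hDpos D hD; positivity)
      _ ≤ ∑ D ∈ T, 1 / (κ * P) := Finset.sum_le_sum hinv
      _ = T.card * (1 / (κ * P)) := by rw [Finset.sum_const, nsmul_eq_mul]
      _ ≤ (C2 * P) * (1 / (κ * P)) := mul_le_mul_of_nonneg_right hTcard (by positivity)
      _ = C2 / κ := by field_simp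
  have s2 : ∑ D ∈ T, √(G D / D) ^ 2 ≤ C2 / κ * ∑ r ∈ Finset.Ioc R0 (C2 * P), S r / r := by
    calc ∑ D ∈ T, √(G D / D) ^ 2 = ∑ D ∈ T, G D / D :=
          Finset.sum_congr rfl fun D hD => Real.sq_sqrt (by
            have := hDpos D hD; have := hG0 D; positivity)
      _ ≤ ∑ D ∈ T, (1 / (κ * P)) * G D := by
          refine Finset.sum_le_sum fun D hD => ?_
          rw [div_eq_mul_one_div, mul_comm]
          exact mul_le_mul_of_nonneg_right (hinv D hD) (hG0 D)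
      _ = (1 / (κ * P)) * ∑ D ∈ T, G D := by rw [Finset.mul_sum]
      _ ≤ (1 / (κ * P)) * ∑ r ∈ Finset.Ioc R0 (C2 * P), S r * (C2 * P / r) := by
          apply mul_le_mul_of_nonneg_left _ (by positivity)
          have h1 : ∀ D ∈ T, G D = ∑ r ∈ Finset.Ioc R0 (C2 * P), if r ∣ D then S r else 0 := by
            intro D hD
            simp only [hG]
            rw [← Finset.sum_filter]
            refine Finset.sum_congr ?_ fun _ _ => rfl
            ext r
            rw [Finset.mem_filter, Finset.mem_filter, Nat.mem_divisors, Finset.mem_Ioc]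
            have h2 := hT D hD
            constructor
            · rintro ⟨⟨h3, h4⟩, h5⟩
              exact ⟨⟨h5, (Nat.le_of_dvd (by omega) h3).trans h2.2.1⟩, h3⟩
            · rintro ⟨⟨h3, h4⟩, h5⟩
              exact ⟨⟨h5, by omega⟩, h3⟩
          rw [Finset.sum_congr rfl h1, Finset.sum_comm]
          refine Finset.sum_le_sum fun r hr => ?_
          rw [← Finset.sum_filter, Finset.sum_const, nsmul_eq_mul, mul_comm]
          apply mul_le_mul_of_nonneg_left _ (hS r)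
          have hr0 : 0 < r := by
            have := (Finset.mem_Ioc.1 hr).1
            omega
          have h3 : T.filter (fun D => r ∣ D) ⊆ (Finset.Ioc 0 (C2 * P)).filter (fun D => r ∣ D) := by
            intro D hD
            rw [Finset.mem_filter] at hD ⊢
            have := hT D hD.1
            exact ⟨Finset.mem_Ioc.2 ⟨by omega, this.2.1⟩, hD.2⟩
          have h4 := Finset.card_le_card h3
          rw [Nat.Ioc_filter_dvd_card_eq_div] at h4
          calc ((T.filter (fun D => r ∣ D)).card : ℝ) ≤ ((C2 * P / r : ℕ) : ℝ) := by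
                exact_mod_cast h4
            _ ≤ ((C2 * P : ℕ) : ℝ) / r := Nat.cast_div_le
            _ = C2 * P / r := by push_cast; ring
      _ = C2 / κ * ∑ r ∈ Finset.Ioc R0 (C2 * P), S r / r := by
          rw [Finset.mul_sum, Finset.mul_sum]
          refine Finset.sum_congr rfl fun r _ => ?_
          field_simp
  have hCκ : 0 ≤ (C2 : ℝ) / κ := by positivity
  calc √(∑ D ∈ T, √(1 / (D : ℝ)) ^ 2) * √(∑ D ∈ T, √(G D / D) ^ 2)
      ≤ √(C2 / κ) * √(C2 / κ * ∑ r ∈ Finset.Ioc R0 (C2 * P), S r / r) :=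
        mul_le_mul (Real.sqrt_le_sqrt s1) (Real.sqrt_le_sqrt s2) (Real.sqrt_nonneg _)
          (Real.sqrt_nonneg _)
    _ = C2 / κ * √(∑ r ∈ Finset.Ioc R0 (C2 * P), S r / r) := by
        rw [Real.sqrt_mul hCκ, ← mul_assoc, Real.mul_self_sqrt hCκ]

/-- **EERR** (from `EQ2Stmt`, `PARSStmt`, `COFStmt`): `#{p ∈ lpairs a D N : cof D p ≡ c} ≤ C N / D`
(`EQ2` with `h = 1`, `s = t = a`); `tc` and `MM` depend on `c` modulo `D` only; Cauchy over the `c`
coprime to `D`: the sum over `p` is `≤ (C N / D) √φ(D) (∑_c ‖.‖²)^{1/2} ≤ (C N / D)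
(∑_{r ∣ D, r > R0} S4 A r)^{1/2}`; Cauchy over `D ∈ (κ P, C2 P]`, `∑ 1/D ≤ C2/κ`,
`∑_{D, r ∣ D} 1/D ≤ (C2/κ)/r`. -/
theorem EERRp (hE : EQ2Stmt) (hP : PARSStmt) (hC : COFStmt) : EERRStmt := by
  classical
  intro a κ C1 C2 ha ha1 hκ hC1 hC2
  obtain ⟨C, hC0, hEQ⟩ := hE a ha
  have hC2r : (0 : ℝ) < C2 := by exact_mod_cast hC2
  refine ⟨C * (C2 / κ), by positivity, fun P hP1 A hA R0 => ?_⟩
  choose N0 hN0 using eerr_count ha ha1 hEQ
  refine ⟨∑ D ∈ Finset.Icc 1 (C2 * P), ∑ c ∈ Finset.range D, N0 D c, fun N hN => ?_⟩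
  set T := (Finset.Icc 1 (C2 * P)).filter
    (fun D : ℕ => κ * P < (D : ℝ) ∧ ∀ q ∈ A, ¬ q ∣ D) with hT
  have hone : ∀ D ∈ T, ∑ p ∈ lpairs a D N,
      ‖((tc A D (cof D p) : ℝ) : ℂ) - MM A R0 D (cof D p)‖ ≤
      C * N * ((1 / (D : ℝ)) * √(∑ r ∈ D.divisors.filter (fun r => R0 < r), S4 A r)) := by
    intro D hD
    rw [hT, Finset.mem_filter] at hD
    obtain ⟨hDI, hDκ, hDA⟩ := hD
    have hD1 : 1 ≤ D := (Finset.mem_Icc.1 hDI).1
    have hDr : (0 : ℝ) < D := by exact_mod_cast hD1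
    have hcop : ∀ q ∈ A, Nat.Coprime q D := by
      intro q hq
      have hqQ := hA hq
      unfold QQ at hqQ
      have hp : q.Prime := (Finset.mem_filter.1 hqQ).2.1
      exact (Nat.Prime.coprime_iff_not_dvd hp).2 (hDA q hq)
    have h1 := eerr_one hP hC (a := a) (B := C * N / D) (by positivity) (A := A) (R0 := R0)
      (D := D) (N := N) hD1 hcop (fun c hc => by
        refine hN0 D (c : ℤ) hD1 N (le_trans ?_ hN)
        refine le_trans ?_ (Finset.single_le_sum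
          (f := fun D => ∑ c ∈ Finset.range D, N0 D ((c : ℕ) : ℤ))
          (fun _ _ => Nat.zero_le _) hDI)
        exact Finset.single_le_sum (f := fun c : ℕ => N0 D (c : ℤ))
          (fun _ _ => Nat.zero_le _) hc)
    refine h1.trans (le_of_eq ?_)
    ring
  refine (Finset.sum_le_sum hone).trans ?_
  rw [← Finset.mul_sum]
  have h2 := eerr_D hκ hP1 R0 (S4 A) (eerr_S4 A) T (fun D hD => by
    rw [hT, Finset.mem_filter, Finset.mem_Icc] at hD
    exact ⟨hD.1.1, hD.1.2, hD.2.1⟩) (C2 := C2)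
  calc C * (N : ℝ) * ∑ D ∈ T, (1 / (D : ℝ)) *
        √(∑ r ∈ D.divisors.filter (fun r => R0 < r), S4 A r)
      ≤ C * N * (C2 / κ * √(∑ r ∈ Finset.Ioc R0 (C2 * P), S4 A r / r)) :=
        mul_le_mul_of_nonneg_left h2 (by positivity)
    _ = _ := by ring

end Pool.Agent.LogCh
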