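import Mathlib
import Pool.Agent.Lib.LogCh.EDefs

/-!
# Log-averaged cancellation at `n ^ 2 + 1`: module E.GSUM
-/

set_option autoImplicit false

namespace Pool.Agent.LogCh

open Real
open Pool.Agent.NSqP
open Pool.Agent.MP484c84Par (ballG mem_ballG crossG dotG)

private theorem gsum_conj {r : ℕ} [NeZero r] (ψ : DirichletCharacter ℂ r) (u : (ZMod r)ˣ) :
    (starRingEnd ℂ) (ψ (u : ZMod r)) = ψ ((u⁻¹ : (ZMod r)ˣ) : ZMod r) := by
  have h1 : (starRingEnd ℂ) (ψ (u : ZMod r)) = ψ⁻¹ (u : ZMod r) := MulChar.star_apply' ψ _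
  rw [h1, MulChar.inv_apply, Ring.inverse_unit]

private theorem gsum_orth {r : ℕ} [NeZero r] (k : ZMod r) (u : (ZMod r)ˣ) :
    ∑ ψ : DirichletCharacter ℂ r, ψ k * (starRingEnd ℂ) (ψ (u : ZMod r)) =
      if k = u then (r.totient : ℂ) else 0 := by
  have h1 : ∀ ψ : DirichletCharacter ℂ r, ψ k * (starRingEnd ℂ) (ψ (u : ZMod r)) =
      ψ (k * ((u⁻¹ : (ZMod r)ˣ) : ZMod r)) := by
    intro ψ
    rw [gsum_conj, map_mul]
  rw [Finset.sum_congr rfl fun ψ _ => h1 ψ, DirichletCharacter.sum_characters_eq ℂ]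
  have h2 : k * ((u⁻¹ : (ZMod r)ˣ) : ZMod r) = 1 ↔ k = u := by
    rw [Units.mul_inv_eq_iff_eq_mul, one_mul]
  simp only [h2]

private theorem gsum_parseval {r : ℕ} [NeZero r] (a : ZMod r → ℂ) :
    ∑ ψ : DirichletCharacter ℂ r, ‖∑ k, ψ k * a k‖ ^ 2 =
      (r.totient : ℝ) * ∑ u : (ZMod r)ˣ, ‖a u‖ ^ 2 := by
  have hu : ∀ ψ : DirichletCharacter ℂ r, ∑ k, ψ k * a k = ∑ u : (ZMod r)ˣ, ψ u * a u := by
    intro ψ
    classical
    have h1 : ∑ u : (ZMod r)ˣ, ψ u * a u =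
        ∑ k ∈ Finset.univ.map ⟨((↑) : (ZMod r)ˣ → ZMod r), Units.val_injective⟩, ψ k * a k := by
      rw [Finset.sum_map]
      rfl
    rw [h1]
    symm
    apply Finset.sum_subset (Finset.subset_univ _)
    intro k _ hk
    have hk' : ¬ IsUnit k := by
      rintro ⟨u, rfl⟩
      exact hk (Finset.mem_map.2 ⟨u, Finset.mem_univ _, rfl⟩)
    rw [ψ.map_nonunit hk', zero_mul]
  have key : ((∑ ψ : DirichletCharacter ℂ r, ‖∑ k, ψ k * a k‖ ^ 2 : ℝ) : ℂ) =
      (((r.totient : ℝ) * ∑ u : (ZMod r)ˣ, ‖a u‖ ^ 2 : ℝ) : ℂ) := by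
    have h0 : ∀ z : ℂ, ((‖z‖ ^ 2 : ℝ) : ℂ) = z * (starRingEnd ℂ) z := by
      intro z
      rw [Complex.mul_conj, Complex.normSq_eq_norm_sq]
    rw [Complex.ofReal_sum, Complex.ofReal_mul, Complex.ofReal_sum]
    calc ∑ ψ : DirichletCharacter ℂ r, ((‖∑ k, ψ k * a k‖ ^ 2 : ℝ) : ℂ)
        = ∑ ψ : DirichletCharacter ℂ r, ∑ u : (ZMod r)ˣ, ∑ v : (ZMod r)ˣ,
            (a u * (starRingEnd ℂ) (a v)) * (ψ u * (starRingEnd ℂ) (ψ v)) := by
          refine Finset.sum_congr rfl fun ψ _ => ?_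
          rw [h0, hu ψ, map_sum, Finset.sum_mul_sum]
          refine Finset.sum_congr rfl fun u _ => Finset.sum_congr rfl fun v _ => ?_
          rw [map_mul]
          ring
      _ = ∑ u : (ZMod r)ˣ, ∑ v : (ZMod r)ˣ, (a u * (starRingEnd ℂ) (a v)) *
            ∑ ψ : DirichletCharacter ℂ r, (ψ u * (starRingEnd ℂ) (ψ v)) := by
          rw [Finset.sum_comm]
          refine Finset.sum_congr rfl fun u _ => ?_
          rw [Finset.sum_comm]
          refine Finset.sum_congr rfl fun v _ => ?_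
          rw [Finset.mul_sum]
      _ = ∑ u : (ZMod r)ˣ, (r.totient : ℂ) * ((‖a u‖ ^ 2 : ℝ) : ℂ) := by
          refine Finset.sum_congr rfl fun u _ => ?_
          rw [Finset.sum_eq_single u]
          · rw [gsum_orth, if_pos rfl, h0]
            ring
          · intro v _ hv
            rw [gsum_orth, if_neg, mul_zero]
            intro h
            exact hv (Units.ext h).symm
          · intro h
            exact absurd (Finset.mem_univ u) h
      _ = _ := by rw [Finset.mul_sum]; simp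
  exact_mod_cast key

/-- the Gauss sum relation -/
private theorem gsum_rel {r : ℕ} [NeZero r] (ψ : DirichletCharacter ℂ r) (hψ : ψ.IsPrimitive)
    (j : ZMod r) : (r : ℂ) * ψ j =
      gaussSum ψ ZMod.stdAddChar * ∑ k, ψ⁻¹ k * ZMod.stdAddChar (-(k * j)) := by
  have h1 := congrFun (ZMod.dft_dft (fun k : ZMod r => ψ k)) (-j)
  have h2 : (ZMod.dft (fun k : ZMod r => ψ k)) = fun k => gaussSum ψ ZMod.stdAddChar * ψ⁻¹ (-k) := by
    funext k
    exact (DirichletCharacter.fourierTransform_eq_gaussSum_mulShift ψ k).trans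
      (by rw [gaussSum_mulShift_of_isPrimitive _ hψ, mul_comm])
  rw [h2, ZMod.dft_apply] at h1
  simp only [neg_neg, smul_eq_mul] at h1
  rw [← h1, Finset.mul_sum]
  refine Fintype.sum_equiv (Equiv.neg _) _ _ ?_
  intro k
  simp only [Equiv.neg_apply, neg_neg, neg_mul_eq_neg_mul, mul_neg]
  ring

private theorem gsum_norm {r : ℕ} [NeZero r] (ψ : DirichletCharacter ℂ r) (hψ : ψ.IsPrimitive) :
    ‖gaussSum ψ ZMod.stdAddChar‖ ^ 2 = r := by
  have h1 := gsum_rel ψ hψ 1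
  have h2 : ∑ k, ψ⁻¹ k * ZMod.stdAddChar (-(k * 1)) =
      star (gaussSum ψ ZMod.stdAddChar) := by
    rw [star_gaussSum_eq]
    unfold gaussSum
    refine Finset.sum_congr rfl fun k _ => ?_
    rw [mul_one, AddChar.inv_apply]
  rw [h2, map_one, mul_one] at h1
  have h3 : gaussSum ψ ZMod.stdAddChar * star (gaussSum ψ ZMod.stdAddChar) =
      ((‖gaussSum ψ ZMod.stdAddChar‖ ^ 2 : ℝ) : ℂ) := by
    change _ * (starRingEnd ℂ) _ = _
    rw [Complex.mul_conj, Complex.normSq_eq_norm_sq]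
  rw [h3] at h1
  exact_mod_cast h1.symm

/-- **GSUM**: for `ψ` primitive modulo `r`, `‖τ(ψ)‖² = r` (`gaussSum_mulShift_of_isPrimitive` and
Parseval over `ZMod r`), so `r ‖∑ x_n ψ(n)‖² = ‖∑_b ψ̄(b) S(b/r)‖²` with `S(b/r) = ∑ x_n e(b n/r)`; the
sum over all characters of the right side is `φ(r) ∑_{b coprime to r} ‖S(b/r)‖²`, and
`φ(r) ≤ r`. -/
theorem GSUMp : GSUMStmt := by
  intro r M x hr
  classical
  have : NeZero r := ⟨by omega⟩
  have hr0 : (0 : ℝ) < r := by exact_mod_cast hr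
  set T : ZMod r → ℂ := fun k => ∑ n ∈ Finset.Icc 1 M, x n * ZMod.stdAddChar (-(k * (n : ZMod r)))
    with hT
  -- the identity for primitive characters
  have h1 : ∀ ψ : DirichletCharacter ℂ r, ψ.IsPrimitive →
      (r : ℝ) * ‖∑ n ∈ Finset.Icc 1 M, x n * ψ ((n : ℕ) : ZMod r)‖ ^ 2 =
        ‖∑ k, ψ⁻¹ k * T k‖ ^ 2 := by
    intro ψ hψ
    have h2 : (r : ℂ) * ∑ n ∈ Finset.Icc 1 M, x n * ψ ((n : ℕ) : ZMod r) =
        gaussSum ψ ZMod.stdAddChar * ∑ k, ψ⁻¹ k * T k := by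
      rw [Finset.mul_sum]
      calc ∑ n ∈ Finset.Icc 1 M, (r : ℂ) * (x n * ψ ((n : ℕ) : ZMod r))
          = ∑ n ∈ Finset.Icc 1 M, x n * (gaussSum ψ ZMod.stdAddChar *
              ∑ k, ψ⁻¹ k * ZMod.stdAddChar (-(k * ((n : ℕ) : ZMod r)))) := by
            refine Finset.sum_congr rfl fun n _ => ?_
            rw [← gsum_rel ψ hψ]
            ring
        _ = gaussSum ψ ZMod.stdAddChar * ∑ n ∈ Finset.Icc 1 M, ∑ k,
              ψ⁻¹ k * (x n * ZMod.stdAddChar (-(k * ((n : ℕ) : ZMod r)))) := by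
            rw [Finset.mul_sum]
            refine Finset.sum_congr rfl fun n _ => ?_
            rw [mul_left_comm, Finset.mul_sum (s := Finset.univ) (a := x n)]
            congr 1
            refine Finset.sum_congr rfl fun k _ => ?_
            ring
        _ = _ := by
            rw [Finset.sum_comm]
            congr 1
            refine Finset.sum_congr rfl fun k _ => ?_
            rw [hT, Finset.mul_sum]
    have h3 := congrArg (fun z : ℂ => ‖z‖ ^ 2) h2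
    simp only [norm_mul, mul_pow, Complex.norm_natCast, gsum_norm ψ hψ] at h3
    have h4 : (r : ℝ) * ((r : ℝ) * ‖∑ n ∈ Finset.Icc 1 M, x n * ψ ((n : ℕ) : ZMod r)‖ ^ 2) =
        (r : ℝ) * ‖∑ k, ψ⁻¹ k * T k‖ ^ 2 := by
      rw [← h3]
      ring
    exact mul_left_cancel₀ hr0.ne' h4
  -- sum over the characters
  have h2 : (r : ℝ) * ∑ ψ : DirichletCharacter ℂ r,
      (if ψ.IsPrimitive then ‖∑ n ∈ Finset.Icc 1 M, x n * ψ ((n : ℕ) : ZMod r)‖ ^ 2 else 0) ≤
      (r.totient : ℝ) * ∑ u : (ZMod r)ˣ, ‖T u‖ ^ 2 := by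
    rw [← gsum_parseval T, Finset.mul_sum]
    have h3 : ∑ ψ : DirichletCharacter ℂ r, ‖∑ k, ψ k * T k‖ ^ 2 =
        ∑ ψ : DirichletCharacter ℂ r, ‖∑ k, ψ⁻¹ k * T k‖ ^ 2 := by
      refine (Fintype.sum_equiv (Equiv.inv _) _ _ ?_).symm
      intro ψ
      rfl
    rw [h3]
    refine Finset.sum_le_sum fun ψ _ => ?_
    split_ifs with hψ
    · exact (h1 ψ hψ).le
    · rw [mul_zero]
      positivity
  have h3 : (r.totient : ℝ) * ∑ u : (ZMod r)ˣ, ‖T u‖ ^ 2 ≤
      (r : ℝ) * ∑ u : (ZMod r)ˣ, ‖T u‖ ^ 2 := by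
    apply mul_le_mul_of_nonneg_right
    · exact_mod_cast Nat.totient_le r
    · exact Finset.sum_nonneg fun _ _ => by positivity
  have h4 := le_of_mul_le_mul_left (h2.trans h3) hr0
  refine h4.trans (le_of_eq ?_)
  -- reindexing
  have h5 : ∑ u : (ZMod r)ˣ, ‖T u‖ ^ 2 = ∑ u : (ZMod r)ˣ, ‖T (-(u : ZMod r))‖ ^ 2 := by
    refine Fintype.sum_equiv (Equiv.neg _) _ _ ?_
    intro u
    simp
  rw [h5]
  refine Finset.sum_bij (fun (u : (ZMod r)ˣ) _ => (u : ZMod r).val) ?_ ?_ ?_ ?_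
  · intro u _
    rw [Finset.mem_filter, Finset.mem_range]
    exact ⟨ZMod.val_lt _, ZMod.val_coe_unit_coprime u⟩
  · intro u _ v _ h
    exact Units.ext (ZMod.val_injective r h)
  · intro b hb
    rw [Finset.mem_filter, Finset.mem_range] at hb
    refine ⟨ZMod.unitOfCoprime b hb.2, Finset.mem_univ _, ?_⟩
    rw [ZMod.coe_unitOfCoprime, ZMod.val_natCast_of_lt hb.1]
  · intro u _
    simp only [hT]
    congr 2
    refine Finset.sum_congr rfl fun n _ => ?_
    congr 1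
    have h6 : -(-(u : ZMod r) * (n : ZMod r)) = (((u : ZMod r).val * n : ℕ) : ℤ) := by
      push_cast
      rw [ZMod.natCast_zmod_val]
      ring
    rw [h6, ZMod.stdAddChar_coe, ← Complex.exp_nat_mul]
    congr 1
    push_cast
    ring

end Pool.Agent.LogCh
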