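import Mathlib
import Pool.Agent.Lib.LogCh.EDefs
import Pool.Agent.Lib.MP_0bb3d8_nt.HohFund
import Pool.Agent.Lib.MP_0bb3d8_nt.HohMertens

/-!
# Log-averaged cancellation at `n ^ 2 + 1`: module E.LF
-/

set_option autoImplicit false

namespace Pool.Agent.LogCh

open Real
open Pool.Agent.NSqP
open Pool.Agent.MP484c84Par (ballG mem_ballG crossG dotG)

private lemma lf_dual {ι : Type} (I : Finset ι) (A B : Finset ℕ) (hAB : A ⊆ B) (ν : ℕ → ℝ)
    (hν0 : ∀ n ∈ B, 0 ≤ ν n) (hν1 : ∀ n ∈ A, 1 ≤ ν n) (f : ι → ℕ → ℂ) (K : ℝ) (hK0 : 0 ≤ K)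
    (hK : ∀ x ∈ I, ∑ y ∈ I, ‖∑ n ∈ B, (ν n : ℂ) * (f x n * (starRingEnd ℂ) (f y n))‖ ≤ K) :
    ∑ x ∈ I, ‖∑ n ∈ A, f x n‖ ^ 2 ≤ K * A.card := by
  set S : ι → ℂ := fun x => ∑ n ∈ A, f x n with hS
  set V : ℝ := ∑ x ∈ I, ‖S x‖ ^ 2 with hV
  have hV0 : 0 ≤ V := Finset.sum_nonneg fun x _ => by positivity
  set g : ℕ → ℂ := fun n => ∑ x ∈ I, (starRingEnd ℂ) (S x) * f x n with hg
  have hVC : (V : ℂ) = ∑ n ∈ A, g n := by
    have h1 : (V : ℂ) = ∑ x ∈ I, (starRingEnd ℂ) (S x) * S x := by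
      rw [hV]; push_cast
      refine Finset.sum_congr rfl fun x _ => ?_
      rw [mul_comm, Complex.mul_conj, Complex.normSq_eq_norm_sq]
      push_cast; ring
    rw [h1, hg, Finset.sum_comm]
    refine Finset.sum_congr rfl fun x _ => ?_
    rw [← Finset.mul_sum]
  have hVle : V ≤ ∑ n ∈ A, ‖g n‖ := by
    have h1 : V = ‖(V : ℂ)‖ := by rw [Complex.norm_real, Real.norm_eq_abs, abs_of_nonneg hV0]
    rw [h1, hVC]
    exact norm_sum_le _ _
  have hCS : (∑ n ∈ A, ‖g n‖) ^ 2 ≤ (A.card : ℝ) * ∑ n ∈ A, ‖g n‖ ^ 2 :=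
    sq_sum_le_card_mul_sum_sq
  have hB : ∑ n ∈ A, ‖g n‖ ^ 2 ≤ ∑ n ∈ B, ν n * ‖g n‖ ^ 2 := by
    calc ∑ n ∈ A, ‖g n‖ ^ 2 ≤ ∑ n ∈ A, ν n * ‖g n‖ ^ 2 := by
          refine Finset.sum_le_sum fun n hn => ?_
          have := hν1 n hn
          nlinarith [sq_nonneg ‖g n‖]
      _ ≤ _ := by
          refine Finset.sum_le_sum_of_subset_of_nonneg hAB fun n hn _ => ?_
          exact mul_nonneg (hν0 n hn) (by positivity)
  have hquad : ∑ n ∈ B, ν n * ‖g n‖ ^ 2 ≤ K * V := by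
    have h1 : ((∑ n ∈ B, ν n * ‖g n‖ ^ 2 : ℝ) : ℂ) = ∑ x ∈ I, ∑ y ∈ I,
        ((starRingEnd ℂ) (S x) * S y) *
          ∑ n ∈ B, (ν n : ℂ) * (f x n * (starRingEnd ℂ) (f y n)) := by
      push_cast
      have h2 : ∀ n ∈ B, (ν n : ℂ) * (‖g n‖ : ℂ) ^ 2 = ∑ x ∈ I, ∑ y ∈ I,
          ((starRingEnd ℂ) (S x) * S y) * ((ν n : ℂ) * (f x n * (starRingEnd ℂ) (f y n))) := by
        intro n _
        have h3 : (‖g n‖ : ℂ) ^ 2 = g n * (starRingEnd ℂ) (g n) := by
          rw [Complex.mul_conj, Complex.normSq_eq_norm_sq]; push_cast; ring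
        rw [h3, hg]
        simp only
        rw [map_sum, Finset.sum_mul_sum, Finset.mul_sum]
        refine Finset.sum_congr rfl fun x _ => ?_
        rw [Finset.mul_sum]
        refine Finset.sum_congr rfl fun y _ => ?_
        rw [map_mul, Complex.conj_conj]
        ring
      rw [Finset.sum_congr rfl h2, Finset.sum_comm]
      refine Finset.sum_congr rfl fun x _ => ?_
      rw [Finset.sum_comm]
      refine Finset.sum_congr rfl fun y _ => ?_
      rw [← Finset.mul_sum]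
    have h0 : 0 ≤ ∑ n ∈ B, ν n * ‖g n‖ ^ 2 :=
      Finset.sum_nonneg fun n hn => mul_nonneg (hν0 n hn) (by positivity)
    have h2 : ∑ n ∈ B, ν n * ‖g n‖ ^ 2 ≤ ∑ x ∈ I, ∑ y ∈ I, ‖S x‖ * ‖S y‖ *
        ‖∑ n ∈ B, (ν n : ℂ) * (f x n * (starRingEnd ℂ) (f y n))‖ := by
      have h3 : ∑ n ∈ B, ν n * ‖g n‖ ^ 2 = ‖((∑ n ∈ B, ν n * ‖g n‖ ^ 2 : ℝ) : ℂ)‖ := by
        rw [Complex.norm_real, Real.norm_eq_abs, abs_of_nonneg h0]
      rw [h3, h1]
      refine (norm_sum_le _ _).trans (Finset.sum_le_sum fun x _ => ?_)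
      refine (norm_sum_le _ _).trans (Finset.sum_le_sum fun y _ => ?_)
      rw [norm_mul, norm_mul, RCLike.norm_conj]
    set k : ι → ι → ℝ := fun x y => ‖∑ n ∈ B, (ν n : ℂ) * (f x n * (starRingEnd ℂ) (f y n))‖
      with hk
    have hsym : ∀ x y, k x y = k y x := by
      intro x y
      rw [hk]
      simp only
      rw [← RCLike.norm_conj, map_sum]
      congr 1
      refine Finset.sum_congr rfl fun n _ => ?_
      rw [map_mul, map_mul, Complex.conj_conj, Complex.conj_ofReal]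
      ring
    have hk0 : ∀ x y, 0 ≤ k x y := fun x y => norm_nonneg _
    calc ∑ n ∈ B, ν n * ‖g n‖ ^ 2 ≤ ∑ x ∈ I, ∑ y ∈ I, ‖S x‖ * ‖S y‖ * k x y := h2
      _ ≤ ∑ x ∈ I, ∑ y ∈ I, (‖S x‖ ^ 2 / 2 * k x y + ‖S y‖ ^ 2 / 2 * k x y) := by
          refine Finset.sum_le_sum fun x _ => Finset.sum_le_sum fun y _ => ?_
          nlinarith [mul_nonneg (sq_nonneg (‖S x‖ - ‖S y‖)) (hk0 x y)]
      _ = ∑ x ∈ I, ‖S x‖ ^ 2 * ∑ y ∈ I, k x y := by
          simp only [Finset.sum_add_distrib]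
          have e2 : ∑ x ∈ I, ∑ y ∈ I, ‖S y‖ ^ 2 / 2 * k x y =
              ∑ x ∈ I, ∑ y ∈ I, ‖S x‖ ^ 2 / 2 * k x y := by
            rw [Finset.sum_comm]
            refine Finset.sum_congr rfl fun x _ => Finset.sum_congr rfl fun y _ => ?_
            rw [hsym y x]
          rw [e2, ← Finset.sum_add_distrib]
          refine Finset.sum_congr rfl fun x _ => ?_
          rw [← Finset.mul_sum]; ring
      _ ≤ ∑ x ∈ I, ‖S x‖ ^ 2 * K := by
          refine Finset.sum_le_sum fun x hx => ?_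
          exact mul_le_mul_of_nonneg_left (hK x hx) (by positivity)
      _ = K * V := by rw [← Finset.sum_mul, mul_comm]
  have hfin : V ^ 2 ≤ (A.card : ℝ) * (K * V) := by
    have hsum0 : 0 ≤ ∑ n ∈ A, ‖g n‖ := Finset.sum_nonneg fun _ _ => norm_nonneg _
    calc V ^ 2 ≤ (∑ n ∈ A, ‖g n‖) ^ 2 := pow_le_pow_left₀ hV0 hVle 2
      _ ≤ (A.card : ℝ) * ∑ n ∈ A, ‖g n‖ ^ 2 := hCS
      _ ≤ _ := mul_le_mul_of_nonneg_left (hB.trans hquad) (Nat.cast_nonneg _)
  rcases eq_or_lt_of_le hV0 with h0 | h0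
  · rw [← h0]
    exact mul_nonneg hK0 (Nat.cast_nonneg _)
  · have h1 : V * V ≤ (K * A.card) * V := by
      calc V * V = V ^ 2 := by ring
        _ ≤ _ := hfin
        _ = _ := by ring
    exact le_of_mul_le_mul_right h1 h0

private lemma lf_mult (M d : ℕ) (hd : 1 ≤ d) (F : ℕ → ℂ) :
    ∑ n ∈ (Finset.Icc 1 M).filter (fun n => d ∣ n), F n =
      ∑ m ∈ Finset.Icc 1 (M / d), F (d * m) := by
  refine Finset.sum_nbij' (fun n => n / d) (fun m => d * m) ?_ ?_ ?_ ?_ ?_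
  · intro n hn
    rw [Finset.mem_filter, Finset.mem_Icc] at hn
    obtain ⟨⟨h1, h2⟩, k, rfl⟩ := hn
    rw [Finset.mem_Icc, Nat.mul_div_cancel_left _ (by omega)]
    refine ⟨?_, ?_⟩
    · rcases Nat.eq_zero_or_pos k with h | h
      · subst h; simp at h1
      · exact h
    · rw [Nat.le_div_iff_mul_le (by omega)]
      rw [mul_comm]; exact h2
  · intro m hm
    rw [Finset.mem_Icc] at hm
    rw [Finset.mem_filter, Finset.mem_Icc]
    refine ⟨⟨Nat.mul_pos (by omega) (by omega), ?_⟩, Dvd.intro _ rfl⟩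
    rw [Nat.le_div_iff_mul_le (by omega)] at hm
    rw [mul_comm]; exact hm.2
  · intro n hn
    rw [Finset.mem_filter] at hn
    exact Nat.mul_div_cancel' hn.2
  · intro m _
    exact Nat.mul_div_cancel_left _ (by omega)
  · intro n hn
    rw [Finset.mem_filter] at hn
    rw [Nat.mul_div_cancel' hn.2]

private lemma lf_div (M Dn : ℕ) (lp : ℕ → ℝ) (hlp : ∀ d, lp d ≠ 0 → 1 ≤ d ∧ d ≤ Dn)
    (F : ℕ → ℂ) :
    ∑ n ∈ Finset.Icc 1 M, ((∑ d ∈ n.divisors, lp d : ℝ) : ℂ) * F n =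
      ∑ d ∈ Finset.Icc 1 Dn, (lp d : ℂ) * ∑ m ∈ Finset.Icc 1 (M / d), F (d * m) := by
  have h1 : ∀ n ∈ Finset.Icc 1 M, ((∑ d ∈ n.divisors, lp d : ℝ) : ℂ) * F n =
      ∑ d ∈ Finset.Icc 1 Dn, if d ∣ n then (lp d : ℂ) * F n else 0 := by
    intro n hn
    rw [Finset.mem_Icc] at hn
    have h2 : (∑ d ∈ n.divisors, lp d : ℝ) = ∑ d ∈ (Finset.Icc 1 Dn).filter (fun d => d ∣ n), lp d := by
      have h3 : ∑ d ∈ n.divisors, lp d = ∑ d ∈ n.divisors.filter (fun d => lp d ≠ 0), lp d := by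
        rw [Finset.sum_filter_ne_zero]
      have h4 : ∑ d ∈ (Finset.Icc 1 Dn).filter (fun d => d ∣ n), lp d =
          ∑ d ∈ ((Finset.Icc 1 Dn).filter (fun d => d ∣ n)).filter (fun d => lp d ≠ 0), lp d := by
        rw [Finset.sum_filter_ne_zero]
      rw [h3, h4]
      apply Finset.sum_congr _ (fun _ _ => rfl)
      ext d
      simp only [Finset.mem_filter, Nat.mem_divisors, Finset.mem_Icc]
      constructor
      · rintro ⟨⟨h5, _⟩, h6⟩
        exact ⟨⟨hlp d h6, h5⟩, h6⟩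
      · rintro ⟨⟨_, h5⟩, h6⟩
        exact ⟨⟨h5, by omega⟩, h6⟩
    rw [h2, Finset.sum_filter]
    push_cast
    rw [Finset.sum_mul]
    refine Finset.sum_congr rfl fun d _ => ?_
    split_ifs with h
    · rfl
    · simp
  rw [Finset.sum_congr rfl h1, Finset.sum_comm]
  refine Finset.sum_congr rfl fun d hd => ?_
  rw [Finset.mem_Icc] at hd
  rw [← lf_mult M d hd.1 F, Finset.mul_sum, Finset.sum_filter]

private lemma lf_card (R : ℕ) : open Classical in
    (((Finset.Icc 1 R).sigma (fun r => (Finset.univ : Finset (DirichletCharacter ℂ r)).filter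
      (fun ψ => ψ.IsPrimitive))).card : ℝ) ≤ (R : ℝ) ^ 2 := by
  classical
  rw [Finset.card_sigma]
  push_cast
  calc ∑ r ∈ Finset.Icc 1 R, (((Finset.univ : Finset (DirichletCharacter ℂ r)).filter
      (fun ψ => ψ.IsPrimitive)).card : ℝ) ≤ ∑ r ∈ Finset.Icc 1 R, (R : ℝ) := by
        refine Finset.sum_le_sum fun r hr => ?_
        rw [Finset.mem_Icc] at hr
        have : NeZero r := ⟨by omega⟩
        have h1 : ((Finset.univ : Finset (DirichletCharacter ℂ r)).filter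
            (fun ψ => ψ.IsPrimitive)).card ≤ r := by
          refine (Finset.card_filter_le _ _).trans ?_
          rw [Finset.card_univ, ← Nat.card_eq_fintype_card,
            DirichletCharacter.card_eq_totient_of_hasEnoughRootsOfUnity ℂ r]
          exact Nat.totient_le r
        exact_mod_cast h1.trans hr.2
    _ = (R : ℝ) ^ 2 := by
        rw [Finset.sum_const, Nat.card_Icc, nsmul_eq_mul]
        push_cast
        ring

/-- **LF** (from `NPCStmt`), log-free large sieve for primes and small moduli. Proof: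
`Hoh.fundLemma` (`Lib/MP_0bb3d8_nt/HohFund`) with `y = D = P^{1/10}` gives `ν(n) = ∑_{d ∣ n} lp d`,
`ν ≥ 0`, `ν ≥ 1` on primes `> y`, `|lp| ≤ 1`, and with `VUpper`
`∑_{n ≤ C1 P} ν(n) ≤ C P / log P`. Duality: with `V = ∑ |S(ψ)|²` one gets
`V ≤ |A| max_x ∑_{x'} |∑_{n ≤ C1 P} ν(n) ψ_x(n) conj ψ_{x'}(n)|`; for `x ≠ x'` expand `ν`, write
`n = d m` and use `NPC`: `≤ P^{1/10} R²` for each of the at most `R²` characters `x'`. -/
theorem LFp (hN : NPCStmt) : LFStmt := by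
  classical
  obtain ⟨c, C, hc, hC, hF⟩ := Hoh.fundLemma
  obtain ⟨C', hC', hV⟩ := Hoh.vUpper
  intro C1 hC1
  refine ⟨10 * C1 * (1 + C) * C' + 40, by positivity, 1024, fun P hP A hA R hR => ?_⟩
  have hPr : (1024 : ℝ) ≤ P := by exact_mod_cast hP
  have hP0 : (0 : ℝ) < P := by linarith
  set t : ℝ := (P : ℝ) ^ ((1 : ℝ) / 20) with ht
  have ht20 : t ^ 20 = P := by
    rw [ht, ← Real.rpow_natCast, ← Real.rpow_mul hP0.le]; norm_num
  have ht1 : 1 ≤ t := Real.one_le_rpow (by linarith) (by norm_num)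
  have ht0 : 0 < t := by linarith
  have hRt : (R : ℝ) ≤ t := by
    by_contra hcon
    have h1 : t ^ 20 < (R : ℝ) ^ 20 := pow_lt_pow_left₀ (not_le.1 hcon) ht0.le (by norm_num)
    rw [ht20] at h1
    have h2 : ((R ^ 20 : ℕ) : ℝ) ≤ P := by exact_mod_cast hR
    push_cast at h2
    linarith
  have hR0 : (0 : ℝ) ≤ R := Nat.cast_nonneg _
  set y : ℝ := t ^ 2 with hy
  have hy2 : 2 ≤ y := by
    by_contra hcon
    have h1 : y ^ 10 < 2 ^ 10 := pow_lt_pow_left₀ (not_le.1 hcon) (by positivity) (by norm_num)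
    have h2 : y ^ 10 = P := by rw [hy, ← pow_mul]; exact ht20
    rw [h2] at h1
    norm_num at h1
    linarith
  have hlogP : 0 < Real.log P := Real.log_pos (by linarith)
  have hlogy : Real.log y = Real.log P / 10 := by
    have h2 : y ^ 10 = P := by rw [hy, ← pow_mul]; exact ht20
    have h3 : Real.log P = 10 * Real.log y := by
      rw [← h2, Real.log_pow]; norm_num
    rw [h3]; ring
  have hlogt : Real.log P ≤ 20 * t := by
    have h3 : Real.log P = 20 * Real.log t := by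
      rw [← ht20, Real.log_pow]; norm_num
    rw [h3]
    have := Real.log_le_sub_one_of_pos ht0
    linarith
  have ht6 : t ^ 6 ≤ 20 * (P / Real.log P) := by
    rw [← mul_div_assoc, le_div_iff₀ hlogP]
    calc t ^ 6 * Real.log P ≤ t ^ 6 * (20 * t) := mul_le_mul_of_nonneg_left hlogt (by positivity)
      _ = 20 * t ^ 7 := by ring
      _ ≤ 20 * t ^ 20 := by
          have := pow_le_pow_right₀ ht1 (show 7 ≤ 20 by norm_num)
          linarith
      _ = 20 * P := by rw [ht20]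
  have hyt6 : y ≤ t ^ 6 := by rw [hy]; exact pow_le_pow_right₀ ht1 (by norm_num)
  obtain ⟨lp, lm, hl1, hl2, hl3, hl4, _⟩ := hF y y hy2 le_rfl
  set M : ℕ := C1 * P with hM
  have hyfl : ∀ d, lp d ≠ 0 → 1 ≤ d ∧ d ≤ ⌊y⌋₊ := by
    intro d hd
    have h1 := hl2 d (Or.inl hd)
    exact ⟨h1.1, Nat.le_floor h1.2⟩
  have hfl : ((⌊y⌋₊ : ℕ) : ℝ) ≤ y := Nat.floor_le (by positivity)
  set ν : ℕ → ℝ := fun n => ∑ d ∈ n.divisors, lp d with hν
  have hrough0 : ∀ n, 0 ≤ Hoh.rough y n := by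
    intro n
    show 0 ≤ (if n ≠ 0 ∧ Hoh.Rough y n then (1 : ℝ) else 0)
    split_ifs <;> norm_num
  have hν0 : ∀ n ∈ Finset.Icc 1 M, 0 ≤ ν n := by
    intro n hn
    rw [Finset.mem_Icc] at hn
    exact (hrough0 n).trans (hl3 n (by omega)).2
  have hmemQ : ∀ n ∈ A, P < n ∧ n ≤ M ∧ n.Prime := by
    intro n hn
    have h1 := hA hn
    unfold QQ at h1
    rw [Finset.mem_filter, Finset.mem_Ioc] at h1
    exact ⟨h1.1.1, h1.1.2, h1.2.1⟩
  have hν1 : ∀ n ∈ A, 1 ≤ ν n := by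
    intro n hn
    obtain ⟨h1, h2, h3⟩ := hmemQ n hn
    refine le_trans (le_of_eq ?_) (hl3 n h3.ne_zero).2
    show (1 : ℝ) = (if n ≠ 0 ∧ Hoh.Rough y n then (1 : ℝ) else 0)
    rw [if_pos]
    refine ⟨h3.ne_zero, fun p hp hpn => ?_⟩
    rw [(Nat.prime_dvd_prime_iff_eq hp h3).1 hpn]
    have h4 : (P : ℝ) < n := by exact_mod_cast h1
    have h5 : y ≤ P := by
      rw [hy, ← ht20]; exact pow_le_pow_right₀ ht1 (by norm_num)
    linarith
  have hAM : A ⊆ Finset.Icc 1 M := by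
    intro n hn
    obtain ⟨h1, h2, h3⟩ := hmemQ n hn
    rw [Finset.mem_Icc]; exact ⟨h3.one_lt.le, h2⟩
  -- the sum of `ν`
  have hνsum : ∑ n ∈ Finset.Icc 1 M, ν n ≤ 10 * C1 * (1 + C) * C' * (P / Real.log P) + y := by
    have h1 : ((∑ n ∈ Finset.Icc 1 M, ν n : ℝ) : ℂ) =
        ((∑ d ∈ Finset.Icc 1 ⌊y⌋₊, lp d * ((M / d : ℕ) : ℝ) : ℝ) : ℂ) := by
      have h2 := lf_div M ⌊y⌋₊ lp hyfl (fun _ => 1)
      have h3 : ((∑ n ∈ Finset.Icc 1 M, ν n : ℝ) : ℂ) =
          ∑ n ∈ Finset.Icc 1 M, ((∑ d ∈ n.divisors, lp d : ℝ) : ℂ) * 1 := by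
        rw [Complex.ofReal_sum]
        exact Finset.sum_congr rfl (fun n _ => (mul_one _).symm)
      rw [h3, h2, Complex.ofReal_sum]
      refine Finset.sum_congr rfl fun d _ => ?_
      rw [Finset.sum_const, Nat.card_Icc]
      simp
    have h2 : ∑ n ∈ Finset.Icc 1 M, ν n = ∑ d ∈ Finset.Icc 1 ⌊y⌋₊, lp d * ((M / d : ℕ) : ℝ) := by
      exact_mod_cast h1
    rw [h2]
    have h3 : ∑ d ∈ Finset.Icc 1 ⌊y⌋₊, lp d * ((M / d : ℕ) : ℝ) ≤
        ∑ d ∈ Finset.Icc 1 ⌊y⌋₊, (lp d / d * M + 1) := by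
      refine Finset.sum_le_sum fun d hd => ?_
      rw [Finset.mem_Icc] at hd
      have hd0 : (0 : ℝ) < d := by exact_mod_cast hd.1
      have h4 : ((M / d : ℕ) : ℝ) ≤ (M : ℝ) / d := Nat.cast_div_le
      have h5 : (M : ℝ) / d - 1 ≤ ((M / d : ℕ) : ℝ) := by
        have h6 := Nat.lt_div_mul_add (a := M) (b := d) (by omega)
        have h7 : (M : ℝ) < ((M / d : ℕ) : ℝ) * d + d := by exact_mod_cast h6
        rw [sub_le_iff_le_add, div_le_iff₀ hd0]
        linarith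
      have h6 := (hl1 d).1
      rw [abs_le] at h6
      have h7 : lp d / d * M = lp d * ((M : ℝ) / d) := by ring
      rw [h7]
      have h8 : |lp d * (((M / d : ℕ) : ℝ) - (M : ℝ) / d)| ≤ 1 := by
        rw [abs_mul]
        have h9 : |((M / d : ℕ) : ℝ) - (M : ℝ) / d| ≤ 1 := by
          rw [abs_le]; constructor <;> linarith
        calc |lp d| * |((M / d : ℕ) : ℝ) - (M : ℝ) / d| ≤ 1 * 1 :=
              mul_le_mul (hl1 d).1 h9 (abs_nonneg _) zero_le_one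
          _ = 1 := by norm_num
      have h9 := (abs_le.1 h8).2
      nlinarith
    refine h3.trans ?_
    rw [Finset.sum_add_distrib, ← Finset.sum_mul, Finset.sum_const, Nat.card_Icc]
    have hVy : Hoh.V y ≤ C' / Real.log y := hV y hy2
    have hVy0 : 0 ≤ Hoh.V y := (Hoh.V_pos y).le
    have h4 : ∑ d ∈ Finset.Icc 1 ⌊y⌋₊, lp d / d ≤ (1 + C) * Hoh.V y := by
      have h5 := (abs_le.1 hl4).2
      have h6 : Real.exp (-c * (Real.log y / Real.log y)) ≤ 1 := by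
        apply Real.exp_le_one_iff.2
        have hly : 0 < Real.log y := Real.log_pos (by linarith)
        rw [div_self hly.ne']
        linarith
      have h7 : C * Real.exp (-c * (Real.log y / Real.log y)) * Hoh.V y ≤ C * 1 * Hoh.V y := by
        gcongr
      linarith
    have h5 : (∑ d ∈ Finset.Icc 1 ⌊y⌋₊, lp d / d) * (M : ℝ) ≤
        10 * C1 * (1 + C) * C' * (P / Real.log P) := by
      have hM0 : (0 : ℝ) ≤ (M : ℝ) := Nat.cast_nonneg _
      calc (∑ d ∈ Finset.Icc 1 ⌊y⌋₊, lp d / d) * (M : ℝ) ≤ ((1 + C) * Hoh.V y) * M :=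
            mul_le_mul_of_nonneg_right h4 hM0
        _ ≤ ((1 + C) * (C' / Real.log y)) * M := by gcongr
        _ = 10 * C1 * (1 + C) * C' * (P / Real.log P) := by
            rw [hlogy, hM]; push_cast
            field_simp
    have h6 : (⌊y⌋₊ + 1 - 1) • (1 : ℝ) ≤ y := by
      rw [Nat.add_sub_cancel, nsmul_eq_mul, mul_one]; exact hfl
    linarith
  -- characters
  set I : Finset (Σ s : ℕ, DirichletCharacter ℂ s) := (Finset.Icc 1 R).sigma
    (fun r => (Finset.univ : Finset (DirichletCharacter ℂ r)).filter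
      (fun ψ => ψ.IsPrimitive)) with hI
  have hIcard : (I.card : ℝ) ≤ (R : ℝ) ^ 2 := lf_card R
  set f : (Σ s : ℕ, DirichletCharacter ℂ s) → ℕ → ℂ := fun x n => x.2 ((n : ℕ) : ZMod x.1)
    with hf
  have hf1 : ∀ x n, ‖f x n‖ ≤ 1 := fun x n => DirichletCharacter.norm_le_one _ _
  have hfm : ∀ x m n, f x (m * n) = f x m * f x n := by
    intro x m n
    rw [hf]; simp only [Nat.cast_mul, map_mul]
  have hLHS : ∑ r ∈ Finset.Icc 1 R, S2 A r = ∑ x ∈ I, ‖∑ n ∈ A, f x n‖ ^ 2 := by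
    rw [hI, Finset.sum_sigma]
    refine Finset.sum_congr rfl fun r _ => ?_
    unfold S2 SA
    rw [Finset.sum_filter]
  rw [hLHS]
  set K : ℝ := 10 * C1 * (1 + C) * C' * (P / Real.log P) + y + (R : ℝ) ^ 2 * (y * (R : ℝ) ^ 2)
    with hK
  have hPl : 0 ≤ (P : ℝ) / Real.log P := by positivity
  have hK0 : 0 ≤ K := by rw [hK]; positivity
  have hKle : K ≤ (10 * C1 * (1 + C) * C' + 40) * (P / Real.log P) := by
    have h1 : (R : ℝ) ^ 2 * (y * (R : ℝ) ^ 2) ≤ t ^ 6 := by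
      calc (R : ℝ) ^ 2 * (y * (R : ℝ) ^ 2) ≤ t ^ 2 * (y * t ^ 2) := by gcongr
        _ = t ^ 6 := by rw [hy]; ring
    rw [hK]
    nlinarith
  have hmain := lf_dual I A (Finset.Icc 1 M) hAM ν hν0 hν1 f K hK0 (by
    intro x hx
    rw [hI, Finset.mem_sigma, Finset.mem_Icc, Finset.mem_filter] at hx
    have hoff : ∀ z ∈ I, z ≠ x → ‖∑ n ∈ Finset.Icc 1 M, (ν n : ℂ) *
        (f x n * (starRingEnd ℂ) (f z n))‖ ≤ y * (R : ℝ) ^ 2 := by
      intro z hz hzx
      rw [hI, Finset.mem_sigma, Finset.mem_Icc, Finset.mem_filter] at hz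
      rw [lf_div M ⌊y⌋₊ lp hyfl (fun n => f x n * (starRingEnd ℂ) (f z n))]
      have h1 : ∀ d ∈ Finset.Icc 1 ⌊y⌋₊, ‖(lp d : ℂ) * ∑ m ∈ Finset.Icc 1 (M / d),
          (f x (d * m) * (starRingEnd ℂ) (f z (d * m)))‖ ≤ (R : ℝ) ^ 2 := by
        intro d _
        have h2 : ∑ m ∈ Finset.Icc 1 (M / d), (f x (d * m) * (starRingEnd ℂ) (f z (d * m))) =
            (f x d * (starRingEnd ℂ) (f z d)) *
              ∑ m ∈ Finset.Icc 1 (M / d), (f x m * (starRingEnd ℂ) (f z m)) := by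
          rw [Finset.mul_sum]
          refine Finset.sum_congr rfl fun m _ => ?_
          rw [hfm, hfm, map_mul]; ring
        rw [h2, norm_mul, norm_mul, norm_mul, RCLike.norm_conj]
        have h3 := hN x.1 z.1 x.2 z.2 hx.1.1 hz.1.1 hx.2.2 hz.2.2 (fun h => hzx h.symm) (M / d)
        have h4 : ‖(lp d : ℂ)‖ ≤ 1 := by
          rw [Complex.norm_real]; exact (hl1 d).1
        have h5 : (x.1 : ℝ) ≤ R := by exact_mod_cast hx.1.2
        have h6 : (z.1 : ℝ) ≤ R := by exact_mod_cast hz.1.2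
        have h7 : ‖f x d‖ * ‖f z d‖ ≤ 1 := mul_le_one₀ (hf1 x d) (norm_nonneg _) (hf1 z d)
        calc ‖(lp d : ℂ)‖ * (‖f x d‖ * ‖f z d‖ *
              ‖∑ m ∈ Finset.Icc 1 (M / d), (f x m * (starRingEnd ℂ) (f z m))‖) ≤
              1 * (1 * ((x.1 : ℝ) * z.1)) := by
                gcongr
          _ ≤ (R : ℝ) ^ 2 := by
                rw [one_mul, one_mul, sq]
                exact mul_le_mul h5 h6 (Nat.cast_nonneg _) hR0
      refine (norm_sum_le _ _).trans ((Finset.sum_le_sum h1).trans ?_)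
      rw [Finset.sum_const, Nat.card_Icc, Nat.add_sub_cancel, nsmul_eq_mul]
      exact mul_le_mul_of_nonneg_right hfl (by positivity)
    have hdiag : ‖∑ n ∈ Finset.Icc 1 M, (ν n : ℂ) * (f x n * (starRingEnd ℂ) (f x n))‖ ≤
        10 * C1 * (1 + C) * C' * (P / Real.log P) + y := by
      refine le_trans (norm_sum_le _ _) (le_trans (Finset.sum_le_sum fun n hn => ?_) hνsum)
      rw [norm_mul, norm_mul, RCLike.norm_conj, Complex.norm_real, Real.norm_eq_abs,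
        abs_of_nonneg (hν0 n hn)]
      have h7 : ‖f x n‖ * ‖f x n‖ ≤ 1 := mul_le_one₀ (hf1 x n) (norm_nonneg _) (hf1 x n)
      calc ν n * (‖f x n‖ * ‖f x n‖) ≤ ν n * 1 := mul_le_mul_of_nonneg_left h7 (hν0 n hn)
        _ = ν n := mul_one _
    have hxI : x ∈ I := by
      rw [hI, Finset.mem_sigma, Finset.mem_Icc, Finset.mem_filter]; exact hx
    rw [← Finset.add_sum_erase I _ hxI]
    have herase : ∑ z ∈ I.erase x, ‖∑ n ∈ Finset.Icc 1 M, (ν n : ℂ) *
        (f x n * (starRingEnd ℂ) (f z n))‖ ≤ (R : ℝ) ^ 2 * (y * (R : ℝ) ^ 2) := by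
      calc _ ≤ ∑ z ∈ I.erase x, y * (R : ℝ) ^ 2 := by
            refine Finset.sum_le_sum fun z hz => ?_
            rw [Finset.mem_erase] at hz
            exact hoff z hz.2 hz.1
        _ = ((I.erase x).card : ℝ) * (y * (R : ℝ) ^ 2) := by
            rw [Finset.sum_const, nsmul_eq_mul]
        _ ≤ (I.card : ℝ) * (y * (R : ℝ) ^ 2) := by
            gcongr
            exact Finset.erase_subset _ _
        _ ≤ _ := mul_le_mul_of_nonneg_right hIcard (by positivity)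
    rw [hK]
    linarith)
  refine hmain.trans ?_
  exact mul_le_mul_of_nonneg_right hKle (Nat.cast_nonneg _)

end Pool.Agent.LogCh
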