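import Mathlib
import Pool.Agent.Lib.LogCh.EDefs

/-!
# Log-averaged cancellation at `n ^ 2 + 1`: module E.LIP
-/

set_option autoImplicit false

namespace Pool.Agent.LogCh

open Real
open Pool.Agent.NSqP
open Pool.Agent.MP484c84Par (ballG mem_ballG crossG dotG)

private theorem elip_max (u v : ℝ) : |max 0 u - max 0 v| ≤ |u - v| := by
  have h := abs_max_sub_max_le_max (0 : ℝ) u 0 v
  simpa using h

private theorem elip_min (u v : ℝ) : |min 1 u - min 1 v| ≤ |u - v| := by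
  have h := abs_min_sub_min_le_max (1 : ℝ) u 1 v
  simpa using h

private theorem elip_trap_nonneg (s t w y : ℝ) : 0 ≤ trap s t w y := le_max_left _ _

private theorem elip_trap_le (s t w y : ℝ) : trap s t w y ≤ 1 :=
  max_le zero_le_one (min_le_left _ _)

private theorem elip_cut_nonneg (κ x : ℝ) : 0 ≤ cut κ x := le_max_left _ _

private theorem elip_cut_le (κ x : ℝ) : cut κ x ≤ 1 := max_le zero_le_one (min_le_left _ _)

private theorem elip_trap (s t w y z : ℝ) (hw : 0 < w) :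
    |trap s t w y - trap s t w z| ≤ |y - z| / w := by
  unfold trap
  refine (elip_max _ _).trans ((elip_min _ _).trans ?_)
  refine (abs_min_sub_min_le_max _ _ _ _).trans (max_le ?_ ?_)
  · have : (y - s) / w - (z - s) / w = (y - z) / w := by ring
    rw [this, abs_div, abs_of_pos hw]
  · have : (t - y) / w - (t - z) / w = (z - y) / w := by ring
    rw [this, abs_div, abs_of_pos hw, abs_sub_comm]

private theorem elip_cut (κ x z : ℝ) (hκ : 0 < κ) : |cut κ x - cut κ z| ≤ |x - z| / κ := by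
  unfold cut
  refine (elip_max _ _).trans ((elip_min _ _).trans ?_)
  have : x / κ - 1 - (z / κ - 1) = (x - z) / κ := by ring
  rw [this, abs_div, abs_of_pos hκ]

private theorem elip_cut_zero (κ x : ℝ) (hκ : 0 < κ) (hx : x ≤ κ) : cut κ x = 0 := by
  unfold cut
  have h1 : x / κ ≤ 1 := by rw [div_le_one hκ]; exact hx
  apply le_antisymm _ (le_max_left _ _)
  apply max_le (le_refl _)
  exact (min_le_right _ _).trans (by linarith)

private theorem elip_sqrt (a ν μ : ℝ) (ha : 0 < a) (ha1 : a ≤ 1) (hν : a ≤ ν) (hμ : a ≤ μ) :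
    |√ν - √μ| ≤ |ν - μ| / a := by
  rw [le_div_iff₀ ha]
  have h1 : a ≤ √ν := by
    apply Real.le_sqrt_of_sq_le
    nlinarith
  have h2 : a ≤ √μ := by
    apply Real.le_sqrt_of_sq_le
    nlinarith
  have h3 : ν - μ = (√ν - √μ) * (√ν + √μ) := by
    have e1 : √ν * √ν = ν := Real.mul_self_sqrt (by linarith)
    have e2 : √μ * √μ = μ := Real.mul_self_sqrt (by linarith)
    linear_combination -e1 + e2
  rw [h3, abs_mul]
  apply mul_le_mul_of_nonneg_left _ (abs_nonneg _)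
  rw [abs_of_pos (by linarith)]
  linarith

private theorem elip_inv (κ x z : ℝ) (hκ : 0 < κ) :
    |(max x κ)⁻¹ - (max z κ)⁻¹| ≤ |x - z| / κ ^ 2 := by
  have h1 : κ ≤ max x κ := le_max_right _ _
  have h2 : κ ≤ max z κ := le_max_right _ _
  have h1' : 0 < max x κ := by linarith
  have h2' : 0 < max z κ := by linarith
  have h3 : (max x κ)⁻¹ - (max z κ)⁻¹ = (max z κ - max x κ) / (max x κ * max z κ) := by
    field_simp
  rw [h3, abs_div, abs_of_pos (mul_pos h1' h2')]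
  have h4 : |max z κ - max x κ| ≤ |x - z| := by
    rw [abs_sub_comm]
    exact abs_max_sub_max_le_abs x z κ
  have h5 : κ ^ 2 ≤ max x κ * max z κ := by
    rw [sq]
    exact mul_le_mul h1 h2 hκ.le h1'.le
  exact div_le_div₀ (abs_nonneg _) h4 (by positivity) h5

private theorem elip_Phi (b b' κ h l0 ν ν' x : ℝ) (hκ : 0 < κ) :
    Phi b b' κ h l0 ν ν' x = cut κ x *
      trap (√b) (√b') h (l0 * (√ν' - √ν) * (max x κ)⁻¹) * (max x κ)⁻¹ := by
  unfold Phi
  by_cases hx : x ≤ κ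
  · rw [elip_cut_zero κ x hκ hx]
    simp
  · push Not at hx
    rw [if_neg (by linarith), max_eq_left hx.le]
    simp only [div_eq_mul_inv]

/-- **LIPPHI**: the weight `Phi` is a Lipschitz weight, uniformly in `l0`. (`trap` has Lipschitz
constant `1/h`, `cut` has `1/κ`, `1/x ≤ 1/κ`; `√` is Lipschitz on `[a, 1]`; for `x ≥ C2` the
argument of `trap` is at most `C1/C2 ≤ √b`.) Negative `h` or `κ` do not occur. -/
theorem LIPPHIp : LIPPHIStmt := by
  intro a b b' κ h C1 C2 ha ha1 hb _hb' hκ _hκ1 hh _hh1 hC1 hC2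
  have hC1' : (1 : ℝ) ≤ C1 := by exact_mod_cast hC1
  have hC1p : (0 : ℝ) < C1 := by linarith
  refine ⟨1 / κ + 2 / κ ^ 2 + C1 / (h * κ ^ 2 * a) + C1 / (h * κ ^ 3), by positivity, ?_⟩
  intro l0 hl1 hl2
  have hI0 : ∀ x : ℝ, 0 ≤ (max x κ)⁻¹ := fun x =>
    inv_nonneg.2 (hκ.le.trans (le_max_right _ _))
  have hI1 : ∀ x : ℝ, (max x κ)⁻¹ ≤ 1 / κ := fun x => by
    rw [one_div]
    exact inv_anti₀ hκ (le_max_right _ _)
  constructor
  · intro ν ν' x
    rw [elip_Phi _ _ _ _ _ _ _ _ hκ]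
    have h1 := elip_cut_nonneg κ x
    have h2 := elip_cut_le κ x
    have h3 := elip_trap_nonneg (√b) (√b') h (l0 * (√ν' - √ν) * (max x κ)⁻¹)
    have h4 := elip_trap_le (√b) (√b') h (l0 * (√ν' - √ν) * (max x κ)⁻¹)
    rw [abs_of_nonneg (mul_nonneg (mul_nonneg h1 h3) (hI0 x))]
    have h5 : cut κ x * trap (√b) (√b') h (l0 * (√ν' - √ν) * (max x κ)⁻¹) ≤ 1 := by
      calc _ ≤ (1 : ℝ) * 1 := mul_le_mul h2 h4 h3 zero_le_one
        _ = 1 := by ring
    calc _ ≤ 1 * (1 / κ) := mul_le_mul h5 (hI1 x) (hI0 x) zero_le_one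
      _ = 1 / κ := one_mul _
      _ ≤ _ := by
        have e1 : 0 ≤ 2 / κ ^ 2 := by positivity
        have e2 : 0 ≤ (C1 : ℝ) / (h * κ ^ 2 * a) := by positivity
        have e3 : 0 ≤ (C1 : ℝ) / (h * κ ^ 3) := by positivity
        linarith
  · intro ν ν' x hx
    rw [elip_Phi _ _ _ _ _ _ _ _ hκ, elip_cut_zero κ x hκ hx]
    simp
  · intro ν ν' x hν hν' hν1 hν1' hx
    have hsb : 0 < √b := Real.sqrt_pos.2 hb
    have hC2p : 0 < (C2 : ℝ) := lt_of_lt_of_le (by positivity) hC2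
    have hxp : 0 < x := by linarith
    have h1 : √ν' - √ν ≤ 1 := by
      have e1 : √ν' ≤ 1 := by rw [Real.sqrt_le_one]; exact hν1'
      have e2 := Real.sqrt_nonneg ν
      linarith
    have h2 : l0 * (√ν' - √ν) / x ≤ √b := by
      rw [div_le_iff₀ hxp]
      have e1 : l0 * (√ν' - √ν) ≤ C1 := by
        calc l0 * (√ν' - √ν) ≤ l0 * 1 := mul_le_mul_of_nonneg_left h1 (by linarith)
          _ ≤ C1 := by linarith
      have e2 : (C1 : ℝ) ≤ √b * x := by
        have e3 : 2 * (C1 : ℝ) / √b ≤ x := hC2.trans hx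
        rw [div_le_iff₀ hsb] at e3
        nlinarith
      linarith
    have h3 : trap (√b) (√b') h (l0 * (√ν' - √ν) / x) = 0 := by
      unfold trap
      apply le_antisymm _ (le_max_left _ _)
      apply max_le (le_refl _)
      refine (min_le_right _ _).trans ((min_le_left _ _).trans ?_)
      apply div_nonpos_of_nonpos_of_nonneg _ hh.le
      linarith
    unfold Phi
    rw [if_neg (by linarith), h3]
    simp
  · intro ν ν' x ν₁ ν₁' x₁ hν hν1 hν' hν1' hμ hμ1 hμ' hμ1'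
    rw [elip_Phi _ _ _ _ _ _ _ _ hκ, elip_Phi _ _ _ _ _ _ _ _ hκ]
    set A := cut κ x with hA
    set A₁ := cut κ x₁ with hA₁
    set I := (max x κ)⁻¹ with hI
    set I₁ := (max x₁ κ)⁻¹ with hI₁
    set T := trap (√b) (√b') h (l0 * (√ν' - √ν) * I) with hT
    set T₁ := trap (√b) (√b') h (l0 * (√ν₁' - √ν₁) * I₁) with hT₁
    have hA0 : 0 ≤ A := elip_cut_nonneg _ _
    have hA1 : 0 ≤ A₁ := elip_cut_nonneg _ _
    have hA1' : A₁ ≤ 1 := elip_cut_le _ _
    have hT0 : 0 ≤ T := elip_trap_nonneg _ _ _ _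
    have hT0' : T ≤ 1 := elip_trap_le _ _ _ _
    have hT1 : 0 ≤ T₁ := elip_trap_nonneg _ _ _ _
    have hT1' : T₁ ≤ 1 := elip_trap_le _ _ _ _
    have hi0 : 0 ≤ I := hI0 x
    have hi1 : I ≤ 1 / κ := hI1 x
    set d := |x - x₁| with hd
    set e := |ν - ν₁| + |ν' - ν₁'| with he
    have hd0 : 0 ≤ d := abs_nonneg _
    have he0 : 0 ≤ e := by positivity
    have b1 : |A - A₁| ≤ d / κ := elip_cut κ x x₁ hκ
    have b2 : |I - I₁| ≤ d / κ ^ 2 := elip_inv κ x x₁ hκ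
    have b3 : |T - T₁| ≤ |l0 * (√ν' - √ν) * I - l0 * (√ν₁' - √ν₁) * I₁| / h :=
      elip_trap _ _ _ _ _ hh
    have g1 : |√ν₁' - √ν₁| ≤ 1 := by
      have e1 : √ν₁' ≤ 1 := by rw [Real.sqrt_le_one]; exact hμ1'
      have e2 : √ν₁ ≤ 1 := by rw [Real.sqrt_le_one]; exact hμ1
      have e3 := Real.sqrt_nonneg ν₁
      have e4 := Real.sqrt_nonneg ν₁'
      rw [abs_le]
      constructor <;> linarith
    have g2 : |(√ν' - √ν) - (√ν₁' - √ν₁)| ≤ e / a := by
      have e1 := elip_sqrt a ν ν₁ ha ha1 hν hμ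
      have e2 := elip_sqrt a ν' ν₁' ha ha1 hν' hμ'
      have e3 : (√ν' - √ν) - (√ν₁' - √ν₁) = (√ν' - √ν₁') - (√ν - √ν₁) := by ring
      rw [e3]
      calc |(√ν' - √ν₁') - (√ν - √ν₁)| ≤ |√ν' - √ν₁'| + |√ν - √ν₁| := abs_sub _ _
        _ ≤ |ν' - ν₁'| / a + |ν - ν₁| / a := add_le_add e2 e1
        _ = e / a := by rw [he]; ring
    have b4 : |l0 * (√ν' - √ν) * I - l0 * (√ν₁' - √ν₁) * I₁| ≤
        C1 * (e / a * (1 / κ) + d / κ ^ 2) := by
      have e1 : l0 * (√ν' - √ν) * I - l0 * (√ν₁' - √ν₁) * I₁ =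
          l0 * (((√ν' - √ν) - (√ν₁' - √ν₁)) * I + (√ν₁' - √ν₁) * (I - I₁)) := by ring
      rw [e1, abs_mul, abs_of_pos (by linarith : 0 < l0)]
      apply mul_le_mul hl2 _ (abs_nonneg _) hC1p.le
      refine (abs_add_le _ _).trans (add_le_add ?_ ?_)
      · rw [abs_mul, abs_of_nonneg hi0]
        exact mul_le_mul g2 hi1 hi0 (by positivity)
      · rw [abs_mul]
        calc |√ν₁' - √ν₁| * |I - I₁| ≤ 1 * (d / κ ^ 2) :=
              mul_le_mul g1 b2 (abs_nonneg _) zero_le_one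
          _ = d / κ ^ 2 := one_mul _
    have b5 : |T - T₁| ≤ C1 * (e / a * (1 / κ) + d / κ ^ 2) / h :=
      b3.trans (div_le_div_of_nonneg_right b4 hh.le)
    have key : A * T * I - A₁ * T₁ * I₁ =
        (A - A₁) * T * I + A₁ * (T - T₁) * I + A₁ * T₁ * (I - I₁) := by ring
    rw [key]
    have c1 : |(A - A₁) * T * I| ≤ d / κ * 1 * (1 / κ) := by
      rw [abs_mul, abs_mul, abs_of_nonneg hT0, abs_of_nonneg hi0]
      exact mul_le_mul (mul_le_mul b1 hT0' hT0 (by positivity)) hi1 hi0 (by positivity)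
    have c2 : |A₁ * (T - T₁) * I| ≤ 1 * (C1 * (e / a * (1 / κ) + d / κ ^ 2) / h) * (1 / κ) := by
      rw [abs_mul, abs_mul, abs_of_nonneg hA1, abs_of_nonneg hi0]
      exact mul_le_mul (mul_le_mul hA1' b5 (abs_nonneg _) zero_le_one) hi1 hi0 (by positivity)
    have c3 : |A₁ * T₁ * (I - I₁)| ≤ 1 * 1 * (d / κ ^ 2) := by
      rw [abs_mul, abs_mul, abs_of_nonneg hA1, abs_of_nonneg hT1]
      exact mul_le_mul (mul_le_mul hA1' hT1' hT1 zero_le_one) b2 (abs_nonneg _) (by norm_num)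
    have c4 := abs_add_three ((A - A₁) * T * I) (A₁ * (T - T₁) * I) (A₁ * T₁ * (I - I₁))
    have c5 : d / κ * 1 * (1 / κ) + 1 * (C1 * (e / a * (1 / κ) + d / κ ^ 2) / h) * (1 / κ) +
        1 * 1 * (d / κ ^ 2) = d * (2 / κ ^ 2) + e * (C1 / (h * κ ^ 2 * a)) +
          d * (C1 / (h * κ ^ 3)) := by
      field_simp
      ring
    have e0 : 0 ≤ 1 / κ := by positivity
    have e1 : 0 ≤ 2 / κ ^ 2 := by positivity
    have e2 : 0 ≤ (C1 : ℝ) / (h * κ ^ 2 * a) := by positivity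
    have e3 : 0 ≤ (C1 : ℝ) / (h * κ ^ 3) := by positivity
    calc _ ≤ d * (2 / κ ^ 2) + e * (C1 / (h * κ ^ 2 * a)) + d * (C1 / (h * κ ^ 3)) := by
          rw [← c5]
          linarith
      _ ≤ (1 / κ + 2 / κ ^ 2 + C1 / (h * κ ^ 2 * a) + C1 / (h * κ ^ 3)) * (e + d) := by
          have f0 := mul_nonneg e0 hd0
          have f0' := mul_nonneg e0 he0
          have f1 := mul_nonneg e1 he0
          have f2 := mul_nonneg e2 hd0
          have f3 := mul_nonneg e3 he0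
          nlinarith

end Pool.Agent.LogCh
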