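import Mathlib
import Pool.Agent.Lib.LogCh.EDefs
import Pool.Agent.Lib.NSqP.LS0

/-!
# Log-averaged cancellation at `n ^ 2 + 1`: module E.MLS
-/

set_option autoImplicit false

namespace Pool.Agent.LogCh

open Real
open Pool.Agent.NSqP
open Pool.Agent.MP484c84Par (ballG mem_ballG crossG dotG)

/-- the point `e(b/r)` -/
private noncomputable def ept (x : Σ _ : ℕ, ℕ) : ℂ :=
  Complex.exp (2 * π * Complex.I * ((x.2 : ℂ) / (x.1 : ℂ)))

private lemma ept_eq (x : Σ _ : ℕ, ℕ) :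
    ept x = Complex.exp (((2 * π * ((x.2 : ℝ) / (x.1 : ℝ)) : ℝ) : ℂ) * Complex.I) := by
  unfold ept
  congr 1
  push_cast
  ring

private lemma norm_ept (x : Σ _ : ℕ, ℕ) : ‖ept x‖ = 1 := by
  rw [ept_eq]; exact Complex.norm_exp_ofReal_mul_I _

private lemma chord (s t : ℝ) :
    ‖Complex.exp ((s : ℂ) * Complex.I) - Complex.exp ((t : ℂ) * Complex.I)‖ =
      2 * |Real.sin ((s - t) / 2)| := by
  have h1 : Complex.exp ((s : ℂ) * Complex.I) - Complex.exp ((t : ℂ) * Complex.I) =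
      Complex.exp ((t : ℂ) * Complex.I) * (Complex.exp (Complex.I * ((s - t : ℝ) : ℂ)) - 1) := by
    rw [mul_sub, ← Complex.exp_add, mul_one]
    congr 2
    push_cast
    ring
  rw [h1, norm_mul, Complex.norm_exp_ofReal_mul_I, one_mul, Complex.norm_exp_I_mul_ofReal_sub_one,
    norm_mul, Real.norm_eq_abs, Real.norm_eq_abs, abs_two]

private lemma sep_aux {r r' b b' R : ℕ} (hr : 1 ≤ r) (hr' : 1 ≤ r') (hR : r ≤ R) (hR' : r' ≤ R)
    (hb : b < r) (_hb' : b' < r') (hlt : (b' : ℝ) / r' < (b : ℝ) / r) :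
    1 / ((R : ℝ) ^ 2) ≤ 2 * |Real.sin ((2 * π * ((b : ℝ) / r) - 2 * π * ((b' : ℝ) / r')) / 2)| := by
  have hr0 : (0 : ℝ) < r := by exact_mod_cast hr
  have hr0' : (0 : ℝ) < r' := by exact_mod_cast hr'
  have hRr : (r : ℝ) ≤ R := by exact_mod_cast hR
  have hRr' : (r' : ℝ) ≤ R := by exact_mod_cast hR'
  have hR0 : (0 : ℝ) < R := hr0.trans_le hRr
  set t : ℝ := (b : ℝ) / r - (b' : ℝ) / r' with ht
  have hteq : t = (((b * r' : ℕ) : ℝ) - ((b' * r : ℕ) : ℝ)) / (r * r') := by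
    rw [ht]; push_cast; field_simp
  have hrr : (0 : ℝ) < (r : ℝ) * r' := mul_pos hr0 hr0'
  have ht0 : 0 < t := by rw [ht]; linarith
  have hnum : 0 < ((b * r' : ℕ) : ℝ) - ((b' * r : ℕ) : ℝ) := by
    rw [hteq] at ht0
    by_contra hcon
    have := div_nonpos_of_nonpos_of_nonneg (not_lt.1 hcon) hrr.le
    linarith
  have hnum1 : (b' * r : ℕ) + 1 ≤ b * r' := by
    have : ((b' * r : ℕ) : ℝ) < ((b * r' : ℕ) : ℝ) := by linarith
    exact_mod_cast this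
  have hnum1' : (1 : ℝ) ≤ ((b * r' : ℕ) : ℝ) - ((b' * r : ℕ) : ℝ) := by
    have : (((b' * r : ℕ) + 1 : ℕ) : ℝ) ≤ ((b * r' : ℕ) : ℝ) := by exact_mod_cast hnum1
    push_cast at this ⊢
    linarith
  have hnum2 : b * r' + 1 ≤ r * r' + b' * r := by
    have h1 : (b + 1) * r' ≤ r * r' := Nat.mul_le_mul_right _ hb
    nlinarith
  have hnum2' : ((b * r' : ℕ) : ℝ) - ((b' * r : ℕ) : ℝ) ≤ (r : ℝ) * r' - 1 := by
    have : ((b * r' + 1 : ℕ) : ℝ) ≤ ((r * r' + b' * r : ℕ) : ℝ) := by exact_mod_cast hnum2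
    push_cast at this ⊢
    linarith
  have hmin : 1 / ((R : ℝ) ^ 2) ≤ 1 / ((r : ℝ) * r') := by
    apply one_div_le_one_div_of_le hrr
    nlinarith
  have ht1 : 1 / ((r : ℝ) * r') ≤ t := by
    rw [hteq]; exact div_le_div_of_nonneg_right hnum1' hrr.le
  have ht2 : t ≤ 1 - 1 / ((r : ℝ) * r') := by
    rw [hteq, div_le_iff₀ hrr]
    have : (1 - 1 / ((r : ℝ) * r')) * (r * r') = r * r' - 1 := by field_simp
    rw [this]; exact hnum2'
  have harg : (2 * π * ((b : ℝ) / r) - 2 * π * ((b' : ℝ) / r')) / 2 = π * t := by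
    rw [ht]; ring
  rw [harg]
  have hp : 0 < 1 / ((r : ℝ) * r') := by positivity
  have hpi := Real.pi_pos
  rcases le_total t (1 / 2) with h | h
  · have h1 : 2 / π * (π * t) ≤ Real.sin (π * t) :=
      Real.mul_le_sin (by positivity) (by nlinarith)
    have h2 : 2 / π * (π * t) = 2 * t := by field_simp
    rw [h2] at h1
    have h3 := le_abs_self (Real.sin (π * t))
    linarith
  · have h1 : 2 / π * (π * (1 - t)) ≤ Real.sin (π * (1 - t)) :=
      Real.mul_le_sin (mul_nonneg hpi.le (by linarith)) (by nlinarith)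
    have h2 : 2 / π * (π * (1 - t)) = 2 * (1 - t) := by field_simp
    have h3 : Real.sin (π * (1 - t)) = Real.sin (π * t) := by
      rw [show π * (1 - t) = π - π * t by ring, Real.sin_pi_sub]
    rw [h2, h3] at h1
    have h4 := le_abs_self (Real.sin (π * t))
    linarith

private lemma ept_sep {R : ℕ} {x y : Σ _ : ℕ, ℕ} (hx1 : 1 ≤ x.1) (hx2 : x.1 ≤ R) (hxb : x.2 < x.1)
    (hxc : Nat.Coprime x.2 x.1) (hy1 : 1 ≤ y.1) (hy2 : y.1 ≤ R) (hyb : y.2 < y.1)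
    (hyc : Nat.Coprime y.2 y.1) (hne : x ≠ y) : 1 / ((R : ℝ) ^ 2) ≤ ‖ept x - ept y‖ := by
  obtain ⟨r, b⟩ := x
  obtain ⟨r', b'⟩ := y
  simp only at hx1 hx2 hxb hxc hy1 hy2 hyb hyc
  rw [ept_eq, ept_eq, chord]
  simp only
  rcases lt_trichotomy ((b' : ℝ) / r') ((b : ℝ) / r) with h | h | h
  · exact sep_aux hx1 hy1 hx2 hy2 hxb hyb h
  · exfalso
    apply hne
    have hr0 : (0 : ℝ) < r := by exact_mod_cast hx1
    have hr0' : (0 : ℝ) < r' := by exact_mod_cast hy1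
    rw [div_eq_div_iff hr0'.ne' hr0.ne'] at h
    have h1 : b' * r = b * r' := by exact_mod_cast h
    have h2 : r ∣ r' := by
      have : r ∣ b * r' := ⟨b', by rw [← h1, mul_comm]⟩
      exact (Nat.Coprime.symm hxc).dvd_of_dvd_mul_left this
    have h3 : r' ∣ r := by
      have : r' ∣ b' * r := ⟨b, by rw [h1, mul_comm]⟩
      exact (Nat.Coprime.symm hyc).dvd_of_dvd_mul_left this
    have h4 : r = r' := Nat.dvd_antisymm h2 h3
    subst h4
    have h5 : b' = b := Nat.eq_of_mul_eq_mul_right (by omega) h1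
    rw [h5]
  · have h1 := sep_aux hy1 hx1 hy2 hx2 hyb hxb h
    have h2 : (2 * π * ((b : ℝ) / r) - 2 * π * ((b' : ℝ) / r')) / 2 =
        -((2 * π * ((b' : ℝ) / r') - 2 * π * ((b : ℝ) / r)) / 2) := by ring
    rw [h2, Real.sin_neg, abs_neg]
    exact h1

/-- **MLS** (from `GSUMStmt`), the multiplicative large sieve. The points `e(b/r)`, `r ≤ R`,
`b < r` coprime to `r`, are at mutual distance `≥ 1 / R²` on the circle; `LS0` of `NSqP` is the dual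
form of the additive large sieve: for `T = ∑_i |∑_n x_n u_i^n|²`,
`T ≤ ‖x‖ (∑_n |∑_i b_i u_i^n|²)^{1/2} ≤ ‖x‖ (C (M + 1 + R²) T)^{1/2}`, `b_i` the conjugate of
`∑_n x_n u_i^n`. -/
theorem MLSp (hG : GSUMStmt) : MLSStmt := by
  classical
  obtain ⟨C, hC, hLS⟩ := LS0
  refine ⟨2 * C, by positivity, fun R M x hR => ?_⟩
  set s : Finset (Σ _ : ℕ, ℕ) := (Finset.Icc 1 R).sigma
    (fun r => (Finset.range r).filter (fun b => Nat.Coprime b r)) with hs
  have hR1 : (1 : ℝ) ≤ (R : ℝ) ^ 2 := by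
    have : (1 : ℝ) ≤ R := by exact_mod_cast hR
    nlinarith
  have hX : 0 ≤ ∑ n ∈ Finset.Icc 1 M, ‖x n‖ ^ 2 := Finset.sum_nonneg fun n _ => by positivity
  set Fc : (Σ _ : ℕ, ℕ) → ℂ := fun i => ∑ n ∈ Finset.Icc 1 M, x n * ept i ^ n with hFc
  set T : ℝ := ∑ i ∈ s, ‖Fc i‖ ^ 2 with hT
  have hT0 : 0 ≤ T := Finset.sum_nonneg fun n _ => by positivity
  have hstep1 : ∑ r ∈ Finset.Icc 1 R, ∑ ψ : DirichletCharacter ℂ r,
      (if ψ.IsPrimitive then ‖∑ n ∈ Finset.Icc 1 M, x n * ψ ((n : ℕ) : ZMod r)‖ ^ 2 else 0) ≤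
      T := by
    rw [hT, hs, Finset.sum_sigma]
    apply Finset.sum_le_sum
    intro r hr
    have h1 := hG r M x (Finset.mem_Icc.1 hr).1
    refine h1.trans (le_of_eq ?_)
    rfl
  have hLS' := hLS (Σ _ : ℕ, ℕ) s (fun i => (starRingEnd ℂ) (Fc i)) ept ((R : ℝ) ^ 2) (M + 1) hR1
    (fun i _ => norm_ept i) (by
      intro i hi j hj hij
      rw [hs, Finset.mem_sigma, Finset.mem_Icc, Finset.mem_filter, Finset.mem_range] at hi hj
      exact ept_sep hi.1.1 hi.1.2 hi.2.1 hi.2.2 hj.1.1 hj.1.2 hj.2.1 hj.2.2 hij)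
  have hconj : ∑ i ∈ s, ‖(starRingEnd ℂ) (Fc i)‖ ^ 2 = T := by
    rw [hT]
    exact Finset.sum_congr rfl (fun i _ => by rw [RCLike.norm_conj])
  rw [hconj] at hLS'
  -- the dual sums
  set G : ℕ → ℂ := fun n => ∑ i ∈ s, (starRingEnd ℂ) (Fc i) * ept i ^ n with hG'
  have hsub : ∑ n ∈ Finset.Icc 1 M, ‖G n‖ ^ 2 ≤
      ∑ m ∈ fr (M + 1), ‖∑ i ∈ s, (starRingEnd ℂ) (Fc i) * ept i ^ m‖ ^ 2 := by
    have h1 : ∑ n ∈ Finset.Icc 1 M, ‖G n‖ ^ 2 = ∑ m ∈ (Finset.Icc 1 M).map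
        (Nat.castEmbedding : ℕ ↪ ℤ), ‖∑ i ∈ s, (starRingEnd ℂ) (Fc i) * ept i ^ m‖ ^ 2 := by
      rw [Finset.sum_map]
      apply Finset.sum_congr rfl
      intro n _
      rw [hG']
      simp only [Nat.castEmbedding_apply, zpow_natCast]
    rw [h1]
    apply Finset.sum_le_sum_of_subset_of_nonneg
    · intro m hm
      rw [Finset.mem_map] at hm
      obtain ⟨n, hn, rfl⟩ := hm
      rw [Finset.mem_Icc] at hn
      rw [mem_fr, Nat.castEmbedding_apply]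
      rw [Nat.abs_cast]
      push_cast
      omega
    · intro m _ _
      positivity
  have hTC : (T : ℂ) = ∑ n ∈ Finset.Icc 1 M, x n * G n := by
    have h1 : (T : ℂ) = ∑ i ∈ s, (starRingEnd ℂ) (Fc i) * Fc i := by
      rw [hT]
      push_cast
      apply Finset.sum_congr rfl
      intro i _
      rw [mul_comm, Complex.mul_conj, Complex.normSq_eq_norm_sq]
      push_cast
      ring
    rw [h1]
    have h2 : ∀ i ∈ s, (starRingEnd ℂ) (Fc i) * Fc i =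
        ∑ n ∈ Finset.Icc 1 M, x n * ((starRingEnd ℂ) (Fc i) * ept i ^ n) := by
      intro i _
      conv_lhs => rw [hFc]
      simp only
      rw [Finset.mul_sum]
      exact Finset.sum_congr rfl (fun n _ => by ring)
    rw [Finset.sum_congr rfl h2, Finset.sum_comm]
    apply Finset.sum_congr rfl
    intro n _
    rw [hG', Finset.mul_sum]
  have hTle : T ≤ ∑ n ∈ Finset.Icc 1 M, ‖x n‖ * ‖G n‖ := by
    have h1 : T = ‖(T : ℂ)‖ := by rw [Complex.norm_real, Real.norm_eq_abs, abs_of_nonneg hT0]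
    rw [h1, hTC]
    refine (norm_sum_le _ _).trans (le_of_eq ?_)
    exact Finset.sum_congr rfl (fun n _ => norm_mul _ _)
  have hCS := Finset.sum_mul_sq_le_sq_mul_sq (Finset.Icc 1 M) (fun n => ‖x n‖) (fun n => ‖G n‖)
  have hT2 : T ^ 2 ≤ (∑ n ∈ Finset.Icc 1 M, ‖x n‖ ^ 2) * (C * (((M + 1 : ℕ) : ℝ) + (R : ℝ) ^ 2) * T) := by
    calc T ^ 2 ≤ (∑ n ∈ Finset.Icc 1 M, ‖x n‖ * ‖G n‖) ^ 2 := by
          apply pow_le_pow_left₀ hT0 hTle
      _ ≤ (∑ n ∈ Finset.Icc 1 M, ‖x n‖ ^ 2) * (∑ n ∈ Finset.Icc 1 M, ‖G n‖ ^ 2) := hCS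
      _ ≤ _ := mul_le_mul_of_nonneg_left (hsub.trans hLS') hX
  refine hstep1.trans ?_
  rcases eq_or_lt_of_le hT0 with h0 | h0
  · rw [← h0]
    positivity
  · have h1 : T ≤ (∑ n ∈ Finset.Icc 1 M, ‖x n‖ ^ 2) * (C * (((M + 1 : ℕ) : ℝ) + (R : ℝ) ^ 2)) := by
      have h2 : T * T ≤ (∑ n ∈ Finset.Icc 1 M, ‖x n‖ ^ 2) *
          (C * (((M + 1 : ℕ) : ℝ) + (R : ℝ) ^ 2)) * T := by
        calc T * T = T ^ 2 := by ring
          _ ≤ _ := hT2
          _ = _ := by ring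
      exact le_of_mul_le_mul_right h2 h0
    refine h1.trans ?_
    push_cast
    have h3 : C * ((M : ℝ) + 1 + (R : ℝ) ^ 2) ≤ 2 * C * (M + (R : ℝ) ^ 2) := by
      have hM : (0 : ℝ) ≤ M := Nat.cast_nonneg _
      nlinarith
    calc _ ≤ (∑ n ∈ Finset.Icc 1 M, ‖x n‖ ^ 2) * (2 * C * (M + (R : ℝ) ^ 2)) :=
          mul_le_mul_of_nonneg_left h3 hX
      _ = _ := by ring

end Pool.Agent.LogCh
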