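import Mathlib
import Pool.Agent.Lib.LogCh.EDefs

/-!
# Log-averaged cancellation at `n ^ 2 + 1`: module E.NPC
-/

set_option autoImplicit false

namespace Pool.Agent.LogCh

open Real
open Pool.Agent.NSqP
open Pool.Agent.MP484c84Par (ballG mem_ballG crossG dotG)

/-- sums of a periodic function with vanishing sum over a period -/
private theorem npc_periodic {m : ℕ} (hm : 0 < m) (g : ℕ → ℂ) (hp : ∀ n, g (m + n) = g n)
    (h0 : ∑ n ∈ Finset.range m, g n = 0) (hb : ∀ n, ‖g n‖ ≤ 1) (Y : ℕ) :
    ‖∑ n ∈ Finset.range Y, g n‖ ≤ m := by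
  induction Y using Nat.strong_induction_on with
  | _ Y ih =>
    by_cases hY : Y < m
    · calc ‖∑ n ∈ Finset.range Y, g n‖ ≤ ∑ n ∈ Finset.range Y, ‖g n‖ := norm_sum_le _ _
        _ ≤ ∑ n ∈ Finset.range Y, (1 : ℝ) := Finset.sum_le_sum fun n _ => hb n
        _ = Y := by simp
        _ ≤ m := by exact_mod_cast hY.le
    · obtain ⟨Z, rfl⟩ := Nat.exists_eq_add_of_le (not_lt.1 hY)
      rw [Finset.sum_range_add, h0, zero_add, Finset.sum_congr rfl fun n _ => hp n]
      exact ih Z (by omega)

/-- sum of a nontrivial character over a shifted period -/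
private theorem npc_period_sum {m : ℕ} [NeZero m] (χ : DirichletCharacter ℂ m) (hχ : χ ≠ 1) :
    ∑ n ∈ Finset.range m, χ ((n + 1 : ℕ) : ZMod m) = 0 := by
  have h1 : ∑ n ∈ Finset.range m, χ ((n + 1 : ℕ) : ZMod m) = ∑ a : ZMod m, χ a := by
    refine Finset.sum_bij (fun n _ => ((n + 1 : ℕ) : ZMod m)) (fun _ _ => Finset.mem_univ _)
      ?_ ?_ (fun _ _ => rfl)
    · intro a ha b hb h
      rw [Finset.mem_range] at ha hb
      push_cast at h
      have h2 : ((a : ℕ) : ZMod m) = ((b : ℕ) : ZMod m) := add_right_cancel h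
      rw [ZMod.natCast_eq_natCast_iff] at h2
      exact Nat.ModEq.eq_of_lt_of_lt h2 ha hb
    · intro b _
      refine ⟨(b - 1).val, Finset.mem_range.2 (ZMod.val_lt _), ?_⟩
      push_cast
      rw [ZMod.natCast_zmod_val]
      ring
  rw [h1]
  exact MulChar.sum_eq_zero_of_ne_one hχ

private theorem npc_val {r m : ℕ} [NeZero m] (hr : r ∣ m) (ψ : DirichletCharacter ℂ r) (n : ℕ)
    (hn : Nat.Coprime n m) :
    DirichletCharacter.changeLevel hr ψ ((n : ℕ) : ZMod m) = ψ ((n : ℕ) : ZMod r) := by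
  have h1 : IsCoprime (n : ℤ) (m : ℤ) := Nat.isCoprime_iff_coprime.2 hn
  have h2 := DirichletCharacter.changeLevel_eq_cast_of_dvd' ψ hr h1
  simpa using h2

/-- **NPC**: incomplete sums over the product of two distinct primitive characters. Proof:
`n ↦ ψ(n) conj ψ'(n)` is the character `χ = changeLevel ψ * (changeLevel ψ')⁻¹` modulo `r r'` (both
sides vanish when `n` is not coprime to `r r'`), and `χ ≠ 1`: otherwise
`changeLevel ψ = changeLevel ψ'`, the conductors `r = r'` agree (`conductor_changeLevel`) and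
`ψ = ψ'` (`changeLevel_injective`); complete periods sum to `0`. -/
theorem NPCp : NPCStmt := by
  intro r r' ψ ψ' hr hr' hψ hψ' hne Y
  have hm : 0 < r * r' := Nat.mul_pos hr hr'
  have : NeZero (r * r') := ⟨hm.ne'⟩
  have hd : r ∣ r * r' := dvd_mul_right r r'
  have hd' : r' ∣ r * r' := dvd_mul_left r' r
  set χ : DirichletCharacter ℂ (r * r') :=
    DirichletCharacter.changeLevel hd ψ * (DirichletCharacter.changeLevel hd' ψ')⁻¹ with hχ
  have hχ1 : χ ≠ 1 := by
    intro h
    have h1 : DirichletCharacter.changeLevel hd ψ = DirichletCharacter.changeLevel hd' ψ' := by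
      rw [hχ] at h
      exact mul_inv_eq_one.1 h
    have h2 : r = r' := by
      have h3 := DirichletCharacter.conductor_changeLevel ψ hd
      have h4 := DirichletCharacter.conductor_changeLevel ψ' hd'
      rw [h1] at h3
      rw [(DirichletCharacter.isPrimitive_def _).1 hψ] at h3
      rw [(DirichletCharacter.isPrimitive_def _).1 hψ'] at h4
      exact h3.symm.trans h4
    subst h2
    exact hne (congrArg _ (DirichletCharacter.changeLevel_injective hd h1))
  have hval : ∀ n : ℕ, χ ((n : ℕ) : ZMod (r * r')) =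
      ψ ((n : ℕ) : ZMod r) * (starRingEnd ℂ) (ψ' ((n : ℕ) : ZMod r')) := by
    intro n
    by_cases hn : Nat.Coprime n (r * r')
    · rw [hχ, MulChar.mul_apply]
      have h1 : (DirichletCharacter.changeLevel hd' ψ')⁻¹ ((n : ℕ) : ZMod (r * r')) =
          (starRingEnd ℂ) (DirichletCharacter.changeLevel hd' ψ' ((n : ℕ) : ZMod (r * r'))) :=
        (MulChar.star_apply' _ _).symm
      rw [h1, npc_val hd ψ n hn, npc_val hd' ψ' n hn]
    · have h1 : χ ((n : ℕ) : ZMod (r * r')) = 0 := by
        apply MulChar.map_nonunit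
        rwa [ZMod.isUnit_iff_coprime]
      rw [h1]
      rw [Nat.coprime_mul_iff_right, not_and_or] at hn
      rcases hn with hn | hn
      · have h2 : ψ ((n : ℕ) : ZMod r) = 0 := by
          apply MulChar.map_nonunit
          rwa [ZMod.isUnit_iff_coprime]
        rw [h2, zero_mul]
      · have h2 : ψ' ((n : ℕ) : ZMod r') = 0 := by
          apply MulChar.map_nonunit
          rwa [ZMod.isUnit_iff_coprime]
        rw [h2, map_zero, mul_zero]
  have h1 : ∑ n ∈ Finset.Icc 1 Y, ψ ((n : ℕ) : ZMod r) *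
      (starRingEnd ℂ) (ψ' ((n : ℕ) : ZMod r')) =
      ∑ n ∈ Finset.range Y, χ ((n + 1 : ℕ) : ZMod (r * r')) := by
    rw [Finset.range_eq_Ico, Finset.sum_Ico_add' (fun n : ℕ => χ ((n : ℕ) : ZMod (r * r'))) 0 Y 1]
    refine Finset.sum_congr ?_ fun n _ => (hval n).symm
    ext n
    rw [Finset.mem_Icc, Finset.mem_Ico]
    omega
  rw [h1]
  have h2 := npc_periodic hm (fun n : ℕ => χ ((n + 1 : ℕ) : ZMod (r * r'))) ?_
    (npc_period_sum χ hχ1) (fun n => χ.norm_le_one _) Y
  · refine h2.trans (le_of_eq ?_)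
    push_cast
    rfl
  · intro n
    congr 1
    push_cast
    have h3 : ((r : ZMod (r * r')) * (r' : ZMod (r * r'))) = 0 := by
      have := ZMod.natCast_self (r * r')
      rwa [Nat.cast_mul] at this
    rw [h3, zero_add]

end Pool.Agent.LogCh
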