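import Mathlib
import Pool.Agent.Lib.LogCh.EDefs

/-!
# Log-averaged cancellation at `n ^ 2 + 1`: module E.ORTH
-/

set_option autoImplicit false

namespace Pool.Agent.LogCh

open Real
open Pool.Agent.NSqP
open Pool.Agent.MP484c84Par (ballG mem_ballG crossG dotG)

private lemma orth_star {D : ℕ} [NeZero D] (χ : DirichletCharacter ℂ D) {b : ZMod D}
    (hb : IsUnit b) : star (χ b) = χ b⁻¹ := by
  have h1 : star (χ b) = χ⁻¹ b := MulChar.star_apply' χ b
  rw [h1, MulChar.inv_apply]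
  congr 1
  obtain ⟨u, rfl⟩ := hb
  rw [Ring.inverse_unit, ZMod.inv_coe_unit]

private lemma orth_sq (A : Finset ℕ) (D : ℕ) [NeZero D] (hA : ∀ q ∈ A, Nat.Coprime q D)
    (χ : DirichletCharacter ℂ D) (c : ZMod D) :
    χ c * ((‖SA A χ‖ ^ 2 : ℝ) : ℂ) =
      ∑ x ∈ A ×ˢ A, χ ((x.2 : ZMod D)⁻¹) * χ (c * (x.1 : ZMod D)) := by
  have h1 : ((‖SA A χ‖ ^ 2 : ℝ) : ℂ) = SA A χ * star (SA A χ) := by
    rw [RCLike.star_def, Complex.mul_conj, Complex.normSq_eq_norm_sq]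
  rw [h1, Finset.sum_product]
  unfold SA
  rw [star_sum, Finset.sum_mul_sum, Finset.mul_sum]
  refine Finset.sum_congr rfl (fun a _ => ?_)
  rw [Finset.mul_sum]
  refine Finset.sum_congr rfl (fun b hb => ?_)
  rw [orth_star χ ((ZMod.isUnit_iff_coprime b D).2 (hA b hb)), map_mul]
  ring

/-- **ORTH**: orthogonality (`DirichletCharacter.sum_char_inv_mul_char_eq`):
`1[c α ≡ β] = (1/φ(D)) ∑_χ χ(c α) conj χ(β)` for `α`, `β`, `c` coprime to `D`. -/
theorem ORTHp : ORTHStmt := by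
  intro A D hD hA c _
  have : NeZero D := ⟨by omega⟩
  have hφ : (Nat.totient D : ℂ) ≠ 0 := by
    have := Nat.totient_pos.2 (by omega : 0 < D)
    exact_mod_cast this.ne'
  rw [eq_div_iff hφ]
  simp_rw [orth_sq A D hA]
  rw [Finset.sum_comm]
  have h2 : ∀ x ∈ A ×ˢ A, (∑ χ : DirichletCharacter ℂ D,
      χ ((x.2 : ZMod D)⁻¹) * χ (((c : ℤ) : ZMod D) * (x.1 : ZMod D))) =
      if (D : ℤ) ∣ c * x.1 - x.2 then (Nat.totient D : ℂ) else 0 := by
    intro x hx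
    rw [Finset.mem_product] at hx
    rw [DirichletCharacter.sum_char_inv_mul_char_eq ℂ
      ((ZMod.isUnit_iff_coprime x.2 D).2 (hA x.2 hx.2))]
    have h3 : ((x.2 : ℕ) : ZMod D) = ((c : ℤ) : ZMod D) * (x.1 : ZMod D) ↔
        (D : ℤ) ∣ c * x.1 - x.2 := by
      rw [← ZMod.intCast_zmod_eq_zero_iff_dvd]
      push_cast
      rw [sub_eq_zero, eq_comm]
    simp only [h3]
  rw [Finset.sum_congr rfl h2, ← Finset.sum_filter, Finset.sum_const, nsmul_eq_mul]
  unfold tc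
  push_cast
  rfl

end Pool.Agent.LogCh
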