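import Mathlib
import Pool.Agent.Lib.LogCh.EDefs

/-!
# Log-averaged cancellation at `n ^ 2 + 1`: module E.PARS
-/

set_option autoImplicit false

namespace Pool.Agent.LogCh

open Real
open Pool.Agent.NSqP
open Pool.Agent.MP484c84Par (ballG mem_ballG crossG dotG)

private lemma pars_orth (D : ℕ) [NeZero D] (χ χ' : DirichletCharacter ℂ D) :
    ∑ c : ZMod D, χ c * (starRingEnd ℂ) (χ' c) = if χ = χ' then (D.totient : ℂ) else 0 := by
  classical
  have h : ∀ c : ZMod D, χ c * (starRingEnd ℂ) (χ' c) = (χ * χ'⁻¹) c := by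
    intro c
    rw [MulChar.mul_apply, starRingEnd_apply, MulChar.star_apply']
  rw [Finset.sum_congr rfl fun c _ => h c]
  split_ifs with h1
  · rw [h1, mul_inv_cancel, MulChar.sum_one_eq_card_units, ZMod.card_units_eq_totient]
  · exact MulChar.sum_eq_zero_of_ne_one (fun h2 => h1 (mul_inv_eq_one.1 h2))

private lemma pars_parseval (D : ℕ) [NeZero D] (a : DirichletCharacter ℂ D → ℂ) :
    ∑ c : ZMod D, ‖∑ χ : DirichletCharacter ℂ D, a χ * χ c‖ ^ 2 =
      (D.totient : ℝ) * ∑ χ : DirichletCharacter ℂ D, ‖a χ‖ ^ 2 := by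
  classical
  have key : ((∑ c : ZMod D, ‖∑ χ : DirichletCharacter ℂ D, a χ * χ c‖ ^ 2 : ℝ) : ℂ) =
      (((D.totient : ℝ) * ∑ χ : DirichletCharacter ℂ D, ‖a χ‖ ^ 2 : ℝ) : ℂ) := by
    rw [Complex.ofReal_sum]
    have h1 : ∀ c : ZMod D, ((‖∑ χ : DirichletCharacter ℂ D, a χ * χ c‖ ^ 2 : ℝ) : ℂ) =
        ∑ χ : DirichletCharacter ℂ D, ∑ χ' : DirichletCharacter ℂ D,
          a χ * (starRingEnd ℂ) (a χ') * (χ c * (starRingEnd ℂ) (χ' c)) := by
      intro c
      rw [Complex.ofReal_pow, ← Complex.mul_conj', map_sum, Finset.sum_mul_sum]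
      refine Finset.sum_congr rfl fun χ _ => Finset.sum_congr rfl fun χ' _ => ?_
      rw [map_mul]
      ring
    rw [Finset.sum_congr rfl fun c _ => h1 c, Finset.sum_comm]
    have h2 : ∀ χ : DirichletCharacter ℂ D, ∑ c : ZMod D, ∑ χ' : DirichletCharacter ℂ D,
        a χ * (starRingEnd ℂ) (a χ') * (χ c * (starRingEnd ℂ) (χ' c)) =
        (D.totient : ℂ) * ((‖a χ‖ ^ 2 : ℝ) : ℂ) := by
      intro χ
      rw [Finset.sum_comm]
      have h3 : ∀ χ' : DirichletCharacter ℂ D, ∑ c : ZMod D,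
          a χ * (starRingEnd ℂ) (a χ') * (χ c * (starRingEnd ℂ) (χ' c)) =
          if χ = χ' then a χ * (starRingEnd ℂ) (a χ') * (D.totient : ℂ) else 0 := by
        intro χ'
        rw [← Finset.mul_sum, pars_orth]
        split_ifs
        · rfl
        · rw [mul_zero]
      rw [Finset.sum_congr rfl fun χ' _ => h3 χ', Finset.sum_ite_eq, if_pos (Finset.mem_univ _),
        Complex.mul_conj', Complex.ofReal_pow, mul_comm]
    rw [Finset.sum_congr rfl fun χ _ => h2 χ, ← Finset.mul_sum, Complex.ofReal_mul,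
      Complex.ofReal_sum, Complex.ofReal_natCast]
  exact_mod_cast key

private lemma pars_group {M : Type*} [AddCommMonoid M] (D : ℕ) [NeZero D] (R0 : ℕ)
    (f : DirichletCharacter ℂ D → M) :
    ∑ χ : DirichletCharacter ℂ D, (if R0 < χ.conductor then f χ else 0) =
      ∑ r ∈ D.divisors.filter (fun r => R0 < r), ∑ χ : DirichletCharacter ℂ D,
        if χ.conductor = r then f χ else 0 := by
  rw [Finset.sum_comm]
  refine Finset.sum_congr rfl fun χ _ => ?_
  rw [Finset.sum_ite_eq]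
  have h : χ.conductor ∈ D.divisors.filter (fun r => R0 < r) ↔ R0 < χ.conductor := by
    rw [Finset.mem_filter, Nat.mem_divisors]
    exact ⟨fun h => h.2, fun h => ⟨⟨χ.conductor_dvd_level, NeZero.ne D⟩, h⟩⟩
  simp only [h]

/-- **PARS** (from `ORTHStmt`, `CONDSStmt`): `tc - MM = (1/φ(D)) ∑_{cond χ > R0} χ(c) |S_A(χ)|²` for
`c` coprime to `D`, and Parseval: `∑_c |(1/φ(D)) ∑_χ a_χ χ(c)|² = (1/φ(D)) ∑ |a_χ|²`. -/
theorem PARSp (hO : ORTHStmt) (hD : CONDSStmt) : PARSStmt := by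
  classical
  intro A D R0 hD1 hA
  have hne : NeZero D := ⟨by omega⟩
  have hφ : (0 : ℝ) < D.totient := by exact_mod_cast Nat.totient_pos.2 hD1
  have hφc : (D.totient : ℂ) ≠ 0 := by exact_mod_cast hφ.ne'
  let a : DirichletCharacter ℂ D → ℂ := fun χ =>
    if R0 < χ.conductor then ((‖SA A χ‖ ^ 2 : ℝ) : ℂ) else 0
  -- the formula for the difference
  have hform : ∀ c ∈ (Finset.range D).filter (fun c => Nat.Coprime c D),
      ((tc A D (c : ℕ) : ℝ) : ℂ) - MM A R0 D (c : ℕ) =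
        (∑ χ : DirichletCharacter ℂ D, a χ * χ ((c : ℕ) : ZMod D)) / (D.totient : ℂ) := by
    intro c hc
    have hcop : IsCoprime (c : ℤ) (D : ℤ) :=
      Nat.isCoprime_iff_coprime.2 (Finset.mem_filter.1 hc).2
    have hcast : (((c : ℕ) : ℤ) : ZMod D) = ((c : ℕ) : ZMod D) := by push_cast; rfl
    rw [hO A D hD1 hA (c : ℤ) hcop]
    unfold MM
    rw [← sub_div]
    congr 1
    have e1 : ∑ χ : DirichletCharacter ℂ D, χ (((c : ℕ) : ℤ) : ZMod D) *
        ((‖SA A χ‖ ^ 2 : ℝ) : ℂ) = ∑ r ∈ D.divisors, mr A r (c : ℕ) := by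
      have h1 : ∀ r ∈ D.divisors, mr A r ((c : ℕ) : ℤ) = ∑ χ : DirichletCharacter ℂ D,
          if χ.conductor = r then χ (((c : ℕ) : ℤ) : ZMod D) * ((‖SA A χ‖ ^ 2 : ℝ) : ℂ)
            else 0 := by
        intro r hr
        exact ((hD A D r hD1 (Nat.dvd_of_mem_divisors hr) hA).1 (c : ℤ) hcop).symm
      rw [Finset.sum_congr rfl h1, Finset.sum_comm]
      refine Finset.sum_congr rfl fun χ _ => ?_
      rw [Finset.sum_ite_eq, if_pos]
      rw [Nat.mem_divisors]
      exact ⟨χ.conductor_dvd_level, by omega⟩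
    have e2 : (Finset.Icc 1 R0).filter (fun r => r ∣ D) =
        D.divisors.filter (fun r => ¬ R0 < r) := by
      ext r
      rw [Finset.mem_filter, Finset.mem_filter, Finset.mem_Icc, Nat.mem_divisors]
      constructor
      · rintro ⟨⟨h1, h2⟩, h3⟩
        exact ⟨⟨h3, by omega⟩, by omega⟩
      · rintro ⟨⟨h3, h4⟩, h5⟩
        exact ⟨⟨Nat.pos_of_dvd_of_pos h3 (by omega), by omega⟩, h3⟩
    have e3 := Finset.sum_filter_add_sum_filter_not D.divisors (fun r => R0 < r)
      (fun r => mr A r ((c : ℕ) : ℤ))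
    have e4 : ∑ χ : DirichletCharacter ℂ D, a χ * χ ((c : ℕ) : ZMod D) =
        ∑ r ∈ D.divisors.filter (fun r => R0 < r), mr A r ((c : ℕ) : ℤ) := by
      have h1 : ∀ χ : DirichletCharacter ℂ D, a χ * χ ((c : ℕ) : ZMod D) =
          if R0 < χ.conductor then χ (((c : ℕ) : ℤ) : ZMod D) * ((‖SA A χ‖ ^ 2 : ℝ) : ℂ)
            else 0 := by
        intro χ
        simp only [a]
        split_ifs
        · rw [hcast, mul_comm]
        · rw [zero_mul]
      rw [Finset.sum_congr rfl fun χ _ => h1 χ, pars_group]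
      refine Finset.sum_congr rfl fun r hr => ?_
      exact (hD A D r hD1 (Nat.dvd_of_mem_divisors (Finset.mem_filter.1 hr).1) hA).1
        (c : ℤ) hcop
    rw [e1, e2, e4, ← e3]
    ring
  have hnorm : ∀ c ∈ (Finset.range D).filter (fun c => Nat.Coprime c D),
      ‖((tc A D (c : ℕ) : ℝ) : ℂ) - MM A R0 D (c : ℕ)‖ ^ 2 =
        ‖∑ χ : DirichletCharacter ℂ D, a χ * χ ((c : ℕ) : ZMod D)‖ ^ 2 /
          (D.totient : ℝ) ^ 2 := by
    intro c hc
    rw [hform c hc, norm_div, div_pow, Complex.norm_natCast]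
  rw [Finset.sum_congr rfl hnorm, ← Finset.sum_div]
  -- pass to the sum over all classes
  have hsum : ∑ c ∈ (Finset.range D).filter (fun c => Nat.Coprime c D),
      ‖∑ χ : DirichletCharacter ℂ D, a χ * χ ((c : ℕ) : ZMod D)‖ ^ 2 ≤
      ∑ c : ZMod D, ‖∑ χ : DirichletCharacter ℂ D, a χ * χ c‖ ^ 2 := by
    have hinj : Set.InjOn (fun c : ℕ => (c : ZMod D))
        (((Finset.range D).filter (fun c => Nat.Coprime c D) : Finset ℕ) : Set ℕ) := by
      intro x hx y hy hxy
      have hx1 := Finset.mem_range.1 (Finset.mem_filter.1 hx).1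
      have hy1 := Finset.mem_range.1 (Finset.mem_filter.1 hy).1
      have h1 := (ZMod.natCast_eq_natCast_iff' x y D).1 hxy
      rwa [Nat.mod_eq_of_lt hx1, Nat.mod_eq_of_lt hy1] at h1
    rw [← Finset.sum_image
      (f := fun c : ZMod D => ‖∑ χ : DirichletCharacter ℂ D, a χ * χ c‖ ^ 2) hinj]
    exact Finset.sum_le_sum_of_subset_of_nonneg (Finset.subset_univ _)
      (fun _ _ _ => by positivity)
  rw [pars_parseval] at hsum
  have hfour : ∑ χ : DirichletCharacter ℂ D, ‖a χ‖ ^ 2 =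
      ∑ r ∈ D.divisors.filter (fun r => R0 < r), S4 A r := by
    have h1 : ∀ χ : DirichletCharacter ℂ D, ‖a χ‖ ^ 2 =
        if R0 < χ.conductor then ‖SA A χ‖ ^ 4 else 0 := by
      intro χ
      simp only [a]
      split_ifs
      · rw [Complex.norm_real, Real.norm_eq_abs, abs_of_nonneg (by positivity)]
        ring
      · rw [norm_zero]
        norm_num
    rw [Finset.sum_congr rfl fun χ _ => h1 χ, pars_group]
    refine Finset.sum_congr rfl fun r hr => ?_
    exact (hD A D r hD1 (Nat.dvd_of_mem_divisors (Finset.mem_filter.1 hr).1) hA).2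
  rw [hfour] at hsum
  calc _ ≤ (D.totient : ℝ) * (∑ r ∈ D.divisors.filter (fun r => R0 < r), S4 A r) /
        (D.totient : ℝ) ^ 2 := div_le_div_of_nonneg_right hsum (by positivity)
    _ = _ := by field_simp

end Pool.Agent.LogCh
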