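import Mathlib
import Pool.Agent.Lib.LogCh.EDefs

/-!
# Log-averaged cancellation at `n ^ 2 + 1`: module E.QUP
-/

set_option autoImplicit false

namespace Pool.Agent.LogCh

open Real
open Pool.Agent.NSqP
open Pool.Agent.MP484c84Par (ballG mem_ballG crossG dotG)

/-- **QUP**: `#QQ ≤ C P / log P` (Chebyshev's bound for theta). -/
theorem QUPp : QUPStmt := by
  intro C1 hC1
  refine ⟨log 4 * C1, by positivity, ?_⟩
  intro P hP
  have hlP : 0 < log (P : ℝ) := Real.log_pos (by exact_mod_cast (by omega : 1 < P))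
  have h1 : ((QQ C1 P).card : ℝ) * log P ≤ Chebyshev.theta ((C1 * P : ℕ) : ℝ) := by
    rw [Chebyshev.theta_eq_sum_Icc, Nat.floor_natCast]
    calc ((QQ C1 P).card : ℝ) * log P = ∑ _q ∈ QQ C1 P, log (P : ℝ) := by
          rw [Finset.sum_const, nsmul_eq_mul]
      _ ≤ ∑ q ∈ QQ C1 P, log (q : ℝ) := by
          apply Finset.sum_le_sum
          intro q hq
          unfold QQ at hq
          rw [Finset.mem_filter, Finset.mem_Ioc] at hq
          exact Real.log_le_log (by exact_mod_cast (by omega : 0 < P))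
            (by exact_mod_cast hq.1.1.le)
      _ ≤ ∑ q ∈ (Finset.Icc 0 (C1 * P)).filter Nat.Prime, log (q : ℝ) := by
          apply Finset.sum_le_sum_of_subset_of_nonneg
          · intro q hq
            unfold QQ at hq
            rw [Finset.mem_filter, Finset.mem_Ioc] at hq
            rw [Finset.mem_filter, Finset.mem_Icc]
            exact ⟨⟨Nat.zero_le _, hq.1.2⟩, hq.2.1⟩
          · intro q hq _
            exact Real.log_natCast_nonneg q
  have h2 : Chebyshev.theta ((C1 * P : ℕ) : ℝ) ≤ log 4 * ((C1 * P : ℕ) : ℝ) :=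
    Chebyshev.theta_le_log4_mul_x (by positivity)
  have h3 : ((QQ C1 P).card : ℝ) * log P ≤ log 4 * C1 * P := by
    refine (h1.trans h2).trans (le_of_eq ?_)
    push_cast
    ring
  rw [← mul_div_assoc, le_div_iff₀ hlP]
  exact h3

end Pool.Agent.LogCh
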