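import Pool.Agent.Lib.LogCh.DDefs

/-!
# Group F: definitions and basic facts

`HALFStmt`, `LVPStmt`: the statements of `HALF` and `LVP` (used as hypotheses in group F).
`lc χ` is the completely multiplicative function `λ χ`.
-/

set_option autoImplicit false

namespace Pool.Agent.LogCh

open Real
open Pool.Agent.NSqP
open Pool.Agent.MP484c84Par (ballG mem_ballG crossG dotG)

/-- statement of `LVP` -/
def LVPStmt : Prop := ∀ A : ℝ, 1 ≤ A → ∃ κ : ℝ, 0 < κ ∧ ∃ C : ℝ, 0 < C ∧ ∃ b0 : ℝ, ∀ (H v : ℕ)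
    (U : Finset ℤ) (f : GaussianInt → ℂ), 1 ≤ H → b0 ≤ exp ((v : ℝ) / H) →
    (∀ z, ‖f z‖ ≤ 1) → (∀ m ∈ U, |(m : ℝ)| ≤ exp (A * (v / H))) →
    (U.card : ℝ) ≤ exp (κ * (v / H)) →
    ∑ m ∈ U, ‖Pb f H v m‖ ^ 2 ≤ C * ((blk H v).card : ℝ) * exp ((v : ℝ) / H) / (v / H)

open Classical in
/-- statement of `HALF` -/
def HALFStmt : Prop := ∀ r : ℕ, 1 ≤ r → ∀ ε : ℝ, 0 < ε → ∃ x0 : ℝ, ∀ x : ℝ, x0 ≤ x →
    ∀ χ : GaussianInt → ℂ, ChiMod r χ → ∀ m : ℤ, |(m : ℝ)| ≤ x ^ 2 → ∀ H v : ℕ, 1 ≤ H →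
      ‖∑ z ∈ pann (x / 2) x, (if ∀ q ∈ blk H v, ¬ q ∣ z then (lam z : ℂ) * χ z * xi z ^ m
        else 0)‖ ≤ ε * x

/-- `λ χ` -/
noncomputable def lc (χ : GaussianInt → ℂ) : GaussianInt → ℂ := fun z => (lam z : ℂ) * χ z

/-- normalised Gaussian integers: `0 < re`, `0 ≤ im` -/
def Nrm (g : GaussianInt) : Prop := 0 < g.re ∧ 0 ≤ g.im

/-- distance to the nearest integer -/
noncomputable def cd (x : ℝ) : ℝ := |x - round x|

lemma ee_ne_zero (t : ℝ) : ee t ≠ 0 := by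
  rw [ee_eq]; exact Complex.exp_ne_zero _

lemma ee_conj (t : ℝ) : (starRingEnd ℂ) (ee t) = ee (-t) := by
  rw [ee_eq, ee_eq, ← Complex.exp_conj]; congr 1
  rw [map_mul, Complex.conj_ofReal, Complex.conj_I]; push_cast; ring

lemma ee_zpow (t : ℝ) (m : ℤ) : ee t ^ m = ee (m * t) := by
  rw [ee_eq, ee_eq, ← Complex.exp_int_mul]; congr 1; push_cast; ring

lemma ang_nonneg (z : GaussianInt) : 0 ≤ ang z := Int.fract_nonneg _

lemma ang_lt_one (z : GaussianInt) : ang z < 1 := Int.fract_lt_one _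

/-- `z / |z| = e(ang z)` -/
lemma xi_eq_ee {z : GaussianInt} (hz : z ≠ 0) : xi z = ee (ang z) := by
  have h1 := Complex.norm_mul_exp_arg_mul_I (z : ℂ)
  have hn : ((‖(z : ℂ)‖ : ℝ) : ℂ) ≠ 0 := by
    exact_mod_cast norm_ne_zero_iff.2 (toC_ne_zero hz)
  have h2 : xi z = Complex.exp ((Complex.arg (z : ℂ) : ℂ) * Complex.I) := by
    unfold xi
    rw [div_eq_iff hn, mul_comm]; exact h1.symm
  have h3 : ang z = Complex.arg (z : ℂ) / (2 * π) + ((-⌊Complex.arg (z : ℂ) / (2 * π)⌋ : ℤ) : ℝ) := by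
    unfold ang
    rw [Int.fract]; push_cast; ring
  rw [h3, ee_add, ee_int, mul_one, h2, ee_eq]
  congr 2
  norm_cast
  field_simp

lemma lam_mul {z w : GaussianInt} (hz : z ≠ 0) (hw : w ≠ 0) : lam (z * w) = lam z * lam w := by
  unfold lam
  have h1 := (nN_pos hz).ne'
  have h2 := (nN_pos hw).ne'
  rw [nN_mul, ArithmeticFunction.liouville_apply (mul_ne_zero h1 h2),
    ArithmeticFunction.liouville_apply h1, ArithmeticFunction.liouville_apply h2,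
    ArithmeticFunction.cardFactors_mul h1 h2, pow_add]
  push_cast
  rfl

lemma abs_lam {z : GaussianInt} (hz : z ≠ 0) : |lam z| = 1 := by
  unfold lam
  rw [ArithmeticFunction.liouville_apply (nN_pos hz).ne']
  push_cast
  rw [abs_pow, abs_neg, abs_one, one_pow]

lemma abs_lam_le (z : GaussianInt) : |lam z| ≤ 1 := by
  rcases eq_or_ne z 0 with rfl | hz
  · unfold lam; rw [nN_zero]; simp
  · exact (abs_lam hz).le

lemma norm_lam_le (z : GaussianInt) : ‖(lam z : ℂ)‖ ≤ 1 := by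
  rw [Complex.norm_real]; exact abs_lam_le z

lemma chi_le {r : ℕ} {χ : GaussianInt → ℂ} (h : ChiMod r χ) (z : GaussianInt) : ‖χ z‖ ≤ 1 := by
  by_cases hz : IsCoprime z (r : GaussianInt)
  · exact (h.norm z hz).le
  · rw [h.zero z hz]; simp

lemma lc_le {r : ℕ} {χ : GaussianInt → ℂ} (h : ChiMod r χ) (z : GaussianInt) : ‖lc χ z‖ ≤ 1 := by
  unfold lc
  rw [norm_mul]
  exact mul_le_one₀ (norm_lam_le z) (norm_nonneg _) (chi_le h z)

lemma CMC_lc {r : ℕ} {χ : GaussianInt → ℂ} (h : ChiMod r χ) : CMC (lc χ) := by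
  refine ⟨fun z w hz hw => ?_, fun z _ => lc_le h z⟩
  unfold lc
  rw [lam_mul hz hw, h.mul]
  push_cast
  ring

end Pool.Agent.LogCh
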