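import Mathlib
import Pool.Agent.Lib.LogCh.EDefs
import Pool.Agent.Lib.LogCh.FDefs
import Pool.Agent.Lib.NSqP.Near
import Pool.Agent.Lib.NSqP.LS

/-!
# Log-averaged cancellation at `n ^ 2 + 1`: module E.STCNT
-/

set_option autoImplicit false

namespace Pool.Agent.LogCh

open Real
open Pool.Agent.NSqP
open Pool.Agent.MP484c84Par (ballG mem_ballG crossG dotG)

/-- **STCNT**: few primitive points in an arc: `‖ξ z - ξ w‖ ≥ 1/N` for distinct `z, w ∈ VV N`, and
`near_count`. -/
theorem STCNTp : STCNTStmt := by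
  classical
  refine ⟨8 * π + 1, by positivity, ?_⟩
  intro N K i hN hK
  have hK0 : (0 : ℝ) < K := by exact_mod_cast hK
  have hN1 : (1 : ℝ) ≤ N := by exact_mod_cast hN
  have hmem : ∀ z ∈ VV N, Prim z ∧ (nN z : ℝ) ≤ N := by
    intro z hz
    unfold VV at hz
    have h1 := (mem_pann (by positivity : (0 : ℝ) ≤ N)).1 hz
    exact ⟨h1.2, h1.1.2⟩
  have hsep : ∀ z ∈ VV N, ∀ w ∈ VV N, z ≠ w → 1 / (N : ℝ) ≤ ‖xi z - xi w‖ := by
    intro z hz w hw hne
    exact prim_sep (hmem z hz).1 (hmem w hw).1 hne hN1 (hmem z hz).2 (hmem w hw).2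
  have hu : ∀ z ∈ VV N, ‖xi z‖ = 1 := fun z hz => norm_xi (prim_ne_zero (hmem z hz).1)
  have h1 := near_count (VV N) xi (ee ((i : ℝ) / K)) N (2 * π / K) hN1 (by positivity)
    (norm_ee _) hu hsep
  have hsub : (VV N).filter (fun z => arcI K z = i) ⊆
      (VV N).filter (fun z => ‖xi z - ee ((i : ℝ) / K)‖ ≤ 2 * π / K) := by
    intro z hz
    rw [Finset.mem_filter] at hz ⊢
    refine ⟨hz.1, ?_⟩
    have hz0 : z ≠ 0 := prim_ne_zero (hmem z hz.1).1
    rw [xi_eq_ee hz0]
    refine (norm_ee_sub_le _ _).trans ?_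
    have h2 : (i : ℝ) ≤ K * ang z := by
      have h3 := Nat.floor_le (mul_nonneg hK0.le (ang_nonneg z))
      have h4 : ⌊(K : ℝ) * ang z⌋₊ = i := hz.2
      rw [h4] at h3
      exact h3
    have h3 : (K : ℝ) * ang z < i + 1 := by
      have h3 := Nat.lt_floor_add_one ((K : ℝ) * ang z)
      have h4 : ⌊(K : ℝ) * ang z⌋₊ = i := hz.2
      rw [h4] at h3
      exact h3
    have h4 : |ang z - i / K| ≤ 1 / K := by
      rw [abs_le]
      constructor
      · have : (i : ℝ) / K ≤ ang z := by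
          rw [div_le_iff₀ hK0]; linarith
        have h5 : (0 : ℝ) ≤ 1 / K := by positivity
        linarith
      · have : ang z < ((i : ℝ) + 1) / K := by
          rw [lt_div_iff₀ hK0]; linarith
        rw [add_div] at this
        linarith
    calc 2 * π * |ang z - i / K| ≤ 2 * π * (1 / K) :=
          mul_le_mul_of_nonneg_left h4 (by positivity)
      _ = 2 * π / K := by ring
  have h5 : (((VV N).filter (fun z => arcI K z = i)).card : ℝ) ≤
      (((VV N).filter (fun z => ‖xi z - ee ((i : ℝ) / K)‖ ≤ 2 * π / K)).card : ℝ) := by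
    exact_mod_cast Finset.card_le_card hsub
  refine (h5.trans h1).trans ?_
  have h6 : (0 : ℝ) ≤ N / K := by positivity
  have h7 : 4 * (2 * π / K) * (N : ℝ) = 8 * π * (N / K) := by ring
  rw [h7]
  have h8 : 0 < π := Real.pi_pos
  nlinarith

end Pool.Agent.LogCh
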