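import Mathlib
import Pool.Agent.Lib.LogCh.EDefs

/-!
# Log-averaged cancellation at `n ^ 2 + 1`: module E.STGEO
-/

set_option autoImplicit false

namespace Pool.Agent.LogCh

open Real
open Pool.Agent.NSqP
open Pool.Agent.MP484c84Par (ballG mem_ballG crossG dotG)

private lemma sg_sin (y : ℝ) (hy : |y| ≤ 1) : |sin y - y| ≤ y ^ 2 := by
  have h := Real.sin_bound hy
  have h0 := abs_nonneg y
  have e2 : y ^ 2 = |y| ^ 2 := (sq_abs y).symm
  have h3 : |y| ^ 3 ≤ |y| ^ 2 := pow_le_pow_of_le_one h0 hy (by norm_num)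
  have h5 : |y| ^ 5 ≤ |y| ^ 2 := pow_le_pow_of_le_one h0 hy (by norm_num)
  have h6 : |y ^ 3 / 6| = |y| ^ 3 / 6 := by rw [abs_div, abs_pow]; norm_num
  have h7 : sin y - y = (sin y - (y - y ^ 3 / 6)) - y ^ 3 / 6 := by ring
  rw [h7, e2]
  refine le_trans (abs_sub _ _) ?_
  rw [h6]
  have h8 : 0 ≤ |y| ^ 2 := by positivity
  linarith

private lemma sg_norm (u : GaussianInt) : ‖(u : ℂ)‖ = √(nN u : ℝ) := by
  rw [← norm_toC_sq, Real.sqrt_sq (norm_nonneg _)]

private lemma sg_re (u : GaussianInt) : (u.re : ℝ) = √(nN u : ℝ) * cos (2 * π * ang u) := by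
  have h1 : 2 * π * ang u = Complex.arg (u : ℂ) -
      (⌊Complex.arg (u : ℂ) / (2 * π)⌋ : ℤ) * (2 * π) := by
    unfold ang
    rw [Int.fract]
    field_simp
  rw [h1, Real.cos_sub_int_mul_two_pi, ← sg_norm, Complex.norm_mul_cos_arg]
  exact (GaussianInt.intCast_re u).symm ▸ rfl

private lemma sg_im (u : GaussianInt) : (u.im : ℝ) = √(nN u : ℝ) * sin (2 * π * ang u) := by
  have h1 : 2 * π * ang u = Complex.arg (u : ℂ) -
      (⌊Complex.arg (u : ℂ) / (2 * π)⌋ : ℤ) * (2 * π) := by
    unfold ang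
    rw [Int.fract]
    field_simp
  rw [h1, Real.sin_sub_int_mul_two_pi, ← sg_norm, Complex.norm_mul_sin_arg]
  exact (GaussianInt.intCast_im u).symm ▸ rfl

private lemma sg_cross (u v : GaussianInt) : (crossG u v : ℝ) =
    √(nN u : ℝ) * √(nN v : ℝ) * sin (2 * π * (ang v - ang u)) := by
  unfold crossG
  push_cast
  rw [sg_re u, sg_re v, sg_im u, sg_im v, mul_sub, Real.sin_sub]
  ring

private lemma sg_dot (u v : GaussianInt) : (dotG u v : ℝ) =
    √(nN u : ℝ) * √(nN v : ℝ) * cos (2 * π * (ang v - ang u)) := by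
  unfold dotG
  push_cast
  rw [sg_re u, sg_re v, sg_im u, sg_im v, mul_sub, Real.cos_sub]
  ring

private lemma sg_theta (u v : GaussianInt) (K : ℕ) (hK : 1 ≤ K) : ∃ θ : ℝ,
    (crossG u v : ℝ) = √(nN u : ℝ) * √(nN v : ℝ) * sin (2 * π * θ) ∧
    (dotG u v : ℝ) = √(nN u : ℝ) * √(nN v : ℝ) * cos (2 * π * θ) ∧
    (jj K (u, v) : ℝ) - 1 < K * θ ∧ K * θ < jj K (u, v) + 1 ∧ θ < 1 := by
  have hKR : (0 : ℝ) < K := by exact_mod_cast hK
  have a0 : 0 ≤ ang u := Int.fract_nonneg _
  have a1 : ang u < 1 := Int.fract_lt_one _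
  have b0 : 0 ≤ ang v := Int.fract_nonneg _
  have b1 : ang v < 1 := Int.fract_lt_one _
  have i0 : (arcI K u : ℝ) ≤ K * ang u := Nat.floor_le (by positivity)
  have i1 : K * ang u < arcI K u + 1 := Nat.lt_floor_add_one _
  have j0 : (arcI K v : ℝ) ≤ K * ang v := Nat.floor_le (by positivity)
  have j1 : K * ang v < arcI K v + 1 := Nat.lt_floor_add_one _
  have i2 : arcI K u < K := by
    have h : (K : ℝ) * ang u < K * 1 := mul_lt_mul_of_pos_left a1 hKR
    have : (arcI K u : ℝ) < K := by linarith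
    exact_mod_cast this
  have j2 : arcI K v < K := by
    have h : (K : ℝ) * ang v < K * 1 := mul_lt_mul_of_pos_left b1 hKR
    have : (arcI K v : ℝ) < K := by linarith
    exact_mod_cast this
  rcases le_or_gt (arcI K u) (arcI K v) with h | h
  · have hj : jj K (u, v) = arcI K v - arcI K u := by
      unfold jj
      dsimp only
      rw [show arcI K v + K - arcI K u = (arcI K v - arcI K u) + K by omega, Nat.add_mod_right]
      exact Nat.mod_eq_of_lt (by omega)
    refine ⟨ang v - ang u, sg_cross u v, sg_dot u v, ?_, ?_, by linarith⟩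
    · rw [hj, Nat.cast_sub h, mul_sub]
      linarith
    · rw [hj, Nat.cast_sub h, mul_sub]
      linarith
  · have hj : jj K (u, v) = arcI K v + K - arcI K u := by
      unfold jj
      dsimp only
      exact Nat.mod_eq_of_lt (by omega)
    have hj' : (jj K (u, v) : ℝ) = arcI K v + K - arcI K u := by
      rw [hj, Nat.cast_sub (by omega)]
      push_cast
      ring
    have e : 2 * π * (ang v - ang u + 1) = 2 * π * (ang v - ang u) + 2 * π := by ring
    refine ⟨ang v - ang u + 1, ?_, ?_, ?_, ?_, ?_⟩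
    · rw [e, Real.sin_add_two_pi]
      exact sg_cross u v
    · rw [e, Real.cos_add_two_pi]
      exact sg_dot u v
    · rw [hj', mul_add, mul_sub]
      linarith
    · rw [hj', mul_add, mul_sub]
      linarith
    · have h2 : (arcI K v : ℝ) + 1 ≤ arcI K u := by exact_mod_cast h
      have h3 : K * ang v < K * ang u := by linarith
      have h4 : ang v < ang u := lt_of_mul_lt_mul_left h3 hKR.le
      linarith

/-- **STGEO**: geometry of arcs. `u × u' = |u||u'| sin 2πθ`, `<u,u'> = |u||u'| cos 2πθ`,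
`θ = ang u' - ang u` modulo `1`. If `jj = j ≤ J` then `θ` may be taken in
`((j - 1)/K, (j + 1)/K)`; `N/(P K) → η`. If `<u,u'> > 0`, `u × u' > 0` then `θ ∈ (0, 1/4)`,
`jj ∈ {⌊Kθ⌋, ⌊Kθ⌋ + 1}` and `u × u' ≥ a N 4 θ`. -/
theorem STGEOp : STGEOStmt := by
  intro a C2 η J P ha ha1 hη hη1 hC2 hJ hP
  have hPR : (1 : ℝ) ≤ P := by exact_mod_cast hP
  have hP0 : (0 : ℝ) < P := by linarith
  have hpi3 : 3 < π := Real.pi_gt_three
  have hpi4 : π < 3.15 := Real.pi_lt_d2
  have hJ0 : (0 : ℝ) ≤ J := Nat.cast_nonneg J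
  set M : ℝ := 2 * π * (J + 1) with hM
  have hM6 : 6 ≤ M := by
    have : 2 * π * 1 ≤ 2 * π * (J + 1) := mul_le_mul_of_nonneg_left (by linarith) (by positivity)
    rw [hM]
    linarith
  obtain ⟨N0, hN0⟩ := exists_nat_ge (η * P * (2 * M ^ 2 + 1) + 1)
  refine ⟨N0, fun N hN u hu u' hu' hua hua' K hK => ?_⟩
  have hNR : η * P * (2 * M ^ 2 + 1) + 1 ≤ N := le_trans hN0 (by exact_mod_cast hN)
  have hηP : 0 < η * P := by positivity
  have hN1 : (1 : ℝ) ≤ N := by
    have : 0 ≤ η * P * (2 * M ^ 2 + 1) := by positivity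
    linarith
  have hNpos : (0 : ℝ) < N := by linarith
  have hK1 : (K : ℝ) ≤ N / (η * P) := by
    rw [hK]
    exact Nat.floor_le (by positivity)
  have hK2 : N / (η * P) < (K : ℝ) + 1 := by
    rw [hK]
    exact Nat.lt_floor_add_one _
  have hK3 : 2 * M ^ 2 ≤ (K : ℝ) := by
    have : 2 * M ^ 2 + 1 ≤ N / (η * P) := by
      rw [le_div_iff₀ hηP]
      linarith
    linarith
  have hK4 : (72 : ℝ) ≤ K := by
    have : 6 * 6 ≤ M * M := mul_le_mul hM6 hM6 (by norm_num) (by linarith)
    linarith
  have hKpos : (0 : ℝ) < K := by linarith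
  have hKn : 1 ≤ K := by
    have : (0 : ℝ) < (K : ℕ) := hKpos
    exact_mod_cast this
  have hK5 : η * K ≤ N / P := by
    rw [le_div_iff₀ hηP] at hK1
    rw [le_div_iff₀ hP0]
    linarith
  have hK6 : N / P < η * (K + 1) := by
    rw [div_lt_iff₀ hηP] at hK2
    rw [div_lt_iff₀ hP0]
    linarith
  obtain ⟨θ, hc, hd, ht1, ht2, ht3⟩ := sg_theta u u' K hKn
  have hmu := (mem_pann (a := 0) hNpos.le).1 hu
  have hmu' := (mem_pann (a := 0) hNpos.le).1 hu'
  have hu0 : 0 < √(nN u : ℝ) := Real.sqrt_pos.2 hmu.1.1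
  have hu0' : 0 < √(nN u' : ℝ) := Real.sqrt_pos.2 hmu'.1.1
  set j : ℝ := (jj K (u, u') : ℝ) with hj
  have hj0 : 0 ≤ j := Nat.cast_nonneg _
  constructor
  · intro hjJ
    have hjJ' : j ≤ J := by
      rw [hj]
      exact_mod_cast hjJ
    set y : ℝ := 2 * π * θ with hy
    have hKt : |K * θ| ≤ J + 1 := by
      rw [abs_le]
      constructor <;> linarith
    have hKy : K * |y| ≤ M := by
      have e : K * |y| = 2 * π * |K * θ| := by
        rw [hy, abs_mul (2 * π) θ, abs_mul (K : ℝ) θ,
          abs_of_pos (show 0 < 2 * π by positivity), abs_of_pos hKpos]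
        ring
      rw [e, hM]
      exact mul_le_mul_of_nonneg_left hKt (by positivity)
    have hy0 : 0 ≤ |y| := abs_nonneg y
    have hy1 : |y| ≤ 1 / 12 := by
      by_contra hcon
      push Not at hcon
      have h1 : K * (1 / 12) < K * |y| := mul_lt_mul_of_pos_left hcon hKpos
      have h2 : 6 * M ≤ M * M := mul_le_mul_of_nonneg_right hM6 (by linarith)
      linarith
    have hy2 : K * y ^ 2 ≤ 1 / 2 := by
      have h1 : (K * |y|) ^ 2 ≤ M ^ 2 := pow_le_pow_left₀ (by positivity) hKy 2
      have h2 : (K * |y|) ^ 2 = K * (K * y ^ 2) := by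
        rw [mul_pow, sq_abs]
        ring
      rw [h2] at h1
      by_contra hcon
      push Not at hcon
      have h3 : K * (1 / 2) < K * (K * y ^ 2) := mul_lt_mul_of_pos_left hcon hKpos
      linarith
    have hcos : 0 < cos y := by
      apply Real.cos_pos_of_mem_Ioo
      have := abs_le.1 hy1
      constructor <;> linarith
    constructor
    · have : (0 : ℝ) < (dotG u u' : ℝ) := by
        rw [hd]
        positivity
      exact_mod_cast this
    · -- the size of the determinant
      set w : ℝ := √((nN u : ℝ) / N * (nN u' / N)) with hw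
      have hw0 : 0 ≤ w := Real.sqrt_nonneg _
      have hw1 : w ≤ 1 := by
        rw [hw, ← Real.sqrt_one]
        apply Real.sqrt_le_sqrt
        have e1 : (nN u : ℝ) / N ≤ 1 := (div_le_one hNpos).2 hmu.1.2
        have e2 : (nN u' : ℝ) / N ≤ 1 := (div_le_one hNpos).2 hmu'.1.2
        exact mul_le_one₀ e1 (by positivity) e2
      have hww : √(nN u : ℝ) * √(nN u' : ℝ) = N * w := by
        rw [hw, ← Real.sqrt_mul (Nat.cast_nonneg _),
          show (nN u : ℝ) / N * (nN u' / N) = (nN u * nN u') / (N ^ 2) by field_simp,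
          Real.sqrt_div (by positivity), Real.sqrt_sq hNpos.le]
        field_simp
      have e1 : (crossG u u' : ℝ) / P - 2 * π * η * j * w =
          w * ((N / P) * (sin y - y) + (N / P - η * K) * y + 2 * π * η * (K * θ - j)) := by
        rw [hc, hww, hy]
        ring
      rw [e1, abs_mul, abs_of_nonneg hw0]
      have b1 : |(N / P) * (sin y - y)| ≤ η * 1 := by
        rw [abs_mul, abs_of_pos (show (0 : ℝ) < N / P by positivity)]
        have c1 := sg_sin y (by linarith)
        have c2 : (N / P : ℝ) * |sin y - y| ≤ (η * (K + 1)) * y ^ 2 :=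
          mul_le_mul hK6.le c1 (abs_nonneg _) (by positivity)
        have c3 : (K + 1) * y ^ 2 ≤ 1 := by
          have c4 : 1 * y ^ 2 ≤ K * y ^ 2 :=
            mul_le_mul_of_nonneg_right (by linarith) (sq_nonneg y)
          linarith
        calc (N / P : ℝ) * |sin y - y| ≤ η * ((K + 1) * y ^ 2) := by linarith
          _ ≤ η * 1 := mul_le_mul_of_nonneg_left c3 hη.le
      have b2 : |(N / P - η * K) * y| ≤ η * (1 / 12) := by
        rw [abs_mul]
        have c1 : |(N / P - η * K : ℝ)| ≤ η := by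
          rw [abs_le]
          constructor <;> linarith
        exact mul_le_mul c1 hy1 (abs_nonneg _) hη.le
      have b3 : |2 * π * η * (K * θ - j)| ≤ 2 * π * η := by
        rw [abs_mul, abs_of_pos (show 0 < 2 * π * η by positivity)]
        have c1 : |K * θ - j| ≤ 1 := by
          rw [abs_le]
          constructor <;> linarith
        calc 2 * π * η * |K * θ - j| ≤ 2 * π * η * 1 :=
              mul_le_mul_of_nonneg_left c1 (by positivity)
          _ = 2 * π * η := mul_one _
      have b4 : |(N / P) * (sin y - y) + (N / P - η * K) * y + 2 * π * η * (K * θ - j)| ≤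
          8 * η := by
        refine le_trans (abs_add_three _ _ _) ?_
        have c1 := mul_le_mul_of_nonneg_right hpi4.le hη.le
        linarith
      calc w * |(N / P) * (sin y - y) + (N / P - η * K) * y + 2 * π * η * (K * θ - j)|
          ≤ 1 * (8 * η) := mul_le_mul hw1 b4 (abs_nonneg _) (by norm_num)
        _ = 8 * η := one_mul _
  · intro hjJ hdpos hcpos
    have hjJ' : (J : ℝ) + 1 ≤ j := by
      rw [hj]
      exact_mod_cast hjJ
    have hJ2 : 2 ≤ (J : ℝ) := by
      have : 0 < C2 / (a * η) := by positivity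
      linarith
    have hθ0 : 0 < θ := by
      have : 0 < K * θ := by linarith
      exact (mul_pos_iff_of_pos_left hKpos).1 this
    have hs : 0 < sin (2 * π * θ) := by
      have h1 : (0 : ℝ) < (crossG u u' : ℝ) := by exact_mod_cast hcpos
      rw [hc] at h1
      exact (pos_iff_pos_of_mul_pos h1).1 (by positivity)
    have hco : 0 < cos (2 * π * θ) := by
      have h1 : (0 : ℝ) < (dotG u u' : ℝ) := by exact_mod_cast hdpos
      rw [hd] at h1
      exact (pos_iff_pos_of_mul_pos h1).1 (by positivity)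
    have hθ2 : 2 * π * θ < π := by
      by_contra hcon
      push Not at hcon
      have h1 : sin (2 * π * θ) = - sin (2 * π * θ - π) := by rw [Real.sin_sub_pi]; ring
      have h2 : 0 ≤ sin (2 * π * θ - π) := Real.sin_nonneg_of_nonneg_of_le_pi (by linarith)
        (by nlinarith)
      linarith
    have hθ4 : 2 * π * θ ≤ π / 2 := by
      by_contra hcon
      push Not at hcon
      have := Real.cos_nonpos_of_pi_div_two_le_of_le hcon.le (by linarith)
      linarith
    have hjor := Real.mul_le_sin (x := 2 * π * θ) (by positivity) hθ4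
    have hjor' : 4 * θ ≤ sin (2 * π * θ) := by
      have e : 2 / π * (2 * π * θ) = 4 * θ := by field_simp; ring
      linarith
    have hnn : a * N ≤ √(nN u : ℝ) * √(nN u' : ℝ) := by
      rw [← Real.sqrt_mul (Nat.cast_nonneg _)]
      apply Real.le_sqrt_of_sq_le
      have : (a * N) * (a * N) ≤ nN u * nN u' :=
        mul_le_mul hua.le hua'.le (by positivity) (by positivity)
      nlinarith
    have h1 : a * N * (4 * θ) ≤ crossG u u' := by
      rw [hc]
      exact mul_le_mul hnn hjor' (by positivity) (by positivity)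
    have h2 : (J : ℝ) < K * θ := by linarith
    have h3 : η * P * K ≤ N := by
      rw [le_div_iff₀ hP0] at hK5
      linarith
    have h4 : C2 ≤ (J : ℝ) * (a * η) := by
      have h5 : C2 / (a * η) ≤ J := by linarith
      rwa [div_le_iff₀ (by positivity)] at h5
    have h6 : a * (η * P * K) * (4 * θ) ≤ a * N * (4 * θ) :=
      mul_le_mul_of_nonneg_right (mul_le_mul_of_nonneg_left h3 ha.le) (by positivity)
    have h7 : a * η * P * 4 * J ≤ a * η * P * 4 * (K * θ) :=
      mul_le_mul_of_nonneg_left h2.le (by positivity)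
    have h8 : 4 * P * C2 ≤ 4 * P * (J * (a * η)) := mul_le_mul_of_nonneg_left h4 (by positivity)
    have h9 : 0 < P * C2 := by positivity
    linarith

end Pool.Agent.LogCh
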