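import Mathlib
import Pool.Agent.Lib.LogCh.EDefs

/-!
# Log-averaged cancellation at `n ^ 2 + 1`: module E.STRIP
-/

set_option autoImplicit false

namespace Pool.Agent.LogCh

open Real
open Pool.Agent.NSqP
open Pool.Agent.MP484c84Par (ballG mem_ballG crossG dotG)

namespace STRaux

lemma card_le_of_diff (S : Finset ℕ) (m : ℝ)
    (h : ∀ j ∈ S, ∀ k ∈ S, (j : ℝ) - k < m) : S.card ≤ ⌊m⌋₊ + 1 := by
  rcases S.eq_empty_or_nonempty with he | hne
  · rw [he]; simp
  · have h1 : S ⊆ Finset.Icc (S.min' hne) (S.min' hne + ⌊m⌋₊) := by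
      intro j hj
      rw [Finset.mem_Icc]
      refine ⟨Finset.min'_le _ _ hj, ?_⟩
      have h2 := h j hj _ (Finset.min'_mem S hne)
      have h3 := Finset.min'_le _ _ hj
      have h4 : ((j - S.min' hne : ℕ) : ℝ) ≤ m := by
        rw [Nat.cast_sub h3]; exact h2.le
      have h5 := Nat.le_floor h4
      omega
    refine (Finset.card_le_card h1).trans ?_
    rw [Nat.card_Icc]
    omega

/-- the index of the cell of `x`, for cells of length `h` starting at `a` -/
noncomputable def ci (a h x : ℝ) : ℕ := ⌈(x - a) / h⌉₊ - 1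

lemma ci_spec {a h x : ℝ} (hh : 0 < h) (hx : a < x) :
    a + ci a h x * h < x ∧ x ≤ a + (ci a h x + 1) * h := by
  have h0 : 0 < (x - a) / h := div_pos (by linarith) hh
  have h1 : 1 ≤ ⌈(x - a) / h⌉₊ := Nat.one_le_ceil_iff.2 h0
  have h2 : (ci a h x : ℝ) + 1 = (⌈(x - a) / h⌉₊ : ℝ) := by
    unfold ci
    rw [Nat.cast_sub h1]
    push_cast; ring
  have h3 := Nat.le_ceil ((x - a) / h)
  have h4 := Nat.ceil_lt_add_one h0.le
  constructor
  · have h5 : (ci a h x : ℝ) < (x - a) / h := by linarith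
    rw [lt_div_iff₀ hh] at h5
    linarith
  · rw [h2]
    rw [div_le_iff₀ hh] at h3
    linarith

lemma sqrt_diff_le {a x y : ℝ} (ha : 0 < a) (hx : a ≤ x) (hy : a ≤ y) :
    |√x - √y| ≤ |x - y| / (2 * √a) := by
  have hx0 : 0 ≤ x := ha.le.trans hx
  have hy0 : 0 ≤ y := ha.le.trans hy
  have hsa : 0 < √a := sqrt_pos.2 ha
  have h1 : √a ≤ √x := sqrt_le_sqrt hx
  have h2 : √a ≤ √y := sqrt_le_sqrt hy
  rw [le_div_iff₀ (by positivity)]
  have h3 : x - y = (√x - √y) * (√x + √y) := by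
    have h4 := mul_self_sqrt hx0
    have h5 := mul_self_sqrt hy0
    nlinarith
  rw [h3, abs_mul]
  apply mul_le_mul_of_nonneg_left _ (abs_nonneg _)
  rw [abs_of_nonneg (by linarith)]
  linarith

lemma diff_le_of_sqrt {x y : ℝ} (hx : 0 ≤ x) (hy : 0 ≤ y) (hx1 : x ≤ 1) (hy1 : y ≤ 1) {e : ℝ}
    (h : |√x - √y| ≤ e) : |x - y| ≤ 2 * e := by
  have h3 : x - y = (√x - √y) * (√x + √y) := by
    have h4 := mul_self_sqrt hx
    have h5 := mul_self_sqrt hy
    nlinarith
  have h4 : √x ≤ 1 := by rw [sqrt_le_one]; exact hx1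
  have h5 : √y ≤ 1 := by rw [sqrt_le_one]; exact hy1
  have h6 : |√x + √y| ≤ 2 := by
    rw [abs_of_nonneg (by positivity)]; linarith
  rw [h3, abs_mul]
  calc |√x - √y| * |√x + √y| ≤ e * 2 :=
        mul_le_mul h h6 (abs_nonneg _) ((abs_nonneg _).trans h)
    _ = 2 * e := by ring

end STRaux

open STRaux in
/-- **STRIP** (from `EQ2Stmt`): put `h = min 1 (w D / P)` and cover the strip by cells
`(a + i h, a + (i + 1) h] × (a + j h, a + (j + 1) h]`; at most `2 / h` values of `i`; for each `i`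
the `j` whose cell contains a point of the strip form a set of at most `C'` consecutive values,
because `√ν' = (Y √ν + s ± w D) / X`, `√ν` ranges over an interval of length `h / (2 √a)`. Each
cell has at most `C h² N / D` pairs. -/
theorem STRIPp (hE : EQ2Stmt) : STRIPStmt := by
  classical
  intro a W C1 C2 ha ha1 hW hC1 hC2
  obtain ⟨C, hC, hE⟩ := hE a ha
  have hsa : 0 < √a := sqrt_pos.2 ha
  set M : ℝ := max 1 (W * C2) with hM
  have hM1 : 1 ≤ M := le_max_left _ _
  set E : ℝ := C1 / (2 * √a) + 2 * M with hEdef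
  have hE0 : 0 < E := by positivity
  refine ⟨C * (2 * (2 * E + 2)), by positivity, ?_⟩
  intro P D c w hP hD hDP hw hwW
  have hP' : (0 : ℝ) < P := by exact_mod_cast hP
  have hD' : (0 : ℝ) < D := by exact_mod_cast hD
  set h : ℝ := min 1 (w * D / P) with hh
  have hh0 : 0 < h := lt_min one_pos (by positivity)
  have hh1 : h ≤ 1 := min_le_left _ _
  have hhw : h ≤ w * D / P := min_le_right _ _
  have hwM : w * D / P ≤ M * h := by
    have h1 : w * D / P ≤ M := by
      refine le_trans ?_ (le_max_right _ _)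
      rw [div_le_iff₀ hP']
      have h2 : (D : ℝ) ≤ C2 * P := by exact_mod_cast hDP
      calc w * D ≤ W * (C2 * P) := mul_le_mul hwW h2 hD'.le hW.le
        _ = _ := by ring
    rcases le_total 1 (w * D / P) with h3 | h3
    · rw [hh, min_eq_left h3]; linarith
    · rw [hh, min_eq_right h3]
      have : 0 ≤ w * D / P := by positivity
      nlinarith
  obtain ⟨N0, hN0⟩ := hE D c h hD hh0 hh1
  refine ⟨max N0 1, ?_⟩
  intro N hN X Y s hX hX1 hY hY1
  have hNN0 : N0 ≤ N := (le_max_left _ _).trans hN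
  have hN1 : 1 ≤ N := (le_max_right _ _).trans hN
  have hN' : (0 : ℝ) < N := by exact_mod_cast hN1
  have hX0 : 0 < X := hP'.trans_le hX
  have hY0 : 0 < Y := hP'.trans_le hY
  set T := (lpairs a D N).filter (fun p : GaussianInt × GaussianInt =>
    (D : GaussianInt) ∣ p.2 - (c : GaussianInt) * p.1 ∧ |lf N p X Y - s| ≤ w * D) with hT
  have hTm : ∀ p ∈ T, p ∈ dpairs D N ∧ (a < (nN p.1 : ℝ) / N ∧ (nN p.1 : ℝ) / N ≤ 1) ∧
      (a < (nN p.2 : ℝ) / N ∧ (nN p.2 : ℝ) / N ≤ 1) ∧
      (D : GaussianInt) ∣ p.2 - (c : GaussianInt) * p.1 ∧ |lf N p X Y - s| ≤ w * D := by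
    intro p hp
    rw [hT, Finset.mem_filter] at hp
    have hp1 := hp.1
    unfold lpairs at hp1
    rw [Finset.mem_filter] at hp1
    have hp2 := hp1.1
    unfold dpairs at hp2
    rw [Finset.mem_filter, Finset.mem_product] at hp2
    unfold VV at hp2
    rw [mem_pann hN'.le, mem_pann hN'.le] at hp2
    refine ⟨hp1.1, ⟨?_, ?_⟩, ⟨?_, ?_⟩, hp.2⟩
    · rw [lt_div_iff₀ hN']; exact hp1.2.1
    · rw [div_le_one hN']; exact hp2.1.1.1.2
    · rw [lt_div_iff₀ hN']; exact hp1.2.2
    · rw [div_le_one hN']; exact hp2.1.2.1.2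
  set g : GaussianInt × GaussianInt → ℕ × ℕ := fun p =>
    (ci a h ((nN p.1 : ℝ) / N), ci a h ((nN p.2 : ℝ) / N)) with hg
  have hcell : ∀ x ∈ T.image g, (T.filter (fun p => g p = x)).card ≤ ⌊C * h ^ 2 * N / D⌋₊ := by
    intro x hx
    rw [Finset.mem_image] at hx
    obtain ⟨p0, hp0, rfl⟩ := hx
    apply Nat.le_floor
    obtain ⟨-, h1, h2, -⟩ := hTm p0 hp0
    have h3 := ci_spec hh0 h1.1
    have h4 := ci_spec hh0 h2.1
    set i := ci a h ((nN p0.1 : ℝ) / N) with hi
    set j := ci a h ((nN p0.2 : ℝ) / N) with hj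
    have h5 := hN0 N hNN0 (a + i * h) (a + j * h) (by nlinarith [Nat.cast_nonneg (α := ℝ) i])
      (by linarith) (by nlinarith [Nat.cast_nonneg (α := ℝ) j]) (by linarith)
    refine le_trans ?_ h5
    have h6 : T.filter (fun p => g p = g p0) ⊆ ((dpairs D N).filter
      (fun p : GaussianInt × GaussianInt =>
      (D : GaussianInt) ∣ p.2 - (c : GaussianInt) * p.1 ∧
      (a + i * h) * N < nN p.1 ∧ (nN p.1 : ℝ) ≤ ((a + i * h) + h) * N ∧
      (a + j * h) * N < nN p.2 ∧ (nN p.2 : ℝ) ≤ ((a + j * h) + h) * N)) := by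
      intro p hp
      rw [Finset.mem_filter] at hp
      obtain ⟨h7, h8, h9, h10, -⟩ := hTm p hp.1
      have h11 := ci_spec hh0 h8.1
      have h12 := ci_spec hh0 h9.1
      have h13 : ci a h ((nN p.1 : ℝ) / N) = i := (Prod.ext_iff.1 hp.2).1
      have h14 : ci a h ((nN p.2 : ℝ) / N) = j := (Prod.ext_iff.1 hp.2).2
      rw [h13] at h11
      rw [h14] at h12
      rw [lt_div_iff₀ hN', div_le_iff₀ hN'] at h11 h12
      rw [Finset.mem_filter]
      refine ⟨h7, h10, h11.1, ?_, h12.1, ?_⟩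
      · refine h11.2.trans (le_of_eq ?_); ring
      · refine h12.2.trans (le_of_eq ?_); ring
    exact_mod_cast Finset.card_le_card h6
  have hcols : ∀ i ∈ (T.image g).image Prod.fst,
      ((T.image g).filter (fun x => x.1 = i)).card ≤ ⌊2 * E + 1⌋₊ + 1 := by
    intro i _
    have h1 : ((T.image g).filter (fun x => x.1 = i)).card =
        (((T.image g).filter (fun x => x.1 = i)).image Prod.snd).card := by
      symm
      apply Finset.card_image_of_injOn
      intro x hx y hy hxy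
      rw [Finset.mem_coe, Finset.mem_filter] at hx hy
      exact Prod.ext (hx.2.trans hy.2.symm) hxy
    rw [h1]
    apply card_le_of_diff
    intro j hj k hk
    rw [Finset.mem_image] at hj hk
    obtain ⟨x, hx, rfl⟩ := hj
    obtain ⟨y, hy, rfl⟩ := hk
    rw [Finset.mem_filter, Finset.mem_image] at hx hy
    obtain ⟨⟨p, hp, rfl⟩, hpi⟩ := hx
    obtain ⟨⟨q, hq, rfl⟩, hqi⟩ := hy
    obtain ⟨-, hp1, hp2, -, hp3⟩ := hTm p hp
    obtain ⟨-, hq1, hq2, -, hq3⟩ := hTm q hq
    have h3 := ci_spec hh0 hp1.1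
    have h4 := ci_spec hh0 hq1.1
    have h5 := ci_spec hh0 hp2.1
    have h6 := ci_spec hh0 hq2.1
    simp only [hg] at hpi hqi ⊢
    rw [hpi] at h3
    rw [hqi] at h4
    set ν := (nN p.1 : ℝ) / N with hν
    set ν' := (nN p.2 : ℝ) / N with hν'
    set μ := (nN q.1 : ℝ) / N with hμ
    set μ' := (nN q.2 : ℝ) / N with hμ'
    have h7 : |ν - μ| ≤ h := by
      rw [abs_le]; constructor <;> linarith
    have h8 : |√ν - √μ| ≤ h / (2 * √a) :=
      (sqrt_diff_le ha hp1.1.le hq1.1.le).trans (div_le_div_of_nonneg_right h7 (by positivity))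
    have h9 : lf N p X Y = X * √ν' - Y * √ν := rfl
    have h10 : lf N q X Y = X * √μ' - Y * √μ := rfl
    rw [h9] at hp3
    rw [h10] at hq3
    have h11 : X * |√ν' - √μ'| ≤ 2 * (w * D) + Y * (h / (2 * √a)) := by
      have h0X : X * |√ν' - √μ'| = |X * (√ν' - √μ')| := by rw [abs_mul, abs_of_pos hX0]
      rw [h0X]
      have h12 : X * (√ν' - √μ') = ((X * √ν' - Y * √ν - s) - (X * √μ' - Y * √μ - s)) +
        Y * (√ν - √μ) := by ring
      rw [h12]
      refine (abs_add_le _ _).trans (add_le_add ?_ ?_)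
      · refine (abs_sub _ _).trans ?_
        linarith
      · rw [abs_mul, abs_of_pos hY0]
        exact mul_le_mul_of_nonneg_left h8 hY0.le
    have h13 : |√ν' - √μ'| ≤ h * E := by
      have h14 : 2 * (w * D) + Y * (h / (2 * √a)) ≤ X * (h * E) := by
        have h15 : w * D ≤ M * h * P := by rwa [div_le_iff₀ hP'] at hwM
        have h16 : Y * (h / (2 * √a)) ≤ (C1 * P) * (h / (2 * √a)) :=
          mul_le_mul_of_nonneg_right hY1 (by positivity)
        have h17 : 2 * (M * h * P) + (C1 * P) * (h / (2 * √a)) = P * (h * E) := by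
          rw [hEdef]; field_simp; ring
        have h18 : P * (h * E) ≤ X * (h * E) := mul_le_mul_of_nonneg_right hX (by positivity)
        linarith
      exact le_of_mul_le_mul_left (h11.trans h14) hX0
    have h19 := diff_le_of_sqrt (ha.le.trans hp2.1.le) (ha.le.trans hq2.1.le) hp2.2 hq2.2 h13
    have h20 := (abs_le.1 h19).2
    have h21 : ((ci a h ν' : ℝ) - ci a h μ' - 1) * h < (2 * E) * h := by nlinarith
    have h22 := lt_of_mul_lt_mul_right h21 hh0.le
    linarith
  have hrows : ((T.image g).image Prod.fst).card ≤ ⌊1 / h⌋₊ + 1 := by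
    have h1 : (T.image g).image Prod.fst ⊆ Finset.range (⌊1 / h⌋₊ + 1) := by
      intro i hi
      rw [Finset.mem_image] at hi
      obtain ⟨x, hx, rfl⟩ := hi
      rw [Finset.mem_image] at hx
      obtain ⟨p, hp, rfl⟩ := hx
      obtain ⟨-, hp1, -⟩ := hTm p hp
      have h3 := ci_spec hh0 hp1.1
      rw [Finset.mem_range, Nat.lt_add_one_iff]
      apply Nat.le_floor
      rw [le_div_iff₀ hh0]
      simp only [hg]
      linarith
    refine (Finset.card_le_card h1).trans ?_
    rw [Finset.card_range]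
  have h1 := Finset.card_le_mul_card_image (f := g) T _ hcell
  have h2 := Finset.card_le_mul_card_image (f := Prod.fst) (T.image g) _ hcols
  have h3 : T.card ≤ ⌊C * h ^ 2 * N / D⌋₊ * ((⌊2 * E + 1⌋₊ + 1) * (⌊1 / h⌋₊ + 1)) :=
    h1.trans (Nat.mul_le_mul_left _ (h2.trans (Nat.mul_le_mul_left _ hrows)))
  have h4 : (T.card : ℝ) ≤ (⌊C * h ^ 2 * N / D⌋₊ : ℝ) *
      (((⌊2 * E + 1⌋₊ : ℝ) + 1) * ((⌊1 / h⌋₊ : ℝ) + 1)) := by exact_mod_cast h3
  have h5 : (⌊C * h ^ 2 * N / D⌋₊ : ℝ) ≤ C * h ^ 2 * N / D := Nat.floor_le (by positivity)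
  have h6 : (⌊2 * E + 1⌋₊ : ℝ) + 1 ≤ 2 * E + 2 := by
    have := Nat.floor_le (show 0 ≤ 2 * E + 1 by positivity)
    linarith
  have h7 : (⌊1 / h⌋₊ : ℝ) + 1 ≤ 2 / h := by
    have h8 := Nat.floor_le (show 0 ≤ 1 / h by positivity)
    have h9 : 1 ≤ 1 / h := by rw [le_div_iff₀ hh0]; linarith
    have h10 : 2 / h = 1 / h + 1 / h := by ring
    rw [h10]; linarith
  calc (T.card : ℝ) ≤ (C * h ^ 2 * N / D) * ((2 * E + 2) * (2 / h)) := by
        refine h4.trans ?_
        apply mul_le_mul h5 _ (by positivity) (by positivity)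
        exact mul_le_mul h6 h7 (by positivity) (by positivity)
    _ = C * (2 * (2 * E + 2)) * N * (h / D) := by field_simp
    _ ≤ C * (2 * (2 * E + 2)) * N * (w / P) := by
        apply mul_le_mul_of_nonneg_left _ (by positivity)
        rw [div_le_div_iff₀ hD' hP']
        rwa [le_div_iff₀ hP'] at hhw
    _ = C * (2 * (2 * E + 2)) * w * N / P := by ring

end Pool.Agent.LogCh
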