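import Mathlib
import Pool.Agent.Lib.LogCh.EDefs

/-!
# Log-averaged cancellation at `n ^ 2 + 1`: module E.STRUCT
-/

set_option autoImplicit false

namespace Pool.Agent.LogCh

open Real
open Pool.Agent.NSqP
open Pool.Agent.MP484c84Par (ballG mem_ballG crossG dotG)

private lemma st_lam_le (z : GaussianInt) : |lam z| ≤ 1 := by
  by_cases hz : z = 0
  · subst hz
    simp [lam, nN_zero]
  · have h0 : nN z ≠ 0 := (nN_pos hz).ne'
    unfold lam
    rw [ArithmeticFunction.liouville_apply h0]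
    push_cast
    rw [abs_pow]
    simp

private lemma st_arc_lt {K : ℕ} (hK : 1 ≤ K) (z : GaussianInt) : arcI K z < K := by
  have h0 : 0 ≤ ang z := Int.fract_nonneg _
  have h1 : ang z < 1 := Int.fract_lt_one _
  have hK' : (1 : ℝ) ≤ K := by exact_mod_cast hK
  unfold arcI
  rw [Nat.floor_lt (by positivity)]
  nlinarith

private lemma st_jj {K : ℕ} (hK : 1 ≤ K) (u u' : GaussianInt) :
    arcI K u' = (arcI K u + jj K (u, u')) % K := by
  have h1 := st_arc_lt hK u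
  have h2 := st_arc_lt hK u'
  unfold jj
  rw [Nat.add_mod_mod]
  have h3 : arcI K u + (arcI K u' + K - arcI K u) = arcI K u' + K := by omega
  simp only
  rw [h3, Nat.add_mod_right, Nat.mod_eq_of_lt h2]

private lemma st_count_j {B : ℝ} {N K : ℕ} (hK : 1 ≤ K)
    (hB : ∀ i : ℕ, (((VV N).filter (fun z => arcI K z = i)).card : ℝ) ≤ B) (j : ℕ)
    (u : GaussianInt) : (((VV N).filter (fun u' => jj K (u, u') = j)).card : ℝ) ≤ B := by
  refine le_trans ?_ (hB ((arcI K u + j) % K))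
  have : (VV N).filter (fun u' => jj K (u, u') = j) ⊆
      (VV N).filter (fun z => arcI K z = (arcI K u + j) % K) := by
    intro w hw
    rw [Finset.mem_filter] at hw ⊢
    refine ⟨hw.1, ?_⟩
    rw [← hw.2]
    exact st_jj hK u w
  exact_mod_cast Finset.card_le_card this

private lemma st_card_VV {B : ℝ} {N K : ℕ} (hK : 1 ≤ K)
    (hB : ∀ i : ℕ, (((VV N).filter (fun z => arcI K z = i)).card : ℝ) ≤ B) :
    ((VV N).card : ℝ) ≤ K * B := by
  have h : (VV N).card = ∑ i ∈ Finset.range K, ((VV N).filter (fun z => arcI K z = i)).card := by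
    apply Finset.card_eq_sum_card_fiberwise
    intro z _
    simpa using st_arc_lt hK z
  rw [h]
  push_cast
  calc ∑ i ∈ Finset.range K, (((VV N).filter (fun z => arcI K z = i)).card : ℝ)
      ≤ ∑ _i ∈ Finset.range K, B := Finset.sum_le_sum fun i _ => hB i
    _ = K * B := by rw [Finset.sum_const, Finset.card_range, nsmul_eq_mul]

private lemma st_count_pairs {B : ℝ} {N K : ℕ} (hK : 1 ≤ K)
    (hB : ∀ i : ℕ, (((VV N).filter (fun z => arcI K z = i)).card : ℝ) ≤ B) (J : ℕ) :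
    (((VV N ×ˢ VV N).filter (fun p : GaussianInt × GaussianInt => jj K p ≤ J)).card : ℝ) ≤
      (K * B) * ((J + 1 : ℕ) * B) := by
  classical
  have hB0 : 0 ≤ B := le_trans (Nat.cast_nonneg _) (hB 0)
  have h1 : ((VV N ×ˢ VV N).filter (fun p : GaussianInt × GaussianInt => jj K p ≤ J)).card =
      ∑ u ∈ VV N, ((VV N).filter (fun u' => jj K (u, u') ≤ J)).card := by
    rw [Finset.card_filter, Finset.sum_product]
    refine Finset.sum_congr rfl fun u _ => ?_
    rw [Finset.card_filter]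
  have h2 : ∀ u : GaussianInt, (((VV N).filter (fun u' => jj K (u, u') ≤ J)).card : ℝ) ≤
      (J + 1 : ℕ) * B := by
    intro u
    have h3 : ((VV N).filter (fun u' => jj K (u, u') ≤ J)).card ≤
        ∑ j ∈ Finset.range (J + 1), ((VV N).filter (fun u' => jj K (u, u') = j)).card := by
      have h4 : (VV N).filter (fun u' => jj K (u, u') ≤ J) ⊆
          (Finset.range (J + 1)).biUnion (fun j => (VV N).filter (fun u' => jj K (u, u') = j)) := by
        intro w hw
        rw [Finset.mem_filter] at hw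
        rw [Finset.mem_biUnion]
        exact ⟨jj K (u, w), Finset.mem_range.2 (by omega), Finset.mem_filter.2 ⟨hw.1, rfl⟩⟩
      exact (Finset.card_le_card h4).trans Finset.card_biUnion_le
    calc (((VV N).filter (fun u' => jj K (u, u') ≤ J)).card : ℝ)
        ≤ ((∑ j ∈ Finset.range (J + 1),
          ((VV N).filter (fun u' => jj K (u, u') = j)).card : ℕ) : ℝ) := by exact_mod_cast h3
      _ = ∑ j ∈ Finset.range (J + 1),
          (((VV N).filter (fun u' => jj K (u, u') = j)).card : ℝ) := by push_cast; rfl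
      _ ≤ ∑ _j ∈ Finset.range (J + 1), B := Finset.sum_le_sum fun j _ => st_count_j hK hB j u
      _ = (J + 1 : ℕ) * B := by rw [Finset.sum_const, Finset.card_range, nsmul_eq_mul]
  rw [h1]
  push_cast
  calc ∑ u ∈ VV N, (((VV N).filter (fun u' => jj K (u, u') ≤ J)).card : ℝ)
      ≤ ∑ _u ∈ VV N, ((J + 1 : ℕ) * B) := Finset.sum_le_sum fun u _ => h2 u
    _ = (VV N).card * ((J + 1 : ℕ) * B) := by rw [Finset.sum_const, nsmul_eq_mul]
    _ ≤ (K * B) * ((J + 1 : ℕ) * B) :=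
        mul_le_mul_of_nonneg_right (st_card_VV hK hB) (by positivity)
    _ = _ := by push_cast; ring

private lemma st_part (ρ : ℕ → ℝ) (hρ : Monotone ρ) (M x v : ℝ) (hM : 0 ≤ M) (n : ℕ) :
    ∑ k ∈ Finset.range n, (if ρ k * M < x ∧ x ≤ ρ (k + 1) * M then v else 0) =
      if ρ 0 * M < x ∧ x ≤ ρ n * M then v else 0 := by
  induction n with
  | zero =>
    rw [Finset.sum_range_zero, if_neg]
    rintro ⟨h1, h2⟩
    linarith
  | succ n ih =>
    rw [Finset.sum_range_succ, ih]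
    have h1 : ρ 0 * M ≤ ρ n * M := mul_le_mul_of_nonneg_right (hρ (Nat.zero_le n)) hM
    have h2 : ρ n * M ≤ ρ (n + 1) * M := mul_le_mul_of_nonneg_right (hρ (Nat.le_succ n)) hM
    by_cases h3 : x ≤ ρ n * M
    · by_cases h4 : ρ 0 * M < x
      · rw [if_pos ⟨h4, h3⟩, if_neg (fun h => absurd h.1 (not_lt.2 h3)), if_pos ⟨h4, h3.trans h2⟩,
          add_zero]
      · rw [if_neg (fun h => h4 h.1), if_neg (fun h => absurd h.1 (not_lt.2 h3)),
          if_neg (fun h => h4 h.1), add_zero]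
    · have h3' := not_le.1 h3
      by_cases h5 : x ≤ ρ (n + 1) * M
      · rw [if_neg (fun h => h3 h.2), if_pos ⟨h3', h5⟩, if_pos ⟨lt_of_le_of_lt h1 h3', h5⟩,
          zero_add]
      · rw [if_neg (fun h => h3 h.2), if_neg (fun h => h5 h.2), if_neg (fun h => h5 h.2),
          add_zero]

/-- restriction of `lam` to the cell `k` -/
private noncomputable def st_c (ρ : ℕ → ℝ) (N k : ℕ) (z : GaussianInt) : ℝ :=
  open Classical in if ρ k * N < nN z ∧ (nN z : ℝ) ≤ ρ (k + 1) * N then lam z else 0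

private lemma st_c_sum (ρ : ℕ → ℝ) (hρ : Monotone ρ) (N n : ℕ) (z : GaussianInt) :
    ∑ k ∈ Finset.range n, st_c ρ N k z = fc (ρ 0) (ρ n) N z := by
  classical
  have h := st_part ρ hρ N (nN z) (lam z) (Nat.cast_nonneg _) n
  unfold st_c fc
  calc _ = ∑ k ∈ Finset.range n,
        (if ρ k * N < nN z ∧ (nN z : ℝ) ≤ ρ (k + 1) * N then lam z else 0) := by
        refine Finset.sum_congr rfl fun k _ => ?_
        split_ifs <;> rfl
    _ = _ := h
    _ = _ := by split_ifs <;> rfl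

private lemma st_c_abs (ρ : ℕ → ℝ) (hρ : Monotone ρ) (N n : ℕ) (z : GaussianInt) :
    ∑ k ∈ Finset.range n, |st_c ρ N k z| ≤ 1 := by
  classical
  have h := st_part ρ hρ N (nN z) (|lam z|) (Nat.cast_nonneg _) n
  unfold st_c
  calc _ = ∑ k ∈ Finset.range n,
        (if ρ k * N < nN z ∧ (nN z : ℝ) ≤ ρ (k + 1) * N then |lam z| else 0) := by
        refine Finset.sum_congr rfl fun k _ => ?_
        split_ifs
        · rfl
        · exact abs_zero
    _ = _ := h
    _ ≤ 1 := by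
        split_ifs
        · exact st_lam_le z
        · exact zero_le_one

private lemma st_FG (ρ : ℕ → ℝ) (hρ : Monotone ρ) (N n : ℕ) (z z' : GaussianInt) (W e : ℝ)
    (he : 0 ≤ e) (V : ℕ → ℕ → ℝ)
    (hV : ∀ k ∈ Finset.range n, ∀ k' ∈ Finset.range n,
      ρ k * N < nN z → (nN z : ℝ) ≤ ρ (k + 1) * N → ρ k' * N < nN z' →
      (nN z' : ℝ) ≤ ρ (k' + 1) * N → |W - V k k'| ≤ e) :
    |fc (ρ 0) (ρ n) N z * fc (ρ 0) (ρ n) N z' * W -
      ∑ k ∈ Finset.range n, ∑ k' ∈ Finset.range n, st_c ρ N k z * st_c ρ N k' z' * V k k'| ≤ e := by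
  classical
  rw [← st_c_sum ρ hρ N n z, ← st_c_sum ρ hρ N n z', Finset.sum_mul_sum, Finset.sum_mul,
    ← Finset.sum_sub_distrib]
  have h1 : ∀ k ∈ Finset.range n,
      |(∑ k' ∈ Finset.range n, st_c ρ N k z * st_c ρ N k' z') * W -
        ∑ k' ∈ Finset.range n, st_c ρ N k z * st_c ρ N k' z' * V k k'| ≤ |st_c ρ N k z| * e := by
    intro k hk
    rw [Finset.sum_mul, ← Finset.sum_sub_distrib]
    calc |∑ k' ∈ Finset.range n, (st_c ρ N k z * st_c ρ N k' z' * W -
          st_c ρ N k z * st_c ρ N k' z' * V k k')|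
        ≤ ∑ k' ∈ Finset.range n, |st_c ρ N k z * st_c ρ N k' z' * W -
          st_c ρ N k z * st_c ρ N k' z' * V k k'| := Finset.abs_sum_le_sum_abs _ _
      _ ≤ ∑ k' ∈ Finset.range n, |st_c ρ N k z| * e * |st_c ρ N k' z'| := by
          refine Finset.sum_le_sum fun k' hk' => ?_
          rw [← mul_sub, abs_mul, abs_mul]
          by_cases hc : ρ k * N < nN z ∧ (nN z : ℝ) ≤ ρ (k + 1) * N
          · by_cases hc' : ρ k' * N < nN z' ∧ (nN z' : ℝ) ≤ ρ (k' + 1) * N
            · have := hV k hk k' hk' hc.1 hc.2 hc'.1 hc'.2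
              calc |st_c ρ N k z| * |st_c ρ N k' z'| * |W - V k k'|
                  ≤ |st_c ρ N k z| * |st_c ρ N k' z'| * e :=
                    mul_le_mul_of_nonneg_left this (by positivity)
                _ = _ := by ring
            · have h0 : st_c ρ N k' z' = 0 := by unfold st_c; rw [if_neg hc']
              rw [h0]; simp
          · have h0 : st_c ρ N k z = 0 := by unfold st_c; rw [if_neg hc]
            rw [h0]; simp
      _ = |st_c ρ N k z| * e * ∑ k' ∈ Finset.range n, |st_c ρ N k' z'| := by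
          rw [Finset.mul_sum]
      _ ≤ |st_c ρ N k z| * e * 1 :=
          mul_le_mul_of_nonneg_left (st_c_abs ρ hρ N n z') (by positivity)
      _ = |st_c ρ N k z| * e := mul_one _
  calc _ ≤ ∑ k ∈ Finset.range n, |(∑ k' ∈ Finset.range n, st_c ρ N k z * st_c ρ N k' z') * W -
        ∑ k' ∈ Finset.range n, st_c ρ N k z * st_c ρ N k' z' * V k k'| :=
        Finset.abs_sum_le_sum_abs _ _
    _ ≤ ∑ k ∈ Finset.range n, |st_c ρ N k z| * e := Finset.sum_le_sum h1
    _ = (∑ k ∈ Finset.range n, |st_c ρ N k z|) * e := by rw [Finset.sum_mul]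
    _ ≤ 1 * e := mul_le_mul_of_nonneg_right (st_c_abs ρ hρ N n z) he
    _ = e := one_mul e

private lemma st_sqrt {a ν ν' ρ ρ' : ℝ} (ha : 0 < a) (h1 : a ≤ ν) (h2 : ν ≤ 1) (h3 : a ≤ ν')
    (h5 : a ≤ ρ) (h7 : a ≤ ρ') (h8 : ρ' ≤ 1) :
    |√(ν * ν') - √(ρ * ρ')| ≤ (|ν - ρ| + |ν' - ρ'|) / (2 * a) := by
  have hs : a ≤ √(ν * ν') := by
    apply Real.le_sqrt_of_sq_le
    nlinarith
  have ht : a ≤ √(ρ * ρ') := by
    apply Real.le_sqrt_of_sq_le
    nlinarith
  have hs2 : √(ν * ν') ^ 2 = ν * ν' := Real.sq_sqrt (mul_nonneg (by linarith) (by linarith))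
  have ht2 : √(ρ * ρ') ^ 2 = ρ * ρ' := Real.sq_sqrt (mul_nonneg (by linarith) (by linarith))
  rw [le_div_iff₀ (by positivity)]
  set s := √(ν * ν')
  set t := √(ρ * ρ')
  have hst : |s - t| * (s + t) = |ν * ν' - ρ * ρ'| := by
    rw [← abs_of_pos (show 0 < s + t by linarith), ← abs_mul]
    congr 1
    nlinarith
  have h9 : |ν * ν' - ρ * ρ'| ≤ |ν - ρ| + |ν' - ρ'| := by
    have e : ν * ν' - ρ * ρ' = ν * (ν' - ρ') + ρ' * (ν - ρ) := by ring
    rw [e]
    refine (abs_add_le _ _).trans ?_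
    rw [abs_mul, abs_mul, abs_of_pos (show 0 < ν by linarith), abs_of_pos (show 0 < ρ' by linarith)]
    have := mul_le_mul_of_nonneg_right h2 (abs_nonneg (ν' - ρ'))
    have := mul_le_mul_of_nonneg_right h8 (abs_nonneg (ν - ρ))
    linarith
  have h10 : |s - t| * (2 * a) ≤ |s - t| * (s + t) :=
    mul_le_mul_of_nonneg_left (by linarith) (abs_nonneg _)
  linarith

private lemma st_geo {a κ C2 L : ℝ} {Φ : ℝ → ℝ → ℝ → ℝ} (hΦ : LipW a κ C2 L Φ) (ha : 0 < a)
    (hL : 0 ≤ L) {ν ν' ρ ρ' x c w d : ℝ} (h1 : a ≤ ν) (h2 : ν ≤ 1) (h3 : a ≤ ν') (h4 : ν' ≤ 1)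
    (h5 : a ≤ ρ) (h6 : ρ ≤ 1) (h7 : a ≤ ρ') (h8 : ρ' ≤ 1) (hc : 0 ≤ c)
    (hx : |x - c * √(ν * ν')| ≤ d) (hw : |ν - ρ| ≤ w) (hw' : |ν' - ρ'| ≤ w) :
    |Φ ν ν' x - Φ ρ ρ' (c * √(ρ * ρ'))| ≤ L * (2 * w + d + c * (w / a)) := by
  refine (hΦ.lip ν ν' x ρ ρ' (c * √(ρ * ρ')) h1 h2 h3 h4 h5 h6 h7 h8).trans ?_
  apply mul_le_mul_of_nonneg_left _ hL
  have h9 := st_sqrt ha h1 h2 h3 h5 h7 h8
  have h10 : |√(ν * ν') - √(ρ * ρ')| ≤ w / a := by
    refine h9.trans ?_
    rw [div_le_div_iff₀ (by positivity) ha]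
    nlinarith
  have h11 : |x - c * √(ρ * ρ')| ≤ d + c * (w / a) := by
    have e : x - c * √(ρ * ρ') = (x - c * √(ν * ν')) + c * (√(ν * ν') - √(ρ * ρ')) := by ring
    rw [e]
    refine (abs_add_le _ _).trans ?_
    rw [abs_mul, abs_of_nonneg hc]
    have := mul_le_mul_of_nonneg_left h10 hc
    linarith
  linarith

/-- the main part as a sum over arcs at distance `j` and cells -/
private lemma st_main {N K J n r : ℕ} (ρ : ℕ → ℝ) (hρ0 : 0 ≤ ρ 0) (hρ : Monotone ρ)
    (hρn : ρ n ≤ 1) (hK : 1 ≤ K) (hP : STPAIRStmt) (z z' : GaussianInt) (V : ℕ → ℕ → ℕ → ℝ)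
    {L B S : ℝ} (hL : 0 ≤ L) (hV : ∀ j k k' : ℕ, |V j k k'| ≤ L)
    (hB : ∀ i : ℕ, (((VV N).filter (fun z => arcI K z = i)).card : ℝ) ≤ B)
    (hM : open Classical in ∀ k ∈ Finset.range n,
      ∑ i ∈ Finset.range K, |∑ w ∈ (pann (ρ k * N) (ρ (k + 1) * N)).filter
        (fun w => (r : GaussianInt) ∣ w - z' ∧ arcI K w = i), lam w| ≤ S) :
    open Classical in
    |∑ p ∈ (VV N ×ˢ VV N).filter (fun p : GaussianInt × GaussianInt => jj K p ≤ J ∧
        (r : GaussianInt) ∣ p.1 - z ∧ (r : GaussianInt) ∣ p.2 - z'),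
      ∑ k ∈ Finset.range n, ∑ k' ∈ Finset.range n,
        st_c ρ N k p.1 * st_c ρ N k' p.2 * V (jj K p) k k'| ≤
      (J + 1 : ℕ) * (n * (n * (L * (B * S)))) := by
  classical
  have hB0 : 0 ≤ B := le_trans (Nat.cast_nonneg _) (hB 0)
  have hρ1 : ∀ k ∈ Finset.range n, ρ (k + 1) ≤ 1 := fun k hk =>
    (hρ (Finset.mem_range.1 hk)).trans hρn
  have hρ2 : ∀ k, 0 ≤ ρ k := fun k => hρ0.trans (hρ (Nat.zero_le k))
  have hN0 : (0 : ℝ) ≤ N := Nat.cast_nonneg _
  have hsub : ∀ k ∈ Finset.range n, pann (ρ k * N) (ρ (k + 1) * N) ⊆ VV N := by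
    intro k hk w hw
    rw [mem_pann (mul_nonneg (hρ2 _) hN0)] at hw
    unfold VV
    rw [mem_pann hN0]
    refine ⟨⟨lt_of_le_of_lt (mul_nonneg (hρ2 k) hN0) hw.1.1, hw.1.2.trans ?_⟩, hw.2⟩
    have := mul_le_mul_of_nonneg_right (hρ1 k hk) hN0
    linarith
  have hmem : ∀ k ∈ Finset.range n, ∀ w ∈ VV N, w ∈ pann (ρ k * N) (ρ (k + 1) * N) ↔
      (ρ k * N < nN w ∧ (nN w : ℝ) ≤ ρ (k + 1) * N) := by
    intro k hk w hw
    unfold VV at hw
    rw [mem_pann hN0] at hw
    rw [mem_pann (mul_nonneg (hρ2 _) hN0)]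
    exact ⟨fun h => h.1, fun h => ⟨h, hw.2⟩⟩
  -- rewriting
  have hT : ∑ p ∈ (VV N ×ˢ VV N).filter (fun p : GaussianInt × GaussianInt => jj K p ≤ J ∧
        (r : GaussianInt) ∣ p.1 - z ∧ (r : GaussianInt) ∣ p.2 - z'),
      ∑ k ∈ Finset.range n, ∑ k' ∈ Finset.range n,
        st_c ρ N k p.1 * st_c ρ N k' p.2 * V (jj K p) k k' =
      ∑ j ∈ Finset.range (J + 1), ∑ k ∈ Finset.range n, ∑ k' ∈ Finset.range n, V j k k' *
        ∑ p ∈ (VV N ×ˢ VV N).filter (fun p : GaussianInt × GaussianInt => jj K p = j ∧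
          (r : GaussianInt) ∣ p.1 - z ∧ (r : GaussianInt) ∣ p.2 - z'),
          st_c ρ N k p.1 * st_c ρ N k' p.2 := by
    have h1 : ∀ j : ℕ, ∑ k ∈ Finset.range n, ∑ k' ∈ Finset.range n, V j k k' *
        ∑ p ∈ (VV N ×ˢ VV N).filter (fun p : GaussianInt × GaussianInt => jj K p = j ∧
          (r : GaussianInt) ∣ p.1 - z ∧ (r : GaussianInt) ∣ p.2 - z'),
          st_c ρ N k p.1 * st_c ρ N k' p.2 =
        ∑ p ∈ VV N ×ˢ VV N, if (jj K p = j ∧
          (r : GaussianInt) ∣ p.1 - z ∧ (r : GaussianInt) ∣ p.2 - z') then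
          ∑ k ∈ Finset.range n, ∑ k' ∈ Finset.range n,
            st_c ρ N k p.1 * st_c ρ N k' p.2 * V (jj K p) k k' else 0 := by
      intro j
      rw [← Finset.sum_filter]
      calc _ = ∑ k ∈ Finset.range n, ∑ k' ∈ Finset.range n,
            ∑ p ∈ (VV N ×ˢ VV N).filter (fun p : GaussianInt × GaussianInt => jj K p = j ∧
            (r : GaussianInt) ∣ p.1 - z ∧ (r : GaussianInt) ∣ p.2 - z'),
            st_c ρ N k p.1 * st_c ρ N k' p.2 * V (jj K p) k k' := by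
            refine Finset.sum_congr rfl fun k _ => Finset.sum_congr rfl fun k' _ => ?_
            rw [Finset.mul_sum]
            refine Finset.sum_congr rfl fun p hp => ?_
            rw [(Finset.mem_filter.1 hp).2.1]
            ring
        _ = ∑ k ∈ Finset.range n,
            ∑ p ∈ (VV N ×ˢ VV N).filter (fun p : GaussianInt × GaussianInt => jj K p = j ∧
            (r : GaussianInt) ∣ p.1 - z ∧ (r : GaussianInt) ∣ p.2 - z'),
            ∑ k' ∈ Finset.range n, st_c ρ N k p.1 * st_c ρ N k' p.2 * V (jj K p) k k' := by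
            refine Finset.sum_congr rfl fun k _ => ?_
            rw [Finset.sum_comm]
        _ = _ := by rw [Finset.sum_comm]
    rw [Finset.sum_congr rfl fun j _ => h1 j, Finset.sum_comm (s := Finset.range (J + 1)),
      Finset.sum_filter]
    refine Finset.sum_congr rfl fun p _ => ?_
    by_cases hp : jj K p ≤ J ∧ (r : GaussianInt) ∣ p.1 - z ∧ (r : GaussianInt) ∣ p.2 - z'
    · rw [if_pos hp]
      symm
      rw [Finset.sum_eq_single (jj K p)]
      · rw [if_pos ⟨rfl, hp.2⟩]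
      · intro j _ hj
        rw [if_neg (fun h => hj h.1.symm)]
      · intro h
        exact absurd (Finset.mem_range.2 (Nat.lt_succ_of_le hp.1)) h
    · rw [if_neg hp]
      symm
      apply Finset.sum_eq_zero
      intro j hj
      rw [if_neg]
      rintro ⟨h2, h3⟩
      exact hp ⟨by rw [h2]; exact Nat.lt_succ_iff.1 (Finset.mem_range.1 hj), h3⟩
  rw [hT]
  -- the inner sums
  have hin : ∀ j k : ℕ, k ∈ Finset.range n → ∀ k' ∈ Finset.range n,
      |∑ p ∈ (VV N ×ˢ VV N).filter (fun p : GaussianInt × GaussianInt => jj K p = j ∧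
          (r : GaussianInt) ∣ p.1 - z ∧ (r : GaussianInt) ∣ p.2 - z'),
          st_c ρ N k p.1 * st_c ρ N k' p.2| ≤ B * S := by
    intro j k hk k' hk'
    have h2 : ∑ p ∈ (pann (ρ k * N) (ρ (k + 1) * N) ×ˢ pann (ρ k' * N) (ρ (k' + 1) * N)).filter
        (fun p : GaussianInt × GaussianInt => jj K p = j ∧
          (r : GaussianInt) ∣ p.1 - z ∧ (r : GaussianInt) ∣ p.2 - z'), lam p.1 * lam p.2 =
        ∑ p ∈ (VV N ×ˢ VV N).filter (fun p : GaussianInt × GaussianInt => jj K p = j ∧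
          (r : GaussianInt) ∣ p.1 - z ∧ (r : GaussianInt) ∣ p.2 - z'),
          st_c ρ N k p.1 * st_c ρ N k' p.2 := by
      apply Finset.sum_subset_zero_on_sdiff
      · intro p hp
        rw [Finset.mem_filter, Finset.mem_product] at hp ⊢
        exact ⟨⟨hsub k hk hp.1.1, hsub k' hk' hp.1.2⟩, hp.2⟩
      · intro p hp
        rw [Finset.mem_sdiff, Finset.mem_filter, Finset.mem_filter, Finset.mem_product,
          Finset.mem_product] at hp
        by_cases h3 : p.1 ∈ pann (ρ k * N) (ρ (k + 1) * N)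
        · have h4 : p.2 ∉ pann (ρ k' * N) (ρ (k' + 1) * N) := fun h4 =>
            hp.2 ⟨⟨h3, h4⟩, hp.1.2⟩
          rw [hmem k' hk' p.2 hp.1.1.2] at h4
          have : st_c ρ N k' p.2 = 0 := by unfold st_c; rw [if_neg h4]
          rw [this, mul_zero]
        · rw [hmem k hk p.1 hp.1.1.1] at h3
          have : st_c ρ N k p.1 = 0 := by unfold st_c; rw [if_neg h3]
          rw [this, zero_mul]
      · intro p hp
        rw [Finset.mem_filter, Finset.mem_product] at hp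
        have h3 := (hmem k hk p.1 (hsub k hk hp.1.1)).1 hp.1.1
        have h4 := (hmem k' hk' p.2 (hsub k' hk' hp.1.2)).1 hp.1.2
        unfold st_c
        rw [if_pos h3, if_pos h4]
    rw [← h2]
    have h5 := hP N K j r B z z' (ρ k) (ρ (k + 1)) (ρ k') (ρ (k' + 1)) hK (fun i => by
      refine le_trans ?_ (hB i)
      exact_mod_cast Finset.card_le_card (Finset.filter_subset_filter _ (hsub k hk)))
    exact h5.trans (mul_le_mul_of_nonneg_left (hM k' hk') hB0)
  calc _ ≤ ∑ j ∈ Finset.range (J + 1), |∑ k ∈ Finset.range n, ∑ k' ∈ Finset.range n, V j k k' *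
        ∑ p ∈ (VV N ×ˢ VV N).filter (fun p : GaussianInt × GaussianInt => jj K p = j ∧
          (r : GaussianInt) ∣ p.1 - z ∧ (r : GaussianInt) ∣ p.2 - z'),
          st_c ρ N k p.1 * st_c ρ N k' p.2| := Finset.abs_sum_le_sum_abs _ _
    _ ≤ ∑ _j ∈ Finset.range (J + 1), (n * (n * (L * (B * S)))) := by
        refine Finset.sum_le_sum fun j _ => ?_
        refine (Finset.abs_sum_le_sum_abs _ _).trans ?_
        calc _ ≤ ∑ _k ∈ Finset.range n, (n * (L * (B * S))) := by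
              refine Finset.sum_le_sum fun k hk => ?_
              refine (Finset.abs_sum_le_sum_abs _ _).trans ?_
              calc _ ≤ ∑ _k' ∈ Finset.range n, (L * (B * S)) := by
                    refine Finset.sum_le_sum fun k' hk' => ?_
                    rw [abs_mul]
                    exact mul_le_mul (hV j k k') (hin j k hk k' hk') (abs_nonneg _) hL
                _ = _ := by rw [Finset.sum_const, Finset.card_range, nsmul_eq_mul]
          _ = _ := by rw [Finset.sum_const, Finset.card_range, nsmul_eq_mul]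
    _ = _ := by rw [Finset.sum_const, Finset.card_range, nsmul_eq_mul]

private lemma st_class {r : ℕ} (hr : 1 ≤ r) (z' : GaussianInt) :
    ∃ x y : ℕ, x < r ∧ y < r ∧ ∀ w : GaussianInt, (r : GaussianInt) ∣ w - z' ↔
      (r : GaussianInt) ∣ w - (⟨(x : ℤ), (y : ℤ)⟩ : GaussianInt) := by
  have hr0 : (r : ℤ) ≠ 0 := by exact_mod_cast (by omega : r ≠ 0)
  have h1 := Int.emod_nonneg z'.re hr0
  have h2 := Int.emod_nonneg z'.im hr0
  have h3 := Int.emod_lt_of_pos z'.re (show (0 : ℤ) < r by exact_mod_cast hr)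
  have h4 := Int.emod_lt_of_pos z'.im (show (0 : ℤ) < r by exact_mod_cast hr)
  refine ⟨(z'.re % r).toNat, (z'.im % r).toNat, by omega, by omega, fun w => ?_⟩
  rw [Int.toNat_of_nonneg h1, Int.toNat_of_nonneg h2]
  have hd : (r : GaussianInt) ∣ z' - (⟨z'.re % r, z'.im % r⟩ : GaussianInt) := by
    refine ⟨⟨z'.re / r, z'.im / r⟩, ?_⟩
    have e1 := Int.emod_add_mul_ediv z'.re r
    have e2 := Int.emod_add_mul_ediv z'.im r
    apply Zsqrtd.ext
    · simp
      linarith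
    · simp
      linarith
  have e : w - (⟨z'.re % r, z'.im % r⟩ : GaussianInt) = (w - z') +
      (z' - (⟨z'.re % r, z'.im % r⟩ : GaussianInt)) := by ring
  rw [e, dvd_add_left hd]

/-- **STRUCT** (from `STGEOStmt`, `STCNTStmt`, `STPAIRStmt`, `MRCStmt`). Choose `η`, `n` with
`L C (1/n + η)` small, `J = ⌈C2/(a η)⌉ + 2`, then the accuracy of `MRC`, `P0` (`η P0 ≥ H0`, `≥ 1`),
`N0`; `K = ⌊N/(η P)⌋`. For `jj p = j > J` the weight is `0` (`LipW.hi`, `LipW.lo`); for `j ≤ J` split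
the norms into `n` cells `(ρ_k N, ρ_{k+1} N]`, `ρ_k = a + (a' - a) k/n`, and replace the weight by its
value at `(ρ_k, ρ_k', 2 π η j √(ρ_k ρ_k'))`, with error `≤ L C (1/n + η)` for each of the at most
`(J + 1) #(VV N) C (1 + N/K) ≤ C N P` pairs. Main part: `STPAIR` with `B = C (1 + N/K)` for each
`j, k, k'`, and `MRC`. -/
theorem STRUCTp (hG : STGEOStmt) (hN : STCNTStmt) (hP : STPAIRStmt) (hM : MRCStmt) : STRUCTStmt := by
  classical
  intro a a' κ C2 L ε r ha haa' ha1 hκ hC2 hL hε hr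
  obtain ⟨C, hC, hCN⟩ := hN
  -- constants
  obtain ⟨Y, hY⟩ : ∃ Y : ℝ, Y = C2 / a + 4 := ⟨_, rfl⟩
  have hY0 : 0 < Y := by rw [hY]; positivity
  obtain ⟨e1, he1⟩ : ∃ e1 : ℝ, e1 = ε / (12 * C ^ 2 * Y * L) := ⟨_, rfl⟩
  have he10 : 0 < e1 := by rw [he1]; positivity
  obtain ⟨η, hη⟩ : ∃ η : ℝ, η = min 1 (e1 / 16) := ⟨_, rfl⟩
  have hη0 : 0 < η := by rw [hη]; exact lt_min one_pos (by positivity)
  have hη1 : η ≤ 1 := by rw [hη]; exact min_le_left _ _
  have hη2 : 8 * η ≤ e1 / 2 := by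
    have : η ≤ e1 / 16 := by rw [hη]; exact min_le_right _ _
    linarith
  obtain ⟨n, hn⟩ := exists_nat_gt (2 * (2 + 2 * π * Y / a) / e1)
  have hn00 : (0 : ℝ) < n := lt_trans (by positivity) hn
  have hn0 : 0 < n := by exact_mod_cast hn00
  have hn1 : (2 + 2 * π * Y / a) / n ≤ e1 / 2 := by
    rw [div_lt_iff₀ he10] at hn
    rw [div_le_iff₀ hn00]
    linarith
  obtain ⟨J, hJ⟩ : ∃ J : ℕ, J = ⌈C2 / (a * η)⌉₊ + 2 := ⟨_, rfl⟩
  have hJ1 : C2 / (a * η) + 2 ≤ J := by
    rw [hJ]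
    push_cast
    linarith [Nat.le_ceil (C2 / (a * η))]
  have hJ2 : ((J + 1 : ℕ) : ℝ) * η ≤ Y := by
    have h1 : (⌈C2 / (a * η)⌉₊ : ℝ) < C2 / (a * η) + 1 := Nat.ceil_lt_add_one (by positivity)
    have h2 : ((J + 1 : ℕ) : ℝ) ≤ C2 / (a * η) + 4 := by
      rw [hJ]; push_cast; linarith
    have h3 := mul_le_mul_of_nonneg_right h2 hη0.le
    refine h3.trans ?_
    rw [add_mul, hY]
    have h4 : C2 / (a * η) * η = C2 / a := by field_simp
    rw [h4]
    linarith
  obtain ⟨ε', hε'⟩ : ∃ ε' : ℝ, ε' = ε / (6 * C * Y * L * n ^ 2) := ⟨_, rfl⟩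
  have hε'0 : 0 < ε' := by rw [hε']; positivity
  obtain ⟨ρ, hρ⟩ : ∃ ρ : ℕ → ℝ, ρ = fun k : ℕ => a + (a' - a) * ((k : ℝ) / n) := ⟨_, rfl⟩
  have hρ0 : ρ 0 = a := by rw [hρ]; simp
  have hρn : ρ n = a' := by
    rw [hρ]
    simp only
    rw [div_self hn00.ne']
    ring
  have hρm : Monotone ρ := by
    intro k l hkl
    rw [hρ]
    simp only
    have h1 : (k : ℝ) ≤ l := by exact_mod_cast hkl
    have h2 : (k : ℝ) / n ≤ l / n := div_le_div_of_nonneg_right h1 hn00.le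
    have := mul_le_mul_of_nonneg_left h2 (show 0 ≤ a' - a by linarith)
    linarith
  have hρs : ∀ k : ℕ, ρ (k + 1) - ρ k ≤ 1 / n := by
    intro k
    rw [hρ]
    simp only
    have e : a + (a' - a) * (((k + 1 : ℕ) : ℝ) / n) - (a + (a' - a) * ((k : ℝ) / n)) =
        (a' - a) * (1 / n) := by
      push_cast; ring
    rw [e]
    have h1 : a' - a ≤ 1 := by linarith
    have := mul_le_mul_of_nonneg_right h1 (show 0 ≤ 1 / (n : ℝ) by positivity)
    linarith
  have hρa : ∀ k : ℕ, a ≤ ρ k := fun k => by rw [← hρ0]; exact hρm (Nat.zero_le k)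
  have hρ1 : ∀ k : ℕ, k ≤ n → ρ k ≤ 1 := fun k hk => by
    have := hρm hk
    rw [hρn] at this
    linarith
  -- Matomaki-Radziwill for all the classes and cells
  have hM' : ∀ q : ℕ × ℕ × ℕ, ∃ H0 N0 : ℕ, q.2.2 < n → ∀ N : ℕ, N0 ≤ N → ∀ K : ℕ, 1 ≤ K →
      K * H0 ≤ N → ∑ i ∈ Finset.range K, |∑ z ∈ (pann (ρ q.2.2 * N) (ρ (q.2.2 + 1) * N)).filter
      (fun z => (r : GaussianInt) ∣ z - (⟨(q.1 : ℤ), (q.2.1 : ℤ)⟩ : GaussianInt) ∧ arcI K z = i),
      lam z| ≤ ε' * N := by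
    intro q
    by_cases hq : q.2.2 < n
    · obtain ⟨H0, N0, h⟩ := hM r hr (⟨(q.1 : ℤ), (q.2.1 : ℤ)⟩ : GaussianInt) (ρ q.2.2)
        (ρ (q.2.2 + 1)) (ha.le.trans (hρa _)) (hρm (Nat.le_succ _)) (hρ1 _ hq) ε' hε'0
      exact ⟨H0, N0, fun _ => h⟩
    · exact ⟨0, 0, fun h => absurd h hq⟩
  choose H0 N0 hHN using hM'
  obtain ⟨Q, hQ⟩ : ∃ Q : Finset (ℕ × ℕ × ℕ), Q = Finset.range r ×ˢ Finset.range r ×ˢ
    Finset.range n := ⟨_, rfl⟩
  obtain ⟨P0, hP0⟩ := exists_nat_ge ((1 + ((Q.sup H0 : ℕ) : ℝ)) / η)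
  refine ⟨P0, fun P hPP => ?_⟩
  have hηP : 1 + ((Q.sup H0 : ℕ) : ℝ) ≤ η * P := by
    have h1 : (P0 : ℝ) ≤ P := by exact_mod_cast hPP
    have h2 := hP0.trans h1
    rw [div_le_iff₀ hη0] at h2
    linarith
  have hH0 : (0 : ℝ) ≤ ((Q.sup H0 : ℕ) : ℝ) := Nat.cast_nonneg _
  have hηP1 : 1 ≤ η * P := by linarith
  have hPpos : (0 : ℝ) < P := by
    by_contra h
    have : (P : ℝ) ≤ 0 := not_lt.1 h
    nlinarith
  have hP1 : 1 ≤ P := by exact_mod_cast hPpos
  obtain ⟨NG, hNG⟩ := hG a C2 η J P ha (by linarith) hη0 hη1 hC2 hJ1 hP1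
  obtain ⟨N1, hN1⟩ := exists_nat_ge (η * P)
  refine ⟨max NG (max (Q.sup N0) N1), fun N hNN Φ hΦ z z' => ?_⟩
  have hNG' : NG ≤ N := (le_max_left _ _).trans hNN
  have hNQ : Q.sup N0 ≤ N := (le_max_left _ _).trans ((le_max_right _ _).trans hNN)
  have hN1' : η * P ≤ N := hN1.trans (by
    exact_mod_cast (le_max_right _ _).trans ((le_max_right _ _).trans hNN))
  have hNpos : (0 : ℝ) < N := by linarith
  have hNnat : 1 ≤ N := by exact_mod_cast hNpos
  obtain ⟨K, hK⟩ : ∃ K : ℕ, K = ⌊(N : ℝ) / (η * P)⌋₊ := ⟨_, rfl⟩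
  have hX1 : 1 ≤ (N : ℝ) / (η * P) := by rw [le_div_iff₀ (by linarith)]; linarith
  have hKX : (K : ℝ) ≤ N / (η * P) := by rw [hK]; exact Nat.floor_le (by linarith)
  have hK1 : 1 ≤ K := by rw [hK]; exact Nat.le_floor (by exact_mod_cast hX1)
  have hK1' : (1 : ℝ) ≤ K := by exact_mod_cast hK1
  have hXK : (N : ℝ) / (η * P) < K + 1 := by rw [hK]; exact Nat.lt_floor_add_one _
  have hKN : (K : ℝ) ≤ N := by
    refine hKX.trans ?_
    rw [div_le_iff₀ (by linarith)]
    nlinarith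
  have hNK : (N : ℝ) / K ≤ 2 * (η * P) := by
    rw [div_le_iff₀ (by linarith)]
    rw [div_lt_iff₀ (by linarith)] at hXK
    nlinarith
  have hKH : K * Q.sup H0 ≤ N := by
    have h1 : (K : ℝ) * (Q.sup H0 : ℕ) ≤ N / (η * P) * (η * P) :=
      mul_le_mul hKX (by linarith) hH0 (by positivity)
    rw [div_mul_cancel₀ _ (by positivity)] at h1
    exact_mod_cast h1
  obtain ⟨B, hBdef⟩ : ∃ B : ℝ, B = C * (1 + N / K) := ⟨_, rfl⟩
  have hB : ∀ i : ℕ, (((VV N).filter (fun z => arcI K z = i)).card : ℝ) ≤ B := by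
    intro i
    rw [hBdef]
    exact hCN N K i hNnat hK1
  have hB0 : 0 ≤ B := le_trans (Nat.cast_nonneg _) (hB 0)
  have hB1 : B ≤ 3 * C * (η * P) := by
    rw [hBdef]
    have := mul_le_mul_of_nonneg_left (show 1 + (N : ℝ) / K ≤ 3 * (η * P) by linarith) hC.le
    linarith
  have hKB : K * B ≤ 2 * C * N := by
    rw [hBdef]
    have e : (K : ℝ) * (C * (1 + N / K)) = C * (K + N) := by field_simp
    rw [e]
    have := mul_le_mul_of_nonneg_left (show (K : ℝ) + N ≤ 2 * N by linarith) hC.le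
    linarith
  have hJB : ((J + 1 : ℕ) : ℝ) * B ≤ 3 * C * Y * P := by
    calc ((J + 1 : ℕ) : ℝ) * B ≤ ((J + 1 : ℕ) : ℝ) * (3 * C * (η * P)) :=
          mul_le_mul_of_nonneg_left hB1 (Nat.cast_nonneg _)
      _ = (((J + 1 : ℕ) : ℝ) * η) * (3 * C * P) := by ring
      _ ≤ Y * (3 * C * P) := mul_le_mul_of_nonneg_right hJ2 (by positivity)
      _ = _ := by ring
  -- restriction to the arcs at distance at most `J`
  have hVV : ∀ w ∈ VV N, (nN w : ℝ) ≤ N := by
    intro w hw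
    unfold VV at hw
    rw [mem_pann hNpos.le] at hw
    exact hw.1.2
  have hfc : ∀ w : GaussianInt, fc a a' N w ≠ 0 → a * N < nN w ∧ (nN w : ℝ) ≤ a' * N := by
    intro w hw
    by_contra h
    apply hw
    unfold fc
    rw [if_neg h]
  have hstep1 : ∑ p ∈ (VV N ×ˢ VV N).filter (fun p : GaussianInt × GaussianInt =>
        0 < dotG p.1 p.2 ∧ (r : GaussianInt) ∣ p.1 - z ∧ (r : GaussianInt) ∣ p.2 - z'),
      fc a a' N p.1 * fc a a' N p.2 *
        Φ ((nN p.1 : ℝ) / N) ((nN p.2 : ℝ) / N) ((crossG p.1 p.2 : ℝ) / P) =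
      ∑ p ∈ (VV N ×ˢ VV N).filter (fun p : GaussianInt × GaussianInt => jj K p ≤ J ∧
        (r : GaussianInt) ∣ p.1 - z ∧ (r : GaussianInt) ∣ p.2 - z'),
      fc a a' N p.1 * fc a a' N p.2 *
        Φ ((nN p.1 : ℝ) / N) ((nN p.2 : ℝ) / N) ((crossG p.1 p.2 : ℝ) / P) := by
    rw [Finset.sum_filter, Finset.sum_filter]
    refine Finset.sum_congr rfl fun p hp => ?_
    rw [Finset.mem_product] at hp
    by_cases hf : fc a a' N p.1 * fc a a' N p.2 = 0
    · rw [hf, zero_mul]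
      split_ifs <;> rfl
    · have hf1 := hfc p.1 (left_ne_zero_of_mul hf)
      have hf2 := hfc p.2 (right_ne_zero_of_mul hf)
      obtain ⟨g1, g2⟩ := hNG N hNG' p.1 hp.1 p.2 hp.2 hf1.1 hf2.1 K hK
      by_cases hj : jj K p ≤ J
      · have hd := (g1 hj).1
        by_cases hcl : (r : GaussianInt) ∣ p.1 - z ∧ (r : GaussianInt) ∣ p.2 - z'
        · rw [if_pos ⟨hd, hcl⟩, if_pos ⟨hj, hcl⟩]
        · rw [if_neg (fun h => hcl h.2), if_neg (fun h => hcl h.2)]
      · rw [if_neg (fun h : jj K p ≤ J ∧ _ => hj h.1)]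
        by_cases hd : 0 < dotG p.1 p.2
        · have hz : Φ ((nN p.1 : ℝ) / N) ((nN p.2 : ℝ) / N) ((crossG p.1 p.2 : ℝ) / P) = 0 := by
            by_cases hcr : 0 < crossG p.1 p.2
            · have g3 := g2 (not_le.1 hj) hd hcr
              apply hΦ.hi
              · positivity
              · positivity
              · rw [div_le_one hNpos]; exact hVV _ hp.1
              · rw [div_le_one hNpos]; exact hVV _ hp.2
              · rw [le_div_iff₀ hPpos]; exact g3.le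
            · apply hΦ.lo
              have : (crossG p.1 p.2 : ℝ) ≤ 0 := by exact_mod_cast not_lt.1 hcr
              exact (div_nonpos_of_nonpos_of_nonneg this hPpos.le).trans hκ.le
          rw [hz, mul_zero]
          split_ifs <;> rfl
        · rw [if_neg (fun h : 0 < dotG p.1 p.2 ∧ _ => hd h.1)]
  rw [hstep1]
  -- the main term
  obtain ⟨V, hVdef⟩ : ∃ V : ℕ → ℕ → ℕ → ℝ, V = fun (j k k' : ℕ) =>
    Φ (ρ k) (ρ k') (2 * π * η * (j : ℝ) * √(ρ k * ρ k')) := ⟨_, rfl⟩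
  have hcell : ∀ k : ℕ, ∀ w : GaussianInt, ρ k * N < nN w → (nN w : ℝ) ≤ ρ (k + 1) * N →
      a ≤ (nN w : ℝ) / N ∧ |(nN w : ℝ) / N - ρ k| ≤ 1 / n := by
    intro k w h1 h2
    have h3 : ρ k ≤ (nN w : ℝ) / N := by rw [le_div_iff₀ hNpos]; exact h1.le
    have h4 : (nN w : ℝ) / N ≤ ρ (k + 1) := by rw [div_le_iff₀ hNpos]; exact h2
    refine ⟨(hρa k).trans h3, ?_⟩
    rw [abs_of_nonneg (by linarith)]
    linarith [hρs k]
  have hFG : ∀ p ∈ (VV N ×ˢ VV N).filter (fun p : GaussianInt × GaussianInt => jj K p ≤ J ∧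
        (r : GaussianInt) ∣ p.1 - z ∧ (r : GaussianInt) ∣ p.2 - z'),
      |fc a a' N p.1 * fc a a' N p.2 *
        Φ ((nN p.1 : ℝ) / N) ((nN p.2 : ℝ) / N) ((crossG p.1 p.2 : ℝ) / P) -
        ∑ k ∈ Finset.range n, ∑ k' ∈ Finset.range n,
          st_c ρ N k p.1 * st_c ρ N k' p.2 * V (jj K p) k k'| ≤ L * e1 := by
    intro p hp
    rw [Finset.mem_filter, Finset.mem_product] at hp
    have h := st_FG ρ hρm N n p.1 p.2
      (Φ ((nN p.1 : ℝ) / N) ((nN p.2 : ℝ) / N) ((crossG p.1 p.2 : ℝ) / P)) (L * e1)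
      (by positivity) (V (jj K p)) (by
        intro k hk k' hk' c1 c2 c3 c4
        have hk1 := Finset.mem_range.1 hk
        have hk1' := Finset.mem_range.1 hk'
        obtain ⟨d1, d2⟩ := hcell k p.1 c1 c2
        obtain ⟨d3, d4⟩ := hcell k' p.2 c3 c4
        have f1 : a * N < nN p.1 := lt_of_le_of_lt (mul_le_mul_of_nonneg_right (hρa k) hNpos.le) c1
        have f2 : a * N < nN p.2 := lt_of_le_of_lt (mul_le_mul_of_nonneg_right (hρa k') hNpos.le) c3
        obtain ⟨g1, -⟩ := hNG N hNG' p.1 hp.1.1 p.2 hp.1.2 f1 f2 K hK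
        have g3 := (g1 hp.2.1).2
        have hc0 : 0 ≤ 2 * π * η * (jj K p : ℝ) := by positivity
        have h5 := st_geo hΦ ha hL.le d1 (by rw [div_le_one hNpos]; exact hVV _ hp.1.1) d3
          (by rw [div_le_one hNpos]; exact hVV _ hp.1.2) (hρa k) (hρ1 k hk1.le) (hρa k')
          (hρ1 k' hk1'.le) hc0 g3 d2 d4
        rw [hVdef]
        refine h5.trans (mul_le_mul_of_nonneg_left ?_ hL.le)
        have h6 : η * (jj K p : ℝ) ≤ Y := by
          refine le_trans ?_ hJ2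
          rw [mul_comm]
          apply mul_le_mul_of_nonneg_right _ hη0.le
          exact_mod_cast hp.2.1.trans (Nat.le_succ J)
        have h7 : 2 * π * η * (jj K p : ℝ) * (1 / n / a) ≤ 2 * π * Y * (1 / n / a) := by
          apply mul_le_mul_of_nonneg_right _ (by positivity)
          calc 2 * π * η * (jj K p : ℝ) = 2 * π * (η * (jj K p : ℝ)) := by ring
            _ ≤ 2 * π * Y := mul_le_mul_of_nonneg_left h6 (by positivity)
        have h8 : 2 * (1 / (n : ℝ)) + 2 * π * Y * (1 / n / a) = (2 + 2 * π * Y / a) / n := by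
          field_simp
        linarith)
    rw [hρ0, hρn] at h
    exact h
  have hmain := st_main (N := N) (K := K) (J := J) (n := n) (r := r) ρ (by rw [hρ0]; exact ha.le)
    hρm (by rw [hρn]; exact ha1) hK1 hP z z' V (L := L) (B := B) (S := ε' * N) hL.le
    (fun j k k' => by rw [hVdef]; exact hΦ.bd _ _ _) hB (by
      obtain ⟨x, y, hx, hy, hxy⟩ := st_class hr z'
      intro k hk
      have hq : ((x, y, k) : ℕ × ℕ × ℕ) ∈ Q := by
        rw [hQ, Finset.mem_product, Finset.mem_product]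
        exact ⟨Finset.mem_range.2 hx, Finset.mem_range.2 hy, hk⟩
      have h := hHN (x, y, k) (Finset.mem_range.1 hk) N
        ((Finset.le_sup (f := N0) hq).trans hNQ) K hK1
        ((Nat.mul_le_mul_left K (Finset.le_sup (f := H0) hq)).trans hKH)
      simp only [hxy]
      exact h)
  -- conclusion
  have hcard : (((VV N ×ˢ VV N).filter (fun p : GaussianInt × GaussianInt => jj K p ≤ J ∧
        (r : GaussianInt) ∣ p.1 - z ∧ (r : GaussianInt) ∣ p.2 - z')).card : ℝ) ≤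
      (2 * C * N) * (3 * C * Y * P) := by
    have h1 : ((VV N ×ˢ VV N).filter (fun p : GaussianInt × GaussianInt => jj K p ≤ J ∧
        (r : GaussianInt) ∣ p.1 - z ∧ (r : GaussianInt) ∣ p.2 - z')).card ≤
        ((VV N ×ˢ VV N).filter (fun p : GaussianInt × GaussianInt => jj K p ≤ J)).card := by
      apply Finset.card_le_card
      intro p hp
      rw [Finset.mem_filter] at hp ⊢
      exact ⟨hp.1, hp.2.1⟩
    have h2 := st_count_pairs hK1 hB J
    calc _ ≤ (((VV N ×ˢ VV N).filter (fun p : GaussianInt × GaussianInt =>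
          jj K p ≤ J)).card : ℝ) := by exact_mod_cast h1
      _ ≤ (K * B) * ((J + 1 : ℕ) * B) := h2
      _ ≤ (2 * C * N) * (3 * C * Y * P) :=
          mul_le_mul hKB hJB (mul_nonneg (Nat.cast_nonneg _) hB0) (by positivity)
  have hfin1 : ((J + 1 : ℕ) : ℝ) * (n * (n * (L * (B * (ε' * N))))) ≤ ε / 2 * (N * P) := by
    calc ((J + 1 : ℕ) : ℝ) * (n * (n * (L * (B * (ε' * N))))) =
          (((J + 1 : ℕ) : ℝ) * B) * (n ^ 2 * L * ε' * N) := by ring
      _ ≤ (3 * C * Y * P) * (n ^ 2 * L * ε' * N) :=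
          mul_le_mul_of_nonneg_right hJB (by positivity)
      _ = ε / 2 * (N * P) := by
          rw [hε']
          field_simp
          ring
  have hfin2 : (2 * C * N) * (3 * C * Y * P) * (L * e1) ≤ ε / 2 * (N * P) := by
    rw [he1]
    apply le_of_eq
    field_simp
    ring
  calc _ = |∑ p ∈ (VV N ×ˢ VV N).filter (fun p : GaussianInt × GaussianInt => jj K p ≤ J ∧
        (r : GaussianInt) ∣ p.1 - z ∧ (r : GaussianInt) ∣ p.2 - z'),
        ∑ k ∈ Finset.range n, ∑ k' ∈ Finset.range n,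
          st_c ρ N k p.1 * st_c ρ N k' p.2 * V (jj K p) k k' +
        ∑ p ∈ (VV N ×ˢ VV N).filter (fun p : GaussianInt × GaussianInt => jj K p ≤ J ∧
        (r : GaussianInt) ∣ p.1 - z ∧ (r : GaussianInt) ∣ p.2 - z'),
        (fc a a' N p.1 * fc a a' N p.2 *
        Φ ((nN p.1 : ℝ) / N) ((nN p.2 : ℝ) / N) ((crossG p.1 p.2 : ℝ) / P) -
        ∑ k ∈ Finset.range n, ∑ k' ∈ Finset.range n,
          st_c ρ N k p.1 * st_c ρ N k' p.2 * V (jj K p) k k')| := by
        rw [← Finset.sum_add_distrib]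
        congr 1
        refine Finset.sum_congr rfl fun p _ => ?_
        ring
    _ ≤ ((J + 1 : ℕ) : ℝ) * (n * (n * (L * (B * (ε' * N))))) +
        (2 * C * N) * (3 * C * Y * P) * (L * e1) := by
        refine (abs_add_le _ _).trans (add_le_add hmain ?_)
        refine (Finset.abs_sum_le_sum_abs _ _).trans ?_
        refine (Finset.sum_le_sum hFG).trans ?_
        rw [Finset.sum_const, nsmul_eq_mul]
        exact mul_le_mul_of_nonneg_right hcard (by positivity)
    _ ≤ ε / 2 * (N * P) + ε / 2 * (N * P) := add_le_add hfin1 hfin2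
    _ = ε * N * P := by ring

end Pool.Agent.LogCh
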