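import Mathlib
import Pool.Agent.Lib.LogCh.EDefs

/-!
# Log-averaged cancellation at `n ^ 2 + 1`: module E.E3A
-/

set_option autoImplicit false

namespace Pool.Agent.LogCh

open Real
open Pool.Agent.NSqP
open Pool.Agent.MP484c84Par (ballG mem_ballG crossG dotG)

private lemma e3a_alg {al be D dot U U' nv aN : ℝ} (hal : 0 < al) (hbe : 0 < be) (hD : 0 < D)
    (hdot : 0 < dot) (hU : 0 < U) (hU' : 0 < U') (haN : 0 < aN) (hUa : aN ≤ U ^ 2)
    (hUa' : aN ≤ U' ^ 2) (h1 : U ^ 2 * U' ^ 2 = dot ^ 2 + D ^ 2)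
    (h2 : D ^ 2 * nv = al ^ 2 * U' ^ 2 + be ^ 2 * U ^ 2 - 2 * (al * be) * dot)
    (h3 : be * U ^ 2 < al * dot) :
    0 < al * U' - be * U ∧ (al * U' - be * U) ^ 2 ≤ D ^ 2 * nv ∧
      D ^ 2 * nv - 2 * (al * be) * (D ^ 2 / aN) ≤ (al * U' - be * U) ^ 2 := by
  have hUU : 0 < U * U' := mul_pos hU hU'
  have hd : dot ≤ U * U' := by
    have : dot ^ 2 ≤ (U * U') ^ 2 := by nlinarith
    exact (pow_le_pow_iff_left₀ hdot.le hUU.le two_ne_zero).1 this
  have hab : 0 < al * be := mul_pos hal hbe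
  have haU : aN ≤ U * U' := by
    have : aN ^ 2 ≤ (U * U') ^ 2 := by
      rw [mul_pow, pow_two]
      exact mul_le_mul hUa hUa' haN.le (by positivity)
    exact (pow_le_pow_iff_left₀ haN.le hUU.le two_ne_zero).1 this
  have hL : D ^ 2 * nv = (al * U' - be * U) ^ 2 + 2 * (al * be) * (U * U' - dot) := by
    rw [h2]; ring
  refine ⟨?_, ?_, ?_⟩
  · have h4 : be * U ^ 2 < al * (U * U') := h3.trans_le (mul_le_mul_of_nonneg_left hd hal.le)
    have h5 : 0 < (al * U' - be * U) * U := by nlinarith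
    exact (mul_pos_iff_of_pos_right hU).1 h5
  · rw [hL]
    have : 0 ≤ 2 * (al * be) * (U * U' - dot) := mul_nonneg (by positivity) (by linarith)
    linarith
  · have h6 : U * U' - dot ≤ D ^ 2 / aN := by
      rw [le_div_iff₀ haN]
      have h7 : (U * U' - dot) * (U * U' + dot) = D ^ 2 := by nlinarith
      have h8 : 0 ≤ U * U' - dot := by linarith
      nlinarith
    have h9 := mul_le_mul_of_nonneg_left h6 (by positivity : 0 ≤ 2 * (al * be))
    linarith

/-- **E3a**: upper bound for `TT`. Proof: `v ↦ (u × v, u' × v) = (α, β)` is injective on the set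
counted by `TT` and `D v = α u' - β u`, so `D ∣ c α - β` (`COF`);
`D² N v = (α|u'| - β|u|)² + 2 α β (|u||u'| - <u,u'>)` and
`0 ≤ |u||u'| - <u,u'> = D² / (|u||u'| + <u,u'>) ≤ D² / (a N)`; moreover
`D <u,v> = α <u,u'> - β |u|² > 0` gives `α|u'| - β|u| > 0`. -/
theorem E3ap (hC : COFStmt) : E3aStmt := by
  classical
  intro C1 C2 P a b b' ι hP ha hb hb' hι
  have hsb : 0 < √b := Real.sqrt_pos.2 hb
  obtain ⟨N0, hN0⟩ := exists_nat_ge (2 * ((C1 : ℝ) * P) ^ 2 / (a * (ι * √b)))
  refine ⟨N0 + 1, fun N hN A hA D hD p hp => ?_⟩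
  have hN1 : 1 ≤ N := by omega
  have hNr : (0 : ℝ) < N := by exact_mod_cast hN1
  have hNr1 : (1 : ℝ) ≤ N := by exact_mod_cast hN1
  have hD1 : 1 ≤ D := (Finset.mem_Icc.1 hD).1
  have hDr : (0 : ℝ) < D := by exact_mod_cast hD1
  unfold lpairs at hp
  rw [Finset.mem_filter] at hp
  obtain ⟨hpd, hpa, hpa'⟩ := hp
  have hcof := (hC D N hD1 p hpd).2.2.2
  unfold dpairs at hpd
  rw [Finset.mem_filter] at hpd
  obtain ⟨_, hcr, hdt⟩ := hpd
  unfold TT
  refine Finset.card_le_card_of_injOn (fun v => ((crossG p.1 v).toNat, (crossG p.2 v).toNat)) ?_ ?_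
  · intro v hv
    rw [Finset.mem_coe, Finset.mem_filter] at hv
    obtain ⟨_, hv1, hv2, hd1, hd2, ⟨q, hqA, hq⟩, ⟨q', hqA', hq'⟩⟩ := hv
    rw [Finset.mem_coe, Finset.mem_filter, Finset.mem_product]
    have e1 : (crossG p.1 v).toNat = q := by rw [hq]; exact Int.toNat_natCast q
    have e2 : (crossG p.2 v).toNat = q' := by rw [hq']; exact Int.toNat_natCast q'
    simp only [e1, e2]
    have hqQ := hA hqA
    have hqQ' := hA hqA'
    unfold QQ at hqQ hqQ'
    rw [Finset.mem_filter, Finset.mem_Ioc] at hqQ hqQ'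
    have hq0 : (0 : ℝ) < q := by exact_mod_cast (by omega : 0 < q)
    have hq0' : (0 : ℝ) < q' := by exact_mod_cast (by omega : 0 < q')
    have hqC : (q : ℝ) ≤ C1 * P := by exact_mod_cast hqQ.1.2
    have hqC' : (q' : ℝ) ≤ C1 * P := by exact_mod_cast hqQ'.1.2
    -- `D v = q u' - q' u`
    have hre : (D : ℤ) * v.re = q * p.2.re - q' * p.1.re := by
      rw [← hcr, ← hq, ← hq']; unfold crossG; ring
    have him : (D : ℤ) * v.im = q * p.2.im - q' * p.1.im := by
      rw [← hcr, ← hq, ← hq']; unfold crossG; ring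
    have hdvd : (D : GaussianInt) ∣
        ((q : ℤ) : GaussianInt) * p.2 - ((q' : ℤ) : GaussianInt) * p.1 := by
      refine ⟨v, ?_⟩
      refine Zsqrtd.ext ?_ ?_
      · simp
        linarith
      · simp
        linarith
    have hdiv := (hcof q q').1 hdvd
    -- real versions
    have hreR : (D : ℝ) * v.re = q * p.2.re - q' * p.1.re := by exact_mod_cast hre
    have himR : (D : ℝ) * v.im = q * p.2.im - q' * p.1.im := by exact_mod_cast him
    set dot : ℝ := ((dotG p.1 p.2 : ℤ) : ℝ) with hdotd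
    have hdotv : dot = p.1.re * p.2.re + p.1.im * p.2.im := by
      rw [hdotd]; unfold dotG; push_cast; ring
    have hdot0 : 0 < dot := by rw [hdotd]; exact_mod_cast hdt
    have hcrR : (p.1.re : ℝ) * p.2.im - p.1.im * p.2.re = D := by
      have : ((crossG p.1 p.2 : ℤ) : ℝ) = D := by rw [hcr]; simp
      rw [← this]; unfold crossG; push_cast; ring
    set U : ℝ := √(nN p.1) with hUd
    set U' : ℝ := √(nN p.2) with hUd'
    have hu0 : (0 : ℝ) < nN p.1 := lt_of_le_of_lt (by positivity) hpa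
    have hu0' : (0 : ℝ) < nN p.2 := lt_of_le_of_lt (by positivity) hpa'
    have hU : 0 < U := Real.sqrt_pos.2 hu0
    have hU' : 0 < U' := Real.sqrt_pos.2 hu0'
    have hU2 : U ^ 2 = nN p.1 := Real.sq_sqrt hu0.le
    have hU2' : U' ^ 2 = nN p.2 := Real.sq_sqrt hu0'.le
    have n1 := nN_real p.1
    have n2 := nN_real p.2
    have n3 := nN_real v
    have hvpos : 0 < ((dotG p.1 v : ℤ) : ℝ) := by exact_mod_cast hd1
    have hdv : ((dotG p.1 v : ℤ) : ℝ) = p.1.re * v.re + p.1.im * v.im := by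
      unfold dotG; push_cast; ring
    obtain ⟨r1, r2, r3⟩ := e3a_alg (al := q) (be := q') (D := D) (dot := dot) (U := U)
      (U' := U') (nv := nN v) (aN := a * N) hq0 hq0' hDr hdot0 hU hU' (by positivity)
      (by rw [hU2]; exact hpa.le) (by rw [hU2']; exact hpa'.le)
      (by rw [hU2, hU2', n1, n2, hdotv, ← hcrR]; ring)
      (by
        rw [hU2, hU2', n1, n2, n3, hdotv]
        have : (D : ℝ) ^ 2 * ((v.re : ℝ) ^ 2 + (v.im : ℝ) ^ 2) =
            ((D : ℝ) * v.re) ^ 2 + ((D : ℝ) * v.im) ^ 2 := by ring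
        rw [this, hreR, himR]
        ring)
      (by
        rw [hU2, n1, hdotv]
        have h5 : (D : ℝ) * ((dotG p.1 v : ℤ) : ℝ) =
            q * (p.1.re * p.2.re + p.1.im * p.2.im) -
              q' * ((p.1.re : ℝ) ^ 2 + (p.1.im : ℝ) ^ 2) := by
          rw [hdv]
          have : (D : ℝ) * (p.1.re * v.re + p.1.im * v.im) =
              p.1.re * ((D : ℝ) * v.re) + p.1.im * ((D : ℝ) * v.im) := by ring
          rw [this, hreR, himR]
          ring
        have h6 : 0 < (D : ℝ) * ((dotG p.1 v : ℤ) : ℝ) := mul_pos hDr hvpos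
        linarith)
    set L : ℝ := q * U' - q' * U with hL
    have hsN : 0 < √(N : ℝ) := Real.sqrt_pos.2 hNr
    have hsN2 : √(N : ℝ) ^ 2 = N := Real.sq_sqrt hNr.le
    have hlf : lf N p q q' = L / √N := by
      unfold lf
      rw [Real.sqrt_div (Nat.cast_nonneg _), Real.sqrt_div (Nat.cast_nonneg _), hL]
      ring
    have hb0' : 0 < b' := by
      have h7 : 0 < b' * N := lt_of_lt_of_le (lt_of_le_of_lt (by positivity) hv1) hv2
      exact (mul_pos_iff_of_pos_right hNr).1 h7
    refine ⟨⟨hqA, hqA'⟩, hdiv, ?_, ?_⟩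
    · -- lower bound
      rw [hlf, le_div_iff₀ hsN]
      rcases le_or_gt (√b - ι) 0 with h0 | h0
      · have : (√b - ι) * D * √N ≤ 0 :=
          mul_nonpos_of_nonpos_of_nonneg (mul_nonpos_of_nonpos_of_nonneg h0 hDr.le) hsN.le
        linarith
      · have h8 : ((√b - ι) * D * √N) ^ 2 ≤ L ^ 2 := by
          refine le_trans ?_ r3
          have h9 : (√b - ι) ^ 2 ≤ b - ι * √b := by
            have h10 : √b ^ 2 = b := Real.sq_sqrt hb.le
            nlinarith
          have h11 : 2 * ((q : ℝ) * q') ≤ a * (ι * √b) * N := by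
            have h12 : (q : ℝ) * q' ≤ ((C1 : ℝ) * P) ^ 2 := by
              rw [pow_two]
              exact mul_le_mul hqC hqC' hq0'.le (by positivity)
            have h13 : 2 * ((C1 : ℝ) * P) ^ 2 ≤ N0 * (a * (ι * √b)) :=
              (div_le_iff₀ (by positivity)).1 hN0
            have h14 : (N0 : ℝ) ≤ N := by exact_mod_cast (by omega : N0 ≤ N)
            have h15 : (N0 : ℝ) * (a * (ι * √b)) ≤ N * (a * (ι * √b)) :=
              mul_le_mul_of_nonneg_right h14 (by positivity)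
            linarith
          have h16 : 2 * ((q : ℝ) * q') * ((D : ℝ) ^ 2 / (a * N)) ≤
              (D : ℝ) ^ 2 * (ι * √b * N) := by
            have h17 : 2 * ((q : ℝ) * q') * ((D : ℝ) ^ 2 / (a * N)) ≤
                a * (ι * √b) * N * ((D : ℝ) ^ 2 / (a * N)) :=
              mul_le_mul_of_nonneg_right h11 (by positivity)
            have h18 : a * (ι * √b) * N * ((D : ℝ) ^ 2 / (a * N)) =
                (D : ℝ) ^ 2 * (ι * √b) := by field_simp
            have h19 : (D : ℝ) ^ 2 * (ι * √b) ≤ (D : ℝ) ^ 2 * (ι * √b * N) := by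
              apply mul_le_mul_of_nonneg_left _ (by positivity)
              exact le_mul_of_one_le_right (by positivity) hNr1
            linarith
          have h20 : (D : ℝ) ^ 2 * (b * N) ≤ (D : ℝ) ^ 2 * nN v :=
            mul_le_mul_of_nonneg_left hv1.le (by positivity)
          calc ((√b - ι) * D * √N) ^ 2 = (√b - ι) ^ 2 * ((D : ℝ) ^ 2 * N) := by
                rw [mul_pow, mul_pow, hsN2]; ring
            _ ≤ (b - ι * √b) * ((D : ℝ) ^ 2 * N) :=
                mul_le_mul_of_nonneg_right h9 (by positivity)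
            _ = (D : ℝ) ^ 2 * (b * N) - (D : ℝ) ^ 2 * (ι * √b * N) := by ring
            _ ≤ _ := by linarith
        exact (pow_le_pow_iff_left₀ (by positivity) r1.le two_ne_zero).1 h8
    · -- upper bound
      rw [hlf, div_le_iff₀ hsN]
      have h8 : L ^ 2 ≤ (√b' * D * √N) ^ 2 := by
        refine r2.trans ?_
        have h9 : √b' ^ 2 = b' := Real.sq_sqrt hb0'.le
        calc (D : ℝ) ^ 2 * nN v ≤ (D : ℝ) ^ 2 * (b' * N) :=
              mul_le_mul_of_nonneg_left hv2 (by positivity)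
          _ = (√b' * D * √N) ^ 2 := by rw [mul_pow, mul_pow, hsN2, h9]; ring
      have h10 : L ≤ √b' * D * √N :=
        (pow_le_pow_iff_left₀ r1.le (by positivity) two_ne_zero).1 h8
      have h11 : √b' * D * √N ≤ (√b' + ι) * D * √N := by
        have : 0 ≤ ι * D * √N := by positivity
        nlinarith
      linarith
  · intro v hv w hw hvw
    rw [Finset.mem_coe, Finset.mem_filter] at hv hw
    obtain ⟨_, _, _, _, _, ⟨q, _, hq⟩, ⟨q', _, hq'⟩⟩ := hv
    obtain ⟨_, _, _, _, _, ⟨s, _, hs⟩, ⟨s', _, hs'⟩⟩ := hw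
    simp only [hq, hq', hs, hs', Int.toNat_natCast, Prod.mk.injEq] at hvw
    have e1 : crossG p.1 v = crossG p.1 w := by rw [hq, hs, hvw.1]
    have e2 : crossG p.2 v = crossG p.2 w := by rw [hq', hs', hvw.2]
    have hre : ∀ x : GaussianInt, (D : ℤ) * x.re = crossG p.1 x * p.2.re -
        crossG p.2 x * p.1.re := by
      intro x; rw [← hcr]; unfold crossG; ring
    have him : ∀ x : GaussianInt, (D : ℤ) * x.im = crossG p.1 x * p.2.im -
        crossG p.2 x * p.1.im := by
      intro x; rw [← hcr]; unfold crossG; ring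
    have hD0 : (D : ℤ) ≠ 0 := by exact_mod_cast (by omega : D ≠ 0)
    refine Zsqrtd.ext ?_ ?_
    · exact mul_left_cancel₀ hD0 (by rw [hre v, hre w, e1, e2])
    · exact mul_left_cancel₀ hD0 (by rw [him v, him w, e1, e2])

end Pool.Agent.LogCh
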