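import Mathlib
import Pool.Agent.Lib.LogCh.EDefs

/-!
# Log-averaged cancellation at `n ^ 2 + 1`: module E.E3B
-/

set_option autoImplicit false

namespace Pool.Agent.LogCh

open Real
open Pool.Agent.NSqP
open Pool.Agent.MP484c84Par (ballG mem_ballG crossG dotG)

/-- the difference of `|u| |u'|` and the scalar product -/
private lemma e3b_err {n d U U' dt a : ℝ} (ha : 0 < a) (hn : 0 < n) (hU0 : 0 ≤ U)
    (hU0' : 0 ≤ U') (hU : a * n < U ^ 2) (hU' : a * n < U' ^ 2) (hdt0 : 0 < dt)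
    (hdt : dt ^ 2 + d ^ 2 = U ^ 2 * U' ^ 2) :
    0 ≤ U * U' - dt ∧ (U * U' - dt) * (a * n) ≤ d ^ 2 := by
  have han : 0 < a * n := mul_pos ha hn
  have h1 : a * n ≤ U * U' := by
    have h2 : (a * n) ^ 2 ≤ (U * U') ^ 2 := by
      rw [mul_pow U, pow_two (a * n)]
      exact mul_le_mul hU.le hU'.le han.le (sq_nonneg _)
    exact le_of_sq_le_sq h2 (mul_nonneg hU0 hU0')
  have h3 : 0 ≤ U * U' - dt := by
    have h4 : dt ^ 2 ≤ (U * U') ^ 2 := by
      rw [mul_pow]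
      linarith [sq_nonneg d]
    have h5 := le_of_sq_le_sq h4 (mul_nonneg hU0 hU0')
    linarith
  refine ⟨h3, ?_⟩
  have h6 : (U * U' - dt) * (U * U' + dt) = d ^ 2 := by
    have : (U * U' - dt) * (U * U' + dt) = U ^ 2 * U' ^ 2 - dt ^ 2 := by ring
    rw [this, ← hdt]
    ring
  calc (U * U' - dt) * (a * n) ≤ (U * U' - dt) * (U * U' + dt) :=
        mul_le_mul_of_nonneg_left (by linarith) h3
    _ = d ^ 2 := h6

private lemma e3b_core {n d U U' dt a b b' ι al be l nv p q : ℝ} (ha : 0 < a) (hb : 0 < b)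
    (hι : 0 < ι) (hn : 0 < n) (hd : 0 < d) (hal : 0 ≤ al) (hbe : 0 ≤ be) (hU0 : 0 ≤ U)
    (hU0' : 0 ≤ U') (hU : a * n < U ^ 2) (hU' : a * n < U' ^ 2) (hdt0 : 0 < dt)
    (hdt : dt ^ 2 + d ^ 2 = U ^ 2 * U' ^ 2) (hL : al * U' - be * U = √n * l)
    (hl : (√b + ι) * d ≤ l) (hl' : l ≤ (√b' - ι) * d)
    (hN1 : 2 * (al * be) ≤ a * ι ^ 2 * n ^ 2) (hN2 : al * d < a * √a * ι * n ^ 2)
    (hnv : d ^ 2 * nv = al ^ 2 * U' ^ 2 + be ^ 2 * U ^ 2 - 2 * (al * be) * dt)
    (hp : d * p = al * dt - be * U ^ 2) (hq : d * q = al * U' ^ 2 - be * dt) :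
    b * n < nv ∧ nv ≤ b' * n ∧ 0 < p ∧ 0 < q := by
  obtain ⟨he0, he1⟩ := e3b_err ha hn hU0 hU0' hU hU' hdt0 hdt
  set e := U * U' - dt with he
  have hsn : √n ^ 2 = n := sq_sqrt hn.le
  have hsn0 : 0 < √n := sqrt_pos.2 hn
  have hsb : √b ^ 2 = b := sq_sqrt hb.le
  have hsb0 : 0 < √b := sqrt_pos.2 hb
  have hd2 : 0 < d ^ 2 := by positivity
  have hl0 : 0 < l := lt_of_lt_of_le (by positivity) hl
  have hsb' : ι < √b' := by
    by_contra h
    push Not at h
    have h1 : (√b' - ι) * d ≤ 0 := mul_nonpos_of_nonpos_of_nonneg (by linarith) hd.le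
    linarith
  have hb'0 : 0 < b' := by
    by_contra h
    push Not at h
    rw [sqrt_eq_zero_of_nonpos h] at hsb'
    linarith
  have hsb'2 : √b' ^ 2 = b' := sq_sqrt hb'0.le
  have hkey : d ^ 2 * nv = n * l ^ 2 + 2 * (al * be) * e := by
    have h1 : (al * U' - be * U) ^ 2 = n * l ^ 2 := by
      rw [hL, mul_pow, hsn]
    rw [hnv, ← h1, he]
    ring
  have hab : 0 ≤ al * be := mul_nonneg hal hbe
  have hLpos : 0 < √n * l := mul_pos hsn0 hl0
  have hU1 : 0 < U := by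
    rcases hU0.lt_or_eq with h | h
    · exact h
    · rw [← h] at hU
      have : 0 < a * n := mul_pos ha hn
      nlinarith
  have hU1' : 0 < U' := by
    rcases hU0'.lt_or_eq with h | h
    · exact h
    · rw [← h] at hU'
      have : 0 < a * n := mul_pos ha hn
      nlinarith
  refine ⟨?_, ?_, ?_, ?_⟩
  · -- lower bound
    have h1 : b * d ^ 2 < l ^ 2 := by
      have h2 : ((√b + ι) * d) ^ 2 ≤ l ^ 2 := pow_le_pow_left₀ (by positivity) hl 2
      have h3 : ((√b + ι) * d) ^ 2 = b * d ^ 2 + (2 * √b * ι + ι ^ 2) * d ^ 2 := by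
        rw [mul_pow, add_sq, hsb]
        ring
      have h4 : 0 < (2 * √b * ι + ι ^ 2) * d ^ 2 := by positivity
      linarith
    have h5 : n * (b * d ^ 2) < d ^ 2 * nv := by
      rw [hkey]
      have h6 := mul_lt_mul_of_pos_left h1 hn
      have h7 : 0 ≤ 2 * (al * be) * e := by positivity
      linarith
    have h8 : d ^ 2 * (b * n) < d ^ 2 * nv := by
      calc d ^ 2 * (b * n) = n * (b * d ^ 2) := by ring
        _ < d ^ 2 * nv := h5
    exact lt_of_mul_lt_mul_left h8 hd2.le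
  · -- upper bound
    have h1 : l ^ 2 ≤ (b' - ι ^ 2) * d ^ 2 := by
      have h2 : l ^ 2 ≤ ((√b' - ι) * d) ^ 2 := pow_le_pow_left₀ hl0.le hl' 2
      have h3 : ((√b' - ι) * d) ^ 2 = (b' - ι ^ 2) * d ^ 2 - 2 * ι * (√b' - ι) * d ^ 2 := by
        rw [mul_pow, sub_sq, hsb'2]
        ring
      have h4 : 0 ≤ 2 * ι * (√b' - ι) * d ^ 2 := by
        have : 0 ≤ √b' - ι := by linarith
        positivity
      linarith
    have h5 : 2 * (al * be) * e ≤ ι ^ 2 * n * d ^ 2 := by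
      have h6 : (2 * (al * be) * e) * (a * n) ≤ (ι ^ 2 * n * d ^ 2) * (a * n) := by
        calc (2 * (al * be) * e) * (a * n) = 2 * (al * be) * (e * (a * n)) := by ring
          _ ≤ 2 * (al * be) * d ^ 2 := mul_le_mul_of_nonneg_left he1 (by positivity)
          _ ≤ (a * ι ^ 2 * n ^ 2) * d ^ 2 := mul_le_mul_of_nonneg_right hN1 hd2.le
          _ = (ι ^ 2 * n * d ^ 2) * (a * n) := by ring
      exact le_of_mul_le_mul_right h6 (mul_pos ha hn)
    have h7 : d ^ 2 * nv ≤ d ^ 2 * (b' * n) := by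
      rw [hkey]
      have h8 := mul_le_mul_of_nonneg_left h1 hn.le
      nlinarith
    exact le_of_mul_le_mul_left h7 hd2
  · -- first scalar product
    have h1 : d * p = U * (√n * l) - al * e := by
      rw [hp, ← hL, he]
      ring
    have hUa : √a * √n < U := by
      rw [← sqrt_mul ha.le]
      exact (sqrt_lt' hU1).2 hU
    have h2 : √a * n * ι * d < U * (√n * l) := by
      have h3 : ι * d < l := by
        have : 0 < √b * d := mul_pos hsb0 hd
        nlinarith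
      have h4 : √n * (ι * d) < √n * l := mul_lt_mul_of_pos_left h3 hsn0
      have h5 : (√a * √n) * (√n * (ι * d)) < U * (√n * l) :=
        mul_lt_mul'' hUa h4 (by positivity) (by positivity)
      calc √a * n * ι * d = (√a * √n) * (√n * (ι * d)) := by
            have : √n * √n = n := mul_self_sqrt hn.le
            linear_combination (-(√a * ι * d)) * this
        _ < _ := h5
    have h6 : al * e < √a * n * ι * d := by
      have h7 : (al * e) * (a * n) < (√a * n * ι * d) * (a * n) := by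
        calc (al * e) * (a * n) = al * (e * (a * n)) := by ring
          _ ≤ al * d ^ 2 := mul_le_mul_of_nonneg_left he1 hal
          _ = (al * d) * d := by ring
          _ < (a * √a * ι * n ^ 2) * d := mul_lt_mul_of_pos_right hN2 hd
          _ = (√a * n * ι * d) * (a * n) := by ring
      exact lt_of_mul_lt_mul_right h7 (mul_pos ha hn).le
    have h8 : 0 < d * p := by
      rw [h1]
      linarith
    exact (mul_pos_iff_of_pos_left hd).1 h8
  · have h1 : d * q = U' * (√n * l) + be * e := by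
      rw [hq, ← hL, he]
      ring
    have h8 : 0 < d * q := by
      rw [h1]
      have h2 := mul_pos hU1' hLpos
      have h3 : 0 ≤ be * e := mul_nonneg hbe he0
      linarith
    exact (mul_pos_iff_of_pos_left hd).1 h8

private lemma e3b_cross {D al be : ℤ} {u u' v : GaussianInt} (hD : D ≠ 0)
    (hc : crossG u u' = D)
    (hv : (al : GaussianInt) * u' - (be : GaussianInt) * u = (D : GaussianInt) * v) :
    crossG u v = al ∧ crossG u' v = be ∧ D * dotG u v = al * dotG u u' - be * u.norm ∧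
      D * dotG u' v = al * u'.norm - be * dotG u u' ∧
      D ^ 2 * v.norm = al ^ 2 * u'.norm + be ^ 2 * u.norm - 2 * (al * be) * dotG u u' := by
  have hre : al * u'.re - be * u.re = D * v.re := by
    have := congrArg Zsqrtd.re hv
    simpa using this
  have him : al * u'.im - be * u.im = D * v.im := by
    have := congrArg Zsqrtd.im hv
    simpa using this
  unfold crossG at hc
  refine ⟨?_, ?_, ?_, ?_, ?_⟩
  · apply mul_left_cancel₀ hD
    unfold crossG
    calc D * (u.re * v.im - u.im * v.re) = u.re * (D * v.im) - u.im * (D * v.re) := by ring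
      _ = al * (u.re * u'.im - u.im * u'.re) := by rw [← hre, ← him]; ring
      _ = D * al := by rw [hc]; ring
  · apply mul_left_cancel₀ hD
    unfold crossG
    calc D * (u'.re * v.im - u'.im * v.re) = u'.re * (D * v.im) - u'.im * (D * v.re) := by ring
      _ = be * (u.re * u'.im - u.im * u'.re) := by rw [← hre, ← him]; ring
      _ = D * be := by rw [hc]; ring
  · unfold dotG
    rw [Zsqrtd.norm_def]
    calc D * (u.re * v.re + u.im * v.im) = u.re * (D * v.re) + u.im * (D * v.im) := by ring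
      _ = _ := by rw [← hre, ← him]; ring
  · unfold dotG
    rw [Zsqrtd.norm_def]
    calc D * (u'.re * v.re + u'.im * v.im) = u'.re * (D * v.re) + u'.im * (D * v.im) := by ring
      _ = _ := by rw [← hre, ← him]; ring
  · unfold dotG
    rw [Zsqrtd.norm_def, Zsqrtd.norm_def, Zsqrtd.norm_def]
    calc D ^ 2 * (v.re * v.re - -1 * v.im * v.im) = (D * v.re) ^ 2 + (D * v.im) ^ 2 := by ring
      _ = _ := by rw [← hre, ← him]; ring

/-- **E3b**: lower bound for `TT`. Proof: for `(α, β)` of the set on the left put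
`v = (α u' - β u) / D`; then `u × v = α`, `u' × v = β`, and the identities of `E3a` show
`b N < N v ≤ b' N`, `<u,v> > 0`, `<u',v> > 0` for large `N`. -/
theorem E3bp (hC : COFStmt) : E3bStmt := by
  intro C1 C2 P a b b' ι hP ha hb hb' hι
  obtain ⟨M1, hM1⟩ := exists_nat_ge (2 * ((C1 * P : ℕ) : ℝ) ^ 2 / (a * ι ^ 2))
  obtain ⟨M2, hM2⟩ := exists_nat_gt (((C1 * P : ℕ) : ℝ) * ((C2 * P : ℕ) : ℝ) / (a * √a * ι))
  refine ⟨M1 + M2 + 1, ?_⟩
  intro N hN A hA D hD p hp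
  classical
  have hD1 := (Finset.mem_Icc.1 hD).1
  have hD2 := (Finset.mem_Icc.1 hD).2
  have hn1 : (1 : ℝ) ≤ N := by exact_mod_cast (by omega : 1 ≤ N)
  have hn0 : (0 : ℝ) < N := by linarith
  have hnn : (N : ℝ) ≤ (N : ℝ) ^ 2 := by nlinarith
  have hNM1 : (M1 : ℝ) ≤ N := by exact_mod_cast (by omega : M1 ≤ N)
  have hNM2 : (M2 : ℝ) ≤ N := by exact_mod_cast (by omega : M2 ≤ N)
  have hsa : 0 < √a := sqrt_pos.2 ha
  -- the pair
  have hp' : p ∈ dpairs D N ∧ a * N < nN p.1 ∧ a * N < nN p.2 := by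
    unfold lpairs at hp
    exact Finset.mem_filter.1 hp
  obtain ⟨hpd, hu1, hu2⟩ := hp'
  have hpd' : crossG p.1 p.2 = (D : ℕ) ∧ 0 < dotG p.1 p.2 := by
    unfold dpairs at hpd
    exact (Finset.mem_filter.1 hpd).2
  obtain ⟨hcr, hdot⟩ := hpd'
  have hcof := (hC D N hD1 p hpd).2.2.2
  have hD0 : ((D : ℕ) : ℤ) ≠ 0 := by exact_mod_cast (by omega : D ≠ 0)
  have hex : ∀ x : ℕ × ℕ, ∃ v : GaussianInt, (D : ℤ) ∣ cof D p * x.1 - x.2 →
      ((x.1 : ℤ) : GaussianInt) * p.2 - ((x.2 : ℤ) : GaussianInt) * p.1 =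
        ((D : ℤ) : GaussianInt) * v := by
    intro x
    by_cases h : (D : ℤ) ∣ cof D p * x.1 - x.2
    · obtain ⟨v, hv⟩ := (hcof x.1 x.2).2 h
      refine ⟨v, fun _ => ?_⟩
      rw [hv]
      push_cast
      rfl
    · exact ⟨0, fun h' => absurd h' h⟩
  choose V hV using hex
  unfold TT
  refine Finset.card_le_card_of_injOn V ?_ ?_
  · intro x hx
    rw [Finset.mem_coe, Finset.mem_filter, Finset.mem_product] at hx
    obtain ⟨⟨hx1, hx2⟩, hdv, hlo, hup⟩ := hx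
    obtain ⟨c1, c2, c3, c4, c5⟩ := e3b_cross hD0 hcr (hV x hdv)
    have hq1 := Finset.mem_filter.1 (hA hx1)
    have hq2 := Finset.mem_filter.1 (hA hx2)
    have hx1' : (x.1 : ℝ) ≤ ((C1 * P : ℕ) : ℝ) := by
      exact_mod_cast (Finset.mem_Ioc.1 hq1.1).2
    have hx2' : (x.2 : ℝ) ≤ ((C1 * P : ℕ) : ℝ) := by
      exact_mod_cast (Finset.mem_Ioc.1 hq2.1).2
    have hDr : (D : ℝ) ≤ ((C2 * P : ℕ) : ℝ) := by exact_mod_cast hD2
    have hDpos : (0 : ℝ) < D := by exact_mod_cast (by omega : 0 < D)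
    have e1 : ((nN p.1 : ℕ) : ℝ) = √(nN p.1) ^ 2 := (sq_sqrt (Nat.cast_nonneg _)).symm
    have e2 : ((nN p.2 : ℕ) : ℝ) = √(nN p.2) ^ 2 := (sq_sqrt (Nat.cast_nonneg _)).symm
    have f1 : ((p.1.norm : ℤ) : ℝ) = nN p.1 := by rw [← nN_cast_int]; push_cast; rfl
    have f2 : ((p.2.norm : ℤ) : ℝ) = nN p.2 := by rw [← nN_cast_int]; push_cast; rfl
    have f3 : (((V x).norm : ℤ) : ℝ) = nN (V x) := by rw [← nN_cast_int]; push_cast; rfl
    have hdc := MP484c84Par.dot_cross p.1 p.2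
    have g1 : ((dotG p.1 p.2 : ℤ) : ℝ) ^ 2 + (D : ℝ) ^ 2 = √(nN p.1) ^ 2 * √(nN p.2) ^ 2 := by
      rw [← e1, ← e2, ← f1, ← f2]
      rw [hcr] at hdc
      exact_mod_cast hdc
    have g2 : (x.1 : ℝ) * √(nN p.2) - (x.2 : ℝ) * √(nN p.1) = √(N : ℝ) * lf N p x.1 x.2 := by
      unfold lf
      have hs : √(N : ℝ) ≠ 0 := (sqrt_pos.2 hn0).ne'
      rw [sqrt_div (Nat.cast_nonneg _), sqrt_div (Nat.cast_nonneg _)]
      field_simp
    have g3 : (D : ℝ) ^ 2 * nN (V x) = (x.1 : ℝ) ^ 2 * √(nN p.2) ^ 2 +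
        (x.2 : ℝ) ^ 2 * √(nN p.1) ^ 2 - 2 * ((x.1 : ℝ) * x.2) * (dotG p.1 p.2 : ℤ) := by
      rw [← e1, ← e2, ← f1, ← f2, ← f3]
      exact_mod_cast c5
    have g4 : (D : ℝ) * (dotG p.1 (V x) : ℤ) = (x.1 : ℝ) * (dotG p.1 p.2 : ℤ) -
        (x.2 : ℝ) * √(nN p.1) ^ 2 := by
      rw [← e1, ← f1]
      exact_mod_cast c3
    have g5 : (D : ℝ) * (dotG p.2 (V x) : ℤ) = (x.1 : ℝ) * √(nN p.2) ^ 2 -
        (x.2 : ℝ) * (dotG p.1 p.2 : ℤ) := by
      rw [← e2, ← f2]
      exact_mod_cast c4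
    have g6 : 2 * ((x.1 : ℝ) * x.2) ≤ a * ι ^ 2 * (N : ℝ) ^ 2 := by
      have h1 : 2 * ((C1 * P : ℕ) : ℝ) ^ 2 ≤ a * ι ^ 2 * (N : ℝ) ^ 2 := by
        have h2 := hM1.trans (hNM1.trans hnn)
        rw [div_le_iff₀ (by positivity)] at h2
        linarith
      have h3 : (x.1 : ℝ) * x.2 ≤ ((C1 * P : ℕ) : ℝ) ^ 2 := by
        rw [pow_two]
        exact mul_le_mul hx1' hx2' (Nat.cast_nonneg _) (Nat.cast_nonneg _)
      linarith
    have g7 : (x.1 : ℝ) * D < a * √a * ι * (N : ℝ) ^ 2 := by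
      have h1 : ((C1 * P : ℕ) : ℝ) * ((C2 * P : ℕ) : ℝ) < a * √a * ι * (N : ℝ) ^ 2 := by
        have h2 := hM2.trans_le (hNM2.trans hnn)
        rw [div_lt_iff₀ (by positivity)] at h2
        linarith
      have h3 : (x.1 : ℝ) * D ≤ ((C1 * P : ℕ) : ℝ) * ((C2 * P : ℕ) : ℝ) :=
        mul_le_mul hx1' hDr (Nat.cast_nonneg _) (Nat.cast_nonneg _)
      linarith
    obtain ⟨r1, r2, r3, r4⟩ := e3b_core (b' := b') ha hb hι hn0 hDpos
      (Nat.cast_nonneg x.1) (Nat.cast_nonneg x.2) (sqrt_nonneg _) (sqrt_nonneg _)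
      (e1 ▸ hu1) (e2 ▸ hu2) (by exact_mod_cast hdot) g1 g2 hlo hup g6 g7 g3 g4 g5
    rw [Finset.mem_coe, Finset.mem_filter, mem_ballG]
    refine ⟨?_, r1, r2, by exact_mod_cast r3, by exact_mod_cast r4, ⟨x.1, hx1, c1⟩,
      ⟨x.2, hx2, c2⟩⟩
    rw [← nN_cast_int]
    have h1 : ((nN (V x) : ℕ) : ℝ) ≤ N := by
      have h2 : b' * (N : ℝ) ≤ 1 * N := mul_le_mul_of_nonneg_right hb' hn0.le
      linarith
    exact_mod_cast h1
  · intro x hx y hy hxy
    rw [Finset.mem_coe, Finset.mem_filter] at hx hy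
    obtain ⟨c1, c2, -⟩ := e3b_cross hD0 hcr (hV x hx.2.1)
    obtain ⟨c1', c2', -⟩ := e3b_cross hD0 hcr (hV y hy.2.1)
    rw [hxy] at c1 c2
    refine Prod.ext ?_ ?_
    · exact_mod_cast c1.symm.trans c1'
    · exact_mod_cast c2.symm.trans c2'

end Pool.Agent.LogCh
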