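import Mathlib
import Pool.Agent.Lib.LogCh.EDefs

/-!
# Log-averaged cancellation at `n ^ 2 + 1`: module E.TRUNC
-/

set_option autoImplicit false

namespace Pool.Agent.LogCh

open Real
open Pool.Agent.NSqP
open Pool.Agent.MP484c84Par (ballG mem_ballG crossG dotG)

namespace ETRaux

/-- `1 / φ(n)` as an arithmetic function -/
noncomputable def ivPhi : ArithmeticFunction ℝ :=
  ⟨fun n => ((Nat.totient n : ℝ))⁻¹, by simp⟩

lemma ivPhi_apply (n : ℕ) : ivPhi n = ((Nat.totient n : ℝ))⁻¹ := rfl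

lemma ivPhi_mult : ivPhi.IsMultiplicative := by
  refine ⟨by simp [ivPhi_apply], ?_⟩
  intro m n h
  rw [ivPhi_apply, ivPhi_apply, ivPhi_apply, Nat.totient_mul h, Nat.cast_mul, mul_inv]

/-- `1 / (n φ(n))` as an arithmetic function -/
noncomputable def ivnPhi : ArithmeticFunction ℝ :=
  ⟨fun n => ((n : ℝ) * (Nat.totient n : ℝ))⁻¹, by simp⟩

lemma ivnPhi_apply (n : ℕ) : ivnPhi n = ((n : ℝ) * (Nat.totient n : ℝ))⁻¹ := rfl

lemma ivnPhi_mult : ivnPhi.IsMultiplicative := by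
  refine ⟨by simp [ivnPhi_apply], ?_⟩
  intro m n h
  rw [ivnPhi_apply, ivnPhi_apply, ivnPhi_apply, Nat.totient_mul h]
  push_cast
  rw [← mul_inv]
  congr 1
  ring

/-- squarefree part of the weight -/
noncomputable def gw (d : ℕ) : ℝ := if Squarefree d then ((Nat.totient d : ℝ))⁻¹ else 0

lemma gw_nonneg (d : ℕ) : 0 ≤ gw d := by
  unfold gw
  split_ifs <;> positivity

lemma sqf_prod (S : Finset ℕ) (hS : ∀ p ∈ S, p.Prime) : Squarefree (∏ p ∈ S, p) := by
  classical
  induction S using Finset.induction_on with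
  | empty => simp
  | insert q T hq ih =>
    rw [Finset.prod_insert hq]
    have hco : Nat.Coprime q (∏ p ∈ T, p) := by
      refine Nat.Coprime.prod_right (fun p hp => ?_)
      refine (Nat.coprime_primes (hS q (Finset.mem_insert_self q T))
        (hS p (Finset.mem_insert_of_mem hp))).mpr ?_
      rintro rfl
      exact hq hp
    rw [Nat.squarefree_mul hco]
    exact ⟨(hS q (Finset.mem_insert_self q T)).prime.squarefree,
      ih (fun p hp => hS p (Finset.mem_insert_of_mem hp))⟩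

lemma inv_phi_eq {a : ℕ} (ha : 0 < a) :
    ((Nat.totient a : ℝ))⁻¹ = (a : ℝ)⁻¹ * ∑ d ∈ a.divisors, gw d := by
  set r := ∏ p ∈ a.primeFactors, p with hr
  have hrsq : Squarefree r := sqf_prod _ (fun p hp => Nat.prime_of_mem_primeFactors hp)
  have hrd : r ∣ a := Nat.prod_primeFactors_dvd a
  have hrpf : r.primeFactors = a.primeFactors := by
    exact Nat.primeFactors_prod (fun p hp => Nat.prime_of_mem_primeFactors hp)
  have h1 := ivPhi_mult.prodPrimeFactors_one_add_of_squarefree hrsq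
  have h2 : ∑ d ∈ r.divisors, ivPhi d = ∑ d ∈ a.divisors, gw d := by
    calc ∑ d ∈ r.divisors, ivPhi d = ∑ d ∈ r.divisors, gw d := by
          refine Finset.sum_congr rfl (fun d hd => ?_)
          have : Squarefree d := hrsq.squarefree_of_dvd (Nat.dvd_of_mem_divisors hd)
          rw [gw, if_pos this, ivPhi_apply]
      _ = ∑ d ∈ a.divisors, gw d := by
          refine Finset.sum_subset (Nat.divisors_subset_of_dvd ha.ne' hrd) (fun d hd hd' => ?_)
          unfold gw
          rw [if_neg]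
          intro hsq
          apply hd'
          rw [Nat.mem_divisors]
          refine ⟨?_, hrsq.ne_zero⟩
          rw [← Nat.prod_primeFactors_of_squarefree hsq]
          exact Finset.prod_dvd_prod_of_subset _ _ _
            (Nat.primeFactors_mono (Nat.dvd_of_mem_divisors hd) ha.ne')
  have h3 : ((Nat.totient a : ℝ))⁻¹ = (a : ℝ)⁻¹ * ∏ p ∈ r.primeFactors, (1 + ivPhi p) := by
    have h4 : (Nat.totient a : ℝ) = a * ∏ p ∈ a.primeFactors, (1 - (p : ℝ)⁻¹) := by
      have := Nat.totient_eq_mul_prod_factors a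
      have h5 := congrArg (fun q : ℚ => (q : ℝ)) this
      push_cast at h5
      exact h5
    rw [h4, mul_inv, hrpf, ← Finset.prod_inv_distrib]
    congr 1
    refine Finset.prod_congr rfl (fun p hp => ?_)
    have hpp := Nat.prime_of_mem_primeFactors hp
    rw [ivPhi_apply, Nat.totient_prime hpp, Nat.cast_sub hpp.one_lt.le, Nat.cast_one]
    have hp1 : (1 : ℝ) < p := by exact_mod_cast hpp.one_lt
    have hp0 : (p : ℝ) ≠ 0 := by linarith
    have hp2 : (p : ℝ) - 1 ≠ 0 := by linarith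
    field_simp
    ring
  rw [h3, h1, h2]

/-- the sum of `1 / (d φ(d))` over squarefree `d` is bounded -/
lemma sum_gw_div (N : ℕ) : ∑ d ∈ Finset.Icc 1 N, gw d / d ≤ Real.exp 1 := by
  have hsq : Squarefree (primorial N) := by
    unfold primorial
    exact sqf_prod _ (fun p hp => (Finset.mem_filter.mp hp).2)
  have h1 := ivnPhi_mult.prodPrimeFactors_one_add_of_squarefree hsq
  have h2 : ∑ d ∈ Finset.Icc 1 N, gw d / d ≤ ∑ d ∈ (primorial N).divisors, ivnPhi d := by
    have h3 : ∑ d ∈ Finset.Icc 1 N, gw d / d =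
        ∑ d ∈ (Finset.Icc 1 N).filter Squarefree, ivnPhi d := by
      rw [Finset.sum_filter]
      refine Finset.sum_congr rfl (fun d _ => ?_)
      unfold gw
      split_ifs
      · rw [ivnPhi_apply, mul_inv, div_eq_mul_inv, mul_comm]
      · simp
    rw [h3]
    refine Finset.sum_le_sum_of_subset_of_nonneg ?_ (fun d _ _ => ?_)
    · intro d hd
      rw [Finset.mem_filter, Finset.mem_Icc] at hd
      rw [Nat.mem_divisors]
      refine ⟨?_, hsq.ne_zero⟩
      rw [← Nat.prod_primeFactors_of_squarefree hd.2]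
      unfold primorial
      refine Finset.prod_dvd_prod_of_subset _ _ _ ?_
      intro p hp
      rw [Finset.mem_filter, Finset.mem_range]
      have h5 := Nat.le_of_mem_primeFactors hp
      exact ⟨by omega, Nat.prime_of_mem_primeFactors hp⟩
    · rw [ivnPhi_apply]
      positivity
  refine h2.trans ?_
  rw [← h1]
  have h4 : ∏ p ∈ (primorial N).primeFactors, (1 + ivnPhi p) ≤
      ∏ p ∈ (primorial N).primeFactors, Real.exp (ivnPhi p) := by
    refine Finset.prod_le_prod (fun p _ => ?_) (fun p _ => ?_)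
    · rw [ivnPhi_apply]
      positivity
    · rw [add_comm]
      exact Real.add_one_le_exp _
  refine h4.trans ?_
  rw [← Real.exp_sum]
  refine Real.exp_le_exp.mpr ?_
  have h5 : ∑ p ∈ (primorial N).primeFactors, ivnPhi p ≤
      ∑ n ∈ Finset.Ioc 1 N, ((n : ℝ) * ((n : ℝ) - 1))⁻¹ := by
    have h6 : ∀ p ∈ (primorial N).primeFactors, p ∈ Finset.Ioc 1 N := by
      intro p hp
      have hpp := Nat.prime_of_mem_primeFactors hp
      rw [Finset.mem_Ioc]
      refine ⟨hpp.one_lt, ?_⟩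
      have hd := Nat.dvd_of_mem_primeFactors hp
      unfold primorial at hd
      rw [Prime.dvd_finsetProd_iff hpp.prime] at hd
      obtain ⟨q, hq, hpq⟩ := hd
      rw [Finset.mem_filter, Finset.mem_range] at hq
      have := (Nat.prime_dvd_prime_iff_eq hpp hq.2).mp hpq
      omega
    calc ∑ p ∈ (primorial N).primeFactors, ivnPhi p
        = ∑ p ∈ (primorial N).primeFactors, ((p : ℝ) * ((p : ℝ) - 1))⁻¹ := by
          refine Finset.sum_congr rfl (fun p hp => ?_)
          have hpp := Nat.prime_of_mem_primeFactors hp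
          rw [ivnPhi_apply, Nat.totient_prime hpp, Nat.cast_sub hpp.one_lt.le, Nat.cast_one]
      _ ≤ ∑ n ∈ Finset.Ioc 1 N, ((n : ℝ) * ((n : ℝ) - 1))⁻¹ := by
          refine Finset.sum_le_sum_of_subset_of_nonneg h6 (fun n hn _ => ?_)
          rw [Finset.mem_Ioc] at hn
          have : (1 : ℝ) < n := by exact_mod_cast hn.1
          have h7 : (0 : ℝ) < n := by linarith
          have h8 : (0 : ℝ) < (n : ℝ) - 1 := by linarith
          positivity
  refine h5.trans ?_
  rcases Nat.eq_zero_or_pos N with h0 | hpos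
  · subst h0
    simp
  have h9 : ∀ M : ℕ, 1 ≤ M → ∑ n ∈ Finset.Ioc 1 M, ((n : ℝ) * ((n : ℝ) - 1))⁻¹ =
      1 - (M : ℝ)⁻¹ := by
    intro M hM
    induction M, hM using Nat.le_induction with
    | base => simp
    | succ M hM ih =>
      rw [Finset.sum_Ioc_succ_top hM, ih]
      have hM0 : (0 : ℝ) < M := by exact_mod_cast hM
      push_cast
      rw [add_sub_cancel_right]
      have hM1 : (M : ℝ) + 1 ≠ 0 := by positivity
      field_simp
      ring
  rw [h9 N hpos]
  have : (0 : ℝ) ≤ (N : ℝ)⁻¹ := by positivity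
  linarith

lemma summable_gw : Summable (fun d : ℕ => gw d / d) := by
  refine summable_of_sum_range_le (c := Real.exp 1) (fun d => ?_) (fun n => ?_)
  · exact div_nonneg (gw_nonneg d) (Nat.cast_nonneg _)
  · refine le_trans ?_ (sum_gw_div n)
    have h1 : ∑ d ∈ Finset.range n, gw d / d ≤ ∑ d ∈ insert 0 (Finset.Icc 1 n), gw d / d := by
      refine Finset.sum_le_sum_of_subset_of_nonneg ?_
        (fun d _ _ => div_nonneg (gw_nonneg d) (Nat.cast_nonneg _))
      intro d hd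
      rw [Finset.mem_range] at hd
      rw [Finset.mem_insert, Finset.mem_Icc]
      omega
    refine h1.trans ?_
    rw [Finset.sum_insert (by simp)]
    simp

lemma tail_gw {ε : ℝ} (hε : 0 < ε) : ∃ R1 : ℕ, 1 ≤ R1 ∧ ∀ M : ℕ,
    ∑ d ∈ Finset.Ioc R1 M, gw d / d ≤ ε := by
  obtain ⟨s, hs⟩ := summable_iff_vanishing_norm.1 summable_gw ε hε
  refine ⟨s.sup id + 1, by omega, fun M => ?_⟩
  have h1 := hs (Finset.Ioc (s.sup id + 1) M) (by
    rw [Finset.disjoint_left]
    intro d hd hds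
    rw [Finset.mem_Ioc] at hd
    have := Finset.le_sup (f := id) hds
    simp only [id_eq] at this
    omega)
  exact (le_abs_self _).trans (by rw [← Real.norm_eq_abs]; exact h1.le)

/-- the remaining part of `D / φ(D)` -/
noncomputable def rest (R1 D : ℕ) : ℝ := ∑ d ∈ D.divisors.filter (fun d => R1 < d), gw d

lemma rest_nonneg (R1 D : ℕ) : 0 ≤ rest R1 D := Finset.sum_nonneg fun d _ => gw_nonneg d

lemma inv_phi_split (R1 : ℕ) {D : ℕ} (hD : 0 < D) :
    ((Nat.totient D : ℝ))⁻¹ = (D : ℝ)⁻¹ * (tph R1 D + rest R1 D) := by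
  rw [inv_phi_eq hD]
  congr 1
  rw [← Finset.sum_filter_add_sum_filter_not D.divisors (fun d => R1 < d), add_comm]
  congr 1
  unfold tph
  have h1 : ∑ d ∈ D.divisors.filter (fun d => ¬ R1 < d), gw d =
      ∑ d ∈ (D.divisors.filter (fun d => ¬ R1 < d)).filter (fun d => Squarefree d),
        1 / (Nat.totient d : ℝ) := by
    rw [Finset.sum_filter (p := fun d => Squarefree d)]
    refine Finset.sum_congr rfl fun d _ => ?_
    unfold gw
    split_ifs
    · rw [one_div]
    · rfl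
  rw [h1]
  refine Finset.sum_congr ?_ (fun _ _ => rfl)
  ext d
  simp only [Finset.mem_filter, Nat.mem_divisors, Finset.mem_Icc]
  constructor
  · rintro ⟨⟨⟨h2, h3⟩, h4⟩, h5⟩
    exact ⟨⟨Nat.pos_of_dvd_of_pos h2 hD, by omega⟩, h2, h5⟩
  · rintro ⟨⟨h2, h3⟩, h4, h5⟩
    exact ⟨⟨⟨h4, hD.ne'⟩, by omega⟩, h5⟩

lemma sum_rest_le (R1 M : ℕ) : ∑ D ∈ Finset.Icc 1 M, rest R1 D ≤
    M * ∑ d ∈ Finset.Ioc R1 M, gw d / d := by
  classical
  have h1 : ∀ D ∈ Finset.Icc 1 M, rest R1 D =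
      ∑ d ∈ Finset.Ioc R1 M, if d ∣ D then gw d else 0 := by
    intro D hD
    rw [Finset.mem_Icc] at hD
    unfold rest
    rw [← Finset.sum_filter]
    refine Finset.sum_congr ?_ (fun _ _ => rfl)
    ext d
    simp only [Finset.mem_filter, Nat.mem_divisors, Finset.mem_Ioc]
    constructor
    · rintro ⟨⟨h2, h3⟩, h4⟩
      exact ⟨⟨h4, (Nat.le_of_dvd (by omega) h2).trans hD.2⟩, h2⟩
    · rintro ⟨⟨h2, h3⟩, h4⟩
      exact ⟨⟨h4, by omega⟩, h2⟩
  rw [Finset.sum_congr rfl h1, Finset.sum_comm, Finset.mul_sum]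
  refine Finset.sum_le_sum fun d hd => ?_
  rw [← Finset.sum_filter, Finset.sum_const, nsmul_eq_mul]
  have h2 : ((Finset.Icc 1 M).filter (fun D => d ∣ D)).card = M / d := by
    rw [← Nat.Ioc_filter_dvd_card_eq_div]
    rfl
  rw [h2]
  have h3 : ((M / d : ℕ) : ℝ) ≤ (M : ℝ) / d := Nat.cast_div_le
  calc ((M / d : ℕ) : ℝ) * gw d ≤ (M : ℝ) / d * gw d :=
        mul_le_mul_of_nonneg_right h3 (gw_nonneg d)
    _ = M * (gw d / d) := by ring

lemma SA_norm_le {r : ℕ} (A : Finset ℕ) (ψ : DirichletCharacter ℂ r) : ‖SA A ψ‖ ≤ A.card := by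
  unfold SA
  refine (norm_sum_le _ _).trans ?_
  refine (Finset.sum_le_card_nsmul _ _ 1 fun a _ => DirichletCharacter.norm_le_one ψ _).trans ?_
  simp

lemma mr_norm_le {r : ℕ} (hr : 1 ≤ r) (A : Finset ℕ) (c : ℤ) :
    ‖mr A r c‖ ≤ r * (A.card : ℝ) ^ 2 := by
  classical
  haveI : NeZero r := ⟨by omega⟩
  unfold mr
  refine (norm_sum_le _ _).trans ?_
  have h1 : ∀ ψ ∈ (Finset.univ : Finset (DirichletCharacter ℂ r)),
      ‖(if ψ.IsPrimitive then ψ ((c : ℤ) : ZMod r) * ((‖SA A ψ‖ ^ 2 : ℝ) : ℂ) else 0)‖ ≤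
        (A.card : ℝ) ^ 2 := by
    intro ψ _
    split_ifs
    · rw [norm_mul, Complex.norm_real, norm_pow, norm_norm]
      have h2 := DirichletCharacter.norm_le_one ψ ((c : ℤ) : ZMod r)
      have h3 : ‖SA A ψ‖ ^ 2 ≤ (A.card : ℝ) ^ 2 :=
        pow_le_pow_left₀ (norm_nonneg _) (SA_norm_le A ψ) 2
      calc ‖ψ ((c : ℤ) : ZMod r)‖ * ‖SA A ψ‖ ^ 2 ≤ 1 * (A.card : ℝ) ^ 2 :=
            mul_le_mul h2 h3 (by positivity) (by norm_num)
        _ = _ := one_mul _
    · rw [norm_zero]; positivity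
  refine (Finset.sum_le_card_nsmul _ _ _ h1).trans ?_
  rw [nsmul_eq_mul]
  apply mul_le_mul_of_nonneg_right _ (by positivity)
  have h4 : Fintype.card (DirichletCharacter ℂ r) = r.totient := by
    rw [← Nat.card_eq_fintype_card]
    exact DirichletCharacter.card_eq_totient_of_hasEnoughRootsOfUnity ℂ r
  rw [Finset.card_univ, h4]
  exact_mod_cast Nat.totient_le r

lemma sum_mr_le (A : Finset ℕ) (R0 D : ℕ) (c : ℤ) :
    ‖∑ r ∈ (Finset.Icc 1 R0).filter (fun r => r ∣ D), mr A r c‖ ≤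
      (R0 : ℝ) ^ 2 * (A.card : ℝ) ^ 2 := by
  refine (norm_sum_le _ _).trans ?_
  have h1 : ∀ r ∈ (Finset.Icc 1 R0).filter (fun r => r ∣ D), ‖mr A r c‖ ≤
      R0 * (A.card : ℝ) ^ 2 := by
    intro r hr
    rw [Finset.mem_filter, Finset.mem_Icc] at hr
    refine (mr_norm_le hr.1.1 A c).trans ?_
    apply mul_le_mul_of_nonneg_right _ (by positivity)
    exact_mod_cast hr.1.2
  refine (Finset.sum_le_card_nsmul _ _ _ h1).trans ?_
  rw [nsmul_eq_mul]
  have h2 : ((((Finset.Icc 1 R0).filter (fun r => r ∣ D)).card : ℕ) : ℝ) ≤ R0 := by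
    have h3 := Finset.card_filter_le (Finset.Icc 1 R0) (fun r => r ∣ D)
    rw [Nat.card_Icc] at h3
    exact_mod_cast (by omega)
  calc _ ≤ (R0 : ℝ) * (R0 * (A.card : ℝ) ^ 2) := mul_le_mul_of_nonneg_right h2 (by positivity)
    _ = _ := by ring

end ETRaux

open ETRaux in
/-- **ETRUNC** (from `CNTStmt`): `D/φ(D) = ∑_{d ∣ D} μ²(d)/φ(d)`, so
`‖MM - MT‖ ≤ (1/D) (∑_{d ∣ D, d > R1, squarefree} 1/φ(d)) R0² |A|²` (`‖mr A r c‖ ≤ r |A|²`), and
`∑_{D ≤ C2 P} ∑_{d ∣ D, d > R1} 1/φ(d) ≤ C2 P ∑_{d > R1} 1/(d φ(d))`, a convergent series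
(`φ(d)² ≥ d/2`). -/
theorem ETRUNCp (hN : CNTStmt) : ETRUNCStmt := by
  classical
  intro a κ C2 R0 ha hκ δ hδ
  obtain ⟨C, hC, hN⟩ := hN a ha
  set K : ℝ := C * R0 ^ 2 * C2 / κ with hK
  have hK0 : 0 ≤ K := by positivity
  obtain ⟨R1, hR1, htail⟩ := tail_gw (show 0 < δ / (K + 1) by positivity)
  refine ⟨R1, hR1, ?_⟩
  intro P hP A N
  have hP' : (0 : ℝ) < P := by exact_mod_cast hP
  have hterm : ∀ D ∈ (Finset.Icc 1 (C2 * P)).filter (fun D : ℕ => κ * P < (D : ℝ)),
      ∑ p ∈ lpairs a D N, ‖MM A R0 D (cof D p) - MT A R0 R1 D (cof D p)‖ ≤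
        (C * N) * ((κ * P)⁻¹ * rest R1 D * (R0 ^ 2 * A.card ^ 2)) := by
    intro D hD
    rw [Finset.mem_filter, Finset.mem_Icc] at hD
    have hD0 : 0 < D := by omega
    have hD0' : (0 : ℝ) < D := by exact_mod_cast hD0
    have h1 : ∀ p ∈ lpairs a D N, ‖MM A R0 D (cof D p) - MT A R0 R1 D (cof D p)‖ ≤
        (κ * P)⁻¹ * rest R1 D * (R0 ^ 2 * A.card ^ 2) := by
      intro p _
      have h2 : MM A R0 D (cof D p) - MT A R0 R1 D (cof D p) =
          (((D : ℝ)⁻¹ * rest R1 D : ℝ) : ℂ) *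
            ∑ r ∈ (Finset.Icc 1 R0).filter (fun r => r ∣ D), mr A r (cof D p) := by
        unfold MM MT
        rw [div_eq_mul_inv, mul_comm, ← sub_mul]
        congr 1
        have h3 := inv_phi_split R1 hD0
        have h4 : ((Nat.totient D : ℂ))⁻¹ = ((((Nat.totient D : ℝ))⁻¹ : ℝ) : ℂ) := by
          push_cast; rfl
        rw [h4, h3, ← Complex.ofReal_sub]
        congr 1
        field_simp
        ring
      rw [h2, norm_mul, Complex.norm_real, norm_of_nonneg (mul_nonneg (by positivity)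
        (rest_nonneg _ _))]
      apply mul_le_mul _ (sum_mr_le A R0 D _) (norm_nonneg _)
        (mul_nonneg (by positivity) (rest_nonneg _ _))
      apply mul_le_mul_of_nonneg_right _ (rest_nonneg _ _)
      exact inv_anti₀ (by positivity) hD.2.le
    refine (Finset.sum_le_card_nsmul _ _ _ h1).trans ?_
    rw [nsmul_eq_mul]
    apply mul_le_mul_of_nonneg_right (hN D N)
    exact mul_nonneg (mul_nonneg (by positivity) (rest_nonneg _ _)) (by positivity)
  refine (Finset.sum_le_sum hterm).trans ?_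
  have hsub : ∑ D ∈ (Finset.Icc 1 (C2 * P)).filter (fun D : ℕ => κ * P < (D : ℝ)),
      (C * N) * ((κ * P)⁻¹ * rest R1 D * (R0 ^ 2 * A.card ^ 2)) ≤
      ∑ D ∈ (Finset.Icc 1 (C2 * P)), (C * N) * ((κ * P)⁻¹ * rest R1 D * (R0 ^ 2 * A.card ^ 2)) := by
    refine Finset.sum_le_sum_of_subset_of_nonneg (Finset.filter_subset _ _) (fun D _ _ => ?_)
    exact mul_nonneg (by positivity) (mul_nonneg (mul_nonneg (by positivity) (rest_nonneg _ _))
      (by positivity))
  refine hsub.trans ?_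
  have heq : ∑ D ∈ (Finset.Icc 1 (C2 * P)),
      (C * N) * ((κ * P)⁻¹ * rest R1 D * (R0 ^ 2 * (A.card : ℝ) ^ 2)) =
      (C * N * (κ * P)⁻¹ * (R0 ^ 2 * (A.card : ℝ) ^ 2)) *
        ∑ D ∈ (Finset.Icc 1 (C2 * P)), rest R1 D := by
    rw [Finset.mul_sum]
    refine Finset.sum_congr rfl fun D _ => ?_
    ring
  rw [heq]
  have h5 := sum_rest_le R1 (C2 * P)
  have h6 := htail (C2 * P)
  calc (C * N * (κ * P)⁻¹ * (R0 ^ 2 * (A.card : ℝ) ^ 2)) *
        ∑ D ∈ (Finset.Icc 1 (C2 * P)), rest R1 D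
      ≤ (C * N * (κ * P)⁻¹ * (R0 ^ 2 * (A.card : ℝ) ^ 2)) *
        (((C2 * P : ℕ) : ℝ) * (δ / (K + 1))) := by
        apply mul_le_mul_of_nonneg_left _ (by positivity)
        exact h5.trans (mul_le_mul_of_nonneg_left h6 (Nat.cast_nonneg _))
    _ = (K / (K + 1)) * (δ * N * (A.card : ℝ) ^ 2) := by
        rw [hK]
        push_cast
        field_simp
    _ ≤ 1 * (δ * N * (A.card : ℝ) ^ 2) := by
        apply mul_le_mul_of_nonneg_right _ (by positivity)
        rw [div_le_one (by positivity)]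
        linarith
    _ = δ * N * A.card ^ 2 := one_mul _

end Pool.Agent.LogCh
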