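import Mathlib
import Pool.Agent.Lib.LogCh.EDefs

/-!
# Log-averaged cancellation at `n ^ 2 + 1`: module E.TSTRIP
-/

set_option autoImplicit false

namespace Pool.Agent.LogCh

open Real
open Pool.Agent.NSqP
open Pool.Agent.MP484c84Par (ballG mem_ballG crossG dotG)

private lemma etstrip_c0 {C1 P : ℕ} {A : Finset ℕ} (hA : A ⊆ QQ C1 P) {D : ℕ}
    (hq : ∀ q ∈ A, ¬ q ∣ D) (x : ℕ × ℕ) : ∃ c0 : ℤ, x ∈ A ×ˢ A → ∀ c : ℤ,
      (D : ℤ) ∣ c * x.1 - x.2 → (D : ℤ) ∣ c - c0 := by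
  by_cases hx : x ∈ A ×ˢ A
  · have hx1 := (Finset.mem_product.1 hx).1
    have hp : (x.1).Prime := by
      have h := hA hx1
      unfold QQ at h
      exact (Finset.mem_filter.1 h).2.1
    have hcop : Nat.Coprime x.1 D := (Nat.Prime.coprime_iff_not_dvd hp).2 (hq _ hx1)
    have hic : IsCoprime (x.1 : ℤ) (D : ℤ) := Nat.isCoprime_iff_coprime.2 hcop
    obtain ⟨s, t, hst⟩ := hic
    refine ⟨s * x.2, fun _ c hc => ?_⟩
    obtain ⟨k, hk⟩ := hc
    refine ⟨s * k + c * t, ?_⟩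
    linear_combination s * hk - c * hst
  · exact ⟨0, fun h => absurd h hx⟩

/-- **TSTRIP** (from `STRIPStmt`, `COFStmt`): the sum is the number of `(p, α, β)` with
`D ∣ c α - β` and `p` in the strip; `α` is invertible modulo `D`, so `c` is determined. -/
theorem TSTRIPp (hS : STRIPStmt) (hC : COFStmt) : TSTRIPStmt := by
  classical
  intro a W C1 C2 ha ha1 hW hC1 hC2
  obtain ⟨C, hC0, hCS⟩ := hS a W C1 C2 ha ha1 hW hC1 hC2
  refine ⟨C, hC0, ?_⟩
  intro P D hP hD A hA hq w hw hwW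
  have hD1 := (Finset.mem_Icc.1 hD).1
  have hD2 := (Finset.mem_Icc.1 hD).2
  choose c0 hc0 using fun x : ℕ × ℕ => etstrip_c0 hA hq x
  choose N0 hN0 using fun c : ℤ => hCS P D c w hP hD1 hD2 hw hwW
  refine ⟨(A ×ˢ A).sup (fun x => N0 (c0 x)), ?_⟩
  intro N hN X s hX1 hX2
  have key : ∀ x ∈ A ×ˢ A, ((((lpairs a D N).filter (fun p => |lf N p X X - s * D| ≤ w * D)).filter
      (fun p => (D : ℤ) ∣ cof D p * x.1 - x.2)).card : ℝ) ≤ C * w * N / P := by
    intro x hx
    have hNx : N0 (c0 x) ≤ N := le_trans (Finset.le_sup (f := fun x => N0 (c0 x)) hx) hN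
    refine le_trans ?_ (hN0 (c0 x) N hNx X X (s * D) hX1 hX2 hX1 hX2)
    norm_cast
    apply Finset.card_le_card
    intro p hp
    rw [Finset.mem_filter, Finset.mem_filter] at hp
    rw [Finset.mem_filter]
    refine ⟨hp.1.1, ?_, hp.1.2⟩
    have hpd : p ∈ dpairs D N := by
      have h := hp.1.1
      unfold lpairs at h
      exact (Finset.mem_filter.1 h).1
    rw [(hC D N hD1 p hpd).2.2.1 (c0 x)]
    exact hc0 x hx _ hp.2
  have h1 : ∑ p ∈ (lpairs a D N).filter (fun p => |lf N p X X - s * D| ≤ w * D),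
      (tc A D (cof D p) : ℝ) = ∑ x ∈ A ×ˢ A,
        ((((lpairs a D N).filter (fun p => |lf N p X X - s * D| ≤ w * D)).filter
          (fun p => (D : ℤ) ∣ cof D p * x.1 - x.2)).card : ℝ) := by
    unfold tc
    simp only [Finset.card_filter]
    push_cast
    rw [Finset.sum_comm]
  rw [h1]
  refine le_trans (Finset.sum_le_sum key) ?_
  rw [Finset.sum_const, Finset.card_product, nsmul_eq_mul]
  push_cast
  apply le_of_eq
  ring

end Pool.Agent.LogCh
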