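import Mathlib
import Pool.Agent.Lib.LogCh.EDefs

/-!
# Log-averaged cancellation at `n ^ 2 + 1`: module E.TTAPP
-/

set_option autoImplicit false

namespace Pool.Agent.LogCh

open Real
open Pool.Agent.NSqP
open Pool.Agent.MP484c84Par (ballG mem_ballG crossG dotG)

private lemma ettapp_mem {a : ℝ} {D : ℤ} {N : ℕ} {p : GaussianInt × GaussianInt}
    (hp : p ∈ lpairs a D N) : (nN p.1 : ℝ) ≤ N ∧ (nN p.2 : ℝ) ≤ N := by
  classical
  unfold lpairs at hp
  rw [Finset.mem_filter] at hp
  have h1 := hp.1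
  unfold dpairs at h1
  rw [Finset.mem_filter, Finset.mem_product] at h1
  have h2 := h1.1
  unfold VV at h2
  rw [mem_pann (by positivity), mem_pann (by positivity)] at h2
  exact ⟨h2.1.1.2, h2.2.1.2⟩

private lemma ettapp_sqrt {N : ℕ} {x : ℝ} (hx : x ≤ N) : √(x / N) ≤ 1 := by
  rw [Real.sqrt_le_one]
  exact div_le_one_of_le₀ hx (by positivity)

private lemma ettapp_lf {a : ℝ} {D : ℤ} {N : ℕ} {p : GaussianInt × GaussianInt}
    (hp : p ∈ lpairs a D N) {X Y Z t : ℝ} (h1 : X ≤ Y) (h2 : Y ≤ X + t) (h3 : X ≤ Z)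
    (h4 : Z ≤ X + t) : |lf N p Y Z - lf N p X X| ≤ t := by
  have hm := ettapp_mem hp
  have hs1 := ettapp_sqrt hm.1
  have hs2 := ettapp_sqrt hm.2
  have hn1 : 0 ≤ √((nN p.1 : ℝ) / N) := Real.sqrt_nonneg _
  have hn2 : 0 ≤ √((nN p.2 : ℝ) / N) := Real.sqrt_nonneg _
  unfold lf
  rw [abs_le]
  constructor <;> nlinarith

/-- **TTAPP** (from `E3aStmt`, `E3bStmt` with `ι = h`): for `(α, β) ∈ A × A`,
`|lf α β - lf X X| ≤ 2 h X ≤ (2 h C1 / κ) D`. With `w1 = h (1 + 2 C1 / κ)` and `g = lf X X / D`:
if `g < √b - w1` or `g > √b' + w1` then `TT = 0 = trap`; if `√b + w1 ≤ g ≤ √b' - w1` then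
`TT = tc`, `trap = 1`; otherwise `0 ≤ TT ≤ tc`, `0 ≤ trap ≤ 1`. -/
theorem TTAPPp (h3a : E3aStmt) (h3b : E3bStmt) : TTAPPStmt := by
  classical
  intro C1 C2 P a b b' κ h hP hC1 ha hb hb' hκ hh
  obtain ⟨N1, hN1⟩ := h3a C1 C2 P a b b' h hP ha hb hb' hh
  obtain ⟨N2, hN2⟩ := h3b C1 C2 P a b b' h hP ha hb hb' hh
  refine ⟨max N1 N2, ?_⟩
  intro N hN A hA X hX1 hX2 hAX D hD hκD p hp
  have hup := hN1 N (le_trans (le_max_left _ _) hN) A hA D hD p hp
  have hlo := hN2 N (le_trans (le_max_right _ _) hN) A hA D hD p hp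
  have hD1 : (1 : ℝ) ≤ D := by exact_mod_cast (Finset.mem_Icc.1 hD).1
  have hD0 : (0 : ℝ) < D := by linarith
  have hP1 : (1 : ℝ) ≤ P := by exact_mod_cast hP
  -- distances
  have hX0 : 0 ≤ X := by linarith
  have hhX : h * X ≤ h * (2 * C1 / κ) * D := by
    have e1 : h * (2 * C1 / κ) * D = h * (2 * C1 * (D / κ)) := by field_simp
    rw [e1]
    apply mul_le_mul_of_nonneg_left _ hh.le
    have e2 : (P : ℝ) ≤ D / κ := by rw [le_div_iff₀ hκ]; linarith
    have e3 : (C1 : ℝ) * P ≤ C1 * (D / κ) := mul_le_mul_of_nonneg_left e2 (by positivity)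
    have e4 : (0 : ℝ) ≤ C1 * (D / κ) := by positivity
    nlinarith
  have hdist : ∀ x : ℕ × ℕ, x ∈ A ×ˢ A → |lf N p x.1 x.2 - lf N p X X| ≤ h * (2 * C1 / κ) * D := by
    intro x hx
    rw [Finset.mem_product] at hx
    refine le_trans (ettapp_lf hp (hAX _ hx.1).1.le ?_ (hAX _ hx.2).1.le ?_) hhX
    · have := (hAX _ hx.1).2; linarith
    · have := (hAX _ hx.2).2; linarith
  set g := lf N p X X with hg
  set w := h * (2 * C1 / κ) * D with hw
  have hw1 : h * (1 + 2 * C1 / κ) * D = h * D + w := by rw [hw]; ring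
  have hw0 : 0 ≤ w := by rw [hw]; positivity
  have hhD : 0 < h * D := by positivity
  rw [hw1]
  -- TT ≤ tc
  have htc : TT A b b' N p.1 p.2 ≤ tc A D (cof D p) := by
    refine le_trans hup (Finset.card_le_card ?_)
    intro x hx
    rw [Finset.mem_filter] at hx ⊢
    exact ⟨hx.1, hx.2.1⟩
  have htcR : (TT A b b' N p.1 p.2 : ℝ) ≤ tc A D (cof D p) := by exact_mod_cast htc
  have htrap0 : 0 ≤ trap (√b) (√b') h (g / D) := le_max_left _ _
  have htrap1 : trap (√b) (√b') h (g / D) ≤ 1 := by
    unfold trap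
    exact max_le zero_le_one (min_le_left _ _)
  have hTT0 : (0 : ℝ) ≤ TT A b b' N p.1 p.2 := by positivity
  have htc0 : (0 : ℝ) ≤ tc A D (cof D p) := by positivity
  split_ifs with hcase
  · rw [abs_le]
    have e1 : trap (√b) (√b') h (g / D) * tc A D (cof D p) ≤ 1 * tc A D (cof D p) :=
      mul_le_mul_of_nonneg_right htrap1 htc0
    have e2 : 0 ≤ trap (√b) (√b') h (g / D) * tc A D (cof D p) := mul_nonneg htrap0 htc0
    constructor <;> linarith
  · push Not at hcase
    obtain ⟨hc1, hc2⟩ := hcase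
    -- two signs
    rcases lt_abs.1 hc1 with hb1 | hb1
    · rcases lt_abs.1 hc2 with hb2 | hb2
      · -- g > √b' D + ...
        have hz : TT A b b' N p.1 p.2 = 0 := by
          apply Nat.eq_zero_of_le_zero
          refine le_trans hup ?_
          rw [Nat.le_zero, Finset.card_eq_zero, Finset.filter_eq_empty_iff]
          rintro x hx ⟨-, -, hx2⟩
          have := abs_le.1 (hdist x hx)
          nlinarith [this.1, this.2]
        have ht : trap (√b) (√b') h (g / D) = 0 := by
          unfold trap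
          apply max_eq_left
          refine le_trans (min_le_right _ _) (le_trans (min_le_right _ _) ?_)
          apply div_nonpos_of_nonpos_of_nonneg _ hh.le
          rw [sub_nonpos, le_div_iff₀ hD0]
          linarith
        rw [hz, ht]; simp
      · have hge : tc A D (cof D p) ≤ TT A b b' N p.1 p.2 := by
          refine le_trans (Finset.card_le_card ?_) hlo
          intro x hx
          rw [Finset.mem_filter] at hx ⊢
          have := abs_le.1 (hdist x hx.1)
          refine ⟨hx.1, hx.2, ?_, ?_⟩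
          · nlinarith [this.1, this.2]
          · nlinarith [this.1, this.2]
        have heq : (TT A b b' N p.1 p.2 : ℝ) = tc A D (cof D p) := by
          exact_mod_cast le_antisymm htc hge
        have ht : trap (√b) (√b') h (g / D) = 1 := by
          unfold trap
          rw [min_eq_left, max_eq_right zero_le_one]
          apply le_min
          · rw [one_le_div hh, le_sub_iff_add_le, le_div_iff₀ hD0]
            nlinarith
          · rw [one_le_div hh, le_sub_iff_add_le, ← le_sub_iff_add_le', div_le_iff₀ hD0]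
            nlinarith
        rw [heq, ht]; simp
    · -- g < √b D - ...
      have hz : TT A b b' N p.1 p.2 = 0 := by
        apply Nat.eq_zero_of_le_zero
        refine le_trans hup ?_
        rw [Nat.le_zero, Finset.card_eq_zero, Finset.filter_eq_empty_iff]
        rintro x hx ⟨-, hx1, -⟩
        have := abs_le.1 (hdist x hx)
        nlinarith [this.1, this.2]
      have ht : trap (√b) (√b') h (g / D) = 0 := by
        unfold trap
        apply max_eq_left
        refine le_trans (min_le_right _ _) (le_trans (min_le_left _ _) ?_)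
        apply div_nonpos_of_nonpos_of_nonneg _ hh.le
        rw [sub_nonpos, div_le_iff₀ hD0]
        linarith
      rw [hz, ht]; simp

end Pool.Agent.LogCh
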