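import Mathlib
import Pool.Agent.Lib.LogCh.EDefs

/-!
# Log-averaged cancellation at `n ^ 2 + 1`: module E.TTSUM
-/

set_option autoImplicit false

namespace Pool.Agent.LogCh

open Real
open Pool.Agent.NSqP
open Pool.Agent.MP484c84Par (ballG mem_ballG crossG dotG)

/-- a residue `c` with `c α ≡ β` modulo `D` -/
private lemma tts_exists_c {D α β : ℕ} (hD : 1 ≤ D) (h : IsCoprime (α : ℤ) (D : ℤ)) :
    ∃ c : ℕ, c < D ∧ (D : ℤ) ∣ (c : ℤ) * α - β := by
  obtain ⟨u, v, huv⟩ := h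
  have hD0 : (0 : ℤ) < D := by exact_mod_cast hD
  have h1 := Int.emod_nonneg (u * β) hD0.ne'
  have h2 := Int.emod_lt_of_pos (u * β) hD0
  refine ⟨((u * β) % D).toNat, ?_, ?_⟩
  · have : (((u * β) % D).toNat : ℤ) < D := by rw [Int.toNat_of_nonneg h1]; exact h2
    exact_mod_cast this
  · rw [Int.toNat_of_nonneg h1]
    have h3 : (u * β) % D = u * β - D * (u * β / D) := by
      have := Int.emod_add_mul_ediv (u * β) D
      linarith
    rw [h3]
    refine ⟨-(v * β) - (u * β / D) * α, ?_⟩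
    linear_combination (β : ℤ) * huv

private lemma tts_mem_QQ {C1 P q : ℕ} (h : q ∈ QQ C1 P) :
    q.Prime ∧ (P : ℝ) ≤ q ∧ (q : ℝ) ≤ C1 * P := by
  unfold QQ at h
  rw [Finset.mem_filter, Finset.mem_Ioc] at h
  refine ⟨h.2.1, ?_, ?_⟩
  · exact_mod_cast h.1.1.le
  · exact_mod_cast h.1.2

/-- **TTSUM** (from `STRIPStmt`, `E3aStmt`, `CNTStmt`, `COFStmt`): by `E3a` (`ι = 1`) the sum is at
most the number of `(p, α, β)` with `D ∣ α u' - β u` and `|lf α β - s D| ≤ 2 D`,
`s = (√b + √b') / 2`. If `α` (a prime) does not divide `D`, then `u' ≡ c0 u` with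
`c0 α ≡ β (mod D)`: `STRIP` with `c = c0`. If `α ∣ D`, then `α ∣ β u`, so `β = α`: at most
`#(lpairs a D N)` pairs for each such `α`. -/
theorem TTSUMp (hS : STRIPStmt) (h3 : E3aStmt) (hN : CNTStmt) (hC : COFStmt) : TTSUMStmt := by
  classical
  intro C1 C2 a b b' ha ha1 hb hbb hb1 hC1 hC2
  obtain ⟨CS, hCS0, hS'⟩ := hS a 2 C1 C2 ha ha1 two_pos hC1 hC2
  obtain ⟨CN, hCN0, hN'⟩ := hN a ha
  refine ⟨2 * CS + CN, by positivity, fun P hP A hA D hD => ?_⟩
  obtain ⟨hD1, hD2⟩ := Finset.mem_Icc.1 hD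
  choose N1 hN1 using fun c : ℤ => hS' P D c 2 hP hD1 hD2 two_pos le_rfl
  obtain ⟨N2, hN2⟩ := h3 C1 C2 P a b b' 1 hP ha hb hb1 one_pos
  refine ⟨max N2 ((Finset.range D).sup (fun c => N1 (c : ℤ))), fun N hNN => ?_⟩
  have hNN2 : N2 ≤ N := (le_max_left _ _).trans hNN
  have hNN1 : ∀ c : ℕ, c < D → N1 (c : ℤ) ≤ N := fun c hc =>
    (Finset.le_sup (f := fun c : ℕ => N1 (c : ℤ)) (Finset.mem_range.2 hc)).trans
      ((le_max_right _ _).trans hNN)
  have hPr : (1 : ℝ) ≤ P := by exact_mod_cast hP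
  have hD0 : (0 : ℝ) ≤ D := Nat.cast_nonneg D
  obtain ⟨s0, hs0⟩ : ∃ s : ℝ, s = (√b + √b') / 2 := ⟨_, rfl⟩
  have hsb : √b ≤ √b' := Real.sqrt_le_sqrt hbb
  have hsb1 : √b' ≤ 1 := Real.sqrt_le_one.2 hb1
  have hsb0 : 0 ≤ √b := Real.sqrt_nonneg b
  -- the condition
  obtain ⟨cond, hcond⟩ : ∃ cond : ℕ × ℕ → GaussianInt × GaussianInt → Prop,
      cond = fun x p => (D : ℤ) ∣ cof D p * x.1 - x.2 ∧
        |lf N p x.1 x.2 - s0 * D| ≤ 2 * D := ⟨_, rfl⟩
  have hTT : ∀ p ∈ lpairs a D N, (TT A b b' N p.1 p.2 : ℝ) ≤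
      ∑ x ∈ A ×ˢ A, if cond x p then (1 : ℝ) else 0 := by
    intro p hp
    have h1 := hN2 N hNN2 A hA D hD p hp
    rw [Finset.sum_boole]
    have h2 : (A ×ˢ A).filter (fun x : ℕ × ℕ => (D : ℤ) ∣ cof D p * x.1 - x.2 ∧
      (√b - 1) * D ≤ lf N p x.1 x.2 ∧ lf N p x.1 x.2 ≤ (√b' + 1) * D) ⊆
        (A ×ˢ A).filter (fun x => cond x p) := by
      intro x hx
      rw [Finset.mem_filter] at hx ⊢
      obtain ⟨hx1, hx2, hx3, hx4⟩ := hx
      refine ⟨hx1, ?_⟩
      rw [hcond]
      refine ⟨hx2, ?_⟩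
      rw [abs_le, hs0]
      constructor
      · nlinarith
      · nlinarith
    have h3 := h1.trans (Finset.card_le_card h2)
    exact_mod_cast h3
  have hcnt : ∀ x ∈ A ×ˢ A, (((lpairs a D N).filter (fun p => cond x p)).card : ℝ) ≤
      2 * CS * (N / P) + if x.1 ∣ D ∧ x.2 = x.1 then CN * N else 0 := by
    rintro ⟨α, β⟩ hx
    rw [Finset.mem_product] at hx
    obtain ⟨hα, hPα, hα1⟩ := tts_mem_QQ (hA hx.1)
    obtain ⟨hβ, hPβ, hβ1⟩ := tts_mem_QQ (hA hx.2)
    have hnn : 0 ≤ 2 * CS * ((N : ℝ) / P) := by positivity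
    have hmem : ∀ p ∈ lpairs a D N, p ∈ dpairs D N := by
      intro p hp
      unfold lpairs at hp
      exact (Finset.mem_filter.1 hp).1
    by_cases hdiv : α ∣ D
    · by_cases hβα : β = α
      · rw [if_pos ⟨hdiv, hβα⟩]
        have h1 : (((lpairs a D N).filter (fun p => cond (α, β) p)).card : ℝ) ≤
            (lpairs a D N).card := by exact_mod_cast Finset.card_filter_le _ _
        have h2 := hN' D N
        linarith
      · rw [if_neg (fun h => hβα h.2), add_zero]
        have h1 : (lpairs a D N).filter (fun p => cond (α, β) p) = ∅ := by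
          rw [Finset.filter_eq_empty_iff]
          intro p _ hp
          rw [hcond] at hp
          apply hβα
          have h2 : (α : ℤ) ∣ cof D p * α - β := (Int.natCast_dvd_natCast.2 hdiv).trans hp.1
          have h3 : (α : ℤ) ∣ β := by
            have h4 : (α : ℤ) ∣ cof D p * α := Dvd.intro_left _ rfl
            have := dvd_sub h4 h2
            simpa using this
          have h4 : α ∣ β := by exact_mod_cast h3
          exact ((Nat.prime_dvd_prime_iff_eq hα hβ).1 h4).symm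
        rw [h1]
        simpa using hnn
    · rw [if_neg (fun h => hdiv h.1), add_zero]
      have hcop : IsCoprime (α : ℤ) (D : ℤ) := by
        rw [Nat.isCoprime_iff_coprime]
        exact (Nat.Prime.coprime_iff_not_dvd hα).2 hdiv
      obtain ⟨c, hcD, hc⟩ := tts_exists_c (β := β) hD1 hcop
      have h1 := hN1 (c : ℤ) N (hNN1 c hcD) α β (s0 * D) hPα hα1 hPβ hβ1
      have h2 : (lpairs a D N).filter (fun p => cond (α, β) p) ⊆
          (lpairs a D N).filter (fun p : GaussianInt × GaussianInt =>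
            (D : GaussianInt) ∣ p.2 - ((c : ℤ) : GaussianInt) * p.1 ∧
              |lf N p α β - s0 * D| ≤ 2 * D) := by
        intro p hp
        rw [Finset.mem_filter] at hp ⊢
        obtain ⟨hp1, hp2⟩ := hp
        rw [hcond] at hp2
        refine ⟨hp1, ?_, hp2.2⟩
        have hcof := hC D N hD1 p (hmem p hp1)
        rw [hcof.2.2.1 (c : ℤ)]
        have h3 : (D : ℤ) ∣ (cof D p - c) * α := by
          have := dvd_sub hp2.1 hc
          have h4 : cof D p * (α : ℤ) - β - (c * α - β) = (cof D p - c) * α := by ring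
          rw [h4] at this
          exact this
        exact IsCoprime.dvd_of_dvd_mul_right hcop.symm h3
      have h3 : (((lpairs a D N).filter (fun p => cond (α, β) p)).card : ℝ) ≤
          CS * 2 * N / P := by
        refine le_trans ?_ h1
        exact_mod_cast Finset.card_le_card h2
      refine h3.trans (le_of_eq ?_)
      ring
  have hAd : ∑ x ∈ A ×ˢ A, (if x.1 ∣ D ∧ x.2 = x.1 then CN * (N : ℝ) else 0) =
      CN * N * ((A.filter (fun q => q ∣ D)).card : ℝ) := by
    rw [Finset.sum_product]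
    have h1 : ∀ α ∈ A, ∑ β ∈ A, (if α ∣ D ∧ β = α then CN * (N : ℝ) else 0) =
        if α ∣ D then CN * (N : ℝ) else 0 := by
      intro α hα
      by_cases h : α ∣ D
      · simp [h, hα]
      · simp [h]
    rw [Finset.sum_congr rfl h1, ← Finset.sum_filter, Finset.sum_const, nsmul_eq_mul]
    ring
  calc ∑ p ∈ lpairs a D N, (TT A b b' N p.1 p.2 : ℝ)
      ≤ ∑ p ∈ lpairs a D N, ∑ x ∈ A ×ˢ A, (if cond x p then (1 : ℝ) else 0) :=
        Finset.sum_le_sum hTT
    _ = ∑ x ∈ A ×ˢ A, (((lpairs a D N).filter (fun p => cond x p)).card : ℝ) := by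
        rw [Finset.sum_comm]
        apply Finset.sum_congr rfl
        intro x _
        rw [Finset.sum_boole]
    _ ≤ ∑ x ∈ A ×ˢ A, (2 * CS * ((N : ℝ) / P) + if x.1 ∣ D ∧ x.2 = x.1 then CN * N else 0) :=
        Finset.sum_le_sum hcnt
    _ = 2 * CS * ((N : ℝ) / P * A.card ^ 2) +
          CN * (N * ((A.filter (fun q => q ∣ D)).card : ℝ)) := by
        rw [Finset.sum_add_distrib, hAd, Finset.sum_const, Finset.card_product, nsmul_eq_mul]
        push_cast
        ring
    _ ≤ (2 * CS + CN) * ((N : ℝ) / P * A.card ^ 2 +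
          N * ((A.filter (fun q => q ∣ D)).card : ℝ)) := by
        have h1 : 0 ≤ (N : ℝ) / P * A.card ^ 2 := by positivity
        have h2 : 0 ≤ (N : ℝ) * ((A.filter (fun q => q ∣ D)).card : ℝ) := by positivity
        have h3 := mul_nonneg hCS0.le h2
        have h4 := mul_nonneg hCN0.le h1
        nlinarith

end Pool.Agent.LogCh
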