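import Mathlib
import Pool.Agent.Lib.LogCh.EDefs

/-!
# Log-averaged cancellation at `n ^ 2 + 1`: module E.E0
-/

set_option autoImplicit false

namespace Pool.Agent.LogCh

open Real
open Pool.Agent.NSqP
open Pool.Agent.MP484c84Par (ballG mem_ballG crossG dotG)

private lemma ez_card_ballG {n : ℕ} (hn : 1 ≤ n) : (ballG n).card ≤ 9 * n := by
  classical
  set s := Nat.sqrt n with hs
  have h1 : s * s ≤ n := Nat.sqrt_le n
  have h2 : n < (s + 1) * (s + 1) := Nat.lt_succ_sqrt n
  have hs1 : 1 ≤ s := Nat.one_le_iff_ne_zero.2 (by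
    rw [hs, Ne, Nat.sqrt_eq_zero]; omega)
  have h3 : (ballG n).card ≤
      (Finset.Icc (-(s : ℤ)) s ×ˢ Finset.Icc (-(s : ℤ)) s).card := by
    apply Finset.card_le_card_of_injOn (fun z : GaussianInt => (z.re, z.im))
    · intro z hz
      have hz' : z ∈ ballG n := hz
      rw [mem_ballG] at hz'
      rw [Zsqrtd.norm_def] at hz'
      have h4 : z.re * z.re + z.im * z.im ≤ n := by linarith
      have h5 : ((n : ℕ) : ℤ) < ((s : ℤ) + 1) * ((s : ℤ) + 1) := by exact_mod_cast h2
      have h6 : z.re * z.re < ((s : ℤ) + 1) * ((s : ℤ) + 1) := by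
        nlinarith [mul_self_nonneg z.im]
      have h7 : z.im * z.im < ((s : ℤ) + 1) * ((s : ℤ) + 1) := by
        nlinarith [mul_self_nonneg z.re]
      have h8 : |z.re| < (s : ℤ) + 1 := abs_lt_of_sq_lt_sq (by nlinarith) (by positivity)
      have h9 : |z.im| < (s : ℤ) + 1 := abs_lt_of_sq_lt_sq (by nlinarith) (by positivity)
      rw [abs_lt] at h8 h9
      simp only [Finset.coe_product, Finset.coe_Icc, Set.mem_prod, Set.mem_Icc]
      refine ⟨⟨?_, ?_⟩, ?_, ?_⟩ <;> linarith [h8.1, h8.2, h9.1, h9.2]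
    · intro z _ w _ h
      simp only [Prod.mk.injEq] at h
      exact Zsqrtd.ext h.1 h.2
  rw [Finset.card_product, Int.card_Icc] at h3
  have h10 : ((s : ℤ) + 1 - -(s : ℤ)).toNat = 2 * s + 1 := by omega
  rw [h10] at h3
  nlinarith

private lemma ez_lam_sq (z : GaussianInt) : lam z ^ 2 ≤ 1 := by
  unfold lam
  rcases Nat.eq_zero_or_pos (nN z) with h | h
  · rw [h, ArithmeticFunction.map_zero]
    norm_num
  · rw [ArithmeticFunction.liouville_apply h.ne']
    push_cast
    rw [← pow_mul, mul_comm, pow_mul]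
    norm_num

private lemma ez_fc_sq (a a' : ℝ) (N : ℕ) (z : GaussianInt) : fc a a' N z ^ 2 ≤ 1 := by
  unfold fc
  split_ifs
  · exact ez_lam_sq z
  · norm_num

private lemma ez_mem_VV {N : ℕ} {z : GaussianInt} (h : z ∈ VV N) : z ∈ ballG N := by
  unfold VV at h
  rw [mem_pann (Nat.cast_nonneg N)] at h
  have h1 : nN z ≤ N := by exact_mod_cast h.1.2
  rw [mem_ballG, ← nN_cast_int]
  exact_mod_cast h1

/-- **E0**: Cauchy-Schwarz over `v`. Proof: `∑_q pairSum q = ∑_v g(v) ∑_u f(u) 1[u × v ∈ A, <u,v> > 0]`,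
`v` over the `v ∈ ballG N` with `b N < N v ≤ b' N`, `g = fc b b' N` on primitive `v` and `0`
elsewhere, `|g| ≤ 1`; for `(u, v)` at most one `q ∈ A` has `u × v = q`. Square, bound `g^2 ≤ 1`,
expand; `#(ballG N) ≤ C N` for `N ≥ 1`. -/
theorem E0p : E0Stmt := by
  classical
  refine ⟨9, by norm_num, ?_⟩
  intro A a a' b b' N hN
  let V : Finset GaussianInt := (ballG N).filter (fun v => b * N < nN v ∧ (nN v : ℝ) ≤ b' * N)
  let I : GaussianInt → GaussianInt → ℝ := fun u v =>
    if 0 < dotG u v ∧ ∃ q ∈ A, crossG u v = (q : ℕ) then 1 else 0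
  let g : GaussianInt → ℝ := fun v => if v ∈ VV N then fc b b' N v else 0
  let F : GaussianInt → ℝ := fun v => ∑ u ∈ VV N, fc a a' N u * I u v
  have hg : ∀ v, g v ^ 2 ≤ 1 := by
    intro v
    simp only [g]
    split_ifs
    · exact ez_fc_sq _ _ _ _
    · norm_num
  have hI : ∀ u v, ∑ q ∈ A, (if crossG u v = (q : ℤ) ∧ 0 < dotG u v then (1 : ℝ) else 0) =
      I u v := by
    intro u v
    simp only [I]
    by_cases h : 0 < dotG u v ∧ ∃ q ∈ A, crossG u v = (q : ℕ)
    · rw [if_pos h]
      obtain ⟨h1, q, hq, hc⟩ := h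
      rw [Finset.sum_eq_single q]
      · rw [if_pos ⟨hc, h1⟩]
      · intro q' _ hne
        rw [if_neg]
        rintro ⟨h2, _⟩
        apply hne
        have h3 : (q' : ℤ) = q := h2.symm.trans hc
        exact_mod_cast h3
      · intro hq'
        exact absurd hq hq'
    · rw [if_neg h]
      apply Finset.sum_eq_zero
      intro q hq
      rw [if_neg]
      rintro ⟨h2, h3⟩
      exact h ⟨h3, q, hq, h2⟩
  have hpair : ∑ q ∈ A, pairSum q a a' b b' N = ∑ v ∈ V, g v * F v := by
    have h1 : ∀ q ∈ A, pairSum q a a' b b' N = ∑ v ∈ VV N, ∑ u ∈ VV N,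
        fc a a' N u * fc b b' N v *
          (if crossG u v = (q : ℤ) ∧ 0 < dotG u v then (1 : ℝ) else 0) := by
      intro q _
      unfold pairSum dpairs
      rw [Finset.sum_filter, Finset.sum_product_right]
      apply Finset.sum_congr rfl
      intro v _
      apply Finset.sum_congr rfl
      intro u _
      simp only
      split_ifs <;> simp
    rw [Finset.sum_congr rfl h1, Finset.sum_comm]
    have h2 : ∀ v ∈ VV N, ∑ q ∈ A, ∑ u ∈ VV N, fc a a' N u * fc b b' N v *
          (if crossG u v = (q : ℤ) ∧ 0 < dotG u v then (1 : ℝ) else 0) = fc b b' N v * F v := by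
      intro v _
      rw [Finset.sum_comm]
      simp only [F]
      rw [Finset.mul_sum]
      apply Finset.sum_congr rfl
      intro u _
      rw [← Finset.mul_sum, hI]
      ring
    rw [Finset.sum_congr rfl h2]
    have h3 : ∑ v ∈ VV N, fc b b' N v * F v = ∑ v ∈ ballG N, g v * F v := by
      have h4 : VV N ⊆ ballG N := fun z hz => ez_mem_VV hz
      rw [← Finset.sum_subset h4]
      · apply Finset.sum_congr rfl
        intro v hv
        simp only [g]
        rw [if_pos hv]
      · intro v _ hv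
        simp only [g]
        rw [if_neg hv, zero_mul]
    rw [h3]
    simp only [V]
    rw [Finset.sum_filter]
    apply Finset.sum_congr rfl
    intro v _
    split_ifs with h5
    · rfl
    · have h6 : g v = 0 := by
        simp only [g]
        split_ifs
        · unfold fc
          rw [if_neg h5]
        · rfl
      rw [h6, zero_mul]
  rw [hpair]
  have hCS := Finset.sum_mul_sq_le_sq_mul_sq V g F
  have hV : ∑ v ∈ V, g v ^ 2 ≤ 9 * N := by
    have h1 := Finset.sum_le_card_nsmul V (fun v => g v ^ 2) 1 (fun v _ => hg v)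
    rw [nsmul_eq_mul, mul_one] at h1
    have h2 : V.card ≤ 9 * N :=
      (Finset.card_le_card (Finset.filter_subset _ _)).trans (ez_card_ballG hN)
    have h3 : (V.card : ℝ) ≤ 9 * N := by exact_mod_cast h2
    exact h1.trans h3
  have hF : ∑ v ∈ V, F v ^ 2 =
      ∑ u ∈ VV N, ∑ u' ∈ VV N, fc a a' N u * fc a a' N u' * (TT A b b' N u u' : ℝ) := by
    have h1 : ∀ v ∈ V, F v ^ 2 = ∑ u ∈ VV N, ∑ u' ∈ VV N,
        fc a a' N u * fc a a' N u' * (I u v * I u' v) := by
      intro v _
      simp only [F]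
      rw [sq, Finset.sum_mul_sum]
      apply Finset.sum_congr rfl
      intro u _
      apply Finset.sum_congr rfl
      intro u' _
      ring
    rw [Finset.sum_congr rfl h1, Finset.sum_comm]
    apply Finset.sum_congr rfl
    intro u _
    rw [Finset.sum_comm]
    apply Finset.sum_congr rfl
    intro u' _
    rw [← Finset.mul_sum]
    congr 1
    have h2 : ∀ v ∈ V, I u v * I u' v = if (0 < dotG u v ∧ 0 < dotG u' v ∧
        (∃ q ∈ A, crossG u v = (q : ℕ)) ∧ (∃ q ∈ A, crossG u' v = (q : ℕ))) then (1 : ℝ)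
        else 0 := by
      intro v _
      simp only [I]
      by_cases h3 : 0 < dotG u v ∧ ∃ q ∈ A, crossG u v = (q : ℕ)
      · by_cases h4 : 0 < dotG u' v ∧ ∃ q ∈ A, crossG u' v = (q : ℕ)
        · rw [if_pos h3, if_pos h4, if_pos ⟨h3.1, h4.1, h3.2, h4.2⟩, mul_one]
        · rw [if_neg h4, mul_zero, if_neg]
          rintro ⟨_, h5, _, h6⟩
          exact h4 ⟨h5, h6⟩
      · rw [if_neg h3, zero_mul, if_neg]
        rintro ⟨h5, _, h6, _⟩
        exact h3 ⟨h5, h6⟩
    rw [Finset.sum_congr rfl h2, ← Finset.sum_filter, Finset.sum_const, nsmul_eq_mul, mul_one]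
    unfold TT
    simp only [V]
    rw [Finset.filter_filter]
    congr 2
    apply Finset.filter_congr
    intro v _
    rw [and_assoc]
  rw [hF] at hCS
  have hnn : 0 ≤ ∑ u ∈ VV N, ∑ u' ∈ VV N,
      fc a a' N u * fc a a' N u' * (TT A b b' N u u' : ℝ) := by
    rw [← hF]
    exact Finset.sum_nonneg (fun v _ => sq_nonneg _)
  exact hCS.trans (mul_le_mul_of_nonneg_right hV hnn)

end Pool.Agent.LogCh
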