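import Pool.Agent.Lib.LogCh.ECnt
import Pool.Agent.Lib.LogCh.EZero
import Pool.Agent.Lib.LogCh.EOne
import Pool.Agent.Lib.LogCh.ECof
import Pool.Agent.Lib.LogCh.EThreeA
import Pool.Agent.Lib.LogCh.EThreeB
import Pool.Agent.Lib.LogCh.EStrip
import Pool.Agent.Lib.LogCh.ETtsum
import Pool.Agent.Lib.LogCh.ETtapp
import Pool.Agent.Lib.LogCh.ETstrip
import Pool.Agent.Lib.LogCh.EOrth
import Pool.Agent.Lib.LogCh.EConds
import Pool.Agent.Lib.LogCh.EPars
import Pool.Agent.Lib.LogCh.EErr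
import Pool.Agent.Lib.LogCh.EGsum
import Pool.Agent.Lib.LogCh.EMls
import Pool.Agent.Lib.LogCh.ENpc
import Pool.Agent.Lib.LogCh.ELf
import Pool.Agent.Lib.LogCh.EQup
import Pool.Agent.Lib.LogCh.EEch
import Pool.Agent.Lib.LogCh.ETrunc
import Pool.Agent.Lib.LogCh.EBadm
import Pool.Agent.Lib.LogCh.EStgeo
import Pool.Agent.Lib.LogCh.EStcnt
import Pool.Agent.Lib.LogCh.EStpair
import Pool.Agent.Lib.LogCh.EStruct
import Pool.Agent.Lib.LogCh.ELip
import Pool.Agent.Lib.LogCh.EStr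
import Pool.Agent.Lib.LogCh.EBlock
import Pool.Agent.Lib.LogCh.EMain

/-!
# Group E: the kernel estimate from equidistribution and the Matomaki-Radziwill theorem
-/

set_option autoImplicit false

namespace Pool.Agent.LogCh

/-- the kernel estimate -/
theorem MAINB_of (hE : EQ2Stmt) (hM : MRCStmt) : MAINBStmt :=
  MAINBp (BLOCKp E0p E1p
    (TTSUMp (STRIPp hE) (E3ap COFp) CNTp COFp)
    (TTAPPp (E3ap COFp) (E3bp COFp))
    (TSTRIPp (STRIPp hE) COFp)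
    (EERRp hE (PARSp ORTHp CONDSp) COFp)
    (ECHp (MLSp GSUMp) (LFp NPCp) QUPp)
    (ETRUNCp CNTp) (BADMp CNTp)
    (ESTRp (STRUCTp STGEOp STCNTp STPAIRp hM) COFp)
    LIPPHIp QUPp)

end Pool.Agent.LogCh
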