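import Mathlib
import Pool.Agent.Lib.LogCh.EDefs

/-!
# Upgrade: cancellation at almost all scales (natural averages)

The same method with a sign `s(N)` attached to each scale `N`. `DECRSStmt` is the decrement theorem
with signs, `MAINBSStmt` the kernel estimate for arbitrary subsets of the primes, `LOGSStmt` the
resulting bound for `∑ |pairSum 1 N| / N²`, `ZSStmt` the main theorem at almost all scales.
-/

set_option autoImplicit false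

namespace Pool.Agent.LogCh

open Real
open Pool.Agent.NSqP
open Pool.Agent.MP484c84Par (ballG mem_ballG crossG dotG)

/-- kernel estimate for subsets (from `BLOCKStmt`, same proof as `MAINBStmt`; `N0` is the maximum
over the finitely many subsets) -/
def MAINBSStmt : Prop := ∀ (C1 : ℕ) (c : ℝ), 2 ≤ C1 → 0 < c →
  (∀ P : ℕ, 2 ≤ P → c * P / log P ≤ ((QQ C1 P).card : ℝ)) →
  ∀ a a' b b' : ℝ, 0 < a → a < a' → a' ≤ 1 → 0 < b → b < b' → b' ≤ 1 → ∀ ε : ℝ, 0 < ε →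
    ∃ P0 : ℕ, ∀ P : ℕ, P0 ≤ P → ∃ N0 : ℕ, ∀ N : ℕ, N0 ≤ N → ∀ A ⊆ QQ C1 P,
      |∑ q ∈ A, pairSum q a a' b b' N| ≤ ε * N * (QQ C1 P).card

/-- decrement theorem with signs -/
def DECRSStmt : Prop := ∀ (C1 : ℕ) (c : ℝ), 2 ≤ C1 → 0 < c →
  (∀ P : ℕ, 2 ≤ P → c * P / log P ≤ ((QQ C1 P).card : ℝ)) →
  ∀ a a' b b' : ℝ, 0 < a → a < a' → a' ≤ 1 → 0 < b → b < b' → b' ≤ 1 → ∀ ε : ℝ, 0 < ε →
    ∀ P0 : ℕ, ∃ P1 X0 : ℕ, ∀ X : ℕ, X0 ≤ X → ∀ s : ℕ → ℝ, (∀ N, |s N| ≤ 1) →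
      ∃ P : ℕ, P0 ≤ P ∧ P ≤ P1 ∧
      |∑ N ∈ Finset.Icc 1 X, s N * pairSum 1 a a' b b' N / (N : ℝ) ^ 2| ≤ ε * log X +
        ∑ N ∈ Finset.Icc 1 X, |∑ q ∈ QQ C1 P, s (N / q) * pairSum q a a' b b' N| /
          ((N : ℝ) ^ 2 * (QQ C1 P).card)

/-- cancellation over pairs of determinant one at almost all scales -/
def LOGSStmt : Prop := ∀ a a' b b' : ℝ, 0 < a → a < a' → a' ≤ 1 → 0 < b → b < b' → b' ≤ 1 →
  ∀ ε : ℝ, 0 < ε → ∃ X0 : ℕ, ∀ X : ℕ, X0 ≤ X →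
    ∑ N ∈ Finset.Icc 1 X, |pairSum 1 a a' b b' N| / (N : ℝ) ^ 2 ≤ ε * log X

/-- main theorem at almost all scales -/
def ZSStmt : Prop := ∀ α β : ℝ, 0 < α → α < β →
  Filter.Tendsto (fun X : ℕ => (1 / log X) * ∑ x ∈ Finset.Icc 1 X, (1 / (x : ℝ) ^ 2) *
    |∑ n ∈ Finset.Icc 1 x, ((ArithmeticFunction.liouville (n ^ 2 + 1) : ℤ) : ℝ) *
      (((n ^ 2 + 1).divisors.filter (fun d : ℕ => α * n < d ∧ (d : ℝ) ≤ β * n)).card : ℝ)|)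
    Filter.atTop (nhds 0)

end Pool.Agent.LogCh
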