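import Mathlib
import Pool.Agent.Lib.LogCh.EDefs
import Pool.Agent.Lib.LogCh.SDefs

/-!
# The kernel estimate for arbitrary subsets of the primes of a block
-/

set_option autoImplicit false

namespace Pool.Agent.LogCh

open Real
open Pool.Agent.NSqP
open Pool.Agent.MP484c84Par (ballG mem_ballG crossG dotG)

/-- the number of the block of `q` -/
private noncomputable def esKf (P : ℕ) (h : ℝ) (q : ℕ) : ℕ :=
  sInf {k : ℕ | (q : ℝ) ≤ (P : ℝ) * (1 + h) ^ (k + 1)}

private lemma esKf_spec {P : ℕ} {h : ℝ} {C1 K : ℕ} (hP : 1 ≤ P) (hh : 0 < h)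
    (hK : (C1 : ℝ) ≤ (1 + h) ^ K) {q : ℕ} (hq : q ∈ QQ C1 P) :
    esKf P h q < K + 1 ∧ (P : ℝ) * (1 + h) ^ (esKf P h q) < q ∧
      (q : ℝ) ≤ (1 + h) * ((P : ℝ) * (1 + h) ^ (esKf P h q)) := by
  have hP' : (0 : ℝ) < P := by exact_mod_cast hP
  unfold QQ at hq
  rw [Finset.mem_filter, Finset.mem_Ioc] at hq
  obtain ⟨⟨h1, h2⟩, _⟩ := hq
  have h1' : (P : ℝ) < q := by exact_mod_cast h1
  have h2' : (q : ℝ) ≤ C1 * P := by exact_mod_cast h2
  have hne : K ∈ {k : ℕ | (q : ℝ) ≤ (P : ℝ) * (1 + h) ^ (k + 1)} := by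
    show (q : ℝ) ≤ (P : ℝ) * (1 + h) ^ (K + 1)
    calc (q : ℝ) ≤ C1 * P := h2'
      _ ≤ (1 + h) ^ K * P := by gcongr
      _ ≤ (1 + h) ^ (K + 1) * P := by
          gcongr
          · linarith
          · exact Nat.le_succ K
      _ = (P : ℝ) * (1 + h) ^ (K + 1) := by ring
  have hmem : esKf P h q ∈ {k : ℕ | (q : ℝ) ≤ (P : ℝ) * (1 + h) ^ (k + 1)} := Nat.sInf_mem ⟨K, hne⟩
  have hmem' : (q : ℝ) ≤ (P : ℝ) * (1 + h) ^ (esKf P h q + 1) := hmem
  refine ⟨Nat.lt_succ_of_le (Nat.sInf_le hne), ?_, ?_⟩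
  · rcases Nat.eq_zero_or_pos (esKf P h q) with h0 | h0
    · rw [h0, pow_zero, mul_one]; exact h1'
    · by_contra hcon
      push Not at hcon
      have : esKf P h q - 1 ∈ {k : ℕ | (q : ℝ) ≤ (P : ℝ) * (1 + h) ^ (k + 1)} := by
        show (q : ℝ) ≤ (P : ℝ) * (1 + h) ^ (esKf P h q - 1 + 1)
        rw [Nat.sub_add_cancel h0]; exact hcon
      have h3 : esKf P h q ≤ esKf P h q - 1 := Nat.sInf_le this
      omega
  · calc (q : ℝ) ≤ (P : ℝ) * (1 + h) ^ (esKf P h q + 1) := hmem'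
      _ = (1 + h) * ((P : ℝ) * (1 + h) ^ (esKf P h q)) := by rw [pow_succ]; ring

/-- **MAINBS** (from `BLOCKStmt`): the kernel estimate for arbitrary sets of primes; the proof is
that of `MAINBp`, with the set `S` in place of `QQ C1 P`. -/
theorem MAINBSp (hB : BLOCKStmt) : MAINBSStmt := by
  intro C1 c hC1 hc hQ a a' b b' ha haa ha1 hb hbb hb1 ε hε
  obtain ⟨C, hC, hBl⟩ := hB C1 a a' b b' (by omega) ha haa ha1 hb hbb hb1
  set κ : ℝ := min (1 / 8) (ε ^ 2 / (8 * C)) with hκ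
  have hκ0 : 0 < κ := lt_min (by norm_num) (by positivity)
  have hκ1 : κ ≤ 1 / 8 := min_le_left _ _
  have hκ2 : κ ≤ ε ^ 2 / (8 * C) := min_le_right _ _
  have hC1' : (2 : ℝ) ≤ C1 := by exact_mod_cast hC1
  set h : ℝ := κ ^ 2 / (1 + 2 * C1) with hh
  have hden : (0 : ℝ) < 1 + 2 * C1 := by positivity
  have hh0 : 0 < h := by positivity
  have hh1 : h * (1 + 2 * C1 / κ) ≤ 1 := by
    have e : h * (1 + 2 * C1 / κ) = κ * ((κ + 2 * C1) / (1 + 2 * C1)) := by
      rw [hh]; field_simp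
    rw [e]
    have : (κ + 2 * C1) / (1 + 2 * C1) ≤ 1 := by
      rw [div_le_one hden]; linarith
    calc κ * ((κ + 2 * C1) / (1 + 2 * C1)) ≤ κ * 1 := by gcongr
      _ ≤ 1 := by linarith
  have hhk : h / κ ≤ κ := by
    rw [hh, div_div, div_le_iff₀ (by positivity)]
    have : (1 : ℝ) ≤ 1 + 2 * C1 := by linarith
    nlinarith [sq_nonneg κ, mul_pos hκ0 hκ0]
  obtain ⟨K, hK⟩ := pow_unbounded_of_one_lt (C1 : ℝ) (by linarith : (1 : ℝ) < 1 + h)
  have hK' := hK.le
  set δ : ℝ := (ε * c / (2 * (K + 1))) ^ 2 with hδ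
  have hK1 : (0 : ℝ) < (K : ℝ) + 1 := by positivity
  have hδ0 : 0 < δ := by positivity
  obtain ⟨P0, hP0⟩ := hBl κ h δ hκ0 (by linarith) hh0 hh1 hδ0
  refine ⟨max P0 2, fun P hP => ?_⟩
  have hPP0 : P0 ≤ P := le_trans (le_max_left _ _) hP
  have hP2 : 2 ≤ P := le_trans (le_max_right _ _) hP
  have hP' : (2 : ℝ) ≤ P := by exact_mod_cast hP2
  have hPpos : (0 : ℝ) < P := by linarith
  have hlog : 0 < log (P : ℝ) := Real.log_pos (by linarith)
  suffices hS : ∀ S ⊆ QQ C1 P, ∃ N0 : ℕ, ∀ N : ℕ, N0 ≤ N →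
      |∑ q ∈ S, pairSum q a a' b b' N| ≤ ε * N * (QQ C1 P).card by
    choose! N0 hN0 using hS
    refine ⟨(QQ C1 P).powerset.sup N0, fun N hN S hSQ => ?_⟩
    exact hN0 S hSQ N (le_trans (Finset.le_sup (Finset.mem_powerset.2 hSQ)) hN)
  intro S hSQ
  -- the blocks
  set A : ℕ → Finset ℕ := fun k => S.filter (fun q => esKf P h q = k) with hA
  have hAsub : ∀ k, A k ⊆ QQ C1 P := fun k => (Finset.filter_subset _ _).trans hSQ
  have hblk : ∀ k, ∃ N0 : ℕ, ∀ N : ℕ, N0 ≤ N → |∑ q ∈ A k, pairSum q a a' b b' N| ≤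
      N * (ε / 2 * (A k).card + √δ * (P / log P)) := by
    intro k
    rcases (A k).eq_empty_or_nonempty with he | ⟨q0, hq0⟩
    · refine ⟨0, fun N _ => ?_⟩
      rw [he]
      simp only [Finset.sum_empty, abs_zero, Finset.card_empty, Nat.cast_zero, mul_zero, zero_add]
      positivity
    · have hall : ∀ q ∈ A k, (P : ℝ) * (1 + h) ^ k < (q : ℕ) ∧
          ((q : ℕ) : ℝ) ≤ (1 + h) * ((P : ℝ) * (1 + h) ^ k) := by
        intro q hq
        rw [hA, Finset.mem_filter] at hq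
        have h3 := esKf_spec (by omega : 1 ≤ P) hh0 hK' (hSQ hq.1)
        rw [hq.2] at h3
        exact h3.2
      have hX1 : (P : ℝ) ≤ (P : ℝ) * (1 + h) ^ k := by
        have : (1 : ℝ) ≤ (1 + h) ^ k := one_le_pow₀ (by linarith)
        nlinarith
      have hX2 : (P : ℝ) * (1 + h) ^ k ≤ C1 * P := by
        have h4 := (hall q0 hq0).1
        have h5 := hAsub k hq0
        unfold QQ at h5
        rw [Finset.mem_filter, Finset.mem_Ioc] at h5
        have h6 : (q0 : ℝ) ≤ C1 * P := by exact_mod_cast h5.1.2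
        linarith
      obtain ⟨N0, hN0⟩ := hP0 P hPP0 (A k) (hAsub k) ((P : ℝ) * (1 + h) ^ k) hX1 hX2 hall
      refine ⟨N0, fun N hN => ?_⟩
      have h7 := hN0 N hN
      have h8 : |∑ q ∈ A k, pairSum q a a' b b' N| ^ 2 ≤
          (N * (ε / 2 * (A k).card + √δ * (P / log P))) ^ 2 := by
        rw [sq_abs]
        refine h7.trans ?_
        rw [mul_pow]
        have hcc : C * (κ + h / κ) ≤ (ε / 2) ^ 2 := by
          have : κ + h / κ ≤ 2 * (ε ^ 2 / (8 * C)) := by linarith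
          calc C * (κ + h / κ) ≤ C * (2 * (ε ^ 2 / (8 * C))) := by gcongr
            _ = (ε / 2) ^ 2 := by field_simp; ring
        have hcard : (0 : ℝ) ≤ (A k).card := Nat.cast_nonneg _
        have hPl : (0 : ℝ) ≤ P / log P := by positivity
        have hsd : √δ ^ 2 = δ := Real.sq_sqrt hδ0.le
        have hs0 : 0 ≤ √δ := Real.sqrt_nonneg _
        gcongr
        calc C * (κ + h / κ) * ((A k).card : ℝ) ^ 2 + δ * (P / log P) ^ 2
            ≤ (ε / 2) ^ 2 * ((A k).card : ℝ) ^ 2 + √δ ^ 2 * (P / log P) ^ 2 := by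
              rw [hsd]; gcongr
          _ ≤ (ε / 2 * (A k).card + √δ * (P / log P)) ^ 2 := by
              have : 0 ≤ (ε / 2 * (A k).card) * (√δ * (P / log P)) := by positivity
              nlinarith
      exact (abs_le_of_sq_le_sq' h8 (by positivity)).2
  choose N0 hN0 using hblk
  refine ⟨(Finset.range (K + 1)).sup N0, fun N hN => ?_⟩
  have hmaps : ∀ q ∈ S, esKf P h q ∈ Finset.range (K + 1) := by
    intro q hq
    rw [Finset.mem_range]
    exact (esKf_spec (by omega : 1 ≤ P) hh0 hK' (hSQ hq)).1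
  have hsum : ∑ q ∈ S, pairSum q a a' b b' N =
      ∑ k ∈ Finset.range (K + 1), ∑ q ∈ A k, pairSum q a a' b b' N :=
    (Finset.sum_fiberwise_of_maps_to hmaps _).symm
  have hcardsum : (S.card : ℝ) = ∑ k ∈ Finset.range (K + 1), ((A k).card : ℝ) := by
    rw [Finset.card_eq_sum_card_fiberwise hmaps]
    push_cast
    rfl
  have hSc : (S.card : ℝ) ≤ (QQ C1 P).card := by exact_mod_cast Finset.card_le_card hSQ
  rw [hsum]
  have hsδ : √δ = ε * c / (2 * (K + 1)) := by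
    rw [hδ, Real.sqrt_sq (by positivity)]
  have hQP : c * (P / log P) ≤ ((QQ C1 P).card : ℝ) := by
    have := hQ P hP2
    calc c * (P / log P) = c * P / log P := by ring
      _ ≤ _ := this
  calc |∑ k ∈ Finset.range (K + 1), ∑ q ∈ A k, pairSum q a a' b b' N|
      ≤ ∑ k ∈ Finset.range (K + 1), |∑ q ∈ A k, pairSum q a a' b b' N| :=
        Finset.abs_sum_le_sum_abs _ _
    _ ≤ ∑ k ∈ Finset.range (K + 1), (N : ℝ) * (ε / 2 * (A k).card + √δ * (P / log P)) := by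
        apply Finset.sum_le_sum
        intro k hk
        exact hN0 k N (le_trans (Finset.le_sup hk) hN)
    _ = N * (ε / 2 * S.card + (K + 1) * (√δ * (P / log P))) := by
        rw [← Finset.mul_sum, Finset.sum_add_distrib, ← Finset.mul_sum, ← hcardsum,
          Finset.sum_const, Finset.card_range, nsmul_eq_mul]
        push_cast
        ring
    _ = N * (ε / 2 * S.card + ε / 2 * (c * (P / log P))) := by
        rw [hsδ]; field_simp
    _ ≤ N * (ε / 2 * (QQ C1 P).card + ε / 2 * (QQ C1 P).card) := by gcongr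
    _ = ε * N * (QQ C1 P).card := by ring

end Pool.Agent.LogCh
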