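import Pool.Agent.Lib.LogCh.FFar
import Pool.Agent.Lib.NSqP.Near
import Pool.Agent.Lib.NSqP.LS

/-!
# ENDS: few primitive elements near the ends of the arcs

For each `i < K`: `cd (ang z - i/K) < δ` implies `‖xi z - ee (i/K)‖ ≤ 2 π δ` (`xi_eq_ee`, `chord_le_cd`);
the `xi z`, `z ∈ S`, are `1/N`-separated (`prim_sep`), so `near_count` (`u = xi`, `L = N`, `r = 2 π δ`) gives
at most `1 + 8 π δ N ≤ 1 + 26 δ N` of them. Sum over `i` (`Finset.card_biUnion_le`).
-/

set_option autoImplicit false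

namespace Pool.Agent.LogCh

open Real
open Pool.Agent.NSqP
open Pool.Agent.MP484c84Par (ballG mem_ballG crossG dotG)

open Classical in
theorem ENDS (N K : ℕ) (hN : 1 ≤ N) (δ : ℝ) (hδ : 0 ≤ δ) (S : Finset GaussianInt)
    (hS : ∀ z ∈ S, Prim z ∧ nN z ≤ N) :
    ((S.filter (fun z => ∃ i < K, cd (ang z - (i : ℝ) / K) < δ)).card : ℝ) ≤
      K * (1 + 26 * δ * N) := by
  have hN1 : (1 : ℝ) ≤ N := by exact_mod_cast hN
  have hpi := Real.pi_pos
  have hpi2 := Real.pi_lt_d2
  have hone : ∀ i : ℕ, ((S.filter (fun z => cd (ang z - (i : ℝ) / K) < δ)).card : ℝ) ≤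
      1 + 26 * δ * N := by
    intro i
    have h1 := near_count S xi (ee ((i : ℝ) / K)) N (2 * π * δ) hN1 (by positivity)
      (norm_ee _) (fun z hz => norm_xi (prim_ne_zero (hS z hz).1))
      (fun z hz w hw hne => prim_sep (hS z hz).1 (hS w hw).1 hne hN1
        (by exact_mod_cast (hS z hz).2) (by exact_mod_cast (hS w hw).2))
    have h2 : S.filter (fun z => cd (ang z - (i : ℝ) / K) < δ) ⊆
        S.filter (fun z => ‖xi z - ee ((i : ℝ) / K)‖ ≤ 2 * π * δ) := by
      intro z hz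
      rw [Finset.mem_filter] at hz ⊢
      refine ⟨hz.1, ?_⟩
      rw [xi_eq_ee (prim_ne_zero (hS z hz.1).1)]
      refine (chord_le_cd _ _).trans ?_
      exact mul_le_mul_of_nonneg_left hz.2.le (by positivity)
    have h3 : ((S.filter (fun z => cd (ang z - (i : ℝ) / K) < δ)).card : ℝ) ≤
        ((S.filter (fun z => ‖xi z - ee ((i : ℝ) / K)‖ ≤ 2 * π * δ)).card : ℝ) := by
      exact_mod_cast Finset.card_le_card h2
    refine h3.trans (h1.trans ?_)
    have h4 : 0 ≤ δ * N := by positivity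
    nlinarith
  have hsub : S.filter (fun z => ∃ i < K, cd (ang z - (i : ℝ) / K) < δ) ⊆
      (Finset.range K).biUnion (fun i => S.filter (fun z => cd (ang z - (i : ℝ) / K) < δ)) := by
    intro z hz
    rw [Finset.mem_filter] at hz
    obtain ⟨hzS, i, hi, hc⟩ := hz
    rw [Finset.mem_biUnion]
    exact ⟨i, Finset.mem_range.2 hi, Finset.mem_filter.2 ⟨hzS, hc⟩⟩
  have h5 : ((S.filter (fun z => ∃ i < K, cd (ang z - (i : ℝ) / K) < δ)).card : ℝ) ≤
      ∑ i ∈ Finset.range K, ((S.filter (fun z => cd (ang z - (i : ℝ) / K) < δ)).card : ℝ) := by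
    exact_mod_cast (Finset.card_le_card hsub).trans Finset.card_biUnion_le
  refine h5.trans ?_
  refine (Finset.sum_le_sum (fun i _ => hone i)).trans ?_
  rw [Finset.sum_const, Finset.card_range, nsmul_eq_mul]

end Pool.Agent.LogCh
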