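import Pool.Agent.Lib.LogCh.FSmo
import Pool.Agent.Lib.LogCh.FEnds
import Pool.Agent.Lib.NSqP.LC

/-!
# ARC: from frequencies to arcs

`arc_sep`: let `s, t ∈ [0,1)` with `⌊K s⌋₊ ≠ ⌊K t⌋₊` and `δ ≤ cd (t - i/K)` for all `i < K`. Then
`δ ≤ cd (t - s)`.

`ARC`: the sum over the arcs of the absolute values of the sums of `f` is at most the `L²` norm of
the Fourier coefficients at the frequencies `|m| < M`, plus `O(K + η N + N K / (η M))`.
-/

set_option autoImplicit false

namespace Pool.Agent.LogCh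

open Real
open Pool.Agent.NSqP
open Pool.Agent.MP484c84Par (ballG mem_ballG crossG dotG)

private lemma farc_cd_lower {x : ℝ} {δ : ℝ} (h1 : δ ≤ |x|) (h2 : δ ≤ 1 - |x|) : δ ≤ cd x := by
  unfold cd
  rcases eq_or_ne (round x) 0 with h | h
  · rw [h]; simpa using h1
  · have h3 : (1 : ℝ) ≤ |((round x : ℤ) : ℝ)| := by
      rw [← Int.cast_abs]
      exact_mod_cast Int.one_le_abs h
    have h4 : |((round x : ℤ) : ℝ)| - |x| ≤ |x - ((round x : ℤ) : ℝ)| := by
      rw [abs_sub_comm]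
      exact abs_sub_abs_le_abs_sub _ _
    linarith

theorem arc_sep (K : ℕ) (hK : 1 ≤ K) (s t δ : ℝ) (hs : 0 ≤ s) (hs1 : s < 1) (ht : 0 ≤ t)
    (ht1 : t < 1) (hne : ⌊(K : ℝ) * s⌋₊ ≠ ⌊(K : ℝ) * t⌋₊)
    (hδ : ∀ i < K, δ ≤ cd (t - (i : ℝ) / K)) : δ ≤ cd (t - s) := by
  have hK0 : (0 : ℝ) < K := by exact_mod_cast hK
  have h0 : δ ≤ cd t := by
    have := hδ 0 (by omega)
    simpa using this
  refine farc_cd_lower ?_ ?_
  · rcases lt_or_gt_of_ne hne with h | h
    · -- s is in an earlier arc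
      set i : ℕ := ⌊(K : ℝ) * t⌋₊ with hi
      have h1 : (i : ℝ) ≤ K * t := Nat.floor_le (by positivity)
      have h2 : (K : ℝ) * s < i := by
        have h3 := Nat.lt_floor_add_one ((K : ℝ) * s)
        have h4 : ((⌊(K : ℝ) * s⌋₊ : ℕ) : ℝ) + 1 ≤ i := by exact_mod_cast h
        linarith
      have h5 : i < K := by
        have : (i : ℝ) < K := by nlinarith
        exact_mod_cast this
      have h6 : (i : ℝ) / K ≤ t := by rw [div_le_iff₀ hK0]; linarith
      have h7 : s < (i : ℝ) / K := by rw [lt_div_iff₀ hK0]; linarith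
      have h8 : cd (t - (i : ℝ) / K) ≤ |t - (i : ℝ) / K - (0 : ℤ)| := round_le _ _
      have h9 : |t - (i : ℝ) / K - (0 : ℤ)| = t - (i : ℝ) / K := by
        rw [Int.cast_zero, sub_zero, abs_of_nonneg (by linarith)]
      have h10 := hδ i h5
      have h11 : |t - s| = t - s := abs_of_nonneg (by linarith)
      rw [h11]; linarith
    · set i : ℕ := ⌊(K : ℝ) * s⌋₊ with hi
      have h1 : (i : ℝ) ≤ K * s := Nat.floor_le (by positivity)
      have h2 : (K : ℝ) * t < i := by
        have h3 := Nat.lt_floor_add_one ((K : ℝ) * t)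
        have h4 : ((⌊(K : ℝ) * t⌋₊ : ℕ) : ℝ) + 1 ≤ i := by exact_mod_cast h
        linarith
      have h5 : i < K := by
        have : (i : ℝ) < K := by nlinarith
        exact_mod_cast this
      have h6 : (i : ℝ) / K ≤ s := by rw [div_le_iff₀ hK0]; linarith
      have h7 : t < (i : ℝ) / K := by rw [lt_div_iff₀ hK0]; linarith
      have h8 : cd (t - (i : ℝ) / K) ≤ |t - (i : ℝ) / K - (0 : ℤ)| := round_le _ _
      have h9 : |t - (i : ℝ) / K - (0 : ℤ)| = (i : ℝ) / K - t := by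
        rw [Int.cast_zero, sub_zero, abs_of_nonpos (by linarith)]; ring
      have h10 := hδ i h5
      have h11 : |t - s| = s - t := by rw [abs_of_nonpos (by linarith)]; ring
      rw [h11]; linarith
  · rcases le_total s t with h | h
    · have h1 : cd t ≤ |t - (1 : ℤ)| := round_le _ _
      have h2 : |t - (1 : ℤ)| = 1 - t := by
        rw [Int.cast_one, abs_of_nonpos (by linarith)]; ring
      rw [abs_of_nonneg (by linarith : 0 ≤ t - s)]
      linarith
    · have h1 : cd t ≤ |t - (0 : ℤ)| := round_le _ _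
      have h2 : |t - (0 : ℤ)| = t := by
        rw [Int.cast_zero, sub_zero, abs_of_nonneg ht]
      rw [abs_of_nonpos (by linarith : t - s ≤ 0)]
      linarith

private lemma farc_arcI_lt {K : ℕ} (hK : 1 ≤ K) (z : GaussianInt) : arcI K z < K := by
  have hK0 : (0 : ℝ) < K := by exact_mod_cast hK
  unfold arcI
  rw [Nat.floor_lt (mul_nonneg hK0.le (ang_nonneg z))]
  have := ang_lt_one z
  nlinarith

open Classical in
theorem ARC : ∃ C : ℝ, 0 < C ∧ ∀ (N K M : ℕ) (η : ℝ) (S : Finset GaussianInt)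
    (f : GaussianInt → ℝ), 1 ≤ N → 1 ≤ K → 1 ≤ M → 0 < η → (∀ z ∈ S, Prim z ∧ nN z ≤ N) →
    (∀ z ∈ S, |f z| ≤ 1) →
    ∑ i ∈ Finset.range K, |∑ z ∈ S.filter (fun z => arcI K z = i), f z| ≤
      √(∑ m ∈ fr M, ‖∑ z ∈ S, (f z : ℂ) * xi z ^ m‖ ^ 2) +
        C * (K + η * N + N * K / (η * M)) := by
  obtain ⟨C0, hC0, hcard⟩ := card_ann_le
  refine ⟨52 + 16 * C0, by positivity, ?_⟩
  intro N K M η S f hN hK hM hη hS hf
  have hN0 : (0 : ℝ) < N := by exact_mod_cast hN
  have hK0 : (0 : ℝ) < K := by exact_mod_cast hK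
  have hM0 : (0 : ℝ) < M := by exact_mod_cast hM
  -- signs
  set σ : ℕ → ℝ := fun i => if 0 ≤ ∑ z ∈ S.filter (fun z => arcI K z = i), f z then 1 else -1
    with hσ
  have hσ1 : ∀ i, |σ i| ≤ 1 := by
    intro i
    simp only [hσ]
    split_ifs <;> simp
  have hσabs : ∀ i, |∑ z ∈ S.filter (fun z => arcI K z = i), f z| =
      ∑ z ∈ S.filter (fun z => arcI K z = i), f z * σ (arcI K z) := by
    intro i
    have h1 : ∑ z ∈ S.filter (fun z => arcI K z = i), f z * σ (arcI K z) =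
        (∑ z ∈ S.filter (fun z => arcI K z = i), f z) * σ i := by
      rw [Finset.sum_mul]
      refine Finset.sum_congr rfl fun z hz => ?_
      rw [(Finset.mem_filter.1 hz).2]
    rw [h1]
    simp only [hσ]
    split_ifs with h
    · rw [abs_of_nonneg h, mul_one]
    · rw [abs_of_neg (not_le.1 h)]; ring
  have hsum : ∑ i ∈ Finset.range K, |∑ z ∈ S.filter (fun z => arcI K z = i), f z| =
      ∑ z ∈ S, f z * σ (arcI K z) := by
    rw [Finset.sum_congr rfl fun i _ => hσabs i]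
    exact Finset.sum_fiberwise_of_maps_to
      (fun z _ => Finset.mem_range.2 (farc_arcI_lt hK z)) _
  -- the grid
  set δ : ℝ := η / K with hδ
  have hδ0 : 0 < δ := by positivity
  set T : ℕ := max (2 * M) ⌈1 / η⌉₊ with hT
  set R : ℕ := K * T with hR
  have hT1 : 1 ≤ T := le_trans (by omega) (le_max_left _ _)
  have hR1 : 1 ≤ R := Nat.mul_pos hK hT1
  have hRM : 2 * M ≤ R := by
    calc 2 * M ≤ T := le_max_left _ _
      _ ≤ K * T := Nat.le_mul_of_pos_left _ hK
  have hR0 : (0 : ℝ) < R := by exact_mod_cast hR1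
  have hRδ : 1 ≤ (R : ℝ) * δ := by
    have h1 : (1 / η : ℝ) ≤ T := (Nat.le_ceil _).trans (by exact_mod_cast le_max_right _ _)
    have h2 : (R : ℝ) * δ = T * η := by
      rw [hR, hδ]; push_cast; field_simp
    rw [h2]
    rw [div_le_iff₀ hη] at h1
    exact h1
  set g : ℕ → ℂ := fun j => ((σ ⌊(K : ℝ) * ((j : ℝ) / R)⌋₊ : ℝ) : ℂ) with hg
  have hg1 : ∀ j < R, ‖g j‖ ≤ 1 := by
    intro j _
    simp only [hg]
    rw [Complex.norm_real]; exact hσ1 _
  have hu : ∀ z ∈ S, ‖xi z‖ = 1 := fun z hz => norm_xi (prim_ne_zero (hS z hz).1)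
  have hsm := SMOOTH S (fun z => (f z : ℂ)) xi (fun z => ((σ (arcI K z) : ℝ) : ℂ)) R M g hM hRM
    hg1 hu (fun z hz => by rw [Complex.norm_real]; exact hf z hz)
  have hlhs : ∑ z ∈ S, f z * σ (arcI K z) ≤
      ‖∑ z ∈ S, (fun z => (f z : ℂ)) z * (fun z => ((σ (arcI K z) : ℝ) : ℂ)) z‖ := by
    have h1 : ∑ z ∈ S, (fun z => (f z : ℂ)) z * (fun z => ((σ (arcI K z) : ℝ) : ℂ)) z =
        ((∑ z ∈ S, f z * σ (arcI K z) : ℝ) : ℂ) := by push_cast; rfl
    rw [h1, Complex.norm_real]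
    exact le_abs_self _
  rw [hsum]
  refine (hlhs.trans hsm).trans ?_
  refine add_le_add_right ?_ _
  -- the error terms
  set near : Finset GaussianInt := S.filter (fun z => ∃ i < K, cd (ang z - (i : ℝ) / K) < δ)
    with hnear
  have hdiff : ∀ z j, ‖((σ (arcI K z) : ℝ) : ℂ) - g j‖ ≤ 2 := by
    intro z j
    simp only [hg]
    rw [← Complex.ofReal_sub, Complex.norm_real, Real.norm_eq_abs]
    have h1 := hσ1 (arcI K z)
    have h2 := hσ1 ⌊(K : ℝ) * ((j : ℝ) / R)⌋₊
    rw [abs_le] at h1 h2 ⊢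
    constructor <;> linarith [h1.1, h1.2, h2.1, h2.2]
  have hE : ∀ z ∈ S, (1 / (R : ℝ)) * ∑ j ∈ Finset.range R,
      ‖(fun z => ((σ (arcI K z) : ℝ) : ℂ)) z - g j‖ *
        fejK M (xi z * (starRingEnd ℂ) (ee ((j : ℝ) / R))) ≤
      (if z ∈ near then 2 else 0) + 16 * K / (M * η) := by
    intro z hz
    have hz0 := prim_ne_zero (hS z hz).1
    by_cases hzn : z ∈ near
    · rw [if_pos hzn]
      have h1 : (1 / (R : ℝ)) * ∑ j ∈ Finset.range R,
          ‖(fun z => ((σ (arcI K z) : ℝ) : ℂ)) z - g j‖ *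
            fejK M (xi z * (starRingEnd ℂ) (ee ((j : ℝ) / R))) ≤
          (1 / (R : ℝ)) * ∑ j ∈ Finset.range R,
            2 * fejK M (xi z * (starRingEnd ℂ) (ee ((j : ℝ) / R))) := by
        apply mul_le_mul_of_nonneg_left _ (by positivity)
        exact Finset.sum_le_sum fun j _ =>
          mul_le_mul_of_nonneg_right (hdiff z j) (fejK_nonneg _ _)
      rw [← Finset.mul_sum] at h1
      have h2 := fej_mean R M hM hRM (hu z hz)
      have h3 : (1 / (R : ℝ)) * (2 * ∑ j ∈ Finset.range R,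
          fejK M (xi z * (starRingEnd ℂ) (ee ((j : ℝ) / R)))) = 2 := by
        rw [mul_left_comm, h2, mul_one]
      have h4 : 0 ≤ 16 * (K : ℝ) / (M * η) := by positivity
      linarith
    · rw [if_neg hzn, zero_add]
      have hfar : ∀ i < K, δ ≤ cd (ang z - (i : ℝ) / K) := by
        intro i hi
        by_contra hc
        exact hzn (Finset.mem_filter.2 ⟨hz, i, hi, not_le.1 hc⟩)
      have hF := FAR M R hM hR1 (ang z) δ hδ0 hRδ
      have h1 : ∑ j ∈ Finset.range R, ‖(fun z => ((σ (arcI K z) : ℝ) : ℂ)) z - g j‖ *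
            fejK M (xi z * (starRingEnd ℂ) (ee ((j : ℝ) / R))) ≤
          ∑ j ∈ Finset.range R, if δ ≤ cd (ang z - (j : ℝ) / R) then
            2 * fejK M (ee (ang z) * (starRingEnd ℂ) (ee ((j : ℝ) / R))) else 0 := by
        refine Finset.sum_le_sum fun j hj => ?_
        have hjR : (j : ℝ) < R := by exact_mod_cast Finset.mem_range.1 hj
        rw [xi_eq_ee hz0]
        split_ifs with hc
        · exact mul_le_mul_of_nonneg_right (hdiff z j) (fejK_nonneg _ _)
        · have heq : ⌊(K : ℝ) * ((j : ℝ) / R)⌋₊ = ⌊(K : ℝ) * ang z⌋₊ := by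
            by_contra hne
            exact hc (arc_sep K hK ((j : ℝ) / R) (ang z) δ (by positivity)
              (by rw [div_lt_one hR0]; exact hjR) (ang_nonneg z) (ang_lt_one z) hne hfar)
          have h0 : ((σ (arcI K z) : ℝ) : ℂ) - g j = 0 := by
            simp only [hg]
            rw [heq]
            unfold arcI
            rw [sub_self]
          simp only [h0, norm_zero, zero_mul, le_refl]
      rw [← Finset.sum_filter, ← Finset.mul_sum] at h1
      have h2 : ∑ j ∈ Finset.range R, ‖(fun z => ((σ (arcI K z) : ℝ) : ℂ)) z - g j‖ *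
            fejK M (xi z * (starRingEnd ℂ) (ee ((j : ℝ) / R))) ≤ 2 * (8 * R / (M * δ)) :=
        h1.trans (mul_le_mul_of_nonneg_left hF (by norm_num))
      calc _ ≤ (1 / (R : ℝ)) * (2 * (8 * R / (M * δ))) :=
            mul_le_mul_of_nonneg_left h2 (by positivity)
        _ = 16 * K / (M * η) := by
            rw [hδ]; field_simp; ring
  have hEsum := Finset.sum_le_sum hE
  refine hEsum.trans ?_
  rw [Finset.sum_add_distrib, Finset.sum_const, nsmul_eq_mul]
  have hn1 : ∑ z ∈ S, (if z ∈ near then (2 : ℝ) else 0) = 2 * near.card := by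
    rw [← Finset.sum_filter, Finset.sum_const, nsmul_eq_mul, mul_comm]
    congr 2
    congr 1
    ext z
    simp only [Finset.mem_filter, hnear]
    tauto
  have hn2 : (near.card : ℝ) ≤ K * (1 + 26 * δ * N) := ENDS N K hN δ hδ0.le S hS
  have hn3 : (K : ℝ) * (1 + 26 * δ * N) = K + 26 * (η * N) := by
    rw [hδ]; field_simp
  have hSc : (S.card : ℝ) ≤ C0 * N := by
    refine le_trans ?_ (hcard N hN0.le)
    have : S ⊆ ann 0 (N : ℝ) := by
      intro z hz
      rw [mem_ann hN0.le]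
      exact ⟨by exact_mod_cast nN_pos (prim_ne_zero (hS z hz).1), by exact_mod_cast (hS z hz).2⟩
    exact_mod_cast Finset.card_le_card this
  have hlast : (S.card : ℝ) * (16 * K / (M * η)) ≤ 16 * C0 * (N * K / (η * M)) := by
    calc (S.card : ℝ) * (16 * K / (M * η)) ≤ C0 * N * (16 * K / (M * η)) :=
          mul_le_mul_of_nonneg_right hSc (by positivity)
      _ = 16 * C0 * (N * K / (η * M)) := by field_simp
  have hq : 0 ≤ (N : ℝ) * K / (η * M) := by positivity
  rw [hn1]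
  rw [hn3] at hn2
  have hηN : 0 ≤ η * N := by positivity
  nlinarith [mul_nonneg hC0.le hηN, mul_nonneg hC0.le hK0.le, mul_nonneg hC0.le hq]

end Pool.Agent.LogCh
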