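import Pool.Agent.Lib.LogCh.FDefs

/-!
# BESSEL: Bessel's inequality on `Z / R`

`u_j = ee (j / R)`. For integers `m ≠ m'` in `fr M`, `0 < |m - m'| < 2 M ≤ R`, so
`∑ j < R, u_j ^ (m - m') = 0` (geometric sum with ratio `ee ((m - m') / R) ≠ 1`, `ee_zpow`, and
`ratio ^ R = ee (m - m') = 1`). With `c_m = (1/R) ∑ g_j u_j ^ (-m)`,
`0 ≤ (1/R) ∑_j ‖g_j - ∑_m c_m u_j ^ m‖ ^ 2 = (1/R) ∑ ‖g_j‖ ^ 2 - ∑_m ‖c_m‖ ^ 2`.
`sum_ee` is used again in `SMOOTH`.
-/

set_option autoImplicit false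

namespace Pool.Agent.LogCh

open Real
open Pool.Agent.NSqP
open Pool.Agent.MP484c84Par (ballG mem_ballG crossG dotG)

private lemma ee_one_iff (t : ℝ) (h : ee t = 1) : ∃ n : ℤ, t = n := by
  unfold ee at h
  rw [Complex.exp_eq_one_iff] at h
  obtain ⟨n, hn⟩ := h
  refine ⟨n, ?_⟩
  have h1 := congrArg Complex.im hn
  simp at h1
  have h2 : (2 * π) * t = (2 * π) * n := by linarith
  exact mul_left_cancel₀ (by positivity) h2

theorem sum_ee (R : ℕ) (hR : 1 ≤ R) (m : ℤ) (hm : m ≠ 0) (h : |m| < R) :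
    ∑ j ∈ Finset.range R, ee ((j : ℝ) / R) ^ m = 0 := by
  have hR0 : (0 : ℝ) < R := by exact_mod_cast hR
  set q : ℂ := ee ((m : ℝ) / R) with hq
  have hq1 : q ≠ 1 := by
    intro h1
    obtain ⟨n, hn⟩ := ee_one_iff _ h1
    rw [div_eq_iff hR0.ne'] at hn
    have hn' : m = n * R := by exact_mod_cast hn
    rcases eq_or_ne n 0 with rfl | hn0
    · apply hm; rw [hn', zero_mul]
    · have h2 : 1 ≤ |n| := Int.one_le_abs hn0
      have h3 : |m| = |n| * R := by
        rw [hn', abs_mul, Nat.abs_cast]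
      have hRz : (0 : ℤ) ≤ R := Int.natCast_nonneg R
      nlinarith
  have hterm : ∀ j : ℕ, ee ((j : ℝ) / R) ^ m = q ^ j := by
    intro j
    rw [ee_zpow, hq]
    have h4 : ee ((m : ℝ) / R) ^ j = ee ((m : ℝ) / R) ^ (j : ℤ) := (zpow_natCast _ _).symm
    rw [h4, ee_zpow]
    congr 1
    push_cast
    ring
  rw [Finset.sum_congr rfl fun j _ => hterm j, geom_sum_eq hq1]
  have hqR : q ^ R = 1 := by
    have h4 : q ^ R = q ^ (R : ℤ) := (zpow_natCast _ _).symm
    rw [h4, hq, ee_zpow]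
    have h5 : ((R : ℤ) : ℝ) * ((m : ℝ) / R) = m := by
      push_cast; field_simp
    rw [h5, ee_int]
  rw [hqR, sub_self, zero_div]

theorem BESSEL (R M : ℕ) (hM : 1 ≤ M) (hR : 2 * M ≤ R) (g : ℕ → ℂ) (hg : ∀ j < R, ‖g j‖ ≤ 1) :
    ∑ m ∈ fr M, ‖(1 / (R : ℂ)) * ∑ j ∈ Finset.range R, g j * ee ((j : ℝ) / R) ^ (-m)‖ ^ 2 ≤ 1 := by
  have hR1 : 1 ≤ R := by omega
  have hR0 : (0 : ℝ) < R := by exact_mod_cast hR1
  have hRC : (R : ℂ) ≠ 0 := by exact_mod_cast hR0.ne'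
  set u : ℕ → ℂ := fun j => ee ((j : ℝ) / R) with hu
  set c : ℤ → ℂ := fun m => (1 / (R : ℂ)) * ∑ j ∈ Finset.range R, g j * u j ^ (-m) with hc
  change ∑ m ∈ fr M, ‖c m‖ ^ 2 ≤ 1
  have hu0 : ∀ j, u j ≠ 0 := fun j => ee_ne_zero _
  have hconj : ∀ (j : ℕ) (m : ℤ), (starRingEnd ℂ) (u j ^ m) = u j ^ (-m) := by
    intro j m
    rw [map_zpow₀, hu]
    simp only
    rw [ee_conj, ee_neg, inv_zpow, zpow_neg]
  have hcs : ∀ m, ∑ j ∈ Finset.range R, g j * u j ^ (-m) = R * c m := by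
    intro m
    rw [hc]
    simp only
    rw [← mul_assoc, mul_one_div, div_self hRC, one_mul]
  set A : ℂ := ∑ m ∈ fr M, c m * (starRingEnd ℂ) (c m) with hA
  have hAre : A = ((∑ m ∈ fr M, ‖c m‖ ^ 2 : ℝ) : ℂ) := by
    rw [hA]
    push_cast
    refine Finset.sum_congr rfl fun m _ => ?_
    rw [Complex.mul_conj, Complex.normSq_eq_norm_sq]
    push_cast
    rfl
  set hh : ℕ → ℂ := fun j => ∑ m ∈ fr M, c m * u j ^ m with hhh
  have hhc : ∀ j, (starRingEnd ℂ) (hh j) = ∑ m ∈ fr M, (starRingEnd ℂ) (c m) * u j ^ (-m) := by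
    intro j
    rw [hhh]
    simp only
    rw [map_sum]
    refine Finset.sum_congr rfl fun m _ => ?_
    rw [map_mul, hconj]
  have e1 : ∑ j ∈ Finset.range R, g j * (starRingEnd ℂ) (hh j) = R * A := by
    simp only [hhc, Finset.mul_sum]
    rw [Finset.sum_comm, hA, Finset.mul_sum]
    refine Finset.sum_congr rfl fun m _ => ?_
    calc ∑ j ∈ Finset.range R, g j * ((starRingEnd ℂ) (c m) * u j ^ (-m))
        = (starRingEnd ℂ) (c m) * ∑ j ∈ Finset.range R, g j * u j ^ (-m) := by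
          rw [Finset.mul_sum]
          refine Finset.sum_congr rfl fun j _ => ?_
          ring
      _ = R * (c m * (starRingEnd ℂ) (c m)) := by rw [hcs]; ring
  have hAc : (starRingEnd ℂ) A = A := by rw [hAre, Complex.conj_ofReal]
  have e2 : ∑ j ∈ Finset.range R, hh j * (starRingEnd ℂ) (g j) = R * A := by
    have h1 := congrArg (starRingEnd ℂ) e1
    rw [map_sum, map_mul, hAc, Complex.conj_natCast] at h1
    rw [← h1]
    refine Finset.sum_congr rfl fun j _ => ?_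
    rw [map_mul, Complex.conj_conj, mul_comm]
  have e3 : ∑ j ∈ Finset.range R, hh j * (starRingEnd ℂ) (hh j) = R * A := by
    have h1 : ∀ j, hh j * (starRingEnd ℂ) (hh j) =
        ∑ m ∈ fr M, ∑ m' ∈ fr M, c m * (starRingEnd ℂ) (c m') * u j ^ (m - m') := by
      intro j
      rw [hhc, hhh]
      simp only
      rw [Finset.sum_mul_sum]
      refine Finset.sum_congr rfl fun m _ => Finset.sum_congr rfl fun m' _ => ?_
      rw [sub_eq_add_neg, zpow_add₀ (hu0 j)]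
      ring
    simp only [h1]
    rw [Finset.sum_comm, hA, Finset.mul_sum]
    refine Finset.sum_congr rfl fun m hm => ?_
    rw [Finset.sum_comm, Finset.sum_eq_single m]
    · simp only [sub_self, zpow_zero, mul_one, Finset.sum_const, Finset.card_range, nsmul_eq_mul]
    · intro m' hm' hne
      rw [← Finset.mul_sum]
      have h2 : m - m' ≠ 0 := sub_ne_zero.2 (Ne.symm hne)
      have h3 : |m - m'| < R := by
        rw [fr, Finset.mem_Ioo] at hm hm'
        rw [abs_lt]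
        constructor <;> omega
      have h4 := sum_ee R hR1 (m - m') h2 h3
      rw [hu]
      simp only
      rw [h4, mul_zero]
    · intro h; exact absurd hm h
  have e4 : ∑ j ∈ Finset.range R, (g j - hh j) * (starRingEnd ℂ) (g j - hh j) =
      ∑ j ∈ Finset.range R, g j * (starRingEnd ℂ) (g j) - R * A := by
    have h1 : ∀ j, (g j - hh j) * (starRingEnd ℂ) (g j - hh j) =
        g j * (starRingEnd ℂ) (g j) - g j * (starRingEnd ℂ) (hh j)
          - hh j * (starRingEnd ℂ) (g j) + hh j * (starRingEnd ℂ) (hh j) := by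
      intro j
      rw [map_sub]; ring
    simp only [h1]
    rw [Finset.sum_add_distrib, Finset.sum_sub_distrib, Finset.sum_sub_distrib, e1, e2, e3]
    ring
  have e5 : ∑ j ∈ Finset.range R, ‖g j - hh j‖ ^ 2 =
      ∑ j ∈ Finset.range R, ‖g j‖ ^ 2 - R * ∑ m ∈ fr M, ‖c m‖ ^ 2 := by
    have h1 : ∀ z : ℂ, z * (starRingEnd ℂ) z = ((‖z‖ ^ 2 : ℝ) : ℂ) := by
      intro z
      rw [Complex.mul_conj, Complex.normSq_eq_norm_sq]
    simp only [h1] at e4
    rw [hAre] at e4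
    exact_mod_cast e4
  have e6 : 0 ≤ ∑ j ∈ Finset.range R, ‖g j - hh j‖ ^ 2 :=
    Finset.sum_nonneg fun j _ => sq_nonneg _
  have e7 : ∑ j ∈ Finset.range R, ‖g j‖ ^ 2 ≤ R := by
    calc ∑ j ∈ Finset.range R, ‖g j‖ ^ 2 ≤ ∑ j ∈ Finset.range R, (1 : ℝ) := by
          refine Finset.sum_le_sum fun j hj => ?_
          have := hg j (Finset.mem_range.1 hj)
          exact pow_le_one₀ (norm_nonneg _) this
      _ = R := by simp
  rw [e5] at e6
  have e8 : (R : ℝ) * ∑ m ∈ fr M, ‖c m‖ ^ 2 ≤ R * 1 := by linarith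
  exact le_of_mul_le_mul_left e8 hR0

end Pool.Agent.LogCh
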