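import Pool.Agent.Lib.LogCh.FDefs

/-!
# CHARS: the indicator of a reduced class modulo `r` is a combination of characters

`Q = GaussianInt ⧸ Ideal.span {(r : GaussianInt)}` is a finite ring (classes of `x + y i`,
`0 ≤ x, y < r`), `G = Qˣ` a finite commutative group. For `ψ : AddChar (Additive G) ℂ` put
`X_ψ z = ψ (ofMul u)` if the class of `z` is the unit `u` (`IsUnit (mk z) ↔ IsCoprime z r`), and `0`
otherwise: this is `ChiMod r`. `∑ ψ, ψ a = if a = 0 then card else 0` (`AddChar.sum_apply_eq_ite`), so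
for `z` a unit mod `r`, `(1 / card G) ∑ ψ, conj (ψ c) ψ z = 1[z = c mod r]`; for `z` not a unit
both sides vanish (`r ∣ z - c` and `c` coprime to `r` imply `z` coprime to `r`). Index the
characters by `Fin n` (`Fintype.equivFin`), `n = card`, `α i = conj (ψ_i c) / card G`.
-/

set_option autoImplicit false

namespace Pool.Agent.LogCh

open Real
open Pool.Agent.NSqP
open Pool.Agent.MP484c84Par (ballG mem_ballG crossG dotG)

private lemma cop_shift {r : ℕ} {z w : GaussianInt} :
    IsCoprime (z + (r : GaussianInt) * w) (r : GaussianInt) ↔ IsCoprime z (r : GaussianInt) := by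
  constructor
  · intro h
    exact IsCoprime.of_add_mul_left_left h
  · intro h
    exact IsCoprime.add_mul_left_left h w

private lemma isUnit_iff' {r : ℕ} (z : GaussianInt) :
    IsUnit (Ideal.Quotient.mk (Ideal.span {(r : GaussianInt)}) z) ↔
      IsCoprime z (r : GaussianInt) := by
  constructor
  · intro h
    obtain ⟨u, hu⟩ := h
    obtain ⟨b, hb⟩ := Ideal.Quotient.mk_surjective (u⁻¹).val
    have h1 : Ideal.Quotient.mk (Ideal.span {(r : GaussianInt)}) (b * z - 1) = 0 := by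
      rw [map_sub, map_mul, hb, ← hu, map_one, ← Units.val_mul, inv_mul_cancel, Units.val_one,
        sub_self]
    rw [Ideal.Quotient.eq_zero_iff_mem, Ideal.mem_span_singleton] at h1
    obtain ⟨c, hc⟩ := h1
    exact ⟨b, -c, by linear_combination hc⟩
  · rintro ⟨a, b, hab⟩
    have h1 : Ideal.Quotient.mk (Ideal.span {(r : GaussianInt)}) a *
        Ideal.Quotient.mk (Ideal.span {(r : GaussianInt)}) z = 1 := by
      rw [← map_mul, ← map_one (Ideal.Quotient.mk (Ideal.span {(r : GaussianInt)})), ← sub_eq_zero,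
        ← map_sub, Ideal.Quotient.eq_zero_iff_mem, Ideal.mem_span_singleton]
      exact ⟨-b, by linear_combination hab⟩
    exact IsUnit.of_mul_eq_one _ (by rw [mul_comm]; exact h1)

private lemma finQ {r : ℕ} (hr : 1 ≤ r) :
    Finite (GaussianInt ⧸ Ideal.span {(r : GaussianInt)}) := by
  have hr0 : (0 : ℤ) < r := by exact_mod_cast hr
  refine Finite.of_surjective (α := Fin r × Fin r)
    (fun p => Ideal.Quotient.mk (Ideal.span {(r : GaussianInt)})
      (⟨(p.1.val : ℤ), (p.2.val : ℤ)⟩ : GaussianInt)) ?_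
  intro q
  obtain ⟨z, rfl⟩ := Ideal.Quotient.mk_surjective q
  have h1 : 0 ≤ z.re % (r : ℤ) := Int.emod_nonneg _ hr0.ne'
  have h2 : z.re % (r : ℤ) < r := Int.emod_lt_of_pos _ hr0
  have h3 : 0 ≤ z.im % (r : ℤ) := Int.emod_nonneg _ hr0.ne'
  have h4 : z.im % (r : ℤ) < r := Int.emod_lt_of_pos _ hr0
  refine ⟨(⟨(z.re % (r : ℤ)).toNat, by omega⟩, ⟨(z.im % (r : ℤ)).toNat, by omega⟩), ?_⟩
  rw [Ideal.Quotient.eq, Ideal.mem_span_singleton]
  refine ⟨⟨-(z.re / r), -(z.im / r)⟩, ?_⟩
  have e1 := Int.emod_add_mul_ediv z.re (r : ℤ)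
  have e2 := Int.emod_add_mul_ediv z.im (r : ℤ)
  apply Zsqrtd.ext
  · simp only [Zsqrtd.re_sub, Zsqrtd.re_mul, Zsqrtd.re_natCast, Zsqrtd.im_natCast]
    rw [Int.toNat_of_nonneg h1]
    linear_combination e1
  · simp only [Zsqrtd.im_sub, Zsqrtd.im_mul, Zsqrtd.re_natCast, Zsqrtd.im_natCast]
    rw [Int.toNat_of_nonneg h3]
    linear_combination e2

open Classical in
private noncomputable def XX (r : ℕ)
    (ψ : AddChar (Additive (GaussianInt ⧸ Ideal.span {(r : GaussianInt)})ˣ) ℂ)
    (z : GaussianInt) : ℂ :=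
  if h : IsUnit (Ideal.Quotient.mk (Ideal.span {(r : GaussianInt)}) z) then
    ψ (Additive.ofMul h.unit) else 0

private lemma XX_of_unit {r : ℕ}
    (ψ : AddChar (Additive (GaussianInt ⧸ Ideal.span {(r : GaussianInt)})ˣ) ℂ)
    {z : GaussianInt} (u : (GaussianInt ⧸ Ideal.span {(r : GaussianInt)})ˣ)
    (hu : (u : GaussianInt ⧸ Ideal.span {(r : GaussianInt)}) =
      Ideal.Quotient.mk (Ideal.span {(r : GaussianInt)}) z) :
    XX r ψ z = ψ (Additive.ofMul u) := by
  have h : IsUnit (Ideal.Quotient.mk (Ideal.span {(r : GaussianInt)}) z) := ⟨u, hu⟩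
  unfold XX
  rw [dif_pos h]
  congr 2
  apply Units.ext
  rw [IsUnit.unit_spec, hu]

private lemma XX_of_not {r : ℕ}
    (ψ : AddChar (Additive (GaussianInt ⧸ Ideal.span {(r : GaussianInt)})ˣ) ℂ)
    {z : GaussianInt} (h : ¬ IsUnit (Ideal.Quotient.mk (Ideal.span {(r : GaussianInt)}) z)) :
    XX r ψ z = 0 := by
  unfold XX
  rw [dif_neg h]

private lemma XX_chi {r : ℕ} (hr : 1 ≤ r)
    (ψ : AddChar (Additive (GaussianInt ⧸ Ideal.span {(r : GaussianInt)})ˣ) ℂ) :
    ChiMod r (XX r ψ) := by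
  have := finQ hr
  refine ⟨fun z w => ?_, fun z w => ?_, fun z hz => ?_, fun z hz => ?_⟩
  · by_cases h1 : IsUnit (Ideal.Quotient.mk (Ideal.span {(r : GaussianInt)}) z)
    · by_cases h2 : IsUnit (Ideal.Quotient.mk (Ideal.span {(r : GaussianInt)}) w)
      · obtain ⟨u, hu⟩ := h1
        obtain ⟨v, hv⟩ := h2
        rw [XX_of_unit ψ u hu, XX_of_unit ψ v hv,
          XX_of_unit ψ (u * v) (by rw [Units.val_mul, hu, hv, map_mul]), ofMul_mul,
          AddChar.map_add_eq_mul]
      · rw [XX_of_not ψ h2, mul_zero, XX_of_not ψ]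
        intro h3
        rw [map_mul] at h3
        exact h2 (isUnit_of_mul_isUnit_right h3)
    · rw [XX_of_not ψ h1, zero_mul, XX_of_not ψ]
      intro h3
      rw [map_mul] at h3
      exact h1 (isUnit_of_mul_isUnit_left h3)
  · have e : Ideal.Quotient.mk (Ideal.span {(r : GaussianInt)}) (z + (r : GaussianInt) * w) =
        Ideal.Quotient.mk (Ideal.span {(r : GaussianInt)}) z := by
      rw [Ideal.Quotient.eq, Ideal.mem_span_singleton]
      exact ⟨w, by ring⟩
    by_cases h1 : IsUnit (Ideal.Quotient.mk (Ideal.span {(r : GaussianInt)}) z)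
    · obtain ⟨u, hu⟩ := h1
      rw [XX_of_unit ψ u hu, XX_of_unit ψ u (by rw [hu, e])]
    · rw [XX_of_not ψ h1, XX_of_not ψ (by rw [e]; exact h1)]
  · exact XX_of_not ψ (fun h => hz ((isUnit_iff' z).1 h))
  · obtain ⟨u, hu⟩ := (isUnit_iff' z).2 hz
    rw [XX_of_unit ψ u hu]
    exact AddChar.norm_apply ψ _

open Classical in
theorem CHARS (r : ℕ) (hr : 1 ≤ r) : ∃ n : ℕ, 1 ≤ n ∧ ∀ c : GaussianInt,
    IsCoprime c (r : GaussianInt) → ∃ (X : Fin n → GaussianInt → ℂ) (α : Fin n → ℂ),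
      (∀ i, ChiMod r (X i)) ∧ (∀ i, ‖α i‖ ≤ 1) ∧
      ∀ z : GaussianInt, (if (r : GaussianInt) ∣ z - c then (1 : ℂ) else 0) =
        ∑ i, α i * X i z := by
  have := finQ hr
  have : Finite (GaussianInt ⧸ Ideal.span {(r : GaussianInt)})ˣ := inferInstance
  letI : Fintype (Additive (GaussianInt ⧸ Ideal.span {(r : GaussianInt)})ˣ) :=
    Fintype.ofFinite _
  let G := Additive (GaussianInt ⧸ Ideal.span {(r : GaussianInt)})ˣ
  let e : AddChar G ℂ ≃ Fin (Fintype.card (AddChar G ℂ)) := Fintype.equivFin _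
  refine ⟨Fintype.card (AddChar G ℂ), Fintype.card_pos, fun c hc => ?_⟩
  obtain ⟨v, hv⟩ := (isUnit_iff' c).2 hc
  have hcard : (0 : ℝ) < (Fintype.card G : ℝ) := by exact_mod_cast Fintype.card_pos
  have hcard1 : (1 : ℝ) ≤ (Fintype.card G : ℝ) := by
    exact_mod_cast (Fintype.card_pos : 0 < Fintype.card G)
  refine ⟨fun i => XX r (e.symm i), fun i => (e.symm i) (-(Additive.ofMul v)) / (Fintype.card G : ℂ),
    fun i => XX_chi hr _, fun i => ?_, fun z => ?_⟩
  · rw [norm_div, AddChar.norm_apply, Complex.norm_natCast]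
    rw [div_le_one hcard]
    exact hcard1
  · have hsum : ∀ f : AddChar G ℂ → ℂ, ∑ i, f (e.symm i) = ∑ ψ, f ψ := fun f =>
      Equiv.sum_comp e.symm f
    rw [hsum (fun ψ => ψ (-(Additive.ofMul v)) / (Fintype.card G : ℂ) * XX r ψ z)]
    have hcardC : (Fintype.card G : ℂ) ≠ 0 := by exact_mod_cast hcard.ne'
    by_cases h1 : IsUnit (Ideal.Quotient.mk (Ideal.span {(r : GaussianInt)}) z)
    · obtain ⟨u, hu⟩ := h1
      have h2 : ∀ ψ : AddChar G ℂ, ψ (-(Additive.ofMul v)) / (Fintype.card G : ℂ) * XX r ψ z =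
          ψ (Additive.ofMul u - Additive.ofMul v) / (Fintype.card G : ℂ) := by
        intro ψ
        rw [XX_of_unit ψ u hu, sub_eq_neg_add, AddChar.map_add_eq_mul]
        ring
      rw [Finset.sum_congr rfl (fun ψ _ => h2 ψ), ← Finset.sum_div, AddChar.sum_apply_eq_ite]
      have h3 : (r : GaussianInt) ∣ z - c ↔ Additive.ofMul u - Additive.ofMul v = 0 := by
        rw [sub_eq_zero, ← Ideal.mem_span_singleton, ← Ideal.Quotient.eq, ← hu, ← hv]
        constructor
        · intro h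
          rw [Units.ext h]
        · intro h
          rw [Additive.ofMul.injective h]
      by_cases h4 : (r : GaussianInt) ∣ z - c
      · rw [if_pos h4, if_pos (h3.1 h4), div_self hcardC]
      · rw [if_neg h4, if_neg (fun h => h4 (h3.2 h)), zero_div]
    · have h2 : ¬ (r : GaussianInt) ∣ z - c := by
        intro h
        apply h1
        have h5 : Ideal.Quotient.mk (Ideal.span {(r : GaussianInt)}) z =
            Ideal.Quotient.mk (Ideal.span {(r : GaussianInt)}) c := by
          rw [Ideal.Quotient.eq, Ideal.mem_span_singleton]; exact h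
        rw [h5, ← hv]
        exact v.isUnit
      rw [if_neg h2]
      symm
      apply Finset.sum_eq_zero
      intro ψ _
      rw [XX_of_not ψ h1, mul_zero]

end Pool.Agent.LogCh
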