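import Pool.Agent.Lib.LogCh.FDefs
import Pool.Agent.Lib.NSqP.Fej

/-!
# FAR: the Fejer kernel away from its center

`ee_sub_one`: `‖ee x - 1‖ = 2 |sin (π x)| ≥ 4 cd x` (`cd x ≤ 1/2`, `ee x = ee (x - round x)`, and
`|sin (π s)| ≥ 2 |s|` for `|s| ≤ 1/2`, `Real.mul_le_sin`).
`FAR`: `ee t * conj (ee (j/R)) = ee (t - j/R)`; `fejK_le_far` gives `fejK ≤ 4 / (M * 16 cd²)`.
The numbers `y j = R (t - j/R - round (t - j/R))` are distinct elements of `R t + ℤ`, and
`cd (t - j/R) = |y j| / R`; the sum of `1 / y ^ 2` over distinct `y ∈ R t + ℤ` with `D ≤ y` is at most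
`2 / D` for `1 ≤ D` (telescoping).
-/

set_option autoImplicit false

namespace Pool.Agent.LogCh

open Real
open Pool.Agent.NSqP
open Pool.Agent.MP484c84Par (ballG mem_ballG crossG dotG)

private lemma ee_sub_round (x : ℝ) : ee x = ee (x - round x) := by
  have h : x = (x - round x) + ((round x : ℤ) : ℝ) := by ring
  conv_lhs => rw [h, ee_add, ee_int, mul_one]

private lemma norm_ee_sub_one (x : ℝ) : ‖ee x - 1‖ = ‖2 * Real.sin (π * x)‖ := by
  have h1 : ee x = Complex.exp (Complex.I * ((2 * π * x : ℝ) : ℂ)) := by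
    rw [ee_eq, mul_comm]
  rw [h1, Complex.norm_exp_I_mul_ofReal_sub_one]
  congr 3
  ring

theorem ee_sub_one (x : ℝ) : 4 * cd x ≤ ‖ee x - 1‖ := by
  rw [ee_sub_round x, norm_ee_sub_one]
  unfold cd
  set s : ℝ := x - round x with hs
  have h1 : |s| ≤ 1 / 2 := abs_sub_round x
  have hpi := Real.pi_pos
  have h2 : 2 / π * (π * |s|) ≤ Real.sin (π * |s|) := by
    apply Real.mul_le_sin (by positivity)
    nlinarith
  have h3 : 2 / π * (π * |s|) = 2 * |s| := by field_simp
  have h4 : Real.sin (π * |s|) ≤ |Real.sin (π * s)| := by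
    rcases abs_cases s with ⟨h, _⟩ | ⟨h, _⟩
    · rw [h]; exact le_abs_self _
    · rw [h, mul_neg, Real.sin_neg]; exact neg_le_abs _
  rw [norm_mul, Real.norm_eq_abs, Real.norm_eq_abs, abs_of_pos (by norm_num : (0 : ℝ) < 2)]
  linarith

theorem chord_le_cd (s t : ℝ) : ‖ee s - ee t‖ ≤ 2 * π * cd (s - t) := by
  have h1 : ee s - ee t = ee t * (ee (s - t) - 1) := by
    rw [mul_sub, mul_one, ← ee_add]
    congr 2
    ring
  have hpi := Real.pi_pos
  rw [h1, norm_mul, norm_ee, one_mul, ee_sub_round (s - t)]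
  unfold cd
  set u : ℝ := (s - t) - round (s - t) with hu
  have h2 : ee u = Complex.exp (Complex.I * ((2 * π * u : ℝ) : ℂ)) := by
    rw [ee_eq, mul_comm]
  rw [h2]
  refine (Real.norm_exp_I_mul_ofReal_sub_one_le).trans ?_
  rw [Real.norm_eq_abs, abs_mul, abs_of_pos (by positivity : (0 : ℝ) < 2 * π)]

private lemma sep_sum (f D : ℝ) (hD : 1 ≤ D) (S : Finset ℤ) :
    (∀ n ∈ S, D ≤ (n : ℝ) + f) → ∀ N : ℤ, (∀ n ∈ S, n < N) → D ≤ (N : ℝ) + f →
      ∑ n ∈ S, 1 / ((n : ℝ) + f) ^ 2 ≤ 2 * (1 / D - 1 / ((N : ℝ) + f)) := by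
  classical
  induction S using Finset.induction_on_max with
  | empty =>
    intro _ N _ hN
    rw [Finset.sum_empty]
    have : 1 / ((N : ℝ) + f) ≤ 1 / D := one_div_le_one_div_of_le (by linarith) hN
    linarith
  | insert a S ha ih =>
    intro h N hlt hN
    have hna : a ∉ S := fun h' => lt_irrefl _ (ha a h')
    have hDa : D ≤ (a : ℝ) + f := h a (Finset.mem_insert_self _ _)
    rw [Finset.sum_insert hna]
    have h1 := ih (fun n hn => h n (Finset.mem_insert_of_mem hn)) a ha hDa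
    have h2 : a < N := hlt a (Finset.mem_insert_self _ _)
    have h3 : ((a : ℝ) + 1) ≤ N := by exact_mod_cast h2
    have hy : 1 ≤ (a : ℝ) + f := hD.trans hDa
    have h4 : 1 / ((N : ℝ) + f) ≤ 1 / ((a : ℝ) + f + 1) :=
      one_div_le_one_div_of_le (by linarith) (by linarith)
    have h5 : 1 / ((a : ℝ) + f) ^ 2 ≤ 2 * (1 / ((a : ℝ) + f) - 1 / ((a : ℝ) + f + 1)) := by
      set y : ℝ := (a : ℝ) + f with hyd
      have hy0 : 0 < y := by linarith
      have : 2 * (1 / y - 1 / (y + 1)) = 2 / (y * (y + 1)) := by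
        field_simp; ring
      rw [this, div_le_div_iff₀ (by positivity) (by positivity)]
      nlinarith
    linarith

private lemma sep_sum' (f D : ℝ) (hD : 1 ≤ D) (S : Finset ℤ) (h : ∀ n ∈ S, D ≤ (n : ℝ) + f) :
    ∑ n ∈ S, 1 / ((n : ℝ) + f) ^ 2 ≤ 2 / D := by
  classical
  rcases S.eq_empty_or_nonempty with rfl | hne
  · rw [Finset.sum_empty]; positivity
  · have hD0 : 0 < D := by linarith
    have hmax : D ≤ ((S.max' hne : ℤ) : ℝ) + f := h _ (S.max'_mem hne)
    have h1 := sep_sum f D hD S h (S.max' hne + 1)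
      (fun n hn => Int.lt_add_one_of_le (S.le_max' n hn)) (by push_cast; linarith)
    refine h1.trans ?_
    have h2 : 0 ≤ 1 / (((S.max' hne + 1 : ℤ) : ℝ) + f) := by
      push_cast
      apply one_div_nonneg.2
      linarith
    have h3 : 2 / D = 2 * (1 / D) := by ring
    rw [h3]
    linarith

/-- an injective image in `f + ℤ` -/
private lemma sep_sum_inj (f D : ℝ) (hD : 1 ≤ D) (T : Finset ℕ) (n : ℕ → ℤ)
    (hinj : Set.InjOn n (T : Set ℕ)) (h : ∀ j ∈ T, D ≤ (n j : ℝ) + f) :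
    ∑ j ∈ T, 1 / ((n j : ℝ) + f) ^ 2 ≤ 2 / D := by
  classical
  rw [← Finset.sum_image (f := fun m : ℤ => 1 / ((m : ℝ) + f) ^ 2) hinj]
  apply sep_sum' f D hD
  intro m hm
  obtain ⟨j, hj, rfl⟩ := Finset.mem_image.1 hm
  exact h j hj

open Classical in
theorem FAR (M R : ℕ) (hM : 1 ≤ M) (hR : 1 ≤ R) (t δ : ℝ) (hδ : 0 < δ) (hRδ : 1 ≤ R * δ) :
    ∑ j ∈ (Finset.range R).filter (fun j : ℕ => δ ≤ cd (t - (j : ℝ) / R)),
      fejK M (ee t * (starRingEnd ℂ) (ee ((j : ℝ) / R))) ≤ 8 * R / (M * δ) := by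
  have hM0 : (0 : ℝ) < M := by exact_mod_cast hM
  have hR0 : (0 : ℝ) < R := by exact_mod_cast hR
  -- the integers `n j`
  set n : ℕ → ℤ := fun j => -(j : ℤ) - (R : ℤ) * round (t - (j : ℝ) / R) with hn
  set T : Finset ℕ := (Finset.range R).filter (fun j : ℕ => δ ≤ cd (t - (j : ℝ) / R)) with hT
  have hcd : ∀ j : ℕ, cd (t - (j : ℝ) / R) = |(n j : ℝ) + R * t| / R := by
    intro j
    unfold cd
    rw [eq_div_iff hR0.ne', ← abs_of_pos hR0, ← abs_mul, abs_of_pos hR0]
    congr 1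
    simp only [hn]
    push_cast
    field_simp
    ring
  have hinj : Set.InjOn n ((Finset.range R : Finset ℕ) : Set ℕ) := by
    intro j hj j' hj' h
    simp only [Finset.coe_range, Set.mem_Iio] at hj hj'
    simp only [hn] at h
    have h1 : (j : ℤ) - j' = (R : ℤ) * (round (t - (j' : ℝ) / R) - round (t - (j : ℝ) / R)) := by
      linarith
    have h2 : (R : ℤ) ∣ (j : ℤ) - j' := ⟨_, h1⟩
    have h3 : (j : ℤ) - j' = 0 := by
      apply Int.eq_zero_of_abs_lt_dvd h2
      rw [abs_lt]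
      constructor <;> omega
    omega
  have hterm : ∀ j ∈ T, fejK M (ee t * (starRingEnd ℂ) (ee ((j : ℝ) / R))) ≤
      (R ^ 2 / (4 * M)) * (1 / ((n j : ℝ) + R * t) ^ 2) := by
    intro j hj
    have hj2 : δ ≤ cd (t - (j : ℝ) / R) := (Finset.mem_filter.1 hj).2
    have he : ee t * (starRingEnd ℂ) (ee ((j : ℝ) / R)) = ee (t - (j : ℝ) / R) := by
      rw [ee_conj, ← ee_add]; congr 1
    rw [he]
    have h1 := ee_sub_one (t - (j : ℝ) / R)
    have hpos : 0 < ‖ee (t - (j : ℝ) / R) - 1‖ := by linarith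
    have hne : ee (t - (j : ℝ) / R) ≠ 1 := by
      intro h; rw [h, sub_self, norm_zero] at hpos; exact lt_irrefl _ hpos
    refine (fejK_le_far M (norm_ee _) hne).trans ?_
    have hc := hcd j
    have hc0 : 0 < |(n j : ℝ) + R * t| := by
      rw [hc] at hj2
      have : 0 < |(n j : ℝ) + R * t| / R := by linarith
      by_contra h0
      push Not at h0
      have h00 : |(n j : ℝ) + R * t| = 0 := le_antisymm h0 (abs_nonneg _)
      rw [h00, zero_div] at this
      exact lt_irrefl _ this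
    have h2 : (4 * (|(n j : ℝ) + R * t| / R)) ^ 2 ≤ ‖ee (t - (j : ℝ) / R) - 1‖ ^ 2 := by
      rw [← hc]
      exact pow_le_pow_left₀ (by rw [hc]; positivity) h1 2
    calc 4 / ((M : ℝ) * ‖ee (t - (j : ℝ) / R) - 1‖ ^ 2)
        ≤ 4 / ((M : ℝ) * (4 * (|(n j : ℝ) + R * t| / R)) ^ 2) := by
          apply div_le_div_of_nonneg_left (by norm_num) (by positivity)
          exact mul_le_mul_of_nonneg_left h2 hM0.le
      _ = (R ^ 2 / (4 * M)) * (1 / ((n j : ℝ) + R * t) ^ 2) := by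
          rw [← sq_abs ((n j : ℝ) + R * t)]
          field_simp
          try ring
  have hD : ∀ j ∈ T, (R : ℝ) * δ ≤ |(n j : ℝ) + R * t| := by
    intro j hj
    have hj2 : δ ≤ cd (t - (j : ℝ) / R) := (Finset.mem_filter.1 hj).2
    rw [hcd j, le_div_iff₀ hR0] at hj2
    linarith
  have hTsub : T ⊆ Finset.range R := Finset.filter_subset _ _
  have hsum : ∑ j ∈ T, 1 / ((n j : ℝ) + R * t) ^ 2 ≤ 4 / (R * δ) := by
    rw [← Finset.sum_filter_add_sum_filter_not T (fun j => 0 ≤ (n j : ℝ) + R * t)]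
    have hp : ∑ j ∈ T.filter (fun j => 0 ≤ (n j : ℝ) + R * t), 1 / ((n j : ℝ) + R * t) ^ 2 ≤
        2 / (R * δ) := by
      apply sep_sum_inj (R * t) (R * δ) hRδ
      · intro j hj j' hj' h
        exact hinj (hTsub (Finset.mem_filter.1 hj).1) (hTsub (Finset.mem_filter.1 hj').1) h
      · intro j hj
        rw [Finset.mem_filter] at hj
        have := hD j hj.1
        rwa [abs_of_nonneg hj.2] at this
    have hm : ∑ j ∈ T.filter (fun j => ¬ 0 ≤ (n j : ℝ) + R * t), 1 / ((n j : ℝ) + R * t) ^ 2 ≤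
        2 / (R * δ) := by
      have h1 : ∑ j ∈ T.filter (fun j => ¬ 0 ≤ (n j : ℝ) + R * t),
          1 / (((-n j : ℤ) : ℝ) + (-(R * t))) ^ 2 ≤ 2 / (R * δ) := by
        apply sep_sum_inj (-(R * t)) (R * δ) hRδ
          (T.filter (fun j => ¬ 0 ≤ (n j : ℝ) + R * t)) (fun j => -n j)
        · intro j hj j' hj' h
          exact hinj (hTsub (Finset.mem_filter.1 hj).1) (hTsub (Finset.mem_filter.1 hj').1)
            (neg_injective h)
        · intro j hj
          rw [Finset.mem_filter] at hj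
          have := hD j hj.1
          have h0 : (n j : ℝ) + R * t ≤ 0 := (not_le.1 hj.2).le
          rw [abs_of_nonpos h0] at this
          push_cast
          linarith
      refine le_trans (le_of_eq ?_) h1
      refine Finset.sum_congr rfl fun j _ => ?_
      push_cast
      congr 1
      ring
    have : 4 / (R * δ) = 2 / (R * δ) + 2 / (R * δ) := by ring
    rw [this]
    exact add_le_add hp hm
  calc ∑ j ∈ T, fejK M (ee t * (starRingEnd ℂ) (ee ((j : ℝ) / R)))
      ≤ ∑ j ∈ T, (R ^ 2 / (4 * M)) * (1 / ((n j : ℝ) + R * t) ^ 2) := Finset.sum_le_sum hterm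
    _ = (R ^ 2 / (4 * M)) * ∑ j ∈ T, 1 / ((n j : ℝ) + R * t) ^ 2 := by rw [Finset.mul_sum]
    _ ≤ (R ^ 2 / (4 * M)) * (4 / (R * δ)) := by
        apply mul_le_mul_of_nonneg_left hsum (by positivity)
    _ = R / (M * δ) := by field_simp
    _ ≤ 8 * R / (M * δ) := by
        apply div_le_div_of_nonneg_right _ (by positivity)
        linarith

end Pool.Agent.LogCh
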