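import Pool.Agent.Lib.LogCh.FRp

/-!
# SPLIT: partition of a class by the `r`-part

`gset r E`: the normalised primitive `g ∣ r ^ E`; `cset r g b`: representatives `c = x + y i`,
`0 ≤ x, y < r`, coprime to `r`, with `r ∣ g c - b`.
`(g, c, w) ↦ g * w` is a bijection from the triples with `g ∈ gset r E`, `c ∈ cset r g b`,
`w ∈ pann (u / nN g) (v / nN g)`, `r ∣ w - c`, onto the `z ∈ pann u v`, `r ∣ z - b`, that are not
divisible by `q ^ E`, `q` prime, `q ∣ r`, TOGETHER with some exceptional `z` (those `z = g w` with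
`q ^ E ∣ g`). To have an exact partition, the remaining part `T` is defined as the set of `z` in the class
which are not of the form `g * w`, `g ∣ r ^ E`, `Nrm g`, `w` coprime to `r`; by `rp_exists` it
is contained in the set counted by `TAILR`. Injectivity: `rp_unique`; `w` determines `c`
(`c` is the residue of `w`). Primitivity: `rp_prim`. Class: `g w = g c mod r`.
Use `Finset.sum_biUnion` or `Finset.sum_bij'` on sigma types.
-/

set_option autoImplicit false

namespace Pool.Agent.LogCh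

open Real
open Pool.Agent.NSqP
open Pool.Agent.MP484c84Par (ballG mem_ballG crossG dotG)

/-- normalised primitive divisors of `r ^ E` -/
noncomputable def gset (r E : ℕ) : Finset GaussianInt :=
  open Classical in (ballG (r ^ (2 * E))).filter (fun g => g ∣ (r : GaussianInt) ^ E ∧ Nrm g ∧ Prim g)

/-- reduced residues `c` with `g c = b` modulo `r` -/
noncomputable def cset (r : ℕ) (g b : GaussianInt) : Finset GaussianInt :=
  open Classical in (ballG (2 * r ^ 2)).filter (fun c => (0 ≤ c.re ∧ c.re < r ∧ 0 ≤ c.im ∧ c.im < r) ∧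
    IsCoprime c (r : GaussianInt) ∧ (r : GaussianInt) ∣ g * c - b)

/-- the remaining elements of the class -/
noncomputable def Tset (r E : ℕ) (b : GaussianInt) (u v : ℝ) : Finset GaussianInt :=
  open Classical in (pann u v).filter (fun z => (r : GaussianInt) ∣ z - b ∧
    ¬ ∃ g w : GaussianInt, g ∣ (r : GaussianInt) ^ E ∧ Nrm g ∧ IsCoprime w (r : GaussianInt) ∧
      z = g * w)

private lemma pann_of_neg {a b : ℝ} (hb : b < 0) : pann a b = ∅ := by
  have h := pann_subset a b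
  rw [ann_of_neg hb] at h
  exact Finset.subset_empty.1 h

theorem Tset_sub {r E : ℕ} (hr : 1 ≤ r) (b : GaussianInt) {u v : ℝ} (hu : 0 ≤ u) {N : ℕ}
    (hv : v ≤ N) {z : GaussianInt} (hz : z ∈ Tset r E b u v) :
    z ∈ pann 0 N ∧ ∃ q : GaussianInt, Prime q ∧ q ∣ (r : GaussianInt) ∧ q ^ E ∣ z := by
  classical
  unfold Tset at hz
  rw [Finset.mem_filter] at hz
  obtain ⟨hz1, -, hz2⟩ := hz
  rcases lt_or_ge v 0 with hv0 | hv0
  · rw [pann_of_neg hv0] at hz1
    simp at hz1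
  rw [mem_pann hv0] at hz1
  have hz0 : z ≠ 0 := prim_ne_zero hz1.2
  refine ⟨?_, ?_⟩
  · rw [mem_pann (Nat.cast_nonneg _)]
    exact ⟨⟨by exact_mod_cast nN_pos hz0, hz1.1.2.trans hv⟩, hz1.2⟩
  · by_contra hcon
    apply hz2
    refine rp_exists hr hz0 (fun q hq hqr hqE => hcon ⟨q, hq, hqr, hqE⟩)

private lemma mem_gset {r E : ℕ} (hr : 1 ≤ r) {g : GaussianInt} :
    g ∈ gset r E ↔ g ∣ (r : GaussianInt) ^ E ∧ Nrm g ∧ Prim g := by
  classical
  unfold gset
  rw [Finset.mem_filter, mem_ballG]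
  constructor
  · exact fun h => h.2
  · intro h
    refine ⟨?_, h⟩
    obtain ⟨k, hk⟩ := h.1
    have h1 : g.norm * k.norm = ((r ^ (2 * E) : ℕ) : ℤ) := by
      rw [← Zsqrtd.norm_mul, ← hk, Zsqrtd.norm_def]
      have e : ((r : GaussianInt) ^ E) = (((r ^ E : ℕ)) : GaussianInt) := by push_cast; rfl
      rw [e, Zsqrtd.re_natCast, Zsqrtd.im_natCast]
      push_cast
      ring
    have hpos : 0 < ((r ^ (2 * E) : ℕ) : ℤ) := by
      have : 0 < r ^ (2 * E) := Nat.pos_of_ne_zero (pow_ne_zero _ (by omega))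
      exact_mod_cast this
    have hdvd : g.norm ∣ ((r ^ (2 * E) : ℕ) : ℤ) := ⟨_, h1.symm⟩
    exact Int.le_of_dvd hpos hdvd

private lemma mem_cset {r : ℕ} {g b c : GaussianInt} :
    c ∈ cset r g b ↔ (0 ≤ c.re ∧ c.re < r ∧ 0 ≤ c.im ∧ c.im < r) ∧
      IsCoprime c (r : GaussianInt) ∧ (r : GaussianInt) ∣ g * c - b := by
  classical
  unfold cset
  rw [Finset.mem_filter, mem_ballG]
  constructor
  · exact fun h => h.2
  · intro h
    refine ⟨?_, h⟩
    obtain ⟨⟨h1, h2, h3, h4⟩, -⟩ := h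
    rw [Zsqrtd.norm_def]
    push_cast
    nlinarith

private lemma dvd_coords {r : ℕ} {z : GaussianInt} :
    (r : GaussianInt) ∣ z ↔ (r : ℤ) ∣ z.re ∧ (r : ℤ) ∣ z.im := by
  have := Zsqrtd.intCast_dvd (d := -1) (r : ℤ) z
  rw [← this]
  norm_cast

private lemma res_unique {r : ℕ} {c c' : GaussianInt}
    (h : 0 ≤ c.re ∧ c.re < r ∧ 0 ≤ c.im ∧ c.im < r)
    (h' : 0 ≤ c'.re ∧ c'.re < r ∧ 0 ≤ c'.im ∧ c'.im < r) (hd : (r : GaussianInt) ∣ c - c') :
    c = c' := by
  rw [dvd_coords] at hd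
  obtain ⟨h1, h2, h3, h4⟩ := h
  obtain ⟨g1, g2, g3, g4⟩ := h'
  obtain ⟨d1, d2⟩ := hd
  rw [Zsqrtd.re_sub] at d1
  rw [Zsqrtd.im_sub] at d2
  have e1 := Int.eq_zero_of_abs_lt_dvd d1 (by rw [abs_lt]; constructor <;> linarith)
  have e2 := Int.eq_zero_of_abs_lt_dvd d2 (by rw [abs_lt]; constructor <;> linarith)
  apply Zsqrtd.ext
  · linarith
  · linarith

private lemma cop_of_dvd {r : ℕ} {c w : GaussianInt} (h : IsCoprime c (r : GaussianInt))
    (hd : (r : GaussianInt) ∣ w - c) : IsCoprime w (r : GaussianInt) := by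
  obtain ⟨k, hk⟩ := hd
  obtain ⟨a, b, hab⟩ := h
  exact ⟨a, b - a * k, by linear_combination hab + a * hk⟩

private lemma res_exists {r : ℕ} (hr : 1 ≤ r) (w : GaussianInt) : ∃ c : GaussianInt,
    (0 ≤ c.re ∧ c.re < r ∧ 0 ≤ c.im ∧ c.im < r) ∧ (r : GaussianInt) ∣ w - c := by
  have hr0 : (0 : ℤ) < r := by exact_mod_cast hr
  refine ⟨⟨w.re % (r : ℤ), w.im % (r : ℤ)⟩, ⟨Int.emod_nonneg _ hr0.ne', Int.emod_lt_of_pos _ hr0,
    Int.emod_nonneg _ hr0.ne', Int.emod_lt_of_pos _ hr0⟩, ?_⟩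
  rw [dvd_coords]
  exact ⟨by rw [Zsqrtd.re_sub]; exact Int.dvd_self_sub_emod,
    by rw [Zsqrtd.im_sub]; exact Int.dvd_self_sub_emod⟩

open Classical in
theorem SPLIT {r : ℕ} (hr : 1 ≤ r) (E : ℕ) (b : GaussianInt) {u v : ℝ} (hu : 0 ≤ u)
    (huv : u ≤ v) (h : GaussianInt → ℂ) :
    ∑ z ∈ (pann u v).filter (fun z => (r : GaussianInt) ∣ z - b), h z =
      ∑ g ∈ gset r E, ∑ c ∈ cset r g b,
        ∑ w ∈ (pann (u / nN g) (v / nN g)).filter (fun w => (r : GaussianInt) ∣ w - c), h (g * w) +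
      ∑ z ∈ Tset r E b u v, h z := by
  have hv0 : 0 ≤ v := hu.trans huv
  rw [← Finset.sum_filter_add_sum_filter_not ((pann u v).filter
    (fun z => (r : GaussianInt) ∣ z - b)) (fun z => ∃ g w : GaussianInt,
      g ∣ (r : GaussianInt) ^ E ∧ Nrm g ∧ IsCoprime w (r : GaussianInt) ∧ z = g * w)]
  congr 1
  · rw [Finset.sum_sigma', Finset.sum_sigma']
    symm
    refine Finset.sum_nbij (fun x => x.1.1 * x.2) ?_ ?_ ?_ (fun x _ => rfl)
    · rintro ⟨⟨g, c⟩, w⟩ hx
      simp only [Finset.mem_sigma, Finset.mem_filter] at hx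
      obtain ⟨⟨hg, hc⟩, hw, hwc⟩ := hx
      rw [mem_gset hr] at hg
      rw [mem_cset] at hc
      have hg0 : g ≠ 0 := prim_ne_zero hg.2.2
      have hgp : (0 : ℝ) < nN g := by exact_mod_cast nN_pos hg0
      rw [mem_pann (div_nonneg hv0 hgp.le)] at hw
      have hwr : IsCoprime w (r : GaussianInt) := cop_of_dvd hc.2.1 hwc
      simp only [Finset.mem_filter]
      refine ⟨⟨?_, ?_⟩, g, w, hg.1, hg.2.1, hwr, rfl⟩
      · rw [mem_pann hv0, nN_mul]
        push_cast
        refine ⟨⟨?_, ?_⟩, (rp_prim hg.1 hwr).2 ⟨hg.2.2, hw.2⟩⟩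
        · rw [mul_comm]; exact (div_lt_iff₀ hgp).1 hw.1.1
        · rw [mul_comm]; exact (le_div_iff₀ hgp).1 hw.1.2
      · have e : g * w - b = g * (w - c) + (g * c - b) := by ring
        rw [e]
        exact dvd_add (Dvd.dvd.mul_left hwc g) hc.2.2
    · rintro ⟨⟨g, c⟩, w⟩ hx ⟨⟨g', c'⟩, w'⟩ hx' heq
      simp only [Finset.coe_sigma, Set.mem_sigma_iff, Finset.mem_coe, Finset.mem_filter] at hx hx'
      obtain ⟨⟨hg, hc⟩, hw, hwc⟩ := hx
      obtain ⟨⟨hg', hc'⟩, hw', hwc'⟩ := hx'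
      rw [mem_gset hr] at hg hg'
      rw [mem_cset] at hc hc'
      have hwr : IsCoprime w (r : GaussianInt) := cop_of_dvd hc.2.1 hwc
      have hwr' : IsCoprime w' (r : GaussianInt) := cop_of_dvd hc'.2.1 hwc'
      obtain ⟨e1, e2⟩ := rp_unique hg.1 hg'.1 hg.2.1 hg'.2.1 hwr hwr' heq
      subst e1
      subst e2
      have e3 : c = c' := by
        apply res_unique hc.1 hc'.1
        have e : c - c' = (w - c') - (w - c) := by ring
        rw [e]
        exact dvd_sub hwc' hwc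
      subst e3
      rfl
    · intro z hz
      simp only [Finset.coe_filter, Set.mem_ofPred_eq, Finset.mem_filter] at hz
      obtain ⟨⟨hz1, hz2⟩, g, w, hg, hgn, hw, rfl⟩ := hz
      rw [mem_pann hv0] at hz1
      have hpr := (rp_prim hg hw).1 hz1.2
      have hg0 : g ≠ 0 := prim_ne_zero hpr.1
      have hgp : (0 : ℝ) < nN g := by exact_mod_cast nN_pos hg0
      obtain ⟨c, hc1, hc2⟩ := res_exists hr w
      have hc3 : (r : GaussianInt) ∣ c - w := by
        have e : c - w = -(w - c) := by ring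
        rw [e]
        exact hc2.neg_right
      refine ⟨⟨⟨g, c⟩, w⟩, ?_, rfl⟩
      simp only [Finset.coe_sigma, Set.mem_sigma_iff, Finset.mem_coe, Finset.mem_filter]
      refine ⟨⟨(mem_gset hr).2 ⟨hg, hgn, hpr.1⟩, mem_cset.2 ⟨hc1, cop_of_dvd hw hc3, ?_⟩⟩, ?_, hc2⟩
      · have e : g * c - b = g * (c - w) + (g * w - b) := by ring
        rw [e]
        exact dvd_add (Dvd.dvd.mul_left hc3 g) hz2
      · rw [mem_pann (div_nonneg hv0 hgp.le)]
        rw [nN_mul] at hz1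
        push_cast at hz1
        refine ⟨⟨?_, ?_⟩, hpr.2⟩
        · rw [div_lt_iff₀ hgp, mul_comm]; exact hz1.1.1
        · rw [le_div_iff₀ hgp, mul_comm]; exact hz1.1.2
  · apply Finset.sum_congr _ (fun _ _ => rfl)
    unfold Tset
    rw [Finset.filter_filter]

end Pool.Agent.LogCh
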