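import Pool.Agent.Lib.LogCh.FDefs
import Pool.Agent.Lib.NSqP.LC

/-!
# TAILR: few elements are divisible by a high power of a prime dividing `r`

A prime `q ∣ r` has `nN q ∣ r ^ 2`, so `q ∈ ballG (r ^ 2)`, and `nN q ≥ 2`. For each such `q` the number
of `z ∈ ann 0 N` with `q ^ E ∣ z` is `(ann 0 (N / nN q ^ E)).card ≤ C N / 2 ^ E` (`card_dvd`,
`card_ann_le` of `NSqP.LC`). Choose `E` with `(ballG (r ^ 2)).card * C / 2 ^ E ≤ ε`.
-/

set_option autoImplicit false

namespace Pool.Agent.LogCh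

open Real
open Pool.Agent.NSqP
open Pool.Agent.MP484c84Par (ballG mem_ballG crossG dotG)

private lemma tailr_nN_pow (q : GaussianInt) (E : ℕ) : nN (q ^ E) = nN q ^ E := by
  induction E with
  | zero => simp [nN_one]
  | succ n ih => rw [pow_succ, nN_mul, ih, pow_succ]

private lemma tailr_two_le {q : GaussianInt} (hq : Prime q) : 2 ≤ nN q := by
  have h0 : 0 < nN q := nN_pos hq.ne_zero
  have h1 : nN q ≠ 1 := by
    intro h
    apply hq.not_isUnit
    rw [← Zsqrtd.norm_eq_one_iff]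
    exact h
  omega

private lemma tailr_mem_ball {r : ℕ} (hr : 1 ≤ r) {q : GaussianInt}
    (hd : q ∣ (r : GaussianInt)) : q ∈ ballG (r ^ 2) := by
  obtain ⟨w, hw⟩ := hd
  have h1 : nN (r : GaussianInt) = nN q * nN w := by rw [hw, nN_mul]
  have h2 : nN (r : GaussianInt) = r ^ 2 := by
    unfold nN
    rw [Zsqrtd.norm_natCast, Int.natAbs_mul, Int.natAbs_natCast, sq]
  have h3 : 0 < r ^ 2 := by positivity
  have h4 : nN q ≤ r ^ 2 := by
    rw [← h2, h1]
    have h5 : 0 < nN w := by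
      rcases Nat.eq_zero_or_pos (nN w) with h | h
      · rw [h, mul_zero, h2] at h1; omega
      · exact h
    exact Nat.le_mul_of_pos_right _ h5
  rw [mem_ballG, ← nN_cast_int]
  exact_mod_cast h4

open Classical in
theorem TAILR (r : ℕ) (hr : 1 ≤ r) (ε : ℝ) (hε : 0 < ε) : ∃ E : ℕ, ∀ N : ℕ,
    (((pann 0 N).filter (fun z => ∃ q : GaussianInt, Prime q ∧ q ∣ (r : GaussianInt) ∧
      q ^ E ∣ z)).card : ℝ) ≤ ε * N := by
  obtain ⟨C, hC, hle⟩ := card_ann_le
  set K : ℝ := ((ballG (r ^ 2)).card : ℝ) with hK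
  have hK0 : 0 ≤ K := Nat.cast_nonneg _
  obtain ⟨E, hE⟩ := exists_pow_lt_of_lt_one (show (0 : ℝ) < ε / (K * C + 1) by positivity)
    (show (1 / 2 : ℝ) < 1 by norm_num)
  have hE' : K * C * (1 / 2 : ℝ) ^ E ≤ ε := by
    have h1 : (K * C + 1) * (1 / 2 : ℝ) ^ E < ε := by
      rw [lt_div_iff₀ (by positivity)] at hE
      linarith [hE]
    have h2 : (0 : ℝ) < (1 / 2 : ℝ) ^ E := by positivity
    nlinarith
  refine ⟨E, fun N => ?_⟩
  have hsub : (pann 0 (N : ℝ)).filter (fun z => ∃ q : GaussianInt, Prime q ∧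
      q ∣ (r : GaussianInt) ∧ q ^ E ∣ z) ⊆
      ((ballG (r ^ 2)).filter (fun q => Prime q)).biUnion
        (fun q => (ann 0 (N : ℝ)).filter (fun z => q ^ E ∣ z)) := by
    intro z hz
    rw [Finset.mem_filter] at hz
    obtain ⟨h1, q, hq, hd, hz2⟩ := hz
    rw [Finset.mem_biUnion]
    refine ⟨q, ?_, ?_⟩
    · rw [Finset.mem_filter]
      exact ⟨tailr_mem_ball hr hd, hq⟩
    · rw [Finset.mem_filter]
      exact ⟨pann_subset _ _ h1, hz2⟩
  have hN : (0 : ℝ) ≤ N := Nat.cast_nonneg _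
  have hterm : ∀ q ∈ (ballG (r ^ 2)).filter (fun q => Prime q),
      (((ann 0 (N : ℝ)).filter (fun z => q ^ E ∣ z)).card : ℝ) ≤ C * N * (1 / 2 : ℝ) ^ E := by
    intro q hq
    rw [Finset.mem_filter] at hq
    have h0 : q ^ E ≠ 0 := pow_ne_zero _ hq.2.ne_zero
    rw [card_dvd h0 le_rfl hN, zero_div]
    have h2 : (2 : ℝ) ^ E ≤ (nN (q ^ E) : ℝ) := by
      rw [tailr_nN_pow]
      push_cast
      have h3 : (2 : ℝ) ≤ nN q := by exact_mod_cast tailr_two_le hq.2
      exact pow_le_pow_left₀ (by norm_num) h3 E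
    have h4 : (N : ℝ) / (nN (q ^ E) : ℝ) ≤ N / 2 ^ E :=
      div_le_div_of_nonneg_left hN (by positivity) h2
    calc ((ann 0 ((N : ℝ) / (nN (q ^ E) : ℝ))).card : ℝ)
        ≤ C * ((N : ℝ) / (nN (q ^ E) : ℝ)) := hle _ (by positivity)
      _ ≤ C * (N / 2 ^ E) := by gcongr
      _ = C * N * (1 / 2 : ℝ) ^ E := by
          rw [one_div, inv_pow]; ring
  calc (((pann 0 (N : ℝ)).filter (fun z => ∃ q : GaussianInt, Prime q ∧
        q ∣ (r : GaussianInt) ∧ q ^ E ∣ z)).card : ℝ)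
      ≤ ((((ballG (r ^ 2)).filter (fun q => Prime q)).biUnion
        (fun q => (ann 0 (N : ℝ)).filter (fun z => q ^ E ∣ z))).card : ℝ) := by
          exact_mod_cast Finset.card_le_card hsub
    _ ≤ ∑ q ∈ (ballG (r ^ 2)).filter (fun q => Prime q),
        (((ann 0 (N : ℝ)).filter (fun z => q ^ E ∣ z)).card : ℝ) := by
          exact_mod_cast Finset.card_biUnion_le
    _ ≤ ∑ _q ∈ (ballG (r ^ 2)).filter (fun q => Prime q), C * N * (1 / 2 : ℝ) ^ E :=
          Finset.sum_le_sum hterm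
    _ = (((ballG (r ^ 2)).filter (fun q => Prime q)).card : ℝ) * (C * N * (1 / 2 : ℝ) ^ E) := by
          rw [Finset.sum_const, nsmul_eq_mul]
    _ ≤ K * (C * N * (1 / 2 : ℝ) ^ E) := by
          apply mul_le_mul_of_nonneg_right _ (by positivity)
          rw [hK]
          exact_mod_cast Finset.card_filter_le _ _
    _ = (K * C * (1 / 2 : ℝ) ^ E) * N := by ring
    _ ≤ ε * N := mul_le_mul_of_nonneg_right hE' hN

end Pool.Agent.LogCh
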