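import Pool.Agent.Lib.LogCh.FCls
import Pool.Agent.Lib.LogCh.FTail
import Pool.Agent.Lib.LogCh.FSplit

/-!
# FREQ: all classes, annuli, all frequencies up to `N / A`

`C` = constant of `LSP`. `TAILR r (ε / (16 C))` gives `E`: the part `T = Tset r E b (ρ N) (ρ' N)` has at most
`ε N / (16 C)` elements (`Tset_sub`) and `LSP` (`L = N`, `M = N / A ≤ N`) gives
`∑_m ‖∑_T lam z xi^m‖ ^ 2 ≤ 2 C N |T| ≤ ε N² / 8` (`‖lam z‖ ≤ 1`).
`n = ∑ g ∈ gset r E, (cset r g b).card`. For `g, c`: `lam (g w) xi (g w)^m = lam g xi g^m * lam w xi w^m`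
(`lam_mul`, `xi_mul_zpow`), `pann (u/nN g) (v/nN g) = pann 0 (v / nN g) \ pann 0 (u / nN g)`, so by `CLSF` with
`ε' = ε / (16 (n+1)²)` the square sum over `m` of the inner sum is `≤ 4 ε' N²`
(`‖a - b‖² ≤ 2‖a‖² + 2‖b‖²`). By `SPLIT` and `‖∑_{i<n} a_i + t‖² ≤ 2 n ∑ ‖a_i‖² + 2 ‖t‖²`:
total `≤ 2 n² * 4 ε' N² + ε N² / 4 ≤ ε N²`.
-/

set_option autoImplicit false

namespace Pool.Agent.LogCh

open Real
open Pool.Agent.NSqP
open Pool.Agent.MP484c84Par (ballG mem_ballG crossG dotG)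

/-- difference of two discs -/
private lemma pann_diff {a b : ℝ} (ha : 0 ≤ a) (hab : a ≤ b) (P : GaussianInt → Prop)
    [DecidablePred P] (f : GaussianInt → ℂ) :
    ∑ z ∈ (pann a b).filter P, f z =
      ∑ z ∈ (pann 0 b).filter P, f z - ∑ z ∈ (pann 0 a).filter P, f z := by
  classical
  have hb : 0 ≤ b := ha.trans hab
  rw [eq_sub_iff_add_eq, ← Finset.sum_union]
  · apply Finset.sum_congr _ fun _ _ => rfl
    ext z
    rw [Finset.mem_union, Finset.mem_filter, Finset.mem_filter, Finset.mem_filter, mem_pann hb,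
      mem_pann hb, mem_pann ha]
    constructor
    · rintro (⟨⟨⟨h1, h2⟩, h3⟩, h4⟩ | ⟨⟨⟨h1, h2⟩, h3⟩, h4⟩)
      · exact ⟨⟨⟨ha.trans_lt h1, h2⟩, h3⟩, h4⟩
      · exact ⟨⟨⟨h1, h2.trans hab⟩, h3⟩, h4⟩
    · rintro ⟨⟨⟨h1, h2⟩, h3⟩, h4⟩
      rcases lt_or_ge a (nN z : ℝ) with h | h
      · exact Or.inl ⟨⟨⟨h, h2⟩, h3⟩, h4⟩
      · exact Or.inr ⟨⟨⟨h1, h⟩, h3⟩, h4⟩
  · rw [Finset.disjoint_left]
    intro z hz hz'
    rw [Finset.mem_filter, mem_pann hb] at hz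
    rw [Finset.mem_filter, mem_pann ha] at hz'
    exact absurd hz.1.1.1 (not_lt.2 hz'.1.1.2)

private lemma norm_sq_sum_le {ι : Type} (I : Finset ι) (a : ι → ℂ) :
    ‖∑ i ∈ I, a i‖ ^ 2 ≤ I.card * ∑ i ∈ I, ‖a i‖ ^ 2 := by
  calc ‖∑ i ∈ I, a i‖ ^ 2 ≤ (∑ i ∈ I, ‖a i‖) ^ 2 :=
        pow_le_pow_left₀ (norm_nonneg _) (norm_sum_le _ _) 2
    _ ≤ I.card * ∑ i ∈ I, ‖a i‖ ^ 2 := sq_sum_le_card_mul_sum_sq

private lemma norm_sq_add_le (x y : ℂ) : ‖x + y‖ ^ 2 ≤ 2 * ‖x‖ ^ 2 + 2 * ‖y‖ ^ 2 := by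
  have h := norm_add_le x y
  have h1 : ‖x + y‖ ^ 2 ≤ (‖x‖ + ‖y‖) ^ 2 := pow_le_pow_left₀ (norm_nonneg _) h 2
  nlinarith [sq_nonneg (‖x‖ - ‖y‖)]

private lemma norm_sq_sub_le (x y : ℂ) : ‖x - y‖ ^ 2 ≤ 2 * ‖x‖ ^ 2 + 2 * ‖y‖ ^ 2 := by
  have := norm_sq_add_le x (-y)
  rwa [norm_neg, ← sub_eq_add_neg] at this

private lemma gset_prop {r E : ℕ} {g : GaussianInt} (hg : g ∈ gset r E) :
    Nrm g := by
  classical
  unfold gset at hg
  exact (Finset.mem_filter.1 hg).2.2.1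

private lemma cset_prop {r : ℕ} {g b c : GaussianInt} (hc : c ∈ cset r g b) :
    IsCoprime c (r : GaussianInt) := by
  classical
  unfold cset at hc
  exact (Finset.mem_filter.1 hc).2.2.1

private lemma nrm_ne_zero {g : GaussianInt} (hg : Nrm g) : g ≠ 0 := by
  rintro rfl
  exact absurd hg.1 (lt_irrefl _)

open Classical in
theorem FREQ (h1 : HALFStmt) (h2 : LVPStmt) (r : ℕ) (hr : 1 ≤ r) (b : GaussianInt) (ρ ρ' : ℝ)
    (hρ : 0 ≤ ρ) (hρ' : ρ ≤ ρ') (h3 : ρ' ≤ 1) (ε : ℝ) (hε : 0 < ε) :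
    ∃ A : ℕ, 1 ≤ A ∧ ∃ N0 : ℕ, ∀ N : ℕ, N0 ≤ N →
      ∑ m ∈ fr (N / A), ‖∑ z ∈ (pann (ρ * N) (ρ' * N)).filter (fun z => (r : GaussianInt) ∣ z - b),
        (lam z : ℂ) * xi z ^ m‖ ^ 2 ≤ ε * (N : ℝ) ^ 2 := by
  obtain ⟨C, hC, hLS⟩ := LSP
  obtain ⟨E, hE⟩ := TAILR r hr (ε / (16 * C)) (by positivity)
  set I : Finset (Σ _ : GaussianInt, GaussianInt) := (gset r E).sigma (fun g => cset r g b) with hI
  set n : ℕ := I.card with hn
  set ε' : ℝ := ε / (16 * ((n : ℝ) + 1) ^ 2) with hε'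
  have hε'0 : 0 < ε' := by positivity
  obtain ⟨A, hA, N1, hN1⟩ := CLSF h1 h2 r hr ε' hε'0
  refine ⟨A, hA, max N1 1, fun N hN => ?_⟩
  have hNN1 : N1 ≤ N := (le_max_left _ _).trans hN
  have hN0 : 1 ≤ N := (le_max_right _ _).trans hN
  have hNr : (1 : ℝ) ≤ N := by exact_mod_cast hN0
  have hNpos : (0 : ℝ) < N := by linarith
  set u : ℝ := ρ * N with hu
  set v : ℝ := ρ' * N with hv
  have hu0 : 0 ≤ u := by positivity
  have huv : u ≤ v := mul_le_mul_of_nonneg_right hρ' hNpos.le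
  have hvN : v ≤ N := by
    rw [hv]; nlinarith
  have hv0 : 0 ≤ v := hu0.trans huv
  -- the function F
  set F : GaussianInt → ℝ → ℤ → ℂ := fun c y m =>
    ∑ z ∈ (pann 0 y).filter (fun z => (r : GaussianInt) ∣ z - c), (lam z : ℂ) * xi z ^ m with hF
  have hFb : ∀ c, IsCoprime c (r : GaussianInt) → ∀ y : ℝ, 0 ≤ y → y ≤ N →
      ∑ m ∈ fr (N / A), ‖F c y m‖ ^ 2 ≤ ε' * (N : ℝ) ^ 2 := fun c hc y hy hyN =>
    hN1 N hNN1 c hc y hy hyN
  set T : Finset GaussianInt := Tset r E b u v with hT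
  have hTsub : ∀ z ∈ T, z ∈ pann 0 N ∧ ∃ q : GaussianInt, Prime q ∧ q ∣ (r : GaussianInt) ∧
      q ^ E ∣ z := fun z hz => Tset_sub hr b hu0 hvN hz
  have hTc : (T.card : ℝ) ≤ ε / (16 * C) * N := by
    refine le_trans ?_ (hE N)
    have : T ⊆ (pann 0 N).filter (fun z => ∃ q : GaussianInt, Prime q ∧
        q ∣ (r : GaussianInt) ∧ q ^ E ∣ z) := by
      intro z hz
      exact Finset.mem_filter.2 (hTsub z hz)
    exact_mod_cast Finset.card_le_card this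
  have hMN : ((N / A : ℕ) : ℝ) ≤ N := by exact_mod_cast Nat.div_le_self N A
  have hTm : ∑ m ∈ fr (N / A), ‖∑ z ∈ T, (lam z : ℂ) * xi z ^ m‖ ^ 2 ≤ ε / 8 * (N : ℝ) ^ 2 := by
    have h4 := hLS T (fun z => (lam z : ℂ)) N (N / A) hNr (fun z hz => by
      have h5 := (mem_pann hNpos.le).1 (hTsub z hz).1
      exact ⟨h5.2, h5.1.2⟩)
    refine h4.trans ?_
    have h5 : ∑ z ∈ T, ‖(lam z : ℂ)‖ ^ 2 ≤ T.card := by
      calc ∑ z ∈ T, ‖(lam z : ℂ)‖ ^ 2 ≤ ∑ z ∈ T, (1 : ℝ) := by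
            apply Finset.sum_le_sum
            intro z _
            have := norm_lam_le z
            have h6 := norm_nonneg (lam z : ℂ)
            nlinarith
        _ = T.card := by simp
    calc C * (((N / A : ℕ) : ℝ) + N) * ∑ z ∈ T, ‖(lam z : ℂ)‖ ^ 2
        ≤ C * ((N : ℝ) + N) * (ε / (16 * C) * N) := by
          apply mul_le_mul
          · apply mul_le_mul_of_nonneg_left _ hC.le
            linarith
          · exact h5.trans hTc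
          · exact Finset.sum_nonneg fun z _ => by positivity
          · positivity
      _ = ε / 8 * (N : ℝ) ^ 2 := by field_simp; ring
  -- the decomposition
  have hdec : ∀ m : ℤ, ∑ z ∈ (pann u v).filter (fun z => (r : GaussianInt) ∣ z - b),
      (lam z : ℂ) * xi z ^ m =
      ∑ i ∈ I, ((lam i.1 : ℂ) * xi i.1 ^ m) * (F i.2 (v / nN i.1) m - F i.2 (u / nN i.1) m) +
      ∑ z ∈ T, (lam z : ℂ) * xi z ^ m := by
    intro m
    rw [SPLIT hr E b hu0 huv (fun z => (lam z : ℂ) * xi z ^ m)]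
    congr 1
    rw [hI, Finset.sum_sigma]
    apply Finset.sum_congr rfl
    intro g hg
    apply Finset.sum_congr rfl
    intro c _
    have hg0 : g ≠ 0 := nrm_ne_zero (gset_prop hg)
    have hgn : (0 : ℝ) < nN g := by exact_mod_cast nN_pos hg0
    have h5 : ∑ w ∈ (pann (u / nN g) (v / nN g)).filter (fun w => (r : GaussianInt) ∣ w - c),
        (lam (g * w) : ℂ) * xi (g * w) ^ m =
        ((lam g : ℂ) * xi g ^ m) *
        ∑ w ∈ (pann (u / nN g) (v / nN g)).filter (fun w => (r : GaussianInt) ∣ w - c),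
          (lam w : ℂ) * xi w ^ m := by
      rw [Finset.mul_sum]
      apply Finset.sum_congr rfl
      intro w hw
      have hw0 : w ≠ 0 :=
        ne_zero_of_mem_ann (div_nonneg hu0 hgn.le) (pann_subset _ _ (Finset.mem_filter.1 hw).1)
      rw [lam_mul hg0 hw0, xi_mul_zpow]
      push_cast
      ring
    rw [h5, pann_diff (div_nonneg hu0 hgn.le) (div_le_div_of_nonneg_right huv hgn.le)]
  have hiF : ∀ i ∈ I, ∑ m ∈ fr (N / A),
      ‖((lam i.1 : ℂ) * xi i.1 ^ m) * (F i.2 (v / nN i.1) m - F i.2 (u / nN i.1) m)‖ ^ 2 ≤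
        4 * ε' * (N : ℝ) ^ 2 := by
    intro i hi
    rw [hI, Finset.mem_sigma] at hi
    have hg0 : i.1 ≠ 0 := nrm_ne_zero (gset_prop hi.1)
    have hgn : (1 : ℝ) ≤ nN i.1 := by exact_mod_cast nN_pos hg0
    have hc := cset_prop hi.2
    have hle : ∀ y : ℝ, 0 ≤ y → y ≤ N → 0 ≤ y / nN i.1 ∧ y / nN i.1 ≤ N := by
      intro y hy hyN
      exact ⟨by positivity, (div_le_self hy hgn).trans hyN⟩
    have ha := hFb i.2 hc (v / nN i.1) (hle v hv0 hvN).1 (hle v hv0 hvN).2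
    have hb := hFb i.2 hc (u / nN i.1) (hle u hu0 (huv.trans hvN)).1
      (hle u hu0 (huv.trans hvN)).2
    calc ∑ m ∈ fr (N / A),
        ‖((lam i.1 : ℂ) * xi i.1 ^ m) * (F i.2 (v / nN i.1) m - F i.2 (u / nN i.1) m)‖ ^ 2
        ≤ ∑ m ∈ fr (N / A), (2 * ‖F i.2 (v / nN i.1) m‖ ^ 2 + 2 * ‖F i.2 (u / nN i.1) m‖ ^ 2) := by
          apply Finset.sum_le_sum
          intro m _
          refine le_trans ?_ (norm_sq_sub_le _ _)
          rw [norm_mul, norm_mul, norm_xi_zpow hg0, mul_one]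
          apply pow_le_pow_left₀ (by positivity)
          have := norm_lam_le i.1
          exact mul_le_of_le_one_left (norm_nonneg _) this
      _ = 2 * ∑ m ∈ fr (N / A), ‖F i.2 (v / nN i.1) m‖ ^ 2 +
          2 * ∑ m ∈ fr (N / A), ‖F i.2 (u / nN i.1) m‖ ^ 2 := by
          rw [Finset.sum_add_distrib, ← Finset.mul_sum, ← Finset.mul_sum]
      _ ≤ 4 * ε' * (N : ℝ) ^ 2 := by linarith
  calc ∑ m ∈ fr (N / A), ‖∑ z ∈ (pann u v).filter (fun z => (r : GaussianInt) ∣ z - b),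
        (lam z : ℂ) * xi z ^ m‖ ^ 2
      ≤ ∑ m ∈ fr (N / A), (2 * ((n : ℝ) * ∑ i ∈ I,
          ‖((lam i.1 : ℂ) * xi i.1 ^ m) * (F i.2 (v / nN i.1) m - F i.2 (u / nN i.1) m)‖ ^ 2) +
          2 * ‖∑ z ∈ T, (lam z : ℂ) * xi z ^ m‖ ^ 2) := by
        apply Finset.sum_le_sum
        intro m _
        rw [hdec m]
        refine (norm_sq_add_le _ _).trans ?_
        have := norm_sq_sum_le I (fun i => ((lam i.1 : ℂ) * xi i.1 ^ m) *
          (F i.2 (v / nN i.1) m - F i.2 (u / nN i.1) m))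
        linarith
    _ = 2 * ((n : ℝ) * ∑ i ∈ I, ∑ m ∈ fr (N / A),
          ‖((lam i.1 : ℂ) * xi i.1 ^ m) * (F i.2 (v / nN i.1) m - F i.2 (u / nN i.1) m)‖ ^ 2) +
          2 * ∑ m ∈ fr (N / A), ‖∑ z ∈ T, (lam z : ℂ) * xi z ^ m‖ ^ 2 := by
        rw [Finset.sum_add_distrib, ← Finset.mul_sum, ← Finset.mul_sum, ← Finset.mul_sum,
          Finset.sum_comm]
    _ ≤ 2 * ((n : ℝ) * ∑ i ∈ I, 4 * ε' * (N : ℝ) ^ 2) + 2 * (ε / 8 * (N : ℝ) ^ 2) := by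
        have h5 := Finset.sum_le_sum hiF
        have h6 := mul_le_mul_of_nonneg_left h5 (Nat.cast_nonneg n : (0 : ℝ) ≤ n)
        linarith
    _ = (8 * (n : ℝ) ^ 2 * ε' + ε / 4) * (N : ℝ) ^ 2 := by
        rw [Finset.sum_const, nsmul_eq_mul, ← hn]; ring
    _ ≤ ε * (N : ℝ) ^ 2 := by
        apply mul_le_mul_of_nonneg_right _ (by positivity)
        have h5 : 8 * (n : ℝ) ^ 2 * ε' ≤ ε / 2 := by
          rw [hε']
          have h6 : (n : ℝ) ^ 2 ≤ ((n : ℝ) + 1) ^ 2 := by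
            have : (0 : ℝ) ≤ n := Nat.cast_nonneg n
            nlinarith
          rw [mul_div_assoc', div_le_iff₀ (by positivity)]
          nlinarith
        linarith

end Pool.Agent.LogCh
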