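import Pool.Agent.Lib.LogCh.FFreq
import Pool.Agent.Lib.LogCh.FArc

/-!
# MRC0: the final statement of group F

`ARC` gives `C`. `FREQ` with `(ε / 4) ^ 2` gives `A`, `N1`. `η = ε / (4 C)`,
`H0 ≥ 4 C / ε` and `H0 ≥ 8 C A / (ε η)`. For `N ≥ max N1 A 1`, `K H0 ≤ N`: `M = N / A ≥ 1`, `M ≥ N / (2 A)`;
`S = (pann (ρ N) (ρ' N)).filter (r ∣ z - b)`; the filter with `r ∣ z - b ∧ arcI K z = i` is
`S.filter (arcI K z = i)` (`Finset.filter_filter`). The bound is
`ε N / 4 + C K + C η N + 2 C A K / η ≤ ε N`, because `K ≤ N / H0`.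
-/

set_option autoImplicit false

namespace Pool.Agent.LogCh

open Real
open Pool.Agent.NSqP
open Pool.Agent.MP484c84Par (ballG mem_ballG crossG dotG)

open Classical in
theorem MRC0 (h1 : HALFStmt) (h2 : LVPStmt) (r : ℕ) (hr : 1 ≤ r) (b : GaussianInt) (ρ ρ' : ℝ)
    (hρ : 0 ≤ ρ) (hρ' : ρ ≤ ρ') (h3 : ρ' ≤ 1) (ε : ℝ) (hε : 0 < ε) :
    ∃ H0 N0 : ℕ, ∀ N : ℕ, N0 ≤ N → ∀ K : ℕ, 1 ≤ K → K * H0 ≤ N →
      ∑ i ∈ Finset.range K, |∑ z ∈ (pann (ρ * N) (ρ' * N)).filter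
        (fun z => (r : GaussianInt) ∣ z - b ∧ arcI K z = i), lam z| ≤ ε * N := by
  obtain ⟨C, hC, harc⟩ := ARC
  obtain ⟨A, hA, N1, hfreq⟩ := FREQ h1 h2 r hr b ρ ρ' hρ hρ' h3 ((ε / 4) ^ 2) (by positivity)
  have hA0 : (0 : ℝ) < A := by exact_mod_cast hA
  set η : ℝ := ε / (4 * C) with hη
  have hη0 : 0 < η := by positivity
  obtain ⟨H0, hH0⟩ := exists_nat_ge (max (4 * C / ε) (8 * C * A / (ε * η)))
  have hHa : 4 * C / ε ≤ H0 := (le_max_left _ _).trans hH0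
  have hHb : 8 * C * A / (ε * η) ≤ H0 := (le_max_right _ _).trans hH0
  refine ⟨H0, max N1 (max A 1), fun N hN K hK hKN => ?_⟩
  have hN1 : N1 ≤ N := (le_max_left _ _).trans hN
  have hNA : A ≤ N := (le_max_left _ _).trans ((le_max_right _ _).trans hN)
  have hN0 : 1 ≤ N := (le_max_right _ _).trans ((le_max_right _ _).trans hN)
  have hN0' : (0 : ℝ) < N := by exact_mod_cast hN0
  set M : ℕ := N / A with hM
  have hM1 : 1 ≤ M := (Nat.one_le_div_iff (by omega)).2 hNA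
  have hM0 : (0 : ℝ) < M := by exact_mod_cast hM1
  -- `N ≤ 2 A M`
  have hNM : (N : ℝ) ≤ 2 * A * M := by
    have h4 : N < A * (M + 1) := by
      rw [mul_comm]
      exact (Nat.div_lt_iff_lt_mul (by omega)).1 (Nat.lt_succ_self _)
    have h5 : A * (M + 1) ≤ 2 * A * M := by nlinarith
    exact_mod_cast (h4.trans_le h5).le
  set S : Finset GaussianInt :=
    (pann (ρ * N) (ρ' * N)).filter (fun z => (r : GaussianInt) ∣ z - b) with hS
  have hS1 : ∀ z ∈ S, Prim z ∧ nN z ≤ N := by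
    intro z hz
    have hz1 := (Finset.mem_filter.1 hz).1
    have hρN : 0 ≤ ρ' * (N : ℝ) := mul_nonneg (hρ.trans hρ') hN0'.le
    rw [mem_pann hρN] at hz1
    refine ⟨hz1.2, ?_⟩
    have : (nN z : ℝ) ≤ N := by
      refine hz1.1.2.trans ?_
      calc ρ' * (N : ℝ) ≤ 1 * N := mul_le_mul_of_nonneg_right h3 hN0'.le
        _ = N := one_mul _
    exact_mod_cast this
  have hmain := harc N K M η S lam hN0 hK hM1 hη0 hS1 (fun z _ => abs_lam_le z)
  have hfr := hfreq N hN1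
  have hsq : √(∑ m ∈ fr M, ‖∑ z ∈ S, (lam z : ℂ) * xi z ^ m‖ ^ 2) ≤ ε / 4 * N := by
    rw [Real.sqrt_le_left (by positivity)]
    calc _ ≤ (ε / 4) ^ 2 * (N : ℝ) ^ 2 := hfr
      _ = (ε / 4 * N) ^ 2 := by ring
  have hfilt : ∀ i ∈ Finset.range K, |∑ z ∈ (pann (ρ * N) (ρ' * N)).filter
        (fun z => (r : GaussianInt) ∣ z - b ∧ arcI K z = i), lam z| =
      |∑ z ∈ S.filter (fun z => arcI K z = i), lam z| := by
    intro i _
    rw [hS, Finset.filter_filter]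
  rw [Finset.sum_congr rfl hfilt]
  refine hmain.trans ?_
  -- numerics
  have hK0 : (0 : ℝ) ≤ K := Nat.cast_nonneg _
  have hKN' : (K : ℝ) * H0 ≤ N := by exact_mod_cast hKN
  have n1 : C * K ≤ ε / 4 * N := by
    have : (K : ℝ) * (4 * C / ε) ≤ N := (mul_le_mul_of_nonneg_left hHa hK0).trans hKN'
    have e : C * K = ε / 4 * ((K : ℝ) * (4 * C / ε)) := by field_simp
    rw [e]
    exact mul_le_mul_of_nonneg_left this (by positivity)
  have n2 : C * (η * N) = ε / 4 * N := by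
    rw [hη]; field_simp
  have n3 : C * (N * K / (η * M)) ≤ ε / 4 * N := by
    have h6 : (N : ℝ) * K / (η * M) ≤ 2 * A * K / η := by
      rw [div_le_div_iff₀ (by positivity) hη0]
      have : (N : ℝ) * (K * η) ≤ 2 * A * M * (K * η) :=
        mul_le_mul_of_nonneg_right hNM (by positivity)
      nlinarith
    have h7 : (K : ℝ) * (8 * C * A / (ε * η)) ≤ N :=
      (mul_le_mul_of_nonneg_left hHb hK0).trans hKN'
    calc C * (N * K / (η * M)) ≤ C * (2 * A * K / η) := mul_le_mul_of_nonneg_left h6 hC.le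
      _ = ε / 4 * ((K : ℝ) * (8 * C * A / (ε * η))) := by field_simp; ring
      _ ≤ ε / 4 * N := mul_le_mul_of_nonneg_left h7 (by positivity)
  have e2 : C * (K + η * N + N * K / (η * M)) = C * K + C * (η * N) + C * (N * K / (η * M)) := by
    ring
  rw [e2]
  linarith

end Pool.Agent.LogCh
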