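import Pool.Agent.Lib.LogCh.FDefs
import Pool.Agent.Lib.NSqP.Mer

/-!
# RANGE: ranges of blocks between `x ^ θ` and `x ^ (1/8)` with large `WR`

`WR_lower` (module `NSqP.Mer`): `log (b / a) - C * (H / a) ≤ WR H a b` for `1 ≤ H ≤ a ≤ b`.
Take `θ = min (1/16) (exp (-(|W0| + 4)) / 8)`, `a = ⌈H θ log x⌉₊`, `b = ⌊H log x / 8⌋₊`.
For `x` large `H ≤ a` (as `θ log x ≥ 1`), `a ≤ 2 H θ log x`, `b ≥ H log x / 16`, hence
`b / a ≥ 1 / (32 θ)`, `log (b / a) ≥ |W0| + 4 - log 4 ≥ |W0| + 1`, and `C * (H / a) ≤ C / (θ log x) ≤ 1`.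
`H ≤ exp (a / H)` because `exp (a / H) ≥ x ^ θ`.
-/

set_option autoImplicit false

namespace Pool.Agent.LogCh

open Real
open Pool.Agent.NSqP
open Pool.Agent.MP484c84Par (ballG mem_ballG crossG dotG)

theorem RANGE (W0 : ℝ) : ∃ θ : ℝ, 0 < θ ∧ θ ≤ 1 / 16 ∧ ∀ H : ℕ, 1 ≤ H → ∃ x0 : ℝ, 1 ≤ x0 ∧
    ∀ x : ℝ, x0 ≤ x → ∃ a b : ℕ, 1 ≤ a ∧ a < b ∧ θ * log x ≤ (a : ℝ) / H ∧
      (b : ℝ) / H ≤ log x / 8 ∧ W0 ≤ WR H a b ∧ (H : ℝ) ≤ exp ((a : ℝ) / H) := by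
  obtain ⟨C, hC0, hC⟩ := WR_lower
  set θ : ℝ := exp (-(|W0| + 4)) / 8 with hθ
  have hθ0 : 0 < θ := by positivity
  have hexp : exp (-(|W0| + 4)) ≤ exp (-4) := exp_le_exp.2 (by have := abs_nonneg W0; linarith)
  have he4 : exp (-4 : ℝ) ≤ 1 / 4 := by
    rw [exp_neg, inv_eq_one_div]
    apply one_div_le_one_div_of_le (by norm_num)
    have := add_one_le_exp (4 : ℝ); linarith
  have hθ1 : θ ≤ 1 / 32 := by rw [hθ]; linarith
  refine ⟨θ, hθ0, by linarith, fun H hH => ?_⟩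
  have hH0 : (0 : ℝ) < H := by exact_mod_cast hH
  have hH1 : (1 : ℝ) ≤ H := by exact_mod_cast hH
  refine ⟨exp ((1 + C + H + 16) / θ), one_le_exp (by positivity), fun x hx => ?_⟩
  have hx0 : 0 < x := lt_of_lt_of_le (exp_pos _) hx
  set L := log x with hL
  have hLb : (1 + C + H + 16) / θ ≤ L := by
    rw [hL, ← log_exp ((1 + C + H + 16) / θ)]
    exact log_le_log (exp_pos _) hx
  have hθL : 1 + C + H + 16 ≤ θ * L := by
    rw [div_le_iff₀ hθ0] at hLb; linarith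
  have hL0 : 0 < L := lt_of_lt_of_le (by positivity) hLb
  have hL16 : 16 ≤ L := by nlinarith
  -- a and b
  have hHθL : 1 ≤ (H : ℝ) * (θ * L) := by nlinarith
  have ha1 : (H : ℝ) * (θ * L) ≤ (⌈(H : ℝ) * (θ * L)⌉₊ : ℝ) := Nat.le_ceil _
  have ha2 : (⌈(H : ℝ) * (θ * L)⌉₊ : ℝ) < (H : ℝ) * (θ * L) + 1 :=
    Nat.ceil_lt_add_one (by positivity)
  have hb1 : (⌊(H : ℝ) * L / 8⌋₊ : ℝ) ≤ (H : ℝ) * L / 8 := Nat.floor_le (by positivity)
  have hb2 : (H : ℝ) * L / 8 < (⌊(H : ℝ) * L / 8⌋₊ : ℝ) + 1 := Nat.lt_floor_add_one _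
  set a := ⌈(H : ℝ) * (θ * L)⌉₊ with ha
  set b := ⌊(H : ℝ) * L / 8⌋₊ with hb
  have haH : (H : ℝ) ≤ a := by nlinarith
  have haH' : H ≤ a := by exact_mod_cast haH
  have ha0 : (0 : ℝ) < a := lt_of_lt_of_le hH0 haH
  have ha3 : (a : ℝ) ≤ 2 * (H * (θ * L)) := by linarith
  have hHL : 16 ≤ (H : ℝ) * L := by nlinarith
  have hb3 : (H : ℝ) * L / 16 ≤ b := by linarith
  have hab : (a : ℝ) < b := by
    have : 2 * (H * (θ * L)) ≤ (H : ℝ) * L / 16 := by nlinarith [mul_pos hH0 hL0]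
    have h3 : (H : ℝ) * L / 16 < b := by
      have : (1 : ℝ) ≤ H * L / 16 := by linarith
      by_contra hcon
      have := not_lt.1 hcon
      linarith
    linarith
  have hab' : a < b := by exact_mod_cast hab
  refine ⟨a, b, le_trans hH haH', hab', ?_, ?_, ?_, ?_⟩
  · rw [le_div_iff₀ hH0]; linarith
  · rw [div_le_iff₀ hH0]; linarith
  · have h1 := hC H a b hH haH' hab'.le
    have h2 : C * ((H : ℝ) / a) ≤ 1 := by
      rw [← mul_div_assoc, div_le_one ha0]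
      nlinarith
    have h3 : |W0| + 2 ≤ log ((b : ℝ) / a) := by
      have hb0 : (0 : ℝ) < b := ha0.trans hab
      rw [le_log_iff_exp_le (div_pos hb0 ha0), le_div_iff₀ ha0]
      have h4 : exp (|W0| + 2) * a ≤ exp (|W0| + 2) * (2 * (H * (θ * L))) :=
        mul_le_mul_of_nonneg_left ha3 (exp_pos _).le
      have h5 : exp (|W0| + 2) * θ ≤ 1 / 32 := by
        rw [hθ, ← mul_div_assoc, ← exp_add]
        have : |W0| + 2 + -(|W0| + 4) = (-2 : ℝ) := by ring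
        rw [this]
        have h6 : exp (-2 : ℝ) ≤ 1 / 4 := by
          rw [exp_neg, inv_eq_one_div]
          apply one_div_le_one_div_of_le (by norm_num)
          have h7 : exp (2 : ℝ) = exp 1 * exp 1 := by rw [← exp_add]; norm_num
          rw [h7]
          have := exp_one_gt_d9
          nlinarith
        linarith
      calc exp (|W0| + 2) * a ≤ exp (|W0| + 2) * (2 * (H * (θ * L))) := h4
        _ = 2 * (H * L) * (exp (|W0| + 2) * θ) := by ring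
        _ ≤ 2 * (H * L) * (1 / 32) := mul_le_mul_of_nonneg_left h5 (by positivity)
        _ = (H : ℝ) * L / 16 := by ring
        _ ≤ b := hb3
    have := le_abs_self W0
    linarith
  · have h1 : (H : ℝ) ≤ a / H := by
      rw [le_div_iff₀ hH0]; nlinarith
    have h2 := add_one_le_exp ((a : ℝ) / H)
    linarith

end Pool.Agent.LogCh
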