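import Pool.Agent.Lib.LogCh.FDefs

/-!
# The part of a Gaussian integer composed of primes dividing `r`

`rp_exists`: let `d = gcd z (r ^ E)` (`EuclideanDomain.gcd`), `z = d * w`. Claim: `w` coprime to `r`.
Otherwise there is a prime `π` with `π ∣ w`, `π ∣ r`. By induction on `j ≤ E`, `π ^ j ∣ d`:
if `π ^ j ∣ d`, `j < E`, then `π ^ (j+1) ∣ d * w = z` and `π ^ (j+1) ∣ r ^ E`, so `π ^ (j+1) ∣ d`
(`EuclideanDomain.dvd_gcd`). Hence `π ^ E ∣ z`, contradicting `h`. Then multiply `d` by the unit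
`i ^ k` that makes it normalised (`Nrm`).
`rp_unique`: `g ∣ g' * w'` and `g ∣ r ^ E` is coprime to `w'`, so `g ∣ g'`; likewise `g' ∣ g`; associated
normalised elements are equal (units of `GaussianInt` are `1, -1, i, -i`).
`rp_prim`: `cont (g * w) ≠ 1` iff a rational prime `p` divides `g * w` (in `GaussianInt`,
`(p : GaussianInt) ∣ z ↔ p ∣ z.re ∧ p ∣ z.im`). If `p ∣ r`, then `p` is coprime to `w`, so `p ∣ g`; if not,
then `p` is coprime to `r`, hence to `g ∣ r ^ E`, so `p ∣ w`. Conversely `p ∣ g` or `p ∣ w` gives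
`p ∣ g * w`.
-/

set_option autoImplicit false

namespace Pool.Agent.LogCh

open Real
open Pool.Agent.NSqP
open Pool.Agent.MP484c84Par (ballG mem_ballG crossG dotG)

/-- every nonzero element has a normalised associate -/
private lemma frp_norm (d : GaussianInt) (hd : d ≠ 0) :
    ∃ u v : GaussianInt, u * v = 1 ∧ Nrm (d * u) := by
  have h : ¬ (d.re = 0 ∧ d.im = 0) := fun h => hd (Zsqrtd.ext h.1 h.2)
  by_cases h1 : 0 < d.re ∧ 0 ≤ d.im
  · exact ⟨1, 1, by ring, by rw [mul_one]; exact h1⟩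
  by_cases h2 : d.re ≤ 0 ∧ 0 < d.im
  · refine ⟨⟨0, -1⟩, ⟨0, 1⟩, by ext <;> simp, ?_⟩
    constructor
    · simp; omega
    · simp; omega
  by_cases h3 : d.re < 0 ∧ d.im ≤ 0
  · refine ⟨-1, -1, by ring, ?_⟩
    constructor
    · simp; omega
    · simp; omega
  · refine ⟨⟨0, 1⟩, ⟨0, -1⟩, by ext <;> simp, ?_⟩
    constructor
    · simp; omega
    · simp; omega

private lemma frp_assoc_eq {g g' : GaussianInt} (h1 : Nrm g) (h2 : Nrm g') (h : g ∣ g')
    (h' : g' ∣ g) : g = g' := by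
  obtain ⟨u, hu⟩ := h
  obtain ⟨v, hv⟩ := h'
  have hg0 : g ≠ 0 := by
    rintro rfl
    have := h1.1
    simp at this
  have huv : u * v = 1 := by
    have : g * (u * v) = g * 1 := by rw [mul_one, ← mul_assoc, ← hu, ← hv]
    exact mul_left_cancel₀ hg0 this
  have hn : u.norm = 1 := by
    have hm : u.norm * v.norm = 1 := by rw [← Zsqrtd.norm_mul, huv]; rfl
    have hnn : 0 ≤ u.norm := GaussianInt.norm_nonneg u
    rcases Int.eq_one_or_neg_one_of_mul_eq_one hm with h | h
    · exact h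
    · omega
  rw [Zsqrtd.norm_def] at hn
  have hcase : (u.re = 1 ∧ u.im = 0) ∨ (u.re = -1 ∧ u.im = 0) ∨ (u.re = 0 ∧ u.im = 1) ∨
      (u.re = 0 ∧ u.im = -1) := by
    have a1 : u.re ^ 2 + u.im ^ 2 = 1 := by linarith
    have a2 : -1 ≤ u.re := by nlinarith
    have a3 : u.re ≤ 1 := by nlinarith
    have a4 : -1 ≤ u.im := by nlinarith
    have a5 : u.im ≤ 1 := by nlinarith
    have b1 : u.re = -1 ∨ u.re = 0 ∨ u.re = 1 := by omega
    have b2 : u.im = -1 ∨ u.im = 0 ∨ u.im = 1 := by omega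
    rcases b1 with b1 | b1 | b1 <;> rcases b2 with b2 | b2 | b2 <;> rw [b1, b2] at a1 <;>
      first
      | (norm_num at a1; done)
      | simp [b1, b2]
  obtain ⟨p1, p2⟩ := h1
  obtain ⟨q1, q2⟩ := h2
  rw [hu] at q1 q2
  simp only [Zsqrtd.re_mul, Zsqrtd.im_mul] at q1 q2
  rcases hcase with ⟨c1, c2⟩ | ⟨c1, c2⟩ | ⟨c1, c2⟩ | ⟨c1, c2⟩
  · have : u = 1 := by ext <;> simp [c1, c2]
    rw [hu, this, mul_one]
  · rw [c1, c2] at q1 q2
    exfalso; linarith
  · rw [c1, c2] at q1 q2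
    exfalso; linarith
  · rw [c1, c2] at q1 q2
    exfalso; linarith

theorem rp_exists {r E : ℕ} (hr : 1 ≤ r) {z : GaussianInt} (hz : z ≠ 0)
    (h : ∀ q : GaussianInt, Prime q → q ∣ (r : GaussianInt) → ¬ q ^ E ∣ z) :
    ∃ g w : GaussianInt, g ∣ (r : GaussianInt) ^ E ∧ Nrm g ∧ IsCoprime w (r : GaussianInt) ∧
      z = g * w := by
  classical
  set d := EuclideanDomain.gcd z ((r : GaussianInt) ^ E) with hd
  obtain ⟨w, hw⟩ : d ∣ z := EuclideanDomain.gcd_dvd_left _ _
  have hd2 : d ∣ (r : GaussianInt) ^ E := EuclideanDomain.gcd_dvd_right _ _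
  have hd0 : d ≠ 0 := by
    intro h0
    rw [h0, zero_mul] at hw
    exact hz hw
  have hr0 : (r : GaussianInt) ≠ 0 := by
    intro h
    have h2 : ((r : GaussianInt)).re = (r : ℤ) := by simp
    rw [h] at h2
    simp at h2
    omega
  have hco : IsCoprime w (r : GaussianInt) := by
    apply isCoprime_of_prime_dvd
    · rintro ⟨-, h0⟩
      exact hr0 h0
    · intro q hq hqw hqr
      have key : ∀ j : ℕ, j ≤ E → q ^ j ∣ d := by
        intro j
        induction j with
        | zero => intro _; rw [pow_zero]; exact one_dvd _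
        | succ j ih =>
          intro hj
          have h1 := ih (by omega)
          apply EuclideanDomain.dvd_gcd
          · rw [hw, pow_succ]
            exact mul_dvd_mul h1 hqw
          · exact (pow_dvd_pow q hj).trans (pow_dvd_pow_of_dvd hqr E)
      have h2 := key E le_rfl
      exact h q hq hqr (h2.trans ⟨w, hw⟩)
  obtain ⟨u, v, huv, hn⟩ := frp_norm d hd0
  refine ⟨d * u, v * w, ?_, hn, ?_, ?_⟩
  · have : d = d * u * v := by rw [mul_assoc, huv, mul_one]
    have h3 : d * u ∣ d := ⟨v, this⟩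
    exact h3.trans hd2
  · have hv : IsUnit v := IsUnit.of_mul_eq_one u (by rw [mul_comm]; exact huv)
    exact (isCoprime_mul_unit_left_left hv w _).2 hco
  · rw [hw]
    calc d * w = d * (u * v) * w := by rw [huv, mul_one]
      _ = d * u * (v * w) := by ring

theorem rp_unique {r E : ℕ} {g g' w w' : GaussianInt} (hg : g ∣ (r : GaussianInt) ^ E)
    (hg' : g' ∣ (r : GaussianInt) ^ E) (h1 : Nrm g) (h2 : Nrm g')
    (hw : IsCoprime w (r : GaussianInt)) (hw' : IsCoprime w' (r : GaussianInt))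
    (h : g * w = g' * w') : g = g' ∧ w = w' := by
  have c1 : IsCoprime w' g := IsCoprime.of_isCoprime_of_dvd_right (hw'.pow_right (n := E)) hg
  have c2 : IsCoprime w g' := IsCoprime.of_isCoprime_of_dvd_right (hw.pow_right (n := E)) hg'
  have d1 : g ∣ g' := by
    have : g ∣ g' * w' := ⟨w, h.symm⟩
    exact c1.symm.dvd_of_dvd_mul_right this
  have d2 : g' ∣ g := by
    have : g' ∣ g * w := ⟨w', h⟩
    exact c2.symm.dvd_of_dvd_mul_right this
  have e := frp_assoc_eq h1 h2 d1 d2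
  refine ⟨e, ?_⟩
  have hg0 : g ≠ 0 := by
    rintro rfl
    have := h1.1
    simp at this
  rw [← e] at h
  exact mul_left_cancel₀ hg0 h

private lemma frp_dvd (r : ℕ) (z : GaussianInt) : ((r : GaussianInt) ∣ z) ↔ r ∣ cont z := by
  have h0 : ((r : GaussianInt)) = (((r : ℤ)) : GaussianInt) := by simp
  rw [h0]
  have h1 := Zsqrtd.intCast_dvd (d := -1) (r : ℤ) z
  rw [h1]
  unfold cont
  constructor
  · rintro ⟨h2, h3⟩
    exact Int.natCast_dvd_natCast.1 (Int.dvd_coe_gcd h2 h3)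
  · intro h
    have h2 : (r : ℤ) ∣ ((Int.gcd z.re z.im : ℕ) : ℤ) := Int.natCast_dvd_natCast.2 h
    exact ⟨h2.trans (Int.gcd_dvd_left ..), h2.trans (Int.gcd_dvd_right ..)⟩

private lemma frp_prim_iff (z : GaussianInt) :
    Prim z ↔ ∀ p : ℕ, p.Prime → ¬ (p : GaussianInt) ∣ z := by
  unfold Prim
  constructor
  · intro h p hp hd
    rw [frp_dvd, h] at hd
    exact hp.one_lt.ne' (Nat.dvd_one.1 hd)
  · intro h
    by_contra hne
    obtain ⟨p, hp, hd⟩ := Nat.exists_prime_and_dvd hne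
    exact h p hp ((frp_dvd p z).2 hd)

private lemma frp_copr (p : ℕ) (r : ℕ) (hp : p.Prime) (h : ¬ p ∣ r) :
    IsCoprime (p : GaussianInt) (r : GaussianInt) := by
  have h1 : Nat.Coprime p r := (Nat.Prime.coprime_iff_not_dvd hp).2 h
  have h2 : IsCoprime (p : ℤ) (r : ℤ) := Nat.isCoprime_iff_coprime.2 h1
  have h3 := h2.map (Int.castRingHom GaussianInt)
  simpa using h3

theorem rp_prim {r E : ℕ} {g w : GaussianInt} (hg : g ∣ (r : GaussianInt) ^ E)
    (hw : IsCoprime w (r : GaussianInt)) : Prim (g * w) ↔ Prim g ∧ Prim w := by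
  rw [frp_prim_iff, frp_prim_iff, frp_prim_iff]
  constructor
  · intro h
    exact ⟨fun p hp hd => h p hp (Dvd.dvd.mul_right hd w),
      fun p hp hd => h p hp (Dvd.dvd.mul_left hd g)⟩
  · rintro ⟨h1, h2⟩ p hp hd
    by_cases hpr : p ∣ r
    · have hpr' : (p : GaussianInt) ∣ (r : GaussianInt) := by
        obtain ⟨k, hk⟩ := hpr
        exact ⟨(k : GaussianInt), by rw [hk]; push_cast; ring⟩
      have c : IsCoprime (p : GaussianInt) w :=
        (IsCoprime.of_isCoprime_of_dvd_right hw hpr').symm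
      exact h1 p hp (c.dvd_of_dvd_mul_right hd)
    · have c : IsCoprime (p : GaussianInt) g :=
        IsCoprime.of_isCoprime_of_dvd_right ((frp_copr p r hp hpr).pow_right (n := E)) hg
      exact h2 p hp (c.dvd_of_dvd_mul_left hd)

end Pool.Agent.LogCh
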