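import Pool.Agent.Lib.LogCh.FBes
import Pool.Agent.Lib.NSqP.Fej

/-!
# SMOOTH: replacing a function `h` on the points by a smoothed step function

`u_j = ee (j / R)`, `Z(m) = ∑ i ∈ S, f i * u i ^ m`, `c_m = (1/R) ∑ j, g j * u_j ^ (-m)`,
`G i = (1/R) ∑ j, g j * fejK M (u i * conj u_j)`.
(1) By `fejK_eq`: `fejK M (u i * conj u_j) = ∑ m ∈ fr M, (1 - |m|/M) u i ^ m * u_j ^ (-m)`, so
`∑ i, f i * G i = ∑ m ∈ fr M, (1 - |m|/M) c_m Z(m)`, and by Cauchy and `BESSEL`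
its norm is `≤ √(∑ ‖Z(m)‖²)` (`0 ≤ 1 - |m|/M ≤ 1` on `fr M`).
(2) `(1/R) ∑ j, fejK M (u i * conj u_j) = 1` (only `m = 0` survives, `sum_ee`), so
`h i - G i = (1/R) ∑ j, (h i - g j) * fejK M (u i * conj u_j)`, norm `≤ (1/R) ∑ j ‖h i - g j‖ fejK`.
(3) `∑ f i h i = ∑ f i G i + ∑ f i (h i - G i)`.
-/

set_option autoImplicit false

namespace Pool.Agent.LogCh

open Real
open Pool.Agent.NSqP
open Pool.Agent.MP484c84Par (ballG mem_ballG crossG dotG)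

private lemma smo_fej (M : ℕ) (hM : 1 ≤ M) {u : ℂ} (hu : ‖u‖ = 1) (s : ℝ) :
    ((fejK M (u * (starRingEnd ℂ) (ee s)) : ℝ) : ℂ) =
      ∑ m ∈ fr M, ((1 - |(m : ℝ)| / M : ℝ) : ℂ) * (u ^ m * ee s ^ (-m)) := by
  rw [← fejK_eq M hM (by rw [norm_mul, hu, one_mul, RCLike.norm_conj, norm_ee])]
  refine Finset.sum_congr rfl fun m _ => ?_
  rw [mul_zpow, ee_conj, ee_neg, inv_zpow, zpow_neg]

/-- the mean of the kernel over the grid -/
theorem fej_mean (R M : ℕ) (hM : 1 ≤ M) (hR : 2 * M ≤ R) {u : ℂ} (hu : ‖u‖ = 1) :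
    (1 / (R : ℝ)) * ∑ j ∈ Finset.range R, fejK M (u * (starRingEnd ℂ) (ee ((j : ℝ) / R))) = 1 := by
  have hR1 : 1 ≤ R := by omega
  have hRc : (R : ℂ) ≠ 0 := by exact_mod_cast (by omega : R ≠ 0)
  have key : (((1 / (R : ℝ)) * ∑ j ∈ Finset.range R,
      fejK M (u * (starRingEnd ℂ) (ee ((j : ℝ) / R))) : ℝ) : ℂ) = 1 := by
    rw [Complex.ofReal_mul, Complex.ofReal_sum]
    rw [Finset.sum_congr rfl (fun (j : ℕ) _ => smo_fej M hM hu ((j : ℝ) / R)), Finset.sum_comm]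
    have h1 : ∀ m ∈ fr M, ∑ j ∈ Finset.range R,
        ((1 - |(m : ℝ)| / M : ℝ) : ℂ) * (u ^ m * ee ((j : ℝ) / R) ^ (-m)) =
        if m = 0 then (R : ℂ) else 0 := by
      intro m hm
      rw [mem_fr] at hm
      split_ifs with h0
      · subst h0
        simp
      · rw [← Finset.mul_sum, ← Finset.mul_sum, sum_ee R hR1 (-m) (neg_ne_zero.2 h0)
          (by rw [abs_neg]; omega), mul_zero, mul_zero]
    rw [Finset.sum_congr rfl h1, Finset.sum_ite_eq' (fr M) (0 : ℤ)]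
    have h0 : (0 : ℤ) ∈ fr M := by
      rw [mem_fr]; simp; omega
    rw [if_pos h0]
    push_cast
    field_simp
  exact_mod_cast key

theorem SMOOTH {ι : Type} (S : Finset ι) (f u h : ι → ℂ) (R M : ℕ) (g : ℕ → ℂ) (hM : 1 ≤ M)
    (hR : 2 * M ≤ R) (hg : ∀ j < R, ‖g j‖ ≤ 1) (hu : ∀ i ∈ S, ‖u i‖ = 1)
    (hf : ∀ i ∈ S, ‖f i‖ ≤ 1) :
    ‖∑ i ∈ S, f i * h i‖ ≤ √(∑ m ∈ fr M, ‖∑ i ∈ S, f i * u i ^ m‖ ^ 2) +
      ∑ i ∈ S, (1 / (R : ℝ)) * ∑ j ∈ Finset.range R, ‖h i - g j‖ *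
        fejK M (u i * (starRingEnd ℂ) (ee ((j : ℝ) / R))) := by
  have hM0 : (0 : ℝ) < M := by exact_mod_cast hM
  have hR0 : (0 : ℝ) < R := by exact_mod_cast (by omega : 0 < R)
  set G : ι → ℂ := fun i => (1 / (R : ℂ)) * ∑ j ∈ Finset.range R,
    g j * ((fejK M (u i * (starRingEnd ℂ) (ee ((j : ℝ) / R))) : ℝ) : ℂ) with hG
  set c : ℤ → ℂ := fun m => (1 / (R : ℂ)) * ∑ j ∈ Finset.range R, g j * ee ((j : ℝ) / R) ^ (-m)
    with hc
  set Z : ℤ → ℂ := fun m => ∑ i ∈ S, f i * u i ^ m with hZ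
  -- step 1
  have h1 : ∑ i ∈ S, f i * G i = ∑ m ∈ fr M, ((1 - |(m : ℝ)| / M : ℝ) : ℂ) * (c m * Z m) := by
    have e1 : ∀ i ∈ S, f i * G i = ∑ m ∈ fr M, ((1 - |(m : ℝ)| / M : ℝ) : ℂ) *
        (c m * (f i * u i ^ m)) := by
      intro i hi
      have e2 : G i = ∑ m ∈ fr M, ((1 - |(m : ℝ)| / M : ℝ) : ℂ) * (c m * u i ^ m) := by
        simp only [hG, hc]
        rw [Finset.sum_congr rfl (fun (j : ℕ) _ => by rw [smo_fej M hM (hu i hi) ((j : ℝ) / R),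
          Finset.mul_sum]), Finset.sum_comm, Finset.mul_sum]
        refine Finset.sum_congr rfl fun m _ => ?_
        rw [Finset.mul_sum, Finset.mul_sum, Finset.sum_mul, Finset.mul_sum]
        refine Finset.sum_congr rfl fun j _ => ?_
        ring
      rw [e2, Finset.mul_sum]
      refine Finset.sum_congr rfl fun m _ => ?_
      ring
    rw [Finset.sum_congr rfl e1, Finset.sum_comm]
    refine Finset.sum_congr rfl fun m _ => ?_
    rw [← Finset.mul_sum, ← Finset.mul_sum]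
  have h2 : ‖∑ i ∈ S, f i * G i‖ ≤ √(∑ m ∈ fr M, ‖Z m‖ ^ 2) := by
    rw [h1]
    have b1 : ‖∑ m ∈ fr M, ((1 - |(m : ℝ)| / M : ℝ) : ℂ) * (c m * Z m)‖ ≤
        ∑ m ∈ fr M, ‖c m‖ * ‖Z m‖ := by
      refine (norm_sum_le _ _).trans (Finset.sum_le_sum fun m hm => ?_)
      rw [norm_mul, norm_mul, Complex.norm_real, Real.norm_eq_abs]
      have hm' : |(m : ℝ)| < M := by
        rw [mem_fr] at hm
        exact_mod_cast hm
      have hw0 : 0 ≤ |(m : ℝ)| / M := by positivity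
      have hw1 : |(m : ℝ)| / M ≤ 1 := by
        rw [div_le_one hM0]; exact hm'.le
      have hw : |1 - |(m : ℝ)| / M| ≤ 1 := by
        rw [abs_le]; constructor <;> linarith
      calc |1 - |(m : ℝ)| / M| * (‖c m‖ * ‖Z m‖) ≤ 1 * (‖c m‖ * ‖Z m‖) :=
            mul_le_mul_of_nonneg_right hw (by positivity)
        _ = ‖c m‖ * ‖Z m‖ := one_mul _
    have b2 := Real.sum_mul_le_sqrt_mul_sqrt (fr M) (fun m => ‖c m‖) (fun m => ‖Z m‖)
    have b3 : √(∑ m ∈ fr M, ‖c m‖ ^ 2) ≤ 1 := by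
      rw [Real.sqrt_le_one]
      exact BESSEL R M hM hR g hg
    calc ‖∑ m ∈ fr M, ((1 - |(m : ℝ)| / M : ℝ) : ℂ) * (c m * Z m)‖
        ≤ ∑ m ∈ fr M, ‖c m‖ * ‖Z m‖ := b1
      _ ≤ √(∑ m ∈ fr M, ‖c m‖ ^ 2) * √(∑ m ∈ fr M, ‖Z m‖ ^ 2) := b2
      _ ≤ 1 * √(∑ m ∈ fr M, ‖Z m‖ ^ 2) := mul_le_mul_of_nonneg_right b3 (Real.sqrt_nonneg _)
      _ = _ := one_mul _
  -- step 2
  have h3 : ∀ i ∈ S, ‖h i - G i‖ ≤ (1 / (R : ℝ)) * ∑ j ∈ Finset.range R, ‖h i - g j‖ *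
      fejK M (u i * (starRingEnd ℂ) (ee ((j : ℝ) / R))) := by
    intro i hi
    have e1 : h i = (1 / (R : ℂ)) * ∑ j ∈ Finset.range R,
        h i * ((fejK M (u i * (starRingEnd ℂ) (ee ((j : ℝ) / R))) : ℝ) : ℂ) := by
      have e2 := congrArg (fun x : ℝ => (x : ℂ)) (fej_mean R M hM hR (hu i hi))
      simp only [Complex.ofReal_mul, Complex.ofReal_sum, Complex.ofReal_one] at e2
      rw [← Finset.mul_sum]
      calc h i = h i * 1 := (mul_one _).symm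
        _ = h i * (((1 / (R : ℝ) : ℝ) : ℂ) * ∑ j ∈ Finset.range R,
            ((fejK M (u i * (starRingEnd ℂ) (ee ((j : ℝ) / R))) : ℝ) : ℂ)) := by rw [e2]
        _ = _ := by push_cast; ring
    have e3 : h i - G i = (1 / (R : ℂ)) * ∑ j ∈ Finset.range R,
        (h i - g j) * ((fejK M (u i * (starRingEnd ℂ) (ee ((j : ℝ) / R))) : ℝ) : ℂ) := by
      conv_lhs => rw [e1]
      simp only [hG]
      rw [← mul_sub, ← Finset.sum_sub_distrib]
      congr 1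
      refine Finset.sum_congr rfl fun j _ => ?_
      ring
    rw [e3, norm_mul]
    have e4 : ‖(1 / (R : ℂ))‖ = 1 / (R : ℝ) := by
      rw [norm_div, norm_one, Complex.norm_natCast]
    rw [e4]
    apply mul_le_mul_of_nonneg_left _ (by positivity)
    refine (norm_sum_le _ _).trans (Finset.sum_le_sum fun j _ => ?_)
    rw [norm_mul, Complex.norm_real, Real.norm_eq_abs, abs_of_nonneg (fejK_nonneg _ _)]
  -- step 3
  have h4 : ∑ i ∈ S, f i * h i = ∑ i ∈ S, f i * G i + ∑ i ∈ S, f i * (h i - G i) := by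
    rw [← Finset.sum_add_distrib]
    refine Finset.sum_congr rfl fun i _ => ?_
    ring
  rw [h4]
  refine (norm_add_le _ _).trans (add_le_add h2 ?_)
  refine (norm_sum_le _ _).trans (Finset.sum_le_sum fun i hi => ?_)
  rw [norm_mul]
  calc ‖f i‖ * ‖h i - G i‖ ≤ 1 * ‖h i - G i‖ :=
        mul_le_mul_of_nonneg_right (hf i hi) (norm_nonneg _)
    _ = ‖h i - G i‖ := one_mul _
    _ ≤ _ := h3 i hi

end Pool.Agent.LogCh
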