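import Pool.Agent.Lib.LogCh.FDefs

/-!
# UCS: Cauchy's inequality with the weights `sv H v`

Let `W = WR H a b = ∑ v ∈ Ico a b, sv H v > 0`. If `sv H v = 0` then `blk H v` is empty and
`Pb f H v m = 0`. So by Cauchy (`Finset.sum_sq_le_sum_mul_sum_of_sq_le_mul` or
`Finset.div_add_div_same`, ... ) for every `m`
`‖∑ v, P_v R_v‖ ^ 2 ≤ W * ∑ v, ‖P_v‖ ^ 2 ‖R_v‖ ^ 2 / sv H v` (terms with `sv H v = 0` are `0`
in Lean by `x / 0 = 0`), and `‖R_v(m)‖ ^ 2 ≤ (ε1 x) ^ 2 exp (-2 v / H)`. Sum over `m ∈ U`, use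
`hP`: the total is at most
`(1 / W) (ε1 x) ^ 2 ∑ v, exp (-2 v / H) * C * (blk H v).card * exp (v / H) / (v / H) / sv H v`.
Since every `q ∈ blk H v` has norm `≤ exp ((v + 1) / H)`, `(blk H v).card ≤ exp ((v+1)/H) * sv H v`;
so every term is `≤ C * exp (1 / H) * (H / v) ≤ 3 C H / a`.
-/

set_option autoImplicit false

namespace Pool.Agent.LogCh

open Real
open Pool.Agent.NSqP
open Pool.Agent.MP484c84Par (ballG mem_ballG crossG dotG)

private lemma ucs_sv_nonneg (H v : ℕ) : 0 ≤ sv H v :=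
  Finset.sum_nonneg fun z _ => by positivity

private lemma ucs_card_le (H v : ℕ) :
    ((blk H v).card : ℝ) ≤ exp (((v : ℝ) + 1) / H) * sv H v := by
  unfold sv
  rw [Finset.mul_sum, ← nsmul_one, ← Finset.sum_const]
  refine Finset.sum_le_sum fun z hz => ?_
  rw [mem_blk] at hz
  have h1 : (0 : ℝ) < nN z := lt_of_lt_of_le (exp_pos _) hz.2.1
  rw [mul_one_div, le_div_iff₀ h1, one_mul]
  exact hz.2.2.le

private lemma ucs_blk_empty {H v : ℕ} (h : sv H v = 0) : blk H v = ∅ := by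
  have h1 := ucs_card_le H v
  rw [h, mul_zero] at h1
  have h2 : ((blk H v).card : ℝ) = 0 := le_antisymm h1 (Nat.cast_nonneg _)
  exact Finset.card_eq_zero.1 (by exact_mod_cast h2)

theorem UCS (f : GaussianInt → ℂ) (H a b : ℕ) (U : Finset ℤ) (x ε1 C : ℝ) (hH : 1 ≤ H)
    (ha : 1 ≤ a) (hab : a < b) (hx : 0 ≤ x) (hε : 0 ≤ ε1) (hC : 0 ≤ C) (hW : 0 < WR H a b)
    (hR : ∀ m ∈ U, ∀ v ∈ Finset.Ico a b, ‖Rb f H v x m‖ ≤ ε1 * (x * exp (-((v : ℝ) / H))))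
    (hP : ∀ v ∈ Finset.Ico a b, ∑ m ∈ U, ‖Pb f H v m‖ ^ 2 ≤
      C * ((blk H v).card : ℝ) * exp ((v : ℝ) / H) / (v / H)) :
    ∑ m ∈ U, ‖(1 / (WR H a b : ℂ)) * ∑ v ∈ Finset.Ico a b, Pb f H v m * Rb f H v x m‖ ^ 2 ≤
      3 * C * ε1 ^ 2 * x ^ 2 * (((b : ℝ) - a) * (H / a)) / WR H a b := by
  have hH0 : (0 : ℝ) < H := by exact_mod_cast hH
  have ha0 : (0 : ℝ) < a := by exact_mod_cast ha
  set W : ℝ := WR H a b with hWdef
  -- Cauchy for each `m`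
  have hcs : ∀ m ∈ U,
      ‖(1 / (W : ℂ)) * ∑ v ∈ Finset.Ico a b, Pb f H v m * Rb f H v x m‖ ^ 2 ≤
        (1 / W) * ∑ v ∈ Finset.Ico a b,
          (‖Pb f H v m‖ ^ 2 * (ε1 * (x * exp (-((v : ℝ) / H)))) ^ 2 / sv H v) := by
    intro m hm
    have h1 : ‖∑ v ∈ Finset.Ico a b, Pb f H v m * Rb f H v x m‖ ≤
        ∑ v ∈ Finset.Ico a b, ‖Pb f H v m‖ * (ε1 * (x * exp (-((v : ℝ) / H)))) := by
      refine (norm_sum_le _ _).trans (Finset.sum_le_sum fun v hv => ?_)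
      rw [norm_mul]
      exact mul_le_mul_of_nonneg_left (hR m hm v hv) (norm_nonneg _)
    have h2 : (∑ v ∈ Finset.Ico a b, ‖Pb f H v m‖ * (ε1 * (x * exp (-((v : ℝ) / H))))) ^ 2 ≤
        (∑ v ∈ Finset.Ico a b, sv H v) * ∑ v ∈ Finset.Ico a b,
          (‖Pb f H v m‖ ^ 2 * (ε1 * (x * exp (-((v : ℝ) / H)))) ^ 2 / sv H v) := by
      refine Finset.sum_sq_le_sum_mul_sum_of_sq_le_mul _ (fun v _ => ucs_sv_nonneg H v)
        (fun v _ => div_nonneg (by positivity) (ucs_sv_nonneg H v)) (fun v _ => le_of_eq ?_)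
      by_cases h0 : sv H v = 0
      · have h3 : Pb f H v m = 0 := by
          unfold Pb; rw [ucs_blk_empty h0, Finset.sum_empty]
        rw [h3, h0]; simp
      · field_simp
    have h3 : ‖∑ v ∈ Finset.Ico a b, Pb f H v m * Rb f H v x m‖ ^ 2 ≤
        W * ∑ v ∈ Finset.Ico a b,
          (‖Pb f H v m‖ ^ 2 * (ε1 * (x * exp (-((v : ℝ) / H)))) ^ 2 / sv H v) :=
      (pow_le_pow_left₀ (norm_nonneg _) h1 2).trans h2
    have h4 : ‖(1 / (W : ℂ))‖ = 1 / W := by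
      rw [norm_div, norm_one, Complex.norm_real, Real.norm_eq_abs, abs_of_pos hW]
    rw [norm_mul, mul_pow, h4]
    calc (1 / W) ^ 2 * ‖∑ v ∈ Finset.Ico a b, Pb f H v m * Rb f H v x m‖ ^ 2
        ≤ (1 / W) ^ 2 * (W * ∑ v ∈ Finset.Ico a b,
          (‖Pb f H v m‖ ^ 2 * (ε1 * (x * exp (-((v : ℝ) / H)))) ^ 2 / sv H v)) :=
          mul_le_mul_of_nonneg_left h3 (by positivity)
      _ = (1 / W) * ∑ v ∈ Finset.Ico a b,
          (‖Pb f H v m‖ ^ 2 * (ε1 * (x * exp (-((v : ℝ) / H)))) ^ 2 / sv H v) := by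
          rw [← mul_assoc, sq (1 / W), mul_assoc (1 / W) (1 / W) W, one_div_mul_cancel hW.ne',
            mul_one]
  have hterm : ∀ v ∈ Finset.Ico a b,
      ∑ m ∈ U, (‖Pb f H v m‖ ^ 2 * (ε1 * (x * exp (-((v : ℝ) / H)))) ^ 2 / sv H v) ≤
        3 * C * ε1 ^ 2 * x ^ 2 * (H / a) := by
    intro v hv
    have hva : a ≤ v := (Finset.mem_Ico.1 hv).1
    have hva' : (a : ℝ) ≤ v := by exact_mod_cast hva
    have hv0 : (0 : ℝ) < v := lt_of_lt_of_le ha0 hva'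
    rw [← Finset.sum_div, ← Finset.sum_mul]
    have hR0 : 0 ≤ 3 * C * ε1 ^ 2 * x ^ 2 * ((H : ℝ) / a) := by positivity
    rcases (ucs_sv_nonneg H v).eq_or_lt with h0 | h0
    · rw [← h0, div_zero]; exact hR0
    · rw [div_le_iff₀ h0]
      have h1 := hP v hv
      have h2 := ucs_card_le H v
      have hv1 : (0 : ℝ) < (v : ℝ) / H := by positivity
      have h3 : ∑ m ∈ U, ‖Pb f H v m‖ ^ 2 ≤
          C * (exp (((v : ℝ) + 1) / H) * sv H v) * exp ((v : ℝ) / H) / (v / H) := by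
        refine h1.trans ?_
        gcongr
      have h4 : exp (1 / (H : ℝ)) ≤ 3 := by
        have h5 : (1 : ℝ) / H ≤ 1 := by
          rw [div_le_one hH0]; exact_mod_cast hH
        calc exp (1 / (H : ℝ)) ≤ exp 1 := exp_le_exp.2 h5
          _ ≤ 3 := by linarith [exp_one_lt_d9]
      have h6 : exp (((v : ℝ) + 1) / H) * exp ((v : ℝ) / H) * (exp (-((v : ℝ) / H))) ^ 2 =
          exp (1 / (H : ℝ)) := by
        rw [sq, ← exp_add, ← exp_add, ← exp_add]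
        congr 1
        field_simp
        ring
      calc (∑ m ∈ U, ‖Pb f H v m‖ ^ 2) * (ε1 * (x * exp (-((v : ℝ) / H)))) ^ 2
          ≤ (C * (exp (((v : ℝ) + 1) / H) * sv H v) * exp ((v : ℝ) / H) / (v / H)) *
            (ε1 * (x * exp (-((v : ℝ) / H)))) ^ 2 :=
            mul_le_mul_of_nonneg_right h3 (by positivity)
        _ = (exp (((v : ℝ) + 1) / H) * exp ((v : ℝ) / H) * (exp (-((v : ℝ) / H))) ^ 2) *
            (C * ε1 ^ 2 * x ^ 2 * (1 / (v / H)) * sv H v) := by ring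
        _ = exp (1 / (H : ℝ)) * (C * ε1 ^ 2 * x ^ 2 * (1 / (v / H)) * sv H v) := by rw [h6]
        _ ≤ 3 * (C * ε1 ^ 2 * x ^ 2 * (1 / (a / H)) * sv H v) := by
            have h7 : (1 : ℝ) / (v / H) ≤ 1 / (a / H) := by
              apply one_div_le_one_div_of_le (by positivity)
              gcongr
            have h8 : 0 ≤ C * ε1 ^ 2 * x ^ 2 * (1 / ((v : ℝ) / H)) * sv H v := by positivity
            have h9 : C * ε1 ^ 2 * x ^ 2 * (1 / ((v : ℝ) / H)) * sv H v ≤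
                C * ε1 ^ 2 * x ^ 2 * (1 / ((a : ℝ) / H)) * sv H v := by gcongr
            exact mul_le_mul h4 h9 h8 (by norm_num)
        _ = 3 * C * ε1 ^ 2 * x ^ 2 * (H / a) * sv H v := by
            rw [one_div_div]; ring
  calc ∑ m ∈ U, ‖(1 / (W : ℂ)) * ∑ v ∈ Finset.Ico a b, Pb f H v m * Rb f H v x m‖ ^ 2
      ≤ ∑ m ∈ U, (1 / W) * ∑ v ∈ Finset.Ico a b,
          (‖Pb f H v m‖ ^ 2 * (ε1 * (x * exp (-((v : ℝ) / H)))) ^ 2 / sv H v) :=
        Finset.sum_le_sum hcs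
    _ = (1 / W) * ∑ v ∈ Finset.Ico a b, ∑ m ∈ U,
          (‖Pb f H v m‖ ^ 2 * (ε1 * (x * exp (-((v : ℝ) / H)))) ^ 2 / sv H v) := by
        rw [← Finset.mul_sum, Finset.sum_comm]
    _ ≤ (1 / W) * ∑ _v ∈ Finset.Ico a b, 3 * C * ε1 ^ 2 * x ^ 2 * ((H : ℝ) / a) :=
        mul_le_mul_of_nonneg_left (Finset.sum_le_sum hterm) (by positivity)
    _ = 3 * C * ε1 ^ 2 * x ^ 2 * (((b : ℝ) - a) * (H / a)) / W := by
        rw [Finset.sum_const, Nat.card_Ico, nsmul_eq_mul, Nat.cast_sub hab.le]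
        ring

end Pool.Agent.LogCh
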