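import Pool.Agent.Lib.LogCh.WBg
import Pool.Agent.Lib.NSqP.WSmall

/-!
# Group W: the bound W1 with a general exponent
-/

set_option autoImplicit false

namespace Pool.Agent.LogCh

open Finset
open Pool.Agent.NSqP

private lemma wonA_split (a b : ℝ) (ha : 0 ≤ a) (hab : a ≤ b) (d : ℤ) :
    ∑ z ∈ ann a b, xi z ^ d = ∑ z ∈ ann 0 b, xi z ^ d - ∑ z ∈ ann 0 a, xi z ^ d := by
  classical
  have hb : 0 ≤ b := ha.trans hab
  have hU : ann 0 b = ann 0 a ∪ ann a b := by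
    ext z
    rw [mem_union, mem_ann hb, mem_ann ha, mem_ann hb]
    constructor
    · rintro ⟨h1, h2⟩
      rcases le_or_gt (nN z : ℝ) a with h | h
      · exact Or.inl ⟨h1, h⟩
      · exact Or.inr ⟨h, h2⟩
    · rintro (⟨h1, h2⟩ | ⟨h1, h2⟩)
      · exact ⟨h1, h2.trans hab⟩
      · exact ⟨lt_of_le_of_lt ha h1, h2⟩
  have hD : Disjoint (ann 0 a) (ann a b) := by
    rw [disjoint_left]
    intro z h1 h2
    rw [mem_ann ha] at h1
    rw [mem_ann hb] at h2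
    linarith [h1.2, h2.1]
  rw [hU, sum_union hD]
  ring

private lemma wonA_empty (b : ℝ) (hb0 : 0 ≤ b) (hb : b < 1) (d : ℤ) :
    ∑ z ∈ ann 0 b, xi z ^ d = 0 := by
  have he : ann 0 b = ∅ := by
    rw [Finset.eq_empty_iff_forall_notMem]
    intro z hz
    have h2 := (mem_ann hb0).1 hz
    have h4 : 0 < nN z := by exact_mod_cast h2.1
    have h5 : (1 : ℝ) ≤ nN z := by exact_mod_cast h4
    linarith [h2.2]
  rw [he, sum_empty]

private lemma wonA_ball (A : ℝ) (hA : 1 ≤ A) : ∃ κ : ℝ, 0 < κ ∧ ∃ Y0 : ℝ, 1 ≤ Y0 ∧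
    ∀ Y : ℝ, Y0 ≤ Y → ∀ d : ℤ, d ≠ 0 →
    |(d : ℝ)| ≤ Y ^ A → ∀ b : ℝ, 0 ≤ b → b ≤ Y →
      ‖∑ z ∈ ann 0 b, xi z ^ d‖ ≤ Y ^ (1 - κ) / 2 := by
  obtain ⟨r, hr⟩ : ∃ r : ℕ, r = ⌈2 * A⌉₊ := ⟨_, rfl⟩
  have hrA : 2 * A ≤ r := by rw [hr]; exact Nat.le_ceil _
  have hr2 : (2 : ℝ) ≤ r := by linarith
  have hr2' : 2 ≤ r := by exact_mod_cast hr2
  obtain ⟨h, hh⟩ : ∃ h : ℕ, h = 10 * (r + 1) ^ 2 := ⟨_, rfl⟩
  obtain ⟨m, hm⟩ : ∃ m : ℕ, m = h + r + 5 := ⟨_, rfl⟩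
  have hm1 : 90 ≤ m := by
    rw [hm, hh]; nlinarith
  have hmR : (90 : ℝ) ≤ m := by exact_mod_cast hm1
  have hm0 : (0 : ℝ) < m := by linarith
  have hmr : (m : ℝ) = h + r + 5 := by rw [hm]; push_cast; ring
  have hh2 : 2 * r + 6 ≤ h := by rw [hh]; nlinarith
  obtain ⟨κ, hκd⟩ : ∃ κ : ℝ, κ = 1 / (m * 2 ^ (r + 3)) := ⟨_, rfl⟩
  have h2r : (1 : ℝ) ≤ 2 ^ (r + 3) := one_le_pow₀ (by norm_num)
  have hκ : 0 < κ := by rw [hκd]; positivity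
  have hκ1 : κ ≤ 1 / 10 := by
    rw [hκd]
    apply one_div_le_one_div_of_le (by norm_num)
    nlinarith
  obtain ⟨T0, hT0, hL⟩ := WG_large r h (by omega) hh2
  obtain ⟨C, hC, hS⟩ := W_small
  obtain ⟨Y1, hY1⟩ := Filter.eventually_atTop.1
    ((tendsto_rpow_atTop (y := κ) hκ).eventually_ge_atTop 2)
  obtain ⟨Y2, hY2⟩ := Filter.eventually_atTop.1
    ((tendsto_rpow_atTop (y := (1 / 5 - κ : ℝ)) (by linarith)).eventually_ge_atTop (4 * C))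
  obtain ⟨Y3, hY3⟩ := Filter.eventually_atTop.1
    ((tendsto_rpow_atTop (y := (1 / (2 * m) : ℝ)) (by positivity)).eventually_ge_atTop T0)
  refine ⟨κ, hκ, max (max Y1 Y2) (max Y3 1), (le_max_right _ _).trans (le_max_right _ _), ?_⟩
  intro Y hY d hd hdY b hb hbY
  have h1 : Y1 ≤ Y := (le_max_left _ _).trans ((le_max_left _ _).trans hY)
  have h2 : Y2 ≤ Y := (le_max_right _ _).trans ((le_max_left _ _).trans hY)
  have h3 : Y3 ≤ Y := (le_max_left _ _).trans ((le_max_right _ _).trans hY)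
  have h4 : 1 ≤ Y := (le_max_right _ _).trans ((le_max_right _ _).trans hY)
  have hY0 : 0 < Y := by linarith
  have e1 := hY1 Y h1
  have e2 := hY2 Y h2
  have e3 := hY3 Y h3
  obtain ⟨T, hT⟩ : ∃ T : ℝ, T = Y ^ (1 / (2 * m) : ℝ) := ⟨_, rfl⟩
  rw [← hT] at e3
  have hT1 : 1 ≤ T := hT0.trans e3
  have hTn : ∀ n : ℕ, T ^ n = Y ^ ((n : ℝ) / (2 * m)) := by
    intro n
    rw [hT, ← Real.rpow_natCast, ← Real.rpow_mul hY0.le]
    congr 1; ring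
  rcases le_or_gt (T ^ (r ^ 2 + 7 * r + 9)) |(d : ℝ)| with hc | hc
  · have hd2 : |(d : ℝ)| ≤ T ^ ((h + r + 5) * r) := by
      refine hdY.trans ?_
      rw [hTn, ← hm]
      apply Real.rpow_le_rpow_of_exponent_le h4
      rw [le_div_iff₀ (by positivity)]
      push_cast
      nlinarith
    have hb2 : b ≤ T ^ (2 * (h + r + 5)) := by
      rw [hTn, ← hm]
      push_cast
      rw [div_self (by positivity), Real.rpow_one]
      exact hbY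
    have h5 := hL T e3 d hc hd2 b hb hb2
    have h6 : T ^ (2 * ((h : ℝ) + r + 5) - 1 / 2 ^ (r + 1)) = Y ^ (1 - 2 * κ) := by
      rw [hT, ← Real.rpow_mul hY0.le, ← hmr, hκd]
      congr 1
      have : (2 : ℝ) ^ (r + 3) = 2 ^ (r + 1) * 4 := by ring
      rw [this]
      have h7 : (2 : ℝ) ^ (r + 1) ≠ 0 := by positivity
      field_simp
      ring
    rw [h6] at h5
    refine h5.trans ?_
    rw [le_div_iff₀ (by norm_num)]
    calc Y ^ (1 - 2 * κ) * 2 ≤ Y ^ (1 - 2 * κ) * Y ^ κ :=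
          mul_le_mul_of_nonneg_left e1 (by positivity)
      _ = Y ^ (1 - κ) := by rw [← Real.rpow_add hY0]; congr 1; ring
  · rcases lt_or_ge b 1 with hb1 | hb1
    · rw [wonA_empty b hb hb1, norm_zero]
      positivity
    · have h5 := hS d hd b hb1
      have h6 : b ^ (3 / 4 : ℝ) ≤ Y ^ (4 / 5 : ℝ) := by
        calc b ^ (3 / 4 : ℝ) ≤ Y ^ (3 / 4 : ℝ) := Real.rpow_le_rpow hb hbY (by norm_num)
          _ ≤ Y ^ (4 / 5 : ℝ) := Real.rpow_le_rpow_of_exponent_le h4 (by norm_num)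
      have h7 : |(d : ℝ)| * Real.sqrt b ≤ Y ^ (4 / 5 : ℝ) := by
        calc |(d : ℝ)| * Real.sqrt b ≤ Y ^ (3 / 10 : ℝ) * Y ^ (1 / 2 : ℝ) := by
              apply mul_le_mul _ _ (Real.sqrt_nonneg _) (by positivity)
              · refine hc.le.trans ?_
                rw [hTn]
                apply Real.rpow_le_rpow_of_exponent_le h4
                rw [div_le_iff₀ (by positivity), hmr, hh]
                push_cast
                nlinarith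
              · rw [← Real.sqrt_eq_rpow]
                exact Real.sqrt_le_sqrt hbY
          _ = Y ^ (4 / 5 : ℝ) := by rw [← Real.rpow_add hY0]; norm_num
      refine h5.trans ?_
      rw [le_div_iff₀ (by norm_num)]
      calc C * (b ^ (3 / 4 : ℝ) + |(d : ℝ)| * Real.sqrt b) * 2
          ≤ C * (Y ^ (4 / 5 : ℝ) + Y ^ (4 / 5 : ℝ)) * 2 := by gcongr
        _ = Y ^ (4 / 5 : ℝ) * (4 * C) := by ring
        _ ≤ Y ^ (4 / 5 : ℝ) * Y ^ (1 / 5 - κ) :=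
            mul_le_mul_of_nonneg_left e2 (by positivity)
        _ = Y ^ (1 - κ) := by rw [← Real.rpow_add hY0]; congr 1; ring

/-- Adapt `NSqP/WOne.lean` (`W1_gen`). `r = ⌈2 A⌉₊`, `h = 10 (r+1)^2`, `m = h + r + 5`,
`T = Y^(1/(2m))`. `|d| ≤ Y^A = T^(2 m A) ≤ T^(m r)`. If `|d| ≥ T^(r^2+7r+9)`: `WG_large`. Else
`|d| < T^(r^2+7r+9) ≤ Y^(3/10)` (as `10 (r^2+7r+9) ≤ 6 m`): `W_small`. Any
`κ < 1 / (2 m 2^(r+1))` works, e.g. `κ = 1 / (m 2^(r+3))`. -/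
theorem W1Ap (A : ℝ) (hA : 1 ≤ A) : ∃ κ : ℝ, 0 < κ ∧ ∃ Y0 : ℝ, ∀ Y : ℝ, Y0 ≤ Y → ∀ d : ℤ, d ≠ 0 →
    |(d : ℝ)| ≤ Y ^ A → ∀ a b : ℝ, 0 ≤ a → a ≤ b → b ≤ Y →
      ‖∑ z ∈ ann a b, xi z ^ d‖ ≤ Y ^ (1 - κ) := by
  obtain ⟨κ, hκ, Y0, hY01, hY0⟩ := wonA_ball A hA
  refine ⟨κ, hκ, Y0, ?_⟩
  intro Y hY d hd hdY a b ha hab hbY
  rw [wonA_split a b ha hab]
  have h1 := hY0 Y hY d hd hdY b (ha.trans hab) hbY
  have h2 := hY0 Y hY d hd hdY a ha (hab.trans hbY)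
  calc _ ≤ ‖∑ z ∈ ann 0 b, xi z ^ d‖ + ‖∑ z ∈ ann 0 a, xi z ^ d‖ := norm_sub_le _ _
    _ ≤ Y ^ (1 - κ) / 2 + Y ^ (1 - κ) / 2 := add_le_add h1 h2
    _ = Y ^ (1 - κ) := by ring

end Pool.Agent.LogCh
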