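import Pool.Agent.Lib.LogCh.HFin
import Pool.Agent.Lib.LogCh.WOn

/-!
# HALF (interface statement of group H)
-/

set_option autoImplicit false

namespace Pool.Agent.LogCh

open Real
open Pool.Agent.NSqP
open Pool.Agent.MP484c84Par (ballG mem_ballG crossG dotG)

open Classical in
theorem HALF (r : ℕ) (hr : 1 ≤ r) (ε : ℝ) (hε : 0 < ε) : ∃ x0 : ℝ, ∀ x : ℝ, x0 ≤ x →
    ∀ χ : GaussianInt → ℂ, ChiMod r χ → ∀ m : ℤ, |(m : ℝ)| ≤ x ^ 2 → ∀ H v : ℕ, 1 ≤ H →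
      ‖∑ z ∈ pann (x / 2) x, (if ∀ q ∈ blk H v, ¬ q ∣ z then (lam z : ℂ) * χ z * xi z ^ m
        else 0)‖ ≤ ε * x :=
  HG.HALF_of (fun A hA => W1Ap A hA) r hr ε hε

end Pool.Agent.LogCh
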