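import Pool.Agent.Lib.LogCh.WMj

/-!
# Group W: large values over the primes of a block
-/

set_option autoImplicit false

namespace Pool.Agent.LogCh

open Real
open Pool.Agent.NSqP

open scoped ComplexConjugate in
/-- Duality for a finite set `U` of frequencies and coefficients `f` bounded by one. With
`S m = ∑_{z ∈ B} f z u z ^ m`: `∑_m |S m|² = ∑_{z ∈ B} f z ∑_m conj (S m) u z ^ m ≤
|B|^{1/2} (∑_{z ∈ A} ν z |∑_m conj (S m) u z^m|²)^{1/2}`; expand the square (`u z` has modulus one):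
`∑_{m,l} conj (S m) S l ∑_z ν z u z^(m-l) ≤ (M0 + |U| E) ∑ |S m|²`. Adapt `dual` in
`NSqP/SvClm.lean`. -/
theorem dualU (A B : Finset GaussianInt) (hBA : B ⊆ A) (nu : GaussianInt → ℝ)
    (f u : GaussianInt → ℂ) (hf : ∀ z ∈ B, ‖f z‖ ≤ 1) (hu : ∀ z ∈ A, ‖u z‖ = 1)
    (hnu : ∀ z ∈ A, 0 ≤ nu z) (h1 : ∀ z ∈ B, nu z = 1) (U : Finset ℤ) (M0 E : ℝ)
    (hM : ∑ z ∈ A, nu z ≤ M0) (hE : 0 ≤ E)
    (htw : ∀ m ∈ U, ∀ l ∈ U, m ≠ l → ‖∑ z ∈ A, u z ^ (m - l) * ((nu z : ℝ) : ℂ)‖ ≤ E) :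
    ∑ m ∈ U, ‖∑ q ∈ B, f q * u q ^ m‖ ^ 2 ≤ (B.card : ℝ) * (M0 + U.card * E) := by
  classical
  have hM0 : 0 ≤ M0 := (Finset.sum_nonneg hnu).trans hM
  set S : ℤ → ℂ := fun m => ∑ q ∈ B, f q * u q ^ m with hS
  set T : ℝ := ∑ m ∈ U, ‖S m‖ ^ 2 with hT
  have hT0 : 0 ≤ T := Finset.sum_nonneg fun _ _ => by positivity
  let F : GaussianInt → ℂ := fun z => ∑ k ∈ U, conj (S k) * u z ^ k
  -- `T` as a sum over `B`
  have e1 : (T : ℂ) = ∑ q ∈ B, f q * F q := by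
    have e0 : ∀ q ∈ B, f q * F q = ∑ k ∈ U, conj (S k) * (f q * u q ^ k) := by
      intro q _
      change f q * (∑ k ∈ U, conj (S k) * u q ^ k) = _
      rw [Finset.mul_sum]
      exact Finset.sum_congr rfl fun k _ => by ring
    rw [Finset.sum_congr rfl e0, Finset.sum_comm, hT]
    push_cast
    refine Finset.sum_congr rfl (fun k _ => ?_)
    rw [← Finset.mul_sum]
    change ((‖S k‖ : ℝ) : ℂ) ^ 2 = conj (S k) * S k
    rw [mul_comm, Complex.mul_conj, Complex.normSq_eq_norm_sq]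
    push_cast
    rfl
  have e2 : T ^ 2 ≤ (B.card : ℝ) * ∑ z ∈ A, nu z * ‖F z‖ ^ 2 := by
    have h2 : T ≤ ∑ q ∈ B, ‖F q‖ := by
      have h3 : T = ‖(T : ℂ)‖ := by rw [Complex.norm_real, Real.norm_of_nonneg hT0]
      rw [h3, e1]
      refine (norm_sum_le _ _).trans (Finset.sum_le_sum fun q hq => ?_)
      rw [norm_mul]
      have := mul_le_mul_of_nonneg_right (hf q hq) (norm_nonneg (F q))
      linarith
    calc T ^ 2 ≤ (∑ q ∈ B, ‖F q‖) ^ 2 := pow_le_pow_left₀ hT0 h2 2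
      _ ≤ (B.card : ℝ) * ∑ q ∈ B, ‖F q‖ ^ 2 := sq_sum_le_card_mul_sum_sq
      _ ≤ (B.card : ℝ) * ∑ z ∈ A, nu z * ‖F z‖ ^ 2 := by
          apply mul_le_mul_of_nonneg_left _ (Nat.cast_nonneg _)
          calc ∑ q ∈ B, ‖F q‖ ^ 2 = ∑ q ∈ B, nu q * ‖F q‖ ^ 2 :=
                Finset.sum_congr rfl fun q hq => by rw [h1 q hq, one_mul]
            _ ≤ ∑ z ∈ A, nu z * ‖F z‖ ^ 2 :=
                Finset.sum_le_sum_of_subset_of_nonneg hBA fun z hz _ =>
                  mul_nonneg (hnu z hz) (by positivity)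
  -- expansion of the square
  have e3 : ((∑ z ∈ A, nu z * ‖F z‖ ^ 2 : ℝ) : ℂ) =
      ∑ k ∈ U, ∑ l ∈ U, conj (S k) * S l *
        ∑ z ∈ A, u z ^ (k - l) * ((nu z : ℝ) : ℂ) := by
    push_cast
    have h2 : ∀ z ∈ A, (nu z : ℂ) * (‖F z‖ : ℂ) ^ 2 =
        ∑ k ∈ U, ∑ l ∈ U, conj (S k) * S l *
          (u z ^ (k - l) * ((nu z : ℝ) : ℂ)) := by
      intro z hz
      have hu0 : u z ≠ 0 := by
        intro h
        have := hu z hz
        rw [h, norm_zero] at this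
        exact zero_ne_one this
      have hconj : conj (u z) = (u z)⁻¹ := by
        rw [Complex.inv_def, Complex.normSq_eq_norm_sq, hu z hz]
        simp
      have h3 : (‖F z‖ : ℂ) ^ 2 = F z * conj (F z) := by
        rw [Complex.mul_conj, Complex.normSq_eq_norm_sq]
        push_cast
        rfl
      rw [h3]
      change (nu z : ℂ) * ((∑ k ∈ U, conj (S k) * u z ^ k) *
        conj (∑ l ∈ U, conj (S l) * u z ^ l)) = _
      rw [map_sum, Finset.sum_mul_sum, Finset.mul_sum]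
      refine Finset.sum_congr rfl (fun k _ => ?_)
      rw [Finset.mul_sum]
      refine Finset.sum_congr rfl (fun l _ => ?_)
      rw [map_mul, map_zpow₀, Complex.conj_conj, hconj, zpow_sub₀ hu0, inv_zpow]
      have hl : u z ^ l ≠ 0 := zpow_ne_zero _ hu0
      field_simp
    rw [Finset.sum_congr rfl h2, Finset.sum_comm]
    refine Finset.sum_congr rfl (fun k _ => ?_)
    rw [Finset.sum_comm]
    refine Finset.sum_congr rfl (fun l _ => ?_)
    exact (Finset.mul_sum _ _ _).symm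
  have hX0 : 0 ≤ ∑ z ∈ A, nu z * ‖F z‖ ^ 2 :=
    Finset.sum_nonneg fun z hz => mul_nonneg (hnu z hz) (by positivity)
  have e4 : ∑ z ∈ A, nu z * ‖F z‖ ^ 2 ≤ (M0 + U.card * E) * T := by
    have h2 : ∑ z ∈ A, nu z * ‖F z‖ ^ 2 = ‖((∑ z ∈ A, nu z * ‖F z‖ ^ 2 : ℝ) : ℂ)‖ := by
      rw [Complex.norm_real, Real.norm_of_nonneg hX0]
    rw [h2, e3]
    have h3 : ∀ k ∈ U, ∀ l ∈ U,
        ‖conj (S k) * S l * ∑ z ∈ A, u z ^ (k - l) * ((nu z : ℝ) : ℂ)‖ ≤
          (if k = l then ‖S k‖ ^ 2 * M0 else 0) + ‖S k‖ * ‖S l‖ * E := by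
      intro k hk l hl
      rw [norm_mul, norm_mul, Complex.norm_conj]
      split_ifs with hkl
      · subst hkl
        have h4 : ‖∑ z ∈ A, u z ^ (k - k) * ((nu z : ℝ) : ℂ)‖ ≤ M0 := by
          have h5 : ∑ z ∈ A, u z ^ (k - k) * ((nu z : ℝ) : ℂ) =
              ((∑ z ∈ A, nu z : ℝ) : ℂ) := by
            push_cast
            refine Finset.sum_congr rfl (fun z _ => ?_)
            rw [sub_self, zpow_zero, one_mul]
          rw [h5, Complex.norm_real, Real.norm_of_nonneg (Finset.sum_nonneg hnu)]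
          exact hM
        have h6 : 0 ≤ ‖S k‖ * ‖S k‖ * E := by positivity
        have h7 : ‖S k‖ * ‖S k‖ * ‖∑ z ∈ A, u z ^ (k - k) * ((nu z : ℝ) : ℂ)‖ ≤
            ‖S k‖ * ‖S k‖ * M0 := mul_le_mul_of_nonneg_left h4 (by positivity)
        calc _ ≤ ‖S k‖ * ‖S k‖ * M0 := h7
          _ = ‖S k‖ ^ 2 * M0 := by ring
          _ ≤ _ := by linarith
      · rw [zero_add]
        apply mul_le_mul_of_nonneg_left _ (by positivity)
        exact htw k hk l hl hkl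
    calc ‖∑ k ∈ U, ∑ l ∈ U, conj (S k) * S l *
          ∑ z ∈ A, u z ^ (k - l) * ((nu z : ℝ) : ℂ)‖
        ≤ ∑ k ∈ U, ∑ l ∈ U,
            ((if k = l then ‖S k‖ ^ 2 * M0 else 0) + ‖S k‖ * ‖S l‖ * E) := by
          refine (norm_sum_le _ _).trans (Finset.sum_le_sum fun k hk => ?_)
          exact (norm_sum_le _ _).trans (Finset.sum_le_sum fun l hl => h3 k hk l hl)
      _ = M0 * T + (∑ k ∈ U, ‖S k‖) ^ 2 * E := by
          simp_rw [Finset.sum_add_distrib]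
          congr 1
          · rw [hT, Finset.mul_sum]
            refine Finset.sum_congr rfl (fun k hk => ?_)
            rw [Finset.sum_ite_eq, if_pos hk]
            ring
          · rw [pow_two, Finset.sum_mul_sum, Finset.sum_mul]
            refine Finset.sum_congr rfl (fun k _ => ?_)
            rw [Finset.sum_mul]
      _ ≤ M0 * T + (U.card * T) * E := by
          have h5 : (∑ k ∈ U, ‖S k‖) ^ 2 ≤ U.card * T :=
            sq_sum_le_card_mul_sum_sq (s := U) (f := fun k => ‖S k‖)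
          have := mul_le_mul_of_nonneg_right h5 hE
          linarith
      _ = (M0 + U.card * E) * T := by ring
  change T ≤ _
  rcases hT0.eq_or_lt with h | h
  · rw [← h]
    positivity
  · have h5 : T * T ≤ ((B.card : ℝ) * (M0 + U.card * E)) * T := by
      calc T * T = T ^ 2 := by ring
        _ ≤ (B.card : ℝ) * ∑ z ∈ A, nu z * ‖F z‖ ^ 2 := e2
        _ ≤ (B.card : ℝ) * ((M0 + U.card * E) * T) :=
            mul_le_mul_of_nonneg_left e4 (Nat.cast_nonneg _)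
        _ = _ := by ring
    exact le_of_mul_le_mul_right h5 h

/-- `y = e^(v/H)`, `b = e y` (`blk H v ⊆ ann 0 b` as `H ≥ 1`), `MAJA (A + 1)`, `κ = θ/2`. `ν = LamR² = 1`
on the block (`LamR_eq_one`, `N q ≥ y > b^θ`; see `CLAIM` in `NSqP/SvClm.lean`),
`|m - l| ≤ 2 y^A ≤ b^(A+1)`; `M0 = C b / log b`, `|U| E ≤ y^κ b^(1-θ) ≤ C y / log y`. -/
theorem LVPp (A : ℝ) (hA : 1 ≤ A) : ∃ κ : ℝ, 0 < κ ∧ ∃ C : ℝ, 0 < C ∧ ∃ b0 : ℝ, ∀ (H v : ℕ)
    (U : Finset ℤ) (f : GaussianInt → ℂ), 1 ≤ H → b0 ≤ exp ((v : ℝ) / H) →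
    (∀ z, ‖f z‖ ≤ 1) → (∀ m ∈ U, |(m : ℝ)| ≤ exp (A * (v / H))) →
    (U.card : ℝ) ≤ exp (κ * (v / H)) →
    ∑ m ∈ U, ‖Pb f H v m‖ ^ 2 ≤ C * ((blk H v).card : ℝ) * exp ((v : ℝ) / H) / (v / H) := by
  classical
  obtain ⟨θ, hθ0, hθ1, C, hC, b0, hb0, hmaj⟩ := MAJA (A + 1) (by linarith)
  have hev : ∀ᶠ y : ℝ in Filter.atTop, log y ≤ y ^ (θ / 2) ∧ b0 ≤ y ∧ 3 ≤ y := by
    have h1 := (isLittleO_log_rpow_atTop (show (0 : ℝ) < θ / 2 by positivity)).def
      (c := 1) one_pos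
    filter_upwards [h1, Filter.eventually_ge_atTop b0, Filter.eventually_ge_atTop 3]
      with y h2 h3 h4
    refine ⟨?_, h3, h4⟩
    rw [Real.norm_of_nonneg (Real.log_nonneg (by linarith)),
      Real.norm_of_nonneg (by positivity)] at h2
    linarith
  obtain ⟨y1, hy1⟩ := Filter.eventually_atTop.1 hev
  refine ⟨θ / 2, by positivity, (C + 1) * exp 1, by positivity, y1, ?_⟩
  intro H v U f hH hyv hf hU hcard
  obtain ⟨q1, q2, q3⟩ := hy1 _ hyv
  have hH0 : (0 : ℝ) < H := by exact_mod_cast hH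
  have hH1 : (1 : ℝ) ≤ H := by exact_mod_cast hH
  obtain ⟨s, hs⟩ : ∃ s : ℝ, s = (v : ℝ) / H := ⟨_, rfl⟩
  obtain ⟨y, hy⟩ : ∃ y : ℝ, y = exp s := ⟨_, rfl⟩
  rw [← hs] at q1 q2 q3 hU hcard ⊢
  rw [← hy] at q1 q2 q3 ⊢
  have hy0 : 0 < y := by linarith
  have hlogy : log y = s := by rw [hy, log_exp]
  rw [hlogy] at q1
  have hs1 : 1 ≤ s := by
    rw [← hlogy, Real.le_log_iff_exp_le hy0]
    linarith [Real.exp_one_lt_three]
  obtain ⟨b, hb⟩ : ∃ b : ℝ, b = exp 1 * y := ⟨_, rfl⟩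
  have he1 : 1 ≤ exp 1 := by have := add_one_le_exp (1 : ℝ); linarith
  have hyb : y ≤ b := by rw [hb]; nlinarith
  have hbexp : b = exp (1 + s) := by rw [hb, hy, exp_add]
  have hlogb : log b = 1 + s := by rw [hbexp, log_exp]
  have hb2 : 2 ≤ b := by linarith
  have hbpos : 0 < b := by linarith
  obtain ⟨m1, m2⟩ := hmaj b (q2.trans hyb)
  rw [hlogb] at m1
  have hBA : blk H v ⊆ ann 0 b := by
    intro z hz
    rw [mem_blk] at hz
    rw [mem_ann (by linarith)]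
    obtain ⟨h1, h2, h3⟩ := hz
    refine ⟨by exact_mod_cast nN_pos h1.ne_zero, ?_⟩
    have h4 : exp (((v : ℝ) + 1) / H) ≤ b := by
      rw [hbexp]
      apply Real.exp_le_exp.2
      rw [hs, add_div]
      have : 1 / (H : ℝ) ≤ 1 := by rw [div_le_one hH0]; exact hH1
      linarith
    exact h3.le.trans h4
  have hbθ : b ^ θ < y := by
    rw [hbexp, hy, ← Real.exp_mul]
    apply Real.exp_lt_exp.2
    nlinarith
  have hbθ1 : 1 ≤ b ^ θ := Real.one_le_rpow (by linarith) hθ0.le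
  have hone : ∀ z ∈ blk H v, LamR (b ^ θ) z ^ 2 = 1 := by
    intro z hz
    rw [mem_blk] at hz
    obtain ⟨h1, h2, h3⟩ := hz
    rw [LamR_eq_one hbθ1, one_pow]
    intro q hq hqz
    obtain ⟨h4, h5⟩ := (mem_PS (by linarith)).1 hq
    have h6 : q = z := by
      by_contra hne
      have h7 := h4.coprime h1 hne
      have h8 : IsUnit q := h7.isUnit_of_dvd' dvd_rfl hqz
      exact h4.prime.not_isUnit h8
    rw [h6] at h5
    have h7 : y ≤ (nN z : ℝ) := by
      rw [hy, hs]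
      exact h2
    linarith
  have hu : ∀ z ∈ ann 0 b, ‖xi z‖ = 1 := fun z hz => by
    have := norm_xi_zpow (ne_zero_of_mem_ann le_rfl hz) 1
    rwa [zpow_one] at this
  have hA1 : 2 * exp (A * s) ≤ b ^ (A + 1) := by
    rw [hbexp, ← Real.exp_mul]
    have h2 : (2 : ℝ) ≤ exp 1 := by have := add_one_le_exp (1 : ℝ); linarith
    calc 2 * exp (A * s) ≤ exp 1 * exp (A * s) := mul_le_mul_of_nonneg_right h2 (exp_pos _).le
      _ = exp (1 + A * s) := by rw [exp_add]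
      _ ≤ exp ((1 + s) * (A + 1)) := by
          apply Real.exp_le_exp.2
          nlinarith
  have hdual := dualU (ann 0 b) (blk H v) hBA (fun z => LamR (b ^ θ) z ^ 2) f xi
    (fun z _ => hf z) hu (fun z _ => by positivity) hone U (C * b / (1 + s)) (b ^ (1 - θ)) m1
    (by positivity) (by
      intro m hm l hl hml
      apply m2 _ (sub_ne_zero.2 hml)
      push_cast
      calc |(m : ℝ) - l| ≤ |(m : ℝ)| + |(l : ℝ)| := abs_sub _ _
        _ ≤ exp (A * s) + exp (A * s) := add_le_add (hU m hm) (hU l hl)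
        _ = 2 * exp (A * s) := by ring
        _ ≤ _ := hA1)
  have hUE : (U.card : ℝ) * b ^ (1 - θ) ≤ exp 1 * y / s := by
    have h1 : (U.card : ℝ) * b ^ (1 - θ) ≤ exp (θ / 2 * s) * b ^ (1 - θ) :=
      mul_le_mul_of_nonneg_right hcard (by positivity)
    have h2 : exp (θ / 2 * s) * b ^ (1 - θ) ≤ exp (1 + s - θ / 2 * s) := by
      rw [hbexp, ← Real.exp_mul, ← exp_add]
      apply Real.exp_le_exp.2
      nlinarith
    have h3 : s ≤ exp (θ / 2 * s) := by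
      have : y ^ (θ / 2) = exp (θ / 2 * s) := by
        rw [hy, ← Real.exp_mul, mul_comm]
      rwa [this] at q1
    rw [le_div_iff₀ (by linarith)]
    calc (U.card : ℝ) * b ^ (1 - θ) * s ≤ exp (1 + s - θ / 2 * s) * exp (θ / 2 * s) :=
          mul_le_mul (h1.trans h2) h3 (by linarith) (exp_pos _).le
      _ = exp 1 * y := by rw [← exp_add, hy, ← exp_add]; congr 1; ring
  have hM0 : C * b / (1 + s) ≤ C * exp 1 * y / s := by
    rw [hb, ← mul_assoc]
    apply div_le_div_of_nonneg_left (by positivity) (by linarith) (by linarith)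
  unfold Pb
  refine hdual.trans ?_
  calc ((blk H v).card : ℝ) * (C * b / (1 + s) + U.card * b ^ (1 - θ))
      ≤ ((blk H v).card : ℝ) * (C * exp 1 * y / s + exp 1 * y / s) :=
        mul_le_mul_of_nonneg_left (add_le_add hM0 hUE) (Nat.cast_nonneg _)
    _ = (C + 1) * exp 1 * ((blk H v).card : ℝ) * y / s := by ring

end Pool.Agent.LogCh
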