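import Pool.Agent.Lib.LogCh.FMrc
import Pool.Agent.Lib.LogCh.Half
import Pool.Agent.Lib.LogCh.WLv

/-!
# MRC (interface statement of group F)

The Liouville function of the Gaussian integers in almost all short arcs, from `MRC0` (group F),
`HALF` (group H) and `LVPp` (group W).
-/

set_option autoImplicit false

namespace Pool.Agent.LogCh

open Real
open Pool.Agent.NSqP
open Pool.Agent.MP484c84Par (ballG mem_ballG crossG dotG)

open Classical in
theorem MRC (r : ℕ) (hr : 1 ≤ r) (b : GaussianInt) (ρ ρ' : ℝ) (hρ : 0 ≤ ρ) (hρ' : ρ ≤ ρ')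
    (h1 : ρ' ≤ 1) (ε : ℝ) (hε : 0 < ε) : ∃ H0 N0 : ℕ, ∀ N : ℕ, N0 ≤ N → ∀ K : ℕ, 1 ≤ K →
      K * H0 ≤ N →
      ∑ i ∈ Finset.range K, |∑ z ∈ (pann (ρ * N) (ρ' * N)).filter
        (fun z => (r : GaussianInt) ∣ z - b ∧ arcI K z = i), lam z| ≤ ε * N :=
  MRC0 HALF LVPp r hr b ρ ρ' hρ hρ' h1 ε hε

end Pool.Agent.LogCh
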