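import Pool.Agent.Lib.LogCh.AWin

/-!
# Group P, module PAvg: the windows compute the correlations, at one order `N`

This is `hAB` in the proof of `psi0_avg` (AWin).
-/

set_option autoImplicit false

namespace Pool.Agent.LogCh

open Real
open Pool.Agent.NSqP
open Pool.Agent.MP484c84Par (ballG mem_ballG crossG dotG)

private theorem fc_zero {a a' : ℝ} {N : ℕ} {z : GaussianInt} (h : ¬ a * N < nN z) :
    fc a a' N z = 0 := by
  unfold fc
  rw [if_neg]
  rintro ⟨h1, _⟩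
  exact h h1

theorem psi0_avgN (a a' b b' : ℝ) (ha : 0 < a) (hb : 0 < b) {q : ℕ} (hq : q.Prime)
    (h4 : q % 4 = 1) (L0 : ℕ) (hL : 2 * (q : ℝ) / √(a * b) + 1 ≤ L0) : ∃ N0 : ℕ, ∀ N : ℕ,
    N0 ≤ N → ∑ z ∈ VV N, psi0 L0 q (xo a a' b b' N z) (ym q z (sg N z)) =
      (q : ℝ) * pairSumPi (pq q) a a' b b' N - (q : ℝ) / (q + 1) * pairSum q a a' b b' N := by
  classical
  obtain ⟨N0, hN0⟩ := win_pairs a b ha hb q L0 hq.one_lt.le hL
  have hab : 0 < a * b := mul_pos ha hb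
  have hL0 : (0 : ℝ) < L0 := by
    have h1 : 0 ≤ 2 * (q : ℝ) / √(a * b) := by positivity
    linarith
  refine ⟨N0, fun N hN => ?_⟩
  set H : GaussianInt → ℝ := fun w => ∑ k ∈ Finset.Icc 1 L0,
      if crossG w (sgi N k w) = (q : ℤ) then
        fc a a' N w * fc b b' N (sgi N k w) *
          ((q : ℝ) * (if pq q ∣ w then 1 else 0) - (q : ℝ) / (q + 1))
      else 0 with hH
  have h1 : ∑ z ∈ VV N, psi0 L0 q (xo a a' b b' N z) (ym q z (sg N z)) =
      ∑ z ∈ VV N, (∑ j ∈ Finset.range L0, H (sgi N j z)) / L0 := by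
    refine Finset.sum_congr rfl fun z hz => ?_
    exact psi0_orbit hq h4 L0 a a' b b' hz
  have h2 : ∑ z ∈ VV N, psi0 L0 q (xo a a' b b' N z) (ym q z (sg N z)) = ∑ z ∈ VV N, H z := by
    rw [h1, ← Finset.sum_div, Finset.sum_comm]
    rw [Finset.sum_congr rfl fun j _ => sum_sgi N j H, Finset.sum_const, Finset.card_range,
      nsmul_eq_mul]
    field_simp
  set F : GaussianInt × GaussianInt → ℝ := fun p => fc a a' N p.1 * fc b b' N p.2 *
    ((q : ℝ) * (if pq q ∣ p.1 then 1 else 0) - (q : ℝ) / (q + 1)) with hF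
  have h3 := hN0 N hN F (by
    intro p hp
    rw [hF]
    change fc a a' N p.1 * fc b b' N p.2 * _ = 0
    rw [not_and_or] at hp
    rcases hp with hp | hp
    · rw [fc_zero hp, zero_mul, zero_mul]
    · rw [fc_zero hp, mul_zero, zero_mul])
  rw [h2]
  refine h3.symm.trans ?_
  have h5 : (nN (pq q) : ℤ) = (q : ℤ) := by rw [pq_spec hq h4]
  unfold pairSumPi pairSum
  rw [h5, Finset.sum_filter, Finset.mul_sum, Finset.mul_sum, ← Finset.sum_sub_distrib]
  refine Finset.sum_congr rfl fun p _ => ?_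
  rw [hF]
  change fc a a' N p.1 * fc b b' N p.2 *
    ((q : ℝ) * (if pq q ∣ p.1 then 1 else 0) - (q : ℝ) / (q + 1)) = _
  split_ifs <;> ring

end Pool.Agent.LogCh
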