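import Pool.Agent.Lib.LogCh.AMBij
import Pool.Agent.Lib.LogCh.ADiv

/-!
# Group P, module PMult: the multiplicativity step at one order `N`

`q = nN κ`, `M = N / q` (natural division). By `pairSumPi_eq` (with `X = N`) the sum `pairSumPi κ N` is the sum
over the pairs `(z, w) ∈ dpairs 1 N` not divisible by `star κ` with `a N/q < nN z ≤ a' N/q`,
`b N/q < nN w ≤ b' N/q` of `lam z lam w`, and `pairSum 1 M` is the same sum (`pairSum_one`) with `M` in place of
`N/q`. All pairs which satisfy one of the two sets of conditions have norms `≤ M` (as `a', b' ≤ 1`), so belong to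
`dpairs 1 M`. Lost pairs: at most `2 C0 M/q ≤ 2 C0 N/q^2` (`dpairs_div` with `star κ`, `nN (star κ) = q`).
Pairs which satisfy exactly one of the two sets of conditions: one of the four norms conditions differs, so
`nN z` belongs to `(a M, a N/q]` or `(a' M, a' N/q]` or `nN w` to one of the corresponding intervals for `b, b'`;
each such interval has length `≤ 1`, so contains at most one integer `n` (or at most two), `n > a M` (or
`n > b M`); the number of `z` of norm `n ≤ M` is at most `2 (2 √M + 1) ≤ 6 √M`, and each has at most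
`2 √(M/n) + 1 ≤ 2/√a + 1` partners `w` (`line_count`; see `adiv_fiber` in ADiv), for `w` given the same with
`(z, w) ↦ (w, z)`, determinant `-1`. Total `≤ C √M ≤ C √N`. Multiply by `q`.
-/

set_option autoImplicit false

namespace Pool.Agent.LogCh

open Real
open Pool.Agent.NSqP
open Pool.Agent.MP484c84Par (ballG mem_ballG crossG dotG)

private theorem pm_mem {m : ℤ} {N : ℕ} {p : GaussianInt × GaussianInt} :
    p ∈ dpairs m N ↔ (p.1 ∈ VV N ∧ p.2 ∈ VV N) ∧ crossG p.1 p.2 = m ∧ 0 < dotG p.1 p.2 := by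
  unfold dpairs
  rw [Finset.mem_filter, Finset.mem_product]

private theorem pm_nN_int (z : GaussianInt) : ((nN z : ℕ) : ℤ) = z.re * z.re + z.im * z.im := by
  rw [nN_cast_int, Zsqrtd.norm_def]
  ring

/-- the number of points on a circle -/
private theorem pm_circle (n : ℕ) (S : Finset GaussianInt) (h : ∀ z ∈ S, nN z = n) :
    (S.card : ℝ) ≤ 2 * (2 * √(n : ℝ) + 1) := by
  have h1 : S.card ≤ (((Finset.Icc (-(Nat.sqrt n : ℤ)) (Nat.sqrt n : ℤ)) ×ˢ
      (Finset.univ : Finset Bool)) : Finset (ℤ × Bool)).card := by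
    refine Finset.card_le_card_of_injOn (fun z => (z.re, decide (0 ≤ z.im))) ?_ ?_
    · intro z hz
      have h2 := h z (Finset.mem_coe.1 hz)
      have h3 := pm_nN_int z
      rw [h2] at h3
      have h4 : z.re.natAbs ≤ Nat.sqrt n := by
        rw [Nat.le_sqrt']
        have h5 : ((z.re.natAbs ^ 2 : ℕ) : ℤ) ≤ (n : ℤ) := by
          rw [Nat.cast_pow, Int.natAbs_pow_two, h3]
          nlinarith [mul_self_nonneg z.im]
        exact_mod_cast h5
      rw [Finset.mem_coe, Finset.mem_product, Finset.mem_Icc]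
      have h5 : |z.re| ≤ (Nat.sqrt n : ℤ) := by
        rw [Int.abs_eq_natAbs]
        exact_mod_cast h4
      exact ⟨abs_le.1 h5, Finset.mem_univ _⟩
    · intro z hz w hw hzw
      simp only [Prod.mk.injEq] at hzw
      have h2 := h z (Finset.mem_coe.1 hz)
      have h3 := h w (Finset.mem_coe.1 hw)
      have h4 := pm_nN_int z
      have h5 := pm_nN_int w
      rw [h2] at h4
      rw [h3] at h5
      have h6 : z.im * z.im = w.im * w.im := by
        rw [hzw.1] at h4
        linarith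
      apply Zsqrtd.ext hzw.1
      rcases mul_self_eq_mul_self_iff.1 h6 with h7 | h7
      · exact h7
      · by_cases h8 : 0 ≤ z.im
        · have h9 : 0 ≤ w.im := by
            have := hzw.2
            rw [decide_eq_decide] at this
            exact this.1 h8
          omega
        · have h9 : ¬ 0 ≤ w.im := by
            have := hzw.2
            rw [decide_eq_decide] at this
            exact fun h => h8 (this.2 h)
          omega
  rw [Finset.card_product, Finset.card_univ, Fintype.card_bool, Int.card_Icc] at h1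
  have h2 : S.card ≤ 2 * (2 * Nat.sqrt n + 1) := by omega
  have h3 : ((Nat.sqrt n : ℕ) : ℝ) ≤ √(n : ℝ) := Real.nat_sqrt_le_real_sqrt
  calc (S.card : ℝ) ≤ ((2 * (2 * Nat.sqrt n + 1) : ℕ) : ℝ) := by exact_mod_cast h2
    _ = 2 * (2 * ((Nat.sqrt n : ℕ) : ℝ) + 1) := by push_cast; ring
    _ ≤ _ := by linarith

open Classical in
/-- partners of one vector -/
private theorem pm_fiber (m : ℤ) (M : ℕ) (δ : ℝ) (hδ : 0 < δ) (z : GaussianInt) (hz : Prim z)
    (h0 : δ * M < nN z) (hM : 1 ≤ M) :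
    (((dpairs m M).filter (fun p => p.1 = z)).card : ℝ) ≤ 2 / √δ + 1 := by
  have h2 : ((dpairs m M).filter (fun p => p.1 = z)).card ≤
      ((ballG M).filter (fun v => crossG z v = m)).card := by
    apply Finset.card_le_card_of_injOn Prod.snd
    · intro p hp
      rw [Finset.mem_coe, Finset.mem_filter, mem_dpairs] at hp
      obtain ⟨⟨⟨_, _⟩, ⟨h3, _⟩, h5, _⟩, h8⟩ := hp
      rw [Finset.mem_coe, Finset.mem_filter]
      refine ⟨?_, ?_⟩
      · rw [mem_ballG, ← nN_cast_int]
        exact_mod_cast h3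
      · rw [← h8]
        exact h5
    · intro p hp q hq hpq
      rw [Finset.mem_coe, Finset.mem_filter] at hp hq
      exact Prod.ext (hp.2.trans hq.2.symm) hpq
  have hMp : (0 : ℝ) < M := by exact_mod_cast hM
  have hzp : (0 : ℝ) < nN z := lt_trans (by positivity) h0
  have h3 := line_count z hz m M
  have h4 : √((M : ℝ) / nN z) ≤ 1 / √δ := by
    have e := Real.sqrt_div (zero_le_one (α := ℝ)) δ
    rw [Real.sqrt_one] at e
    rw [← e]
    apply Real.sqrt_le_sqrt
    rw [div_le_div_iff₀ hzp hδ]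
    linarith
  calc _ ≤ (((ballG M).filter (fun v => crossG z v = m)).card : ℝ) := by exact_mod_cast h2
    _ ≤ 2 * √((M : ℝ) / nN z) + 1 := h3
    _ ≤ 2 * (1 / √δ) + 1 := by linarith
    _ = 2 / √δ + 1 := by ring

open Classical in
/-- pairs whose first norm lies in a strip of length at most one -/
private theorem pm_strip (m : ℤ) (δ s : ℝ) (hδ : 0 < δ) (hs : δ ≤ s) (hs1 : s ≤ 1) (q N : ℕ)
    (hq : 1 ≤ q) (hN : 1 ≤ N) :
    (((dpairs m (N / q)).filter (fun p => s * ((N / q : ℕ) : ℝ) < nN p.1 ∧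
      (q : ℝ) * nN p.1 ≤ s * N)).card : ℝ) ≤ 6 * √(N : ℝ) * (2 / √δ + 1) := by
  set M := N / q with hMdef
  set S := (dpairs m M).filter (fun p => s * (M : ℝ) < nN p.1 ∧ (q : ℝ) * nN p.1 ≤ s * N) with hS
  have hqp : (0 : ℝ) < q := by exact_mod_cast hq
  have hNr : (1 : ℝ) ≤ N := by exact_mod_cast hN
  have hsN : 1 ≤ √(N : ℝ) := by rw [Real.one_le_sqrt]; exact hNr
  have hsp : 0 < s := lt_of_lt_of_le hδ hs
  rcases S.eq_empty_or_nonempty with he | ⟨p0, hp0⟩
  · rw [he, Finset.card_empty, Nat.cast_zero]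
    positivity
  have hmem : ∀ p ∈ S, ((nN p.1 ≤ M ∧ Prim p.1) ∧ (nN p.2 ≤ M ∧ Prim p.2) ∧
      crossG p.1 p.2 = m ∧ 0 < dotG p.1 p.2) ∧ s * (M : ℝ) < nN p.1 ∧
      (q : ℝ) * nN p.1 ≤ s * N := by
    intro p hp
    rw [hS, Finset.mem_filter, mem_dpairs] at hp
    exact hp
  have hM1 : 1 ≤ M := by
    have h1 := (hmem p0 hp0).1.1
    have h2 : 0 < nN p0.1 := nN_pos (prim_ne_zero h1.2)
    omega
  have hMN : (N : ℝ) < q * (M + 1) := by
    have h1 := Nat.lt_mul_div_succ N (show 0 < q by omega)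
    have h2 : ((N : ℕ) : ℝ) < ((q * (N / q + 1) : ℕ) : ℝ) := by exact_mod_cast h1
    rw [← hMdef] at h2
    push_cast at h2
    exact h2
  have hsame : ∀ p ∈ S, nN p.1 = nN p0.1 := by
    have hlt : ∀ p ∈ S, ∀ p' ∈ S, (nN p.1 : ℝ) < nN p'.1 + 1 := by
      intro p hp p' hp'
      obtain ⟨_, h1, h2⟩ := hmem p hp
      obtain ⟨_, h3, h4⟩ := hmem p' hp'
      have h5 : (q : ℝ) * nN p.1 < q * (s * M + s) := by
        calc (q : ℝ) * nN p.1 ≤ s * N := h2
          _ < s * (q * (M + 1)) := by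
            exact mul_lt_mul_of_pos_left hMN hsp
          _ = q * (s * M + s) := by ring
      have h6 := lt_of_mul_lt_mul_left h5 hqp.le
      linarith
    intro p hp
    have h1 := hlt p hp p0 hp0
    have h2 := hlt p0 hp0 p hp
    have h3 : nN p.1 < nN p0.1 + 1 := by exact_mod_cast h1
    have h4 : nN p0.1 < nN p.1 + 1 := by exact_mod_cast h2
    omega
  have himg : ((S.image Prod.fst).card : ℝ) ≤ 6 * √(N : ℝ) := by
    have h1 := pm_circle (nN p0.1) (S.image Prod.fst) (by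
      intro z hz
      rw [Finset.mem_image] at hz
      obtain ⟨p, hp, rfl⟩ := hz
      exact hsame p hp)
    have h2 : √((nN p0.1 : ℕ) : ℝ) ≤ √(N : ℝ) := by
      apply Real.sqrt_le_sqrt
      have h3 := (hmem p0 hp0).1.1.1
      have h4 : M ≤ N := Nat.div_le_self _ _
      exact_mod_cast h3.trans h4
    linarith
  have hfib : ∀ z ∈ S.image Prod.fst, ((S.filter (fun p => p.1 = z)).card : ℝ) ≤
      2 / √δ + 1 := by
    intro z hz
    rw [Finset.mem_image] at hz
    obtain ⟨p, hp, rfl⟩ := hz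
    obtain ⟨⟨⟨h1, h2⟩, _⟩, h3, _⟩ := hmem p hp
    have h4 : δ * (M : ℝ) < nN p.1 :=
      lt_of_le_of_lt (mul_le_mul_of_nonneg_right hs (Nat.cast_nonneg _)) h3
    refine le_trans ?_ (pm_fiber m M δ hδ p.1 h2 h4 hM1)
    have h5 : (S.filter (fun p' => p'.1 = p.1)).card ≤
        ((dpairs m M).filter (fun p' => p'.1 = p.1)).card :=
      Finset.card_le_card (Finset.filter_subset_filter _ (Finset.filter_subset _ _))
    exact_mod_cast h5
  have h1 : S.card = ∑ z ∈ S.image Prod.fst, (S.filter (fun p => p.1 = z)).card :=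
    Finset.card_eq_sum_card_fiberwise (fun p hp => Finset.mem_image_of_mem _ hp)
  rw [h1]
  push_cast
  calc ∑ z ∈ S.image Prod.fst, ((S.filter (fun p => p.1 = z)).card : ℝ)
      ≤ ∑ z ∈ S.image Prod.fst, (2 / √δ + 1) := Finset.sum_le_sum hfib
    _ = ((S.image Prod.fst).card : ℝ) * (2 / √δ + 1) := by
        rw [Finset.sum_const, nsmul_eq_mul]
    _ ≤ 6 * √(N : ℝ) * (2 / √δ + 1) := mul_le_mul_of_nonneg_right himg (by positivity)

open Classical in
/-- the same for the second norm -/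
private theorem pm_strip2 (m : ℤ) (δ s : ℝ) (hδ : 0 < δ) (hs : δ ≤ s) (hs1 : s ≤ 1) (q N : ℕ)
    (hq : 1 ≤ q) (hN : 1 ≤ N) :
    (((dpairs m (N / q)).filter (fun p => s * ((N / q : ℕ) : ℝ) < nN p.2 ∧
      (q : ℝ) * nN p.2 ≤ s * N)).card : ℝ) ≤ 6 * √(N : ℝ) * (2 / √δ + 1) := by
  refine le_trans ?_ (pm_strip (-m) δ s hδ hs hs1 q N hq hN)
  have h1 : ((dpairs m (N / q)).filter (fun p => s * ((N / q : ℕ) : ℝ) < nN p.2 ∧
      (q : ℝ) * nN p.2 ≤ s * N)).card ≤
      ((dpairs (-m) (N / q)).filter (fun p => s * ((N / q : ℕ) : ℝ) < nN p.1 ∧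
      (q : ℝ) * nN p.1 ≤ s * N)).card := by
    apply Finset.card_le_card_of_injOn Prod.swap
    · intro p hp
      rw [Finset.mem_coe, Finset.mem_filter, mem_dpairs] at hp ⊢
      obtain ⟨⟨h3, h4, h5, h6⟩, h7⟩ := hp
      refine ⟨⟨h4, h3, ?_, ?_⟩, h7⟩
      · rw [← h5]
        unfold crossG
        simp only [Prod.fst_swap, Prod.snd_swap]
        ring
      · have : dotG p.2 p.1 = dotG p.1 p.2 := by
          unfold dotG
          ring
        simpa [this] using h6
    · exact Prod.swap_injective.injOn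
  exact_mod_cast h1

theorem MULTN (a a' b b' : ℝ) (ha : 0 < a) (haa : a < a') (ha1 : a' ≤ 1) (hb : 0 < b)
    (hbb : b < b') (hb1 : b' ≤ 1) : ∃ C : ℝ, 0 < C ∧ ∀ κ : GaussianInt, (nN κ).Prime →
    nN κ % 4 = 1 → ∀ N : ℕ, 1 ≤ N →
    |(nN κ : ℝ) * pairSumPi κ a a' b b' N - (nN κ : ℝ) * pairSum 1 a a' b b' (N / nN κ)| ≤
      C * (N / nN κ + nN κ * √(N : ℝ)) := by
  classical
  obtain ⟨C0, hC0, hdiv⟩ := dpairs_div
  set δ := min a b with hδdef
  have hδ : 0 < δ := lt_min ha hb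
  set B := 6 * (2 / √δ + 1) with hB
  have hBp : 0 < B := by positivity
  refine ⟨2 * C0 + 4 * B, by positivity, ?_⟩
  intro κ hκ h4 N hN
  set q := nN κ with hq
  have hq1 : 1 ≤ q := hκ.one_lt.le
  have hqp : (0 : ℝ) < q := by exact_mod_cast hq1
  have hMle : N / q ≤ N := Nat.div_le_self _ _
  have hstar : nN (star κ) = q := nN_star κ
  have hstar0 : star κ ≠ 0 := by
    intro h
    rw [h] at hstar
    have : nN (0 : GaussianInt) = 0 := nN_zero
    omega
  have hMr : ((N / q : ℕ) : ℝ) ≤ (N : ℝ) / q := Nat.cast_div_le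
  have hMr' : (q : ℝ) * ((N / q : ℕ) : ℝ) ≤ N := by
    rw [le_div_iff₀ hqp] at hMr
    linarith
  set M := N / q with hM
  rw [← mul_sub, abs_mul, abs_of_pos hqp, pairSumPi_eq a a' b b' ha1 hb1 hκ h4 (le_refl N),
    pairSum_one a a' b b' ha1 hb1 hMle]
  -- the exceptional pairs
  set S1 := (dpairs 1 M).filter (fun p : GaussianInt × GaussianInt => star κ ∣ p.1) with hS1
  set S2 := (dpairs 1 M).filter (fun p : GaussianInt × GaussianInt => star κ ∣ p.2) with hS2
  set T1 := (dpairs 1 M).filter (fun p => a * (M : ℝ) < nN p.1 ∧ (q : ℝ) * nN p.1 ≤ a * N)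
    with hT1
  set T2 := (dpairs 1 M).filter (fun p => a' * (M : ℝ) < nN p.1 ∧ (q : ℝ) * nN p.1 ≤ a' * N)
    with hT2
  set T3 := (dpairs 1 M).filter (fun p => b * (M : ℝ) < nN p.2 ∧ (q : ℝ) * nN p.2 ≤ b * N)
    with hT3
  set T4 := (dpairs 1 M).filter (fun p => b' * (M : ℝ) < nN p.2 ∧ (q : ℝ) * nN p.2 ≤ b' * N)
    with hT4
  set E := S1 ∪ S2 ∪ T1 ∪ T2 ∪ T3 ∪ T4 with hE
  have hEcard : (E.card : ℝ) ≤ 2 * (C0 * M / q) + 4 * (B * √(N : ℝ)) := by
    have e1 : (S1.card : ℝ) ≤ C0 * M / q := by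
      have := (hdiv 1 M (star κ) hstar0).1
      rw [hstar] at this
      exact this
    have e2 : (S2.card : ℝ) ≤ C0 * M / q := by
      have := (hdiv 1 M (star κ) hstar0).2
      rw [hstar] at this
      exact this
    have hda : δ ≤ a := min_le_left _ _
    have hdb : δ ≤ b := min_le_right _ _
    have e3 : (T1.card : ℝ) ≤ B * √(N : ℝ) := by
      refine (pm_strip 1 δ a hδ hda (by linarith) q N hq1 hN).trans (le_of_eq ?_)
      rw [hB]; ring
    have e4 : (T2.card : ℝ) ≤ B * √(N : ℝ) := by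
      refine (pm_strip 1 δ a' hδ (by linarith) ha1 q N hq1 hN).trans (le_of_eq ?_)
      rw [hB]; ring
    have e5 : (T3.card : ℝ) ≤ B * √(N : ℝ) := by
      refine (pm_strip2 1 δ b hδ hdb (by linarith) q N hq1 hN).trans (le_of_eq ?_)
      rw [hB]; ring
    have e6 : (T4.card : ℝ) ≤ B * √(N : ℝ) := by
      refine (pm_strip2 1 δ b' hδ (by linarith) hb1 q N hq1 hN).trans (le_of_eq ?_)
      rw [hB]; ring
    have e7 : E.card ≤ S1.card + S2.card + T1.card + T2.card + T3.card + T4.card := by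
      rw [hE]
      refine (Finset.card_union_le _ _).trans ?_
      refine Nat.add_le_add_right ?_ _
      refine (Finset.card_union_le _ _).trans ?_
      refine Nat.add_le_add_right ?_ _
      refine (Finset.card_union_le _ _).trans ?_
      refine Nat.add_le_add_right ?_ _
      refine (Finset.card_union_le _ _).trans ?_
      refine Nat.add_le_add_right ?_ _
      exact Finset.card_union_le _ _
    have e8 : (E.card : ℝ) ≤ S1.card + S2.card + T1.card + T2.card + T3.card + T4.card := by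
      exact_mod_cast e7
    linarith
  -- comparison
  have hcmp : |∑ p ∈ (dpairs 1 N).filter (fun p => ¬ star κ ∣ p.1 ∧ ¬ star κ ∣ p.2),
      (if (a * N < (q : ℝ) * nN p.1 ∧ (q : ℝ) * nN p.1 ≤ a' * N) ∧
        (b * N < (q : ℝ) * nN p.2 ∧ (q : ℝ) * nN p.2 ≤ b' * N)
      then lam p.1 * lam p.2 else 0) - ∑ p ∈ dpairs 1 N,
      (if (a * M < nN p.1 ∧ (nN p.1 : ℝ) ≤ a' * M) ∧ (b * M < nN p.2 ∧ (nN p.2 : ℝ) ≤ b' * M)
      then lam p.1 * lam p.2 else 0)| ≤ (E.card : ℝ) := by
    rw [Finset.sum_filter, ← Finset.sum_sub_distrib]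
    have hcard : (E.card : ℝ) = ∑ p ∈ E, (1 : ℝ) := by
      rw [Finset.sum_const, nsmul_eq_mul, mul_one]
    have hEsub : E ⊆ dpairs 1 N := by
      have hsub : dpairs 1 M ⊆ dpairs 1 N := by
        intro p hp
        rw [mem_dpairs] at hp ⊢
        obtain ⟨⟨h1, h2⟩, ⟨h3, h4⟩, h5, h6⟩ := hp
        exact ⟨⟨h1.trans hMle, h2⟩, ⟨h3.trans hMle, h4⟩, h5, h6⟩
      rw [hE]
      refine Finset.union_subset (Finset.union_subset (Finset.union_subset (Finset.union_subset
        (Finset.union_subset ?_ ?_) ?_) ?_) ?_) ?_ <;>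
      exact (Finset.filter_subset _ _).trans hsub
    refine (Finset.abs_sum_le_sum_abs _ _).trans ?_
    rw [hcard, ← Finset.sum_subset hEsub ?_]
    · refine Finset.sum_le_sum fun p _ => ?_
      have hg : |lam p.1 * lam p.2| ≤ 1 := by
        rw [abs_mul]
        exact mul_le_one₀ (absA_lam_le _) (abs_nonneg _) (absA_lam_le _)
      generalize lam p.1 * lam p.2 = g at hg ⊢
      split_ifs <;> simp [hg]
    · intro p hp hpE
      rw [abs_eq_zero]
      rw [mem_dpairs] at hp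
      obtain ⟨⟨_, g2⟩, ⟨_, g4⟩, g5, g6⟩ := hp
      simp only [hE, Finset.mem_union, not_or] at hpE
      obtain ⟨⟨⟨⟨⟨n1, n2⟩, n3⟩, n4⟩, n5⟩, n6⟩ := hpE
      have hmM : ∀ t : ℝ, t ≤ 1 → ∀ z : GaussianInt, (q : ℝ) * nN z ≤ t * N → nN z ≤ M := by
        intro t ht z h1
        have h2 : (q : ℝ) * nN z ≤ N := h1.trans (by
          calc t * (N : ℝ) ≤ 1 * N := mul_le_mul_of_nonneg_right ht (Nat.cast_nonneg _)
            _ = N := one_mul _)
        have h3 : q * nN z ≤ N := by exact_mod_cast h2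
        rw [hM, Nat.le_div_iff_mul_le hκ.pos, mul_comm]
        exact h3
      have hmM' : ∀ t : ℝ, t ≤ 1 → ∀ z : GaussianInt, (nN z : ℝ) ≤ t * M → nN z ≤ M := by
        intro t ht z h1
        have h2 : (nN z : ℝ) ≤ M := h1.trans (by
          calc t * (M : ℝ) ≤ 1 * M := mul_le_mul_of_nonneg_right ht (Nat.cast_nonneg _)
            _ = M := one_mul _)
        exact_mod_cast h2
      have hin : nN p.1 ≤ M → nN p.2 ≤ M → p ∈ dpairs 1 M := by
        intro h1 h2
        rw [mem_dpairs]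
        exact ⟨⟨h1, g2⟩, ⟨h2, g4⟩, g5, g6⟩
      by_cases hA : (a * N < (q : ℝ) * nN p.1 ∧ (q : ℝ) * nN p.1 ≤ a' * N) ∧
        (b * N < (q : ℝ) * nN p.2 ∧ (q : ℝ) * nN p.2 ≤ b' * N)
      · obtain ⟨⟨c1, c2⟩, ⟨c3, c4⟩⟩ := hA
        have hpM := hin (hmM a' ha1 _ c2) (hmM b' hb1 _ c4)
        have k1 : ¬ star κ ∣ p.1 := fun h => n1 (Finset.mem_filter.2 ⟨hpM, h⟩)
        have k2 : ¬ star κ ∣ p.2 := fun h => n2 (Finset.mem_filter.2 ⟨hpM, h⟩)
        have k3 : (nN p.1 : ℝ) ≤ a' * M := by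
          by_contra h
          exact n4 (Finset.mem_filter.2 ⟨hpM, not_le.1 h, c2⟩)
        have k4 : (nN p.2 : ℝ) ≤ b' * M := by
          by_contra h
          exact n6 (Finset.mem_filter.2 ⟨hpM, not_le.1 h, c4⟩)
        have k5 : a * M < nN p.1 := by
          have : (q : ℝ) * (a * M) < q * nN p.1 := by
            calc (q : ℝ) * (a * M) = a * (q * M) := by ring
              _ ≤ a * N := mul_le_mul_of_nonneg_left hMr' ha.le
              _ < _ := c1
          exact lt_of_mul_lt_mul_left this hqp.le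
        have k6 : b * M < nN p.2 := by
          have : (q : ℝ) * (b * M) < q * nN p.2 := by
            calc (q : ℝ) * (b * M) = b * (q * M) := by ring
              _ ≤ b * N := mul_le_mul_of_nonneg_left hMr' hb.le
              _ < _ := c3
          exact lt_of_mul_lt_mul_left this hqp.le
        rw [if_pos ⟨k1, k2⟩, if_pos ⟨⟨c1, c2⟩, ⟨c3, c4⟩⟩, if_pos ⟨⟨k5, k3⟩, ⟨k6, k4⟩⟩, sub_self]
      · have hB' : ¬ ((a * M < nN p.1 ∧ (nN p.1 : ℝ) ≤ a' * M) ∧
            (b * M < nN p.2 ∧ (nN p.2 : ℝ) ≤ b' * M)) := by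
          rintro ⟨⟨c1, c2⟩, ⟨c3, c4⟩⟩
          have hpM := hin (hmM' a' ha1 _ c2) (hmM' b' hb1 _ c4)
          apply hA
          refine ⟨⟨?_, ?_⟩, ⟨?_, ?_⟩⟩
          · by_contra h
            exact n3 (Finset.mem_filter.2 ⟨hpM, c1, not_lt.1 h⟩)
          · calc (q : ℝ) * nN p.1 ≤ q * (a' * M) := mul_le_mul_of_nonneg_left c2 hqp.le
              _ = a' * (q * M) := by ring
              _ ≤ a' * N := mul_le_mul_of_nonneg_left hMr' (by linarith)
          · by_contra h
            exact n5 (Finset.mem_filter.2 ⟨hpM, c3, not_lt.1 h⟩)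
          · calc (q : ℝ) * nN p.2 ≤ q * (b' * M) := mul_le_mul_of_nonneg_left c4 hqp.le
              _ = b' * (q * M) := by ring
              _ ≤ b' * N := mul_le_mul_of_nonneg_left hMr' (by linarith)
        rw [if_neg hA, if_neg hB', ite_self, sub_self]
  calc _ ≤ (q : ℝ) * (E.card : ℝ) := mul_le_mul_of_nonneg_left hcmp hqp.le
    _ ≤ q * (2 * (C0 * M / q) + 4 * (B * √(N : ℝ))) := mul_le_mul_of_nonneg_left hEcard hqp.le
    _ = 2 * C0 * M + 4 * B * (q * √(N : ℝ)) := by
        field_simp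
    _ ≤ 2 * C0 * (N / q) + 4 * B * (q * √(N : ℝ)) := by
        have : 2 * C0 * (M : ℝ) ≤ 2 * C0 * (N / q) :=
          mul_le_mul_of_nonneg_left hMr (by positivity)
        linarith
    _ ≤ (2 * C0 + 4 * B) * (N / q + q * √(N : ℝ)) := by
        have h1 : 0 ≤ (N : ℝ) / q := by positivity
        have h2 : 0 ≤ (q : ℝ) * √(N : ℝ) := by positivity
        nlinarith [mul_nonneg hC0.le h2, mul_nonneg hBp.le h1]

end Pool.Agent.LogCh
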