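import Pool.Agent.Lib.LogCh.PDefs
import Pool.Agent.Lib.LogCh.AEnt
import Pool.Agent.Lib.LogCh.APsi

/-!
# Group P, module PProc: the process at one order `N`

`exists_TN`: `Equiv.ofBijective` of `z ↦ sg N z` as in `exists_TT` (AOm). `sum_mun`: `Finset.sum_coe_sort`.
`ent_XN`: copy of `ent_XO` (AEnt): `ent_le_of_weight` with `wt` and `sum_aq`, `card_VV_lower`.
`YN_step`: `YO_step` (ACf or APsi). `mun_sum`: `VV N` is nonempty for `N ≥ 1` (lower bound for the cardinality).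
-/

set_option autoImplicit false

namespace Pool.Agent.LogCh

open Real
open Pool.Agent.NSqP
open Pool.Agent.MP484c84Par (ballG mem_ballG crossG dotG)

theorem mun_nonneg (N : ℕ) (z : Vn N) : 0 ≤ mun N z := by
  unfold mun
  positivity

theorem sum_mun (N : ℕ) (F : GaussianInt → ℝ) :
    ∑ z : Vn N, mun N z * F z.1 = (∑ z ∈ VV N, F z) / ((VV N).card : ℝ) := by
  unfold mun
  have h1 : ∑ z : Vn N, 1 / ((VV N).card : ℝ) * F z.1 =
      ∑ z ∈ VV N, 1 / ((VV N).card : ℝ) * F z :=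
    Finset.sum_coe_sort (VV N) (fun z => 1 / ((VV N).card : ℝ) * F z)
  rw [h1, ← Finset.mul_sum, one_div, inv_mul_eq_div]

private theorem pproc_card_pos {N : ℕ} (hN : 1 ≤ N) : (0 : ℝ) < ((VV N).card : ℝ) := by
  obtain ⟨c, hc, h⟩ := card_VV_lower
  have h1 : (1 : ℝ) ≤ N := by exact_mod_cast hN
  have h2 : 0 < c * N := by positivity
  exact lt_of_lt_of_le h2 (h N)

theorem mun_sum {N : ℕ} (hN : 1 ≤ N) : ∑ z : Vn N, mun N z = 1 := by
  have h1 := sum_mun N (fun _ => 1)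
  simp only [mul_one, Finset.sum_const, nsmul_eq_mul] at h1
  rw [h1]
  exact div_self (pproc_card_pos hN).ne'

theorem exists_TN (N : ℕ) : ∃ T : Equiv.Perm (Vn N), (∀ z : Vn N, mun N (T z) = mun N z) ∧
    ∀ (z : Vn N) (i : ℕ), (((T ^ i) z : Vn N) : GaussianInt) = sgi N i z.1 := by
  classical
  let T : Equiv.Perm (Vn N) :=
    Equiv.ofBijective (fun y : Vn N => (⟨sg N y.1, sg_mem y.2⟩ : Vn N)) (by
      constructor
      · intro y y' h
        have h1 : sg N y.1 = sg N y'.1 := congrArg Subtype.val h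
        exact Subtype.ext (sg_inj y.2 y'.2 h1)
      · intro w
        obtain ⟨z, hz, hzw⟩ := sg_surj w.2
        exact ⟨⟨z, hz⟩, Subtype.ext hzw⟩)
  have hp : ∀ z : Vn N, ((T z : Vn N) : GaussianInt) = sg N z.1 := fun z => rfl
  refine ⟨T, fun z => rfl, fun z i => ?_⟩
  induction i with
  | zero => rfl
  | succ i ih =>
    have h1 : (T ^ (i + 1)) z = T ((T ^ i) z) := by
      rw [pow_succ']
      rfl
    rw [h1, hp, ih, sgi_succ]

private theorem pproc_wt_pos (x : XX) : 0 < wt x := by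
  unfold wt
  positivity

private theorem pproc_natAbs (n : ℤ) : ((n.natAbs : ℕ) : ℝ) = |((n : ℤ) : ℝ)| := by
  rw [Nat.cast_natAbs, Int.cast_abs]

private theorem pproc_fcZ (a a' : ℝ) (N : ℕ) (z : GaussianInt) :
    (((fcZ a a' N z).natAbs : ℕ) : ℝ) ≤ 1 := by
  have h := abs_fcZ_le a a' N z
  rw [pproc_natAbs]
  have h1 : ((|fcZ a a' N z| : ℤ) : ℝ) ≤ ((1 : ℤ) : ℝ) := by exact_mod_cast h
  rwa [Int.cast_abs, Int.cast_one] at h1

theorem ent_XN : ∃ h0 : ℝ, 0 < h0 ∧ ∀ N : ℕ, 1 ≤ N → ∀ a a' b b' : ℝ,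
    ent (mun N) (XN a a' b b' N) ≤ h0 := by
  obtain ⟨C, hC, hCa⟩ := sum_aq
  obtain ⟨c, hc, hcz⟩ := card_VV_lower
  have hlog2 : 0 < log 2 := Real.log_pos (by norm_num)
  refine ⟨(C / c + 8) * log 2, by positivity, ?_⟩
  intro N hN a a' b b'
  have h1 := ent_le_of_weight (mun N) (mun_nonneg N) (mun_sum hN)
    (XN a a' b b' N) wt pproc_wt_pos wt_sum
  refine h1.trans ?_
  have h2 : ∀ z : Vn N, mun N z * (- log (wt (XN a a' b b' N z))) ≤
      (mun N z * |((aq N z.1 : ℤ) : ℝ)| + mun N z * 8) * log 2 := by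
    intro z
    rw [wt_log]
    have h3 : (((XN a a' b b' N z).1.natAbs + (XN a a' b b' N z).2.1.natAbs +
        (XN a a' b b' N z).2.2.natAbs + 6 : ℕ) : ℝ) ≤ |((aq N z.1 : ℤ) : ℝ)| + 8 := by
      push_cast
      have h4 : (((XN a a' b b' N z).2.1.natAbs : ℕ) : ℝ) ≤ 1 := pproc_fcZ a a' N z.1
      have h5 : (((XN a a' b b' N z).2.2.natAbs : ℕ) : ℝ) ≤ 1 := pproc_fcZ b b' N z.1
      have h6 : (((XN a a' b b' N z).1.natAbs : ℕ) : ℝ) = |((aq N z.1 : ℤ) : ℝ)| :=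
        pproc_natAbs _
      linarith
    have h7 : mun N z * ((((XN a a' b b' N z).1.natAbs + (XN a a' b b' N z).2.1.natAbs +
        (XN a a' b b' N z).2.2.natAbs + 6 : ℕ) : ℝ) * log 2) ≤
        mun N z * ((|((aq N z.1 : ℤ) : ℝ)| + 8) * log 2) :=
      mul_le_mul_of_nonneg_left (mul_le_mul_of_nonneg_right h3 hlog2.le) (mun_nonneg N z)
    refine h7.trans (le_of_eq ?_)
    ring
  refine (Finset.sum_le_sum (fun z _ => h2 z)).trans ?_
  rw [← Finset.sum_mul, Finset.sum_add_distrib, ← Finset.sum_mul, mun_sum hN, one_mul]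
  refine mul_le_mul_of_nonneg_right ?_ hlog2.le
  have h8 : ∑ z : Vn N, mun N z * |((aq N z.1 : ℤ) : ℝ)| =
      (∑ z ∈ VV N, |((aq N z : ℤ) : ℝ)|) / ((VV N).card : ℝ) :=
    sum_mun N (fun z => |((aq N z : ℤ) : ℝ)|)
  have h9 : (∑ z ∈ VV N, |((aq N z : ℤ) : ℝ)|) / ((VV N).card : ℝ) ≤ C / c := by
    rw [div_le_div_iff₀ (pproc_card_pos hN) hc]
    calc (∑ z ∈ VV N, |((aq N z : ℤ) : ℝ)|) * c
        ≤ (C * N) * c := mul_le_mul_of_nonneg_right (hCa N) hc.le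
      _ = C * (c * N) := by ring
      _ ≤ C * ((VV N).card : ℝ) := mul_le_mul_of_nonneg_left (hcz N) hC.le
  rw [h8]
  linarith

end Pool.Agent.LogCh
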