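import Pool.Agent.Lib.LogCh.AOm

/-!
# Group P (decrement theorem at almost all scales): the process at one order `N`
-/

set_option autoImplicit false

namespace Pool.Agent.LogCh

open Real
open Pool.Agent.NSqP
open Pool.Agent.MP484c84Par (ballG mem_ballG crossG dotG)

/-- sample space at the order `N` -/
abbrev Vn (N : ℕ) : Type := {z : GaussianInt // z ∈ VV N}

/-- uniform measure on the sample space -/
noncomputable def mun (N : ℕ) (_ : Vn N) : ℝ := 1 / ((VV N).card : ℝ)

/-- the observable at the order `N` -/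
noncomputable def XN (a a' b b' : ℝ) (N : ℕ) (z : Vn N) : XX :=
  (aq N z.1, fcZ a a' N z.1, fcZ b b' N z.1)

/-- the residue at the order `N` -/
noncomputable def YN (N q : ℕ) (z : Vn N) : YY q := ym q z.1 (sg N z.1)

/-- the gain at the scale `j` -/
noncomputable def gainP (C1 K : ℕ) (η : ℝ) (P : ℕ → ℕ) (j : ℕ) : ℝ :=
  η * ((QQ C1 (P j)).card : ℝ) / ((K * P j : ℕ) : ℝ) -
    (∑ q ∈ QQ C1 (P j), 4 * log q) / ((K * P (j + 1) : ℕ) : ℝ)

end Pool.Agent.LogCh
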