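import Mathlib

/-!
# Group P, module PSel: selection of a scale by double counting

`Σ_{j<J} g j Σ_{N ≤ X, N ≥ N1, j ∈ Bad N} 1/N = Σ_{N1 ≤ N ≤ X} (1/N) Σ_{j ∈ Bad N} g j ≤ h0 (1 + log X)`.
If all inner sums over `N` were `> η log X`, then `η log X Σ g ≤ h0 (1 + log X)`, so `2 h0 log X < h0 (1 + log X)`, impossible
for `log X ≥ 1` (`h0 ≥ 0`); take `X0 = 3`.
-/

set_option autoImplicit false

namespace Pool.Agent.LogCh

open Real

private theorem PSel_harm (X : ℕ) : ∑ N ∈ Finset.Icc 1 X, 1 / (N : ℝ) ≤ 1 + log X := by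
  have h := harmonic_le_one_add_log X
  rw [harmonic_eq_sum_Icc] at h
  push_cast at h
  simpa [one_div] using h

private theorem PSel_log3 {X : ℕ} (hX : 3 ≤ X) : 1 ≤ log (X : ℝ) := by
  have h3 : (3 : ℝ) ≤ X := by exact_mod_cast hX
  have : exp 1 < (X : ℝ) := lt_of_lt_of_le (by linarith [Real.exp_one_lt_d9]) h3
  rw [Real.le_log_iff_exp_le (by linarith)]
  exact this.le

open Classical in
theorem SELJ (J : ℕ) (g : ℕ → ℝ) (hg : ∀ j < J, 0 ≤ g j) (h0 η : ℝ) (hh : 0 ≤ h0) (hη : 0 < η)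
    (hJ : 2 * h0 / η < ∑ j ∈ Finset.range J, g j) (N1 : ℕ) (bad : ℕ → ℕ → Prop)
    (hbad : ∀ N, N1 ≤ N → ∑ j ∈ (Finset.range J).filter (fun j => bad N j), g j ≤ h0) :
    ∀ X : ℕ, 3 ≤ X → ∃ j < J,
      ∑ N ∈ (Finset.Icc 1 X).filter (fun N => N1 ≤ N ∧ bad N j), 1 / (N : ℝ) ≤ η * log X := by
  intro X hX
  by_contra hcon
  push Not at hcon
  have hlog : 1 ≤ log (X : ℝ) := PSel_log3 hX
  have h1 : ∑ j ∈ Finset.range J, g j * (η * log X) ≤
      ∑ j ∈ Finset.range J, g j *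
        ∑ N ∈ (Finset.Icc 1 X).filter (fun N => N1 ≤ N ∧ bad N j), 1 / (N : ℝ) := by
    apply Finset.sum_le_sum
    intro j hj
    exact mul_le_mul_of_nonneg_left (hcon j (Finset.mem_range.mp hj)).le
      (hg j (Finset.mem_range.mp hj))
  have h2 : ∑ j ∈ Finset.range J, g j *
        ∑ N ∈ (Finset.Icc 1 X).filter (fun N => N1 ≤ N ∧ bad N j), 1 / (N : ℝ) =
      ∑ N ∈ Finset.Icc 1 X, ∑ j ∈ Finset.range J,
        (if N1 ≤ N ∧ bad N j then g j * (1 / (N : ℝ)) else 0) := by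
    rw [Finset.sum_comm]
    apply Finset.sum_congr rfl
    intro j _
    rw [Finset.sum_filter, Finset.mul_sum]
    apply Finset.sum_congr rfl
    intro N _
    split_ifs <;> simp
  have h3 : ∑ N ∈ Finset.Icc 1 X, ∑ j ∈ Finset.range J,
        (if N1 ≤ N ∧ bad N j then g j * (1 / (N : ℝ)) else 0) ≤
      ∑ N ∈ Finset.Icc 1 X, h0 * (1 / (N : ℝ)) := by
    apply Finset.sum_le_sum
    intro N _
    have hN0 : 0 ≤ 1 / (N : ℝ) := by positivity
    by_cases hN : N1 ≤ N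
    · have : ∑ j ∈ Finset.range J,
        (if N1 ≤ N ∧ bad N j then g j * (1 / (N : ℝ)) else 0) =
          (∑ j ∈ (Finset.range J).filter (fun j => bad N j), g j) * (1 / (N : ℝ)) := by
        rw [Finset.sum_filter, Finset.sum_mul]
        apply Finset.sum_congr rfl
        intro j _
        by_cases hb : bad N j
        · rw [if_pos ⟨hN, hb⟩, if_pos hb]
        · rw [if_neg (fun h => hb h.2), if_neg hb, zero_mul]
      rw [this]
      exact mul_le_mul_of_nonneg_right (hbad N hN) hN0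
    · have : ∑ j ∈ Finset.range J,
        (if N1 ≤ N ∧ bad N j then g j * (1 / (N : ℝ)) else 0) = 0 := by
        apply Finset.sum_eq_zero
        intro j _
        rw [if_neg (fun h => hN h.1)]
      rw [this]
      exact mul_nonneg hh hN0
  have h4 : ∑ N ∈ Finset.Icc 1 X, h0 * (1 / (N : ℝ)) ≤ h0 * (1 + log X) := by
    rw [← Finset.mul_sum]
    exact mul_le_mul_of_nonneg_left (PSel_harm X) hh
  rw [← Finset.sum_mul] at h1
  have h5 : 2 * h0 < (∑ j ∈ Finset.range J, g j) * η := by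
    rwa [div_lt_iff₀ hη] at hJ
  have h6 : 2 * h0 * log X < (∑ j ∈ Finset.range J, g j) * η * log X :=
    mul_lt_mul_of_pos_right h5 (by linarith)
  have h7 : h0 * (1 + log X) ≤ 2 * h0 * log X := by nlinarith
  have h8 : (∑ j ∈ Finset.range J, g j) * (η * log X) ≤ h0 * (1 + log X) := by
    calc _ ≤ _ := h1
      _ = _ := h2
      _ ≤ _ := h3
      _ ≤ _ := h4
  nlinarith

end Pool.Agent.LogCh
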