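import Pool.Agent.Lib.LogCh.AZx

/-!
# Group P, module PShift: change of scale in logarithmic averages

For `M ≥ 1`: `Σ_{N = qM}^{qM+q-1} q/N^2` lies between `q q/(qM+q)^2 = 1/(M+1)^2` and `1/M^2`, and
`1/M^2 - 1/(M+1)^2 ≤ 2/M^3`, so replacing `F M/M^2` by `Σ_{N/q = M} q F(N/q)/N^2` costs `≤ 2 C/M^2` for each `M`
with `q M + q - 1 ≤ X`, total `≤ 4 C`. The `N < q` have `N/q = 0`, `F 0 = 0`. The incomplete block `M = X/q` costs
`≤ 2 C/M ≤ 2 C`. The remaining `M`, `X/q < M ≤ X`, contribute at most `C Σ_{X/q < M ≤ X} 1/M ≤ C (1 + log q)`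
(if `X < q` all of `Icc 1 X`: `C (1 + log X)`).
-/

set_option autoImplicit false

namespace Pool.Agent.LogCh

open Real

private theorem PShift_sq (X : ℕ) : ∑ M ∈ Finset.Icc 1 X, 1 / (M : ℝ) ^ 2 ≤ 2 := by
  have h : ∀ Y : ℕ, ∑ M ∈ Finset.Icc 1 (Y + 1), 1 / (M : ℝ) ^ 2 ≤ 2 - 1 / ((Y : ℝ) + 1) := by
    intro Y
    induction Y with
    | zero => norm_num
    | succ Y ih =>
      rw [Finset.sum_Icc_succ_top (by omega)]
      push_cast
      have hY : (0 : ℝ) ≤ Y := Nat.cast_nonneg Y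
      have h1 : 1 / ((Y : ℝ) + 1 + 1) ^ 2 ≤ 1 / ((Y : ℝ) + 1) - 1 / ((Y : ℝ) + 1 + 1) := by
        rw [div_sub_div _ _ (by positivity) (by positivity), div_le_div_iff₀ (by positivity)
          (by positivity)]
        nlinarith
      linarith
  rcases Nat.eq_zero_or_pos X with h0 | h0
  · subst h0
    simp
  · obtain ⟨Y, rfl⟩ : ∃ Y, X = Y + 1 := ⟨X - 1, by omega⟩
    have := h Y
    have h2 : 0 ≤ 1 / ((Y : ℝ) + 1) := by positivity
    linarith

private theorem PShift_har {A B : ℕ} (hA : 1 ≤ A) (hAB : A ≤ B) :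
    ∑ M ∈ Finset.Icc A B, 1 / (M : ℝ) ≤ 1 + log ((B : ℝ) / A) := by
  have hA' : (1 : ℝ) ≤ A := by exact_mod_cast hA
  induction B, hAB using Nat.le_induction with
  | base =>
    rw [Finset.Icc_self, Finset.sum_singleton, div_self (by linarith), Real.log_one, add_zero]
    exact (div_le_one (by linarith)).mpr hA'
  | succ B hB ih =>
    rw [Finset.sum_Icc_succ_top (by omega)]
    have hB' : (1 : ℝ) ≤ B := by exact_mod_cast (le_trans hA hB)
    have h1 : 1 - (((B : ℝ) + 1) / B)⁻¹ ≤ log (((B : ℝ) + 1) / B) :=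
      Real.one_sub_inv_le_log_of_pos (by positivity)
    have h2 : 1 - (((B : ℝ) + 1) / B)⁻¹ = 1 / ((B : ℝ) + 1) := by
      field_simp
      ring
    have h3 : log (((B : ℝ) + 1) / A) = log ((B : ℝ) / A) + log (((B : ℝ) + 1) / B) := by
      rw [← Real.log_mul (by positivity) (by positivity)]
      congr 1
      field_simp
    push_cast
    rw [h3]
    linarith

private theorem PShift_wle {q : ℕ} (hq : 1 ≤ q) (X : ℕ) {M : ℕ} (hM : 1 ≤ M) :
    ∑ N ∈ (Finset.Icc 1 X).filter (fun N => N / q = M), (q : ℝ) / (N : ℝ) ^ 2 ≤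
      1 / (M : ℝ) ^ 2 := by
  have hq' : (1 : ℝ) ≤ q := by exact_mod_cast hq
  have hM' : (1 : ℝ) ≤ M := by exact_mod_cast hM
  have hsub : (Finset.Icc 1 X).filter (fun N => N / q = M) ⊆ Finset.Ico (q * M) (q * M + q) := by
    intro N hN
    rw [Finset.mem_filter] at hN
    rw [Finset.mem_Ico]
    have h1 := Nat.div_add_mod N q
    have h2 := Nat.mod_lt N (show 0 < q by omega)
    rw [hN.2] at h1
    constructor <;> omega
  calc _ ≤ ∑ N ∈ Finset.Ico (q * M) (q * M + q), (q : ℝ) / (N : ℝ) ^ 2 :=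
        Finset.sum_le_sum_of_subset_of_nonneg hsub (fun _ _ _ => by positivity)
    _ ≤ ∑ N ∈ Finset.Ico (q * M) (q * M + q), (q : ℝ) / ((q : ℝ) * M) ^ 2 := by
        apply Finset.sum_le_sum
        intro N hN
        rw [Finset.mem_Ico] at hN
        have h1 : (q : ℝ) * M ≤ N := by exact_mod_cast hN.1
        apply div_le_div_of_nonneg_left (by positivity) (by positivity)
        exact pow_le_pow_left₀ (by positivity) h1 2
    _ = 1 / (M : ℝ) ^ 2 := by
        rw [Finset.sum_const, Nat.card_Ico, nsmul_eq_mul, show q * M + q - q * M = q by omega]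
        field_simp

private theorem PShift_wge {q : ℕ} (hq : 1 ≤ q) (X : ℕ) {M : ℕ} (hM : 1 ≤ M)
    (hX : q * M + q ≤ X + 1) :
    1 / ((M : ℝ) + 1) ^ 2 ≤
      ∑ N ∈ (Finset.Icc 1 X).filter (fun N => N / q = M), (q : ℝ) / (N : ℝ) ^ 2 := by
  have hq' : (1 : ℝ) ≤ q := by exact_mod_cast hq
  have hM' : (1 : ℝ) ≤ M := by exact_mod_cast hM
  have hsub : Finset.Ico (q * M) (q * M + q) ⊆ (Finset.Icc 1 X).filter (fun N => N / q = M) := by
    intro N hN
    rw [Finset.mem_Ico] at hN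
    rw [Finset.mem_filter, Finset.mem_Icc]
    have h1 : 1 ≤ q * M := Nat.one_le_iff_ne_zero.mpr (Nat.mul_ne_zero (by omega) (by omega))
    refine ⟨⟨by omega, by omega⟩, ?_⟩
    apply Nat.div_eq_of_lt_le
    · rw [Nat.mul_comm]
      exact hN.1
    · rw [Nat.add_mul, Nat.mul_comm M q, one_mul]
      exact hN.2
  calc 1 / ((M : ℝ) + 1) ^ 2 =
        ∑ N ∈ Finset.Ico (q * M) (q * M + q), (q : ℝ) / ((q : ℝ) * M + q) ^ 2 := by
        rw [Finset.sum_const, Nat.card_Ico, nsmul_eq_mul, show q * M + q - q * M = q by omega]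
        field_simp
    _ ≤ ∑ N ∈ Finset.Ico (q * M) (q * M + q), (q : ℝ) / (N : ℝ) ^ 2 := by
        apply Finset.sum_le_sum
        intro N hN
        rw [Finset.mem_Ico] at hN
        have h1 : (q : ℝ) * M ≤ N := by exact_mod_cast hN.1
        have h2 : (N : ℝ) ≤ (q : ℝ) * M + q := by exact_mod_cast hN.2.le
        have h3 : 0 < (N : ℝ) := lt_of_lt_of_le (by positivity) h1
        apply div_le_div_of_nonneg_left (by positivity) (by positivity)
        exact pow_le_pow_left₀ h3.le h2 2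
    _ ≤ _ := Finset.sum_le_sum_of_subset_of_nonneg hsub (fun _ _ _ => by positivity)

theorem SHIFT (F : ℕ → ℝ) (C : ℝ) (hC : 0 ≤ C) (hF : ∀ N, |F N| ≤ C * N) (q : ℕ) (hq : 1 ≤ q)
    (X : ℕ) (hX : 1 ≤ X) :
    |∑ N ∈ Finset.Icc 1 X, F N / (N : ℝ) ^ 2 -
      ∑ N ∈ Finset.Icc 1 X, (q : ℝ) * F (N / q) / (N : ℝ) ^ 2| ≤ 20 * C * (1 + log q) := by
  have hq' : (1 : ℝ) ≤ q := by exact_mod_cast hq
  have hF0 : F 0 = 0 := by
    have := hF 0
    simpa using this
  set w : ℕ → ℝ := fun M =>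
    ∑ N ∈ (Finset.Icc 1 X).filter (fun N => N / q = M), (q : ℝ) / (N : ℝ) ^ 2 with hw
  have hsec : ∑ N ∈ Finset.Icc 1 X, (q : ℝ) * F (N / q) / (N : ℝ) ^ 2 =
      ∑ M ∈ Finset.Icc 1 X, F M * w M := by
    have h1 : ∑ M ∈ Finset.range (X + 1),
        ∑ N ∈ (Finset.Icc 1 X).filter (fun N => N / q = M),
          (q : ℝ) * F (N / q) / (N : ℝ) ^ 2 =
        ∑ N ∈ Finset.Icc 1 X, (q : ℝ) * F (N / q) / (N : ℝ) ^ 2 := by
      apply Finset.sum_fiberwise_of_maps_to
      intro N hN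
      rw [Finset.mem_Icc] at hN
      rw [Finset.mem_range]
      exact lt_of_le_of_lt (Nat.div_le_self N q) (by omega)
    rw [← h1]
    have h2 : ∀ M ∈ Finset.range (X + 1),
        ∑ N ∈ (Finset.Icc 1 X).filter (fun N => N / q = M),
          (q : ℝ) * F (N / q) / (N : ℝ) ^ 2 = F M * w M := by
      intro M _
      rw [hw, Finset.mul_sum]
      apply Finset.sum_congr rfl
      intro N hN
      rw [Finset.mem_filter] at hN
      rw [hN.2]
      ring
    rw [Finset.sum_congr rfl h2, Finset.sum_range_succ', hF0, zero_mul, add_zero]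
    rw [Finset.range_eq_Ico, Finset.sum_Ico_add' (fun M => F M * w M) 0 X 1, zero_add]
    rfl
  rw [hsec, ← Finset.sum_sub_distrib]
  have hterm : ∀ M ∈ Finset.Icc 1 X, |F M / (M : ℝ) ^ 2 - F M * w M| ≤
      C * (2 * (1 / (M : ℝ) ^ 2) + if (X + 1) / q ≤ M then 1 / (M : ℝ) else 0) := by
    intro M hM
    rw [Finset.mem_Icc] at hM
    have hM' : (1 : ℝ) ≤ M := by exact_mod_cast hM.1
    have e1 : F M / (M : ℝ) ^ 2 - F M * w M = F M * (1 / (M : ℝ) ^ 2 - w M) := by ring
    rw [e1, abs_mul]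
    have hwle : w M ≤ 1 / (M : ℝ) ^ 2 := PShift_wle hq X hM.1
    have hw0 : 0 ≤ w M := Finset.sum_nonneg (fun _ _ => by positivity)
    rw [abs_of_nonneg (show 0 ≤ 1 / (M : ℝ) ^ 2 - w M by linarith)]
    have hb : |F M| * (1 / (M : ℝ) ^ 2 - w M) ≤ C * M * (1 / (M : ℝ) ^ 2 - w M) :=
      mul_le_mul_of_nonneg_right (hF M) (by linarith)
    refine le_trans hb ?_
    rw [mul_assoc]
    apply mul_le_mul_of_nonneg_left _ hC
    by_cases hc : (X + 1) / q ≤ M
    · rw [if_pos hc]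
      have h3 : (M : ℝ) * (1 / (M : ℝ) ^ 2 - w M) ≤ M * (1 / (M : ℝ) ^ 2) :=
        mul_le_mul_of_nonneg_left (by linarith) (by linarith)
      have h4 : (M : ℝ) * (1 / (M : ℝ) ^ 2) = 1 / M := by
        field_simp
      have h5 : 0 ≤ 2 * (1 / (M : ℝ) ^ 2) := by positivity
      linarith
    · rw [if_neg hc, add_zero]
      push Not at hc
      have h6 : q * M + q ≤ X + 1 := by
        have := Nat.mul_le_of_le_div q (M + 1) (X + 1) hc
        rw [Nat.mul_comm q M, ← Nat.succ_mul]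
        exact this
      have h7 := PShift_wge hq X hM.1 h6
      have h8 : (M : ℝ) * (1 / (M : ℝ) ^ 2 - w M) ≤
          M * (1 / (M : ℝ) ^ 2 - 1 / ((M : ℝ) + 1) ^ 2) :=
        mul_le_mul_of_nonneg_left (by linarith) (by linarith)
      refine le_trans h8 ?_
      rw [div_sub_div _ _ (by positivity) (by positivity), mul_div_assoc', mul_one_div,
        div_le_div_iff₀ (by positivity) (by positivity)]
      nlinarith [pow_pos (show (0 : ℝ) < M by linarith) 2, pow_pos (show (0 : ℝ) < M by linarith) 3,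
        pow_pos (show (0 : ℝ) < M by linarith) 4]
  have hsum : |∑ M ∈ Finset.Icc 1 X, (F M / (M : ℝ) ^ 2 - F M * w M)| ≤
      C * (2 * ∑ M ∈ Finset.Icc 1 X, 1 / (M : ℝ) ^ 2 +
        ∑ M ∈ Finset.Icc 1 X, if (X + 1) / q ≤ M then 1 / (M : ℝ) else 0) := by
    refine le_trans (Finset.abs_sum_le_sum_abs _ _) ?_
    refine le_trans (Finset.sum_le_sum hterm) ?_
    rw [← Finset.mul_sum, Finset.sum_add_distrib, ← Finset.mul_sum]
  refine le_trans hsum ?_
  have htail : (∑ M ∈ Finset.Icc 1 X, if (X + 1) / q ≤ M then 1 / (M : ℝ) else 0) ≤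
      2 + log q := by
    set A := max 1 ((X + 1) / q) with hA
    have hA1 : 1 ≤ A := le_max_left _ _
    have hA2 : (X + 1) / q ≤ A := le_max_right _ _
    have hlogq : 0 ≤ log (q : ℝ) := Real.log_nonneg hq'
    have hs : (∑ M ∈ Finset.Icc 1 X, if (X + 1) / q ≤ M then 1 / (M : ℝ) else 0) ≤
        ∑ M ∈ Finset.Icc A X, 1 / (M : ℝ) := by
      rw [← Finset.sum_filter]
      apply Finset.sum_le_sum_of_subset_of_nonneg
      · intro M hM
        rw [Finset.mem_filter, Finset.mem_Icc] at hM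
        rw [Finset.mem_Icc]
        exact ⟨max_le hM.1.1 hM.2, hM.1.2⟩
      · intros
        positivity
    refine le_trans hs ?_
    rcases le_or_gt A X with hAX | hAX
    · refine le_trans (PShift_har hA1 hAX) ?_
      have hA' : (1 : ℝ) ≤ A := by exact_mod_cast hA1
      have hX' : (1 : ℝ) ≤ X := by exact_mod_cast hX
      have h9 : X + 1 < q * (A + 1) := by
        have h10 := Nat.div_add_mod (X + 1) q
        have h11 := Nat.mod_lt (X + 1) (show 0 < q by omega)
        have h12 : q * ((X + 1) / q) ≤ q * A := Nat.mul_le_mul_left q hA2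
        rw [Nat.mul_add, Nat.mul_one]
        omega
      have h13 : (X : ℝ) + 1 < q * (A + 1) := by exact_mod_cast h9
      have h14 : (X : ℝ) / A ≤ 2 * q := by
        rw [div_le_iff₀ (by linarith)]
        nlinarith
      have h15 : log ((X : ℝ) / A) ≤ log (2 * q) := Real.log_le_log (by positivity) h14
      rw [Real.log_mul (by norm_num) (by linarith)] at h15
      have h16 := Real.log_two_lt_d9
      linarith
    · rw [Finset.Icc_eq_empty (by omega), Finset.sum_empty]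
      linarith
  have hsq := PShift_sq X
  have hlogq : 0 ≤ log (q : ℝ) := Real.log_nonneg hq'
  calc _ ≤ C * (2 * 2 + (2 + log q)) := by
        apply mul_le_mul_of_nonneg_left _ hC
        linarith
    _ ≤ 20 * C * (1 + log q) := by
        nlinarith [mul_nonneg hC hlogq]

end Pool.Agent.LogCh
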