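import Pool.Agent.Lib.LogCh.ATrunc

/-!
# Group P, module PTrunc: the truncation error at one order `N`

Fixed `N` part of ATrunc (`hlarge` in the proof of `TRUNC`, with `CT = 4 Ca Cs`).
-/

set_option autoImplicit false

namespace Pool.Agent.LogCh

open Real
open Pool.Agent.NSqP
open Pool.Agent.MP484c84Par (ballG mem_ballG crossG dotG)

/-- the truncation changes the test function by at most its absolute value -/
private lemma trunc_sub_le (B : ℝ) (L0 q : ℕ) (x : ℕ → XX) (y : YY q) :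
    |psi0 L0 q x y - psiB B L0 q x y| ≤ |psi0 L0 q x y| := by
  classical
  unfold psiB
  split_ifs
  · rw [sub_self, abs_zero]; exact abs_nonneg _
  · rw [sub_zero]

private lemma trunc_eq {B : ℝ} {L0 q : ℕ} {x : ℕ → XX} {y : YY q} (hq : q.Prime) (h4 : q % 4 = 1)
    (h : ∀ y' : YY q, |psi0 L0 q x y'| ≤ B) : |psi0 L0 q x y - psiB B L0 q x y| = 0 := by
  classical
  unfold psiB
  rw [if_pos ⟨hq, h4, h⟩, sub_self, abs_zero]

open Classical in
/-- the number of points whose window contains a very short vector -/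
private lemma trunc_bad {Cs : ℝ} (hCs : ∀ (N : ℕ) (ρ : ℝ), 0 ≤ ρ →
    (((VV N).filter (fun z => (nN z : ℝ) ≤ ρ * N)).card : ℝ) ≤ Cs * ρ * N) (L N : ℕ) (ρ : ℝ)
    (hρ : 0 ≤ ρ) :
    (((VV N).filter (fun z => ¬ ∀ j ≤ L, ρ * N ≤ (nN (sgi N j z) : ℝ))).card : ℝ) ≤
      ((L : ℝ) + 1) * (Cs * ρ * N) := by
  have h1 : (((VV N).filter (fun z => ¬ ∀ j ≤ L, ρ * N ≤ (nN (sgi N j z) : ℝ))).card : ℝ) ≤
      ∑ j ∈ Finset.range (L + 1),
        (((VV N).filter (fun z => (nN (sgi N j z) : ℝ) ≤ ρ * N)).card : ℝ) := by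
    have h2 : (VV N).filter (fun z => ¬ ∀ j ≤ L, ρ * N ≤ (nN (sgi N j z) : ℝ)) ⊆
        (Finset.range (L + 1)).biUnion
          (fun j => (VV N).filter (fun z => (nN (sgi N j z) : ℝ) ≤ ρ * N)) := by
      intro z hz
      rw [Finset.mem_filter] at hz
      obtain ⟨hz1, hz2⟩ := hz
      push Not at hz2
      obtain ⟨j, hj, hlt⟩ := hz2
      rw [Finset.mem_biUnion]
      exact ⟨j, Finset.mem_range.2 (Nat.lt_succ_of_le hj), Finset.mem_filter.2 ⟨hz1, hlt.le⟩⟩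
    have h3 := (Finset.card_le_card h2).trans Finset.card_biUnion_le
    exact_mod_cast h3
  have h2 : ∀ j ∈ Finset.range (L + 1),
      (((VV N).filter (fun z => (nN (sgi N j z) : ℝ) ≤ ρ * N)).card : ℝ) ≤ Cs * ρ * N := by
    intro j _
    have h3 := sum_sgi N j (fun z => if (nN z : ℝ) ≤ ρ * N then (1 : ℝ) else 0)
    rw [Finset.sum_boole, Finset.sum_boole] at h3
    rw [h3]
    exact hCs N ρ hρ
  refine h1.trans ((Finset.sum_le_sum h2).trans (le_of_eq ?_))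
  rw [Finset.sum_const, Finset.card_range, nsmul_eq_mul]
  push_cast
  ring

theorem TRUNCN (a a' b b' : ℝ) (ha : 0 < a) : ∃ CT : ℝ, 0 < CT ∧ ∀ B' : ℝ, 1 ≤ B' →
    ∃ B : ℝ, 1 ≤ B ∧ ∀ L0 : ℕ, ∀ q : ℕ, q.Prime → q % 4 = 1 → q ≤ L0 → ∃ N0 : ℕ, ∀ N : ℕ,
      N0 ≤ N →
      ∑ z ∈ VV N, |psi0 L0 q (xo a a' b b' N z) (ym q z (sg N z)) -
        psiB B L0 q (xo a a' b b' N z) (ym q z (sg N z))| ≤ CT / B' ^ 2 * N := by
  classical
  obtain ⟨Cs, hCs0, hCs⟩ := VV_card_small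
  set Ca : ℝ := 2 / √a + 1 with hCa
  have hCa1 : 1 ≤ Ca := by
    have : 0 ≤ 2 / √a := by positivity
    linarith
  have hCa0 : 0 < Ca := by linarith
  refine ⟨4 * Ca * Cs, by positivity, fun B' hB' => ?_⟩
  set B : ℝ := Ca * (2 + (2048 + 64 * B')) with hB
  have hB1 : 1 ≤ B := by
    rw [hB]; nlinarith
  refine ⟨B, hB1, fun L0 q hq h4 hqL => ?_⟩
  have hq1 : 1 ≤ q := hq.one_lt.le
  have hL1 : 1 ≤ L0 := hq1.trans hqL
  have hL1r : (1 : ℝ) ≤ L0 := by exact_mod_cast hL1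
  have hqr : (q : ℝ) ≤ L0 := by exact_mod_cast hqL
  obtain ⟨N0, hN0⟩ := VV_large (4 * L0 + 4)
  refine ⟨max N0 1, fun N hNmax => ?_⟩
  have hN : N0 ≤ N := (le_max_left _ _).trans hNmax
  have hN1 : 1 ≤ N := (le_max_right _ _).trans hNmax
  set F : ℕ → GaussianInt → ℝ := fun N z =>
    |psi0 L0 q (xo a a' b b' N z) (ym q z (sg N z)) -
      psiB B L0 q (xo a a' b b' N z) (ym q z (sg N z))| with hF
  have hN1r : (1 : ℝ) ≤ N := by exact_mod_cast hN1
  have hNpos : (0 : ℝ) < N := by linarith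
  have hcard := hN0 N hN
  set ρ : ℝ := 1 / (B' * L0) ^ 2 with hρ
  have hBL : 0 < B' * L0 := by nlinarith
  have hρ0 : 0 ≤ ρ := by positivity
  have hρN : ρ * N = (N : ℝ) / (B' * L0) ^ 2 := by
    rw [hρ]; ring
  have hle : ∀ z ∈ VV N, F N z ≤
      if ¬ ∀ j ≤ L0, ρ * N ≤ (nN (sgi N j z) : ℝ) then Ca * (q + 1) else 0 := by
    intro z hz
    by_cases hgood : ∀ j ≤ L0, ρ * N ≤ (nN (sgi N j z) : ℝ)
    · rw [if_neg (not_not.2 hgood)]
      obtain ⟨θ, hθ⟩ := exists_ang hz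
      rw [hρN] at hgood
      have hang := good_angle B' hB' L0 N hL1 hN1 hcard hz hθ hgood
      refine le_of_eq (trunc_eq hq h4 fun y' => ?_)
      refine (psi0_good hq h4 L0 hqL a a' b b' ha N hN1 hcard hz hθ y').trans ?_
      rw [hB]
      apply mul_le_mul_of_nonneg_left _ hCa0.le
      have h1 : θ L0 * N / L0 ≤ 2048 + 64 * B' := by
        rw [div_le_iff₀ (by linarith)]
        rw [le_div_iff₀ hNpos] at hang
        exact hang
      linarith
    · rw [if_pos hgood]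
      exact (trunc_sub_le _ _ _ _ _).trans (psi0_triv L0 q hL1 a a' b b' ha N hcard hz _)
  have h1 : ∑ z ∈ VV N, F N z ≤ (((L0 : ℝ) + 1) * (Cs * ρ * N)) * (Ca * (q + 1)) := by
    refine (Finset.sum_le_sum hle).trans ?_
    rw [← Finset.sum_filter, Finset.sum_const, nsmul_eq_mul]
    exact mul_le_mul_of_nonneg_right (trunc_bad hCs L0 N ρ hρ0) (by positivity)
  have h2 : (((L0 : ℝ) + 1) * (Cs * ρ * N)) * (Ca * (q + 1)) ≤
      4 * Ca * Cs / B' ^ 2 * N := by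
    have h3 : ((L0 : ℝ) + 1) * (q + 1) ≤ 4 * (L0 : ℝ) ^ 2 := by nlinarith
    have h4' : (((L0 : ℝ) + 1) * (Cs * ρ * N)) * (Ca * (q + 1)) =
        (((L0 : ℝ) + 1) * (q + 1)) * (Cs * Ca * N / (B' * L0) ^ 2) := by
      rw [hρ]; ring
    rw [h4']
    calc (((L0 : ℝ) + 1) * (q + 1)) * (Cs * Ca * N / (B' * L0) ^ 2)
        ≤ (4 * (L0 : ℝ) ^ 2) * (Cs * Ca * N / (B' * L0) ^ 2) :=
          mul_le_mul_of_nonneg_right h3 (by positivity)
      _ = 4 * Ca * Cs / B' ^ 2 * N := by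
          have : (L0 : ℝ) ≠ 0 := by positivity
          have : B' ≠ 0 := by positivity
          field_simp
  exact h1.trans h2

end Pool.Agent.LogCh
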