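import Pool.Agent.Lib.LogCh.PDefs
import Pool.Agent.Lib.LogCh.AUnif

/-!
# Group P, module PUnif: near uniformity of the residues at one order `N`

Fixed `N` part of AUnif (lemmas `nN'_close`, `avg`, private there: copy them or make them public):
`card (YY)^I * #{z ∈ VV N : residues = y} ≤ card (VV N) + (∏ card) ε N` for `N ≥ N0`, divided by
`card (VV N) ≥ c N`.
-/

set_option autoImplicit false

namespace Pool.Agent.LogCh

open Real
open Pool.Agent.NSqP
open Pool.Agent.MP484c84Par (ballG mem_ballG crossG dotG)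

/-- Chinese remainder theorem for a family of residues -/
private lemma crt (I : Finset ℕ) (hI : ∀ q ∈ I, q.Prime) (v : ∀ q : {q // q ∈ I}, ZMod (md q)) :
    ∃ x : ℤ, ∀ q : {q // q ∈ I}, (x : ZMod (md q)) = v q := by
  classical
  obtain ⟨k, hk⟩ := Nat.chineseRemainderOfFinset
    (fun q : ℕ => if h : q ∈ I then (v ⟨q, h⟩).val else 0) md I
    (fun q hq => by rw [md_eq (hI q hq).ne_zero]; exact (hI q hq).ne_zero)
    (by
      intro q hq q' hq' hne
      rw [Function.onFun, md_eq (hI q hq).ne_zero, md_eq (hI q' hq').ne_zero]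
      exact (Nat.coprime_primes (hI q hq) (hI q' hq')).2 hne)
  refine ⟨k, fun q => ?_⟩
  have h1 := hk q.1 q.2
  rw [dif_pos q.2] at h1
  have h2 := (ZMod.natCast_eq_natCast_iff _ _ _).2 h1
  rw [Int.cast_natCast, h2, ZMod.natCast_val, ZMod.cast_id]

private lemma prod_dvd_iff (I : Finset ℕ) (hI : ∀ q ∈ I, q.Prime) (a : ℤ) :
    ((∏ q ∈ I, q : ℕ) : ℤ) ∣ a ↔ ∀ q : {q // q ∈ I}, ((md q : ℕ) : ℤ) ∣ a := by
  constructor
  · intro h q
    rw [md_eq (hI q q.2).ne_zero]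
    refine dvd_trans ?_ h
    exact_mod_cast Finset.dvd_prod_of_mem (fun q => q) q.2
  · intro h
    push_cast
    refine Finset.prod_dvd_of_coprime ?_ ?_
    · intro q hq q' hq' hne
      rw [Function.onFun, Nat.isCoprime_iff_coprime]
      exact (Nat.coprime_primes (hI q hq) (hI q' hq')).2 hne
    · intro q hq
      have h1 := h ⟨q, hq⟩
      rw [md_eq (hI q hq).ne_zero] at h1
      exact h1

private lemma ym_eq_iff {q : ℕ} {z w : GaussianInt} (h : crossG z w = 1) (y : YY q) :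
    ym q z w = y ↔ (z.re : ZMod (md q)) = y.1 0 0 ∧ (w.re : ZMod (md q)) = y.1 0 1 ∧
      (z.im : ZMod (md q)) = y.1 1 0 ∧ (w.im : ZMod (md q)) = y.1 1 1 := by
  have h0 : (ym q z w).1 = !![(z.re : ZMod (md q)), (w.re : ZMod (md q));
      (z.im : ZMod (md q)), (w.im : ZMod (md q))] := congrArg Subtype.val (dif_pos h)
  have e00 : (ym q z w).1 0 0 = (z.re : ZMod (md q)) := congrFun (congrFun h0 0) 0
  have e01 : (ym q z w).1 0 1 = (w.re : ZMod (md q)) := congrFun (congrFun h0 0) 1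
  have e10 : (ym q z w).1 1 0 = (z.im : ZMod (md q)) := congrFun (congrFun h0 1) 0
  have e11 : (ym q z w).1 1 1 = (w.im : ZMod (md q)) := congrFun (congrFun h0 1) 1
  constructor
  · intro h1
    rw [← h1, e00, e01, e10, e11]
    exact ⟨rfl, rfl, rfl, rfl⟩
  · rintro ⟨h1, h2, h3, h4⟩
    apply Subtype.ext
    ext i j
    fin_cases i <;> fin_cases j
    · exact e00.trans h1
    · exact e01.trans h2
    · exact e10.trans h3
    · exact e11.trans h4

/-- residues by congruences modulo the product -/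
private lemma exists_rep (I : Finset ℕ) (hI : ∀ q ∈ I, q.Prime) (y : ∀ q : {q // q ∈ I}, YY q) :
    ∃ z w : GaussianInt, ((∏ q ∈ I, q : ℕ) : ℤ) ∣ crossG z w - 1 ∧ ∀ z' w' : GaussianInt,
      crossG z' w' = 1 → ((∀ q : {q // q ∈ I}, ym q z' w' = y q) ↔
        (((∏ q ∈ I, q : ℕ) : GaussianInt) ∣ z' - z ∧
          ((∏ q ∈ I, q : ℕ) : GaussianInt) ∣ w' - w)) := by
  obtain ⟨a, ha⟩ := crt I hI (fun q => (y q).1 0 0)
  obtain ⟨b, hb⟩ := crt I hI (fun q => (y q).1 0 1)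
  obtain ⟨c, hc⟩ := crt I hI (fun q => (y q).1 1 0)
  obtain ⟨d, hd⟩ := crt I hI (fun q => (y q).1 1 1)
  refine ⟨⟨a, c⟩, ⟨b, d⟩, ?_, ?_⟩
  · rw [prod_dvd_iff I hI]
    intro q
    rw [← ZMod.intCast_zmod_eq_zero_iff_dvd _ (md q)]
    have hdet := (y q).2
    rw [Matrix.det_fin_two] at hdet
    unfold crossG
    push_cast
    rw [ha q, hb q, hc q, hd q]
    linear_combination hdet
  · intro z' w' hzw
    have hQ : ∀ u : GaussianInt, ((∏ q ∈ I, q : ℕ) : GaussianInt) ∣ u ↔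
        ((∏ q ∈ I, q : ℕ) : ℤ) ∣ u.re ∧ ((∏ q ∈ I, q : ℕ) : ℤ) ∣ u.im := by
      intro u
      rw [← Zsqrtd.intCast_dvd, Int.cast_natCast]
    rw [hQ, hQ]
    have hstep : ∀ (x x0 : ℤ) (v : ∀ q : {q // q ∈ I}, ZMod (md q)),
        (∀ q : {q // q ∈ I}, (x0 : ZMod (md q)) = v q) →
        (((∏ q ∈ I, q : ℕ) : ℤ) ∣ x - x0 ↔ ∀ q : {q // q ∈ I}, (x : ZMod (md q)) = v q) := by
      intro x x0 v hv
      rw [prod_dvd_iff I hI]
      refine forall_congr' (fun q => ?_)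
      rw [← hv q, eq_comm, ZMod.intCast_eq_intCast_iff_dvd_sub]
    rw [Zsqrtd.re_sub, Zsqrtd.im_sub, Zsqrtd.re_sub, Zsqrtd.im_sub, hstep _ _ _ ha, hstep _ _ _ hb,
      hstep _ _ _ hc, hstep _ _ _ hd]
    constructor
    · intro h
      refine ⟨⟨fun q => ?_, fun q => ?_⟩, ⟨fun q => ?_, fun q => ?_⟩⟩
      · exact ((ym_eq_iff hzw _).1 (h q)).1
      · exact ((ym_eq_iff hzw _).1 (h q)).2.2.1
      · exact ((ym_eq_iff hzw _).1 (h q)).2.1
      · exact ((ym_eq_iff hzw _).1 (h q)).2.2.2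
    · rintro ⟨⟨h1, h2⟩, ⟨h3, h4⟩⟩ q
      exact (ym_eq_iff hzw _).2 ⟨h1 q, h3 q, h2 q, h4 q⟩

/-- number of consecutive pairs with given residues -/
private noncomputable def nN' (I : Finset ℕ) (N : ℕ) (y : ∀ q : {q // q ∈ I}, YY q) : ℝ :=
  open Classical in
  (((CP N).filter (fun p : GaussianInt × GaussianInt =>
    ∀ q : {q // q ∈ I}, ym q p.1 p.2 = y q)).card : ℝ)

private lemma cross_CP {N : ℕ} {p : GaussianInt × GaussianInt} (hp : p ∈ CP N) :
    crossG p.1 p.2 = 1 := by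
  unfold CP at hp
  rw [Finset.mem_filter] at hp
  exact hp.2.1

private lemma sum_nN' (I : Finset ℕ) (N : ℕ) :
    ∑ y : (∀ q : {q // q ∈ I}, YY q), nN' I N y = ((CP N).card : ℝ) := by
  classical
  unfold nN'
  rw [Finset.card_eq_sum_card_fiberwise (s := CP N)
    (f := fun p => (fun q : {q // q ∈ I} => ym q p.1 p.2))
    (t := (Finset.univ : Finset (∀ q : {q // q ∈ I}, YY q))) (fun p _ => by simp)]
  push_cast
  refine Finset.sum_congr rfl (fun y _ => ?_)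
  congr 1
  refine Finset.card_bij (fun p _ => p) ?_ (fun _ _ _ _ h => h) ?_
  · intro p hp
    rw [Finset.mem_filter] at hp ⊢
    exact ⟨hp.1, funext hp.2⟩
  · intro p hp
    rw [Finset.mem_filter] at hp
    refine ⟨p, ?_, rfl⟩
    rw [Finset.mem_filter]
    exact ⟨hp.1, fun q => congrFun hp.2 q⟩

private lemma nN'_le (I : Finset ℕ) (N : ℕ) (y : ∀ q : {q // q ∈ I}, YY q) :
    nN' I N y ≤ ((CP N).card : ℝ) := by
  classical
  unfold nN'
  exact_mod_cast Finset.card_filter_le _ _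

private lemma nN'_nonneg (I : Finset ℕ) (N : ℕ) (y : ∀ q : {q // q ∈ I}, YY q) :
    0 ≤ nN' I N y := by
  unfold nN'
  positivity

private lemma card_CP (N : ℕ) : ((CP N).card : ℝ) = ((VV N).card : ℝ) := by
  have h := sum_CP N (fun _ => (1 : ℝ))
  simpa using h

private lemma nN'_close (I : Finset ℕ) (hI : ∀ q ∈ I, q.Prime) (ε : ℝ) (hε : 0 < ε) :
    ∃ N0 : ℕ, ∀ N : ℕ, N0 ≤ N → ∀ y y' : (∀ q : {q // q ∈ I}, YY q),
      nN' I N y ≤ nN' I N y' + ε * N := by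
  classical
  have hQ : 1 ≤ ∏ q ∈ I, q := Finset.prod_pos (fun q hq => (hI q hq).pos)
  obtain ⟨N0, hN0⟩ := EQ1' (∏ q ∈ I, q) hQ ε hε
  refine ⟨N0, fun N hN y y' => ?_⟩
  obtain ⟨z, w, hzw, h1⟩ := exists_rep I hI y
  obtain ⟨z', w', hzw', h1'⟩ := exists_rep I hI y'
  have h2 := hN0 N hN z w z' w' hzw hzw'
  have e : ∀ (y : ∀ q : {q // q ∈ I}, YY q) (z w : GaussianInt), (∀ z' w' : GaussianInt,
      crossG z' w' = 1 → ((∀ q : {q // q ∈ I}, ym q z' w' = y q) ↔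
        (((∏ q ∈ I, q : ℕ) : GaussianInt) ∣ z' - z ∧
          ((∏ q ∈ I, q : ℕ) : GaussianInt) ∣ w' - w))) → nN' I N y =
      (((CP N).filter (fun p : GaussianInt × GaussianInt =>
        ((∏ q ∈ I, q : ℕ) : GaussianInt) ∣ p.1 - z ∧
          ((∏ q ∈ I, q : ℕ) : GaussianInt) ∣ p.2 - w)).card : ℝ) := by
    intro y z w h
    unfold nN'
    congr 1
    refine Finset.card_bij (fun p _ => p) ?_ (fun _ _ _ _ h => h) ?_
    · intro p hp
      rw [Finset.mem_filter] at hp ⊢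
      exact ⟨hp.1, (h p.1 p.2 (cross_CP hp.1)).1 hp.2⟩
    · intro p hp
      rw [Finset.mem_filter] at hp
      refine ⟨p, ?_, rfl⟩
      rw [Finset.mem_filter]
      exact ⟨hp.1, (h p.1 p.2 (cross_CP hp.1)).2 hp.2⟩
  rw [e y z w h1, e y' z' w' h1']
  have h3 := (abs_le.1 h2).2
  linarith

/-- the average over all residues -/
private lemma avg (I : Finset ℕ) (hI : ∀ q ∈ I, q.Prime) (ε : ℝ) (hε : 0 < ε) :
    ∃ N0 : ℕ, ∀ N : ℕ, N0 ≤ N → ∀ y : (∀ q : {q // q ∈ I}, YY q),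
      (∏ q ∈ I, (Fintype.card (YY q) : ℝ)) * nN' I N y ≤ ((VV N).card : ℝ) +
        (∏ q ∈ I, (Fintype.card (YY q) : ℝ)) * (ε * N) := by
  classical
  obtain ⟨N0, hN0⟩ := nN'_close I hI ε hε
  refine ⟨N0, fun N hN y => ?_⟩
  have hK : (∏ q ∈ I, (Fintype.card (YY q) : ℝ)) =
      (Fintype.card (∀ q : {q // q ∈ I}, YY q) : ℝ) := by
    rw [Fintype.card_pi]
    push_cast
    exact (Finset.prod_coe_sort I (fun q => (Fintype.card (YY q) : ℝ))).symm
  have h1 : (Fintype.card (∀ q : {q // q ∈ I}, YY q) : ℝ) * nN' I N y ≤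
      ∑ y' : (∀ q : {q // q ∈ I}, YY q), (nN' I N y' + ε * N) := by
    rw [← Finset.card_univ, ← nsmul_eq_mul, ← Finset.sum_const]
    exact Finset.sum_le_sum (fun y' _ => hN0 N hN y y')
  rw [Finset.sum_add_distrib, sum_nN', Finset.sum_const, Finset.card_univ, nsmul_eq_mul,
    card_CP] at h1
  rw [hK]
  exact h1

open Classical in
theorem UNIFN (I : Finset ℕ) (hI : ∀ q ∈ I, q.Prime) (ϑ : ℝ) (hϑ : 0 < ϑ) : ∃ N0 : ℕ,
    ∀ N : ℕ, N0 ≤ N → ∀ y : (∀ q, YY q),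
      (∑ z : Vn N, if ∀ q ∈ I, YN N q z = y q then mun N z else 0) *
        ∏ q ∈ I, (Fintype.card (YY q) : ℝ) ≤ 1 + ϑ := by
  set K : ℝ := ∏ q ∈ I, (Fintype.card (YY q) : ℝ) with hK
  have hK1 : 1 ≤ K := by
    rw [hK]
    have h : 0 < ∏ q ∈ I, Fintype.card (YY q) := Finset.prod_pos fun q _ => Fintype.card_pos
    exact_mod_cast h
  have hK0 : 0 < K := by linarith
  obtain ⟨c, hc, hVV⟩ := card_VV_lower
  obtain ⟨N0, hN0⟩ := avg I hI (c * ϑ / K) (by positivity)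
  refine ⟨max 1 N0, fun N hN y => ?_⟩
  have hN1 : 1 ≤ N := (le_max_left _ _).trans hN
  have hNpos : (0 : ℝ) < N := by exact_mod_cast hN1
  have hcard : 0 < ((VV N).card : ℝ) := lt_of_lt_of_le (mul_pos hc hNpos) (hVV N)
  have h1 := hN0 N ((le_max_right _ _).trans hN) (fun q => y q)
  rw [← hK] at h1
  have h2 : K * (c * ϑ / K * N) = ϑ * (c * N) := by field_simp
  rw [h2] at h1
  have h3 : (∑ z : Vn N, if ∀ q ∈ I, YN N q z = y q then mun N z else 0) =
      nN' I N (fun q => y q) / ((VV N).card : ℝ) := by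
    have h4 : (∑ z : Vn N, if ∀ q ∈ I, YN N q z = y q then mun N z else 0) =
        ∑ z ∈ VV N, if ∀ q ∈ I, ym q z (sg N z) = y q then 1 / ((VV N).card : ℝ) else 0 := by
      rw [← Finset.sum_coe_sort (VV N)]
      rfl
    have h5 := sum_CP N (fun p => if ∀ q ∈ I, ym q p.1 p.2 = y q then (1 : ℝ) else 0)
    rw [h4]
    have h6 : ∀ z ∈ VV N, (if ∀ q ∈ I, ym q z (sg N z) = y q then 1 / ((VV N).card : ℝ) else 0) =
        (if ∀ q ∈ I, ym q z (sg N z) = y q then (1 : ℝ) else 0) / ((VV N).card : ℝ) := by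
      intro z _
      split_ifs
      · rfl
      · rw [zero_div]
    rw [Finset.sum_congr rfl h6, ← Finset.sum_div, ← h5, Finset.sum_boole]
    congr 1
    unfold nN'
    congr 1
    refine Finset.card_bij (fun p _ => p) ?_ (fun _ _ _ _ h => h) ?_
    · intro p hp
      rw [Finset.mem_filter] at hp ⊢
      exact ⟨hp.1, fun q => hp.2 q q.2⟩
    · intro p hp
      rw [Finset.mem_filter] at hp
      refine ⟨p, ?_, rfl⟩
      rw [Finset.mem_filter]
      exact ⟨hp.1, fun q hq => hp.2 ⟨q, hq⟩⟩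
  rw [h3, div_mul_eq_mul_div, div_le_iff₀ hcard, mul_comm]
  refine h1.trans ?_
  have h7 := mul_le_mul_of_nonneg_left (hVV N) hϑ.le
  linarith

end Pool.Agent.LogCh
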