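import Pool.Agent.Lib.LogCh.SDefs
import Pool.Agent.Lib.LogCh.BEntBad
import Pool.Agent.Lib.LogCh.PScales
import Pool.Agent.Lib.LogCh.PProc
import Pool.Agent.Lib.LogCh.PUnif
import Pool.Agent.Lib.LogCh.PTrunc
import Pool.Agent.Lib.LogCh.PAvg
import Pool.Agent.Lib.LogCh.PMult
import Pool.Agent.Lib.LogCh.PSel
import Pool.Agent.Lib.LogCh.PShift

/-!
# Group P, module PFin: the decrement theorem with signs (assembly, helper20)
-/

set_option autoImplicit false

namespace Pool.Agent.LogCh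

open Real
open Pool.Agent.NSqP
open Pool.Agent.MP484c84Par (ballG mem_ballG crossG dotG)

private theorem pfin_QQ {C P q : ℕ} (h : q ∈ QQ C P) : P < q ∧ q ≤ C * P ∧ q.Prime ∧ q % 4 = 1 := by
  unfold QQ at h
  rw [Finset.mem_filter, Finset.mem_Ioc] at h
  exact ⟨h.1.1, h.1.2, h.2.1, h.2.2⟩

/-- the sum of the truncated test function over the points of order `N` -/
noncomputable def psiSum (a a' b b' B : ℝ) (L0 q N : ℕ) : ℝ :=
  ∑ z ∈ VV N, psiB B L0 q (xo a a' b b' N z) (ym q z (sg N z))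

/-- the scale `P` is bad for the order `N` -/
def badP (C1 K0 : ℕ) (a a' b b' B τ : ℝ) (P N : ℕ) : Prop :=
  τ * ((QQ C1 P).card : ℝ) * ((VV N).card : ℝ) <
    ∑ q ∈ QQ C1 P, |psiSum a a' b b' B (K0 * P) q N|

open Classical in
/-- the entropy decrement theorem applied to the process of order `N` -/
theorem ENTP (a a' b b' : ℝ) (h0 : ℝ) (hh0 : ∀ N : ℕ, 1 ≤ N → ent (mun N) (XN a a' b b' N) ≤ h0)
    (C1 K0 : ℕ) (hK0 : 1 ≤ K0) (J : ℕ) (P m : ℕ → ℕ) (hP0 : 1 ≤ P 0) (hm : ∀ j, 1 ≤ m j)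
    (hP : ∀ j, P (j + 1) = m j * P j) (η : ℝ) (hη : 0 < η) (hη1 : η ≤ 1 / 2)
    (hg : ∀ j, 0 ≤ gainP C1 (2 * K0) η P j) (B : ℝ) (hB : 1 ≤ B) : ∃ N0 : ℕ, ∀ N : ℕ, N0 ≤ N →
      ∑ j ∈ (Finset.range J).filter
        (fun j => badP C1 K0 a a' b b' B (3 * B * √(η + η)) (P j) N),
        gainP C1 (2 * K0) η P j ≤ h0 := by
  have hU : ∀ j : ℕ, ∃ N0 : ℕ, ∀ N : ℕ, N0 ≤ N → ∀ y : (∀ q, YY q),
      (∑ z : Vn N, if ∀ q ∈ QQ C1 (P j), YN N q z = y q then mun N z else 0) *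
        ∏ q ∈ QQ C1 (P j), (Fintype.card (YY q) : ℝ) ≤ 1 + η :=
    fun j => UNIFN (QQ C1 (P j)) (fun q hq => (pfin_QQ hq).2.2.1) η hη
  choose X0 hX0 using hU
  refine ⟨(∑ j ∈ Finset.range J, X0 j) + 1, fun N hN => ?_⟩
  have hN1 : 1 ≤ N := by omega
  have hVpos : (0 : ℝ) < ((VV N).card : ℝ) := by
    have h1 := mun_sum hN1
    rcases Nat.eq_zero_or_pos (VV N).card with h2 | h2
    · exfalso
      rw [Finset.card_eq_zero] at h2
      have h3 : (∑ z : Vn N, mun N z) = 0 := by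
        refine Finset.sum_eq_zero fun z _ => ?_
        have h4 : ∀ x, x ∉ VV N := fun x => by rw [h2]; exact Finset.notMem_empty _
        exact absurd z.2 (h4 z.1)
      rw [h3] at h1
      exact zero_ne_one h1
    · exact_mod_cast h2
  obtain ⟨T, hT1, hT2⟩ := exists_TN N
  obtain ⟨Bad, hBs, hBg, hBj⟩ := ENTB (mun N) (mun_nonneg N) (mun_sum hN1) T hT1
    (XN a a' b b' N) h0 (hh0 N hN1) YY (fun q z => YN N q z) phi
    (fun q z => by
      have h1 := hT2 z 1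
      rw [pow_one] at h1
      unfold YN
      rw [h1, sgi_one]
      exact YO_step q z.2 _ rfl)
    J (fun j => 2 * K0 * P j) m (by
      show 1 ≤ 2 * K0 * P 0
      have := Nat.mul_le_mul hK0 hP0
      nlinarith) hm
    (fun j => by simp only [hP j]; ring)
    (fun j => QQ C1 (P j)) η η hη hη.le (by linarith)
    (fun j hj y => by
      have h3 : X0 j ≤ ∑ j ∈ Finset.range J, X0 j :=
        Finset.single_le_sum (f := X0) (fun i _ => Nat.zero_le _) (Finset.mem_range.2 hj)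
      refine le_trans (le_of_eq ?_) (hX0 j N (by omega) y)
      congr 1)
  have hsub : (Finset.range J).filter
      (fun j => badP C1 K0 a a' b b' B (3 * B * √(η + η)) (P j) N) ⊆ Bad := by
    intro j hj
    rw [Finset.mem_filter] at hj
    by_contra hjB
    have h1 := hBj j hj.1 hjB B hB
      (fun q x y => (if 0 ≤ psiSum a a' b b' B (K0 * P j) q N then (1 : ℝ) else -1) *
        psiB B (K0 * P j) q (exw x) y)
      (fun q x y => by
        have := psiB_bound B (by linarith) (K0 * P j) q (exw x) y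
        rw [abs_mul]
        split_ifs
        · rw [abs_one, one_mul]; exact this
        · rw [abs_neg, abs_one, one_mul]; exact this)
      (fun q x => by rw [← Finset.mul_sum, psiB_mean, mul_zero])
    have h2 : ∀ q : ℕ, ∑ z : Vn N, mun N z *
        ((if 0 ≤ psiSum a a' b b' B (K0 * P j) q N then (1 : ℝ) else -1) *
        psiB B (K0 * P j) q (exw (fun i : Fin (2 * K0 * P j) =>
          XN a a' b b' N ((T ^ (i : ℕ)) z))) (YN N q z)) =
        |psiSum a a' b b' B (K0 * P j) q N| / ((VV N).card : ℝ) := by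
      intro q
      have h3 : ∀ z : Vn N, psiB B (K0 * P j) q (exw (fun i : Fin (2 * K0 * P j) =>
          XN a a' b b' N ((T ^ (i : ℕ)) z))) (YN N q z) =
          psiB B (K0 * P j) q (xo a a' b b' N z.1) (ym q z.1 (sg N z.1)) := by
        intro z
        refine psiB_congr B _ _ _ _ _ fun i hi => ?_
        have hi' : i < 2 * K0 * P j := by rw [mul_assoc]; exact hi
        unfold exw xo
        rw [dif_pos hi']
        simp only [XN]
        rw [hT2 z i]
      rw [Finset.sum_congr rfl fun z _ => by rw [h3 z, mul_left_comm]]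
      rw [← Finset.mul_sum, sum_mun N (fun z => psiB B (K0 * P j) q (xo a a' b b' N z)
        (ym q z (sg N z)))]
      change (if 0 ≤ psiSum a a' b b' B (K0 * P j) q N then (1 : ℝ) else -1) *
        (psiSum a a' b b' B (K0 * P j) q N / ((VV N).card : ℝ)) = _
      split_ifs with h4
      · rw [abs_of_nonneg h4, one_mul]
      · rw [abs_of_neg (not_le.1 h4)]; ring
    rw [Finset.sum_congr rfl fun q _ => h2 q, ← Finset.sum_div, abs_div,
      abs_of_pos hVpos, div_le_iff₀ hVpos,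
      abs_of_nonneg (Finset.sum_nonneg fun q _ => abs_nonneg _)] at h1
    have h5 := hj.2
    unfold badP at h5
    linarith
  refine (Finset.sum_le_sum_of_subset_of_nonneg hsub fun j _ _ => hg j).trans (le_trans ?_ hBg)
  refine Finset.sum_le_sum fun j _ => ?_
  unfold gainP
  have h1 : ∑ q ∈ QQ C1 (P j), log (Fintype.card (YY q)) ≤ ∑ q ∈ QQ C1 (P j), 4 * log q := by
    refine Finset.sum_le_sum fun q hq => ?_
    have hq0 : q ≠ 0 := (pfin_QQ hq).2.2.1.ne_zero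
    have h2 : (Fintype.card (YY q) : ℝ) ≤ (q : ℝ) ^ 4 := by exact_mod_cast card_YY_le hq0
    have h3 : (0 : ℝ) < Fintype.card (YY q) := by exact_mod_cast Fintype.card_pos
    have h4 := Real.log_le_log h3 h2
    rwa [Real.log_pow] at h4
  have h5 : (∑ q ∈ QQ C1 (P j), log (Fintype.card (YY q))) / ((2 * K0 * P (j + 1) : ℕ) : ℝ) ≤
      (∑ q ∈ QQ C1 (P j), 4 * log q) / ((2 * K0 * P (j + 1) : ℕ) : ℝ) :=
    div_le_div_of_nonneg_right h1 (Nat.cast_nonneg _)
  linarith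

private theorem pfin_pairSum {Cd : ℝ} (hCd : ∀ (m : ℤ) (N : ℕ), ((dpairs m N).card : ℝ) ≤ Cd * N)
    (m : ℤ) (a a' b b' : ℝ) (N : ℕ) : |pairSum m a a' b b' N| ≤ Cd * N := by
  refine le_trans ?_ (hCd m N)
  unfold pairSum
  refine (Finset.abs_sum_le_sum_abs _ _).trans ?_
  rw [Finset.card_eq_sum_ones, Nat.cast_sum]
  refine Finset.sum_le_sum fun p _ => ?_
  rw [abs_mul, Nat.cast_one]
  exact mul_le_one₀ (abs_fc_le _ _ _ _) (abs_nonneg _) (abs_fc_le _ _ _ _)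

/-- the estimate at one prime -/
private theorem pfin_one (q S1 Sp Sq T0 TB e1 e2 e3 : ℝ) (hq : 0 < q)
    (h1 : |q * Sp - q * S1| ≤ e1) (h2 : T0 = q * Sp - q / (q + 1) * Sq) (h3 : |T0 - TB| ≤ e2)
    (h4 : |Sq| ≤ e3 * (q + 1)) : |q * S1 - Sq| ≤ e1 + e2 + e3 + |TB| := by
  have e : q * S1 - Sq = -(q * Sp - q * S1) + (T0 - TB) + TB + -(Sq / (q + 1)) := by
    rw [h2]
    field_simp
    ring
  rw [e]
  have h5 : |-(Sq / (q + 1))| ≤ e3 := by
    rw [abs_neg, abs_div, abs_of_pos (by linarith : (0 : ℝ) < q + 1), div_le_iff₀ (by linarith)]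
    exact h4
  have h6 := abs_add_le (-(q * Sp - q * S1) + (T0 - TB) + TB) (-(Sq / (q + 1)))
  have h7 := abs_add_le (-(q * Sp - q * S1) + (T0 - TB)) TB
  have h8 := abs_add_le (-(q * Sp - q * S1)) (T0 - TB)
  rw [abs_neg (q * Sp - q * S1)] at h8
  linarith

open Classical in
/-- the final summation -/
private theorem pfin_end (X : ℕ) (hX1' : 1 ≤ X) (I : Finset ℕ) (hI1 : (1 : ℝ) ≤ I.card)
    (hIq : ∀ q ∈ I, 1 ≤ q) (p1 : ℕ → ℝ) (pp : ℕ → ℕ → ℝ) (s : ℕ → ℝ) (hs : ∀ N, |s N| ≤ 1)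
    (Cd δ ζ : ℝ) (hCd : 0 < Cd) (hδ0 : 0 < δ) (N3 : ℕ) (bad : ℕ → Prop)
    (hp1 : ∀ N, |p1 N| ≤ Cd * N)
    (htriv : ∀ N : ℕ, ∑ q ∈ I, |(q : ℝ) * p1 (N / q) - pp q N| ≤ 2 * Cd * N * (I.card : ℝ))
    (hgood : ∀ N : ℕ, N3 ≤ N → ¬ bad N →
      ∑ q ∈ I, |(q : ℝ) * p1 (N / q) - pp q N| ≤ 4 * δ * N * (I.card : ℝ))
    (hjE : ∑ N ∈ (Finset.Icc 1 X).filter (fun N => N3 ≤ N ∧ bad N), 1 / (N : ℝ) ≤ ζ * log X) :
    |∑ N ∈ Finset.Icc 1 X, s N * p1 N / (N : ℝ) ^ 2| ≤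
      (∑ q ∈ I, 20 * Cd * (1 + log q)) +
      (4 * δ * (1 + log X) + 2 * Cd * N3 + 2 * Cd * (ζ * log X)) +
      ∑ N ∈ Finset.Icc 1 X, |∑ q ∈ I, s (N / q) * pp q N| / ((N : ℝ) ^ 2 * I.card) := by
  have hIpos : (0 : ℝ) < (I.card : ℝ) := by linarith
  set S1 := ∑ N ∈ Finset.Icc 1 X, s N * p1 N / (N : ℝ) ^ 2 with hS1
  -- change of scale
  have g1 : ∀ q ∈ I, |S1 - ∑ N ∈ Finset.Icc 1 X,
      (q : ℝ) * (s (N / q) * p1 (N / q)) / (N : ℝ) ^ 2| ≤
        20 * Cd * (1 + log q) := by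
    intro q hq
    exact SHIFT (fun N => s N * p1 N) Cd hCd.le (fun N => by
      rw [abs_mul]
      refine le_trans ?_ (hp1 N)
      exact mul_le_of_le_one_left (abs_nonneg _) (hs N)) q (hIq q hq) X hX1'
  have g2 : |(I.card : ℝ) * S1 - ∑ N ∈ Finset.Icc 1 X, (∑ q ∈ I,
      (q : ℝ) * (s (N / q) * p1 (N / q))) / (N : ℝ) ^ 2| ≤
        ∑ q ∈ I, 20 * Cd * (1 + log q) := by
    have h1 : (I.card : ℝ) * S1 - ∑ N ∈ Finset.Icc 1 X, (∑ q ∈ I,
        (q : ℝ) * (s (N / q) * p1 (N / q))) / (N : ℝ) ^ 2 =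
        ∑ q ∈ I, (S1 - ∑ N ∈ Finset.Icc 1 X,
          (q : ℝ) * (s (N / q) * p1 (N / q)) / (N : ℝ) ^ 2) := by
      rw [Finset.sum_sub_distrib, Finset.sum_const, nsmul_eq_mul, Finset.sum_comm]
      congr 1
      refine Finset.sum_congr rfl fun N _ => ?_
      rw [Finset.sum_div]
    rw [h1]
    exact (Finset.abs_sum_le_sum_abs _ _).trans (Finset.sum_le_sum g1)
  -- comparison of the two sums over the primes
  set D : ℕ → ℝ := fun N => ∑ q ∈ I, |(q : ℝ) * p1 (N / q) - pp q N| with hD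
  have hD0 : ∀ N, 0 ≤ D N := fun N => Finset.sum_nonneg fun q _ => abs_nonneg _
  have g3 : ∀ N ∈ Finset.Icc 1 X, |(∑ q ∈ I,
      (q : ℝ) * (s (N / q) * p1 (N / q))) / (N : ℝ) ^ 2| ≤
      |∑ q ∈ I, s (N / q) * pp q N| / (N : ℝ) ^ 2 + D N / (N : ℝ) ^ 2 := by
    intro N _
    rw [abs_div, abs_of_nonneg (by positivity : (0 : ℝ) ≤ (N : ℝ) ^ 2), ← add_div]
    refine div_le_div_of_nonneg_right ?_ (by positivity)
    have h1 : ∑ q ∈ I, (q : ℝ) * (s (N / q) * p1 (N / q)) =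
        ∑ q ∈ I, s (N / q) * pp q N + ∑ q ∈ I, s (N / q) *
          ((q : ℝ) * p1 (N / q) - pp q N) := by
      rw [← Finset.sum_add_distrib]
      refine Finset.sum_congr rfl fun q _ => ?_
      ring
    rw [h1]
    refine (abs_add_le _ _).trans (add_le_add le_rfl ?_)
    refine (Finset.abs_sum_le_sum_abs _ _).trans (Finset.sum_le_sum fun q _ => ?_)
    rw [abs_mul]
    exact mul_le_of_le_one_left (abs_nonneg _) (hs _)
  -- the sum of the errors
  have g4 : ∑ N ∈ Finset.Icc 1 X, D N / (N : ℝ) ^ 2 ≤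
      I.card * (4 * δ * (1 + log X) + 2 * Cd * N3 + 2 * Cd * (ζ * log X)) := by
    have h1 : ∀ N ∈ Finset.Icc 1 X, D N / (N : ℝ) ^ 2 ≤
        I.card * (4 * δ) * (1 / (N : ℝ)) + (if N < N3 then I.card * (2 * Cd) else 0) +
        (if N3 ≤ N ∧ bad N then I.card * (2 * Cd) * (1 / (N : ℝ)) else 0) := by
      intro N hN
      have hN1 : (1 : ℝ) ≤ N := by exact_mod_cast (Finset.mem_Icc.1 hN).1
      have hN0 : (0 : ℝ) < N := by linarith
      have t := htriv N
      have t' : D N / (N : ℝ) ^ 2 ≤ I.card * (2 * Cd) * (1 / (N : ℝ)) := by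
        rw [div_le_iff₀ (by positivity)]
        refine t.trans (le_of_eq ?_)
        field_simp
      have p1 : 0 ≤ I.card * (4 * δ) * (1 / (N : ℝ)) := by positivity
      have p2 : 0 ≤ (I.card : ℝ) * (2 * Cd) := by positivity
      have p3 : 0 ≤ I.card * (2 * Cd) * (1 / (N : ℝ)) := by positivity
      by_cases c1 : N < N3
      · have c2 : ¬ (N3 ≤ N ∧ bad N) := fun h => absurd h.1 (not_le.2 c1)
        rw [if_pos c1, if_neg c2, add_zero]
        have h2 : I.card * (2 * Cd) * (1 / (N : ℝ)) ≤ I.card * (2 * Cd) := by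
          refine mul_le_of_le_one_right p2 ?_
          rw [div_le_one hN0]
          exact hN1
        linarith
      · rw [if_neg c1, add_zero]
        by_cases c2 : bad N
        · rw [if_pos ⟨not_lt.1 c1, c2⟩]
          linarith
        · rw [if_neg (fun h => c2 h.2), add_zero]
          have h3 := hgood N (not_lt.1 c1) c2
          rw [div_le_iff₀ (by positivity)]
          refine h3.trans (le_of_eq ?_)
          field_simp
    refine (Finset.sum_le_sum h1).trans ?_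
    have e2 : ∑ N ∈ Finset.Icc 1 X, (if N < N3 then (I.card : ℝ) * (2 * Cd) else 0) =
        (((Finset.Icc 1 X).filter (fun N => N < N3)).card : ℝ) * (I.card * (2 * Cd)) := by
      rw [← Finset.sum_filter, Finset.sum_const, nsmul_eq_mul]
    have e3 : ∑ N ∈ Finset.Icc 1 X, (if N3 ≤ N ∧ bad N then
        (I.card : ℝ) * (2 * Cd) * (1 / (N : ℝ)) else 0) = I.card * (2 * Cd) *
        ∑ N ∈ (Finset.Icc 1 X).filter (fun N => N3 ≤ N ∧ bad N), 1 / (N : ℝ) := by
      rw [← Finset.sum_filter, ← Finset.mul_sum]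
    rw [Finset.sum_add_distrib, Finset.sum_add_distrib, ← Finset.mul_sum, e2, e3]
    have k1 : I.card * (4 * δ) * ∑ N ∈ Finset.Icc 1 X, 1 / (N : ℝ) ≤
        I.card * (4 * δ) * (1 + log X) :=
      mul_le_mul_of_nonneg_left (harm_upper X hX1') (by positivity)
    have k2 : (((Finset.Icc 1 X).filter (fun N => N < N3)).card : ℝ) *
        (I.card * (2 * Cd)) ≤ N3 * (I.card * (2 * Cd)) := by
      refine mul_le_mul_of_nonneg_right ?_ (by positivity)
      have : ((Finset.Icc 1 X).filter (fun N => N < N3)).card ≤ (Finset.range N3).card := by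
        refine Finset.card_le_card fun N hN => ?_
        exact Finset.mem_range.2 (Finset.mem_filter.1 hN).2
      rw [Finset.card_range] at this
      exact_mod_cast this
    have k3 : I.card * (2 * Cd) * ∑ N ∈ (Finset.Icc 1 X).filter (fun N => N3 ≤ N ∧ bad N),
        1 / (N : ℝ) ≤ I.card * (2 * Cd) * (ζ * log X) :=
      mul_le_mul_of_nonneg_left hjE (by positivity)
    have k4 : I.card * (4 * δ * (1 + log X) + 2 * Cd * N3 + 2 * Cd * (ζ * log X)) =
        I.card * (4 * δ) * (1 + log X) + N3 * (I.card * (2 * Cd)) +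
          I.card * (2 * Cd) * (ζ * log X) := by ring
    linarith
  -- conclusion
  have g5 : |∑ N ∈ Finset.Icc 1 X, (∑ q ∈ I,
      (q : ℝ) * (s (N / q) * p1 (N / q))) / (N : ℝ) ^ 2| ≤
      ∑ N ∈ Finset.Icc 1 X, |∑ q ∈ I, s (N / q) * pp q N| / (N : ℝ) ^ 2 +
      I.card * (4 * δ * (1 + log X) + 2 * Cd * N3 + 2 * Cd * (ζ * log X)) := by
    refine (Finset.abs_sum_le_sum_abs _ _).trans ((Finset.sum_le_sum g3).trans ?_)
    rw [Finset.sum_add_distrib]
    exact add_le_add le_rfl g4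
  have g6 : ∑ N ∈ Finset.Icc 1 X, |∑ q ∈ I, s (N / q) * pp q N| / (N : ℝ) ^ 2 =
      I.card * ∑ N ∈ Finset.Icc 1 X, |∑ q ∈ I, s (N / q) * pp q N| /
        ((N : ℝ) ^ 2 * I.card) := by
    rw [Finset.mul_sum]
    refine Finset.sum_congr rfl fun N _ => ?_
    field_simp
  have g7 : ∑ q ∈ I, 20 * Cd * (1 + log (q : ℝ)) ≤
      I.card * ∑ q ∈ I, 20 * Cd * (1 + log (q : ℝ)) := by
    have h2 : 0 ≤ ∑ q ∈ I, 20 * Cd * (1 + log (q : ℝ)) :=
      Finset.sum_nonneg fun q hq => by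
          have : 0 ≤ log (q : ℝ) := Real.log_natCast_nonneg q
          positivity
    exact le_mul_of_one_le_left h2 hI1
  rw [g6] at g5
  set R := ∑ N ∈ Finset.Icc 1 X, |∑ q ∈ I, s (N / q) * pp q N| /
        ((N : ℝ) ^ 2 * I.card) with hR
  set E := ∑ N ∈ Finset.Icc 1 X, (∑ q ∈ I,
      (q : ℝ) * (s (N / q) * p1 (N / q))) / (N : ℝ) ^ 2 with hE
  have g8 : |(I.card : ℝ) * S1| ≤ |(I.card : ℝ) * S1 - E| + |E| := by
    have := abs_add_le ((I.card : ℝ) * S1 - E) E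
    rwa [sub_add_cancel] at this
  rw [abs_mul, abs_of_pos hIpos] at g8
  have g9 : (I.card : ℝ) * |S1| ≤ I.card * ((∑ q ∈ I, 20 * Cd * (1 + log (q : ℝ))) +
      (4 * δ * (1 + log X) + 2 * Cd * N3 + 2 * Cd * (ζ * log X)) + R) := by
    rw [mul_add, mul_add]
    linarith
  exact le_of_mul_le_mul_left g9 hIpos

theorem DECRS_P : DECRSStmt := by
  classical
  intro C1 c hC1 hc hQ a a' b b' ha haa ha1 hb hbb hb1 ε hε P0
  obtain ⟨Cm, hCm, hMult⟩ := MULTN a a' b b' ha haa ha1 hb hbb hb1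
  obtain ⟨CT, hCT, hTr⟩ := TRUNCN a a' b b' ha
  obtain ⟨h0, hh0p, hh0⟩ := ent_XN
  obtain ⟨CV, hCV, hVV⟩ := card_VV_upper
  obtain ⟨Cd, hCd, hdp⟩ := card_dpairs
  set δ : ℝ := ε / 10 with hδ
  have hδ0 : 0 < δ := by rw [hδ]; positivity
  -- the constants
  obtain ⟨B', hB'1, hB'⟩ : ∃ B' : ℝ, 1 ≤ B' ∧ CT / B' ^ 2 ≤ δ := by
    refine ⟨max 1 (CT / δ), le_max_left _ _, ?_⟩
    set t := max 1 (CT / δ) with ht
    have h1 : 1 ≤ t := le_max_left _ _
    have h2 : CT / δ ≤ t := le_max_right _ _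
    rw [div_le_iff₀ hδ0] at h2
    rw [div_le_iff₀ (by positivity)]
    nlinarith [mul_le_mul_of_nonneg_left h1 (by positivity : 0 ≤ t * δ)]
  obtain ⟨B, hB1, hTrB⟩ := hTr B' hB'1
  obtain ⟨η, hη, hη1, hηB⟩ : ∃ η : ℝ, 0 < η ∧ η ≤ 1 / 2 ∧ CV * (3 * B * √(η + η)) ≤ δ := by
    set r := δ / (3 * CV * B) with hr
    have hr0 : 0 < r := by positivity
    refine ⟨min (1 / 2) (r ^ 2 / 2), by positivity, min_le_left _ _, ?_⟩
    have h1 : √(min (1 / 2) (r ^ 2 / 2) + min (1 / 2) (r ^ 2 / 2)) ≤ r := by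
      rw [show r = √(r ^ 2) by rw [Real.sqrt_sq hr0.le]]
      refine Real.sqrt_le_sqrt ?_
      have := min_le_right (1 / 2 : ℝ) (r ^ 2 / 2)
      rw [Real.sqrt_sq hr0.le]
      linarith
    calc CV * (3 * B * √(min (1 / 2) (r ^ 2 / 2) + min (1 / 2) (r ^ 2 / 2)))
        ≤ CV * (3 * B * r) := by gcongr
      _ = δ := by rw [hr]; field_simp
  obtain ⟨K0, hK01, hK0C, hK0⟩ : ∃ K0 : ℕ, 1 ≤ K0 ∧ C1 ≤ K0 ∧
      (C1 : ℝ) * (2 / √(a * b)) + 1 ≤ K0 := by
    refine ⟨max C1 ⌈(C1 : ℝ) * (2 / √(a * b)) + 1⌉₊, ?_, le_max_left _ _, ?_⟩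
    · exact le_trans (by omega) (le_max_left _ _)
    · exact (Nat.le_ceil _).trans (by exact_mod_cast le_max_right _ _)
  obtain ⟨P0', hP0'0, hP0'1, hP0'm⟩ : ∃ P0' : ℕ, P0 ≤ P0' ∧ 1 ≤ P0' ∧
      (Cm + Cd) / (P0' : ℝ) ≤ δ := by
    refine ⟨max (max P0 1) ⌈(Cm + Cd) / δ⌉₊, (le_max_left _ _).trans (le_max_left _ _),
      (le_max_right _ _).trans (le_max_left _ _), ?_⟩
    set t := max (max P0 1) ⌈(Cm + Cd) / δ⌉₊ with ht
    have h1 : (Cm + Cd) / δ ≤ t :=
      (Nat.le_ceil _).trans (by exact_mod_cast le_max_right _ _)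
    have h2 : (0 : ℝ) < t := by
      have : 1 ≤ t := (le_max_right _ _).trans (le_max_left _ _)
      exact_mod_cast this
    rw [div_le_iff₀ hδ0] at h1
    rw [div_le_iff₀ h2]
    linarith
  set ζ : ℝ := δ / (2 * Cd) with hζ
  have hζ0 : 0 < ζ := by positivity
  obtain ⟨J, P, m, hPP0, hP2, hm, hP, hgn, hnum⟩ :=
    SCALES2 C1 c hC1 hc hQ (2 * K0) (by omega) η (2 * h0 / ζ) hη P0'
  have hPmono : ∀ j, P 0 ≤ P j := by
    intro j
    induction j with
    | zero => exact le_rfl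
    | succ j ih =>
      rw [hP j]
      exact ih.trans (Nat.le_mul_of_pos_left _ (hm j))
  obtain ⟨N1, hN1⟩ := ENTP a a' b b' h0 (fun N hN => hh0 N hN a a' b b') C1 K0 hK01 J P m
    (by omega) hm hP η hη hη1 hgn B hB1
  -- the estimate at one prime
  have hW : ∀ j q : ℕ, ∃ N0 : ℕ, q ∈ QQ C1 (P j) → ∀ N : ℕ, N0 ≤ N →
      |(q : ℝ) * pairSum 1 a a' b b' (N / q) - pairSum q a a' b b' N| ≤
        3 * δ * N + |psiSum a a' b b' B (K0 * P j) q N| := by
    intro j q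
    by_cases hq : q ∈ QQ C1 (P j)
    swap
    · exact ⟨0, fun h => absurd h hq⟩
    obtain ⟨hPq, hqC, hqp, hq4⟩ := pfin_QQ hq
    have hPj : P0' ≤ P j := hPP0.trans (hPmono j)
    have hq0 : (0 : ℝ) < q := by exact_mod_cast hqp.pos
    have hqP0 : (P0' : ℝ) ≤ q := by exact_mod_cast (hPj.trans hPq.le)
    have hP0pos : (0 : ℝ) < P0' := by exact_mod_cast hP0'1
    have hqL : q ≤ K0 * P j := hqC.trans (Nat.mul_le_mul_right _ hK0C)
    have hL : 2 * (q : ℝ) / √(a * b) + 1 ≤ ((K0 * P j : ℕ) : ℝ) := by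
      have h1 : (q : ℝ) ≤ C1 * P j := by exact_mod_cast hqC
      have h2 : (1 : ℝ) ≤ P j := by
        have : 1 ≤ P j := by omega
        exact_mod_cast this
      have h3 : 0 < √(a * b) := Real.sqrt_pos.2 (by positivity)
      have h4 : 2 * (q : ℝ) / √(a * b) ≤ 2 * (C1 * P j) / √(a * b) := by gcongr
      have h5 : 2 * ((C1 : ℝ) * P j) / √(a * b) = (C1 : ℝ) * (2 / √(a * b)) * P j := by
        field_simp
      push_cast
      nlinarith [mul_le_mul_of_nonneg_right hK0 (by linarith : (0 : ℝ) ≤ P j)]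
    obtain ⟨D1, hTD⟩ := hTrB (K0 * P j) q hqp hq4 hqL
    obtain ⟨D2, hAv⟩ := psi0_avgN a a' b b' ha hb hqp hq4 (K0 * P j) hL
    obtain ⟨D3, hD3⟩ := exists_nat_ge ((Cm * q / δ) ^ 2)
    refine ⟨D1 + D2 + D3 + 1, fun _ N hN => ?_⟩
    have hN1 : (1 : ℝ) ≤ N := by exact_mod_cast (by omega : 1 ≤ N)
    have hκ : nN (pq q) = q := pq_spec hqp hq4
    have e1 := hMult (pq q) (by rw [hκ]; exact hqp) (by rw [hκ]; exact hq4) N (by omega)
    rw [hκ] at e1
    have e2 := hAv N (by omega)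
    have e3 : |∑ z ∈ VV N, psi0 (K0 * P j) q (xo a a' b b' N z) (ym q z (sg N z)) -
        psiSum a a' b b' B (K0 * P j) q N| ≤ δ * N := by
      refine le_trans ?_ (le_trans (hTD N (by omega)) (mul_le_mul_of_nonneg_right hB'
        (by linarith)))
      unfold psiSum
      rw [← Finset.sum_sub_distrib]
      exact Finset.abs_sum_le_sum_abs _ _
    have e4 : |pairSum q a a' b b' N| ≤ (Cd * N / P0') * ((q : ℝ) + 1) := by
      refine (pfin_pairSum hdp _ _ _ _ _ _).trans ?_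
      rw [div_mul_eq_mul_div, le_div_iff₀ hP0pos]
      exact mul_le_mul_of_nonneg_left (by linarith) (by positivity)
    have e5 := pfin_one q _ _ _ _ _ _ _ _ hq0 e1 e2 e3 e4
    refine e5.trans ?_
    have f1 : Cm * ((N : ℝ) / q) ≤ Cm * N / P0' := by
      rw [mul_div_assoc]
      exact mul_le_mul_of_nonneg_left
        (div_le_div_of_nonneg_left (by linarith) hP0pos hqP0) hCm.le
    have f2 : Cm * (q * √(N : ℝ)) ≤ δ * N := by
      have g1 : (Cm * q / δ) ^ 2 ≤ N := by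
        refine hD3.trans ?_
        exact_mod_cast (by omega : D3 ≤ N)
      have g2 : Cm * q / δ ≤ √(N : ℝ) := Real.le_sqrt_of_sq_le g1
      rw [div_le_iff₀ hδ0] at g2
      have g3 : √(N : ℝ) * √(N : ℝ) = N := Real.mul_self_sqrt (by linarith)
      have g4 : 0 ≤ √(N : ℝ) := Real.sqrt_nonneg _
      calc Cm * (q * √(N : ℝ)) = (Cm * q) * √(N : ℝ) := by ring
        _ ≤ (√(N : ℝ) * δ) * √(N : ℝ) := mul_le_mul_of_nonneg_right g2 g4
        _ = δ * (√(N : ℝ) * √(N : ℝ)) := by ring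
        _ = δ * N := by rw [g3]
    have f3 : Cm * N / P0' + Cd * N / P0' ≤ δ * N := by
      have : Cm * N / P0' + Cd * N / P0' = (Cm + Cd) / (P0' : ℝ) * N := by ring
      rw [this]
      exact mul_le_mul_of_nonneg_right hP0'm (by linarith)
    rw [mul_add]
    linarith
  choose N2 hN2 using hW
  set N3 : ℕ := N1 + (∑ j ∈ Finset.range J, ∑ q ∈ QQ C1 (P j), N2 j q) + 1 with hN3
  -- the estimate at one order, for the good scales
  have hgood : ∀ j < J, ∀ N : ℕ, N3 ≤ N →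
      ¬ badP C1 K0 a a' b b' B (3 * B * √(η + η)) (P j) N →
      ∑ q ∈ QQ C1 (P j), |(q : ℝ) * pairSum 1 a a' b b' (N / q) - pairSum q a a' b b' N| ≤
        4 * δ * N * ((QQ C1 (P j)).card : ℝ) := by
    intro j hj N hN hbad
    have hb := hbad
    unfold badP at hb
    rw [not_lt] at hb
    have h1 : ∀ q ∈ QQ C1 (P j),
        |(q : ℝ) * pairSum 1 a a' b b' (N / q) - pairSum q a a' b b' N| ≤
        3 * δ * N + |psiSum a a' b b' B (K0 * P j) q N| := by
      intro q hq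
      refine hN2 j q hq N ?_
      have h2 : N2 j q ≤ ∑ q ∈ QQ C1 (P j), N2 j q :=
        Finset.single_le_sum (f := fun q => N2 j q) (fun i _ => Nat.zero_le _) hq
      have h3 : ∑ q ∈ QQ C1 (P j), N2 j q ≤
          ∑ j ∈ Finset.range J, ∑ q ∈ QQ C1 (P j), N2 j q :=
        Finset.single_le_sum (f := fun j => ∑ q ∈ QQ C1 (P j), N2 j q)
          (fun i _ => Nat.zero_le _) (Finset.mem_range.2 hj)
      omega
    refine (Finset.sum_le_sum h1).trans ?_
    rw [Finset.sum_add_distrib, Finset.sum_const, nsmul_eq_mul]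
    have h2 : ∑ q ∈ QQ C1 (P j), |psiSum a a' b b' B (K0 * P j) q N| ≤
        δ * N * ((QQ C1 (P j)).card : ℝ) := by
      refine hb.trans ?_
      have h3 : 0 ≤ 3 * B * √(η + η) * ((QQ C1 (P j)).card : ℝ) := by positivity
      calc 3 * B * √(η + η) * ((QQ C1 (P j)).card : ℝ) * ((VV N).card : ℝ)
          ≤ 3 * B * √(η + η) * ((QQ C1 (P j)).card : ℝ) * (CV * N) :=
            mul_le_mul_of_nonneg_left (hVV N) h3
        _ = (CV * (3 * B * √(η + η))) * (N * ((QQ C1 (P j)).card : ℝ)) := by ring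
        _ ≤ δ * (N * ((QQ C1 (P j)).card : ℝ)) :=
            mul_le_mul_of_nonneg_right hηB (by positivity)
        _ = δ * N * ((QQ C1 (P j)).card : ℝ) := by ring
    linarith
  -- the trivial estimate at one order
  have htriv : ∀ j N : ℕ,
      ∑ q ∈ QQ C1 (P j), |(q : ℝ) * pairSum 1 a a' b b' (N / q) - pairSum q a a' b b' N| ≤
        2 * Cd * N * ((QQ C1 (P j)).card : ℝ) := by
    intro j N
    have h1 : ∀ q ∈ QQ C1 (P j),
        |(q : ℝ) * pairSum 1 a a' b b' (N / q) - pairSum q a a' b b' N| ≤ 2 * Cd * N := by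
      intro q hq
      have h2 := pfin_pairSum hdp 1 a a' b b' (N / q)
      have h3 := pfin_pairSum hdp q a a' b b' N
      have h4 : (q : ℝ) * ((N / q : ℕ) : ℝ) ≤ N := by
        exact_mod_cast Nat.mul_div_le N q
      have h5 : |(q : ℝ) * pairSum 1 a a' b b' (N / q)| ≤ Cd * N := by
        rw [abs_mul, abs_of_nonneg (Nat.cast_nonneg q)]
        calc (q : ℝ) * |pairSum 1 a a' b b' (N / q)| ≤ q * (Cd * ((N / q : ℕ) : ℝ)) :=
              mul_le_mul_of_nonneg_left h2 (Nat.cast_nonneg q)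
          _ = Cd * (q * ((N / q : ℕ) : ℝ)) := by ring
          _ ≤ Cd * N := mul_le_mul_of_nonneg_left h4 hCd.le
      have h6 := abs_sub_le ((q : ℝ) * pairSum 1 a a' b b' (N / q)) 0 (pairSum q a a' b b' N)
      rw [sub_zero, zero_sub, abs_neg] at h6
      linarith
    refine (Finset.sum_le_sum h1).trans (le_of_eq ?_)
    rw [Finset.sum_const, nsmul_eq_mul]
    ring
  -- large X
  set W : ℝ := (∑ j ∈ Finset.range J, ∑ q ∈ QQ C1 (P j), 20 * Cd * (1 + log q)) +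
    2 * Cd * N3 + 4 * δ with hWdef
  have hsel := SELJ J (gainP C1 (2 * K0) η P) (fun j _ => hgn j) h0 ζ hh0p.le hζ0 hnum N3
    (fun N j => badP C1 K0 a a' b b' B (3 * B * √(η + η)) (P j) N)
    (fun N hN => hN1 N (by omega))
  obtain ⟨X2, hX2⟩ : ∃ X2 : ℕ, ∀ X : ℕ, X2 ≤ X → 1 ≤ log (X : ℝ) ∧ W ≤ δ * log X := by
    have ht : Filter.Tendsto (fun X : ℕ => log (X : ℝ)) Filter.atTop Filter.atTop :=
      Real.tendsto_log_atTop.comp tendsto_natCast_atTop_atTop
    obtain ⟨X2, hX2⟩ := Filter.eventually_atTop.1 (ht.eventually_ge_atTop (max 1 (W / δ)))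
    refine ⟨X2, fun X hX => ⟨(le_max_left _ _).trans (hX2 X hX), ?_⟩⟩
    have h1 := (le_max_right _ _).trans (hX2 X hX)
    rw [div_le_iff₀ hδ0] at h1
    linarith
  refine ⟨∑ i ∈ Finset.range J, P i, X2 + 3, fun X hX s hs => ?_⟩
  obtain ⟨j, hj, hjE⟩ := hsel X (by omega)
  obtain ⟨hl1, hlW⟩ := hX2 X (by omega)
  have hX1' : 1 ≤ X := by omega
  refine ⟨P j, by have := hPmono j; omega,
    Finset.single_le_sum (f := P) (fun i _ => Nat.zero_le _) (Finset.mem_range.2 hj), ?_⟩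
  have hIpos : (0 : ℝ) < ((QQ C1 (P j)).card : ℝ) := by
    have h2 : 2 ≤ P j := hP2.trans (hPmono j)
    refine lt_of_lt_of_le ?_ (hQ (P j) h2)
    have h3 : (2 : ℝ) ≤ P j := by exact_mod_cast h2
    have h4 : 0 < log (P j : ℝ) := Real.log_pos (by linarith)
    positivity
  have hI1 : (1 : ℝ) ≤ (QQ C1 (P j)).card := by
    have : 0 < (QQ C1 (P j)).card := by exact_mod_cast hIpos
    exact_mod_cast this
  have g := pfin_end X hX1' (QQ C1 (P j)) hI1 (fun q hq => (pfin_QQ hq).2.2.1.one_lt.le)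
    (fun N => pairSum 1 a a' b b' N) (fun q N => pairSum q a a' b b' N) s hs Cd δ ζ hCd hδ0 N3
    (fun N => badP C1 K0 a a' b b' B (3 * B * √(η + η)) (P j) N)
    (fun N => pfin_pairSum hdp 1 a a' b b' N) (htriv j) (hgood j hj)
    (le_trans (le_of_eq (Finset.sum_congr (by ext N; simp only [Finset.mem_filter])
      fun _ _ => rfl)) hjE)
  refine g.trans ?_
  have g7 : ∑ q ∈ QQ C1 (P j), 20 * Cd * (1 + log (q : ℝ)) ≤
      ∑ j ∈ Finset.range J, ∑ q ∈ QQ C1 (P j), 20 * Cd * (1 + log (q : ℝ)) :=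
    Finset.single_le_sum (f := fun j => ∑ q ∈ QQ C1 (P j), 20 * Cd * (1 + log (q : ℝ)))
      (fun i _ => Finset.sum_nonneg fun q hq => by
        have : 0 ≤ log (q : ℝ) := Real.log_natCast_nonneg q
        positivity) (Finset.mem_range.2 hj)
  have h1 : 2 * Cd * (ζ * log X) = δ * log X := by
    rw [hζ]
    field_simp
  rw [h1]
  have h2 : ε = 10 * δ := by rw [hδ]; ring
  rw [h2]
  have h3 : 0 ≤ δ * log X := mul_nonneg hδ0.le (by linarith)
  refine add_le_add ?_ le_rfl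
  have h4 : W = (∑ j ∈ Finset.range J, ∑ q ∈ QQ C1 (P j), 20 * Cd * (1 + log (q : ℝ))) +
    2 * Cd * N3 + 4 * δ := hWdef
  linarith

end Pool.Agent.LogCh
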