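import Pool.Agent.Lib.LogCh.Defs

/-!
# Divisors of `n ^ 2 + 1` and pairs of determinant one

`sum_PP`: a sum over the divisors of the numbers `n ^ 2 + 1`, `n ≤ X`, is a quarter of the sum over
the pairs `(u, v)` with determinant one and `1 ≤ ⟨u, v⟩ ≤ X`.
-/

set_option autoImplicit false

namespace Pool.Agent.LogCh

open Real
open Pool.Agent.NSqP
open Pool.Agent.MP484c84Par (ballG mem_ballG crossG dotG)

lemma nN_int (z : GaussianInt) : (nN z : ℤ) = z.re * z.re + z.im * z.im := by
  rw [nN_cast_int, Pool.Agent.MP484c84Par.norm_def']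

lemma dot_cross_nN (u v : GaussianInt) :
    dotG u v ^ 2 + crossG u v ^ 2 = (nN u : ℤ) * nN v := by
  rw [nN_cast_int, nN_cast_int]
  exact Pool.Agent.MP484c84Par.dot_cross u v

theorem exists_edge : ∀ (n d e : ℕ), d * e = n ^ 2 + 1 → ∃ u v : GaussianInt,
    crossG u v = 1 ∧ dotG u v = n ∧ nN u = d ∧ nN v = e := by
  intro n
  induction n using Nat.strong_induction_on with
  | _ n ih =>
    intro d e h
    rcases Nat.eq_zero_or_pos n with h0 | hn
    · subst h0
      have hd : d = 1 := Nat.eq_one_of_mul_eq_one_right (by simpa using h)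
      have he : e = 1 := Nat.eq_one_of_mul_eq_one_left (by simpa using h)
      subst hd he
      refine ⟨⟨1, 0⟩, ⟨0, 1⟩, by simp [crossG], by simp [dotG], by simp [nN, Zsqrtd.norm_def],
        by simp [nN, Zsqrtd.norm_def]⟩
    · have hd0 : 1 ≤ d := by
        rcases Nat.eq_zero_or_pos d with h1 | h1
        · rw [h1] at h; simp at h
        · exact h1
      have he0 : 1 ≤ e := by
        rcases Nat.eq_zero_or_pos e with h1 | h1
        · rw [h1] at h; simp at h
        · exact h1
      rcases le_total d e with hde | hde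
      · have hdn : d ≤ n := by
          by_contra hlt
          push Not at hlt
          have : (n + 1) * (n + 1) ≤ d * e := Nat.mul_le_mul hlt (hlt.trans_le hde)
          nlinarith
        have hz : (d : ℤ) * e = n ^ 2 + 1 := by exact_mod_cast h
        have hpos : 0 < (e : ℤ) + d - 2 * n := by
          have h1 : (d : ℤ) * (e + d - 2 * n) = (n - d) ^ 2 + 1 := by linear_combination hz
          have h2 : 0 < (d : ℤ) * (e + d - 2 * n) := by rw [h1]; positivity
          by_contra hneg
          push Not at hneg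
          have h9 := mul_nonpos_of_nonneg_of_nonpos (Int.natCast_nonneg d) hneg
          linarith
        obtain ⟨e', he'⟩ := Int.eq_ofNat_of_zero_le hpos.le
        have h3 : d * e' = (n - d) ^ 2 + 1 := by
          have : ((d * e' : ℕ) : ℤ) = (((n - d) ^ 2 + 1 : ℕ) : ℤ) := by
            push_cast [Nat.cast_sub hdn]
            rw [show (e' : ℤ) = e + d - 2 * n from he'.symm]
            linear_combination hz
          exact_mod_cast this
        obtain ⟨u, v, h4, h5, h6, h7⟩ := ih (n - d) (by omega) d e' h3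
        have h6' : u.re * u.re + u.im * u.im = d := by rw [← nN_int, h6]
        have h7' : v.re * v.re + v.im * v.im = e + d - 2 * n := by rw [← nN_int, h7, he']
        have h5' : u.re * v.re + u.im * v.im = n - d := by
          have : dotG u v = ((n - d : ℕ) : ℤ) := h5
          rw [Nat.cast_sub hdn] at this
          exact this
        have h4' : u.re * v.im - u.im * v.re = 1 := h4
        refine ⟨u, v + u, ?_, ?_, h6, ?_⟩
        · simp only [crossG, Zsqrtd.re_add, Zsqrtd.im_add]
          linear_combination h4'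
        · simp only [dotG, Zsqrtd.re_add, Zsqrtd.im_add]
          linear_combination h5' + h6'
        · have h8 : (nN (v + u) : ℤ) = e := by
            rw [nN_int]
            simp only [Zsqrtd.re_add, Zsqrtd.im_add]
            linear_combination h7' + 2 * h5' + h6'
          exact_mod_cast h8
      · have hen : e ≤ n := by
          by_contra hlt
          push Not at hlt
          have : (n + 1) * (n + 1) ≤ d * e := Nat.mul_le_mul (hlt.trans_le hde) hlt
          nlinarith
        have hz : (d : ℤ) * e = n ^ 2 + 1 := by exact_mod_cast h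
        have hpos : 0 < (e : ℤ) + d - 2 * n := by
          have h1 : (e : ℤ) * (e + d - 2 * n) = (n - e) ^ 2 + 1 := by linear_combination hz
          have h2 : 0 < (e : ℤ) * (e + d - 2 * n) := by rw [h1]; positivity
          by_contra hneg
          push Not at hneg
          have h9 := mul_nonpos_of_nonneg_of_nonpos (Int.natCast_nonneg e) hneg
          linarith
        obtain ⟨d', hd'⟩ := Int.eq_ofNat_of_zero_le hpos.le
        have h3 : d' * e = (n - e) ^ 2 + 1 := by
          have : ((d' * e : ℕ) : ℤ) = (((n - e) ^ 2 + 1 : ℕ) : ℤ) := by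
            push_cast [Nat.cast_sub hen]
            rw [show (d' : ℤ) = e + d - 2 * n from hd'.symm]
            linear_combination hz
          exact_mod_cast this
        obtain ⟨u, v, h4, h5, h6, h7⟩ := ih (n - e) (by omega) d' e h3
        have h6' : u.re * u.re + u.im * u.im = e + d - 2 * n := by rw [← nN_int, h6, hd']
        have h7' : v.re * v.re + v.im * v.im = e := by rw [← nN_int, h7]
        have h5' : u.re * v.re + u.im * v.im = n - e := by
          have : dotG u v = ((n - e : ℕ) : ℤ) := h5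
          rw [Nat.cast_sub hen] at this
          exact this
        have h4' : u.re * v.im - u.im * v.re = 1 := h4
        refine ⟨u + v, v, ?_, ?_, ?_, h7⟩
        · simp only [crossG, Zsqrtd.re_add, Zsqrtd.im_add]
          linear_combination h4'
        · simp only [dotG, Zsqrtd.re_add, Zsqrtd.im_add]
          linear_combination h5' + h7'
        · have h8 : (nN (u + v) : ℤ) = d := by
            rw [nN_int]
            simp only [Zsqrtd.re_add, Zsqrtd.im_add]
            linear_combination h6' + 2 * h5' + h7'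
          exact_mod_cast h8

/-- the pairs of determinant one with `1 ≤ ⟨u, v⟩ ≤ X` -/
noncomputable def PP (X : ℕ) : Finset (GaussianInt × GaussianInt) :=
  (ballG (X ^ 2 + 1) ×ˢ ballG (X ^ 2 + 1)).filter
    (fun p => crossG p.1 p.2 = 1 ∧ 1 ≤ dotG p.1 p.2 ∧ dotG p.1 p.2 ≤ X)

lemma mem_PP {X : ℕ} {p : GaussianInt × GaussianInt} :
    p ∈ PP X ↔ crossG p.1 p.2 = 1 ∧ 1 ≤ dotG p.1 p.2 ∧ dotG p.1 p.2 ≤ X := by
  unfold PP
  rw [Finset.mem_filter, Finset.mem_product, mem_ballG, mem_ballG]
  constructor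
  · exact fun h => h.2
  · intro h
    refine ⟨?_, h⟩
    have h1 := dot_cross_nN p.1 p.2
    rw [h.1] at h1
    have hu : p.1 ≠ 0 := by rintro h0; rw [h0] at h; simp [crossG] at h
    have hv : p.2 ≠ 0 := by rintro h0; rw [h0] at h; simp [crossG] at h
    have hu1 : (1 : ℤ) ≤ nN p.1 := by exact_mod_cast nN_pos hu
    have hv1 : (1 : ℤ) ≤ nN p.2 := by exact_mod_cast nN_pos hv
    have h2 : dotG p.1 p.2 ^ 2 ≤ (X : ℤ) ^ 2 := by
      apply pow_le_pow_left₀ (by linarith [h.2.1]) h.2.2
    rw [← nN_cast_int, ← nN_cast_int]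
    push_cast
    constructor <;> nlinarith

lemma fiber_card {n d : ℕ} (hn : 1 ≤ n) {X : ℕ} (hX : n ≤ X) (hd : d ∣ n ^ 2 + 1) :
    ((PP X).filter (fun p => dotG p.1 p.2 = n ∧ nN p.1 = d)).card = 4 := by
  classical
  obtain ⟨e, he⟩ := hd
  obtain ⟨u, v, h1, h2, h3, h4⟩ := exists_edge n d e he.symm
  have hu : u ≠ 0 := by rintro h0; rw [h0] at h1; simp [crossG] at h1
  have heq : (PP X).filter (fun p => dotG p.1 p.2 = n ∧ nN p.1 = d) =
      (({⟨1, 0⟩, ⟨-1, 0⟩, ⟨0, 1⟩, ⟨0, -1⟩} : Finset GaussianInt)).image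
        (fun ε => (u * ε, v * ε)) := by
    ext p
    rw [Finset.mem_filter, mem_PP, Finset.mem_image]
    constructor
    · rintro ⟨⟨h5, h6, h7⟩, h8, h9⟩
      have hnorm : u.norm = p.1.norm := by rw [← nN_cast_int, ← nN_cast_int, h3, h9]
      obtain ⟨ε, hε, hε1, hε2⟩ := Pool.Agent.MP484c84Par.fiber_unit hu h1 h5 (h2.trans h8.symm)
        hnorm
      exact ⟨ε, hε, by rw [← hε1, ← hε2]⟩
    · rintro ⟨ε, hε, rfl⟩
      simp only [Finset.mem_insert, Finset.mem_singleton] at hε
      have key : crossG (u * ε) (v * ε) = crossG u v ∧ dotG (u * ε) (v * ε) = dotG u v ∧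
          nN (u * ε) = nN u := by
        rcases hε with rfl | rfl | rfl | rfl
        · refine ⟨?_, ?_, ?_⟩
          · simp only [crossG, Zsqrtd.re_mul, Zsqrtd.im_mul]; ring
          · simp only [dotG, Zsqrtd.re_mul, Zsqrtd.im_mul]; ring
          · rw [nN_mul]; simp [nN, Zsqrtd.norm_def]
        · refine ⟨?_, ?_, ?_⟩
          · simp only [crossG, Zsqrtd.re_mul, Zsqrtd.im_mul]; ring
          · simp only [dotG, Zsqrtd.re_mul, Zsqrtd.im_mul]; ring
          · rw [nN_mul]; simp [nN, Zsqrtd.norm_def]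
        · refine ⟨?_, ?_, ?_⟩
          · simp only [crossG, Zsqrtd.re_mul, Zsqrtd.im_mul]; ring
          · simp only [dotG, Zsqrtd.re_mul, Zsqrtd.im_mul]; ring
          · rw [nN_mul]; simp [nN, Zsqrtd.norm_def]
        · refine ⟨?_, ?_, ?_⟩
          · simp only [crossG, Zsqrtd.re_mul, Zsqrtd.im_mul]; ring
          · simp only [dotG, Zsqrtd.re_mul, Zsqrtd.im_mul]; ring
          · rw [nN_mul]; simp [nN, Zsqrtd.norm_def]
      obtain ⟨k1, k2, k3⟩ := key
      rw [k1, k2, k3, h1, h2, h3]
      exact ⟨⟨rfl, by exact_mod_cast hn, by exact_mod_cast hX⟩, rfl, rfl⟩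
  rw [heq, Finset.card_image_of_injOn]
  · decide
  · intro ε _ ε' _ hee
    simp only [Prod.mk.injEq] at hee
    exact mul_left_cancel₀ hu hee.1

theorem sum_PP (X : ℕ) (φ : ℕ → ℕ → ℝ) :
    ∑ p ∈ PP X, φ (dotG p.1 p.2).toNat (nN p.1) =
      4 * ∑ n ∈ Finset.Icc 1 X, ∑ d ∈ (n ^ 2 + 1).divisors, φ n d := by
  classical
  have hs : ∑ n ∈ Finset.Icc 1 X, ∑ d ∈ (n ^ 2 + 1).divisors, φ n d =
      ∑ x ∈ (Finset.Icc 1 X).sigma (fun n => (n ^ 2 + 1).divisors), φ x.1 x.2 :=
    (Finset.sum_sigma (Finset.Icc 1 X) (fun n => (n ^ 2 + 1).divisors)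
      (fun x : (_ : ℕ) × ℕ => φ x.1 x.2)).symm
  rw [hs]
  have hmaps : ∀ p ∈ PP X, (⟨(dotG p.1 p.2).toNat, nN p.1⟩ : (_ : ℕ) × ℕ) ∈
      (Finset.Icc 1 X).sigma (fun n => (n ^ 2 + 1).divisors) := by
    intro p hp
    rw [mem_PP] at hp
    obtain ⟨n, hn⟩ := Int.eq_ofNat_of_zero_le (show 0 ≤ dotG p.1 p.2 by linarith [hp.2.1])
    have h1 := dot_cross_nN p.1 p.2
    rw [hp.1, hn] at h1
    rw [hn] at hp
    rw [Finset.mem_sigma, Finset.mem_Icc, Nat.mem_divisors, hn]
    simp only [Int.toNat_natCast]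
    refine ⟨⟨by exact_mod_cast hp.2.1, by exact_mod_cast hp.2.2⟩, ?_, by positivity⟩
    refine ⟨nN p.2, ?_⟩
    have : ((n ^ 2 + 1 : ℕ) : ℤ) = ((nN p.1 * nN p.2 : ℕ) : ℤ) := by
      push_cast
      linarith
    exact_mod_cast this
  rw [← Finset.sum_fiberwise_of_maps_to hmaps, Finset.mul_sum]
  refine Finset.sum_congr rfl ?_
  rintro ⟨n, d⟩ hnd
  rw [Finset.mem_sigma, Finset.mem_Icc, Nat.mem_divisors] at hnd
  have hfil : (PP X).filter (fun p => (⟨(dotG p.1 p.2).toNat, nN p.1⟩ : (_ : ℕ) × ℕ) = ⟨n, d⟩) =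
      (PP X).filter (fun p => dotG p.1 p.2 = n ∧ nN p.1 = d) := by
    refine Finset.filter_congr fun p hp => ?_
    rw [mem_PP] at hp
    simp only [Sigma.mk.injEq, heq_eq_eq]
    constructor
    · rintro ⟨h1, h2⟩
      refine ⟨?_, h2⟩
      have := hp.2.1
      omega
    · rintro ⟨h1, h2⟩
      refine ⟨?_, h2⟩
      omega
  rw [hfil]
  have hconst : ∀ p ∈ (PP X).filter (fun p => dotG p.1 p.2 = n ∧ nN p.1 = d),
      φ (dotG p.1 p.2).toNat (nN p.1) = φ n d := by
    intro p hp
    rw [Finset.mem_filter] at hp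
    rw [hp.2.1, hp.2.2, Int.toNat_natCast]
  rw [Finset.sum_congr rfl hconst, Finset.sum_const, fiber_card hnd.1.1 hnd.1.2 hnd.2.1,
    nsmul_eq_mul]
  norm_num

end Pool.Agent.LogCh
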