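import Pool.Agent.Lib.LogCh.DPC
import Pool.Agent.Lib.LogCh.ZPair
import Pool.Agent.Lib.NSqP.PC

/-!
# A positive proportion: lower bound for the number of balanced factorizations of `n ^ 2 + 1`
-/

set_option autoImplicit false

namespace Pool.Agent.LogCh

open Real
open Pool.Agent.NSqP
open Pool.Agent.MP484c84Par (ballG mem_ballG crossG dotG)

/-- the number of pairs `(n, d)`, `n ≤ x`, `d ∣ n ^ 2 + 1`, `α n < d ≤ β n`, is `≥ c x` -/
theorem mass_lower (α β : ℝ) (hα : 0 < α) (hαβ : α < β) : ∃ c : ℝ, 0 < c ∧ ∃ x0 : ℕ, ∀ x : ℕ,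
    x0 ≤ x → c * x ≤ ∑ n ∈ Finset.Icc 1 x,
      (((n ^ 2 + 1).divisors.filter (fun d : ℕ => α * n < d ∧ (d : ℝ) ≤ β * n)).card : ℝ) := by
  classical
  have hβ : 0 < β := hα.trans hαβ
  have hinv : 1 / β < 1 / α := one_div_lt_one_div_of_lt hα hαβ
  set s : ℝ := 1 / β with hs
  set t : ℝ := min ((1 / α + 1 / β) / 2) (1 / β + 1) with ht
  have hs0 : 0 < s := by positivity
  have hst : s < t := lt_min (by linarith) (by linarith)
  have htα : t < 1 / α := (min_le_left _ _).trans_lt (by linarith)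
  have ht1 : t ≤ s + 1 := min_le_right _ _
  have ht0 : 0 < t := hs0.trans hst
  obtain ⟨Y0, hY0⟩ := PCC 1 le_rfl ((t - s) / 2) (by linarith)
  obtain ⟨C, hC, hcard⟩ := card_pann
  -- threshold
  set Y1 : ℝ := max (max Y0 1) ((10 * C) ^ 4) with hY1
  refine ⟨(t - s) / (4 * t), by have : 0 < t - s := by linarith
                                positivity, ⌈t * Y1⌉₊ + 1, fun x hx => ?_⟩
  have hx1 : t * Y1 ≤ x := (Nat.le_ceil _).trans (by exact_mod_cast (by omega : ⌈t * Y1⌉₊ ≤ x))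
  set Y : ℝ := x / t with hY
  have hYY1 : Y1 ≤ Y := by rw [hY, le_div_iff₀ ht0]; linarith
  have hYY0 : Y0 ≤ Y := (le_max_left _ _).trans ((le_max_left _ _).trans hYY1)
  have hY1' : 1 ≤ Y := (le_max_right _ _).trans ((le_max_left _ _).trans hYY1)
  have hYC : (10 * C) ^ 4 ≤ Y := (le_max_right _ _).trans hYY1
  have hYp : 0 < Y := by linarith
  -- many primitive elements
  have hp : (3 / 2) * Y ≤ ((pann 0 Y).card : ℝ) := by
    have h1 := hcard 0 Y le_rfl hYp.le hY1'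
    have h2 : C * Y ^ ((3 : ℝ) / 4) ≤ Y / 10 := by
      have h3 : Y = Y ^ ((3 : ℝ) / 4) * Y ^ ((1 : ℝ) / 4) := by
        rw [← rpow_add hYp]; norm_num
      have h4 : 10 * C ≤ Y ^ ((1 : ℝ) / 4) := by
        have h5 : ((10 * C) ^ 4) ^ ((1 : ℝ) / 4) ≤ Y ^ ((1 : ℝ) / 4) :=
          rpow_le_rpow (by positivity) hYC (by norm_num)
        rwa [← rpow_natCast (10 * C) 4, ← rpow_mul (by positivity), show ((4 : ℕ) : ℝ) * (1 / 4) = 1
          by norm_num, rpow_one] at h5
      have h6 : 0 ≤ Y ^ ((3 : ℝ) / 4) := by positivity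
      calc C * Y ^ ((3 : ℝ) / 4) = (Y ^ ((3 : ℝ) / 4) * (10 * C)) / 10 := by ring
        _ ≤ (Y ^ ((3 : ℝ) / 4) * Y ^ ((1 : ℝ) / 4)) / 10 := by gcongr
        _ = Y / 10 := by rw [← h3]
    have h7 := Real.pi_gt_d2
    nlinarith
  have hP := hY0 Y hYY0 1 0 (by simp) 0 Y le_rfl hYp.le le_rfl s t hst.le ht1
  set Z := (pann 0 Y).filter (fun z => ((1 : ℕ) : GaussianInt) ∣ z - 1 ∧ Win 1 0 s t z) with hZ
  have hfull : ((pann 0 Y).filter (fun z => ((1 : ℕ) : GaussianInt) ∣ z - 1)) = pann 0 Y := by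
    refine Finset.filter_true_of_mem (fun z _ => ?_)
    simp
  rw [hfull] at hP
  have hZc : (t - s) * Y ≤ (Z.card : ℝ) := by
    have h1 := (abs_le.1 hP).1
    have h2 : (t - s) * ((3 / 2) * Y) ≤ (t - s) * ((pann 0 Y).card : ℝ) :=
      mul_le_mul_of_nonneg_left hp (by linarith)
    nlinarith
  -- injection into the pairs
  set φ : ℕ → ℕ → ℝ := fun n d => if α * n < d ∧ (d : ℝ) ≤ β * n then 1 else 0 with hφ
  have hsum := sum_PP x φ
  have hle : (Z.card : ℝ) ≤ ∑ p ∈ PP x, φ (dotG p.1 p.2).toNat (nN p.1) := by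
    have h1 : ∑ p ∈ PP x, φ (dotG p.1 p.2).toNat (nN p.1) =
        (((PP x).filter (fun p => α * ((dotG p.1 p.2).toNat : ℕ) < nN p.1 ∧
          (nN p.1 : ℝ) ≤ β * ((dotG p.1 p.2).toNat : ℕ))).card : ℝ) := by
      rw [Finset.card_filter]
      push_cast
      rfl
    rw [h1]
    refine Nat.cast_le.2 ?_
    have h2 : Z ⊆ ((PP x).filter (fun p => α * ((dotG p.1 p.2).toNat : ℕ) < nN p.1 ∧
          (nN p.1 : ℝ) ≤ β * ((dotG p.1 p.2).toNat : ℕ))).image Prod.fst := by
      intro z hz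
      rw [hZ, Finset.mem_filter, mem_pann hYp.le] at hz
      obtain ⟨⟨⟨hz1, hz2⟩, hzp⟩, _, w, hw, hw1, hw2⟩ := hz
      have hcr : crossG z w = 1 := hw.1
      have hn : (0 : ℝ) < nN z := by exact_mod_cast nN_pos (prim_ne_zero hzp)
      rw [Nat.cast_one, one_mul] at hw1 hw2
      have hd0 : (0 : ℝ) < (dotG z w : ℝ) := lt_trans (by positivity) hw1
      have hd0' : 0 < dotG z w := by exact_mod_cast hd0
      have hdn : (((dotG z w).toNat : ℕ) : ℝ) = (dotG z w : ℝ) := by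
        have : (((dotG z w).toNat : ℕ) : ℤ) = dotG z w := Int.toNat_of_nonneg hd0'.le
        exact_mod_cast this
      rw [Finset.mem_image]
      refine ⟨(z, w), ?_, rfl⟩
      rw [Finset.mem_filter, mem_PP]
      refine ⟨⟨hcr, hd0', ?_⟩, ?_, ?_⟩
      · have h3 : (dotG z w : ℝ) ≤ x := by
          calc (dotG z w : ℝ) ≤ t * nN z := hw2
            _ ≤ t * Y := by gcongr
            _ = x := by rw [hY]; field_simp
        exact_mod_cast h3
      · simp only
        rw [hdn]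
        have h4 : (dotG z w : ℝ) < 1 / α * nN z := lt_of_le_of_lt hw2
          (mul_lt_mul_of_pos_right htα hn)
        rw [one_div, inv_mul_eq_div, lt_div_iff₀ hα] at h4
        linarith
      · simp only
        rw [hdn]
        have h5 : 1 / β * (nN z : ℝ) < dotG z w := hw1
        rw [one_div, inv_mul_eq_div, div_lt_iff₀ hβ] at h5
        linarith
    exact (Finset.card_le_card h2).trans Finset.card_image_le
  rw [hsum] at hle
  have hrw : ∑ n ∈ Finset.Icc 1 x, ∑ d ∈ (n ^ 2 + 1).divisors, φ n d =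
      ∑ n ∈ Finset.Icc 1 x,
      (((n ^ 2 + 1).divisors.filter (fun d : ℕ => α * n < d ∧ (d : ℝ) ≤ β * n)).card : ℝ) := by
    refine Finset.sum_congr rfl (fun n _ => ?_)
    rw [Finset.card_filter]
    push_cast
    rfl
  rw [hrw] at hle
  have hfin : (t - s) / (4 * t) * x = (t - s) * Y / 4 := by
    rw [hY]; field_simp
  rw [hfin]
  linarith

end Pool.Agent.LogCh
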