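import Pool.Agent.Lib.LogCh.ZLogc
import Pool.Agent.Lib.LogCh.SDefs

/-!
# Cancellation over pairs of determinant one at almost all scales, from `DECRSStmt` and `MAINBSStmt`
-/

set_option autoImplicit false

namespace Pool.Agent.LogCh

open Real
open Pool.Agent.NSqP
open Pool.Agent.MP484c84Par (ballG mem_ballG crossG dotG)

/-- summation of a bound `η / N` valid for large `N`, uniformly over finitely many `P` -/
lemma sum_of_large (f : ℕ → ℕ → ℝ) (hf0 : ∀ P N, 0 ≤ f P N) (P0 P1 : ℕ) (N0 : ℕ → ℕ) (η : ℝ)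
    (hη : 0 ≤ η) (h : ∀ P, P0 ≤ P → ∀ N, N0 P ≤ N → 1 ≤ N → f P N ≤ η * (1 / N)) :
    ∃ B : ℝ, 0 ≤ B ∧ ∀ P, P0 ≤ P → P ≤ P1 → ∀ X : ℕ,
      ∑ N ∈ Finset.Icc 1 X, f P N ≤ B + η * (1 + log X) := by
  set N1 : ℕ := (Finset.Icc P0 P1).sup N0 with hN1
  refine ⟨∑ P ∈ Finset.Icc P0 P1, ∑ N ∈ Finset.Icc 1 N1, f P N,
    Finset.sum_nonneg fun P _ => Finset.sum_nonneg fun N _ => hf0 P N, fun P hPP0 hPP1 X => ?_⟩
  have hPmem : P ∈ Finset.Icc P0 P1 := Finset.mem_Icc.2 ⟨hPP0, hPP1⟩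
  have h2 : ∀ N ∈ Finset.Icc 1 X, f P N ≤ (if N ≤ N1 then f P N else 0) + η * (1 / N) := by
    intro N hN
    have hN1' : 1 ≤ N := (Finset.mem_Icc.1 hN).1
    by_cases h' : N ≤ N1
    · rw [if_pos h']
      have : 0 ≤ η * (1 / (N : ℝ)) := by positivity
      linarith
    · rw [if_neg h', zero_add]
      push Not at h'
      exact h P hPP0 N ((Finset.le_sup hPmem).trans h'.le) hN1'
  refine (Finset.sum_le_sum h2).trans ?_
  rw [Finset.sum_add_distrib, ← Finset.mul_sum]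
  have h4 : ∑ N ∈ Finset.Icc 1 X, (if N ≤ N1 then f P N else 0) ≤
      ∑ P ∈ Finset.Icc P0 P1, ∑ N ∈ Finset.Icc 1 N1, f P N := by
    rw [← Finset.sum_filter]
    have h5 : ∑ N ∈ (Finset.Icc 1 X).filter (fun N => N ≤ N1), f P N ≤
        ∑ N ∈ Finset.Icc 1 N1, f P N := by
      apply Finset.sum_le_sum_of_subset_of_nonneg
      · intro N hN
        rw [Finset.mem_filter, Finset.mem_Icc] at hN
        exact Finset.mem_Icc.2 ⟨hN.1.1, hN.2⟩
      · exact fun N _ _ => hf0 P N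
    refine h5.trans ?_
    exact Finset.single_le_sum (f := fun P => ∑ N ∈ Finset.Icc 1 N1, f P N)
      (fun P _ => Finset.sum_nonneg fun N _ => hf0 P N) hPmem
  have h7 := mul_le_mul_of_nonneg_left (sum_inv_Icc_le X) hη
  linarith

theorem LOGSp (hDECRS : DECRSStmt) (hMAINBS : MAINBSStmt) : LOGSStmt := by
  classical
  intro a a' b b' ha haa ha1 hb hbb hb1 ε hε
  obtain ⟨C1, hC1, c, hc, hQ⟩ := QQ_lower
  obtain ⟨P0, hP0⟩ := hMAINBS C1 c hC1 hc hQ a a' b b' ha haa ha1 hb hbb hb1 (ε / 8) (by linarith)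
  obtain ⟨P1, X0, hX0⟩ := hDECRS C1 c hC1 hc hQ a a' b b' ha haa ha1 hb hbb hb1 (ε / 4)
    (by linarith) P0
  choose! N0 hN0 using hP0
  set s : ℕ → ℝ := fun N => if 0 ≤ pairSum 1 a a' b b' N then 1 else -1 with hs
  have hs1 : ∀ N, |s N| ≤ 1 := by
    intro N
    simp only [hs]
    split_ifs <;> simp
  have hsabs : ∀ N, s N * pairSum 1 a a' b b' N = |pairSum 1 a a' b b' N| := by
    intro N
    simp only [hs]
    split_ifs with h
    · rw [abs_of_nonneg h, one_mul]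
    · push Not at h
      rw [abs_of_neg h]
      ring
  set f : ℕ → ℕ → ℝ := fun P N => |∑ q ∈ QQ C1 P, s (N / q) * pairSum q a a' b b' N| /
    ((N : ℝ) ^ 2 * (QQ C1 P).card) with hf
  have hf0 : ∀ P N, 0 ≤ f P N := fun P N => by simp only [hf]; positivity
  have hlarge : ∀ P, P0 ≤ P → ∀ N, N0 P ≤ N → 1 ≤ N → f P N ≤ ε / 4 * (1 / N) := by
    intro P hP N hN hN1
    have hNpos : (0 : ℝ) < N := by exact_mod_cast hN1
    set A1 : Finset ℕ := (QQ C1 P).filter (fun q => s (N / q) = 1) with hA1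
    set A2 : Finset ℕ := (QQ C1 P).filter (fun q => ¬ s (N / q) = 1) with hA2
    have k1 := hN0 P hP N hN A1 (Finset.filter_subset _ _)
    have k2 := hN0 P hP N hN A2 (Finset.filter_subset _ _)
    have k3 : ∑ q ∈ QQ C1 P, s (N / q) * pairSum q a a' b b' N =
        ∑ q ∈ A1, pairSum q a a' b b' N - ∑ q ∈ A2, pairSum q a a' b b' N := by
      rw [← Finset.sum_filter_add_sum_filter_not (QQ C1 P) (fun q => s (N / q) = 1), ← hA1, ← hA2,
        sub_eq_add_neg, ← Finset.sum_neg_distrib]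
      congr 1
      · refine Finset.sum_congr rfl fun q hq => ?_
        rw [hA1, Finset.mem_filter] at hq
        rw [hq.2, one_mul]
      · refine Finset.sum_congr rfl fun q hq => ?_
        rw [hA2, Finset.mem_filter] at hq
        have : s (N / q) = -1 := by
          have h := hq.2
          simp only [hs] at h ⊢
          split_ifs at h ⊢ with h'
          · exact absurd rfl h
          · rfl
        rw [this]
        ring
    have k4 : |∑ q ∈ QQ C1 P, s (N / q) * pairSum q a a' b b' N| ≤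
        ε / 4 * N * (QQ C1 P).card := by
      rw [k3]
      refine (abs_sub _ _).trans ?_
      have : ε / 4 * N * ((QQ C1 P).card : ℝ) =
        ε / 8 * N * (QQ C1 P).card + ε / 8 * N * (QQ C1 P).card := by ring
      rw [this]
      exact add_le_add k1 k2
    simp only [hf]
    rcases Nat.eq_zero_or_pos (QQ C1 P).card with h0 | h0
    · rw [h0]
      simp only [Nat.cast_zero, mul_zero, div_zero]
      positivity
    · have h0' : (0 : ℝ) < (QQ C1 P).card := by exact_mod_cast h0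
      rw [div_le_iff₀ (by positivity)]
      refine k4.trans (le_of_eq ?_)
      field_simp
  obtain ⟨B, hB0, hB⟩ := sum_of_large f hf0 P0 P1 N0 (ε / 4) (by linarith) hlarge
  refine ⟨max (max X0 1) ⌈exp (2 * (B + ε / 4) / ε)⌉₊, fun X hX => ?_⟩
  have hXX0 : X0 ≤ X := le_trans (le_trans (le_max_left _ _) (le_max_left _ _)) hX
  have hXe : exp (2 * (B + ε / 4) / ε) ≤ X :=
    (Nat.le_ceil _).trans (by exact_mod_cast le_trans (le_max_right _ _) hX)
  have hlog : 2 * (B + ε / 4) / ε ≤ log X := by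
    rw [← log_exp (2 * (B + ε / 4) / ε)]
    exact log_le_log (exp_pos _) hXe
  obtain ⟨P, hPP0, hPP1, hP⟩ := hX0 X hXX0 s hs1
  have h1 := hB P hPP0 hPP1 X
  have h2 : ∑ N ∈ Finset.Icc 1 X, s N * pairSum 1 a a' b b' N / (N : ℝ) ^ 2 =
      ∑ N ∈ Finset.Icc 1 X, |pairSum 1 a a' b b' N| / (N : ℝ) ^ 2 :=
    Finset.sum_congr rfl fun N _ => by rw [hsabs]
  rw [h2] at hP
  refine (le_abs_self _).trans (hP.trans ?_)
  have h8 : 2 * (B + ε / 4) ≤ ε * log X := by
    rw [div_le_iff₀ hε] at hlog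
    linarith
  have h9 : ∑ N ∈ Finset.Icc 1 X, |∑ q ∈ QQ C1 P, s (N / q) * pairSum q a a' b b' N| /
      ((N : ℝ) ^ 2 * (QQ C1 P).card) ≤ B + ε / 4 * (1 + log X) := h1
  linarith

end Pool.Agent.LogCh
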