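import Mathlib

/-!
# Sums of `1 / N ^ 2` over intervals
-/

set_option autoImplicit false

namespace Pool.Agent.LogCh

open Real

lemma sum_Ico_sq_ge (k l : ℕ) (hk : 1 ≤ k) (hkl : k ≤ l) :
    1 / (k : ℝ) - 1 / l ≤ ∑ N ∈ Finset.Ico k l, 1 / (N : ℝ) ^ 2 := by
  induction l, hkl using Nat.le_induction with
  | base => simp
  | succ l hl ih =>
    rw [Finset.sum_Ico_succ_top hl]
    have hl0 : (1 : ℝ) ≤ l := by exact_mod_cast hk.trans hl
    have h1 : 1 / (l : ℝ) - 1 / ((l + 1 : ℕ) : ℝ) ≤ 1 / (l : ℝ) ^ 2 := by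
      push_cast
      rw [div_sub_div _ _ (by linarith) (by linarith), div_le_div_iff₀ (by positivity)
        (by positivity)]
      nlinarith
    linarith

lemma sum_Ico_sq_le (k l : ℕ) (hk : 1 ≤ k) (hkl : k < l) :
    ∑ N ∈ Finset.Ico k l, 1 / (N : ℝ) ^ 2 ≤ 1 / (k : ℝ) ^ 2 + 1 / k - 1 / ((l : ℝ) - 1) := by
  induction l, hkl using Nat.le_induction with
  | base =>
    rw [Finset.sum_Ico_succ_top le_rfl, Finset.Ico_self, Finset.sum_empty]
    push_cast
    simp
  | succ l hl ih =>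
    rw [Finset.sum_Ico_succ_top (by omega)]
    have hl0 : (2 : ℝ) ≤ l := by
      have : 2 ≤ l := by omega
      exact_mod_cast this
    have h1 : 1 / (l : ℝ) ^ 2 ≤ 1 / ((l : ℝ) - 1) - 1 / (((l + 1 : ℕ) : ℝ) - 1) := by
      push_cast
      rw [add_sub_cancel_right, div_sub_div _ _ (by linarith) (by linarith),
        div_le_div_iff₀ (by positivity) (mul_pos (by linarith) (by linarith))]
      nlinarith
    linarith

theorem sum_sq_interval (A B : ℝ) (X : ℕ) (hA : 1 ≤ A) (hB : 0 < B) (T : Finset ℕ)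
    (hT : ∀ N, N ∈ T ↔ (1 ≤ N ∧ N ≤ X) ∧ A ≤ N ∧ (N : ℝ) < B) :
    0 ≤ ∑ N ∈ T, 1 / (N : ℝ) ^ 2 ∧ ∑ N ∈ T, 1 / (N : ℝ) ^ 2 ≤ 2 / A ∧
      (B ≤ X → |∑ N ∈ T, 1 / (N : ℝ) ^ 2 - max 0 (1 / A - 1 / B)| ≤ 1 / A ^ 2) := by
  have hA0 : 0 < A := by linarith
  set k : ℕ := ⌈A⌉₊ with hk
  set l : ℕ := ⌈B⌉₊ with hl
  have hkA : A ≤ k := Nat.le_ceil A
  have hkA' : (k : ℝ) < A + 1 := Nat.ceil_lt_add_one hA0.le
  have hk1 : 1 ≤ k := by
    have : (1 : ℝ) ≤ k := hA.trans hkA
    exact_mod_cast this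
  have hlB : B ≤ l := Nat.le_ceil B
  have hlB' : (l : ℝ) - 1 < B := by
    have := Nat.ceil_lt_add_one hB.le
    rw [← hl] at this
    linarith
  have hsub : T ⊆ Finset.Ico k l := by
    intro N hN
    rw [hT] at hN
    rw [Finset.mem_Ico]
    exact ⟨Nat.ceil_le.2 hN.2.1, Nat.lt_ceil.2 hN.2.2⟩
  have hnn : ∀ N ∈ Finset.Ico k l, 0 ≤ 1 / (N : ℝ) ^ 2 := fun N _ => by positivity
  have hA2 : 1 / A ^ 2 ≤ 1 / A := by
    apply one_div_le_one_div_of_le hA0
    nlinarith
  have hkpos : (0 : ℝ) < k := by exact_mod_cast hk1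
  have h1k : 1 / (k : ℝ) ≤ 1 / A := one_div_le_one_div_of_le hA0 hkA
  have h1k2 : 1 / (k : ℝ) ^ 2 ≤ 1 / A ^ 2 :=
    one_div_le_one_div_of_le (by positivity) (pow_le_pow_left₀ hA0.le hkA 2)
  refine ⟨Finset.sum_nonneg fun N _ => by positivity, ?_, ?_⟩
  · refine (Finset.sum_le_sum_of_subset_of_nonneg hsub fun N hN _ => hnn N hN).trans ?_
    rcases Nat.lt_or_ge k l with h | h
    · refine (sum_Ico_sq_le k l hk1 h).trans ?_
      have h2 : 0 ≤ 1 / ((l : ℝ) - 1) := by
        have : (k : ℝ) + 1 ≤ l := by exact_mod_cast h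
        apply one_div_nonneg.2
        linarith
      have h3 : (2 : ℝ) / A = 1 / A + 1 / A := by ring
      linarith
    · rw [Finset.Ico_eq_empty_of_le h, Finset.sum_empty]
      positivity
  · intro hBX
    have hlX : l ≤ X := by rw [hl]; exact Nat.ceil_le.2 hBX
    have hTeq : T = Finset.Ico k l := by
      apply Finset.Subset.antisymm hsub
      intro N hN
      rw [Finset.mem_Ico] at hN
      rw [hT]
      exact ⟨⟨by omega, by omega⟩, Nat.ceil_le.1 hN.1, Nat.lt_ceil.1 hN.2⟩
    rw [hTeq]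
    have hAA : 1 / A - 1 / (A + 1) ≤ 1 / A ^ 2 := by
      rw [div_sub_div _ _ (by linarith) (by linarith), div_le_div_iff₀ (by positivity)
        (by positivity)]
      nlinarith
    rcases Nat.lt_or_ge k l with h | h
    · have hkl : (k : ℝ) ≤ (l : ℝ) - 1 := by
        have : (k : ℝ) + 1 ≤ l := by exact_mod_cast h
        linarith
      have hAB : A < B := by linarith
      have h2 : 0 ≤ 1 / A - 1 / B := by
        rw [sub_nonneg]
        exact one_div_le_one_div_of_le hA0 hAB.le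
      rw [max_eq_right h2, abs_le]
      have h3 := sum_Ico_sq_ge k l hk1 h.le
      have h4 := sum_Ico_sq_le k l hk1 h
      have h5 : 1 / (l : ℝ) ≤ 1 / B := one_div_le_one_div_of_le hB hlB
      have h6 : 1 / (A + 1) ≤ 1 / (k : ℝ) := one_div_le_one_div_of_le hkpos hkA'.le
      have h7 : 1 / B ≤ 1 / ((l : ℝ) - 1) := one_div_le_one_div_of_le (by linarith) hlB'.le
      constructor <;> linarith
    · rw [Finset.Ico_eq_empty_of_le h, Finset.sum_empty, zero_sub, abs_neg,
        abs_of_nonneg (le_max_left _ _)]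
      apply max_le (by positivity)
      have h2 : B ≤ A + 1 := by
        have : (l : ℝ) ≤ k := by exact_mod_cast h
        linarith
      have h3 : 1 / (A + 1) ≤ 1 / B := one_div_le_one_div_of_le hB h2
      linarith

/-- the weight of a cell -/
noncomputable def qc (a a' b b' S : ℝ) : ℝ := max 0 (min (a' / S) (b' * S) - max (a / S) (b * S))

lemma abs_min_sub_min (x y y' : ℝ) : |min x y - min x y'| ≤ |y - y'| := by
  have := abs_min_sub_min_le_max x y x y'
  simpa using this

lemma abs_max_sub_max (x y y' : ℝ) : |max x y - max x y'| ≤ |y - y'| := by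
  have := abs_max_sub_max_le_max x y x y'
  simpa using this

/-- replacing `t = (n² + 1) / s` by `n² / s` -/
theorem weight_compare {a a' b b' n s t S0 : ℝ} (hb : 0 < b) (hbb : b ≤ b')
    (hb1 : b' ≤ 1) (hn : 1 ≤ n) (hs : 0 < s) (ht : 0 < t) (hst : s * t = n ^ 2 + 1)
    (hS : s ≤ S0 * n) (ha : 0 < a) (haa : a ≤ a') :
    |max 0 (1 / max (s / a') (t / b') - 1 / min (s / a) (t / b)) - qc a a' b b' (s / n) / n| ≤
      2 * S0 / n ^ 2 := by
  have hb0' : 0 < b' := hb.trans_le hbb
  have ha0' : 0 < a' := ha.trans_le haa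
  have hn0 : 0 < n := by linarith
  have e1 : 1 / max (s / a') (t / b') = min (a' / s) (b' / t) := by
    rw [one_div]
    rcases le_total (s / a') (t / b') with h | h
    · rw [max_eq_right h, inv_div]
      symm
      apply min_eq_right
      rw [← inv_div, ← inv_div s a']
      exact inv_anti₀ (by positivity) h
    · rw [max_eq_left h, inv_div]
      symm
      apply min_eq_left
      rw [← inv_div, ← inv_div t b']
      exact inv_anti₀ (by positivity) h
  have e2 : 1 / min (s / a) (t / b) = max (a / s) (b / t) := by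
    rw [one_div]
    rcases le_total (s / a) (t / b) with h | h
    · rw [min_eq_left h, inv_div]
      symm
      apply max_eq_left
      rw [← inv_div, ← inv_div s a]
      exact inv_anti₀ (by positivity) h
    · rw [min_eq_right h, inv_div]
      symm
      apply max_eq_right
      rw [← inv_div, ← inv_div t b]
      exact inv_anti₀ (by positivity) h
  have e3 : qc a a' b b' (s / n) / n =
      max 0 (min (a' / s) (b' * s / n ^ 2) - max (a / s) (b * s / n ^ 2)) := by
    unfold qc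
    rw [← max_div_div_right hn0.le, zero_div, sub_div, ← min_div_div_right hn0.le,
      ← max_div_div_right hn0.le]
    congr 3 <;> field_simp
  rw [e1, e2, e3]
  have h1 : |b' / t - b' * s / n ^ 2| ≤ S0 / n ^ 2 := by
    have hs0 : s ≠ 0 := hs.ne'
    have ht' : t = (n ^ 2 + 1) / s := by field_simp; linarith
    rw [ht']
    have h2 : b' / ((n ^ 2 + 1) / s) - b' * s / n ^ 2 = -(b' * s / (n ^ 2 * (n ^ 2 + 1))) := by
      field_simp
      ring
    rw [h2, abs_neg, abs_of_nonneg (by positivity), div_le_div_iff₀ (by positivity)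
      (by positivity)]
    have h3 : b' * s ≤ S0 * n := by nlinarith
    have h4 : n ≤ n ^ 2 + 1 := by nlinarith
    have h5 : 0 ≤ S0 := by
      by_contra hcon
      push Not at hcon
      nlinarith
    calc b' * s * n ^ 2 ≤ S0 * n * n ^ 2 := by
          exact mul_le_mul_of_nonneg_right h3 (by positivity)
      _ ≤ S0 * (n ^ 2 + 1) * n ^ 2 := by
          apply mul_le_mul_of_nonneg_right _ (by positivity)
          exact mul_le_mul_of_nonneg_left h4 h5
      _ = S0 * (n ^ 2 * (n ^ 2 + 1)) := by ring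
  have h2 : |b / t - b * s / n ^ 2| ≤ S0 / n ^ 2 := by
    have h3 : b / t - b * s / n ^ 2 = (b / b') * (b' / t - b' * s / n ^ 2) := by
      field_simp
    rw [h3, abs_mul, abs_of_nonneg (by positivity)]
    have h4 : b / b' ≤ 1 := (div_le_one hb0').2 hbb
    calc b / b' * |b' / t - b' * s / n ^ 2| ≤ 1 * |b' / t - b' * s / n ^ 2| :=
          mul_le_mul_of_nonneg_right h4 (abs_nonneg _)
      _ ≤ S0 / n ^ 2 := by rw [one_mul]; exact h1
  have h3 := abs_min_sub_min (a' / s) (b' / t) (b' * s / n ^ 2)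
  have h4 := abs_max_sub_max (a / s) (b / t) (b * s / n ^ 2)
  refine (abs_max_sub_max 0 _ _).trans ?_
  have h5 : min (a' / s) (b' / t) - max (a / s) (b / t) -
      (min (a' / s) (b' * s / n ^ 2) - max (a / s) (b * s / n ^ 2)) =
      (min (a' / s) (b' / t) - min (a' / s) (b' * s / n ^ 2)) -
      (max (a / s) (b / t) - max (a / s) (b * s / n ^ 2)) := by ring
  rw [h5]
  refine (abs_sub _ _).trans ?_
  have h6 : 2 * S0 / n ^ 2 = S0 / n ^ 2 + S0 / n ^ 2 := by ring
  rw [h6]
  exact add_le_add (h3.trans h1) (h4.trans h2)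

end Pool.Agent.LogCh
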