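import Pool.Agent.Lib.LogCh.ZCount
import Pool.Agent.Lib.LogCh.ZSq

/-!
# The averaged sum over cells as a weighted sum over pairs
-/

set_option autoImplicit false

namespace Pool.Agent.LogCh

open Real
open Pool.Agent.NSqP
open Pool.Agent.MP484c84Par (ballG mem_ballG crossG dotG)

lemma z_prim_of_cross {u v : GaussianInt} (h : crossG u v = 1) : Prim u ∧ Prim v := by
  unfold crossG at h
  constructor
  · show Int.gcd u.re u.im = 1
    rw [← Int.isCoprime_iff_gcd_eq_one]
    exact ⟨v.im, -v.re, by linear_combination h⟩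
  · show Int.gcd v.re v.im = 1
    rw [← Int.isCoprime_iff_gcd_eq_one]
    exact ⟨-u.im, u.re, by linear_combination h⟩

/-- the weight `lam u * lam v` -/
noncomputable def z_wt (p : GaussianInt × GaussianInt) : ℝ := lam p.1 * lam p.2

lemma z_abs_lam_le (z : GaussianInt) : |lam z| ≤ 1 := by
  unfold lam
  by_cases h : nN z = 0
  · rw [h]; simp
  · rw [ArithmeticFunction.liouville_apply h]
    push_cast
    rw [abs_pow, abs_neg, abs_one, one_pow]

lemma abs_wt_le (p : GaussianInt × GaussianInt) : |z_wt p| ≤ 1 := by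
  unfold z_wt
  rw [abs_mul]
  exact mul_le_one₀ (z_abs_lam_le _) (abs_nonneg _) (z_abs_lam_le _)

open Classical in
lemma pairSum_eq {a a' b b' : ℝ} (ha : 0 < a) (ha1 : a' ≤ 1) (hb1 : b' ≤ 1) (hb : 0 < b)
    {X N : ℕ} (hN : N ≤ X) :
    pairSum 1 a a' b b' N = ∑ p ∈ PP X, if ((a * N < nN p.1 ∧ (nN p.1 : ℝ) ≤ a' * N) ∧
      (b * N < nN p.2 ∧ (nN p.2 : ℝ) ≤ b' * N)) then z_wt p else 0 := by
  unfold pairSum
  have hsub : dpairs 1 N ⊆ PP X := by
    intro p hp
    unfold dpairs at hp
    rw [Finset.mem_filter, Finset.mem_product] at hp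
    obtain ⟨⟨h1, h2⟩, h3, h4⟩ := hp
    unfold VV at h1 h2
    rw [mem_pann (Nat.cast_nonneg N)] at h1 h2
    rw [mem_PP]
    refine ⟨h3, by omega, ?_⟩
    have h5 := dot_cross_nN p.1 p.2
    rw [h3] at h5
    have h6 : (nN p.1 : ℤ) ≤ X := by
      have : nN p.1 ≤ N := by exact_mod_cast h1.1.2
      exact_mod_cast this.trans hN
    have h7 : (nN p.2 : ℤ) ≤ X := by
      have : nN p.2 ≤ N := by exact_mod_cast h2.1.2
      exact_mod_cast this.trans hN
    have h8 : (nN p.1 : ℤ) * nN p.2 ≤ X * X := mul_le_mul h6 h7 (by positivity) (by positivity)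
    by_contra hcon
    push Not at hcon
    nlinarith
  rw [← Finset.sum_subset hsub]
  · refine Finset.sum_congr rfl fun p _ => ?_
    unfold fc z_wt
    split_ifs with h1 h2 h3 h4 h5 h6 <;> first | rfl | (exfalso; tauto) | simp
  · intro p hp hnot
    rw [if_neg]
    rintro ⟨⟨h1, h2⟩, h3, h4⟩
    apply hnot
    unfold dpairs
    rw [mem_PP] at hp
    obtain ⟨hu, hv⟩ := z_prim_of_cross hp.1
    have hN0 : (0 : ℝ) ≤ N := Nat.cast_nonneg N
    rw [Finset.mem_filter, Finset.mem_product]
    refine ⟨⟨?_, ?_⟩, hp.1, by omega⟩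
    · unfold VV
      rw [mem_pann hN0]
      refine ⟨⟨?_, ?_⟩, hu⟩
      · exact_mod_cast nN_pos (prim_ne_zero hu)
      · nlinarith
    · unfold VV
      rw [mem_pann hN0]
      refine ⟨⟨?_, ?_⟩, hv⟩
      · exact_mod_cast nN_pos (prim_ne_zero hv)
      · nlinarith

open Classical in
/-- the set of the `N ≤ X` such that the pair lies in the cell -/
noncomputable def NS (a a' b b' : ℝ) (X : ℕ) (p : GaussianInt × GaussianInt) : Finset ℕ :=
  (Finset.Icc 1 X).filter (fun N => ((a * N < nN p.1 ∧ (nN p.1 : ℝ) ≤ a' * N) ∧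
      (b * N < nN p.2 ∧ (nN p.2 : ℝ) ≤ b' * N)))

lemma sum_pairSum {a a' b b' : ℝ} (ha : 0 < a) (ha1 : a' ≤ 1) (hb1 : b' ≤ 1) (hb : 0 < b)
    (X : ℕ) :
    ∑ N ∈ Finset.Icc 1 X, pairSum 1 a a' b b' N / (N : ℝ) ^ 2 =
      ∑ p ∈ PP X, z_wt p * ∑ N ∈ NS a a' b b' X p, 1 / (N : ℝ) ^ 2 := by
  classical
  have h1 : ∀ N ∈ Finset.Icc 1 X, pairSum 1 a a' b b' N / (N : ℝ) ^ 2 =
      ∑ p ∈ PP X, if ((a * N < nN p.1 ∧ (nN p.1 : ℝ) ≤ a' * N) ∧
      (b * N < nN p.2 ∧ (nN p.2 : ℝ) ≤ b' * N)) then z_wt p * (1 / (N : ℝ) ^ 2) else 0 := by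
    intro N hN
    rw [Finset.mem_Icc] at hN
    rw [pairSum_eq ha ha1 hb1 hb hN.2, Finset.sum_div]
    refine Finset.sum_congr rfl fun p _ => ?_
    split_ifs
    · ring
    · simp
  rw [Finset.sum_congr rfl h1, Finset.sum_comm]
  refine Finset.sum_congr rfl fun p _ => ?_
  unfold NS
  rw [Finset.mul_sum, Finset.sum_filter]

theorem cell_sum (a a' b b' : ℝ) (ha : 0 < a) (haa : a < a') (ha1 : a' ≤ 1) (hb : 0 < b)
    (hbb : b < b') (hb1 : b' ≤ 1) : ∃ C : ℝ, 0 < C ∧ ∀ X : ℕ,
      |∑ N ∈ Finset.Icc 1 X, pairSum 1 a a' b b' N / (N : ℝ) ^ 2 -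
        ∑ p ∈ PP X, z_wt p * (qc a a' b b' (nN p.1 / dotG p.1 p.2) / dotG p.1 p.2)| ≤ C := by
  classical
  obtain ⟨K, hK, hcard⟩ := sec_card (a / 2) (2 / b) (by positivity) (by positivity)
  have ha0' : 0 < a' := ha.trans haa
  have hb0' : 0 < b' := hb.trans hbb
  refine ⟨3 * K * (4 / a ^ 2 + 4 / b) + 12 * K / (a ^ 2 * b), by positivity, fun X => ?_⟩
  rw [sum_pairSum ha ha1 hb1 hb X, ← Finset.sum_sub_distrib]
  set n : GaussianInt × GaussianInt → ℝ := fun p => (dotG p.1 p.2 : ℝ) with hn
  set W : GaussianInt × GaussianInt → ℝ := fun p => ∑ N ∈ NS a a' b b' X p, 1 / (N : ℝ) ^ 2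
    with hW
  set q : GaussianInt × GaussianInt → ℝ := fun p =>
    qc a a' b b' (nN p.1 / dotG p.1 p.2) / dotG p.1 p.2 with hq
  -- pointwise bound
  have hpt : ∀ p ∈ PP X, |z_wt p * W p - z_wt p * q p| ≤
      if p ∈ SEC (a / 2) (2 / b) X then
        (4 / a ^ 2 + 4 / b) * (1 / n p ^ 2) + 12 / (a ^ 2 * b * X) else 0 := by
    intro p hp
    obtain ⟨f1, f2, f3, f4, f5⟩ := pair_facts hp
    have hX0 : (0 : ℝ) < X := by linarith
    have hs0 : (0 : ℝ) < nN p.1 := by linarith
    have ht0 : (0 : ℝ) < nN p.2 := by linarith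
    have hn1 : 1 ≤ n p := f1
    have hn0 : 0 < n p := by linarith
    have hst : (nN p.1 : ℝ) * nN p.2 = n p ^ 2 + 1 := f5
    rw [← mul_sub, abs_mul]
    have hw := abs_wt_le p
    have hle : |z_wt p| * |W p - q p| ≤ |W p - q p| := by
      have := mul_le_mul_of_nonneg_right hw (abs_nonneg (W p - q p))
      rwa [one_mul] at this
    refine hle.trans ?_
    split_ifs with hsec
    · rw [mem_SEC] at hsec
      obtain ⟨-, g1, g2⟩ := hsec
      have g1' : a / 2 * n p < nN p.1 := g1
      have g2' : (nN p.1 : ℝ) ≤ 2 / b * n p := g2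
      set A : ℝ := max (nN p.1 / a') (nN p.2 / b') with hA
      set B : ℝ := min (nN p.1 / a) (nN p.2 / b) with hB
      have hA1 : 1 ≤ A := by
        refine le_trans ?_ (le_max_left _ _)
        rw [le_div_iff₀ ha0', one_mul]
        linarith
      have hAs : (nN p.1 : ℝ) ≤ A := by
        refine le_trans ?_ (le_max_left _ _)
        rw [le_div_iff₀ ha0']
        nlinarith
      have hB0 : 0 < B := lt_min (by positivity) (by positivity)
      have hT : ∀ N, N ∈ NS a a' b b' X p ↔ (1 ≤ N ∧ N ≤ X) ∧ A ≤ N ∧ (N : ℝ) < B := by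
        intro N
        unfold NS
        rw [Finset.mem_filter, Finset.mem_Icc, hA, hB, max_le_iff, lt_min_iff,
          div_le_iff₀ ha0', div_le_iff₀ hb0', lt_div_iff₀ ha, lt_div_iff₀ hb]
        constructor
        · rintro ⟨h1, ⟨h2, h3⟩, h4, h5⟩
          refine ⟨h1, ⟨by linarith, by linarith⟩, by linarith, by linarith⟩
        · rintro ⟨h1, ⟨h2, h3⟩, h4, h5⟩
          refine ⟨h1, ⟨by linarith, by linarith⟩, by linarith, by linarith⟩
      obtain ⟨k1, k2, k3⟩ := sum_sq_interval A B X hA1 hB0 (NS a a' b b' X p) hT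
      have hAn : 1 / A ≤ 2 / a * (1 / n p) := by
        have h1 : a / 2 * n p ≤ A := by linarith
        calc 1 / A ≤ 1 / (a / 2 * n p) := one_div_le_one_div_of_le (by positivity) h1
          _ = 2 / a * (1 / n p) := by field_simp
      have hq0 : 0 ≤ q p := by
        simp only [hq]
        apply div_nonneg (le_max_left _ _) hn0.le
      have hqle : q p ≤ 2 / a * (1 / n p) := by
        simp only [hq]
        have h1 : qc a a' b b' (nN p.1 / n p) ≤ a' / (nN p.1 / n p) := by
          unfold qc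
          apply max_le (by positivity)
          have h2 : min (a' / ((nN p.1 : ℝ) / n p)) (b' * ((nN p.1 : ℝ) / n p)) ≤
            a' / ((nN p.1 : ℝ) / n p) := min_le_left _ _
          have h3 : 0 ≤ max (a / ((nN p.1 : ℝ) / n p)) (b * ((nN p.1 : ℝ) / n p)) :=
            le_max_of_le_left (by positivity)
          linarith
        calc qc a a' b b' (nN p.1 / n p) / n p ≤ a' / (nN p.1 / n p) / n p :=
              div_le_div_of_nonneg_right h1 hn0.le
          _ = a' / nN p.1 := by field_simp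
          _ ≤ 1 / (a / 2 * n p) := by
              apply div_le_div₀ (by norm_num) ha1 (by positivity) g1'.le
          _ = 2 / a * (1 / n p) := by field_simp
      have hE0 : 0 ≤ 12 / (a ^ 2 * b * X) := by positivity
      have hE1 : 0 ≤ (4 / a ^ 2 + 4 / b) * (1 / n p ^ 2) := by positivity
      rcases le_or_gt B X with hBX | hBX
      · have k4 := k3 hBX
        have k5 := weight_compare (a := a) (a' := a') (S0 := 2 / b) hb hbb.le hb1 hn1 hs0 ht0 hst
          g2' ha haa.le
        have k6 : |W p - q p| ≤ 1 / A ^ 2 + 2 * (2 / b) / n p ^ 2 := by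
          have e : W p - q p = (W p - max 0 (1 / A - 1 / B)) + (max 0 (1 / A - 1 / B) - q p) := by
            ring
          rw [e]
          exact (abs_add_le _ _).trans (add_le_add k4 k5)
        have k7 : 1 / A ^ 2 ≤ 4 / a ^ 2 * (1 / n p ^ 2) := by
          have h1 : (1 / A) ^ 2 ≤ (2 / a * (1 / n p)) ^ 2 :=
            pow_le_pow_left₀ (by positivity) hAn 2
          have h2 : (1 / A) ^ 2 = 1 / A ^ 2 := by rw [one_div_pow]
          have h3 : (2 / a * (1 / n p)) ^ 2 = 4 / a ^ 2 * (1 / n p ^ 2) := by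
            field_simp
            norm_num
          rw [h2, h3] at h1
          exact h1
        have k8 : 2 * (2 / b) / n p ^ 2 = 4 / b * (1 / n p ^ 2) := by
          field_simp
          norm_num
        rw [k8] at k6
        have k9 : (4 / a ^ 2 + 4 / b) * (1 / n p ^ 2) = 4 / a ^ 2 * (1 / n p ^ 2) +
          4 / b * (1 / n p ^ 2) := by ring
        linarith
      · have hBn : B ≤ 2 / (a * b) * n p := by
          have h1 : B ≤ nN p.1 / a := min_le_left _ _
          have h2 : (nN p.1 : ℝ) / a ≤ 2 / b * n p / a := div_le_div_of_nonneg_right g2' ha.le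
          have h3 : 2 / b * n p / a = 2 / (a * b) * n p := by field_simp
          linarith
        have hnX : 1 / n p ≤ 2 / (a * b * X) := by
          rw [div_le_div_iff₀ hn0 (by positivity), one_mul]
          have h1 : (X : ℝ) ≤ 2 / (a * b) * n p := by linarith
          calc a * b * X ≤ a * b * (2 / (a * b) * n p) :=
                mul_le_mul_of_nonneg_left h1 (by positivity)
            _ = 2 * n p := by field_simp
        have k4 : |W p - q p| ≤ 6 / a * (1 / n p) := by
          have h1 : W p ≤ 4 / a * (1 / n p) := by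
            have : 2 / A = 2 * (1 / A) := by ring
            calc W p ≤ 2 / A := k2
              _ = 2 * (1 / A) := this
              _ ≤ 2 * (2 / a * (1 / n p)) := by linarith
              _ = 4 / a * (1 / n p) := by ring
          have h0 : 0 ≤ 2 / a * (1 / n p) := by positivity
          have h3 : 6 / a * (1 / n p) = 4 / a * (1 / n p) + 2 / a * (1 / n p) := by ring
          have hW0 : 0 ≤ W p := k1
          rw [abs_le]
          constructor <;> nlinarith
        have k5 : 6 / a * (1 / n p) ≤ 12 / (a ^ 2 * b * X) := by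
          calc 6 / a * (1 / n p) ≤ 6 / a * (2 / (a * b * X)) :=
                mul_le_mul_of_nonneg_left hnX (by positivity)
            _ = 12 / (a ^ 2 * b * X) := by field_simp; norm_num
        linarith
    · -- outside the sector both vanish
      have hsec' : ¬ (a / 2 * n p < nN p.1 ∧ (nN p.1 : ℝ) ≤ 2 / b * n p) :=
        fun h => hsec (mem_SEC.2 ⟨hp, h⟩)
      have hb2 : 2 / b ≤ (2 / b) ^ 2 := by
        have : 1 ≤ 2 / b := by rw [le_div_iff₀ hb]; linarith
        nlinarith
      have hW0 : W p = 0 := by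
        simp only [hW]
        have : NS a a' b b' X p = ∅ := by
          rw [Finset.eq_empty_iff_forall_notMem]
          intro N hN
          unfold NS at hN
          rw [Finset.mem_filter, Finset.mem_Icc] at hN
          obtain ⟨hN1, ⟨h1, h2⟩, h3, h4⟩ := hN
          have hNpos : (1 : ℝ) ≤ N := by exact_mod_cast hN1.1
          apply hsec'
          constructor
          · -- s > a N, t ≤ b' N
            have h5 : a * nN p.2 < nN p.1 := by
              have : a * (nN p.2 : ℝ) ≤ a * (b' * N) := mul_le_mul_of_nonneg_left h4 ha.le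
              nlinarith
            have h6 : a * (n p ^ 2 + 1) < (nN p.1 : ℝ) ^ 2 := by
              rw [← hst]; nlinarith
            have h7 : (a / 2 * n p) ^ 2 < (nN p.1 : ℝ) ^ 2 := by nlinarith
            exact lt_of_pow_lt_pow_left₀ 2 hs0.le h7
          · have h5 : b * (nN p.1 : ℝ) < nN p.2 := by
              have : b * (nN p.1 : ℝ) ≤ b * (a' * N) := mul_le_mul_of_nonneg_left h2 hb.le
              nlinarith
            have h6 : b * (nN p.1 : ℝ) ^ 2 < n p ^ 2 + 1 := by
              rw [← hst]; nlinarith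
            have h7 : (nN p.1 : ℝ) ^ 2 ≤ (2 / b * n p) ^ 2 := by
              have h8 : (nN p.1 : ℝ) ^ 2 ≤ 2 / b * n p ^ 2 := by
                rw [div_mul_eq_mul_div, le_div_iff₀ hb]
                nlinarith
              have h9 : 2 / b * n p ^ 2 ≤ (2 / b) ^ 2 * n p ^ 2 :=
                mul_le_mul_of_nonneg_right hb2 (by positivity)
              rw [mul_pow]
              linarith
            exact le_of_sq_le_sq h7 (by positivity)
        rw [this, Finset.sum_empty]
      have hq0 : q p = 0 := by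
        simp only [hq]
        have hS0 : 0 < (nN p.1 : ℝ) / n p := by positivity
        have : qc a a' b b' (nN p.1 / n p) = 0 := by
          unfold qc
          apply max_eq_left
          rw [sub_nonpos]
          by_contra hcon
          push Not at hcon
          apply hsec'
          have h1 : a / ((nN p.1 : ℝ) / n p) < b' * ((nN p.1 : ℝ) / n p) :=
            lt_of_le_of_lt (le_max_left _ _) (lt_of_lt_of_le hcon (min_le_right _ _))
          have h2 : b * ((nN p.1 : ℝ) / n p) < a' / ((nN p.1 : ℝ) / n p) :=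
            lt_of_le_of_lt (le_max_right _ _) (lt_of_lt_of_le hcon (min_le_left _ _))
          rw [div_lt_iff₀ hS0] at h1
          rw [lt_div_iff₀ hS0] at h2
          have e1 : b' * ((nN p.1 : ℝ) / n p) * ((nN p.1 : ℝ) / n p) =
            b' * (nN p.1 : ℝ) ^ 2 / n p ^ 2 := by field_simp
          have e2 : b * ((nN p.1 : ℝ) / n p) * ((nN p.1 : ℝ) / n p) =
            b * (nN p.1 : ℝ) ^ 2 / n p ^ 2 := by field_simp
          rw [e1, lt_div_iff₀ (by positivity)] at h1
          rw [e2, div_lt_iff₀ (by positivity)] at h2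
          constructor
          · have h7 : (a / 2 * n p) ^ 2 < (nN p.1 : ℝ) ^ 2 := by
              have h8 : b' * (nN p.1 : ℝ) ^ 2 ≤ (nN p.1 : ℝ) ^ 2 := by nlinarith [sq_nonneg (nN p.1 : ℝ)]
              have h9 : (a / 2 * n p) ^ 2 ≤ a * n p ^ 2 := by nlinarith [sq_nonneg (n p)]
              linarith
            exact lt_of_pow_lt_pow_left₀ 2 hs0.le h7
          · have h7 : (nN p.1 : ℝ) ^ 2 ≤ (2 / b * n p) ^ 2 := by
              have h8 : (nN p.1 : ℝ) ^ 2 ≤ 2 / b * n p ^ 2 := by
                rw [div_mul_eq_mul_div, le_div_iff₀ hb]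
                nlinarith [sq_nonneg (n p)]
              have h9 : 2 / b * n p ^ 2 ≤ (2 / b) ^ 2 * n p ^ 2 :=
                mul_le_mul_of_nonneg_right hb2 (by positivity)
              rw [mul_pow]
              linarith
            exact le_of_sq_le_sq h7 (by positivity)
        have e3 : qc a a' b b' (nN p.1 / dotG p.1 p.2) = 0 := this
        rw [e3, zero_div]
      rw [hW0, hq0, sub_zero, abs_zero]
  refine (Finset.abs_sum_le_sum_abs _ _).trans ?_
  refine (Finset.sum_le_sum hpt).trans ?_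
  rw [← Finset.sum_filter]
  have hfil : (PP X).filter (fun p => p ∈ SEC (a / 2) (2 / b) X) = SEC (a / 2) (2 / b) X := by
    ext p
    rw [Finset.mem_filter]
    exact ⟨fun h => h.2, fun h => ⟨(mem_SEC.1 h).1, h⟩⟩
  rw [hfil, Finset.sum_add_distrib, ← Finset.mul_sum, Finset.sum_const, nsmul_eq_mul]
  have hsq : ∑ p ∈ SEC (a / 2) (2 / b) X, 1 / n p ^ 2 ≤ 3 * K := by
    have h1 := abel_sq (SEC (a / 2) (2 / b) X) (fun p => (dotG p.1 p.2).toNat) X K hK.le
      (by
        intro p hp
        have h2 := mem_PP.1 (mem_SEC.1 hp).1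
        constructor
        · show 1 ≤ (dotG p.1 p.2).toNat
          omega
        · show (dotG p.1 p.2).toNat ≤ X
          omega)
      (by
        intro m _ hmX
        have hsub : (SEC (a / 2) (2 / b) X).filter (fun p => (dotG p.1 p.2).toNat ≤ m) ⊆
            SEC (a / 2) (2 / b) m := by
          intro p hp
          rw [Finset.mem_filter, mem_SEC, mem_PP] at hp
          rw [mem_SEC, mem_PP]
          refine ⟨⟨hp.1.1.1, hp.1.1.2.1, ?_⟩, hp.1.2⟩
          have := hp.2
          omega
        calc (((SEC (a / 2) (2 / b) X).filter (fun p => (dotG p.1 p.2).toNat ≤ m)).card : ℝ)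
            ≤ ((SEC (a / 2) (2 / b) m).card : ℝ) := by exact_mod_cast Finset.card_le_card hsub
          _ ≤ K * m := hcard m)
    refine le_trans (le_of_eq ?_) h1
    refine Finset.sum_congr rfl fun p hp => ?_
    have h2 := (mem_PP.1 (mem_SEC.1 hp).1).2.1
    have h3 : (((dotG p.1 p.2).toNat : ℕ) : ℝ) = (dotG p.1 p.2 : ℝ) := by
      have : (((dotG p.1 p.2).toNat : ℕ) : ℤ) = dotG p.1 p.2 := Int.toNat_of_nonneg (by omega)
      exact_mod_cast this
    simp only [hn]
    rw [h3]
  have hc := hcard X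
  have hD : 0 < 4 / a ^ 2 + 4 / b := by positivity
  rcases Nat.eq_zero_or_pos X with hX | hX
  · subst hX
    have h1 : SEC (a / 2) (2 / b) 0 = ∅ := by
      rw [← Finset.card_eq_zero]
      have : ((SEC (a / 2) (2 / b) 0).card : ℝ) ≤ 0 := by simpa using hc
      exact_mod_cast le_antisymm this (Nat.cast_nonneg _)
    rw [h1, Finset.sum_empty, Finset.card_empty]
    simp only [mul_zero, Nat.cast_zero, zero_mul, add_zero]
    positivity
  · have hX0 : (0 : ℝ) < X := by exact_mod_cast hX
    have h2 : ((SEC (a / 2) (2 / b) X).card : ℝ) * (12 / (a ^ 2 * b * X)) ≤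
        12 * K / (a ^ 2 * b) := by
      calc ((SEC (a / 2) (2 / b) X).card : ℝ) * (12 / (a ^ 2 * b * X))
          ≤ K * X * (12 / (a ^ 2 * b * X)) :=
            mul_le_mul_of_nonneg_right hc (by positivity)
        _ = 12 * K / (a ^ 2 * b) := by field_simp
    have h3 := mul_le_mul_of_nonneg_left hsq hD.le
    have h4 : (4 / a ^ 2 + 4 / b) * (3 * K) = 3 * K * (4 / a ^ 2 + 4 / b) := by ring
    linarith

end Pool.Agent.LogCh
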