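import Pool.Agent.Lib.LogCh.EDefs
import Pool.Agent.Lib.LogCh.ZCell

/-!
# Pairs of determinant one in thin sectors, from `EQ2Stmt`
-/

set_option autoImplicit false

namespace Pool.Agent.LogCh

open Real
open Pool.Agent.NSqP
open Pool.Agent.MP484c84Par (ballG mem_ballG crossG dotG)

lemma SEC_mono {α β : ℝ} {X Y : ℕ} (h : X ≤ Y) : SEC α β X ⊆ SEC α β Y := by
  intro p hp
  rw [mem_SEC, mem_PP] at hp ⊢
  exact ⟨⟨hp.1.1, hp.1.2.1, hp.1.2.2.trans (by exact_mod_cast h)⟩, hp.2⟩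

open Classical in
/-- the dyadic block of a thin sector -/
noncomputable def TB (δ h : ℝ) (m : ℕ) : Finset (GaussianInt × GaussianInt) :=
  (SEC δ (δ * (1 + h)) m).filter (fun p => (m : ℤ) < 2 * dotG p.1 p.2)

open Classical in
/-- a cell -/
noncomputable def CE (σ τ h' : ℝ) (N : ℕ) : Finset (GaussianInt × GaussianInt) :=
  (dpairs 1 N).filter (fun p => σ * N < nN p.1 ∧ (nN p.1 : ℝ) ≤ (σ + h') * N ∧
    τ * N < nN p.2 ∧ (nN p.2 : ℝ) ≤ (τ + h') * N)

lemma eq2_one (hE2 : EQ2Stmt) (δ0 : ℝ) (hδ : 0 < δ0) : ∃ C : ℝ, 0 < C ∧ ∀ h : ℝ, 0 < h → h ≤ 1 →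
    ∃ N0 : ℕ, ∀ N : ℕ, N0 ≤ N → ∀ s t : ℝ, δ0 ≤ s → s ≤ 1 → δ0 ≤ t → t ≤ 1 →
      ((CE s t h N).card : ℝ) ≤ C * h ^ 2 * N := by
  classical
  obtain ⟨C, hC, hE⟩ := hE2 δ0 hδ
  refine ⟨C, hC, fun h h0 h1 => ?_⟩
  obtain ⟨N0, hN0⟩ := hE 1 0 h le_rfl h0 h1
  refine ⟨N0, fun N hN s t hs hs1 ht ht1 => ?_⟩
  have h2 := hN0 N hN s t hs hs1 ht ht1
  have h3 : CE s t h N = (dpairs ((1 : ℕ) : ℤ) N).filter (fun p : GaussianInt × GaussianInt =>
      ((1 : ℕ) : GaussianInt) ∣ p.2 - ((0 : ℤ) : GaussianInt) * p.1 ∧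
        s * N < nN p.1 ∧ (nN p.1 : ℝ) ≤ (s + h) * N ∧
        t * N < nN p.2 ∧ (nN p.2 : ℝ) ≤ (t + h) * N) := by
    unfold CE
    simp only [Nat.cast_one]
    refine Finset.filter_congr fun p _ => ?_
    exact ⟨fun h => ⟨one_dvd _, h⟩, fun h => h.2⟩
  rw [h3]
  refine h2.trans (le_of_eq ?_)
  rw [Nat.cast_one, div_one]

lemma thin_block (hE2 : EQ2Stmt) (δ : ℝ) (hδ : 0 < δ) : ∃ C : ℝ, 0 < C ∧ ∃ h1 : ℝ, 0 < h1 ∧
    ∀ h : ℝ, 0 < h → h ≤ h1 → ∃ M0 : ℕ, ∀ m : ℕ, M0 ≤ m → ((TB δ h m).card : ℝ) ≤ C * h * m := by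
  classical
  set K1 : ℕ := ⌈2 * δ + 2 / δ⌉₊ with hK1
  have hK1le : 2 * δ + 2 / δ ≤ K1 := Nat.le_ceil _
  have h2δ : 0 < 2 / δ := by positivity
  have hK0 : (0 : ℝ) < K1 := by linarith
  have hK1' : 1 ≤ K1 := by
    have : 0 < K1 := by exact_mod_cast hK0
    exact this
  set δ0 : ℝ := min (δ / (4 * K1)) (1 / (16 * K1 * δ)) with hδ0
  have hδ0pos : 0 < δ0 := lt_min (by positivity) (by positivity)
  obtain ⟨C2, hC2, hE⟩ := eq2_one hE2 δ0 hδ0pos
  set Γ : ℝ := 3 / δ ^ 2 + 1 with hΓ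
  have hΓ1 : 1 ≤ Γ := by
    have : 0 ≤ 3 / δ ^ 2 := by positivity
    linarith
  have hΓ0 : 0 < Γ := by linarith
  refine ⟨2 * C2 * Γ ^ 2 * K1, by positivity, min (min 1 (δ / (4 * K1))) (1 / Γ),
    lt_min (lt_min one_pos (by positivity)) (by positivity), fun h h0 hh => ?_⟩
  have hh1 : h ≤ 1 := hh.trans ((min_le_left _ _).trans (min_le_left _ _))
  have hh2 : h ≤ δ / (4 * K1) := hh.trans ((min_le_left _ _).trans (min_le_right _ _))
  have hh3 : Γ * h ≤ 1 := by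
    have : h ≤ 1 / Γ := hh.trans (min_le_right _ _)
    rw [le_div_iff₀ hΓ0] at this
    linarith
  obtain ⟨N0, hN0⟩ := hE (Γ * h) (by positivity) hh3
  refine ⟨max N0 (max 1 ⌈1 / h⌉₊), fun m hm => ?_⟩
  have hmN0 : N0 ≤ m := (le_max_left _ _).trans hm
  have hm1 : 1 ≤ m := ((le_max_left _ _).trans (le_max_right _ _)).trans hm
  have hmh : 1 / h ≤ m := (Nat.le_ceil _).trans
    (by exact_mod_cast ((le_max_right _ _).trans (le_max_right _ _)).trans hm)
  have hm0 : (1 : ℝ) ≤ m := by exact_mod_cast hm1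
  set N : ℕ := K1 * m with hN
  have hNm : m ≤ N := Nat.le_mul_of_pos_left m (by omega)
  have hNR : (N : ℝ) = K1 * m := by rw [hN]; push_cast; ring
  have hNpos : (0 : ℝ) < N := by rw [hNR]; positivity
  set L : ℕ := ⌊1 / h⌋₊ + 1 with hL
  -- the covering
  have hcov : TB δ h m ⊆ (Finset.range L).biUnion (fun k =>
      if δ0 ≤ (k : ℝ) * h ∧ (k : ℝ) * h ≤ 1 ∧ δ0 ≤ (k : ℝ) * h / ((1 + h) ^ 2 * δ ^ 2) ∧
        (k : ℝ) * h / ((1 + h) ^ 2 * δ ^ 2) ≤ 1 then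
        CE (k * h) (k * h / ((1 + h) ^ 2 * δ ^ 2)) (Γ * h) N else ∅) := by
    intro p hp
    unfold TB at hp
    rw [Finset.mem_filter, mem_SEC] at hp
    obtain ⟨⟨hp1, hp2, hp3⟩, hp4⟩ := hp
    obtain ⟨f1, f2, f3, f4, f5⟩ := pair_facts hp1
    have hnm : (m : ℝ) < 2 * (dotG p.1 p.2 : ℝ) := by exact_mod_cast hp4
    set n : ℝ := (dotG p.1 p.2 : ℝ) with hn
    set s : ℝ := (nN p.1 : ℝ) with hs
    set t : ℝ := (nN p.2 : ℝ) with ht
    have hs0 : 0 < s := by linarith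
    have ht0 : 0 < t := by linarith
    have hn0 : 0 < n := by linarith
    -- bounds
    have hsup : s ≤ 2 * δ * n := by nlinarith
    have hsN : s ≤ N := by
      rw [hNR]
      calc s ≤ 2 * δ * n := hsup
        _ ≤ K1 * m := mul_le_mul (by linarith) f2 hn0.le hK0.le
    have htup : t ≤ 2 / δ * n := by
      have h1 : δ * n * t ≤ 2 * n ^ 2 := by
        calc δ * n * t ≤ s * t := mul_le_mul_of_nonneg_right hp2.le ht0.le
          _ = n ^ 2 + 1 := f5
          _ ≤ 2 * n ^ 2 := by nlinarith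
      rw [div_mul_eq_mul_div, le_div_iff₀ hδ]
      by_contra hcon
      push Not at hcon
      have : n * (2 * n) < n * (t * δ) := mul_lt_mul_of_pos_left hcon hn0
      nlinarith
    have htN : t ≤ N := by
      rw [hNR]
      calc t ≤ 2 / δ * n := htup
        _ ≤ K1 * m := mul_le_mul (by linarith) f2 hn0.le hK0.le
    have hslow : δ / (2 * K1) * N < s := by
      rw [hNR]
      have h1 : δ / (2 * K1) * (K1 * m) = δ * m / 2 := by field_simp
      rw [h1]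
      nlinarith
    -- the index
    set k : ℕ := ⌈s / (h * N)⌉₊ - 1 with hk
    have hceil1 : 1 ≤ ⌈s / (h * N)⌉₊ := Nat.one_le_ceil_iff.2 (by positivity)
    have hkc : ((k : ℝ) + 1) = (⌈s / (h * N)⌉₊ : ℝ) := by
      rw [hk, Nat.cast_sub hceil1]
      push_cast
      ring
    have hk1 : s ≤ (k + 1) * h * N := by
      have h1 : s / (h * N) ≤ (k : ℝ) + 1 := by rw [hkc]; exact Nat.le_ceil _
      rw [div_le_iff₀ (by positivity)] at h1
      linarith
    have hk2 : k * h * N < s := by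
      have h1 : (⌈s / (h * N)⌉₊ : ℝ) < s / (h * N) + 1 := Nat.ceil_lt_add_one (by positivity)
      rw [← hkc] at h1
      have h2 : (k : ℝ) < s / (h * N) := by linarith
      rw [lt_div_iff₀ (by positivity)] at h2
      linarith
    have hkh1 : (k : ℝ) * h < 1 := by
      by_contra hcon
      push Not at hcon
      nlinarith
    have hkL : k < L := by
      rw [hL, Nat.lt_add_one_iff]
      apply Nat.le_floor
      rw [le_div_iff₀ h0]
      exact hkh1.le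
    have hkhlow : δ / (4 * K1) ≤ k * h := by
      have h1 : δ / (2 * K1) < (k + 1) * h := by
        by_contra hcon
        push Not at hcon
        have : (k + 1) * h * N ≤ δ / (2 * K1) * N := mul_le_mul_of_nonneg_right hcon hNpos.le
        linarith
      have h2 : δ / (2 * K1) = δ / (4 * K1) + δ / (4 * K1) := by field_simp; norm_num
      nlinarith
    have hδ2 : 0 < (1 + h) ^ 2 * δ ^ 2 := by positivity
    -- lower bound for t
    have htlow : k * h / ((1 + h) ^ 2 * δ ^ 2) * N < t := by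
      rw [div_mul_eq_mul_div, div_lt_iff₀ hδ2]
      have h1 : s ^ 2 < t * s * ((1 + h) ^ 2 * δ ^ 2) := by
        have h2 : s ^ 2 ≤ (δ * (1 + h) * n) ^ 2 := pow_le_pow_left₀ hs0.le hp3 2
        have h3 : (δ * (1 + h) * n) ^ 2 = (1 + h) ^ 2 * δ ^ 2 * n ^ 2 := by ring
        have h4 : (1 + h) ^ 2 * δ ^ 2 * n ^ 2 < (1 + h) ^ 2 * δ ^ 2 * (n ^ 2 + 1) := by
          apply mul_lt_mul_of_pos_left _ hδ2
          linarith
        rw [← f5] at h4
        nlinarith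
      have h5 : s < t * ((1 + h) ^ 2 * δ ^ 2) := by
        by_contra hcon
        push Not at hcon
        have : s * (t * ((1 + h) ^ 2 * δ ^ 2)) ≤ s * s := mul_le_mul_of_nonneg_left hcon hs0.le
        nlinarith
      linarith
    have hτ1 : k * h / ((1 + h) ^ 2 * δ ^ 2) ≤ 1 := by
      by_contra hcon
      push Not at hcon
      nlinarith
    have hτ0 : 1 / (16 * K1 * δ) ≤ k * h / ((1 + h) ^ 2 * δ ^ 2) := by
      rw [div_le_div_iff₀ (by positivity) hδ2]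
      have h1 : (1 + h) ^ 2 ≤ 4 := by nlinarith
      have h2 : δ / (4 * K1) * (16 * K1 * δ) = 4 * δ ^ 2 := by field_simp; norm_num
      have h3 : δ / (4 * K1) * (16 * K1 * δ) ≤ k * h * (16 * K1 * δ) :=
        mul_le_mul_of_nonneg_right hkhlow (by positivity)
      have h4 : (1 + h) ^ 2 * δ ^ 2 ≤ 4 * δ ^ 2 := mul_le_mul_of_nonneg_right h1 (by positivity)
      linarith
    -- upper bound for t
    have htup2 : t ≤ (k * h / ((1 + h) ^ 2 * δ ^ 2) + Γ * h) * N := by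
      have h1 : s * t ≤ s * (s / δ ^ 2) + 1 := by
        rw [f5]
        have h2 : n ^ 2 ≤ s ^ 2 / δ ^ 2 := by
          rw [le_div_iff₀ (by positivity)]
          have : (δ * n) ^ 2 ≤ s ^ 2 := pow_le_pow_left₀ (by positivity) hp2.le 2
          nlinarith
        have h3 : s * (s / δ ^ 2) = s ^ 2 / δ ^ 2 := by ring
        linarith
      have h4 : t ≤ s / δ ^ 2 + 1 := by
        by_contra hcon
        push Not at hcon
        have h5 : s * (s / δ ^ 2 + 1) < s * t := mul_lt_mul_of_pos_left hcon hs0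
        nlinarith
      have h6 : 1 ≤ h * N := by
        have h7 : (m : ℝ) ≤ N := by exact_mod_cast hNm
        have h8 : 1 / h ≤ N := hmh.trans h7
        rw [div_le_iff₀ h0] at h8
        linarith
      have h7 : s / δ ^ 2 ≤ (k + 1) * h * N / δ ^ 2 := div_le_div_of_nonneg_right hk1 (by positivity)
      have h8 : (k * h) / δ ^ 2 - k * h / ((1 + h) ^ 2 * δ ^ 2) ≤ 2 * h / δ ^ 2 := by
        have h9 : (k * h) / δ ^ 2 - k * h / ((1 + h) ^ 2 * δ ^ 2) =
            (k * h) * (((1 + h) ^ 2 - 1) / (1 + h) ^ 2) / δ ^ 2 := by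
          field_simp
        rw [h9]
        apply div_le_div_of_nonneg_right _ (by positivity)
        have h10 : ((1 + h) ^ 2 - 1) / (1 + h) ^ 2 ≤ 2 * h := by
          rw [div_le_iff₀ (by positivity)]
          nlinarith [mul_pos h0 h0, mul_pos (mul_pos h0 h0) h0]
        have h11 : 0 ≤ ((1 + h) ^ 2 - 1) / (1 + h) ^ 2 := by
          apply div_nonneg _ (by positivity)
          nlinarith
        calc k * h * (((1 + h) ^ 2 - 1) / (1 + h) ^ 2) ≤ 1 * (2 * h) :=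
              mul_le_mul hkh1.le h10 h11 one_pos.le
          _ = 2 * h := one_mul _
      have h9 : (k + 1) * h * N / δ ^ 2 + h * N ≤
          (k * h / ((1 + h) ^ 2 * δ ^ 2) + Γ * h) * N := by
        have h10 : (k + 1) * h * N / δ ^ 2 + h * N = ((k * h) / δ ^ 2 + h / δ ^ 2 + h) * N := by
          ring
        rw [h10]
        apply mul_le_mul_of_nonneg_right _ hNpos.le
        have h11 : Γ * h = 3 * h / δ ^ 2 + h := by rw [hΓ]; ring
        have h12 : 3 * h / δ ^ 2 = 2 * h / δ ^ 2 + h / δ ^ 2 := by ring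
        linarith
      linarith
    rw [Finset.mem_biUnion]
    refine ⟨k, Finset.mem_range.2 hkL, ?_⟩
    rw [if_pos ⟨(min_le_left _ _).trans hkhlow, hkh1.le, (min_le_right _ _).trans hτ0, hτ1⟩]
    unfold CE dpairs VV
    rw [Finset.mem_filter, Finset.mem_filter, Finset.mem_product, mem_pann hNpos.le,
      mem_pann hNpos.le]
    have hp1' := mem_PP.1 hp1
    obtain ⟨hu, hv⟩ := z_prim_of_cross hp1'.1
    refine ⟨⟨⟨⟨⟨hs0, hsN⟩, hu⟩, ⟨ht0, htN⟩, hv⟩, hp1'.1, by omega⟩, hk2, ?_, htlow, htup2⟩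
    have h1 : (k + 1) * h ≤ k * h + Γ * h := by nlinarith
    exact hk1.trans (mul_le_mul_of_nonneg_right h1 hNpos.le)
  have hcard : ((TB δ h m).card : ℝ) ≤ ∑ k ∈ Finset.range L, C2 * (Γ * h) ^ 2 * N := by
    have h1 : ((TB δ h m).card : ℝ) ≤ (∑ k ∈ Finset.range L, ((if δ0 ≤ (k : ℝ) * h ∧
        (k : ℝ) * h ≤ 1 ∧ δ0 ≤ (k : ℝ) * h / ((1 + h) ^ 2 * δ ^ 2) ∧
        (k : ℝ) * h / ((1 + h) ^ 2 * δ ^ 2) ≤ 1 then
        CE (k * h) (k * h / ((1 + h) ^ 2 * δ ^ 2)) (Γ * h) N else ∅).card : ℕ) : ℕ) := by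
      exact_mod_cast (Finset.card_le_card hcov).trans Finset.card_biUnion_le
    refine h1.trans ?_
    push_cast
    refine Finset.sum_le_sum fun k _ => ?_
    split_ifs with hcond
    · exact hN0 N (hmN0.trans hNm) _ _ hcond.1 hcond.2.1 hcond.2.2.1 hcond.2.2.2
    · rw [Finset.card_empty, Nat.cast_zero]
      positivity
  rw [Finset.sum_const, Finset.card_range, nsmul_eq_mul] at hcard
  refine hcard.trans ?_
  have hLle : (L : ℝ) ≤ 2 / h := by
    rw [hL]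
    push_cast
    have h1 : (⌊1 / h⌋₊ : ℝ) ≤ 1 / h := Nat.floor_le (by positivity)
    have h2 : 1 ≤ 1 / h := by rw [le_div_iff₀ h0]; linarith
    have h3 : 2 / h = 1 / h + 1 / h := by ring
    linarith
  calc (L : ℝ) * (C2 * (Γ * h) ^ 2 * N) ≤ 2 / h * (C2 * (Γ * h) ^ 2 * N) :=
        mul_le_mul_of_nonneg_right hLle (by positivity)
    _ = 2 * C2 * Γ ^ 2 * K1 * h * m := by rw [hNR]; field_simp

lemma thin_count (hE2 : EQ2Stmt) (δ : ℝ) (hδ : 0 < δ) : ∃ C : ℝ, 0 < C ∧ ∃ h1 : ℝ, 0 < h1 ∧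
    ∀ h : ℝ, 0 < h → h ≤ h1 → ∃ B : ℝ, 0 ≤ B ∧ ∀ m : ℕ,
      ((SEC δ (δ * (1 + h)) m).card : ℝ) ≤ C * h * m + B := by
  classical
  obtain ⟨C, hC, h1, hh1, hblock⟩ := thin_block hE2 δ hδ
  refine ⟨2 * C, by positivity, h1, hh1, fun h h0 hh => ?_⟩
  obtain ⟨M0, hM0⟩ := hblock h h0 hh
  refine ⟨((SEC δ (δ * (1 + h)) (M0 + 1)).card : ℝ), Nat.cast_nonneg _, fun m => ?_⟩
  induction m using Nat.strong_induction_on with
  | _ m ih =>
    rcases Nat.lt_or_ge m (M0 + 1) with hm | hm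
    · have h2 : ((SEC δ (δ * (1 + h)) m).card : ℝ) ≤ ((SEC δ (δ * (1 + h)) (M0 + 1)).card : ℝ) := by
        exact_mod_cast Finset.card_le_card (SEC_mono hm.le)
      have h3 : 0 ≤ 2 * C * h * m := by positivity
      linarith
    · have h2 := ih (m / 2) (by omega)
      have h3 := hM0 m (by omega)
      have h4 : SEC δ (δ * (1 + h)) m ⊆ TB δ h m ∪ SEC δ (δ * (1 + h)) (m / 2) := by
        intro p hp
        rw [Finset.mem_union]
        by_cases h5 : (m : ℤ) < 2 * dotG p.1 p.2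
        · left
          unfold TB
          rw [Finset.mem_filter]
          exact ⟨hp, h5⟩
        · right
          rw [mem_SEC, mem_PP] at hp ⊢
          refine ⟨⟨hp.1.1, hp.1.2.1, ?_⟩, hp.2⟩
          omega
      have h5 : ((SEC δ (δ * (1 + h)) m).card : ℝ) ≤ ((TB δ h m).card : ℝ) +
          ((SEC δ (δ * (1 + h)) (m / 2)).card : ℝ) := by
        exact_mod_cast (Finset.card_le_card h4).trans (Finset.card_union_le _ _)
      have h6 : ((m / 2 : ℕ) : ℝ) ≤ m / 2 := Nat.cast_div_le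
      have h7 : 2 * C * h * ((m / 2 : ℕ) : ℝ) ≤ 2 * C * h * (m / 2) :=
        mul_le_mul_of_nonneg_left h6 (by positivity)
      have h8 : 2 * C * h * ((m : ℝ) / 2) = C * h * m := by ring
      linarith

lemma cast_toNat_dot {X : ℕ} {p : GaussianInt × GaussianInt} (hp : p ∈ PP X) :
    (((dotG p.1 p.2).toNat : ℕ) : ℝ) = (dotG p.1 p.2 : ℝ) := by
  have h2 := (mem_PP.1 hp).2.1
  have : (((dotG p.1 p.2).toNat : ℕ) : ℤ) = dotG p.1 p.2 := Int.toNat_of_nonneg (by omega)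
  exact_mod_cast this

lemma sec_log {α β A B : ℝ} (hA : 0 ≤ A) (hB : 0 ≤ B)
    (h : ∀ m : ℕ, ((SEC α β m).card : ℝ) ≤ A * m + B) (X : ℕ) :
    ∑ p ∈ SEC α β X, 1 / (dotG p.1 p.2 : ℝ) ≤ A * (2 + log X) + B := by
  classical
  have h1 := abel_log (SEC α β X) (fun p => (dotG p.1 p.2).toNat) X A B hA hB
    (by
      intro p hp
      have h2 := mem_PP.1 (mem_SEC.1 hp).1
      constructor
      · show 1 ≤ (dotG p.1 p.2).toNat
        omega
      · show (dotG p.1 p.2).toNat ≤ X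
        omega)
    (by
      intro m _ hmX
      have hsub : (SEC α β X).filter (fun p => (dotG p.1 p.2).toNat ≤ m) ⊆ SEC α β m := by
        intro p hp
        rw [Finset.mem_filter, mem_SEC, mem_PP] at hp
        rw [mem_SEC, mem_PP]
        refine ⟨⟨hp.1.1.1, hp.1.1.2.1, ?_⟩, hp.1.2⟩
        have := hp.2
        omega
      calc (((SEC α β X).filter (fun p => (dotG p.1 p.2).toNat ≤ m)).card : ℝ)
          ≤ ((SEC α β m).card : ℝ) := by exact_mod_cast Finset.card_le_card hsub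
        _ ≤ A * m + B := h m)
  refine le_trans (le_of_eq ?_) h1
  refine Finset.sum_congr rfl fun p hp => ?_
  rw [cast_toNat_dot (mem_SEC.1 hp).1]

theorem thin_log (hE2 : EQ2Stmt) (δ : ℝ) (hδ : 0 < δ) : ∃ C : ℝ, 0 < C ∧ ∃ h1 : ℝ, 0 < h1 ∧
    ∀ h : ℝ, 0 < h → h ≤ h1 → ∃ B : ℝ, 0 ≤ B ∧ ∀ X : ℕ,
      ∑ p ∈ SEC δ (δ * (1 + h)) X, 1 / (dotG p.1 p.2 : ℝ) ≤ C * h * (2 + log X) + B := by
  obtain ⟨C, hC, h1, hh1, H⟩ := thin_count hE2 δ hδ
  refine ⟨C, hC, h1, hh1, fun h h0 hh => ?_⟩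
  obtain ⟨B, hB, HB⟩ := H h h0 hh
  exact ⟨B, hB, fun X => sec_log (by positivity) hB HB X⟩

end Pool.Agent.LogCh
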