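import Pool.Agent.Lib.LogCh.ZLogc
import Pool.Agent.Lib.LogCh.ZThin

/-!
# The main theorem from `LOGC` and `EQ2`
-/

set_option autoImplicit false

namespace Pool.Agent.LogCh

open Real
open Pool.Agent.NSqP
open Pool.Agent.MP484c84Par (ballG mem_ballG crossG dotG)

/-- the normalised weight of the rectangular cell -/
noncomputable def rr (δ δ' h a S : ℝ) : ℝ :=
  δ / (a * h) * qc a (a * (1 + h)) (a / δ' ^ 2) (a / δ ^ 2) S

section weight

variable {δ δ' h a S : ℝ}

lemma rr_nonneg (hδ : 0 < δ) (hh : 0 < h) (ha : 0 < a) : 0 ≤ rr δ δ' h a S := by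
  unfold rr
  exact mul_nonneg (by positivity) (le_max_left _ _)

lemma rr_le (hδ : 0 < δ) (hh : 0 < h) (ha : 0 < a) (hS : 0 < S) : rr δ δ' h a S ≤ δ / S := by
  unfold rr
  have h1 : qc a (a * (1 + h)) (a / δ' ^ 2) (a / δ ^ 2) S ≤ a * h / S := by
    unfold qc
    apply max_le (by positivity)
    have h2 : min (a * (1 + h) / S) (a / δ ^ 2 * S) ≤ a * (1 + h) / S := min_le_left _ _
    have h3 : a / S ≤ max (a / S) (a / δ' ^ 2 * S) := le_max_left _ _
    have h4 : a * (1 + h) / S = a / S + a * h / S := by ring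
    linarith
  calc δ / (a * h) * qc a (a * (1 + h)) (a / δ' ^ 2) (a / δ ^ 2) S
      ≤ δ / (a * h) * (a * h / S) := mul_le_mul_of_nonneg_left h1 (by positivity)
    _ = δ / S := by field_simp

lemma rr_zero_left (hδ : 0 < δ) (ha : 0 < a) (hS : 0 < S) (hSδ : S ≤ δ) :
    rr δ δ' h a S = 0 := by
  unfold rr qc
  rw [max_eq_left, mul_zero]
  have h2 : min (a * (1 + h) / S) (a / δ ^ 2 * S) ≤ a / δ ^ 2 * S := min_le_right _ _
  have h3 : a / S ≤ max (a / S) (a / δ' ^ 2 * S) := le_max_left _ _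
  have h4 : a / δ ^ 2 * S ≤ a / S := by
    rw [div_mul_eq_mul_div, div_le_div_iff₀ (by positivity) hS]
    have : S ^ 2 ≤ δ ^ 2 := pow_le_pow_left₀ hS.le hSδ 2
    nlinarith
  linarith

lemma rr_zero_right (hδ' : 0 < δ') (hh : 0 < h) (ha : 0 < a) (hS : δ' * (1 + h) < S) :
    rr δ δ' h a S = 0 := by
  have hS0 : 0 < S := lt_trans (by positivity) hS
  unfold rr qc
  rw [max_eq_left, mul_zero]
  have h2 : min (a * (1 + h) / S) (a / δ ^ 2 * S) ≤ a * (1 + h) / S := min_le_left _ _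
  have h3 : a / δ' ^ 2 * S ≤ max (a / S) (a / δ' ^ 2 * S) := le_max_right _ _
  have h4 : a * (1 + h) / S ≤ a / δ' ^ 2 * S := by
    rw [div_mul_eq_mul_div, div_le_div_iff₀ hS0 (by positivity)]
    have h5 : (δ' * (1 + h)) ^ 2 ≤ S ^ 2 := pow_le_pow_left₀ (by positivity) hS.le 2
    have h6 : (1 + h) * δ' ^ 2 ≤ (δ' * (1 + h)) ^ 2 := by
      have : (δ' * (1 + h)) ^ 2 = (1 + h) * δ' ^ 2 + h * (1 + h) * δ' ^ 2 := by ring
      rw [this]
      have : 0 ≤ h * (1 + h) * δ' ^ 2 := by positivity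
      linarith
    have h7 : a * ((1 + h) * δ' ^ 2) ≤ a * S ^ 2 :=
      mul_le_mul_of_nonneg_left (h6.trans h5) ha.le
    nlinarith
  linarith

lemma rr_flat (hδ : 0 < δ) (hδ' : 0 < δ') (hh : 0 < h) (ha : 0 < a) (hS : δ * (1 + h) < S)
    (hS' : S ≤ δ') : rr δ δ' h a S = δ / S := by
  have hS0 : 0 < S := lt_trans (by positivity) hS
  unfold rr qc
  have e1 : min (a * (1 + h) / S) (a / δ ^ 2 * S) = a * (1 + h) / S := by
    apply min_eq_left
    rw [div_mul_eq_mul_div, div_le_div_iff₀ hS0 (by positivity)]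
    have h5 : (δ * (1 + h)) ^ 2 ≤ S ^ 2 := pow_le_pow_left₀ (by positivity) hS.le 2
    have h6 : (1 + h) * δ ^ 2 ≤ (δ * (1 + h)) ^ 2 := by
      have : (δ * (1 + h)) ^ 2 = (1 + h) * δ ^ 2 + h * (1 + h) * δ ^ 2 := by ring
      rw [this]
      have : 0 ≤ h * (1 + h) * δ ^ 2 := by positivity
      linarith
    have h7 : a * ((1 + h) * δ ^ 2) ≤ a * S ^ 2 :=
      mul_le_mul_of_nonneg_left (h6.trans h5) ha.le
    nlinarith
  have e2 : max (a / S) (a / δ' ^ 2 * S) = a / S := by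
    apply max_eq_left
    rw [div_mul_eq_mul_div, div_le_div_iff₀ (by positivity) hS0]
    have : S ^ 2 ≤ δ' ^ 2 := pow_le_pow_left₀ hS0.le hS' 2
    nlinarith
  rw [e1, e2]
  have e3 : a * (1 + h) / S - a / S = a * h / S := by ring
  rw [e3, max_eq_right (by positivity)]
  field_simp

end weight

/-- the sum over a sector -/
noncomputable def SS (α β : ℝ) (X : ℕ) : ℝ := ∑ p ∈ SEC α β X, z_wt p / (dotG p.1 p.2 : ℝ)

/-- the logarithmic count of a sector -/
noncomputable def HH (α β : ℝ) (X : ℕ) : ℝ := ∑ p ∈ SEC α β X, 1 / (dotG p.1 p.2 : ℝ)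

lemma HH_eq (α β : ℝ) (X : ℕ) : HH α β X =
    open Classical in ∑ p ∈ PP X, if p ∈ SEC α β X then 1 / (dotG p.1 p.2 : ℝ) else 0 := by
  classical
  unfold HH
  rw [← Finset.sum_filter]
  congr 1
  ext p
  rw [Finset.mem_filter]
  exact ⟨fun h => ⟨(mem_SEC.1 h).1, h⟩, fun h => h.2⟩

lemma SS_eq (α β : ℝ) (X : ℕ) : SS α β X =
    open Classical in ∑ p ∈ PP X, if p ∈ SEC α β X then z_wt p / (dotG p.1 p.2 : ℝ) else 0 := by
  classical
  unfold SS
  rw [← Finset.sum_filter]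
  congr 1
  ext p
  rw [Finset.mem_filter]
  exact ⟨fun h => ⟨(mem_SEC.1 h).1, h⟩, fun h => h.2⟩

lemma log_dominates (A B : ℝ) (hA : 0 < A) : ∃ X0 : ℕ, ∀ X : ℕ, X0 ≤ X → B ≤ A * log X := by
  refine ⟨⌈exp (B / A)⌉₊, fun X hX => ?_⟩
  have h1 : exp (B / A) ≤ X := (Nat.le_ceil _).trans (by exact_mod_cast hX)
  have h2 : B / A ≤ log X := by
    rw [← log_exp (B / A)]
    exact log_le_log (exp_pos _) h1
  rw [div_le_iff₀ hA] at h2
  linarith

theorem slice (hL : LOGCStmt) (hE2 : EQ2Stmt) (δ δ' θ : ℝ) (hδ : 0 < δ) (hδδ : δ < δ') (hθ : 0 ≤ θ) (hδθ : δ' ≤ (1 + θ) * δ)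
    (ε : ℝ) (hε : 0 < ε) : ∃ X0 : ℕ, ∀ X : ℕ, X0 ≤ X →
      |SS δ δ' X| ≤ θ * HH δ δ' X + ε * log X := by
  classical
  have hδ' : 0 < δ' := hδ.trans hδδ
  obtain ⟨C1, hC1, h1, hh1, T1⟩ := thin_log hE2 δ hδ
  obtain ⟨C2, hC2, h2, hh2, T2⟩ := thin_log hE2 δ' hδ'
  set a : ℝ := min (1 / 2) (δ ^ 2) with ha
  have ha0 : 0 < a := lt_min (by norm_num) (by positivity)
  have ha1 : a ≤ 1 / 2 := min_le_left _ _
  have ha2 : a ≤ δ ^ 2 := min_le_right _ _
  set h : ℝ := min (min 1 (min h1 h2)) (ε / (8 * (C1 + C2))) with hh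
  have hh0 : 0 < h := lt_min (lt_min one_pos (lt_min hh1 hh2)) (by positivity)
  have hle1 : h ≤ 1 := (min_le_left _ _).trans (min_le_left _ _)
  have hleh1 : h ≤ h1 := (min_le_left _ _).trans ((min_le_right _ _).trans (min_le_left _ _))
  have hleh2 : h ≤ h2 := (min_le_left _ _).trans ((min_le_right _ _).trans (min_le_right _ _))
  have hleε : (C1 + C2) * h ≤ ε / 8 := by
    have h3 : h ≤ ε / (8 * (C1 + C2)) := min_le_right _ _
    calc (C1 + C2) * h ≤ (C1 + C2) * (ε / (8 * (C1 + C2))) :=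
          mul_le_mul_of_nonneg_left h3 (by positivity)
      _ = ε / 8 := by field_simp
  obtain ⟨B1, hB1, T1'⟩ := T1 h hh0 hleh1
  obtain ⟨B2, hB2, T2'⟩ := T2 h hh0 hleh2
  have c1 : a < a * (1 + h) := by nlinarith
  have c2 : a * (1 + h) ≤ 1 := by nlinarith
  have c3 : 0 < a / δ' ^ 2 := by positivity
  have c4 : a / δ' ^ 2 < a / δ ^ 2 := by
    apply div_lt_div_of_pos_left ha0 (by positivity)
    exact pow_lt_pow_left₀ hδδ hδ.le (by norm_num)
  have c5 : a / δ ^ 2 ≤ 1 := by rw [div_le_one (by positivity)]; exact ha2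
  obtain ⟨C, hC, hcell⟩ := cell_sum a (a * (1 + h)) (a / δ' ^ 2) (a / δ ^ 2) ha0 c1 c2 c3 c4 c5
  set D : ℝ := δ / (a * h) with hD
  have hD0 : 0 < D := by positivity
  obtain ⟨X1, hX1⟩ := hL a (a * (1 + h)) (a / δ' ^ 2) (a / δ ^ 2) ha0 c1 c2 c3 c4 c5
    (ε / (4 * D)) (by positivity)
  obtain ⟨X2, hX2⟩ := log_dominates (ε / 2) (D * C + (C1 + C2) * h * 2 + B1 + B2) (by positivity)
  refine ⟨max (max X1 X2) 1, fun X hX => ?_⟩
  have hXX1 : X1 ≤ X := ((le_max_left _ _).trans (le_max_left _ _)).trans hX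
  have hXX2 : X2 ≤ X := ((le_max_right _ _).trans (le_max_left _ _)).trans hX
  have hX0 : (1 : ℝ) ≤ X := by exact_mod_cast (le_max_right _ _).trans hX
  have hlog : 0 ≤ log X := log_nonneg hX0
  have k1 := hX1 X hXX1
  have k2 := hcell X
  have k3 := hX2 X hXX2
  have k4 := T1' X
  have k5 := T2' X
  -- the weighted sum
  set R : ℝ := ∑ p ∈ PP X, z_wt p * (rr δ δ' h a (nN p.1 / dotG p.1 p.2) / dotG p.1 p.2) with hR
  have hRD : R = D * ∑ p ∈ PP X, z_wt p * (qc a (a * (1 + h)) (a / δ' ^ 2) (a / δ ^ 2)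
      (nN p.1 / dotG p.1 p.2) / dotG p.1 p.2) := by
    rw [hR, Finset.mul_sum]
    refine Finset.sum_congr rfl fun p _ => ?_
    unfold rr
    ring
  have k6 : |R| ≤ D * (ε / (4 * D) * log X + C) := by
    rw [hRD, abs_mul, abs_of_pos hD0]
    apply mul_le_mul_of_nonneg_left _ hD0.le
    set U := ∑ N ∈ Finset.Icc 1 X, pairSum 1 a (a * (1 + h)) (a / δ' ^ 2) (a / δ ^ 2) N /
      (N : ℝ) ^ 2
    set V := ∑ p ∈ PP X, z_wt p * (qc a (a * (1 + h)) (a / δ' ^ 2) (a / δ ^ 2)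
      (nN p.1 / dotG p.1 p.2) / dotG p.1 p.2)
    have h3 : V = U - (U - V) := by ring
    rw [h3]
    exact (abs_sub _ _).trans (add_le_add k1 k2)
  have k7 : D * (ε / (4 * D) * log X + C) = ε / 4 * log X + D * C := by
    field_simp
  -- comparison
  have k8 : |SS δ δ' X - R| ≤ θ * HH δ δ' X + HH δ (δ * (1 + h)) X + HH δ' (δ' * (1 + h)) X := by
    rw [SS_eq, hR, ← Finset.sum_sub_distrib, HH_eq, HH_eq, HH_eq, Finset.mul_sum,
      ← Finset.sum_add_distrib, ← Finset.sum_add_distrib]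
    refine (Finset.abs_sum_le_sum_abs _ _).trans (Finset.sum_le_sum fun p hp => ?_)
    obtain ⟨f1, f2, f3, f4, f5⟩ := pair_facts hp
    have hm : ∀ α β : ℝ, p ∈ SEC α β X ↔ (α < (nN p.1 : ℝ) / dotG p.1 p.2 ∧
        (nN p.1 : ℝ) / dotG p.1 p.2 ≤ β) := by
      intro α β
      rw [mem_SEC, lt_div_iff₀ (by linarith), div_le_iff₀ (by linarith)]
      exact ⟨fun h => h.2, fun h => ⟨hp, h⟩⟩
    simp only [hm]
    set n : ℝ := (dotG p.1 p.2 : ℝ) with hn
    set S : ℝ := (nN p.1 : ℝ) / n with hS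
    have hn0 : 0 < n := by linarith
    have hS0 : 0 < S := by positivity
    have hw := abs_wt_le p
    have r0 : 0 ≤ rr δ δ' h a S := rr_nonneg hδ hh0 ha0
    have r1 : rr δ δ' h a S ≤ δ / S := rr_le hδ hh0 ha0 hS0
    have hn1 : 0 ≤ 1 / n := by positivity
    have hθn : 0 ≤ θ * (1 / n) := by positivity
    have key : ∀ x y : ℝ, |x - rr δ δ' h a S| ≤ y → |z_wt p * x / n - z_wt p * (rr δ δ' h a S / n)| ≤
        y * (1 / n) := by
      intro x y hxy
      have e : z_wt p * x / n - z_wt p * (rr δ δ' h a S / n) =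
        z_wt p * ((x - rr δ δ' h a S) * (1 / n)) := by ring
      rw [e, abs_mul, abs_mul, abs_of_nonneg hn1]
      calc |z_wt p| * (|x - rr δ δ' h a S| * (1 / n)) ≤ 1 * (y * (1 / n)) := by
            apply mul_le_mul hw _ (by positivity) one_pos.le
            exact mul_le_mul_of_nonneg_right hxy hn1
        _ = y * (1 / n) := one_mul _
    rcases le_or_gt S δ with hS1 | hS1
    · have n0 : ¬ (δ < S ∧ S ≤ δ') := fun hc => by linarith [hc.1]
      have n1 : ¬ (δ < S ∧ S ≤ δ * (1 + h)) := fun hc => by linarith [hc.1]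
      have n2 : ¬ (δ' < S ∧ S ≤ δ' * (1 + h)) := fun hc => by linarith [hc.1]
      simp only [if_neg n0, if_neg n1, if_neg n2]
      rw [rr_zero_left hδ ha0 hS0 hS1]
      simp
    · have r2 : rr δ δ' h a S ≤ 1 := by
        refine r1.trans ?_
        rw [div_le_one hS0]
        exact hS1.le
      rcases le_or_gt S (δ * (1 + h)) with hS2 | hS2
      · have p1 : δ < S ∧ S ≤ δ * (1 + h) := ⟨hS1, hS2⟩
        simp only [if_pos p1]
        have hlast : 0 ≤ (if δ' < S ∧ S ≤ δ' * (1 + h) then 1 / n else 0) := by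
          split_ifs <;> positivity
        by_cases hc : δ < S ∧ S ≤ δ'
        · simp only [if_pos hc]
          have := key 1 1 (by rw [abs_le]; constructor <;> linarith)
          rw [mul_one, one_mul] at this
          linarith
        · simp only [if_neg hc]
          have := key 0 1 (by rw [abs_le]; constructor <;> linarith)
          rw [mul_zero, zero_div, one_mul] at this
          linarith
      · have n1 : ¬ (δ < S ∧ S ≤ δ * (1 + h)) := fun hc => by linarith [hc.2]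
        simp only [if_neg n1]
        rcases le_or_gt S δ' with hS3 | hS3
        · have p0 : δ < S ∧ S ≤ δ' := ⟨hS1, hS3⟩
          have n2 : ¬ (δ' < S ∧ S ≤ δ' * (1 + h)) := fun hc => by linarith [hc.1]
          simp only [if_pos p0, if_neg n2]
          have e1 := rr_flat (a := a) hδ hδ' hh0 ha0 hS2 hS3
          have r3 : 1 - θ ≤ rr δ δ' h a S := by
            rw [e1, le_div_iff₀ hS0]
            have h6 : S ≤ (1 + θ) * δ := hS3.trans hδθ
            rcases le_or_gt θ 1 with h7 | h7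
            · calc (1 - θ) * S ≤ (1 - θ) * ((1 + θ) * δ) :=
                    mul_le_mul_of_nonneg_left h6 (by linarith)
                _ = (1 - θ ^ 2) * δ := by ring
                _ ≤ δ := by nlinarith [sq_nonneg θ]
            · nlinarith
          have := key 1 θ (by rw [abs_le]; constructor <;> linarith)
          rw [mul_one] at this
          linarith
        · have n0 : ¬ (δ < S ∧ S ≤ δ') := fun hc => by linarith [hc.2]
          simp only [if_neg n0]
          rcases le_or_gt S (δ' * (1 + h)) with hS4 | hS4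
          · have p2 : δ' < S ∧ S ≤ δ' * (1 + h) := ⟨hS3, hS4⟩
            simp only [if_pos p2]
            have := key 0 1 (by rw [abs_le]; constructor <;> linarith)
            rw [mul_zero, zero_div, one_mul] at this
            linarith
          · have n2 : ¬ (δ' < S ∧ S ≤ δ' * (1 + h)) := fun hc => by linarith [hc.2]
            simp only [if_neg n2]
            rw [rr_zero_right hδ' hh0 ha0 hS4]
            simp
  have k9 : |SS δ δ' X| ≤ |SS δ δ' X - R| + |R| := by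
    have : SS δ δ' X = (SS δ δ' X - R) + R := by ring
    calc |SS δ δ' X| = |(SS δ δ' X - R) + R| := by rw [← this]
      _ ≤ _ := abs_add_le _ _
  have k10 : HH δ (δ * (1 + h)) X ≤ C1 * h * (2 + log X) + B1 := k4
  have k11 : HH δ' (δ' * (1 + h)) X ≤ C2 * h * (2 + log X) + B2 := k5
  have k12 : (C1 + C2) * h * log X ≤ ε / 8 * log X := mul_le_mul_of_nonneg_right hleε hlog
  nlinarith

theorem sector (hL : LOGCStmt) (hE2 : EQ2Stmt) (α θ : ℝ) (hα : 0 < α) (hθ : 0 < θ) : ∀ k : ℕ, ∀ β : ℝ, β ≤ α * (1 + θ) ^ k →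
    ∀ ε : ℝ, 0 < ε → ∃ X0 : ℕ, ∀ X : ℕ, X0 ≤ X → |SS α β X| ≤ θ * HH α β X + ε * log X := by
  classical
  have hempty : ∀ β : ℝ, β ≤ α → ∀ X : ℕ, SEC α β X = ∅ := by
    intro β hβ X
    rw [Finset.eq_empty_iff_forall_notMem]
    intro p hp
    rw [mem_SEC] at hp
    obtain ⟨f1, -, -, -, -⟩ := pair_facts hp.1
    have : β * (dotG p.1 p.2 : ℝ) ≤ α * dotG p.1 p.2 :=
      mul_le_mul_of_nonneg_right hβ (by linarith)
    linarith [hp.2.1, hp.2.2]
  intro k
  induction k with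
  | zero =>
    intro β hβ ε hε
    rw [pow_zero, mul_one] at hβ
    refine ⟨1, fun X hX => ?_⟩
    unfold SS HH
    rw [hempty β hβ X, Finset.sum_empty, Finset.sum_empty, abs_zero, mul_zero, zero_add]
    exact mul_nonneg hε.le (log_nonneg (by exact_mod_cast hX))
  | succ k ih =>
    intro β hβ ε hε
    rcases le_or_gt β (α * (1 + θ) ^ k) with h | h
    · exact ih β h ε hε
    · set γ : ℝ := α * (1 + θ) ^ k with hγ
      have hγ0 : 0 < γ := by positivity
      have hαγ : α ≤ γ := by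
        have : (1 : ℝ) ≤ (1 + θ) ^ k := one_le_pow₀ (by linarith)
        nlinarith
      have hβγ : β ≤ (1 + θ) * γ := by
        rw [hγ]
        calc β ≤ α * (1 + θ) ^ (k + 1) := hβ
          _ = (1 + θ) * (α * (1 + θ) ^ k) := by ring
      obtain ⟨X1, hX1⟩ := ih γ le_rfl (ε / 2) (by positivity)
      obtain ⟨X2, hX2⟩ := slice hL hE2 γ β θ hγ0 h hθ.le hβγ (ε / 2) (by positivity)
      refine ⟨max X1 X2, fun X hX => ?_⟩
      have h1 := hX1 X ((le_max_left _ _).trans hX)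
      have h2 := hX2 X ((le_max_right _ _).trans hX)
      have hun : SEC α β X = SEC α γ X ∪ SEC γ β X := by
        ext p
        rw [Finset.mem_union, mem_SEC, mem_SEC, mem_SEC]
        constructor
        · rintro ⟨g1, g2, g3⟩
          rcases le_or_gt (nN p.1 : ℝ) (γ * dotG p.1 p.2) with g | g
          · exact Or.inl ⟨g1, g2, g⟩
          · exact Or.inr ⟨g1, g, g3⟩
        · rintro (⟨g1, g2, g3⟩ | ⟨g1, g2, g3⟩)
          · obtain ⟨f1, -, -, -, -⟩ := pair_facts g1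
            refine ⟨g1, g2, g3.trans (mul_le_mul_of_nonneg_right h.le (by linarith))⟩
          · obtain ⟨f1, -, -, -, -⟩ := pair_facts g1
            refine ⟨g1, lt_of_le_of_lt (mul_le_mul_of_nonneg_right hαγ (by linarith)) g2, g3⟩
      have hdis : Disjoint (SEC α γ X) (SEC γ β X) := by
        rw [Finset.disjoint_left]
        intro p hp hq
        rw [mem_SEC] at hp hq
        linarith [hp.2.2, hq.2.1]
      have e1 : SS α β X = SS α γ X + SS γ β X := by
        unfold SS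
        rw [hun, Finset.sum_union hdis]
      have e2 : HH α β X = HH α γ X + HH γ β X := by
        unfold HH
        rw [hun, Finset.sum_union hdis]
      rw [e1, e2]
      refine (abs_add_le _ _).trans ?_
      have e3 : ε * log X = ε / 2 * log X + ε / 2 * log X := by ring
      rw [e3]
      linarith

lemma sum_divisors_eq (α β : ℝ) (x : ℕ) :
    ∑ n ∈ Finset.Icc 1 x, ((ArithmeticFunction.liouville (n ^ 2 + 1) : ℤ) : ℝ) / n *
      (((n ^ 2 + 1).divisors.filter (fun d : ℕ => α * n < d ∧ (d : ℝ) ≤ β * n)).card : ℝ) =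
      SS α β x / 4 := by
  classical
  have h1 := sum_PP x (fun n d : ℕ => if α * n < ((d : ℕ) : ℝ) ∧ ((d : ℕ) : ℝ) ≤ β * n then
    ((ArithmeticFunction.liouville (n ^ 2 + 1) : ℤ) : ℝ) / n else 0)
  have h2 : ∀ n ∈ Finset.Icc 1 x, ∑ d ∈ (n ^ 2 + 1).divisors,
      (if α * n < ((d : ℕ) : ℝ) ∧ ((d : ℕ) : ℝ) ≤ β * n then
        ((ArithmeticFunction.liouville (n ^ 2 + 1) : ℤ) : ℝ) / n else 0) =
      ((ArithmeticFunction.liouville (n ^ 2 + 1) : ℤ) : ℝ) / n *
      (((n ^ 2 + 1).divisors.filter (fun d : ℕ => α * n < d ∧ (d : ℝ) ≤ β * n)).card : ℝ) := by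
    intro n _
    rw [← Finset.sum_filter, Finset.sum_const, nsmul_eq_mul]
    ring
  rw [Finset.sum_congr rfl h2] at h1
  have h3 : ∑ p ∈ PP x, (if α * ((dotG p.1 p.2).toNat : ℕ) < (nN p.1 : ℝ) ∧
      ((nN p.1 : ℕ) : ℝ) ≤ β * ((dotG p.1 p.2).toNat : ℕ) then
        ((ArithmeticFunction.liouville ((dotG p.1 p.2).toNat ^ 2 + 1) : ℤ) : ℝ) /
          ((dotG p.1 p.2).toNat : ℕ) else 0) = SS α β x := by
    rw [SS_eq]
    refine Finset.sum_congr rfl fun p hp => ?_
    rw [cast_toNat_dot hp]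
    have hiff : (α * (dotG p.1 p.2 : ℝ) < (nN p.1 : ℝ) ∧
        ((nN p.1 : ℕ) : ℝ) ≤ β * (dotG p.1 p.2 : ℝ)) ↔ p ∈ SEC α β x := by
      rw [mem_SEC]
      exact ⟨fun h => ⟨hp, h⟩, fun h => h.2⟩
    by_cases h : p ∈ SEC α β x
    · rw [if_pos h, if_pos (hiff.2 h)]
      congr 1
      have h4 : (dotG p.1 p.2).toNat ^ 2 + 1 = nN p.1 * nN p.2 := by
        have h5 := dot_cross_nN p.1 p.2
        rw [(mem_PP.1 hp).1] at h5
        have h6 := (mem_PP.1 hp).2.1
        have h7 : (((dotG p.1 p.2).toNat : ℕ) : ℤ) = dotG p.1 p.2 :=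
          Int.toNat_of_nonneg (by omega)
        have h8 : (((dotG p.1 p.2).toNat ^ 2 + 1 : ℕ) : ℤ) = ((nN p.1 * nN p.2 : ℕ) : ℤ) := by
          push_cast
          rw [h7]
          linarith
        exact_mod_cast h8
      rw [h4, ArithmeticFunction.liouville_apply_mul]
      unfold z_wt lam
      push_cast
      ring
    · rw [if_neg h, if_neg (fun h' => h (hiff.1 h'))]
  rw [h3] at h1
  linarith

theorem mainf (hL : LOGCStmt) (hE2 : EQ2Stmt) (α β : ℝ) (hα : 0 < α) (hαβ : α < β) :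
    Filter.Tendsto (fun x : ℕ => (1 / log x) * ∑ n ∈ Finset.Icc 1 x,
      ((ArithmeticFunction.liouville (n ^ 2 + 1) : ℤ) : ℝ) / n *
        (((n ^ 2 + 1).divisors.filter (fun d : ℕ => α * n < d ∧ (d : ℝ) ≤ β * n)).card : ℝ))
      Filter.atTop (nhds 0) := by
  rw [Metric.tendsto_atTop]
  intro ε hε
  obtain ⟨K, hK, hsec⟩ := sec_card α β hα (hα.trans hαβ)
  set θ : ℝ := ε / (4 * K) with hθ
  have hθ0 : 0 < θ := by positivity
  obtain ⟨k, hk⟩ : ∃ k : ℕ, β ≤ α * (1 + θ) ^ k := by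
    obtain ⟨k, hk⟩ := pow_unbounded_of_one_lt (β / α) (show 1 < 1 + θ by linarith)
    refine ⟨k, ?_⟩
    rw [div_lt_iff₀ hα] at hk
    linarith
  obtain ⟨X1, hX1⟩ := sector hL hE2 α θ hα hθ0 k β hk (ε / 4) (by positivity)
  obtain ⟨X2, hX2⟩ := log_dominates (ε / 4) (2 * θ * K) (by positivity)
  refine ⟨max (max X1 X2) 3, fun X hX => ?_⟩
  have hXX1 : X1 ≤ X := ((le_max_left _ _).trans (le_max_left _ _)).trans hX
  have hXX2 : X2 ≤ X := ((le_max_right _ _).trans (le_max_left _ _)).trans hX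
  have hX3 : (3 : ℝ) ≤ X := by exact_mod_cast (le_max_right _ _).trans hX
  have hlog : 0 < log X := log_pos (by linarith)
  rw [sum_divisors_eq, dist_zero_right, Real.norm_eq_abs, abs_mul, abs_of_pos (by positivity),
    abs_div, abs_of_pos (show (0 : ℝ) < 4 by norm_num)]
  have h1 := hX1 X hXX1
  have h2 := hX2 X hXX2
  have h3 : HH α β X ≤ K * (2 + log X) + 0 :=
    sec_log hK.le le_rfl (fun m => by rw [add_zero]; exact hsec m) X
  have h4 : θ * HH α β X ≤ θ * (K * (2 + log X) + 0) := mul_le_mul_of_nonneg_left h3 hθ0.le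
  have h5 : θ * K = ε / 4 := by rw [hθ]; field_simp
  have h6 : |SS α β X| ≤ ε * log X := by nlinarith
  rw [one_div, inv_mul_lt_iff₀ hlog]
  nlinarith

end Pool.Agent.LogCh
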