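import Pool.Agent.Lib.LogCh.ZSGeo

/-!
# The sum over a sector bounded by the sums over finitely many cells
-/

set_option autoImplicit false

namespace Pool.Agent.LogCh

open Real
open Pool.Agent.NSqP
open Pool.Agent.MP484c84Par (ballG mem_ballG crossG dotG)

/-- the sum over the cell of index `(i, j)` -/
noncomputable def cellS (M N : ℕ) (ij : ℕ × ℕ) : ℝ :=
  pairSum 1 (((ij.1 : ℝ) - 1) / M) ((ij.1 : ℝ) / M) (((ij.2 : ℝ) - 1) / M) ((ij.2 : ℝ) / M) N

open Classical in
lemma cellS_eq {α β : ℝ} (hα : 0 < α) (hβ : 0 < β) {C M x : ℕ} (hC : 1 ≤ C) (hM : 1 ≤ M)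
    (hx : 1 ≤ x) {ij : ℕ × ℕ} (hi : 2 ≤ ij.1) (hj : 2 ≤ ij.2) (hiM : ij.1 ≤ M) (hjM : ij.2 ≤ M)
    (hg : Good α β C M ij.1 ij.2) (hx0 : β ^ 2 * M ≤ C * x) :
    cellS M (C * x) ij = ∑ p ∈ (SEC α β x).filter (fun p => cix M (C * x) p.1 = ij.1 ∧
      cix M (C * x) p.2 = ij.2), z_wt p := by
  have hM0 : (0 : ℝ) < M := by exact_mod_cast hM
  have hi1 : (2 : ℝ) ≤ ij.1 := by exact_mod_cast hi
  have hj1 : (2 : ℝ) ≤ ij.2 := by exact_mod_cast hj
  have hiM' : (ij.1 : ℝ) ≤ M := by exact_mod_cast hiM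
  have hjM' : (ij.2 : ℝ) ≤ M := by exact_mod_cast hjM
  have hCx : 1 ≤ C * x := Nat.mul_pos hC hx
  unfold cellS
  rw [pairSum_eq (div_pos (by linarith) hM0) ((div_le_one hM0).2 hiM') ((div_le_one hM0).2 hjM')
    (div_pos (by linarith) hM0) (le_refl (C * x)), ← Finset.sum_filter]
  refine Finset.sum_congr ?_ fun _ _ => rfl
  ext p
  rw [Finset.mem_filter, Finset.mem_filter, cix_iff hM hCx p.1 (show 1 ≤ ij.1 by omega),
    cix_iff hM hCx p.2 (show 1 ≤ ij.2 by omega)]
  constructor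
  · rintro ⟨hp, ⟨h1, h2⟩, h3, h4⟩
    exact ⟨good_cell hα hβ hC hM hx hi hj hg hx0 hp h1 h2 h3 h4, ⟨h1, h2⟩, h3, h4⟩
  · rintro ⟨hp, h⟩
    refine ⟨?_, h⟩
    have hp1 := (mem_SEC.1 hp).1
    rw [mem_PP] at hp1 ⊢
    refine ⟨hp1.1, hp1.2.1, hp1.2.2.trans ?_⟩
    have : x ≤ C * x := Nat.le_mul_of_pos_left x hC
    exact_mod_cast this

theorem sector_cells (hE2 : EQ2Stmt) (α β : ℝ) (hα : 0 < α) (hαβ : α < β) (η : ℝ) (hη : 0 < η) :
    ∃ C M : ℕ, 1 ≤ C ∧ 1 ≤ M ∧ ∃ x0 : ℕ, ∀ x : ℕ, x0 ≤ x →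
      |∑ p ∈ SEC α β x, z_wt p| ≤
        ∑ ij ∈ Finset.Icc 2 M ×ˢ Finset.Icc 2 M, |cellS M (C * x) ij| + η * x := by
  classical
  have hβ : 0 < β := hα.trans hαβ
  obtain ⟨K, hK, hsec⟩ := sec_card α β hα hβ
  set C : ℕ := ⌈β + 2 / α⌉₊ with hCdef
  have h2a : 0 < 2 / α := by positivity
  have hCle : β + 2 / α ≤ C := Nat.le_ceil _
  have hC0 : (0 : ℝ) < C := by linarith
  have hC1 : 1 ≤ C := by
    have : 0 < C := by exact_mod_cast hC0
    exact this
  have hC1' : (1 : ℝ) ≤ C := by exact_mod_cast hC1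
  set δ' : ℝ := η / (2 * K) with hδ'
  have hδ'0 : 0 < δ' := by positivity
  set κ : ℝ := min (α * δ') (δ' / β) / C with hκ
  have hκ0 : 0 < κ := div_pos (lt_min (by positivity) (by positivity)) hC0
  set δ : ℝ := κ / 2 with hδ
  have hδ0 : 0 < δ := by positivity
  obtain ⟨C2, hC2, hE⟩ := eq2_one hE2 δ hδ0
  set K' : ℝ := 8 + 2 / δ ^ 2 + α ^ 2 + β ^ 2 with hK'
  have hK'0 : 0 < K' := by positivity
  set M : ℕ := ⌈1 / δ⌉₊ + ⌈2 * K' * C2 * C / η⌉₊ with hMdef
  have hM1 : 1 / δ ≤ M := by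
    have h1 : 1 / δ ≤ (⌈1 / δ⌉₊ : ℝ) := Nat.le_ceil _
    have h2 : (0 : ℝ) ≤ (⌈2 * K' * C2 * C / η⌉₊ : ℝ) := Nat.cast_nonneg _
    rw [hMdef]
    push_cast
    linarith
  have hM2 : 2 * K' * C2 * C / η ≤ M := by
    have h1 : 2 * K' * C2 * C / η ≤ (⌈2 * K' * C2 * C / η⌉₊ : ℝ) := Nat.le_ceil _
    have h2 : (0 : ℝ) ≤ (⌈1 / δ⌉₊ : ℝ) := Nat.cast_nonneg _
    rw [hMdef]
    push_cast
    linarith
  have hM0 : (0 : ℝ) < M := lt_of_lt_of_le (by positivity) hM1
  have hM : 1 ≤ M := by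
    have : 0 < M := by exact_mod_cast hM0
    exact this
  have hM1R : (1 : ℝ) ≤ M := by exact_mod_cast hM
  have hMδ : 1 / (M : ℝ) ≤ δ := by
    rw [div_le_iff₀ hδ0] at hM1
    rw [div_le_iff₀ hM0]
    linarith
  obtain ⟨N0, hN0⟩ := hE (1 / M) (by positivity) ((div_le_one hM0).2 hM1R)
  refine ⟨C, M, hC1, hM, max (max N0 1) (max M (max ⌈β ^ 2 * M⌉₊ ⌈α ^ 2 * M⌉₊)), fun x hx => ?_⟩
  have hxN0 : N0 ≤ x := ((le_max_left _ _).trans (le_max_left _ _)).trans hx
  have hx1 : 1 ≤ x := ((le_max_right _ _).trans (le_max_left _ _)).trans hx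
  have hxM : M ≤ x := ((le_max_left _ _).trans (le_max_right _ _)).trans hx
  have hx3 := ((le_max_right _ _).trans (le_max_right _ _)).trans hx
  have hxR : (1 : ℝ) ≤ x := by exact_mod_cast hx1
  have hxβ : β ^ 2 * M ≤ C * x := by
    have h1 : β ^ 2 * M ≤ x := (Nat.le_ceil _).trans (by exact_mod_cast (le_max_left _ _).trans hx3)
    nlinarith
  have hxα : α ^ 2 * M ≤ C * x := by
    have h1 : α ^ 2 * M ≤ x := (Nat.le_ceil _).trans
      (by exact_mod_cast (le_max_right _ _).trans hx3)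
    nlinarith
  have hCx : 1 ≤ C * x := Nat.mul_pos hC1 hx1
  have hxCx : x ≤ C * x := Nat.le_mul_of_pos_left x hC1
  have hCxR : (0 : ℝ) < ((C * x : ℕ) : ℝ) := by exact_mod_cast hCx
  set ix : GaussianInt × GaussianInt → ℕ × ℕ := fun p => (cix M (C * x) p.1, cix M (C * x) p.2)
    with hix
  -- indices of the pairs of the sector
  have hidx : ∀ p ∈ SEC α β x, 1 ≤ (ix p).1 ∧ (ix p).1 ≤ M ∧ 1 ≤ (ix p).2 ∧ (ix p).2 ≤ M := by
    intro p hp
    obtain ⟨k1, k2⟩ := sec_norms hα hCle hβ hp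
    obtain ⟨f1, f2, f3, f4, f5⟩ := pair_facts (mem_SEC.1 hp).1
    have aux : ∀ z : GaussianInt, 1 ≤ (nN z : ℝ) → (nN z : ℝ) ≤ (C * x : ℕ) →
        1 ≤ cix M (C * x) z ∧ cix M (C * x) z ≤ M := by
      intro z hz1 hz2
      unfold cix
      constructor
      · rw [Nat.one_le_ceil_iff]
        have : 0 < (nN z : ℝ) := by linarith
        positivity
      · rw [Nat.ceil_le, div_le_iff₀ hCxR]
        exact mul_le_mul_of_nonneg_left hz2 hM0.le
    obtain ⟨a1, a2⟩ := aux p.1 f3 k1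
    obtain ⟨a3, a4⟩ := aux p.2 f4 k2
    exact ⟨a1, a2, a3, a4⟩
  -- splitting
  set G : Finset (ℕ × ℕ) := (Finset.Icc 2 M ×ˢ Finset.Icc 2 M).filter
    (fun ij => Good α β C M ij.1 ij.2) with hG
  rw [← Finset.sum_filter_add_sum_filter_not (SEC α β x) (fun p => ix p ∈ G)]
  refine (abs_add_le _ _).trans (add_le_add ?_ ?_)
  · -- good cells
    have hmaps : ∀ p ∈ (SEC α β x).filter (fun p => ix p ∈ G), ix p ∈ G := by
      intro p hp
      exact (Finset.mem_filter.1 hp).2
    rw [← Finset.sum_fiberwise_of_maps_to hmaps]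
    refine (Finset.abs_sum_le_sum_abs _ _).trans ?_
    have h1 : ∀ ij ∈ G, |∑ p ∈ ((SEC α β x).filter (fun p => ix p ∈ G)).filter
        (fun p => ix p = ij), z_wt p| = |cellS M (C * x) ij| := by
      intro ij hij
      congr 1
      have hij' := hij
      rw [hG, Finset.mem_filter, Finset.mem_product, Finset.mem_Icc, Finset.mem_Icc] at hij'
      rw [cellS_eq hα hβ hC1 hM hx1 hij'.1.1.1 hij'.1.2.1 hij'.1.1.2 hij'.1.2.2 hij'.2 hxβ,
        Finset.filter_filter]
      refine Finset.sum_congr ?_ fun _ _ => rfl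
      refine Finset.filter_congr fun p _ => ?_
      simp only [hix, Prod.ext_iff]
      constructor
      · exact fun h => h.2
      · intro h
        refine ⟨?_, h⟩
        have : ((cix M (C * x) p.1, cix M (C * x) p.2) : ℕ × ℕ) = ij := Prod.ext h.1 h.2
        rw [this]
        exact hij
    rw [Finset.sum_congr rfl h1]
    exact Finset.sum_le_sum_of_subset_of_nonneg (Finset.filter_subset _ _)
      fun _ _ _ => abs_nonneg _
  · -- the others
    have h1 : |∑ p ∈ (SEC α β x).filter (fun p => ¬ ix p ∈ G), z_wt p| ≤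
        (((SEC α β x).filter (fun p => ¬ ix p ∈ G)).card : ℝ) := by
      refine (Finset.abs_sum_le_sum_abs _ _).trans ?_
      refine (Finset.sum_le_sum fun p _ => abs_wt_le p).trans (le_of_eq ?_)
      rw [Finset.sum_const, nsmul_eq_mul, mul_one]
    refine h1.trans ?_
    have hsub : (SEC α β x).filter (fun p => ¬ ix p ∈ G) ⊆ SEC α β ⌊δ' * x⌋₊ ∪
        (BadS α β δ C M).biUnion (fun ij => CE (((ij.1 : ℝ) - 1) / M) (((ij.2 : ℝ) - 1) / M)
          (1 / M) (C * x)) := by
      intro p hp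
      rw [Finset.mem_filter] at hp
      obtain ⟨hp, hnG⟩ := hp
      obtain ⟨q1, q2, q3, q4⟩ := hidx p hp
      rw [Finset.mem_union]
      by_cases hn : (dotG p.1 p.2 : ℝ) ≤ δ' * x
      · left
        rw [mem_SEC] at hp ⊢
        refine ⟨?_, hp.2⟩
        rw [mem_PP] at hp ⊢
        refine ⟨hp.1.1, hp.1.2.1, ?_⟩
        obtain ⟨n, hn'⟩ := Int.eq_ofNat_of_zero_le (show 0 ≤ dotG p.1 p.2 by linarith [hp.1.2.1])
        rw [hn'] at hn ⊢
        have h2 : n ≤ ⌊δ' * x⌋₊ := Nat.le_floor (by exact_mod_cast hn)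
        exact_mod_cast h2
      · right
        push Not at hn
        have hpS := mem_SEC.1 hp
        obtain ⟨f1, f2, f3, f4, f5⟩ := pair_facts hpS.1
        set n : ℝ := (dotG p.1 p.2 : ℝ) with hndef
        have hn0 : 0 < n := by linarith
        obtain ⟨r1, r2⟩ := (cix_iff hM hCx p.1 q1).1 rfl
        obtain ⟨r3, r4⟩ := (cix_iff hM hCx p.2 q3).1 rfl
        have q1' : (1 : ℝ) ≤ ((ix p).1 : ℝ) := by exact_mod_cast q1
        have q3' : (1 : ℝ) ≤ ((ix p).2 : ℝ) := by exact_mod_cast q3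
        -- lower bounds for the norms
        have hs : κ * (C * x : ℕ) < nN p.1 := by
          have k1 : κ ≤ α * δ' / C := by
            rw [hκ]
            exact div_le_div_of_nonneg_right (min_le_left _ _) hC0.le
          calc κ * ((C * x : ℕ) : ℝ) ≤ α * δ' / C * ((C * x : ℕ) : ℝ) :=
                mul_le_mul_of_nonneg_right k1 hCxR.le
            _ = α * (δ' * x) := by push_cast; field_simp
            _ < α * n := mul_lt_mul_of_pos_left hn hα
            _ < nN p.1 := hpS.2.1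
        have ht : κ * (C * x : ℕ) < nN p.2 := by
          have k1 : κ ≤ δ' / β / C := by
            rw [hκ]
            exact div_le_div_of_nonneg_right (min_le_right _ _) hC0.le
          have k2 : n / β < nN p.2 := by
            have k3 : n ^ 2 < β * n * nN p.2 := by
              calc n ^ 2 < n ^ 2 + 1 := by linarith
                _ = (nN p.1 : ℝ) * nN p.2 := f5.symm
                _ ≤ β * n * nN p.2 := mul_le_mul_of_nonneg_right hpS.2.2 (by linarith)
            rw [div_lt_iff₀ hβ]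
            have k4 : n * n < n * (nN p.2 * β) := by nlinarith
            exact lt_of_mul_lt_mul_left k4 hn0.le
          calc κ * ((C * x : ℕ) : ℝ) ≤ δ' / β / C * ((C * x : ℕ) : ℝ) :=
                mul_le_mul_of_nonneg_right k1 hCxR.le
            _ = δ' * x / β := by push_cast; field_simp
            _ < n / β := div_lt_div_of_pos_right hn hβ
            _ < nN p.2 := k2
        have aux : ∀ (i : ℕ) (w : ℝ), κ * (C * x : ℕ) < w → w ≤ (i : ℝ) / M * (C * x : ℕ) →
            δ ≤ ((i : ℝ) - 1) / M := by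
          intro i w hw1 hw2
          have k1 : κ < (i : ℝ) / M := by
            have := hw1.trans_le hw2
            exact lt_of_mul_lt_mul_right this hCxR.le
          rw [sub_div]
          have : κ = δ + δ := by rw [hδ]; ring
          linarith
        have d1 := aux _ _ hs r2
        have d2 := aux _ _ ht r4
        have hi2 : 2 ≤ (ix p).1 := by
          by_contra hcon
          have : (ix p).1 = 1 := by omega
          have h3 : δ ≤ (((ix p).1 : ℝ) - 1) / M := d1
          rw [this] at h3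
          simp only [Nat.cast_one, sub_self, zero_div] at h3
          linarith
        have hj2 : 2 ≤ (ix p).2 := by
          by_contra hcon
          have : (ix p).2 = 1 := by omega
          have h3 : δ ≤ (((ix p).2 : ℝ) - 1) / M := d2
          rw [this] at h3
          simp only [Nat.cast_one, sub_self, zero_div] at h3
          linarith
        have hng : ¬ Good α β C M (ix p).1 (ix p).2 := by
          intro hg
          apply hnG
          rw [hG, Finset.mem_filter, Finset.mem_product, Finset.mem_Icc, Finset.mem_Icc]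
          exact ⟨⟨⟨hi2, q2⟩, hj2, q4⟩, hg⟩
        have hbad := bad_cell hα hβ hC1 hM hx1 hxM q1 q3 hng hxα hp r1 r2 r3 r4
        rw [Finset.mem_biUnion]
        refine ⟨ix p, ?_, ?_⟩
        · unfold BadS
          rw [Finset.mem_filter, Finset.mem_product, Finset.mem_Icc, Finset.mem_Icc]
          exact ⟨⟨⟨q1, q2⟩, q3, q4⟩, d1, d2, hbad⟩
        · unfold CE
          rw [Finset.mem_filter]
          refine ⟨sec_dpairs hα hCle hβ hp, r1, ?_, r3, ?_⟩
          · have : (((ix p).1 : ℝ) - 1) / M + 1 / M = ((ix p).1 : ℝ) / M := by ring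
            rw [this]
            exact r2
          · have : (((ix p).2 : ℝ) - 1) / M + 1 / M = ((ix p).2 : ℝ) / M := by ring
            rw [this]
            exact r4
    have h2 : (((SEC α β x).filter (fun p => ¬ ix p ∈ G)).card : ℝ) ≤
        ((SEC α β ⌊δ' * x⌋₊).card : ℝ) + ∑ ij ∈ BadS α β δ C M,
          ((CE (((ij.1 : ℝ) - 1) / M) (((ij.2 : ℝ) - 1) / M) (1 / M) (C * x)).card : ℝ) := by
      have h3 := (Finset.card_le_card hsub).trans ((Finset.card_union_le _ _).trans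
        (Nat.add_le_add_left Finset.card_biUnion_le _))
      exact_mod_cast h3
    refine h2.trans ?_
    have h3 : ((SEC α β ⌊δ' * x⌋₊).card : ℝ) ≤ η / 2 * x := by
      refine (hsec _).trans ?_
      have h4 : (⌊δ' * x⌋₊ : ℝ) ≤ δ' * x := Nat.floor_le (by positivity)
      calc K * (⌊δ' * x⌋₊ : ℝ) ≤ K * (δ' * x) := mul_le_mul_of_nonneg_left h4 hK.le
        _ = η / 2 * x := by rw [hδ']; field_simp
    have h4 : ∑ ij ∈ BadS α β δ C M,
        ((CE (((ij.1 : ℝ) - 1) / M) (((ij.2 : ℝ) - 1) / M) (1 / M) (C * x)).card : ℝ) ≤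
        ∑ ij ∈ BadS α β δ C M, C2 * (1 / M) ^ 2 * (C * x : ℕ) := by
      refine Finset.sum_le_sum fun ij hij => ?_
      unfold BadS at hij
      rw [Finset.mem_filter, Finset.mem_product, Finset.mem_Icc, Finset.mem_Icc] at hij
      obtain ⟨⟨⟨k1, k2⟩, k3, k4⟩, k5, k6, -⟩ := hij
      have k2' : (ij.1 : ℝ) ≤ M := by exact_mod_cast k2
      have k4' : (ij.2 : ℝ) ≤ M := by exact_mod_cast k4
      exact hN0 (C * x) (hxN0.trans hxCx) _ _ k5 ((div_le_one hM0).2 (by linarith)) k6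
        ((div_le_one hM0).2 (by linarith))
    rw [Finset.sum_const, nsmul_eq_mul] at h4
    have h5 : ((BadS α β δ C M).card : ℝ) * (C2 * (1 / M) ^ 2 * (C * x : ℕ)) ≤ η / 2 * x := by
      calc ((BadS α β δ C M).card : ℝ) * (C2 * (1 / M) ^ 2 * (C * x : ℕ))
          ≤ K' * M * (C2 * (1 / M) ^ 2 * (C * x : ℕ)) :=
            mul_le_mul_of_nonneg_right (badS_card hδ0 hC1 hM) (by positivity)
        _ = K' * C2 * C / M * x := by push_cast; field_simp
        _ ≤ η / 2 * x := by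
            apply mul_le_mul_of_nonneg_right _ (by linarith)
            rw [div_le_iff₀ hM0]
            rw [div_le_iff₀ hη] at hM2
            linarith
    linarith

end Pool.Agent.LogCh
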