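import Pool.Agent.Lib.LogCh.ZSLog
import Pool.Agent.Lib.LogCh.ZSKey
import Pool.Agent.Lib.LogCh.ZMain

/-!
# The main theorem at almost all scales, from `LOGSStmt` and `EQ2Stmt`
-/

set_option autoImplicit false

namespace Pool.Agent.LogCh

open Real
open Pool.Agent.NSqP
open Pool.Agent.MP484c84Par (ballG mem_ballG crossG dotG)

lemma sum_divisors_eq' (α β : ℝ) (x : ℕ) :
    ∑ n ∈ Finset.Icc 1 x, ((ArithmeticFunction.liouville (n ^ 2 + 1) : ℤ) : ℝ) *
      (((n ^ 2 + 1).divisors.filter (fun d : ℕ => α * n < d ∧ (d : ℝ) ≤ β * n)).card : ℝ) =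
      (∑ p ∈ SEC α β x, z_wt p) / 4 := by
  classical
  have h1 := sum_PP x (fun n d : ℕ => if α * n < ((d : ℕ) : ℝ) ∧ ((d : ℕ) : ℝ) ≤ β * n then
    ((ArithmeticFunction.liouville (n ^ 2 + 1) : ℤ) : ℝ) else 0)
  have h2 : ∀ n ∈ Finset.Icc 1 x, ∑ d ∈ (n ^ 2 + 1).divisors,
      (if α * n < ((d : ℕ) : ℝ) ∧ ((d : ℕ) : ℝ) ≤ β * n then
        ((ArithmeticFunction.liouville (n ^ 2 + 1) : ℤ) : ℝ) else 0) =
      ((ArithmeticFunction.liouville (n ^ 2 + 1) : ℤ) : ℝ) *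
      (((n ^ 2 + 1).divisors.filter (fun d : ℕ => α * n < d ∧ (d : ℝ) ≤ β * n)).card : ℝ) := by
    intro n _
    rw [← Finset.sum_filter, Finset.sum_const, nsmul_eq_mul]
    ring
  rw [Finset.sum_congr rfl h2] at h1
  have h3 : ∑ p ∈ PP x, (if α * ((dotG p.1 p.2).toNat : ℕ) < (nN p.1 : ℝ) ∧
      ((nN p.1 : ℕ) : ℝ) ≤ β * ((dotG p.1 p.2).toNat : ℕ) then
        ((ArithmeticFunction.liouville ((dotG p.1 p.2).toNat ^ 2 + 1) : ℤ) : ℝ) else 0) =
        ∑ p ∈ SEC α β x, z_wt p := by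
    have hfil : ∑ p ∈ SEC α β x, z_wt p = ∑ p ∈ PP x, if p ∈ SEC α β x then z_wt p else 0 := by
      rw [← Finset.sum_filter]
      congr 1
      ext p
      rw [Finset.mem_filter]
      exact ⟨fun h => ⟨(mem_SEC.1 h).1, h⟩, fun h => h.2⟩
    rw [hfil]
    refine Finset.sum_congr rfl fun p hp => ?_
    rw [cast_toNat_dot hp]
    have hiff : (α * (dotG p.1 p.2 : ℝ) < (nN p.1 : ℝ) ∧
        ((nN p.1 : ℕ) : ℝ) ≤ β * (dotG p.1 p.2 : ℝ)) ↔ p ∈ SEC α β x := by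
      rw [mem_SEC]
      exact ⟨fun h => ⟨hp, h⟩, fun h => h.2⟩
    by_cases h : p ∈ SEC α β x
    · rw [if_pos h, if_pos (hiff.2 h)]
      have h4 : (dotG p.1 p.2).toNat ^ 2 + 1 = nN p.1 * nN p.2 := by
        have h5 := dot_cross_nN p.1 p.2
        rw [(mem_PP.1 hp).1] at h5
        have h6 := (mem_PP.1 hp).2.1
        have h7 : (((dotG p.1 p.2).toNat : ℕ) : ℤ) = dotG p.1 p.2 :=
          Int.toNat_of_nonneg (by omega)
        have h8 : (((dotG p.1 p.2).toNat ^ 2 + 1 : ℕ) : ℤ) = ((nN p.1 * nN p.2 : ℕ) : ℤ) := by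
          push_cast
          rw [h7]
          linarith
        exact_mod_cast h8
      rw [h4, ArithmeticFunction.liouville_apply_mul]
      unfold z_wt lam
      push_cast
      ring
    · rw [if_neg h, if_neg (fun h' => h (hiff.1 h'))]
  rw [h3] at h1
  linarith

/-- a finite family of cells at the scales `C x` -/
lemma cells_log (hL : LOGSStmt) (C M : ℕ) (hC : 1 ≤ C) (hM : 1 ≤ M) (ε : ℝ) (hε : 0 < ε) :
    ∃ X0 : ℕ, ∀ X : ℕ, X0 ≤ X → ∀ ij ∈ Finset.Icc 2 M ×ˢ Finset.Icc 2 M,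
      ∑ x ∈ Finset.Icc 1 X, 1 / (x : ℝ) ^ 2 * |cellS M (C * x) ij| ≤ ε * log X := by
  classical
  have hM0 : (0 : ℝ) < M := by exact_mod_cast hM
  have hC0 : (1 : ℝ) ≤ C := by exact_mod_cast hC
  have key : ∀ ij : ℕ × ℕ, ij ∈ Finset.Icc 2 M ×ˢ Finset.Icc 2 M → ∃ X0 : ℕ, ∀ X : ℕ, X0 ≤ X →
      ∑ N ∈ Finset.Icc 1 X, |cellS M N ij| / (N : ℝ) ^ 2 ≤ ε / (2 * C ^ 2) * log X := by
    intro ij hij
    rw [Finset.mem_product, Finset.mem_Icc, Finset.mem_Icc] at hij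
    obtain ⟨⟨k1, k2⟩, k3, k4⟩ := hij
    have k1' : (2 : ℝ) ≤ ij.1 := by exact_mod_cast k1
    have k3' : (2 : ℝ) ≤ ij.2 := by exact_mod_cast k3
    have k2' : (ij.1 : ℝ) ≤ M := by exact_mod_cast k2
    have k4' : (ij.2 : ℝ) ≤ M := by exact_mod_cast k4
    exact hL _ _ _ _ (div_pos (by linarith) hM0) (div_lt_div_of_pos_right (by linarith) hM0)
      ((div_le_one hM0).2 k2') (div_pos (by linarith) hM0)
      (div_lt_div_of_pos_right (by linarith) hM0) ((div_le_one hM0).2 k4') _ (by positivity)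
  choose! X1 hX1 using key
  obtain ⟨X2, hX2⟩ := log_dominates 1 (log C) one_pos
  refine ⟨max ((Finset.Icc 2 M ×ˢ Finset.Icc 2 M).sup X1) (max X2 1), fun X hX ij hij => ?_⟩
  have h1 : X1 ij ≤ X := (Finset.le_sup hij).trans ((le_max_left _ _).trans hX)
  have h2 : X2 ≤ X := ((le_max_left _ _).trans (le_max_right _ _)).trans hX
  have h3 : 1 ≤ X := ((le_max_right _ _).trans (le_max_right _ _)).trans hX
  have h3' : (1 : ℝ) ≤ X := by exact_mod_cast h3
  have hXC : X ≤ C * X := Nat.le_mul_of_pos_left X hC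
  have h4 := hX1 ij hij (C * X) (h1.trans hXC)
  have h5 : ∑ x ∈ Finset.Icc 1 X, |cellS M (C * x) ij| / ((C * x : ℕ) : ℝ) ^ 2 ≤
      ∑ N ∈ Finset.Icc 1 (C * X), |cellS M N ij| / (N : ℝ) ^ 2 := by
    have hinj : Set.InjOn (fun x : ℕ => C * x) (Finset.Icc 1 X : Set ℕ) := by
      intro x _ y _ hxy
      exact Nat.eq_of_mul_eq_mul_left hC hxy
    have h6 : ∑ N ∈ (Finset.Icc 1 X).image (fun x : ℕ => C * x), |cellS M N ij| / (N : ℝ) ^ 2 =
        ∑ x ∈ Finset.Icc 1 X, |cellS M (C * x) ij| / ((C * x : ℕ) : ℝ) ^ 2 :=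
      Finset.sum_image hinj
    rw [← h6]
    apply Finset.sum_le_sum_of_subset_of_nonneg
    · intro N hN
      rw [Finset.mem_image] at hN
      obtain ⟨x, hx, rfl⟩ := hN
      rw [Finset.mem_Icc] at hx ⊢
      exact ⟨Nat.mul_pos hC hx.1, Nat.mul_le_mul_left C hx.2⟩
    · intro N _ _
      positivity
  have h6 : ∑ x ∈ Finset.Icc 1 X, 1 / (x : ℝ) ^ 2 * |cellS M (C * x) ij| =
      C ^ 2 * ∑ x ∈ Finset.Icc 1 X, |cellS M (C * x) ij| / ((C * x : ℕ) : ℝ) ^ 2 := by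
    rw [Finset.mul_sum]
    refine Finset.sum_congr rfl fun x hx => ?_
    have hx1 : (1 : ℝ) ≤ x := by exact_mod_cast (Finset.mem_Icc.1 hx).1
    push_cast
    field_simp
  have h7 : log ((C * X : ℕ) : ℝ) ≤ 2 * log X := by
    push_cast
    rw [log_mul (by linarith) (by linarith)]
    have := hX2 X h2
    linarith
  rw [h6]
  calc (C : ℝ) ^ 2 * ∑ x ∈ Finset.Icc 1 X, |cellS M (C * x) ij| / ((C * x : ℕ) : ℝ) ^ 2
      ≤ C ^ 2 * (ε / (2 * C ^ 2) * log ((C * X : ℕ) : ℝ)) :=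
        mul_le_mul_of_nonneg_left (h5.trans h4) (by positivity)
    _ ≤ C ^ 2 * (ε / (2 * C ^ 2) * (2 * log X)) := by
        apply mul_le_mul_of_nonneg_left _ (by positivity)
        exact mul_le_mul_of_nonneg_left h7 (by positivity)
    _ = ε * log X := by field_simp

theorem ZSp (hL : LOGSStmt) (hE2 : EQ2Stmt) : ZSStmt := by
  classical
  intro α β hα hαβ
  rw [Metric.tendsto_atTop]
  intro ε hε
  have hβ : 0 < β := hα.trans hαβ
  obtain ⟨K, hK, hsec⟩ := sec_card α β hα hβ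
  obtain ⟨C, M, hC, hM, x0, hx0⟩ := sector_cells hE2 α β hα hαβ ε hε
  set G : Finset (ℕ × ℕ) := Finset.Icc 2 M ×ˢ Finset.Icc 2 M with hG
  obtain ⟨X1, hX1⟩ := cells_log hL C M hC hM (ε / (G.card + 1)) (by positivity)
  rw [← hG] at hX1
  set B : ℝ := ∑ x ∈ Finset.Icc 1 x0, 1 / (x : ℝ) ^ 2 * (K * x) with hB
  have hB0 : 0 ≤ B := Finset.sum_nonneg fun x _ => by positivity
  obtain ⟨X2, hX2⟩ := log_dominates (ε / 2) (B + ε) (by positivity)
  refine ⟨max (max X1 X2) 3, fun X hX => ?_⟩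
  have hXX1 : X1 ≤ X := ((le_max_left _ _).trans (le_max_left _ _)).trans hX
  have hXX2 : X2 ≤ X := ((le_max_right _ _).trans (le_max_left _ _)).trans hX
  have hX3 : (3 : ℝ) ≤ X := by exact_mod_cast (le_max_right _ _).trans hX
  have hlog : 0 < log X := log_pos (by linarith)
  -- the sums
  set S : ℕ → ℝ := fun x => ∑ p ∈ SEC α β x, z_wt p with hS
  have e1 : ∀ x ∈ Finset.Icc 1 X, (1 / (x : ℝ) ^ 2) *
      |∑ n ∈ Finset.Icc 1 x, ((ArithmeticFunction.liouville (n ^ 2 + 1) : ℤ) : ℝ) *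
        (((n ^ 2 + 1).divisors.filter (fun d : ℕ => α * n < d ∧ (d : ℝ) ≤ β * n)).card : ℝ)| =
      1 / (x : ℝ) ^ 2 * |S x| / 4 := by
    intro x _
    rw [sum_divisors_eq', abs_div, abs_of_pos (show (0 : ℝ) < 4 by norm_num)]
    ring
  rw [Finset.sum_congr rfl e1, ← Finset.sum_div, dist_zero_right, Real.norm_eq_abs]
  have hnn : 0 ≤ ∑ x ∈ Finset.Icc 1 X, 1 / (x : ℝ) ^ 2 * |S x| :=
    Finset.sum_nonneg fun x _ => by positivity
  rw [abs_of_nonneg (by positivity)]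
  have hpt : ∀ x ∈ Finset.Icc 1 X, 1 / (x : ℝ) ^ 2 * |S x| ≤
      (if x ≤ x0 then 1 / (x : ℝ) ^ 2 * (K * x) else 0) +
        (∑ ij ∈ G, 1 / (x : ℝ) ^ 2 * |cellS M (C * x) ij| + ε * (1 / x)) := by
    intro x hx
    have hx1 : (1 : ℝ) ≤ x := by exact_mod_cast (Finset.mem_Icc.1 hx).1
    have hsum0 : 0 ≤ ∑ ij ∈ G, 1 / (x : ℝ) ^ 2 * |cellS M (C * x) ij| :=
      Finset.sum_nonneg fun ij _ => by positivity
    have hε0 : 0 ≤ ε * (1 / (x : ℝ)) := by positivity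
    by_cases h : x ≤ x0
    · rw [if_pos h]
      have h1 : |S x| ≤ K * x := by
        refine le_trans ?_ (hsec x)
        refine (Finset.abs_sum_le_sum_abs _ _).trans ?_
        refine (Finset.sum_le_sum fun p _ => abs_wt_le p).trans (le_of_eq ?_)
        rw [Finset.sum_const, nsmul_eq_mul, mul_one]
      have h2 := mul_le_mul_of_nonneg_left h1 (show 0 ≤ 1 / (x : ℝ) ^ 2 by positivity)
      linarith
    · rw [if_neg h, zero_add]
      push Not at h
      have h1 := hx0 x h.le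
      calc 1 / (x : ℝ) ^ 2 * |S x| ≤ 1 / (x : ℝ) ^ 2 * (∑ ij ∈ G, |cellS M (C * x) ij| + ε * x) :=
            mul_le_mul_of_nonneg_left h1 (by positivity)
        _ = ∑ ij ∈ G, 1 / (x : ℝ) ^ 2 * |cellS M (C * x) ij| + ε * (1 / x) := by
            rw [mul_add, Finset.mul_sum]
            congr 1
            field_simp
  have htot : ∑ x ∈ Finset.Icc 1 X, 1 / (x : ℝ) ^ 2 * |S x| ≤ B + (ε * log X + ε * (1 + log X)) := by
    refine (Finset.sum_le_sum hpt).trans ?_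
    rw [Finset.sum_add_distrib, Finset.sum_add_distrib, Finset.sum_comm, ← Finset.mul_sum]
    refine add_le_add ?_ (add_le_add ?_ ?_)
    · rw [← Finset.sum_filter]
      apply Finset.sum_le_sum_of_subset_of_nonneg
      · intro x hx
        rw [Finset.mem_filter, Finset.mem_Icc] at hx
        exact Finset.mem_Icc.2 ⟨hx.1.1, hx.2⟩
      · intro x _ _
        positivity
    · refine (Finset.sum_le_sum fun ij hij => hX1 X hXX1 ij hij).trans ?_
      rw [Finset.sum_const, nsmul_eq_mul]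
      have h1 : (G.card : ℝ) * (ε / (G.card + 1) * log X) =
          (G.card / (G.card + 1)) * (ε * log X) := by ring
      rw [h1]
      have h2 : (G.card : ℝ) / (G.card + 1) ≤ 1 := by
        rw [div_le_one (by positivity)]
        linarith
      have h3 : 0 ≤ ε * log X := by positivity
      nlinarith
    · exact mul_le_mul_of_nonneg_left (sum_inv_Icc_le X) hε.le
  have h2 := hX2 X hXX2
  rw [one_div, inv_mul_lt_iff₀ hlog]
  linarith

end Pool.Agent.LogCh
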