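import Pool.Agent.Lib.LogCh.ZMain
import Pool.Agent.Lib.LogCh.ZSMain
import Pool.Agent.Lib.LogCh.ZSLog
import Pool.Agent.Lib.LogCh.ZLow
import Pool.Agent.Lib.LogCh.PFin
import Pool.Agent.Lib.LogCh.AFin
import Pool.Agent.Lib.LogCh.EFin
import Pool.Agent.Lib.LogCh.ESub
import Pool.Agent.Lib.LogCh.Mrc
import Pool.Agent.Lib.LogCh.DEQ2

/-!
# Cancellation of the Liouville function at `n ^ 2 + 1`, weighted by balanced divisors
-/

set_option autoImplicit false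

namespace Pool.Agent.LogCh

open Real

theorem EQ2S : EQ2Stmt := fun δ hδ => EQ2' δ hδ

theorem MRCS : MRCStmt := fun r hr b ρ ρ' h1 h2 h3 ε hε => MRC r hr b ρ ρ' h1 h2 h3 ε hε

/-- the block estimate -/
theorem BLOCKfin : BLOCKStmt :=
  BLOCKp E0p E1p
    (TTSUMp (STRIPp EQ2S) (E3ap COFp) CNTp COFp)
    (TTAPPp (E3ap COFp) (E3bp COFp))
    (TSTRIPp (STRIPp EQ2S) COFp)
    (EERRp EQ2S (PARSp ORTHp CONDSp) COFp)
    (ECHp (MLSp GSUMp) (LFp NPCp) QUPp)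
    (ETRUNCp CNTp) (BADMp CNTp)
    (ESTRp (STRUCTp STGEOp STCNTp STPAIRp MRCS) COFp)
    LIPPHIp QUPp

theorem DECRfin : DECRStmt := fun C1 c hC1 hc hQ a a' b b' ha haa ha1 hb hbb hb1 ε hε P0 =>
  DECR_A C1 c hC1 hc hQ a a' b b' ha haa ha1 hb hbb hb1 ε hε P0

/-- the theorem with logarithmic weights -/
theorem logAveraged (α β : ℝ) (hα : 0 < α) (hαβ : α < β) :
    Filter.Tendsto (fun x : ℕ => (1 / log x) * ∑ n ∈ Finset.Icc 1 x,
      ((ArithmeticFunction.liouville (n ^ 2 + 1) : ℤ) : ℝ) / n *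
        (((n ^ 2 + 1).divisors.filter (fun d : ℕ => α * n < d ∧ (d : ℝ) ≤ β * n)).card : ℝ))
      Filter.atTop (nhds 0) :=
  mainf (LOGCf DECRfin (MAINBp BLOCKfin)) EQ2S α β hα hαβ

/-- the theorem at almost all scales -/
theorem almostAllScales : ZSStmt := ZSp (LOGSp DECRS_P (MAINBSp BLOCKfin)) EQ2S

end Pool.Agent.LogCh
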