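import Pool.Agent.Lib.LogCh.Defs
import Pool.Agent.Lib.NSqP.LC
import Pool.Agent.Lib.NSqP.PiF

/-!
# Group H: definitions and basic facts

Coefficient sequences over the natural numbers attached to functions on the Gaussian integers:
`aG g n = ∑_{N z = n} g z`, the von Mangoldt coefficients `bG g`, the prime part `bP f`, and sums
over the Gaussian primes `IsPi`.
-/

set_option autoImplicit false

namespace Pool.Agent.LogCh.HG

open Real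
open Pool.Agent.NSqP
open Pool.Agent.MP484c84Par (ballG mem_ballG)

/-- Gaussian integers of norm `n` -/
noncomputable def sph (n : ℕ) : Finset GaussianInt :=
  open Classical in (ballG n).filter (fun z => nN z = n)

/-- `∑_{N z = n} g z` -/
noncomputable def aG (g : GaussianInt → ℂ) (n : ℕ) : ℂ := ∑ z ∈ sph n, g z

/-- the number of Gaussian integers of norm `n` -/
noncomputable def r2 (n : ℕ) : ℝ := ((sph n).card : ℝ)

/-- the Gaussian primes `IsPi` of norm `n` (empty unless `n` is a prime `1` modulo `4`) -/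
noncomputable def sphP (n : ℕ) : Finset GaussianInt := (sph n).filter (fun z => IsPi z)

/-- `∑_{N π = n} f π`, over the Gaussian primes `IsPi` -/
noncomputable def bP (f : GaussianInt → ℂ) (n : ℕ) : ℂ := ∑ z ∈ sphP n, f z

/-- the prime elements of norm at most `n` (all associates) -/
noncomputable def prG (n : ℕ) : Finset GaussianInt :=
  open Classical in (ballG n).filter (fun z => Prime z)

/-- von Mangoldt coefficients `∑_{N w ^ j = n} g w ^ j log N w`, over the prime elements modulo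
units -/
noncomputable def bG (g : GaussianInt → ℂ) (n : ℕ) : ℂ :=
  1 / 4 * ∑ w ∈ prG n, ∑ j ∈ Finset.Icc 1 n,
    if nN w ^ j = n then g w ^ j * ((log (nN w) : ℝ) : ℂ) else 0

/-- completely multiplicative functions bounded by one, equal to one at the units -/
structure GM (g : GaussianInt → ℂ) : Prop where
  cm : CMC g
  uni : ∀ u, IsUnit u → g u = 1

/-- the abstract situation of the theorem of Halasz -/
structure HP (a b : ℕ → ℂ) : Prop where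
  conv : ∀ n : ℕ, 1 ≤ n → a n * ((log n : ℝ) : ℂ) = ∑ d ∈ n.divisors, b d * a (n / d)
  hb : ∀ n : ℕ, ‖b n‖ ≤ 2 * ArithmeticFunction.vonMangoldt n
  ha : ∀ n : ℕ, 1 ≤ n → ‖a n‖ ≤ r2 n

/-- absolute value of the partial sum -/
noncomputable def SS (a : ℕ → ℂ) (y : ℝ) : ℝ := ‖∑ n ∈ Finset.Icc 1 ⌊y⌋₊, a n‖

/-- `∑_π F π / N π ^ σ`, over the Gaussian primes `IsPi` -/
noncomputable def QP (F : GaussianInt → ℝ) (σ : ℝ) : ℝ :=
  ∑' n : ℕ, (∑ z ∈ sphP n, F z) / (n : ℝ) ^ σ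

/-- the twist by `N z ^ (- i t)` -/
noncomputable def tw (t : ℝ) (f : GaussianInt → ℂ) (z : GaussianInt) : ℂ :=
  f z * (nN z : ℂ) ^ (-(t : ℂ) * Complex.I)

/-- `λ χ ξ^m` restricted to the `z` without prime factor in the block -/
noncomputable def gg (χ : GaussianInt → ℂ) (m : ℤ) (H v : ℕ) (z : GaussianInt) : ℂ :=
  open Classical in if ∀ q ∈ blk H v, ¬ q ∣ z then (lam z : ℂ) * χ z * xi z ^ m else 0

/-- the imaginary unit -/
def gI : GaussianInt := ⟨0, 1⟩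

/-- the statement of `W1A` (group W) -/
def W1AStmt : Prop := ∀ A : ℝ, 1 ≤ A → ∃ κ : ℝ, 0 < κ ∧ ∃ Y0 : ℝ, ∀ Y : ℝ, Y0 ≤ Y →
  ∀ d : ℤ, d ≠ 0 → |(d : ℝ)| ≤ Y ^ A → ∀ a b : ℝ, 0 ≤ a → a ≤ b → b ≤ Y →
    ‖∑ z ∈ ann a b, xi z ^ d‖ ≤ Y ^ (1 - κ)

/-! ## basic facts -/

lemma mem_sph {n : ℕ} {z : GaussianInt} : z ∈ sph n ↔ nN z = n := by
  classical
  unfold sph
  rw [Finset.mem_filter, mem_ballG]
  constructor
  · exact fun h => h.2
  · intro h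
    refine ⟨?_, h⟩
    rw [← nN_cast_int, h]

lemma mem_sphP {n : ℕ} {z : GaussianInt} : z ∈ sphP n ↔ nN z = n ∧ IsPi z := by
  unfold sphP
  rw [Finset.mem_filter, mem_sph]

lemma mem_prG {n : ℕ} {z : GaussianInt} : z ∈ prG n ↔ nN z ≤ n ∧ Prime z := by
  classical
  unfold prG
  rw [Finset.mem_filter, mem_ballG, ← nN_cast_int]
  norm_cast

lemma r2_nonneg (n : ℕ) : 0 ≤ r2 n := Nat.cast_nonneg _

lemma ne_zero_of_mem_sph {n : ℕ} (hn : 1 ≤ n) {z : GaussianInt} (hz : z ∈ sph n) : z ≠ 0 := by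
  rintro rfl
  rw [mem_sph, nN_zero] at hz
  omega

lemma card_sphP_le (n : ℕ) : (sphP n).card ≤ 2 :=
  card_norm_le _ n (fun z hz => by rw [mem_sphP] at hz; exact ⟨hz.2, hz.1⟩)

lemma sphP_eq_empty {n : ℕ} (hn : ¬ n.Prime) : sphP n = ∅ := by
  rw [Finset.eq_empty_iff_forall_notMem]
  intro z hz
  rw [mem_sphP] at hz
  exact hn (hz.1 ▸ hz.2.2.2.1)

lemma sphP_two : sphP 2 = ∅ := by
  rw [Finset.eq_empty_iff_forall_notMem]
  intro z hz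
  rw [mem_sphP] at hz
  have := hz.2.2.2.2
  omega

lemma norm_aG_le {g : GaussianInt → ℂ} (hg : ∀ z, z ≠ 0 → ‖g z‖ ≤ 1) {n : ℕ} (hn : 1 ≤ n) :
    ‖aG g n‖ ≤ r2 n := by
  unfold aG r2
  refine (norm_sum_le _ _).trans ?_
  refine (Finset.sum_le_sum (fun z hz => hg z (ne_zero_of_mem_sph hn hz))).trans ?_
  simp

lemma norm_bP_le {f : GaussianInt → ℂ} (hf : ∀ z, IsPi z → ‖f z‖ ≤ 1) (n : ℕ) : ‖bP f n‖ ≤ 2 := by
  unfold bP
  refine (norm_sum_le _ _).trans ?_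
  refine (Finset.sum_le_sum (fun z hz => hf z (mem_sphP.1 hz).2)).trans ?_
  have : ((sphP n).card : ℝ) ≤ 2 := by exact_mod_cast card_sphP_le n
  simpa using this

/-- sums over annuli as sums over the norm -/
lemma sum_ann {E : Type} [AddCommMonoid E] (G : GaussianInt → E) {a b : ℝ} (ha : 0 ≤ a)
    (hb : 0 ≤ b) : ∑ z ∈ ann a b, G z = ∑ n ∈ Finset.Ioc ⌊a⌋₊ ⌊b⌋₊, ∑ z ∈ sph n, G z := by
  classical
  rw [← Finset.sum_biUnion]
  · refine Finset.sum_congr ?_ (fun _ _ => rfl)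
    ext z
    rw [mem_ann hb, Finset.mem_biUnion]
    constructor
    · rintro ⟨h1, h2⟩
      refine ⟨nN z, ?_, mem_sph.2 rfl⟩
      rw [Finset.mem_Ioc]
      exact ⟨(Nat.floor_lt ha).2 h1, Nat.le_floor h2⟩
    · rintro ⟨n, hn, hz⟩
      rw [mem_sph] at hz
      subst hz
      rw [Finset.mem_Ioc] at hn
      exact ⟨(Nat.floor_lt ha).1 hn.1, (Nat.le_floor_iff hb).1 hn.2⟩
  · intro n _ n' _ h
    rw [Function.onFun, Finset.disjoint_left]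
    intro z hz hz'
    rw [mem_sph] at hz hz'
    exact h (hz ▸ hz')

lemma sum_ann_zero {E : Type} [AddCommMonoid E] (G : GaussianInt → E) {b : ℝ} (hb : 0 ≤ b) :
    ∑ z ∈ ann 0 b, G z = ∑ n ∈ Finset.Icc 1 ⌊b⌋₊, ∑ z ∈ sph n, G z := by
  rw [sum_ann G le_rfl hb, Nat.floor_zero]
  rfl

lemma sum_aG (g : GaussianInt → ℂ) {y : ℝ} (hy : 0 ≤ y) :
    ‖∑ z ∈ ann 0 y, g z‖ = SS (aG g) y := by
  rw [sum_ann_zero g hy]
  rfl

lemma sum_r2_Ioc {u v : ℝ} (hu : 0 ≤ u) (hv : 0 ≤ v) :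
    ∑ n ∈ Finset.Ioc ⌊u⌋₊ ⌊v⌋₊, r2 n = ((ann u v).card : ℝ) := by
  have h := sum_ann (fun _ => (1 : ℝ)) hu hv
  rw [Finset.sum_const, nsmul_eq_mul, mul_one] at h
  rw [h]
  refine Finset.sum_congr rfl (fun n _ => ?_)
  unfold r2
  simp

/-- lattice points in annuli -/
theorem r2_asymp : ∃ C : ℝ, 0 < C ∧ ∀ u v : ℝ, 0 ≤ u → u ≤ v →
    |∑ n ∈ Finset.Ioc ⌊u⌋₊ ⌊v⌋₊, r2 n - π * (v - u)| ≤ C * (√v + 1) := by
  obtain ⟨C, hC, h⟩ := card_ann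
  refine ⟨C, hC, fun u v hu huv => ?_⟩
  rw [sum_r2_Ioc hu (hu.trans huv)]
  exact h u v hu huv

theorem r2_sum_le : ∃ C : ℝ, 0 < C ∧ ∀ t : ℝ, 0 ≤ t → ∑ n ∈ Finset.Icc 1 ⌊t⌋₊, r2 n ≤ C * t := by
  obtain ⟨C, hC, h⟩ := card_ann_le
  refine ⟨C, hC, fun t ht => ?_⟩
  have h1 := sum_r2_Ioc (le_refl (0 : ℝ)) ht
  rw [Nat.floor_zero] at h1
  have h2 : ∑ n ∈ Finset.Icc 1 ⌊t⌋₊, r2 n = ((ann 0 t).card : ℝ) := h1
  rw [h2]
  exact h t ht

lemma SS_nonneg (a : ℕ → ℂ) (y : ℝ) : 0 ≤ SS a y := norm_nonneg _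

lemma SS_of_lt_one (a : ℕ → ℂ) {y : ℝ} (hy : y < 1) : SS a y = 0 := by
  unfold SS
  have : ⌊y⌋₊ = 0 := Nat.floor_eq_zero.2 hy
  rw [this]
  simp

lemma SS_sub_le {a : ℕ → ℂ} (ha : ∀ n : ℕ, 1 ≤ n → ‖a n‖ ≤ r2 n) {u v : ℝ} (huv : u ≤ v) :
    |SS a v - SS a u| ≤ ∑ n ∈ Finset.Ioc ⌊u⌋₊ ⌊v⌋₊, r2 n := by
  unfold SS
  refine (abs_norm_sub_norm_le _ _).trans ?_
  have h : ∑ n ∈ Finset.Icc 1 ⌊v⌋₊, a n - ∑ n ∈ Finset.Icc 1 ⌊u⌋₊, a n =
      ∑ n ∈ Finset.Ioc ⌊u⌋₊ ⌊v⌋₊, a n := by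
    have h1 : ⌊u⌋₊ ≤ ⌊v⌋₊ := Nat.floor_le_floor huv
    have h2 := Finset.sum_Ioc_consecutive a (Nat.zero_le ⌊u⌋₊) h1
    have h3 : ∀ N, Finset.Icc 1 N = Finset.Ioc 0 N := fun N => rfl
    rw [h3, h3, ← h2]
    ring
  rw [h]
  refine (norm_sum_le _ _).trans (Finset.sum_le_sum (fun n hn => ha n ?_))
  rw [Finset.mem_Ioc] at hn
  omega

theorem SS_le : ∃ C : ℝ, 0 < C ∧ ∀ a : ℕ → ℂ, (∀ n : ℕ, 1 ≤ n → ‖a n‖ ≤ r2 n) → ∀ y : ℝ, 0 ≤ y →
    SS a y ≤ C * y := by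
  obtain ⟨C, hC, h⟩ := r2_sum_le
  refine ⟨C, hC, fun a ha y hy => ?_⟩
  unfold SS
  refine (norm_sum_le _ _).trans ((Finset.sum_le_sum (fun n hn => ha n ?_)).trans (h y hy))
  exact (Finset.mem_Icc.1 hn).1

lemma chi_norm_le {r : ℕ} {χ : GaussianInt → ℂ} (hχ : ChiMod r χ) (z : GaussianInt) :
    ‖χ z‖ ≤ 1 := by
  by_cases h : IsCoprime z (r : GaussianInt)
  · exact (hχ.norm z h).le
  · rw [hχ.zero z h]; simp

lemma GM.norm_le {g : GaussianInt → ℂ} (hg : GM g) : ∀ z, z ≠ 0 → ‖g z‖ ≤ 1 := hg.cm.le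

lemma GM_one : GM (fun _ => (1 : ℂ)) := ⟨CMC_one, fun _ _ => rfl⟩

lemma nN_gI : nN gI = 1 := by
  unfold nN gI
  simp [Zsqrtd.norm_def]

end Pool.Agent.LogCh.HG
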