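import Pool.Agent.Lib.LogCh.H0

/-!
# HDi: `∑ 1 / p ^ σ` over the primes `p ≡ 1` modulo `R` tends to infinity as `σ → 1`

PROOF.  Let `G σ = ∑' n, if n.Prime ∧ n % R = 1 % R then 1 / n ^ σ else 0` (summable for `σ > 1`,
comparison with `∑ 1 / n ^ σ`), a decreasing function of `σ > 1`.
Mathlib: `ArithmeticFunction.vonMangoldt.LSeries_residueClass_lower_bound` (`q = R`, `a = 1`): for
`σ ∈ (1, 2]`, `∑' n, residueClass 1 n / n ^ σ ≥ φ(R)⁻¹ / (σ - 1) - C`, and the nonprime `n` contribute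
at most `∑' Λ n / n` over nonprimes `< ∞` (`summable_residueClass_non_primes_div`); so
`D σ := ∑' p prime, p ≡ 1 (R), log p / p ^ σ ≥ c / (σ - 1) - C'` with `c = 1 / φ(R) > 0`.
For `1 < σ' < σ ≤ 2` and each `p`: `1 / p ^ σ' - 1 / p ^ σ = (exp ((σ-σ') log p) - 1) / p ^ σ ≥
(σ - σ') log p / p ^ σ`, so `G σ' - G σ ≥ (σ - σ') D σ`.  With `σ_k = 1 + 2 ^ (-k)`, `σ_(k+1)`:
`G σ_(k+1) - G σ_k ≥ 2 ^ (-k-1) (c 2 ^ k - C') = c / 2 - C' 2 ^ (-k-1)`, so
`G σ_k ≥ c k / 2 - C'`, which is `≥ M` for some `k`; `δ = 2 ^ (-k)` works by monotonicity.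
-/

set_option autoImplicit false

namespace Pool.Agent.LogCh.HG

open Real

private noncomputable def hdiF (R : ℕ) (σ : ℝ) (n : ℕ) : ℝ :=
  if n.Prime ∧ n % R = 1 % R then 1 / (n : ℝ) ^ σ else 0

private noncomputable def hdiD (R : ℕ) (σ : ℝ) (n : ℕ) : ℝ :=
  if n.Prime ∧ n % R = 1 % R then log n / (n : ℝ) ^ σ else 0

private lemma hdiF_nonneg (R : ℕ) (σ : ℝ) (n : ℕ) : 0 ≤ hdiF R σ n := by
  unfold hdiF
  split_ifs
  · positivity
  · exact le_rfl

private lemma hdiD_nonneg (R : ℕ) (σ : ℝ) (n : ℕ) : 0 ≤ hdiD R σ n := by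
  unfold hdiD
  split_ifs
  · have := log_natCast_nonneg n
    positivity
  · exact le_rfl

private lemma hdiF_summable (R : ℕ) {σ : ℝ} (hσ : 1 < σ) : Summable (hdiF R σ) := by
  refine Summable.of_nonneg_of_le (hdiF_nonneg R σ) (fun n => ?_)
    (Real.summable_one_div_nat_rpow.2 hσ)
  unfold hdiF
  split_ifs
  · exact le_rfl
  · positivity

private lemma hdi_res (R : ℕ) [NeZero R] (n : ℕ) :
    ArithmeticFunction.vonMangoldt.residueClass (1 : ZMod R) n =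
      if n % R = 1 % R then ArithmeticFunction.vonMangoldt n else 0 := by
  have h : ((n : ZMod R) = 1) ↔ n % R = 1 % R := by
    have := ZMod.natCast_eq_natCast_iff' n 1 R
    rwa [Nat.cast_one] at this
  unfold ArithmeticFunction.vonMangoldt.residueClass
  rw [Set.indicator_apply]
  simp only [Set.mem_ofPred_eq, h]

private lemma hdi_res_summable (R : ℕ) [NeZero R] {σ : ℝ} (hσ : 1 < σ) :
    Summable (fun n : ℕ => ArithmeticFunction.vonMangoldt.residueClass (1 : ZMod R) n /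
      (n : ℝ) ^ σ) := by
  refine LSeries.summable_real_of_abscissaOfAbsConv_lt ?_
  exact (ArithmeticFunction.vonMangoldt.abscissaOfAbsConv_residueClass_le_one _).trans_lt
    (by exact_mod_cast hσ)

private lemma hdiD_le_res (R : ℕ) [NeZero R] (σ : ℝ) (n : ℕ) : hdiD R σ n ≤
    ArithmeticFunction.vonMangoldt.residueClass (1 : ZMod R) n / (n : ℝ) ^ σ := by
  unfold hdiD
  split_ifs with h
  · rw [hdi_res, if_pos h.2, ArithmeticFunction.vonMangoldt_apply_prime h.1]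
  · have := ArithmeticFunction.vonMangoldt.residueClass_nonneg (1 : ZMod R) n
    positivity

private lemma hdiD_summable (R : ℕ) [NeZero R] {σ : ℝ} (hσ : 1 < σ) : Summable (hdiD R σ) :=
  Summable.of_nonneg_of_le (hdiD_nonneg R σ) (hdiD_le_res R σ) (hdi_res_summable R hσ)

private lemma hdi_res_le (R : ℕ) [NeZero R] {σ : ℝ} (hσ : 1 < σ) (n : ℕ) :
    ArithmeticFunction.vonMangoldt.residueClass (1 : ZMod R) n / (n : ℝ) ^ σ ≤ hdiD R σ n +
      (if n.Prime then 0 else ArithmeticFunction.vonMangoldt.residueClass (1 : ZMod R) n) / n := by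
  by_cases hn : n = 0
  · subst hn
    have := hdiD_nonneg R σ 0
    simpa using this
  have hn1 : (1 : ℝ) ≤ n := by exact_mod_cast Nat.one_le_iff_ne_zero.2 hn
  by_cases hp : n.Prime
  · rw [if_pos hp, zero_div, add_zero]
    unfold hdiD
    rw [hdi_res]
    by_cases h : n % R = 1 % R
    · rw [if_pos h, if_pos ⟨hp, h⟩, ArithmeticFunction.vonMangoldt_apply_prime hp]
    · rw [if_neg h, if_neg (fun h' => h h'.2), zero_div]
  · rw [if_neg hp]
    have h1 := hdiD_nonneg R σ n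
    have h2 := ArithmeticFunction.vonMangoldt.residueClass_nonneg (1 : ZMod R) n
    have h3 : (n : ℝ) ≤ (n : ℝ) ^ σ := by
      calc (n : ℝ) = (n : ℝ) ^ (1 : ℝ) := (rpow_one _).symm
        _ ≤ _ := rpow_le_rpow_of_exponent_le hn1 hσ.le
    have h4 : ArithmeticFunction.vonMangoldt.residueClass (1 : ZMod R) n / (n : ℝ) ^ σ ≤
        ArithmeticFunction.vonMangoldt.residueClass (1 : ZMod R) n / n :=
      div_le_div_of_nonneg_left h2 (by linarith) h3
    linarith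

private lemma hdiD_lower (R : ℕ) [NeZero R] : ∃ c C : ℝ, 0 < c ∧ 0 ≤ C ∧
    ∀ σ : ℝ, 1 < σ → σ ≤ 2 → c / (σ - 1) - C ≤ ∑' n, hdiD R σ n := by
  obtain ⟨C, hC⟩ := ArithmeticFunction.vonMangoldt.LSeries_residueClass_lower_bound
    (q := R) (a := 1) isUnit_one
  have hs := ArithmeticFunction.vonMangoldt.summable_residueClass_non_primes_div (q := R) 1
  obtain ⟨E, hE⟩ : ∃ E : ℝ, E = ∑' n : ℕ, (if n.Prime then 0 else
    ArithmeticFunction.vonMangoldt.residueClass (1 : ZMod R) n) / (n : ℝ) := ⟨_, rfl⟩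
  refine ⟨(R.totient : ℝ)⁻¹, max (C + E) 0, ?_, le_max_right _ _, fun σ h1 h2 => ?_⟩
  · have : 0 < R.totient := Nat.totient_pos.2 (NeZero.pos R)
    positivity
  · have h3 := hC (x := σ) ⟨h1, h2⟩
    have h4 : ∑' n, ArithmeticFunction.vonMangoldt.residueClass (1 : ZMod R) n / (n : ℝ) ^ σ ≤
        ∑' n, hdiD R σ n + E := by
      rw [hE, ← (hdiD_summable R h1).tsum_add hs]
      exact (hdi_res_summable R h1).tsum_le_tsum (hdi_res_le R h1) ((hdiD_summable R h1).add hs)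
    have h5 := le_max_left (C + E) 0
    linarith

private lemma hdi_step (R : ℕ) [NeZero R] {σ σ' : ℝ} (h1 : 1 < σ') (h2 : σ' ≤ σ) :
    ∑' n, hdiF R σ n + (σ - σ') * ∑' n, hdiD R σ n ≤ ∑' n, hdiF R σ' n := by
  have h3 : 1 < σ := h1.trans_le h2
  rw [← tsum_mul_left, ← (hdiF_summable R h3).tsum_add ((hdiD_summable R h3).mul_left _)]
  refine ((hdiF_summable R h3).add ((hdiD_summable R h3).mul_left _)).tsum_le_tsum (fun n => ?_)
    (hdiF_summable R h1)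
  unfold hdiF hdiD
  split_ifs with h
  · have hn : (0 : ℝ) < n := by exact_mod_cast h.1.pos
    have e1 : 1 / (n : ℝ) ^ σ' = exp ((σ - σ') * log n) / (n : ℝ) ^ σ := by
      rw [mul_comm, ← rpow_def_of_pos hn, rpow_sub hn]
      have := rpow_pos_of_pos hn σ
      have := rpow_pos_of_pos hn σ'
      field_simp
    rw [e1]
    have h4 := add_one_le_exp ((σ - σ') * log n)
    have h5 := rpow_pos_of_pos hn σ
    have e2 : 1 / (n : ℝ) ^ σ + (σ - σ') * (log n / (n : ℝ) ^ σ) =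
        ((σ - σ') * log n + 1) / (n : ℝ) ^ σ := by ring
    rw [e2]
    exact div_le_div_of_nonneg_right h4 h5.le
  · simp

private lemma hdi_mono (R : ℕ) [NeZero R] {σ σ' : ℝ} (h1 : 1 < σ') (h2 : σ' ≤ σ) :
    ∑' n, hdiF R σ n ≤ ∑' n, hdiF R σ' n := by
  have h3 := hdi_step R h1 h2
  have h4 : 0 ≤ (σ - σ') * ∑' n, hdiD R σ n :=
    mul_nonneg (by linarith) (tsum_nonneg (hdiD_nonneg R σ))
  linarith

private lemma hdi_tele (R : ℕ) [NeZero R] {c C : ℝ} (hC : 0 ≤ C)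
    (h : ∀ σ : ℝ, 1 < σ → σ ≤ 2 → c / (σ - 1) - C ≤ ∑' n, hdiD R σ n) (k : ℕ) :
    c * k / 2 - C * (1 - 1 / 2 ^ k) ≤ ∑' n, hdiF R (1 + 1 / 2 ^ k) n := by
  induction k with
  | zero =>
    have : 0 ≤ ∑' n, hdiF R (1 + 1 / 2 ^ 0) n := tsum_nonneg (hdiF_nonneg R (1 + 1 / 2 ^ 0))
    simpa using this
  | succ k ih =>
    have hk : (0 : ℝ) < 2 ^ k := by positivity
    have hk1 : (1 : ℝ) / 2 ^ k ≤ 1 := by
      rw [div_le_one hk]
      exact one_le_pow₀ (by norm_num)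
    have e1 : (1 : ℝ) / 2 ^ (k + 1) = 1 / 2 ^ k / 2 := by rw [pow_succ]; field_simp
    have hp : (0 : ℝ) < 1 / 2 ^ k := by positivity
    have h1 := hdi_step R (σ := 1 + 1 / 2 ^ k) (σ' := 1 + 1 / 2 ^ (k + 1))
      (by rw [e1]; linarith) (by rw [e1]; linarith)
    have h2 := h (1 + 1 / 2 ^ k) (by linarith) (by linarith)
    have e2 : (1 : ℝ) + 1 / 2 ^ k - 1 = 1 / 2 ^ k := by ring
    have e3 : (1 + 1 / 2 ^ k - (1 + 1 / 2 ^ (k + 1)) : ℝ) = 1 / 2 ^ k / 2 := by rw [e1]; ring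
    rw [e2] at h2
    rw [e3] at h1
    have h3 : (1 / 2 ^ k / 2 : ℝ) * (c / (1 / 2 ^ k) - C) ≤
        1 / 2 ^ k / 2 * ∑' n, hdiD R (1 + 1 / 2 ^ k) n :=
      mul_le_mul_of_nonneg_left h2 (by positivity)
    have e4 : (1 / 2 ^ k / 2 : ℝ) * (c / (1 / 2 ^ k) - C) = c / 2 - C * (1 / 2 ^ k) / 2 := by
      field_simp
    rw [e4] at h3
    rw [e1]
    rw [e1] at h1
    push_cast
    linarith

theorem primes_ap (R : ℕ) (hR : 1 ≤ R) (M : ℝ) : ∃ δ : ℝ, 0 < δ ∧ ∀ σ : ℝ, 1 < σ → σ < 1 + δ →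
    Summable (fun n : ℕ => if n.Prime ∧ n % R = 1 % R then 1 / (n : ℝ) ^ σ else 0) ∧
      M ≤ ∑' n : ℕ, if n.Prime ∧ n % R = 1 % R then 1 / (n : ℝ) ^ σ else 0 := by
  have : NeZero R := ⟨by omega⟩
  obtain ⟨c, C, hc, hC, h⟩ := hdiD_lower R
  obtain ⟨k, hk⟩ := exists_nat_ge (2 * (M + C) / c)
  have hk0 : (0 : ℝ) < 1 / 2 ^ k := by positivity
  refine ⟨1 / 2 ^ k, hk0, fun σ h1 h2 => ⟨hdiF_summable R h1, ?_⟩⟩
  have h3 := hdi_tele R hC h k
  have h4 := hdi_mono R h1 h2.le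
  have h5 : 2 * (M + C) ≤ k * c := by rwa [div_le_iff₀ hc] at hk
  have h6 : 0 ≤ C * (1 / 2 ^ k) := by positivity
  have h7 : ∑' n, hdiF R σ n = ∑' n : ℕ, if n.Prime ∧ n % R = 1 % R then 1 / (n : ℝ) ^ σ else 0 :=
    rfl
  rw [← h7]
  linarith

end Pool.Agent.LogCh.HG
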