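import Pool.Agent.Lib.LogCh.H0

/-!
# HDy: dyadic summation

Let `f ≥ 0` with `∑_{n ≤ t} f n ≤ B t` for all `t ≥ 1`.  (Note `B ≥ 0`: take `t = 1`.)
PROOF.  General step: for `φ : ℝ → ℝ` monotone and nonnegative on `[1, ∞)`, and `K` with
`x < 2 ^ (K + 1)`, `∑_{n ≤ x} f n * φ (x / n) ≤ ∑_{k ≤ K} φ (2 ^ (k+1)) * (B * x / 2 ^ k)`:
every `1 ≤ n ≤ x` has a (unique) `k ≤ K` with `x / 2 ^ (k+1) < n ≤ x / 2 ^ k`, and then
`φ (x / n) ≤ φ (2 ^ (k+1))`, and the sum of `f` over these `n` is at most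
`∑_{n ≤ x / 2 ^ k} f n ≤ B x / 2 ^ k` (here `x / 2 ^ k ≥ n ≥ 1`; if there is no such `n` the
contribution is `0`).
* `φ = log`: `∑_k (k+1) log 2 / 2 ^ k ≤ 4 log 2 ≤ 4`.
* `φ = √`: `√(2 ^ (k+1)) / 2 ^ k = √2 (1/√2) ^ k`, sum `√2 / (1 - 1/√2) ≤ 8`.
* `φ = id`: `∑_{k ≤ K} 2 = 2 (K + 1)`, with `K = ⌊log x / log 2⌋`, `K + 1 ≤ 1 + log x / log 2 ≤
  2 (1 + log x)`; divide by `x`.
* `sum_sigma`: for every `N`, split `1 ≤ n ≤ N` into `2 ^ k ≤ n < 2 ^ (k+1)`: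
  `∑ f n / n ^ σ ≤ ∑_k B 2 ^ (k+1) / 2 ^ (k σ) = 2 B ∑_k (2 ^ (-(σ-1))) ^ k = 2 B / (1 - 2 ^ (-(σ-1)))`
  and `1 - 2 ^ (-u) ≥ u / 2` for `0 ≤ u ≤ 1` (concavity); the term `n = 0` is `f 0 / 0 ^ σ = 0`
  (`Real.zero_rpow`, division by zero).  Bounded partial sums of nonnegative terms give
  summability and the bound (`summable_of_sum_range_le`, `Summable.tsum_le_of_sum_range_le`).
-/

set_option autoImplicit false

namespace Pool.Agent.LogCh.HG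

open Real

private lemma dy_B {f : ℕ → ℝ} (hf : ∀ n, 0 ≤ f n) {B : ℝ}
    (hB : ∀ t : ℝ, 1 ≤ t → ∑ n ∈ Finset.Icc 1 ⌊t⌋₊, f n ≤ B * t) : 0 ≤ B := by
  have h := hB 1 le_rfl
  rw [mul_one] at h
  exact le_trans (Finset.sum_nonneg fun n _ => hf n) h

private lemma dy_inner {f : ℕ → ℝ} (hf : ∀ n, 0 ≤ f n) {B : ℝ}
    (hB : ∀ t : ℝ, 1 ≤ t → ∑ n ∈ Finset.Icc 1 ⌊t⌋₊, f n ≤ B * t) (s : Finset ℕ)
    (hs : ∀ n ∈ s, 1 ≤ n) {y : ℝ} (hy : 0 ≤ y) :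
    ∑ n ∈ s, (if (n : ℝ) ≤ y then f n else 0) ≤ B * y := by
  rw [← Finset.sum_filter]
  rcases lt_or_ge y 1 with h1 | h1
  · rw [Finset.filter_false_of_mem, Finset.sum_empty]
    · exact mul_nonneg (dy_B hf hB) hy
    · intro n hn h2
      have h3 : (1 : ℝ) ≤ n := by exact_mod_cast hs n hn
      linarith
  · refine le_trans (Finset.sum_le_sum_of_subset_of_nonneg ?_ fun n _ _ => hf n) (hB y h1)
    intro n hn
    rw [Finset.mem_filter] at hn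
    rw [Finset.mem_Icc]
    exact ⟨hs n hn.1, Nat.le_floor hn.2⟩

private lemma dy_gen {f : ℕ → ℝ} (hf : ∀ n, 0 ≤ f n) {B : ℝ}
    (hB : ∀ t : ℝ, 1 ≤ t → ∑ n ∈ Finset.Icc 1 ⌊t⌋₊, f n ≤ B * t) {x : ℝ} (hx : 1 ≤ x)
    (φ : ℝ → ℝ) (hφ : ∀ a b, 1 ≤ a → a ≤ b → φ a ≤ φ b) (hφ0 : ∀ a, 1 ≤ a → 0 ≤ φ a)
    {K : ℕ} (hK : x < 2 ^ (K + 1)) :
    ∑ n ∈ Finset.Icc 1 ⌊x⌋₊, f n * φ (x / n) ≤
      ∑ k ∈ Finset.range (K + 1), φ (2 ^ (k + 1)) * (B * (x / 2 ^ k)) := by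
  have hφ1 : ∀ k : ℕ, 0 ≤ φ (2 ^ (k + 1)) := fun k => hφ0 _ (one_le_pow₀ one_le_two)
  have hx0 : 0 < x := by linarith
  have h1 : ∀ n ∈ Finset.Icc 1 ⌊x⌋₊, f n * φ (x / n) ≤
      ∑ k ∈ Finset.range (K + 1), φ (2 ^ (k + 1)) * (if (n : ℝ) ≤ x / 2 ^ k then f n else 0) := by
    intro n hn
    rw [Finset.mem_Icc] at hn
    have hn1 : (1 : ℝ) ≤ n := by exact_mod_cast hn.1
    have hn2 : (n : ℝ) ≤ x := (Nat.le_floor_iff hx0.le).1 hn.2
    have hn0 : (0 : ℝ) < n := by linarith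
    have hxn : 1 ≤ x / n := by rw [le_div_iff₀ hn0]; linarith
    obtain ⟨k, hk1, hk2⟩ := exists_nat_pow_near hxn (one_lt_two (α := ℝ))
    have hkK : k < K + 1 := by
      have h2 : x / n ≤ x := div_le_self hx0.le hn1
      have h3 : (2 : ℝ) ^ k < 2 ^ (K + 1) := lt_of_le_of_lt (hk1.trans h2) hK
      exact (pow_lt_pow_iff_right₀ (one_lt_two (α := ℝ))).1 h3
    have hnk : (n : ℝ) ≤ x / 2 ^ k := by
      rw [le_div_iff₀ (by positivity)]
      rw [le_div_iff₀ hn0] at hk1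
      linarith
    refine le_trans ?_ (Finset.single_le_sum (f := fun k : ℕ => φ (2 ^ (k + 1)) *
      (if (n : ℝ) ≤ x / 2 ^ k then f n else 0)) (fun i _ => ?_) (Finset.mem_range.2 hkK))
    · change f n * φ (x / n) ≤ φ (2 ^ (k + 1)) * (if (n : ℝ) ≤ x / 2 ^ k then f n else 0)
      rw [if_pos hnk, mul_comm]
      exact mul_le_mul_of_nonneg_right (hφ _ _ hxn hk2.le) (hf n)
    · refine mul_nonneg (hφ1 i) ?_
      split_ifs
      · exact hf n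
      · exact le_rfl
  refine (Finset.sum_le_sum h1).trans ?_
  rw [Finset.sum_comm]
  refine Finset.sum_le_sum fun k _ => ?_
  rw [← Finset.mul_sum]
  refine mul_le_mul_of_nonneg_left ?_ (hφ1 k)
  exact dy_inner hf hB _ (fun n hn => (Finset.mem_Icc.1 hn).1) (by positivity)

private lemma dy_K {x : ℝ} (hx : 1 ≤ x) : ∃ K : ℕ, (2 : ℝ) ^ K ≤ x ∧ x < 2 ^ (K + 1) :=
  exists_nat_pow_near hx one_lt_two

private lemma dy_sqrt_pow (m : ℕ) : √((2 : ℝ) ^ m) = √2 ^ m := by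
  induction m with
  | zero => simp
  | succ m ih => rw [pow_succ, pow_succ, Real.sqrt_mul (by positivity), ih]

private lemma dy_sum1 (m : ℕ) :
    ∑ k ∈ Finset.range m, ((k : ℝ) + 1) / 2 ^ k = 4 - (2 * m + 4) / 2 ^ m := by
  induction m with
  | zero => simp
  | succ m ih =>
    rw [Finset.sum_range_succ, ih]
    push_cast
    field_simp
    ring

private lemma dy_sum2 (m : ℕ) :
    ∑ k ∈ Finset.range m, √2 ^ (k + 1) / 2 ^ k ≤ 8 - 8 * (√2 / 2) ^ m := by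
  have h2 : √2 ^ 2 = (2 : ℝ) := Real.sq_sqrt (by norm_num)
  have h0 := Real.sqrt_nonneg (2 : ℝ)
  have h3 : √2 ≤ (8 / 5 : ℝ) := by
    rw [Real.sqrt_le_left (by norm_num)]
    norm_num
  induction m with
  | zero => simp
  | succ m ih =>
    rw [Finset.sum_range_succ]
    have e : √2 ^ (m + 1) / 2 ^ m = √2 * (√2 / 2) ^ m := by
      rw [div_pow, pow_succ]
      ring
    rw [e, pow_succ]
    have h4 : 0 ≤ (√2 / 2) ^ m := by positivity
    nlinarith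

theorem sum_log {f : ℕ → ℝ} (hf : ∀ n, 0 ≤ f n) {B : ℝ}
    (hB : ∀ t : ℝ, 1 ≤ t → ∑ n ∈ Finset.Icc 1 ⌊t⌋₊, f n ≤ B * t) {x : ℝ} (hx : 1 ≤ x) :
    ∑ n ∈ Finset.Icc 1 ⌊x⌋₊, f n * log (x / n) ≤ 4 * B * x := by
  have hB0 := dy_B hf hB
  obtain ⟨K, _, hK⟩ := dy_K hx
  refine (dy_gen hf hB hx log (fun a b h1 h2 => Real.log_le_log (by linarith) h2)
    (fun a h => Real.log_nonneg h) hK).trans ?_
  have h1 : ∑ k ∈ Finset.range (K + 1), log ((2 : ℝ) ^ (k + 1)) * (B * (x / 2 ^ k)) =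
      (log 2 * (B * x)) * ∑ k ∈ Finset.range (K + 1), ((k : ℝ) + 1) / 2 ^ k := by
    rw [Finset.mul_sum]
    refine Finset.sum_congr rfl fun k _ => ?_
    rw [Real.log_pow]
    push_cast
    ring
  rw [h1, dy_sum1]
  have h2 : log 2 ≤ 1 := by
    have := Real.log_two_lt_d9
    linarith
  have h3 : 0 ≤ log 2 := Real.log_nonneg one_le_two
  have h4 : (0 : ℝ) ≤ (2 * ((K + 1 : ℕ) : ℝ) + 4) / 2 ^ (K + 1) := by positivity
  have h5 : 0 ≤ B * x := mul_nonneg hB0 (by linarith)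
  calc log 2 * (B * x) * (4 - (2 * ((K + 1 : ℕ) : ℝ) + 4) / 2 ^ (K + 1)) ≤
      log 2 * (B * x) * 4 := mul_le_mul_of_nonneg_left (by linarith) (mul_nonneg h3 h5)
    _ ≤ 1 * (B * x) * 4 := by
      apply mul_le_mul_of_nonneg_right _ (by norm_num)
      exact mul_le_mul_of_nonneg_right h2 h5
    _ = 4 * B * x := by ring

theorem sum_sqrt {f : ℕ → ℝ} (hf : ∀ n, 0 ≤ f n) {B : ℝ}
    (hB : ∀ t : ℝ, 1 ≤ t → ∑ n ∈ Finset.Icc 1 ⌊t⌋₊, f n ≤ B * t) {x : ℝ} (hx : 1 ≤ x) :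
    ∑ n ∈ Finset.Icc 1 ⌊x⌋₊, f n * √(x / n) ≤ 8 * B * x := by
  have hB0 := dy_B hf hB
  obtain ⟨K, _, hK⟩ := dy_K hx
  refine (dy_gen hf hB hx (fun t => √t) (fun a b _ h2 => Real.sqrt_le_sqrt h2)
    (fun a _ => Real.sqrt_nonneg a) hK).trans ?_
  have h1 : ∑ k ∈ Finset.range (K + 1), √((2 : ℝ) ^ (k + 1)) * (B * (x / 2 ^ k)) =
      (B * x) * ∑ k ∈ Finset.range (K + 1), √2 ^ (k + 1) / 2 ^ k := by
    rw [Finset.mul_sum]
    refine Finset.sum_congr rfl fun k _ => ?_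
    rw [dy_sqrt_pow]
    ring
  have h5 : 0 ≤ B * x := mul_nonneg hB0 (by linarith)
  have h6 : (0 : ℝ) ≤ 8 * (√2 / 2) ^ (K + 1) := by positivity
  have h7 := dy_sum2 (K + 1)
  change ∑ k ∈ Finset.range (K + 1), √((2 : ℝ) ^ (k + 1)) * (B * (x / 2 ^ k)) ≤ 8 * B * x
  rw [h1]
  calc (B * x) * ∑ k ∈ Finset.range (K + 1), √2 ^ (k + 1) / 2 ^ k ≤ (B * x) * 8 :=
        mul_le_mul_of_nonneg_left (by linarith) h5
    _ = 8 * B * x := by ring

theorem sum_inv {f : ℕ → ℝ} (hf : ∀ n, 0 ≤ f n) {B : ℝ}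
    (hB : ∀ t : ℝ, 1 ≤ t → ∑ n ∈ Finset.Icc 1 ⌊t⌋₊, f n ≤ B * t) {x : ℝ} (hx : 1 ≤ x) :
    ∑ n ∈ Finset.Icc 1 ⌊x⌋₊, f n / n ≤ 4 * B * (1 + log x) := by
  have hB0 := dy_B hf hB
  have hx0 : 0 < x := by linarith
  obtain ⟨K, hK0, hK⟩ := dy_K hx
  have h0 := dy_gen hf hB hx (fun t => t) (fun a b _ h2 => h2) (fun a h => by linarith) hK
  have h1 : ∑ k ∈ Finset.range (K + 1), (2 : ℝ) ^ (k + 1) * (B * (x / 2 ^ k)) =
      2 * (K + 1) * (B * x) := by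
    have : ∀ k ∈ Finset.range (K + 1), (2 : ℝ) ^ (k + 1) * (B * (x / 2 ^ k)) = 2 * (B * x) := by
      intro k _
      rw [pow_succ]
      field_simp
    rw [Finset.sum_congr rfl this, Finset.sum_const, Finset.card_range, nsmul_eq_mul]
    push_cast
    ring
  change ∑ n ∈ Finset.Icc 1 ⌊x⌋₊, f n * (x / n) ≤
    ∑ k ∈ Finset.range (K + 1), (2 : ℝ) ^ (k + 1) * (B * (x / 2 ^ k)) at h0
  rw [h1] at h0
  have h2 : ∑ n ∈ Finset.Icc 1 ⌊x⌋₊, f n * (x / n) = x * ∑ n ∈ Finset.Icc 1 ⌊x⌋₊, f n / n := by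
    rw [Finset.mul_sum]
    refine Finset.sum_congr rfl fun n _ => ?_
    ring
  rw [h2] at h0
  have h3 : (K : ℝ) + 1 ≤ 2 * (1 + log x) := by
    have h4 : (K : ℝ) * log 2 ≤ log x := by
      rw [← Real.log_pow]
      exact Real.log_le_log (by positivity) hK0
    have h5 := Real.log_two_gt_d9
    have h6 : (0 : ℝ) ≤ K := Nat.cast_nonneg _
    nlinarith
  have h7 : x * ∑ n ∈ Finset.Icc 1 ⌊x⌋₊, f n / n ≤ x * (4 * B * (1 + log x)) := by
    refine h0.trans ?_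
    have h8 : 0 ≤ B * x := mul_nonneg hB0 hx0.le
    have h9 := mul_le_mul_of_nonneg_right h3 h8
    linarith
  exact le_of_mul_le_mul_left h7 hx0

theorem sum_sigma {f : ℕ → ℝ} (hf : ∀ n, 0 ≤ f n) {B : ℝ}
    (hB : ∀ t : ℝ, 1 ≤ t → ∑ n ∈ Finset.Icc 1 ⌊t⌋₊, f n ≤ B * t) {σ : ℝ} (h1 : 1 < σ)
    (h2 : σ ≤ 2) :
    Summable (fun n : ℕ => f n / (n : ℝ) ^ σ) ∧
      ∑' n : ℕ, f n / (n : ℝ) ^ σ ≤ 4 * B / (σ - 1) := by
  have hB0 := dy_B hf hB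
  have hσ : 0 < σ - 1 := by linarith
  have hpos : ∀ n : ℕ, 0 ≤ f n / (n : ℝ) ^ σ := fun n =>
    div_nonneg (hf n) (Real.rpow_nonneg (Nat.cast_nonneg n) _)
  set r : ℝ := (1 / 2 : ℝ) ^ (σ - 1) with hr
  have hr0 : 0 < r := Real.rpow_pos_of_pos (by norm_num) _
  have hr1 : r ≤ 1 - (σ - 1) / 2 := by
    have h3 := rpow_one_add_le_one_add_mul_self (s := -(1 / 2 : ℝ)) (by norm_num)
      hσ.le (by linarith)
    have h4 : (1 : ℝ) + -(1 / 2) = 1 / 2 := by norm_num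
    rw [h4] at h3
    linarith
  have hterm : ∀ k : ℕ, (B * 2 ^ (k + 1)) / ((2 : ℝ) ^ k) ^ σ = 2 * B * r ^ k := by
    intro k
    have h3 : ((2 : ℝ) ^ k) ^ σ = (2 ^ k) * ((2 : ℝ) ^ (σ - 1)) ^ k := by
      rw [← Real.rpow_natCast (2 : ℝ) k, ← Real.rpow_natCast ((2 : ℝ) ^ (σ - 1)) k,
        ← Real.rpow_mul two_pos.le, ← Real.rpow_mul two_pos.le, ← Real.rpow_add two_pos]
      congr 1
      ring
    have h4 : r * (2 : ℝ) ^ (σ - 1) = 1 := by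
      rw [hr, ← Real.mul_rpow (by norm_num) (by norm_num)]
      norm_num
    have h5 : r ^ k * ((2 : ℝ) ^ (σ - 1)) ^ k = 1 := by
      rw [← mul_pow, h4, one_pow]
    have h6 : 0 < ((2 : ℝ) ^ (σ - 1)) ^ k := by positivity
    rw [h3, div_eq_iff (by positivity), pow_succ]
    calc B * (2 ^ k * 2) = 2 * B * 2 ^ k * 1 := by ring
      _ = 2 * B * 2 ^ k * (r ^ k * ((2 : ℝ) ^ (σ - 1)) ^ k) := by rw [h5]
      _ = 2 * B * r ^ k * (2 ^ k * ((2 : ℝ) ^ (σ - 1)) ^ k) := by ring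
  have hsum : ∀ N : ℕ, ∑ n ∈ Finset.range N, f n / (n : ℝ) ^ σ ≤ 4 * B / (σ - 1) := by
    intro N
    have h3 : ∀ n ∈ Finset.range N, f n / (n : ℝ) ^ σ ≤ ∑ k ∈ Finset.range N,
        (if n = 0 then 0 else if (n : ℝ) ≤ 2 ^ (k + 1) then f n else 0) / ((2 : ℝ) ^ k) ^ σ := by
      intro n hn
      rcases Nat.eq_zero_or_pos n with h0 | h0
      · subst h0
        rw [Nat.cast_zero, Real.zero_rpow (by linarith), div_zero]
        simp
      · have hn1 : (1 : ℝ) ≤ n := by exact_mod_cast h0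
        obtain ⟨k, hk1, hk2⟩ := exists_nat_pow_near hn1 (one_lt_two (α := ℝ))
        have hkN : k < N := by
          have h4 : 2 ^ k ≤ n := by exact_mod_cast hk1
          have h5 : k < 2 ^ k := Nat.lt_two_pow_self
          have h6 := Finset.mem_range.1 hn
          omega
        refine le_trans ?_ (Finset.single_le_sum (f := fun k : ℕ =>
          (if n = 0 then 0 else if (n : ℝ) ≤ 2 ^ (k + 1) then f n else 0) / ((2 : ℝ) ^ k) ^ σ)
          (fun i _ => ?_) (Finset.mem_range.2 hkN))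
        · change f n / (n : ℝ) ^ σ ≤
            (if n = 0 then 0 else if (n : ℝ) ≤ 2 ^ (k + 1) then f n else 0) / ((2 : ℝ) ^ k) ^ σ
          rw [if_neg (by omega), if_pos hk2.le]
          apply div_le_div_of_nonneg_left (hf n) (by positivity)
          exact Real.rpow_le_rpow (by positivity) hk1 (by linarith)
        · refine div_nonneg ?_ (by positivity)
          split_ifs
          · exact le_rfl
          · exact hf n
          · exact le_rfl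
    refine (Finset.sum_le_sum h3).trans ?_
    rw [Finset.sum_comm]
    have h4 : ∀ k ∈ Finset.range N, ∑ n ∈ Finset.range N,
        (if n = 0 then 0 else if (n : ℝ) ≤ 2 ^ (k + 1) then f n else 0) / ((2 : ℝ) ^ k) ^ σ ≤
        2 * B * r ^ k := by
      intro k _
      rw [← hterm, ← Finset.sum_div]
      apply div_le_div_of_nonneg_right _ (by positivity)
      have h5 : ∑ n ∈ Finset.range N,
          (if n = 0 then 0 else if (n : ℝ) ≤ 2 ^ (k + 1) then f n else 0) =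
          ∑ n ∈ (Finset.range N).filter (fun n => n ≠ 0),
            (if (n : ℝ) ≤ 2 ^ (k + 1) then f n else 0) := by
        rw [Finset.sum_filter]
        refine Finset.sum_congr rfl fun n _ => ?_
        by_cases h : n = 0
        · simp [h]
        · simp [h]
      rw [h5]
      refine dy_inner hf hB _ (fun n hn => ?_) (by positivity)
      have := (Finset.mem_filter.1 hn).2
      omega
    refine (Finset.sum_le_sum h4).trans ?_
    rw [← Finset.mul_sum]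
    have h5 : (∑ k ∈ Finset.range N, r ^ k) * (1 - r) ≤ 1 := by
      rw [geom_sum_mul_neg]
      have : 0 ≤ r ^ N := by positivity
      linarith
    have h6 : 0 ≤ ∑ k ∈ Finset.range N, r ^ k := Finset.sum_nonneg fun k _ => by positivity
    have h7 : (∑ k ∈ Finset.range N, r ^ k) * ((σ - 1) / 2) ≤ 1 :=
      le_trans (mul_le_mul_of_nonneg_left (by linarith) h6) h5
    rw [le_div_iff₀ hσ]
    have h8 := mul_le_mul_of_nonneg_left h7 (by linarith : 0 ≤ 4 * B)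
    linarith
  exact ⟨summable_of_sum_range_le hpos hsum, Real.tsum_le_of_sum_range_le hpos hsum⟩

end Pool.Agent.LogCh.HG
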