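import Pool.Agent.Lib.LogCh.H0

/-!
# HFi: the characters modulo `r` form a finite set, with bounded order

PROOF of `chi_pow`: `K = (r ^ 2)!`.  For `z` prime to `r` the elements `z ^ j`, `0 ≤ j ≤ r ^ 2`, have
(real part mod `r`, imaginary part mod `r`) in a set of `r ^ 2` elements, so `z ^ i ≡ z ^ j` modulo
`r` for some `i < j ≤ r ^ 2` (`Finset.exists_ne_map_eq_of_card_lt_of_maps_to`); by `per` and `mul`
`χ z ^ i = χ z ^ j` (`χ 1 = 1`: `χ 1 ^ 2 = χ 1`, `‖χ 1‖ = 1`), `χ z ≠ 0`, so `χ z ^ (j - i) = 1` and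
`j - i ∣ K`.

PROOF of `chi_finite`: `χ` is determined by its values at the `i + j I` with `i, j < r` (`per`: `z`
and its representative differ by `r * w`), and these values lie in the finite set
`{0} ∪ {u | u ^ K = 1}` (roots of the polynomial `X ^ K - 1`); the set of functions from a finite
type to a finite set is finite (`Set.Finite.pi` / `Set.Finite.of_injOn` or
`Set.Finite.of_finite_image`).
-/

set_option autoImplicit false

namespace Pool.Agent.LogCh.HG

open Real
open Pool.Agent.NSqP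

theorem chi_one {r : ℕ} {χ : GaussianInt → ℂ} (hχ : ChiMod r χ) : χ 1 = 1 := by
  have h1 : χ 1 * χ 1 = χ 1 := by
    have h := hχ.mul 1 1
    rw [mul_one] at h
    exact h.symm
  have h2 : χ 1 ≠ 0 := by
    intro h
    have h3 := hχ.norm 1 isCoprime_one_left
    rw [h, norm_zero] at h3
    exact zero_ne_one h3
  exact mul_left_cancel₀ h2 (by rw [h1, mul_one])

private theorem chi_npow {r : ℕ} {χ : GaussianInt → ℂ} (hχ : ChiMod r χ) (z : GaussianInt)
    (n : ℕ) : χ (z ^ n) = χ z ^ n := by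
  induction n with
  | zero => rw [pow_zero, pow_zero, chi_one hχ]
  | succ n ih => rw [pow_succ, pow_succ, hχ.mul, ih]

private theorem chi_eq_of_res {r : ℕ} {χ : GaussianInt → ℂ} (hχ : ChiMod r χ)
    {z w : GaussianInt} (h1 : (z.re : ZMod r) = (w.re : ZMod r))
    (h2 : (z.im : ZMod r) = (w.im : ZMod r)) : χ z = χ w := by
  have h3 := (ZMod.intCast_eq_intCast_iff_dvd_sub _ _ _).1 h1.symm
  have h4 := (ZMod.intCast_eq_intCast_iff_dvd_sub _ _ _).1 h2.symm
  obtain ⟨a, ha⟩ := h3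
  obtain ⟨b, hb⟩ := h4
  have h5 : z = w + (r : GaussianInt) * (⟨a, b⟩ : GaussianInt) := by
    apply Zsqrtd.ext
    · simp only [Zsqrtd.re_add, Zsqrtd.re_mul, Zsqrtd.re_natCast, Zsqrtd.im_natCast]
      linarith
    · simp only [Zsqrtd.im_add, Zsqrtd.im_mul, Zsqrtd.re_natCast, Zsqrtd.im_natCast]
      linarith
  rw [h5, hχ.per]

theorem chi_pow (r : ℕ) (hr : 1 ≤ r) : ∃ K : ℕ, 1 ≤ K ∧ ∀ χ : GaussianInt → ℂ, ChiMod r χ →
    ∀ z, IsCoprime z (r : GaussianInt) → χ z ^ K = 1 := by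
  have : NeZero r := ⟨by omega⟩
  refine ⟨(r ^ 2).factorial, Nat.factorial_pos _, fun χ hχ z hz => ?_⟩
  have hz0 : χ z ≠ 0 := by
    intro h
    have h3 := hχ.norm z hz
    rw [h, norm_zero] at h3
    exact zero_ne_one h3
  obtain ⟨i, j, hij, hf⟩ := Fintype.exists_ne_map_eq_of_card_lt
    (fun i : Fin (r ^ 2 + 1) => (((z ^ (i : ℕ)).re : ZMod r), ((z ^ (i : ℕ)).im : ZMod r)))
    (by
      rw [Fintype.card_prod, ZMod.card, Fintype.card_fin]
      have : r * r = r ^ 2 := (sq r).symm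
      omega)
  have hval : χ z ^ (i : ℕ) = χ z ^ (j : ℕ) := by
    rw [← chi_npow hχ, ← chi_npow hχ]
    exact chi_eq_of_res hχ (congrArg Prod.fst hf) (congrArg Prod.snd hf)
  have key : ∀ i j : ℕ, i < j → j ≤ r ^ 2 → χ z ^ i = χ z ^ j →
      χ z ^ (r ^ 2).factorial = 1 := by
    intro i j hij hj h
    have h1 : χ z ^ (j - i) = 1 := by
      have h2 : χ z ^ i * χ z ^ (j - i) = χ z ^ i * 1 := by
        rw [← pow_add, Nat.add_sub_cancel' hij.le, mul_one, h]
      exact mul_left_cancel₀ (pow_ne_zero _ hz0) h2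
    obtain ⟨m, hm⟩ := Nat.dvd_factorial (by omega : 0 < j - i) (by omega : j - i ≤ r ^ 2)
    rw [hm, pow_mul, h1, one_pow]
  have hi2 := i.2
  have hj2 := j.2
  have hne : (i : ℕ) ≠ j := fun h => hij (Fin.ext h)
  rcases Nat.lt_or_gt_of_ne hne with h | h
  · exact key i j h (by omega) hval
  · exact key j i h (by omega) hval.symm

theorem chi_finite (r : ℕ) (hr : 1 ≤ r) : {χ : GaussianInt → ℂ | ChiMod r χ}.Finite := by
  classical
  have : NeZero r := ⟨by omega⟩
  obtain ⟨K, hK, hpow⟩ := chi_pow r hr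
  set R : Finset ℂ := insert 0 (Polynomial.nthRoots K (1 : ℂ)).toFinset with hR
  refine Set.Finite.of_finite_image
    (f := fun χ : GaussianInt → ℂ => fun p : ZMod r × ZMod r =>
      χ (⟨(p.1.val : ℤ), (p.2.val : ℤ)⟩ : GaussianInt)) ?_ ?_
  · refine (Set.Finite.pi' (ι := ZMod r × ZMod r) (κ := fun _ => ℂ) (t := fun _ => (R : Set ℂ))
      fun _ => R.finite_toSet).subset ?_
    rintro _ ⟨χ, hχ, rfl⟩
    intro p
    change χ _ ∈ (R : Set ℂ)
    rw [Finset.mem_coe, hR, Finset.mem_insert]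
    by_cases h : IsCoprime (⟨(p.1.val : ℤ), (p.2.val : ℤ)⟩ : GaussianInt) (r : GaussianInt)
    · right
      rw [Multiset.mem_toFinset, Polynomial.mem_nthRoots (by omega)]
      exact hpow χ hχ _ h
    · left
      exact hχ.zero _ h
  · intro χ hχ χ' hχ' h
    funext z
    have h1 := congrFun h ((z.re : ZMod r), (z.im : ZMod r))
    have e1 : ((((z.re : ZMod r).val : ℤ)) : ZMod r) = (z.re : ZMod r) := by
      rw [Int.cast_natCast, ZMod.natCast_zmod_val]
    have e2 : ((((z.im : ZMod r).val : ℤ)) : ZMod r) = (z.im : ZMod r) := by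
      rw [Int.cast_natCast, ZMod.natCast_zmod_val]
    have h2 : ∀ χ : GaussianInt → ℂ, ChiMod r χ → χ z =
        χ (⟨((z.re : ZMod r).val : ℤ), ((z.im : ZMod r).val : ℤ)⟩ : GaussianInt) := by
      intro χ hχ
      exact chi_eq_of_res hχ e1.symm e2.symm
    rw [h2 χ hχ, h2 χ' hχ']
    exact h1

/-- a character which is one at `i` is one at the units -/
theorem chi_unit {r : ℕ} {χ : GaussianInt → ℂ} (hχ : ChiMod r χ) (hi : χ gI = 1)
    (u : GaussianInt) (hu : IsUnit u) : χ u = 1 := by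
  have h1 := Zsqrtd.norm_eq_one_iff.2 hu
  have h2 : u.norm = u.re * u.re + u.im * u.im := by
    rw [Zsqrtd.norm_def]
    ring
  have h3 : 0 ≤ u.norm := by
    rw [h2]
    nlinarith [mul_self_nonneg u.re, mul_self_nonneg u.im]
  have h4 : u.re * u.re + u.im * u.im = 1 := by
    rw [← h2]
    omega
  have hm1 : χ (gI * gI) = 1 := by rw [hχ.mul, hi, mul_one]
  have hm2 : χ (gI * gI * gI) = 1 := by rw [hχ.mul, hm1, hi, mul_one]
  have hre1 : u.re ≤ 1 := by nlinarith [mul_self_nonneg u.im]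
  have hre2 : -1 ≤ u.re := by nlinarith [mul_self_nonneg u.im]
  have him1 : u.im ≤ 1 := by nlinarith [mul_self_nonneg u.re]
  have him2 : -1 ≤ u.im := by nlinarith [mul_self_nonneg u.re]
  obtain ⟨a, b⟩ := u
  simp only at h4 hre1 hre2 him1 him2
  interval_cases a <;> interval_cases b <;> first
    | (exfalso; revert h4; norm_num; done)
    | exact chi_one hχ
    | exact hi
    | exact hm1
    | exact hm2

/-- characters which are one at the units are in the class `GM` -/
theorem chi_GM {r : ℕ} {χ : GaussianInt → ℂ} (hχ : ChiMod r χ) (hi : χ gI = 1) : GM χ :=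
  ⟨⟨fun z w _ _ => hχ.mul z w, fun z _ => chi_norm_le hχ z⟩, chi_unit hχ hi⟩

end Pool.Agent.LogCh.HG
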