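import Pool.Agent.Lib.LogCh.HDy
import Pool.Agent.Lib.PNT.Theta

/-!
# HHb: from the sum over primes to an integral (prime number theorem in short intervals)

PROOF of `pnt_short`.  From `PNT.psi_tendsto`: for `ε = h / 16` there is `w1` with
`|ψ w - w| ≤ ε w` for `w ≥ w1`; for `w ≥ e w1 ≥ w1 e ^ h`:
`ψ w - ψ (w e^{-h}) ≤ (1 + ε) w - (1 - ε) w e^{-h} ≤ w (1 - e^{-h}) + 2 ε w ≤ h w + h w / 8 ≤ 2 h w`.

PROOF of `hal2`.  `L = log x`.
(1) Let `w ≥ 1`, `u ≤ log w`, `log w - h ≤ u`.  `SS_sub_le` and `r2_asymp`: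
`SS a w ≤ SS a (e^u) + π (w - e^u) + C (√w + 1) ≤ SS a (e^u) + 4 h w + 2 C √w`
(`w - e^u ≤ w (1 - e^{-h}) ≤ h w`).
(2) For `1 ≤ d ≤ x`, `L_d = log (x / d) ≥ 0`: `h * SS a (x/d) = ∫_{(L_d - h, L_d]} SS a (x/d) du ≤
∫_{(L_d - h, L_d]} SS a (e^u) du + h E_d`, `E_d = 4 h x / d + 2 C √(x/d)`.  (`u ↦ SS a (e^u)` is
measurable, a function of `⌊e^u⌋₊` (`Nat.measurable_floor`), nonnegative, at most `C e^u`, so
integrable on bounded intervals; it vanishes for `u < 0`, `SS_of_lt_one`.)
(3) Multiply by `Λ d` and sum over `d ∈ Icc 1 ⌊x⌋₊`; write the integrals as integrals over `ℝ`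
with indicators and exchange the finite sum (`integral_finset_sum`):
`h ∑ Λ d SS a (x/d) ≤ ∫ SS a (e^u) * (∑_{d ≤ x} Λ d 1[L_d - h < u ≤ L_d]) du + h ∑ Λ d E_d`.
The condition `L_d - h < u ≤ L_d` is `x e^{-u-h} < d ≤ x e^{-u}`, so for `u ≥ 0` the inner sum is
`ψ (x e^{-u}) - ψ (x e^{-u-h})` (only `≤` is needed); it is `0` for `u > L` (`L_d ≤ L`), and
`SS a (e^u) = 0` for `u < 0`.  So the integral is over `0 ≤ u ≤ L`.
(4) For `w = x e^{-u}`: `ψ w - ψ (w e^{-h}) ≤ 2 h w + ψ w0` for all `w > 0` (`pnt_short` if `w ≥ w0`,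
`ψ` monotone otherwise).  So the integral is at most
`2 h x ∫_0^L SS a (e^u) e^{-u} du + ψ w0 ∫_0^L C e^u du ≤ 2 h x ∫ .. + C (ψ w0) x`.
(5) `∑ Λ d E_d ≤ 4 h * 4 B x (1 + L) + 2 C * 8 B x` by `sum_inv`, `sum_sqrt` for `f = Λ` with
`B = log 4 + 4` (`Chebyshev.psi_le_const_mul_self`; `Chebyshev.psi t = ∑ n ∈ Ioc 0 ⌊t⌋₊, Λ n`).
Divide by `h`.
-/

set_option autoImplicit false

namespace Pool.Agent.LogCh.HG

open Real

theorem vM_sum_le {t : ℝ} (ht : 1 ≤ t) :
    ∑ n ∈ Finset.Icc 1 ⌊t⌋₊, ArithmeticFunction.vonMangoldt n ≤ (log 4 + 4) * t :=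
  Chebyshev.psi_le_const_mul_self (by linarith)

theorem pnt_short (h : ℝ) (hh : 0 < h) (h1 : h ≤ 1) : ∃ w0 : ℝ, 1 ≤ w0 ∧ ∀ w : ℝ, w0 ≤ w →
    Chebyshev.psi w - Chebyshev.psi (w * exp (-h)) ≤ 2 * h * w := by
  have h2 := Metric.tendsto_atTop.1 PNT.psi_tendsto (h / 2) (by positivity)
  obtain ⟨w1, hw1⟩ := h2
  have key : ∀ w : ℝ, max w1 1 ≤ w → |Chebyshev.psi w - w| ≤ h / 2 * w := by
    intro w hw
    have hw0 : 0 < w := lt_of_lt_of_le one_pos ((le_max_right _ _).trans hw)
    have h3 := hw1 w ((le_max_left _ _).trans hw)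
    rw [Real.dist_eq] at h3
    have h4 : Chebyshev.psi w - w = (Chebyshev.psi w / w - 1) * w := by field_simp
    rw [h4, abs_mul, abs_of_pos hw0]
    exact mul_le_mul_of_nonneg_right h3.le hw0.le
  refine ⟨max w1 1 * exp 1, ?_, fun w hw => ?_⟩
  · have h3 : (1 : ℝ) ≤ max w1 1 := le_max_right _ _
    have h4 : (1 : ℝ) ≤ exp 1 := Real.one_le_exp zero_le_one
    nlinarith
  · have h3 : (1 : ℝ) ≤ max w1 1 := le_max_right _ _
    have h4 : (1 : ℝ) ≤ exp 1 := Real.one_le_exp zero_le_one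
    have hw' : max w1 1 ≤ w := le_trans (by nlinarith) hw
    have hw0 : 0 < w := by linarith
    have h5 : max w1 1 ≤ w * exp (-h) := by
      have h6 : exp (-1) ≤ exp (-h) := Real.exp_le_exp.2 (by linarith)
      have h7 : max w1 1 = max w1 1 * exp 1 * exp (-1) := by
        rw [mul_assoc, ← Real.exp_add]; simp
      rw [h7]
      exact mul_le_mul hw h6 (Real.exp_pos _).le hw0.le
    have h6 := abs_le.1 (key w hw')
    have h7 := abs_le.1 (key _ h5)
    have h8 : 1 - h ≤ exp (-h) := by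
      have := Real.add_one_le_exp (-h)
      linarith
    have h9 : exp (-h) ≤ 1 := Real.exp_le_one_iff.2 (by linarith)
    nlinarith [mul_le_mul_of_nonneg_left h8 hw0.le, mul_le_mul_of_nonneg_left h9 hw0.le,
      mul_pos hh hw0]

private lemma hb_inner {x u h : ℝ} (hx : 1 ≤ x) (hh : 0 ≤ h) :
    ∑ d ∈ Finset.Icc 1 ⌊x⌋₊, (if log (x / d) - h < u ∧ u ≤ log (x / d) then
      ArithmeticFunction.vonMangoldt d else 0) ≤
    Chebyshev.psi (x * exp (-u)) - Chebyshev.psi (x * exp (-u) * exp (-h)) := by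
  have hx0 : 0 < x := by linarith
  have h1 : x * exp (-u) * exp (-h) ≤ x * exp (-u) := by
    have h9 : exp (-h) ≤ 1 := Real.exp_le_one_iff.2 (by linarith)
    exact mul_le_of_le_one_right (by positivity) h9
  have h2 : ⌊x * exp (-u) * exp (-h)⌋₊ ≤ ⌊x * exp (-u)⌋₊ := Nat.floor_le_floor h1
  have h3 := Finset.sum_Ioc_consecutive (fun n => ArithmeticFunction.vonMangoldt n)
    (Nat.zero_le ⌊x * exp (-u) * exp (-h)⌋₊) h2
  have h4 : Chebyshev.psi (x * exp (-u)) - Chebyshev.psi (x * exp (-u) * exp (-h)) =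
      ∑ n ∈ Finset.Ioc ⌊x * exp (-u) * exp (-h)⌋₊ ⌊x * exp (-u)⌋₊,
        ArithmeticFunction.vonMangoldt n := by
    unfold Chebyshev.psi
    linarith
  rw [h4, ← Finset.sum_filter]
  refine Finset.sum_le_sum_of_subset_of_nonneg ?_
    (fun _ _ _ => ArithmeticFunction.vonMangoldt_nonneg)
  intro d hd
  rw [Finset.mem_filter, Finset.mem_Icc] at hd
  obtain ⟨⟨hd1, -⟩, hd2, hd3⟩ := hd
  have hd0 : (0 : ℝ) < d := by exact_mod_cast hd1
  have hxd : 0 < x / d := by positivity
  rw [Finset.mem_Ioc]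
  constructor
  · rw [Nat.floor_lt (by positivity)]
    have h5 : x / d < exp (u + h) := (Real.log_lt_iff_lt_exp hxd).1 (by linarith)
    rw [div_lt_iff₀ hd0] at h5
    have h6 : x * exp (-u) * exp (-h) < (exp (u + h) * d) * exp (-u) * exp (-h) := by
      gcongr
    refine h6.trans_le (le_of_eq ?_)
    have h7 : exp (u + h) * exp (-u) * exp (-h) = 1 := by
      rw [← Real.exp_add, ← Real.exp_add]; simp
    calc exp (u + h) * d * exp (-u) * exp (-h) = (exp (u + h) * exp (-u) * exp (-h)) * d := by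
          ring
      _ = d := by rw [h7, one_mul]
  · apply Nat.le_floor
    have h5 : exp u ≤ x / d := (Real.le_log_iff_exp_le hxd).1 hd3
    rw [le_div_iff₀ hd0] at h5
    calc (d : ℝ) = (exp u * d) * exp (-u) := by
          rw [mul_right_comm, ← Real.exp_add]; simp
      _ ≤ x * exp (-u) := by gcongr

private lemma hb_meas (a : ℕ → ℂ) : Measurable (fun u : ℝ => SS a (exp u)) := by
  have h1 : Measurable (fun n : ℕ => ‖∑ k ∈ Finset.Icc 1 n, a k‖) := measurable_from_nat
  exact h1.comp (Nat.measurable_floor.comp Real.measurable_exp)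

private lemma hb_int {a : ℕ → ℂ} {C : ℝ} (hC : ∀ y : ℝ, 0 ≤ y → SS a y ≤ C * y) (hC0 : 0 ≤ C)
    (α β : ℝ) : IntervalIntegrable (fun u : ℝ => SS a (exp u)) MeasureTheory.volume α β := by
  refine IntervalIntegrable.mono_fun' (g := fun u => C * exp u)
    ((continuous_const.mul Real.continuous_exp).intervalIntegrable _ _)
    (hb_meas a).aestronglyMeasurable ?_
  refine Filter.Eventually.of_forall fun u => ?_
  change ‖SS a (exp u)‖ ≤ C * exp u
  rw [Real.norm_of_nonneg (SS_nonneg _ _)]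
  exact hC _ (Real.exp_pos _).le

private lemma hb_one {a : ℕ → ℂ} (ha : ∀ n : ℕ, 1 ≤ n → ‖a n‖ ≤ r2 n) {C C2 : ℝ}
    (hC : ∀ y : ℝ, 0 ≤ y → SS a y ≤ C * y) (hC0 : 0 ≤ C) (hC2 : 0 < C2)
    (h2 : ∀ u v : ℝ, 0 ≤ u → u ≤ v →
      |∑ n ∈ Finset.Ioc ⌊u⌋₊ ⌊v⌋₊, r2 n - π * (v - u)| ≤ C2 * (√v + 1))
    {h : ℝ} (hh : 0 < h) {y : ℝ} (hy : 1 ≤ y) :
    h * SS a y ≤ (∫ u in (log y - h)..(log y), SS a (exp u)) + h * (4 * h * y + 2 * C2 * √y) := by
  have hy0 : 0 < y := by linarith
  have h1 : ∀ u ∈ Set.Icc (log y - h) (log y),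
      SS a y ≤ SS a (exp u) + (4 * h * y + 2 * C2 * √y) := by
    intro u hu
    have h3 : exp u ≤ y := (Real.le_log_iff_exp_le hy0).1 hu.2
    have h4 : y - h * y ≤ exp u := by
      have h5 : exp (log y - h) ≤ exp u := Real.exp_le_exp.2 hu.1
      rw [Real.exp_sub, Real.exp_log hy0] at h5
      have h6 : 1 - h ≤ exp (-h) := by
        have := Real.add_one_le_exp (-h)
        linarith
      have h7 : y / exp h = y * exp (-h) := by rw [Real.exp_neg]; rfl
      rw [h7] at h5
      nlinarith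
    have h5 := SS_sub_le ha h3
    have h6 := (abs_le.1 (h2 (exp u) y (Real.exp_pos _).le h3)).2
    have h7 := (abs_le.1 h5).2
    have h8 : π * (y - exp u) ≤ 4 * (h * y) := by
      have h9 : y - exp u ≤ h * y := by linarith
      have h10 : 0 ≤ y - exp u := by linarith
      nlinarith [Real.pi_le_four, Real.pi_pos]
    have h9 : 1 ≤ √y := by rw [Real.one_le_sqrt]; exact hy
    nlinarith
  have h3 : ∫ _u in (log y - h)..(log y), SS a y ≤
      ∫ u in (log y - h)..(log y), (SS a (exp u) + (4 * h * y + 2 * C2 * √y)) := by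
    refine intervalIntegral.integral_mono_on (by linarith) intervalIntegrable_const
      ((hb_int hC hC0 _ _).add intervalIntegrable_const) h1
  rw [intervalIntegral.integral_add (hb_int hC hC0 _ _) intervalIntegrable_const,
    intervalIntegral.integral_const, intervalIntegral.integral_const] at h3
  simpa using h3

private lemma hb_ind (a : ℕ → ℂ) {α β : ℝ} (hαβ : α ≤ β) :
    ∫ u in α..β, SS a (exp u) =
      ∫ u : ℝ, (Set.Ioc α β).indicator (fun u => SS a (exp u)) u := by
  rw [intervalIntegral.integral_of_le hαβ, MeasureTheory.integral_indicator measurableSet_Ioc]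

theorem hal2 : ∃ C0 : ℝ, 0 < C0 ∧ ∀ h : ℝ, 0 < h → h ≤ 1 → ∃ Ch : ℝ, 0 < Ch ∧
    ∀ a : ℕ → ℂ, (∀ n : ℕ, 1 ≤ n → ‖a n‖ ≤ r2 n) → ∀ x : ℝ, 1 ≤ x →
    ∑ d ∈ Finset.Icc 1 ⌊x⌋₊, ArithmeticFunction.vonMangoldt d * SS a (x / d) ≤
      2 * x * (∫ u in (0 : ℝ)..(log x), SS a (exp u) * exp (-u)) + C0 * h * x * log x + Ch * x := by
  obtain ⟨C, hC0, hC⟩ := SS_le
  obtain ⟨C2, hC20, hC2⟩ := r2_asymp
  set B : ℝ := log 4 + 4 with hB
  have hB0 : 0 < B := by
    have : 0 ≤ log 4 := Real.log_nonneg (by norm_num)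
    linarith
  refine ⟨16 * B, by positivity, fun h hh hh1 => ?_⟩
  obtain ⟨w0, hw0, hpnt⟩ := pnt_short h hh hh1
  refine ⟨C * Chebyshev.psi w0 / h + 16 * B * h + 16 * B * C2, ?_, fun a ha x hx => ?_⟩
  · have := Chebyshev.psi_nonneg w0
    positivity
  have hx0 : 0 < x := by linarith
  have hL : 0 ≤ log x := Real.log_nonneg hx
  have hint := hb_int (hC a ha) hC0.le
  have hψ0 := Chebyshev.psi_nonneg w0
  -- bound for the psi difference
  have hψ : ∀ w : ℝ, 0 < w → Chebyshev.psi w - Chebyshev.psi (w * exp (-h)) ≤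
      2 * h * w + Chebyshev.psi w0 := by
    intro w hw
    rcases le_or_gt w0 w with h3 | h3
    · have := hpnt w h3
      linarith
    · have h4 := Chebyshev.psi_mono h3.le
      have h5 := Chebyshev.psi_nonneg (w * exp (-h))
      have h6 : 0 < h * w := mul_pos hh hw
      linarith
  -- the terms
  have hd1 : ∀ d ∈ Finset.Icc 1 ⌊x⌋₊, (1 : ℝ) ≤ x / d := by
    intro d hd
    rw [Finset.mem_Icc] at hd
    have hd0 : (0 : ℝ) < d := by exact_mod_cast hd.1
    rw [le_div_iff₀ hd0, one_mul]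
    exact (Nat.le_floor_iff hx0.le).1 hd.2
  have hmain : h * ∑ d ∈ Finset.Icc 1 ⌊x⌋₊, ArithmeticFunction.vonMangoldt d * SS a (x / d) ≤
      ∑ d ∈ Finset.Icc 1 ⌊x⌋₊, ArithmeticFunction.vonMangoldt d *
        (∫ u : ℝ, (Set.Ioc (log (x / d) - h) (log (x / d))).indicator
          (fun u => SS a (exp u)) u) +
      h * ∑ d ∈ Finset.Icc 1 ⌊x⌋₊, ArithmeticFunction.vonMangoldt d *
        (4 * h * (x / d) + 2 * C2 * √(x / d)) := by
    rw [Finset.mul_sum, Finset.mul_sum, ← Finset.sum_add_distrib]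
    refine Finset.sum_le_sum fun d hd => ?_
    have h3 := hb_one ha (hC a ha) hC0.le hC20 hC2 hh (hd1 d hd)
    rw [hb_ind a (by linarith)] at h3
    have h4 := mul_le_mul_of_nonneg_left h3
      (ArithmeticFunction.vonMangoldt_nonneg (n := d))
    linarith
  -- exchange of sum and integral
  have hInt : ∀ d ∈ Finset.Icc 1 ⌊x⌋₊, MeasureTheory.Integrable (fun u : ℝ =>
      ArithmeticFunction.vonMangoldt d * (Set.Ioc (log (x / d) - h) (log (x / d))).indicator
          (fun u => SS a (exp u)) u) MeasureTheory.volume := by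
    intro d _
    refine MeasureTheory.Integrable.const_mul ?_ _
    rw [MeasureTheory.integrable_indicator_iff measurableSet_Ioc,
      ← intervalIntegrable_iff_integrableOn_Ioc_of_le (by linarith)]
    exact hint _ _
  have hex : ∑ d ∈ Finset.Icc 1 ⌊x⌋₊, ArithmeticFunction.vonMangoldt d *
        (∫ u : ℝ, (Set.Ioc (log (x / d) - h) (log (x / d))).indicator
          (fun u => SS a (exp u)) u) =
      ∫ u : ℝ, ∑ d ∈ Finset.Icc 1 ⌊x⌋₊, ArithmeticFunction.vonMangoldt d *
        (Set.Ioc (log (x / d) - h) (log (x / d))).indicator (fun u => SS a (exp u)) u := by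
    rw [MeasureTheory.integral_finsetSum _ hInt]
    refine Finset.sum_congr rfl fun d _ => ?_
    rw [MeasureTheory.integral_const_mul]
  set g : ℝ → ℝ := fun u => 2 * h * x * (SS a (exp u) * exp (-u)) +
    Chebyshev.psi w0 * SS a (exp u) with hg
  have hgint : IntervalIntegrable g MeasureTheory.volume 0 (log x) := by
    refine IntervalIntegrable.add ?_ ((hint _ _).const_mul _)
    refine IntervalIntegrable.const_mul ?_ _
    exact (hint _ _).mul_continuousOn (by fun_prop)
  have hle : ∫ u : ℝ, ∑ d ∈ Finset.Icc 1 ⌊x⌋₊, ArithmeticFunction.vonMangoldt d *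
        (Set.Ioc (log (x / d) - h) (log (x / d))).indicator (fun u => SS a (exp u)) u ≤
      ∫ u : ℝ, (Set.Icc 0 (log x)).indicator g u := by
    refine MeasureTheory.integral_mono (MeasureTheory.integrable_finsetSum _ hInt) ?_ ?_
    · rw [MeasureTheory.integrable_indicator_iff measurableSet_Icc,
        integrableOn_Icc_iff_integrableOn_Ioc,
        ← intervalIntegrable_iff_integrableOn_Ioc_of_le hL]
      exact hgint
    · intro u
      have e1 : ∑ d ∈ Finset.Icc 1 ⌊x⌋₊, ArithmeticFunction.vonMangoldt d *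
          (Set.Ioc (log (x / d) - h) (log (x / d))).indicator (fun u => SS a (exp u)) u =
          (∑ d ∈ Finset.Icc 1 ⌊x⌋₊, (if log (x / d) - h < u ∧ u ≤ log (x / d) then
            ArithmeticFunction.vonMangoldt d else 0)) * SS a (exp u) := by
        rw [Finset.sum_mul]
        refine Finset.sum_congr rfl fun d _ => ?_
        rw [Set.indicator_apply]
        simp only [Set.mem_Ioc]
        split_ifs
        · rfl
        · simp
      change ∑ d ∈ Finset.Icc 1 ⌊x⌋₊, ArithmeticFunction.vonMangoldt d *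
          (Set.Ioc (log (x / d) - h) (log (x / d))).indicator (fun u => SS a (exp u)) u ≤ _
      rw [e1, Set.indicator_apply]
      split_ifs with hu
      · rw [Set.mem_Icc] at hu
        have h3 := hb_inner (u := u) hx hh.le
        have h4 := hψ (x * exp (-u)) (by positivity)
        have h5 := mul_le_mul_of_nonneg_right (h3.trans h4) (SS_nonneg a (exp u))
        refine h5.trans (le_of_eq ?_)
        rw [hg]
        ring
      · rw [Set.mem_Icc, not_and_or, not_le, not_le] at hu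
        rcases hu with hu | hu
        · rw [SS_of_lt_one a (Real.exp_lt_one_iff.2 hu), mul_zero]
        · have h3 : ∀ d ∈ Finset.Icc 1 ⌊x⌋₊, (if log (x / d) - h < u ∧ u ≤ log (x / d) then
              ArithmeticFunction.vonMangoldt d else 0) = 0 := by
            intro d hd
            rw [if_neg]
            rintro ⟨-, h4⟩
            have h5 : log (x / d) ≤ log x := by
              have hd0 : (1 : ℝ) ≤ d := by exact_mod_cast (Finset.mem_Icc.1 hd).1
              have := hd1 d hd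
              exact Real.log_le_log (by linarith) (div_le_self hx0.le hd0)
            linarith
          rw [Finset.sum_eq_zero h3, zero_mul]
  have hgi : ∫ u : ℝ, (Set.Icc 0 (log x)).indicator g u ≤
      2 * h * x * (∫ u in (0 : ℝ)..(log x), SS a (exp u) * exp (-u)) +
        Chebyshev.psi w0 * (C * x) := by
    rw [MeasureTheory.integral_indicator measurableSet_Icc,
      MeasureTheory.integral_Icc_eq_integral_Ioc, ← intervalIntegral.integral_of_le hL, hg,
      intervalIntegral.integral_add, intervalIntegral.integral_const_mul,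
      intervalIntegral.integral_const_mul]
    · have h3 : ∫ u in (0 : ℝ)..(log x), SS a (exp u) ≤ C * x := by
        have h4 : ∫ u in (0 : ℝ)..(log x), SS a (exp u) ≤ ∫ u in (0 : ℝ)..(log x), C * exp u := by
          refine intervalIntegral.integral_mono_on hL (hint _ _)
            ((continuous_const.mul Real.continuous_exp).intervalIntegrable _ _) ?_
          intro u _
          exact hC a ha _ (Real.exp_pos _).le
        rw [intervalIntegral.integral_const_mul, integral_exp, Real.exp_log hx0,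
          Real.exp_zero] at h4
        nlinarith
      have h4 := mul_le_mul_of_nonneg_left h3 hψ0
      linarith
    · refine IntervalIntegrable.const_mul ?_ _
      exact (hint _ _).mul_continuousOn (by fun_prop)
    · exact (hint _ _).const_mul _
  -- the error terms
  have hE : ∑ d ∈ Finset.Icc 1 ⌊x⌋₊, ArithmeticFunction.vonMangoldt d *
        (4 * h * (x / d) + 2 * C2 * √(x / d)) ≤
      4 * h * x * (4 * B * (1 + log x)) + 2 * C2 * (8 * B * x) := by
    have h3 := sum_inv (f := fun n => ArithmeticFunction.vonMangoldt n)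
      (fun n => ArithmeticFunction.vonMangoldt_nonneg) (B := B) (fun t ht => vM_sum_le ht) hx
    have h4 := sum_sqrt (f := fun n => ArithmeticFunction.vonMangoldt n)
      (fun n => ArithmeticFunction.vonMangoldt_nonneg) (B := B) (fun t ht => vM_sum_le ht) hx
    have h5 : ∑ d ∈ Finset.Icc 1 ⌊x⌋₊, ArithmeticFunction.vonMangoldt d *
        (4 * h * (x / d) + 2 * C2 * √(x / d)) =
        4 * h * x * (∑ n ∈ Finset.Icc 1 ⌊x⌋₊, ArithmeticFunction.vonMangoldt n / n) +
        2 * C2 * ∑ n ∈ Finset.Icc 1 ⌊x⌋₊, ArithmeticFunction.vonMangoldt n * √(x / n) := by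
      rw [Finset.mul_sum, Finset.mul_sum, ← Finset.sum_add_distrib]
      refine Finset.sum_congr rfl fun d _ => ?_
      ring
    rw [h5]
    have h6 : 0 ≤ 4 * h * x := by positivity
    have h7 : 0 ≤ 2 * C2 := by positivity
    exact add_le_add (mul_le_mul_of_nonneg_left h3 h6) (mul_le_mul_of_nonneg_left h4 h7)
  rw [hex] at hmain
  have hfin := hmain.trans (add_le_add (hle.trans hgi) (mul_le_mul_of_nonneg_left hE hh.le))
  have h3 : h * (2 * x * (∫ u in (0 : ℝ)..(log x), SS a (exp u) * exp (-u)) +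
      16 * B * h * x * log x + (C * Chebyshev.psi w0 / h + 16 * B * h + 16 * B * C2) * x) =
      2 * h * x * (∫ u in (0 : ℝ)..(log x), SS a (exp u) * exp (-u)) +
        Chebyshev.psi w0 * (C * x) +
      h * (4 * h * x * (4 * B * (1 + log x)) + 2 * C2 * (8 * B * x)) := by
    field_simp
    ring
  rw [← h3] at hfin
  exact le_of_mul_le_mul_left hfin hh

end Pool.Agent.LogCh.HG
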