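import Pool.Agent.Lib.LogCh.H0
import Pool.Agent.Lib.MP_4ccfbf_an.PL12

/-!
# HPl: Plancherel for Dirichlet series

PROOF.  Put `A u = ∑ n ∈ Icc 1 ⌊e^u⌋₊, f n` (complex; `‖A u‖ = SS f (e^u)`), and
`F u = if 0 < u then A u * exp (- σ u) else 0`.  `F` is measurable (function of `⌊e^u⌋₊`),
`‖F u‖ ≤ B e^{-(σ-ρ) u}` for `u > 0`, so `F` is integrable and square integrable.
`plancherel_L1_L2` (file MP_4ccfbf_an/PL12, namespace `Pool.Agent.Lib.MP_4ccfbf_an`) gives
`∫ ‖∫ exp (-2 π i ξ u) • F u du‖² dξ = ∫ ‖F‖²` and integrability.  For `s = σ + 2 π i ξ`: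
`∫ exp (-2 π i ξ u) F u du = ∫_{u>0} A u exp (-s u) du = ∫_{t>1} (∑_{n ≤ t} f n) t ^ (-(s+1)) dt`
(substitution `t = e^u`; compare `PNT.psi_integral` in PNT/Theta.lean, which does the same
substitution) `= LSeries f s / s` by Mathlib's `LSeries_eq_mul_integral` (exponent `ρ`:
`‖∑_{k ≤ n} f k‖ ≤ B n ^ ρ`; summability at `s` follows from summability at `σ`,
`LSeriesSummable.of_re_le_re`; `s ≠ 0`).  `‖F u‖ ^ 2 = SS f (e^u) ^ 2 * exp (-(2 σ u))` for `u > 0`.
-/

set_option autoImplicit false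

namespace Pool.Agent.LogCh.HG

open Real MeasureTheory

/-- the partial sums as a function of `log t` -/
private noncomputable def plA (f : ℕ → ℂ) (u : ℝ) : ℂ := ∑ n ∈ Finset.Icc 1 ⌊exp u⌋₊, f n

private lemma plA_meas (f : ℕ → ℂ) : Measurable (plA f) := by
  have h1 : Measurable (fun N : ℕ => ∑ n ∈ Finset.Icc 1 N, f n) := measurable_from_nat
  exact h1.comp (Nat.measurable_floor.comp Real.measurable_exp)

private lemma plA_norm (f : ℕ → ℂ) (u : ℝ) : ‖plA f u‖ = SS f (exp u) := rfl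

private lemma pl_trans {f : ℕ → ℂ} {ρ B : ℝ} (hρ0 : 0 ≤ ρ)
    (hB : ∀ t : ℝ, 1 ≤ t → SS f t ≤ B * t ^ ρ) {s : ℂ} (hρ : ρ < s.re)
    (hs : LSeriesSummable f s) :
    LSeries f s = s * ∫ u in Set.Ioi (0 : ℝ), plA f u * Complex.exp (-s * u) := by
  have h1 := LSeries_eq_mul_integral f hρ0 hρ hs ?_
  · rw [h1]
    congr 1
    have himg : Real.exp '' Set.Ioi (0 : ℝ) = Set.Ioi 1 := by
      ext x
      simp only [Set.mem_image, Set.mem_Ioi]
      constructor
      · rintro ⟨u, hu, rfl⟩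
        exact Real.one_lt_exp_iff.mpr hu
      · intro hx
        exact ⟨Real.log x, Real.log_pos hx, Real.exp_log (by linarith)⟩
    rw [← himg, integral_image_eq_integral_abs_deriv_smul (f' := Real.exp) measurableSet_Ioi
      (fun x _ => (Real.hasDerivAt_exp x).hasDerivWithinAt) Real.exp_injective.injOn]
    apply setIntegral_congr_fun measurableSet_Ioi
    intro u _
    simp only
    have e1 : (∑ k ∈ Finset.Icc 1 ⌊Real.exp u⌋₊, f k) = plA f u := rfl
    rw [e1, abs_of_pos (Real.exp_pos u)]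
    have e2 : ((Real.exp u : ℝ) : ℂ) ^ (-(s + 1)) = Complex.exp (-(s + 1) * u) := by
      rw [Complex.cpow_def_of_ne_zero (by exact_mod_cast (Real.exp_pos u).ne'),
        ← Complex.ofReal_log (Real.exp_pos u).le, Real.log_exp]
      congr 1
      ring
    rw [e2, Complex.real_smul]
    push_cast
    have e3 : Complex.exp (-s * u) = Complex.exp u * Complex.exp (-(s + 1) * u) := by
      rw [← Complex.exp_add]
      congr 1
      ring
    rw [e3]
    ring
  · rw [Asymptotics.isBigO_iff]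
    refine ⟨B, ?_⟩
    filter_upwards [Filter.eventually_ge_atTop 1] with n hn
    have h2 := hB n (by exact_mod_cast hn)
    unfold SS at h2
    rw [Nat.floor_natCast] at h2
    rw [Real.norm_of_nonneg (by positivity)]
    exact h2

theorem plan {f : ℕ → ℂ} {σ ρ B : ℝ} (hρ0 : 0 ≤ ρ) (hρ : ρ < σ)
    (hB : ∀ t : ℝ, 1 ≤ t → SS f t ≤ B * t ^ ρ) (hs : LSeriesSummable f (σ : ℂ)) :
    Integrable (fun ξ : ℝ => ‖LSeries f ((σ : ℂ) + ((2 * π * ξ : ℝ) : ℂ) * Complex.I) /
      ((σ : ℂ) + ((2 * π * ξ : ℝ) : ℂ) * Complex.I)‖ ^ 2) ∧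
    IntegrableOn (fun u : ℝ => SS f (exp u) ^ 2 * exp (-(2 * σ * u))) (Set.Ioi 0) ∧
    ∫ ξ : ℝ, ‖LSeries f ((σ : ℂ) + ((2 * π * ξ : ℝ) : ℂ) * Complex.I) /
      ((σ : ℂ) + ((2 * π * ξ : ℝ) : ℂ) * Complex.I)‖ ^ 2 =
      ∫ u in Set.Ioi (0 : ℝ), SS f (exp u) ^ 2 * exp (-(2 * σ * u)) := by
  set F : ℝ → ℂ := Set.indicator (Set.Ioi 0) (fun u => plA f u * Complex.exp (-(σ : ℂ) * u))
    with hF
  have hc : 0 < σ - ρ := by linarith
  have hmeas : Measurable F := by
    apply Measurable.indicator _ measurableSet_Ioi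
    apply (plA_meas f).mul
    fun_prop
  have hnorm : ∀ u : ℝ, 0 < u → ‖F u‖ = SS f (exp u) * exp (-(σ * u)) := by
    intro u hu
    rw [hF, Set.indicator_of_mem (Set.mem_Ioi.2 hu), norm_mul, plA_norm, Complex.norm_exp]
    congr 2
    simp
  have hbound : ∀ u : ℝ, 0 < u → ‖F u‖ ≤ B * exp (-(σ - ρ) * u) := by
    intro u hu
    rw [hnorm u hu]
    have h1 := hB (exp u) (Real.one_le_exp hu.le)
    rw [← Real.exp_mul] at h1
    calc SS f (exp u) * exp (-(σ * u)) ≤ B * exp (u * ρ) * exp (-(σ * u)) :=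
          mul_le_mul_of_nonneg_right h1 (Real.exp_pos _).le
      _ = B * exp (-(σ - ρ) * u) := by
          rw [mul_assoc, ← Real.exp_add]
          congr 2
          ring
  have hzero : ∀ u : ℝ, ¬ 0 < u → F u = 0 := by
    intro u hu
    rw [hF, Set.indicator_of_notMem]
    exact fun h => hu (Set.mem_Ioi.1 h)
  have hint : Integrable F := by
    have h1 : IntegrableOn (fun u : ℝ => B * exp (-(σ - ρ) * u)) (Set.Ioi 0) :=
      (exp_neg_integrableOn_Ioi 0 hc).const_mul B
    have h2 := (integrable_indicator_iff measurableSet_Ioi).2 h1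
    refine h2.mono' hmeas.aestronglyMeasurable (Filter.Eventually.of_forall fun u => ?_)
    by_cases hu : 0 < u
    · rw [Set.indicator_of_mem (Set.mem_Ioi.2 hu)]
      exact hbound u hu
    · rw [hzero u hu, norm_zero, Set.indicator_of_notMem (fun h => hu (Set.mem_Ioi.1 h))]
  have hint2 : Integrable (fun u => ‖F u‖ ^ 2) := by
    have h1 : IntegrableOn (fun u : ℝ => B ^ 2 * exp (-(2 * (σ - ρ)) * u)) (Set.Ioi 0) :=
      (exp_neg_integrableOn_Ioi 0 (by linarith)).const_mul (B ^ 2)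
    have h2 := (integrable_indicator_iff measurableSet_Ioi).2 h1
    refine h2.mono' (hmeas.norm.pow_const 2).aestronglyMeasurable
      (Filter.Eventually.of_forall fun u => ?_)
    rw [Real.norm_of_nonneg (by positivity)]
    by_cases hu : 0 < u
    · rw [Set.indicator_of_mem (Set.mem_Ioi.2 hu)]
      calc ‖F u‖ ^ 2 ≤ (B * exp (-(σ - ρ) * u)) ^ 2 :=
            pow_le_pow_left₀ (norm_nonneg _) (hbound u hu) 2
        _ = B ^ 2 * exp (-(2 * (σ - ρ)) * u) := by
            rw [mul_pow, ← Real.exp_nat_mul]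
            congr 2
            push_cast
            ring
    · rw [hzero u hu, norm_zero, Set.indicator_of_notMem (fun h => hu (Set.mem_Ioi.1 h))]
      norm_num
  have hL2 : MemLp F 2 volume :=
    (memLp_two_iff_integrable_sq_norm hmeas.aestronglyMeasurable).2 hint2
  obtain ⟨hP1, hP2⟩ := Pool.Agent.Lib.MP_4ccfbf_an.plancherel_L1_L2 F hint hL2
  have hsq : ∀ u ∈ Set.Ioi (0 : ℝ), ‖F u‖ ^ 2 = SS f (exp u) ^ 2 * exp (-(2 * σ * u)) := by
    intro u hu
    rw [hnorm u (Set.mem_Ioi.1 hu), mul_pow, ← Real.exp_nat_mul]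
    congr 2
    push_cast
    ring
  have hind : (fun u => ‖F u‖ ^ 2) =
      Set.indicator (Set.Ioi 0) (fun u => SS f (exp u) ^ 2 * exp (-(2 * σ * u))) := by
    funext u
    by_cases hu : 0 < u
    · rw [Set.indicator_of_mem (Set.mem_Ioi.2 hu)]
      exact hsq u (Set.mem_Ioi.2 hu)
    · rw [hzero u hu, norm_zero, Set.indicator_of_notMem (fun h => hu (Set.mem_Ioi.1 h))]
      norm_num
  have hkey : ∀ ξ : ℝ,
      ∫ t : ℝ, Complex.exp (((-(2 * Real.pi * ξ * t) : ℝ) : ℂ) * Complex.I) • F t =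
        LSeries f ((σ : ℂ) + ((2 * π * ξ : ℝ) : ℂ) * Complex.I) /
          ((σ : ℂ) + ((2 * π * ξ : ℝ) : ℂ) * Complex.I) := by
    intro ξ
    set s : ℂ := (σ : ℂ) + ((2 * π * ξ : ℝ) : ℂ) * Complex.I with hsdef
    have hre : s.re = σ := by
      rw [hsdef]
      simp
    have hs0 : s ≠ 0 := by
      intro h
      rw [h, Complex.zero_re] at hre
      linarith
    have hsum : LSeriesSummable f s :=
      hs.of_re_le_re (by rw [hre, Complex.ofReal_re])
    rw [pl_trans hρ0 hB (by rw [hre]; exact hρ) hsum, mul_div_cancel_left₀ _ hs0,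
      ← integral_indicator measurableSet_Ioi]
    apply integral_congr_ae
    refine Filter.Eventually.of_forall fun u => ?_
    simp only [smul_eq_mul]
    by_cases hu : 0 < u
    · rw [hF, Set.indicator_of_mem (Set.mem_Ioi.2 hu), Set.indicator_of_mem (Set.mem_Ioi.2 hu)]
      have h1 : Complex.exp (-s * u) =
          Complex.exp (((-(2 * Real.pi * ξ * u) : ℝ) : ℂ) * Complex.I) *
            Complex.exp (-(σ : ℂ) * u) := by
        rw [← Complex.exp_add, hsdef]
        congr 1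
        push_cast
        ring
      rw [h1]
      ring
    · rw [hzero u hu, Set.indicator_of_notMem (fun h => hu (Set.mem_Ioi.1 h)), mul_zero]
  simp only [hkey] at hP1 hP2
  refine ⟨hP1, ?_, ?_⟩
  · rw [hind] at hint2
    exact (integrable_indicator_iff measurableSet_Ioi).1 hint2
  · rw [hP2, hind, integral_indicator measurableSet_Ioi]

end Pool.Agent.LogCh.HG
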