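import Pool.Agent.Lib.LogCh.HLs
import Pool.Agent.Lib.LogCh.HHb
import Pool.Agent.Lib.LogCh.HPl

/-!
# HHd: mean square of the partial sums of `a log`

PROOF.  `X = log x`, `σ = 1 + 1 / X` (`x ≥ e`, so `1 < σ ≤ 2`), `T = X ^ 2`,
`f n = a n * log n`.
(1) For `0 ≤ u ≤ X`: `e^{-2u} = e^{-2σu} e^{2u/X} ≤ e² e^{-2σu}`, so the left side is at most
`e² ∫_{u>0} SS f (e^u)² e^{-2σu} du`.
(2) `plan` for `f` with `ρ = 1 + 1 / (2 X)` (`SS f t ≤ ∑_{n ≤ t} r2 n log n ≤ C t log t ≤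
C 2 X t ^ ρ`, since `log t ≤ t ^ (1/(2X)) * 2 X`; `B = 2 C X`), summable by `LSeries_conv`:
this equals `e² ∫ ‖LSeries f s / s‖² dξ`, `s = σ + 2 π i ξ`, and
`LSeries f s = LSeries b s * LSeries a s` (`LSeries_conv`).
(3) Pointwise for every `ξ`:
`‖LSeries f s / s‖² ≤ δ² X² ‖LSeries b s / s‖² + 2 C' X⁴ / ((2πξ)² + T²)`:
if `|2πξ| ≤ T` use the hypothesis; otherwise `‖LSeries a s‖ ≤ ∑' r2 n / n^σ ≤ C X` and
`‖LSeries b s‖ ≤ 2 ∑' Λ n / n^σ ≤ C X` (`sum_sigma`, `r2_sum_le`, `vM_sum_le`) and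
`‖s‖² ≥ (2πξ)² ≥ ((2πξ)² + T²) / 2`.
(4) `∫ ‖LSeries b s / s‖² dξ = ∫_{u>0} SS b (e^u)² e^{-2σu} du` by `plan` for `b` with `ρ = 1`
(`SS b t ≤ 2 ∑_{n≤t} Λ n ≤ 2 (log 4 + 4) t`), at most `C ∫_{u>0} e^{-2u/X} du = C X / 2`.
`∫ dξ / ((2πξ)² + T²) = 1 / (2 T)` (`integral_univ_inv_one_add_sq` and scaling).
Total: `C (δ² X³ + X⁴ / T) = C (δ² X³ + X²)`.
-/

set_option autoImplicit false

namespace Pool.Agent.LogCh.HG

open Real MeasureTheory

private lemma hd_bound {c : ℕ → ℂ} {f : ℕ → ℝ} (hf : ∀ n, 0 ≤ f n)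
    (hcf : ∀ n : ℕ, 1 ≤ n → ‖c n‖ ≤ f n) {B : ℝ}
    (hB : ∀ t : ℝ, 1 ≤ t → ∑ n ∈ Finset.Icc 1 ⌊t⌋₊, f n ≤ B * t) {s : ℂ} (h1 : 1 < s.re)
    (h2 : s.re ≤ 2) : ‖LSeries c s‖ ≤ 4 * B / (s.re - 1) := by
  obtain ⟨h3, h4⟩ := sum_sigma hf hB h1 h2
  refine le_trans (tsum_of_norm_bounded h3.hasSum fun n => ?_) h4
  rw [LSeries.norm_term_eq]
  split_ifs with h0
  · exact div_nonneg (hf n) (Real.rpow_nonneg (Nat.cast_nonneg n) _)
  · exact div_le_div_of_nonneg_right (hcf n (Nat.one_le_iff_ne_zero.2 h0))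
      (Real.rpow_nonneg (Nat.cast_nonneg n) _)

private lemma hd_lorentz {T : ℝ} (hT : 0 < T) :
    Integrable (fun ξ : ℝ => 1 / ((2 * π * ξ) ^ 2 + T ^ 2)) ∧
      ∫ ξ : ℝ, 1 / ((2 * π * ξ) ^ 2 + T ^ 2) = 1 / (2 * T) := by
  have e : (fun ξ : ℝ => 1 / ((2 * π * ξ) ^ 2 + T ^ 2)) =
      fun ξ : ℝ => (1 / T ^ 2) * (1 + ((2 * π / T) * ξ) ^ 2)⁻¹ := by
    funext ξ
    have h1 : (2 * π * ξ) ^ 2 + T ^ 2 = T ^ 2 * (1 + ((2 * π / T) * ξ) ^ 2) := by
      field_simp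
      ring
    rw [h1, one_div, mul_inv, one_div]
  have hc : 2 * π / T ≠ 0 := by
    have := Real.pi_pos
    positivity
  constructor
  · rw [e]
    exact (integrable_inv_one_add_sq.comp_mul_left' hc).const_mul _
  · rw [e, integral_const_mul, Measure.integral_comp_mul_left (fun y : ℝ => (1 + y ^ 2)⁻¹),
      integral_univ_inv_one_add_sq, smul_eq_mul, abs_of_pos (by have := Real.pi_pos; positivity)]
    have := Real.pi_pos
    field_simp

theorem hal3 : ∃ C : ℝ, 0 < C ∧ ∃ x0 : ℝ, ∀ a b : ℕ → ℂ, HP a b → ∀ x : ℝ, x0 ≤ x →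
    ∀ δ : ℝ, 0 ≤ δ → (∀ t : ℝ, |t| ≤ (log x) ^ 2 →
      ‖LSeries a (((1 + 1 / log x : ℝ) : ℂ) + (t : ℂ) * Complex.I)‖ ≤ δ * log x) →
    ∫ u in (0 : ℝ)..(log x), SS (fun n => a n * ((log n : ℝ) : ℂ)) (exp u) ^ 2 * exp (-(2 * u)) ≤
      C * (δ ^ 2 * (log x) ^ 3 + (log x) ^ 2) := by
  obtain ⟨Cr, hCr0, hCr⟩ := r2_sum_le
  set B : ℝ := log 4 + 4 with hB
  have hB0 : 0 < B := by
    have : 0 ≤ log 4 := Real.log_nonneg (by norm_num)
    linarith
  refine ⟨exp 1 ^ 2 * ((2 * B) ^ 2 + (4 * Cr) ^ 2 * (8 * B) ^ 2), by positivity, exp 1, ?_⟩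
  intro a b hab x hx δ hδ hδa
  set X : ℝ := log x with hX
  have hx0 : 0 < x := lt_of_lt_of_le (Real.exp_pos 1) hx
  have hX1 : 1 ≤ X := by
    rw [hX, Real.le_log_iff_exp_le hx0]
    exact hx
  have hX0 : 0 < X := by linarith
  set σ : ℝ := 1 + 1 / X with hσ
  have hσ1 : 1 < σ := by
    have : 0 < 1 / X := by positivity
    linarith
  have hσ2 : σ ≤ 2 := by
    have : 1 / X ≤ 1 := by rw [div_le_one hX0]; exact hX1
    linarith
  have hσX : σ - 1 = 1 / X := by rw [hσ]; ring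
  set f : ℕ → ℂ := fun n => a n * ((log n : ℝ) : ℂ) with hf
  have hre : ∀ ξ : ℝ, ((σ : ℂ) + ((2 * π * ξ : ℝ) : ℂ) * Complex.I).re = σ := by
    intro ξ
    simp
  have him : ∀ ξ : ℝ, ((σ : ℂ) + ((2 * π * ξ : ℝ) : ℂ) * Complex.I).im = 2 * π * ξ := by
    intro ξ
    simp
  -- growth of the sums of f
  have hSf : ∀ t : ℝ, 1 ≤ t → SS f t ≤ 2 * Cr * X * t ^ (1 + 1 / (2 * X)) := by
    intro t ht
    have ht0 : 0 < t := by linarith
    have h1 : SS f t ≤ log t * (Cr * t) := by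
      unfold SS
      refine (norm_sum_le _ _).trans ?_
      have h2 := mul_le_mul_of_nonneg_left (hCr t ht0.le) (Real.log_nonneg ht)
      refine le_trans ?_ h2
      rw [Finset.mul_sum]
      refine Finset.sum_le_sum fun n hn => ?_
      rw [Finset.mem_Icc] at hn
      have hn1 : (1 : ℝ) ≤ n := by exact_mod_cast hn.1
      have hn2 : (n : ℝ) ≤ t := (Nat.le_floor_iff ht0.le).1 hn.2
      rw [hf]
      change ‖a n * ((log n : ℝ) : ℂ)‖ ≤ _
      rw [norm_mul, Complex.norm_real, Real.norm_of_nonneg (Real.log_nonneg hn1), mul_comm]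
      exact mul_le_mul (Real.log_le_log (by linarith) hn2) (hab.ha n hn.1) (norm_nonneg _)
        (Real.log_nonneg ht)
    refine h1.trans ?_
    have h3 : log t ≤ 2 * X * t ^ (1 / (2 * X)) := by
      have h4 : 0 < t ^ (1 / (2 * X)) := Real.rpow_pos_of_pos ht0 _
      have h5 : log (t ^ (1 / (2 * X))) = 1 / (2 * X) * log t := Real.log_rpow ht0 _
      have h6 := Real.log_le_sub_one_of_pos h4
      have h7 : log t = 2 * X * log (t ^ (1 / (2 * X))) := by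
        rw [h5]; field_simp
      rw [h7]
      have h8 : log (t ^ (1 / (2 * X))) ≤ t ^ (1 / (2 * X)) := by linarith
      exact mul_le_mul_of_nonneg_left h8 (by positivity)
    have h4 : t ^ (1 + 1 / (2 * X)) = t * t ^ (1 / (2 * X)) := by
      rw [Real.rpow_add ht0, Real.rpow_one]
    rw [h4]
    have h5 := mul_le_mul_of_nonneg_right h3 (by positivity : 0 ≤ Cr * t)
    refine h5.trans (le_of_eq ?_)
    ring
  have hlt : 1 + 1 / (2 * X) < σ := by
    have : 1 / (2 * X) < 1 / X := by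
      apply one_div_lt_one_div_of_lt hX0
      linarith
    linarith
  have hfs : LSeriesSummable f (σ : ℂ) := (LSeries_conv hab (s := (σ : ℂ)) (by simpa using hσ1)).1
  obtain ⟨p1, p2, p3⟩ := plan (f := f) (σ := σ) (ρ := 1 + 1 / (2 * X)) (B := 2 * Cr * X)
    (by positivity) hlt hSf hfs
  -- the sums of b
  have hSb : ∀ t : ℝ, 1 ≤ t → SS b t ≤ 2 * B * t ^ (1 : ℝ) := by
    intro t ht
    rw [Real.rpow_one]
    unfold SS
    refine (norm_sum_le _ _).trans ?_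
    refine (Finset.sum_le_sum fun n _ => hab.hb n).trans ?_
    rw [← Finset.mul_sum]
    have := vM_sum_le ht
    rw [mul_assoc]
    exact mul_le_mul_of_nonneg_left this (by norm_num)
  have hbs : LSeriesSummable b (σ : ℂ) := hab.summable_b (s := (σ : ℂ)) (by simpa using hσ1)
  obtain ⟨q1, q2, q3⟩ := plan (f := b) (σ := σ) (ρ := 1) (B := 2 * B)
    zero_le_one hσ1 hSb hbs
  -- step 1
  have s1 : ∫ u in (0 : ℝ)..X, SS f (exp u) ^ 2 * exp (-(2 * u)) ≤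
      exp 1 ^ 2 * ∫ u in Set.Ioi (0 : ℝ), SS f (exp u) ^ 2 * exp (-(2 * σ * u)) := by
    rw [intervalIntegral.integral_of_le hX0.le, ← integral_const_mul]
    have h1 : ∫ u in Set.Ioc 0 X, SS f (exp u) ^ 2 * exp (-(2 * u)) ≤
        ∫ u in Set.Ioc 0 X, exp 1 ^ 2 * (SS f (exp u) ^ 2 * exp (-(2 * σ * u))) := by
      refine integral_mono_of_nonneg (Filter.Eventually.of_forall fun u => by positivity) ?_ ?_
      · exact (p2.mono_set Set.Ioc_subset_Ioi_self).const_mul _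
      · refine (ae_restrict_iff' measurableSet_Ioc).2 (Filter.Eventually.of_forall fun u hu => ?_)
        have h2 : exp (-(2 * u)) ≤ exp 1 ^ 2 * exp (-(2 * σ * u)) := by
          rw [← Real.exp_nat_mul, ← Real.exp_add]
          apply Real.exp_le_exp.2
          have h3 : u / X ≤ 1 := by rw [div_le_one hX0]; exact hu.2
          have h4 : 2 * σ * u = 2 * u + 2 * (u / X) := by rw [hσ]; ring
          rw [h4]
          push_cast
          linarith
        have h3 : 0 ≤ SS f (exp u) ^ 2 := by positivity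
        have h5 := mul_le_mul_of_nonneg_left h2 h3
        change SS f (exp u) ^ 2 * exp (-(2 * u)) ≤ exp 1 ^ 2 *
          (SS f (exp u) ^ 2 * exp (-(2 * σ * u)))
        linarith
    refine h1.trans ?_
    refine setIntegral_mono_set (p2.const_mul _) ?_ ?_
    · exact Filter.Eventually.of_forall fun u => by positivity
    · exact (Set.Ioc_subset_Ioi_self).eventuallyLE
  -- step 3
  have hT : 0 < X ^ 2 := by positivity
  have s3 : ∀ ξ : ℝ, ‖LSeries f ((σ : ℂ) + ((2 * π * ξ : ℝ) : ℂ) * Complex.I) /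
      ((σ : ℂ) + ((2 * π * ξ : ℝ) : ℂ) * Complex.I)‖ ^ 2 ≤
      (δ ^ 2 * X ^ 2) * ‖LSeries b ((σ : ℂ) + ((2 * π * ξ : ℝ) : ℂ) * Complex.I) /
      ((σ : ℂ) + ((2 * π * ξ : ℝ) : ℂ) * Complex.I)‖ ^ 2 +
      (2 * ((4 * Cr) ^ 2 * (8 * B) ^ 2 * X ^ 4)) * (1 / ((2 * π * ξ) ^ 2 + (X ^ 2) ^ 2)) := by
    intro ξ
    set s : ℂ := (σ : ℂ) + ((2 * π * ξ : ℝ) : ℂ) * Complex.I with hs
    have hsre : s.re = σ := hre ξ
    have hsim : s.im = 2 * π * ξ := him ξ
    have hs1 : 1 < s.re := by rw [hsre]; exact hσ1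
    have h1 : LSeries f s = LSeries b s * LSeries a s := (LSeries_conv hab hs1).2
    have h2 : ‖LSeries f s / s‖ ^ 2 = ‖LSeries a s‖ ^ 2 * ‖LSeries b s / s‖ ^ 2 := by
      rw [h1, norm_div, norm_mul, norm_div]
      ring
    rcases le_or_gt |2 * π * ξ| (X ^ 2) with h3 | h3
    · have h4 : ‖LSeries a s‖ ≤ δ * X := hδa _ h3
      rw [h2]
      have h5 : ‖LSeries a s‖ ^ 2 ≤ δ ^ 2 * X ^ 2 := by
        rw [← mul_pow]
        exact pow_le_pow_left₀ (norm_nonneg _) h4 2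
      have h6 := mul_le_mul_of_nonneg_right h5 (sq_nonneg ‖LSeries b s / s‖)
      have h7 : 0 ≤ (2 * ((4 * Cr) ^ 2 * (8 * B) ^ 2 * X ^ 4)) *
          (1 / ((2 * π * ξ) ^ 2 + (X ^ 2) ^ 2)) := by positivity
      linarith
    · have h4 : ‖LSeries a s‖ ≤ 4 * Cr * X := by
        have h5 := hd_bound (c := a) (f := r2) r2_nonneg hab.ha
          (fun t ht => hCr t (by linarith)) hs1 (by rw [hsre]; exact hσ2)
        rw [hsre, hσX] at h5
        rwa [div_div_eq_mul_div, div_one] at h5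
      have h5 : ‖LSeries b s‖ ≤ 8 * B * X := by
        have h6 := hd_bound (c := b) (f := fun n => 2 * ArithmeticFunction.vonMangoldt n)
          (B := 2 * B) (fun n => mul_nonneg (by norm_num) ArithmeticFunction.vonMangoldt_nonneg)
          (fun n _ => hab.hb n) (fun t ht => by
            rw [← Finset.mul_sum, mul_assoc]
            exact mul_le_mul_of_nonneg_left (vM_sum_le ht) (by norm_num)) hs1
            (by rw [hsre]; exact hσ2)
        rw [hsre, hσX, div_div_eq_mul_div, div_one] at h6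
        linarith
      have h6 : (2 * π * ξ) ^ 2 ≤ ‖s‖ ^ 2 := by
        rw [← hsim, ← sq_abs s.im]
        exact pow_le_pow_left₀ (abs_nonneg _) (Complex.abs_im_le_norm s) 2
      have h7 : (X ^ 2) ^ 2 ≤ (2 * π * ξ) ^ 2 := by
        rw [← sq_abs (2 * π * ξ)]
        exact pow_le_pow_left₀ hT.le h3.le 2
      have h8 : 0 < (2 * π * ξ) ^ 2 + (X ^ 2) ^ 2 := by positivity
      have h9 : 0 < ‖s‖ ^ 2 := by
        have : 0 < (X ^ 2) ^ 2 := by positivity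
        linarith
      have h10 : ‖LSeries f s / s‖ ^ 2 ≤ (4 * Cr * X) ^ 2 * (8 * B * X) ^ 2 / ‖s‖ ^ 2 := by
        rw [h1, norm_div, norm_mul, div_pow, mul_pow]
        apply div_le_div_of_nonneg_right _ h9.le
        rw [mul_comm]
        exact mul_le_mul (pow_le_pow_left₀ (norm_nonneg _) h4 2)
          (pow_le_pow_left₀ (norm_nonneg _) h5 2) (by positivity) (by positivity)
      have h11 : (4 * Cr * X) ^ 2 * (8 * B * X) ^ 2 / ‖s‖ ^ 2 ≤
          (2 * ((4 * Cr) ^ 2 * (8 * B) ^ 2 * X ^ 4)) * (1 / ((2 * π * ξ) ^ 2 + (X ^ 2) ^ 2)) := by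
        rw [mul_one_div, div_le_div_iff₀ h9 h8]
        have h12 : (2 * π * ξ) ^ 2 + (X ^ 2) ^ 2 ≤ 2 * ‖s‖ ^ 2 := by linarith
        have h13 : 0 ≤ (4 * Cr * X) ^ 2 * (8 * B * X) ^ 2 := by positivity
        refine (mul_le_mul_of_nonneg_left h12 h13).trans (le_of_eq ?_)
        ring
      have h12 : 0 ≤ (δ ^ 2 * X ^ 2) * ‖LSeries b s / s‖ ^ 2 := by positivity
      linarith
  -- step 4
  have s4 : ∫ u in Set.Ioi (0 : ℝ), SS b (exp u) ^ 2 * exp (-(2 * σ * u)) ≤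
      (2 * B) ^ 2 * (X / 2) := by
    have hneg : -(2 / X) < 0 := by
      have : 0 < 2 / X := by positivity
      linarith
    have h1 : ∫ u in Set.Ioi (0 : ℝ), SS b (exp u) ^ 2 * exp (-(2 * σ * u)) ≤
        ∫ u in Set.Ioi (0 : ℝ), (2 * B) ^ 2 * exp (-(2 / X) * u) := by
      refine setIntegral_mono_on q2 ((integrableOn_exp_mul_Ioi hneg 0).const_mul _)
        measurableSet_Ioi ?_
      intro u hu
      have h2 := hSb (exp u) (Real.one_le_exp (le_of_lt hu))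
      rw [Real.rpow_one] at h2
      have h3 : SS b (exp u) ^ 2 ≤ (2 * B * exp u) ^ 2 :=
        pow_le_pow_left₀ (SS_nonneg _ _) h2 2
      have h4 := mul_le_mul_of_nonneg_right h3 (Real.exp_pos (-(2 * σ * u))).le
      refine h4.trans (le_of_eq ?_)
      rw [mul_pow, mul_assoc]
      congr 1
      rw [← Real.exp_nat_mul, ← Real.exp_add]
      congr 1
      rw [hσ]
      push_cast
      field_simp
      ring
    refine h1.trans (le_of_eq ?_)
    rw [integral_const_mul, integral_exp_mul_Ioi hneg]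
    rw [mul_zero, Real.exp_zero]
    field_simp
  obtain ⟨l1, l2⟩ := hd_lorentz hT
  have s5 := integral_mono p1 ((q1.const_mul (δ ^ 2 * X ^ 2)).add (l1.const_mul
    (2 * ((4 * Cr) ^ 2 * (8 * B) ^ 2 * X ^ 4)))) s3
  rw [integral_add' (q1.const_mul (δ ^ 2 * X ^ 2)) (l1.const_mul _), integral_const_mul,
    integral_const_mul, l2, q3, p3] at s5
  have s6 := mul_le_mul_of_nonneg_left s4 (by positivity : 0 ≤ δ ^ 2 * X ^ 2)
  refine s1.trans ?_
  rw [mul_assoc]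
  refine mul_le_mul_of_nonneg_left (s5.trans ?_) (by positivity)
  have e1 : (2 * ((4 * Cr) ^ 2 * (8 * B) ^ 2 * X ^ 4)) * (1 / (2 * X ^ 2)) =
      (4 * Cr) ^ 2 * (8 * B) ^ 2 * X ^ 2 := by
    field_simp
  rw [e1]
  have h7 : 0 ≤ δ ^ 2 * X ^ 3 := by positivity
  have h8 : 0 ≤ (4 * Cr) ^ 2 * (8 * B) ^ 2 := by positivity
  have h9 : 0 ≤ (2 * B) ^ 2 := by positivity
  have h10 : 0 ≤ X ^ 2 := by positivity
  nlinarith [mul_nonneg h8 h7, mul_nonneg h9 h10, mul_nonneg h9 h7]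

end Pool.Agent.LogCh.HG
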