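import Pool.Agent.Lib.LogCh.HHa
import Pool.Agent.Lib.LogCh.HHd

/-!
# HHe: the theorem of Halasz

PROOF.  `L = log x`, `J = ∫_0^L SS a (e^u) e^{-u} du`.  One constant `C` for `SS_le`, `hal0`,
`hal1`, `hal3`; `C0` from `hal2`.
(1) `hal1` and `hal2`: `SS a x * L ≤ 4 x J + 2 C0 h x L + (2 C_h + C) x`.
(2) Let `0 < η ≤ 1`.  `∫_0^{ηL} SS a (e^u) e^{-u} du ≤ C η L` (`SS_le`).  For `ηL ≤ u ≤ L`:
`SS a (e^u) * (η L) ≤ SS a (e^u) * u ≤ SS f (e^u) + C e^u`, `f n = a n log n` (`hal0`, `y = e^u`);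
so `∫_{ηL}^L SS a (e^u) e^{-u} du ≤ (1/(ηL)) (∫_0^L SS f (e^u) e^{-u} du + C L)`, and by
Cauchy-Schwarz and `hal3`,
`∫_0^L SS f (e^u) e^{-u} du ≤ √L (C (δ² L³ + L²))^{1/2} ≤ √C (δ L² + L^{3/2})`.
(`u ↦ SS f (e^u)` is measurable and bounded on `[0, L]`.)
Hence `J ≤ C' (η L + δ L / η + √L / η + 1 / η)`.
(3) `SS a x / x ≤ 4 C' (η + δ/η + 1/(η √L) + 1/(η L)) + 2 C0 h + (2 C_h + C) / L`.  Choose `h`, `η`
small in terms of `ε`, `δ = η²`, then `x0` large.
-/

set_option autoImplicit false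

namespace Pool.Agent.LogCh.HG

open Real MeasureTheory

private lemma he_meas (c : ℕ → ℂ) : Measurable (fun u : ℝ => SS c (exp u)) := by
  have h1 : Measurable (fun N : ℕ => ‖∑ n ∈ Finset.Icc 1 N, c n‖) := measurable_from_nat
  exact h1.comp (Nat.measurable_floor.comp Real.measurable_exp)

private lemma he_bdd (c : ℕ → ℂ) (L : ℝ) : ∃ K : ℝ, 0 ≤ K ∧ ∀ u : ℝ, u ≤ L →
    SS c (exp u) ≤ K := by
  refine ⟨∑ n ∈ Finset.Icc 1 ⌊exp L⌋₊, ‖c n‖, Finset.sum_nonneg fun n _ => norm_nonneg _, ?_⟩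
  intro u hu
  unfold SS
  refine (norm_sum_le _ _).trans ?_
  apply Finset.sum_le_sum_of_subset_of_nonneg
  · exact Finset.Icc_subset_Icc le_rfl (Nat.floor_le_floor (Real.exp_le_exp.2 hu))
  · intro n _ _
    exact norm_nonneg _

private lemma he_int {h : ℝ → ℝ} (hm : Measurable h) {s t K : ℝ} (hst : s ≤ t)
    (hb : ∀ u, s < u → u ≤ t → |h u| ≤ K) : IntervalIntegrable h volume s t := by
  rw [intervalIntegrable_iff_integrableOn_Ioc_of_le hst]
  refine Measure.integrableOn_of_bounded (M := K) (by simp) hm.aestronglyMeasurable ?_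
  refine (ae_restrict_iff' measurableSet_Ioc).2 (Filter.Eventually.of_forall fun u hu => ?_)
  rw [Real.norm_eq_abs]
  exact hb u hu.1 hu.2

/-- step (2) -/
theorem hal4 : ∃ C : ℝ, 0 < C ∧ ∃ x0 : ℝ, ∀ a b : ℕ → ℂ, HP a b → ∀ x : ℝ, x0 ≤ x →
    ∀ δ : ℝ, 0 ≤ δ → (∀ t : ℝ, |t| ≤ (log x) ^ 2 →
      ‖LSeries a (((1 + 1 / log x : ℝ) : ℂ) + (t : ℂ) * Complex.I)‖ ≤ δ * log x) →
    ∀ η : ℝ, 0 < η → η ≤ 1 →
    ∫ u in (0 : ℝ)..(log x), SS a (exp u) * exp (-u) ≤
      C * (η * log x + δ * log x / η + √(log x) / η + 1 / η) := by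
  obtain ⟨C1, hC1, hS⟩ := SS_le
  obtain ⟨C2, hC2, hH0⟩ := hal0
  obtain ⟨C3, hC3, x3, hH3⟩ := hal3
  refine ⟨C1 + √C3 + C2, by positivity, max x3 (exp 1), ?_⟩
  intro a b hab x hx δ hδ hsup η hη hη1
  have hx3 : x3 ≤ x := (le_max_left _ _).trans hx
  have hxe : exp 1 ≤ x := (le_max_right _ _).trans hx
  have hL1 : 1 ≤ log x := by
    rw [Real.le_log_iff_exp_le ((Real.exp_pos 1).trans_le hxe)]
    exact hxe
  obtain ⟨L, hL⟩ : ∃ L, L = log x := ⟨_, rfl⟩
  have h3 := hH3 a b hab x hx3 δ hδ hsup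
  rw [← hL] at hL1 h3 ⊢
  obtain ⟨f, hf⟩ : ∃ f : ℕ → ℂ, f = fun n => a n * ((log n : ℝ) : ℂ) := ⟨_, rfl⟩
  rw [← hf] at h3
  have hL0 : 0 < L := by linarith
  have hηL : 0 < η * L := by positivity
  have hηL' : η * L ≤ L := by nlinarith
  -- integrability
  obtain ⟨Ka, hKa0, hKa⟩ := he_bdd a L
  obtain ⟨Kf, hKf0, hKf⟩ := he_bdd f L
  have hg_meas : Measurable (fun u : ℝ => SS a (exp u) * exp (-u)) :=
    (he_meas a).mul (by fun_prop)
  have hG_meas : Measurable (fun u : ℝ => SS f (exp u) * exp (-u)) :=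
    (he_meas f).mul (by fun_prop)
  have hg_bd : ∀ u : ℝ, 0 ≤ u → u ≤ L → |SS a (exp u) * exp (-u)| ≤ Ka := by
    intro u hu0 hu
    rw [abs_of_nonneg (mul_nonneg (SS_nonneg _ _) (Real.exp_pos _).le)]
    have h1 : exp (-u) ≤ 1 := Real.exp_le_one_iff.2 (by linarith)
    calc SS a (exp u) * exp (-u) ≤ Ka * 1 :=
          mul_le_mul (hKa u hu) h1 (Real.exp_pos _).le hKa0
      _ = Ka := mul_one _
  have hG_bd : ∀ u : ℝ, 0 ≤ u → u ≤ L → |SS f (exp u) * exp (-u)| ≤ Kf := by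
    intro u hu0 hu
    rw [abs_of_nonneg (mul_nonneg (SS_nonneg _ _) (Real.exp_pos _).le)]
    have h1 : exp (-u) ≤ 1 := Real.exp_le_one_iff.2 (by linarith)
    calc SS f (exp u) * exp (-u) ≤ Kf * 1 :=
          mul_le_mul (hKf u hu) h1 (Real.exp_pos _).le hKf0
      _ = Kf := mul_one _
  have hg1 : IntervalIntegrable (fun u : ℝ => SS a (exp u) * exp (-u)) volume 0 (η * L) :=
    he_int hg_meas hηL.le (fun u h1 h2 => hg_bd u h1.le (h2.trans hηL'))
  have hg2 : IntervalIntegrable (fun u : ℝ => SS a (exp u) * exp (-u)) volume (η * L) L :=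
    he_int hg_meas hηL' (fun u h1 h2 => hg_bd u (hηL.le.trans h1.le) h2)
  have hG : IntervalIntegrable (fun u : ℝ => SS f (exp u) * exp (-u)) volume 0 L :=
    he_int hG_meas hL0.le (fun u h1 h2 => hG_bd u h1.le h2)
  have hG1 : IntervalIntegrable (fun u : ℝ => SS f (exp u) * exp (-u)) volume 0 (η * L) :=
    he_int hG_meas hηL.le (fun u h1 h2 => hG_bd u h1.le (h2.trans hηL'))
  have hG2 : IntervalIntegrable (fun u : ℝ => SS f (exp u) * exp (-u)) volume (η * L) L :=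
    he_int hG_meas hηL' (fun u h1 h2 => hG_bd u (hηL.le.trans h1.le) h2)
  have hGsq : IntervalIntegrable (fun u : ℝ => SS f (exp u) ^ 2 * exp (-(2 * u))) volume 0 L := by
    have hm2 : Measurable (fun u : ℝ => SS f (exp u) ^ 2 * exp (-(2 * u))) :=
      ((he_meas f).pow_const 2).mul (by fun_prop)
    refine he_int (K := Kf ^ 2) hm2 hL0.le ?_
    intro u h1 h2
    have h5 : SS f (exp u) ^ 2 * exp (-(2 * u)) = (SS f (exp u) * exp (-u)) ^ 2 := by
      rw [mul_pow, ← Real.exp_nat_mul]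
      congr 2
      push_cast
      ring
    rw [h5, abs_of_nonneg (sq_nonneg _), ← sq_abs]
    exact pow_le_pow_left₀ (abs_nonneg _) (hG_bd u h1.le h2) 2
  -- first part
  have p1 : ∫ u in (0 : ℝ)..(η * L), SS a (exp u) * exp (-u) ≤ C1 * (η * L) := by
    have h1 : ∫ u in (0 : ℝ)..(η * L), SS a (exp u) * exp (-u) ≤
        ∫ _u in (0 : ℝ)..(η * L), C1 := by
      apply intervalIntegral.integral_mono_on hηL.le hg1 intervalIntegrable_const
      intro u hu
      have h2 := hS a hab.ha (exp u) (Real.exp_pos u).le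
      calc SS a (exp u) * exp (-u) ≤ C1 * exp u * exp (-u) :=
            mul_le_mul_of_nonneg_right h2 (Real.exp_pos _).le
        _ = C1 := by rw [mul_assoc, ← Real.exp_add, add_neg_cancel, Real.exp_zero, mul_one]
    rw [intervalIntegral.integral_const, smul_eq_mul] at h1
    linarith
  -- Cauchy-Schwarz
  have p3 : ∫ u in (0 : ℝ)..L, SS f (exp u) * exp (-u) ≤ √C3 * (δ * L ^ 2 + L * √L) := by
    have hsL : 0 < √L := Real.sqrt_pos.2 hL0
    have hsC : 0 < √C3 := Real.sqrt_pos.2 hC3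
    have hw : 0 < √C3 * (δ * L * √L + L) := by positivity
    obtain ⟨w, hwdef⟩ : ∃ w, w = √C3 * (δ * L * √L + L) := ⟨_, rfl⟩
    rw [← hwdef] at hw
    have hlam : 0 < √L / w := by positivity
    have h1 : ∫ u in (0 : ℝ)..L, SS f (exp u) * exp (-u) ≤
        ∫ u in (0 : ℝ)..L, (√L / w / 2 * (SS f (exp u) ^ 2 * exp (-(2 * u))) + w / √L / 2) := by
      apply intervalIntegral.integral_mono_on hL0.le hG
        ((hGsq.const_mul _).add intervalIntegrable_const)
      intro u _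
      have h5 : SS f (exp u) ^ 2 * exp (-(2 * u)) = (SS f (exp u) * exp (-u)) ^ 2 := by
        rw [mul_pow, ← Real.exp_nat_mul]
        congr 2
        push_cast
        ring
      rw [h5]
      obtain ⟨y, hy⟩ : ∃ y, y = SS f (exp u) * exp (-u) := ⟨_, rfl⟩
      rw [← hy]
      have h6 : √L / w / 2 * y ^ 2 + w / √L / 2 - y = √L / w / 2 * (y - w / √L) ^ 2 := by
        field_simp
        ring
      have h7 : 0 ≤ √L / w / 2 * (y - w / √L) ^ 2 := by positivity
      linarith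
    rw [intervalIntegral.integral_add (hGsq.const_mul _) intervalIntegrable_const,
      intervalIntegral.integral_const_mul, intervalIntegral.integral_const, smul_eq_mul,
      sub_zero] at h1
    have h4 : C3 * (δ ^ 2 * L ^ 3 + L ^ 2) ≤ w ^ 2 := by
      rw [hwdef, mul_pow, Real.sq_sqrt hC3.le]
      apply mul_le_mul_of_nonneg_left _ hC3.le
      have h8 : (δ * L * √L + L) ^ 2 = δ ^ 2 * L ^ 2 * (√L) ^ 2 + 2 * (δ * L * √L) * L + L ^ 2 := by
        ring
      rw [h8, Real.sq_sqrt hL0.le]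
      have : 0 ≤ 2 * (δ * L * √L) * L := by positivity
      nlinarith
    have h5 := h3.trans h4
    have h6 : √L / w / 2 * (∫ u in (0 : ℝ)..L, SS f (exp u) ^ 2 * exp (-(2 * u))) ≤
        √L / w / 2 * w ^ 2 := mul_le_mul_of_nonneg_left h5 (by positivity)
    have h7 : √L / w / 2 * w ^ 2 = √L * w / 2 := by field_simp
    have h8 : L * (w / √L / 2) = √L * w / 2 := by
      have h9 : L = √L * √L := (Real.mul_self_sqrt hL0.le).symm
      field_simp
      nlinarith
    have h9 : √L * w = √C3 * (δ * L ^ 2 + L * √L) := by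
      rw [hwdef]
      have h10 : √L * (√C3 * (δ * L * √L + L)) = √C3 * (δ * L * (√L * √L) + L * √L) := by ring
      rw [h10, Real.mul_self_sqrt hL0.le]
      ring
    linarith
  -- second part
  have p2 : ∫ u in (η * L)..L, SS a (exp u) * exp (-u) ≤
      1 / (η * L) * (√C3 * (δ * L ^ 2 + L * √L) + C2 * L) := by
    have h1 : ∫ u in (η * L)..L, SS a (exp u) * exp (-u) ≤
        ∫ u in (η * L)..L, 1 / (η * L) * (SS f (exp u) * exp (-u) + C2) := by
      apply intervalIntegral.integral_mono_on hηL' hg2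
        ((hG2.add intervalIntegrable_const).const_mul _)
      intro u hu
      have hu0 : 0 < u := hηL.trans_le hu.1
      have h2 := hH0 a hab.ha (exp u) (Real.one_le_exp hu0.le)
      rw [Real.log_exp, ← hf] at h2
      have h4 : SS a (exp u) * exp (-u) * (η * L) ≤ SS f (exp u) * exp (-u) + C2 := by
        calc SS a (exp u) * exp (-u) * (η * L) ≤ SS a (exp u) * exp (-u) * u :=
              mul_le_mul_of_nonneg_left hu.1 (mul_nonneg (SS_nonneg _ _) (Real.exp_pos _).le)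
          _ = (SS a (exp u) * u) * exp (-u) := by ring
          _ ≤ (SS f (exp u) + C2 * exp u) * exp (-u) :=
              mul_le_mul_of_nonneg_right h2 (Real.exp_pos _).le
          _ = SS f (exp u) * exp (-u) + C2 * (exp u * exp (-u)) := by ring
          _ = SS f (exp u) * exp (-u) + C2 := by
              rw [← Real.exp_add, add_neg_cancel, Real.exp_zero, mul_one]
      rw [one_div, inv_mul_eq_div, le_div_iff₀ hηL]
      exact h4
    rw [intervalIntegral.integral_const_mul] at h1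
    have h2 : ∫ u in (η * L)..L, (SS f (exp u) * exp (-u) + C2) ≤
        √C3 * (δ * L ^ 2 + L * √L) + C2 * L := by
      rw [intervalIntegral.integral_add hG2 intervalIntegrable_const,
        intervalIntegral.integral_const, smul_eq_mul]
      have h4 : ∫ u in (η * L)..L, SS f (exp u) * exp (-u) ≤
          ∫ u in (0 : ℝ)..L, SS f (exp u) * exp (-u) := by
        rw [← intervalIntegral.integral_add_adjacent_intervals hG1 hG2]
        have h5 : 0 ≤ ∫ u in (0 : ℝ)..(η * L), SS f (exp u) * exp (-u) := by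
          apply intervalIntegral.integral_nonneg hηL.le
          intro u _
          exact mul_nonneg (SS_nonneg _ _) (Real.exp_pos _).le
        linarith
      have h6 : (L - η * L) * C2 ≤ C2 * L := by nlinarith
      linarith
    exact h1.trans (mul_le_mul_of_nonneg_left h2 (by positivity))
  rw [← intervalIntegral.integral_add_adjacent_intervals hg1 hg2]
  have h7 : 1 / (η * L) * (√C3 * (δ * L ^ 2 + L * √L) + C2 * L) =
      √C3 * (δ * L / η) + √C3 * (√L / η) + C2 * (1 / η) := by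
    field_simp
  rw [h7] at p2
  have q1 : 0 ≤ η * L := hηL.le
  have q2 : 0 ≤ δ * L / η := by positivity
  have q3 : 0 ≤ √L / η := by positivity
  have q4 : 0 ≤ 1 / η := by positivity
  have q5 : 0 ≤ √C3 := Real.sqrt_nonneg _
  have e1 : (C1 + √C3 + C2) * (η * L + δ * L / η + √L / η + 1 / η) =
      (C1 * (η * L) + (√C3 * (δ * L / η) + √C3 * (√L / η) + C2 * (1 / η))) +
      (C1 * (δ * L / η + √L / η + 1 / η) + √C3 * (η * L + 1 / η) +
        C2 * (η * L + δ * L / η + √L / η)) := by ring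
  rw [e1]
  have q6 : 0 ≤ C1 * (δ * L / η + √L / η + 1 / η) + √C3 * (η * L + 1 / η) +
        C2 * (η * L + δ * L / η + √L / η) := by positivity
  linarith

theorem HALASZ (ε : ℝ) (hε : 0 < ε) : ∃ δ : ℝ, 0 < δ ∧ ∃ x0 : ℝ, ∀ x : ℝ, x0 ≤ x →
    ∀ a b : ℕ → ℂ, HP a b → (∀ t : ℝ, |t| ≤ (log x) ^ 2 →
      ‖LSeries a (((1 + 1 / log x : ℝ) : ℂ) + (t : ℂ) * Complex.I)‖ ≤ δ * log x) →
    SS a x ≤ ε * x := by
  obtain ⟨C, hC, hH1⟩ := hal1
  obtain ⟨C0, hC0, hH2⟩ := hal2
  obtain ⟨C4, hC4, x4, hH4⟩ := hal4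
  obtain ⟨h, hh, hh1, hhε⟩ : ∃ h : ℝ, 0 < h ∧ h ≤ 1 ∧ 2 * C0 * h ≤ ε / 6 := by
    refine ⟨min 1 (ε / (12 * C0)), lt_min one_pos (by positivity), min_le_left _ _, ?_⟩
    have h1 : min 1 (ε / (12 * C0)) ≤ ε / (12 * C0) := min_le_right _ _
    have h2 : 2 * C0 * (ε / (12 * C0)) = ε / 6 := by field_simp; norm_num
    calc 2 * C0 * min 1 (ε / (12 * C0)) ≤ 2 * C0 * (ε / (12 * C0)) :=
          mul_le_mul_of_nonneg_left h1 (by positivity)
      _ = ε / 6 := h2
  obtain ⟨Ch, hCh, hH2'⟩ := hH2 h hh hh1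
  obtain ⟨η, hη, hη1, hηε⟩ : ∃ η : ℝ, 0 < η ∧ η ≤ 1 ∧ 4 * C4 * η ≤ ε / 6 := by
    refine ⟨min 1 (ε / (24 * C4)), lt_min one_pos (by positivity), min_le_left _ _, ?_⟩
    have h1 : min 1 (ε / (24 * C4)) ≤ ε / (24 * C4) := min_le_right _ _
    have h2 : 4 * C4 * (ε / (24 * C4)) = ε / 6 := by field_simp; norm_num
    calc 4 * C4 * min 1 (ε / (24 * C4)) ≤ 4 * C4 * (ε / (24 * C4)) :=
          mul_le_mul_of_nonneg_left h1 (by positivity)
      _ = ε / 6 := h2
  obtain ⟨B, hB⟩ : ∃ B : ℝ, B = 24 * C4 / (η * ε) := ⟨_, rfl⟩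
  have hB0 : 0 < B := by rw [hB]; positivity
  obtain ⟨L0, hL0⟩ : ∃ L0 : ℝ, L0 = max (max 1 (B ^ 2)) (max B (6 * (2 * Ch + C) / ε)) := ⟨_, rfl⟩
  refine ⟨η ^ 2, by positivity, max x4 (exp L0), ?_⟩
  intro x hx a b hab hsup
  have hx4 : x4 ≤ x := (le_max_left _ _).trans hx
  have hxL : exp L0 ≤ x := (le_max_right _ _).trans hx
  have hx0 : 0 < x := (Real.exp_pos _).trans_le hxL
  have hLL : L0 ≤ log x := by
    rw [Real.le_log_iff_exp_le hx0]
    exact hxL
  have h4 := hH4 a b hab x hx4 (η ^ 2) (by positivity) hsup η hη hη1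
  obtain ⟨L, hL⟩ : ∃ L, L = log x := ⟨_, rfl⟩
  have hLa : 1 ≤ L := by
    rw [hL]; refine le_trans ?_ hLL; rw [hL0]; exact (le_max_left _ _).trans (le_max_left _ _)
  have hLb : B ^ 2 ≤ L := by
    rw [hL]; refine le_trans ?_ hLL; rw [hL0]; exact (le_max_right _ _).trans (le_max_left _ _)
  have hLc : B ≤ L := by
    rw [hL]; refine le_trans ?_ hLL; rw [hL0]; exact (le_max_left _ _).trans (le_max_right _ _)
  have hLd : 6 * (2 * Ch + C) / ε ≤ L := by
    rw [hL]; refine le_trans ?_ hLL; rw [hL0]; exact (le_max_right _ _).trans (le_max_right _ _)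
  have hx1 : 1 ≤ x := by
    have h5 : 0 ≤ log x := by rw [← hL]; linarith
    by_contra hcon
    push Not at hcon
    have := Real.log_neg hx0 hcon
    linarith
  have h1 := hH1 a b hab x hx1
  have h2 := hH2' a hab.ha x hx1
  rw [← hL] at h1 h2 h4
  have hLpos : 0 < L := by linarith
  have hsL : 0 < √L := Real.sqrt_pos.2 hLpos
  have hBs : B ≤ √L := Real.le_sqrt_of_sq_le hLb
  -- bound for the integral
  have k1 : 4 * (C4 * (η * L + η ^ 2 * L / η + √L / η + 1 / η)) ≤ 4 * (ε / 6) * L := by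
    have e1 : 4 * (C4 * (η * L + η ^ 2 * L / η + √L / η + 1 / η)) =
        4 * C4 * η * L + 4 * C4 * η * L + 4 * C4 / η * √L + 4 * C4 / η := by
      field_simp
    rw [e1]
    have e2 : 4 * C4 / η = B * (ε / 6) := by
      rw [hB]; field_simp; norm_num
    rw [e2]
    have e3 : B * (ε / 6) * √L ≤ ε / 6 * L := by
      have : B * √L ≤ √L * √L := mul_le_mul_of_nonneg_right hBs hsL.le
      rw [Real.mul_self_sqrt hLpos.le] at this
      nlinarith
    have e4 : B * (ε / 6) ≤ ε / 6 * L := by nlinarith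
    have e5 : 4 * C4 * η * L ≤ ε / 6 * L := mul_le_mul_of_nonneg_right hηε hLpos.le
    linarith
  have k2 : (2 * Ch + C) ≤ ε / 6 * L := by
    rw [div_le_iff₀ hε] at hLd
    linarith
  have k3 : 2 * C0 * h * L ≤ ε / 6 * L := mul_le_mul_of_nonneg_right hhε hLpos.le
  have k4 : SS a x * L ≤ ε * x * L := by
    have k5 : 4 * x * (∫ u in (0 : ℝ)..L, SS a (exp u) * exp (-u)) ≤ x * (4 * (ε / 6) * L) := by
      calc 4 * x * (∫ u in (0 : ℝ)..L, SS a (exp u) * exp (-u))
          ≤ 4 * x * (C4 * (η * L + η ^ 2 * L / η + √L / η + 1 / η)) :=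
            mul_le_mul_of_nonneg_left h4 (by positivity)
        _ = x * (4 * (C4 * (η * L + η ^ 2 * L / η + √L / η + 1 / η))) := by ring
        _ ≤ x * (4 * (ε / 6) * L) := mul_le_mul_of_nonneg_left k1 hx0.le
    have k6 : x * (2 * Ch + C) ≤ x * (ε / 6 * L) := mul_le_mul_of_nonneg_left k2 hx0.le
    have k7 : x * (2 * C0 * h * L) ≤ x * (ε / 6 * L) := mul_le_mul_of_nonneg_left k3 hx0.le
    calc SS a x * L ≤ _ := h1
      _ ≤ 2 * (2 * x * (∫ u in (0 : ℝ)..L, SS a (exp u) * exp (-u)) + C0 * h * x * L + Ch * x) +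
          C * x := by linarith
      _ = 4 * x * (∫ u in (0 : ℝ)..L, SS a (exp u) * exp (-u)) + x * (2 * C0 * h * L) +
          x * (2 * Ch + C) := by ring
      _ ≤ x * (4 * (ε / 6) * L) + x * (ε / 6 * L) + x * (ε / 6 * L) := by linarith
      _ = ε * x * L := by ring
  exact le_of_mul_le_mul_right k4 hLpos

end Pool.Agent.LogCh.HG
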