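import Pool.Agent.Lib.LogCh.HSc
import Pool.Agent.Lib.LogCh.HHe
import Pool.Agent.Lib.LogCh.HPr

/-!
# HFin: the theorem HALF from `W1A`
-/

set_option autoImplicit false

namespace Pool.Agent.LogCh.HG

open Real
open Pool.Agent.NSqP

/-- all elements of norm at most `y` -/
theorem HALL (hW : W1AStmt) (r : ℕ) (hr : 1 ≤ r) (ε : ℝ) (hε : 0 < ε) : ∃ y0 : ℝ, ∀ y : ℝ,
    y0 ≤ y → ∀ χ : GaussianInt → ℂ, ChiMod r χ → ∀ m : ℤ, |(m : ℝ)| ≤ y ^ 3 → ∀ H v : ℕ, 1 ≤ H →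
      ‖∑ z ∈ ann 0 y, gg χ m H v z‖ ≤ ε * y := by
  obtain ⟨δ, hδ, x0, h0⟩ := HALASZ ε hε
  obtain ⟨x1, h1⟩ := HSUP hW r hr δ hδ
  refine ⟨max (max x0 x1) 0, fun y hy χ hχ m hm H v hH => ?_⟩
  have hy0 : x0 ≤ y := (le_max_left _ _).trans ((le_max_left _ _).trans hy)
  have hy1 : x1 ≤ y := (le_max_right _ _).trans ((le_max_left _ _).trans hy)
  have hy2 : 0 ≤ y := (le_max_right _ _).trans hy
  by_cases hu : χ gI * Complex.I ^ m = 1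
  · have hg : GM (gg χ m H v) := gg_GM hχ m H v hu
    rw [sum_aG _ hy2]
    exact h0 y hy0 _ _ (GM_HP hg) (h1 y hy1 χ hχ m hm H v hH hu)
  · rw [sum_gg_eq_zero hχ m H v hu 0 y hy2, norm_zero]
    positivity

open Classical in
theorem HALF_of (hW : W1AStmt) (r : ℕ) (hr : 1 ≤ r) (ε : ℝ) (hε : 0 < ε) : ∃ x0 : ℝ, ∀ x : ℝ,
    x0 ≤ x → ∀ χ : GaussianInt → ℂ, ChiMod r χ → ∀ m : ℤ, |(m : ℝ)| ≤ x ^ 2 → ∀ H v : ℕ, 1 ≤ H →
      ‖∑ z ∈ pann (x / 2) x, (if ∀ q ∈ blk H v, ¬ q ∣ z then (lam z : ℂ) * χ z * xi z ^ m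
        else 0)‖ ≤ ε * x := by
  obtain ⟨x0, h0⟩ := HPRIM r (fun ε hε => HALL hW r hr ε hε) (ε / 2) (by positivity)
  refine ⟨max (2 * x0) 1, fun x hx χ hχ m hm H v hH => ?_⟩
  have hx1 : 1 ≤ x := (le_max_right _ _).trans hx
  have hx0 : 2 * x0 ≤ x := (le_max_left _ _).trans hx
  have e1 : ∑ z ∈ pann (x / 2) x, gg χ m H v z = ∑ z ∈ pann 0 x, gg χ m H v z -
      ∑ z ∈ pann 0 (x / 2), gg χ m H v z := by
    have h2 : pann 0 x = pann 0 (x / 2) ∪ pann (x / 2) x := by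
      ext z
      rw [Finset.mem_union, mem_pann (by positivity), mem_pann (by positivity),
        mem_pann (by positivity)]
      constructor
      · rintro ⟨⟨h3, h4⟩, h5⟩
        rcases le_or_gt (nN z : ℝ) (x / 2) with h6 | h6
        · exact Or.inl ⟨⟨h3, h6⟩, h5⟩
        · exact Or.inr ⟨⟨h6, h4⟩, h5⟩
      · rintro (⟨⟨h3, h4⟩, h5⟩ | ⟨⟨h3, h4⟩, h5⟩)
        · exact ⟨⟨h3, by linarith⟩, h5⟩
        · exact ⟨⟨by linarith, h4⟩, h5⟩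
    have h3 : Disjoint (pann 0 (x / 2)) (pann (x / 2) x) := by
      rw [Finset.disjoint_left]
      intro z hz hz'
      rw [mem_pann (by positivity)] at hz hz'
      linarith [hz.1.2, hz'.1.1]
    rw [h2, Finset.sum_union h3]
    ring
  have e2 : ∑ z ∈ pann (x / 2) x, (if ∀ q ∈ blk H v, ¬ q ∣ z then (lam z : ℂ) * χ z * xi z ^ m
      else 0) = ∑ z ∈ pann (x / 2) x, gg χ m H v z := rfl
  rw [e2, e1]
  have h3 := h0 x (by linarith) χ hχ m (by nlinarith) H v hH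
  have h4 := h0 (x / 2) (by linarith) χ hχ m (by nlinarith) H v hH
  calc ‖∑ z ∈ pann 0 x, gg χ m H v z - ∑ z ∈ pann 0 (x / 2), gg χ m H v z‖
      ≤ ‖∑ z ∈ pann 0 x, gg χ m H v z‖ + ‖∑ z ∈ pann 0 (x / 2), gg χ m H v z‖ := norm_sub_le _ _
    _ ≤ ε / 2 * x + ε / 2 * (x / 2) := add_le_add h3 h4
    _ ≤ ε * x := by nlinarith

end Pool.Agent.LogCh.HG
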