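import Pool.Agent.Lib.LogCh.HFi

/-!
# HGg: the functions `gg χ m H v = λ χ ξ ^ m` without prime factors in a block

Write `g = gg χ m H v`.

PROOF of `gg_CMC`, `gg_GM`.  Multiplicativity on nonzero elements: `lam` is completely multiplicative on
nonzero elements (`ArithmeticFunction.liouville`, `nN_mul`), `xi_mul_zpow`, `χ` is multiplicative;
a prime `q` (`IsPi.prime`) divides `z w` iff it divides `z` or `w`, so the indicator is
multiplicative.  `‖g z‖ ≤ 1`: `|lam z| ≤ 1`, `chi_norm_le`, `norm_xi_zpow`.  Units: no prime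
divides a unit; `lam u = 1` (`nN u = 1`); the units are the powers of `gI`; `xi gI = I`,
`χ (gI ^ j) * xi (gI ^ j) ^ m = (χ gI * I ^ m) ^ j = 1`.

PROOF of `gg_pi`.  For `IsPi z`: `lam z = -1` (`nN z` prime).  If `z ∈ blk H v` then `z ∣ z` and
`g z = 0`.  If `z ∉ blk H v` and `q ∈ blk H v` divides `z`, then (both `IsPi`) `q = z`
(`IsPi.coprime` and `Prime.not_unit`), contradiction.

PROOF of `sum_gg_eq_zero`.  `z ↦ gI * z` permutes `ann a b` (norms are unchanged) and
`gg (gI * z) = χ gI * I ^ m * gg z` (`lam (gI z) = lam z`, `xi gI = I`, a prime `q` divides `gI * z`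
iff it divides `z`; for `z = 0` both sides: if `z = 0` is in `ann a b` (`a < 0`) then either the block
is nonempty and both are `0`, or use `xi 0 ^ m` which is unchanged: `gI * 0 = 0`, so here one needs
`gg 0 = 0`; `lam 0 = 0` because `liouville 0 = 0`).  So the sum `S` satisfies
`S = χ gI * I ^ m * S`.
-/

set_option autoImplicit false

namespace Pool.Agent.LogCh.HG

open Real
open Pool.Agent.NSqP

private lemma hgg_unit_cases {u : GaussianInt} (hu : IsUnit u) :
    u = 1 ∨ u = gI ∨ u = gI ^ 2 ∨ u = gI ^ 3 := by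
  have h1 : nN u = 1 := Zsqrtd.norm_eq_one_iff.2 hu
  have h2 : u.re ^ 2 + u.im ^ 2 = 1 := by
    have := nN_cast_int u
    rw [h1, Zsqrtd.norm_def] at this
    push_cast at this
    linarith
  have a2 : -1 ≤ u.re := by nlinarith
  have a3 : u.re ≤ 1 := by nlinarith
  have a4 : -1 ≤ u.im := by nlinarith
  have a5 : u.im ≤ 1 := by nlinarith
  have b1 : u.re = -1 ∨ u.re = 0 ∨ u.re = 1 := by omega
  have b2 : u.im = -1 ∨ u.im = 0 ∨ u.im = 1 := by omega
  have g2 : gI ^ 2 = (⟨-1, 0⟩ : GaussianInt) := by rfl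
  have g3 : gI ^ 3 = (⟨0, -1⟩ : GaussianInt) := by rfl
  rw [g2, g3]
  rcases b1 with b1 | b1 | b1 <;> rcases b2 with b2 | b2 | b2 <;> rw [b1, b2] at h2 <;>
    first
    | (norm_num at h2; done)
    | exact Or.inl (Zsqrtd.ext b1 b2)
    | exact Or.inr (Or.inl (Zsqrtd.ext b1 b2))
    | exact Or.inr (Or.inr (Or.inl (Zsqrtd.ext b1 b2)))
    | exact Or.inr (Or.inr (Or.inr (Zsqrtd.ext b1 b2)))

private lemma hgg_xi_gI : xi gI = Complex.I := by
  unfold xi
  have h1 : ((gI : GaussianInt) : ℂ) = Complex.I := by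
    unfold gI
    rw [GaussianInt.toComplex_def]
    simp
  rw [h1, Complex.norm_I]
  simp

private lemma hgg_xi_one : xi 1 = 1 := by
  unfold xi
  have h1 : ((1 : GaussianInt) : ℂ) = 1 := GaussianInt.toComplex_one
  rw [h1]
  simp

private lemma hgg_xi_pow (z : GaussianInt) (j : ℕ) : xi (z ^ j) = xi z ^ j := by
  induction j with
  | zero => rw [pow_zero, pow_zero, hgg_xi_one]
  | succ j ih => rw [pow_succ, xi_mul, ih, pow_succ]

private lemma hgg_unit_pow {u : GaussianInt} (hu : IsUnit u) : ∃ j : ℕ, u = gI ^ j := by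
  rcases hgg_unit_cases hu with h | h | h | h
  · exact ⟨0, by rw [h, pow_zero]⟩
  · exact ⟨1, by rw [h, pow_one]⟩
  · exact ⟨2, h⟩
  · exact ⟨3, h⟩

private lemma hgg_lam_mul {z w : GaussianInt} (hz : z ≠ 0) (hw : w ≠ 0) :
    lam (z * w) = lam z * lam w := by
  unfold lam
  have h1 := (nN_pos hz).ne'
  have h2 := (nN_pos hw).ne'
  rw [nN_mul, ArithmeticFunction.liouville_apply (mul_ne_zero h1 h2),
    ArithmeticFunction.liouville_apply h1, ArithmeticFunction.liouville_apply h2,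
    ArithmeticFunction.cardFactors_mul h1 h2, pow_add]
  push_cast
  rfl

private lemma hgg_lam_abs {z : GaussianInt} (hz : z ≠ 0) : |lam z| = 1 := by
  unfold lam
  rw [ArithmeticFunction.liouville_apply (nN_pos hz).ne']
  push_cast
  rw [abs_pow, abs_neg, abs_one, one_pow]

private lemma hgg_chi_pow {r : ℕ} {χ : GaussianInt → ℂ} (hχ : ChiMod r χ) (j : ℕ) :
    χ (gI ^ j) = χ gI ^ j := by
  induction j with
  | zero => rw [pow_zero, pow_zero, chi_one hχ]
  | succ j ih => rw [pow_succ, pow_succ, hχ.mul, ih]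

theorem gg_CMC {r : ℕ} {χ : GaussianInt → ℂ} (hχ : ChiMod r χ) (m : ℤ) (H v : ℕ) :
    CMC (gg χ m H v) := by
  classical
  refine ⟨fun z w hz hw => ?_, fun z hz => ?_⟩
  · unfold gg
    have hiff : (∀ q ∈ blk H v, ¬ q ∣ z * w) ↔
        ((∀ q ∈ blk H v, ¬ q ∣ z) ∧ (∀ q ∈ blk H v, ¬ q ∣ w)) := by
      constructor
      · intro h
        exact ⟨fun q hq hd => h q hq (Dvd.dvd.mul_right hd w),
          fun q hq hd => h q hq (Dvd.dvd.mul_left hd z)⟩
      · rintro ⟨h1, h2⟩ q hq hd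
        have hp : Prime q := (mem_blk.1 hq).1.prime
        rcases hp.dvd_or_dvd hd with h | h
        · exact h1 q hq h
        · exact h2 q hq h
    by_cases h1 : ∀ q ∈ blk H v, ¬ q ∣ z
    · by_cases h2 : ∀ q ∈ blk H v, ¬ q ∣ w
      · rw [if_pos h1, if_pos h2, if_pos (hiff.2 ⟨h1, h2⟩), hgg_lam_mul hz hw, hχ.mul,
          xi_mul_zpow]
        push_cast
        ring
      · rw [if_neg h2, mul_zero, if_neg (fun h => h2 (hiff.1 h).2)]
    · rw [if_neg h1, zero_mul, if_neg (fun h => h1 (hiff.1 h).1)]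
  · unfold gg
    split_ifs
    · rw [norm_mul, norm_mul, norm_xi_zpow hz, mul_one, Complex.norm_real, Real.norm_eq_abs,
        hgg_lam_abs hz, one_mul]
      exact chi_norm_le hχ z
    · simp

theorem gg_GM {r : ℕ} {χ : GaussianInt → ℂ} (hχ : ChiMod r χ) (m : ℤ) (H v : ℕ)
    (hu : χ gI * Complex.I ^ m = 1) : GM (gg χ m H v) := by
  classical
  refine ⟨gg_CMC hχ m H v, fun u hun => ?_⟩
  · unfold gg
    have h1 : ∀ q ∈ blk H v, ¬ q ∣ u := by
      intro q hq hd
      have hp : Prime q := (mem_blk.1 hq).1.prime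
      exact hp.not_isUnit (isUnit_of_dvd_unit hd hun)
    rw [if_pos h1]
    have h2 : nN u = 1 := Zsqrtd.norm_eq_one_iff.2 hun
    have h3 : lam u = 1 := by
      unfold lam
      rw [h2, ArithmeticFunction.liouville_apply one_ne_zero, ArithmeticFunction.cardFactors_one,
        pow_zero]
      norm_num
    obtain ⟨j, hj⟩ := hgg_unit_pow hun
    have h4 : χ u = χ gI ^ j := by rw [hj, hgg_chi_pow hχ]
    rw [h3, h4, hj, hgg_xi_pow, hgg_xi_gI]
    push_cast
    rw [one_mul, ← zpow_natCast (Complex.I) j, ← zpow_mul, mul_comm (j : ℤ) m, zpow_mul,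
      zpow_natCast, ← mul_pow, hu, one_pow]

theorem gg_pi (χ : GaussianInt → ℂ) (m : ℤ) (H v : ℕ) {z : GaussianInt} (hz : IsPi z) :
    gg χ m H v z = if z ∈ blk H v then 0 else -(χ z * xi z ^ m) := by
  classical
  unfold gg
  have hl : lam z = -1 := by
    unfold lam
    rw [ArithmeticFunction.liouville_apply hz.2.2.1.ne_zero,
      ArithmeticFunction.cardFactors_apply_prime hz.2.2.1]
    norm_num
  by_cases h : z ∈ blk H v
  · rw [if_pos h, if_neg]
    intro h2
    exact h2 z h dvd_rfl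
  · rw [if_neg h, if_pos]
    · rw [hl]
      push_cast
      ring
    · intro q hq hd
      have hq2 := (mem_blk.1 hq).1
      have hne : q ≠ z := fun he => h (he ▸ hq)
      have hc := IsPi.coprime hq2 hz hne
      exact hq2.prime.not_isUnit (hc.isUnit_of_dvd' dvd_rfl hd)

private lemma hgg_rot {r : ℕ} {χ : GaussianInt → ℂ} (hχ : ChiMod r χ) (m : ℤ) (H v : ℕ)
    (z : GaussianInt) : gg χ m H v (gI * z) = χ gI * Complex.I ^ m * gg χ m H v z := by
  classical
  have hI : IsUnit gI := Zsqrtd.norm_eq_one_iff.1 nN_gI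
  have hl : lam (gI * z) = lam z := by
    unfold lam
    rw [nN_mul, nN_gI, one_mul]
  unfold gg
  by_cases h : ∀ q ∈ blk H v, ¬ q ∣ z
  · have h' : ∀ q ∈ blk H v, ¬ q ∣ gI * z := fun q hq hd => h q hq (hI.dvd_mul_left.1 hd)
    rw [if_pos h, if_pos h', hl, hχ.mul, xi_mul_zpow, hgg_xi_gI]
    ring
  · have h' : ¬ ∀ q ∈ blk H v, ¬ q ∣ gI * z := fun h2 => h fun q hq hd =>
      h2 q hq (hI.dvd_mul_left.2 hd)
    rw [if_neg h, if_neg h', mul_zero]

/-- if `χ(i) i ^ m ≠ 1` the sums over full annuli vanish -/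
theorem sum_gg_eq_zero {r : ℕ} {χ : GaussianInt → ℂ} (hχ : ChiMod r χ) (m : ℤ) (H v : ℕ)
    (hu : χ gI * Complex.I ^ m ≠ 1) (a b : ℝ) (hb : 0 ≤ b) :
    ∑ z ∈ ann a b, gg χ m H v z = 0 := by
  have hinv : gI * (-gI) = 1 := by rfl
  have hinv' : (-gI) * gI = 1 := by rfl
  have hn' : nN (-gI) = 1 := by
    have h := nN_mul gI (-gI)
    rw [hinv, nN_one, nN_gI, one_mul] at h
    exact h.symm
  have h1 : ∑ z ∈ ann a b, gg χ m H v (gI * z) = ∑ z ∈ ann a b, gg χ m H v z := by
    refine Finset.sum_nbij' (fun z => gI * z) (fun z => (-gI) * z) ?_ ?_ ?_ ?_ ?_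
    · intro z hz
      rw [mem_ann hb] at hz ⊢
      rw [nN_mul, nN_gI, one_mul]
      exact hz
    · intro z hz
      rw [mem_ann hb] at hz ⊢
      rw [nN_mul, hn', one_mul]
      exact hz
    · intro z _
      rw [← mul_assoc, hinv', one_mul]
    · intro z _
      rw [← mul_assoc, hinv, one_mul]
    · intro z _
      rfl
  have h2 : ∑ z ∈ ann a b, gg χ m H v (gI * z) =
      χ gI * Complex.I ^ m * ∑ z ∈ ann a b, gg χ m H v z := by
    rw [Finset.mul_sum]
    exact Finset.sum_congr rfl fun z _ => hgg_rot hχ m H v z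
  rw [h1] at h2
  have h3 : (1 - χ gI * Complex.I ^ m) * ∑ z ∈ ann a b, gg χ m H v z = 0 := by
    rw [sub_mul, one_mul, ← h2, sub_self]
  rcases mul_eq_zero.1 h3 with h | h
  · exact absurd (sub_eq_zero.1 h).symm hu
  · exact h

end Pool.Agent.LogCh.HG
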