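import Pool.Agent.Lib.LogCh.HDy

/-!
# HHa: first step of the theorem of Halasz

PROOF of `hal0`.  For `y ≥ 1`, with `S = ∑_{n ≤ y} a n`: `S log y = ∑_{n ≤ y} a n log n +
∑_{n ≤ y} a n log (y / n)`, and the last sum is at most `∑_{n ≤ y} r2 n log (y / n) ≤ 4 B y` in
absolute value (`sum_log` with `f = r2`, `r2_sum_le`).

PROOF of `hal1`.  By `conv`, `∑_{n ≤ x} a n log n = ∑_{n ≤ x} ∑_{d ∣ n} b d a (n/d) =
∑_{d ≤ x} b d ∑_{m ≤ x/d} a m` (`n = d m`; `⌊x / d⌋₊ = ⌊x⌋₊ / d`, `Nat.floor_div_natCast`), of norm at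
most `∑_{d ≤ x} 2 Λ d * SS a (x / d)` (`hb`).  Then `hal0` with `y = x`.
-/

set_option autoImplicit false

namespace Pool.Agent.LogCh.HG

open Real

private lemma ha_swap (G : ℕ → ℕ → ℂ) (N : ℕ) :
    ∑ n ∈ Finset.Icc 1 N, ∑ d ∈ n.divisors, G d (n / d) =
      ∑ d ∈ Finset.Icc 1 N, ∑ m ∈ Finset.Icc 1 (N / d), G d m := by
  rw [Finset.sum_sigma', Finset.sum_sigma']
  refine Finset.sum_nbij' (fun x : (_ : ℕ) × ℕ => (⟨x.2, x.1 / x.2⟩ : (_ : ℕ) × ℕ))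
    (fun x => ⟨x.1 * x.2, x.1⟩) ?_ ?_ ?_ ?_ ?_
  · rintro ⟨n, d⟩ h
    simp only [Finset.mem_sigma, Finset.mem_Icc, Nat.mem_divisors] at h ⊢
    obtain ⟨⟨h1, h2⟩, h3, h4⟩ := h
    have hd : 1 ≤ d := Nat.pos_of_dvd_of_pos h3 h1
    refine ⟨⟨hd, (Nat.le_of_dvd h1 h3).trans h2⟩, ?_, Nat.div_le_div_right h2⟩
    exact Nat.div_pos (Nat.le_of_dvd h1 h3) hd
  · rintro ⟨d, m⟩ h
    simp only [Finset.mem_sigma, Finset.mem_Icc, Nat.mem_divisors] at h ⊢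
    obtain ⟨⟨h1, h2⟩, h3, h4⟩ := h
    have h5 : d * m ≤ N := by
      rw [mul_comm]
      exact (Nat.le_div_iff_mul_le h1).1 h4
    have h6 : 1 ≤ d * m := Nat.mul_pos h1 h3
    exact ⟨⟨h6, h5⟩, Dvd.intro m rfl, by omega⟩
  · rintro ⟨n, d⟩ h
    simp only [Finset.mem_sigma, Finset.mem_Icc, Nat.mem_divisors] at h ⊢
    obtain ⟨⟨h1, h2⟩, h3, h4⟩ := h
    have h5 : d * (n / d) = n := Nat.mul_div_cancel' h3
    simp only [h5]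
  · rintro ⟨d, m⟩ h
    simp only [Finset.mem_sigma, Finset.mem_Icc] at h ⊢
    obtain ⟨⟨h1, h2⟩, h3, h4⟩ := h
    have h5 : d * m / d = m := Nat.mul_div_cancel_left m h1
    simp only [h5]
  · rintro ⟨n, d⟩ h
    rfl

theorem hal0 : ∃ C : ℝ, 0 < C ∧ ∀ a : ℕ → ℂ, (∀ n : ℕ, 1 ≤ n → ‖a n‖ ≤ r2 n) → ∀ y : ℝ,
    1 ≤ y → SS a y * log y ≤ SS (fun n => a n * ((log n : ℝ) : ℂ)) y + C * y := by
  obtain ⟨B, hB, h⟩ := r2_sum_le
  refine ⟨4 * B, by linarith, fun a ha y hy => ?_⟩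
  have hy0 : 0 < y := by linarith
  have h1 := sum_log (f := r2) r2_nonneg (B := B) (fun t ht => h t (by linarith)) hy
  have h2 : (∑ n ∈ Finset.Icc 1 ⌊y⌋₊, a n) * ((log y : ℝ) : ℂ) =
      (∑ n ∈ Finset.Icc 1 ⌊y⌋₊, a n * ((log n : ℝ) : ℂ)) +
      ∑ n ∈ Finset.Icc 1 ⌊y⌋₊, a n * ((log (y / n) : ℝ) : ℂ) := by
    rw [Finset.sum_mul, ← Finset.sum_add_distrib]
    refine Finset.sum_congr rfl (fun n hn => ?_)
    rw [Finset.mem_Icc] at hn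
    have hn0 : (n : ℝ) ≠ 0 := by
      have : (1 : ℝ) ≤ n := by exact_mod_cast hn.1
      linarith
    rw [Real.log_div hy0.ne' hn0]
    push_cast
    ring
  have h3 : SS a y * log y = ‖(∑ n ∈ Finset.Icc 1 ⌊y⌋₊, a n) * ((log y : ℝ) : ℂ)‖ := by
    rw [norm_mul, Complex.norm_real, Real.norm_of_nonneg (Real.log_nonneg hy)]
    rfl
  rw [h3, h2]
  refine (norm_add_le _ _).trans (add_le_add le_rfl ?_)
  refine (norm_sum_le _ _).trans (le_trans (Finset.sum_le_sum (fun n hn => ?_)) h1)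
  rw [Finset.mem_Icc] at hn
  have hn1 : (1 : ℝ) ≤ n := by exact_mod_cast hn.1
  have hn2 : (n : ℝ) ≤ y := (Nat.le_floor_iff hy0.le).1 hn.2
  have hl : 0 ≤ log (y / n) := Real.log_nonneg (by rw [le_div_iff₀ (by linarith)]; linarith)
  rw [norm_mul, Complex.norm_real, Real.norm_of_nonneg hl]
  exact mul_le_mul_of_nonneg_right (ha n hn.1) hl

theorem hal1 : ∃ C : ℝ, 0 < C ∧ ∀ a b : ℕ → ℂ, HP a b → ∀ x : ℝ, 1 ≤ x →
    SS a x * log x ≤ 2 * ∑ d ∈ Finset.Icc 1 ⌊x⌋₊,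
      ArithmeticFunction.vonMangoldt d * SS a (x / d) + C * x := by
  obtain ⟨C, hC, h⟩ := hal0
  refine ⟨C, hC, fun a b hab x hx => (h a hab.ha x hx).trans (add_le_add ?_ le_rfl)⟩
  have h1 : (∑ n ∈ Finset.Icc 1 ⌊x⌋₊, a n * ((log n : ℝ) : ℂ)) =
      ∑ d ∈ Finset.Icc 1 ⌊x⌋₊, b d * ∑ m ∈ Finset.Icc 1 (⌊x⌋₊ / d), a m := by
    have h2 : ∀ n ∈ Finset.Icc 1 ⌊x⌋₊, a n * ((log n : ℝ) : ℂ) =
        ∑ d ∈ n.divisors, b d * a (n / d) := fun n hn => hab.conv n (Finset.mem_Icc.1 hn).1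
    rw [Finset.sum_congr rfl h2, ha_swap (fun d m => b d * a m)]
    exact Finset.sum_congr rfl (fun d _ => (Finset.mul_sum _ _ _).symm)
  unfold SS
  rw [h1, Finset.mul_sum]
  refine (norm_sum_le _ _).trans (Finset.sum_le_sum (fun d hd => ?_))
  rw [norm_mul, Nat.floor_div_natCast, ← mul_assoc]
  exact mul_le_mul_of_nonneg_right (hab.hb d) (norm_nonneg _)

end Pool.Agent.LogCh.HG
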