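import Pool.Agent.Lib.LogCh.HDy

/-!
# HLs: Dirichlet series of a pair `a log = b * a`

Everything is for `1 < s.re`, with Mathlib's `LSeries`.

PROOFS.
* `HP.summable_a`: `∑_{n ≤ t} ‖a n‖ ≤ ∑ r2 n ≤ C t` (`r2_sum_le`), so
  `LSeriesSummable_of_sum_norm_bigO` (Mathlib, with exponent `1`) applies.
* `HP.summable_b`: `‖b n‖ ≤ 2 Λ n`, comparison with
  `ArithmeticFunction.LSeriesSummable_vonMangoldt`.
* `LSeries_conv`: for `n ≠ 0`, `a n * log n` is the Dirichlet convolution of `b` and `a`
  (`LSeries.convolution_def`, `Nat.divisorsAntidiagonal`, `Nat.sum_divisorsAntidiagonal` or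
  `Nat.sum_div_divisors`); `LSeries_congr` and `LSeries_convolution'`.
* `LSeries_exp`: put `c n = b n / log n` (so `‖c n‖ ≤ 2 Λ n / log n ≤ 2` for `n ≥ 2`,
  `Λ n ≤ log n`; `c 0 = c 1 = 0` since `Λ 0 = Λ 1 = 0`), `c n * log n = b n` for all `n ≥ 1`.
  All abscissas of absolute convergence are `≤ 1`
  (`LSeries.abscissaOfAbsConv_le_of_forall_lt_LSeriesSummable`).  By `LSeries_hasDerivAt`, on
  the half plane `1 < re s`: `(LSeries a)' = - LSeries (logMul a) = - LSeries b * LSeries a` and
  `(LSeries c)' = - LSeries (logMul c) = - LSeries b`; so `G s = LSeries a s * exp (- LSeries c s)`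
  has derivative zero on the open convex half plane `{1 < re s}`, hence is constant there
  (`IsOpen.is_const_of_deriv_eq_zero` with `Convex.isPreconnected`, or
  `Convex.is_const_of_fderivWithin_eq_zero`).  Along real `x → ∞`: `LSeries a x → a 1` and
  `LSeries c x → c 1 = 0` (`LSeries.tendsto_atTop`), so the constant is `a 1`.
-/

set_option autoImplicit false

namespace Pool.Agent.LogCh.HG

open Real
open Pool.Agent.NSqP

theorem summable_of_le_r2 {a : ℕ → ℂ} (ha : ∀ n : ℕ, 1 ≤ n → ‖a n‖ ≤ r2 n) {s : ℂ}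
    (hs : 1 < s.re) : LSeriesSummable a s := by
  obtain ⟨C, hC, h⟩ := r2_sum_le
  refine LSeriesSummable_of_sum_norm_bigO (r := 1) ?_ zero_le_one hs
  refine Asymptotics.IsBigO.of_bound C (Filter.Eventually.of_forall fun n => ?_)
  rw [Real.rpow_one, Real.norm_of_nonneg (Finset.sum_nonneg fun _ _ => norm_nonneg _),
    Real.norm_natCast]
  refine (Finset.sum_le_sum (fun k hk => ha k (Finset.mem_Icc.1 hk).1)).trans ?_
  have h1 := h n (Nat.cast_nonneg n)
  rw [Nat.floor_natCast] at h1
  exact h1

theorem HP.summable_b {a b : ℕ → ℂ} (h : HP a b) {s : ℂ} (hs : 1 < s.re) :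
    LSeriesSummable b s := by
  have h1 := ArithmeticFunction.LSeriesSummable_vonMangoldt hs
  rw [LSeriesSummable, ← summable_norm_iff] at h1 ⊢
  refine Summable.of_nonneg_of_le (fun n => norm_nonneg _) (fun n => ?_) (h1.mul_left 2)
  rw [LSeries.norm_term_eq, LSeries.norm_term_eq]
  split_ifs with h0
  · simp
  · rw [← mul_div_assoc]
    refine div_le_div_of_nonneg_right ?_ (by positivity)
    rw [Complex.norm_real, Real.norm_of_nonneg ArithmeticFunction.vonMangoldt_nonneg]
    exact h.hb n

private theorem hls_conv {a b : ℕ → ℂ} (h : HP a b) {n : ℕ} (hn : n ≠ 0) :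
    LSeries.convolution b a n = a n * ((log n : ℝ) : ℂ) := by
  rw [LSeries.convolution_def, h.conv n (Nat.one_le_iff_ne_zero.2 hn)]
  exact Nat.sum_divisorsAntidiagonal (fun i j => b i * a j)

theorem LSeries_conv {a b : ℕ → ℂ} (h : HP a b) {s : ℂ} (hs : 1 < s.re) :
    LSeriesSummable (fun n => a n * ((log n : ℝ) : ℂ)) s ∧
      LSeries (fun n => a n * ((log n : ℝ) : ℂ)) s = LSeries b s * LSeries a s := by
  have hb := h.summable_b hs
  have ha := summable_of_le_r2 h.ha hs
  constructor
  · exact (LSeriesSummable_congr s (fun {n} hn => hls_conv h hn)).1 (hb.convolution ha)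
  · rw [← LSeries_convolution' hb ha]
    exact (LSeries_congr (fun {n} hn => hls_conv h hn) s).symm

theorem LSeries_exp {a b : ℕ → ℂ} (h : HP a b) {s : ℂ} (hs : 1 < s.re) :
    LSeries a s = a 1 * Complex.exp (LSeries (fun n => b n / ((log n : ℝ) : ℂ)) s) := by
  set c : ℕ → ℂ := fun n => b n / ((log n : ℝ) : ℂ) with hc
  have hb1 : b 1 = 0 := by
    have := h.hb 1
    rw [ArithmeticFunction.vonMangoldt_apply_one, mul_zero] at this
    exact norm_le_zero_iff.1 this
  have hc1 : c 1 = 0 := by
    rw [hc]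
    simp only
    rw [hb1, zero_div]
  have hcb : ∀ n : ℕ, n ≠ 0 → ‖c n‖ ≤ 2 := by
    intro n hn
    rcases Nat.lt_or_ge n 2 with h2 | h2
    · have h1 : n = 1 := by omega
      rw [h1, hc1, norm_zero]
      norm_num
    · have hl : 0 < log n := Real.log_pos (by exact_mod_cast h2)
      rw [hc]
      simp only
      rw [norm_div, Complex.norm_real, Real.norm_of_nonneg hl.le, div_le_iff₀ hl]
      refine (h.hb n).trans ?_
      have := ArithmeticFunction.vonMangoldt_le_log (n := n)
      linarith
  have hac : ∀ z : ℂ, 1 < z.re → LSeries.abscissaOfAbsConv c < z.re := by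
    intro z hz
    refine (LSeries.abscissaOfAbsConv_le_of_le_const ⟨2, hcb⟩).trans_lt ?_
    exact_mod_cast hz
  have haa1 : LSeries.abscissaOfAbsConv a ≤ (1 : ℝ) := by
    refine LSeries.abscissaOfAbsConv_le_of_forall_lt_LSeriesSummable (fun y hy => ?_)
    exact summable_of_le_r2 h.ha (by simpa using hy)
  have haa : ∀ z : ℂ, 1 < z.re → LSeries.abscissaOfAbsConv a < z.re := by
    intro z hz
    refine haa1.trans_lt ?_
    exact_mod_cast hz
  have hlc : ∀ z : ℂ, LSeries (LSeries.logMul c) z = LSeries b z := by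
    intro z
    refine LSeries_congr (fun {n} hn => ?_) z
    rw [LSeries.logMul, ← Complex.natCast_log, hc]
    simp only
    rcases Nat.lt_or_ge n 2 with h2 | h2
    · have h1 : n = 1 := by omega
      rw [h1, hb1]
      simp
    · have hl : 0 < log n := Real.log_pos (by exact_mod_cast h2)
      have hl' : ((log n : ℝ) : ℂ) ≠ 0 := by exact_mod_cast hl.ne'
      rw [mul_div_assoc', mul_comm, mul_div_assoc, div_self hl', mul_one]
  have hla : ∀ z : ℂ, 1 < z.re → LSeries (LSeries.logMul a) z = LSeries b z * LSeries a z := by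
    intro z hz
    rw [← (LSeries_conv h hz).2]
    refine LSeries_congr (fun {n} _ => ?_) z
    rw [LSeries.logMul, ← Complex.natCast_log, mul_comm]
  set G : ℂ → ℂ := fun z => LSeries a z * Complex.exp (-LSeries c z) with hG
  have hder : ∀ z : ℂ, 1 < z.re → HasDerivAt G 0 z := by
    intro z hz
    have d1 := LSeries_hasDerivAt (haa z hz)
    have d2 := LSeries_hasDerivAt (hac z hz)
    rw [hla z hz] at d1
    rw [hlc z] at d2
    have d3 := d1.mul d2.neg.cexp
    refine HasDerivAt.congr_deriv d3 ?_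
    ring
  have hopen : IsOpen {z : ℂ | 1 < z.re} := isOpen_lt continuous_const Complex.continuous_re
  have hpre : IsPreconnected {z : ℂ | 1 < z.re} := (convex_halfSpace_re_gt 1).isPreconnected
  obtain ⟨A, hA⟩ := hopen.exists_is_const_of_deriv_eq_zero hpre (f := G)
    (fun z hz => (hder z hz).differentiableAt.differentiableWithinAt)
    (fun z hz => (hder z hz).deriv)
  have hlim : Filter.Tendsto (fun x : ℝ => G x) Filter.atTop (nhds (a 1 * Complex.exp (-c 1))) := by
    have t1 : Filter.Tendsto (fun x : ℝ => LSeries a x) Filter.atTop (nhds (a 1)) :=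
      LSeries.tendsto_atTop (haa1.trans_lt (EReal.coe_lt_top 1))
    have t2 : Filter.Tendsto (fun x : ℝ => LSeries c x) Filter.atTop (nhds (c 1)) :=
      LSeries.tendsto_atTop
        ((LSeries.abscissaOfAbsConv_le_of_le_const ⟨2, hcb⟩).trans_lt (EReal.coe_lt_top 1))
    exact t1.mul ((Complex.continuous_exp.tendsto _).comp t2.neg)
  have hlim' : Filter.Tendsto (fun x : ℝ => G x) Filter.atTop (nhds A) := by
    refine tendsto_const_nhds.congr' ?_
    filter_upwards [Filter.eventually_gt_atTop (1 : ℝ)] with x hx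
    exact (hA x (by simpa using hx)).symm
  have hA1 : A = a 1 := by
    have := tendsto_nhds_unique hlim' hlim
    rw [this, hc1, neg_zero, Complex.exp_zero, mul_one]
  have h9 := hA s hs
  rw [hA1] at h9
  rw [← h9, hG]
  simp only
  rw [mul_assoc, ← Complex.exp_add, neg_add_cancel, Complex.exp_zero, mul_one]

end Pool.Agent.LogCh.HG
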