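import Pool.Agent.Lib.LogCh.H0

/-!
# HMa: the logarithm of the norm as a sum over prime powers

PROOF of `log_id`.  For a prime element `w` and `z ≠ 0` put `v w z = multiplicity w z` (finite:
`w ^ j ∣ z` gives `(nN w) ^ j ≤ nN z`, `2 ≤ nN w`, hence `j < nN z`); so
`∑ j ∈ Icc 1 (nN z), if w ^ j ∣ z then log (nN w) else 0 = v w z * log (nN w)`
(`pow_dvd_iff_le_multiplicity` or `emultiplicity`).  If `S` is ANY finite set of prime elements
containing all prime divisors of `z` then `∑ w ∈ prG (nN z), v w z * log (nN w) =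
∑ w ∈ S, v w z * log (nN w)` (both have the same nonzero terms: `w ∣ z` gives `nN w ≤ nN z`).
Show `∑ w ∈ S, v w z * log (nN w) = 4 * log (nN z)` by
`UniqueFactorizationMonoid.induction_on_prime` (or `induction_on_prime`) on `z`, for all `S`
containing the prime divisors of `z`:
* `z = 0` excluded; unit: no prime divides a unit, both sides `0` (`nN z = 1`);
* `z = p * z'`: `v w (p z') = v w p + v w z'` (`multiplicity_mul` / `emultiplicity_mul` for prime
  `w`), and `v w p = 1` if `w` is associated to `p`, else `0`; the associates of `p` are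
  `p, i p, -p, -i p`, four distinct elements (`p ≠ 0`), all with `nN w = nN p`; so
  `∑ w ∈ S, v w p * log (nN w) = 4 log (nN p)` and `log (nN (p z')) = log (nN p) + log (nN z')`.
The units of `GaussianInt` are the elements with `nN u = 1` (`Zsqrtd.norm_eq_one_iff`), that is
`1, -1, i, -i`.
-/

set_option autoImplicit false

namespace Pool.Agent.LogCh.HG

open Real
open Pool.Agent.NSqP
open Pool.Agent.MP484c84Par (ballG mem_ballG)

private lemma nN_eq_one_iff {z : GaussianInt} :
    nN z = 1 ↔ z = 1 ∨ z = -1 ∨ z = gI ∨ z = -gI := by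
  constructor
  · intro h
    have h1 : z.norm = 1 := by
      have h2 : ((nN z : ℕ) : ℤ) = z.norm := nN_cast_int z
      rw [h] at h2
      exact_mod_cast h2.symm
    rw [Zsqrtd.norm_def] at h1
    obtain ⟨a, b⟩ := z
    simp only at h1
    have ha : a * a ≤ 1 := by nlinarith [mul_self_nonneg b]
    have hb : b * b ≤ 1 := by nlinarith [mul_self_nonneg a]
    have ha1 : a ≤ 1 := by nlinarith
    have ha2 : -1 ≤ a := by nlinarith
    have hb1 : b ≤ 1 := by nlinarith
    have hb2 : -1 ≤ b := by nlinarith
    have h3 : a = -1 ∨ a = 0 ∨ a = 1 := by omega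
    have h4 : b = -1 ∨ b = 0 ∨ b = 1 := by omega
    unfold gI
    rcases h3 with rfl | rfl | rfl <;> rcases h4 with rfl | rfl | rfl <;>
      simp [Zsqrtd.ext_iff] at h1 ⊢
  · rintro (rfl | rfl | rfl | rfl)
    · simp [nN, Zsqrtd.norm_def]
    · simp [nN, Zsqrtd.norm_def]
    · exact nN_gI
    · simp [nN, Zsqrtd.norm_def, gI]

/-- the units -/
theorem sph_one : sph 1 = {1, -1, gI, -gI} := by
  ext z
  rw [mem_sph, nN_eq_one_iff]
  simp

private lemma isUnit_iff_nN {z : GaussianInt} : IsUnit z ↔ nN z = 1 :=
  Zsqrtd.norm_eq_one_iff.symm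

private lemma card_units4 : ({1, -1, gI, -gI} : Finset GaussianInt).card = 4 := by
  unfold gI
  decide

open Classical in
private lemma prime_sum {p : GaussianInt} (hp : Prime p) (S : Finset GaussianInt)
    (hS : ∀ w ∈ S, Prime w) (hS2 : ∀ w, Prime w → w ∣ p → w ∈ S) :
    ∑ w ∈ S, (multiplicity w p : ℝ) * log (nN w) = 4 * log (nN p) := by
  have h1 : ∀ w ∈ S, (multiplicity w p : ℝ) * log (nN w) =
      if w ∣ p then log (nN p) else 0 := by
    intro w hw
    split_ifs with h
    · have h2 : Associated w p := (hS w hw).irreducible.associated_of_dvd hp.irreducible h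
      rw [← multiplicity_eq_of_associated_left h2, multiplicity_self]
      obtain ⟨u, hu⟩ := h2
      have h3 : nN p = nN w := by
        rw [← hu, nN_mul, isUnit_iff_nN.1 u.isUnit, mul_one]
      rw [h3]; simp
    · rw [multiplicity_eq_zero.2 h]; simp
  rw [Finset.sum_congr rfl h1, ← Finset.sum_filter, Finset.sum_const, nsmul_eq_mul]
  congr 1
  have h2 : S.filter (fun w => w ∣ p) =
      ({1, -1, gI, -gI} : Finset GaussianInt).image (fun u => u * p) := by
    ext w
    rw [Finset.mem_filter, Finset.mem_image]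
    constructor
    · rintro ⟨hw, hwp⟩
      have h3 : Associated w p := (hS w hw).irreducible.associated_of_dvd hp.irreducible hwp
      obtain ⟨u, hu⟩ := h3.symm
      refine ⟨u, ?_, by rw [mul_comm]; exact hu⟩
      rw [← sph_one, mem_sph]
      exact isUnit_iff_nN.1 u.isUnit
    · rintro ⟨u, hu, rfl⟩
      rw [← sph_one, mem_sph, ← isUnit_iff_nN] at hu
      have h3 : u * p ∣ p := by
        obtain ⟨v, rfl⟩ := hu
        exact ⟨(v⁻¹ : GaussianIntˣ), by rw [mul_comm (v : GaussianInt) p, mul_assoc]; simp⟩
      have h4 : Prime (u * p) := by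
        obtain ⟨v, rfl⟩ := hu
        exact (Associated.prime_iff ⟨v, mul_comm _ _⟩).1 hp
      exact ⟨hS2 _ h4 h3, h3⟩
  rw [h2, Finset.card_image_of_injective _ (mul_left_injective₀ hp.ne_zero), card_units4]
  norm_num

private lemma finMult {w z : GaussianInt} (hw : Prime w) (hz : z ≠ 0) : FiniteMultiplicity w z :=
  FiniteMultiplicity.of_prime_left hw hz

open Classical in
private lemma mult_sum (z : GaussianInt) : z ≠ 0 → ∀ S : Finset GaussianInt,
    (∀ w ∈ S, Prime w) → (∀ w, Prime w → w ∣ z → w ∈ S) →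
    ∑ w ∈ S, (multiplicity w z : ℝ) * log (nN w) = 4 * log (nN z) := by
  induction z using UniqueFactorizationMonoid.induction_on_prime with
  | h₁ => exact fun h => absurd rfl h
  | h₂ x hx =>
    intro _ S hS _
    rw [isUnit_iff_nN.1 hx]
    simp only [Nat.cast_one, log_one, mul_zero]
    apply Finset.sum_eq_zero
    intro w hw
    have h1 : ¬ w ∣ x := fun h => (hS w hw).not_isUnit (isUnit_of_dvd_unit h hx)
    rw [multiplicity_eq_zero.2 h1]; simp
  | h₃ a p ha hp ih =>
    intro hpa S hS hS2
    have h1 : ∀ w ∈ S, (multiplicity w (p * a) : ℝ) * log (nN w) =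
        (multiplicity w p : ℝ) * log (nN w) + (multiplicity w a : ℝ) * log (nN w) := by
      intro w hw
      rw [multiplicity_mul (hS w hw) (finMult (hS w hw) hpa)]
      push_cast
      ring
    rw [Finset.sum_congr rfl h1, Finset.sum_add_distrib,
      prime_sum hp S hS (fun w hw h => hS2 w hw (h.mul_right a)),
      ih ha S hS (fun w hw h => hS2 w hw (h.mul_left p)), nN_mul]
    push_cast
    rw [log_mul]
    · ring
    · exact_mod_cast (nN_pos hp.ne_zero).ne'
    · exact_mod_cast (nN_pos ha).ne'

open Classical in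
theorem log_id (z : GaussianInt) (hz : z ≠ 0) :
    4 * log (nN z) = ∑ w ∈ prG (nN z), ∑ j ∈ Finset.Icc 1 (nN z),
      if w ^ j ∣ z then log (nN w) else 0 := by
  rw [← mult_sum z hz (prG (nN z)) (fun w hw => (mem_prG.1 hw).2) ?_]
  · refine Finset.sum_congr rfl fun w hw => ?_
    obtain ⟨_, hwp⟩ := mem_prG.1 hw
    have hfin := finMult hwp hz
    have hw2 : 2 ≤ nN w := by
      have h1 := nN_pos hwp.ne_zero
      have h2 : nN w ≠ 1 := fun h => hwp.not_isUnit (isUnit_iff_nN.2 h)
      omega
    have hlt : multiplicity w z ≤ nN z := by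
      have h1 : w ^ multiplicity w z ∣ z := pow_multiplicity_dvd w z
      obtain ⟨c, hc⟩ := h1
      have h2 : nN z = nN w ^ multiplicity w z * nN c := by
        conv_lhs => rw [hc]
        rw [nN_mul]
        congr 1
        generalize multiplicity w z = k
        induction k with
        | zero => simp [nN_one]
        | succ k ih => rw [pow_succ, nN_mul, ih, pow_succ]
      have h3 : nN c ≠ 0 := by
        intro h
        rw [h, mul_zero] at h2
        exact (nN_pos hz).ne' h2
      calc multiplicity w z ≤ 2 ^ multiplicity w z := (Nat.lt_two_pow_self).le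
        _ ≤ nN w ^ multiplicity w z := Nat.pow_le_pow_left hw2 _
        _ ≤ nN w ^ multiplicity w z * nN c := Nat.le_mul_of_pos_right _ (Nat.pos_of_ne_zero h3)
        _ = nN z := h2.symm
    rw [← Finset.sum_filter, Finset.sum_const, nsmul_eq_mul]
    congr 1
    have h1 : (Finset.Icc 1 (nN z)).filter (fun j => w ^ j ∣ z) =
        Finset.Icc 1 (multiplicity w z) := by
      ext j
      rw [Finset.mem_filter, Finset.mem_Icc, Finset.mem_Icc, hfin.pow_dvd_iff_le_multiplicity]
      omega
    rw [h1, Nat.card_Icc, add_tsub_cancel_right]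
  · intro w hw hwz
    rw [mem_prG]
    refine ⟨?_, hw⟩
    obtain ⟨c, hc⟩ := hwz
    have h2 : nN z = nN w * nN c := by rw [hc, nN_mul]
    have h3 : nN c ≠ 0 := by
      intro h
      rw [h, mul_zero] at h2
      exact (nN_pos hz).ne' h2
    rw [h2]
    exact Nat.le_mul_of_pos_right _ (Nat.pos_of_ne_zero h3)

end Pool.Agent.LogCh.HG
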