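import Pool.Agent.Lib.LogCh.HMa

/-!
# HMb: the convolution identity `a log = b * a`

PROOF of `conv_id`.  Multiply by `4`.  By `log_id`, for `z ∈ sph n`,
`g z * (4 log n) = ∑ w ∈ prG n, ∑ j ∈ Icc 1 n, if w ^ j ∣ z then g z * log (nN w) else 0`.
For fixed `w` prime and `j ≥ 1`:
`∑ z ∈ (sph n).filter (w ^ j ∣ z), g z = if (nN w) ^ j ∣ n then g w ^ j * aG g (n / (nN w) ^ j)
else 0`: `z = w ^ j * y` with `nN y = n / (nN w) ^ j` (bijection `y ↦ w ^ j * y`, `w ≠ 0`; as
`nN z = (nN w) ^ j * nN y`), `g (w ^ j * y) = g w ^ j * g y` by `hg.cm.mul` (induction on `j ≥ 1`;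
all factors are nonzero).
Right side times `4`: `∑ d ∣ n, ∑ w ∈ prG d, ∑ j ∈ Icc 1 d, if (nN w) ^ j = d then
g w ^ j * log (nN w) * aG g (n / d) else 0`.  Exchange: for `w, j` the only `d` is `(nN w) ^ j`,
which is a divisor of `n` iff `(nN w) ^ j ∣ n`; and `w ∈ prG d`, `j ∈ Icc 1 d` hold automatically
when `d = (nN w) ^ j`, `j ≥ 1` (`nN w ≤ (nN w) ^ j`, `j < 2 ^ j ≤ (nN w) ^ j`, since `2 ≤ nN w` for a
prime element); for `d ∣ n` one may enlarge the ranges to `prG n`, `Icc 1 n` without new terms.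
-/

set_option autoImplicit false

namespace Pool.Agent.LogCh.HG

open Real
open Pool.Agent.NSqP
open Pool.Agent.MP484c84Par (ballG mem_ballG)

private lemma hmb_two_le {w : GaussianInt} (hw : Prime w) : 2 ≤ nN w := by
  have h0 : nN w ≠ 0 := fun h => hw.ne_zero (nN_eq_zero.1 h)
  have h1 : nN w ≠ 1 := fun h => hw.not_unit (Zsqrtd.norm_eq_one_iff.1 h)
  omega

private lemma hmb_nN_pow (w : GaussianInt) (j : ℕ) : nN (w ^ j) = nN w ^ j := by
  induction j with
  | zero => simp [nN_one]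
  | succ j ih => rw [pow_succ, nN_mul, ih, pow_succ]

private lemma hmb_mul {g : GaussianInt → ℂ} (hg : GM g) {w y : GaussianInt} (hw : w ≠ 0)
    (hy : y ≠ 0) (j : ℕ) : g (w ^ j * y) = g w ^ j * g y := by
  induction j with
  | zero => simp
  | succ j ih =>
    have h1 : w ^ (j + 1) * y = w * (w ^ j * y) := by ring
    rw [h1, hg.cm.mul w (w ^ j * y) hw (mul_ne_zero (pow_ne_zero _ hw) hy), ih, pow_succ]
    ring

open Classical in
private lemma hmb_fib {g : GaussianInt → ℂ} (hg : GM g) {w : GaussianInt} (hw : Prime w) (j : ℕ)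
    {n : ℕ} (hn : 1 ≤ n) :
    ∑ z ∈ (sph n).filter (fun z => w ^ j ∣ z), g z =
      if nN w ^ j ∣ n then g w ^ j * aG g (n / nN w ^ j) else 0 := by
  split_ifs with h
  · obtain ⟨m, hm⟩ := h
    have hpos : 0 < nN w ^ j := pow_pos (nN_pos hw.ne_zero) j
    have hdiv : n / nN w ^ j = m := by rw [hm, Nat.mul_div_cancel_left _ hpos]
    have hm0 : 1 ≤ m := by
      rcases Nat.eq_zero_or_pos m with h0 | h0
      · rw [h0, mul_zero] at hm; omega
      · exact h0
    rw [hdiv, aG, Finset.mul_sum]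
    symm
    refine Finset.sum_nbij (fun y => w ^ j * y) ?_ ?_ ?_ ?_
    · intro y hy
      rw [mem_sph] at hy
      rw [Finset.mem_filter, mem_sph, nN_mul, hmb_nN_pow, hy, hm]
      exact ⟨rfl, dvd_mul_right _ _⟩
    · intro y _ y' _ hyy
      exact mul_left_cancel₀ (pow_ne_zero j hw.ne_zero) hyy
    · intro z hz
      rw [Finset.mem_coe, Finset.mem_filter, mem_sph] at hz
      obtain ⟨hz1, y, hy⟩ := hz
      refine ⟨y, ?_, hy.symm⟩
      rw [Finset.mem_coe, mem_sph]
      rw [hy, nN_mul, hmb_nN_pow, hm] at hz1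
      exact Nat.eq_of_mul_eq_mul_left hpos hz1
    · intro y hy
      rw [hmb_mul hg hw.ne_zero (ne_zero_of_mem_sph hm0 hy)]
  · have he : (sph n).filter (fun z => w ^ j ∣ z) = ∅ := by
      rw [Finset.eq_empty_iff_forall_notMem]
      intro z hz
      rw [Finset.mem_filter, mem_sph] at hz
      obtain ⟨hz1, y, hy⟩ := hz
      apply h
      rw [← hz1, hy, nN_mul, hmb_nN_pow]
      exact dvd_mul_right _ _
    rw [he, Finset.sum_empty]

theorem conv_id {g : GaussianInt → ℂ} (hg : GM g) (n : ℕ) (hn : 1 ≤ n) :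
    aG g n * ((log n : ℝ) : ℂ) = ∑ d ∈ n.divisors, bG g d * aG g (n / d) := by
  classical
  -- the left side
  have hL : 4 * (aG g n * ((log n : ℝ) : ℂ)) =
      ∑ w ∈ prG n, ∑ j ∈ Finset.Icc 1 n,
        (if nN w ^ j ∣ n then g w ^ j * aG g (n / nN w ^ j) else 0) *
          ((log (nN w) : ℝ) : ℂ) := by
    have h1 : ∀ z ∈ sph n, g z * ((4 * log n : ℝ) : ℂ) = ∑ w ∈ prG n, ∑ j ∈ Finset.Icc 1 n,
        (if w ^ j ∣ z then g z else 0) * ((log (nN w) : ℝ) : ℂ) := by
      intro z hz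
      have hz0 := ne_zero_of_mem_sph hn hz
      have h2 := log_id z hz0
      rw [mem_sph] at hz
      rw [hz] at h2
      rw [h2]
      push_cast
      rw [Finset.mul_sum]
      refine Finset.sum_congr rfl fun w _ => ?_
      rw [Finset.mul_sum]
      refine Finset.sum_congr rfl fun j _ => ?_
      split_ifs
      · simp only [Complex.natCast_log]
      · simp
    have h3 : 4 * (aG g n * ((log n : ℝ) : ℂ)) = ∑ z ∈ sph n, g z * ((4 * log n : ℝ) : ℂ) := by
      rw [aG, ← Finset.sum_mul]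
      push_cast
      ring
    rw [h3, Finset.sum_congr rfl h1, Finset.sum_comm]
    refine Finset.sum_congr rfl fun w hw => ?_
    rw [Finset.sum_comm]
    refine Finset.sum_congr rfl fun j _ => ?_
    rw [← Finset.sum_mul, ← Finset.sum_filter, hmb_fib hg (mem_prG.1 hw).2 j hn]
  -- the right side
  have hR : ∀ d ∈ n.divisors, 4 * (bG g d * aG g (n / d)) =
      ∑ w ∈ prG n, ∑ j ∈ Finset.Icc 1 n,
        (if nN w ^ j = d then g w ^ j * aG g (n / nN w ^ j) * ((log (nN w) : ℝ) : ℂ) else 0) := by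
    intro d hd
    have hdn : d ∣ n := Nat.dvd_of_mem_divisors hd
    have hdle : d ≤ n := Nat.le_of_dvd (by omega) hdn
    have h1 : 4 * (bG g d * aG g (n / d)) = ∑ w ∈ prG d, ∑ j ∈ Finset.Icc 1 d,
        (if nN w ^ j = d then g w ^ j * aG g (n / nN w ^ j) * ((log (nN w) : ℝ) : ℂ) else 0) := by
      have h2 : 4 * (bG g d * aG g (n / d)) = (∑ w ∈ prG d, ∑ j ∈ Finset.Icc 1 d,
          if nN w ^ j = d then g w ^ j * ((log (nN w) : ℝ) : ℂ) else 0) * aG g (n / d) := by
        rw [bG]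
        ring
      rw [h2, Finset.sum_mul]
      refine Finset.sum_congr rfl fun w _ => ?_
      rw [Finset.sum_mul]
      refine Finset.sum_congr rfl fun j _ => ?_
      split_ifs with h
      · rw [h]; ring
      · simp
    rw [h1]
    have hsub : prG d ⊆ prG n := by
      intro w hw
      rw [mem_prG] at hw ⊢
      exact ⟨hw.1.trans hdle, hw.2⟩
    have hsubj : Finset.Icc 1 d ⊆ Finset.Icc 1 n := Finset.Icc_subset_Icc le_rfl hdle
    have hinner : ∀ w ∈ prG n, ∑ j ∈ Finset.Icc 1 d,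
        (if nN w ^ j = d then g w ^ j * aG g (n / nN w ^ j) * ((log (nN w) : ℝ) : ℂ) else 0) =
        ∑ j ∈ Finset.Icc 1 n,
        (if nN w ^ j = d then g w ^ j * aG g (n / nN w ^ j) * ((log (nN w) : ℝ) : ℂ) else 0) := by
      intro w hw
      refine Finset.sum_subset hsubj fun j hj hj' => ?_
      rw [if_neg]
      intro hjd
      apply hj'
      rw [Finset.mem_Icc] at hj ⊢
      refine ⟨hj.1, ?_⟩
      have h2 : j < 2 ^ j := Nat.lt_two_pow_self
      have h3 : 2 ^ j ≤ nN w ^ j := Nat.pow_le_pow_left (hmb_two_le (mem_prG.1 hw).2) j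
      omega
    rw [Finset.sum_congr rfl (fun w hw => hinner w (hsub hw))]
    refine Finset.sum_subset hsub fun w hw hw' => ?_
    refine Finset.sum_eq_zero fun j hj => ?_
    rw [if_neg]
    intro hjd
    apply hw'
    rw [mem_prG] at hw ⊢
    refine ⟨?_, hw.2⟩
    rw [Finset.mem_Icc] at hj
    rw [← hjd]
    exact Nat.le_self_pow (by omega) _
  have hR2 : 4 * ∑ d ∈ n.divisors, bG g d * aG g (n / d) =
      ∑ w ∈ prG n, ∑ j ∈ Finset.Icc 1 n,
        (if nN w ^ j ∣ n then g w ^ j * aG g (n / nN w ^ j) else 0) *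
          ((log (nN w) : ℝ) : ℂ) := by
    rw [Finset.mul_sum, Finset.sum_congr rfl hR, Finset.sum_comm]
    refine Finset.sum_congr rfl fun w _ => ?_
    rw [Finset.sum_comm]
    refine Finset.sum_congr rfl fun j _ => ?_
    rw [Finset.sum_ite_eq]
    have hiff : nN w ^ j ∈ n.divisors ↔ nN w ^ j ∣ n := by
      rw [Nat.mem_divisors]
      exact ⟨fun h => h.1, fun h => ⟨h, by omega⟩⟩
    by_cases h : nN w ^ j ∣ n
    · rw [if_pos (hiff.2 h), if_pos h]
    · rw [if_neg (fun h' => h (hiff.1 h')), if_neg h, zero_mul]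
  have h4 : (4 : ℂ) ≠ 0 := by norm_num
  exact mul_left_cancel₀ h4 (hL.trans hR2.symm)

end Pool.Agent.LogCh.HG
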