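import Pool.Agent.Lib.LogCh.HMb

/-!
# HMc: bounds and values of the von Mangoldt coefficients

PROOF of `norm_bG_le`.  `‖bG g n‖ ≤ 1/4 ∑ w ∈ prG n, ∑ j ∈ Icc 1 n, [(nN w) ^ j = n] log (nN w)`
(`‖g w‖ ≤ 1`, `0 ≤ log (nN w)`).  Suppose some pair `(w, j)` occurs, `j ≥ 1`, `w` prime,
`(nN w) ^ j = n`.  `w ∣ w * star w = nN w` (as a Gaussian integer), the latter is a product of
rational primes, so `w ∣ p` for a rational prime `p` (`Prime.exists_mem_multiset_dvd` /
`Prime.dvd_finset_prod`, or induction over `Nat.primeFactorsList`); then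
`nN w ∣ nN p = p ^ 2`, `nN w ≠ 1`, so `nN w ∈ {p, p ^ 2}` and `n` is a power `p ^ k`, `k ≥ 1`;
`Λ n = log p`.  Every pair `(w, j)` which occurs has `w ∣ p` for THIS `p` (the prime is determined
by `n`), and `j` is determined by `w` (`2 ≤ nN w`), so the double sum is at most
`∑ w ∈ prG (p ^ 2), if w ∣ p then log (nN w) else 0 ≤ 4 log (nN p) = 8 log p` by `log_id` for
`z = p` (term `j = 1`).  Hence `‖bG g n‖ ≤ 2 log p = 2 Λ n`.  If no pair occurs, `bG g n = 0`.

PROOF of `bG_prime`: `p` an odd prime.  `(nN w) ^ j = p` forces `j = 1`, `nN w = p`; every `w` with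
`nN w = p` is prime (irreducible norm; cf. `IsPi.prime`), so
`bG g p = 1/4 * log p * ∑ w ∈ sph p, g w`.  For `nN w = p` odd prime both coordinates are
nonzero (else `p` is a square), so exactly one of `w, i w, -w, -i w` lies in the open first
quadrant: `sph p` is the disjoint union of the images of `sphP p` under multiplication by
`1, i, -1, -i`, and `g (u π) = g u * g π = g π`.

`GM_HP` puts things together.
-/

set_option autoImplicit false

namespace Pool.Agent.LogCh.HG

open Real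
open Pool.Agent.NSqP
open Pool.Agent.MP484c84Par (ballG mem_ballG)

private lemma mc_isUnit {z : GaussianInt} (h : nN z = 1) : IsUnit z :=
  Zsqrtd.norm_eq_one_iff.1 h

private lemma mc_nN_of_isUnit {z : GaussianInt} (h : IsUnit z) : nN z = 1 :=
  Zsqrtd.norm_eq_one_iff.2 h

private lemma mc_two_le {w : GaussianInt} (hw : Prime w) : 2 ≤ nN w := by
  have h0 : 0 < nN w := nN_pos hw.ne_zero
  have h1 : nN w ≠ 1 := fun h => hw.not_isUnit (mc_isUnit h)
  omega

private lemma mc_mul_star (z : GaussianInt) : z * star z = ((nN z : ℕ) : GaussianInt) := by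
  have h1 : ((nN z : ℕ) : GaussianInt) = (((nN z : ℕ) : ℤ) : GaussianInt) := by push_cast; rfl
  rw [h1, nN_cast_int, Zsqrtd.norm_eq_mul_conj]

private lemma mc_nN_nat (p : ℕ) : nN (p : GaussianInt) = p ^ 2 := by
  unfold nN
  rw [Zsqrtd.norm_natCast, ← Nat.cast_mul, Int.natAbs_natCast, pow_two]

private lemma mc_exists {w : GaussianInt} (hw : Prime w) (m : ℕ) :
    m ≠ 0 → w ∣ (m : GaussianInt) → ∃ p : ℕ, p.Prime ∧ w ∣ (p : GaussianInt) := by
  induction m using induction_on_primes with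
  | zero => exact fun h => absurd rfl h
  | one =>
    intro _ h
    rw [Nat.cast_one] at h
    exact absurd (isUnit_of_dvd_one h) hw.not_isUnit
  | prime_mul p a hp ih =>
    intro h0 h
    rw [Nat.cast_mul] at h
    rcases hw.dvd_or_dvd h with h1 | h1
    · exact ⟨p, hp, h1⟩
    · exact ih (fun h2 => h0 (by rw [h2, mul_zero])) h1

private lemma mc_nN_dvd {z w : GaussianInt} (h : z ∣ w) : nN z ∣ nN w := by
  obtain ⟨c, rfl⟩ := h
  rw [nN_mul]
  exact dvd_mul_right _ _

private lemma mc_log_nonneg (w : GaussianInt) : 0 ≤ log (nN w) := by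
  rcases Nat.eq_zero_or_pos (nN w) with h | h
  · rw [h]
    simp
  · exact log_nonneg (by exact_mod_cast h)

open Classical in
private lemma mc_main {n p m : ℕ} (hp : p.Prime) (hn : n = p ^ m) :
    ∑ w ∈ prG n, ∑ j ∈ Finset.Icc 1 n, (if nN w ^ j = n then log (nN w) else 0) ≤
      8 * log p := by
  have hz : (p : GaussianInt) ≠ 0 := by
    rw [Ne, ← nN_eq_zero, mc_nN_nat]
    exact pow_ne_zero 2 hp.pos.ne'
  have hid := log_id (p : GaussianInt) hz
  rw [mc_nN_nat] at hid
  have h8 : 4 * log ((p ^ 2 : ℕ) : ℝ) = 8 * log p := by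
    push_cast
    rw [log_pow]
    push_cast
    ring
  rw [← h8, hid]
  -- the inner sums
  have h1 : ∀ w ∈ prG n, ∑ j ∈ Finset.Icc 1 n, (if nN w ^ j = n then log (nN w) else 0) ≤
      if w ∣ (p : GaussianInt) then log (nN w) else 0 := by
    intro w hw
    have hwp := (mem_prG.1 hw).2
    by_cases hex : ∃ j ∈ Finset.Icc 1 n, nN w ^ j = n
    · obtain ⟨j, hj, hjn⟩ := hex
      have hdv : w ∣ (p : GaussianInt) := by
        have h2 : w ∣ ((nN w : ℕ) : GaussianInt) := ⟨star w, (mc_mul_star w).symm⟩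
        have h3 : ((nN w : ℕ) : GaussianInt) ∣ (n : GaussianInt) := by
          rw [← hjn, Nat.cast_pow]
          exact dvd_pow_self _ (by have := (Finset.mem_Icc.1 hj).1; omega)
        have h4 := h2.trans h3
        rw [hn, Nat.cast_pow] at h4
        exact hwp.dvd_of_dvd_pow h4
      rw [if_pos hdv, Finset.sum_eq_single_of_mem j hj]
      · rw [if_pos hjn]
      · intro j' _ hne
        rw [if_neg]
        intro h
        rw [← hjn] at h
        exact hne (Nat.pow_right_injective (mc_two_le hwp) h)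
    · push Not at hex
      rw [Finset.sum_eq_zero fun j hj => if_neg (hex j hj)]
      split_ifs
      · exact mc_log_nonneg w
      · exact le_rfl
  refine (Finset.sum_le_sum h1).trans ?_
  rw [← Finset.sum_filter]
  have h2 : (prG n).filter (fun w => w ∣ (p : GaussianInt)) ⊆ prG (p ^ 2) := by
    intro w hw
    rw [Finset.mem_filter] at hw
    rw [mem_prG]
    refine ⟨?_, (mem_prG.1 hw.1).2⟩
    have h3 := mc_nN_dvd hw.2
    rw [mc_nN_nat] at h3
    exact Nat.le_of_dvd (pow_pos hp.pos 2) h3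
  have h4 : ∀ w ∈ prG (p ^ 2), (0 : ℝ) ≤ ∑ j ∈ Finset.Icc 1 (p ^ 2),
      (if w ^ j ∣ (p : GaussianInt) then log (nN w) else 0) := by
    intro w _
    refine Finset.sum_nonneg fun j _ => ?_
    split_ifs
    · exact mc_log_nonneg w
    · exact le_rfl
  refine (Finset.sum_le_sum (g := fun w => ∑ j ∈ Finset.Icc 1 (p ^ 2),
      (if w ^ j ∣ (p : GaussianInt) then log (nN w) else 0)) ?_).trans
    (Finset.sum_le_sum_of_subset_of_nonneg h2 fun w hw _ => h4 w hw)
  intro w hw
  rw [Finset.mem_filter] at hw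
  have h5 : (1 : ℕ) ∈ Finset.Icc 1 (p ^ 2) := by
    rw [Finset.mem_Icc]
    exact ⟨le_rfl, pow_pos hp.pos 2⟩
  have h6 := Finset.single_le_sum (f := fun j => if w ^ j ∣ (p : GaussianInt) then
    log (nN w) else 0) (fun j _ => by
      change 0 ≤ (if w ^ j ∣ (p : GaussianInt) then log (nN w) else 0)
      split_ifs
      · exact mc_log_nonneg w
      · exact le_rfl) h5
  have h7 : (if w ^ 1 ∣ (p : GaussianInt) then log (nN w) else 0) = log (nN w) := by
    rw [pow_one, if_pos hw.2]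
  exact h7.ge.trans h6

theorem norm_bG_le {g : GaussianInt → ℂ} (hg : GM g) (n : ℕ) :
    ‖bG g n‖ ≤ 2 * ArithmeticFunction.vonMangoldt n := by
  classical
  have h1 : ‖bG g n‖ ≤ 1 / 4 * ∑ w ∈ prG n, ∑ j ∈ Finset.Icc 1 n,
      (if nN w ^ j = n then log (nN w) else 0) := by
    unfold bG
    rw [norm_mul]
    have h2 : ‖(1 / 4 : ℂ)‖ = 1 / 4 := by
      rw [norm_div]
      simp
    rw [h2]
    refine mul_le_mul_of_nonneg_left ?_ (by norm_num)
    refine (norm_sum_le _ _).trans (Finset.sum_le_sum fun w hw => ?_)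
    refine (norm_sum_le _ _).trans (Finset.sum_le_sum fun j _ => ?_)
    split_ifs with h3
    · rw [norm_mul, norm_pow, Complex.norm_real, Real.norm_eq_abs,
        abs_of_nonneg (mc_log_nonneg w)]
      have h4 : ‖g w‖ ≤ 1 := hg.norm_le w (mem_prG.1 hw).2.ne_zero
      have h5 : ‖g w‖ ^ j ≤ 1 := pow_le_one₀ (norm_nonneg _) h4
      calc ‖g w‖ ^ j * log (nN w) ≤ 1 * log (nN w) :=
            mul_le_mul_of_nonneg_right h5 (mc_log_nonneg w)
        _ = log (nN w) := one_mul _
    · rw [norm_zero]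
  refine h1.trans ?_
  by_cases hex : ∃ w ∈ prG n, ∃ j ∈ Finset.Icc 1 n, nN w ^ j = n
  · obtain ⟨w, hw, j, hj, hjn⟩ := hex
    have hwp := (mem_prG.1 hw).2
    obtain ⟨p, hp, hwd⟩ := mc_exists hwp (nN w) (nN_pos hwp.ne_zero).ne'
      ⟨star w, (mc_mul_star w).symm⟩
    have h2 := mc_nN_dvd hwd
    rw [mc_nN_nat] at h2
    obtain ⟨k, hk, hk2⟩ := (Nat.dvd_prime_pow hp).1 h2
    have hk0 : k ≠ 0 := by
      rintro rfl
      rw [pow_zero] at hk2
      have := mc_two_le hwp
      omega
    have hj0 : j ≠ 0 := by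
      have := (Finset.mem_Icc.1 hj).1
      omega
    have hn : n = p ^ (k * j) := by rw [← hjn, hk2, pow_mul]
    have h3 := mc_main hp hn
    have h4 : ArithmeticFunction.vonMangoldt n = log p := by
      rw [hn, ArithmeticFunction.vonMangoldt_apply_pow (mul_ne_zero hk0 hj0),
        ArithmeticFunction.vonMangoldt_apply_prime hp]
    rw [h4]
    linarith
  · push Not at hex
    have h2 : ∑ w ∈ prG n, ∑ j ∈ Finset.Icc 1 n,
        (if nN w ^ j = n then log (nN w) else 0) = (0 : ℝ) :=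
      Finset.sum_eq_zero fun w hw => Finset.sum_eq_zero fun j hj => if_neg (hex w hw j hj)
    rw [h2, mul_zero]
    exact mul_nonneg (by norm_num) ArithmeticFunction.vonMangoldt_nonneg

private lemma mc_prime_of {w : GaussianInt} {p : ℕ} (hp : p.Prime) (h : nN w = p) :
    Prime w := by
  have hirr : Irreducible w := by
    constructor
    · intro hu
      rw [mc_nN_of_isUnit hu] at h
      exact Nat.not_prime_one (h ▸ hp)
    · intro a b hab
      rw [hab, nN_mul] at h
      rw [← h] at hp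
      rcases Nat.prime_mul_iff.1 hp with h3 | h3
      · exact Or.inr (mc_isUnit h3.2)
      · exact Or.inl (mc_isUnit h3.2)
  exact hirr.prime

/-- the open first quadrant -/
private def mcQ (w : GaussianInt) : Prop := 0 < w.re ∧ 0 < w.im

open Classical in
private lemma mc_rot {g : GaussianInt → ℂ} (hg : GM g) {p : ℕ} (hp : p.Prime)
    {u u' : GaussianInt} (huu : u * u' = 1) :
    ∑ w ∈ sph p, (if mcQ (u * w) then g w else 0) = ∑ w ∈ sph p, if mcQ w then g w else 0 := by
  have huu' : u' * u = 1 := by rw [mul_comm]; exact huu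
  have hu : IsUnit u := IsUnit.of_mul_eq_one _ huu
  have hu' : IsUnit u' := IsUnit.of_mul_eq_one _ huu'
  refine Finset.sum_nbij' (fun w => u * w) (fun w => u' * w) ?_ ?_ ?_ ?_ ?_
  · intro w hw
    rw [mem_sph] at hw ⊢
    rw [nN_mul, mc_nN_of_isUnit hu, one_mul, hw]
  · intro w hw
    rw [mem_sph] at hw ⊢
    rw [nN_mul, mc_nN_of_isUnit hu', one_mul, hw]
  · intro w _
    change u' * (u * w) = w
    rw [← mul_assoc, huu', one_mul]
  · intro w _
    change u * (u' * w) = w
    rw [← mul_assoc, huu, one_mul]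
  · intro w hw
    have h1 : g (u * w) = g w := by
      rw [hg.cm.mul u w hu.ne_zero (ne_zero_of_mem_sph hp.one_lt.le hw), hg.uni u hu, one_mul]
    change (if mcQ (u * w) then g w else 0) = if mcQ (u * w) then g (u * w) else 0
    rw [h1]

private lemma mc_not_sq {p : ℕ} (hp : p.Prime) (b : ℤ) (h : (p : ℤ) = b * b) : False := by
  have h1 : p = b.natAbs * b.natAbs := by
    zify
    rw [abs_mul_abs_self]
    exact h
  rw [h1] at hp
  rcases Nat.prime_mul_iff.1 hp with h2 | h2
  · rw [h2.2] at h2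
    exact Nat.not_prime_one h2.1
  · rw [h2.2] at h2
    exact Nat.not_prime_one h2.1

open Classical in
private lemma mc_split {g : GaussianInt → ℂ} {p : ℕ} (hp : p.Prime) {w : GaussianInt}
    (hw : w ∈ sph p) : g w = (if mcQ (1 * w) then g w else 0) +
      (if mcQ (gI * w) then g w else 0) + (if mcQ (-1 * w) then g w else 0) +
        (if mcQ (-gI * w) then g w else 0) := by
  rw [mem_sph] at hw
  have h0 := nN_cast_int w
  rw [hw, Zsqrtd.norm_def] at h0
  have ha : w.re ≠ 0 := fun h => mc_not_sq hp w.im (by rw [h0, h]; ring)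
  have hb : w.im ≠ 0 := fun h => mc_not_sq hp w.re (by rw [h0, h]; ring)
  have e1 : mcQ (1 * w) ↔ 0 < w.re ∧ 0 < w.im := by rw [one_mul]; rfl
  have e2 : mcQ (gI * w) ↔ w.im < 0 ∧ 0 < w.re := by
    unfold mcQ gI
    simp [Zsqrtd.re_mul, Zsqrtd.im_mul]
  have e3 : mcQ (-1 * w) ↔ w.re < 0 ∧ w.im < 0 := by
    unfold mcQ
    simp
  have e4 : mcQ (-gI * w) ↔ 0 < w.im ∧ w.re < 0 := by
    unfold mcQ gI
    simp [Zsqrtd.re_mul, Zsqrtd.im_mul]
  rcases lt_or_gt_of_ne ha with h1 | h1 <;> rcases lt_or_gt_of_ne hb with h2 | h2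
  · rw [if_neg (fun h => (e1.1 h).1.not_gt h1), if_neg (fun h => (e2.1 h).2.not_gt h1),
      if_pos (e3.2 ⟨h1, h2⟩), if_neg (fun h => (e4.1 h).1.not_gt h2)]
    ring
  · rw [if_neg (fun h => (e1.1 h).1.not_gt h1), if_neg (fun h => (e2.1 h).1.not_gt h2),
      if_neg (fun h => (e3.1 h).2.not_gt h2), if_pos (e4.2 ⟨h2, h1⟩)]
    ring
  · rw [if_neg (fun h => (e1.1 h).2.not_gt h2), if_pos (e2.2 ⟨h2, h1⟩),
      if_neg (fun h => (e3.1 h).1.not_gt h1), if_neg (fun h => (e4.1 h).1.not_gt h2)]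
    ring
  · rw [if_pos (e1.2 ⟨h1, h2⟩), if_neg (fun h => (e2.1 h).1.not_gt h2),
      if_neg (fun h => (e3.1 h).1.not_gt h1), if_neg (fun h => (e4.1 h).2.not_gt h1)]
    ring

theorem bG_prime {g : GaussianInt → ℂ} (hg : GM g) {p : ℕ} (hp : p.Prime) (h2 : p ≠ 2) :
    bG g p = ((log p : ℝ) : ℂ) * bP g p := by
  classical
  have h3 : 2 < p := lt_of_le_of_ne hp.two_le (Ne.symm h2)
  -- the sum over the prime elements is the sum over the sphere
  have h4 : ∑ w ∈ prG p, ∑ j ∈ Finset.Icc 1 p,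
      (if nN w ^ j = p then g w ^ j * ((log (nN w) : ℝ) : ℂ) else 0) =
      ∑ w ∈ sph p, g w * ((log p : ℝ) : ℂ) := by
    have h5 : ∀ w ∈ prG p, ∑ j ∈ Finset.Icc 1 p,
        (if nN w ^ j = p then g w ^ j * ((log (nN w) : ℝ) : ℂ) else 0) =
        if nN w = p then g w * ((log p : ℝ) : ℂ) else 0 := by
      intro w hw
      have h6 : ∀ j ∈ Finset.Icc 1 p, j ≠ 1 →
          (if nN w ^ j = p then g w ^ j * ((log (nN w) : ℝ) : ℂ) else 0) = 0 := by
        intro j hj hj1
        rw [if_neg]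
        intro h
        rw [← h] at hp
        exact hj1 (Nat.Prime.eq_one_of_pow hp)
      rw [Finset.sum_eq_single_of_mem 1
        (Finset.mem_Icc.2 ⟨le_rfl, hp.one_lt.le⟩) h6, pow_one, pow_one]
      split_ifs with h7
      · rw [h7]
      · rfl
    rw [Finset.sum_congr rfl h5, ← Finset.sum_filter]
    refine Finset.sum_congr ?_ fun _ _ => rfl
    ext w
    rw [Finset.mem_filter, mem_prG, mem_sph]
    constructor
    · exact fun h => h.2
    · exact fun h => ⟨⟨h.le, mc_prime_of hp h⟩, h⟩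
  have h8 : ∑ w ∈ sph p, g w = 4 * bP g p := by
    have e0 : ∑ w ∈ sph p, (if mcQ w then g w else 0) = bP g p := by
      unfold bP sphP
      rw [← Finset.sum_filter]
      refine Finset.sum_congr ?_ fun _ _ => rfl
      ext w
      rw [Finset.mem_filter, Finset.mem_filter, mem_sph]
      constructor
      · rintro ⟨h5, h6⟩
        refine ⟨h5, h6.1, h6.2, ?_, ?_⟩
        · rw [h5]; exact hp
        · rw [h5]; exact h3
      · rintro ⟨h5, h6⟩
        exact ⟨h5, h6.1, h6.2.1⟩
    have hI : gI * -gI = 1 := by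
      unfold gI
      ext <;> simp [Zsqrtd.re_mul, Zsqrtd.im_mul]
    have hI' : -gI * gI = 1 := by rw [mul_comm]; exact hI
    rw [Finset.sum_congr rfl fun w hw => mc_split (g := g) hp hw, Finset.sum_add_distrib,
      Finset.sum_add_distrib, Finset.sum_add_distrib, mc_rot hg hp (one_mul 1),
      mc_rot hg hp hI, mc_rot hg hp (by norm_num : (-1 : GaussianInt) * -1 = 1),
      mc_rot hg hp hI', e0]
    ring
  unfold bG
  rw [h4, ← Finset.sum_mul, h8]
  ring

theorem GM_HP {g : GaussianInt → ℂ} (hg : GM g) : HP (aG g) (bG g) :=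
  ⟨fun n hn => conv_id hg n hn, fun n => norm_bG_le hg n, fun _ hn => norm_aG_le hg.norm_le hn⟩

/-- value at `1` -/
theorem aG_one {g : GaussianInt → ℂ} (hg : GM g) : aG g 1 = 4 := by
  unfold aG
  have h1 : ∀ z ∈ sph 1, g z = 1 := fun z hz => hg.uni z (mc_isUnit (mem_sph.1 hz))
  rw [Finset.sum_congr rfl h1, Finset.sum_const]
  have h2 : (sph 1).card = 4 := by
    rw [sph_one]
    decide
  rw [h2]
  simp

end Pool.Agent.LogCh.HG
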