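import Pool.Agent.Lib.LogCh.HLs
import Pool.Agent.Lib.LogCh.HMc

/-!
# HNp: `log |L|` is the sum over primes up to a bounded error

PROOF.  By `LSeries_exp` (for `GM_HP hg`) and `aG_one`,
`‖LSeries (aG g) s‖ = 4 exp (re LSeries c s)`, `c n = bG g n / log n`.  The L-series of `c` and of
`bP g` both converge absolutely for `1 < re s` (bounded coefficients, `norm_bP_le`,
`LSeriesSummable_of_bounded_of_one_lt_re`).  For `n` an odd prime `c n = bP g n` (`bG_prime`);
for `n = 2`: `‖c 2‖ ≤ 2`, `bP g 2 = 0` (`sphP_two`); for `n` not prime: `bP g n = 0`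
(`sphP_eq_empty`), `‖c n‖ ≤ 2 Λ n / log n ≤ 2 Λ n / log 2` (`n ≥ 2`; zero for `n ≤ 1`).  Hence
`|re LSeries c s - re LSeries (bP g) s| ≤ 1 + ∑_{n not prime} (2 / log 2) Λ n / n =: C1`, because
`|n ^ (-s)| = n ^ (- re s) ≤ 1 / n`; the series `∑_{n not prime} Λ n / n` converges by Mathlib's
`ArithmeticFunction.vonMangoldt.summable_residueClass_non_primes_div` with `q = 1` (there
`residueClass a n = Λ n` for `ZMod 1`).  So `C = 4 exp C1` works in both theorems.
-/

set_option autoImplicit false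

namespace Pool.Agent.LogCh.HG

open Real
open Pool.Agent.NSqP

private lemma hnp_log_ge {n : ℕ} (hn : 2 ≤ n) : log 2 ≤ log n :=
  Real.log_le_log (by norm_num) (by exact_mod_cast hn)

private lemma hnp_norm_c {g : GaussianInt → ℂ} (hg : GM g) {n : ℕ} (hn : 2 ≤ n) :
    ‖bG g n / ((log n : ℝ) : ℂ)‖ ≤ 2 * ArithmeticFunction.vonMangoldt n / log n := by
  have h2 : 0 < log 2 := Real.log_pos (by norm_num)
  have hl : 0 < log n := h2.trans_le (hnp_log_ge hn)
  rw [norm_div, Complex.norm_real, Real.norm_eq_abs, abs_of_pos hl]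
  exact div_le_div_of_nonneg_right (norm_bG_le hg n) hl.le

private lemma hnp_c_one (g : GaussianInt → ℂ) : bG g 1 / ((log (1 : ℕ) : ℝ) : ℂ) = 0 := by
  simp

private lemma hnp_c_le {g : GaussianInt → ℂ} (hg : GM g) {n : ℕ} (hn : n ≠ 0) :
    ‖bG g n / ((log n : ℝ) : ℂ)‖ ≤ 2 := by
  rcases Nat.lt_or_ge n 2 with h | h
  · have : n = 1 := by omega
    subst this
    rw [hnp_c_one, norm_zero]
    norm_num
  · refine (hnp_norm_c hg h).trans ?_
    have h2 : 0 < log 2 := Real.log_pos (by norm_num)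
    have hl : 0 < log n := h2.trans_le (hnp_log_ge h)
    rw [div_le_iff₀ hl]
    have := ArithmeticFunction.vonMangoldt_le_log (n := n)
    linarith

private noncomputable def hnpD (n : ℕ) : ℝ :=
  (2 / log 2) * ((if n.Prime then 0 else
    ArithmeticFunction.vonMangoldt.residueClass (0 : ZMod 1) n) / n) + (if n = 2 then 1 else 0)

private lemma hnpD_summable : Summable hnpD := by
  unfold hnpD
  refine Summable.add ?_ ?_
  · exact (ArithmeticFunction.vonMangoldt.summable_residueClass_non_primes_div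
      (0 : ZMod 1)).mul_left _
  · exact (hasSum_ite_eq (2 : ℕ) (1 : ℝ)).summable

private lemma hnp_rc (n : ℕ) : ArithmeticFunction.vonMangoldt.residueClass (0 : ZMod 1) n =
    ArithmeticFunction.vonMangoldt n := by
  unfold ArithmeticFunction.vonMangoldt.residueClass
  rw [Set.indicator_of_mem]
  exact Subsingleton.elim _ _

private lemma hnp_term {g : GaussianInt → ℂ} (hg : GM g) {s : ℂ} (hs : 1 < s.re) (n : ℕ) :
    ‖LSeries.term ((fun n => bG g n / ((log n : ℝ) : ℂ)) - bP g) s n‖ ≤ hnpD n := by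
  have h2 : 0 < log 2 := Real.log_pos (by norm_num)
  have hL : 0 ≤ ArithmeticFunction.vonMangoldt n := ArithmeticFunction.vonMangoldt_nonneg
  rcases Nat.eq_zero_or_pos n with rfl | hn
  · rw [LSeries.term_zero, norm_zero]
    unfold hnpD
    simp
  have hn1 : (1 : ℝ) ≤ n := by exact_mod_cast hn
  have hn0 : (0 : ℝ) < n := by exact_mod_cast hn
  have hD0 : 0 ≤ hnpD n := by
    unfold hnpD
    rw [hnp_rc]
    refine add_nonneg (mul_nonneg (by positivity) (div_nonneg ?_ hn0.le)) ?_
    · split_ifs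
      · exact le_rfl
      · exact hL
    · split_ifs
      · exact zero_le_one
      · exact le_rfl
  have hterm : ‖LSeries.term ((fun n => bG g n / ((log n : ℝ) : ℂ)) - bP g) s n‖ ≤
      ‖bG g n / ((log n : ℝ) : ℂ) - bP g n‖ / n := by
    rw [LSeries.norm_term_eq, if_neg hn.ne']
    simp only [Pi.sub_apply]
    apply div_le_div_of_nonneg_left (norm_nonneg _) hn0
    calc (n : ℝ) = (n : ℝ) ^ (1 : ℝ) := (Real.rpow_one _).symm
      _ ≤ (n : ℝ) ^ s.re := Real.rpow_le_rpow_of_exponent_le hn1 hs.le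
  refine hterm.trans ?_
  by_cases hp : n.Prime
  · by_cases h : n = 2
    · subst h
      have hb : bP g 2 = 0 := by
        unfold bP; rw [sphP_two, Finset.sum_empty]
      rw [hb, sub_zero]
      have h3 := hnp_c_le hg (n := 2) (by norm_num)
      unfold hnpD
      rw [if_pos hp, if_pos rfl]
      push_cast at h3 ⊢
      linarith
    · have hl : 0 < log n := h2.trans_le (hnp_log_ge hp.two_le)
      have hlc : ((log n : ℝ) : ℂ) ≠ 0 := by exact_mod_cast hl.ne'
      rw [bG_prime hg hp h, mul_comm, mul_div_assoc, div_self hlc, mul_one, sub_self, norm_zero,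
        zero_div]
      exact hD0
  · have hb : bP g n = 0 := by
      unfold bP; rw [sphP_eq_empty hp, Finset.sum_empty]
    rw [hb, sub_zero]
    rcases Nat.lt_or_ge n 2 with h | h
    · have : n = 1 := by omega
      subst this
      rw [hnp_c_one, norm_zero, zero_div]
      exact hD0
    · unfold hnpD
      rw [if_neg hp, hnp_rc]
      have h4 : ‖bG g n / ((log n : ℝ) : ℂ)‖ ≤ 2 / log 2 * ArithmeticFunction.vonMangoldt n := by
        refine (hnp_norm_c hg h).trans ?_
        rw [div_mul_eq_mul_div]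
        exact div_le_div_of_nonneg_left (by positivity) h2 (hnp_log_ge h)
      have h5 : (0 : ℝ) ≤ (if n = 2 then 1 else 0) := by
        split_ifs
        · exact zero_le_one
        · exact le_rfl
      calc ‖bG g n / ((log n : ℝ) : ℂ)‖ / n ≤ 2 / log 2 * ArithmeticFunction.vonMangoldt n / n :=
            div_le_div_of_nonneg_right h4 hn0.le
        _ = 2 / log 2 * (ArithmeticFunction.vonMangoldt n / n) := by ring
        _ ≤ _ := le_add_of_nonneg_right h5

private lemma hnp_key : ∃ C1 : ℝ, ∀ g : GaussianInt → ℂ, GM g → ∀ s : ℂ, 1 < s.re →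
    |(LSeries (fun n => bG g n / ((log n : ℝ) : ℂ)) s).re - (LSeries (bP g) s).re| ≤ C1 := by
  refine ⟨∑' n, hnpD n, fun g hg s hs => ?_⟩
  have h1 : LSeriesSummable (fun n => bG g n / ((log n : ℝ) : ℂ)) s :=
    LSeriesSummable_of_bounded_of_one_lt_re (m := 2) (fun n hn => hnp_c_le hg hn) hs
  have h2 : LSeriesSummable (bP g) s :=
    LSeriesSummable_of_bounded_of_one_lt_re (m := 2)
      (fun n _ => norm_bP_le (fun z hz => hg.norm_le z hz.ne_zero) n) hs
  have h3 := LSeries_sub h1 h2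
  rw [← Complex.sub_re, ← h3]
  refine (Complex.abs_re_le_norm _).trans ?_
  exact tsum_of_norm_bounded hnpD_summable.hasSum (hnp_term hg hs)

private lemma hnp_norm {g : GaussianInt → ℂ} (hg : GM g) {s : ℂ} (hs : 1 < s.re) :
    ‖LSeries (aG g) s‖ = 4 * exp ((LSeries (fun n => bG g n / ((log n : ℝ) : ℂ)) s).re) := by
  rw [LSeries_exp (GM_HP hg) hs, aG_one hg, norm_mul, Complex.norm_exp]
  norm_num

theorem LB1 : ∃ C : ℝ, 0 < C ∧ ∀ g : GaussianInt → ℂ, GM g → ∀ s : ℂ, 1 < s.re →
    ‖LSeries (aG g) s‖ ≤ C * exp ((LSeries (bP g) s).re) := by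
  obtain ⟨C1, h⟩ := hnp_key
  refine ⟨4 * exp C1, by positivity, fun g hg s hs => ?_⟩
  rw [hnp_norm hg hs, mul_assoc, ← Real.exp_add]
  apply mul_le_mul_of_nonneg_left _ (by norm_num)
  apply Real.exp_le_exp.2
  have := (abs_le.1 (h g hg s hs)).2
  linarith

theorem LB2 : ∃ C : ℝ, 0 < C ∧ ∀ g : GaussianInt → ℂ, GM g → ∀ s : ℂ, 1 < s.re →
    exp ((LSeries (bP g) s).re) ≤ C * ‖LSeries (aG g) s‖ := by
  obtain ⟨C1, h⟩ := hnp_key
  refine ⟨exp C1, by positivity, fun g hg s hs => ?_⟩
  rw [hnp_norm hg hs]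
  set x := (LSeries (fun n => bG g n / ((log n : ℝ) : ℂ)) s).re with hx
  have h1 := (abs_le.1 (h g hg s hs)).1
  have h2 : exp ((LSeries (bP g) s).re) ≤ exp (C1 + x) := Real.exp_le_exp.2 (by linarith)
  rw [Real.exp_add] at h2
  refine h2.trans ?_
  have h3 : 0 < exp C1 * exp x := by positivity
  nlinarith

end Pool.Agent.LogCh.HG
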