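import Pool.Agent.Lib.LogCh.HPs

/-!
# HOn: the Dedekind zeta function of `Z[i]` near the line `re s = 1`

Here `aG (fun _ => 1) n = r2 n` (as a complex number).

PROOF of `L1_real`.  Upper bound: `sum_sigma` with `f = r2` (`r2_sum_le`), since
`‖LSeries (aG 1) σ‖ ≤ ∑ r2 n / n ^ σ`.  Lower bound: the L-series is the nonnegative real number
`∑ r2 n / n ^ σ ≥ r2 1 = 4`.  By `PS` (or `LSeries_eq_mul_integral_of_nonneg`) with `U = 1`:
`= 4 + σ ∫_1^∞ (∑_{1<k≤t} r2 k) t ^ (-σ-1) dt ≥ σ ∫_1^∞ (π (t - 1) - C (√t + 1)) t ^ (-σ-1) dt ≥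
π / (σ-1) - π - 3 C ≥ 1 / (σ-1)` if `σ - 1 ≤ c0 := 2 / (π + 3 C)`
(`∫_1^∞ t ^ (-σ) = 1/(σ-1)`, `∫_1^∞ t^(-σ-1) = 1/σ`, `∫_1^∞ t^(1/2-σ-1) ≤ 2`); for `σ - 1 ≥ c0` use
`≥ 4 ≥ 4 c0 / (σ-1)`.  (An alternative for the lower bound: dyadic, from
`∑_{2^k < n ≤ 2^(k+1)} r2 n ≥ π 2^k - C (2^((k+1)/2) + 1) ≥ 2^k` for `k ≥ k0`.)

PROOF of `L1_imag`.  Put `s = σ + i τ`, `U = ⌈|τ| ^ 2⌉ + 1` (natural number, `1 ≤ U`,
`|τ| ^ 2 ≤ U ≤ |τ| ^ 2 + 2 ≤ (2 + |τ|) ^ 2`).  `PS` and `PS1`: finite part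
`≤ C (1 + log U) ≤ C' log (2 + |τ|)` (`log (2+|τ|) ≥ log 2`).
The integral: `∑_{U<k≤t} r2 k = π (t - U) + E t`, `|E t| ≤ C (√t + 1) ≤ 2 C √t` for `t ≥ U`
(`r2_asymp` with `u = U`, `v = t`; `⌊(U:ℝ)⌋₊ = U`).  Main term: `s ∫_U^∞ π (t - U) t ^ (-s-1) dt =
π U ^ (1-s) / (s-1)` (`integral_Ioi_cpow_of_lt`), of absolute value `≤ π / |τ|`.  Error:
`|s| ∫_U^∞ 2 C t ^ (1/2 - σ - 1) dt ≤ 2 C |s| ∫_U^∞ t ^ (-3/2) dt = 4 C |s| / √U ≤
4 C (2 + |τ|) / max 1 |τ| ≤ 12 C` (`|s| ≤ 2 + |τ|`).  Total `≤ C'' (1/|τ| + log (2+|τ|))`.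
-/

set_option autoImplicit false

namespace Pool.Agent.LogCh.HG

open Real
open Pool.Agent.NSqP

private lemma aG_one (n : ℕ) : aG (fun _ => 1) n = ((r2 n : ℝ) : ℂ) := by
  simp [aG, r2]

private lemma LS_eq {σ : ℝ} (hσ : 1 < σ) : LSeries (aG (fun _ => 1)) (σ : ℂ) =
    ((∑' n : ℕ, r2 n / (n : ℝ) ^ σ : ℝ) : ℂ) := by
  rw [LSeries, Complex.ofReal_tsum]
  refine tsum_congr (fun n => ?_)
  rcases eq_or_ne n 0 with rfl | hn
  · rw [LSeries.term_zero, Nat.cast_zero, Real.zero_rpow (by linarith)]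
    simp
  · rw [LSeries.term_of_ne_zero hn, aG_one, Complex.ofReal_div, Complex.ofReal_cpow (Nat.cast_nonneg n)]
    norm_cast

private lemma one_le_r2_one : 1 ≤ r2 1 := by
  unfold r2
  have h : (1 : GaussianInt) ∈ sph 1 := by
    rw [mem_sph]
    unfold nN
    simp
  have h2 : 0 < (sph 1).card := Finset.card_pos.2 ⟨_, h⟩
  exact_mod_cast h2

theorem L1_real : ∃ C : ℝ, 0 < C ∧ ∀ σ : ℝ, 1 < σ → σ ≤ 2 →
    1 / (C * (σ - 1)) ≤ ‖LSeries (aG (fun _ => 1)) (σ : ℂ)‖ ∧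
      ‖LSeries (aG (fun _ => 1)) (σ : ℂ)‖ ≤ C / (σ - 1) := by
  obtain ⟨B, hB, hB'⟩ := r2_sum_le
  -- the limit
  have hlim : Filter.Tendsto (fun n : ℕ => (∑ k ∈ Finset.Icc 1 n, aG (fun _ => 1) k) / (n : ℂ))
      Filter.atTop (nhds (π : ℂ)) := by
    obtain ⟨C, hC, hC'⟩ := r2_asymp
    rw [tendsto_iff_norm_sub_tendsto_zero]
    have h1 : ∀ n : ℕ, 1 ≤ n →
        ‖(∑ k ∈ Finset.Icc 1 n, aG (fun _ => 1) k) / (n : ℂ) - (π : ℂ)‖ ≤ 2 * C / √n := by
      intro n hn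
      have hn0 : (0 : ℝ) < n := by exact_mod_cast hn
      have h2 := hC' 0 n le_rfl hn0.le
      rw [Nat.floor_zero, Nat.floor_natCast, sub_zero] at h2
      have h3 : (∑ k ∈ Finset.Icc 1 n, aG (fun _ => 1) k) / (n : ℂ) - (π : ℂ) =
          (((∑ k ∈ Finset.Ioc 0 n, r2 k - π * n) / n : ℝ) : ℂ) := by
        have h4 : Finset.Icc 1 n = Finset.Ioc 0 n := rfl
        rw [h4, Finset.sum_congr rfl (fun k _ => aG_one k)]
        have hn' : (n : ℂ) ≠ 0 := by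
          exact_mod_cast (by omega : n ≠ 0)
        push_cast
        rw [sub_div, mul_div_assoc, div_self hn', mul_one]
      rw [h3, Complex.norm_real, norm_div, Real.norm_eq_abs, Real.norm_eq_abs, abs_of_pos hn0,
        div_le_div_iff₀ hn0 (Real.sqrt_pos.2 hn0)]
      have h5 : 1 ≤ √(n : ℝ) := Real.one_le_sqrt.2 (by exact_mod_cast hn)
      have h6 : √(n : ℝ) * √(n : ℝ) = n := Real.mul_self_sqrt hn0.le
      calc |∑ k ∈ Finset.Ioc 0 n, r2 k - π * n| * √n ≤ (C * (√n + 1)) * √n := by gcongr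
        _ ≤ (C * (√n + √n)) * √n := by gcongr
        _ = 2 * C * (√(n : ℝ) * √(n : ℝ)) := by ring
        _ = 2 * C * n := by rw [h6]
    have h2 : Filter.Tendsto (fun n : ℕ => 2 * C / √(n : ℝ)) Filter.atTop (nhds 0) :=
      Filter.Tendsto.const_div_atTop
        (Real.tendsto_sqrt_atTop.comp tendsto_natCast_atTop_atTop) _
    refine squeeze_zero' (Filter.Eventually.of_forall (fun n => norm_nonneg _)) ?_ h2
    filter_upwards [Filter.eventually_ge_atTop 1] with n hn using h1 n hn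
  have hsum : ∀ s : ℝ, 1 < s → LSeriesSummable (aG (fun _ => 1)) s := by
    intro s hs
    refine summable_of_le_r2 (fun n _ => ?_) (by simpa using hs)
    rw [aG_one, Complex.norm_real, Real.norm_of_nonneg (r2_nonneg n)]
  have hT := LSeries_tendsto_sub_mul_nhds_one_of_tendsto_sum_div hlim hsum
  have hev : ∀ᶠ s : ℝ in nhdsWithin 1 (Set.Ioi 1),
      1 < ‖((s : ℂ) - 1) * LSeries (aG (fun _ => 1)) s‖ := by
    have h1 := hT.norm
    rw [Complex.norm_real, Real.norm_of_nonneg Real.pi_pos.le] at h1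
    exact h1.eventually (lt_mem_nhds (by linarith [Real.pi_gt_three]))
  rw [eventually_nhdsWithin_iff, Metric.eventually_nhds_iff] at hev
  obtain ⟨δ, hδ, hδ'⟩ := hev
  refine ⟨4 * B + 1 + 1 / δ, by positivity, fun σ h1 h2 => ?_⟩
  have hσ0 : 0 < σ - 1 := by linarith
  obtain ⟨h3, h4⟩ := sum_sigma r2_nonneg (fun t ht => hB' t (by linarith)) h1 h2
  have h5 : 0 ≤ ∑' n : ℕ, r2 n / (n : ℝ) ^ σ :=
    tsum_nonneg (fun n => div_nonneg (r2_nonneg n) (by positivity))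
  have hnorm : ‖LSeries (aG (fun _ => 1)) (σ : ℂ)‖ = ∑' n : ℕ, r2 n / (n : ℝ) ^ σ := by
    rw [LS_eq h1, Complex.norm_real, Real.norm_of_nonneg h5]
  constructor
  · by_cases h6 : σ - 1 < δ
    · have h7 := hδ' (y := σ) (by rw [Real.dist_eq, abs_of_pos hσ0]; exact h6) h1
      rw [norm_mul] at h7
      have h8 : ‖(σ : ℂ) - 1‖ = σ - 1 := by
        rw [← Complex.ofReal_one, ← Complex.ofReal_sub, Complex.norm_real,
          Real.norm_of_nonneg hσ0.le]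
      rw [h8] at h7
      rw [div_le_iff₀ (by positivity)]
      have h9 : 0 ≤ ‖LSeries (aG (fun _ => 1)) (σ : ℂ)‖ := norm_nonneg _
      have h10 : 0 ≤ 4 * B + 1 / δ := by positivity
      nlinarith [mul_nonneg (mul_nonneg h10 hσ0.le) h9]
    · push Not at h6
      have h7 : 1 ≤ ‖LSeries (aG (fun _ => 1)) (σ : ℂ)‖ := by
        rw [hnorm]
        have h8 := h3.le_tsum 1 (fun n _ => div_nonneg (r2_nonneg n) (by positivity))
        rw [Nat.cast_one, Real.one_rpow, div_one] at h8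
        exact one_le_r2_one.trans h8
      refine le_trans ?_ h7
      rw [div_le_one (by positivity)]
      have h8 : 1 ≤ 1 / δ * (σ - 1) := by
        rw [div_mul_eq_mul_div, one_mul, le_div_iff₀ hδ, one_mul]
        exact h6
      nlinarith
  · rw [hnorm]
    refine h4.trans ?_
    gcongr
    have : 0 < 1 / δ := by positivity
    linarith

theorem L1_imag : ∃ C : ℝ, 0 < C ∧ ∀ σ τ : ℝ, 1 < σ → σ ≤ 2 → τ ≠ 0 →
    ‖LSeries (aG (fun _ => 1)) ((σ : ℂ) + (τ : ℂ) * Complex.I)‖ ≤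
      C * (1 / |τ| + log (2 + |τ|)) := by
  obtain ⟨C, hC, hC'⟩ := r2_asymp
  obtain ⟨C1, hC1, hC1'⟩ := PS1
  refine ⟨π + 24 * C + 4 * C1, by positivity, fun σ τ h1 h2 hτ => ?_⟩
  set s : ℂ := (σ : ℂ) + (τ : ℂ) * Complex.I with hs
  have hre : s.re = σ := by simp [hs]
  have him : s.im = τ := by simp [hs]
  have hτ0 : 0 < |τ| := abs_pos.2 hτ
  have ha : ∀ n : ℕ, 1 ≤ n → ‖aG (fun _ => 1) n‖ ≤ r2 n := by
    intro n _
    rw [aG_one, Complex.norm_real, Real.norm_of_nonneg (r2_nonneg n)]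
  set U : ℕ := ⌈τ ^ 2⌉₊ + 1 with hU
  have hU1 : 1 ≤ U := by omega
  have hUlow : τ ^ 2 + 1 ≤ (U : ℝ) := by
    rw [hU]; push_cast
    linarith [Nat.le_ceil (τ ^ 2)]
  have hUup : (U : ℝ) ≤ τ ^ 2 + 2 := by
    rw [hU]; push_cast
    linarith [Nat.ceil_lt_add_one (sq_nonneg τ)]
  have hUpos : (0 : ℝ) < U := by linarith [sq_nonneg τ]
  have hU1' : (1 : ℝ) ≤ U := by exact_mod_cast hU1
  have hre1 : 1 < s.re := by rw [hre]; exact h1
  have hs0 : s ≠ 0 := by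
    intro h0; rw [h0] at hre; simp at hre; linarith
  have hs1 : s - 1 ≠ 0 := by
    intro h0
    have : (s - 1).im = 0 := by rw [h0]; simp
    rw [Complex.sub_im, him, Complex.one_im, sub_zero] at this
    exact hτ this
  -- the decomposition
  set S : ℝ → ℂ := fun t => ∑ k ∈ Finset.Ioc U ⌊t⌋₊, aG (fun _ => 1) k with hS
  set g : ℝ → ℂ := fun t => (π : ℂ) * (t : ℂ) ^ (-s) - (π * U : ℂ) * (t : ℂ) ^ (-(s + 1)) with hg
  have hg' : ∀ t : ℝ, 0 < t → g t = ((π * (t - U) : ℝ) : ℂ) * (t : ℂ) ^ (-(s + 1)) := by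
    intro t ht
    have ht0 : (t : ℂ) ≠ 0 := by exact_mod_cast ht.ne'
    have h3 : (t : ℂ) ^ (-s) = (t : ℂ) * (t : ℂ) ^ (-(s + 1)) := by
      rw [show -s = 1 + -(s + 1) by ring, Complex.cpow_add _ _ ht0, Complex.cpow_one]
    rw [hg]; simp only
    rw [h3]; push_cast; ring
  have hi1 : MeasureTheory.IntegrableOn (fun t : ℝ => (t : ℂ) ^ (-s)) (Set.Ioi (U : ℝ)) :=
    integrableOn_Ioi_cpow_of_lt (by rw [Complex.neg_re, hre]; linarith) hUpos
  have hi2 : MeasureTheory.IntegrableOn (fun t : ℝ => (t : ℂ) ^ (-(s + 1))) (Set.Ioi (U : ℝ)) :=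
    integrableOn_Ioi_cpow_of_lt (by
      rw [Complex.neg_re, Complex.add_re, hre, Complex.one_re]; linarith) hUpos
  have hgi : MeasureTheory.IntegrableOn g (Set.Ioi (U : ℝ)) :=
    (hi1.const_mul _).sub (hi2.const_mul _)
  have hgint : ∫ t in Set.Ioi (U : ℝ), g t = (π : ℂ) * ((U : ℂ) ^ (1 - s)) / (s * (s - 1)) := by
    have h3 : ∫ t in Set.Ioi (U : ℝ), (t : ℂ) ^ (-s) = (U : ℂ) ^ (1 - s) / (s - 1) := by
      rw [integral_Ioi_cpow_of_lt (by rw [Complex.neg_re, hre]; linarith) hUpos,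
        show -s + 1 = 1 - s by ring, show (1 : ℂ) - s = -(s - 1) by ring, neg_div_neg_eq]
      norm_cast
    have h4 : ∫ t in Set.Ioi (U : ℝ), (t : ℂ) ^ (-(s + 1)) = (U : ℂ) ^ (-s) / s := by
      rw [integral_Ioi_cpow_of_lt (by
        rw [Complex.neg_re, Complex.add_re, hre, Complex.one_re]; linarith) hUpos,
        show -(s + 1) + 1 = -s by ring, neg_div_neg_eq]
      norm_cast
    have hU0 : (U : ℂ) ≠ 0 := by exact_mod_cast (by omega : U ≠ 0)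
    have h5 : (U : ℂ) * (U : ℂ) ^ (-s) = (U : ℂ) ^ (1 - s) := by
      rw [show (1 : ℂ) - s = 1 + -s by ring, Complex.cpow_add _ _ hU0, Complex.cpow_one]
    rw [hg, MeasureTheory.integral_sub (hi1.const_mul _) (hi2.const_mul _),
      MeasureTheory.integral_const_mul, MeasureTheory.integral_const_mul, h3, h4, ← h5]
    field_simp
    ring
  -- the error term
  set E : ℝ → ℂ := fun t => (S t - ((π * (t - U) : ℝ) : ℂ)) * (t : ℂ) ^ (-(s + 1)) with hE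
  have hEb : ∀ t ∈ Set.Ioi (U : ℝ), ‖E t‖ ≤ 2 * C * t ^ (-(3 / 2) : ℝ) := by
    intro t ht
    have ht' : (U : ℝ) < t := ht
    have ht0 : 0 < t := hUpos.trans ht'
    have h3 := hC' (U : ℝ) t hUpos.le ht'.le
    rw [Nat.floor_natCast] at h3
    have h4 : S t - ((π * (t - U) : ℝ) : ℂ) =
        ((∑ n ∈ Finset.Ioc U ⌊t⌋₊, r2 n - π * (t - U) : ℝ) : ℂ) := by
      rw [hS]; simp only
      rw [Finset.sum_congr rfl (fun k _ => aG_one k)]
      push_cast; ring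
    rw [hE]; simp only
    rw [norm_mul, h4, Complex.norm_real, Real.norm_eq_abs,
      Complex.norm_cpow_eq_rpow_re_of_pos ht0]
    have h5 : (-(s + 1)).re = -σ - 1 := by
      rw [Complex.neg_re, Complex.add_re, hre, Complex.one_re]; ring
    rw [h5]
    have h6 : 1 ≤ √t := Real.one_le_sqrt.2 (by linarith)
    have h7 : t ^ (-σ - 1) ≤ t ^ (-2 : ℝ) :=
      Real.rpow_le_rpow_of_exponent_le (by linarith) (by linarith)
    have h8 : √t * t ^ (-2 : ℝ) = t ^ (-(3 / 2) : ℝ) := by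
      rw [Real.sqrt_eq_rpow, ← Real.rpow_add ht0]
      norm_num
    calc |∑ n ∈ Finset.Ioc U ⌊t⌋₊, r2 n - π * (t - U)| * t ^ (-σ - 1)
        ≤ (C * (√t + 1)) * t ^ (-2 : ℝ) := by gcongr
      _ ≤ (C * (√t + √t)) * t ^ (-2 : ℝ) := by gcongr
      _ = 2 * C * (√t * t ^ (-2 : ℝ)) := by ring
      _ = 2 * C * t ^ (-(3 / 2) : ℝ) := by rw [h8]
  have hbi : MeasureTheory.IntegrableOn (fun t : ℝ => 2 * C * t ^ (-(3 / 2) : ℝ))
      (Set.Ioi (U : ℝ)) :=
    (integrableOn_Ioi_rpow_of_lt (by norm_num) hUpos).const_mul _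
  have hEm : MeasureTheory.AEStronglyMeasurable E
      (MeasureTheory.volume.restrict (Set.Ioi (U : ℝ))) := by
    have h3 : Measurable S :=
      (measurable_from_nat (f := fun n => ∑ k ∈ Finset.Ioc U n, aG (fun _ => 1) k)).comp
        Nat.measurable_floor
    have h4 : Measurable fun t : ℝ => ((π * (t - U) : ℝ) : ℂ) := by fun_prop
    exact (h3.sub h4).aestronglyMeasurable.mul hi2.aestronglyMeasurable
  have hEi : MeasureTheory.IntegrableOn E (Set.Ioi (U : ℝ)) :=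
    MeasureTheory.Integrable.mono' hbi hEm
      ((MeasureTheory.ae_restrict_iff' measurableSet_Ioi).2 (Filter.Eventually.of_forall hEb))
  have hEint : ‖∫ t in Set.Ioi (U : ℝ), E t‖ ≤ 4 * C / √U := by
    have h3 := MeasureTheory.norm_integral_le_of_norm_le hbi
      ((MeasureTheory.ae_restrict_iff' measurableSet_Ioi).2 (Filter.Eventually.of_forall hEb))
    refine h3.trans (le_of_eq ?_)
    rw [MeasureTheory.integral_const_mul, integral_Ioi_rpow_of_lt (by norm_num) hUpos,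
      Real.sqrt_eq_rpow]
    have h4 : (U : ℝ) ^ (-(3 / 2) + 1 : ℝ) = ((U : ℝ) ^ (1 / 2 : ℝ))⁻¹ := by
      rw [← Real.rpow_neg hUpos.le]
      norm_num
    rw [h4]
    field_simp
    norm_num
  have hSint : ∫ t in Set.Ioi (U : ℝ), S t * (t : ℂ) ^ (-(s + 1)) =
      (∫ t in Set.Ioi (U : ℝ), g t) + ∫ t in Set.Ioi (U : ℝ), E t := by
    rw [← MeasureTheory.integral_add hgi hEi]
    refine MeasureTheory.setIntegral_congr_fun measurableSet_Ioi (fun t ht => ?_)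
    have ht0 : 0 < t := hUpos.trans ht
    rw [hg' t ht0, hE]
    ring
  have hPS := PS ha hre1 hU1
  rw [show (∫ t in Set.Ioi (U : ℝ), (∑ k ∈ Finset.Ioc U ⌊t⌋₊, aG (fun _ => 1) k) *
    (t : ℂ) ^ (-(s + 1))) = (∫ t in Set.Ioi (U : ℝ), g t) + ∫ t in Set.Ioi (U : ℝ), E t from hSint,
    hgint, mul_add] at hPS
  have hmain : ‖s * ((π : ℂ) * ((U : ℂ) ^ (1 - s)) / (s * (s - 1)))‖ ≤ π * (1 / |τ|) := by
    have h3 : s * ((π : ℂ) * ((U : ℂ) ^ (1 - s)) / (s * (s - 1))) =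
        (π : ℂ) * ((U : ℂ) ^ (1 - s)) / (s - 1) := by
      field_simp
    have h4 : ‖(U : ℂ) ^ (1 - s)‖ ≤ 1 := by
      have h5 := Complex.norm_cpow_eq_rpow_re_of_pos hUpos (1 - s)
      rw [Complex.ofReal_natCast] at h5
      rw [h5, Complex.sub_re, hre, Complex.one_re]
      exact Real.rpow_le_one_of_one_le_of_nonpos hU1' (by linarith)
    have h6 : |τ| ≤ ‖s - 1‖ := by
      have h7 := Complex.abs_im_le_norm (s - 1)
      rw [Complex.sub_im, him, Complex.one_im, sub_zero] at h7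
      exact h7
    rw [h3, norm_div, norm_mul, Complex.norm_real, Real.norm_of_nonneg Real.pi_pos.le]
    calc π * ‖(U : ℂ) ^ (1 - s)‖ / ‖s - 1‖ ≤ π * 1 / |τ| := by gcongr
      _ = π * (1 / |τ|) := by ring
  have hlog : 1 / 2 ≤ log (2 + |τ|) := by
    have h3 := Real.log_two_gt_d9
    have h4 : log 2 ≤ log (2 + |τ|) := Real.log_le_log (by norm_num) (by linarith)
    linarith
  have herr : ‖s * ∫ t in Set.Ioi (U : ℝ), E t‖ ≤ 24 * C * log (2 + |τ|) := by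
    have h3 : ‖s‖ ≤ 2 + |τ| := by
      rw [hs]
      refine (norm_add_le _ _).trans ?_
      rw [norm_mul, Complex.norm_I, mul_one, Complex.norm_real, Complex.norm_real,
        Real.norm_eq_abs, Real.norm_eq_abs, abs_of_pos (by linarith)]
      linarith
    have hsq : 0 < √(U : ℝ) := Real.sqrt_pos.2 hUpos
    have h4 : 2 + |τ| ≤ 3 * √U := by
      have h5 : 1 ≤ √(U : ℝ) := Real.one_le_sqrt.2 hU1'
      have h6 : |τ| ≤ √U := by
        rw [← Real.sqrt_sq_eq_abs]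
        exact Real.sqrt_le_sqrt (by linarith)
      linarith
    rw [norm_mul]
    calc ‖s‖ * ‖∫ t in Set.Ioi (U : ℝ), E t‖ ≤ (3 * √U) * (4 * C / √U) := by
          gcongr
          exact h3.trans h4
      _ = 12 * C := by field_simp; norm_num
      _ ≤ 24 * C * log (2 + |τ|) := by nlinarith
  have hfin : C1 * (1 + log U) ≤ 4 * C1 * log (2 + |τ|) := by
    have h3 : log (U : ℝ) ≤ 2 * log (2 + |τ|) := by
      rw [← Real.log_rpow (by positivity)]
      refine Real.log_le_log hUpos (hUup.trans ?_)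
      rw [Real.rpow_two, ← sq_abs τ]
      nlinarith
    nlinarith
  rw [hPS]
  have hA := hC1' (aG (fun _ => 1)) ha s hre1 U hU1
  have hB := norm_add_le (∑ n ∈ Finset.Icc 1 U, aG (fun _ => 1) n * (n : ℂ) ^ (-s))
    (s * ((π : ℂ) * ((U : ℂ) ^ (1 - s)) / (s * (s - 1))) + s * ∫ t in Set.Ioi (U : ℝ), E t)
  have hD := norm_add_le (s * ((π : ℂ) * ((U : ℂ) ^ (1 - s)) / (s * (s - 1))))
    (s * ∫ t in Set.Ioi (U : ℝ), E t)
  have h9 : 0 ≤ 1 / |τ| := by positivity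
  have h10 : 0 ≤ log (2 + |τ|) := by linarith
  nlinarith [mul_nonneg hC.le h9, mul_nonneg hC1.le h9, mul_nonneg Real.pi_pos.le h10]

end Pool.Agent.LogCh.HG
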