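import Pool.Agent.Lib.LogCh.HLs

/-!
# HPs: truncated partial summation

PROOF of `PS`: put `a' n = if n ≤ U then 0 else a n`.  `‖a' n‖ ≤ r2 n` for `n ≥ 1`, so Mathlib's
`LSeries_eq_mul_integral'` (exponent `1`, `r2_sum_le`) gives
`LSeries a' s = s * ∫ t in Ioi 1, (∑ k ∈ Icc 1 ⌊t⌋₊, a' k) * t ^ (-(s+1))`; the partial sum is
`0` for `t < U` (indeed `⌊t⌋₊ ≤ U` suffices) and `∑ k ∈ Ioc U ⌊t⌋₊, a k` for `t ≥ U`, so the
integral over `Ioi 1` is the integral over `Ioi U`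
(`setIntegral_eq_of_subset_of_forall_diff_eq_zero`).  And `LSeries a s - LSeries a' s` is the finite
sum over `n ∈ Icc 1 U` of `a n * n ^ (-s)` (`LSeries.term`, the term `n = 0` is zero; e.g.
`tsum` of the difference has support in `Icc 1 U`, `LSeries_sub`, or
`Summable.sum_add_tsum_compl`).

PROOF of `PS2`: the first sum is at most `∑_{n ≤ U} r2 n / n ≤ C (1 + log U)` (`sum_inv`,
`‖n ^ (-s)‖ = n ^ (-re s) ≤ 1/n`).  In the integral
`‖(∑ ..) * t ^ (-(s+1))‖ ≤ B t ^ (1-κ) * t ^ (-(re s)-1) ≤ B t ^ (-κ-1)` as `re s ≥ 1`, `t ≥ 1`;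
`∫_{U}^∞ t ^ (-κ-1) dt = U ^ (-κ) / κ` (`integral_Ioi_rpow_of_lt`,
`norm_integral_le_of_norm_le`).
-/

set_option autoImplicit false

namespace Pool.Agent.LogCh.HG

open Real
open Pool.Agent.NSqP

private lemma hps_bigO {a : ℕ → ℂ} (ha : ∀ n : ℕ, 1 ≤ n → ‖a n‖ ≤ r2 n) :
    (fun n ↦ ∑ k ∈ Finset.Icc 1 n, ‖a k‖) =O[Filter.atTop] fun n : ℕ ↦ (n : ℝ) ^ (1 : ℝ) := by
  obtain ⟨C, hC, h⟩ := r2_sum_le
  refine Asymptotics.IsBigO.of_bound C (Filter.Eventually.of_forall fun n => ?_)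
  rw [Real.rpow_one, Real.norm_of_nonneg (Finset.sum_nonneg fun _ _ => norm_nonneg _),
    Real.norm_of_nonneg (Nat.cast_nonneg n)]
  have h1 := h n (Nat.cast_nonneg n)
  rw [Nat.floor_natCast] at h1
  exact (Finset.sum_le_sum fun k hk => ha k (Finset.mem_Icc.1 hk).1).trans h1

theorem PS {a : ℕ → ℂ} (ha : ∀ n : ℕ, 1 ≤ n → ‖a n‖ ≤ r2 n) {s : ℂ} (hs : 1 < s.re) {U : ℕ}
    (hU : 1 ≤ U) :
    LSeries a s = ∑ n ∈ Finset.Icc 1 U, a n * (n : ℂ) ^ (-s) +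
      s * ∫ t in Set.Ioi (U : ℝ), (∑ k ∈ Finset.Ioc U ⌊t⌋₊, a k) * (t : ℂ) ^ (-(s + 1)) := by
  classical
  obtain ⟨a', ha'⟩ : ∃ a' : ℕ → ℂ, a' = fun n => if n ≤ U then 0 else a n := ⟨_, rfl⟩
  have hle : ∀ n, n ≤ U → a' n = 0 := fun n hn => by rw [ha']; exact if_pos hn
  have hgt : ∀ n, U < n → a' n = a n := fun n hn => by
    rw [ha']; exact if_neg (not_le.2 hn)
  have hb' : ∀ n : ℕ, 1 ≤ n → ‖a' n‖ ≤ r2 n := by
    intro n hn
    rcases le_or_gt n U with h | h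
    · rw [hle n h, norm_zero]; exact r2_nonneg n
    · rw [hgt n h]; exact ha n hn
  have e1 := LSeries_eq_mul_integral' a' (r := 1) zero_le_one hs (hps_bigO hb')
  have e2 : ∫ t in Set.Ioi (1 : ℝ), (∑ k ∈ Finset.Icc 1 ⌊t⌋₊, a' k) * (t : ℂ) ^ (-(s + 1)) =
      ∫ t in Set.Ioi (U : ℝ), (∑ k ∈ Finset.Icc 1 ⌊t⌋₊, a' k) * (t : ℂ) ^ (-(s + 1)) := by
    refine MeasureTheory.setIntegral_eq_of_subset_of_forall_sdiff_eq_zero measurableSet_Ioi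
      (Set.Ioi_subset_Ioi (by exact_mod_cast hU)) ?_
    rintro t ⟨ht1, ht2⟩
    rw [Set.mem_Ioi] at ht1 ht2
    have ht3 : t ≤ U := not_lt.1 ht2
    have ht4 : ⌊t⌋₊ ≤ U := by
      have := Nat.floor_le_floor ht3
      rwa [Nat.floor_natCast] at this
    rw [Finset.sum_eq_zero, zero_mul]
    intro k hk
    exact hle k ((Finset.mem_Icc.1 hk).2.trans ht4)
  have e3 : ∫ t in Set.Ioi (U : ℝ), (∑ k ∈ Finset.Icc 1 ⌊t⌋₊, a' k) * (t : ℂ) ^ (-(s + 1)) =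
      ∫ t in Set.Ioi (U : ℝ), (∑ k ∈ Finset.Ioc U ⌊t⌋₊, a k) * (t : ℂ) ^ (-(s + 1)) := by
    refine MeasureTheory.setIntegral_congr_fun measurableSet_Ioi ?_
    intro t _
    have h1 : ∑ k ∈ Finset.Icc 1 ⌊t⌋₊, a' k = ∑ k ∈ Finset.Ioc U ⌊t⌋₊, a k := by
      have h2 : ∑ k ∈ Finset.Ioc U ⌊t⌋₊, a k = ∑ k ∈ Finset.Ioc U ⌊t⌋₊, a' k :=
        Finset.sum_congr rfl fun k hk => (hgt k (Finset.mem_Ioc.1 hk).1).symm
      rw [h2]
      symm
      apply Finset.sum_subset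
      · intro k hk
        rw [Finset.mem_Ioc] at hk
        rw [Finset.mem_Icc]
        omega
      · intro k hk hk'
        apply hle
        rw [Finset.mem_Icc] at hk
        rw [Finset.mem_Ioc] at hk'
        by_contra hcon
        exact hk' ⟨by omega, hk.2⟩
    simp only [h1]
  have e4 : LSeries a s = ∑ n ∈ Finset.Icc 1 U, a n * (n : ℂ) ^ (-s) + LSeries a' s := by
    have s1 := summable_of_le_r2 ha hs
    have s2 := summable_of_le_r2 hb' hs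
    have h1 := LSeries_sub s1 s2
    have h2 : LSeries (a - a') s = ∑ n ∈ Finset.Icc 1 U, a n * (n : ℂ) ^ (-s) := by
      unfold LSeries
      rw [tsum_eq_sum (s := Finset.Icc 1 U)]
      · refine Finset.sum_congr rfl fun n hn => ?_
        rw [Finset.mem_Icc] at hn
        rw [LSeries.term_of_ne_zero (by omega), Pi.sub_apply, hle n hn.2, sub_zero,
          Complex.cpow_neg, div_eq_mul_inv]
      · intro n hn
        rcases Nat.eq_zero_or_pos n with rfl | hn0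
        · exact LSeries.term_zero _ _
        · have hn1 : U < n := by
            by_contra hcon
            exact hn (Finset.mem_Icc.2 ⟨hn0, not_lt.1 hcon⟩)
          rw [LSeries.term_of_ne_zero (by omega), Pi.sub_apply, hgt n hn1, sub_self, zero_div]
    rw [h2] at h1
    rw [h1]
    ring
  rw [e4, e1, e2, e3]

/-- the finite part of `PS` -/
theorem PS1 : ∃ C : ℝ, 0 < C ∧ ∀ a : ℕ → ℂ, (∀ n : ℕ, 1 ≤ n → ‖a n‖ ≤ r2 n) → ∀ s : ℂ,
    1 < s.re → ∀ U : ℕ, 1 ≤ U →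
    ‖∑ n ∈ Finset.Icc 1 U, a n * (n : ℂ) ^ (-s)‖ ≤ C * (1 + log U) := by
  obtain ⟨C, hC, h⟩ := r2_sum_le
  refine ⟨4 * C, by positivity, fun a ha s hs U hU => ?_⟩
  have h1 := sum_inv (f := r2) r2_nonneg (B := C) (fun t ht => h t (by linarith))
    (x := (U : ℝ)) (by exact_mod_cast hU)
  rw [Nat.floor_natCast] at h1
  refine (norm_sum_le _ _).trans ((Finset.sum_le_sum fun n hn => ?_).trans h1)
  rw [Finset.mem_Icc] at hn
  have hn0 : (0 : ℝ) < n := by exact_mod_cast hn.1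
  rw [norm_mul, Complex.norm_natCast_cpow_of_pos hn.1, Complex.neg_re, div_eq_mul_inv]
  apply mul_le_mul (ha n hn.1) _ (by positivity) (r2_nonneg n)
  rw [Real.rpow_neg hn0.le]
  apply inv_anti₀ hn0
  calc (n : ℝ) = (n : ℝ) ^ (1 : ℝ) := (Real.rpow_one _).symm
    _ ≤ (n : ℝ) ^ s.re := Real.rpow_le_rpow_of_exponent_le (by exact_mod_cast hn.1) hs.le

theorem PS2 : ∃ C : ℝ, 0 < C ∧ ∀ a : ℕ → ℂ, (∀ n : ℕ, 1 ≤ n → ‖a n‖ ≤ r2 n) → ∀ s : ℂ,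
    1 < s.re → ∀ U : ℕ, 1 ≤ U → ∀ B κ : ℝ, 0 ≤ B → 0 < κ →
    (∀ t : ℝ, (U : ℝ) ≤ t → ‖∑ k ∈ Finset.Ioc U ⌊t⌋₊, a k‖ ≤ B * t ^ (1 - κ)) →
    ‖LSeries a s‖ ≤ C * (1 + log U) + ‖s‖ * B * (U : ℝ) ^ (-κ) / κ := by
  obtain ⟨C, hC, h⟩ := PS1
  refine ⟨C, hC, fun a ha s hs U hU B κ hB hκ hsum => ?_⟩
  rw [PS ha hs hU]
  have hU0 : (0 : ℝ) < U := by exact_mod_cast hU
  have hU1 : (1 : ℝ) ≤ U := by exact_mod_cast hU
  refine (norm_add_le _ _).trans (add_le_add (h a ha s hs U hU) ?_)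
  rw [norm_mul]
  have hint : MeasureTheory.IntegrableOn (fun t : ℝ => B * t ^ (-κ - 1)) (Set.Ioi (U : ℝ)) :=
    (integrableOn_Ioi_rpow_of_lt (by linarith) hU0).const_mul B
  have h1 : ‖∫ t in Set.Ioi (U : ℝ), (∑ k ∈ Finset.Ioc U ⌊t⌋₊, a k) * (t : ℂ) ^ (-(s + 1))‖ ≤
      ∫ t in Set.Ioi (U : ℝ), B * t ^ (-κ - 1) := by
    apply MeasureTheory.norm_integral_le_of_norm_le hint
    rw [MeasureTheory.ae_restrict_iff' measurableSet_Ioi]
    refine Filter.Eventually.of_forall fun t ht => ?_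
    rw [Set.mem_Ioi] at ht
    have ht0 : 0 < t := hU0.trans ht
    have ht1 : 1 ≤ t := by linarith
    rw [norm_mul, Complex.norm_cpow_eq_rpow_re_of_pos ht0]
    have h2 : (-(s + 1)).re = -s.re - 1 := by
      simp only [Complex.neg_re, Complex.add_re, Complex.one_re]; ring
    rw [h2]
    calc ‖∑ k ∈ Finset.Ioc U ⌊t⌋₊, a k‖ * t ^ (-s.re - 1) ≤
          (B * t ^ (1 - κ)) * t ^ (-1 - 1 : ℝ) := by
          apply mul_le_mul (hsum t ht.le) _ (by positivity) (by positivity)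
          exact Real.rpow_le_rpow_of_exponent_le ht1 (by linarith)
      _ = B * t ^ (-κ - 1) := by
          rw [mul_assoc, ← Real.rpow_add ht0]
          congr 2
          ring
  have h3 : ∫ t in Set.Ioi (U : ℝ), B * t ^ (-κ - 1) = B * ((U : ℝ) ^ (-κ) / κ) := by
    rw [MeasureTheory.integral_const_mul, integral_Ioi_rpow_of_lt (by linarith) hU0]
    congr 1
    have h4 : -κ - 1 + 1 = -κ := by ring
    rw [h4, neg_div_neg_eq]
  rw [h3] at h1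
  calc ‖s‖ * ‖∫ t in Set.Ioi (U : ℝ), (∑ k ∈ Finset.Ioc U ⌊t⌋₊, a k) * (t : ℂ) ^ (-(s + 1))‖
      ≤ ‖s‖ * (B * ((U : ℝ) ^ (-κ) / κ)) := mul_le_mul_of_nonneg_left h1 (norm_nonneg _)
    _ = ‖s‖ * B * (U : ℝ) ^ (-κ) / κ := by ring

end Pool.Agent.LogCh.HG
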