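import Pool.Agent.Lib.LogCh.HNp
import Pool.Agent.Lib.LogCh.HOn

/-!
# HQp: sums over the Gaussian primes

`QP F σ = ∑' n, (∑ z ∈ sphP n, F z) / n ^ σ`; if `|F| ≤ B` on the Gaussian primes then each term is at
most `2 B / n ^ σ` in absolute value (`card_sphP_le`), so the series converges for `σ > 1`
(`QP_summable`); `QP_mono`, `QP_add`, `QP_const` follow (`Summable.tsum_le_tsum`,
`Summable.tsum_add`, `tsum_mul_left`).

PROOF of `re_bP`: termwise: for `n ≥ 1`,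
`re (bP f n * n ^ (-(σ + i t))) = n ^ (-σ) * re (∑ z ∈ sphP n, f z * n ^ (- i t))` and `nN z = n` for
`z ∈ sphP n` (`Complex.cpow_add`, `Complex.ofReal_cpow`); the term `n = 0` is zero on both sides
(`sphP 0 = ∅`).  `LSeries` is a convergent series (bounded coefficients), `Complex.re_tsum`.

PROOF of `QP_one`: `LB1`, `LB2` with `g = 1` (`GM_one`), `re_bP` with `t = 0` and `L1_real`:
`QP 1 σ ≤ log (C ‖L‖) ≤ log (C C' / (σ-1))` and `‖L‖ ≤ C exp (QP 1 σ)`, `‖L‖ ≥ 1 / (C' (σ-1))`.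

PROOF of `QP_shift`: the difference of the terms is
`(∑ z ∈ sphP n, re (f z * (n ^ (-i t) - 1))) / n ^ σ`, `‖n ^ (-i t) - 1‖ ≤ |t| log n`
(`n ^ (-it) = exp (- i t log n)`, `‖exp (i u) - 1‖ ≤ |u|`), at most `2 |t| log n / n ^ σ` and zero
unless `n` is prime: `≤ 2 |t| Λ n / n ^ σ`.  `∑' Λ n / n ^ σ ≤ C / (σ-1)` by `sum_sigma` with
`f = Λ`, `B = log 4 + 4` (`Chebyshev.psi_le_const_mul_self`, `Chebyshev.psi` is the sum of `Λ` over
`Ioc 0 ⌊t⌋₊`).
-/

set_option autoImplicit false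

namespace Pool.Agent.LogCh.HG

open Real
open Pool.Agent.NSqP

private lemma hqp_abs {F : GaussianInt → ℝ} {B : ℝ} (hF : ∀ z, IsPi z → |F z| ≤ B) (n : ℕ) :
    |∑ z ∈ sphP n, F z| ≤ 2 * |B| := by
  refine (Finset.abs_sum_le_sum_abs _ _).trans ?_
  refine (Finset.sum_le_sum (fun z hz => (hF z (mem_sphP.1 hz).2).trans (le_abs_self B))).trans ?_
  rw [Finset.sum_const, nsmul_eq_mul]
  have : ((sphP n).card : ℝ) ≤ 2 := by exact_mod_cast card_sphP_le n
  exact mul_le_mul_of_nonneg_right this (abs_nonneg B)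

theorem QP_summable {F : GaussianInt → ℝ} {B : ℝ} (hF : ∀ z, IsPi z → |F z| ≤ B) {σ : ℝ}
    (hσ : 1 < σ) : Summable (fun n : ℕ => (∑ z ∈ sphP n, F z) / (n : ℝ) ^ σ) := by
  have h1 : Summable (fun n : ℕ => 2 * |B| * (1 / (n : ℝ) ^ σ)) :=
    (Real.summable_one_div_nat_rpow.2 hσ).mul_left _
  refine Summable.of_norm_bounded h1 (fun n => ?_)
  have h2 : 0 ≤ (n : ℝ) ^ σ := Real.rpow_nonneg (Nat.cast_nonneg n) _
  rw [norm_div, Real.norm_eq_abs, Real.norm_of_nonneg h2, mul_one_div]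
  exact div_le_div_of_nonneg_right (hqp_abs hF n) h2

theorem QP_mono {F G : GaussianInt → ℝ} {B : ℝ} (hF : ∀ z, IsPi z → |F z| ≤ B)
    (hG : ∀ z, IsPi z → |G z| ≤ B) (h : ∀ z, IsPi z → F z ≤ G z) {σ : ℝ} (hσ : 1 < σ) :
    QP F σ ≤ QP G σ := by
  refine Summable.tsum_le_tsum (fun n => ?_) (QP_summable hF hσ) (QP_summable hG hσ)
  exact div_le_div_of_nonneg_right (Finset.sum_le_sum fun z hz => h z (mem_sphP.1 hz).2)
    (Real.rpow_nonneg (Nat.cast_nonneg n) _)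

theorem QP_add {F G : GaussianInt → ℝ} {B : ℝ} (hF : ∀ z, IsPi z → |F z| ≤ B)
    (hG : ∀ z, IsPi z → |G z| ≤ B) {σ : ℝ} (hσ : 1 < σ) :
    QP (fun z => F z + G z) σ = QP F σ + QP G σ := by
  unfold QP
  rw [← (QP_summable hF hσ).tsum_add (QP_summable hG hσ)]
  refine tsum_congr fun n => ?_
  rw [Finset.sum_add_distrib, add_div]

theorem QP_const (c : ℝ) (F : GaussianInt → ℝ) (σ : ℝ) :
    QP (fun z => c * F z) σ = c * QP F σ := by
  unfold QP
  rw [← tsum_mul_left]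
  refine tsum_congr fun n => ?_
  rw [← Finset.mul_sum, mul_div_assoc]

theorem re_bP {f : GaussianInt → ℂ} (hf : ∀ z, IsPi z → ‖f z‖ ≤ 1) {σ : ℝ} (hσ : 1 < σ)
    (t : ℝ) : (LSeries (bP f) ((σ : ℂ) + (t : ℂ) * Complex.I)).re =
      QP (fun z => (tw t f z).re) σ := by
  have hs : 1 < ((σ : ℂ) + (t : ℂ) * Complex.I).re := by simpa using hσ
  have hsum : LSeriesSummable (bP f) ((σ : ℂ) + (t : ℂ) * Complex.I) :=
    LSeriesSummable_of_bounded_of_one_lt_re (fun n _ => norm_bP_le hf n) hs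
  rw [LSeries, Complex.re_tsum hsum]
  unfold QP
  refine tsum_congr fun n => ?_
  rcases eq_or_ne n 0 with rfl | hn
  · rw [LSeries.term_zero, sphP_eq_empty (by norm_num)]
    simp
  · have hn' : (n : ℂ) ≠ 0 := by exact_mod_cast hn
    have h1 : (n : ℂ) ^ ((σ : ℂ) + (t : ℂ) * Complex.I) =
        (((n : ℝ) ^ σ : ℝ) : ℂ) * (n : ℂ) ^ ((t : ℂ) * Complex.I) := by
      rw [Complex.cpow_add _ _ hn', Complex.ofReal_cpow (Nat.cast_nonneg n)]
      norm_cast
    have h2 : ∑ z ∈ sphP n, (tw t f z).re = (bP f n * (n : ℂ) ^ (-(t : ℂ) * Complex.I)).re := by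
      rw [bP, Finset.sum_mul, Complex.re_sum]
      refine Finset.sum_congr rfl fun z hz => ?_
      rw [tw, (mem_sphP.1 hz).1]
    have h3 : LSeries.term (bP f) ((σ : ℂ) + (t : ℂ) * Complex.I) n =
        (bP f n * (n : ℂ) ^ (-(t : ℂ) * Complex.I)) / (((n : ℝ) ^ σ : ℝ) : ℂ) := by
      rw [LSeries.term_of_ne_zero hn, h1, neg_mul, Complex.cpow_neg, div_mul_eq_div_div_swap]
      rw [div_eq_mul_inv (bP f n)]
    rw [h3, Complex.div_ofReal_re, h2]

private lemma hqp_tw_zero (z : GaussianInt) : (tw 0 (fun _ => (1 : ℂ)) z).re = 1 := by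
  rw [tw]
  simp

theorem QP_one : ∃ C : ℝ, 0 < C ∧ ∀ σ : ℝ, 1 < σ → σ ≤ 2 →
    |QP (fun _ => 1) σ - log (1 / (σ - 1))| ≤ C := by
  obtain ⟨C, hC, hL⟩ := L1_real
  obtain ⟨C1, hC1, h1⟩ := LB1
  obtain ⟨C2, hC2, h2⟩ := LB2
  refine ⟨|log (C2 * C)| + |log (C * C1)| + 1, by positivity, fun σ hσ hσ2 => ?_⟩
  have hσ0 : 0 < σ - 1 := by linarith
  obtain ⟨hLa, hLb⟩ := hL σ hσ hσ2
  have hre : (LSeries (bP (fun _ => (1 : ℂ))) (σ : ℂ)).re = QP (fun _ => 1) σ := by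
    have := re_bP (f := fun _ => (1 : ℂ)) (fun _ _ => by simp) hσ 0
    simp only [Complex.ofReal_zero, zero_mul, add_zero, hqp_tw_zero] at this
    exact this
  have hs : 1 < (σ : ℂ).re := by simpa using hσ
  have e1 := h1 (fun _ => 1) GM_one (σ : ℂ) hs
  have e2 := h2 (fun _ => 1) GM_one (σ : ℂ) hs
  rw [hre] at e1 e2
  set Q := QP (fun _ => 1) σ with hQ
  set L := ‖LSeries (aG (fun _ => (1 : ℂ))) (σ : ℂ)‖ with hLdef
  have u1 : exp Q ≤ C2 * C * (1 / (σ - 1)) := by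
    calc exp Q ≤ C2 * L := e2
      _ ≤ C2 * (C / (σ - 1)) := mul_le_mul_of_nonneg_left hLb hC2.le
      _ = C2 * C * (1 / (σ - 1)) := by ring
  have u2 : 1 / (σ - 1) ≤ C * C1 * exp Q := by
    have h3 : 1 / (C * (σ - 1)) ≤ C1 * exp Q := hLa.trans e1
    rw [div_le_iff₀ (by positivity)] at h3
    rw [div_le_iff₀ hσ0]
    calc (1 : ℝ) ≤ C1 * exp Q * (C * (σ - 1)) := h3
      _ = C * C1 * exp Q * (σ - 1) := by ring
  have hpos : 0 < 1 / (σ - 1) := by positivity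
  have v1 : Q ≤ log (C2 * C) + log (1 / (σ - 1)) := by
    rw [← Real.log_mul (by positivity) hpos.ne']
    exact (Real.le_log_iff_exp_le (by positivity)).2 u1
  have v2 : log (1 / (σ - 1)) ≤ log (C * C1) + Q := by
    have h4 : log (C * C1 * exp Q) = log (C * C1) + Q := by
      rw [Real.log_mul (by positivity) (Real.exp_pos Q).ne', Real.log_exp]
    rw [← h4]
    exact Real.log_le_log hpos u2
  rw [abs_le]
  constructor
  · linarith [le_abs_self (log (C * C1)), abs_nonneg (log (C2 * C))]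
  · linarith [le_abs_self (log (C2 * C)), abs_nonneg (log (C * C1))]

private lemma hqp_vm : ∀ t : ℝ, 1 ≤ t →
    ∑ n ∈ Finset.Icc 1 ⌊t⌋₊, ArithmeticFunction.vonMangoldt n ≤ (log 4 + 4) * t := by
  intro t ht
  have h := Chebyshev.psi_le_const_mul_self (x := t) (by linarith)
  exact h

private lemma hqp_pow {n : ℕ} (hn : 1 ≤ n) (t : ℝ) :
    ‖(n : ℂ) ^ (-(t : ℂ) * Complex.I) - 1‖ ≤ |t| * log n := by
  have hn' : (n : ℂ) ≠ 0 := by exact_mod_cast (by omega : n ≠ 0)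
  have h1 : (n : ℂ) ^ (-(t : ℂ) * Complex.I) =
      Complex.exp (Complex.I * ((-(t * log n) : ℝ) : ℂ)) := by
    rw [Complex.cpow_def_of_ne_zero hn', ← Complex.natCast_log]
    congr 1
    push_cast
    ring
  rw [h1]
  refine Real.norm_exp_I_mul_ofReal_sub_one_le.trans ?_
  rw [Real.norm_eq_abs, abs_neg, abs_mul,
    abs_of_nonneg (Real.log_nonneg (by exact_mod_cast hn : (1 : ℝ) ≤ n))]

theorem QP_shift : ∃ C : ℝ, 0 < C ∧ ∀ f : GaussianInt → ℂ, (∀ z, IsPi z → ‖f z‖ ≤ 1) →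
    ∀ σ : ℝ, 1 < σ → σ ≤ 2 → ∀ t : ℝ,
    |QP (fun z => (tw t f z).re) σ - QP (fun z => (f z).re) σ| ≤ C * |t| / (σ - 1) := by
  have hl4 : 0 < log 4 := Real.log_pos (by norm_num)
  refine ⟨8 * (log 4 + 4), by positivity, fun f hf σ hσ hσ2 t => ?_⟩
  have hσ0 : 0 < σ - 1 := by linarith
  have htw : ∀ z, IsPi z → |(tw t f z).re| ≤ 1 := by
    intro z hz
    refine (Complex.abs_re_le_norm _).trans ?_
    rw [tw, norm_mul]
    have h1 : ‖(nN z : ℂ) ^ (-(t : ℂ) * Complex.I)‖ = 1 := by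
      have h2 : (0 : ℝ) < (nN z : ℝ) := by exact_mod_cast nN_pos hz.ne_zero
      have h3 := Complex.norm_cpow_eq_rpow_re_of_pos h2 (-(t : ℂ) * Complex.I)
      rw [Complex.ofReal_natCast] at h3
      rw [h3]
      simp
    rw [h1, mul_one]
    exact hf z hz
  have hfr : ∀ z, IsPi z → |(f z).re| ≤ 1 := fun z hz => (Complex.abs_re_le_norm _).trans (hf z hz)
  have hS1 := QP_summable htw hσ
  have hS2 := QP_summable hfr hσ
  obtain ⟨hV1, hV2⟩ := sum_sigma (f := fun n => ArithmeticFunction.vonMangoldt n)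
    (fun n => ArithmeticFunction.vonMangoldt_nonneg) hqp_vm hσ hσ2
  unfold QP
  rw [← hS1.tsum_sub hS2]
  have hb : ∀ n : ℕ, ‖(∑ z ∈ sphP n, (tw t f z).re) / (n : ℝ) ^ σ -
      (∑ z ∈ sphP n, (f z).re) / (n : ℝ) ^ σ‖ ≤
      2 * |t| * (ArithmeticFunction.vonMangoldt n / (n : ℝ) ^ σ) := by
    intro n
    have h2 : 0 ≤ (n : ℝ) ^ σ := Real.rpow_nonneg (Nat.cast_nonneg n) _
    by_cases hp : n.Prime
    · rw [← sub_div, ← Finset.sum_sub_distrib, norm_div, Real.norm_of_nonneg h2, ← mul_div_assoc]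
      refine div_le_div_of_nonneg_right ?_ h2
      rw [Real.norm_eq_abs, ArithmeticFunction.vonMangoldt_apply_prime hp]
      refine (Finset.abs_sum_le_sum_abs _ _).trans ?_
      have h3 : ∀ z ∈ sphP n, |(tw t f z).re - (f z).re| ≤ |t| * log n := by
        intro z hz
        rw [mem_sphP] at hz
        have h4 : (tw t f z).re - (f z).re =
            (f z * ((n : ℂ) ^ (-(t : ℂ) * Complex.I) - 1)).re := by
          rw [tw, hz.1, ← Complex.sub_re]
          congr 1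
          ring
        rw [h4]
        refine (Complex.abs_re_le_norm _).trans ?_
        rw [norm_mul]
        calc ‖f z‖ * ‖(n : ℂ) ^ (-(t : ℂ) * Complex.I) - 1‖ ≤ 1 * (|t| * log n) :=
              mul_le_mul (hf z hz.2) (hqp_pow hp.one_le t) (norm_nonneg _) zero_le_one
          _ = |t| * log n := one_mul _
      refine (Finset.sum_le_sum h3).trans ?_
      rw [Finset.sum_const, nsmul_eq_mul]
      have h5 : ((sphP n).card : ℝ) ≤ 2 := by exact_mod_cast card_sphP_le n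
      have h6 : 0 ≤ |t| * log n :=
        mul_nonneg (abs_nonneg t) (Real.log_nonneg (by exact_mod_cast hp.one_le))
      calc ((sphP n).card : ℝ) * (|t| * log n) ≤ 2 * (|t| * log n) :=
            mul_le_mul_of_nonneg_right h5 h6
        _ = 2 * |t| * log n := by ring
    · rw [sphP_eq_empty hp]
      simp only [Finset.sum_empty, zero_div, sub_zero, norm_zero]
      have := ArithmeticFunction.vonMangoldt_nonneg (n := n)
      positivity
  have h3 : ‖∑' n : ℕ, ((∑ z ∈ sphP n, (tw t f z).re) / (n : ℝ) ^ σ -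
      (∑ z ∈ sphP n, (f z).re) / (n : ℝ) ^ σ)‖ ≤
      2 * |t| * ∑' n : ℕ, ArithmeticFunction.vonMangoldt n / (n : ℝ) ^ σ :=
    tsum_of_norm_bounded (hV1.hasSum.mul_left _) hb
  rw [Real.norm_eq_abs] at h3
  refine h3.trans ?_
  calc 2 * |t| * ∑' n : ℕ, ArithmeticFunction.vonMangoldt n / (n : ℝ) ^ σ
      ≤ 2 * |t| * (4 * (log 4 + 4) / (σ - 1)) :=
        mul_le_mul_of_nonneg_left hV2 (by positivity)
    _ = 8 * (log 4 + 4) * |t| / (σ - 1) := by ring

end Pool.Agent.LogCh.HG
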