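import Pool.Agent.Lib.LogCh.H0

/-!
# HRe: characters modulo `r` invariant under conjugation

PROOF of `real_case`.  Let `z = a + b i` with `nN z = a ^ 2 + b ^ 2 = 1 + 8 r k`.
Choice of integers `A, B`: let `Q1` be the product of the odd primes `q ∣ r` with `¬ q ∣ 1 + a`,
and `Q2` the product of the odd primes `q ∣ r` with `q ∣ 1 + a` (then `¬ q ∣ 1 - a`, since
`q ∤ 2 = (1 + a) + (1 - a)`).  If `¬ 4 ∣ 1 + a` put `A = Q2`, `B = 4 * Q1`; if `4 ∣ 1 + a` put
`A = 4 * Q2`, `B = Q1`.  Put `α = A + B i`, `w = α + star α * z`.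
(1) `z * star w = star α * z + α * (z * star z) = w + α * (nN z - 1)`, so
`z * star w - w = 8 r * (k α)`.
(2) `nN w = (A²+B²)(1 + nN z) + 2 ((A²-B²) a + 2 A B b)
 = 2 [A² (1+a) + B² (1-a) + 2 A B b + 4 r k (A²+B²)] =: 2 M`.
For an odd prime `q ∣ r`: `q ∤ M`: if `q ∣ Q1`, then `q ∣ B`, `q ∤ A`, `M ≡ A² (1+a)`; if `q ∣ Q2`,
then `q ∣ A`, `q ∤ B`, `M ≡ B² (1-a)`.  And `¬ 4 ∣ M`: first case `M ≡ A² (1+a)` modulo `4` with `A`
odd; second case `M ≡ B² (1 - a)` with `B` odd, and `1 - a = 2 - (1 + a) ≡ 2` modulo `4`.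
(3) So `8 ∤ nN w` and `nN w` is even: `w = (1+i) ^ e * w'` with `e ∈ {1, 2}` and `nN w'` odd
(`1+i ∣ y ↔ nN y` even; `nN (1+i) = 2`), and `nN w'` is prime to every prime divisor of `r`, so to
`r`; hence `IsCoprime w' (r : GaussianInt)` (from a Bezout relation for `nN w' = w' * star w'` and
`r`), and likewise `IsCoprime (star w') r`.
(4) `star (1+i) = 1 - i = - i (1+i)`.  From (1):
`z (-i)^e (1+i)^e star w' - (1+i)^e w' = 8 r k α`; `(1+i)^e ∣ 8` (as `e ≤ 2`, `(1+i)^2 = 2 i`), cancel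
`(1+i)^e`: `z (-i)^e star w' = w' + r * (..)`.
(5) Apply `χ` (`mul`, `per`): `χ z * χ (-i)^e * χ (star w') = χ w'`; `χ (-i) = 1` because
`-i = i^3` and `χ i = 1`; `χ (star w') = χ w' ≠ 0` (`norm`).  So `χ z = 1`.
-/

set_option autoImplicit false

namespace Pool.Agent.LogCh.HG

open Real
open Pool.Agent.NSqP

private lemma hre_split (S : Finset ℕ) (hS : ∀ q ∈ S, q.Prime) (p : ℕ → Prop) :
    ∃ A B : ℤ, ∀ q ∈ S, (p q → (q : ℤ) ^ 2 ∣ B ∧ ¬ (q : ℤ) ∣ A) ∧
      (¬ p q → (q : ℤ) ^ 2 ∣ A ∧ ¬ (q : ℤ) ∣ B) := by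
  classical
  have key : ∀ (P : ℕ → Prop) (q : ℕ), q ∈ S → ¬ P q →
      ¬ (q : ℤ) ∣ (((∏ x ∈ S.filter P, x : ℕ) : ℤ)) ^ 2 := by
    intro P q hq hP hd
    have hq' := hS q hq
    have h1 : (q : ℤ) ∣ ((∏ x ∈ S.filter P, x : ℕ) : ℤ) :=
      (Nat.prime_iff_prime_int.1 hq').dvd_of_dvd_pow hd
    have h2 : q ∣ ∏ x ∈ S.filter P, x := by exact_mod_cast h1
    rw [hq'.prime.dvd_finsetProd_iff] at h2
    obtain ⟨x, hx, hqx⟩ := h2
    rw [Finset.mem_filter] at hx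
    have : q = x := (Nat.prime_dvd_prime_iff_eq hq' (hS x hx.1)).1 hqx
    exact hP (this ▸ hx.2)
  have key2 : ∀ (P : ℕ → Prop) (q : ℕ), q ∈ S → P q →
      (q : ℤ) ^ 2 ∣ (((∏ x ∈ S.filter P, x : ℕ) : ℤ)) ^ 2 := by
    intro P q hq hP
    apply pow_dvd_pow_of_dvd
    have : q ∣ ∏ x ∈ S.filter P, x := Finset.dvd_prod_of_mem _ (Finset.mem_filter.2 ⟨hq, hP⟩)
    exact_mod_cast this
  obtain ⟨np, hnp⟩ : ∃ np : ℕ → Prop, ∀ q, np q ↔ ¬ p q := ⟨fun q => ¬ p q, fun _ => Iff.rfl⟩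
  refine ⟨(((∏ x ∈ S.filter np, x : ℕ) : ℤ)) ^ 2,
    (((∏ x ∈ S.filter p, x : ℕ) : ℤ)) ^ 2, fun q hq => ⟨fun h => ⟨key2 p q hq h, ?_⟩,
      fun h => ⟨key2 np q hq ((hnp q).2 h), key p q hq h⟩⟩⟩
  exact key np q hq (fun h' => (hnp q).1 h' h)

private lemma hre_two_dvd {y : GaussianInt} (h : (2 : ℤ) ∣ y.norm) :
    ∃ y' : GaussianInt, y = (1 + gI) * y' := by
  obtain ⟨a, b⟩ := y
  rw [Zsqrtd.norm_def] at h
  have h1 : (2 : ℤ) ∣ a + b := by
    have h2 : (2 : ℤ) ∣ (a + b) ^ 2 := by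
      obtain ⟨c, hc⟩ := h
      refine ⟨c + a * b, ?_⟩
      simp only at hc
      linear_combination hc
    exact Int.prime_two.dvd_of_dvd_pow h2
  obtain ⟨c, hc⟩ := h1
  refine ⟨⟨c, b - c⟩, ?_⟩
  rw [Zsqrtd.ext_iff]
  simp only [gI, Zsqrtd.re_mul, Zsqrtd.im_mul, Zsqrtd.re_add, Zsqrtd.im_add, Zsqrtd.re_one,
    Zsqrtd.im_one]
  constructor
  · linarith
  · linarith

private lemma hre_norm_gI : (1 + gI : GaussianInt).norm = 2 := by
  simp [gI, Zsqrtd.norm_def]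

private lemma hre_gI_mul : gI * gI = (-1 : GaussianInt) := by
  rw [Zsqrtd.ext_iff]
  simp [gI]

private lemma hre_star_gI : star gI = - gI := by
  rw [Zsqrtd.ext_iff]
  simp [gI]

private lemma hre_cop (r : ℕ) (w : GaussianInt) (h : ∀ q : ℕ, q.Prime → q ∣ r → ¬ (q : ℤ) ∣ w.norm) :
    IsCoprime w (r : GaussianInt) := by
  have h1 : IsCoprime w.norm (r : ℤ) := by
    rw [Int.isCoprime_iff_gcd_eq_one]
    by_contra hne
    obtain ⟨q, hq, hqd⟩ := Nat.exists_prime_and_dvd hne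
    have h2 : (q : ℤ) ∣ (Int.gcd w.norm (r : ℤ) : ℤ) := by exact_mod_cast hqd
    have h3 : (q : ℤ) ∣ w.norm := h2.trans (Int.gcd_dvd_left _ _)
    have h4 : (q : ℤ) ∣ (r : ℤ) := h2.trans (Int.gcd_dvd_right _ _)
    exact h q hq (by exact_mod_cast h4) h3
  obtain ⟨u, v, huv⟩ := h1
  refine ⟨(u : GaussianInt) * star w, (v : GaussianInt), ?_⟩
  have h2 : ((u * w.norm + v * (r : ℤ) : ℤ) : GaussianInt) = 1 := by rw [huv]; simp
  rw [Int.cast_add, Int.cast_mul, Int.cast_mul, Zsqrtd.norm_eq_mul_conj] at h2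
  push_cast at h2
  linear_combination h2


private lemma hre_fin {r : ℕ} {χ : GaussianInt → ℂ} (hχ : ChiMod r χ) (hs : ∀ z, χ (star z) = χ z)
    {z u w c : GaussianInt} (hu : χ u = 1) (hw : IsCoprime w (r : GaussianInt))
    (h : z * u * star w = w + (r : GaussianInt) * c) : χ z = 1 := by
  have h1 := congrArg χ h
  rw [hχ.per, hχ.mul, hχ.mul, hu, hs, mul_one] at h1
  have h2 : χ w ≠ 0 := by
    intro h0
    have := hχ.norm w hw
    rw [h0, norm_zero] at this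
    exact zero_ne_one this
  exact mul_right_cancel₀ h2 (by rw [h1, one_mul])

/-- the choice of the auxiliary element -/
private lemma hre_choice (r : ℕ) (hr : 1 ≤ r) (a b k : ℤ) : ∃ A B M : ℤ,
    M = A ^ 2 * (1 + a) + B ^ 2 * (1 - a) + 2 * A * B * b + 4 * r * k * (A ^ 2 + B ^ 2) ∧
    (∀ q : ℕ, q.Prime → q ≠ 2 → q ∣ r → ¬ (q : ℤ) ∣ M) ∧ ¬ (4 : ℤ) ∣ M := by
  obtain ⟨A, B, hAB⟩ := hre_split (insert 2 r.primeFactors)
    (by
      intro q hq
      rcases Finset.mem_insert.1 hq with rfl | hq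
      · exact Nat.prime_two
      · exact Nat.prime_of_mem_primeFactors hq)
    (fun q => if q = 2 then ¬ (4 : ℤ) ∣ 1 + a else ¬ (q : ℤ) ∣ 1 + a)
  refine ⟨A, B, _, rfl, ?_, ?_⟩
  · intro q hq hq2 hqr hd
    have hqS : q ∈ insert 2 r.primeFactors :=
      Finset.mem_insert_of_mem (Nat.mem_primeFactors.2 ⟨hq, hqr, by omega⟩)
    have h := hAB q hqS
    simp only [hq2, if_false] at h
    have hp : Prime (q : ℤ) := Nat.prime_iff_prime_int.1 hq
    have hr' : (q : ℤ) ∣ (r : ℤ) := by exact_mod_cast hqr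
    have h2 : ¬ (q : ℤ) ∣ 2 := by
      intro h2
      have : q ∣ 2 := by exact_mod_cast h2
      exact hq2 ((Nat.prime_dvd_prime_iff_eq hq Nat.prime_two).1 this)
    by_cases hc : (q : ℤ) ∣ 1 + a
    · obtain ⟨h3, h4⟩ := h.2 (fun h' => h' hc)
      have h5 : (q : ℤ) ∣ A := (dvd_pow_self _ two_ne_zero).trans h3
      have h6 : (q : ℤ) ∣ B ^ 2 * (1 - a) := by
        have e : B ^ 2 * (1 - a) = (A ^ 2 * (1 + a) + B ^ 2 * (1 - a) + 2 * A * B * b +
          4 * r * k * (A ^ 2 + B ^ 2)) - A * (A * (1 + a) + 2 * B * b) -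
            r * (4 * k * (A ^ 2 + B ^ 2)) := by ring
        rw [e]
        exact dvd_sub (dvd_sub hd (Dvd.dvd.mul_right h5 _)) (Dvd.dvd.mul_right hr' _)
      rcases hp.dvd_or_dvd h6 with h7 | h7
      · exact h4 (hp.dvd_of_dvd_pow h7)
      · exact h2 (by have := dvd_add hc h7; rwa [show (1 + a) + (1 - a) = 2 by ring] at this)
    · obtain ⟨h3, h4⟩ := h.1 hc
      have h5 : (q : ℤ) ∣ B := (dvd_pow_self _ two_ne_zero).trans h3
      have h6 : (q : ℤ) ∣ A ^ 2 * (1 + a) := by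
        have e : A ^ 2 * (1 + a) = (A ^ 2 * (1 + a) + B ^ 2 * (1 - a) + 2 * A * B * b +
          4 * r * k * (A ^ 2 + B ^ 2)) - B * (B * (1 - a) + 2 * A * b) -
            r * (4 * k * (A ^ 2 + B ^ 2)) := by ring
        rw [e]
        exact dvd_sub (dvd_sub hd (Dvd.dvd.mul_right h5 _)) (Dvd.dvd.mul_right hr' _)
      rcases hp.dvd_or_dvd h6 with h7 | h7
      · exact h4 (hp.dvd_of_dvd_pow h7)
      · exact hc h7
  · intro hd
    have h := hAB 2 (Finset.mem_insert_self _ _)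
    simp only [if_true] at h
    by_cases hc : (4 : ℤ) ∣ 1 + a
    · obtain ⟨h3, h4⟩ := h.2 (fun h' => h' hc)
      have h3' : (4 : ℤ) ∣ A := by
        have : ((2 : ℕ) : ℤ) ^ 2 = 4 := by norm_num
        rwa [this] at h3
      have h6 : (4 : ℤ) ∣ B ^ 2 * (1 - a) := by
        have e : B ^ 2 * (1 - a) = (A ^ 2 * (1 + a) + B ^ 2 * (1 - a) + 2 * A * B * b +
          4 * r * k * (A ^ 2 + B ^ 2)) - A * (A * (1 + a) + 2 * B * b) -
            4 * (r * k * (A ^ 2 + B ^ 2)) := by ring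
        rw [e]
        exact dvd_sub (dvd_sub hd (Dvd.dvd.mul_right h3' _)) (Dvd.intro _ rfl)
      have h4' : B % 2 = 1 := by
        have : ¬ (2 : ℤ) ∣ B := by exact_mod_cast h4
        omega
      obtain ⟨c, hc⟩ := hc
      obtain ⟨d, hd'⟩ : ∃ d, B = 2 * d + 1 := ⟨B / 2, by omega⟩
      obtain ⟨e, he⟩ := h6
      have h7 : 1 - a = 2 - 4 * c := by linarith
      rw [h7, hd'] at he
      have h8 : 4 * ((d ^ 2 + d) * (2 - 4 * c) - c - e) = -2 := by linear_combination he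
      omega
    · obtain ⟨h3, h4⟩ := h.1 hc
      have h3' : (4 : ℤ) ∣ B := by
        have : ((2 : ℕ) : ℤ) ^ 2 = 4 := by norm_num
        rwa [this] at h3
      have h6 : (4 : ℤ) ∣ A ^ 2 * (1 + a) := by
        have e : A ^ 2 * (1 + a) = (A ^ 2 * (1 + a) + B ^ 2 * (1 - a) + 2 * A * B * b +
          4 * r * k * (A ^ 2 + B ^ 2)) - B * (B * (1 - a) + 2 * A * b) -
            4 * (r * k * (A ^ 2 + B ^ 2)) := by ring
        rw [e]
        exact dvd_sub (dvd_sub hd (Dvd.dvd.mul_right h3' _)) (Dvd.intro _ rfl)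
      have h4' : A % 2 = 1 := by
        have : ¬ (2 : ℤ) ∣ A := by exact_mod_cast h4
        omega
      obtain ⟨d, hd'⟩ : ∃ d, A = 2 * d + 1 := ⟨A / 2, by omega⟩
      obtain ⟨e, he⟩ := h6
      rw [hd'] at he
      exact hc ⟨e - (d ^ 2 + d) * (1 + a), by linear_combination he⟩

theorem real_case (r : ℕ) (hr : 1 ≤ r) (χ : GaussianInt → ℂ) (hχ : ChiMod r χ) (hi : χ gI = 1)
    (hs : ∀ z, χ (star z) = χ z) (z : GaussianInt) (hz : (8 * r : ℤ) ∣ (nN z : ℤ) - 1) :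
    χ z = 1 := by
  have hN : (nN z : ℤ) = z.norm := by
    unfold nN
    exact Int.natAbs_of_nonneg (GaussianInt.norm_nonneg z)
  rw [hN] at hz
  obtain ⟨k, hk⟩ := hz
  obtain ⟨A, B, M, hM, hMq, hM4⟩ := hre_choice r hr z.re z.im k
  obtain ⟨α, hα⟩ : ∃ α : GaussianInt, α = ⟨A, B⟩ := ⟨_, rfl⟩
  obtain ⟨w, hw⟩ : ∃ w : GaussianInt, w = α + star α * z := ⟨_, rfl⟩
  have hnw : w.norm = 2 * M := by
    rw [hw, hα, hM]
    rw [Zsqrtd.norm_def] at hk ⊢
    simp only [Zsqrtd.re_mul, Zsqrtd.im_mul, Zsqrtd.re_add, Zsqrtd.im_add, Zsqrtd.re_star,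
      Zsqrtd.im_star]
    linear_combination (A ^ 2 + B ^ 2) * hk
  have hzz : z * star z = 1 + 8 * (r : GaussianInt) * (k : GaussianInt) := by
    rw [← Zsqrtd.norm_eq_mul_conj]
    have : z.norm = 1 + 8 * r * k := by linarith
    rw [this]
    push_cast
    ring
  have hws : z * star w = w + 8 * (r : GaussianInt) * ((k : GaussianInt) * α) := by
    rw [hw, star_add, star_mul, star_star]
    linear_combination α * hzz
  have hgm := hre_gI_mul
  have hnegI : χ (-gI) = 1 := by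
    have e : -gI = gI * (gI * gI) := by rw [hgm]; ring
    rw [e, hχ.mul, hχ.mul, hi]
    norm_num
  have hneg : χ (-1) = 1 := by
    rw [← hgm, hχ.mul, hi]
    norm_num
  have h2 : (2 : GaussianInt) ≠ 0 := two_ne_zero
  obtain ⟨w1, hw1⟩ := hre_two_dvd (y := w) (by rw [hnw]; exact Dvd.intro _ rfl)
  have hn1 : w1.norm = M := by
    have := congrArg Zsqrtd.norm hw1
    rw [hnw, Zsqrtd.norm_mul, hre_norm_gI] at this
    linarith
  by_cases h2M : (2 : ℤ) ∣ M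
  · obtain ⟨w2, hw2⟩ := hre_two_dvd (y := w1) (by rw [hn1]; exact h2M)
    have hn2 : M = 2 * w2.norm := by
      have := congrArg Zsqrtd.norm hw2
      rw [hn1, Zsqrtd.norm_mul, hre_norm_gI] at this
      exact this
    have hcop : IsCoprime w2 (r : GaussianInt) := by
      refine hre_cop r w2 (fun q hq hqr hqd => ?_)
      by_cases hq2 : q = 2
      · subst hq2
        obtain ⟨c, hc⟩ := hqd
        exact hM4 ⟨c, by rw [hn2, hc]; push_cast; ring⟩
      · exact hMq q hq hq2 hqr (by rw [hn2]; exact Dvd.dvd.mul_left hqd _)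
    refine hre_fin hχ hs (u := -1) (c := -4 * (k : GaussianInt) * α * gI) hneg hcop ?_
    have hst : star w = (1 - gI) * (1 - gI) * star w2 := by
      rw [hw1, hw2, star_mul, star_mul, star_add, star_one, hre_star_gI]
      ring
    have hww : w = (1 + gI) * (1 + gI) * w2 := by rw [hw1, hw2]; ring
    rw [hst] at hws
    apply mul_left_cancel₀ h2
    linear_combination (-gI) * hws + (-gI) * hww +
      (z * star w2 * (gI - 2) - w2 * gI - 2 * w2) * hgm
  · have hcop : IsCoprime w1 (r : GaussianInt) := by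
      refine hre_cop r w1 (fun q hq hqr hqd => ?_)
      rw [hn1] at hqd
      by_cases hq2 : q = 2
      · subst hq2
        exact h2M (by exact_mod_cast hqd)
      · exact hMq q hq hq2 hqr hqd
    refine hre_fin hχ hs (u := -gI) (c := 4 * (k : GaussianInt) * α * (1 - gI)) hnegI hcop ?_
    have hst : star w = (1 - gI) * star w1 := by
      rw [hw1, star_mul, star_add, star_one, hre_star_gI]
      ring
    rw [hst] at hws
    apply mul_left_cancel₀ h2
    linear_combination (1 - gI) * hws + (1 - gI) * hw1 + (-w1 - z * star w1) * hgm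

end Pool.Agent.LogCh.HG
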