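import Pool.Agent.Lib.LogCh.HPs

/-!
# HXc: `L(σ, χ)` is bounded for a nontrivial character `χ` modulo `r`

PROOF.  `T = (Finset.range r) ×ˢ (Finset.range r)`, `b = (i, j) ↦ i + j i` are representatives of
the Gaussian integers modulo `r`; by `per`, `χ z = χ (b z)` where `b z` is the representative
(`re mod r`, `im mod r`).
(1) `∑_{b ∈ T} χ b = 0`: multiplication by `z0` (prime to `r`) permutes the residues, so
`χ z0 * ∑ χ b = ∑ χ (z0 b) = ∑ χ b` and `χ z0 ≠ 1`.  (Multiplication by `z0` is injective modulo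
`r` because `z0` is a unit modulo `r`.)
(2) For `t ≥ 1`: `∑ z ∈ ann 0 t, χ z = ∑_{b ∈ T} χ b * #{z ∈ ann 0 t : z ≡ b mod r}
 = ∑_b χ b * (#{..b} - π t / r ^ 2)`, and `|#{z : 0 < N z ≤ t, z ≡ b mod r} - π t / r ^ 2| ≤ C_r √t`:
with `z = b + r w`, the condition is `|w + b / r| ≤ √t / r` (up to the element `z = 0`, error `≤ 1`),
and `√t / r - 2 ≤ |w| ≤ ..`: `{|w| ≤ √t/r - 2} ⊆ {|w + b/r| ≤ √t/r} ⊆ {|w| ≤ √t/r + 2}` as
`|b / r| ≤ √2 < 2`; the number of `w` with `0 < N w ≤ R ^ 2` is `π R ^ 2 + O (R + 1)` (`card_ann`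
with `a = 0`, `b = R ^ 2`), so the count is `π t / r ^ 2 + O_r (√t)` for `t ≥ 1`.
(Any variant is fine, e.g. comparing all classes with the class of `0`:
`|#_b - #_0| ≤ C_r √t`, and `∑ χ b #_b = ∑ χ b (#_b - #_0)`.)
(3) So `SS (aG χ) t ≤ C √t` for `t ≥ 1`; `PS2` with `U = 1`, `κ = 1/2`, `B = C + 4`
(`∑ k ∈ Ioc 1 ⌊t⌋₊` is `∑ k ∈ Icc 1 ⌊t⌋₊` minus the term `k = 1`, of norm `≤ r2 1 = 4`) gives
`‖LSeries (aG χ) σ‖ ≤ C' + 2 * 2 * B`, as `‖σ‖ ≤ 2`.
`‖aG χ n‖ ≤ r2 n` by `norm_aG_le` (`chi_norm_le` in H0).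
-/

set_option autoImplicit false

namespace Pool.Agent.LogCh.HG

open Real
open Pool.Agent.NSqP

private noncomputable def hxT (r : ℕ) : Finset (ℤ × ℤ) := Finset.Ico (0 : ℤ) r ×ˢ Finset.Ico (0 : ℤ) r

private def hxg (b : ℤ × ℤ) : GaussianInt := ⟨b.1, b.2⟩

private def hxr (r : ℕ) (z : GaussianInt) : ℤ × ℤ := (z.re % r, z.im % r)

private def hxq (r : ℕ) (z : GaussianInt) : GaussianInt := ⟨z.re / r, z.im / r⟩

private lemma hx_dec (r : ℕ) (z : GaussianInt) :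
    hxg (hxr r z) + (r : GaussianInt) * hxq r z = z := by
  apply Zsqrtd.ext
  · simp only [hxg, hxr, hxq, Zsqrtd.re_add, Zsqrtd.re_mul, Zsqrtd.re_natCast, Zsqrtd.im_natCast,
      mul_zero, zero_mul, add_zero]
    exact Int.emod_add_mul_ediv z.re r
  · simp only [hxg, hxr, hxq, Zsqrtd.im_add, Zsqrtd.im_mul, Zsqrtd.re_natCast, Zsqrtd.im_natCast,
      zero_mul, add_zero]
    exact Int.emod_add_mul_ediv z.im r

private lemma hx_mem {r : ℕ} (hr : 1 ≤ r) (z : GaussianInt) : hxr r z ∈ hxT r := by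
  have hr' : (0 : ℤ) < r := by exact_mod_cast hr
  rw [hxT, Finset.mem_product, Finset.mem_Ico, Finset.mem_Ico]
  exact ⟨⟨Int.emod_nonneg _ hr'.ne', Int.emod_lt_of_pos _ hr'⟩,
    ⟨Int.emod_nonneg _ hr'.ne', Int.emod_lt_of_pos _ hr'⟩⟩

private lemma hx_r {r : ℕ} {b : ℤ × ℤ} (hb : b ∈ hxT r) (w : GaussianInt) :
    hxr r (hxg b + (r : GaussianInt) * w) = b := by
  rw [hxT, Finset.mem_product, Finset.mem_Ico, Finset.mem_Ico] at hb
  simp only [hxg, hxr, Zsqrtd.re_add, Zsqrtd.re_mul, Zsqrtd.im_add, Zsqrtd.im_mul,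
    Zsqrtd.re_natCast, Zsqrtd.im_natCast, mul_zero, zero_mul, add_zero]
  rw [Int.add_mul_emod_self_left, Int.add_mul_emod_self_left, Int.emod_eq_of_lt hb.1.1 hb.1.2,
    Int.emod_eq_of_lt hb.2.1 hb.2.2]

private lemma hx_q {r : ℕ} (hr : 1 ≤ r) {b : ℤ × ℤ} (hb : b ∈ hxT r) (w : GaussianInt) :
    hxq r (hxg b + (r : GaussianInt) * w) = w := by
  have hr' : (r : ℤ) ≠ 0 := by
    have : (0 : ℤ) < r := by exact_mod_cast hr
    exact this.ne'
  rw [hxT, Finset.mem_product, Finset.mem_Ico, Finset.mem_Ico] at hb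
  simp only [hxg, hxq, Zsqrtd.re_add, Zsqrtd.re_mul, Zsqrtd.im_add, Zsqrtd.im_mul,
    Zsqrtd.re_natCast, Zsqrtd.im_natCast, mul_zero, zero_mul, add_zero]
  rw [Int.add_mul_ediv_left _ _ hr', Int.add_mul_ediv_left _ _ hr',
    Int.ediv_eq_zero_of_lt hb.1.1 hb.1.2, Int.ediv_eq_zero_of_lt hb.2.1 hb.2.2, zero_add, zero_add]

private lemma hx_chi {r : ℕ} {χ : GaussianInt → ℂ} (hχ : ChiMod r χ) (z : GaussianInt) :
    χ (hxg (hxr r z)) = χ z := by
  conv_rhs => rw [← hx_dec r z]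
  exact (hχ.per _ _).symm

private lemma hx_sum {r : ℕ} (hr : 1 ≤ r) {χ : GaussianInt → ℂ} (hχ : ChiMod r χ)
    {z0 : GaussianInt} (h0 : IsCoprime z0 (r : GaussianInt)) (h1 : χ z0 ≠ 1) :
    ∑ b ∈ hxT r, χ (hxg b) = 0 := by
  have hmaps : Set.MapsTo (fun b => hxr r (z0 * hxg b)) (hxT r : Set (ℤ × ℤ)) (hxT r) :=
    fun b _ => hx_mem hr _
  have hinj : Set.InjOn (fun b => hxr r (z0 * hxg b)) (hxT r : Set (ℤ × ℤ)) := by
    intro b hb b' hb' hbb
    simp only at hbb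
    have h2 : (r : GaussianInt) ∣ z0 * (hxg b - hxg b') := by
      refine ⟨hxq r (z0 * hxg b) - hxq r (z0 * hxg b'), ?_⟩
      have e1 := hx_dec r (z0 * hxg b)
      have e2 := hx_dec r (z0 * hxg b')
      rw [hbb] at e1
      linear_combination e2 - e1
    have h3 : (r : GaussianInt) ∣ hxg b - hxg b' := h0.symm.dvd_of_dvd_mul_left h2
    have h4 : ((r : ℤ) : GaussianInt) ∣ hxg b - hxg b' := by
      rw [Int.cast_natCast]; exact h3
    rw [Zsqrtd.intCast_dvd] at h4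
    obtain ⟨h5, h6⟩ := h4
    rw [Finset.mem_coe, hxT, Finset.mem_product, Finset.mem_Ico, Finset.mem_Ico] at hb hb'
    have h7 : b.1 = b'.1 := by
      have h8 : (r : ℤ) ∣ b.1 - b'.1 := by simpa [hxg] using h5
      have h9 := (Int.emod_emod_of_dvd b.1 (dvd_refl (r : ℤ)))
      have h10 : b.1 % r = b'.1 % r := Int.emod_eq_emod_iff_emod_sub_eq_zero.2
        (Int.emod_eq_zero_of_dvd h8)
      rwa [Int.emod_eq_of_lt hb.1.1 hb.1.2, Int.emod_eq_of_lt hb'.1.1 hb'.1.2] at h10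
    have h8 : b.2 = b'.2 := by
      have h8 : (r : ℤ) ∣ b.2 - b'.2 := by simpa [hxg] using h6
      have h10 : b.2 % r = b'.2 % r := Int.emod_eq_emod_iff_emod_sub_eq_zero.2
        (Int.emod_eq_zero_of_dvd h8)
      rwa [Int.emod_eq_of_lt hb.2.1 hb.2.2, Int.emod_eq_of_lt hb'.2.1 hb'.2.2] at h10
    exact Prod.ext h7 h8
  have hsurj := Finset.surjOn_of_injOn_of_card_le _ hmaps hinj le_rfl
  have h2 : ∑ b ∈ hxT r, χ (z0 * hxg b) = ∑ b ∈ hxT r, χ (hxg b) := by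
    refine Finset.sum_nbij (fun b => hxr r (z0 * hxg b)) (fun b hb => hmaps hb) hinj hsurj ?_
    intro b _
    exact (hx_chi hχ _).symm
  have h3 : ∑ b ∈ hxT r, χ (z0 * hxg b) = χ z0 * ∑ b ∈ hxT r, χ (hxg b) := by
    rw [Finset.mul_sum]
    exact Finset.sum_congr rfl fun b _ => hχ.mul _ _
  have h4 : (χ z0 - 1) * ∑ b ∈ hxT r, χ (hxg b) = 0 := by
    rw [sub_mul, one_mul, ← h3, h2, sub_self]
  exact (mul_eq_zero.1 h4).resolve_left (sub_ne_zero.2 h1)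

private lemma hx_norm_g {r : ℕ} {b : ℤ × ℤ} (hb : b ∈ hxT r) :
    ‖((hxg b : GaussianInt) : ℂ)‖ ≤ 2 * r := by
  rw [hxT, Finset.mem_product, Finset.mem_Ico, Finset.mem_Ico] at hb
  have h1 := norm_toC_sq (hxg b)
  rw [nN_real] at h1
  simp only [hxg] at h1 ⊢
  have a1 : (0 : ℝ) ≤ b.1 := by exact_mod_cast hb.1.1
  have a2 : (b.1 : ℝ) ≤ r := by exact_mod_cast hb.1.2.le
  have a3 : (0 : ℝ) ≤ b.2 := by exact_mod_cast hb.2.1
  have a4 : (b.2 : ℝ) ≤ r := by exact_mod_cast hb.2.2.le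
  have hr0 : (0 : ℝ) ≤ r := Nat.cast_nonneg r
  refine abs_le_of_sq_le_sq' ?_ (by positivity) |>.2
  rw [h1]
  nlinarith

private lemma hx_toC_mul (r : ℕ) (w : GaussianInt) :
    (((r : GaussianInt) * w : GaussianInt) : ℂ) = (r : ℂ) * (w : ℂ) := by
  rw [GaussianInt.toComplex_mul]
  congr 1
  simp

private lemma hx_ball_card : ∃ K : ℝ, 0 < K ∧ ∀ ρ : ℝ, 0 ≤ ρ →
    (((ann (-1) ((ρ + 2) ^ 2)).filter (fun w => ¬ (2 ≤ ρ ∧ (nN w : ℝ) ≤ (ρ - 2) ^ 2))).card : ℝ) ≤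
      K * (ρ + 1) := by
  classical
  obtain ⟨C, hC, h⟩ := card_ann
  obtain ⟨C2, hC2, h2⟩ := card_ann_le
  refine ⟨8 * π + 3 * C + 1 + 16 * C2, by positivity, fun ρ hρ => ?_⟩
  have hb : (0 : ℝ) ≤ (ρ + 2) ^ 2 := by positivity
  rcases lt_or_ge ρ 2 with h3 | h3
  · have hsub : (ann (-1) ((ρ + 2) ^ 2)).filter
        (fun w => ¬ (2 ≤ ρ ∧ (nN w : ℝ) ≤ (ρ - 2) ^ 2)) ⊆ insert 0 (ann 0 ((ρ + 2) ^ 2)) := by
      intro w hw
      rw [Finset.mem_filter, mem_ann hb] at hw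
      rw [Finset.mem_insert, mem_ann hb]
      by_cases h0 : w = 0
      · exact Or.inl h0
      · exact Or.inr ⟨by exact_mod_cast nN_pos h0, hw.1.2⟩
    have h4 : (((ann (-1) ((ρ + 2) ^ 2)).filter
        (fun w => ¬ (2 ≤ ρ ∧ (nN w : ℝ) ≤ (ρ - 2) ^ 2))).card : ℝ) ≤
        (ann 0 ((ρ + 2) ^ 2)).card + 1 := by
      exact_mod_cast (Finset.card_le_card hsub).trans (Finset.card_insert_le _ _)
    have h5 := h2 _ hb
    have h6 : (ρ + 2) ^ 2 ≤ 16 := by nlinarith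
    have h7 : C2 * (ρ + 2) ^ 2 ≤ C2 * 16 := mul_le_mul_of_nonneg_left h6 hC2.le
    have h8 : 0 ≤ (8 * π + 3 * C) := by positivity
    have h9 : 0 ≤ (8 * π + 3 * C + 1 + 16 * C2) * ρ := by positivity
    nlinarith
  · have ha : (0 : ℝ) ≤ (ρ - 2) ^ 2 := by positivity
    have hsub : (ann (-1) ((ρ + 2) ^ 2)).filter
        (fun w => ¬ (2 ≤ ρ ∧ (nN w : ℝ) ≤ (ρ - 2) ^ 2)) ⊆ ann ((ρ - 2) ^ 2) ((ρ + 2) ^ 2) := by
      intro w hw
      rw [Finset.mem_filter, mem_ann hb] at hw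
      rw [mem_ann hb]
      refine ⟨?_, hw.1.2⟩
      by_contra hc
      exact hw.2 ⟨h3, le_of_not_gt hc⟩
    have h4 : (((ann (-1) ((ρ + 2) ^ 2)).filter
        (fun w => ¬ (2 ≤ ρ ∧ (nN w : ℝ) ≤ (ρ - 2) ^ 2))).card : ℝ) ≤
        (ann ((ρ - 2) ^ 2) ((ρ + 2) ^ 2)).card := by
      exact_mod_cast Finset.card_le_card hsub
    have h5 := h ((ρ - 2) ^ 2) ((ρ + 2) ^ 2) ha (by nlinarith)
    rw [Real.sqrt_sq (by linarith)] at h5
    have h6 := (abs_le.1 h5).2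
    have h7 : π * ((ρ + 2) ^ 2 - (ρ - 2) ^ 2) = 8 * π * ρ := by ring
    rw [h7] at h6
    have hπ := Real.pi_pos
    have h8 : C * (ρ + 2 + 1) ≤ 3 * C * (ρ + 1) := by nlinarith
    have h9 : 0 ≤ (1 + 16 * C2) * (ρ + 1) := by positivity
    nlinarith

/-- partial sums of a nontrivial character -/
theorem chi_partial (r : ℕ) (hr : 1 ≤ r) (χ : GaussianInt → ℂ) (hχ : ChiMod r χ)
    (z0 : GaussianInt) (h0 : IsCoprime z0 (r : GaussianInt)) (h1 : χ z0 ≠ 1) :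
    ∃ C : ℝ, 0 < C ∧ ∀ t : ℝ, 1 ≤ t → ‖∑ z ∈ ann 0 t, χ z‖ ≤ C * √t := by
  classical
  obtain ⟨K, hK, hcard⟩ := hx_ball_card
  have hr0 : (1 : ℝ) ≤ r := by exact_mod_cast hr
  refine ⟨1 + 2 * (r : ℝ) ^ 2 * K, by positivity, fun t ht => ?_⟩
  have ht0 : (0 : ℝ) ≤ t := by linarith
  have hst : 1 ≤ √t := by
    rw [Real.one_le_sqrt]; exact ht
  set ρ : ℝ := √t / r with hρ
  have hρ0 : 0 ≤ ρ := by positivity
  have hρr : ρ * r = √t := by rw [hρ]; field_simp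
  have hρt : ρ ≤ √t := by
    rw [hρ]
    exact div_le_self (Real.sqrt_nonneg t) hr0
  have hb : (0 : ℝ) ≤ (ρ + 2) ^ 2 := by positivity
  -- the predicate of inner blocks
  let P : GaussianInt → Prop := fun w => 2 ≤ ρ ∧ (nN w : ℝ) ≤ (ρ - 2) ^ 2
  have hle : ∀ z : GaussianInt, (nN z : ℝ) ≤ t ↔ ‖(z : ℂ)‖ ≤ √t := by
    intro z
    rw [← norm_toC_sq, Real.le_sqrt (norm_nonneg _) ht0]
  -- zero
  have hS : ‖∑ z ∈ ann 0 t, χ z‖ ≤ ‖∑ z ∈ ann (-1) t, χ z‖ + 1 := by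
    have h2 : ann (-1) t = insert 0 (ann 0 t) := by
      ext z
      rw [Finset.mem_insert, mem_ann ht0, mem_ann ht0]
      constructor
      · rintro ⟨_, h4⟩
        by_cases hz : z = 0
        · exact Or.inl hz
        · exact Or.inr ⟨by exact_mod_cast nN_pos hz, h4⟩
      · rintro (hz | hz)
        · rw [hz, nN_zero]
          constructor
          · norm_num
          · simpa using ht0
        · exact ⟨by linarith [hz.1], hz.2⟩
    have h3 : (0 : GaussianInt) ∉ ann 0 t := fun h => ne_zero_of_mem_ann le_rfl h rfl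
    rw [h2, Finset.sum_insert h3]
    have h4 : ∑ z ∈ ann 0 t, χ z = (χ 0 + ∑ z ∈ ann 0 t, χ z) - χ 0 := by ring
    have h5 := norm_sub_le (χ 0 + ∑ z ∈ ann 0 t, χ z) (χ 0)
    rw [← h4] at h5
    linarith [chi_norm_le hχ 0]
  -- the inner blocks
  have hin : ∑ z ∈ (ann (-1) t).filter (fun z => P (hxq r z)), χ z = 0 := by
    have h2 : ∑ z ∈ (ann (-1) t).filter (fun z => P (hxq r z)), χ z =
        ∑ x ∈ ((ann (-1) ((ρ + 2) ^ 2)).filter P) ×ˢ (hxT r), χ (hxg x.2) := by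
      refine Finset.sum_nbij' (fun z => (hxq r z, hxr r z))
        (fun x => hxg x.2 + (r : GaussianInt) * x.1) ?_ ?_ ?_ ?_ ?_
      · intro z hz
        rw [Finset.mem_filter] at hz
        rw [Finset.mem_product, Finset.mem_filter, mem_ann hb]
        refine ⟨⟨⟨?_, ?_⟩, hz.2⟩, hx_mem hr z⟩
        · have : (0 : ℝ) ≤ nN (hxq r z) := Nat.cast_nonneg _
          simp only
          linarith
        · have := hz.2.2
          simp only
          nlinarith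
      · intro x hx
        rw [Finset.mem_product, Finset.mem_filter] at hx
        rw [Finset.mem_filter, mem_ann ht0]
        have hxq' := hx_q hr hx.2 x.1
        refine ⟨⟨?_, ?_⟩, ?_⟩
        · have : (0 : ℝ) ≤ nN (hxg x.2 + (r : GaussianInt) * x.1) := Nat.cast_nonneg _
          linarith
        · rw [hle, GaussianInt.toComplex_add, hx_toC_mul]
          refine (norm_add_le _ _).trans ?_
          rw [norm_mul, Complex.norm_natCast]
          have h5 := hx_norm_g hx.2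
          have h6 : ‖(x.1 : ℂ)‖ ≤ ρ - 2 := by
            refine abs_le_of_sq_le_sq' ?_ (by linarith [hx.1.2.1]) |>.2
            rw [norm_toC_sq]
            exact hx.1.2.2
          nlinarith
        · rw [hxq']
          exact hx.1.2
      · intro z _
        exact hx_dec r z
      · intro x hx
        rw [Finset.mem_product] at hx
        rw [hx_q hr hx.2, hx_r hx.2]
      · intro z _
        exact (hx_chi hχ z).symm
    rw [h2, Finset.sum_product]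
    refine Finset.sum_eq_zero fun w _ => ?_
    exact hx_sum hr hχ h0 h1
  -- the boundary blocks
  have hout : (((ann (-1) t).filter (fun z => ¬ P (hxq r z))).card : ℝ) ≤
      (r : ℝ) ^ 2 * (K * (ρ + 1)) := by
    have h2 : ((ann (-1) t).filter (fun z => ¬ P (hxq r z))).card ≤
        (((ann (-1) ((ρ + 2) ^ 2)).filter (fun w => ¬ P w)) ×ˢ (hxT r)).card := by
      refine Finset.card_le_card_of_injOn (fun z => (hxq r z, hxr r z)) ?_ ?_
      · intro z hz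
        rw [Finset.mem_coe, Finset.mem_filter, mem_ann ht0] at hz
        rw [Finset.mem_coe, Finset.mem_product, Finset.mem_filter, mem_ann hb]
        refine ⟨⟨⟨?_, ?_⟩, hz.2⟩, hx_mem hr z⟩
        · have : (0 : ℝ) ≤ nN (hxq r z) := Nat.cast_nonneg _
          simp only
          linarith
        · simp only
          rw [← norm_toC_sq]
          have h5 := hx_norm_g (hx_mem hr z)
          have h6 := (hle z).1 hz.1.2
          have h7 : (r : ℂ) * (hxq r z : ℂ) = (z : ℂ) - (hxg (hxr r z) : ℂ) := by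
            conv_rhs => rw [← hx_dec r z]
            rw [GaussianInt.toComplex_add, hx_toC_mul, hx_dec]
            ring
          have h8 : (r : ℝ) * ‖(hxq r z : ℂ)‖ ≤ √t + 2 * r := by
            have h9 : ‖(r : ℂ) * (hxq r z : ℂ)‖ ≤ √t + 2 * r := by
              rw [h7]
              exact (norm_sub_le _ _).trans (add_le_add h6 h5)
            rwa [norm_mul, Complex.norm_natCast] at h9
          have h9 : ‖(hxq r z : ℂ)‖ ≤ ρ + 2 := by
            have h10 : (r : ℝ) * ‖(hxq r z : ℂ)‖ ≤ r * (ρ + 2) := by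
              rw [← hρr] at h8
              linarith
            exact le_of_mul_le_mul_left h10 (by linarith)
          exact pow_le_pow_left₀ (norm_nonneg _) h9 2
      · intro z _ z' _ hzz
        simp only [Prod.mk.injEq] at hzz
        rw [← hx_dec r z, ← hx_dec r z', hzz.1, hzz.2]
    rw [Finset.card_product] at h2
    have h3 : (hxT r).card = r ^ 2 := by
      rw [hxT, Finset.card_product, Int.card_Ico]
      simp [sq]
    rw [h3] at h2
    have h4 := hcard ρ hρ0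
    have h5 : (((ann (-1) t).filter (fun z => ¬ P (hxq r z))).card : ℝ) ≤
        (((ann (-1) ((ρ + 2) ^ 2)).filter (fun w => ¬ P w)).card : ℝ) * (r : ℝ) ^ 2 := by
      exact_mod_cast h2
    refine h5.trans ?_
    rw [mul_comm]
    exact mul_le_mul_of_nonneg_left h4 (by positivity)
  have hsplit : ‖∑ z ∈ ann (-1) t, χ z‖ ≤ (r : ℝ) ^ 2 * (K * (ρ + 1)) := by
    rw [← Finset.sum_filter_add_sum_filter_not (ann (-1) t) (fun z => P (hxq r z)) χ, hin, zero_add]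
    refine (norm_sum_le _ _).trans ((Finset.sum_le_sum fun z _ => chi_norm_le hχ z).trans ?_)
    rw [Finset.sum_const, nsmul_eq_mul, mul_one]
    exact hout
  have hfin : (r : ℝ) ^ 2 * (K * (ρ + 1)) ≤ (r : ℝ) ^ 2 * (K * (2 * √t)) := by
    have : ρ + 1 ≤ 2 * √t := by linarith
    gcongr
  nlinarith

theorem Lchi_bdd (r : ℕ) (hr : 1 ≤ r) (χ : GaussianInt → ℂ) (hχ : ChiMod r χ)
    (z0 : GaussianInt) (h0 : IsCoprime z0 (r : GaussianInt)) (h1 : χ z0 ≠ 1) :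
    ∃ C : ℝ, 0 < C ∧ ∀ σ : ℝ, 1 < σ → σ ≤ 2 → ‖LSeries (aG χ) (σ : ℂ)‖ ≤ C := by
  obtain ⟨C, hC, hpart⟩ := chi_partial r hr χ hχ z0 h0 h1
  obtain ⟨C1, hC1, hps⟩ := PS2
  have ha : ∀ n : ℕ, 1 ≤ n → ‖aG χ n‖ ≤ r2 n := fun n hn =>
    norm_aG_le (fun z _ => chi_norm_le hχ z) hn
  have hr21 : 0 ≤ r2 1 := r2_nonneg 1
  refine ⟨C1 + 4 * (C + r2 1), by positivity, fun σ hσ hσ2 => ?_⟩
  have hB : ∀ t : ℝ, ((1 : ℕ) : ℝ) ≤ t →
      ‖∑ k ∈ Finset.Ioc 1 ⌊t⌋₊, aG χ k‖ ≤ (C + r2 1) * t ^ (1 - (1 / 2 : ℝ)) := by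
    intro t ht
    rw [Nat.cast_one] at ht
    have ht0 : (0 : ℝ) ≤ t := by linarith
    have h2 : ∑ z ∈ ann 0 t, χ z = ∑ n ∈ Finset.Icc 1 ⌊t⌋₊, aG χ n := sum_ann_zero χ ht0
    have h3 : 1 ≤ ⌊t⌋₊ := Nat.le_floor (by simpa using ht)
    have h4 : ∑ n ∈ Finset.Icc 1 ⌊t⌋₊, aG χ n = aG χ 1 + ∑ k ∈ Finset.Ioc 1 ⌊t⌋₊, aG χ k := by
      have h5 : Finset.Icc 1 ⌊t⌋₊ = insert 1 (Finset.Ioc 1 ⌊t⌋₊) := by
        ext n
        rw [Finset.mem_Icc, Finset.mem_insert, Finset.mem_Ioc]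
        omega
      rw [h5, Finset.sum_insert (by simp)]
    have h5 := hpart t ht
    rw [h2, h4] at h5
    have h6 : ∑ k ∈ Finset.Ioc 1 ⌊t⌋₊, aG χ k =
        (aG χ 1 + ∑ k ∈ Finset.Ioc 1 ⌊t⌋₊, aG χ k) - aG χ 1 := by ring
    have h7 := norm_sub_le (aG χ 1 + ∑ k ∈ Finset.Ioc 1 ⌊t⌋₊, aG χ k) (aG χ 1)
    rw [← h6] at h7
    have h8 := ha 1 le_rfl
    have h9 : t ^ (1 - (1 / 2 : ℝ)) = √t := by
      rw [Real.sqrt_eq_rpow]
      norm_num
    rw [h9]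
    have h10 : 1 ≤ √t := by rw [Real.one_le_sqrt]; exact ht
    nlinarith
  have h2 := hps (aG χ) ha (σ : ℂ) (by simpa using hσ) 1 le_rfl (C + r2 1) (1 / 2) (by positivity)
    (by norm_num) hB
  refine h2.trans ?_
  rw [Nat.cast_one, Real.log_one, Real.one_rpow, Complex.norm_real,
    Real.norm_of_nonneg (by linarith : (0 : ℝ) ≤ σ)]
  have h3 : σ * (C + r2 1) ≤ 2 * (C + r2 1) :=
    mul_le_mul_of_nonneg_right hσ2 (by positivity)
  have h4 : σ * (C + r2 1) * 1 / (1 / 2) = 2 * (σ * (C + r2 1)) := by ring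
  rw [h4]
  linarith

end Pool.Agent.LogCh.HG
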