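import Pool.Agent.Lib.LogCh.HQp
import Pool.Agent.Lib.LogCh.HFi
import Pool.Agent.Lib.LogCh.HXc
import Pool.Agent.Lib.LogCh.HRe
import Pool.Agent.Lib.LogCh.HDi
import Pool.Agent.Lib.NSqP.PiA

/-!
# HSb: a fixed character is far from `-1` on the Gaussian primes

PROOF of `chi_div`.  `S σ = QP (1 + re χ) σ`.
General step (*): if `ψ` is a character modulo `r`, one at `gI`, with `ψ z0 ≠ 1` for some `z0`
prime to `r`, then `QP (1 - re ψ) σ ≥ log (1/(σ-1)) - C_ψ` for `1 < σ ≤ 2`: `QP 1 σ ≥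
log (1/(σ-1)) - C` (`QP_one`), and `exp (QP (re ψ) σ) ≤ C ‖LSeries (aG ψ) σ‖ ≤ C'`
(`LB2` for `chi_GM`, `re_bP` with `t = 0` where `tw 0 f = f`, `Lchi_bdd`).
* Case (a): `χ z0 ^ 2 ≠ 1` for some `z0` prime to `r`.  `ψ = χ ^ 2`; for every `z`,
  `1 - re (χ z ^ 2) ≤ 4 (1 + re (χ z))` (`|χ z| = 1`: `1 - cos 2φ = 2 (1 - cos φ)(1 + cos φ)`;
  `χ z = 0`: `1 ≤ 4`); so `4 S σ ≥ QP (1 - re ψ) σ`.
* Case (b): `χ z ^ 2 = 1` for all `z` prime to `r` and `χ z0 * χ (star z0) ≠ 1` for some `z0` prime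
  to `r`.  `ψ z = χ z * χ (star z)` is a character modulo `r` (`star (r : GaussianInt) = r`, `star`
  is a ring homomorphism preserving coprimality to `r`), `ψ gI = χ gI * χ (-gI) = 1`.  Values
  `±1`: `1 - re ψ z ≤ (1 + re χ z) + (1 + re χ (star z))` (also if `χ z = 0`).  Symmetry: the map
  `z ↦ gI * star z` (exchange of coordinates) permutes each `sphP n` and
  `χ (gI * star z) = χ (star z)`, so `QP (1 + re χ (star z)) σ = S σ` and `2 S σ ≥ QP (1 - re ψ) σ`.
* Case (c): otherwise `χ z * χ (star z) = 1 = χ z ^ 2` for all `z` prime to `r`, so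
  `χ (star z) = χ z` for all `z` (both are zero if `z` is not prime to `r`).  By `real_case`,
  `χ z = 1` whenever `nN z ≡ 1` modulo `8 r`; every prime `p ≡ 1` modulo `8 r` is `1` modulo `4` and
  has at least one (even two, `exists_two_pi`) elements in `sphP p`, so
  `S σ ≥ 2 ∑_{p ≡ 1 (8r)} 1 / p ^ σ`, and `primes_ap` with `R = 8 r` applies
  (terms `(1 + re χ) ≥ 0` for all `z`).
In all cases `S σ → ∞` as `σ → 1`.
-/

set_option autoImplicit false

namespace Pool.Agent.LogCh.HG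

open Real
open Pool.Agent.NSqP

/-- step (*) -/
theorem nontriv_div (r : ℕ) (hr : 1 ≤ r) (ψ : GaussianInt → ℂ) (hψ : ChiMod r ψ)
    (hi : ψ gI = 1) (z0 : GaussianInt) (h0 : IsCoprime z0 (r : GaussianInt)) (h1 : ψ z0 ≠ 1) :
    ∃ C : ℝ, ∀ σ : ℝ, 1 < σ → σ ≤ 2 →
      log (1 / (σ - 1)) - C ≤ QP (fun z => 1 - (ψ z).re) σ := by
  obtain ⟨C1, hC1, hQ⟩ := QP_one
  obtain ⟨C2, hC2, hL⟩ := LB2
  obtain ⟨C3, hC3, hX⟩ := Lchi_bdd r hr ψ hψ z0 h0 h1
  refine ⟨C1 + log (C2 * C3), fun σ hσ hσ2 => ?_⟩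
  have hre : ∀ z, |(ψ z).re| ≤ 1 := fun z =>
    (Complex.abs_re_le_norm _).trans (chi_norm_le hψ z)
  have e1 : QP (fun z => 1 - (ψ z).re) σ + QP (fun z => (ψ z).re) σ = QP (fun _ => 1) σ := by
    rw [← QP_add (B := 2) (fun z _ => ?_) (fun z _ => (hre z).trans (by norm_num)) hσ]
    · congr 1
      funext z
      ring
    · have := abs_le.1 (hre z)
      rw [abs_le]
      constructor <;> linarith [this.1, this.2]
  have e2 : exp (QP (fun z => (ψ z).re) σ) ≤ C2 * C3 := by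
    have h2 := hL ψ (chi_GM hψ hi) (σ : ℂ) (by simpa using hσ)
    have h3 := re_bP (f := ψ) (fun z _ => chi_norm_le hψ z) hσ 0
    have h4 : ((σ : ℂ) + ((0 : ℝ) : ℂ) * Complex.I) = (σ : ℂ) := by simp
    have h5 : (fun z => (tw 0 ψ z).re) = fun z => (ψ z).re := by
      funext z
      unfold tw
      simp
    rw [h4, h5] at h3
    rw [← h3]
    exact h2.trans (mul_le_mul_of_nonneg_left (hX σ hσ hσ2) hC2.le)
  have e3 : QP (fun z => (ψ z).re) σ ≤ log (C2 * C3) :=
    (Real.le_log_iff_exp_le (by positivity)).2 e2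
  have e4 := (abs_le.1 (hQ σ hσ hσ2)).1
  linarith

private lemma hsb_fin {S : ℝ → ℝ} {K C : ℝ} (hK : 0 < K)
    (h : ∀ σ : ℝ, 1 < σ → σ ≤ 2 → log (1 / (σ - 1)) - C ≤ K * S σ) (M : ℝ) :
    ∃ δ : ℝ, 0 < δ ∧ ∀ σ : ℝ, 1 < σ → σ < 1 + δ → M ≤ S σ := by
  refine ⟨min 1 (exp (-(K * M + C))), lt_min one_pos (Real.exp_pos _), fun σ hσ hσδ => ?_⟩
  have h1 : σ - 1 < 1 := by
    have := min_le_left (1 : ℝ) (exp (-(K * M + C)))
    linarith
  have h2 : σ - 1 < exp (-(K * M + C)) := by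
    have := min_le_right (1 : ℝ) (exp (-(K * M + C)))
    linarith
  have h3 := h σ hσ (by linarith)
  have h4 : K * M + C ≤ log (1 / (σ - 1)) := by
    rw [one_div, Real.log_inv]
    have h5 : log (σ - 1) ≤ log (exp (-(K * M + C))) := Real.log_le_log (by linarith) h2.le
    rw [Real.log_exp] at h5
    linarith
  have h6 : K * M ≤ K * S σ := by linarith
  exact le_of_mul_le_mul_left h6 hK

private lemma hsb_vals {r : ℕ} {χ : GaussianInt → ℂ} (hχ : ChiMod r χ) (z : GaussianInt) :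
    χ z = 0 ∨ ‖χ z‖ = 1 := by
  by_cases h : IsCoprime z (r : GaussianInt)
  · exact Or.inr (hχ.norm z h)
  · exact Or.inl (hχ.zero z h)

private lemma hsb_sq {w : ℂ} (hw : w = 0 ∨ ‖w‖ = 1) : 1 - (w ^ 2).re ≤ 4 * (1 + w.re) := by
  rcases hw with rfl | hw
  · norm_num
  · have h1 : w.re ^ 2 + w.im ^ 2 = 1 := by
      have := Complex.sq_norm w
      rw [hw, Complex.normSq_apply] at this
      nlinarith
    have h2 : (w ^ 2).re = w.re ^ 2 - w.im ^ 2 := by
      rw [pow_two, Complex.mul_re]; ring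
    have h3 : -1 ≤ w.re := by nlinarith
    rw [h2]
    nlinarith

private lemma hsb_sq_val {w : ℂ} (hw : w ^ 2 = 1) : w = 1 ∨ w = -1 := by
  have : (w - 1) * (w + 1) = 0 := by linear_combination hw
  rcases mul_eq_zero.1 this with h | h
  · exact Or.inl (sub_eq_zero.1 h)
  · exact Or.inr (eq_neg_of_add_eq_zero_left h)

private lemma hsb_star_r (r : ℕ) : star (r : GaussianInt) = (r : GaussianInt) := by
  refine Zsqrtd.ext ?_ ?_ <;> simp

private lemma hsb_star_coprime {r : ℕ} {z : GaussianInt} (h : IsCoprime z (r : GaussianInt)) :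
    IsCoprime (star z) (r : GaussianInt) := by
  obtain ⟨a, b, hab⟩ := h
  refine ⟨star a, star b, ?_⟩
  have h1 := congrArg star hab
  rw [star_add, star_mul', star_mul', star_one, hsb_star_r] at h1
  exact h1

private lemma hsb_star_coprime_iff {r : ℕ} {z : GaussianInt} :
    IsCoprime (star z) (r : GaussianInt) ↔ IsCoprime z (r : GaussianInt) := by
  constructor
  · intro h
    have := hsb_star_coprime h
    rwa [star_star] at this
  · exact hsb_star_coprime

private lemma hsb_tau_re (z : GaussianInt) : (gI * star z).re = z.im := by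
  simp [gI, Zsqrtd.re_mul]

private lemma hsb_tau_im (z : GaussianInt) : (gI * star z).im = z.re := by
  simp [gI, Zsqrtd.im_mul]

private lemma hsb_tau_tau (z : GaussianInt) : gI * star (gI * star z) = z := by
  refine Zsqrtd.ext ?_ ?_
  · rw [hsb_tau_re, hsb_tau_im]
  · rw [hsb_tau_im, hsb_tau_re]

private lemma hsb_tau_mem {n : ℕ} {z : GaussianInt} (hz : z ∈ sphP n) : gI * star z ∈ sphP n := by
  rw [mem_sphP] at hz ⊢
  have hN : nN (gI * star z) = nN z := by rw [nN_mul, nN_gI, nN_star, one_mul]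
  refine ⟨hN.trans hz.1, ?_⟩
  obtain ⟨h1, h2, h3, h4⟩ := hz.2
  refine ⟨?_, ?_, ?_, ?_⟩
  · rw [hsb_tau_re]; exact h2
  · rw [hsb_tau_im]; exact h1
  · rw [hN]; exact h3
  · rw [hN]; exact h4

/-- symmetry under the exchange of coordinates -/
private lemma hsb_symm (F : GaussianInt → ℝ) (hF : ∀ z, F (gI * z) = F z) (σ : ℝ) :
    QP (fun z => F (star z)) σ = QP F σ := by
  unfold QP
  refine tsum_congr fun n => ?_
  congr 1
  refine Finset.sum_nbij' (fun z => gI * star z) (fun z => gI * star z)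
    (fun z hz => hsb_tau_mem hz) (fun z hz => hsb_tau_mem hz) (fun z _ => hsb_tau_tau z)
    (fun z _ => hsb_tau_tau z) (fun z _ => ?_)
  exact (hF (star z)).symm

theorem chi_div (r : ℕ) (hr : 1 ≤ r) (χ : GaussianInt → ℂ) (hχ : ChiMod r χ) (hi : χ gI = 1)
    (M : ℝ) : ∃ δ : ℝ, 0 < δ ∧ ∀ σ : ℝ, 1 < σ → σ < 1 + δ →
      M ≤ QP (fun z => 1 + (χ z).re) σ := by
  have hre : ∀ z, |(χ z).re| ≤ 1 := fun z =>
    (Complex.abs_re_le_norm _).trans (chi_norm_le hχ z)
  have hB : ∀ z, |1 + (χ z).re| ≤ 2 := fun z => by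
    have := abs_le.1 (hre z)
    rw [abs_le]
    constructor <;> linarith [this.1, this.2]
  by_cases ha : ∃ z0, IsCoprime z0 (r : GaussianInt) ∧ χ z0 ^ 2 ≠ 1
  · -- case (a)
    obtain ⟨z0, hz0, h1⟩ := ha
    have hψ : ChiMod r (fun z => χ z ^ 2) :=
      { mul := fun z w => by rw [hχ.mul, mul_pow]
        per := fun z w => by rw [hχ.per]
        zero := fun z hz => by rw [hχ.zero z hz]; norm_num
        norm := fun z hz => by rw [norm_pow, hχ.norm z hz, one_pow] }
    obtain ⟨C, hC⟩ := nontriv_div r hr (fun z => χ z ^ 2) hψ (by rw [hi, one_pow]) z0 hz0 h1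
    refine hsb_fin (K := 4) (C := C) (by norm_num) (fun σ hσ hσ2 => ?_) M
    refine (hC σ hσ hσ2).trans ?_
    rw [← QP_const]
    refine QP_mono (B := 8) (fun z _ => ?_) (fun z _ => ?_) (fun z _ => ?_) hσ
    · have h2 : |(χ z ^ 2).re| ≤ 1 :=
        (Complex.abs_re_le_norm _).trans (chi_norm_le hψ z)
      have := abs_le.1 h2
      rw [abs_le]
      constructor <;> linarith [this.1, this.2]
    · rw [abs_mul, abs_of_pos (by norm_num : (0 : ℝ) < 4)]
      linarith [hB z]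
    · exact hsb_sq (hsb_vals hχ z)
  push Not at ha
  by_cases hb : ∃ z0, IsCoprime z0 (r : GaussianInt) ∧ χ z0 * χ (star z0) ≠ 1
  · -- case (b)
    obtain ⟨z0, hz0, h1⟩ := hb
    have hψ : ChiMod r (fun z => χ z * χ (star z)) :=
      { mul := fun z w => by rw [star_mul', hχ.mul, hχ.mul]; ring
        per := fun z w => by
          rw [star_add, star_mul', hsb_star_r, hχ.per, hχ.per]
        zero := fun z hz => by rw [hχ.zero z hz, zero_mul]
        norm := fun z hz => by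
          rw [norm_mul, hχ.norm z hz, hχ.norm _ (hsb_star_coprime hz), one_mul] }
    have hu : χ (star gI) = 1 := by
      refine chi_unit hχ hi _ ?_
      refine IsUnit.of_mul_eq_one gI ?_
      refine Zsqrtd.ext ?_ ?_ <;> simp [gI]
    obtain ⟨C, hC⟩ := nontriv_div r hr (fun z => χ z * χ (star z)) hψ
      (by rw [hi, hu, one_mul]) z0 hz0 h1
    refine hsb_fin (K := 2) (C := C) (by norm_num) (fun σ hσ hσ2 => ?_) M
    refine (hC σ hσ hσ2).trans ?_
    have hsym := hsb_symm (fun z => 1 + (χ z).re) (fun z => by rw [hχ.mul, hi, one_mul]) σ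
    have h2 : QP (fun z => (1 + (χ z).re) + (1 + (χ (star z)).re)) σ =
        2 * QP (fun z => 1 + (χ z).re) σ := by
      rw [QP_add (B := 2) (fun z _ => hB z) (fun z _ => hB (star z)) hσ, hsym]
      ring
    rw [← h2]
    refine QP_mono (B := 4) (fun z _ => ?_) (fun z _ => ?_) (fun z _ => ?_) hσ
    · have h3 : |(χ z * χ (star z)).re| ≤ 1 :=
        (Complex.abs_re_le_norm _).trans (chi_norm_le hψ z)
      have := abs_le.1 h3
      rw [abs_le]
      constructor <;> linarith [this.1, this.2]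
    · have := abs_le.1 (hB z)
      have := abs_le.1 (hB (star z))
      rw [abs_le]
      constructor <;> linarith
    · by_cases hz : IsCoprime z (r : GaussianInt)
      · rcases hsb_sq_val (ha z hz) with e1 | e1 <;>
          rcases hsb_sq_val (ha _ (hsb_star_coprime hz)) with e2 | e2 <;>
            rw [e1, e2] <;> norm_num
      · rw [hχ.zero z hz, hχ.zero _ (fun h => hz (hsb_star_coprime_iff.1 h))]
        norm_num
  push Not at hb
  -- case (c)
  have hstar : ∀ z, χ (star z) = χ z := by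
    intro z
    by_cases hz : IsCoprime z (r : GaussianInt)
    · have e1 := ha z hz
      have e2 := hb z hz
      have e3 : χ z ≠ 0 := by
        intro h
        rw [h] at e1
        norm_num at e1
      have e4 : χ z * χ (star z) = χ z * χ z := by rw [e2, ← e1, pow_two]
      exact mul_left_cancel₀ e3 e4
    · rw [hχ.zero z hz, hχ.zero _ (fun h => hz (hsb_star_coprime_iff.1 h))]
  obtain ⟨δ, hδ, hM⟩ := primes_ap (8 * r) (by omega) M
  refine ⟨δ, hδ, fun σ hσ hσδ => ?_⟩
  obtain ⟨hsum, hle⟩ := hM σ hσ hσδ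
  refine hle.trans ?_
  unfold QP
  refine hsum.tsum_le_tsum (fun n => ?_) (QP_summable (B := 2) (fun z _ => hB z) hσ)
  have hF0 : ∀ z ∈ sphP n, 0 ≤ 1 + (χ z).re := fun z _ => by
    linarith [(abs_le.1 (hre z)).1]
  split_ifs with hn
  · obtain ⟨hp, hmod⟩ := hn
    have h8 : 1 % (8 * r) = 1 := Nat.mod_eq_of_lt (by omega)
    rw [h8] at hmod
    have h4 : n % 4 = 1 := by
      have h5 : n % (4 * (2 * r)) = 1 := by
        rw [← mul_assoc]; exact hmod
      have h6 := Nat.mod_mul_right_mod n 4 (2 * r)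
      rw [h5] at h6
      omega
    obtain ⟨z, _, _, hz, _, hzn, _⟩ := exists_two_pi hp h4
    have hmem : z ∈ sphP n := mem_sphP.2 ⟨hzn, hz⟩
    have hχ1 : χ z = 1 := by
      refine real_case r hr χ hχ hi hstar z ?_
      rw [hzn]
      have h7 : n = 8 * r * (n / (8 * r)) + 1 := by
        have := Nat.div_add_mod n (8 * r)
        omega
      refine ⟨((n / (8 * r) : ℕ) : ℤ), ?_⟩
      have h9 : (n : ℤ) = 8 * r * ((n / (8 * r) : ℕ) : ℤ) + 1 := by exact_mod_cast h7
      linarith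
    have h10 : (1 : ℝ) ≤ ∑ z ∈ sphP n, (1 + (χ z).re) := by
      refine le_trans ?_ (Finset.single_le_sum hF0 hmem)
      rw [hχ1]
      norm_num
    exact div_le_div_of_nonneg_right h10 (Real.rpow_nonneg (Nat.cast_nonneg _) _)
  · exact div_nonneg (Finset.sum_nonneg hF0) (Real.rpow_nonneg (Nat.cast_nonneg _) _)

end Pool.Agent.LogCh.HG
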