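import Pool.Agent.Lib.LogCh.HPs

/-!
# HWy: `L(σ + i τ, ξ ^ d)` is small compared with `log x`

PROOF.  `a = aG (fun z => xi z ^ d)`, `‖a n‖ ≤ r2 n` (`norm_aG_le`, `norm_xi_zpow`).  Let `C` be the
constant of `PS2` and `θ1 = min 1 (θ / (4 C))`, `A = 8 / θ1 ≥ 1`, `(κ, Y0)` from `hW A`; one may
assume `κ ≤ 1`.  For `x` large put `U = ⌈x ^ θ1⌉₊` (so `1 ≤ U`, `x ^ θ1 ≤ U ≤ 2 x ^ θ1`, `Y0 ≤ U`).
For `t ≥ U`: `∑ k ∈ Ioc U ⌊t⌋₊, a k = ∑ z ∈ ann U t, xi z ^ d` (`sum_ann`, `⌊(U:ℝ)⌋₊ = U`), and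
`|d| ≤ x ^ 4 ≤ t ^ (4/θ1) ≤ t ^ A` as `t ≥ x ^ θ1 ≥ 1`; so `hW` with `Y = t`, `a = U`, `b = t` gives
norm `≤ t ^ (1-κ)`.  `PS2` with `B = 1`:
`‖L‖ ≤ C (1 + log U) + |s| U ^ (-κ) / κ ≤ C (1 + log 2 + θ1 log x) +
(3 + (log x) ^ 3) x ^ (-θ1 κ) / κ ≤ C (2 + θ1 log x) + 1 ≤ θ log x` for `x` large
(`C θ1 ≤ θ/4`; `isLittleO_log_rpow_atTop` or similar for the second term).
-/

set_option autoImplicit false

namespace Pool.Agent.LogCh.HG

open Real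
open Pool.Agent.NSqP

/-- `(2 + (log x) ^ 3) x ^ (-c)` is bounded -/
private lemma hwy_bd {c x : ℝ} (hc : 0 < c) (hx : 1 ≤ x) (hl : 1 ≤ log x) :
    (2 + (log x) ^ 3) * x ^ (-c) ≤ 3 * (4 / c) ^ 3 := by
  have hx0 : 0 < x := by linarith
  have h1 : log x ≤ x ^ (c / 4) / (c / 4) := Real.log_le_rpow_div hx0.le (by positivity)
  have h2 : log x ≤ 4 / c * x ^ (c / 4) := by
    refine h1.trans (le_of_eq ?_)
    field_simp
  have h3 : (log x) ^ 3 ≤ (4 / c * x ^ (c / 4)) ^ 3 := pow_le_pow_left₀ (by linarith) h2 3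
  have h4 : (2 : ℝ) + (log x) ^ 3 ≤ 3 * (log x) ^ 3 := by
    have : (1 : ℝ) ≤ (log x) ^ 3 := one_le_pow₀ hl
    linarith
  have h5 : (x ^ (c / 4)) ^ 3 * x ^ (-c) ≤ 1 := by
    rw [← Real.rpow_natCast, ← Real.rpow_mul hx0.le, ← Real.rpow_add hx0]
    apply Real.rpow_le_one_of_one_le_of_nonpos hx
    push_cast
    linarith
  have hxc : 0 < x ^ (-c) := Real.rpow_pos_of_pos hx0 _
  calc (2 + (log x) ^ 3) * x ^ (-c) ≤ (3 * (log x) ^ 3) * x ^ (-c) :=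
        mul_le_mul_of_nonneg_right h4 hxc.le
    _ ≤ (3 * (4 / c * x ^ (c / 4)) ^ 3) * x ^ (-c) :=
        mul_le_mul_of_nonneg_right (mul_le_mul_of_nonneg_left h3 (by norm_num)) hxc.le
    _ = 3 * (4 / c) ^ 3 * ((x ^ (c / 4)) ^ 3 * x ^ (-c)) := by ring
    _ ≤ 3 * (4 / c) ^ 3 * 1 := mul_le_mul_of_nonneg_left h5 (by positivity)
    _ = _ := mul_one _

theorem Lxi_small (hW : W1AStmt) (θ : ℝ) (hθ : 0 < θ) : ∃ x0 : ℝ, ∀ x : ℝ, x0 ≤ x → ∀ d : ℤ,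
    d ≠ 0 → |(d : ℝ)| ≤ x ^ 4 → ∀ τ : ℝ, |τ| ≤ (log x) ^ 3 →
    ‖LSeries (aG (fun z => xi z ^ d)) (((1 + 1 / log x : ℝ) : ℂ) + (τ : ℂ) * Complex.I)‖ ≤
      θ * log x := by
  obtain ⟨C, hC, hPS⟩ := PS2
  set θ1 : ℝ := min 1 (θ / (4 * C)) with hθ1
  have hθ0 : 0 < θ1 := lt_min one_pos (by positivity)
  have hθ11 : θ1 ≤ 1 := min_le_left _ _
  have hCθ : C * θ1 ≤ θ / 4 := by
    have h : θ1 ≤ θ / (4 * C) := min_le_right _ _
    calc C * θ1 ≤ C * (θ / (4 * C)) := mul_le_mul_of_nonneg_left h hC.le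
      _ = θ / 4 := by field_simp
  have hA1 : 1 ≤ 8 / θ1 := by
    rw [le_div_iff₀ hθ0]; linarith
  obtain ⟨κ, hκ, Y0, hY⟩ := hW (8 / θ1) hA1
  have hc : 0 < θ1 * κ := by positivity
  have ev : ∀ᶠ x : ℝ in Filter.atTop, 1 ≤ x ∧ 1 ≤ log x ∧ Y0 ≤ x ^ θ1 ∧
      C * (1 + log 2) ≤ θ / 4 * log x ∧ 3 * (4 / (θ1 * κ)) ^ 3 / κ ≤ θ / 4 * log x := by
    have l1 : Filter.Tendsto (fun x : ℝ => θ / 4 * log x) Filter.atTop Filter.atTop :=
      Real.tendsto_log_atTop.const_mul_atTop (by positivity)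
    filter_upwards [Filter.eventually_ge_atTop (1 : ℝ),
      Real.tendsto_log_atTop.eventually_ge_atTop 1,
      (tendsto_rpow_atTop hθ0).eventually_ge_atTop Y0,
      l1.eventually_ge_atTop (C * (1 + log 2)),
      l1.eventually_ge_atTop (3 * (4 / (θ1 * κ)) ^ 3 / κ)] with x h1 h2 h3 h4 h5
    exact ⟨h1, h2, h3, h4, h5⟩
  obtain ⟨x0, hx0⟩ := Filter.eventually_atTop.1 ev
  refine ⟨x0, fun x hx d hd0 hd τ hτ => ?_⟩
  obtain ⟨hx1, hl1, hxY, hlC, hlK⟩ := hx0 x hx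
  have hxp : 0 < x := by linarith
  have hxθ : 1 ≤ x ^ θ1 := Real.one_le_rpow hx1 hθ0.le
  set U : ℕ := ⌈x ^ θ1⌉₊ with hU
  have hUge : x ^ θ1 ≤ U := Nat.le_ceil _
  have hUle : (U : ℝ) ≤ 2 * x ^ θ1 := by
    have := (Nat.ceil_lt_add_one (by positivity : 0 ≤ x ^ θ1)).le
    rw [← hU] at this
    linarith
  have hU1 : 1 ≤ U := by
    have : (1 : ℝ) ≤ U := hxθ.trans hUge
    exact_mod_cast this
  have hU0 : (0 : ℝ) < U := by exact_mod_cast hU1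
  set s : ℂ := ((1 + 1 / log x : ℝ) : ℂ) + (τ : ℂ) * Complex.I with hs
  have hlp : 0 < log x := by linarith
  have hsre : s.re = 1 + 1 / log x := by
    rw [hs]
    simp
  have hs1 : 1 < s.re := by
    rw [hsre]
    have : 0 < 1 / log x := by positivity
    linarith
  have hsn : ‖s‖ ≤ 2 + (log x) ^ 3 := by
    rw [hs]
    refine (norm_add_le _ _).trans ?_
    rw [norm_mul, Complex.norm_I, mul_one, Complex.norm_real, Complex.norm_real,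
      Real.norm_eq_abs, Real.norm_eq_abs]
    have h1 : |1 + 1 / log x| ≤ 2 := by
      have h2 : 1 / log x ≤ 1 := by
        rw [div_le_one hlp]; exact hl1
      have h3 : 0 ≤ 1 / log x := by positivity
      rw [abs_of_nonneg (by linarith)]
      linarith
    linarith
  have ha : ∀ n : ℕ, 1 ≤ n → ‖aG (fun z => xi z ^ d) n‖ ≤ r2 n := fun n hn =>
    norm_aG_le (fun z hz => (norm_xi_zpow hz d).le) hn
  have hsum : ∀ t : ℝ, (U : ℝ) ≤ t →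
      ‖∑ k ∈ Finset.Ioc U ⌊t⌋₊, aG (fun z => xi z ^ d) k‖ ≤ 1 * t ^ (1 - κ) := by
    intro t ht
    have ht0 : 0 ≤ t := hU0.le.trans ht
    have htx : x ^ θ1 ≤ t := hUge.trans ht
    have e1 : ∑ k ∈ Finset.Ioc U ⌊t⌋₊, aG (fun z => xi z ^ d) k =
        ∑ z ∈ ann (U : ℝ) t, xi z ^ d := by
      rw [sum_ann (fun z => xi z ^ d) hU0.le ht0, Nat.floor_natCast]
      rfl
    rw [e1, one_mul]
    refine hY t (hxY.trans htx) d hd0 ?_ U t hU0.le ht le_rfl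
    calc |(d : ℝ)| ≤ x ^ 4 := hd
      _ = x ^ (4 : ℝ) := by norm_cast
      _ ≤ x ^ (8 : ℝ) := Real.rpow_le_rpow_of_exponent_le hx1 (by norm_num)
      _ = (x ^ θ1) ^ (8 / θ1) := by
          rw [← Real.rpow_mul hxp.le]
          congr 1
          field_simp
      _ ≤ t ^ (8 / θ1) := Real.rpow_le_rpow (by positivity) htx (by positivity)
  have hmain := hPS (aG (fun z => xi z ^ d)) ha s hs1 U hU1 1 κ zero_le_one hκ hsum
  refine hmain.trans ?_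
  have hlogU : log U ≤ log 2 + θ1 * log x := by
    rw [← Real.log_rpow hxp, ← Real.log_mul (by norm_num) (by positivity)]
    exact Real.log_le_log hU0 hUle
  have hUk : (U : ℝ) ^ (-κ) ≤ x ^ (-(θ1 * κ)) := by
    calc (U : ℝ) ^ (-κ) ≤ (x ^ θ1) ^ (-κ) :=
          Real.rpow_le_rpow_of_nonpos (by positivity) hUge (by linarith)
      _ = x ^ (-(θ1 * κ)) := by
          rw [← Real.rpow_mul hxp.le]
          congr 1
          ring
  have t1 : C * (1 + log U) ≤ θ / 4 * log x + θ / 4 * log x := by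
    calc C * (1 + log U) ≤ C * (1 + (log 2 + θ1 * log x)) :=
          mul_le_mul_of_nonneg_left (by linarith) hC.le
      _ = C * (1 + log 2) + C * θ1 * log x := by ring
      _ ≤ θ / 4 * log x + θ / 4 * log x :=
          add_le_add hlC (mul_le_mul_of_nonneg_right hCθ hlp.le)
  have t2 : ‖s‖ * 1 * (U : ℝ) ^ (-κ) / κ ≤ θ / 4 * log x := by
    refine le_trans ?_ hlK
    apply div_le_div_of_nonneg_right _ hκ.le
    rw [mul_one]
    refine le_trans ?_ (hwy_bd hc hx1 hl1)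
    exact mul_le_mul hsn hUk (Real.rpow_nonneg hU0.le _) (by positivity)
  have t3 : θ / 4 * log x + θ / 4 * log x + θ / 4 * log x ≤ θ * log x := by nlinarith
  linarith

end Pool.Agent.LogCh.HG
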