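import Pool.Agent.Lib.LogCh.HSa
import Pool.Agent.Lib.LogCh.HSb
import Pool.Agent.Lib.LogCh.HWy

/-!
# HSc: the L-functions are small on the whole segment `|t| ≤ (log x) ^ 2`

PROOF of `HSUP`.  `σ = 1 + 1 / log x`, `σ - 1 = 1 / log x` (`x ≥ e`).  `K` from `chi_pow r`.
Let `C1` be the constant of `sup_general`, `C2` of `twist_lower`, `C3` of `QP_shift`, `C4` of
`L1_imag`.  Choose `θ ∈ (0, 1]` with `C1 * exp (- log (1 / (C2 θ)) / (16 K²)) ≤ δ`.
It suffices that `QP (1 + re tw t (χ ξ^m)) σ ≥ log (1/(C2 θ)) / (16 K²)` or `≥ log (C1 / δ)`.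
* Case `m ≠ 0`.  `d = 4 K m ≠ 0`, `|d| ≤ 4 K x ^ 3 ≤ x ^ 4` and `|4 K t| ≤ 4 K (log x)^2 ≤ (log x)^3` for
  `x` large: `Lxi_small hW θ` gives the hypothesis of `twist_lower`.
* Case `m = 0`, `|t| > K' / log x` with `K' = C4 / (2 K θ)` (so that
  `C4 / (4 K |t|) ≤ θ log x / 2`).  Then `ξ ^ (4 K m) = 1` on all elements with `z ≠ 0` (the value of
  `xi 0 ^ 0 = 1` too), and `L1_imag` with `τ = 4 K t`: `‖L‖ ≤ C4 (1 / (4 K |t|) +
  log (2 + 4 K |t|)) ≤ θ log x / 2 + C4 log (2 + 4 K (log x)^2) ≤ θ log x` for `x` large;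
  `twist_lower` applies.
* Case `m = 0`, `|t| ≤ K' / log x`.  Here `χ gI = 1` (`hu` with `m = 0`).  `QP_shift` (for `f = χ ξ^0`)
  `: QP (1 + re tw t (χ ξ^0)) σ ≥ QP (1 + re χ) σ - C3 |t| / (σ-1) ≥ QP (1 + re χ) σ - C3 K'`, which is
  `≥ log (C1 / δ)` for `x ≥ x0 (χ)` by `chi_div` (`M = C3 K' + log (C1/δ)`).  The set of all
  `ChiMod r χ` is finite (`chi_finite`): take the maximum of the `x0 (χ)`.
-/

set_option autoImplicit false

namespace Pool.Agent.LogCh.HG

open Real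
open Pool.Agent.NSqP

/-- uniform version of `chi_div` over the finitely many characters -/
theorem chi_div_unif (r : ℕ) (hr : 1 ≤ r) (M : ℝ) : ∃ δ : ℝ, 0 < δ ∧
    ∀ χ : GaussianInt → ℂ, ChiMod r χ → χ gI = 1 → ∀ σ : ℝ, 1 < σ → σ < 1 + δ →
      M ≤ QP (fun z => 1 + (χ z).re) σ := by
  have ev : ∀ᶠ σ in nhdsWithin (1 : ℝ) (Set.Ioi 1), ∀ χ ∈ {χ : GaussianInt → ℂ | ChiMod r χ},
      (χ gI = 1 → M ≤ QP (fun z => 1 + (χ z).re) σ) := by
    rw [Filter.eventually_all_finite (chi_finite r hr)]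
    intro χ hχ
    by_cases hi : χ gI = 1
    · obtain ⟨δ, hδ, h⟩ := chi_div r hr χ hχ hi M
      filter_upwards [Ioo_mem_nhdsGT (show (1 : ℝ) < 1 + δ by linarith)] with σ hσ _
      exact h σ hσ.1 hσ.2
    · filter_upwards with σ h
      exact absurd h hi
  obtain ⟨u, hu, hsub⟩ := (mem_nhdsGT_iff_exists_Ioo_subset).1 ev
  rw [Set.mem_Ioi] at hu
  refine ⟨u - 1, by linarith, fun χ hχ hi σ h1 h2 => ?_⟩
  exact hsub ⟨h1, by linarith⟩ χ hχ hi

private lemma hsc_norm_le {r : ℕ} {χ : GaussianInt → ℂ} (hχ : ChiMod r χ) (m : ℤ)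
    {z : GaussianInt} (hz : z ≠ 0) : ‖χ z * xi z ^ m‖ ≤ 1 := by
  rw [norm_mul, norm_xi_zpow hz, mul_one]
  exact chi_norm_le hχ z

private lemma hsc_norm_tw {f : GaussianInt → ℂ} {z : GaussianInt} (hz : z ≠ 0) (t : ℝ) :
    ‖tw t f z‖ = ‖f z‖ := by
  unfold tw
  have hn : 0 < nN z := nN_pos hz
  rw [norm_mul]
  have : ‖((nN z : ℕ) : ℂ) ^ (-(t : ℂ) * Complex.I)‖ = 1 := by
    rw [Complex.norm_natCast_cpow_of_pos hn]
    simp
  rw [this, mul_one]

theorem HSUP (hW : W1AStmt) (r : ℕ) (hr : 1 ≤ r) (δ : ℝ) (hδ : 0 < δ) : ∃ x0 : ℝ, ∀ x : ℝ,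
    x0 ≤ x → ∀ χ : GaussianInt → ℂ, ChiMod r χ → ∀ m : ℤ, |(m : ℝ)| ≤ x ^ 3 → ∀ H v : ℕ,
    1 ≤ H → χ gI * Complex.I ^ m = 1 → ∀ t : ℝ, |t| ≤ (log x) ^ 2 →
    ‖LSeries (aG (gg χ m H v)) (((1 + 1 / log x : ℝ) : ℂ) + (t : ℂ) * Complex.I)‖ ≤
      δ * log x := by
  obtain ⟨K, hK, hpow⟩ := chi_pow r hr
  obtain ⟨C1, hC1, hsup⟩ := sup_general
  obtain ⟨C2, hC2, htw⟩ := twist_lower
  obtain ⟨C3, hC3, hshift⟩ := QP_shift
  obtain ⟨C4, hC4, himag⟩ := L1_imag
  have hKr : (1 : ℝ) ≤ K := by exact_mod_cast hK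
  have hK0 : (0 : ℝ) < K := by linarith
  set θ : ℝ := (δ / C1) ^ (16 * K ^ 2) / C2 with hθdef
  have hθ : 0 < θ := by positivity
  have hθlog : log (1 / (C2 * θ)) / (16 * (K : ℝ) ^ 2) = log (C1 / δ) := by
    have e1 : C2 * θ = (δ / C1) ^ (16 * K ^ 2) := by
      rw [hθdef]; field_simp
    rw [e1, one_div, Real.log_inv, Real.log_pow, Real.log_div hδ.ne' hC1.ne',
      Real.log_div hC1.ne' hδ.ne']
    push_cast
    field_simp
    ring
  set K' : ℝ := C4 / (2 * K * θ) with hK'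
  have hK'0 : 0 < K' := by positivity
  obtain ⟨δ', hδ', hunif⟩ := chi_div_unif r hr (C3 * K' + log (C1 / δ))
  obtain ⟨x1, hx1⟩ := Lxi_small hW θ hθ
  have hlogy : ∀ᶠ y : ℝ in Filter.atTop, log (2 + 4 * K) + 2 * log y ≤ θ / (2 * C4) * y := by
    have e1 : ∀ᶠ y : ℝ in Filter.atTop, log (2 + 4 * K) ≤ θ / (4 * C4) * y :=
      (Filter.tendsto_id.const_mul_atTop (show 0 < θ / (4 * C4) by positivity)).eventually_ge_atTop _
    have e2 : ∀ᶠ y : ℝ in Filter.atTop, ‖log y‖ ≤ θ / (8 * C4) * ‖y‖ :=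
      Real.isLittleO_log_id_atTop.bound (by positivity)
    filter_upwards [e1, e2, Filter.eventually_ge_atTop (0 : ℝ)] with y h1 h2 h3
    rw [Real.norm_eq_abs, Real.norm_eq_abs, abs_of_nonneg h3] at h2
    have h4 := le_abs_self (log y)
    have e3 : θ / (2 * C4) * y = θ / (4 * C4) * y + 2 * (θ / (8 * C4) * y) := by
      field_simp
      ring
    rw [e3]
    linarith
  have ev : ∀ᶠ x : ℝ in Filter.atTop, x1 ≤ x ∧ 4 * (K : ℝ) ≤ x ∧ 1 ≤ log x ∧
      4 * (K : ℝ) ≤ log x ∧ 1 / log x < δ' ∧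
      log (2 + 4 * K) + 2 * log (log x) ≤ θ / (2 * C4) * log x := by
    have l0 := Real.tendsto_log_atTop
    filter_upwards [Filter.eventually_ge_atTop x1, Filter.eventually_ge_atTop (4 * (K : ℝ)),
      l0.eventually_ge_atTop 1, l0.eventually_ge_atTop (4 * (K : ℝ)),
      l0.eventually_gt_atTop (1 / δ'), l0.eventually hlogy] with x h1 h2 h3 h4 h5 h6
    refine ⟨h1, h2, h3, h4, ?_, h6⟩
    rw [div_lt_iff₀ (by linarith)]
    rw [div_lt_iff₀ hδ'] at h5
    linarith
  obtain ⟨x0, hx0⟩ := Filter.eventually_atTop.1 ev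
  refine ⟨x0, fun x hx χ hχ m hm H v hH hu t ht => ?_⟩
  obtain ⟨h1, h2, h3, h4, h5, h6⟩ := hx0 x hx
  have hlx : 0 < log x := by linarith
  have hxp : 0 < x := by linarith
  set σ : ℝ := 1 + 1 / log x with hσdef
  have hσ1 : 1 < σ := by
    have : 0 < 1 / log x := by positivity
    linarith
  have hσ2 : σ ≤ 2 := by
    have : 1 / log x ≤ 1 := by
      rw [div_le_one hlx]; exact h3
    linarith
  have hσm : σ - 1 = 1 / log x := by rw [hσdef]; ring
  have hdiv : ∀ c : ℝ, c / (σ - 1) = c * log x := by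
    intro c
    rw [hσm]
    field_simp
  -- the reduction
  have hred : log (C1 / δ) ≤ QP (fun z => 1 + (tw t (fun z => χ z * xi z ^ m) z).re) σ →
      ‖LSeries (aG (gg χ m H v)) ((σ : ℂ) + (t : ℂ) * Complex.I)‖ ≤ δ * log x := by
    intro hQ
    refine (hsup r χ hχ m H v hH hu σ hσ1 hσ2 t).trans ?_
    rw [hdiv]
    calc C1 * log x * exp (-QP (fun z => 1 + (tw t (fun z => χ z * xi z ^ m) z).re) σ) ≤
          C1 * log x * exp (-log (C1 / δ)) := by gcongr
      _ = δ * log x := by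
          rw [Real.exp_neg, Real.exp_log (by positivity)]
          field_simp
  apply hred
  have htwist : ‖LSeries (aG (fun z => xi z ^ (4 * (K : ℤ) * m)))
      ((σ : ℂ) + ((4 * K * t : ℝ) : ℂ) * Complex.I)‖ ≤ θ * log x →
      log (C1 / δ) ≤ QP (fun z => 1 + (tw t (fun z => χ z * xi z ^ m) z).re) σ := by
    intro hL
    have := htw r χ hχ K hK (hpow χ hχ) m σ hσ1 hσ2 t θ hθ (by rw [hdiv]; exact hL)
    rwa [hθlog] at this
  by_cases hm0 : m = 0
  · by_cases htl : K' / log x < |t|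
    · -- `m = 0`, `t` not too small
      apply htwist
      have hfun : (fun z : GaussianInt => xi z ^ (4 * (K : ℤ) * m)) = fun _ => 1 := by
        funext z
        rw [hm0, mul_zero, zpow_zero]
      rw [hfun]
      have ht0 : 0 < |t| := lt_trans (by positivity) htl
      have hτ0 : 4 * (K : ℝ) * t ≠ 0 := by
        have : t ≠ 0 := abs_pos.1 ht0
        positivity
      refine (himag σ (4 * K * t) hσ1 hσ2 hτ0).trans ?_
      have habs : |4 * (K : ℝ) * t| = 4 * K * |t| := by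
        rw [abs_mul, abs_of_pos (by positivity : (0 : ℝ) < 4 * K)]
      rw [habs]
      have t1 : C4 * (1 / (4 * K * |t|)) ≤ θ / 2 * log x := by
        have e1 : K' < |t| * log x := by
          rwa [div_lt_iff₀ hlx] at htl
        have e2 : C4 < 2 * K * θ * (|t| * log x) := by
          rw [hK', div_lt_iff₀ (by positivity)] at e1
          linarith
        rw [mul_one_div, div_le_iff₀ (by positivity)]
        nlinarith
      have t2 : C4 * log (2 + 4 * K * |t|) ≤ θ / 2 * log x := by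
        have e1 : log (2 + 4 * K * |t|) ≤ log (2 + 4 * K) + 2 * log (log x) := by
          have e2 : (2 : ℝ) + 4 * K * |t| ≤ (2 + 4 * K) * (log x) ^ 2 := by
            have e3 : (1 : ℝ) ≤ (log x) ^ 2 := one_le_pow₀ h3
            have e4 : 4 * (K : ℝ) * |t| ≤ 4 * K * (log x) ^ 2 := by gcongr
            nlinarith
          calc log (2 + 4 * K * |t|) ≤ log ((2 + 4 * K) * (log x) ^ 2) :=
                Real.log_le_log (by positivity) e2
            _ = log (2 + 4 * K) + 2 * log (log x) := by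
                rw [Real.log_mul (by positivity) (by positivity), Real.log_pow]
                push_cast
                ring
        calc C4 * log (2 + 4 * K * |t|) ≤ C4 * (θ / (2 * C4) * log x) :=
              mul_le_mul_of_nonneg_left (e1.trans h6) hC4.le
          _ = θ / 2 * log x := by field_simp
      calc C4 * (1 / (4 * K * |t|) + log (2 + 4 * K * |t|)) =
            C4 * (1 / (4 * K * |t|)) + C4 * log (2 + 4 * K * |t|) := by ring
        _ ≤ θ / 2 * log x + θ / 2 * log x := add_le_add t1 t2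
        _ = θ * log x := by ring
    · -- `m = 0`, `t` small
      push Not at htl
      have hi : χ gI = 1 := by
        rw [hm0, zpow_zero, mul_one] at hu
        exact hu
      have hQ := hunif χ hχ hi σ hσ1 (by rw [hσdef]; linarith)
      have hfn : ∀ z, IsPi z → ‖(fun z => χ z * xi z ^ m) z‖ ≤ 1 := fun z hz =>
        hsc_norm_le hχ m hz.ne_zero
      have hs := (abs_le.1 (hshift (fun z => χ z * xi z ^ m) hfn σ hσ1 hσ2 t)).1
      have hct : C3 * |t| / (σ - 1) ≤ C3 * K' := by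
        rw [hdiv]
        rw [le_div_iff₀ hlx] at htl
        calc C3 * |t| * log x = C3 * (|t| * log x) := by ring
          _ ≤ C3 * K' := mul_le_mul_of_nonneg_left htl hC3.le
      have hA : QP (fun z => 1 + (tw t (fun z => χ z * xi z ^ m) z).re) σ =
          QP (fun _ => 1) σ + QP (fun z => (tw t (fun z => χ z * xi z ^ m) z).re) σ :=
        QP_add (B := 1) (F := fun _ => 1) (fun z _ => by norm_num)
          (fun z hz => (Complex.abs_re_le_norm _).trans (by
            rw [hsc_norm_tw hz.ne_zero]; exact hfn z hz)) hσ1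
      have hB : QP (fun z => 1 + (χ z).re) σ =
          QP (fun _ => 1) σ + QP (fun z => (χ z).re) σ :=
        QP_add (B := 1) (F := fun _ => 1) (fun z _ => by norm_num)
          (fun z _ => (Complex.abs_re_le_norm _).trans (chi_norm_le hχ z)) hσ1
      have hC : (fun z : GaussianInt => ((fun z => χ z * xi z ^ m) z).re) =
          fun z => (χ z).re := by
        funext z
        simp only
        rw [hm0, zpow_zero, mul_one]
      rw [hC] at hs
      rw [hA]
      rw [hB] at hQ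
      linarith
  · -- `m ≠ 0`
    apply htwist
    have hm1 : (4 * (K : ℤ) * m) ≠ 0 := by
      have : (K : ℤ) ≠ 0 := by exact_mod_cast (by omega : K ≠ 0)
      positivity
    apply hx1 x h1 (4 * (K : ℤ) * m) hm1
    · push_cast
      rw [abs_mul, abs_of_pos (by positivity : (0 : ℝ) < 4 * K)]
      calc 4 * (K : ℝ) * |(m : ℝ)| ≤ x * x ^ 3 := by gcongr
        _ = x ^ 4 := by ring
    · rw [abs_mul, abs_of_pos (by positivity : (0 : ℝ) < 4 * K)]
      calc 4 * (K : ℝ) * |t| ≤ log x * (log x) ^ 2 := by gcongr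
        _ = (log x) ^ 3 := by ring

end Pool.Agent.LogCh.HG
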