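import Pool.Agent.Lib.LogCh.Defs

/-!
# Interface statements of the project (stubs)
-/

set_option autoImplicit false

namespace Pool.Agent.LogCh

open Real
open Pool.Agent.NSqP
open Pool.Agent.MP484c84Par (ballG mem_ballG crossG dotG)

/-! ## shared -/

theorem QQ_lower : ∃ C : ℕ, 2 ≤ C ∧ ∃ c : ℝ, 0 < c ∧ ∀ P : ℕ, 2 ≤ P →
    c * P / log P ≤ ((QQ C P).card : ℝ) := by
  sorry

/-- vectors on a line: at most `2 √(N / N u) + 1` vectors `v` of norm `≤ N` with determinant `m` -/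
theorem line_count (u : GaussianInt) (hu : Prim u) (m : ℤ) (N : ℕ) :
    (((ballG N).filter (fun v => crossG u v = m)).card : ℝ) ≤ 2 * √((N : ℝ) / nN u) + 1 := by
  sorry

/-! ## group W (helper34): Weyl sums with general exponent, Selberg majorant -/

theorem W1A (A : ℝ) (hA : 1 ≤ A) : ∃ κ : ℝ, 0 < κ ∧ ∃ Y0 : ℝ, ∀ Y : ℝ, Y0 ≤ Y → ∀ d : ℤ, d ≠ 0 →
    |(d : ℝ)| ≤ Y ^ A → ∀ a b : ℝ, 0 ≤ a → a ≤ b → b ≤ Y →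
      ‖∑ z ∈ ann a b, xi z ^ d‖ ≤ Y ^ (1 - κ) := by
  sorry

theorem W2A (A : ℝ) (hA : 1 ≤ A) : ∃ κ : ℝ, 0 < κ ∧ ∃ Y0 : ℝ, ∀ Y : ℝ, Y0 ≤ Y → ∀ d : ℤ, d ≠ 0 →
    |(d : ℝ)| ≤ Y ^ A → ∀ a b : ℝ, 0 ≤ a → a ≤ b → b ≤ Y →
      ‖∑ z ∈ pann a b, xi z ^ d‖ ≤ Y ^ (1 - κ) := by
  sorry

/-- large values over the primes of a block, at a small set `U` of frequencies -/
theorem LVP (A : ℝ) (hA : 1 ≤ A) : ∃ κ : ℝ, 0 < κ ∧ ∃ C : ℝ, 0 < C ∧ ∃ b0 : ℝ, ∀ (H v : ℕ)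
    (U : Finset ℤ) (f : GaussianInt → ℂ), 1 ≤ H → b0 ≤ exp ((v : ℝ) / H) →
    (∀ z, ‖f z‖ ≤ 1) → (∀ m ∈ U, |(m : ℝ)| ≤ exp (A * (v / H))) →
    (U.card : ℝ) ≤ exp (κ * (v / H)) →
    ∑ m ∈ U, ‖Pb f H v m‖ ^ 2 ≤ C * ((blk H v).card : ℝ) * exp ((v : ℝ) / H) / (v / H) := by
  sorry

/-! ## group H (helper61): Halasz over the Gaussian integers -/

open Classical in
theorem HALF (r : ℕ) (hr : 1 ≤ r) (ε : ℝ) (hε : 0 < ε) : ∃ x0 : ℝ, ∀ x : ℝ, x0 ≤ x →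
    ∀ χ : GaussianInt → ℂ, ChiMod r χ → ∀ m : ℤ, |(m : ℝ)| ≤ x ^ 2 → ∀ H v : ℕ, 1 ≤ H →
      ‖∑ z ∈ pann (x / 2) x, (if ∀ q ∈ blk H v, ¬ q ∣ z then (lam z : ℂ) * χ z * xi z ^ m
        else 0)‖ ≤ ε * x := by
  sorry

/-! ## group F (helper74): Matomaki-Radziwill for `λ χ` in arcs and residue classes -/

open Classical in
theorem MRC (r : ℕ) (hr : 1 ≤ r) (b : GaussianInt) (ρ ρ' : ℝ) (hρ : 0 ≤ ρ) (hρ' : ρ ≤ ρ')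
    (h1 : ρ' ≤ 1) (ε : ℝ) (hε : 0 < ε) : ∃ H0 N0 : ℕ, ∀ N : ℕ, N0 ≤ N → ∀ K : ℕ, 1 ≤ K →
      K * H0 ≤ N →
      ∑ i ∈ Finset.range K, |∑ z ∈ (pann (ρ * N) (ρ' * N)).filter
        (fun z => (r : GaussianInt) ∣ z - b ∧ arcI K z = i), lam z| ≤ ε * N := by
  sorry

/-! ## group D (helper52): equidistribution of determinant one pairs -/

open Classical in
theorem EQ1 (q : ℕ) (hq : 1 ≤ q) (ε : ℝ) (hε : 0 < ε) : ∃ N0 : ℕ, ∀ N : ℕ, N0 ≤ N →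
    ∀ z w z' w' : GaussianInt, (q : ℤ) ∣ crossG z w - 1 → (q : ℤ) ∣ crossG z' w' - 1 →
    |(((CP N).filter (fun p : GaussianInt × GaussianInt => (q : GaussianInt) ∣ p.1 - z ∧ (q : GaussianInt) ∣ p.2 - w)).card : ℝ)
      - ((CP N).filter (fun p : GaussianInt × GaussianInt => (q : GaussianInt) ∣ p.1 - z' ∧
          (q : GaussianInt) ∣ p.2 - w')).card| ≤ ε * N := by
  sorry

open Classical in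
theorem EQ2 (δ : ℝ) (hδ : 0 < δ) : ∃ C : ℝ, 0 < C ∧ ∀ (D : ℕ) (c : ℤ) (h : ℝ), 1 ≤ D → 0 < h →
    h ≤ 1 → ∃ N0 : ℕ, ∀ N : ℕ, N0 ≤ N → ∀ s t : ℝ, δ ≤ s → s ≤ 1 → δ ≤ t → t ≤ 1 →
      (((dpairs D N).filter (fun p : GaussianInt × GaussianInt => (D : GaussianInt) ∣ p.2 - (c : GaussianInt) * p.1 ∧
        s * N < nN p.1 ∧ (nN p.1 : ℝ) ≤ (s + h) * N ∧
        t * N < nN p.2 ∧ (nN p.2 : ℝ) ≤ (t + h) * N)).card : ℝ) ≤ C * h ^ 2 * N / D := by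
  sorry

/-! ## group B (helper96): entropy decrement, abstract -/

theorem ENT {Ω : Type} [Fintype Ω] (μ : Ω → ℝ) (hμ0 : ∀ ω, 0 ≤ μ ω) (hμ1 : ∑ ω, μ ω = 1)
    (T : Equiv.Perm Ω) (hT : ∀ ω, μ (T ω) = μ ω)
    {𝒳 : Type} [DecidableEq 𝒳] (X : Ω → 𝒳) (h0 : ℝ) (hX : ent μ X ≤ h0)
    (𝒴 : ℕ → Type) [∀ q, Fintype (𝒴 q)] [∀ q, DecidableEq (𝒴 q)] [∀ q, Nonempty (𝒴 q)]
    (Y : ∀ q, Ω → 𝒴 q) (φ : ∀ q, 𝒳 → Equiv.Perm (𝒴 q))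
    (hY : ∀ q ω, Y q (T ω) = φ q (X ω) (Y q ω))
    (J : ℕ) (L m : ℕ → ℕ) (hL0 : 1 ≤ L 0) (hm : ∀ j, 1 ≤ m j) (hL : ∀ j, L (j + 1) = m j * L j)
    (I : ℕ → Finset ℕ) (ε ϑ : ℝ) (hε : 0 < ε) (hϑ : 0 ≤ ϑ) (h1 : ε + ϑ ≤ 1)
    (hU : ∀ j < J, ∀ y : (∀ q, 𝒴 q),
      (∑ ω, if ∀ q ∈ I j, Y q ω = y q then μ ω else 0) * ∏ q ∈ I j, (Fintype.card (𝒴 q) : ℝ) ≤
        1 + ϑ)
    (hnum : h0 < ∑ j ∈ Finset.range J, (ε * (I j).card / L j -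
      (∑ q ∈ I j, log (Fintype.card (𝒴 q))) / L (j + 1))) :
    ∃ j < J, ∀ B : ℝ, 1 ≤ B → ∀ ψ : ∀ q : ℕ, (Fin (L j) → 𝒳) → 𝒴 q → ℝ,
      (∀ q x y, |ψ q x y| ≤ B) → (∀ q x, ∑ y, ψ q x y = 0) →
      |∑ q ∈ I j, ∑ ω, μ ω * ψ q (fun i => X ((T ^ (i : ℕ)) ω)) (Y q ω)| ≤
        3 * B * √(ε + ϑ) * (I j).card := by
  sorry

/-! ## group A (helper20): Farey process; from `ENT` and `EQ1` to the decrement theorem -/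

theorem DECR (C1 : ℕ) (c : ℝ) (hC1 : 2 ≤ C1) (hc : 0 < c)
    (hQ : ∀ P : ℕ, 2 ≤ P → c * P / log P ≤ ((QQ C1 P).card : ℝ))
    (a a' b b' : ℝ) (ha : 0 < a) (haa : a < a') (ha1 : a' ≤ 1) (hb : 0 < b) (hbb : b < b')
    (hb1 : b' ≤ 1) (ε : ℝ) (hε : 0 < ε) (P0 : ℕ) :
    ∃ P1 X0 : ℕ, ∀ X : ℕ, X0 ≤ X → ∃ P : ℕ, P0 ≤ P ∧ P ≤ P1 ∧
      |∑ N ∈ Finset.Icc 1 X, pairSum 1 a a' b b' N / (N : ℝ) ^ 2| ≤ ε * log X +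
        ∑ N ∈ Finset.Icc 1 X, |∑ q ∈ QQ C1 P, pairSum q a a' b b' N| /
          ((N : ℝ) ^ 2 * (QQ C1 P).card) := by
  sorry

/-! ## group E (helper26): the kernel; from `MRC` and `EQ2` -/

theorem MAINB (C1 : ℕ) (c : ℝ) (hC1 : 2 ≤ C1) (hc : 0 < c)
    (hQ : ∀ P : ℕ, 2 ≤ P → c * P / log P ≤ ((QQ C1 P).card : ℝ))
    (a a' b b' : ℝ) (ha : 0 < a) (haa : a < a') (ha1 : a' ≤ 1) (hb : 0 < b) (hbb : b < b')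
    (hb1 : b' ≤ 1) (ε : ℝ) (hε : 0 < ε) :
    ∃ P0 : ℕ, ∀ P : ℕ, P0 ≤ P → ∃ N0 : ℕ, ∀ N : ℕ, N0 ≤ N →
      |∑ q ∈ QQ C1 P, pairSum q a a' b b' N| ≤ ε * N * (QQ C1 P).card := by
  sorry

/-! ## final -/

theorem LOGC (a a' b b' : ℝ) (ha : 0 < a) (haa : a < a') (ha1 : a' ≤ 1) (hb : 0 < b) (hbb : b < b')
    (hb1 : b' ≤ 1) (ε : ℝ) (hε : 0 < ε) : ∃ X0 : ℕ, ∀ X : ℕ, X0 ≤ X →
      |∑ N ∈ Finset.Icc 1 X, pairSum 1 a a' b b' N / (N : ℝ) ^ 2| ≤ ε * log X := by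
  sorry

/-- the main theorem -/
theorem main (α β : ℝ) (hα : 0 < α) (hαβ : α < β) :
    Filter.Tendsto (fun x : ℕ => (1 / log x) * ∑ n ∈ Finset.Icc 1 x,
      ((ArithmeticFunction.liouville (n ^ 2 + 1) : ℤ) : ℝ) / n *
        (((n ^ 2 + 1).divisors.filter (fun d : ℕ => α * n < d ∧ (d : ℝ) ≤ β * n)).card : ℝ))
      Filter.atTop (nhds 0) := by
  sorry

end Pool.Agent.LogCh
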