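import Pool.Agent.Lib.LogCh.WDf
import Pool.Agent.Lib.NSqP.WBad

/-!
# Group W: counting the exceptional points (general `k`)
-/

set_option autoImplicit false

namespace Pool.Agent.LogCh

open Real
open Pool.Agent.NSqP

private lemma bl_card_int (S : Finset ℤ) (X : ℝ) (hX : 0 ≤ X) (hS : ∀ x ∈ S, |(x : ℝ)| ≤ X) :
    (S.card : ℝ) ≤ 2 * X + 1 := by
  have hsub : S ⊆ Finset.Icc (-⌊X⌋) ⌊X⌋ := by
    intro x hx
    have h := abs_le.1 (hS x hx)
    rw [Finset.mem_Icc]
    constructor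
    · have : (-x : ℤ) ≤ ⌊X⌋ := Int.le_floor.2 (by push_cast; linarith [h.1])
      linarith
    · exact Int.le_floor.2 h.2
  have h1 := Finset.card_le_card hsub
  rw [Int.card_Icc] at h1
  have h0 : 0 ≤ ⌊X⌋ := Int.floor_nonneg.2 hX
  have h2 : ((⌊X⌋ + 1 - -⌊X⌋).toNat : ℤ) = 2 * ⌊X⌋ + 1 := by
    rw [Int.toNat_of_nonneg (by linarith)]
    ring
  have h3 : ((⌊X⌋ + 1 - -⌊X⌋).toNat : ℝ) = 2 * (⌊X⌋ : ℝ) + 1 := by exact_mod_cast h2
  have h4 : (S.card : ℝ) ≤ ((⌊X⌋ + 1 - -⌊X⌋).toNat : ℝ) := by exact_mod_cast h1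
  have h5 : (⌊X⌋ : ℝ) ≤ X := Int.floor_le X
  linarith

private lemma bl_span (S : Finset ℤ) (L : ℝ) (hL : 0 ≤ L)
    (hS : ∀ x ∈ S, ∀ y ∈ S, (x : ℝ) - y ≤ L) : (S.card : ℝ) ≤ L + 1 := by
  rcases S.eq_empty_or_nonempty with rfl | hne
  · simp only [Finset.card_empty, Nat.cast_zero]
    linarith
  · set a := S.min' hne with ha
    set b := S.max' hne with hb
    have haS : a ∈ S := S.min'_mem hne
    have hbS : b ∈ S := S.max'_mem hne
    have hab : a ≤ b := S.min'_le_max' hne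
    have hsub : S ⊆ Finset.Icc a b := by
      intro x hx
      rw [Finset.mem_Icc]
      exact ⟨S.min'_le x hx, S.le_max' x hx⟩
    have h1 := Finset.card_le_card hsub
    rw [Int.card_Icc] at h1
    have h2 : ((b + 1 - a).toNat : ℤ) = b + 1 - a := Int.toNat_of_nonneg (by linarith)
    have h3 : ((b + 1 - a).toNat : ℝ) = (b : ℝ) + 1 - a := by exact_mod_cast h2
    have h4 : (S.card : ℝ) ≤ ((b + 1 - a).toNat : ℝ) := by exact_mod_cast h1
    have h5 := hS b hbS a haS
    linarith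

private lemma bl_fiber (S : Finset GaussianInt) (Y K : ℝ) (hY : 0 ≤ Y) (hK : 0 ≤ K)
    (hS : ∀ z ∈ S, |(z.im : ℝ)| ≤ Y)
    (hf : ∀ y : ℤ, ((S.filter (fun z => z.im = y)).card : ℝ) ≤ K) :
    (S.card : ℝ) ≤ (2 * Y + 1) * K := by
  classical
  have h1 : S.card = ∑ y ∈ S.image (fun z : GaussianInt => z.im),
      (S.filter (fun z => z.im = y)).card := Finset.card_eq_sum_card_image _ _
  have h2 : (S.card : ℝ) = ∑ y ∈ S.image (fun z : GaussianInt => z.im),
      ((S.filter (fun z => z.im = y)).card : ℝ) := by exact_mod_cast h1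
  have h3 : ∑ y ∈ S.image (fun z : GaussianInt => z.im),
      ((S.filter (fun z => z.im = y)).card : ℝ)
      ≤ (S.image (fun z : GaussianInt => z.im)).card * K := by
    refine (Finset.sum_le_sum (fun y _ => hf y)).trans ?_
    rw [Finset.sum_const, nsmul_eq_mul]
  have h4 : ((S.image (fun z : GaussianInt => z.im)).card : ℝ) ≤ 2 * Y + 1 := by
    apply bl_card_int _ Y hY
    intro x hx
    obtain ⟨z, hz, rfl⟩ := Finset.mem_image.1 hx
    exact hS z hz
  calc (S.card : ℝ) ≤ (S.image (fun z : GaussianInt => z.im)).card * K := by rw [h2]; exact h3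
    _ ≤ (2 * Y + 1) * K := mul_le_mul_of_nonneg_right h4 hK

private lemma bl_fib_card (S : Finset GaussianInt) (y : ℤ) :
    (S.filter (fun z => z.im = y)).card
      = ((S.filter (fun z => z.im = y)).image (fun z : GaussianInt => z.re)).card := by
  classical
  refine (Finset.card_image_of_injOn ?_).symm
  intro z hz w hw h
  have h1 := (Finset.mem_filter.1 (Finset.mem_coe.1 hz)).2
  have h2 := (Finset.mem_filter.1 (Finset.mem_coe.1 hw)).2
  exact Zsqrtd.ext h (h1.trans h2.symm)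

/-- the strip `|x a - y c| < s` with `|a| ≥ 7/10` -/
private lemma bl_strip (S : Finset GaussianInt) (M s a c : ℝ) (hM : 1 ≤ M) (hs : 1 ≤ s)
    (ha : 7 / 10 ≤ |a|)
    (hS : ∀ z ∈ S, |(z.im : ℝ)| ≤ M ∧ |(z.re : ℝ) * a - (z.im : ℝ) * c| < s) :
    (S.card : ℝ) ≤ 12 * M * s := by
  classical
  have h1 := bl_fiber S M (3 * s + 1) (by linarith) (by linarith) (fun z hz => (hS z hz).1) ?_
  · have h2 : (2 * M + 1) * (3 * s + 1) ≤ (3 * M) * (4 * s) := by
      apply mul_le_mul (by linarith) (by linarith) (by linarith) (by linarith)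
    linarith
  · intro y
    rw [bl_fib_card]
    apply bl_span _ (3 * s) (by linarith)
    intro x hx x' hx'
    obtain ⟨z, hz, rfl⟩ := Finset.mem_image.1 hx
    obtain ⟨z', hz', rfl⟩ := Finset.mem_image.1 hx'
    obtain ⟨hz1, hz2⟩ := Finset.mem_filter.1 hz
    obtain ⟨hz1', hz2'⟩ := Finset.mem_filter.1 hz'
    have e1 := (hS z hz1).2
    have e2 := (hS z' hz1').2
    rw [hz2] at e1
    rw [hz2'] at e2
    have e3 : |((z.re : ℝ) - z'.re) * a| < 2 * s := by
      have e4 : ((z.re : ℝ) - z'.re) * a = ((z.re : ℝ) * a - (y : ℝ) * c)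
          - ((z'.re : ℝ) * a - (y : ℝ) * c) := by ring
      rw [e4]
      exact (abs_sub _ _).trans_lt (by linarith)
    rw [abs_mul] at e3
    have e5 : (z.re : ℝ) - z'.re ≤ |(z.re : ℝ) - z'.re| := le_abs_self _
    have e6 : |(z.re : ℝ) - z'.re| * (7 / 10) ≤ |(z.re : ℝ) - z'.re| * |a| :=
      mul_le_mul_of_nonneg_left ha (abs_nonneg _)
    nlinarith

private lemma bl_abs {b : ℝ} (hb0 : 0 ≤ b) {z : GaussianInt} (hz : z ∈ ann 0 b) :
    |(z.re : ℝ)| ≤ Real.sqrt b ∧ |(z.im : ℝ)| ≤ Real.sqrt b := by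
  have h := ((mem_ann hb0).1 hz).2
  rw [nN_real] at h
  constructor
  · apply Real.abs_le_sqrt
    nlinarith [sq_nonneg (z.im : ℝ)]
  · apply Real.abs_le_sqrt
    nlinarith [sq_nonneg (z.re : ℝ)]

/-- Adapt `NSqP/WBad.lean`. For each `j < k` one of `|sin (π j / k)|`, `|cos (π j / k)|` is `≥ 7/10`.
If it is the sine: for a fixed row `y = im z` the `x = re z` with
`|x sin - y cos| < s` lie in an interval of length `≤ 2 s / (7/10)`, so there are at most
`3 s + 1 ≤ 4 s` of them, and there are at most `2 M + 1 ≤ 3 M` rows (`|im z| ≤ √b ≤ M`). If it is the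
cosine exchange the roles of `re` and `im`. Total `≤ 12 k M s`. -/
theorem card_badL (k : ℕ) (hk : 1 ≤ k) (M s b : ℝ) (hM : 1 ≤ M) (hs : 1 ≤ s) (hb0 : 0 ≤ b)
    (hb : b ≤ M ^ 2) (S : Finset GaussianInt)
    (hS : ∀ z ∈ S, z ∈ ann 0 b ∧ BadL k s (z.re : ℝ) (z.im : ℝ)) :
    (S.card : ℝ) ≤ 20 * k * M * s := by
  classical
  have hsb : Real.sqrt b ≤ M := by
    rw [Real.sqrt_le_left (by linarith)]
    exact hb
  have hre : ∀ z ∈ S, |(z.re : ℝ)| ≤ M := fun z hz => (bl_abs hb0 (hS z hz).1).1.trans hsb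
  have him : ∀ z ∈ S, |(z.im : ℝ)| ≤ M := fun z hz => (bl_abs hb0 (hS z hz).1).2.trans hsb
  set F : ℕ → Finset GaussianInt := fun j => S.filter fun z =>
    |(z.re : ℝ) * Real.sin (π * j / k) - (z.im : ℝ) * Real.cos (π * j / k)| < s with hF
  have hFc : ∀ j, ((F j).card : ℝ) ≤ 12 * M * s := by
    intro j
    have hsc := Real.sin_sq_add_cos_sq (π * j / k)
    rcases le_or_gt (7 / 10) |Real.sin (π * j / k)| with h | h
    · refine bl_strip (F j) M s _ (Real.cos (π * j / k)) hM hs h ?_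
      intro z hz
      obtain ⟨hz1, hz2⟩ := Finset.mem_filter.1 hz
      exact ⟨him z hz1, hz2⟩
    · have hcos : 7 / 10 ≤ |Real.cos (π * j / k)| := by
        by_contra hlt
        push Not at hlt
        have e1 : Real.sin (π * j / k) ^ 2 < (7 / 10) ^ 2 := by
          rw [← sq_abs (Real.sin (π * j / k))]
          exact pow_lt_pow_left₀ h (abs_nonneg _) two_ne_zero
        have e2 : Real.cos (π * j / k) ^ 2 < (7 / 10) ^ 2 := by
          rw [← sq_abs (Real.cos (π * j / k))]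
          exact pow_lt_pow_left₀ hlt (abs_nonneg _) two_ne_zero
        norm_num at e1 e2
        linarith
      have hinj : Function.Injective fun z : GaussianInt => (⟨z.im, z.re⟩ : GaussianInt) := by
        intro z w hzw
        have h1 := congrArg Zsqrtd.re hzw
        have h2 := congrArg Zsqrtd.im hzw
        exact Zsqrtd.ext h2 h1
      rw [← Finset.card_image_of_injective (F j) hinj]
      refine bl_strip _ M s _ (Real.sin (π * j / k)) hM hs hcos ?_
      intro w hw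
      obtain ⟨z, hz, rfl⟩ := Finset.mem_image.1 hw
      obtain ⟨hz1, hz2⟩ := Finset.mem_filter.1 hz
      refine ⟨hre z hz1, ?_⟩
      change |(z.im : ℝ) * Real.cos (π * j / k) - (z.re : ℝ) * Real.sin (π * j / k)| < s
      rw [abs_sub_comm]
      exact hz2
  have hsub : S ⊆ (Finset.range k).biUnion F := by
    intro z hz
    obtain ⟨j, hj, hjz⟩ := (hS z hz).2
    rw [Finset.mem_biUnion]
    exact ⟨j, Finset.mem_range.2 hj, Finset.mem_filter.2 ⟨hz, hjz⟩⟩
  have hcard : S.card ≤ ∑ j ∈ Finset.range k, (F j).card :=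
    (Finset.card_le_card hsub).trans Finset.card_biUnion_le
  have hcard' : (S.card : ℝ) ≤ ∑ j ∈ Finset.range k, ((F j).card : ℝ) := by
    exact_mod_cast hcard
  have hsum : ∑ j ∈ Finset.range k, ((F j).card : ℝ) ≤ k * (12 * M * s) := by
    refine (Finset.sum_le_sum fun j _ => hFc j).trans ?_
    rw [Finset.sum_const, Finset.card_range, nsmul_eq_mul]
  have hk0 : (0 : ℝ) < k := by exact_mod_cast hk
  have hpos : 0 ≤ k * M * s := by positivity
  nlinarith

end Pool.Agent.LogCh
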