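import Pool.Agent.Lib.LogCh.WSg
import Pool.Agent.Lib.LogCh.WBd
import Pool.Agent.Lib.NSqP.WXi
import Pool.Agent.Lib.NSqP.WAvg

/-!
# Group W: large frequencies (general number `r` of differences)
-/

set_option autoImplicit false

namespace Pool.Agent.LogCh

open Finset
open Pool.Agent.NSqP

private lemma coord_le {M b : ℝ} (hM : 0 ≤ M) (hb0 : 0 ≤ b) (hb : b ≤ M ^ 2) {z : GaussianInt}
    (hz : z ∈ ann 0 b) : |(z.im : ℝ)| ≤ M ∧ |(z.re : ℝ)| ≤ M := by
  have h1 := ((mem_ann hb0).1 hz).2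
  rw [nN_real] at h1
  constructor
  · apply abs_le_of_sq_le_sq _ hM
    nlinarith [sq_nonneg (z.re : ℝ)]
  · apply abs_le_of_sq_le_sq _ hM
    nlinarith [sq_nonneg (z.im : ℝ)]

/-- Adapt `NSqP/WBig.lean` (`W_large`): `shift_avg` with `H = ⌊T^h⌋₊`, `xi_seg` and `segG` for the
points which are not `BadL (r+1) (T^(m-1))`, `m = h + r + 5`, trivial bound for the others
(`card_badL` with `M = T^m`, `s = T^(m-1)`: at most `20 (r+1) T^(2m-1)`). So
`H |S| ≤ 9 T^(2m) 40 T^(h - 1/2^r) + 20 (r+1) T^(2m-1) H + 4 H^2 3 T^m`, `H ≥ T^h / 2`. -/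
theorem WG_large (r h : ℕ) (hr : 1 ≤ r) (hh : 2 * r + 6 ≤ h) : ∃ T0 : ℝ, 1 ≤ T0 ∧
    ∀ T : ℝ, T0 ≤ T → ∀ d : ℤ, T ^ (r ^ 2 + 7 * r + 9) ≤ |(d : ℝ)| →
    |(d : ℝ)| ≤ T ^ ((h + r + 5) * r) → ∀ b : ℝ, 0 ≤ b → b ≤ T ^ (2 * (h + r + 5)) →
      ‖∑ z ∈ ann 0 b, xi z ^ d‖ ≤ T ^ (2 * ((h : ℝ) + r + 5) - 1 / 2 ^ (r + 1)) := by
  classical
  obtain ⟨T1, hT1, hseg⟩ := segG r h hr hh
  set C : ℝ := 1000 + 40 * r with hC
  have hC1 : (1000 : ℝ) ≤ C := by
    have : (0 : ℝ) ≤ r := Nat.cast_nonneg r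
    rw [hC]; linarith
  have hC0 : 0 ≤ C := by linarith
  refine ⟨max T1 (C ^ (2 ^ (r + 1))), le_max_of_le_left hT1, ?_⟩
  intro T hT d hd1 hd2 b hb0 hb
  have hTT1 : T1 ≤ T := le_trans (le_max_left _ _) hT
  have hTC : C ^ (2 ^ (r + 1)) ≤ T := le_trans (le_max_right _ _) hT
  have hT1' : (1 : ℝ) ≤ T := hT1.trans hTT1
  have hTpos : 0 < T := by linarith
  have hT2 : (2 : ℝ) ≤ T := by
    refine le_trans ?_ hTC
    have h1 : C ≤ C ^ (2 ^ (r + 1)) := le_self_pow₀ (by linarith) (by positivity)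
    linarith
  have hd0 : d ≠ 0 := by
    rintro rfl
    have : (1 : ℝ) ≤ T ^ (r ^ 2 + 7 * r + 9) := one_le_pow₀ hT1'
    simp at hd1
    linarith
  -- the modulus of the summands
  have hu : ∀ z : GaussianInt, ‖xi z ^ d‖ ≤ 1 := by
    intro z
    by_cases hz : z = 0
    · subst hz
      have : xi 0 = 0 := by simp [xi]
      rw [this, zero_zpow d hd0]
      simp
    · rw [norm_xi_zpow hz]
  set m : ℕ := h + r + 5 with hm
  have hm1 : h + r + 4 = m - 1 := by omega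
  have hmh : h + 1 ≤ m := by omega
  -- the number of shifts
  set H : ℕ := ⌊T ^ h⌋₊ with hHdef
  have hP1 : (1 : ℝ) ≤ T ^ h := one_le_pow₀ hT1'
  have hP2 : (2 : ℝ) ≤ T ^ h := hT2.trans (le_self_pow₀ hT1' (by omega))
  have hH1 : 1 ≤ H := Nat.le_floor (by exact_mod_cast hP1)
  have hHle : (H : ℝ) ≤ T ^ h := Nat.floor_le (by positivity)
  have hHge : T ^ h / 2 ≤ (H : ℝ) := by
    have := Nat.lt_floor_add_one (T ^ h)
    rw [← hHdef] at this
    linarith
  have hbM : b ≤ (T ^ m) ^ 2 := by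
    rw [← pow_mul, mul_comm m 2]; exact hb
  have hsq : Real.sqrt b ≤ T ^ m := by
    rw [Real.sqrt_le_iff]
    exact ⟨by positivity, hbM⟩
  have hsq0 : 0 ≤ Real.sqrt b := Real.sqrt_nonneg b
  have hMone : (1 : ℝ) ≤ T ^ m := one_le_pow₀ hT1'
  -- averaging
  have havg := shift_avg (fun z => xi z ^ d) hu b hb0 H hH1
  -- split
  set A : ℝ := T ^ ((h : ℝ) - 1 / 2 ^ r) with hA
  have hA0 : 0 ≤ A := by rw [hA]; positivity
  have hinner : ∀ z : GaussianInt, ‖∑ n ∈ range H, xi (z + (n : GaussianInt)) ^ d‖ ≤ H := by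
    intro z
    refine (norm_sum_le _ _).trans ?_
    calc ∑ n ∈ range H, ‖xi (z + (n : GaussianInt)) ^ d‖ ≤ ∑ n ∈ range H, (1 : ℝ) :=
          Finset.sum_le_sum fun n _ => hu _
      _ = H := by simp
  set BP : GaussianInt → Prop := fun z => BadL (r + 1) (T ^ (h + r + 4)) (z.re : ℝ) (z.im : ℝ)
    with hBP
  have hgood : ∀ z ∈ ann 0 b, ¬ BP z →
      ‖∑ n ∈ range H, xi (z + (n : GaussianInt)) ^ d‖ ≤ 40 * A := by
    intro z hz hbad
    obtain ⟨hc1, hc2⟩ := coord_le (by positivity) hb0 hbM hz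
    have him : z.im ≠ 0 := by
      intro h0
      apply hbad
      rw [hBP]
      simp only
      rw [h0]
      refine ⟨0, by omega, ?_⟩
      simp
      positivity
    rw [xi_seg z him d H]
    exact hseg T hTT1 (d : ℝ) (z.re : ℝ) (z.im : ℝ) hd1 hd2 hc2 hc1 hbad H hHle
  have hsplit : ∑ z ∈ ann 0 b, ‖∑ n ∈ range H, xi (z + (n : GaussianInt)) ^ d‖ ≤
      ((ann 0 b).card : ℝ) * (40 * A) + (((ann 0 b).filter (fun z => BP z)).card : ℝ) * H := by
    rw [← Finset.sum_filter_add_sum_filter_not (ann 0 b) (fun z => BP z), add_comm]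
    apply add_le_add
    · calc ∑ z ∈ (ann 0 b).filter (fun z => ¬ BP z),
            ‖∑ n ∈ range H, xi (z + (n : GaussianInt)) ^ d‖
          ≤ ∑ z ∈ (ann 0 b).filter (fun z => ¬ BP z), (40 * A) := by
            apply Finset.sum_le_sum
            intro z hz
            rw [Finset.mem_filter] at hz
            exact hgood z hz.1 hz.2
        _ = (((ann 0 b).filter (fun z => ¬ BP z)).card : ℝ) * (40 * A) := by
            rw [Finset.sum_const, nsmul_eq_mul]
        _ ≤ ((ann 0 b).card : ℝ) * (40 * A) := by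
            apply mul_le_mul_of_nonneg_right _ (by positivity)
            exact_mod_cast Finset.card_filter_le _ _
    · calc ∑ z ∈ (ann 0 b).filter (fun z => BP z),
            ‖∑ n ∈ range H, xi (z + (n : GaussianInt)) ^ d‖
          ≤ ∑ z ∈ (ann 0 b).filter (fun z => BP z), (H : ℝ) :=
            Finset.sum_le_sum fun z _ => hinner z
        _ = (((ann 0 b).filter (fun z => BP z)).card : ℝ) * H := by
            rw [Finset.sum_const, nsmul_eq_mul]
  have hcard : ((ann 0 b).card : ℝ) ≤ 9 * (T ^ m * T ^ m) := by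
    refine (card_ann_crude b hb0).trans ?_
    have h1 : 2 * Real.sqrt b + 1 ≤ 3 * T ^ m := by linarith
    calc (2 * Real.sqrt b + 1) ^ 2 ≤ (3 * T ^ m) ^ 2 := by
          apply pow_le_pow_left₀ (by positivity) h1
      _ = 9 * (T ^ m * T ^ m) := by ring
  have hbadc : (((ann 0 b).filter (fun z => BP z)).card : ℝ) ≤
      20 * ((r + 1 : ℕ) : ℝ) * T ^ m * T ^ (h + r + 4) :=
    card_badL (r + 1) (by omega) (T ^ m) (T ^ (h + r + 4)) b hMone (one_le_pow₀ hT1') hb0 hbM _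
      (fun z hz => Finset.mem_filter.1 hz)
  -- the remainder of the averaging
  have hH0 : (0 : ℝ) ≤ H := Nat.cast_nonneg H
  have hH1r : (1 : ℝ) ≤ H := by exact_mod_cast hH1
  have hrem : (2 * (H : ℝ) + 2) * H * (2 * Real.sqrt b + 1) ≤ 12 * (T ^ h * T ^ m) * T ^ h := by
    have e1 : (2 * (H : ℝ) + 2) * H ≤ (4 * T ^ h) * T ^ h :=
      mul_le_mul (by linarith) hHle hH0 (by positivity)
    have e2 : 2 * Real.sqrt b + 1 ≤ 3 * T ^ m := by linarith
    calc (2 * (H : ℝ) + 2) * H * (2 * Real.sqrt b + 1) ≤ ((4 * T ^ h) * T ^ h) * (3 * T ^ m) :=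
          mul_le_mul e1 e2 (by positivity) (by positivity)
      _ = 12 * (T ^ h * T ^ m) * T ^ h := by ring
  have hmr : (m : ℝ) = (h : ℝ) + r + 5 := by rw [hm]; push_cast; ring
  have hpw : (1 : ℝ) / 2 ^ r ≤ 1 := by
    rw [div_le_one (by positivity)]
    exact one_le_pow₀ (by norm_num)
  have hpw0 : (0 : ℝ) < 1 / 2 ^ r := by positivity
  set B : ℝ := T ^ (2 * (m : ℝ) - 1 / 2 ^ r) with hB
  have hB0 : 0 ≤ B := by rw [hB]; positivity
  have hAB : (T ^ m * T ^ m) * A = B * T ^ h := by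
    rw [hA, hB, ← Real.rpow_natCast T m, ← Real.rpow_natCast T h, ← Real.rpow_add hTpos,
      ← Real.rpow_add hTpos, ← Real.rpow_add hTpos]
    congr 1
    ring
  have h399 : T ^ m * T ^ (h + r + 4) ≤ B := by
    rw [hB, ← pow_add, ← Real.rpow_natCast T (m + (h + r + 4))]
    apply Real.rpow_le_rpow_of_exponent_le hT1'
    have : ((m + (h + r + 4) : ℕ) : ℝ) = 2 * (m : ℝ) - 1 := by
      rw [hmr]; push_cast; rw [hmr]; ring
    rw [this]
    linarith
  have h380 : T ^ h * T ^ m ≤ B := by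
    rw [hB, ← pow_add, ← Real.rpow_natCast T (h + m)]
    apply Real.rpow_le_rpow_of_exponent_le hT1'
    have h1 : ((h + m : ℕ) : ℝ) ≤ 2 * (m : ℝ) - 1 := by
      have h2 : ((h + 1 : ℕ) : ℝ) ≤ (m : ℝ) := by exact_mod_cast hmh
      push_cast at h2 ⊢
      linarith
    linarith
  set X : ℝ := ‖∑ z ∈ ann 0 b, xi z ^ d‖ with hX
  have hX0 : 0 ≤ X := norm_nonneg _
  have hr0 : (0 : ℝ) ≤ r := Nat.cast_nonneg r
  have hmain : (H : ℝ) * X ≤ (392 + 20 * r) * B * T ^ h := by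
    have hP0 : 0 ≤ T ^ h := by positivity
    have k1 : ((ann 0 b).card : ℝ) * (40 * A) ≤ 360 * B * T ^ h := by
      calc ((ann 0 b).card : ℝ) * (40 * A) ≤ (9 * (T ^ m * T ^ m)) * (40 * A) :=
            mul_le_mul_of_nonneg_right hcard (by positivity)
        _ = 360 * ((T ^ m * T ^ m) * A) := by ring
        _ = 360 * B * T ^ h := by rw [hAB]; ring
    have k2 : (((ann 0 b).filter (fun z => BP z)).card : ℝ) * H ≤
        (20 * (r + 1)) * B * T ^ h := by
      refine mul_le_mul (hbadc.trans ?_) hHle hH0 (by positivity)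
      calc 20 * ((r + 1 : ℕ) : ℝ) * T ^ m * T ^ (h + r + 4)
          = (20 * ((r : ℝ) + 1)) * (T ^ m * T ^ (h + r + 4)) := by push_cast; ring
        _ ≤ (20 * ((r : ℝ) + 1)) * B := mul_le_mul_of_nonneg_left h399 (by positivity)
    have k3 : 12 * (T ^ h * T ^ m) * T ^ h ≤ 12 * B * T ^ h := by
      apply mul_le_mul_of_nonneg_right _ hP0
      linarith
    have k4 : (H : ℝ) * X ≤ 360 * B * T ^ h + (20 * (r + 1)) * B * T ^ h + 12 * B * T ^ h := by
      linarith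
    calc (H : ℝ) * X ≤ 360 * B * T ^ h + (20 * (r + 1)) * B * T ^ h + 12 * B * T ^ h := k4
      _ = (392 + 20 * r) * B * T ^ h := by ring
  have hX944 : X ≤ (784 + 40 * r) * B := by
    have hP0 : 0 < T ^ h := by positivity
    have k1 : T ^ h / 2 * X ≤ (H : ℝ) * X := mul_le_mul_of_nonneg_right hHge hX0
    have k2 : T ^ h * X ≤ T ^ h * ((784 + 40 * r) * B) := by
      calc T ^ h * X = 2 * (T ^ h / 2 * X) := by ring
        _ ≤ 2 * ((392 + 20 * r) * B * T ^ h) := by linarith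
        _ = T ^ h * ((784 + 40 * r) * B) := by ring
    exact le_of_mul_le_mul_left k2 hP0
  have hfin : C * B ≤ T ^ (2 * ((h : ℝ) + r + 5) - 1 / 2 ^ (r + 1)) := by
    have k1 : C ≤ T ^ ((1 : ℝ) / 2 ^ (r + 1)) := by
      have h1 : C = (C ^ (2 ^ (r + 1))) ^ ((1 : ℝ) / 2 ^ (r + 1)) := by
        rw [← Real.rpow_natCast, ← Real.rpow_mul hC0]
        push_cast
        rw [mul_one_div, div_self (by positivity), Real.rpow_one]
      rw [h1]
      exact Real.rpow_le_rpow (by positivity) hTC (by positivity)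
    have k2 : T ^ (2 * ((h : ℝ) + r + 5) - 1 / 2 ^ (r + 1)) = T ^ ((1 : ℝ) / 2 ^ (r + 1)) * B := by
      rw [hB, ← Real.rpow_add hTpos, hmr]
      congr 1
      have h3 : (1 : ℝ) / 2 ^ r = 2 * (1 / 2 ^ (r + 1)) := by
        rw [pow_succ]; field_simp
      rw [h3]; ring
    rw [k2]
    exact mul_le_mul_of_nonneg_right k1 hB0
  have hlast : (784 + 40 * r) * B ≤ C * B := by
    apply mul_le_mul_of_nonneg_right _ hB0
    rw [hC]; linarith
  linarith

end Pool.Agent.LogCh
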