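import Pool.Agent.Lib.NSqP.WDefs
import Pool.Agent.Lib.LogCh.Defs

/-!
# Group W (general exponent): definitions

`r` differencing steps, then the first derivative test: the derivative of order `k = r + 1` of the
phase matters. Scales: `T` large, `√Y = T ^ (h + r + 5)`, segments of length `T ^ h`.
-/

set_option autoImplicit false

namespace Pool.Agent.LogCh

open Real

/-- the point `(x, y)` is at distance less than `s` from one of the `k` lines of direction
`π j / k`, `j < k` (the zeros of `Im (x + i y) ^ k`) -/
def BadL (k : ℕ) (s x y : ℝ) : Prop :=
  ∃ j : ℕ, j < k ∧ |x * Real.sin (π * j / k) - y * Real.cos (π * j / k)| < s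

end Pool.Agent.LogCh
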