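import Pool.Agent.Lib.LogCh.WTw
import Pool.Agent.Lib.LogCh.WLv

/-!
# Group W, complete (the statements of `Iface` under the names `W1Ap`, `W2Ap`, `LVPp`)
-/
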