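import Pool.Agent.Lib.LogCh.WDf

/-!
# Group W: lower bound for `Im z ^ (-k)` away from the `k` lines
-/

set_option autoImplicit false

namespace Pool.Agent.LogCh

open Real

/-- the `j = 0` condition -/
theorem le_abs_of_not_BadL (k : ℕ) (hk : 1 ≤ k) (x y s : ℝ) (h : ¬ BadL k s x y) : s ≤ |y| := by
  unfold BadL at h
  push Not at h
  have := h 0 (by omega)
  simpa using this

private theorem sin_abs_shift (a : ℝ) (q : ℤ) (x y : ℝ) :
    |x * Real.sin (a + q * π) - y * Real.cos (a + q * π)| = |x * Real.sin a - y * Real.cos a| := by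
  rw [Real.sin_add_int_mul_pi, Real.cos_add_int_mul_pi]
  have h1 : x * ((-1) ^ q * Real.sin a) - y * ((-1) ^ q * Real.cos a) =
      (-1) ^ q * (x * Real.sin a - y * Real.cos a) := by ring
  rw [h1, abs_mul]
  have h2 : |((-1 : ℝ) ^ q)| = 1 := by
    rw [abs_zpow, abs_neg, abs_one, one_zpow]
  rw [h2, one_mul]

/-- Write `z = x + i y = |z| e^{i θ}` (`θ = Complex.arg z`, `z ≠ 0` since the `j = 0` condition gives
`s ≤ |y|`). Let `n : ℤ` be the nearest integer to `k θ / π` (`round`), `u = k θ - π n`,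
`|u| ≤ π / 2`. Then `|sin (k θ)| = |sin u| ≥ (2/π) |u|` (`Real.mul_abs_le_abs_sin`). Write
`n = k q + j`, `0 ≤ j < k`; then `sin (π n / k) = ± sin (π j / k)`, `cos (π n / k) = ± cos (π j / k)` with
the same sign (shift by `π q`), so
`s ≤ |x sin (π n / k) - y cos (π n / k)| = |z| |sin (π n / k - θ)| = |z| |sin (u / k)| ≤ |z| |u| / k
≤ |z| (π / 2) |sin (k θ)| / k`. So `|sin (k θ)| ≥ (2 k / π) s / |z| ≥ s / (2 |z|)`, and
`|Im z ^ (-k)| = |Im z ^ k| / |z| ^ (2 k) = |sin (k θ)| / |z| ^ k`. -/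
theorem im_inv_low (k : ℕ) (hk : 1 ≤ k) (x y s : ℝ) (hs : 0 < s) (h : ¬ BadL k s x y) :
    s / (2 * ‖(x : ℂ) + (y : ℂ) * Complex.I‖ ^ (k + 1)) ≤
      |((((x : ℂ) + (y : ℂ) * Complex.I) ^ k)⁻¹).im| := by
  have hy := le_abs_of_not_BadL k hk x y s h
  set z : ℂ := (x : ℂ) + (y : ℂ) * Complex.I with hz
  have hzim : z.im = y := by simp [hz]
  have hzre : z.re = x := by simp [hz]
  have hz0 : z ≠ 0 := by
    intro h0
    rw [h0] at hzim
    simp only [Complex.zero_im] at hzim
    rw [← hzim] at hy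
    simp at hy
    linarith
  have hρ : 0 < ‖z‖ := norm_pos_iff.2 hz0
  set ρ : ℝ := ‖z‖ with hρdef
  set θ : ℝ := Complex.arg z with hθ
  have hx : x = ρ * Real.cos θ := by
    rw [← hzre, hρdef, hθ, Complex.norm_mul_cos_arg]
  have hy' : y = ρ * Real.sin θ := by
    rw [← hzim, hρdef, hθ, Complex.norm_mul_sin_arg]
  have hk' : (0 : ℝ) < k := by exact_mod_cast hk
  have hk1 : (1 : ℝ) ≤ k := by exact_mod_cast hk
  set n : ℤ := round (k * θ / π) with hn
  set u : ℝ := k * θ - π * n with hu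
  have hu1 : |u| ≤ π / 2 := by
    have h1 := abs_sub_round (k * θ / π)
    rw [← hn] at h1
    have h2 : u = π * (k * θ / π - n) := by rw [hu]; field_simp
    rw [h2, abs_mul, abs_of_pos Real.pi_pos]
    nlinarith [Real.pi_pos]
  have hsin : |Real.sin (k * θ)| = |Real.sin u| := by
    have h1 : (k : ℝ) * θ = u + n * π := by rw [hu]; ring
    rw [h1, Real.sin_add_int_mul_pi, abs_mul, abs_zpow, abs_neg, abs_one, one_zpow, one_mul]
  have hlow : 2 / π * |u| ≤ |Real.sin u| := Real.mul_abs_le_abs_sin hu1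
  -- the line
  set q : ℤ := n / k with hq
  set j : ℤ := n % k with hj
  have hkz : (0 : ℤ) < k := by exact_mod_cast hk
  have hj0 : 0 ≤ j := Int.emod_nonneg _ hkz.ne'
  have hjk : j < k := Int.emod_lt_of_pos _ hkz
  have hnq : n = k * q + j := by rw [hq, hj]; exact (Int.mul_ediv_add_emod n k).symm
  have hline : s ≤ |x * Real.sin (π * n / k) - y * Real.cos (π * n / k)| := by
    have h1 : π * n / k = π * ((j.toNat : ℕ) : ℝ) / k + q * π := by
      have h2 : ((j.toNat : ℕ) : ℝ) = (j : ℝ) := by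
        have : ((j.toNat : ℕ) : ℤ) = j := Int.toNat_of_nonneg hj0
        exact_mod_cast this
      rw [h2, hnq]
      push_cast
      field_simp
      ring
    rw [h1, sin_abs_shift]
    unfold BadL at h
    push Not at h
    exact h j.toNat (by omega)
  have hval : x * Real.sin (π * n / k) - y * Real.cos (π * n / k) = - (ρ * Real.sin (u / k)) := by
    have h1 : u / k = θ - π * n / k := by rw [hu]; field_simp
    rw [h1, Real.sin_sub, hx, hy']
    ring
  rw [hval, abs_neg, abs_mul, abs_of_pos hρ] at hline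
  have h3 : |Real.sin (u / k)| ≤ |u| / k := by
    refine Real.abs_sin_le_abs.trans ?_
    rw [abs_div, abs_of_pos hk']
  have h4 : s ≤ ρ * (|u| / k) := hline.trans (mul_le_mul_of_nonneg_left h3 hρ.le)
  have h5 : s ≤ ρ * (2 * |Real.sin (k * θ)|) := by
    rw [hsin]
    refine h4.trans (mul_le_mul_of_nonneg_left ?_ hρ.le)
    have h6 : |u| ≤ π / 2 * |Real.sin u| := by
      have : 2 / π * |u| * (π / 2) ≤ |Real.sin u| * (π / 2) :=
        mul_le_mul_of_nonneg_right hlow (by positivity)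
      have h7 : 2 / π * |u| * (π / 2) = |u| := by field_simp
      linarith
    have h8 : |u| / k ≤ |u| := div_le_self (abs_nonneg _) hk1
    have h9 : π / 2 ≤ 2 := by linarith [Real.pi_le_four]
    have h10 : π / 2 * |Real.sin u| ≤ 2 * |Real.sin u| :=
      mul_le_mul_of_nonneg_right h9 (abs_nonneg _)
    linarith
  have him : |((z ^ k)⁻¹).im| = |Real.sin (k * θ)| / ρ ^ k := by
    have h6 : z ^ k = ((ρ ^ k : ℝ) : ℂ) * Complex.exp (((k * θ : ℝ) : ℂ) * Complex.I) := by
      have h7 : z = (ρ : ℂ) * Complex.exp ((θ : ℂ) * Complex.I) := by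
        rw [hρdef, hθ, Complex.norm_mul_exp_arg_mul_I]
      rw [h7, mul_pow, ← Complex.exp_nat_mul]
      push_cast
      congr 2
      ring
    have h7 : (z ^ k).im = ρ ^ k * Real.sin (k * θ) := by
      rw [h6, Complex.im_ofReal_mul, Complex.exp_ofReal_mul_I_im]
    rw [Complex.inv_im, h7, Complex.normSq_eq_norm_sq, norm_pow, ← hρdef, abs_div, abs_neg, abs_mul,
      abs_of_pos (by positivity : (0 : ℝ) < ρ ^ k), abs_of_pos (by positivity : (0 : ℝ) < (ρ ^ k) ^ 2)]
    field_simp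
  rw [him, div_le_div_iff₀ (by positivity) (by positivity), pow_succ]
  calc s * ρ ^ k ≤ (ρ * (2 * |Real.sin (k * θ)|)) * ρ ^ k :=
        mul_le_mul_of_nonneg_right h5 (by positivity)
    _ = |Real.sin (k * θ)| * (2 * (ρ ^ k * ρ)) := by ring

end Pool.Agent.LogCh
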