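import Pool.Agent.Lib.LogCh.WOn
import Pool.Agent.Lib.NSqP.SvMaj

/-!
# Group W: Selberg majorant, twists with a general exponent
-/

set_option autoImplicit false

namespace Pool.Agent.LogCh

open Real
open Pool.Agent.NSqP

private lemma wmj_nE (E : Finset GaussianInt) : ((nN (∏ q ∈ E, q) : ℕ) : ℝ) = nE E := by
  classical
  unfold nE
  induction E using Finset.induction_on with
  | empty => simp [nN_one]
  | insert a S ha ih =>
    rw [Finset.prod_insert ha, Finset.prod_insert ha, nN_mul]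
    push_cast
    rw [ih]

private lemma wmj_ne {R : ℝ} {E : Finset GaussianInt} (hE : E ⊆ PS R) : (∏ q ∈ E, q) ≠ 0 :=
  Finset.prod_ne_zero_iff.2 fun q hq => (isPi_of_mem_PS (hE hq)).ne_zero

open Classical in
private lemma wmj_sum {F : Type} [AddCommMonoid F] (h : GaussianInt → F) {R : ℝ}
    {E : Finset GaussianInt} (hE : E ⊆ PS R) {b : ℝ} (hb : 0 ≤ b) :
    (∑ z ∈ ann 0 b, if (∀ q ∈ E, q ∣ z) then h z else 0) =
      ∑ w ∈ ann 0 (b / nE E), h ((∏ q ∈ E, q) * w) := by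
  have h0 := wmj_ne hE
  rw [← Finset.sum_filter]
  have h1 : (ann 0 b).filter (fun z => ∀ q ∈ E, q ∣ z) =
      (ann 0 b).filter (fun z => (∏ q ∈ E, q) ∣ z) := by
    apply Finset.filter_congr
    intro z _
    exact (prod_dvd_iff E (fun q hq => isPi_of_mem_PS (hE hq)) z).symm
  rw [h1, sum_dvd h h0 le_rfl hb, wmj_nE, zero_div]

open Classical in
private theorem wmj_xi_mult (A : ℝ) (hA : 1 ≤ A) : ∃ κ : ℝ, 0 < κ ∧ ∃ b0 : ℝ, 1 ≤ b0 ∧ ∀ b : ℝ, b0 ≤ b →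
    ∀ (R : ℝ) (E : Finset GaussianInt), E ⊆ PS R → ∀ D : ℤ, D ≠ 0 →
    |(D : ℝ)| ≤ b ^ A →
    ‖∑ z ∈ ann 0 b, if (∀ q ∈ E, q ∣ z) then xi z ^ D else 0‖ ≤ b ^ (1 - κ) := by
  obtain ⟨κ, hκ, Y0, h⟩ := W1Ap A hA
  refine ⟨κ, hκ, max Y0 1, le_max_right _ _, fun b hb R E hE D hD hDb => ?_⟩
  have hb1 : 1 ≤ b := (le_max_right _ _).trans hb
  have hbY : Y0 ≤ b := (le_max_left _ _).trans hb
  have hb0 : 0 ≤ b := by linarith
  have hn : 1 ≤ nE E := one_le_nE fun q hq => isPi_of_mem_PS (hE hq)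
  have hn0 : 0 < nE E := by linarith
  rw [wmj_sum (fun z => xi z ^ D) hE hb0]
  have h1 : ∀ w ∈ ann 0 (b / nE E), xi ((∏ q ∈ E, q) * w) ^ D =
      xi (∏ q ∈ E, q) ^ D * xi w ^ D := fun w _ => xi_mul_zpow _ _ _
  rw [Finset.sum_congr rfl h1, ← Finset.mul_sum, norm_mul, norm_xi_zpow (wmj_ne hE), one_mul]
  exact h b hbY D hD hDb 0 (b / nE E) le_rfl (by positivity) (div_le_self hb0 hn)

/-- Adapt `NSqP/SvMaj.lean` (`xi_mult` and `MAJ`), with `W1Ap A` in place of `W1Stmt`. -/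
theorem MAJA (A : ℝ) (hA : 1 ≤ A) : ∃ θ : ℝ, 0 < θ ∧ θ < 1 / 10 ∧ ∃ C : ℝ, 0 < C ∧
    ∃ b0 : ℝ, 2 ≤ b0 ∧ ∀ b : ℝ, b0 ≤ b →
      (∑ z ∈ ann 0 b, LamR (b ^ θ) z ^ 2 ≤ C * b / log b) ∧
      (∀ D : ℤ, D ≠ 0 → |(D : ℝ)| ≤ b ^ A →
        ‖∑ z ∈ ann 0 b, xi z ^ D * ((LamR (b ^ θ) z ^ 2 : ℝ) : ℂ)‖ ≤ b ^ (1 - θ)) := by
  obtain ⟨Cm, hCm, hcard⟩ := card_mult
  obtain ⟨κ, hκ, b1, hb1, hxi⟩ := wmj_xi_mult A hA
  set θ : ℝ := min (κ / 6) (1 / 20) with hθ
  have hθ0 : 0 < θ := lt_min (by positivity) (by norm_num)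
  have hθ1 : θ ≤ 1 / 20 := min_le_right _ _
  have hθ2 : θ ≤ κ / 6 := min_le_left _ _
  refine ⟨θ, hθ0, by linarith, 128 * π / θ + 270 * Cm, by positivity,
    max (max 2 b1) (max ((2 : ℝ) ^ (1 / θ)) ((81 : ℝ) ^ (6 / κ))),
    (le_max_left _ _).trans (le_max_left _ _), fun b hb => ?_⟩
  have hb2 : 2 ≤ b := ((le_max_left _ _).trans (le_max_left _ _)).trans hb
  have hbb1 : b1 ≤ b := ((le_max_right _ _).trans (le_max_left _ _)).trans hb
  have hbθ : (2 : ℝ) ^ (1 / θ) ≤ b := ((le_max_left _ _).trans (le_max_right _ _)).trans hb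
  have hbκ : (81 : ℝ) ^ (6 / κ) ≤ b := ((le_max_right _ _).trans (le_max_right _ _)).trans hb
  have hb0 : 0 < b := by linarith
  have hR2 : 2 ≤ b ^ θ := by
    have h1 := Real.rpow_le_rpow (by positivity) hbθ hθ0.le
    rwa [← Real.rpow_mul (by norm_num), one_div, inv_mul_cancel₀ hθ0.ne', Real.rpow_one] at h1
  have hR1 : 1 ≤ b ^ θ := by linarith
  have hR4 : (b ^ θ) ^ 4 = b ^ (4 * θ) := by
    rw [← Real.rpow_natCast, ← Real.rpow_mul hb0.le]
    congr 1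
    push_cast
    ring
  have hlogb : 0 < log b := Real.log_pos (by linarith)
  constructor
  · have h1 := SEL (b ^ θ) hR1 (ann 0 b) (fun _ => 1) (π * b) (Cm * √b)
      (fun E hE => hcard (b ^ θ) b E hE (by linarith))
    simp only [one_mul] at h1
    have h2 : (∑ z ∈ ann 0 b, ((LamR (b ^ θ) z ^ 2 : ℝ) : ℂ)) - ((π * b / JR (b ^ θ) : ℝ) : ℂ) =
        (((∑ z ∈ ann 0 b, LamR (b ^ θ) z ^ 2) - π * b / JR (b ^ θ) : ℝ) : ℂ) := by
      push_cast
      rfl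
    rw [h2, Complex.norm_real, Real.norm_eq_abs] at h1
    have h3 := (abs_le.1 h1).2
    have hJ := JLOW hR2
    rw [Real.log_rpow hb0] at hJ
    have hJ0 : 0 < θ * log b / 128 := by positivity
    have h4 : π * b / JR (b ^ θ) ≤ π * b / (θ * log b / 128) :=
      div_le_div_of_nonneg_left (by positivity) hJ0 hJ
    have h5 : π * b / (θ * log b / 128) = (128 * π / θ) * b / log b := by
      field_simp
    have h6 : (b ^ θ) ^ 4 * √b ≤ b ^ (7 / 10 : ℝ) := by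
      rw [hR4, Real.sqrt_eq_rpow, ← Real.rpow_add hb0]
      exact Real.rpow_le_rpow_of_exponent_le (by linarith) (by linarith)
    have h7 : b ^ (7 / 10 : ℝ) ≤ (10 / 3) * b / log b := by
      rw [le_div_iff₀ hlogb]
      have h8 : log b ≤ b ^ (3 / 10 : ℝ) / (3 / 10) := Real.log_le_rpow_div hb0.le (by norm_num)
      calc b ^ (7 / 10 : ℝ) * log b ≤ b ^ (7 / 10 : ℝ) * (b ^ (3 / 10 : ℝ) / (3 / 10)) :=
            mul_le_mul_of_nonneg_left h8 (by positivity)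
        _ = (10 / 3) * (b ^ (7 / 10 : ℝ) * b ^ (3 / 10 : ℝ)) := by ring
        _ = (10 / 3) * b := by
            rw [← Real.rpow_add hb0]
            norm_num
    have h9 : 81 * (b ^ θ) ^ 4 * (Cm * √b) ≤ 270 * Cm * b / log b := by
      calc 81 * (b ^ θ) ^ 4 * (Cm * √b) = 81 * Cm * ((b ^ θ) ^ 4 * √b) := by ring
        _ ≤ 81 * Cm * ((10 / 3) * b / log b) :=
            mul_le_mul_of_nonneg_left (h6.trans h7) (by positivity)
        _ = 270 * Cm * b / log b := by ring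
    have h10 : (128 * π / θ + 270 * Cm) * b / log b =
        (128 * π / θ) * b / log b + 270 * Cm * b / log b := by ring
    rw [h10]
    linarith
  · intro D hD hDb
    have h1 := SEL (b ^ θ) hR1 (ann 0 b) (fun z => xi z ^ D) 0 (b ^ (1 - κ)) (fun E hE => by
      have h2 := hxi b hbb1 (b ^ θ) E hE D hD hDb
      rw [zero_div, Complex.ofReal_zero, sub_zero]
      exact h2)
    rw [zero_div, Complex.ofReal_zero, sub_zero] at h1
    refine h1.trans ?_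
    rw [hR4]
    have h81 : (81 : ℝ) ≤ b ^ (κ / 6) := by
      have h2 := Real.rpow_le_rpow (by positivity) hbκ (by positivity : 0 ≤ κ / 6)
      rwa [← Real.rpow_mul (by norm_num), show 6 / κ * (κ / 6) = 1 by field_simp,
        Real.rpow_one] at h2
    calc 81 * b ^ (4 * θ) * b ^ (1 - κ) ≤ b ^ (κ / 6) * b ^ (4 * θ) * b ^ (1 - κ) := by
          gcongr
      _ = b ^ (κ / 6 + 4 * θ + (1 - κ)) := by
          rw [Real.rpow_add hb0, Real.rpow_add hb0]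
      _ ≤ b ^ (1 - θ) := Real.rpow_le_rpow_of_exponent_le (by linarith) (by linarith)

end Pool.Agent.LogCh
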