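import Pool.Agent.Lib.LogCh.WSgA
import Pool.Agent.Lib.NSqP.WVdC

/-!
# Group W: the segment bound (general number `r` of differences)
-/

set_option autoImplicit false

namespace Pool.Agent.LogCh

open Finset
open Pool.Agent.NSqP

private lemma prod_gen (hs : List ℕ) (u v : ℝ) (hu : 0 ≤ u) (hv : 0 ≤ v)
    (h : ∀ x ∈ hs, u ≤ (x : ℝ) ∧ (x : ℝ) ≤ v) :
    u ^ hs.length ≤ ((hs.prod : ℕ) : ℝ) ∧ ((hs.prod : ℕ) : ℝ) ≤ v ^ hs.length := by
  induction hs with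
  | nil => simp
  | cons a l ih =>
    have ha := h a (by simp)
    obtain ⟨h1, h2⟩ := ih (fun x hx => h x (by simp [hx]))
    rw [List.prod_cons, List.length_cons, Nat.cast_mul, pow_succ', pow_succ']
    exact ⟨mul_le_mul ha.1 h1 (by positivity) (by positivity),
      mul_le_mul ha.2 h2 (by positivity) hv⟩

private lemma exists_QrG (r h : ℕ) (hr : 1 ≤ r) (hh : 2 * r + 6 ≤ h) (T D : ℝ) (hT : 1 ≤ T)
    (h1 : T ^ (r ^ 2 + 7 * r + 9) ≤ |D|) (h2 : |D| ≤ T ^ ((h + r + 5) * r)) :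
    ∃ Qr : ℝ, T ^ 2 ≤ Qr ∧ Qr ≤ T ^ h ∧ T ^ ((h + r + 5) * r + 2 * r + 9) ≤ |D| * Qr ^ r ∧
      |D| * Qr ^ r ≤ T ^ ((h + r + 5) * r + h + 3) := by
  have hT0 : 0 < T := by linarith
  have hD0 : 0 < |D| := lt_of_lt_of_le (by positivity) h1
  have hr0 : r ≠ 0 := by omega
  by_cases hD : |D| * T ^ (h * r) ≤ T ^ ((h + r + 5) * r + h + 3)
  · refine ⟨T ^ h, pow_le_pow_right₀ hT (by omega), le_rfl, ?_, ?_⟩
    · calc T ^ ((h + r + 5) * r + 2 * r + 9) = T ^ (r ^ 2 + 7 * r + 9) * (T ^ h) ^ r := by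
            rw [← pow_mul, ← pow_add]; congr 1; ring
        _ ≤ |D| * (T ^ h) ^ r := mul_le_mul_of_nonneg_right h1 (by positivity)
    · rw [← pow_mul]; exact hD
  · have hD' : T ^ ((h + r + 5) * r + h + 3) < |D| * T ^ (h * r) := not_le.1 hD
    obtain ⟨w, hw⟩ : ∃ w : ℝ, w = T ^ ((h + r + 5) * r + h + 3) / |D| := ⟨_, rfl⟩
    have hw0 : 0 < w := by rw [hw]; positivity
    obtain ⟨Qr, hQr⟩ : ∃ Qr : ℝ, Qr = w ^ (1 / (r : ℝ)) := ⟨_, rfl⟩
    have hQ4 : Qr ^ r = w := by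
      rw [hQr, ← Real.rpow_natCast, ← Real.rpow_mul hw0.le, one_div,
        inv_mul_cancel₀ (by exact_mod_cast hr0), Real.rpow_one]
    have hQ0 : 0 ≤ Qr := by rw [hQr]; positivity
    have hprod : |D| * Qr ^ r = T ^ ((h + r + 5) * r + h + 3) := by
      rw [hQ4, hw]; field_simp
    refine ⟨Qr, ?_, ?_, ?_, hprod.le⟩
    · have h3 : (T ^ 2) ^ r ≤ Qr ^ r := by
        rw [hQ4, hw, le_div_iff₀ hD0]
        calc (T ^ 2) ^ r * |D| ≤ (T ^ 2) ^ r * T ^ ((h + r + 5) * r) :=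
              mul_le_mul_of_nonneg_left h2 (by positivity)
          _ = T ^ (2 * r + (h + r + 5) * r) := by rw [← pow_mul, ← pow_add]
          _ ≤ _ := pow_le_pow_right₀ hT (by omega)
      exact le_of_pow_le_pow_left₀ hr0 hQ0 h3
    · have h3 : Qr ^ r ≤ (T ^ h) ^ r := by
        rw [hQ4, hw, div_le_iff₀ hD0, ← pow_mul]
        linarith
      exact le_of_pow_le_pow_left₀ hr0 (by positivity) h3
    · rw [hprod]
      exact pow_le_pow_right₀ hT (by omega)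

/-- Adapt `NSqP/WSeg.lean` (`seg`). `m = h + r + 5`, `U = m r + h + 3`, `H = ⌊T^h⌋₊`. If
`|D| T^(h r) ≤ T^U` let `Qr = T^h`, else `Qr = (T^U / |D|)^(1/r)`, which lies in `[T^2, T^h]` as
`|D| T^(2 r) ≤ T^(m r + 2 r) ≤ T^U`. Always `T^(m r + 2 r + 9) ≤ |D| Qr^r ≤ T^U` (first case:
`|D| T^(h r) ≥ T^(r^2 + 7 r + 9 + h r)` and `m r = h r + r^2 + 5 r`; second case: `2 r + 6 ≤ h`).
`Q = ⌊Qr⌋₊ ≥ Qr/2`, `Q0 = ⌊Q / T⌋₊ + 1`, `Q / T ≤ Q0 ≤ 2 Q / T`, `ε = 2 / T`. For `hs` of length `r`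
with entries in `[Q0, Q)`: `(Qr / (2 T))^r ≤ hs.prod ≤ Qr^r`, so
`T^(m r + r + 8) ≤ |D| hs.prod ≤ T^U` (`2^r ≤ T`) and `segG_base` gives `ES ≤ T^h / T ≤ ε H`.
Then `vdc_iter` with `r`; `(2/T)^(1/2^r) ≤ 2 T^(-1/2^r)`. -/
theorem segG (r h : ℕ) (hr : 1 ≤ r) (hh : 2 * r + 6 ≤ h) : ∃ T0 : ℝ, 1 ≤ T0 ∧
    ∀ T : ℝ, T0 ≤ T → ∀ D x0 y : ℝ,
    T ^ (r ^ 2 + 7 * r + 9) ≤ |D| → |D| ≤ T ^ ((h + r + 5) * r) →
    |x0| ≤ T ^ (h + r + 5) → |y| ≤ T ^ (h + r + 5) → ¬ BadL (r + 1) (T ^ (h + r + 4)) x0 y →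
    ∀ L : ℕ, (L : ℝ) ≤ T ^ h →
      ES (fun n => D * phi x0 y n) L ≤ 40 * T ^ ((h : ℝ) - 1 / 2 ^ r) := by
  obtain ⟨T1, hT1, hbase⟩ := segG_base r h hr hh
  refine ⟨max T1 (max 2 (2 ^ r)), le_max_of_le_left hT1,
    fun T hT D x0 y hD1 hD2 hx hy hbad L hL => ?_⟩
  have hTT1 : T1 ≤ T := (le_max_left _ _).trans hT
  have hT2 : 2 ≤ T := (le_max_left _ _).trans ((le_max_right _ _).trans hT)
  have hT2r : 2 ^ r ≤ T := (le_max_right _ _).trans ((le_max_right _ _).trans hT)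
  have hT1' : 1 ≤ T := by linarith
  have hT0 : 0 < T := by linarith
  obtain ⟨Qr, hQr1, hQr2, hQr3, hQr4⟩ := exists_QrG r h hr hh T D hT1' hD1 hD2
  have hT4 : (4 : ℝ) ≤ T ^ 2 := by nlinarith
  have hQr0 : 4 ≤ Qr := hT4.trans hQr1
  obtain ⟨H, hH⟩ : ∃ H : ℕ, H = ⌊T ^ h⌋₊ := ⟨_, rfl⟩
  obtain ⟨Q, hQ⟩ : ∃ Q : ℕ, Q = ⌊Qr⌋₊ := ⟨_, rfl⟩
  have hTh : 0 ≤ T ^ h := by positivity
  have hHle : (H : ℝ) ≤ T ^ h := by rw [hH]; exact Nat.floor_le hTh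
  have hHge : T ^ h - 1 < (H : ℝ) := by rw [hH]; exact Nat.sub_one_lt_floor _
  have hQle : (Q : ℝ) ≤ Qr := by rw [hQ]; exact Nat.floor_le (by linarith)
  have hQge : Qr - 1 < (Q : ℝ) := by rw [hQ]; exact Nat.sub_one_lt_floor _
  have hQhalf : Qr / 2 ≤ (Q : ℝ) := by linarith
  obtain ⟨Q0, hQ0⟩ : ∃ Q0 : ℕ, Q0 = ⌊(Q : ℝ) / T⌋₊ + 1 := ⟨_, rfl⟩
  have hQT : 1 ≤ (Q : ℝ) / T := by
    rw [le_div_iff₀ (by positivity)]
    nlinarith
  have hQ0ge : (Q : ℝ) / T ≤ (Q0 : ℝ) := by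
    have := (Nat.lt_floor_add_one ((Q : ℝ) / T)).le
    rw [hQ0]
    push_cast
    exact this
  have hQ0le : (Q0 : ℝ) ≤ 2 / T * Q := by
    have := Nat.floor_le (show (0 : ℝ) ≤ (Q : ℝ) / T by positivity)
    rw [hQ0]
    push_cast
    have h3 : 2 / T * (Q : ℝ) = (Q : ℝ) / T + (Q : ℝ) / T := by ring
    linarith
  have hε1 : 2 / T ≤ 1 := by
    rw [div_le_one (by positivity)]
    linarith
  have hQ0Q : Q0 ≤ Q := by
    have h3 : (2 / T) * (Q : ℝ) ≤ 1 * (Q : ℝ) :=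
      mul_le_mul_of_nonneg_right hε1 (Nat.cast_nonneg _)
    have h4 : (Q0 : ℝ) ≤ (Q : ℝ) := by linarith
    exact_mod_cast h4
  have hQH : Q ≤ H := by rw [hQ, hH]; exact Nat.floor_le_floor hQr2
  have hLH : L ≤ H := by rw [hH]; exact Nat.le_floor hL
  have hmain := vdc_iter H Q0 Q (2 / T) (by rw [hQ0]; omega) hQ0Q hQH hε1 hQ0le r
    (fun n => D * phi x0 y n) (by
      intro hs hlen hmem L' hL'
      have hp := prod_gen hs (Q0 : ℝ) (Q : ℝ) (Nat.cast_nonneg _) (Nat.cast_nonneg _)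
        (fun x hx => by
          have := hmem x hx
          exact ⟨by exact_mod_cast this.1, by exact_mod_cast this.2.le⟩)
      rw [hlen] at hp
      have hL'' : (L' : ℝ) ≤ T ^ h := by
        have : (L' : ℝ) ≤ H := by exact_mod_cast hL'
        linarith
      have hD0 : 0 ≤ |D| := abs_nonneg _
      have hlow : T ^ ((h + r + 5) * r + r + 8) ≤ |D| * (hs.prod : ℕ) := by
        have h3 : Qr / (2 * T) ≤ (Q0 : ℝ) := by
          refine le_trans ?_ hQ0ge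
          rw [div_le_div_iff₀ (by positivity) (by positivity)]
          nlinarith
        have h4 : (Qr / (2 * T)) ^ r ≤ ((hs.prod : ℕ) : ℝ) :=
          (pow_le_pow_left₀ (by positivity) h3 r).trans hp.1
        have h5 : T ^ ((h + r + 5) * r + r + 8) * (2 * T) ^ r ≤
            T ^ ((h + r + 5) * r + 2 * r + 9) := by
          rw [mul_pow]
          calc T ^ ((h + r + 5) * r + r + 8) * (2 ^ r * T ^ r)
              ≤ T ^ ((h + r + 5) * r + r + 8) * (T * T ^ r) := by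
                apply mul_le_mul_of_nonneg_left _ (by positivity)
                exact mul_le_mul_of_nonneg_right hT2r (by positivity)
            _ = T ^ ((h + r + 5) * r + 2 * r + 9) := by
                rw [← pow_succ', ← pow_add]; congr 1; ring
        calc T ^ ((h + r + 5) * r + r + 8) ≤ T ^ ((h + r + 5) * r + 2 * r + 9) / (2 * T) ^ r := by
              rw [le_div_iff₀ (by positivity)]; exact h5
          _ ≤ (|D| * Qr ^ r) / (2 * T) ^ r := div_le_div_of_nonneg_right hQr3 (by positivity)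
          _ = |D| * (Qr / (2 * T)) ^ r := by
              rw [div_pow]; ring
          _ ≤ |D| * (hs.prod : ℕ) := mul_le_mul_of_nonneg_left h4 hD0
      have hup : |D| * (hs.prod : ℕ) ≤ T ^ ((h + r + 5) * r + h + 3) := by
        have h4 : ((hs.prod : ℕ) : ℝ) ≤ Qr ^ r :=
          hp.2.trans (pow_le_pow_left₀ (Nat.cast_nonneg _) hQle r)
        exact (mul_le_mul_of_nonneg_left h4 hD0).trans hQr4
      have h5 := hbase T hTT1 D x0 y hs hx hy hbad hlen (fun x hx => by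
        have h6 : (x : ℝ) ≤ Q := by exact_mod_cast (hmem x hx).2.le
        linarith) hlow hup L' hL''
      have h6 : T ^ h ≤ T * (2 / T * (H : ℝ)) := by
        have h7 : T * (2 / T * (H : ℝ)) = 2 * (H : ℝ) := by field_simp
        rw [h7]
        have h8 : (2 : ℝ) ≤ T ^ h := by
          calc (2 : ℝ) ≤ T := hT2
            _ = T ^ 1 := (pow_one T).symm
            _ ≤ T ^ h := pow_le_pow_right₀ hT1' (by omega)
        linarith
      exact le_of_mul_le_mul_left (h5.trans h6) hT0) L hLH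
  refine hmain.trans ?_
  have h1 : (2 / T : ℝ) ^ ((1 : ℝ) / 2 ^ r) ≤ 2 * T ^ (-(1 / 2 ^ r) : ℝ) := by
    rw [Real.div_rpow (by norm_num) (by positivity)]
    have h0 : (1 : ℝ) / 2 ^ r ≤ 1 := by
      rw [div_le_one (by positivity)]
      exact one_le_pow₀ (by norm_num)
    have h2 : (2 : ℝ) ^ ((1 : ℝ) / 2 ^ r) ≤ 2 := by
      calc (2 : ℝ) ^ ((1 : ℝ) / 2 ^ r) ≤ (2 : ℝ) ^ (1 : ℝ) :=
            Real.rpow_le_rpow_of_exponent_le (by norm_num) h0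
        _ = 2 := Real.rpow_one 2
    rw [Real.rpow_neg hT0.le, ← div_eq_mul_inv]
    exact div_le_div_of_nonneg_right h2 (by positivity)
  have h4 : (T : ℝ) ^ ((h : ℝ) - 1 / 2 ^ r) = T ^ h * T ^ (-(1 / 2 ^ r) : ℝ) := by
    rw [sub_eq_add_neg, Real.rpow_add hT0, Real.rpow_natCast]
  rw [h4]
  have h5 : 0 ≤ T ^ (-(1 / 2 ^ r) : ℝ) := by positivity
  calc 20 * (2 / T : ℝ) ^ ((1 : ℝ) / 2 ^ r) * (H : ℝ)
      ≤ 20 * (2 * T ^ (-(1 / 2 ^ r) : ℝ)) * T ^ h := by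
        apply mul_le_mul _ hHle (Nat.cast_nonneg _) (by positivity)
        exact mul_le_mul_of_nonneg_left h1 (by norm_num)
    _ = 40 * (T ^ h * T ^ (-(1 / 2 ^ r) : ℝ)) := by ring

end Pool.Agent.LogCh
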