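import Pool.Agent.Lib.LogCh.WIm
import Pool.Agent.Lib.NSqP.WKus
import Pool.Agent.Lib.NSqP.WDlt

/-!
# Group W: the segment bound, first derivative test (general number `r` of differences)
-/

set_option autoImplicit false

namespace Pool.Agent.LogCh

open Finset
open Pool.Agent.NSqP

private lemma wsga_im_le (x y : ℝ) (k : ℕ) (hy : y ≠ 0) :
    |((((x : ℂ) + (y : ℂ) * Complex.I) ^ k)⁻¹).im| ≤ (|y| ^ k)⁻¹ := by
  refine (Complex.abs_im_le_norm _).trans ?_
  rw [norm_inv, norm_pow]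
  have h1 : |y| ≤ ‖(x : ℂ) + (y : ℂ) * Complex.I‖ := by
    have := Complex.abs_im_le_norm ((x : ℂ) + (y : ℂ) * Complex.I)
    simpa using this
  have h0 : 0 < |y| := abs_pos.2 hy
  exact inv_anti₀ (by positivity) (pow_le_pow_left₀ h0.le h1 k)

private lemma wsga_sum_le (hs : List ℕ) (B : ℝ) (h : ∀ a ∈ hs, (a : ℝ) ≤ B) :
    ((hs.sum : ℕ) : ℝ) ≤ hs.length * B := by
  induction hs with
  | nil => simp
  | cons a hs ih =>
    have h1 := h a (by simp)
    have h2 := ih (fun b hb => h b (by simp [hb]))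
    rw [List.sum_cons, List.length_cons, Nat.cast_add, Nat.cast_add, Nat.cast_one, add_mul,
      one_mul]
    linarith

private lemma wsga_low (r h : ℕ) (T x0 y t : ℝ) (hT1 : 1 ≤ T) (hT : 2 * ((r : ℝ) + 3) ≤ T)
    (hx0 : |x0| ≤ T ^ (h + r + 5)) (hy2 : |y| ≤ T ^ (h + r + 5))
    (hbad : ¬ BadL (r + 1) (T ^ (h + r + 4)) x0 y)
    (ht0 : 0 ≤ t) (ht1 : t ≤ ((r : ℝ) + 3) * T ^ h) :
    1 / (4 * 3 ^ (r + 2)) / T ^ ((h + r + 5) * (r + 1) + 1) ≤
      |((((((x0 + t : ℝ)) : ℂ) + (y : ℂ) * Complex.I) ^ (r + 1))⁻¹).im| := by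
  have hTp : 0 < T := by linarith
  have hr0 : (0 : ℝ) ≤ r := Nat.cast_nonneg r
  have hth : 0 < T ^ h := by positivity
  have htle : t ≤ T ^ (h + r + 4) / 2 := by
    have e1 : T ^ (h + r + 4) = T ^ (r + 3) * (T ^ h * T) := by ring
    have e2 : (1 : ℝ) ≤ T ^ (r + 3) := one_le_pow₀ hT1
    have e3 : T ^ h * (2 * ((r : ℝ) + 3)) ≤ T ^ h * T := mul_le_mul_of_nonneg_left hT hth.le
    have e4 : T ^ h * T ≤ T ^ (r + 3) * (T ^ h * T) := le_mul_of_one_le_left (by positivity) e2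
    rw [e1]
    linarith
  have hbad' : ¬ BadL (r + 1) (T ^ (h + r + 4) / 2) (x0 + t) y := by
    rintro ⟨j, hj, hlt⟩
    apply hbad
    refine ⟨j, hj, ?_⟩
    obtain ⟨s, hs⟩ : ∃ s : ℝ, s = Real.sin (Real.pi * j / ((r + 1 : ℕ) : ℝ)) := ⟨_, rfl⟩
    obtain ⟨c, hc⟩ : ∃ c : ℝ, c = Real.cos (Real.pi * j / ((r + 1 : ℕ) : ℝ)) := ⟨_, rfl⟩
    rw [← hs, ← hc] at hlt ⊢
    have hs1 : |s| ≤ 1 := by rw [hs]; exact Real.abs_sin_le_one _
    have e : x0 * s - y * c = ((x0 + t) * s - y * c) - t * s := by ring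
    rw [e]
    have h1 : |((x0 + t) * s - y * c) - t * s| ≤ |(x0 + t) * s - y * c| + |t * s| := abs_sub _ _
    have h2 : |t * s| ≤ t := by
      rw [abs_mul, abs_of_nonneg ht0]
      exact mul_le_of_le_one_right ht0 hs1
    linarith
  have hspos : 0 < T ^ (h + r + 4) / 2 := by positivity
  have hlow := im_inv_low (r + 1) (by omega) (x0 + t) y (T ^ (h + r + 4) / 2) hspos hbad'
  refine le_trans ?_ hlow
  have hm : T ^ (h + r + 4) ≤ T ^ (h + r + 5) := pow_le_pow_right₀ hT1 (by omega)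
  have hnorm : ‖((x0 + t : ℝ) : ℂ) + (y : ℂ) * Complex.I‖ ≤ 3 * T ^ (h + r + 5) := by
    refine (norm_add_le _ _).trans ?_
    rw [norm_mul, Complex.norm_I, mul_one, Complex.norm_real, Complex.norm_real, Real.norm_eq_abs,
      Real.norm_eq_abs]
    have h1 : |x0 + t| ≤ |x0| + |t| := abs_add_le _ _
    rw [abs_of_nonneg ht0] at h1
    have h2 : 0 < T ^ (h + r + 5) := by positivity
    linarith
  have hypos : 0 < |y| := by
    have := le_abs_of_not_BadL (r + 1) (by omega) (x0 + t) y _ hbad'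
    linarith
  have hnpos : 0 < ‖((x0 + t : ℝ) : ℂ) + (y : ℂ) * Complex.I‖ := by
    have h1 : |y| ≤ ‖((x0 + t : ℝ) : ℂ) + (y : ℂ) * Complex.I‖ := by
      have := Complex.abs_im_le_norm (((x0 + t : ℝ) : ℂ) + (y : ℂ) * Complex.I)
      simpa using this
    linarith
  have hden : 2 * ‖((x0 + t : ℝ) : ℂ) + (y : ℂ) * Complex.I‖ ^ (r + 1 + 1) ≤
      2 * (3 * T ^ (h + r + 5)) ^ (r + 2) := by
    have := pow_le_pow_left₀ hnpos.le hnorm (r + 2)
    have e : r + 1 + 1 = r + 2 := by ring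
    rw [e]
    linarith
  have hstep : T ^ (h + r + 4) / 2 / (2 * (3 * T ^ (h + r + 5)) ^ (r + 2)) ≤
      T ^ (h + r + 4) / 2 / (2 * ‖((x0 + t : ℝ) : ℂ) + (y : ℂ) * Complex.I‖ ^ (r + 1 + 1)) :=
    div_le_div_of_nonneg_left hspos.le (by positivity) hden
  refine le_trans (le_of_eq ?_) hstep
  rw [mul_pow, ← pow_mul]
  have e5 : (h + r + 5) * (r + 2) = ((h + r + 5) * (r + 1) + 1) + (h + r + 4) := by ring
  rw [e5, pow_add]
  have h6 : T ^ (h + r + 4) ≠ 0 := by positivity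
  have h7 : T ^ ((h + r + 5) * (r + 1) + 1) ≠ 0 := by positivity
  have h8 : (3 : ℝ) ^ (r + 2) ≠ 0 := by positivity
  field_simp
  norm_num
  rw [pow_add]
  ring

/-- Adapt `NSqP/WSegA.lean` (`seg_base`); `k = r + 1`, `m = h + r + 5`, `A0 = |D| Π`, `Π = hs.prod`,
`Φ = difs hs (D phi)`. `|Φ (n+1) - Φ n| = A0 r! |Im z^(-k)|` and the second difference is
`A0 k! |Im z^(-(k+1))|` (`difs_phi` for `hs ++ [1]`, `hs ++ [1, 1]`), `z = x0 + t + i y` with
`0 ≤ t ≤ L + r T^h + 2 ≤ (r + 3) T^h`. As `¬ BadL k (T^(m-1)) x0 y` and the change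
`t |sin| ≤ (r+3) T^h ≤ T^(m-1) / 2`, one has `¬ BadL k (T^(m-1)/2) (x0+t) y`; `|z| ≤ 3 T^m`,
`|y| ≥ T^(m-1)`. With `c = 1 / (4 * 3^(k+1))`:
`c T^(-(m k + 1)) ≤ |Im z^(-k)| ≤ T^(-(m-1) k)` (`im_inv_low`, and `|Im w| ≤ |w|`),
`|Im z^(-(k+1))| ≤ T^(-(m-1)(k+1))`.
`kus` with `μ = A0 r! c T^(-(m k+1))`, `ν = A0 k! T^(-(m-1)(k+1))`. First condition:
`A0 r! T^(-(m-1)k) ≤ r! / T ≤ 1` as `(m-1) k = m r + h + 4`. `L ν ≤ μ`: `k / c ≤ T^2` since
`(m-1)(k+1) - (m k + 1) - h = m - k - 2 - h = 2`. So `ES ≤ 8 / μ` and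
`T * 8 / μ = 8 T^(m k + 2) / (A0 r! c) ≤ T^h` as `m k + 2 - h = m r + r + 7` and `8 / c ≤ T`. -/
theorem segG_base (r h : ℕ) (hr : 1 ≤ r) (hh : 2 * r + 6 ≤ h) : ∃ T0 : ℝ, 1 ≤ T0 ∧
    ∀ T : ℝ, T0 ≤ T → ∀ D x0 y : ℝ, ∀ hs : List ℕ,
    |x0| ≤ T ^ (h + r + 5) → |y| ≤ T ^ (h + r + 5) → ¬ BadL (r + 1) (T ^ (h + r + 4)) x0 y →
    hs.length = r → (∀ a ∈ hs, (a : ℝ) ≤ T ^ h) →
    T ^ ((h + r + 5) * r + r + 8) ≤ |D| * (hs.prod : ℕ) →
    |D| * (hs.prod : ℕ) ≤ T ^ ((h + r + 5) * r + h + 3) →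
    ∀ L : ℕ, (L : ℝ) ≤ T ^ h → T * ES (difs hs (fun n => D * phi x0 y n)) L ≤ T ^ h := by
  have h3r : (1 : ℝ) ≤ 3 ^ (r + 2) := one_le_pow₀ (by norm_num)
  have hf1 : (1 : ℝ) ≤ ((r + 3).factorial : ℝ) := by exact_mod_cast Nat.factorial_pos (r + 3)
  have hr0 : (0 : ℝ) ≤ r := Nat.cast_nonneg r
  refine ⟨100 * 3 ^ (r + 2) * ((r + 3).factorial : ℝ), by nlinarith, ?_⟩
  intro T hT D x0 y hs hx0 hy2 hbad hlen hhs hlo hup L hL
  have hff : ((r + 3 : ℕ) : ℝ) ≤ ((r + 3).factorial : ℝ) := by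
    exact_mod_cast Nat.self_le_factorial (r + 3)
  push_cast at hff
  have hprod1 : ((r + 3).factorial : ℝ) ≤ 3 ^ (r + 2) * ((r + 3).factorial : ℝ) :=
    le_mul_of_one_le_left (by positivity) h3r
  have hprod2 : (3 : ℝ) ^ (r + 2) ≤ 3 ^ (r + 2) * ((r + 3).factorial : ℝ) :=
    le_mul_of_one_le_right (by positivity) hf1
  have hTf : ((r + 3).factorial : ℝ) ≤ T := by nlinarith
  have hT1 : (1 : ℝ) ≤ T := hf1.trans hTf
  have hTp : 0 < T := by linarith
  have hT3 : 32 * (3 : ℝ) ^ (r + 2) ≤ T := by nlinarith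
  have hTr : 4 * (3 : ℝ) ^ (r + 2) * ((r : ℝ) + 1) ≤ T := by
    have : 4 * (3 : ℝ) ^ (r + 2) * ((r : ℝ) + 1) ≤ 4 * (3 : ℝ) ^ (r + 2) * ((r + 3).factorial : ℝ) :=
      mul_le_mul_of_nonneg_left (by linarith) (by positivity)
    nlinarith
  have hT2r : 2 * ((r : ℝ) + 3) ≤ T := by nlinarith
  have hTfr : ((r.factorial : ℕ) : ℝ) ≤ T := by
    refine le_trans ?_ hTf
    exact_mod_cast Nat.factorial_le (by omega)
  have hylow : T ^ (h + r + 4) ≤ |y| := le_abs_of_not_BadL (r + 1) (by omega) x0 y _ hbad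
  have hypos : 0 < |y| := lt_of_lt_of_le (by positivity) hylow
  have hy0 : y ≠ 0 := abs_pos.1 hypos
  obtain ⟨A, hA⟩ : ∃ A : ℝ, A = |D| * (hs.prod : ℕ) := ⟨_, rfl⟩
  rw [← hA] at hlo hup
  have hApos : 0 < A := lt_of_lt_of_le (by positivity) hlo
  have hsum := wsga_sum_le hs (T ^ h) hhs
  rw [hlen] at hsum
  have hth1 : (1 : ℝ) ≤ T ^ h := one_le_pow₀ hT1
  obtain ⟨E, hE⟩ : ∃ E : ℕ, E = (h + r + 5) * (r + 1) + 1 := ⟨_, rfl⟩
  obtain ⟨c, hc⟩ : ∃ c : ℝ, c = 1 / (4 * 3 ^ (r + 2)) := ⟨_, rfl⟩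
  have hcpos : 0 < c := by rw [hc]; positivity
  have hcT : 8 ≤ c * T := by
    rw [hc, one_div, inv_mul_eq_div, le_div_iff₀ (by positivity)]
    linarith
  have hcT2 : (r : ℝ) + 1 ≤ c * T ^ 2 := by
    have h1 : (r : ℝ) + 1 ≤ c * T := by
      rw [hc, one_div, inv_mul_eq_div, le_div_iff₀ (by positivity)]
      linarith
    have h2 : c * T ≤ c * T ^ 2 := by
      apply mul_le_mul_of_nonneg_left _ hcpos.le
      exact le_self_pow₀ hT1 (by norm_num)
    linarith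
  have hfpos : (0 : ℝ) < (r.factorial : ℕ) := by exact_mod_cast Nat.factorial_pos r
  have hf1r : (1 : ℝ) ≤ ((r.factorial : ℕ) : ℝ) := by exact_mod_cast Nat.factorial_pos r
  have hF1 : ∀ n, difs hs (fun n => D * phi x0 y n) (n + 1) - difs hs (fun n => D * phi x0 y n) n =
      D * difs (hs ++ [1]) (fun m => phi x0 y m) n := by
    intro n
    have e : difs (hs ++ [1]) (fun n : ℕ => D * phi x0 y n) n =
        difs hs (fun n => D * phi x0 y n) (n + 1) - difs hs (fun n => D * phi x0 y n) n := by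
      rw [difs_append]
      rfl
    rw [← e, difs_smul D (hs ++ [1]) (fun m : ℕ => phi x0 y m)]
  have hF2 : ∀ n, difs hs (fun n => D * phi x0 y n) (n + 2) -
      2 * difs hs (fun n => D * phi x0 y n) (n + 1) + difs hs (fun n => D * phi x0 y n) n =
      D * difs (hs ++ [1, 1]) (fun m => phi x0 y m) n := by
    intro n
    have e : difs (hs ++ [1, 1]) (fun n : ℕ => D * phi x0 y n) n =
        (difs hs (fun n => D * phi x0 y n) (n + 1 + 1) -
          difs hs (fun n => D * phi x0 y n) (n + 1)) -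
        (difs hs (fun n => D * phi x0 y n) (n + 1) - difs hs (fun n => D * phi x0 y n) n) := by
      rw [difs_append]
      rfl
    have e2 := difs_smul D (hs ++ [1, 1]) (fun m : ℕ => phi x0 y m)
    rw [← congrFun e2 n, e]
    ring
  have hkus := kus (difs hs (fun n => D * phi x0 y n)) L
    (A * r.factorial * (c / T ^ E)) (A * ((r + 1).factorial : ℕ) / T ^ ((h + r + 4) * (r + 2)))
    (by positivity) (by positivity)
    (by
      intro n hn
      have hnL : (n : ℝ) + 1 ≤ L := by exact_mod_cast hn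
      have hn0 : (0 : ℝ) ≤ n := Nat.cast_nonneg n
      rw [hF1 n]
      obtain ⟨t, ht1, ht2, ht3⟩ := difs_phi x0 y hy0 (hs ++ [1]) (by simp) n
      rw [List.sum_append, List.sum_singleton, Nat.cast_add, Nat.cast_one] at ht2
      rw [List.prod_append, List.prod_singleton, mul_one, List.length_append, hlen,
        List.length_singleton, Nat.add_sub_cancel] at ht3
      have e : |D * difs (hs ++ [1]) (fun m => phi x0 y m) n| = A * r.factorial *
          |((((((x0 + t : ℝ)) : ℂ) + (y : ℂ) * Complex.I) ^ (r + 1))⁻¹).im| := by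
        rw [abs_mul, ht3, hA]
        ring
      rw [e]
      constructor
      · have h4 := wsga_low r h T x0 y t hT1 hT2r hx0 hy2 hbad (hn0.trans ht1) (by nlinarith)
        rw [← hc, ← hE] at h4
        exact mul_le_mul_of_nonneg_left h4 (by positivity)
      · have h3 := wsga_im_le (x0 + t) y (r + 1) hy0
        have h4 : (|y| ^ (r + 1))⁻¹ ≤ (T ^ ((h + r + 4) * (r + 1)))⁻¹ := by
          apply inv_anti₀ (by positivity)
          rw [pow_mul]
          exact pow_le_pow_left₀ (by positivity) hylow _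
        have h5 : A * r.factorial *
            |((((((x0 + t : ℝ)) : ℂ) + (y : ℂ) * Complex.I) ^ (r + 1))⁻¹).im| ≤
            T ^ ((h + r + 5) * r + h + 3) * T * (T ^ ((h + r + 4) * (r + 1)))⁻¹ := by
          apply mul_le_mul _ (h3.trans h4) (abs_nonneg _) (by positivity)
          exact mul_le_mul hup hTfr hfpos.le (by positivity)
        refine h5.trans (le_of_eq ?_)
        have e3 : (h + r + 4) * (r + 1) = ((h + r + 5) * r + h + 3) + 1 := by ring
        rw [e3, pow_succ]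
        have : T ^ ((h + r + 5) * r + h + 3) * T ≠ 0 := by positivity
        exact mul_inv_cancel₀ this)
    (by
      intro n hn
      have hnL : (n : ℝ) + 1 + 1 ≤ L := by exact_mod_cast hn
      have hn0 : (0 : ℝ) ≤ n := Nat.cast_nonneg n
      rw [hF2 n]
      obtain ⟨t, ht1, ht2, ht3⟩ := difs_phi x0 y hy0 (hs ++ [1, 1]) (by simp) n
      have hp : (hs ++ [1, 1]).prod = hs.prod := by simp
      have hl6 : (hs ++ [1, 1]).length = r + 2 := by simp [hlen]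
      have hl7 : r + 2 - 1 = r + 1 := by omega
      rw [hp, hl6, hl7] at ht3
      rw [abs_mul, ht3]
      have h3 := wsga_im_le (x0 + t) y (r + 2) hy0
      have h4 : (|y| ^ (r + 2))⁻¹ ≤ (T ^ ((h + r + 4) * (r + 2)))⁻¹ := by
        apply inv_anti₀ (by positivity)
        rw [pow_mul]
        exact pow_le_pow_left₀ (by positivity) hylow _
      have h5 := h3.trans h4
      calc |D| * ((hs.prod : ℕ) * ((r + 1).factorial : ℕ) *
          |((((((x0 + t : ℝ)) : ℂ) + (y : ℂ) * Complex.I) ^ (r + 2))⁻¹).im|)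
          = A * ((r + 1).factorial : ℕ) *
            |((((((x0 + t : ℝ)) : ℂ) + (y : ℂ) * Complex.I) ^ (r + 2))⁻¹).im| := by
            rw [hA]; ring
        _ ≤ A * ((r + 1).factorial : ℕ) * (T ^ ((h + r + 4) * (r + 2)))⁻¹ := by gcongr
        _ = A * ((r + 1).factorial : ℕ) / T ^ ((h + r + 4) * (r + 2)) := by rw [div_eq_mul_inv])
  obtain ⟨μ, hμ⟩ : ∃ μ : ℝ, μ = A * r.factorial * (c / T ^ E) := ⟨_, rfl⟩
  obtain ⟨ν, hν⟩ : ∃ ν : ℝ, ν = A * ((r + 1).factorial : ℕ) / T ^ ((h + r + 4) * (r + 2)) := ⟨_, rfl⟩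
  rw [← hμ, ← hν] at hkus
  have hμpos : 0 < μ := by rw [hμ]; positivity
  have hratio : (L : ℝ) * ν ≤ μ := by
    have e3 : (h + r + 4) * (r + 2) = h + (E + 2) := by rw [hE]; ring
    have h1 : (L : ℝ) * ν ≤ T ^ h * ν := by
      apply mul_le_mul_of_nonneg_right hL
      rw [hν]; positivity
    refine h1.trans ?_
    have e4 : T ^ h * ν = A * r.factorial * ((r : ℝ) + 1) / T ^ (E + 2) := by
      rw [hν, e3, pow_add T h, Nat.factorial_succ]
      have : T ^ h ≠ 0 := by positivity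
      have h9 : T ^ (E + 2) ≠ 0 := by positivity
      field_simp
      push_cast
      ring
    have e5 : μ = A * r.factorial * (c * T ^ 2) / T ^ (E + 2) := by
      rw [hμ, pow_add T E]
      have h9 : T ^ E ≠ 0 := by positivity
      have h10 : T ≠ 0 := hTp.ne'
      field_simp
    rw [e4, e5]
    apply div_le_div_of_nonneg_right _ (by positivity)
    exact mul_le_mul_of_nonneg_left hcT2 (by positivity)
  have h8 : 4 / μ + 4 * (L : ℝ) * ν / μ ^ 2 ≤ 8 / μ := by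
    have e : 4 * (L : ℝ) * ν / μ ^ 2 = 4 * ((L : ℝ) * ν) / μ ^ 2 := by ring
    rw [e]
    have h9 : 4 * ((L : ℝ) * ν) / μ ^ 2 ≤ 4 * μ / μ ^ 2 := by gcongr
    have e2 : 4 * μ / μ ^ 2 = 4 / μ := by field_simp
    rw [e2] at h9
    have e3 : (8 : ℝ) / μ = 4 / μ + 4 / μ := by ring
    linarith
  have h9 : T * ES (difs hs (fun n => D * phi x0 y n)) L ≤ T * (8 / μ) :=
    mul_le_mul_of_nonneg_left (hkus.trans h8) hTp.le
  refine h9.trans ?_
  rw [mul_div_assoc', div_le_iff₀ hμpos]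
  have h10 : T ^ h * (T ^ ((h + r + 5) * r + r + 8) * 1 * (c / T ^ E)) ≤ T ^ h * μ := by
    rw [hμ]
    apply mul_le_mul_of_nonneg_left _ (by positivity)
    apply mul_le_mul_of_nonneg_right _ (by positivity)
    exact mul_le_mul hlo hf1r (by norm_num) hApos.le
  refine le_trans ?_ h10
  have e6 : h + ((h + r + 5) * r + r + 8) = E + 2 := by rw [hE]; ring
  have e7 : T ^ h * (T ^ ((h + r + 5) * r + r + 8) * 1 * (c / T ^ E)) = c * T ^ 2 := by
    have : T ^ h * (T ^ ((h + r + 5) * r + r + 8) * 1 * (c / T ^ E)) =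
        (T ^ h * T ^ ((h + r + 5) * r + r + 8)) * c / T ^ E := by ring
    rw [this, ← pow_add, e6, pow_add]
    have h11 : T ^ E ≠ 0 := by positivity
    field_simp
  rw [e7]
  nlinarith

end Pool.Agent.LogCh
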