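import Pool.Agent.Lib.LogCh.WOn
import Pool.Agent.Lib.NSqP.WTwo

/-!
# Group W: the bound W2 with a general exponent
-/

set_option autoImplicit false

namespace Pool.Agent.LogCh

open Finset
open Pool.Agent.NSqP

private lemma wtw_ann_trivial (a b Y r : ℝ) (hr : 1 ≤ r) (ha : 0 ≤ a) (hb : 0 ≤ b) (hbY : b ≤ Y)
    (hY : 1 ≤ Y) (hrY : Y ^ (1 / 100 : ℝ) ≤ r) (d : ℤ) :
    ‖∑ z ∈ ann (a / r ^ 2) (b / r ^ 2), xi z ^ d‖ ≤ 9 * Y ^ (1 - 1 / 100 : ℝ) / r := by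
  have hr0 : 0 < r := by linarith
  have hY0 : 0 < Y := by linarith
  have hrhs : 0 ≤ 9 * Y ^ (1 - 1 / 100 : ℝ) / r := by positivity
  have hbr : 0 ≤ b / r ^ 2 := by positivity
  have har : 0 ≤ a / r ^ 2 := by positivity
  rcases lt_or_ge (b / r ^ 2) 1 with h1 | h1
  · have he : ann (a / r ^ 2) (b / r ^ 2) = ∅ := by
      rw [Finset.eq_empty_iff_forall_notMem]
      intro z hz
      have h2 := (mem_ann hbr).1 hz
      have h3 : (0 : ℝ) < nN z := lt_of_le_of_lt har h2.1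
      have h4 : 0 < nN z := by exact_mod_cast h3
      have h5 : (1 : ℝ) ≤ nN z := by exact_mod_cast h4
      linarith [h2.2]
    rw [he, sum_empty, norm_zero]
    exact hrhs
  · have h2 : ‖∑ z ∈ ann (a / r ^ 2) (b / r ^ 2), xi z ^ d‖ ≤ ((ann 0 (b / r ^ 2)).card : ℝ) := by
      calc ‖∑ z ∈ ann (a / r ^ 2) (b / r ^ 2), xi z ^ d‖
          ≤ ∑ z ∈ ann (a / r ^ 2) (b / r ^ 2), ‖xi z ^ d‖ := norm_sum_le _ _
        _ = ((ann (a / r ^ 2) (b / r ^ 2)).card : ℝ) := by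
            rw [sum_congr rfl fun z hz => norm_xi_zpow (ne_zero_of_mem_ann har hz) d]
            simp
        _ ≤ ((ann 0 (b / r ^ 2)).card : ℝ) := by
            have : (ann (a / r ^ 2) (b / r ^ 2)) ⊆ ann 0 (b / r ^ 2) := by
              intro z hz
              rw [mem_ann hbr] at hz ⊢
              exact ⟨lt_of_le_of_lt har hz.1, hz.2⟩
            exact_mod_cast card_le_card this
    have h3 := card_ann_crude (b / r ^ 2) hbr
    have h4 : 1 ≤ Real.sqrt (b / r ^ 2) := Real.one_le_sqrt.2 h1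
    have h5 : Real.sqrt (b / r ^ 2) ^ 2 = b / r ^ 2 := Real.sq_sqrt hbr
    have h6 : (2 * Real.sqrt (b / r ^ 2) + 1) ^ 2 ≤ 9 * (b / r ^ 2) := by
      nlinarith [h4, h5]
    have h7 : b / r ^ 2 ≤ Y ^ (1 - 1 / 100 : ℝ) / r := by
      rw [div_le_div_iff₀ (by positivity) hr0]
      have h8 : Y ^ (1 - 1 / 100 : ℝ) * Y ^ (1 / 100 : ℝ) = Y := by
        rw [← Real.rpow_add hY0]; norm_num
      have h9 : Y ≤ Y ^ (1 - 1 / 100 : ℝ) * r := by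
        calc Y = Y ^ (1 - 1 / 100 : ℝ) * Y ^ (1 / 100 : ℝ) := h8.symm
          _ ≤ Y ^ (1 - 1 / 100 : ℝ) * r := mul_le_mul_of_nonneg_left hrY (by positivity)
      calc b * r ≤ (Y ^ (1 - 1 / 100 : ℝ) * r) * r :=
            mul_le_mul_of_nonneg_right (hbY.trans h9) hr0.le
        _ = Y ^ (1 - 1 / 100 : ℝ) * r ^ 2 := by ring
    calc ‖∑ z ∈ ann (a / r ^ 2) (b / r ^ 2), xi z ^ d‖ ≤ _ := h2
      _ ≤ _ := h3
      _ ≤ _ := h6
      _ ≤ 9 * (Y ^ (1 - 1 / 100 : ℝ) / r) := by linarith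
      _ = 9 * Y ^ (1 - 1 / 100 : ℝ) / r := by ring

private lemma wtw_small (Y r κ : ℝ) (hr : 1 ≤ r) (hY : 1 ≤ Y) (hκ : κ ≤ 1 / 4) :
    (Y / r ^ 2) ^ (1 - κ) ≤ Y ^ (1 - κ) / r := by
  have hr0 : 0 < r := by linarith
  rw [Real.div_rpow (by linarith) (by positivity)]
  apply div_le_div_of_nonneg_left (by positivity) hr0
  have h1 : (r ^ 2) ^ (1 / 2 : ℝ) ≤ (r ^ 2) ^ (1 - κ) :=
    Real.rpow_le_rpow_of_exponent_le (by nlinarith) (by linarith)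
  have h2 : (r ^ 2) ^ (1 / 2 : ℝ) = r := by
    rw [← Real.sqrt_eq_rpow, Real.sqrt_sq hr0.le]
  linarith

private lemma wtw_log (κ : ℝ) (hκ : 0 < κ) : ∃ Y0 : ℝ, ∀ Y : ℝ, Y0 ≤ Y →
    9 * (1 + Real.log Y) ≤ Y ^ κ := by
  have h1 := (tendsto_rpow_atTop (y := κ / 2) (by positivity)).eventually_ge_atTop
    (9 * (1 + 1 / (κ / 2)))
  obtain ⟨Y0, hY0⟩ := Filter.eventually_atTop.1 h1
  refine ⟨max Y0 1, fun Y hY => ?_⟩
  have h2 := hY0 Y ((le_max_left _ _).trans hY)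
  have hY1 : 1 ≤ Y := (le_max_right _ _).trans hY
  have h3 : Real.log Y ≤ Y ^ (κ / 2) / (κ / 2) :=
    Real.log_le_rpow_div (by linarith) (by positivity)
  have h4 : 1 ≤ Y ^ (κ / 2) := Real.one_le_rpow hY1 (by positivity)
  have h5 : Y ^ κ = Y ^ (κ / 2) * Y ^ (κ / 2) := by
    rw [← Real.rpow_add (by linarith)]; ring_nf
  rw [h5]
  have h6 : 1 + Real.log Y ≤ (1 + 1 / (κ / 2)) * Y ^ (κ / 2) := by
    have : Y ^ (κ / 2) / (κ / 2) = 1 / (κ / 2) * Y ^ (κ / 2) := by ring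
    rw [this] at h3
    nlinarith
  calc 9 * (1 + Real.log Y) ≤ 9 * ((1 + 1 / (κ / 2)) * Y ^ (κ / 2)) := by linarith
    _ = (9 * (1 + 1 / (κ / 2))) * Y ^ (κ / 2) := by ring
    _ ≤ Y ^ (κ / 2) * Y ^ (κ / 2) := mul_le_mul_of_nonneg_right h2 (by positivity)

/-- Adapt `NSqP/WTwo.lean` (`W2_of_W1`): use `W1Ap` with exponent `2 A` and `Y / r^2`
(`|d| ≤ Y^A ≤ (Y / r^2)^(2 A)` for `r ≤ Y^(1/100)`). -/
theorem W2Ap (A : ℝ) (hA : 1 ≤ A) : ∃ κ : ℝ, 0 < κ ∧ ∃ Y0 : ℝ, ∀ Y : ℝ, Y0 ≤ Y → ∀ d : ℤ, d ≠ 0 →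
    |(d : ℝ)| ≤ Y ^ A → ∀ a b : ℝ, 0 ≤ a → a ≤ b → b ≤ Y →
      ‖∑ z ∈ pann a b, xi z ^ d‖ ≤ Y ^ (1 - κ) := by
  obtain ⟨κ0, hκ0, Y0, hY0⟩ := W1Ap (2 * A) (by linarith)
  set κ1 : ℝ := min κ0 (1 / 4) with hκ1
  have hκ1p : 0 < κ1 := lt_min hκ0 (by norm_num)
  set κ2 : ℝ := min κ1 (1 / 100) with hκ2
  have hκ2p : 0 < κ2 := lt_min hκ1p (by norm_num)
  have h21 : κ2 ≤ κ1 := min_le_left _ _
  have h2c : κ2 ≤ 1 / 100 := min_le_right _ _
  have h10 : κ1 ≤ κ0 := min_le_left _ _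
  have h1c : κ1 ≤ 1 / 4 := min_le_right _ _
  obtain ⟨Y1, hY1⟩ := wtw_log (κ2 / 2) (by positivity)
  obtain ⟨Y2, hY2⟩ := Filter.eventually_atTop.1
    ((tendsto_rpow_atTop (y := (98 / 100 : ℝ)) (by norm_num)).eventually_ge_atTop (max Y0 1))
  refine ⟨κ2 / 2, by positivity, max (max Y1 Y2) 4, ?_⟩
  intro Y hY d hd hdY a b ha hab hbY
  have hYY1 : Y1 ≤ Y := (le_max_left _ _).trans ((le_max_left _ _).trans hY)
  have hYY2 : Y2 ≤ Y := (le_max_right _ _).trans ((le_max_left _ _).trans hY)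
  have hY4 : 4 ≤ Y := (le_max_right _ _).trans hY
  have hYpos : 0 < Y := by linarith
  have hY1' : 1 ≤ Y := by linarith
  have hb : 0 ≤ b := ha.trans hab
  -- the range of `r`
  set R : ℕ := ⌈Real.sqrt Y⌉₊ with hR
  have hRY : Y ≤ (R : ℝ) ^ 2 := by
    have h1 : Real.sqrt Y ≤ R := Nat.le_ceil _
    calc Y = Real.sqrt Y ^ 2 := (Real.sq_sqrt hYpos.le).symm
      _ ≤ (R : ℝ) ^ 2 := pow_le_pow_left₀ (Real.sqrt_nonneg _) h1 2
  have hRle : (R : ℝ) ≤ Y := by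
    have h1 : (R : ℝ) < Real.sqrt Y + 1 := Nat.ceil_lt_add_one (Real.sqrt_nonneg _)
    have h2 : 2 ≤ Real.sqrt Y := by
      rw [show (2 : ℝ) = Real.sqrt 4 by
        rw [show (4 : ℝ) = 2 ^ 2 by norm_num]; exact (Real.sqrt_sq (by norm_num)).symm]
      exact Real.sqrt_le_sqrt hY4
    have h3 : Real.sqrt Y ^ 2 = Y := Real.sq_sqrt hYpos.le
    nlinarith
  have hR1 : 1 ≤ R := by
    have h1 : (0 : ℝ) < R := by
      by_contra hcon
      have h0 : (R : ℝ) = 0 := le_antisymm (not_lt.1 hcon) (Nat.cast_nonneg _)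
      rw [h0] at hRY
      norm_num at hRY
      linarith
    exact_mod_cast h1
  rw [pann_moebius a b ha hb d R (hbY.trans hRY)]
  -- the bound for each `r`
  have hbound : ∀ r ∈ Icc 1 R, ‖((ArithmeticFunction.moebius r : ℤ) : ℂ) *
      ∑ z ∈ ann (a / (r : ℝ) ^ 2) (b / (r : ℝ) ^ 2), xi z ^ d‖ ≤
      (9 * Y ^ (1 - κ2)) * ((r : ℝ))⁻¹ := by
    intro r hr
    have hr1 : (1 : ℝ) ≤ r := by exact_mod_cast (mem_Icc.1 hr).1
    have hr0 : (0 : ℝ) < r := by linarith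
    have hmu : ‖((ArithmeticFunction.moebius r : ℤ) : ℂ)‖ ≤ 1 := by
      rw [Complex.norm_intCast]
      have := ArithmeticFunction.abs_moebius_le_one (n := r)
      exact_mod_cast this
    have hinner : ‖∑ z ∈ ann (a / (r : ℝ) ^ 2) (b / (r : ℝ) ^ 2), xi z ^ d‖ ≤
        (9 * Y ^ (1 - κ2)) * ((r : ℝ))⁻¹ := by
      rcases le_total (r : ℝ) (Y ^ (1 / 100 : ℝ)) with hc | hc
      · -- small `r`
        have hr2 : (r : ℝ) ^ 2 ≤ Y ^ (2 / 100 : ℝ) := by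
          calc (r : ℝ) ^ 2 ≤ (Y ^ (1 / 100 : ℝ)) ^ 2 := pow_le_pow_left₀ hr0.le hc 2
            _ = Y ^ (2 / 100 : ℝ) := by
              rw [← Real.rpow_natCast, ← Real.rpow_mul hYpos.le]; norm_num
        have hY' : Y ^ (98 / 100 : ℝ) ≤ Y / (r : ℝ) ^ 2 := by
          rw [le_div_iff₀ (by positivity)]
          calc Y ^ (98 / 100 : ℝ) * (r : ℝ) ^ 2 ≤ Y ^ (98 / 100 : ℝ) * Y ^ (2 / 100 : ℝ) :=
                mul_le_mul_of_nonneg_left hr2 (by positivity)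
            _ = Y := by rw [← Real.rpow_add hYpos]; norm_num
        have hY2' := hY2 Y hYY2
        have hYa : Y0 ≤ Y / (r : ℝ) ^ 2 := (le_max_left _ _).trans (hY2'.trans hY')
        have hYb : 1 ≤ Y / (r : ℝ) ^ 2 := (le_max_right _ _).trans (hY2'.trans hY')
        have hdr : |(d : ℝ)| ≤ (Y / (r : ℝ) ^ 2) ^ (2 * A) := by
          calc |(d : ℝ)| ≤ Y ^ A := hdY
            _ ≤ Y ^ ((98 / 100 : ℝ) * (2 * A)) :=
                Real.rpow_le_rpow_of_exponent_le hY1' (by linarith)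
            _ = (Y ^ (98 / 100 : ℝ)) ^ (2 * A) := Real.rpow_mul hYpos.le _ _
            _ ≤ (Y / (r : ℝ) ^ 2) ^ (2 * A) :=
                Real.rpow_le_rpow (by positivity) hY' (by linarith)
        have h1 := hY0 (Y / (r : ℝ) ^ 2) hYa d hd hdr (a / (r : ℝ) ^ 2) (b / (r : ℝ) ^ 2)
          (by positivity) (by gcongr) (by gcongr)
        calc _ ≤ (Y / (r : ℝ) ^ 2) ^ (1 - κ0) := h1
          _ ≤ (Y / (r : ℝ) ^ 2) ^ (1 - κ1) :=
              Real.rpow_le_rpow_of_exponent_le hYb (by linarith)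
          _ ≤ Y ^ (1 - κ1) / r := wtw_small Y r κ1 hr1 hY1' h1c
          _ ≤ (9 * Y ^ (1 - κ2)) / r := by
              apply div_le_div_of_nonneg_right _ hr0.le
              have h2 : Y ^ (1 - κ1) ≤ Y ^ (1 - κ2) :=
                Real.rpow_le_rpow_of_exponent_le hY1' (by linarith)
              have h3 : 0 < Y ^ (1 - κ2) := by positivity
              linarith
          _ = (9 * Y ^ (1 - κ2)) * ((r : ℝ))⁻¹ := by rw [div_eq_mul_inv]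
      · -- large `r`
        have h1 := wtw_ann_trivial a b Y r hr1 ha hb hbY hY1' hc d
        calc _ ≤ 9 * Y ^ (1 - 1 / 100 : ℝ) / r := h1
          _ ≤ (9 * Y ^ (1 - κ2)) / r := by
              apply div_le_div_of_nonneg_right _ hr0.le
              have h2 : Y ^ (1 - 1 / 100 : ℝ) ≤ Y ^ (1 - κ2) :=
                Real.rpow_le_rpow_of_exponent_le hY1' (by linarith)
              linarith
          _ = (9 * Y ^ (1 - κ2)) * ((r : ℝ))⁻¹ := by rw [div_eq_mul_inv]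
    rw [norm_mul]
    calc _ ≤ 1 * ‖∑ z ∈ ann (a / (r : ℝ) ^ 2) (b / (r : ℝ) ^ 2), xi z ^ d‖ :=
          mul_le_mul_of_nonneg_right hmu (norm_nonneg _)
      _ ≤ _ := by rw [one_mul]; exact hinner
  have hharm : ∑ r ∈ Icc 1 R, ((r : ℝ))⁻¹ ≤ 1 + Real.log Y := by
    have h1 := harmonic_le_one_add_log R
    rw [harmonic_eq_sum_Icc] at h1
    push_cast at h1
    have h2 : Real.log (R : ℝ) ≤ Real.log Y :=
      Real.log_le_log (by exact_mod_cast hR1) hRle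
    linarith
  calc ‖∑ r ∈ Icc 1 R, ((ArithmeticFunction.moebius r : ℤ) : ℂ) *
      ∑ z ∈ ann (a / (r : ℝ) ^ 2) (b / (r : ℝ) ^ 2), xi z ^ d‖
      ≤ ∑ r ∈ Icc 1 R, (9 * Y ^ (1 - κ2)) * ((r : ℝ))⁻¹ :=
        (norm_sum_le _ _).trans (sum_le_sum hbound)
    _ = (9 * Y ^ (1 - κ2)) * ∑ r ∈ Icc 1 R, ((r : ℝ))⁻¹ := by rw [mul_sum]
    _ ≤ (9 * Y ^ (1 - κ2)) * (1 + Real.log Y) :=
        mul_le_mul_of_nonneg_left hharm (by positivity)
    _ = Y ^ (1 - κ2) * (9 * (1 + Real.log Y)) := by ring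
    _ ≤ Y ^ (1 - κ2) * Y ^ (κ2 / 2) :=
        mul_le_mul_of_nonneg_left (hY1 Y hYY1) (by positivity)
    _ = Y ^ (1 - κ2 / 2) := by rw [← Real.rpow_add hYpos]; ring_nf

end Pool.Agent.LogCh
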