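import Pool.Agent.Lib.LogCh.ZPair
import Pool.Agent.Lib.NSqP.NbC

/-!
# Counting pairs of determinant one in sectors, logarithmic sums
-/

set_option autoImplicit false

namespace Pool.Agent.LogCh

open Real
open Pool.Agent.NSqP
open Pool.Agent.MP484c84Par (ballG mem_ballG crossG dotG)

/-- the pairs of `PP X` with `α ⟨u, v⟩ < N u ≤ β ⟨u, v⟩` -/
noncomputable def SEC (α β : ℝ) (X : ℕ) : Finset (GaussianInt × GaussianInt) :=
  open Classical in (PP X).filter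
    (fun p => α * dotG p.1 p.2 < nN p.1 ∧ (nN p.1 : ℝ) ≤ β * dotG p.1 p.2)

lemma mem_SEC {α β : ℝ} {X : ℕ} {p : GaussianInt × GaussianInt} :
    p ∈ SEC α β X ↔ p ∈ PP X ∧ α * dotG p.1 p.2 < nN p.1 ∧ (nN p.1 : ℝ) ≤ β * dotG p.1 p.2 := by
  unfold SEC
  rw [Finset.mem_filter]

/-- real form of the basic facts about a pair -/
lemma pair_facts {X : ℕ} {p : GaussianInt × GaussianInt} (hp : p ∈ PP X) :
    1 ≤ (dotG p.1 p.2 : ℝ) ∧ (dotG p.1 p.2 : ℝ) ≤ X ∧ 1 ≤ (nN p.1 : ℝ) ∧ 1 ≤ (nN p.2 : ℝ) ∧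
      (nN p.1 : ℝ) * nN p.2 = (dotG p.1 p.2 : ℝ) ^ 2 + 1 := by
  rw [mem_PP] at hp
  have hu : p.1 ≠ 0 := by rintro h0; rw [h0] at hp; simp [crossG] at hp
  have hv : p.2 ≠ 0 := by rintro h0; rw [h0] at hp; simp [crossG] at hp
  have h1 := dot_cross_nN p.1 p.2
  rw [hp.1] at h1
  refine ⟨by exact_mod_cast hp.2.1, by exact_mod_cast hp.2.2, by exact_mod_cast nN_pos hu,
    by exact_mod_cast nN_pos hv, ?_⟩
  have h2 : ((nN p.1 : ℤ) : ℝ) * ((nN p.2 : ℤ) : ℝ) = (dotG p.1 p.2 : ℝ) ^ 2 + 1 := by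
    rw [← Int.cast_mul, ← h1]
    push_cast
    ring
  simpa using h2

theorem sec_card (α β : ℝ) (hα : 0 < α) (hβ : 0 < β) : ∃ K : ℝ, 0 < K ∧ ∀ X : ℕ,
    ((SEC α β X).card : ℝ) ≤ K * X := by
  obtain ⟨C, hC, h⟩ := card_allEdges
  set D : ℕ := ⌈β + 2 / α⌉₊ with hD
  have hDle : β + 2 / α ≤ D := Nat.le_ceil _
  have hD0 : (0 : ℝ) < D := lt_of_lt_of_le (by positivity) hDle
  refine ⟨C * D, by positivity, fun X => ?_⟩
  have hsub : SEC α β X ⊆ allEdges (D * X) := by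
    intro p hp
    rw [mem_SEC] at hp
    obtain ⟨hp1, hp2, hp3⟩ := hp
    obtain ⟨f1, f2, f3, f4, f5⟩ := pair_facts hp1
    set n : ℝ := (dotG p.1 p.2 : ℝ) with hn
    unfold allEdges
    rw [Finset.mem_filter, Finset.mem_product, mem_ballG, mem_ballG, ← nN_cast_int, ← nN_cast_int]
    have hX0 : (0 : ℝ) ≤ X := Nat.cast_nonneg X
    have h2a : 0 < 2 / α := by positivity
    have hs : (nN p.1 : ℝ) ≤ D * X := by
      calc (nN p.1 : ℝ) ≤ β * n := hp3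
        _ ≤ D * X := mul_le_mul (by linarith) f2 (by linarith) hD0.le
    have ht : (nN p.2 : ℝ) ≤ D * X := by
      have h1 : (nN p.2 : ℝ) ≤ 2 / α * n := by
        have h2 : α * n * nN p.2 ≤ 2 * n ^ 2 := by
          calc α * n * nN p.2 ≤ nN p.1 * nN p.2 :=
                mul_le_mul_of_nonneg_right hp2.le (by linarith)
            _ = n ^ 2 + 1 := f5
            _ ≤ 2 * n ^ 2 := by nlinarith
        have h3 : n * (α * nN p.2 - 2 * n) ≤ 0 := by nlinarith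
        have h4 : α * nN p.2 ≤ 2 * n := by
          by_contra hcon
          push Not at hcon
          have : 0 < n * (α * nN p.2 - 2 * n) := mul_pos (by linarith) (by linarith)
          linarith
        rw [div_mul_eq_mul_div, le_div_iff₀ hα]
        linarith
      calc (nN p.2 : ℝ) ≤ 2 / α * n := h1
        _ ≤ D * X := mul_le_mul (by linarith) f2 (by linarith) hD0.le
    refine ⟨⟨by exact_mod_cast hs, by exact_mod_cast ht⟩, (mem_PP.1 hp1).1⟩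
  calc ((SEC α β X).card : ℝ) ≤ ((allEdges (D * X)).card : ℝ) := by
        exact_mod_cast Finset.card_le_card hsub
    _ ≤ C * ((D * X : ℕ) : ℝ) := h (D * X)
    _ = C * D * X := by push_cast; ring

/-! ## Abel summation -/

section Abel

variable {ι : Type*}

lemma abel_point (f : ℕ → ℝ) (X g : ℕ) (h1 : 1 ≤ g) (h2 : g ≤ X) :
    f g = f (X + 1) + ∑ m ∈ Finset.Icc 1 X, (if g ≤ m then f m - f (m + 1) else 0) := by
  induction X with
  | zero => omega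
  | succ X ih =>
    rw [Finset.sum_Icc_succ_top (by omega), if_pos h2]
    rcases Nat.lt_or_ge X g with h | h
    · have hg : g = X + 1 := by omega
      have h0 : ∑ m ∈ Finset.Icc 1 X, (if g ≤ m then f m - f (m + 1) else 0) = 0 := by
        apply Finset.sum_eq_zero
        intro m hm
        rw [Finset.mem_Icc] at hm
        rw [if_neg (by omega)]
      rw [h0, hg]
      ring
    · have := ih h
      linarith

lemma abel_sum (S : Finset ι) (g : ι → ℕ) (X : ℕ) (f : ℕ → ℝ)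
    (hg : ∀ p ∈ S, 1 ≤ g p ∧ g p ≤ X) :
    ∑ p ∈ S, f (g p) = (S.card : ℝ) * f (X + 1) +
      ∑ m ∈ Finset.Icc 1 X, ((S.filter (fun p => g p ≤ m)).card : ℝ) * (f m - f (m + 1)) := by
  rw [Finset.sum_congr rfl (fun p hp => abel_point f X (g p) (hg p hp).1 (hg p hp).2),
    Finset.sum_add_distrib, Finset.sum_const, nsmul_eq_mul, Finset.sum_comm]
  congr 1
  refine Finset.sum_congr rfl fun m _ => ?_
  rw [← Finset.sum_filter, Finset.sum_const, nsmul_eq_mul]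

theorem abel_log (S : Finset ι) (g : ι → ℕ) (X : ℕ) (A B : ℝ) (hA : 0 ≤ A) (hB : 0 ≤ B)
    (hg : ∀ p ∈ S, 1 ≤ g p ∧ g p ≤ X)
    (hc : ∀ m : ℕ, 1 ≤ m → m ≤ X → ((S.filter (fun p => g p ≤ m)).card : ℝ) ≤ A * m + B) :
    ∑ p ∈ S, 1 / (g p : ℝ) ≤ A * (2 + log X) + B := by
  rcases Nat.eq_zero_or_pos X with h0 | hX
  · subst h0
    have hS : S = ∅ := by
      rw [Finset.eq_empty_iff_forall_notMem]
      intro p hp
      have := hg p hp
      omega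
    rw [hS, Finset.sum_empty]
    simp only [Nat.cast_zero, log_zero, add_zero]
    linarith
  have hX0 : (0 : ℝ) < X := by exact_mod_cast hX
  rw [abel_sum S g X (fun m => 1 / (m : ℝ)) hg]
  have hSc : (S.card : ℝ) ≤ A * X + B := by
    have h1 := hc X hX le_rfl
    rwa [Finset.filter_true_of_mem (fun p hp => (hg p hp).2)] at h1
  have h1 : (S.card : ℝ) * (1 / ((X + 1 : ℕ) : ℝ)) ≤ A + B * (1 / ((X + 1 : ℕ) : ℝ)) := by
    have hle : (X : ℝ) * (1 / ((X + 1 : ℕ) : ℝ)) ≤ 1 := by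
      push_cast
      rw [mul_one_div, div_le_one (by positivity)]
      linarith
    have h2 : 0 ≤ 1 / ((X + 1 : ℕ) : ℝ) := by positivity
    calc (S.card : ℝ) * (1 / ((X + 1 : ℕ) : ℝ)) ≤ (A * X + B) * (1 / ((X + 1 : ℕ) : ℝ)) :=
          mul_le_mul_of_nonneg_right hSc h2
      _ = A * (X * (1 / ((X + 1 : ℕ) : ℝ))) + B * (1 / ((X + 1 : ℕ) : ℝ)) := by ring
      _ ≤ A * 1 + B * (1 / ((X + 1 : ℕ) : ℝ)) := by
          have := mul_le_mul_of_nonneg_left hle hA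
          linarith
      _ = A + B * (1 / ((X + 1 : ℕ) : ℝ)) := by ring
  have h3 : ∀ m ∈ Finset.Icc 1 X, ((S.filter (fun p => g p ≤ m)).card : ℝ) *
      (1 / (m : ℝ) - 1 / ((m + 1 : ℕ) : ℝ)) ≤
      A * (1 / (m : ℝ)) + B * (1 / (m : ℝ) - 1 / ((m + 1 : ℕ) : ℝ)) := by
    intro m hm
    rw [Finset.mem_Icc] at hm
    have hm0 : (1 : ℝ) ≤ m := by exact_mod_cast hm.1
    have h4 : 0 ≤ 1 / (m : ℝ) - 1 / ((m + 1 : ℕ) : ℝ) := by
      rw [sub_nonneg]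
      apply one_div_le_one_div_of_le (by linarith)
      push_cast
      linarith
    have h5 : (m : ℝ) * (1 / (m : ℝ) - 1 / ((m + 1 : ℕ) : ℝ)) ≤ 1 / m := by
      push_cast
      rw [mul_sub, mul_one_div, mul_one_div, div_self (by linarith)]
      rw [show (1 : ℝ) - m / (m + 1) = 1 / (m + 1) by field_simp; ring]
      apply one_div_le_one_div_of_le (by linarith)
      linarith
    calc ((S.filter (fun p => g p ≤ m)).card : ℝ) * (1 / (m : ℝ) - 1 / ((m + 1 : ℕ) : ℝ))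
        ≤ (A * m + B) * (1 / (m : ℝ) - 1 / ((m + 1 : ℕ) : ℝ)) :=
          mul_le_mul_of_nonneg_right (hc m hm.1 hm.2) h4
      _ = A * (m * (1 / (m : ℝ) - 1 / ((m + 1 : ℕ) : ℝ))) +
          B * (1 / (m : ℝ) - 1 / ((m + 1 : ℕ) : ℝ)) := by ring
      _ ≤ _ := by
          have := mul_le_mul_of_nonneg_left h5 hA
          linarith
  have h6 := Finset.sum_le_sum h3
  rw [Finset.sum_add_distrib, ← Finset.mul_sum, ← Finset.mul_sum] at h6
  have h7 : ∑ m ∈ Finset.Icc 1 X, (1 : ℝ) / m ≤ 1 + log X := by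
    have h := harmonic_le_one_add_log X
    rw [harmonic_eq_sum_Icc] at h
    push_cast at h
    simpa [one_div] using h
  have h8 : ∑ m ∈ Finset.Icc 1 X, (1 / (m : ℝ) - 1 / ((m + 1 : ℕ) : ℝ)) =
      1 - 1 / ((X + 1 : ℕ) : ℝ) := by
    have h9 := abel_point (fun m => 1 / (m : ℝ)) X 1 le_rfl hX
    have h10 : ∑ m ∈ Finset.Icc 1 X, (if 1 ≤ m then (fun m : ℕ => 1 / (m : ℝ)) m -
        (fun m : ℕ => 1 / (m : ℝ)) (m + 1) else 0) =
        ∑ m ∈ Finset.Icc 1 X, (1 / (m : ℝ) - 1 / ((m + 1 : ℕ) : ℝ)) := by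
      refine Finset.sum_congr rfl fun m hm => ?_
      rw [Finset.mem_Icc] at hm
      rw [if_pos hm.1]
    rw [h10] at h9
    simp only [Nat.cast_one, div_one] at h9
    linarith
  rw [h8] at h6
  have h11 := mul_le_mul_of_nonneg_left h7 hA
  have h12 : A * ∑ m ∈ Finset.Icc 1 X, (1 : ℝ) / m + B * (1 - 1 / ((X + 1 : ℕ) : ℝ)) ≤
      A * (1 + log X) + B - B * (1 / ((X + 1 : ℕ) : ℝ)) := by
    have : B * (1 - 1 / ((X + 1 : ℕ) : ℝ)) = B - B * (1 / ((X + 1 : ℕ) : ℝ)) := by ring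
    linarith
  linarith

theorem abel_sq (S : Finset ι) (g : ι → ℕ) (X : ℕ) (A : ℝ) (hA : 0 ≤ A)
    (hg : ∀ p ∈ S, 1 ≤ g p ∧ g p ≤ X)
    (hc : ∀ m : ℕ, 1 ≤ m → m ≤ X → ((S.filter (fun p => g p ≤ m)).card : ℝ) ≤ A * m) :
    ∑ p ∈ S, 1 / (g p : ℝ) ^ 2 ≤ 3 * A := by
  rcases Nat.eq_zero_or_pos X with h0 | hX
  · subst h0
    have hS : S = ∅ := by
      rw [Finset.eq_empty_iff_forall_notMem]
      intro p hp
      have := hg p hp
      omega
    rw [hS, Finset.sum_empty]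
    linarith
  have hX0 : (0 : ℝ) < X := by exact_mod_cast hX
  rw [abel_sum S g X (fun m => 1 / (m : ℝ) ^ 2) hg]
  have hSc : (S.card : ℝ) ≤ A * X := by
    have h1 := hc X hX le_rfl
    rwa [Finset.filter_true_of_mem (fun p hp => (hg p hp).2)] at h1
  have h1 : (S.card : ℝ) * (1 / ((X + 1 : ℕ) : ℝ) ^ 2) ≤ A := by
    have hle : (X : ℝ) * (1 / ((X + 1 : ℕ) : ℝ) ^ 2) ≤ 1 := by
      push_cast
      rw [mul_one_div, div_le_one (by positivity)]
      nlinarith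
    have h2 : 0 ≤ 1 / ((X + 1 : ℕ) : ℝ) ^ 2 := by positivity
    calc (S.card : ℝ) * (1 / ((X + 1 : ℕ) : ℝ) ^ 2) ≤ (A * X) * (1 / ((X + 1 : ℕ) : ℝ) ^ 2) :=
          mul_le_mul_of_nonneg_right hSc h2
      _ = A * (X * (1 / ((X + 1 : ℕ) : ℝ) ^ 2)) := by ring
      _ ≤ A * 1 := mul_le_mul_of_nonneg_left hle hA
      _ = A := mul_one A
  have h3 : ∀ m ∈ Finset.Icc 1 X, ((S.filter (fun p => g p ≤ m)).card : ℝ) *
      (1 / (m : ℝ) ^ 2 - 1 / ((m + 1 : ℕ) : ℝ) ^ 2) ≤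
      2 * A * (1 / (m : ℝ) - 1 / ((m + 1 : ℕ) : ℝ)) := by
    intro m hm
    rw [Finset.mem_Icc] at hm
    have hm0 : (1 : ℝ) ≤ m := by exact_mod_cast hm.1
    have h4 : 0 ≤ 1 / (m : ℝ) ^ 2 - 1 / ((m + 1 : ℕ) : ℝ) ^ 2 := by
      rw [sub_nonneg]
      apply one_div_le_one_div_of_le (by positivity)
      push_cast
      nlinarith
    have h5 : (m : ℝ) * (1 / (m : ℝ) ^ 2 - 1 / ((m + 1 : ℕ) : ℝ) ^ 2) ≤
        2 * (1 / (m : ℝ) - 1 / ((m + 1 : ℕ) : ℝ)) := by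
      have e1 : (m : ℝ) * (1 / (m : ℝ) ^ 2 - 1 / ((m + 1 : ℕ) : ℝ) ^ 2) =
          (2 * m + 1) / (m * (m + 1) ^ 2) := by
        push_cast
        field_simp
        ring
      have e2 : 2 * (1 / (m : ℝ) - 1 / ((m + 1 : ℕ) : ℝ)) = (2 * m + 2) / (m * (m + 1) ^ 2) := by
        push_cast
        field_simp
        ring
      rw [e1, e2]
      apply div_le_div_of_nonneg_right _ (by positivity)
      linarith
    calc ((S.filter (fun p => g p ≤ m)).card : ℝ) *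
          (1 / (m : ℝ) ^ 2 - 1 / ((m + 1 : ℕ) : ℝ) ^ 2)
        ≤ (A * m) * (1 / (m : ℝ) ^ 2 - 1 / ((m + 1 : ℕ) : ℝ) ^ 2) :=
          mul_le_mul_of_nonneg_right (hc m hm.1 hm.2) h4
      _ = A * (m * (1 / (m : ℝ) ^ 2 - 1 / ((m + 1 : ℕ) : ℝ) ^ 2)) := by ring
      _ ≤ A * (2 * (1 / (m : ℝ) - 1 / ((m + 1 : ℕ) : ℝ))) := mul_le_mul_of_nonneg_left h5 hA
      _ = _ := by ring
  have h6 := Finset.sum_le_sum h3
  rw [← Finset.mul_sum] at h6
  have h8 : ∑ m ∈ Finset.Icc 1 X, (1 / (m : ℝ) - 1 / ((m + 1 : ℕ) : ℝ)) =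
      1 - 1 / ((X + 1 : ℕ) : ℝ) := by
    have h9 := abel_point (fun m => 1 / (m : ℝ)) X 1 le_rfl hX
    have h10 : ∑ m ∈ Finset.Icc 1 X, (if 1 ≤ m then (fun m : ℕ => 1 / (m : ℝ)) m -
        (fun m : ℕ => 1 / (m : ℝ)) (m + 1) else 0) =
        ∑ m ∈ Finset.Icc 1 X, (1 / (m : ℝ) - 1 / ((m + 1 : ℕ) : ℝ)) := by
      refine Finset.sum_congr rfl fun m hm => ?_
      rw [Finset.mem_Icc] at hm
      rw [if_pos hm.1]
    rw [h10] at h9
    simp only [Nat.cast_one, div_one] at h9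
    linarith
  rw [h8] at h6
  have h9 : 0 ≤ 1 / ((X + 1 : ℕ) : ℝ) := by positivity
  have h10 : 2 * A * (1 - 1 / ((X + 1 : ℕ) : ℝ)) ≤ 2 * A := by
    have := mul_nonneg hA h9
    nlinarith
  linarith

end Abel

end Pool.Agent.LogCh
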