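import Pool.Agent.Lib.LogCh.Shared
import Pool.Agent.Lib.LogCh.EDefs

/-!
# The logarithmically averaged cancellation over pairs of determinant one, from `DECRStmt` and `MAINBStmt`
-/

set_option autoImplicit false

namespace Pool.Agent.LogCh

open Real
open Pool.Agent.NSqP
open Pool.Agent.MP484c84Par (ballG mem_ballG crossG dotG)

lemma sum_inv_Icc_le (X : ℕ) : ∑ N ∈ Finset.Icc 1 X, (1 : ℝ) / N ≤ 1 + log X := by
  have h := harmonic_le_one_add_log X
  rw [harmonic_eq_sum_Icc] at h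
  push_cast at h
  simpa [one_div] using h

/-- decrement theorem (group A) -/
def DECRStmt : Prop := ∀ (C1 : ℕ) (c : ℝ), 2 ≤ C1 → 0 < c →
  (∀ P : ℕ, 2 ≤ P → c * P / log P ≤ ((QQ C1 P).card : ℝ)) →
  ∀ a a' b b' : ℝ, 0 < a → a < a' → a' ≤ 1 → 0 < b → b < b' → b' ≤ 1 → ∀ ε : ℝ, 0 < ε →
    ∀ P0 : ℕ, ∃ P1 X0 : ℕ, ∀ X : ℕ, X0 ≤ X → ∃ P : ℕ, P0 ≤ P ∧ P ≤ P1 ∧
      |∑ N ∈ Finset.Icc 1 X, pairSum 1 a a' b b' N / (N : ℝ) ^ 2| ≤ ε * log X +
        ∑ N ∈ Finset.Icc 1 X, |∑ q ∈ QQ C1 P, pairSum q a a' b b' N| /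
          ((N : ℝ) ^ 2 * (QQ C1 P).card)

/-- logarithmically averaged cancellation over pairs of determinant one -/
def LOGCStmt : Prop := ∀ a a' b b' : ℝ, 0 < a → a < a' → a' ≤ 1 → 0 < b → b < b' → b' ≤ 1 →
  ∀ ε : ℝ, 0 < ε → ∃ X0 : ℕ, ∀ X : ℕ, X0 ≤ X →
    |∑ N ∈ Finset.Icc 1 X, pairSum 1 a a' b b' N / (N : ℝ) ^ 2| ≤ ε * log X

theorem LOGCf (hDECR : DECRStmt) (hMAINB : MAINBStmt) : LOGCStmt := by
  intro a a' b b' ha haa ha1 hb hbb hb1 ε hε
  obtain ⟨C1, hC1, c, hc, hQ⟩ := QQ_lower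
  obtain ⟨P0, hP0⟩ := hMAINB C1 c hC1 hc hQ a a' b b' ha haa ha1 hb hbb hb1 (ε / 4) (by linarith)
  obtain ⟨P1, X0, hX0⟩ := hDECR C1 c hC1 hc hQ a a' b b' ha haa ha1 hb hbb hb1 (ε / 4)
    (by linarith) P0
  choose! N0 hN0 using hP0
  set f : ℕ → ℕ → ℝ := fun P N => |∑ q ∈ QQ C1 P, pairSum q a a' b b' N| /
    ((N : ℝ) ^ 2 * (QQ C1 P).card) with hf
  have hf0 : ∀ P N, 0 ≤ f P N := fun P N => by simp only [hf]; positivity
  set N1 : ℕ := (Finset.Icc P0 P1).sup N0 with hN1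
  set B : ℝ := ∑ P ∈ Finset.Icc P0 P1, ∑ N ∈ Finset.Icc 1 N1, f P N with hB
  have hB0 : 0 ≤ B := Finset.sum_nonneg fun P _ => Finset.sum_nonneg fun N _ => hf0 P N
  refine ⟨max (max X0 1) ⌈exp (2 * (B + ε / 4) / ε)⌉₊, fun X hX => ?_⟩
  have hXX0 : X0 ≤ X := le_trans (le_trans (le_max_left _ _) (le_max_left _ _)) hX
  have hX1 : 1 ≤ X := le_trans (le_trans (le_max_right _ _) (le_max_left _ _)) hX
  have hXe : exp (2 * (B + ε / 4) / ε) ≤ X :=
    (Nat.le_ceil _).trans (by exact_mod_cast le_trans (le_max_right _ _) hX)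
  have hlog : 2 * (B + ε / 4) / ε ≤ log X := by
    rw [← log_exp (2 * (B + ε / 4) / ε)]
    exact log_le_log (exp_pos _) hXe
  obtain ⟨P, hPP0, hPP1, hP⟩ := hX0 X hXX0
  have hPmem : P ∈ Finset.Icc P0 P1 := Finset.mem_Icc.2 ⟨hPP0, hPP1⟩
  have h1 : ∑ N ∈ Finset.Icc 1 X, f P N ≤ B + ε / 4 * (1 + log X) := by
    have h2 : ∀ N ∈ Finset.Icc 1 X, f P N ≤ (if N ≤ N1 then f P N else 0) + ε / 4 * (1 / N) := by
      intro N hN
      have hN1' : (1 : ℝ) ≤ N := by exact_mod_cast (Finset.mem_Icc.1 hN).1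
      by_cases h : N ≤ N1
      · rw [if_pos h]
        have : 0 ≤ ε / 4 * (1 / (N : ℝ)) := by positivity
        linarith
      · rw [if_neg h, zero_add]
        push Not at h
        have hN0' : N0 P ≤ N := (Finset.le_sup hPmem).trans h.le
        have h3 := hN0 P hPP0 N hN0'
        simp only [hf]
        rcases Nat.eq_zero_or_pos (QQ C1 P).card with h0 | h0
        · rw [h0]
          simp only [Nat.cast_zero, mul_zero, div_zero]
          positivity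
        · have h0' : (0 : ℝ) < (QQ C1 P).card := by exact_mod_cast h0
          rw [div_le_iff₀ (by positivity)]
          refine h3.trans (le_of_eq ?_)
          field_simp
    refine (Finset.sum_le_sum h2).trans ?_
    rw [Finset.sum_add_distrib, ← Finset.mul_sum]
    have h4 : ∑ N ∈ Finset.Icc 1 X, (if N ≤ N1 then f P N else 0) ≤ B := by
      rw [← Finset.sum_filter]
      have h5 : ∑ N ∈ (Finset.Icc 1 X).filter (fun N => N ≤ N1), f P N ≤
          ∑ N ∈ Finset.Icc 1 N1, f P N := by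
        apply Finset.sum_le_sum_of_subset_of_nonneg
        · intro N hN
          rw [Finset.mem_filter, Finset.mem_Icc] at hN
          exact Finset.mem_Icc.2 ⟨hN.1.1, hN.2⟩
        · exact fun N _ _ => hf0 P N
      refine h5.trans ?_
      exact Finset.single_le_sum (f := fun P => ∑ N ∈ Finset.Icc 1 N1, f P N)
        (fun P _ => Finset.sum_nonneg fun N _ => hf0 P N) hPmem
    have h6 := sum_inv_Icc_le X
    have h7 : ε / 4 * ∑ N ∈ Finset.Icc 1 X, (1 : ℝ) / N ≤ ε / 4 * (1 + log X) :=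
      mul_le_mul_of_nonneg_left h6 (by linarith)
    linarith
  refine hP.trans ?_
  have h8 : 2 * (B + ε / 4) ≤ ε * log X := by
    rw [div_le_iff₀ hε] at hlog
    linarith
  have h9 : ∑ N ∈ Finset.Icc 1 X, |∑ q ∈ QQ C1 P, pairSum q a a' b b' N| /
      ((N : ℝ) ^ 2 * (QQ C1 P).card) ≤ B + ε / 4 * (1 + log X) := h1
  linarith

end Pool.Agent.LogCh
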