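import Pool.Agent.Lib.LogCh.ZThin

/-!
# A sector as a union of cells up to few boundary cells
-/

set_option autoImplicit false

namespace Pool.Agent.LogCh

open Real
open Pool.Agent.NSqP
open Pool.Agent.MP484c84Par (ballG mem_ballG crossG dotG)

/-- number of the cell of `z` -/
noncomputable def cix (M N : ℕ) (z : GaussianInt) : ℕ := ⌈(M : ℝ) * nN z / N⌉₊

lemma cix_iff {M N : ℕ} (hM : 1 ≤ M) (hN : 1 ≤ N) (z : GaussianInt) {i : ℕ} (hi : 1 ≤ i) :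
    cix M N z = i ↔ ((i : ℝ) - 1) / M * N < nN z ∧ (nN z : ℝ) ≤ (i : ℝ) / M * N := by
  have hM0 : (0 : ℝ) < M := by exact_mod_cast hM
  have hN0 : (0 : ℝ) < N := by exact_mod_cast hN
  unfold cix
  rw [Nat.ceil_eq_iff (by omega), Nat.cast_sub hi, Nat.cast_one, lt_div_iff₀ hN0, div_le_iff₀ hN0,
    div_mul_eq_mul_div, div_mul_eq_mul_div, div_lt_iff₀ hM0, le_div_iff₀ hM0, mul_comm (M : ℝ)]

/-- the indices of the cells contained in the sector -/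
def Good (α β : ℝ) (C M i j : ℕ) : Prop :=
  (i : ℝ) * j * C ^ 2 ≤ M ^ 2 ∧ α ^ 2 * j ≤ i - 1 ∧ (i : ℝ) + 1 ≤ β ^ 2 * (j - 1)

/-- the indices of the cells near the boundary of the sector -/
def Bad (α β : ℝ) (C M i j : ℕ) : Prop :=
  (((i : ℝ) - 1) * (j - 1) * C ^ 2 < M ^ 2 + 1 ∧ (M : ℝ) ^ 2 < i * j * C ^ 2) ∨
  (α ^ 2 * ((j : ℝ) - 1) < i + 1 ∧ (i : ℝ) - 1 < α ^ 2 * j) ∨
  ((i : ℝ) - 1 < β ^ 2 * j ∧ β ^ 2 * ((j : ℝ) - 1) < i + 1)

lemma sec_norms {α β : ℝ} (hα : 0 < α) {x : ℕ} {C : ℕ} (hC : β + 2 / α ≤ C) (hβ : 0 < β)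
    {p : GaussianInt × GaussianInt} (hp : p ∈ SEC α β x) :
    (nN p.1 : ℝ) ≤ (C * x : ℕ) ∧ (nN p.2 : ℝ) ≤ (C * x : ℕ) := by
  rw [mem_SEC] at hp
  obtain ⟨hp1, hp2, hp3⟩ := hp
  obtain ⟨f1, f2, f3, f4, f5⟩ := pair_facts hp1
  set n : ℝ := (dotG p.1 p.2 : ℝ) with hn
  have h2a : 0 < 2 / α := by positivity
  have hC0 : (0 : ℝ) ≤ C := Nat.cast_nonneg C
  push_cast
  constructor
  · calc (nN p.1 : ℝ) ≤ β * n := hp3
      _ ≤ C * x := mul_le_mul (by linarith) f2 (by linarith) hC0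
  · have h1 : (nN p.2 : ℝ) ≤ 2 / α * n := by
      have h2 : α * n * nN p.2 ≤ 2 * n ^ 2 := by
        calc α * n * nN p.2 ≤ nN p.1 * nN p.2 :=
              mul_le_mul_of_nonneg_right hp2.le (by linarith)
          _ = n ^ 2 + 1 := f5
          _ ≤ 2 * n ^ 2 := by nlinarith
      have h4 : α * nN p.2 ≤ 2 * n := by
        by_contra hcon
        push Not at hcon
        have : 0 < n * (α * nN p.2 - 2 * n) := mul_pos (by linarith) (by linarith)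
        nlinarith
      rw [div_mul_eq_mul_div, le_div_iff₀ hα]
      linarith
    calc (nN p.2 : ℝ) ≤ 2 / α * n := h1
      _ ≤ C * x := mul_le_mul (by linarith) f2 (by linarith) hC0

lemma sec_dpairs {α β : ℝ} (hα : 0 < α) {x : ℕ} {C : ℕ} (hC : β + 2 / α ≤ C) (hβ : 0 < β)
    {p : GaussianInt × GaussianInt} (hp : p ∈ SEC α β x) : p ∈ dpairs 1 (C * x) := by
  obtain ⟨h1, h2⟩ := sec_norms hα hC hβ hp
  rw [mem_SEC] at hp
  obtain ⟨f1, f2, f3, f4, f5⟩ := pair_facts hp.1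
  have hp1 := mem_PP.1 hp.1
  obtain ⟨hu, hv⟩ := z_prim_of_cross hp1.1
  unfold dpairs VV
  rw [Finset.mem_filter, Finset.mem_product, mem_pann (Nat.cast_nonneg _),
    mem_pann (Nat.cast_nonneg _)]
  exact ⟨⟨⟨⟨by linarith, h1⟩, hu⟩, ⟨by linarith, h2⟩, hv⟩, hp1.1, by omega⟩

lemma good_cell {α β : ℝ} (hα : 0 < α) (hβ : 0 < β) {C M x i j : ℕ} (hC : 1 ≤ C) (hM : 1 ≤ M)
    (hx : 1 ≤ x) (hi : 2 ≤ i) (hj : 2 ≤ j) (hg : Good α β C M i j)
    (hx0 : β ^ 2 * M ≤ C * x) {X : ℕ} {p : GaussianInt × GaussianInt} (hp : p ∈ PP X)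
    (h1 : ((i : ℝ) - 1) / M * (C * x : ℕ) < nN p.1) (h2 : (nN p.1 : ℝ) ≤ i / M * (C * x : ℕ))
    (h3 : ((j : ℝ) - 1) / M * (C * x : ℕ) < nN p.2) (h4 : (nN p.2 : ℝ) ≤ j / M * (C * x : ℕ)) :
    p ∈ SEC α β x := by
  obtain ⟨g1, g2, g3⟩ := hg
  obtain ⟨f1, f2, f3, f4, f5⟩ := pair_facts hp
  have hM0 : (0 : ℝ) < M := by exact_mod_cast hM
  have hC0 : (1 : ℝ) ≤ C := by exact_mod_cast hC
  have hx1 : (1 : ℝ) ≤ x := by exact_mod_cast hx
  have hi2 : (2 : ℝ) ≤ i := by exact_mod_cast hi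
  have hj2 : (2 : ℝ) ≤ j := by exact_mod_cast hj
  set n : ℝ := (dotG p.1 p.2 : ℝ) with hn
  set s : ℝ := (nN p.1 : ℝ) with hs
  set t : ℝ := (nN p.2 : ℝ) with ht
  set u : ℝ := (C : ℝ) * x / M with hu
  have hu0 : 0 < u := by positivity
  have hu1 : β ^ 2 ≤ u := by rw [hu, le_div_iff₀ hM0]; exact hx0
  have e1 : ∀ c : ℝ, c / M * ((C * x : ℕ) : ℝ) = c * u := by
    intro c
    push_cast
    rw [hu]
    field_simp
  rw [e1] at h1 h2 h3 h4
  have hs0 : 0 < s := by linarith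
  have ht0 : 0 < t := by linarith
  have hstu : s * t ≤ x ^ 2 := by
    have k1 : s * t ≤ (i * u) * (j * u) := mul_le_mul h2 h4 ht0.le (by positivity)
    have k2 : (i * u) * (j * u) = (i * j * C ^ 2) * (x ^ 2 / M ^ 2) := by
      rw [hu]
      field_simp
    have k3 : (i * j * C ^ 2 : ℝ) * (x ^ 2 / M ^ 2) ≤ M ^ 2 * (x ^ 2 / M ^ 2) :=
      mul_le_mul_of_nonneg_right g1 (by positivity)
    have k4 : (M : ℝ) ^ 2 * (x ^ 2 / M ^ 2) = x ^ 2 := by field_simp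
    linarith
  have hnx : n < x := by
    have : n ^ 2 < (x : ℝ) ^ 2 := by linarith
    exact lt_of_pow_lt_pow_left₀ 2 (by linarith) this
  have hαs : α * n < s := by
    have k1 : α ^ 2 * t ≤ (i - 1) * u := by
      calc α ^ 2 * t ≤ α ^ 2 * (j * u) := mul_le_mul_of_nonneg_left h4 (by positivity)
        _ = (α ^ 2 * j) * u := by ring
        _ ≤ (i - 1) * u := mul_le_mul_of_nonneg_right g2 hu0.le
    have k2 : s * (α ^ 2 * t) ≤ s * s := mul_le_mul_of_nonneg_left (by linarith) hs0.le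
    have k3 : (α * n) ^ 2 < s ^ 2 := by
      have : s * (α ^ 2 * t) = α ^ 2 * (n ^ 2 + 1) := by rw [← f5]; ring
      nlinarith [sq_nonneg α, mul_pos hα hα]
    exact lt_of_pow_lt_pow_left₀ 2 hs0.le k3
  have hβs : s ≤ β * n := by
    have k1 : s + β ^ 2 ≤ β ^ 2 * t := by
      calc s + β ^ 2 ≤ i * u + u := add_le_add h2 hu1
        _ = (i + 1) * u := by ring
        _ ≤ (β ^ 2 * (j - 1)) * u := mul_le_mul_of_nonneg_right g3 hu0.le
        _ = β ^ 2 * ((j - 1) * u) := by ring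
        _ ≤ β ^ 2 * t := mul_le_mul_of_nonneg_left h3.le (by positivity)
    have k2 : s * (s + β ^ 2) ≤ s * (β ^ 2 * t) := mul_le_mul_of_nonneg_left k1 hs0.le
    have k3 : s * (β ^ 2 * t) = β ^ 2 * (n ^ 2 + 1) := by rw [← f5]; ring
    have k4 : β ^ 2 ≤ s * β ^ 2 := by nlinarith [sq_nonneg β]
    have k5 : s ^ 2 ≤ (β * n) ^ 2 := by nlinarith
    exact le_of_sq_le_sq k5 (by positivity)
  rw [mem_SEC]
  refine ⟨?_, hαs, hβs⟩
  rw [mem_PP] at hp ⊢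
  refine ⟨hp.1, hp.2.1, ?_⟩
  have h9 : ((dotG p.1 p.2 : ℤ) : ℝ) < ((x : ℤ) : ℝ) := by
    rw [Int.cast_natCast]
    exact hnx
  exact (Int.cast_lt.1 h9).le

lemma bad_cell {α β : ℝ} (hα : 0 < α) (hβ : 0 < β) {C M x i j : ℕ} (hC : 1 ≤ C) (hM : 1 ≤ M)
    (hx : 1 ≤ x) (hMx : M ≤ x) (hi : 1 ≤ i) (hj : 1 ≤ j) (hg : ¬ Good α β C M i j)
    (hx0 : α ^ 2 * M ≤ C * x) {p : GaussianInt × GaussianInt} (hp : p ∈ SEC α β x)
    (h1 : ((i : ℝ) - 1) / M * (C * x : ℕ) < nN p.1) (h2 : (nN p.1 : ℝ) ≤ i / M * (C * x : ℕ))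
    (h3 : ((j : ℝ) - 1) / M * (C * x : ℕ) < nN p.2) (h4 : (nN p.2 : ℝ) ≤ j / M * (C * x : ℕ)) :
    Bad α β C M i j := by
  rw [mem_SEC] at hp
  obtain ⟨hp1, hp2, hp3⟩ := hp
  obtain ⟨f1, f2, f3, f4, f5⟩ := pair_facts hp1
  have hM0 : (0 : ℝ) < M := by exact_mod_cast hM
  have hC0 : (1 : ℝ) ≤ C := by exact_mod_cast hC
  have hx1 : (1 : ℝ) ≤ x := by exact_mod_cast hx
  have hMx' : (M : ℝ) ≤ x := by exact_mod_cast hMx
  have hi1 : (1 : ℝ) ≤ i := by exact_mod_cast hi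
  have hj1 : (1 : ℝ) ≤ j := by exact_mod_cast hj
  set n : ℝ := (dotG p.1 p.2 : ℝ) with hn
  set s : ℝ := (nN p.1 : ℝ) with hs
  set t : ℝ := (nN p.2 : ℝ) with ht
  set u : ℝ := (C : ℝ) * x / M with hu
  have hu0 : 0 < u := by positivity
  have hu1 : α ^ 2 ≤ u := by rw [hu, le_div_iff₀ hM0]; exact hx0
  have e1 : ∀ c : ℝ, c / M * ((C * x : ℕ) : ℝ) = c * u := by
    intro c
    push_cast
    rw [hu]
    field_simp
  rw [e1] at h1 h2 h3 h4
  have hs0 : 0 < s := by linarith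
  have ht0 : 0 < t := by linarith
  have b1 : ((i : ℝ) - 1) * (j - 1) * C ^ 2 < M ^ 2 + 1 := by
    have k0 : ((i : ℝ) - 1) * u * ((j - 1) * u) < s * t :=
      mul_lt_mul'' h1 h3 (mul_nonneg (by linarith) hu0.le) (mul_nonneg (by linarith) hu0.le)
    have k1 : ((i : ℝ) - 1) * u * ((j - 1) * u) < x ^ 2 + 1 := by nlinarith
    have k2 : ((i : ℝ) - 1) * u * ((j - 1) * u) =
        (((i : ℝ) - 1) * (j - 1) * C ^ 2) * (x ^ 2 / M ^ 2) := by
      rw [hu]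
      field_simp
    rw [k2] at k1
    have k3 : (x : ℝ) ^ 2 + 1 ≤ (M ^ 2 + 1) * (x ^ 2 / M ^ 2) := by
      have k4 : ((M : ℝ) ^ 2 + 1) * (x ^ 2 / M ^ 2) = x ^ 2 + x ^ 2 / M ^ 2 := by field_simp
      rw [k4]
      have k5 : 1 ≤ (x : ℝ) ^ 2 / M ^ 2 := by
        rw [le_div_iff₀ (by positivity), one_mul]
        exact pow_le_pow_left₀ hM0.le hMx' 2
      linarith
    exact lt_of_mul_lt_mul_right (k1.trans_le k3) (by positivity)
  have b2 : α ^ 2 * ((j : ℝ) - 1) < i + 1 := by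
    have k1 : (α * n) ^ 2 < s ^ 2 := pow_lt_pow_left₀ hp2 (by positivity) (by norm_num)
    have k2 : s * (α ^ 2 * t) = α ^ 2 * (n ^ 2 + 1) := by rw [← f5]; ring
    have k3 : α ^ 2 ≤ s * α ^ 2 := by nlinarith [sq_nonneg α]
    have k4 : s * (α ^ 2 * t) < s * (s + α ^ 2) := by nlinarith
    have k5 : α ^ 2 * t < s + α ^ 2 := lt_of_mul_lt_mul_left k4 hs0.le
    have k6 : (α ^ 2 * (j - 1)) * u < (i + 1) * u := by
      calc (α ^ 2 * ((j : ℝ) - 1)) * u = α ^ 2 * ((j - 1) * u) := by ring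
        _ ≤ α ^ 2 * t := mul_le_mul_of_nonneg_left h3.le (by positivity)
        _ < s + α ^ 2 := k5
        _ ≤ i * u + u := add_le_add h2 hu1
        _ = (i + 1) * u := by ring
    exact lt_of_mul_lt_mul_right k6 hu0.le
  have b3 : (i : ℝ) - 1 < β ^ 2 * j := by
    have k1 : s ^ 2 ≤ (β * n) ^ 2 := pow_le_pow_left₀ hs0.le hp3 2
    have k2 : s * (β ^ 2 * t) = β ^ 2 * (n ^ 2 + 1) := by rw [← f5]; ring
    have k4 : s * s < s * (β ^ 2 * t) := by nlinarith [mul_pos hβ hβ]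
    have k5 : s < β ^ 2 * t := lt_of_mul_lt_mul_left k4 hs0.le
    have k6 : ((i : ℝ) - 1) * u < (β ^ 2 * j) * u := by
      calc ((i : ℝ) - 1) * u < s := h1
        _ < β ^ 2 * t := k5
        _ ≤ β ^ 2 * (j * u) := mul_le_mul_of_nonneg_left h4 (by positivity)
        _ = (β ^ 2 * j) * u := by ring
    exact lt_of_mul_lt_mul_right k6 hu0.le
  unfold Good at hg
  unfold Bad
  by_cases c1 : (i : ℝ) * j * C ^ 2 ≤ M ^ 2
  · by_cases c2 : α ^ 2 * (j : ℝ) ≤ i - 1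
    · by_cases c3 : (i : ℝ) + 1 ≤ β ^ 2 * (j - 1)
      · exact absurd ⟨c1, c2, c3⟩ hg
      · push Not at c3
        exact Or.inr (Or.inr ⟨b3, c3⟩)
    · push Not at c2
      exact Or.inr (Or.inl ⟨b2, c2⟩)
  · push Not at c1
    exact Or.inl ⟨b1, c1⟩

lemma count_interval (y L : ℝ) (hL : 0 ≤ L) (T : Finset ℕ)
    (hT : ∀ i ∈ T, 1 ≤ i ∧ y < i ∧ (i : ℝ) ≤ y + L) : (T.card : ℝ) ≤ L + 1 := by
  have h1 : T ⊆ Finset.Ioc ⌊max y 0⌋₊ ⌊y + L⌋₊ := by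
    intro i hi
    obtain ⟨h1, h2, h3⟩ := hT i hi
    rw [Finset.mem_Ioc]
    constructor
    · rw [Nat.floor_lt (le_max_right _ _)]
      have : (0 : ℝ) < i := by exact_mod_cast h1
      exact max_lt h2 this
    · exact Nat.le_floor h3
  rcases T.eq_empty_or_nonempty with h0 | ⟨i, hi⟩
  · rw [h0, Finset.card_empty, Nat.cast_zero]
    linarith
  · obtain ⟨k1, k2, k3⟩ := hT i hi
    have hi1 : (1 : ℝ) ≤ i := by exact_mod_cast k1
    have h2 := Finset.card_le_card h1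
    rw [Nat.card_Ioc] at h2
    have h3 : (⌊y + L⌋₊ : ℝ) ≤ y + L := Nat.floor_le (by linarith)
    have h4 : max y 0 < (⌊max y 0⌋₊ : ℝ) + 1 := Nat.lt_floor_add_one _
    have h5 : y ≤ max y 0 := le_max_left _ _
    have hle : ⌊max y 0⌋₊ ≤ ⌊y + L⌋₊ := Nat.floor_le_floor (max_le (by linarith) (by linarith))
    have h6 : (T.card : ℝ) ≤ (⌊y + L⌋₊ : ℝ) - ⌊max y 0⌋₊ := by
      have : (T.card : ℝ) ≤ ((⌊y + L⌋₊ - ⌊max y 0⌋₊ : ℕ) : ℝ) := by exact_mod_cast h2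
      rwa [Nat.cast_sub hle] at this
    linarith

open Classical in
/-- the boundary cells with norms `> δ N` -/
noncomputable def BadS (α β δ : ℝ) (C M : ℕ) : Finset (ℕ × ℕ) :=
  (Finset.Icc 1 M ×ˢ Finset.Icc 1 M).filter (fun ij => δ ≤ ((ij.1 : ℝ) - 1) / M ∧
    δ ≤ ((ij.2 : ℝ) - 1) / M ∧ Bad α β C M ij.1 ij.2)

lemma badS_card {α β δ : ℝ} (hδ : 0 < δ) {C M : ℕ} (hC : 1 ≤ C) (hM : 1 ≤ M) :
    ((BadS α β δ C M).card : ℝ) ≤ (8 + 2 / δ ^ 2 + α ^ 2 + β ^ 2) * M := by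
  classical
  have hM0 : (1 : ℝ) ≤ M := by exact_mod_cast hM
  have hC0 : (1 : ℝ) ≤ C := by exact_mod_cast hC
  set T1 : ℕ → Finset ℕ := fun j => (Finset.Icc 1 M).filter (fun i : ℕ => δ ≤ ((j : ℝ) - 1) / M ∧
    ((i : ℝ) - 1) * (j - 1) * C ^ 2 < M ^ 2 + 1 ∧ (M : ℝ) ^ 2 < i * j * C ^ 2) with hT1
  set T2 : ℕ → Finset ℕ := fun j => (Finset.Icc 1 M).filter (fun i : ℕ =>
    α ^ 2 * ((j : ℝ) - 1) < i + 1 ∧ (i : ℝ) - 1 < α ^ 2 * j) with hT2
  set T3 : ℕ → Finset ℕ := fun j => (Finset.Icc 1 M).filter (fun i : ℕ =>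
    (i : ℝ) - 1 < β ^ 2 * j ∧ β ^ 2 * ((j : ℝ) - 1) < i + 1) with hT3
  have c1 : ∀ j ∈ Finset.Icc 1 M, ((T1 j).card : ℝ) ≤ 2 / δ ^ 2 + 1 + 1 := by
    intro j hj
    rw [Finset.mem_Icc] at hj
    have hj1 : (1 : ℝ) ≤ j := by exact_mod_cast hj.1
    have hjM : (j : ℝ) ≤ M := by exact_mod_cast hj.2
    apply count_interval ((M : ℝ) ^ 2 / (j * C ^ 2)) _ (by positivity)
    intro i hi
    simp only [hT1] at hi
    rw [Finset.mem_filter, Finset.mem_Icc] at hi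
    obtain ⟨⟨hi1, -⟩, h1, h2, h3⟩ := hi
    refine ⟨hi1, ?_, ?_⟩
    · rw [div_lt_iff₀ (by positivity)]
      linarith
    · have hd : δ * M ≤ j - 1 := by rwa [le_div_iff₀ (by linarith)] at h1
      have hj2 : (0 : ℝ) < j - 1 := lt_of_lt_of_le (by positivity) hd
      have h4 : (i : ℝ) - 1 < (M ^ 2 + 1) / ((j - 1) * C ^ 2) := by
        rw [lt_div_iff₀ (by positivity)]
        linarith
      have h5 : ((M : ℝ) ^ 2 + 1) / ((j - 1) * C ^ 2) - M ^ 2 / (j * C ^ 2) =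
          (M ^ 2 + j) / (j * (j - 1) * C ^ 2) := by
        field_simp
        ring
      have h6 : ((M : ℝ) ^ 2 + j) / (j * (j - 1) * C ^ 2) ≤ 2 / δ ^ 2 := by
        rw [div_le_div_iff₀ (by positivity) (by positivity)]
        have k1 : (M : ℝ) ^ 2 + j ≤ 2 * M ^ 2 := by nlinarith
        have k2 : (δ * M) ^ 2 ≤ j * (j - 1) * C ^ 2 := by
          have k3 : (δ * M) ^ 2 ≤ j * (j - 1) := by
            rw [sq]
            exact mul_le_mul (by linarith) hd (by positivity) (by linarith)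
          have k4 : (1 : ℝ) ≤ C ^ 2 := one_le_pow₀ hC0
          have k5 : (0 : ℝ) ≤ j * (j - 1) := by positivity
          nlinarith
        calc ((M : ℝ) ^ 2 + j) * δ ^ 2 ≤ 2 * M ^ 2 * δ ^ 2 :=
              mul_le_mul_of_nonneg_right k1 (by positivity)
          _ = 2 * (δ * M) ^ 2 := by ring
          _ ≤ 2 * (j * (j - 1) * C ^ 2) := by linarith
      linarith
  have c2 : ∀ j ∈ Finset.Icc 1 M, ((T2 j).card : ℝ) ≤ (α ^ 2 + 2) + 1 := by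
    intro j _
    apply count_interval (α ^ 2 * ((j : ℝ) - 1) - 1) _ (by positivity)
    intro i hi
    simp only [hT2] at hi
    rw [Finset.mem_filter, Finset.mem_Icc] at hi
    exact ⟨hi.1.1, by linarith [hi.2.1], by nlinarith [hi.2.2]⟩
  have c3 : ∀ j ∈ Finset.Icc 1 M, ((T3 j).card : ℝ) ≤ (β ^ 2 + 2) + 1 := by
    intro j _
    apply count_interval (β ^ 2 * ((j : ℝ) - 1) - 1) _ (by positivity)
    intro i hi
    simp only [hT3] at hi
    rw [Finset.mem_filter, Finset.mem_Icc] at hi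
    exact ⟨hi.1.1, by linarith [hi.2.2], by nlinarith [hi.2.1]⟩
  have hsub : BadS α β δ C M ⊆ (Finset.Icc 1 M).biUnion
      (fun j => (T1 j ∪ T2 j ∪ T3 j).image (fun i => (i, j))) := by
    rintro ⟨i, j⟩ hij
    unfold BadS at hij
    rw [Finset.mem_filter, Finset.mem_product] at hij
    obtain ⟨⟨hi, hj⟩, h1, h2, h3⟩ := hij
    rw [Finset.mem_biUnion]
    refine ⟨j, hj, ?_⟩
    rw [Finset.mem_image]
    refine ⟨i, ?_, rfl⟩
    rw [Finset.mem_union, Finset.mem_union]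
    simp only [hT1, hT2, hT3, Finset.mem_filter]
    rcases h3 with h3 | h3 | h3
    · exact Or.inl (Or.inl ⟨hi, h2, h3⟩)
    · exact Or.inl (Or.inr ⟨hi, h3⟩)
    · exact Or.inr ⟨hi, h3⟩
  have h1 : ((BadS α β δ C M).card : ℝ) ≤ ∑ j ∈ Finset.Icc 1 M,
      (((T1 j).card : ℝ) + (T2 j).card + (T3 j).card) := by
    have h2 : (BadS α β δ C M).card ≤ ∑ j ∈ Finset.Icc 1 M,
        ((T1 j).card + (T2 j).card + (T3 j).card) := by
      refine (Finset.card_le_card hsub).trans (Finset.card_biUnion_le.trans ?_)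
      refine Finset.sum_le_sum fun j _ => ?_
      refine Finset.card_image_le.trans ((Finset.card_union_le _ _).trans ?_)
      exact Nat.add_le_add_right (Finset.card_union_le _ _) _
    exact_mod_cast h2
  refine h1.trans ?_
  have h2 : ∑ j ∈ Finset.Icc 1 M, (((T1 j).card : ℝ) + (T2 j).card + (T3 j).card) ≤
      ∑ j ∈ Finset.Icc 1 M, (8 + 2 / δ ^ 2 + α ^ 2 + β ^ 2) := by
    refine Finset.sum_le_sum fun j hj => ?_
    have := c1 j hj
    have := c2 j hj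
    have := c3 j hj
    linarith
  refine h2.trans (le_of_eq ?_)
  rw [Finset.sum_const, Nat.card_Icc, nsmul_eq_mul]
  push_cast
  ring

end Pool.Agent.LogCh
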